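import Pool.Agent.H776.IsoT

/-!
# Dilations and translations
-/

set_option autoImplicit false

namespace Pool.Agent.H776

open MeasureTheory Set Filter Topology
open scoped ENNReal InnerProductSpace

variable {κ : Type} [Fintype κ]

/-- the inequality is invariant under `x ↦ c x - b` -/
theorem KP.affine {μ : Measure (Eu κ)} [IsProbabilityMeasure μ]
    (hi : Integrable (fun x => ‖x‖ ^ 2) μ) {c : ℝ} (hc : 0 < c) (b : Eu κ) {D : ℝ} (h : KP μ D) :
    KP (μ.map fun x => c • x - b) D := by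
  have hme : Measurable fun x : Eu κ => c • x - b := by fun_prop
  intro s hs hcov
  have hcov' : CovLe μ (s / c ^ 2) := by
    intro θ hθ
    have h1 := hcov θ hθ
    rw [ProbabilityTheory.variance_map (by fun_prop : Measurable fun x : Eu κ =>
      ⟪x, θ⟫_ℝ).aemeasurable hme.aemeasurable] at h1
    have e : ((fun x : Eu κ => ⟪x, θ⟫_ℝ) ∘ fun x => c • x - b) =
        fun x => c * ⟪x, θ⟫_ℝ - ⟪b, θ⟫_ℝ := by
      funext x
      simp only [Function.comp_apply, inner_sub_left, real_inner_smul_left]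
    rw [e, ProbabilityTheory.variance_sub_const
      (((grow_inner θ).integrable hi).const_mul c).aestronglyMeasurable,
      ProbabilityTheory.variance_const_mul] at h1
    rw [le_div_iff₀ (by positivity)]
    linarith
  have hP := h _ (by positivity : 0 < s / c ^ 2) hcov'
  intro f B L hf
  have hfc := hf.diff.continuous
  have hgrc : Continuous fun x => ‖fderiv ℝ f x‖ := (hf.diff.continuous_fderiv one_ne_zero).norm
  have hd : ∀ x, ‖fderiv ℝ (fun x => f (c • x - b)) x‖ = c * ‖fderiv ℝ f (c • x - b)‖ := by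
    intro x
    have h1 : HasFDerivAt (fun x : Eu κ => c • x - b) (c • ContinuousLinearMap.id ℝ (Eu κ)) x :=
      ((ContinuousLinearMap.hasFDerivAt (c • ContinuousLinearMap.id ℝ (Eu κ)))).sub_const b
    have h2 : HasFDerivAt f (fderiv ℝ f (c • x - b)) (c • x - b) :=
      ((hf.diff.differentiable one_ne_zero) _).hasFDerivAt
    have h3 : fderiv ℝ (fun x => f (c • x - b)) x =
        (fderiv ℝ f (c • x - b)).comp (c • ContinuousLinearMap.id ℝ (Eu κ)) :=
      (h2.comp x h1).fderiv
    rw [h3, ContinuousLinearMap.comp_smul, ContinuousLinearMap.comp_id, norm_smul,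
      Real.norm_of_nonneg hc.le]
  have hf' : Tst (fun x => f (c • x - b)) B (c * L) := by
    refine ⟨hf.diff.comp ((contDiff_const_smul c).sub contDiff_const), fun x => hf.bdd _,
      fun x => ?_⟩
    rw [hd]
    exact mul_le_mul_of_nonneg_left (hf.grad _) hc.le
  have h1 := hP _ B _ hf'
  have key : ∀ φ : Eu κ → ℝ, Continuous φ →
      ∫ x, φ x ∂(μ.map fun x => c • x - b) = ∫ x, φ (c • x - b) ∂μ :=
    fun φ hφ => integral_map hme.aemeasurable hφ.aestronglyMeasurable
  rw [key (fun x => f x ^ 2) (hfc.pow 2), key f hfc, key (fun x => ‖fderiv ℝ f x‖ ^ 2) (hgrc.pow 2)]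
  refine h1.trans (le_of_eq ?_)
  simp only [hd, mul_pow]
  rw [integral_const_mul]
  field_simp

/-- dilations of densities -/
theorem nm_dilate {g : Eu κ → ℝ} (h0 : ∀ x, 0 ≤ g x) (hm : Measurable g) {c : ℝ} (hc : 0 < c) :
    nm (fun y => g (c • y)) = (nm g).map fun x => c⁻¹ • x - 0 := by
  have hcr : ∀ F : Eu κ → ℝ, ∫ y, F (c • y) = |(c ^ Module.finrank ℝ (Eu κ))⁻¹| * ∫ y, F y := by
    intro F
    rw [Measure.integral_comp_smul, smul_eq_mul]
  refine Measure.ext fun S hS => ?_
  have hme : Measurable fun x : Eu κ => c⁻¹ • x - 0 := by fun_prop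
  have hc0 : 0 < |(c ^ Module.finrank ℝ (Eu κ))⁻¹| := by positivity
  rw [Measure.map_apply hme hS]
  unfold nm
  rw [withDensity_apply _ hS, withDensity_apply _ (hS.preimage hme), hcr g,
    ← lintegral_indicator hS, ← lintegral_indicator (hS.preimage hme)]
  have e1 : ∀ x : Eu κ, (S.indicator fun y => ENNReal.ofReal (g (c • y) /
      (|(c ^ Module.finrank ℝ (Eu κ))⁻¹| * ∫ y, g y))) x =
      ENNReal.ofReal (|(c ^ Module.finrank ℝ (Eu κ))⁻¹|)⁻¹ *
        (((fun x : Eu κ => c⁻¹ • x - 0) ⁻¹' S).indicator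
          fun y => ENNReal.ofReal (g y / ∫ y, g y)) (c • x) := by
    intro x
    have h2 : c • x ∈ (fun x : Eu κ => c⁻¹ • x - 0) ⁻¹' S ↔ x ∈ S := by
      rw [mem_preimage, sub_zero, smul_smul, inv_mul_cancel₀ hc.ne', one_smul]
    by_cases hx : x ∈ S
    · rw [indicator_of_mem hx, indicator_of_mem (h2.2 hx), ← ENNReal.ofReal_mul (by positivity)]
      congr 1
      field_simp
    · rw [indicator_of_notMem hx, indicator_of_notMem (fun h => hx (h2.1 h)), mul_zero]
  simp only [e1]
  rw [lintegral_const_mul' _ _ ENNReal.ofReal_ne_top]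
  have hF : Measurable (((fun x : Eu κ => c⁻¹ • x - 0) ⁻¹' S).indicator
      fun y => ENNReal.ofReal (g y / ∫ y, g y)) :=
    (hm.div_const _).ennreal_ofReal.indicator (hS.preimage hme)
  have h3 : ∫⁻ a : Eu κ, ((fun x : Eu κ => c⁻¹ • x - 0) ⁻¹' S).indicator
      (fun y => ENNReal.ofReal (g y / ∫ y, g y)) (c • a) =
      ENNReal.ofReal |(c ^ Module.finrank ℝ (Eu κ))⁻¹| *
        ∫⁻ a : Eu κ, ((fun x : Eu κ => c⁻¹ • x - 0) ⁻¹' S).indicator
          (fun y => ENNReal.ofReal (g y / ∫ y, g y)) a := by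
    rw [← lintegral_map hF (by fun_prop : Measurable fun a : Eu κ => c • a),
      Measure.map_addHaar_smul volume hc.ne', lintegral_smul_measure, smul_eq_mul]
  rw [h3, ← mul_assoc, ← ENNReal.ofReal_mul (by positivity), inv_mul_cancel₀ hc0.ne',
    ENNReal.ofReal_one, one_mul]

end Pool.Agent.H776
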