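import Pool.Agent.H776.MaxAff

/-!
# From maxima of affine functions to all log-concave densities
-/

set_option autoImplicit false

namespace Pool.Agent.H776

open MeasureTheory Set Filter Topology
open scoped ENNReal InnerProductSpace
open Q289.LD (Den Ex)

variable {κ : Type} [Fintype κ] {ρ : Eu κ → ℝ} {M c l : ℝ}

theorem wt_sl (hρ : Den ρ) (hE : Ex ρ M c) (hcl : c ≤ l) : Wt (sl ρ l) := by
  have hc := hE.2.1
  have hl : 0 < l := hc.trans_le hcl
  have hint : Integrable (fun x : Eu κ => (1 + ‖x‖ ^ 2) * (M * Real.exp (-(c * ‖x‖)))) := by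
    have := (Q38.LD.Lim.integ (κ := κ) hc).const_mul M
    refine this.congr (Eventually.of_forall fun x => ?_)
    simp only
    ring
  have h1 : Integrable (fun x : Eu κ => (1 + ‖x‖ ^ 2) * sl ρ l x) := by
    refine hint.mono' ((by fun_prop : Measurable fun x : Eu κ => 1 + ‖x‖ ^ 2).mul
      (sl_cont hρ hE hl.le).measurable).aestronglyMeasurable (Eventually.of_forall fun x => ?_)
    rw [Real.norm_of_nonneg (mul_nonneg (by positivity) (sl_pos hρ hE hl.le x).le)]
    exact mul_le_mul_of_nonneg_left (sl_le hρ hE hcl x) (by positivity)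
  have h2 : Integrable (sl ρ l) := by
    refine h1.mono' (sl_cont hρ hE hl.le).aestronglyMeasurable (Eventually.of_forall fun x => ?_)
    rw [Real.norm_of_nonneg (sl_pos hρ hE hl.le x).le]
    nlinarith [mul_nonneg (sq_nonneg ‖x‖) (sl_pos hρ hE hl.le x).le]
  refine ⟨fun x => (sl_pos hρ hE hl.le x).le, (sl_cont hρ hE hl.le).measurable, ?_, h1⟩
  have h3 : ∫ x, ρ x ≤ ∫ x, sl ρ l x := integral_mono_of_nonneg
    (Eventually.of_forall hρ.nonneg) h2 (Eventually.of_forall (le_sl hρ hE hl.le))
  rw [hρ.mass] at h3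
  linarith

theorem kp_of_sl {D : ℝ} (hD : 0 ≤ D) (hρ : Den ρ) (hE : Ex ρ M c)
    (step : ∀ l : ℝ, c ≤ l → KP (nm (sl ρ l)) D) : KP (nm ρ) D := by
  have hc := hE.2.1
  have hint : Integrable (fun x : Eu κ => (1 + ‖x‖ ^ 2) * (M * Real.exp (-(c * ‖x‖)))) := by
    have := (Q38.LD.Lim.integ (κ := κ) hc).const_mul M
    refine this.congr (Eventually.of_forall fun x => ?_)
    simp only
    ring
  have hwρ : Wt ρ := ⟨hρ.nonneg, hρ.meas, by rw [hρ.mass]; exact one_pos,
    (Q289.LD.tLIM κ ρ hρ).2.1⟩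
  have hprob := hwρ.prob
  obtain ⟨-, hW2⟩ := W2.of_dom (l := (atTop : Filter ℝ)) (g := sl ρ) (g' := ρ)
    (h := fun x => M * Real.exp (-(c * ‖x‖)))
    (by
      filter_upwards [eventually_ge_atTop c] with l hl x
      exact (sl_pos hρ hE (hc.le.trans hl) x).le)
    (by
      filter_upwards [eventually_ge_atTop c] with l hl
      exact (sl_cont hρ hE (hc.le.trans hl)).measurable)
    hwρ
    (by
      filter_upwards [eventually_ge_atTop c] with l hl x
      exact sl_le hρ hE hl x)
    hint
    (by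
      filter_upwards [Pool.Agent.Q124.LD.cae κ ρ hρ] with x hx
      exact sl_tendsto hρ hE hx)
  exact KP.lim hW2 hD ((eventually_ge_atTop c).mono step)

/-- the potential is convex -/
theorem neg_log_sl_convex (hρ : Den ρ) (hE : Ex ρ M c) (hl : 0 ≤ l) :
    ConvexOn ℝ univ fun x => -Real.log (sl ρ l x) := by
  refine ⟨convex_univ, fun x _ y _ a b ha hb hab => ?_⟩
  rcases ha.eq_or_lt with rfl | ha'
  · have : b = 1 := by linarith
    subst this
    simp
  rcases hb.eq_or_lt with rfl | hb'
  · have : a = 1 := by linarith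
    subst this
    simp
  have e : a = 1 - b := by linarith
  subst e
  have h1 := sl_lc hρ hE hl x y b hb' (by linarith)
  have hx := sl_pos hρ hE hl x
  have hy := sl_pos hρ hE hl y
  have h2 := Real.log_le_log (by positivity) h1
  rw [Real.log_mul (by positivity) (by positivity), Real.log_rpow hx, Real.log_rpow hy] at h2
  simp only [smul_eq_mul]
  linarith

/-- **all log-concave densities from maxima of affine functions** -/
theorem kp_all {D : ℝ} (hD : 0 ≤ D)
    (H : ∀ (J : Type) [Fintype J] [Nonempty J] (a : J → Eu κ) (b : J → ℝ) (c0 C0 : ℝ), 0 < c0 →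
      (∀ x, c0 * ‖x‖ - C0 ≤ mx a b x) → KP (nm fun x => Real.exp (-mx a b x)) D)
    (hρ : Den ρ) : KP (nm ρ) D := by
  obtain ⟨M, c, hE⟩ := Pool.Agent.Q124.LD.exp κ ρ hρ
  have hc := hE.2.1
  have hM := hE.1
  refine kp_of_sl hD hρ hE fun l hcl => ?_
  have hl : 0 < l := hc.trans_le hcl
  obtain ⟨G, hG⟩ : ∃ G : Eu κ → ℝ, G = fun x => -Real.log (sl ρ l x) := ⟨_, rfl⟩
  have hGc : Continuous G := by
    rw [hG]
    exact ((sl_cont hρ hE hl.le).log fun x => (sl_pos hρ hE hl.le x).ne').neg
  have hGcv : ConvexOn ℝ univ G := by rw [hG]; exact neg_log_sl_convex hρ hE hl.le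
  obtain ⟨L, d, hL1, hL2⟩ := hGcv.real_univ_sSup_of_nat_affine_eq hGc.lowerSemicontinuous
  have hGlow : ∀ x, c * ‖x‖ - Real.log M ≤ G x := fun x => by
    have h1 := Real.log_le_log (sl_pos hρ hE hl.le x) (sl_le hρ hE hcl x)
    rw [Real.log_mul hM.ne' (Real.exp_pos _).ne', Real.log_exp] at h1
    rw [hG]
    simp only
    linarith
  -- vectors
  obtain ⟨v, hv⟩ : ∃ v : ℕ → Eu κ, ∀ i x, ⟪v i, x⟫_ℝ = L i x :=
    ⟨fun i => (InnerProductSpace.toDual ℝ (Eu κ)).symm (L i), fun i x => by simp⟩
  classical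
  obtain ⟨aa, haa⟩ : ∃ aa : (n : ℕ) → (Fin (n + 1) ⊕ (κ × Bool)) → Eu κ, aa = fun n j =>
    Sum.elim (fun i : Fin (n + 1) => v i) (fun p : κ × Bool =>
      (if p.2 then c else -c) • EuclideanSpace.single p.1 (1 : ℝ)) j := ⟨_, rfl⟩
  obtain ⟨bb, hbb⟩ : ∃ bb : (n : ℕ) → (Fin (n + 1) ⊕ (κ × Bool)) → ℝ, bb = fun n j =>
    Sum.elim (fun i : Fin (n + 1) => d i) (fun _ : κ × Bool => -Real.log M) j := ⟨_, rfl⟩
  have haL : ∀ (n : ℕ) (i : Fin (n + 1)), aa n (Sum.inl i) = v i := fun n i => by rw [haa]; rfl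
  have hbL : ∀ (n : ℕ) (i : Fin (n + 1)), bb n (Sum.inl i) = d i := fun n i => by rw [hbb]; rfl
  have haR : ∀ (n : ℕ) (k : κ) (s : Bool), aa n (Sum.inr (k, s)) =
      (if s then c else -c) • EuclideanSpace.single k (1 : ℝ) := fun n k s => by rw [haa]; rfl
  have hbR : ∀ (n : ℕ) (p : κ × Bool), bb n (Sum.inr p) = -Real.log M := fun n p => by
    rw [hbb]; rfl
  have hin : ∀ (k : κ) (s : Bool) (x : Eu κ),
      ⟪(if s then c else -c) • EuclideanSpace.single k (1 : ℝ), x⟫_ℝ = (if s then c else -c) * x k := by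
    intro k s x
    rw [real_inner_smul_left, EuclideanSpace.inner_single_left]
    simp
  have hle : ∀ n x, mx (aa n) (bb n) x ≤ G x := by
    intro n x
    rw [mx_le_iff]
    rintro (i | ⟨k, s⟩)
    · rw [haL, hbL, hv]
      exact hL1 i x
    · rw [haR, hbR, hin]
      have h1 : |x k| ≤ ‖x‖ := by
        have := PiLp.norm_apply_le x k
        rwa [Real.norm_eq_abs] at this
      have h2 : (if s then c else -c) * x k ≤ c * ‖x‖ := by
        have h3 : (if s then c else -c) * x k ≤ c * |x k| := by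
          split_ifs
          · exact mul_le_mul_of_nonneg_left (le_abs_self _) hc.le
          · have := mul_le_mul_of_nonneg_left (neg_le_abs (x k)) hc.le
            linarith
        exact h3.trans (mul_le_mul_of_nonneg_left h1 hc.le)
      have := hGlow x
      linarith
  have hge : ∀ n j x, ⟪aa n j, x⟫_ℝ + bb n j ≤ mx (aa n) (bb n) x := fun n j x =>
    mx_le_iff.1 le_rfl j
  set c0 : ℝ := c / ((Fintype.card κ : ℝ) + 1) with hc0
  have hcard : (0 : ℝ) ≤ Fintype.card κ := Nat.cast_nonneg _
  have hc0p : 0 < c0 := by positivity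
  set C0 : ℝ := |Real.log M| + |d 0| with hC0
  have hlow : ∀ n x, c0 * ‖x‖ - C0 ≤ mx (aa n) (bb n) x := by
    intro n x
    rcases isEmpty_or_nonempty κ with hκ | hκ
    · have hx : x = 0 := Subsingleton.elim _ _
      have h1 := hge n (Sum.inl 0) x
      rw [haL, hbL] at h1
      subst hx
      rw [inner_zero_right] at h1
      rw [norm_zero, mul_zero]
      have h2 := neg_abs_le (d 0)
      have h3 := abs_nonneg (Real.log M)
      simp only [Fin.val_zero] at h1
      rw [hC0]
      linarith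
    · obtain ⟨k, hk⟩ := Finite.exists_max fun k => |x k|
      have h1 : ‖x‖ ≤ Fintype.card κ * |x k| := by
        have h2 : ‖x‖ ^ 2 ≤ (∑ i, |x i|) ^ 2 := by
          rw [EuclideanSpace.norm_sq_eq]
          simp only [Real.norm_eq_abs]
          exact Finset.sum_sq_le_sq_sum_of_nonneg fun i _ => abs_nonneg _
        have h3 : ‖x‖ ≤ ∑ i, |x i| :=
          (sq_le_sq₀ (norm_nonneg _) (Finset.sum_nonneg fun i _ => abs_nonneg _)).1 h2
        refine h3.trans ?_
        calc ∑ i, |x i| ≤ ∑ _i : κ, |x k| := Finset.sum_le_sum fun i _ => hk i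
          _ = _ := by rw [Finset.sum_const, nsmul_eq_mul, Finset.card_univ]
      have h4 : c0 * ‖x‖ ≤ c * |x k| := by
        rw [hc0, div_mul_eq_mul_div, div_le_iff₀ (by positivity)]
        have h5 := mul_le_mul_of_nonneg_left h1 hc.le
        have h6 : 0 ≤ c * |x k| := by positivity
        nlinarith
      have h7 : c * |x k| - Real.log M ≤ mx (aa n) (bb n) x := by
        rcases abs_cases (x k) with ⟨h8, -⟩ | ⟨h8, -⟩
        · have h9 := hge n (Sum.inr (k, true)) x
          rw [haR, hbR, hin] at h9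
          simp only [if_true] at h9
          rw [h8]
          linarith
        · have h9 := hge n (Sum.inr (k, false)) x
          rw [haR, hbR, hin] at h9
          simp only [Bool.false_eq_true, if_false] at h9
          rw [h8]
          linarith
      have h8 := le_abs_self (Real.log M)
      have h9 := abs_nonneg (d 0)
      rw [hC0]
      linarith
  have hlim : ∀ x, Tendsto (fun n => mx (aa n) (bb n) x) atTop (𝓝 (G x)) := by
    intro x
    refine tendsto_order.2 ⟨fun t ht => ?_, fun t ht => ?_⟩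
    · have h1 : (⨆ i, ((L i : Eu κ → ℝ) + Function.const (Eu κ) (d i))) x = G x := by rw [hL2]
      rw [iSup_apply] at h1
      rw [← h1] at ht
      obtain ⟨i, hi⟩ := exists_lt_of_lt_ciSup ht
      filter_upwards [eventually_ge_atTop i] with n hn
      have h2 := hge n (Sum.inl ⟨i, by omega⟩) x
      refine lt_of_lt_of_le ?_ h2
      rw [haL, hbL, hv]
      exact hi
    · exact Eventually.of_forall fun n => lt_of_le_of_lt (hle n x) ht
  have hesl : (fun x => Real.exp (-G x)) = sl ρ l := by
    funext x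
    rw [hG]
    simp only [neg_neg]
    exact Real.exp_log (sl_pos hρ hE hl.le x)
  have hw := wt_sl hρ hE hcl
  have hprob := hw.prob
  have hint : Integrable (fun x : Eu κ => (1 + ‖x‖ ^ 2) *
      (Real.exp C0 * Real.exp (-(c0 * ‖x‖)))) := by
    have := (Q38.LD.Lim.integ (κ := κ) hc0p).const_mul (Real.exp C0)
    refine this.congr (Eventually.of_forall fun x => ?_)
    simp only
    ring
  obtain ⟨-, hW2⟩ := W2.of_dom (l := (atTop : Filter ℕ))
    (g := fun n x => Real.exp (-mx (aa n) (bb n) x)) (g' := sl ρ l)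
    (h := fun x => Real.exp C0 * Real.exp (-(c0 * ‖x‖)))
    (Eventually.of_forall fun n x => (Real.exp_pos _).le)
    (Eventually.of_forall fun n => (Real.continuous_exp.comp (mx_cont _ _).neg).measurable)
    hw
    (Eventually.of_forall fun n x => by
      rw [← Real.exp_add]
      refine Real.exp_le_exp.2 ?_
      have := hlow n x
      linarith)
    hint
    (Eventually.of_forall fun x => by
      rw [← hesl]
      exact (Real.continuous_exp.tendsto _).comp (hlim x).neg)
  exact KP.lim hW2 hD (Eventually.of_forall fun n => H _ (aa n) (bb n) c0 C0 hc0p (hlow n))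

end Pool.Agent.H776
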