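import Pool.Agent.H776.Slack

/-!
# The inequality for exponential densities on polyhedra from the one for truncated Gaussian measures
-/

set_option autoImplicit false

namespace Pool.Agent.H776

open MeasureTheory Set Filter Topology
open scoped ENNReal InnerProductSpace

variable {κ J : Type} [Fintype κ] [Fintype J] {α : J → Eu κ} {β : J → ℝ} {h : Eu κ} {c C : ℝ}

theorem vol_haar (κ J : Type) [Fintype κ] [Fintype J] :
    (volume : Measure (Eu κ × Eu J)).IsAddHaarMeasure := by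
  change ((volume : Measure (Eu κ)).prod (volume : Measure (Eu J))).IsAddHaarMeasure
  infer_instance

theorem ep_le (hE : EP α β h c C) (v : Eu κ) :
    ep α β h v ≤ Real.exp |C| * Real.exp (-(c * ‖v‖)) := by
  unfold ep
  split_ifs with hv
  · have h1 := hE.coer v 0 le_rfl (fun j => by rw [add_zero]; exact hv j)
    rw [← Real.exp_add]
    refine Real.exp_le_exp.2 ?_
    have := le_abs_self C
    linarith
  · positivity

theorem wt_ep (hE : EP α β h c C) : Wt (ep α β h) := by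
  refine ⟨ep_nonneg, ep_meas, hE.pos, ?_⟩
  refine ((Q38.LD.Lim.integ (κ := κ) hE.cpos).const_mul (Real.exp |C|)).mono'
    ((by fun_prop : Measurable fun v : Eu κ => 1 + ‖v‖ ^ 2).mul ep_meas).aestronglyMeasurable
    (Eventually.of_forall fun v => ?_)
  rw [Real.norm_of_nonneg (mul_nonneg (by positivity) (ep_nonneg v))]
  calc (1 + ‖v‖ ^ 2) * ep α β h v ≤ (1 + ‖v‖ ^ 2) * (Real.exp |C| * Real.exp (-(c * ‖v‖))) :=
        mul_le_mul_of_nonneg_left (ep_le hE v) (by positivity)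
    _ = _ := by ring

/-- the change of variables as a continuous linear equivalence -/
noncomputable def ec (α : J → Eu κ) (a : ℝ) (ha : a ≠ 0) : (Eu κ × Eu J) ≃L[ℝ] Eu (κ ⊕ J) :=
  (ea α a ha).toContinuousLinearEquiv

theorem ec_apply (a : ℝ) (ha : a ≠ 0) (p : Eu κ × Eu J) :
    ec α a ha p = mk p.1 (WithLp.toLp 2 fun j => -a * ⟪α j, p.1⟫_ℝ + a ^ 2 * p.2 j) := rfl

theorem ga'_comp' {a : ℝ} (ha : 0 < a) (p : Eu κ × Eu J) :
    ga' α β h a ha.ne' (ec α a ha.ne' p + ba β κ a) = qq α β h a p := ga'_comp ha p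

theorem ga'_meas {a : ℝ} (ha : a ≠ 0) : Measurable (ga' α β h a ha) := by
  unfold ga'
  have m1 : MeasurableSet {y : Eu (κ ⊕ J) | ∀ i, 0 ≤ y i} := by
    rw [ofPred_forall]
    exact MeasurableSet.iInter fun i => measurableSet_le measurable_const (by fun_prop)
  have hc : Continuous fun y : Eu (κ ⊕ J) => Real.exp (‖h‖ ^ 2 / (2 * a)) *
      Real.exp (-(‖Aa α a ha (y - (ea α a ha (-(a⁻¹ • h), 0) + ba β κ a))‖ ^ 2 / 2)) := by
    have h1 : Continuous (Aa α a ha) := (Aa α a ha).continuous_of_finiteDimensional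
    fun_prop
  exact Measurable.ite m1 hc.measurable measurable_const

theorem ga'_nonneg {a : ℝ} (ha : a ≠ 0) (y : Eu (κ ⊕ J)) : 0 ≤ ga' α β h a ha y := by
  unfold ga'
  split_ifs
  · positivity
  · exact le_rfl

/-- the lost coordinates -/
theorem norm_pr_le {a : ℝ} (ha : 0 < a) (ha1 : a ≤ 1) (p : Eu κ × Eu J) :
    ‖pr (ec α a ha.ne' p + ba β κ a)‖ ^ 2 ≤
      a ^ 2 * (3 * (∑ j, (β j ^ 2 + ‖α j‖ ^ 2 + 1)) * ((1 + ‖p.1‖ ^ 2) * (1 + ‖p.2‖ ^ 2))) := by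
  rw [EuclideanSpace.norm_sq_eq]
  have h1 : ∀ j, ‖pr (ec α a ha.ne' p + ba β κ a) j‖ ^ 2 ≤
      a ^ 2 * (3 * (β j ^ 2 + ‖α j‖ ^ 2 + 1) * ((1 + ‖p.1‖ ^ 2) * (1 + ‖p.2‖ ^ 2))) := by
    intro j
    have e1 : pr (ec α a ha.ne' p + ba β κ a) j = a * (β j - ⟪α j, p.1⟫_ℝ + a * p.2 j) := by
      change (-a * ⟪α j, p.1⟫_ℝ + a ^ 2 * p.2 j) + a * β j = _
      ring
    rw [e1, Real.norm_eq_abs, sq_abs, mul_pow]
    refine mul_le_mul_of_nonneg_left ?_ (sq_nonneg a)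
    have h2 : ⟪α j, p.1⟫_ℝ ^ 2 ≤ ‖α j‖ ^ 2 * ‖p.1‖ ^ 2 := by
      have := abs_real_inner_le_norm (α j) p.1
      rw [← mul_pow, ← sq_abs]
      exact pow_le_pow_left₀ (abs_nonneg _) this 2
    have h3 : (a * p.2 j) ^ 2 ≤ ‖p.2‖ ^ 2 := by
      have h4 : |p.2 j| ≤ ‖p.2‖ := by
        have := PiLp.norm_apply_le p.2 j
        rwa [Real.norm_eq_abs] at this
      rw [← sq_abs (a * p.2 j), abs_mul, abs_of_pos ha]
      refine pow_le_pow_left₀ (by positivity) ?_ 2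
      calc a * |p.2 j| ≤ 1 * ‖p.2‖ := mul_le_mul ha1 h4 (abs_nonneg _) zero_le_one
        _ = _ := one_mul _
    have h5 : (β j - ⟪α j, p.1⟫_ℝ + a * p.2 j) ^ 2 ≤
        3 * (β j ^ 2 + ⟪α j, p.1⟫_ℝ ^ 2 + (a * p.2 j) ^ 2) := by
      nlinarith [sq_nonneg (β j + ⟪α j, p.1⟫_ℝ), sq_nonneg (β j - a * p.2 j),
        sq_nonneg (⟪α j, p.1⟫_ℝ + a * p.2 j)]
    have h6 : β j ^ 2 + ‖α j‖ ^ 2 * ‖p.1‖ ^ 2 + ‖p.2‖ ^ 2 ≤
        (β j ^ 2 + ‖α j‖ ^ 2 + 1) * ((1 + ‖p.1‖ ^ 2) * (1 + ‖p.2‖ ^ 2)) := by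
      have k1 : 0 ≤ β j ^ 2 := sq_nonneg _
      have k2 : 0 ≤ ‖α j‖ ^ 2 := sq_nonneg _
      have k3 : 0 ≤ ‖p.1‖ ^ 2 := sq_nonneg _
      have k4 : 0 ≤ ‖p.2‖ ^ 2 := sq_nonneg _
      nlinarith [mul_nonneg k1 k3, mul_nonneg k1 k4, mul_nonneg k2 k3, mul_nonneg k2 k4,
        mul_nonneg k3 k4, mul_nonneg (mul_nonneg k1 k3) k4, mul_nonneg (mul_nonneg k2 k3) k4]
    linarith
  refine (Finset.sum_le_sum fun j _ => h1 j).trans ?_
  rw [← Finset.mul_sum, ← Finset.sum_mul, ← Finset.mul_sum]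

theorem ga'_rep {a : ℝ} (ha : 0 < a) (φ : Eu (κ ⊕ J) → ℝ) :
    ∫ y, φ y ∂(nm (ga' α β h a ha.ne')) =
      (∫ p, φ (ec α a ha.ne' p + ba β κ a) * qq α β h a p) / ∫ p, qq α β h a p := by
  have := vol_haar κ J
  rw [integral_nm (ga'_nonneg ha.ne') (ga'_meas ha.ne'),
    integral_quot (volume : Measure (Eu κ × Eu J)) volume (ec α a ha.ne') (ba β κ a)]
  simp only [ga'_comp' ha]

theorem qq_mom_int (hE : EP α β h c C) {a : ℝ} (ha : 0 < a) (ha1 : a ≤ 1) :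
    Integrable (fun p : Eu κ × Eu J => (1 + ‖p.1‖ ^ 2) * (1 + ‖p.2‖ ^ 2) * qq α β h a p) := by
  refine ((mj_int (J := J) (κ := κ) hE.cpos).const_mul
    (Real.exp (|C| + (|C| + 1) ^ 2 / 2))).mono'
    (((by fun_prop : Measurable fun p : Eu κ × Eu J => (1 + ‖p.1‖ ^ 2) * (1 + ‖p.2‖ ^ 2)).mul
      (qq_meas a)).aestronglyMeasurable) (Eventually.of_forall fun p => ?_)
  rw [Real.norm_of_nonneg (mul_nonneg (by positivity) (qq_nonneg a p))]
  calc (1 + ‖p.1‖ ^ 2) * (1 + ‖p.2‖ ^ 2) * qq α β h a p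
      ≤ (1 + ‖p.1‖ ^ 2) * (1 + ‖p.2‖ ^ 2) *
        (Real.exp (|C| + (|C| + 1) ^ 2 / 2) * mj c κ J p) :=
        mul_le_mul_of_nonneg_left (qq_le hE ha ha1 p) (by positivity)
    _ = _ := by ring

theorem qq_mom_le (hE : EP α β h c C) {a : ℝ} (ha : 0 < a) (ha1 : a ≤ 1) :
    ∫ p : Eu κ × Eu J, (1 + ‖p.1‖ ^ 2) * (1 + ‖p.2‖ ^ 2) * qq α β h a p ≤
      Real.exp (|C| + (|C| + 1) ^ 2 / 2) *
        ∫ p : Eu κ × Eu J, (1 + ‖p.1‖ ^ 2) * (1 + ‖p.2‖ ^ 2) * mj c κ J p := by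
  rw [← integral_const_mul]
  refine integral_mono (qq_mom_int hE ha ha1) ((mj_int hE.cpos).const_mul _) fun p => ?_
  calc (1 + ‖p.1‖ ^ 2) * (1 + ‖p.2‖ ^ 2) * qq α β h a p
      ≤ (1 + ‖p.1‖ ^ 2) * (1 + ‖p.2‖ ^ 2) *
        (Real.exp (|C| + (|C| + 1) ^ 2 / 2) * mj c κ J p) :=
        mul_le_mul_of_nonneg_left (qq_le hE ha ha1 p) (by positivity)
    _ = _ := by ring

theorem wt_ga' (hE : EP α β h c C) {a : ℝ} (ha : 0 < a) (ha1 : a ≤ 1)
    (hpos : 0 < ∫ p, qq α β h a p) : Wt (ga' α β h a ha.ne') := by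
  have := vol_haar κ J
  refine ⟨ga'_nonneg ha.ne', ga'_meas ha.ne', ?_, ?_⟩
  · rw [← integral_pos_scale (volume : Measure (Eu κ × Eu J)) volume (ec α a ha.ne') (ba β κ a)]
    simpa only [ga'_comp' ha] using hpos
  · rw [← integrable_scale (volume : Measure (Eu κ × Eu J)) volume (ec α a ha.ne') (ba β κ a)]
    simp only [ga'_comp' ha]
    obtain ⟨K, hK⟩ : ∃ K : ℝ, ∀ p : Eu κ × Eu J, 1 + ‖ec α a ha.ne' p + ba β κ a‖ ^ 2 ≤
        K * ((1 + ‖p.1‖ ^ 2) * (1 + ‖p.2‖ ^ 2)) := by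
      refine ⟨1 + (2 + 2 * ‖(WithLp.toLp 2 fun _ => a⁻¹ : Eu κ)‖ ^ 2) +
        a ^ 2 * (3 * (∑ j, (β j ^ 2 + ‖α j‖ ^ 2 + 1))), fun p => ?_⟩
      rw [norm_sq_split]
      have h1 := norm_pr_le (α := α) (β := β) ha ha1 p
      have h2 : ‖pl (ec α a ha.ne' p + ba β κ a)‖ ^ 2 ≤
          (2 + 2 * ‖(WithLp.toLp 2 fun _ => a⁻¹ : Eu κ)‖ ^ 2) * ((1 + ‖p.1‖ ^ 2) * (1 + ‖p.2‖ ^ 2)) := by
        have e1 : pl (ec α a ha.ne' p + ba β κ a) = p.1 + (WithLp.toLp 2 fun _ => a⁻¹ : Eu κ) := rfl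
        rw [e1]
        have h3 : ‖p.1 + (WithLp.toLp 2 fun _ => a⁻¹ : Eu κ)‖ ^ 2 ≤
            (‖p.1‖ + ‖(WithLp.toLp 2 fun _ => a⁻¹ : Eu κ)‖) ^ 2 :=
          pow_le_pow_left₀ (norm_nonneg _) (norm_add_le _ _) 2
        set r := ‖(WithLp.toLp 2 fun _ => a⁻¹ : Eu κ)‖ with hr
        have k3 : 0 ≤ ‖p.1‖ ^ 2 := sq_nonneg _
        have k4 : 0 ≤ ‖p.2‖ ^ 2 := sq_nonneg _
        nlinarith [sq_nonneg (‖p.1‖ - r), mul_nonneg k3 k4, sq_nonneg r,
          mul_nonneg (sq_nonneg r) k3, mul_nonneg (sq_nonneg r) k4,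
          mul_nonneg (mul_nonneg (sq_nonneg r) k3) k4]
      have h3 : 1 ≤ (1 + ‖p.1‖ ^ 2) * (1 + ‖p.2‖ ^ 2) := by
        nlinarith [sq_nonneg ‖p.1‖, sq_nonneg ‖p.2‖, mul_nonneg (sq_nonneg ‖p.1‖) (sq_nonneg ‖p.2‖)]
      nlinarith
    refine ((qq_mom_int hE ha ha1).const_mul K).mono' ?_ (Eventually.of_forall fun p => ?_)
    · refine (Measurable.mul ?_ (qq_meas a)).aestronglyMeasurable
      have : Continuous fun p : Eu κ × Eu J => 1 + ‖ec α a ha.ne' p + ba β κ a‖ ^ 2 := by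
        have h1 : Continuous (ec α a ha.ne') := (ec α a ha.ne').continuous
        fun_prop
      exact this.measurable
    · rw [Real.norm_of_nonneg (mul_nonneg (by positivity) (qq_nonneg a p)), ← mul_assoc]
      exact mul_le_mul_of_nonneg_right (hK p) (qq_nonneg a p)

/-- **from truncated Gaussian measures to exponential densities on polyhedra** -/
theorem kp_ep {D : ℝ} (hD : 0 ≤ D)
    (H : ∀ (κ' : Type) [Fintype κ'] (g : Eu κ' → ℝ), NG g → Wt g → KP (nm g) D)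
    (hE : EP α β h c C) : KP (nm (ep α β h)) D := by
  have hw := wt_ep hE
  have hprob := hw.prob
  set Zg := ∫ w : Eu J, Real.exp (-(‖w‖ ^ 2 / 2)) with hZg
  have hZg0 : 0 < Zg := by
    rw [hZg, integral_pos_iff_support_of_nonneg (fun w => (Real.exp_pos _).le)]
    · have : Function.support (fun w : Eu J => Real.exp (-(‖w‖ ^ 2 / 2))) = univ := by
        ext w
        simp [(Real.exp_pos _).ne']
      rw [this]
      exact Measure.measure_univ_pos.2 (NeZero.ne _)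
    · have h1 := (Q38.LD.Lim.integ (κ := J) (one_pos)).const_mul (Real.exp 1)
      refine h1.mono' (by fun_prop) (Eventually.of_forall fun w => ?_)
      rw [Real.norm_of_nonneg (Real.exp_pos _).le]
      have h2 : Real.exp (-(‖w‖ ^ 2 / 2)) ≤ Real.exp 1 * Real.exp (-(1 * ‖w‖)) := by
        rw [← Real.exp_add]
        refine Real.exp_le_exp.2 ?_
        nlinarith [sq_nonneg (‖w‖ - 1)]
      refine h2.trans ?_
      have h3 : 0 < Real.exp 1 * Real.exp (-(1 * ‖w‖)) := by positivity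
      nlinarith [mul_nonneg (sq_nonneg ‖w‖) h3.le]
  -- the measures
  let ν : ℝ → Measure (Eu (κ ⊕ J)) := fun a => if ha : 0 < a then nm (ga' α β h a ha.ne') else 0
  have hν : ∀ {a : ℝ} (ha : 0 < a), ν a = nm (ga' α β h a ha.ne') := fun {a} ha => dif_pos ha
  have hlimZ : Tendsto (fun a : ℝ => ∫ p, qq α β h a p) (𝓝[>] 0) (𝓝 ((∫ v, ep α β h v) * Zg)) := by
    have h1 := qq_lim hE (φ := fun _ => 1) (grow_bdd continuous_const (B := 1) (by simp))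
    simpa using h1
  have hZ0 : 0 < (∫ v, ep α β h v) * Zg := mul_pos hE.pos hZg0
  have hev0 : ∀ᶠ a : ℝ in 𝓝[>] 0, 0 < a := self_mem_nhdsWithin
  have hev1 : ∀ᶠ a : ℝ in 𝓝[>] 0, a ≤ 1 := by
    filter_upwards [nhdsWithin_le_nhds (gt_mem_nhds (zero_lt_one' ℝ))] with a h2
    exact le_of_lt h2
  have hevZ : ∀ᶠ a : ℝ in 𝓝[>] 0, (∫ v, ep α β h v) * Zg / 2 < ∫ p, qq α β h a p :=
    hlimZ.eventually (lt_mem_nhds (by linarith))
  have hWt : ∀ᶠ a : ℝ in 𝓝[>] 0, ∃ ha : 0 < a, Wt (ga' α β h a ha.ne') := by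
    filter_upwards [hev0, hev1, hevZ] with a h1 h2 h3
    exact ⟨h1, wt_ga' hE h1 h2 (by linarith)⟩
  refine KP.lift (l := 𝓝[>] (0 : ℝ)) (K := fun _ => κ ⊕ J) (ν := ν)
    (T := fun _ => (plL : Eu (κ ⊕ J) →L[ℝ] Eu κ))
    (b := fun a => (WithLp.toLp 2 fun _ => a⁻¹ : Eu κ))
    (J := fun _ => (inL : Eu κ →L[ℝ] Eu (κ ⊕ J))) hD ?_ ?_
    (fun _ => plL_norm) (fun _ => inL_norm) ?_ ?_ ?_
  · filter_upwards [hWt] with a ⟨ha, hwa⟩
    rw [hν ha]
    exact hwa.prob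
  · filter_upwards [hWt] with a ⟨ha, hwa⟩
    rw [hν ha]
    exact hwa.int_sq
  · refine ⟨?_, ?_, hw.int_sq, ?_⟩
    · filter_upwards [hWt] with a ⟨ha, hwa⟩
      rw [hν ha]
      have := hwa.prob
      exact Measure.isProbabilityMeasure_map (by fun_prop)
    · filter_upwards [hWt] with a ⟨ha, hwa⟩
      rw [hν ha]
      have hp := hwa.prob
      set b : Eu κ := WithLp.toLp 2 fun _ => a⁻¹ with hb
      have hme : Measurable fun y : Eu (κ ⊕ J) => plL y - b := by fun_prop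
      rw [integrable_map_measure (by fun_prop) hme.aemeasurable]
      refine ((hwa.int_sq.const_mul 2).add (integrable_const (2 * ‖b‖ ^ 2))).mono' (by fun_prop)
        (Eventually.of_forall fun y => ?_)
      simp only [Function.comp_apply, Pi.add_apply]
      rw [Real.norm_of_nonneg (by positivity)]
      have h1 : ‖(plL : Eu (κ ⊕ J) →L[ℝ] Eu κ) y - b‖ ≤ ‖y‖ + ‖b‖ := by
        refine (norm_sub_le _ _).trans (add_le_add_left ?_ _)
        exact ((plL : Eu (κ ⊕ J) →L[ℝ] Eu κ).le_opNorm y).trans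
          (mul_le_of_le_one_left (norm_nonneg _) plL_norm)
      have h2 := pow_le_pow_left₀ (norm_nonneg _) h1 2
      nlinarith [sq_nonneg (‖y‖ - ‖b‖)]
    · intro φ hφ
      have h1 := (qq_lim hE hφ).div hlimZ hZ0.ne'
      rw [mul_div_mul_right _ _ hZg0.ne'] at h1
      rw [integral_nm ep_nonneg ep_meas]
      refine h1.congr' ?_
      filter_upwards [hev0] with a ha
      rw [hν ha]
      have hme : Measurable fun y : Eu (κ ⊕ J) =>
        plL y - (WithLp.toLp 2 fun _ => a⁻¹ : Eu κ) := by fun_prop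
      rw [integral_map hme.aemeasurable hφ.1.aestronglyMeasurable, ga'_rep ha]
      change (∫ p, φ p.1 * qq α β h a p) / (∫ p, qq α β h a p) = _
      congr 1
      refine integral_congr_ae (Eventually.of_forall fun p => ?_)
      simp only
      congr 2
      change p.1 = p.1 + (WithLp.toLp 2 fun _ => a⁻¹ : Eu κ) - (WithLp.toLp 2 fun _ => a⁻¹ : Eu κ)
      rw [add_sub_cancel_right]
  · intro η hη
    set K1 := 3 * (∑ j, (β j ^ 2 + ‖α j‖ ^ 2 + 1)) with hK1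
    have hK10 : 0 ≤ K1 := by positivity
    set K2 := Real.exp (|C| + (|C| + 1) ^ 2 / 2) *
        ∫ p : Eu κ × Eu J, (1 + ‖p.1‖ ^ 2) * (1 + ‖p.2‖ ^ 2) * mj c κ J p with hK2
    have hsmall : ∀ᶠ a : ℝ in 𝓝[>] 0, a ^ 2 * (K1 * K2) / ((∫ v, ep α β h v) * Zg / 2) ≤ η := by
      have h1 : Tendsto (fun a : ℝ => a ^ 2 * (K1 * K2) / ((∫ v, ep α β h v) * Zg / 2)) (𝓝[>] 0)
          (𝓝 (0 ^ 2 * (K1 * K2) / ((∫ v, ep α β h v) * Zg / 2))) := by
        refine Tendsto.mono_left ?_ nhdsWithin_le_nhds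
        refine Continuous.tendsto ?_ 0
        fun_prop
      have e : (0 : ℝ) ^ 2 * (K1 * K2) / ((∫ v, ep α β h v) * Zg / 2) = 0 := by ring
      rw [e] at h1
      exact (h1.eventually (gt_mem_nhds hη)).mono fun a ha => ha.le
    filter_upwards [hWt, hev1, hevZ, hsmall] with a ⟨ha, hwa⟩ ha1 hZa hsm
    intro θ hθ
    rw [hν ha]
    have hp := hwa.prob
    have hcont : Continuous fun y : Eu (κ ⊕ J) => ⟪y - inL (plL y), θ⟫_ℝ := by fun_prop
    refine (ProbabilityTheory.variance_le_expectation_sq hcont.aestronglyMeasurable).trans ?_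
    have e1 : ∫ y, ((fun y : Eu (κ ⊕ J) => ⟪y - inL (plL y), θ⟫_ℝ) ^ 2) y
        ∂(nm (ga' α β h a ha.ne')) = (∫ p, ⟪ec α a ha.ne' p + ba β κ a -
          inL (plL (ec α a ha.ne' p + ba β κ a)), θ⟫_ℝ ^ 2 * qq α β h a p) /
          ∫ p, qq α β h a p := ga'_rep ha fun y => ⟪y - inL (plL y), θ⟫_ℝ ^ 2
    rw [e1]
    have hqpos : 0 < ∫ p, qq α β h a p := by linarith
    have h1 : ∫ p, ⟪ec α a ha.ne' p + ba β κ a -
          inL (plL (ec α a ha.ne' p + ba β κ a)), θ⟫_ℝ ^ 2 * qq α β h a p ≤ a ^ 2 * (K1 * K2) := by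
      calc ∫ p, ⟪ec α a ha.ne' p + ba β κ a -
          inL (plL (ec α a ha.ne' p + ba β κ a)), θ⟫_ℝ ^ 2 * qq α β h a p
          ≤ ∫ p : Eu κ × Eu J, a ^ 2 * K1 * ((1 + ‖p.1‖ ^ 2) * (1 + ‖p.2‖ ^ 2) * qq α β h a p) := by
            refine integral_mono_of_nonneg (Eventually.of_forall fun p =>
              mul_nonneg (sq_nonneg _) (qq_nonneg a p)) ((qq_mom_int hE ha ha1).const_mul _)
              (Eventually.of_forall fun p => ?_)
            simp only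
            rw [← mul_assoc]
            refine mul_le_mul_of_nonneg_right ?_ (qq_nonneg a p)
            rw [sub_inL_pl]
            have h2 := abs_real_inner_le_norm
              (mk 0 (pr (ec α a ha.ne' p + ba β κ a)) : Eu (κ ⊕ J)) θ
            rw [hθ, mul_one] at h2
            calc ⟪(mk 0 (pr (ec α a ha.ne' p + ba β κ a)) : Eu (κ ⊕ J)), θ⟫_ℝ ^ 2
                = |⟪(mk 0 (pr (ec α a ha.ne' p + ba β κ a)) : Eu (κ ⊕ J)), θ⟫_ℝ| ^ 2 :=
                  (sq_abs _).symm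
              _ ≤ ‖(mk 0 (pr (ec α a ha.ne' p + ba β κ a)) : Eu (κ ⊕ J))‖ ^ 2 :=
                  pow_le_pow_left₀ (abs_nonneg _) h2 2
              _ = ‖pr (ec α a ha.ne' p + ba β κ a)‖ ^ 2 := by
                  rw [norm_mk_sq]; simp
              _ ≤ a ^ 2 * (K1 * ((1 + ‖p.1‖ ^ 2) * (1 + ‖p.2‖ ^ 2))) := norm_pr_le ha ha1 p
              _ = _ := by ring
        _ = a ^ 2 * K1 * ∫ p : Eu κ × Eu J, (1 + ‖p.1‖ ^ 2) * (1 + ‖p.2‖ ^ 2) * qq α β h a p :=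
            integral_const_mul _ _
        _ ≤ a ^ 2 * K1 * K2 := mul_le_mul_of_nonneg_left (qq_mom_le hE ha ha1) (by positivity)
        _ = _ := by ring
    have hK20 : 0 ≤ a ^ 2 * (K1 * K2) := by
      refine le_trans ?_ h1
      exact integral_nonneg fun p => mul_nonneg (sq_nonneg _) (qq_nonneg a p)
    calc _ ≤ a ^ 2 * (K1 * K2) / ∫ p, qq α β h a p := div_le_div_of_nonneg_right h1 hqpos.le
      _ ≤ a ^ 2 * (K1 * K2) / ((∫ v, ep α β h v) * Zg / 2) :=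
          div_le_div_of_nonneg_left hK20 (by linarith) hZa.le
      _ ≤ η := hsm
  · filter_upwards [hWt] with a ⟨ha, hwa⟩
    rw [hν ha]
    exact H (κ ⊕ J) _ (ga'_ng ha) hwa

end Pool.Agent.H776
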