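import Pool.Agent.H776.Net
import Pool.Agent.H776.Slack2

/-!
# Gaussian measures on orthants: removing nodes, second part
-/

set_option autoImplicit false

namespace Pool.Agent.H776

open MeasureTheory Set Filter Topology
open scoped ENNReal InnerProductSpace Matrix

section net2

variable {κ J G : Type} [Fintype κ] [Fintype J] [Fintype G]
  {Q₀ : Matrix κ κ ℝ} {lam : Matrix J κ ℝ} {S : Matrix (κ ⊕ J) (κ ⊕ J) ℝ}
  {P : Matrix G (κ ⊕ J) ℝ} {c a₀ : ℝ}

theorem qf_cont (Q : Matrix κ κ ℝ) : Continuous fun y : Eu κ => qf Q y := by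
  unfold qf
  fun_prop

theorem exp_half_meas {X : Type} [TopologicalSpace X] [MeasurableSpace X] [OpensMeasurableSpace X]
    {f : X → ℝ} (hf : Continuous f) : Measurable fun x => Real.exp (-(f x / 2)) :=
  (Real.continuous_exp.comp (hf.div_const 2).neg).measurable

theorem gq_nonneg (Q : Matrix κ κ ℝ) (y : Eu κ) : 0 ≤ gq Q y := by
  unfold gq
  split_ifs
  · exact (Real.exp_pos _).le
  · exact le_rfl

theorem gq_meas (Q : Matrix κ κ ℝ) : Measurable (gq Q) := by
  exact Measurable.ite orth_meas (exp_half_meas (qf_cont Q)) measurable_const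

theorem gq_cg {Q : Matrix κ κ ℝ} (hQ : Q.PosDef) : CG (gq Q) := by
  classical
  obtain ⟨A, hA, hx⟩ := exists_map hQ
  refine ⟨κ, inferInstance, A, 1, one_pos, hA, fun y => ?_⟩
  unfold gq
  have e : qf Q y = ‖A y‖ ^ 2 := (hx y).symm
  rw [e, one_mul]

theorem gq_pos {Q : Matrix κ κ ℝ} (hQ : Q.PosDef) : 0 < ∫ y, gq Q y := by
  have hcg := gq_cg hQ
  obtain ⟨F, _, A, c, hc, hA, hge⟩ := hcg
  obtain ⟨q, hq, hqA⟩ := exists_q hA
  have hi : Integrable (gq Q) := by
    refine ((exp_int hq hqA).const_mul c).mono' (gq_meas Q).aestronglyMeasurable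
      (Eventually.of_forall fun y => ?_)
    rw [Real.norm_of_nonneg (gq_nonneg Q y), hge]
    split_ifs
    · exact le_rfl
    · positivity
  rw [integral_pos_iff_support_of_nonneg (gq_nonneg Q) hi]
  have ho : IsOpen {y : Eu κ | ∀ i, 0 < y i} := by
    rw [ofPred_forall]
    exact isOpen_iInter_of_finite fun i => isOpen_lt continuous_const (by fun_prop)
  have hn : {y : Eu κ | ∀ i, 0 < y i}.Nonempty := ⟨WithLp.toLp 2 fun _ => 1, fun i => one_pos⟩
  refine lt_of_lt_of_le (ho.measure_pos volume hn) (measure_mono fun y hy => ?_)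
  rw [Function.mem_support]
  unfold gq
  rw [if_pos fun i => (hy i).le]
  exact (Real.exp_pos _).ne'

theorem wt_gq {Q : Matrix κ κ ℝ} (hQ : Q.PosDef) : Wt (gq Q) := wt_cg (gq_cg hQ) (gq_pos hQ)

open Classical in
/-- the densities in the variables `(y, ω)` -/
noncomputable def qn (Q₀ : Matrix κ κ ℝ) (lam : Matrix J κ ℝ) (S : Matrix (κ ⊕ J) (κ ⊕ J) ℝ)
    (P : Matrix G (κ ⊕ J) ℝ) (a : ℝ) (p : Eu κ × Eu J) : ℝ :=
  if (∀ i, 0 ≤ p.1 i) ∧ ∀ j, 0 ≤ (∑ i, lam j i * p.1 i) + a * p.2 j then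
    Real.exp (-(En Q₀ lam S P a p / 2)) else 0

theorem qn_nonneg (a : ℝ) (p : Eu κ × Eu J) : 0 ≤ qn Q₀ lam S P a p := by
  unfold qn
  split_ifs
  · exact (Real.exp_pos _).le
  · exact le_rfl

theorem lft_cont (u : κ ⊕ J) : Continuous fun p : Eu κ × Eu J => lft lam p.1 u := by
  rcases u with i | j
  · change Continuous fun p : Eu κ × Eu J => p.1 i
    fun_prop
  · change Continuous fun p : Eu κ × Eu J => ∑ i, lam j i * p.1 i
    fun_prop

theorem elim_cont (u : κ ⊕ J) :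
    Continuous fun p : Eu κ × Eu J => (Sum.elim (0 : κ → ℝ) p.2 : κ ⊕ J → ℝ) u := by
  rcases u with i | j
  · change Continuous fun p : Eu κ × Eu J => (0 : ℝ)
    fun_prop
  · change Continuous fun p : Eu κ × Eu J => p.2 j
    fun_prop

theorem pn_cont (P : Matrix G (κ ⊕ J) ℝ) : Continuous fun w : Eu J => pn P w := by
  unfold pn
  fun_prop

theorem bf_cont (S : Matrix (κ ⊕ J) (κ ⊕ J) ℝ) :
    Continuous fun p : Eu κ × Eu J => bf S (lft lam p.1) (Sum.elim 0 p.2) := by
  unfold bf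
  exact continuous_finset_sum _ fun u _ => continuous_finset_sum _ fun v _ =>
    (continuous_const.mul (lft_cont u)).mul (elim_cont v)

theorem qf_elim_cont (S : Matrix (κ ⊕ J) (κ ⊕ J) ℝ) :
    Continuous fun p : Eu κ × Eu J => qf S (Sum.elim 0 p.2) := by
  unfold qf
  exact continuous_finset_sum _ fun u _ => continuous_finset_sum _ fun v _ =>
    (continuous_const.mul (elim_cont u)).mul (elim_cont v)

theorem En_cont (a : ℝ) : Continuous fun p : Eu κ × Eu J => En Q₀ lam S P a p :=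
  ((((qf_cont Q₀).comp continuous_fst).add (continuous_const.mul (bf_cont S))).add
    (continuous_const.mul (qf_elim_cont S))).add ((pn_cont P).comp continuous_snd)

theorem En_cont' (p : Eu κ × Eu J) : Continuous fun a : ℝ => En Q₀ lam S P a p :=
  ((continuous_const.add ((continuous_const.mul continuous_id).mul continuous_const)).add
    ((continuous_id.pow 2).mul continuous_const)).add continuous_const

theorem qn_meas (a : ℝ) : Measurable (qn Q₀ lam S P a) := by
  unfold qn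
  have m1 : MeasurableSet {p : Eu κ × Eu J | ∀ i, 0 ≤ p.1 i} := by
    rw [ofPred_forall]
    exact MeasurableSet.iInter fun i => measurableSet_le measurable_const (by fun_prop)
  have m2 : MeasurableSet {p : Eu κ × Eu J | ∀ j, 0 ≤ (∑ i, lam j i * p.1 i) + a * p.2 j} := by
    rw [ofPred_forall]
    exact MeasurableSet.iInter fun j => measurableSet_le measurable_const (by fun_prop)
  exact Measurable.ite (m1.inter m2) (exp_half_meas (En_cont a)) measurable_const

theorem qn_le (hE : EB Q₀ lam S P c a₀) {a : ℝ} (ha : |a| ≤ a₀) (p : Eu κ × Eu J) :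
    qn Q₀ lam S P a p ≤ Real.exp (1 / c) * mj 1 κ J p := by
  have hc := hE.cpos
  unfold qn
  split_ifs
  · unfold mj
    rw [← Real.exp_add, ← Real.exp_add]
    refine Real.exp_le_exp.2 ?_
    have h1 := hE.low a ha p
    have h2 : ∀ x : ℝ, x ≤ c / 2 * x ^ 2 + 1 / (2 * c) := fun x => by
      have h3 : 0 ≤ (c * x - 1) ^ 2 := sq_nonneg _
      have h4 : c / 2 * x ^ 2 + 1 / (2 * c) - x = (c * x - 1) ^ 2 / (2 * c) := by
        field_simp
        ring
      have h5 : 0 ≤ (c * x - 1) ^ 2 / (2 * c) := by positivity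
      linarith
    have h3 := h2 ‖p.1‖
    have h4 := h2 ‖p.2‖
    have h5 : 1 / c = 1 / (2 * c) + 1 / (2 * c) := by field_simp; norm_num
    rw [h5]
    nlinarith
  · exact mul_nonneg (Real.exp_pos _).le (mul_nonneg (Real.exp_pos _).le (Real.exp_pos _).le)

theorem coord_ne : ∀ᵐ y : Eu κ, ∀ i, y i ≠ 0 := by
  classical
  rw [ae_all_iff]
  intro i
  have h2 : volume {y : Eu κ | y i = 0} = 0 := by
    have e1 : {y : Eu κ | y i = 0} =
        (LinearMap.ker (innerₗ (Eu κ) (EuclideanSpace.single i (1 : ℝ))) : Set (Eu κ)) := by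
      ext y
      simp only [mem_ofPred_eq, SetLike.mem_coe, LinearMap.mem_ker, innerₗ_apply_apply,
        EuclideanSpace.inner_single_left]
      simp
    rw [e1]
    refine Measure.addHaar_submodule volume _ fun htop => ?_
    have h3 : EuclideanSpace.single i (1 : ℝ) ∈
        (LinearMap.ker (innerₗ (Eu κ) (EuclideanSpace.single i (1 : ℝ)))) := by rw [htop]; trivial
    rw [LinearMap.mem_ker, innerₗ_apply_apply, EuclideanSpace.inner_single_left] at h3
    simp at h3
  rw [ae_iff]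
  simpa using h2

open Classical in
/-- the densities of the hidden coordinates -/
noncomputable def hz (lam : Matrix J κ ℝ) (P : Matrix G (κ ⊕ J) ℝ) (w : Eu J) : ℝ :=
  if ∀ j, (∀ i, lam j i = 0) → 0 ≤ w j then Real.exp (-(pn P w / 2)) else 0

theorem hz_nonneg (w : Eu J) : 0 ≤ hz lam P w := by
  unfold hz
  split_ifs
  · exact (Real.exp_pos _).le
  · exact le_rfl

theorem hz_le (w : Eu J) : hz lam P w ≤ Real.exp (-(pn P w / 2)) := by
  unfold hz
  split_ifs
  · exact le_rfl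
  · exact (Real.exp_pos _).le

theorem hz_meas : Measurable (hz lam P) := by
  unfold hz
  have m1 : MeasurableSet {w : Eu J | ∀ j, (∀ i, lam j i = 0) → 0 ≤ w j} := by
    rw [ofPred_forall]
    refine MeasurableSet.iInter fun j => ?_
    by_cases h : ∀ i, lam j i = 0
    · have : {w : Eu J | (∀ i, lam j i = 0) → 0 ≤ w j} = {w | 0 ≤ w j} := by
        ext w
        simp [h]
      rw [this]
      exact measurableSet_le measurable_const (by fun_prop)
    · have : {w : Eu J | (∀ i, lam j i = 0) → 0 ≤ w j} = univ := by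
        ext w
        simp [h]
      rw [this]
      exact MeasurableSet.univ
  exact Measurable.ite m1 (exp_half_meas (pn_cont P)) measurable_const

theorem qn_tendsto (h : Net Q₀ lam S P) :
    ∀ᵐ p : Eu κ × Eu J, Tendsto (fun a : ℝ => qn Q₀ lam S P a p) (𝓝[>] 0)
      (𝓝 (gq Q₀ p.1 * hz lam P p.2)) := by
  have h2 : ∀ᵐ p : Eu κ × Eu J, ∀ i, p.1 i ≠ 0 :=
    Measure.quasiMeasurePreserving_fst.ae coord_ne
  filter_upwards [h2] with p hp
  by_cases hin : ∀ i, 0 ≤ p.1 i
  · have hlt : ∀ i, 0 < p.1 i := fun i => lt_of_le_of_ne (hin i) (Ne.symm (hp i))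
    by_cases hzc : ∀ j, (∀ i, lam j i = 0) → 0 ≤ p.2 j
    · have e1 : gq Q₀ p.1 * hz lam P p.2 = Real.exp (-(En Q₀ lam S P 0 p / 2)) := by
        unfold gq hz
        rw [if_pos hin, if_pos hzc, ← Real.exp_add]
        congr 1
        unfold En
        ring
      rw [e1]
      have t1 : Tendsto (fun a : ℝ => Real.exp (-(En Q₀ lam S P a p / 2))) (𝓝[>] 0)
          (𝓝 (Real.exp (-(En Q₀ lam S P 0 p / 2)))) := by
        refine Tendsto.mono_left ?_ nhdsWithin_le_nhds
        exact (Real.continuous_exp.comp ((En_cont' p).div_const 2).neg).tendsto 0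
      refine t1.congr' ?_
      have t3 : ∀ j, ∀ᶠ a : ℝ in 𝓝[>] 0, 0 ≤ (∑ i, lam j i * p.1 i) + a * p.2 j := fun j => by
        by_cases hj : ∀ i, lam j i = 0
        · filter_upwards [self_mem_nhdsWithin] with a ha
          simp only [hj, zero_mul, Finset.sum_const_zero, zero_add]
          exact mul_nonneg (le_of_lt ha) (hzc j hj)
        · push Not at hj
          obtain ⟨i, hi⟩ := hj
          have hi' : 0 < lam j i := lt_of_le_of_ne (h.lam0 j i) (Ne.symm hi)
          have t4 : Tendsto (fun a : ℝ => (∑ i, lam j i * p.1 i) + a * p.2 j) (𝓝[>] 0)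
              (𝓝 ((∑ i, lam j i * p.1 i) + 0 * p.2 j)) := by
            refine Tendsto.mono_left ?_ nhdsWithin_le_nhds
            refine Continuous.tendsto ?_ 0
            fun_prop
          have h3 : 0 < (∑ i, lam j i * p.1 i) + 0 * p.2 j := by
            rw [zero_mul, add_zero]
            exact Finset.sum_pos' (fun i _ => mul_nonneg (h.lam0 j i) (hin i))
              ⟨i, Finset.mem_univ i, mul_pos hi' (hlt i)⟩
          exact (t4.eventually (lt_mem_nhds h3)).mono fun a ha => ha.le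
      filter_upwards [eventually_all.2 t3] with a ha
      unfold qn
      rw [if_pos ⟨hin, ha⟩]
    · have e1 : gq Q₀ p.1 * hz lam P p.2 = 0 := by
        unfold hz
        rw [if_neg hzc, mul_zero]
      rw [e1]
      push Not at hzc
      obtain ⟨j, hj, hj'⟩ := hzc
      refine tendsto_const_nhds.congr' ?_
      filter_upwards [self_mem_nhdsWithin] with a ha
      simp only [qn]
      rw [if_neg]
      intro h
      have h1 := h.2 j
      simp only [hj, zero_mul, Finset.sum_const_zero, zero_add] at h1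
      exact absurd h1 (not_le.2 (mul_neg_of_pos_of_neg ha hj'))
  · have e1 : gq Q₀ p.1 * hz lam P p.2 = 0 := by
      unfold gq
      rw [if_neg hin, zero_mul]
    rw [e1]
    refine tendsto_const_nhds.congr' (Eventually.of_forall fun a => ?_)
    simp only [qn]
    rw [if_neg fun h => hin h.1]

/-- limits of the integrals -/
theorem qn_lim (h : Net Q₀ lam S P) (hE : EB Q₀ lam S P c a₀) {φ : Eu κ → ℝ} (hφ : Grow φ) :
    Tendsto (fun a : ℝ => ∫ p, φ p.1 * qn Q₀ lam S P a p) (𝓝[>] 0)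
      (𝓝 ((∫ v, φ v * gq Q₀ v) * ∫ w : Eu J, hz lam P w)) := by
  obtain ⟨hc, B, hB⟩ := hφ
  have e1 : (∫ v, φ v * gq Q₀ v) * ∫ w : Eu J, hz lam P w =
      ∫ p : Eu κ × Eu J, φ p.1 * (gq Q₀ p.1 * hz lam P p.2) := by
    rw [← integral_prod_mul]
    refine integral_congr_ae (Eventually.of_forall fun p => ?_)
    simp only
    ring
  rw [e1]
  refine tendsto_integral_filter_of_dominated_convergence (fun p =>
    |B| * Real.exp (1 / c) *
      ((1 + ‖p.1‖ ^ 2) * (1 + ‖p.2‖ ^ 2) * mj 1 κ J p)) ?_ ?_ ((mj_int one_pos).const_mul _) ?_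
  · exact Eventually.of_forall fun a => ((hc.comp continuous_fst).aestronglyMeasurable).mul
      (qn_meas a).aestronglyMeasurable
  · have hev : ∀ᶠ a : ℝ in 𝓝[>] 0, |a| ≤ a₀ := by
      filter_upwards [self_mem_nhdsWithin, nhdsWithin_le_nhds (gt_mem_nhds hE.apos)] with a h1 h2
      rw [abs_of_pos h1]
      exact le_of_lt h2
    filter_upwards [hev] with a ha
    refine Eventually.of_forall fun p => ?_
    rw [Real.norm_eq_abs, abs_mul, abs_of_nonneg (qn_nonneg a p)]
    have h1 : |φ p.1| ≤ |B| * (1 + ‖p.1‖ ^ 2) :=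
      (hB _).trans (mul_le_mul_of_nonneg_right (le_abs_self B) (by positivity))
    have h2 := qn_le hE ha p
    have hm : 0 ≤ mj 1 κ J p := mul_nonneg (Real.exp_pos _).le (Real.exp_pos _).le
    calc |φ p.1| * qn Q₀ lam S P a p
        ≤ (|B| * (1 + ‖p.1‖ ^ 2)) * (Real.exp (1 / c) * mj 1 κ J p) :=
          mul_le_mul h1 h2 (qn_nonneg a p) (by positivity)
      _ = |B| * Real.exp (1 / c) * ((1 + ‖p.1‖ ^ 2) * 1 * mj 1 κ J p) := by ring
      _ ≤ _ := by
          refine mul_le_mul_of_nonneg_left ?_ (by positivity)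
          refine mul_le_mul_of_nonneg_right ?_ hm
          refine mul_le_mul_of_nonneg_left ?_ (by positivity)
          nlinarith [sq_nonneg ‖p.2‖]
  · filter_upwards [qn_tendsto h] with p hp
    exact hp.const_mul _

/-- weights -/
noncomputable def dd (κ J : Type) (a : ℝ) : κ ⊕ J → ℝ := Sum.elim (fun _ => 1) fun _ => a⁻¹

/-- the matrices of the big measures -/
noncomputable def Ma (S : Matrix (κ ⊕ J) (κ ⊕ J) ℝ) (P : Matrix G (κ ⊕ J) ℝ) (a : ℝ) :
    Matrix (κ ⊕ J) (κ ⊕ J) ℝ :=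
  Matrix.of fun u v => dd κ J a u * dd κ J a v * (S u v + a⁻¹ ^ 2 * ∑ g, P g u * P g v)

/-- the vectors for the change of variables -/
noncomputable def alN (lam : Matrix J κ ℝ) (j : J) : Eu κ := WithLp.toLp 2 fun i => -lam j i

theorem ec_al (a : ℝ) (ha : a ≠ 0) (p : Eu κ × Eu J) (u : κ ⊕ J) :
    dd κ J a u * ec (alN lam) a ha p u =
      lft lam p.1 u + a * (Sum.elim (0 : κ → ℝ) p.2 : κ ⊕ J → ℝ) u := by
  rcases u with i | j
  · rw [ec_apply]
    simp [dd, lft]
  · rw [ec_apply, mk_inr]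
    have h1 : ⟪alN lam j, p.1⟫_ℝ = -∑ i, lam j i * p.1 i := by
      rw [PiLp.inner_apply, ← Finset.sum_neg_distrib]
      refine Finset.sum_congr rfl fun i _ => ?_
      simp only [alN, RCLike.inner_apply, conj_trivial]
      ring
    change a⁻¹ * (-a * ⟪alN lam j, p.1⟫_ℝ + a ^ 2 * p.2 j) = (∑ i, lam j i * p.1 i) + a * p.2 j
    rw [h1]
    field_simp

theorem qf_Ma (h : Net Q₀ lam S P) {a : ℝ} (ha : a ≠ 0) (p : Eu κ × Eu J) :
    qf (Ma S P a) (ec (alN lam) a ha p) = En Q₀ lam S P a p := by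
  set Y := ec (alN lam) a ha p with hY
  have e1 : qf (Ma S P a) Y = qf S (fun u => dd κ J a u * Y u) +
      a⁻¹ ^ 2 * ∑ g, (∑ v, P g v * (dd κ J a v * Y v)) ^ 2 := by
    unfold qf Ma
    simp only [Matrix.of_apply]
    have e2 : ∑ g, (∑ v, P g v * (dd κ J a v * Y v)) ^ 2 =
        ∑ u, ∑ v, (∑ g, P g u * P g v) * (dd κ J a u * Y u) * (dd κ J a v * Y v) := by
      have e3 : ∀ g, (∑ v, P g v * (dd κ J a v * Y v)) ^ 2 =
          ∑ u, ∑ v, P g u * P g v * (dd κ J a u * Y u) * (dd κ J a v * Y v) := by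
        intro g
        rw [sq, Finset.sum_mul_sum]
        exact Finset.sum_congr rfl fun u _ => Finset.sum_congr rfl fun v _ => by ring
      simp only [e3, Finset.sum_mul]
      rw [Finset.sum_comm]
      refine Finset.sum_congr rfl fun u _ => ?_
      rw [Finset.sum_comm]
    rw [e2, Finset.mul_sum, ← Finset.sum_add_distrib]
    refine Finset.sum_congr rfl fun u _ => ?_
    rw [Finset.mul_sum, ← Finset.sum_add_distrib]
    refine Finset.sum_congr rfl fun v _ => ?_
    ring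
  have e4 : (fun u => dd κ J a u * Y u) =
      fun u => lft lam p.1 u + a * (Sum.elim (0 : κ → ℝ) p.2 : κ ⊕ J → ℝ) u := by
    funext u
    exact ec_al a ha p u
  have e5 : ∀ g, ∑ v, P g v * (dd κ J a v * Y v) = a * ∑ j, P g (Sum.inr j) * p.2 j := by
    intro g
    have : ∀ v, dd κ J a v * Y v = lft lam p.1 v + a * (Sum.elim (0 : κ → ℝ) p.2 : κ ⊕ J → ℝ) v :=
      fun v => ec_al a ha p v
    simp only [this, mul_add, Finset.sum_add_distrib]
    rw [h.van, zero_add, Fintype.sum_sum_type]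
    simp only [Sum.elim_inl, Pi.zero_apply, mul_zero, Finset.sum_const_zero, zero_add, Sum.elim_inr]
    rw [Finset.mul_sum]
    exact Finset.sum_congr rfl fun j _ => by ring
  rw [e1, e4, qf_add h.sym, h.frm]
  simp only [e5, mul_pow]
  rw [← Finset.mul_sum, ← mul_assoc, ← mul_pow, inv_mul_cancel₀ ha, one_pow, one_mul]
  unfold En pn
  rfl

theorem Ma_pd (h : Net Q₀ lam S P) (hE : EB Q₀ lam S P c a₀) {a : ℝ} (ha : 0 < a) (ha1 : a ≤ a₀) :
    (Ma S P a).PosDef := by
  refine Matrix.PosDef.of_dotProduct_mulVec_pos ?_ fun x hx0 => ?_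
  · ext u v
    simp only [Matrix.conjTranspose_apply, Ma, Matrix.of_apply, star_trivial]
    rw [h.sym v u]
    have : ∑ g, P g v * P g u = ∑ g, P g u * P g v :=
      Finset.sum_congr rfl fun g _ => mul_comm _ _
    rw [this]
    ring
  · have h1 : star x ⬝ᵥ (Ma S P a).mulVec x = qf (Ma S P a) x := by
      unfold qf
      simp only [dotProduct, Matrix.mulVec, star_trivial, Finset.mul_sum]
      refine Finset.sum_congr rfl fun i _ => Finset.sum_congr rfl fun j _ => ?_
      ring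
    rw [h1]
    obtain ⟨p, hp⟩ : ∃ p, ec (alN lam) a ha.ne' p = WithLp.toLp 2 x :=
      (ec (alN lam) a ha.ne').surjective _
    have h2 : qf (Ma S P a) x = En Q₀ lam S P a p := by
      rw [← qf_Ma h ha.ne', hp]
    rw [h2]
    have h3 := hE.low a (by rw [abs_of_pos ha]; exact ha1) p
    refine lt_of_lt_of_le ?_ h3
    refine mul_pos hE.cpos ?_
    by_contra h4
    have h5 : ‖p.1‖ = 0 ∧ ‖p.2‖ = 0 := by
      have h6 : ‖p.1‖ ^ 2 + ‖p.2‖ ^ 2 ≤ 0 := not_lt.1 h4
      constructor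
      · have : ‖p.1‖ ^ 2 = 0 := by nlinarith [sq_nonneg ‖p.1‖, sq_nonneg ‖p.2‖]
        exact (pow_eq_zero_iff two_ne_zero).1 this
      · have : ‖p.2‖ ^ 2 = 0 := by nlinarith [sq_nonneg ‖p.1‖, sq_nonneg ‖p.2‖]
        exact (pow_eq_zero_iff two_ne_zero).1 this
    have h6 : p = 0 := Prod.ext (norm_eq_zero.1 h5.1) (norm_eq_zero.1 h5.2)
    rw [h6, map_zero] at hp
    have h7 := congrArg WithLp.ofLp hp
    exact hx0 (by simpa using h7.symm)

theorem gq_comp (h : Net Q₀ lam S P) {a : ℝ} (ha : 0 < a) (p : Eu κ × Eu J) :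
    gq (Ma S P a) (ec (alN lam) a ha.ne' p) = qn Q₀ lam S P a p := by
  unfold gq qn
  rw [qf_Ma h ha.ne']
  have e1 : (∀ u, 0 ≤ ec (alN lam) a ha.ne' p u) ↔
      ((∀ i, 0 ≤ p.1 i) ∧ ∀ j, 0 ≤ (∑ i, lam j i * p.1 i) + a * p.2 j) := by
    have hd : ∀ u, 0 < dd κ J a u := by
      intro u
      rcases u with i | j
      · exact one_pos
      · exact inv_pos.2 ha
    have e2 : ∀ u, 0 ≤ ec (alN lam) a ha.ne' p u ↔
        0 ≤ lft lam p.1 u + a * (Sum.elim (0 : κ → ℝ) p.2 : κ ⊕ J → ℝ) u := by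
      intro u
      rw [← ec_al a ha.ne' p u]
      exact (mul_nonneg_iff_of_pos_left (hd u)).symm
    rw [forall_congr' e2, Sum.forall]
    refine and_congr (forall_congr' fun i => ?_) (forall_congr' fun j => ?_)
    · simp [lft]
    · simp [lft]
  by_cases hc : (∀ i, 0 ≤ p.1 i) ∧ ∀ j, 0 ≤ (∑ i, lam j i * p.1 i) + a * p.2 j
  · rw [if_pos hc, if_pos (e1.2 hc)]
  · rw [if_neg hc, if_neg fun h => hc (e1.1 h)]

/-- **removing nodes** -/
theorem kp_net {D : ℝ} (hD : 0 ≤ D) (h : Net Q₀ lam S P)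
    (H : ∀ Q : Matrix (κ ⊕ J) (κ ⊕ J) ℝ, Q.PosDef →
      (∀ u v, S u v = 0 → (∀ g, P g u = 0 ∨ P g v = 0) → Q u v = 0) → KP (nm (gq Q)) D) :
    KP (nm (gq Q₀)) D := by
  obtain ⟨c, a₀, hE⟩ := exists_eb h
  have hw := wt_gq h.pd
  have hprob := hw.prob
  set Zg := ∫ w : Eu J, hz lam P w with hZg
  have hZg0 : 0 < Zg := by
    obtain ⟨p₀, hp₀, hp⟩ := pn_low h
    have hcont : Continuous fun w : Eu J => pn P w := by
      unfold pn
      fun_prop
    rw [hZg, integral_pos_iff_support_of_nonneg (fun w => hz_nonneg w)]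
    · have ho : IsOpen {y : Eu J | ∀ i, 0 < y i} := by
        rw [ofPred_forall]
        exact isOpen_iInter_of_finite fun i => isOpen_lt continuous_const (by fun_prop)
      have hn : {y : Eu J | ∀ i, 0 < y i}.Nonempty :=
        ⟨WithLp.toLp 2 fun _ => 1, fun i => one_pos⟩
      refine lt_of_lt_of_le (ho.measure_pos volume hn) (measure_mono fun y hy => ?_)
      rw [Function.mem_support]
      unfold hz
      rw [if_pos fun i _ => (hy i).le]
      exact (Real.exp_pos _).ne'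
    · have h1 := (Q38.LD.Lim.integ (κ := J) (one_pos)).const_mul (Real.exp (1 / (2 * p₀)))
      refine h1.mono' hz_meas.aestronglyMeasurable (Eventually.of_forall fun w => ?_)
      rw [Real.norm_of_nonneg (hz_nonneg w)]
      refine (hz_le w).trans ?_
      have h2 : Real.exp (-(pn P w / 2)) ≤ Real.exp (1 / (2 * p₀)) * Real.exp (-(1 * ‖w‖)) := by
        rw [← Real.exp_add]
        refine Real.exp_le_exp.2 ?_
        have h3 := hp w
        have h4 : 0 ≤ (p₀ * ‖w‖ - 1) ^ 2 := sq_nonneg _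
        have h5 : p₀ * ‖w‖ ^ 2 / 2 + 1 / (2 * p₀) - ‖w‖ = (p₀ * ‖w‖ - 1) ^ 2 / (2 * p₀) := by
          field_simp
          ring
        have h6 : 0 ≤ (p₀ * ‖w‖ - 1) ^ 2 / (2 * p₀) := by positivity
        linarith
      refine h2.trans ?_
      have h3 : 0 < Real.exp (1 / (2 * p₀)) * Real.exp (-(1 * ‖w‖)) := by positivity
      nlinarith [mul_nonneg (sq_nonneg ‖w‖) h3.le]
  have hev0 : ∀ᶠ a : ℝ in 𝓝[>] 0, 0 < a := self_mem_nhdsWithin
  have hev1 : ∀ᶠ a : ℝ in 𝓝[>] 0, a ≤ a₀ := by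
    filter_upwards [nhdsWithin_le_nhds (gt_mem_nhds hE.apos)] with a h2
    exact le_of_lt h2
  have hWt : ∀ {a : ℝ}, 0 < a → a ≤ a₀ → Wt (gq (Ma S P a)) := fun {a} h1 h2 =>
    wt_gq (Ma_pd h hE h1 h2)
  have hrep : ∀ {a : ℝ} (ha : 0 < a) (_ : a ≤ a₀) (φ : Eu (κ ⊕ J) → ℝ),
      ∫ y, φ y ∂(nm (gq (Ma S P a))) =
        (∫ p, φ (ec (alN lam) a ha.ne' p) * qn Q₀ lam S P a p) / ∫ p, qn Q₀ lam S P a p := by
    intro a ha ha1 φ
    have := vol_haar κ J
    rw [integral_nm (gq_nonneg _) (gq_meas _),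
      integral_quot (volume : Measure (Eu κ × Eu J)) volume (ec (alN lam) a ha.ne') 0]
    simp only [add_zero, gq_comp h ha]
  have hpos : ∀ {a : ℝ}, 0 < a → a ≤ a₀ → 0 < ∫ p, qn Q₀ lam S P a p := by
    intro a ha ha1
    have := vol_haar κ J
    have h1 := (hWt ha ha1).pos
    rw [← integral_pos_scale (volume : Measure (Eu κ × Eu J)) volume (ec (alN lam) a ha.ne') 0] at h1
    simpa only [add_zero, gq_comp h ha] using h1
  have hlimZ : Tendsto (fun a : ℝ => ∫ p, qn Q₀ lam S P a p) (𝓝[>] 0)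
      (𝓝 ((∫ v, gq Q₀ v) * Zg)) := by
    have h1 := qn_lim h hE (φ := fun _ => 1) (grow_bdd continuous_const (B := 1) (by simp))
    simpa using h1
  have hZ0 : 0 < (∫ v, gq Q₀ v) * Zg := mul_pos hw.pos hZg0
  have hevZ : ∀ᶠ a : ℝ in 𝓝[>] 0, (∫ v, gq Q₀ v) * Zg / 2 < ∫ p, qn Q₀ lam S P a p :=
    hlimZ.eventually (lt_mem_nhds (by linarith))
  refine KP.lift (l := 𝓝[>] (0 : ℝ)) (K := fun _ => κ ⊕ J) (ν := fun a => nm (gq (Ma S P a)))
    (T := fun _ => (plL : Eu (κ ⊕ J) →L[ℝ] Eu κ))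
    (b := fun _ => 0)
    (J := fun _ => (inL : Eu κ →L[ℝ] Eu (κ ⊕ J))) hD ?_ ?_
    (fun _ => plL_norm) (fun _ => inL_norm) ?_ ?_ ?_
  · filter_upwards [hev0, hev1] with a h1 h2
    exact (hWt h1 h2).prob
  · filter_upwards [hev0, hev1] with a h1 h2
    exact (hWt h1 h2).int_sq
  · refine ⟨?_, ?_, hw.int_sq, ?_⟩
    · filter_upwards [hev0, hev1] with a h1 h2
      have := (hWt h1 h2).prob
      exact Measure.isProbabilityMeasure_map (by fun_prop)
    · filter_upwards [hev0, hev1] with a h1 h2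
      have hwa := hWt h1 h2
      have hp := hwa.prob
      have hme : Measurable fun y : Eu (κ ⊕ J) => plL y - (0 : Eu κ) := by fun_prop
      rw [integrable_map_measure (by fun_prop) hme.aemeasurable]
      refine hwa.int_sq.mono' (by fun_prop) (Eventually.of_forall fun y => ?_)
      simp only [Function.comp_apply, sub_zero]
      rw [Real.norm_of_nonneg (by positivity)]
      exact pow_le_pow_left₀ (norm_nonneg _)
        (((plL : Eu (κ ⊕ J) →L[ℝ] Eu κ).le_opNorm y).trans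
          (mul_le_of_le_one_left (norm_nonneg _) plL_norm)) 2
    · intro φ hφ
      have h1 := (qn_lim h hE hφ).div hlimZ hZ0.ne'
      rw [mul_div_mul_right _ _ hZg0.ne'] at h1
      rw [integral_nm (gq_nonneg _) (gq_meas _)]
      refine h1.congr' ?_
      filter_upwards [hev0, hev1] with a ha ha1
      have hme : Measurable fun y : Eu (κ ⊕ J) => plL y - (0 : Eu κ) := by fun_prop
      rw [integral_map hme.aemeasurable hφ.1.aestronglyMeasurable, hrep ha ha1]
      have e2 : ∀ p : Eu κ × Eu J, plL (ec (alN lam) a ha.ne' p) - (0 : Eu κ) = p.1 := by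
        intro p
        rw [sub_zero]
        rfl
      simp only [e2]
      rfl
  · intro η hη
    -- bound for the hidden coordinates
    obtain ⟨Kl, hKl0, hKl⟩ : ∃ Kl : ℝ, 0 ≤ Kl ∧ ∀ (a : ℝ) (ha : 0 < a) (_ : a ≤ 1)
        (p : Eu κ × Eu J), ‖pr (ec (alN lam) a ha.ne' p)‖ ^ 2 ≤
          a ^ 2 * (Kl * ((1 + ‖p.1‖ ^ 2) * (1 + ‖p.2‖ ^ 2))) := by
      refine ⟨∑ j, (2 * (∑ i, |lam j i|) ^ 2 + 2), by positivity, fun a ha ha1 p => ?_⟩
      rw [EuclideanSpace.norm_sq_eq, Finset.sum_mul, Finset.mul_sum]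
      refine Finset.sum_le_sum fun j _ => ?_
      have e1 : pr (ec (alN lam) a ha.ne' p) j = a * ((∑ i, lam j i * p.1 i) + a * p.2 j) := by
        have h3 := ec_al (lam := lam) a ha.ne' p (Sum.inr j)
        have h4 : dd κ J a (Sum.inr j) = a⁻¹ := rfl
        have h5 : lft lam p.1 (Sum.inr j) = ∑ i, lam j i * p.1 i := rfl
        rw [h4, h5, Sum.elim_inr] at h3
        rw [← h3, pr_apply, mul_inv_cancel_left₀ ha.ne']
      rw [e1, Real.norm_eq_abs, sq_abs, mul_pow]
      refine mul_le_mul_of_nonneg_left ?_ (sq_nonneg a)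
      have h2 : (∑ i, lam j i * p.1 i) ^ 2 ≤ (∑ i, |lam j i|) ^ 2 * ‖p.1‖ ^ 2 := by
        have h6 : |∑ i, lam j i * p.1 i| ≤ (∑ i, |lam j i|) * ‖p.1‖ := by
          refine (Finset.abs_sum_le_sum_abs _ _).trans ?_
          rw [Finset.sum_mul]
          refine Finset.sum_le_sum fun i _ => ?_
          rw [abs_mul]
          exact mul_le_mul_of_nonneg_left (abs_le_norm p.1 i) (abs_nonneg _)
        rw [← mul_pow, ← sq_abs (∑ i, lam j i * p.1 i)]
        exact pow_le_pow_left₀ (abs_nonneg _) h6 2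
      have h3 : (a * p.2 j) ^ 2 ≤ ‖p.2‖ ^ 2 := by
        rw [← sq_abs (a * p.2 j), abs_mul, abs_of_pos ha]
        refine pow_le_pow_left₀ (by positivity) ?_ 2
        calc a * |p.2 j| ≤ 1 * ‖p.2‖ := mul_le_mul ha1 (abs_le_norm _ _) (abs_nonneg _) zero_le_one
          _ = _ := one_mul _
      have h5 : ((∑ i, lam j i * p.1 i) + a * p.2 j) ^ 2 ≤
          2 * ((∑ i, |lam j i|) ^ 2 * ‖p.1‖ ^ 2) + 2 * ‖p.2‖ ^ 2 := by
        nlinarith [sq_nonneg ((∑ i, lam j i * p.1 i) - a * p.2 j)]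
      refine h5.trans ?_
      have k1 : 0 ≤ (∑ i, |lam j i|) ^ 2 := sq_nonneg _
      have k2 : 0 ≤ ‖p.1‖ ^ 2 := sq_nonneg _
      have k3 : 0 ≤ ‖p.2‖ ^ 2 := sq_nonneg _
      nlinarith [mul_nonneg k1 k3, mul_nonneg (mul_nonneg k1 k2) k3, mul_nonneg k2 k3]
    set K2 := Real.exp (1 / c) *
        ∫ p : Eu κ × Eu J, (1 + ‖p.1‖ ^ 2) * (1 + ‖p.2‖ ^ 2) * mj 1 κ J p with hK2
    have hmomi : ∀ {a : ℝ}, 0 < a → a ≤ a₀ → Integrable (fun p : Eu κ × Eu J =>
        (1 + ‖p.1‖ ^ 2) * (1 + ‖p.2‖ ^ 2) * qn Q₀ lam S P a p) := by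
      intro a ha ha1
      refine ((mj_int (J := J) (κ := κ) one_pos).const_mul (Real.exp (1 / c))).mono'
        (((by fun_prop : Measurable fun p : Eu κ × Eu J => (1 + ‖p.1‖ ^ 2) * (1 + ‖p.2‖ ^ 2)).mul
          (qn_meas a)).aestronglyMeasurable) (Eventually.of_forall fun p => ?_)
      rw [Real.norm_of_nonneg (mul_nonneg (by positivity) (qn_nonneg a p))]
      calc (1 + ‖p.1‖ ^ 2) * (1 + ‖p.2‖ ^ 2) * qn Q₀ lam S P a p
          ≤ (1 + ‖p.1‖ ^ 2) * (1 + ‖p.2‖ ^ 2) * (Real.exp (1 / c) * mj 1 κ J p) :=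
            mul_le_mul_of_nonneg_left (qn_le hE (by rw [abs_of_pos ha]; exact ha1) p)
              (by positivity)
        _ = _ := by ring
    have hmom : ∀ {a : ℝ}, 0 < a → a ≤ a₀ → ∫ p : Eu κ × Eu J,
        (1 + ‖p.1‖ ^ 2) * (1 + ‖p.2‖ ^ 2) * qn Q₀ lam S P a p ≤ K2 := by
      intro a ha ha1
      rw [hK2, ← integral_const_mul]
      refine integral_mono (hmomi ha ha1) ((mj_int one_pos).const_mul _) fun p => ?_
      calc (1 + ‖p.1‖ ^ 2) * (1 + ‖p.2‖ ^ 2) * qn Q₀ lam S P a p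
          ≤ (1 + ‖p.1‖ ^ 2) * (1 + ‖p.2‖ ^ 2) * (Real.exp (1 / c) * mj 1 κ J p) :=
            mul_le_mul_of_nonneg_left (qn_le hE (by rw [abs_of_pos ha]; exact ha1) p)
              (by positivity)
        _ = _ := by ring
    have hsmall : ∀ᶠ a : ℝ in 𝓝[>] 0, a ^ 2 * (Kl * K2) / ((∫ v, gq Q₀ v) * Zg / 2) ≤ η := by
      have h1 : Tendsto (fun a : ℝ => a ^ 2 * (Kl * K2) / ((∫ v, gq Q₀ v) * Zg / 2)) (𝓝[>] 0)
          (𝓝 (0 ^ 2 * (Kl * K2) / ((∫ v, gq Q₀ v) * Zg / 2))) := by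
        refine Tendsto.mono_left ?_ nhdsWithin_le_nhds
        refine Continuous.tendsto ?_ 0
        fun_prop
      have e : (0 : ℝ) ^ 2 * (Kl * K2) / ((∫ v, gq Q₀ v) * Zg / 2) = 0 := by ring
      rw [e] at h1
      exact (h1.eventually (gt_mem_nhds hη)).mono fun a ha => ha.le
    have hev2 : ∀ᶠ a : ℝ in 𝓝[>] 0, a ≤ 1 := by
      filter_upwards [nhdsWithin_le_nhds (gt_mem_nhds (zero_lt_one' ℝ))] with a h2
      exact le_of_lt h2
    filter_upwards [hev0, hev1, hev2, hevZ, hsmall] with a ha ha1 ha2 hZa hsm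
    intro θ hθ
    have hp := (hWt ha ha1).prob
    have hcont : Continuous fun y : Eu (κ ⊕ J) => ⟪y - inL (plL y), θ⟫_ℝ := by fun_prop
    refine (ProbabilityTheory.variance_le_expectation_sq hcont.aestronglyMeasurable).trans ?_
    have e1 := hrep ha ha1 (fun y => ⟪y - inL (plL y), θ⟫_ℝ ^ 2)
    refine (le_of_eq e1).trans ?_
    have hqpos := hpos ha ha1
    have h1 : ∫ p, ⟪ec (alN lam) a ha.ne' p - inL (plL (ec (alN lam) a ha.ne' p)), θ⟫_ℝ ^ 2 *
        qn Q₀ lam S P a p ≤ a ^ 2 * (Kl * K2) := by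
      calc ∫ p, ⟪ec (alN lam) a ha.ne' p - inL (plL (ec (alN lam) a ha.ne' p)), θ⟫_ℝ ^ 2 *
            qn Q₀ lam S P a p
          ≤ ∫ p : Eu κ × Eu J, a ^ 2 * Kl * ((1 + ‖p.1‖ ^ 2) * (1 + ‖p.2‖ ^ 2) *
            qn Q₀ lam S P a p) := by
            refine integral_mono_of_nonneg (Eventually.of_forall fun p =>
              mul_nonneg (sq_nonneg _) (qn_nonneg a p)) ((hmomi ha ha1).const_mul _)
              (Eventually.of_forall fun p => ?_)
            simp only
            rw [← mul_assoc]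
            refine mul_le_mul_of_nonneg_right ?_ (qn_nonneg a p)
            rw [sub_inL_pl]
            have h2 := abs_real_inner_le_norm
              (mk 0 (pr (ec (alN lam) a ha.ne' p)) : Eu (κ ⊕ J)) θ
            rw [hθ, mul_one] at h2
            calc ⟪(mk 0 (pr (ec (alN lam) a ha.ne' p)) : Eu (κ ⊕ J)), θ⟫_ℝ ^ 2
                = |⟪(mk 0 (pr (ec (alN lam) a ha.ne' p)) : Eu (κ ⊕ J)), θ⟫_ℝ| ^ 2 :=
                  (sq_abs _).symm
              _ ≤ ‖(mk 0 (pr (ec (alN lam) a ha.ne' p)) : Eu (κ ⊕ J))‖ ^ 2 :=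
                  pow_le_pow_left₀ (abs_nonneg _) h2 2
              _ = ‖pr (ec (alN lam) a ha.ne' p)‖ ^ 2 := by
                  rw [norm_mk_sq]; simp
              _ ≤ a ^ 2 * (Kl * ((1 + ‖p.1‖ ^ 2) * (1 + ‖p.2‖ ^ 2))) := hKl a ha ha2 p
              _ = _ := by ring
        _ = a ^ 2 * Kl * ∫ p : Eu κ × Eu J, (1 + ‖p.1‖ ^ 2) * (1 + ‖p.2‖ ^ 2) *
              qn Q₀ lam S P a p := integral_const_mul _ _
        _ ≤ a ^ 2 * Kl * K2 := mul_le_mul_of_nonneg_left (hmom ha ha1) (by positivity)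
        _ = _ := by ring
    have hK20 : 0 ≤ a ^ 2 * (Kl * K2) := by
      refine le_trans ?_ h1
      exact integral_nonneg fun p => mul_nonneg (sq_nonneg _) (qn_nonneg a p)
    calc _ ≤ a ^ 2 * (Kl * K2) / ∫ p, qn Q₀ lam S P a p := div_le_div_of_nonneg_right h1 hqpos.le
      _ ≤ a ^ 2 * (Kl * K2) / ((∫ v, gq Q₀ v) * Zg / 2) :=
          div_le_div_of_nonneg_left hK20 (by linarith) hZa.le
      _ ≤ η := hsm
  · filter_upwards [hev0, hev1] with a ha ha1
    refine H _ (Ma_pd h hE ha ha1) fun u v huv hg => ?_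
    simp only [Ma, Matrix.of_apply]
    have : ∑ g, P g u * P g v = 0 := Finset.sum_eq_zero fun g _ => by
      rcases hg g with h1 | h1
      · rw [h1, zero_mul]
      · rw [h1, mul_zero]
    rw [huv, this]
    ring

end net2

end Pool.Agent.H776
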