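import Pool.Agent.H776.Fib
import Pool.Agent.H776.Net2
import Pool.Agent.H776.Aff

/-!
# Amplification: marginals of bodies in the cube as limits of images of larger bodies
-/

set_option autoImplicit false

namespace Pool.Agent.H776

open MeasureTheory Set Filter Topology
open scoped ENNReal InnerProductSpace

section amp

variable {σ κ : Type} [Fintype σ] [Fintype κ]

/-- indices of the new coordinates -/
abbrev JM (κ : Type) (M : ℕ) : Type := Fin (M ^ 2) ⊕ (κ × Fin M)

/-- base -/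
def aB (K : Set (Eu σ)) : Set (Eu σ × ℝ) := K ×ˢ Icc 0 1

/-- lower bounds -/
def alo (v : κ → σ) (M : ℕ) : JM κ M → Eu σ × ℝ → ℝ :=
  Sum.elim (fun _ _ => 0) fun c x => max 0 (x.1 (v c.1) + x.2 - 1)

/-- upper bounds -/
def ahi (v : κ → σ) (M : ℕ) : JM κ M → Eu σ × ℝ → ℝ :=
  Sum.elim (fun _ x => x.2) fun c x => x.1 (v c.1)

/-- bodies in the unit cube -/
structure CB (K : Set (Eu σ)) : Prop where
  cpt : IsCompact K
  int : (interior K).Nonempty
  cube : ∀ s ∈ K, ∀ i, 0 ≤ s i ∧ s i ≤ 1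

variable {K : Set (Eu σ)} {v : κ → σ} {M : ℕ}

omit [Fintype κ] in
theorem aFib (hK : CB K) : FibD (aB K) (alo v M) (ahi v M) := by
  refine ⟨hK.cpt.prod isCompact_Icc, fun j => ?_, fun j => ?_, fun x hx j => ?_, fun x hx j => ?_,
    fun x hx j => ?_⟩
  · rcases j with j | c
    · exact continuous_const
    · change Continuous fun x : Eu σ × ℝ => max 0 (x.1 (v c.1) + x.2 - 1)
      fun_prop
  · rcases j with j | c
    · exact continuous_snd
    · change Continuous fun x : Eu σ × ℝ => x.1 (v c.1)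
      fun_prop
  · rcases j with j | c
    · exact le_rfl
    · exact le_max_left _ _
  · rcases j with j | c
    · exact hx.2.1
    · refine max_le (hK.cube _ hx.1 _).1 ?_
      have := hx.2.2
      change x.1 (v c.1) + x.2 - 1 ≤ x.1 (v c.1)
      linarith
  · rcases j with j | c
    · exact hx.2.2
    · exact (hK.cube _ hx.1 _).2

/-- product of the side lengths -/
noncomputable def GA (v : κ → σ) (M : ℕ) (x : Eu σ × ℝ) : ℝ :=
  x.2 ^ (M ^ 2) * ∏ i, (min (x.1 (v i)) (1 - x.2)) ^ M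

theorem prod_len (x : Eu σ × ℝ) : ∏ j, (ahi v M j x - alo v M j x) = GA v M x := by
  rw [Fintype.prod_sum_type, Fintype.prod_prod_type]
  unfold GA
  congr 1
  · simp [ahi, alo]
  · refine Finset.prod_congr rfl fun i _ => ?_
    have e : ∀ r : Fin M, ahi v M (Sum.inr (i, r)) x - alo v M (Sum.inr (i, r)) x =
        min (x.1 (v i)) (1 - x.2) := by
      intro r
      change x.1 (v i) - max 0 (x.1 (v i) + x.2 - 1) = min (x.1 (v i)) (1 - x.2)
      rcases le_total (x.1 (v i)) (1 - x.2) with h | h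
      · rw [min_eq_left h, max_eq_left (by linarith), sub_zero]
      · rw [min_eq_right h, max_eq_right (by linarith)]
        ring
    simp only [e, Finset.prod_const, Finset.card_univ, Fintype.card_fin]

theorem GA_cont : Continuous (GA v M : Eu σ × ℝ → ℝ) := by
  unfold GA
  fun_prop

theorem GA_nonneg (hK : CB K) {x : Eu σ × ℝ} (hx : x ∈ aB K) : 0 ≤ GA v M x := by
  unfold GA
  refine mul_nonneg (pow_nonneg hx.2.1 _) (Finset.prod_nonneg fun i _ => pow_nonneg ?_ _)
  exact le_min (hK.cube _ hx.1 _).1 (by linarith [hx.2.2])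

theorem GA_le (hK : CB K) {x : Eu σ × ℝ} (hx : x ∈ aB K) :
    GA v M x ≤ x.2 ^ (M ^ 2) * (1 - x.2) ^ (Fintype.card κ * M) := by
  unfold GA
  refine mul_le_mul_of_nonneg_left ?_ (pow_nonneg hx.2.1 _)
  calc ∏ i, (min (x.1 (v i)) (1 - x.2)) ^ M ≤ ∏ _i : κ, (1 - x.2) ^ M := by
        refine Finset.prod_le_prod (fun i _ => pow_nonneg ?_ _) fun i _ =>
          pow_le_pow_left₀ ?_ (min_le_right _ _) _
        · exact le_min (hK.cube _ hx.1 _).1 (by linarith [hx.2.2])
        · exact le_min (hK.cube _ hx.1 _).1 (by linarith [hx.2.2])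
    _ = _ := by
        rw [Finset.prod_const, Finset.card_univ, ← pow_mul, mul_comm M]

/-- the number of the small coordinates -/
abbrev kM (κ : Type) [Fintype κ] (M : ℕ) : ℕ := Fintype.card κ * M

theorem bI_flip (m L : ℕ) : ∫ f in (0 : ℝ)..1, f ^ L * (1 - f) ^ m = bI m L := by
  unfold bI
  have h := intervalIntegral.integral_comp_sub_left (a := 0) (b := 1)
    (fun e : ℝ => e ^ m * (1 - e) ^ L) 1
  rw [sub_self, sub_zero] at h
  rw [← h]
  refine intervalIntegral.integral_congr fun x _ => ?_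
  simp only [sub_sub_cancel]
  ring

/-- the base integrals -/
theorem fubA (hK : CB K) {F : Eu σ → ℝ} (hF : Continuous F) (n : ℕ) :
    Integrable (fun s => K.indicator
      (fun s => F s * ∫ f in (0 : ℝ)..1, (1 - f) ^ n * GA v M (s, f)) s) ∧
    ∫ p : (Eu σ × ℝ) × Eu (JM κ M), (F p.1.1 * (1 - p.1.2) ^ n) *
      wF (aB K) (alo v M) (ahi v M) p =
      ∫ s, K.indicator (fun s => F s * ∫ f in (0 : ℝ)..1, (1 - f) ^ n * GA v M (s, f)) s := by
  have h1 := fibM1 (aFib (v := v) (M := M) hK) (F := fun x => F x.1 * (1 - x.2) ^ n) (by fun_prop)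
  simp only [prod_len] at h1
  have h2 := integral_prod (μ := (volume : Measure (Eu σ))) (ν := (volume : Measure ℝ)) _ h1.1
  have h3 := Integrable.integral_prod_left (μ := (volume : Measure (Eu σ)))
    (ν := (volume : Measure ℝ)) h1.1
  have e : ∀ s, ∫ f, (aB K).indicator (fun x => F x.1 * (1 - x.2) ^ n * GA v M x) (s, f) =
      K.indicator (fun s => F s * ∫ f in (0 : ℝ)..1, (1 - f) ^ n * GA v M (s, f)) s := by
    intro s
    by_cases hs : s ∈ K
    · rw [indicator_of_mem hs, intervalIntegral.integral_of_le zero_le_one,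
        ← integral_Icc_eq_integral_Ioc, ← integral_indicator measurableSet_Icc,
        ← integral_const_mul]
      refine integral_congr_ae (Eventually.of_forall fun f => ?_)
      simp only
      by_cases hf : f ∈ Icc (0 : ℝ) 1
      · rw [indicator_of_mem (show (s, f) ∈ aB K from ⟨hs, hf⟩)]
        simp only [indicator_of_mem hf]
        ring
      · rw [indicator_of_notMem (show (s, f) ∉ aB K from fun h => hf h.2)]
        simp only [indicator_of_notMem hf, mul_zero]
    · rw [indicator_of_notMem hs]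
      have : ∀ f, (aB K).indicator (fun x => F x.1 * (1 - x.2) ^ n * GA v M x) (s, f) = 0 :=
        fun f => indicator_of_notMem (fun h => hs h.1) _
      simp only [this, integral_zero]
  simp only [e] at h2 h3
  refine ⟨h3, ?_⟩
  rw [h1.2]
  exact h2

theorem slice_nonneg (hK : CB K) {s : Eu σ} (hs : s ∈ K) (n : ℕ) :
    0 ≤ ∫ f in (0 : ℝ)..1, (1 - f) ^ n * GA v M (s, f) := by
  refine intervalIntegral.integral_nonneg zero_le_one fun f hf => ?_
  exact mul_nonneg (pow_nonneg (by linarith [hf.2]) _) (GA_nonneg hK ⟨hs, hf⟩)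

theorem slice_le (hK : CB K) {s : Eu σ} (hs : s ∈ K) (n : ℕ) :
    ∫ f in (0 : ℝ)..1, (1 - f) ^ n * GA v M (s, f) ≤ bI (kM κ M + n) (M ^ 2) := by
  rw [← bI_flip]
  have hc := (GA_cont (v := v) (M := M) (σ := σ))
  refine intervalIntegral.integral_mono_on zero_le_one ?_ ?_ fun f hf => ?_
  · exact Continuous.intervalIntegrable (by fun_prop) _ _
  · exact Continuous.intervalIntegrable (by fun_prop) _ _
  · have h1 := GA_le (v := v) (M := M) hK (x := (s, f)) ⟨hs, hf⟩
    calc (1 - f) ^ n * GA v M (s, f) ≤ (1 - f) ^ n * (f ^ (M ^ 2) * (1 - f) ^ (Fintype.card κ * M)) :=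
          mul_le_mul_of_nonneg_left h1 (pow_nonneg (by linarith [hf.2]) _)
      _ = _ := by ring

theorem slice_ge (hK : CB K) {s : Eu σ} (hs : s ∈ K) {ρ : ℝ} (hρ : 0 < ρ)
    (h : ∀ i, ρ ≤ s (v i)) :
    bI (kM κ M) (M ^ 2) - ρ⁻¹ * bI (kM κ M + 1) (M ^ 2) ≤
      ∫ f in (0 : ℝ)..1, (1 - f) ^ 0 * GA v M (s, f) := by
  have hc := (GA_cont (v := v) (M := M) (σ := σ))
  rw [← bI_flip, ← bI_flip, ← intervalIntegral.integral_const_mul,
    ← intervalIntegral.integral_sub (Continuous.intervalIntegrable (by fun_prop) _ _)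
      (Continuous.intervalIntegrable (by fun_prop) _ _)]
  refine intervalIntegral.integral_mono_on zero_le_one ?_ ?_ fun f hf => ?_
  · exact Continuous.intervalIntegrable (by fun_prop) _ _
  · exact Continuous.intervalIntegrable (by fun_prop) _ _
  · have h0 : 0 ≤ 1 - f := by linarith [hf.2]
    have e1 : f ^ (M ^ 2) * (1 - f) ^ (kM κ M) - ρ⁻¹ * (f ^ (M ^ 2) * (1 - f) ^ (kM κ M + 1)) =
        (f ^ (M ^ 2) * (1 - f) ^ (kM κ M)) * (1 - (1 - f) / ρ) := by
      rw [pow_succ (1 - f) (kM κ M), div_eq_mul_inv]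
      ring
    rw [e1, pow_zero, one_mul]
    rcases le_total (1 - f) ρ with h1 | h1
    · have e2 : GA v M (s, f) = f ^ (M ^ 2) * (1 - f) ^ (kM κ M) := by
        unfold GA
        have : ∀ i, min (s (v i)) (1 - f) = 1 - f := fun i => min_eq_right (h1.trans (h i))
        simp only [this, Finset.prod_const, Finset.card_univ, ← pow_mul]
        rw [mul_comm M]
      rw [e2]
      refine mul_le_of_le_one_right (mul_nonneg (pow_nonneg hf.1 _) (pow_nonneg h0 _)) ?_
      have : 0 ≤ (1 - f) / ρ := div_nonneg h0 hρ.le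
      linarith
    · have h2 : 1 ≤ (1 - f) / ρ := (one_le_div hρ).2 h1
      have h3 : 0 ≤ f ^ (M ^ 2) * (1 - f) ^ (kM κ M) :=
        mul_nonneg (pow_nonneg hf.1 _) (pow_nonneg h0 _)
      exact (mul_nonpos_of_nonneg_of_nonpos h3 (by linarith)).trans
        (GA_nonneg hK (x := (s, f)) ⟨hs, hf⟩)

theorem ratio1 (k : ℕ) : Tendsto (fun M : ℕ => bI (k * M + 1) (M ^ 2) / bI (k * M) (M ^ 2)) atTop
    (𝓝 0) := by
  have h1 : ∀ M : ℕ, bI (k * M + 1) (M ^ 2) / bI (k * M) (M ^ 2) =
      ((k : ℝ) * M + 1) / (k * M + M ^ 2 + 2) := by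
    intro M
    have h2 := bI_succ (k * M) (M ^ 2)
    push_cast at h2
    have h3 := (bI_pos (k * M) (M ^ 2)).ne'
    have h4 : ((k : ℝ) * M + M ^ 2 + 2) ≠ 0 := by positivity
    rw [div_eq_div_iff h3 h4]
    linarith
  simp only [h1]
  refine squeeze_zero' (g := fun M : ℕ => ((k : ℝ) + 1) / M)
    (Eventually.of_forall fun M => by positivity) ?_ ?_
  · filter_upwards [eventually_ge_atTop 1] with M hM
    have hM' : (1 : ℝ) ≤ M := by exact_mod_cast hM
    rw [div_le_div_iff₀ (by positivity) (by positivity)]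
    nlinarith [mul_nonneg (Nat.cast_nonneg k : (0 : ℝ) ≤ k) (sq_nonneg (M : ℝ))]
  · exact tendsto_const_div_atTop_nhds_zero_nat _

theorem ratio2 (k : ℕ) : Tendsto (fun M : ℕ => (M : ℝ) * (bI (k * M + 2) (M ^ 2) /
    bI (k * M) (M ^ 2))) atTop (𝓝 0) := by
  have h1 : ∀ M : ℕ, bI (k * M + 2) (M ^ 2) / bI (k * M) (M ^ 2) =
      ((k : ℝ) * M + 1) / (k * M + M ^ 2 + 2) * (((k : ℝ) * M + 2) / (k * M + M ^ 2 + 3)) := by
    intro M
    have h2 := bI_succ (k * M) (M ^ 2)
    have h2' := bI_succ (k * M + 1) (M ^ 2)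
    push_cast at h2 h2'
    have h3 := (bI_pos (k * M) (M ^ 2)).ne'
    have h3' := (bI_pos (k * M + 1) (M ^ 2)).ne'
    have h4 : ((k : ℝ) * M + M ^ 2 + 2) ≠ 0 := by positivity
    have h5 : ((k : ℝ) * M + M ^ 2 + 3) ≠ 0 := by positivity
    have e1 : bI (k * M + 1) (M ^ 2) / bI (k * M) (M ^ 2) =
        ((k : ℝ) * M + 1) / (k * M + M ^ 2 + 2) := by
      rw [div_eq_div_iff h3 h4]
      linarith
    have e2 : bI (k * M + 2) (M ^ 2) / bI (k * M + 1) (M ^ 2) =
        ((k : ℝ) * M + 2) / (k * M + M ^ 2 + 3) := by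
      rw [div_eq_div_iff h3' h5]
      rw [show k * M + 1 + 1 = k * M + 2 by ring] at h2'
      linarith
    rw [← e1, ← e2]
    field_simp
  simp only [h1]
  refine squeeze_zero' (g := fun M : ℕ => ((k : ℝ) + 2) ^ 2 / M)
    (Eventually.of_forall fun M => by positivity) ?_ ?_
  · filter_upwards [eventually_ge_atTop 1] with M hM
    have hM' : (1 : ℝ) ≤ M := by exact_mod_cast hM
    have hk : (0 : ℝ) ≤ k := Nat.cast_nonneg k
    have a1 : ((k : ℝ) * M + 1) / (k * M + M ^ 2 + 2) ≤ (k + 2) / M := by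
      rw [div_le_div_iff₀ (by positivity) (by positivity)]
      nlinarith [mul_nonneg hk (sq_nonneg (M : ℝ))]
    have a2 : ((k : ℝ) * M + 2) / (k * M + M ^ 2 + 3) ≤ (k + 2) / M := by
      rw [div_le_div_iff₀ (by positivity) (by positivity)]
      nlinarith [mul_nonneg hk (sq_nonneg (M : ℝ))]
    calc (M : ℝ) * (((k : ℝ) * M + 1) / (k * M + M ^ 2 + 2) *
          (((k : ℝ) * M + 2) / (k * M + M ^ 2 + 3)))
        ≤ M * ((k + 2) / M * ((k + 2) / M)) := by
          refine mul_le_mul_of_nonneg_left ?_ (by positivity)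
          exact mul_le_mul a1 a2 (by positivity) (by positivity)
      _ = _ := by
          field_simp
  · exact tendsto_const_div_atTop_nhds_zero_nat _

end amp

end Pool.Agent.H776
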