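import Pool.Agent.H776.Amp

/-!
# Amplification, second part: limits
-/

set_option autoImplicit false

namespace Pool.Agent.H776

open MeasureTheory Set Filter Topology
open scoped ENNReal InnerProductSpace

section amp2

variable {σ κ : Type} [Fintype σ] [Fintype κ] {K : Set (Eu σ)} {v : κ → σ} {M : ℕ}

theorem CB.pos (hK : CB K) : 0 < volume.real K :=
  ENNReal.toReal_pos (lt_of_lt_of_le (isOpen_interior.measure_pos volume hK.int)
    (measure_mono interior_subset)).ne' hK.cpt.measure_lt_top.ne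

/-- small total weights -/
noncomputable abbrev b0 (κ : Type) [Fintype κ] (M : ℕ) : ℝ := bI (kM κ M) (M ^ 2)

/-- limits of base integrals -/
theorem base_lim (hK : CB K) {φ : Eu σ → ℝ} (hφ : Continuous φ) :
    Tendsto (fun M : ℕ => (∫ p : (Eu σ × ℝ) × Eu (JM κ M), φ p.1.1 *
      wF (aB K) (alo v M) (ahi v M) p) / b0 κ M) atTop (𝓝 (∫ s, K.indicator φ s)) := by
  have e : ∀ M : ℕ, (∫ p : (Eu σ × ℝ) × Eu (JM κ M), φ p.1.1 *
      wF (aB K) (alo v M) (ahi v M) p) / b0 κ M = ∫ s, K.indicator (fun s => φ s *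
        ((∫ f in (0 : ℝ)..1, (1 - f) ^ 0 * GA v M (s, f)) / b0 κ M)) s := by
    intro M
    have h1 := (fubA (v := v) (M := M) hK hφ 0).2
    simp only [pow_zero, mul_one] at h1
    rw [h1, ← integral_div]
    refine integral_congr_ae (Eventually.of_forall fun s => ?_)
    simp only
    by_cases hs : s ∈ K
    · rw [indicator_of_mem hs, indicator_of_mem hs]
      simp only [pow_zero]
      ring
    · rw [indicator_of_notMem hs, indicator_of_notMem hs, zero_div]
  simp only [e]
  refine tendsto_integral_filter_of_dominated_convergence (fun s => K.indicator (fun s => |φ s|) s)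
    (Eventually.of_forall fun M => ?_) (Eventually.of_forall fun M => Eventually.of_forall fun s => ?_)
    ?_ ?_
  · have h1 := (fubA (v := v) (M := M) hK hφ 0).1.div_const (b0 κ M)
    refine h1.aestronglyMeasurable.congr (Eventually.of_forall fun s => ?_)
    simp only
    by_cases hs : s ∈ K
    · rw [indicator_of_mem hs, indicator_of_mem hs]
      ring
    · rw [indicator_of_notMem hs, indicator_of_notMem hs, zero_div]
  · by_cases hs : s ∈ K
    · rw [indicator_of_mem hs, indicator_of_mem hs, Real.norm_eq_abs, abs_mul]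
      refine mul_le_of_le_one_right (abs_nonneg _) ?_
      have h1 := slice_nonneg (v := v) (M := M) hK hs 0
      have h2 := slice_le (v := v) (M := M) hK hs 0
      have h3 := bI_pos (kM κ M) (M ^ 2)
      rw [abs_of_nonneg (div_nonneg h1 h3.le), div_le_one h3]
      exact h2
    · rw [indicator_of_notMem hs, indicator_of_notMem hs, norm_zero]
  · exact (integrable_indicator_iff hK.cpt.measurableSet).2
      (hφ.abs.continuousOn.integrableOn_compact hK.cpt)
  · filter_upwards [coord_ne (κ := σ)] with s hs0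
    by_cases hs : s ∈ K
    · simp only [indicator_of_mem hs]
      have hpos : ∀ i, 0 < s (v i) := fun i =>
        lt_of_le_of_ne (hK.cube s hs _).1 (Ne.symm (hs0 _))
      obtain ⟨ρ, hρ, hρi⟩ : ∃ ρ : ℝ, 0 < ρ ∧ ∀ i, ρ ≤ s (v i) := by
        rcases isEmpty_or_nonempty κ with hκ | hκ
        · exact ⟨1, one_pos, fun i => (hκ.false i).elim⟩
        · obtain ⟨i₀, hi₀⟩ := Finite.exists_min fun i => s (v i)
          exact ⟨s (v i₀), hpos _, hi₀⟩
      have h1 : Tendsto (fun M : ℕ => (∫ f in (0 : ℝ)..1, (1 - f) ^ 0 * GA v M (s, f)) / b0 κ M)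
          atTop (𝓝 1) := by
        have h2 : Tendsto (fun M : ℕ => 1 - ρ⁻¹ * (bI (Fintype.card κ * M + 1) (M ^ 2) /
            bI (Fintype.card κ * M) (M ^ 2))) atTop (𝓝 (1 - ρ⁻¹ * 0)) :=
          ((ratio1 (Fintype.card κ)).const_mul _).const_sub 1
        rw [mul_zero, sub_zero] at h2
        refine tendsto_of_tendsto_of_tendsto_of_le_of_le h2 tendsto_const_nhds (fun M => ?_)
          fun M => ?_
        · have h3 := bI_pos (kM κ M) (M ^ 2)
          rw [le_div_iff₀ h3]
          refine le_trans (le_of_eq ?_) (slice_ge (v := v) (M := M) hK hs hρ hρi)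
          have h4 := h3.ne'
          field_simp
        · have h3 := bI_pos (kM κ M) (M ^ 2)
          simp only
          rw [div_le_one h3]
          exact slice_le (v := v) (M := M) hK hs 0
      simpa using h1.const_mul (φ s)
    · simp only [indicator_of_notMem hs]
      exact tendsto_const_nhds

theorem one_lim (hK : CB K) :
    Tendsto (fun M : ℕ => (∫ p : (Eu σ × ℝ) × Eu (JM κ M),
      wF (aB K) (alo v M) (ahi v M) p) / b0 κ M) atTop (𝓝 (volume.real K)) := by
  have h1 := base_lim (v := v) hK (φ := fun _ => (1 : ℝ)) continuous_const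
  simp only [one_mul] at h1
  rwa [integral_indicator hK.cpt.measurableSet, setIntegral_const, smul_eq_mul, mul_one] at h1

/-- moments of the small coordinate -/
theorem small_mom (hK : CB K) (n : ℕ) :
    ∫ p : (Eu σ × ℝ) × Eu (JM κ M), (1 - p.1.2) ^ n * wF (aB K) (alo v M) (ahi v M) p ≤
      volume.real K * bI (kM κ M + n) (M ^ 2) := by
  have h1 := (fubA (v := v) (M := M) hK (F := fun _ => 1) continuous_const n)
  simp only [one_mul] at h1
  rw [h1.2, show volume.real K * bI (kM κ M + n) (M ^ 2) =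
    ∫ s, K.indicator (fun _ => bI (kM κ M + n) (M ^ 2)) s by
      rw [integral_indicator hK.cpt.measurableSet, setIntegral_const, smul_eq_mul]]
  refine integral_mono h1.1 ((integrable_indicator_iff hK.cpt.measurableSet).2
    (continuousOn_const.integrableOn_compact hK.cpt)) fun s => ?_
  simp only
  by_cases hs : s ∈ K
  · rw [indicator_of_mem hs, indicator_of_mem hs]
    exact slice_le hK hs n
  · rw [indicator_of_notMem hs, indicator_of_notMem hs]

/-- averages of the copies -/
noncomputable def avg (κ : Type) [Fintype κ] (M : ℕ) (z : Eu (JM κ M)) : Eu κ :=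
  WithLp.toLp 2 fun i => (M : ℝ)⁻¹ * ∑ r : Fin M, z (Sum.inr (i, r))

/-- visible coordinates -/
def pv (v : κ → σ) (s : Eu σ) : Eu κ := WithLp.toLp 2 fun i => s (v i)

theorem avg_cont : Continuous (avg κ M) := by
  unfold avg
  fun_prop

theorem pv_cont : Continuous (pv v : Eu σ → Eu κ) := by
  unfold pv
  fun_prop

theorem avg_near (hM : 0 < M) {p : (Eu σ × ℝ) × Eu (JM κ M)}
    (hp : p ∈ SF (aB K) (alo v M) (ahi v M)) (i : κ) :
    p.1.1 (v i) - (1 - p.1.2) ≤ avg κ M p.2 i ∧ avg κ M p.2 i ≤ p.1.1 (v i) := by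
  have hM' : (0 : ℝ) < M := by exact_mod_cast hM
  have h1 : ∀ r : Fin M, p.1.1 (v i) - (1 - p.1.2) ≤ p.2 (Sum.inr (i, r)) ∧
      p.2 (Sum.inr (i, r)) ≤ p.1.1 (v i) := by
    intro r
    have h2 := hp.2 (Sum.inr (i, r))
    change max 0 (p.1.1 (v i) + p.1.2 - 1) ≤ p.2 (Sum.inr (i, r)) ∧
      p.2 (Sum.inr (i, r)) ≤ p.1.1 (v i) at h2
    exact ⟨by linarith [le_max_right 0 (p.1.1 (v i) + p.1.2 - 1), h2.1], h2.2⟩
  change p.1.1 (v i) - (1 - p.1.2) ≤ (M : ℝ)⁻¹ * ∑ r : Fin M, p.2 (Sum.inr (i, r)) ∧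
    (M : ℝ)⁻¹ * ∑ r : Fin M, p.2 (Sum.inr (i, r)) ≤ p.1.1 (v i)
  have e : ∀ a : ℝ, a = (M : ℝ)⁻¹ * ∑ _r : Fin M, a := by
    intro a
    rw [Finset.sum_const, Finset.card_univ, Fintype.card_fin, nsmul_eq_mul, ← mul_assoc,
      inv_mul_cancel₀ hM'.ne', one_mul]
  constructor
  · rw [e (p.1.1 (v i) - (1 - p.1.2))]
    exact mul_le_mul_of_nonneg_left (Finset.sum_le_sum fun r _ => (h1 r).1) (by positivity)
  · conv_rhs => rw [e (p.1.1 (v i))]
    exact mul_le_mul_of_nonneg_left (Finset.sum_le_sum fun r _ => (h1 r).2) (by positivity)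

theorem norm_le_sum (x : Eu κ) : ‖x‖ ≤ ∑ i, |x i| := by
  rw [EuclideanSpace.norm_eq]
  refine Real.sqrt_le_iff.2 ⟨Finset.sum_nonneg fun i _ => abs_nonneg _, ?_⟩
  have h1 : ∀ i, ‖x i‖ ^ 2 = |x i| * |x i| := fun i => by rw [Real.norm_eq_abs, sq]
  simp only [h1]
  rw [sq, Finset.sum_mul]
  refine Finset.sum_le_sum fun i _ => mul_le_mul_of_nonneg_left ?_ (abs_nonneg _)
  exact Finset.single_le_sum (f := fun i => |x i|) (fun i _ => abs_nonneg _) (Finset.mem_univ i)

theorem avg_dist (hM : 0 < M) {p : (Eu σ × ℝ) × Eu (JM κ M)}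
    (hp : p ∈ SF (aB K) (alo v M) (ahi v M)) :
    dist (avg κ M p.2) (pv v p.1.1) ≤ Fintype.card κ * (1 - p.1.2) := by
  rw [dist_eq_norm]
  refine (norm_le_sum _).trans ?_
  calc ∑ i, |(avg κ M p.2 - pv v p.1.1) i| ≤ ∑ _i : κ, (1 - p.1.2) := by
        refine Finset.sum_le_sum fun i _ => ?_
        have h1 := avg_near hM hp i
        change |avg κ M p.2 i - p.1.1 (v i)| ≤ _
        rw [abs_le]
        constructor <;> linarith [h1.1, h1.2, hp.1.2.2]
    _ = _ := by rw [Finset.sum_const, Finset.card_univ, nsmul_eq_mul]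

/-- limits of the integrals of functions of the averages -/
theorem avg_lim (hK : CB K) {φ : Eu κ → ℝ} (hφ : Continuous φ) :
    Tendsto (fun M : ℕ => (∫ p : (Eu σ × ℝ) × Eu (JM κ M), φ (avg κ M p.2) *
      wF (aB K) (alo v M) (ahi v M) p) / b0 κ M) atTop
      (𝓝 (∫ s, K.indicator (fun s => φ (pv v s)) s)) := by
  have h1 := base_lim (v := v) hK (φ := fun s => φ (pv v s)) (hφ.comp pv_cont)
  have h2 := one_lim (v := v) hK
  rw [← sub_zero (∫ s, K.indicator (fun s => φ (pv v s)) s)]
  have hdiff : Tendsto (fun M : ℕ => (∫ p : (Eu σ × ℝ) × Eu (JM κ M), φ (pv v p.1.1) *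
      wF (aB K) (alo v M) (ahi v M) p) / b0 κ M - (∫ p : (Eu σ × ℝ) × Eu (JM κ M),
        φ (avg κ M p.2) * wF (aB K) (alo v M) (ahi v M) p) / b0 κ M) atTop (𝓝 0) := by
    -- uniform continuity
    have hcube : IsCompact {x : Eu κ | ∀ i, 0 ≤ x i ∧ x i ≤ 1} := cube_compact
    have huc := hcube.uniformContinuousOn_of_continuous hφ.continuousOn
    obtain ⟨C, hC⟩ := hcube.exists_bound_of_continuousOn hφ.continuousOn
    have hC0 : 0 ≤ C := by
      refine (norm_nonneg _).trans (hC 0 fun i => ?_)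
      simp
    rw [Metric.tendsto_nhds]
    intro ε hε
    set V := volume.real K with hV
    have hV0 : 0 < V := hK.pos
    obtain ⟨δ, hδ, hδε⟩ : ∃ δ : ℝ, 0 < δ ∧ δ * (V + 1) < ε / 2 :=
      ⟨ε / 4 / (V + 1), by positivity, by
        rw [div_mul_cancel₀ _ (by positivity)]
        linarith⟩
    obtain ⟨ρ, hρ, hρφ⟩ := Metric.uniformContinuousOn_iff_le.1 huc δ hδ
    have hr := (ratio1 (Fintype.card κ)).const_mul (2 * C / ρ * Fintype.card κ * V)
    rw [mul_zero] at hr
    filter_upwards [eventually_gt_atTop 0, hr.eventually (gt_mem_nhds (half_pos hε)),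
      h2.eventually (gt_mem_nhds (lt_add_one V))] with M hM hM1 hM2
    have hb := bI_pos (kM κ M) (M ^ 2)
    have hF := aFib (v := v) (M := M) hK
    rw [dist_zero_right, ← sub_div, norm_div, Real.norm_of_nonneg hb.le,
      ← integral_sub (wF_int hF (F := fun p => φ (pv v p.1.1))
        (hφ.comp (pv_cont.comp (continuous_fst.comp continuous_fst))))
        (wF_int hF (F := fun p => φ (avg κ M p.2)) (hφ.comp (avg_cont.comp continuous_snd))),
      div_lt_iff₀ hb]
    have hbd : ‖∫ p : (Eu σ × ℝ) × Eu (JM κ M), (φ (pv v p.1.1) *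
        wF (aB K) (alo v M) (ahi v M) p - φ (avg κ M p.2) * wF (aB K) (alo v M) (ahi v M) p)‖ ≤
        ∫ p : (Eu σ × ℝ) × Eu (JM κ M), (δ * wF (aB K) (alo v M) (ahi v M) p +
          2 * C / ρ * Fintype.card κ * ((1 - p.1.2) ^ 1 * wF (aB K) (alo v M) (ahi v M) p)) := by
      refine norm_integral_le_of_norm_le ?_ (Eventually.of_forall fun p => ?_)
      · have i1 := wF_int hF (F := fun _ => δ) continuous_const
        have i2 := wF_int hF (F := fun p => (1 - p.1.2) ^ 1) (by fun_prop)
        exact i1.add (i2.const_mul _)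
      · by_cases hp : p ∈ SF (aB K) (alo v M) (ahi v M)
        · have hw : wF (aB K) (alo v M) (ahi v M) p = 1 := indicator_of_mem hp _
          rw [hw, mul_one, mul_one, mul_one, mul_one, pow_one, Real.norm_eq_abs]
          have hx : pv v p.1.1 ∈ {x : Eu κ | ∀ i, 0 ≤ x i ∧ x i ≤ 1} := fun i =>
            hK.cube _ hp.1.1 (v i)
          have hx' : avg κ M p.2 ∈ {x : Eu κ | ∀ i, 0 ≤ x i ∧ x i ≤ 1} := by
            intro i
            have hM' : (0 : ℝ) < M := by exact_mod_cast hM
            refine ⟨?_, (avg_near hM hp i).2.trans (hx i).2⟩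
            refine mul_nonneg (by positivity) (Finset.sum_nonneg fun r _ => ?_)
            exact (hF.lo0 _ hp.1 _).trans (hp.2 (Sum.inr (i, r))).1
          have hd := avg_dist hM hp
          have h1f : 0 ≤ 1 - p.1.2 := by linarith [hp.1.2.2]
          rcases le_or_gt (dist (pv v p.1.1) (avg κ M p.2)) ρ with h3 | h3
          · have h4 := hρφ _ hx _ hx' h3
            rw [Real.dist_eq] at h4
            have : 0 ≤ 2 * C / ρ * Fintype.card κ * (1 - p.1.2) := by positivity
            linarith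
          · have h4 : |φ (pv v p.1.1) - φ (avg κ M p.2)| ≤ 2 * C := by
              have h5 := hC _ hx
              have h6 := hC _ hx'
              rw [Real.norm_eq_abs] at h5 h6
              calc _ ≤ |φ (pv v p.1.1)| + |φ (avg κ M p.2)| := abs_sub _ _
                _ ≤ _ := by linarith
            rw [dist_comm] at h3
            have h5 : 1 ≤ dist (avg κ M p.2) (pv v p.1.1) / ρ := (one_le_div hρ).2 h3.le
            calc |φ (pv v p.1.1) - φ (avg κ M p.2)| ≤ 2 * C * 1 := by linarith
              _ ≤ 2 * C * (dist (avg κ M p.2) (pv v p.1.1) / ρ) :=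
                  mul_le_mul_of_nonneg_left h5 (by positivity)
              _ ≤ 2 * C * (Fintype.card κ * (1 - p.1.2) / ρ) := by
                  refine mul_le_mul_of_nonneg_left ?_ (by positivity)
                  exact div_le_div_of_nonneg_right hd hρ.le
              _ ≤ δ + 2 * C / ρ * Fintype.card κ * (1 - p.1.2) := by
                  have : 2 * C * (Fintype.card κ * (1 - p.1.2) / ρ) =
                    2 * C / ρ * Fintype.card κ * (1 - p.1.2) := by ring
                  linarith
        · have hw : wF (aB K) (alo v M) (ahi v M) p = 0 := indicator_of_notMem hp _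
          rw [hw]
          simp
    refine lt_of_le_of_lt hbd ?_
    rw [integral_add (by
        have i1 := wF_int hF (F := fun _ => δ) continuous_const
        exact i1) (by
        have i2 := wF_int hF (F := fun p => (1 - p.1.2) ^ 1) (by fun_prop)
        exact i2.const_mul _), integral_const_mul, integral_const_mul]
    have h5 := small_mom (v := v) (M := M) hK 1
    rw [div_lt_iff₀ hb] at hM2
    have h6 : 2 * C / ρ * Fintype.card κ * ∫ p : (Eu σ × ℝ) × Eu (JM κ M),
        (1 - p.1.2) ^ 1 * wF (aB K) (alo v M) (ahi v M) p ≤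
        2 * C / ρ * Fintype.card κ * V * (bI (Fintype.card κ * M + 1) (M ^ 2) /
            bI (Fintype.card κ * M) (M ^ 2)) * b0 κ M := by
      have h7 := mul_le_mul_of_nonneg_left h5
        (by positivity : 0 ≤ 2 * C / ρ * (Fintype.card κ : ℝ))
      refine h7.trans (le_of_eq ?_)
      have h8 := hb.ne'
      change 2 * C / ρ * Fintype.card κ * (volume.real K * bI (kM κ M + 1) (M ^ 2)) =
        2 * C / ρ * Fintype.card κ * V * (bI (kM κ M + 1) (M ^ 2) / bI (kM κ M) (M ^ 2)) *
          bI (kM κ M) (M ^ 2)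
      rw [← hV]
      field_simp
    have h7 : δ * ∫ p : (Eu σ × ℝ) × Eu (JM κ M), wF (aB K) (alo v M) (ahi v M) p ≤
        δ * ((V + 1) * b0 κ M) := mul_le_mul_of_nonneg_left hM2.le hδ.le
    calc _ ≤ δ * ((V + 1) * b0 κ M) + 2 * C / ρ * Fintype.card κ * V *
          (bI (Fintype.card κ * M + 1) (M ^ 2) / bI (Fintype.card κ * M) (M ^ 2)) * b0 κ M :=
          add_le_add h7 h6
      _ = (δ * (V + 1) + 2 * C / ρ * Fintype.card κ * V *
          (bI (Fintype.card κ * M + 1) (M ^ 2) / bI (Fintype.card κ * M) (M ^ 2))) * b0 κ M := by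
          ring
      _ < (ε / 2 + ε / 2) * b0 κ M := mul_lt_mul_of_pos_right (add_lt_add hδε hM1) hb
      _ = ε * b0 κ M := by ring
  have h3 := h1.sub hdiff
  refine h3.congr fun M => ?_
  ring

end amp2

end Pool.Agent.H776
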