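import Pool.Agent.H776.Cent2

/-!
# Centred Gaussian measures on orthants as limits of images of uniform measures on parts of ellipsoids
-/

set_option autoImplicit false

namespace Pool.Agent.H776

open MeasureTheory Set Filter Topology
open scoped ENNReal InnerProductSpace Pointwise

section ball

variable {κ F J : Type} [Fintype κ] [Fintype F] [Fintype J]

/-- the part of the ellipsoid `‖A y‖² ≤ 1` in the positive orthant -/
def EO (A : Eu κ →ₗ[ℝ] Eu F) : Set (Eu κ) := {y | (∀ i, 0 ≤ y i) ∧ ‖A y‖ ^ 2 ≤ 1}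

theorem EO_closed (A : Eu κ →ₗ[ℝ] Eu F) : IsClosed (EO A) := by
  have hA : Continuous A := A.continuous_of_finiteDimensional
  have h1 : IsClosed {y : Eu κ | ∀ i, 0 ≤ y i} := by
    rw [ofPred_forall]
    exact isClosed_iInter fun i => isClosed_le continuous_const (by fun_prop)
  have h2 : Continuous fun y : Eu κ => ‖A y‖ ^ 2 := by fun_prop
  exact h1.inter (isClosed_le h2 continuous_const)

theorem EO_compact {A : Eu κ →ₗ[ℝ] Eu F} (hA : Function.Injective A) : IsCompact (EO A) := by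
  obtain ⟨q, hq, hqA⟩ := exists_q hA
  refine (isCompact_closedBall (0 : Eu κ) q⁻¹).of_isClosed_subset (EO_closed A) fun y hy => ?_
  rw [Metric.mem_closedBall, dist_zero_right]
  have h1 := hqA y
  have h2 : ‖A y‖ ≤ 1 := by
    have := hy.2
    nlinarith [norm_nonneg (A y)]
  rw [← one_div, le_div_iff₀ hq]
  linarith

theorem EO_interior (A : Eu κ →ₗ[ℝ] Eu F) : (interior (EO A)).Nonempty := by
  have hA : Continuous A := A.continuous_of_finiteDimensional
  obtain ⟨v, hv⟩ : ∃ v : Eu κ, v = WithLp.toLp 2 fun _ => (1 : ℝ) := ⟨_, rfl⟩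
  obtain ⟨ε, hε, hε1⟩ : ∃ ε : ℝ, 0 < ε ∧ ‖A (ε • v)‖ ^ 2 < 1 := by
    have h1 : Tendsto (fun ε : ℝ => ‖A (ε • v)‖ ^ 2) (𝓝[>] 0) (𝓝 (‖A ((0 : ℝ) • v)‖ ^ 2)) := by
      refine Tendsto.mono_left ?_ nhdsWithin_le_nhds
      refine Continuous.tendsto ?_ 0
      fun_prop
    rw [zero_smul, map_zero, norm_zero] at h1
    have h2 := (h1.eventually (gt_mem_nhds (by norm_num : (0 : ℝ) ^ 2 < 1))).and self_mem_nhdsWithin
    obtain ⟨ε, h3, h4⟩ := h2.exists
    exact ⟨ε, h4, h3⟩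
  refine ⟨ε • v, ?_⟩
  rw [mem_interior]
  refine ⟨{y | (∀ i, 0 < y i) ∧ ‖A y‖ ^ 2 < 1}, fun y hy => ⟨fun i => (hy.1 i).le, hy.2.le⟩, ?_, ?_, hε1⟩
  · have h1 : IsOpen {y : Eu κ | ∀ i, 0 < y i} := by
      rw [ofPred_forall]
      exact isOpen_iInter_of_finite fun i => isOpen_lt continuous_const (by fun_prop)
    have h2 : Continuous fun y : Eu κ => ‖A y‖ ^ 2 := by fun_prop
    exact h1.inter (isOpen_lt h2 continuous_const)
  · intro i
    rw [hv]
    simpa using hε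

theorem EO_convex (A : Eu κ →ₗ[ℝ] Eu F) : Convex ℝ (EO A) := by
  intro x hx y hy a b ha hb hab
  refine ⟨fun i => ?_, ?_⟩
  · simp only [PiLp.add_apply, PiLp.smul_apply, smul_eq_mul]
    exact add_nonneg (mul_nonneg ha (hx.1 i)) (mul_nonneg hb (hy.1 i))
  · have h1 : ‖A x‖ ≤ 1 := by
      have := hx.2
      nlinarith [norm_nonneg (A x)]
    have h2 : ‖A y‖ ≤ 1 := by
      have := hy.2
      nlinarith [norm_nonneg (A y)]
    have h3 : ‖A (a • x + b • y)‖ ≤ 1 := by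
      rw [map_add, map_smul, map_smul]
      refine (norm_add_le _ _).trans ?_
      rw [norm_smul, norm_smul, Real.norm_of_nonneg ha, Real.norm_of_nonneg hb]
      nlinarith
    exact pow_le_one₀ (norm_nonneg _) h3

/-- indicator function -/
noncomputable def eo (A : Eu κ →ₗ[ℝ] Eu F) : Eu κ → ℝ := (EO A).indicator fun _ => 1

theorem wt_ind {K : Set (Eu κ)} (hK : IsCompact K) (hi : (interior K).Nonempty) :
    Wt (K.indicator fun _ => (1 : ℝ)) := by
  have hm := hK.measurableSet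
  have hfin : volume K ≠ ∞ := hK.measure_lt_top.ne
  have hpos : 0 < volume K := lt_of_lt_of_le (isOpen_interior.measure_pos volume hi)
    (measure_mono interior_subset)
  refine ⟨fun x => indicator_nonneg (fun _ _ => zero_le_one) x, measurable_const.indicator hm, ?_, ?_⟩
  · rw [integral_indicator hm, setIntegral_const, smul_eq_mul, mul_one]
    exact ENNReal.toReal_pos hpos.ne' hfin
  · have h1 : IntegrableOn (fun x : Eu κ => 1 + ‖x‖ ^ 2) K := by
      have hc : Continuous fun x : Eu κ => 1 + ‖x‖ ^ 2 := by fun_prop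
      exact hc.continuousOn.integrableOn_compact hK
    have h2 := (integrable_indicator_iff hm).2 h1
    refine h2.congr (Eventually.of_forall fun x => ?_)
    by_cases hx : x ∈ K
    · simp [indicator_of_mem hx]
    · simp [indicator_of_notMem hx]

/-- scaling of the second block -/
noncomputable def em (κ J : Type) [Fintype κ] [Fintype J] (η : ℝ) (hη : η ≠ 0) :
    (Eu κ × Eu J) ≃ₗ[ℝ] Eu (κ ⊕ J) where
  toFun p := mk p.1 (η • p.2)
  invFun y := (pl y, η⁻¹ • pr y)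
  left_inv p := by
    refine Prod.ext rfl ?_
    change η⁻¹ • pr (mk p.1 (η • p.2)) = p.2
    rw [pr_mk]
    exact inv_smul_smul₀ hη _
  right_inv y := by
    simp only [smul_inv_smul₀ hη]
    exact mk_pl_pr y
  map_add' p q := by
    ext i
    rcases i with i | j
    · rfl
    · simp only [mk_inr, Prod.snd_add, PiLp.add_apply, PiLp.smul_apply, smul_eq_mul]
      ring
  map_smul' r p := by
    ext i
    rcases i with i | j
    · rfl
    · simp only [mk_inr, Prod.smul_snd, PiLp.smul_apply, smul_eq_mul, RingHom.id_apply]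
      ring

/-- the same, continuous -/
noncomputable def emc (κ J : Type) [Fintype κ] [Fintype J] (η : ℝ) (hη : η ≠ 0) :
    (Eu κ × Eu J) ≃L[ℝ] Eu (κ ⊕ J) := (em κ J η hη).toContinuousLinearEquiv

theorem emc_apply (η : ℝ) (hη : η ≠ 0) (p : Eu κ × Eu J) : emc κ J η hη p = mk p.1 (η • p.2) := rfl

/-- the form of the ellipsoid -/
noncomputable def AE (A : Eu κ →ₗ[ℝ] Eu F) (n : ℕ) :
    Eu (κ ⊕ Fin n) →ₗ[ℝ] Eu (F ⊕ Fin n) where
  toFun Y := mk ((Real.sqrt n)⁻¹ • A (pl Y)) ((Real.sqrt n)⁻¹ • (n : ℝ) • pr Y)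
  map_add' Y Z := by
    have e1 : pl (Y + Z) = pl Y + pl Z := rfl
    have e2 : pr (Y + Z) = pr Y + pr Z := rfl
    rw [e1, e2, map_add, smul_add, smul_add, smul_add]
    ext i
    rcases i with i | j <;> rfl
  map_smul' r Y := by
    have e1 : pl (r • Y) = r • pl Y := rfl
    have e2 : pr (r • Y) = r • pr Y := rfl
    rw [e1, e2, map_smul]
    ext i
    rcases i with i | j
    · simp only [mk_inl, PiLp.smul_apply, smul_eq_mul, RingHom.id_apply]
      ring
    · simp only [mk_inr, PiLp.smul_apply, smul_eq_mul, RingHom.id_apply]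
      ring

theorem AE_inj {A : Eu κ →ₗ[ℝ] Eu F} (hA : Function.Injective A) {n : ℕ} (hn : n ≠ 0) :
    Function.Injective (AE A n) := by
  have hn' : (n : ℝ) ≠ 0 := by exact_mod_cast hn
  have hn0 : 0 < (n : ℝ) := by positivity
  have hs : (Real.sqrt n)⁻¹ ≠ 0 := inv_ne_zero (Real.sqrt_pos.2 hn0).ne'
  rw [← LinearMap.ker_eq_bot, LinearMap.ker_eq_bot']
  intro Y hY
  have h1 : (Real.sqrt n)⁻¹ • (n : ℝ) • pr Y = 0 := by
    have : pr (AE A n Y) = 0 := by rw [hY]; rfl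
    exact this
  have h2 : (Real.sqrt n)⁻¹ • A (pl Y) = 0 := by
    have : pl (AE A n Y) = 0 := by rw [hY]; rfl
    exact this
  have h3 : pr Y = 0 := (smul_eq_zero.1 ((smul_eq_zero.1 h1).resolve_left hs)).resolve_left hn'
  have h4 : A (pl Y) = 0 := (smul_eq_zero.1 h2).resolve_left hs
  have h6 : pl Y = 0 := hA (by rw [h4, map_zero])
  rw [← mk_pl_pr Y, h3, h6]
  ext i
  rcases i with i | i <;> rfl

/-- the body in the variables `(y, z)` -/
def QB (A : Eu κ →ₗ[ℝ] Eu F) (n : ℕ) : Set (Eu κ × Eu (Fin n)) :=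
  {p | (∀ i, 0 ≤ p.1 i) ∧ (∀ j, 0 ≤ p.2 j) ∧ ‖A p.1‖ ^ 2 + ‖p.2‖ ^ 2 ≤ n}

/-- indicator -/
noncomputable def qb (A : Eu κ →ₗ[ℝ] Eu F) (n : ℕ) : Eu κ × Eu (Fin n) → ℝ :=
  (QB A n).indicator fun _ => 1

theorem qb_nonneg {A : Eu κ →ₗ[ℝ] Eu F} {n : ℕ} (p : Eu κ × Eu (Fin n)) : 0 ≤ qb A n p :=
  indicator_nonneg (fun _ _ => zero_le_one) p

theorem QB_meas {A : Eu κ →ₗ[ℝ] Eu F} {n : ℕ} : MeasurableSet (QB A n) := by
  have hA : Continuous A := A.continuous_of_finiteDimensional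
  have m1 : MeasurableSet {p : Eu κ × Eu (Fin n) | ∀ i, 0 ≤ p.1 i} := by
    rw [ofPred_forall]
    exact MeasurableSet.iInter fun i => measurableSet_le measurable_const (by fun_prop)
  have m2 : MeasurableSet {p : Eu κ × Eu (Fin n) | ∀ i, 0 ≤ p.2 i} := by
    rw [ofPred_forall]
    exact MeasurableSet.iInter fun i => measurableSet_le measurable_const (by fun_prop)
  have h2 : Measurable fun p : Eu κ × Eu (Fin n) => ‖A p.1‖ ^ 2 + ‖p.2‖ ^ 2 := by fun_prop
  exact m1.inter (m2.inter (measurableSet_le h2 measurable_const))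

theorem eo_comp {A : Eu κ →ₗ[ℝ] Eu F} {n : ℕ} (hn : n ≠ 0) (p : Eu κ × Eu (Fin n)) :
    eo (AE A n) (emc κ (Fin n) (n : ℝ)⁻¹ (inv_ne hn) p) = qb A n p := by
  have hn' : (n : ℝ) ≠ 0 := by exact_mod_cast hn
  have hn0 : 0 < (n : ℝ) := by positivity
  have key : emc κ (Fin n) (n : ℝ)⁻¹ (inv_ne hn) p ∈ EO (AE A n) ↔ p ∈ QB A n := by
    rw [emc_apply]
    have e1 : (∀ i, 0 ≤ (mk p.1 ((n : ℝ)⁻¹ • p.2) : Eu (κ ⊕ Fin n)) i) ↔
        ((∀ i, 0 ≤ p.1 i) ∧ ∀ j, 0 ≤ p.2 j) := by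
      rw [Sum.forall]
      refine and_congr Iff.rfl (forall_congr' fun j => ?_)
      rw [mk_inr, PiLp.smul_apply, smul_eq_mul]
      exact mul_nonneg_iff_of_pos_left (inv_pos.2 hn0)
    have e2 : ‖AE A n (mk p.1 ((n : ℝ)⁻¹ • p.2))‖ ^ 2 = (‖A p.1‖ ^ 2 + ‖p.2‖ ^ 2) / n := by
      change ‖mk ((Real.sqrt n)⁻¹ • A p.1) ((Real.sqrt n)⁻¹ • (n : ℝ) • (n : ℝ)⁻¹ • p.2)‖ ^ 2 = _
      rw [smul_inv_smul₀ hn', norm_mk_sq, norm_smul, norm_smul, mul_pow, mul_pow, norm_inv,
        Real.norm_of_nonneg (Real.sqrt_nonneg _), inv_pow, Real.sq_sqrt hn0.le]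
      ring
    unfold EO QB
    rw [mem_ofPred_eq, mem_ofPred_eq, e1, e2, div_le_one hn0, and_assoc]
  unfold eo qb
  by_cases hp : p ∈ QB A n
  · rw [indicator_of_mem hp, indicator_of_mem (key.2 hp)]
  · rw [indicator_of_notMem hp, indicator_of_notMem fun h => hp (key.1 h)]

/-- part of the ball -/
def PB (n : ℕ) (r : ℝ) : Set (Eu (Fin n)) := {z | (∀ j, 0 ≤ z j) ∧ ‖z‖ ^ 2 ≤ r}

theorem PB_scale {n : ℕ} {r : ℝ} (hr : 0 < r) :
    volume.real (PB n r) = Real.sqrt r ^ n * volume.real (PB n 1) := by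
  have hs : 0 < Real.sqrt r := Real.sqrt_pos.2 hr
  have e : PB n r = Real.sqrt r • PB n 1 := by
    ext z
    rw [mem_smul_set_iff_inv_smul_mem₀ hs.ne']
    unfold PB
    rw [mem_ofPred_eq, mem_ofPred_eq]
    refine and_congr (forall_congr' fun j => ?_) ?_
    · rw [PiLp.smul_apply, smul_eq_mul]
      exact (mul_nonneg_iff_of_pos_left (inv_pos.2 hs)).symm
    · rw [norm_smul, norm_inv, Real.norm_of_nonneg hs.le, mul_pow, inv_pow, Real.sq_sqrt hr.le,
        inv_mul_le_iff₀ hr, mul_one]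
  rw [e, measureReal_def, Measure.addHaar_smul, ENNReal.toReal_mul, finrank_euclideanSpace,
    Fintype.card_fin, ENNReal.toReal_ofReal (abs_nonneg _), abs_of_nonneg (by positivity)]
  rfl

end ball

end Pool.Agent.H776
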