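import Pool.Agent.H776.Amp2
import Pool.Agent.H776.Ball

/-!
# Amplification, third part
-/

set_option autoImplicit false

namespace Pool.Agent.H776

open MeasureTheory Set Filter Topology
open scoped ENNReal InnerProductSpace

section amp3

variable {σ κ : Type} [Fintype σ] [Fintype κ] {K : Set (Eu σ)} {v : κ → σ} {M : ℕ}

/-- indices of all coordinates -/
abbrev IX (σ κ : Type) (M : ℕ) : Type := σ ⊕ (Unit ⊕ JM κ M)

/-- the coordinates in three blocks -/
noncomputable def ecA (σ κ : Type) [Fintype σ] [Fintype κ] (M : ℕ) :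
    ((Eu σ × ℝ) × Eu (JM κ M)) ≃L[ℝ] Eu (IX σ κ M) :=
  LinearEquiv.toContinuousLinearEquiv
    { toFun := fun p => WithLp.toLp 2 (Sum.elim p.1.1 (Sum.elim (fun _ => p.1.2) p.2))
      invFun := fun y => ((WithLp.toLp 2 fun i => y (Sum.inl i), y (Sum.inr (Sum.inl ()))),
        WithLp.toLp 2 fun j => y (Sum.inr (Sum.inr j)))
      left_inv := fun p => rfl
      right_inv := fun y => by
        ext i
        rcases i with i | i | i <;> rfl
      map_add' := fun p q => by
        ext i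
        rcases i with i | i | i <;> rfl
      map_smul' := fun c p => by
        ext i
        rcases i with i | i | i <;> rfl }

@[simp] theorem ecA_inl (p : (Eu σ × ℝ) × Eu (JM κ M)) (i : σ) :
    ecA σ κ M p (Sum.inl i) = p.1.1 i := rfl
@[simp] theorem ecA_f (p : (Eu σ × ℝ) × Eu (JM κ M)) (i : Unit) :
    ecA σ κ M p (Sum.inr (Sum.inl i)) = p.1.2 := rfl
@[simp] theorem ecA_inr (p : (Eu σ × ℝ) × Eu (JM κ M)) (j : JM κ M) :
    ecA σ κ M p (Sum.inr (Sum.inr j)) = p.2 j := rfl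

/-- the large body -/
def Amp (K : Set (Eu σ)) (v : κ → σ) (M : ℕ) : Set (Eu (IX σ κ M)) :=
  (ecA σ κ M).symm ⁻¹' SF (aB K) (alo v M) (ahi v M)

theorem CB.strict (hK : CB K) {s : Eu σ} (hs : s ∈ interior K) (i : σ) : 0 < s i ∧ s i < 1 := by
  classical
  obtain ⟨ε, hε, hb⟩ := Metric.mem_nhds_iff.1 (mem_interior_iff_mem_nhds.1 hs)
  have hn : ∀ t : ℝ, |t| < ε → s + EuclideanSpace.single i t ∈ K := by
    intro t ht
    refine hb ?_
    rw [Metric.mem_ball, dist_eq_norm, add_sub_cancel_left, PiLp.norm_single, Real.norm_eq_abs]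
    exact ht
  have h1 := hK.cube _ (hn (-(ε / 2)) (by rw [abs_neg, abs_of_pos (by positivity)]; linarith)) i
  have h2 := hK.cube _ (hn (ε / 2) (by rw [abs_of_pos (by positivity)]; linarith)) i
  simp at h1 h2
  constructor <;> linarith [h1.1, h2.2]

theorem Amp_cb (hK : CB K) : CB (Amp K v M) := by
  have hF := aFib (v := v) (M := M) hK
  refine ⟨?_, ?_, fun y hy i => ?_⟩
  · exact (ecA σ κ M).symm.toHomeomorph.isClosedEmbedding.isCompact_preimage (SF_compact hF)
  · -- interior points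
    obtain ⟨s, hs⟩ := hK.int
    have hU : ∃ U : Set ((Eu σ × ℝ) × Eu (JM κ M)), IsOpen U ∧ U ⊆ SF (aB K) (alo v M) (ahi v M) ∧
        U.Nonempty := by
      refine ⟨{p | p.1.1 ∈ interior K ∧ 0 < p.1.2 ∧ p.1.2 < 1 ∧
        ∀ j, alo v M j p.1 < p.2 j ∧ p.2 j < ahi v M j p.1}, ?_, ?_, ?_⟩
      · have o1 : IsOpen {p : (Eu σ × ℝ) × Eu (JM κ M) | p.1.1 ∈ interior K} :=
          isOpen_interior.preimage (continuous_fst.comp continuous_fst)
        have o2 : IsOpen {p : (Eu σ × ℝ) × Eu (JM κ M) | 0 < p.1.2} :=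
          isOpen_lt continuous_const (by fun_prop)
        have o3 : IsOpen {p : (Eu σ × ℝ) × Eu (JM κ M) | p.1.2 < 1} :=
          isOpen_lt (by fun_prop) continuous_const
        have o4 : IsOpen {p : (Eu σ × ℝ) × Eu (JM κ M) |
            ∀ j, alo v M j p.1 < p.2 j ∧ p.2 j < ahi v M j p.1} := by
          rw [ofPred_forall]
          refine isOpen_iInter_of_finite fun j => ?_
          have h3 := hF.clo j
          have h4 := hF.chi j
          change IsOpen ({p : (Eu σ × ℝ) × Eu (JM κ M) | alo v M j p.1 < p.2 j} ∩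
            {p : (Eu σ × ℝ) × Eu (JM κ M) | p.2 j < ahi v M j p.1})
          exact (isOpen_lt (by fun_prop) (by fun_prop)).inter
            (isOpen_lt (by fun_prop) (by fun_prop))
        exact o1.inter (o2.inter (o3.inter o4))
      · intro p hp
        exact ⟨⟨interior_subset hp.1, hp.2.1.le, hp.2.2.1.le⟩, fun j =>
          ⟨(hp.2.2.2 j).1.le, (hp.2.2.2 j).2.le⟩⟩
      · have h1 : ∀ j, alo v M j (s, (1 / 2 : ℝ)) < ahi v M j (s, (1 / 2 : ℝ)) := by
          intro j
          rcases j with j | c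
          · change (0 : ℝ) < 1 / 2
            norm_num
          · change max 0 (s (v c.1) + 1 / 2 - 1) < s (v c.1)
            exact max_lt (hK.strict hs _).1 (by linarith)
        refine ⟨((s, 1 / 2), WithLp.toLp 2 fun j =>
          (alo v M j (s, (1 / 2 : ℝ)) + ahi v M j (s, (1 / 2 : ℝ))) / 2), hs, ?_, ?_, fun j => ?_⟩
        · norm_num
        · norm_num
        · have := h1 j
          constructor
          · change alo v M j (s, (1 / 2 : ℝ)) <
              (alo v M j (s, (1 / 2 : ℝ)) + ahi v M j (s, (1 / 2 : ℝ))) / 2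
            linarith
          · change (alo v M j (s, (1 / 2 : ℝ)) + ahi v M j (s, (1 / 2 : ℝ))) / 2 <
              ahi v M j (s, (1 / 2 : ℝ))
            linarith
    obtain ⟨U, hU1, hU2, p, hp⟩ := hU
    refine ⟨ecA σ κ M p, ?_⟩
    rw [mem_interior]
    refine ⟨(ecA σ κ M).symm ⁻¹' U, fun y hy => hU2 hy, hU1.preimage
      (ecA σ κ M).symm.continuous, ?_⟩
    rw [mem_preimage, ContinuousLinearEquiv.symm_apply_apply]
    exact hp
  · have h1 : y = ecA σ κ M ((ecA σ κ M).symm y) := by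
      rw [ContinuousLinearEquiv.apply_symm_apply]
    set p := (ecA σ κ M).symm y with hp
    have h2 : p ∈ SF (aB K) (alo v M) (ahi v M) := hy
    rw [h1]
    rcases i with i | i | j
    · rw [ecA_inl]
      exact hK.cube _ h2.1.1 i
    · rw [ecA_f]
      exact h2.1.2
    · rw [ecA_inr]
      exact ⟨(hF.lo0 _ h2.1 j).trans (h2.2 j).1, (h2.2 j).2.trans (hF.hi1 _ h2.1 j)⟩

theorem Amp_ind (p : (Eu σ × ℝ) × Eu (JM κ M)) :
    (Amp K v M).indicator (fun _ => (1 : ℝ)) (ecA σ κ M p) =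
      wF (aB K) (alo v M) (ahi v M) p := by
  unfold wF Amp
  have h : (ecA σ κ M).symm (ecA σ κ M p) = p := ContinuousLinearEquiv.symm_apply_apply _ _
  by_cases hp : p ∈ SF (aB K) (alo v M) (ahi v M)
  · rw [indicator_of_mem hp, indicator_of_mem]
    rw [mem_preimage, h]
    exact hp
  · rw [indicator_of_notMem hp, indicator_of_notMem]
    rw [mem_preimage, h]
    exact hp

theorem vol_haarA (σ J : Type) [Fintype σ] [Fintype J] :
    (volume : Measure ((Eu σ × ℝ) × Eu J)).IsAddHaarMeasure := by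
  change (((volume : Measure (Eu σ)).prod (volume : Measure ℝ)).prod
    (volume : Measure (Eu J))).IsAddHaarMeasure
  have h1 : ((volume : Measure (Eu σ)).prod (volume : Measure ℝ)).IsAddHaarMeasure :=
    Measure.prod.instIsAddHaarMeasure _ _
  exact Measure.prod.instIsAddHaarMeasure _ _

/-- averages -/
noncomputable def TA (σ κ : Type) [Fintype σ] [Fintype κ] (M : ℕ) : Eu (IX σ κ M) →L[ℝ] Eu κ :=
  LinearMap.mkContinuous
    { toFun := fun y => WithLp.toLp 2 fun i =>
        (Real.sqrt M)⁻¹ * ∑ r : Fin M, y (Sum.inr (Sum.inr (Sum.inr (i, r))))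
      map_add' := fun y z => by
        ext i
        simp only [PiLp.add_apply, Finset.sum_add_distrib, mul_add]
      map_smul' := fun c y => by
        ext i
        simp only [PiLp.smul_apply, smul_eq_mul, RingHom.id_apply, ← Finset.mul_sum]
        ring } 1 (fun y => by
      rw [one_mul]
      refine (sq_le_sq₀ (norm_nonneg _) (norm_nonneg _)).1 ?_
      rw [EuclideanSpace.norm_sq_eq, EuclideanSpace.norm_sq_eq, Fintype.sum_sum_type,
        Fintype.sum_sum_type, Fintype.sum_sum_type, Fintype.sum_prod_type]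
      have h1 : ∀ i : κ, ‖(Real.sqrt M)⁻¹ * ∑ r : Fin M,
          y (Sum.inr (Sum.inr (Sum.inr (i, r))))‖ ^ 2 ≤
          ∑ r : Fin M, ‖y (Sum.inr (Sum.inr (Sum.inr (i, r))))‖ ^ 2 := by
        intro i
        rcases Nat.eq_zero_or_pos M with hM | hM
        · subst hM
          simp
        · have hM' : (0 : ℝ) < M := by exact_mod_cast hM
          have h2 := sq_sum_le_card_mul_sum_sq (s := (Finset.univ : Finset (Fin M)))
            (f := fun r => y (Sum.inr (Sum.inr (Sum.inr (i, r)))))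
          rw [Finset.card_univ, Fintype.card_fin] at h2
          rw [norm_mul, mul_pow, norm_inv, Real.norm_of_nonneg (Real.sqrt_nonneg _), inv_pow,
            Real.sq_sqrt hM'.le, Real.norm_eq_abs, sq_abs, inv_mul_le_iff₀ hM']
          simpa only [Real.norm_eq_abs, sq_abs] using h2
      have h3 := Finset.sum_le_sum fun i (_ : i ∈ (Finset.univ : Finset κ)) => h1 i
      have h4 : 0 ≤ ∑ i : σ, ‖y (Sum.inl i)‖ ^ 2 := by positivity
      have h5 : 0 ≤ ∑ i : Unit, ‖y (Sum.inr (Sum.inl i))‖ ^ 2 := by positivity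
      have h6 : 0 ≤ ∑ i : Fin (M ^ 2), ‖y (Sum.inr (Sum.inr (Sum.inl i)))‖ ^ 2 := by positivity
      refine h3.trans ?_
      linarith)

theorem TA_apply (y : Eu (IX σ κ M)) (i : κ) : TA σ κ M y i =
    (Real.sqrt M)⁻¹ * ∑ r : Fin M, y (Sum.inr (Sum.inr (Sum.inr (i, r)))) := rfl

/-- the adjoint map -/
noncomputable def JA (σ κ : Type) [Fintype σ] [Fintype κ] (M : ℕ) : Eu κ →L[ℝ] Eu (IX σ κ M) :=
  LinearMap.mkContinuous
    { toFun := fun x => WithLp.toLp 2 (Sum.elim 0 (Sum.elim 0 (Sum.elim 0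
        fun c => (Real.sqrt M)⁻¹ * x c.1)))
      map_add' := fun y z => by
        ext i
        rcases i with i | i | i | i
        · simp
        · simp
        · simp
        · simp only [PiLp.add_apply, Sum.elim_inr]
          ring
      map_smul' := fun c y => by
        ext i
        rcases i with i | i | i | i
        · simp
        · simp
        · simp
        · simp only [PiLp.smul_apply, smul_eq_mul, RingHom.id_apply, Sum.elim_inr]
          ring } 1 (fun y => by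
      rw [one_mul]
      refine (sq_le_sq₀ (norm_nonneg _) (norm_nonneg _)).1 ?_
      rw [EuclideanSpace.norm_sq_eq, EuclideanSpace.norm_sq_eq, Fintype.sum_sum_type,
        Fintype.sum_sum_type, Fintype.sum_sum_type, Fintype.sum_prod_type]
      simp only [LinearMap.coe_mk, AddHom.coe_mk, Sum.elim_inl, Sum.elim_inr, Pi.zero_apply,
        norm_zero]
      have h1 : ∀ i : κ, ∑ _r : Fin M, ‖(Real.sqrt M)⁻¹ * y i‖ ^ 2 ≤ ‖y i‖ ^ 2 := by
        intro i
        rcases Nat.eq_zero_or_pos M with hM | hM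
        · subst hM
          simp only [Finset.univ_eq_empty, Finset.sum_empty]
          positivity
        · have hM' : (0 : ℝ) < M := by exact_mod_cast hM
          rw [Finset.sum_const, Finset.card_univ, Fintype.card_fin, nsmul_eq_mul, norm_mul, mul_pow,
            norm_inv, Real.norm_of_nonneg (Real.sqrt_nonneg _), inv_pow, Real.sq_sqrt hM'.le,
            ← mul_assoc, mul_inv_cancel₀ hM'.ne', one_mul]
      have h3 := Finset.sum_le_sum fun i (_ : i ∈ (Finset.univ : Finset κ)) => h1 i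
      simpa using h3)

theorem TA_norm : ‖TA σ κ M‖ ≤ 1 := LinearMap.mkContinuous_norm_le _ zero_le_one _

theorem JA_norm : ‖JA σ κ M‖ ≤ 1 := LinearMap.mkContinuous_norm_le _ zero_le_one _

theorem JA_inl (x : Eu κ) (i : σ) : JA σ κ M x (Sum.inl i) = 0 := rfl
theorem JA_f (x : Eu κ) (i : Unit) : JA σ κ M x (Sum.inr (Sum.inl i)) = 0 := rfl
theorem JA_l (x : Eu κ) (i : Fin (M ^ 2)) : JA σ κ M x (Sum.inr (Sum.inr (Sum.inl i))) = 0 := rfl
theorem JA_r (x : Eu κ) (c : κ × Fin M) :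
    JA σ κ M x (Sum.inr (Sum.inr (Sum.inr c))) = (Real.sqrt M)⁻¹ * x c.1 := rfl

/-- the coefficients in the fibres -/
noncomputable def vt (θ : Eu (IX σ κ M)) : JM κ M → ℝ :=
  Sum.elim (fun r => θ (Sum.inr (Sum.inr (Sum.inl r)))) fun c =>
    θ (Sum.inr (Sum.inr (Sum.inr c))) -
      (M : ℝ)⁻¹ * ∑ r : Fin M, θ (Sum.inr (Sum.inr (Sum.inr (c.1, r))))

theorem vt_sq (θ : Eu (IX σ κ M)) : ∑ j, vt θ j ^ 2 ≤ ∑ j : JM κ M, θ (Sum.inr (Sum.inr j)) ^ 2 := by
  rw [Fintype.sum_sum_type, Fintype.sum_sum_type, Fintype.sum_prod_type, Fintype.sum_prod_type]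
  refine add_le_add le_rfl (Finset.sum_le_sum fun i _ => ?_)
  simp only [vt, Sum.elim_inr]
  rcases Nat.eq_zero_or_pos M with hM | hM
  · subst hM
    simp
  · have hM' : (0 : ℝ) < M := by exact_mod_cast hM
    set a : Fin M → ℝ := fun r => θ (Sum.inr (Sum.inr (Sum.inr (i, r)))) with ha
    set m := (M : ℝ)⁻¹ * ∑ r : Fin M, a r with hm
    have e1 : ∑ r, a r = M * m := by
      rw [hm, ← mul_assoc, mul_inv_cancel₀ hM'.ne', one_mul]
    have e2 : ∑ r : Fin M, (a r - m) ^ 2 = ∑ r, a r ^ 2 - M * m ^ 2 := by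
      calc ∑ r : Fin M, (a r - m) ^ 2 = ∑ r : Fin M, (a r ^ 2 - 2 * m * a r + m ^ 2) :=
            Finset.sum_congr rfl fun r _ => by ring
        _ = ∑ r, a r ^ 2 - 2 * m * ∑ r, a r + M * m ^ 2 := by
            rw [Finset.sum_add_distrib, Finset.sum_sub_distrib, ← Finset.mul_sum, Finset.sum_const,
              Finset.card_univ, Fintype.card_fin, nsmul_eq_mul]
        _ = _ := by
            rw [e1]
            ring
    change ∑ r : Fin M, (a r - m) ^ 2 ≤ ∑ r : Fin M, a r ^ 2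
    rw [e2]
    nlinarith [mul_nonneg hM'.le (sq_nonneg m)]

/-- decomposition of the lost part -/
theorem lost_eq (hM : 0 < M) (θ : Eu (IX σ κ M)) (p : (Eu σ × ℝ) × Eu (JM κ M)) :
    ⟪ecA σ κ M p - JA σ κ M (TA σ κ M (ecA σ κ M p)), θ⟫_ℝ =
      (∑ j, vt θ j * (p.2 j - (alo v M j p.1 + ahi v M j p.1) / 2)) +
        ((∑ i : σ, θ (Sum.inl i) * p.1.1 i) + θ (Sum.inr (Sum.inl ())) * p.1.2 +
          p.1.2 / 2 * ∑ r : Fin (M ^ 2), θ (Sum.inr (Sum.inr (Sum.inl r)))) := by
  have hM' : (0 : ℝ) < M := by exact_mod_cast hM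
  have hsq : (Real.sqrt M)⁻¹ * (Real.sqrt M)⁻¹ = (M : ℝ)⁻¹ := by
    rw [← mul_inv, Real.mul_self_sqrt hM'.le]
  rw [PiLp.inner_apply, Fintype.sum_sum_type, Fintype.sum_sum_type, Fintype.sum_sum_type,
    Fintype.sum_prod_type, Fintype.sum_sum_type, Fintype.sum_prod_type]
  simp only [RCLike.inner_apply, conj_trivial, PiLp.sub_apply, ecA_inl, ecA_f, ecA_inr, JA_inl,
    JA_f, JA_l, JA_r, sub_zero, TA_apply, Finset.univ_unique, Finset.sum_singleton]
  have h1 : ∀ i : κ, ∑ r : Fin M, θ (Sum.inr (Sum.inr (Sum.inr (i, r)))) *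
      (p.2 (Sum.inr (i, r)) - (Real.sqrt M)⁻¹ * ((Real.sqrt M)⁻¹ *
        ∑ r : Fin M, p.2 (Sum.inr (i, r)))) =
      ∑ r : Fin M, vt θ (Sum.inr (i, r)) * (p.2 (Sum.inr (i, r)) -
        (alo v M (Sum.inr (i, r)) p.1 + ahi v M (Sum.inr (i, r)) p.1) / 2) := by
    intro i
    rw [← mul_assoc (Real.sqrt M)⁻¹, hsq]
    set a : Fin M → ℝ := fun r => θ (Sum.inr (Sum.inr (Sum.inr (i, r)))) with ha
    set z : Fin M → ℝ := fun r => p.2 (Sum.inr (i, r)) with hz
    set m := (max 0 (p.1.1 (v i) + p.1.2 - 1) + p.1.1 (v i)) / 2 with hm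
    change ∑ r : Fin M, a r * (z r - (M : ℝ)⁻¹ * ∑ r : Fin M, z r) =
      ∑ r : Fin M, (a r - (M : ℝ)⁻¹ * ∑ r : Fin M, a r) * (z r - m)
    have e1 : ∑ r : Fin M, a r * (z r - (M : ℝ)⁻¹ * ∑ r : Fin M, z r) =
        ∑ r, a r * z r - (M : ℝ)⁻¹ * (∑ r : Fin M, z r) * ∑ r, a r := by
      rw [Finset.mul_sum (s := Finset.univ) (f := a), ← Finset.sum_sub_distrib]
      exact Finset.sum_congr rfl fun r _ => by ring
    have e2 : ∑ r : Fin M, (a r - (M : ℝ)⁻¹ * ∑ r : Fin M, a r) * (z r - m) =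
        ∑ r, a r * z r - (M : ℝ)⁻¹ * (∑ r : Fin M, a r) * (∑ r, z r) - m * (∑ r, a r) +
          m * (M * ((M : ℝ)⁻¹ * ∑ r, a r)) := by
      have e3 : m * (M * ((M : ℝ)⁻¹ * ∑ r, a r)) = ∑ _r : Fin M, m * ((M : ℝ)⁻¹ * ∑ r, a r) := by
        rw [Finset.sum_const, Finset.card_univ, Fintype.card_fin, nsmul_eq_mul]
        ring
      rw [e3, Finset.mul_sum (s := Finset.univ) (f := z), Finset.mul_sum (s := Finset.univ) (f := a)
        (a := m), ← Finset.sum_sub_distrib, ← Finset.sum_sub_distrib, ← Finset.sum_add_distrib]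
      exact Finset.sum_congr rfl fun r _ => by ring
    rw [e1, e2]
    field_simp
    ring
  have h2 : ∑ r : Fin (M ^ 2), θ (Sum.inr (Sum.inr (Sum.inl r))) * p.2 (Sum.inl r) =
      ∑ r : Fin (M ^ 2), vt θ (Sum.inl r) * (p.2 (Sum.inl r) -
        (alo v M (Sum.inl r) p.1 + ahi v M (Sum.inl r) p.1) / 2) +
        p.1.2 / 2 * ∑ r : Fin (M ^ 2), θ (Sum.inr (Sum.inr (Sum.inl r))) := by
    rw [Finset.mul_sum, ← Finset.sum_add_distrib]
    refine Finset.sum_congr rfl fun r _ => ?_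
    change θ (Sum.inr (Sum.inr (Sum.inl r))) * p.2 (Sum.inl r) =
      θ (Sum.inr (Sum.inr (Sum.inl r))) * (p.2 (Sum.inl r) - (0 + p.1.2) / 2) +
        p.1.2 / 2 * θ (Sum.inr (Sum.inr (Sum.inl r)))
    ring
  simp only [h1, h2]
  ring

end amp3

end Pool.Agent.H776
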