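import Pool.Agent.H776.Amp3

/-!
# Amplification, fourth part: the theorem
-/

set_option autoImplicit false

namespace Pool.Agent.H776

open MeasureTheory Set Filter Topology
open scoped ENNReal InnerProductSpace

section amp4

variable {σ κ : Type} [Fintype σ] [Fintype κ] {K : Set (Eu σ)} {v : κ → σ} {M : ℕ}

theorem lost_sq (hK : CB K) (hM : 0 < M) {θ : Eu (IX σ κ M)} (hθ : ‖θ‖ = 1) :
    ∫ p : (Eu σ × ℝ) × Eu (JM κ M),
      (⟪ecA σ κ M p - JA σ κ M (TA σ κ M (ecA σ κ M p)), θ⟫_ℝ -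
        1 / 2 * ∑ r : Fin (M ^ 2), θ (Sum.inr (Sum.inr (Sum.inl r)))) ^ 2 *
          wF (aB K) (alo v M) (ahi v M) p ≤
      (6 * Fintype.card σ + 8) * (∫ p : (Eu σ × ℝ) × Eu (JM κ M),
        wF (aB K) (alo v M) (ahi v M) p) +
        3 / 2 * (M : ℝ) ^ 2 * (volume.real K * bI (kM κ M + 2) (M ^ 2)) := by
  have hF := aFib (v := v) (M := M) hK
  have hθ2 : ∑ i : σ, θ (Sum.inl i) ^ 2 + (θ (Sum.inr (Sum.inl ())) ^ 2 +
      (∑ r : Fin (M ^ 2), θ (Sum.inr (Sum.inr (Sum.inl r))) ^ 2 +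
        ∑ c : κ × Fin M, θ (Sum.inr (Sum.inr (Sum.inr c))) ^ 2)) = 1 := by
    have h1 := EuclideanSpace.norm_sq_eq θ
    rw [hθ, one_pow, Fintype.sum_sum_type, Fintype.sum_sum_type, Fintype.sum_sum_type] at h1
    simp only [Real.norm_eq_abs, sq_abs, Finset.univ_unique, Finset.sum_singleton] at h1
    exact h1.symm
  have p1 : 0 ≤ ∑ i : σ, θ (Sum.inl i) ^ 2 := by positivity
  have p2 : 0 ≤ θ (Sum.inr (Sum.inl ())) ^ 2 := sq_nonneg _
  have p3 : 0 ≤ ∑ r : Fin (M ^ 2), θ (Sum.inr (Sum.inr (Sum.inl r))) ^ 2 := by positivity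
  have p4 : 0 ≤ ∑ c : κ × Fin M, θ (Sum.inr (Sum.inr (Sum.inr c))) ^ 2 := by positivity
  have hvt : ∑ j, vt θ j ^ 2 ≤ 1 := by
    refine (vt_sq θ).trans ?_
    rw [Fintype.sum_sum_type]
    linarith
  set S := ∑ r : Fin (M ^ 2), θ (Sum.inr (Sum.inr (Sum.inl r))) with hS
  have hS2 : S ^ 2 ≤ (M : ℝ) ^ 2 := by
    have h2 := sq_sum_le_card_mul_sum_sq (s := (Finset.univ : Finset (Fin (M ^ 2))))
      (f := fun r => θ (Sum.inr (Sum.inr (Sum.inl r))))
    rw [Finset.card_univ, Fintype.card_fin] at h2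
    refine h2.trans ?_
    push_cast
    refine mul_le_of_le_one_right (by positivity) ?_
    linarith
  -- the pointwise bound
  set B : (Eu σ × ℝ) × Eu (JM κ M) → ℝ := fun p =>
    ∑ j, vt θ j * (p.2 j - (alo v M j p.1 + ahi v M j p.1) / 2) with hB
  have hpt : ∀ p : (Eu σ × ℝ) × Eu (JM κ M),
      (⟪ecA σ κ M p - JA σ κ M (TA σ κ M (ecA σ κ M p)), θ⟫_ℝ - 1 / 2 * S) ^ 2 *
          wF (aB K) (alo v M) (ahi v M) p ≤
      2 * (B p ^ 2 * wF (aB K) (alo v M) (ahi v M) p) +
        ((6 * Fintype.card σ + 6) * wF (aB K) (alo v M) (ahi v M) p +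
          3 / 2 * (M : ℝ) ^ 2 * ((1 - p.1.2) ^ 2 * wF (aB K) (alo v M) (ahi v M) p)) := by
    intro p
    by_cases hp : p ∈ SF (aB K) (alo v M) (ahi v M)
    · have hw : wF (aB K) (alo v M) (ahi v M) p = 1 := indicator_of_mem hp _
      rw [hw, mul_one, mul_one, mul_one, mul_one, lost_eq (v := v) hM, ← hS]
      change (B p + _ - 1 / 2 * S) ^ 2 ≤ _
      set a1 := ∑ i : σ, θ (Sum.inl i) * p.1.1 i with ha1
      set a2 := θ (Sum.inr (Sum.inl ())) * p.1.2 with ha2
      have h1 : a1 ^ 2 ≤ Fintype.card σ := by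
        have h2 := Finset.sum_mul_sq_le_sq_mul_sq (Finset.univ : Finset σ)
          (fun i => θ (Sum.inl i)) (fun i => p.1.1 i)
        refine h2.trans ?_
        have h3 : ∑ i : σ, p.1.1 i ^ 2 ≤ Fintype.card σ := by
          calc ∑ i : σ, p.1.1 i ^ 2 ≤ ∑ _i : σ, (1 : ℝ) := by
                refine Finset.sum_le_sum fun i _ => ?_
                have := hK.cube _ hp.1.1 i
                nlinarith [this.1, this.2]
            _ = _ := by simp
        have h4 : 0 ≤ ∑ i : σ, p.1.1 i ^ 2 := by positivity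
        calc _ ≤ 1 * ∑ i : σ, p.1.1 i ^ 2 := mul_le_mul_of_nonneg_right (by linarith) h4
          _ ≤ _ := by rw [one_mul]; exact h3
      have h2 : a2 ^ 2 ≤ 1 := by
        rw [ha2, mul_pow]
        have h3 : p.1.2 ^ 2 ≤ 1 := pow_le_one₀ hp.1.2.1 hp.1.2.2
        exact mul_le_one₀ (by linarith) (sq_nonneg _) h3
      have h3 : ((1 - p.1.2) / 2 * S) ^ 2 ≤ 1 / 4 * (M : ℝ) ^ 2 * (1 - p.1.2) ^ 2 := by
        have : ((1 - p.1.2) / 2 * S) ^ 2 = 1 / 4 * (1 - p.1.2) ^ 2 * S ^ 2 := by ring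
        rw [this]
        calc _ ≤ 1 / 4 * (1 - p.1.2) ^ 2 * (M : ℝ) ^ 2 :=
              mul_le_mul_of_nonneg_left hS2 (by positivity)
          _ = _ := by ring
      have e : B p + (a1 + a2 + p.1.2 / 2 * S) - 1 / 2 * S = B p + (a1 + a2 - (1 - p.1.2) / 2 * S) := by
        ring
      rw [e]
      set a3 := (1 - p.1.2) / 2 * S with ha3
      nlinarith [sq_nonneg (B p - (a1 + a2 - a3)), sq_nonneg (a1 - a2), sq_nonneg (a1 + a3),
        sq_nonneg (a2 + a3)]
    · have hw : wF (aB K) (alo v M) (ahi v M) p = 0 := indicator_of_notMem hp _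
      rw [hw]
      simp
  have hBc : Continuous fun p => B p ^ 2 := by
    have h1 := hF.clo
    have h2 := hF.chi
    rw [hB]
    fun_prop
  have i1 := (wF_int hF hBc).const_mul 2
  have i2 := wF_int hF (F := fun _ => ((6 : ℝ) * Fintype.card σ + 6)) continuous_const
  have i3 := (wF_int hF (F := fun p => (1 - p.1.2) ^ 2) (by fun_prop)).const_mul
    (3 / 2 * (M : ℝ) ^ 2)
  have e1 : ∫ p : (Eu σ × ℝ) × Eu (JM κ M), (2 * (B p ^ 2 * wF (aB K) (alo v M) (ahi v M) p) +
      ((6 * (Fintype.card σ : ℝ) + 6) * wF (aB K) (alo v M) (ahi v M) p +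
          3 / 2 * (M : ℝ) ^ 2 * ((1 - p.1.2) ^ 2 * wF (aB K) (alo v M) (ahi v M) p))) =
      2 * (∫ p, B p ^ 2 * wF (aB K) (alo v M) (ahi v M) p) +
      ((6 * Fintype.card σ + 6) * (∫ p, wF (aB K) (alo v M) (ahi v M) p) +
        3 / 2 * (M : ℝ) ^ 2 * ∫ p : (Eu σ × ℝ) × Eu (JM κ M), (1 - p.1.2) ^ 2 *
          wF (aB K) (alo v M) (ahi v M) p) := by
    have i23 := i2.add i3
    have q1 := integral_add i1 i23
    have q2 := integral_add i2 i3
    simp only [Pi.add_apply] at q1 q2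
    rw [q1, q2, integral_const_mul, integral_const_mul,
      integral_const_mul]
  refine (integral_mono_of_nonneg (Eventually.of_forall fun p =>
    mul_nonneg (sq_nonneg _) (wF_nonneg p)) (i1.add (i2.add i3))
    (Eventually.of_forall hpt)).trans ?_
  simp only [Pi.add_apply]
  refine (le_of_eq e1).trans ?_
  have h1 := fibM2 hF (vt θ)
  have h2 := small_mom (v := v) (M := M) hK 2
  have h0 : 0 ≤ ∫ p, wF (aB K) (alo v M) (ahi v M) p := integral_nonneg fun p => wF_nonneg p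
  have h3 := mul_le_mul_of_nonneg_left h2 (by positivity : 0 ≤ 3 / 2 * (M : ℝ) ^ 2)
  have h4 : ∫ p, B p ^ 2 * wF (aB K) (alo v M) (ahi v M) p ≤
      ∫ p, wF (aB K) (alo v M) (ahi v M) p :=
    h1.trans (mul_le_of_le_one_left h0 hvt)
  linarith

/-- **amplification** -/
theorem kp_amp {D : ℝ} (hD : 0 ≤ D) (hK : CB K) (v : κ → σ)
    (H : ∀ M, 0 < M → KP (nm ((Amp K v M).indicator fun _ => (1 : ℝ))) D) :
    KP ((nm (K.indicator fun _ => (1 : ℝ))).map (pv v)) D := by
  have hwK := wt_ind hK.cpt hK.int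
  have hpK := hwK.prob
  have hpv : Measurable (pv v : Eu σ → Eu κ) := pv_cont.measurable
  have hμ : IsProbabilityMeasure ((nm (K.indicator fun _ => (1 : ℝ))).map (pv v)) :=
    Measure.isProbabilityMeasure_map hpv.aemeasurable
  have hwM : ∀ M, Wt ((Amp K v M).indicator fun _ => (1 : ℝ)) := fun M =>
    wt_ind (Amp_cb hK).cpt (Amp_cb hK).int
  have hrep : ∀ (M : ℕ) (φ : Eu (IX σ κ M) → ℝ),
      ∫ y, φ y ∂(nm ((Amp K v M).indicator fun _ => (1 : ℝ))) =
        (∫ p, φ (ecA σ κ M p) * wF (aB K) (alo v M) (ahi v M) p) /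
          ∫ p, wF (aB K) (alo v M) (ahi v M) p := by
    intro M φ
    have := vol_haarA σ (JM κ M)
    rw [integral_nm (hwM M).nonneg (hwM M).meas, integral_quot
      (volume : Measure ((Eu σ × ℝ) × Eu (JM κ M))) volume (ecA σ κ M) 0]
    simp only [add_zero, Amp_ind]
  have hpos : ∀ M : ℕ, 0 < ∫ p, wF (aB K) (alo v M) (ahi v M) p := by
    intro M
    have := vol_haarA σ (JM κ M)
    have h1 := (hwM M).pos
    rw [← integral_pos_scale (volume : Measure ((Eu σ × ℝ) × Eu (JM κ M))) volume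
      (ecA σ κ M) 0] at h1
    simpa only [add_zero, Amp_ind] using h1
  have hme : ∀ M : ℕ, Measurable fun y : Eu (IX σ κ M) => (Real.sqrt M)⁻¹ • y - 0 :=
    fun M => by fun_prop
  have hνp : ∀ M : ℕ, IsProbabilityMeasure ((nm ((Amp K v M).indicator fun _ => (1 : ℝ))).map
      fun y => (Real.sqrt M)⁻¹ • y - 0) := fun M => by
    have := (hwM M).prob
    exact Measure.isProbabilityMeasure_map (hme M).aemeasurable
  have hνi : ∀ M : ℕ, Integrable (fun y => ‖y‖ ^ 2)
      ((nm ((Amp K v M).indicator fun _ => (1 : ℝ))).map fun y => (Real.sqrt M)⁻¹ • y - 0) := by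
    intro M
    rw [integrable_map_measure (by fun_prop) (hme M).aemeasurable]
    refine ((hwM M).int_sq.const_mul (((Real.sqrt M)⁻¹) ^ 2)).congr
      (Eventually.of_forall fun y => ?_)
    simp only [Function.comp_apply, sub_zero, norm_smul, mul_pow, norm_inv]
    rw [Real.norm_of_nonneg (Real.sqrt_nonneg _)]
  have hmT : ∀ M : ℕ, Measurable fun y : Eu (IX σ κ M) => TA σ κ M y - (0 : Eu κ) :=
    fun M => by fun_prop
  have hTe : ∀ {M : ℕ}, 0 < M → ∀ p : (Eu σ × ℝ) × Eu (JM κ M),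
      TA σ κ M ((Real.sqrt M)⁻¹ • ecA σ κ M p - 0) - 0 = avg κ M p.2 := by
    intro M hM p
    have hM' : (0 : ℝ) < M := by exact_mod_cast hM
    rw [sub_zero, sub_zero, map_smul]
    ext i
    rw [PiLp.smul_apply, TA_apply, smul_eq_mul, ← mul_assoc, ← mul_inv, Real.mul_self_sqrt hM'.le]
    rfl
  refine KP.lift (l := (atTop : Filter ℕ)) (K := fun M => IX σ κ M)
    (ν := fun M => (nm ((Amp K v M).indicator fun _ => (1 : ℝ))).map
      fun y => (Real.sqrt M)⁻¹ • y - 0)
    (T := fun M => TA σ κ M) (b := fun _ => 0) (J := fun M => JA σ κ M) hD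
    (Eventually.of_forall hνp) (Eventually.of_forall hνi) (fun _ => TA_norm) (fun _ => JA_norm)
    ?_ ?_ ?_
  · refine ⟨Eventually.of_forall fun M => ?_, Eventually.of_forall fun M => ?_, ?_, fun φ hφ => ?_⟩
    · have := hνp M
      exact Measure.isProbabilityMeasure_map (hmT M).aemeasurable
    · rw [integrable_map_measure (by fun_prop) (hmT M).aemeasurable]
      refine (hνi M).mono' (by fun_prop) (Eventually.of_forall fun y => ?_)
      simp only [Function.comp_apply, sub_zero]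
      rw [Real.norm_of_nonneg (by positivity)]
      exact pow_le_pow_left₀ (norm_nonneg _) (((TA σ κ M).le_opNorm y).trans
        (mul_le_of_le_one_left (norm_nonneg _) TA_norm)) 2
    · rw [integrable_map_measure (by fun_prop) hpv.aemeasurable]
      have h1 : Continuous fun s : Eu σ => ‖pv v s‖ ^ 2 := (pv_cont.norm).pow 2
      have h2 := hK.cpt.exists_bound_of_continuousOn h1.continuousOn
      -- integrability: quadratic growth
      refine Grow.integrable (φ := fun s : Eu σ => ‖pv v s‖ ^ 2) ⟨h1, Fintype.card κ, fun s => ?_⟩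
        hwK.int_sq
      rw [abs_of_nonneg (by positivity)]
      change ‖pv v s‖ ^ 2 ≤ _
      rw [EuclideanSpace.norm_sq_eq]
      calc ∑ i, ‖pv v s i‖ ^ 2 ≤ ∑ _i : κ, ‖s‖ ^ 2 := by
            refine Finset.sum_le_sum fun i _ => pow_le_pow_left₀ (norm_nonneg _) ?_ 2
            exact PiLp.norm_apply_le s (v i)
        _ = Fintype.card κ * ‖s‖ ^ 2 := by
            rw [Finset.sum_const, Finset.card_univ, nsmul_eq_mul]
        _ ≤ _ := mul_le_mul_of_nonneg_left (le_add_of_nonneg_left zero_le_one) (by positivity)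
    · have h1 := (avg_lim (v := v) hK hφ.1).div (one_lim (v := v) hK) hK.pos.ne'
      rw [integral_map hpv.aemeasurable hφ.1.aestronglyMeasurable,
        integral_nm hwK.nonneg hwK.meas]
      have e1 : (∫ s, φ (pv v s) * K.indicator (fun _ => (1 : ℝ)) s) =
          ∫ s, K.indicator (fun s => φ (pv v s)) s := by
        refine integral_congr_ae (Eventually.of_forall fun s => ?_)
        by_cases hs : s ∈ K
        · simp only [indicator_of_mem hs, mul_one]
        · simp only [indicator_of_notMem hs, mul_zero]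
      have e2 : (∫ s, K.indicator (fun _ => (1 : ℝ)) s) = volume.real K := by
        rw [integral_indicator hK.cpt.measurableSet, setIntegral_const, smul_eq_mul, mul_one]
      rw [e1, e2]
      refine h1.congr' ?_
      filter_upwards [eventually_gt_atTop 0] with M hM
      have hb := (bI_pos (kM κ M) (M ^ 2)).ne'
      have hc : Continuous fun y : Eu (IX σ κ M) => φ (TA σ κ M y - (0 : Eu κ)) :=
        hφ.1.comp (by fun_prop)
      rw [integral_map (hmT M).aemeasurable hφ.1.aestronglyMeasurable,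
        integral_map (hme M).aemeasurable hc.aestronglyMeasurable, hrep M]
      simp only [hTe hM]
      rw [Pi.div_apply]
      exact div_div_div_cancel_right₀ hb _ _
  · intro η hη
    have hr2 := (ratio2 (Fintype.card κ)).const_mul 3
    rw [mul_zero] at hr2
    have hone := one_lim (v := v) hK
    have hsm : Tendsto (fun M : ℕ => (6 * (Fintype.card σ : ℝ) + 8) / M) atTop (𝓝 0) :=
      tendsto_const_div_atTop_nhds_zero_nat _
    filter_upwards [eventually_gt_atTop 0, hr2.eventually (gt_mem_nhds (half_pos hη)),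
      hsm.eventually (gt_mem_nhds (half_pos hη)),
      hone.eventually (lt_mem_nhds (half_lt_self hK.pos))] with M hM h1 h2 h3
    intro θ hθ
    have hM' : (0 : ℝ) < M := by exact_mod_cast hM
    have hb := bI_pos (kM κ M) (M ^ 2)
    have hp := hνp M
    have hpa := (hwM M).prob
    set c := 1 / 2 * ∑ r : Fin (M ^ 2), θ (Sum.inr (Sum.inr (Sum.inl r))) with hc
    have hcont : Continuous fun y : Eu (IX σ κ M) => ⟪y - JA σ κ M (TA σ κ M y), θ⟫_ℝ := by
      fun_prop
    have hsub : Continuous fun y : Eu (IX σ κ M) =>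
        ⟪y - JA σ κ M (TA σ κ M y), θ⟫_ℝ - (Real.sqrt M)⁻¹ * c := by fun_prop
    rw [← ProbabilityTheory.variance_sub_const hcont.aestronglyMeasurable ((Real.sqrt M)⁻¹ * c)]
    refine (ProbabilityTheory.variance_le_expectation_sq hsub.aestronglyMeasurable).trans ?_
    have e0 : ∫ y, ((fun y : Eu (IX σ κ M) => ⟪y - JA σ κ M (TA σ κ M y), θ⟫_ℝ -
        (Real.sqrt M)⁻¹ * c) ^ 2) y ∂((nm ((Amp K v M).indicator fun _ => (1 : ℝ))).map
        fun y => (Real.sqrt M)⁻¹ • y - 0) = (∫ p, ((M : ℝ)⁻¹ *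
        (⟪ecA σ κ M p - JA σ κ M (TA σ κ M (ecA σ κ M p)), θ⟫_ℝ - c) ^ 2) *
          wF (aB K) (alo v M) (ahi v M) p) / ∫ p, wF (aB K) (alo v M) (ahi v M) p := by
      rw [integral_map (hme M).aemeasurable (hsub.pow 2).aestronglyMeasurable, hrep M]
      congr 1
      refine integral_congr_ae (Eventually.of_forall fun p => ?_)
      simp only [Pi.pow_apply]
      congr 1
      have e1 : ⟪((Real.sqrt M)⁻¹ • ecA σ κ M p - 0) -
          JA σ κ M (TA σ κ M ((Real.sqrt M)⁻¹ • ecA σ κ M p - 0)), θ⟫_ℝ =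
          (Real.sqrt M)⁻¹ * ⟪ecA σ κ M p - JA σ κ M (TA σ κ M (ecA σ κ M p)), θ⟫_ℝ := by
        rw [sub_zero, map_smul, map_smul, ← smul_sub, real_inner_smul_left]
      rw [e1, ← mul_sub, mul_pow, inv_pow, Real.sq_sqrt hM'.le]
    refine (le_of_eq e0).trans ?_
    have e2 : ∀ p : (Eu σ × ℝ) × Eu (JM κ M), ((M : ℝ)⁻¹ *
        (⟪ecA σ κ M p - JA σ κ M (TA σ κ M (ecA σ κ M p)), θ⟫_ℝ - c) ^ 2) *
          wF (aB K) (alo v M) (ahi v M) p = (M : ℝ)⁻¹ *
        ((⟪ecA σ κ M p - JA σ κ M (TA σ κ M (ecA σ κ M p)), θ⟫_ℝ - c) ^ 2 *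
          wF (aB K) (alo v M) (ahi v M) p) := fun p => by ring
    simp only [e2]
    rw [integral_const_mul, div_le_iff₀ (hpos M)]
    have h4 := lost_sq (v := v) hK hM hθ
    rw [← hc] at h4
    have h5 := mul_le_mul_of_nonneg_left h4 (by positivity : 0 ≤ (M : ℝ)⁻¹)
    refine h5.trans ?_
    set Z := ∫ p, wF (aB K) (alo v M) (ahi v M) p with hZ
    rw [lt_div_iff₀ hb] at h3
    have hV := hK.pos
    have h6 : (M : ℝ)⁻¹ * (3 / 2 * (M : ℝ) ^ 2 * (volume.real K * bI (kM κ M + 2) (M ^ 2))) ≤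
        3 * ((M : ℝ) * (bI (Fintype.card κ * M + 2) (M ^ 2) /
          bI (Fintype.card κ * M) (M ^ 2))) * Z := by
      have e3 : (M : ℝ)⁻¹ * (3 / 2 * (M : ℝ) ^ 2 * (volume.real K * bI (kM κ M + 2) (M ^ 2))) =
          3 * ((M : ℝ) * (bI (Fintype.card κ * M + 2) (M ^ 2) /
          bI (Fintype.card κ * M) (M ^ 2))) * (volume.real K / 2 * b0 κ M) := by
        have hb' := hb.ne'
        change (M : ℝ)⁻¹ * (3 / 2 * (M : ℝ) ^ 2 * (volume.real K * bI (kM κ M + 2) (M ^ 2))) =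
          3 * ((M : ℝ) * (bI (kM κ M + 2) (M ^ 2) / bI (kM κ M) (M ^ 2))) *
            (volume.real K / 2 * bI (kM κ M) (M ^ 2))
        field_simp
      rw [e3]
      refine mul_le_mul_of_nonneg_left h3.le ?_
      have := bI_pos (Fintype.card κ * M + 2) (M ^ 2)
      have := bI_pos (Fintype.card κ * M) (M ^ 2)
      positivity
    have h7 : (M : ℝ)⁻¹ * ((6 * Fintype.card σ + 8) * Z) = (6 * Fintype.card σ + 8) / M * Z := by
      ring
    rw [mul_add, h7]
    have hZ0 := hpos M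
    rw [← hZ] at hZ0
    calc _ ≤ (6 * (Fintype.card σ : ℝ) + 8) / M * Z + 3 * ((M : ℝ) *
          (bI (Fintype.card κ * M + 2) (M ^ 2) / bI (Fintype.card κ * M) (M ^ 2))) * Z :=
          add_le_add le_rfl h6
      _ ≤ η / 2 * Z + η / 2 * Z :=
          add_le_add (mul_le_mul_of_nonneg_right h2.le hZ0.le)
            (mul_le_mul_of_nonneg_right h1.le hZ0.le)
      _ = η * Z := by ring
  · filter_upwards [eventually_gt_atTop 0] with M hM
    have hM' : (0 : ℝ) < M := by exact_mod_cast hM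
    have hp := (hwM M).prob
    exact (H M hM).affine (hwM M).int_sq (inv_pos.2 (Real.sqrt_pos.2 hM')) 0

end amp4

end Pool.Agent.H776
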