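import Pool.Agent.H776.Amp4
import Mathlib.Analysis.Convex.Measure

/-!
# Amplification with subsets of almost full volume
-/

set_option autoImplicit false

namespace Pool.Agent.H776

open MeasureTheory Set Filter Topology
open scoped ENNReal InnerProductSpace

section amp5

variable {σ κ : Type} [Fintype σ] [Fintype κ] {K : Set (Eu σ)} {v : κ → σ} {M : ℕ} {v₁ : Eu σ}

/-- the smaller base: the cone over `K × 1` with apex `(v₁, 0)` -/
def sB (K : Set (Eu σ)) (v₁ : Eu σ) : Set (Eu σ × ℝ) :=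
  (fun q : Eu σ × ℝ => ((1 - q.2) • v₁ + q.2 • q.1, q.2)) '' (K ×ˢ Icc 0 1)

theorem sB_sub (hc : Convex ℝ K) (h1 : v₁ ∈ K) : sB K v₁ ⊆ aB K := by
  rintro _ ⟨q, hq, rfl⟩
  exact ⟨hc h1 hq.1 (by linarith [hq.2.2]) hq.2.1 (by ring), hq.2⟩

theorem sB_compact (hK : CB K) : IsCompact (sB K v₁) :=
  (hK.cpt.prod isCompact_Icc).image (by fun_prop)

omit [Fintype κ] in
theorem sFib (hK : CB K) (hc : Convex ℝ K) (h1 : v₁ ∈ K) :
    FibD (sB K v₁) (alo v M) (ahi v M) := by
  have h := aFib (v := v) (M := M) hK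
  have hs := sB_sub hc h1
  exact ⟨sB_compact hK, h.clo, h.chi, fun x hx => h.lo0 x (hs hx), fun x hx => h.lohi x (hs hx),
    fun x hx => h.hi1 x (hs hx)⟩

/-- the slices -/
noncomputable def sl5 (K : Set (Eu σ)) (v₁ : Eu σ) (v : κ → σ) (M : ℕ) (s : Eu σ) : ℝ :=
  ∫ f : ℝ, (sB K v₁).indicator (fun x => GA v M x) (s, f)

theorem sl5_int (hK : CB K) (s : Eu σ) :
    Integrable fun f : ℝ => (sB K v₁).indicator (fun x => GA v M x) (s, f) := by
  have hm : MeasurableSet {f : ℝ | (s, f) ∈ sB K v₁} :=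
    (sB_compact hK).measurableSet.preimage (by fun_prop : Measurable fun f : ℝ => (s, f))
  have hsub : {f : ℝ | (s, f) ∈ sB K v₁} ⊆ Icc 0 1 := by
    rintro f ⟨q, hq, he⟩
    have : q.2 = f := congrArg Prod.snd he
    rw [← this]
    exact hq.2
  have hc : Continuous fun f : ℝ => GA v M (s, f) := GA_cont.comp (by fun_prop)
  have h1 : IntegrableOn (fun f : ℝ => GA v M (s, f)) {f : ℝ | (s, f) ∈ sB K v₁} :=
    (hc.continuousOn.integrableOn_compact isCompact_Icc).mono_set hsub
  refine ((integrable_indicator_iff hm).2 h1).congr (Eventually.of_forall fun f => ?_)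
  simp only
  by_cases hf : (s, f) ∈ sB K v₁
  · rw [indicator_of_mem hf, indicator_of_mem (show f ∈ {f : ℝ | (s, f) ∈ sB K v₁} from hf)]
  · rw [indicator_of_notMem hf, indicator_of_notMem (show f ∉ {f : ℝ | (s, f) ∈ sB K v₁} from hf)]

theorem sl5_zero (hc : Convex ℝ K) (h1 : v₁ ∈ K) {s : Eu σ} (hs : s ∉ K) :
    sl5 K v₁ v M s = 0 := by
  unfold sl5
  have : ∀ f : ℝ, (sB K v₁).indicator (fun x => GA v M x) (s, f) = 0 := fun f =>
    indicator_of_notMem (fun h => hs (sB_sub hc h1 h).1) _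
  simp only [this, integral_zero]

theorem sl5_icc (hc : Convex ℝ K) (h1 : v₁ ∈ K) (s : Eu σ) :
    sl5 K v₁ v M s = ∫ f in Icc (0 : ℝ) 1, (sB K v₁).indicator (fun x => GA v M x) (s, f) := by
  unfold sl5
  rw [setIntegral_eq_integral_of_forall_compl_eq_zero]
  intro f hf
  exact indicator_of_notMem (fun h => hf (sB_sub hc h1 h).2) _

theorem sl5_le (hK : CB K) (hc : Convex ℝ K) (h1 : v₁ ∈ K) {s : Eu σ} (hs : s ∈ K) :
    sl5 K v₁ v M s ≤ b0 κ M := by
  have hcG : Continuous fun f : ℝ => GA v M (s, f) := GA_cont.comp (by fun_prop)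
  rw [sl5_icc hc h1]
  have h2 := slice_le (v := v) (M := M) hK hs 0
  simp only [pow_zero, one_mul] at h2
  rw [intervalIntegral.integral_of_le zero_le_one, ← integral_Icc_eq_integral_Ioc] at h2
  refine le_trans ?_ h2
  refine setIntegral_mono_on (sl5_int hK s).integrableOn
    (hcG.continuousOn.integrableOn_compact isCompact_Icc) measurableSet_Icc fun f hf => ?_
  by_cases hf' : (s, f) ∈ sB K v₁
  · rw [indicator_of_mem hf']
  · rw [indicator_of_notMem hf']
    exact GA_nonneg hK ⟨hs, hf⟩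

theorem sl5_nonneg (hK : CB K) (hc : Convex ℝ K) (h1 : v₁ ∈ K) (s : Eu σ) :
    0 ≤ sl5 K v₁ v M s := by
  unfold sl5
  refine integral_nonneg fun f => ?_
  simp only [Pi.zero_apply]
  by_cases hf' : (s, f) ∈ sB K v₁
  · rw [indicator_of_mem hf']
    exact GA_nonneg hK (sB_sub hc h1 hf')
  · rw [indicator_of_notMem hf']

theorem exists_rho {s : Eu σ} (hs : s ∈ interior K) : ∃ ρ : ℝ, 0 < ρ ∧ ∀ f : ℝ, 1 - f ≤ ρ → f ≤ 1 →
    (s, f) ∈ sB K v₁ := by
  have hc : ContinuousAt (fun f : ℝ => f⁻¹ • (s - (1 - f) • v₁)) 1 := by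
    have h2 : Continuous fun f : ℝ => s - (1 - f) • v₁ := by fun_prop
    exact (continuousAt_inv₀ one_ne_zero).smul h2.continuousAt
  have h0 : (fun f : ℝ => f⁻¹ • (s - (1 - f) • v₁)) 1 = s := by
    simp
  have h1 : ∀ᶠ f : ℝ in 𝓝 1, f⁻¹ • (s - (1 - f) • v₁) ∈ K ∧ 0 < f := by
    refine Filter.Eventually.and ?_ (lt_mem_nhds one_pos)
    refine hc.eventually ?_
    rw [h0]
    exact mem_interior_iff_mem_nhds.1 hs
  obtain ⟨ρ, hρ, h2⟩ := Metric.eventually_nhds_iff.1 h1
  refine ⟨ρ / 2, half_pos hρ, fun f hf hf1 => ?_⟩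
  have h3 := h2 (y := f) (by
    rw [Real.dist_eq, abs_sub_comm, abs_of_nonneg (by linarith)]
    linarith)
  refine ⟨(f⁻¹ • (s - (1 - f) • v₁), f), ⟨h3.1, h3.2.le, hf1⟩, ?_⟩
  simp only
  rw [smul_smul, mul_inv_cancel₀ h3.2.ne', one_smul, add_sub_cancel]

theorem sl5_ge (hK : CB K) (hc : Convex ℝ K) (h1 : v₁ ∈ K) {s : Eu σ} {ρ : ℝ}
    (hρ : 0 < ρ) (h : ∀ i, ρ ≤ s (v i)) (h2 : ∀ f : ℝ, 1 - f ≤ ρ → f ≤ 1 → (s, f) ∈ sB K v₁) :
    bI (kM κ M) (M ^ 2) - ρ⁻¹ * bI (kM κ M + 1) (M ^ 2) ≤ sl5 K v₁ v M s := by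
  rw [sl5_icc hc h1, ← bI_flip, ← bI_flip, ← intervalIntegral.integral_const_mul,
    ← intervalIntegral.integral_sub (Continuous.intervalIntegrable (by fun_prop) _ _)
      (Continuous.intervalIntegrable (by fun_prop) _ _),
    intervalIntegral.integral_of_le zero_le_one, ← integral_Icc_eq_integral_Ioc]
  refine setIntegral_mono_on ((by fun_prop : Continuous fun f : ℝ => f ^ (M ^ 2) *
    (1 - f) ^ (kM κ M) - ρ⁻¹ * (f ^ (M ^ 2) * (1 - f) ^ (kM κ M + 1))).continuousOn.integrableOn_compact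
      isCompact_Icc) (sl5_int hK s).integrableOn measurableSet_Icc fun f hf => ?_
  have h0 : 0 ≤ 1 - f := by linarith [hf.2]
  have e1 : f ^ (M ^ 2) * (1 - f) ^ (kM κ M) - ρ⁻¹ * (f ^ (M ^ 2) * (1 - f) ^ (kM κ M + 1)) =
      (f ^ (M ^ 2) * (1 - f) ^ (kM κ M)) * (1 - (1 - f) / ρ) := by
    rw [pow_succ (1 - f) (kM κ M), div_eq_mul_inv]
    ring
  rw [e1]
  rcases le_total (1 - f) ρ with h3 | h3
  · rw [indicator_of_mem (h2 f h3 hf.2)]
    have e2 : GA v M (s, f) = f ^ (M ^ 2) * (1 - f) ^ (kM κ M) := by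
      unfold GA
      have : ∀ i, min (s (v i)) (1 - f) = 1 - f := fun i => min_eq_right (h3.trans (h i))
      simp only [this, Finset.prod_const, Finset.card_univ, ← pow_mul]
      rw [mul_comm M]
    rw [e2]
    refine mul_le_of_le_one_right (mul_nonneg (pow_nonneg hf.1 _) (pow_nonneg h0 _)) ?_
    have : 0 ≤ (1 - f) / ρ := div_nonneg h0 hρ.le
    linarith
  · have h4 : 1 ≤ (1 - f) / ρ := (one_le_div hρ).2 h3
    have h5 : 0 ≤ f ^ (M ^ 2) * (1 - f) ^ (kM κ M) :=
      mul_nonneg (pow_nonneg hf.1 _) (pow_nonneg h0 _)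
    refine (mul_nonpos_of_nonneg_of_nonpos h5 (by linarith)).trans ?_
    by_cases hf' : (s, f) ∈ sB K v₁
    · rw [indicator_of_mem hf']
      exact GA_nonneg hK (sB_sub hc h1 hf')
    · rw [indicator_of_notMem hf']

theorem sub_lim (hK : CB K) (hc : Convex ℝ K) (h1 : v₁ ∈ K) :
    Tendsto (fun M : ℕ => (∫ p : (Eu σ × ℝ) × Eu (JM κ M),
      wF (sB K v₁) (alo v M) (ahi v M) p) / b0 κ M) atTop (𝓝 (volume.real K)) := by
  have e : ∀ M : ℕ, (∫ p : (Eu σ × ℝ) × Eu (JM κ M),
      wF (sB K v₁) (alo v M) (ahi v M) p) / b0 κ M = ∫ s, sl5 K v₁ v M s / b0 κ M := by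
    intro M
    have h2 := fibM1 (sFib (v := v) (M := M) hK hc h1) (F := fun _ => 1) continuous_const
    simp only [one_mul, prod_len] at h2
    have h3 := integral_prod (μ := (volume : Measure (Eu σ))) (ν := (volume : Measure ℝ)) _ h2.1
    rw [integral_div, h2.2]
    exact congrArg (fun r => r / b0 κ M) h3
  simp only [e]
  have e2 : volume.real K = ∫ s, K.indicator (fun _ => (1 : ℝ)) s := by
    rw [integral_indicator hK.cpt.measurableSet, setIntegral_const, smul_eq_mul, mul_one]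
  rw [e2]
  refine tendsto_integral_filter_of_dominated_convergence (fun s => K.indicator (fun _ => (1 : ℝ)) s)
    (Eventually.of_forall fun M => ?_) (Eventually.of_forall fun M => Eventually.of_forall
      fun s => ?_) ?_ ?_
  · have h2 := fibM1 (sFib (v := v) (M := M) hK hc h1) (F := fun _ => 1) continuous_const
    simp only [one_mul, prod_len] at h2
    exact ((Integrable.integral_prod_left (μ := (volume : Measure (Eu σ)))
      (ν := (volume : Measure ℝ)) h2.1).div_const _).aestronglyMeasurable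
  · by_cases hs : s ∈ K
    · rw [indicator_of_mem hs, Real.norm_of_nonneg (div_nonneg (sl5_nonneg hK hc h1 s)
        (bI_pos _ _).le), div_le_one (bI_pos _ _)]
      exact sl5_le hK hc h1 hs
    · rw [indicator_of_notMem hs, sl5_zero hc h1 hs, zero_div, norm_zero]
  · exact (integrable_indicator_iff hK.cpt.measurableSet).2
      (continuousOn_const.integrableOn_compact hK.cpt)
  · have hfr : ∀ᵐ s : Eu σ, s ∉ frontier K := by
      rw [ae_iff]
      simpa using hc.addHaar_frontier volume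
    filter_upwards [coord_ne (κ := σ), hfr] with s hs0 hsf
    by_cases hs : s ∈ K
    · rw [indicator_of_mem hs]
      have hsi : s ∈ interior K := by
        by_contra hni
        exact hsf ⟨subset_closure hs, hni⟩
      have hpos : ∀ i, 0 < s (v i) := fun i =>
        lt_of_le_of_ne (hK.cube s hs _).1 (Ne.symm (hs0 _))
      obtain ⟨ρ₁, hρ₁, hρi⟩ : ∃ ρ : ℝ, 0 < ρ ∧ ∀ i, ρ ≤ s (v i) := by
        rcases isEmpty_or_nonempty κ with hκ | hκ
        · exact ⟨1, one_pos, fun i => (hκ.false i).elim⟩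
        · obtain ⟨i₀, hi₀⟩ := Finite.exists_min fun i => s (v i)
          exact ⟨s (v i₀), hpos _, hi₀⟩
      obtain ⟨ρ₂, hρ₂, hρf⟩ := exists_rho (v₁ := v₁) hsi
      set ρ := min ρ₁ ρ₂ with hρd
      have hρ : 0 < ρ := lt_min hρ₁ hρ₂
      have h2 : Tendsto (fun M : ℕ => 1 - ρ⁻¹ * (bI (Fintype.card κ * M + 1) (M ^ 2) /
          bI (Fintype.card κ * M) (M ^ 2))) atTop (𝓝 (1 - ρ⁻¹ * 0)) :=
        ((ratio1 (Fintype.card κ)).const_mul _).const_sub 1
      rw [mul_zero, sub_zero] at h2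
      refine tendsto_of_tendsto_of_tendsto_of_le_of_le h2 tendsto_const_nhds (fun M => ?_)
        fun M => ?_
      · have h3 := bI_pos (kM κ M) (M ^ 2)
        rw [le_div_iff₀ h3]
        refine le_trans (le_of_eq ?_) (sl5_ge (v := v) (M := M) hK hc h1 hρ
          (fun i => (min_le_left _ _).trans (hρi i))
          fun f hf hf1 => hρf f (hf.trans (min_le_right _ _)) hf1)
        have h4 := h3.ne'
        field_simp
      · have h3 := bI_pos (kM κ M) (M ^ 2)
        simp only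
        rw [div_le_one h3]
        exact sl5_le hK hc h1 hs
    · rw [indicator_of_notMem hs]
      refine tendsto_const_nhds.congr fun M => ?_
      rw [sl5_zero hc h1 hs, zero_div]

/-- subsets of the large body which contain the part over the smaller base -/
structure SubA (K : Set (Eu σ)) (v : κ → σ) (v₁ : Eu σ) (Hs : ∀ M, Set (Eu (IX σ κ M))) :
    Prop where
  up : ∀ M, Hs M ⊆ Amp K v M
  low : ∀ M p, p ∈ SF (sB K v₁) (alo v M) (ahi v M) → ecA σ κ M p ∈ Hs M
  cpt : ∀ M, IsCompact (Hs M)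
  cvx : ∀ M, Convex ℝ (Hs M)

/-- the indicator function in block coordinates -/
noncomputable def wS (Hs : ∀ M, Set (Eu (IX σ κ M))) (M : ℕ) (p : (Eu σ × ℝ) × Eu (JM κ M)) : ℝ :=
  (Hs M).indicator (fun _ => (1 : ℝ)) (ecA σ κ M p)

variable {Hs : ∀ M, Set (Eu (IX σ κ M))}

theorem wS_nonneg (p : (Eu σ × ℝ) × Eu (JM κ M)) : 0 ≤ wS Hs M p :=
  indicator_nonneg (fun _ _ => zero_le_one) _

theorem wS_le (hS : SubA K v v₁ Hs) (p : (Eu σ × ℝ) × Eu (JM κ M)) :
    wS Hs M p ≤ wF (aB K) (alo v M) (ahi v M) p := by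
  rw [← Amp_ind]
  exact indicator_le_indicator_of_subset (hS.up M) (fun _ => zero_le_one) _

theorem wS_ge (hS : SubA K v v₁ Hs) (p : (Eu σ × ℝ) × Eu (JM κ M)) :
    wF (sB K v₁) (alo v M) (ahi v M) p ≤ wS Hs M p := by
  unfold wF wS
  by_cases hp : p ∈ SF (sB K v₁) (alo v M) (ahi v M)
  · rw [indicator_of_mem hp, indicator_of_mem (hS.low M p hp)]
  · rw [indicator_of_notMem hp]
    exact indicator_nonneg (fun _ _ => zero_le_one) _

theorem wS_int (hK : CB K) (hS : SubA K v v₁ Hs) {F : (Eu σ × ℝ) × Eu (JM κ M) → ℝ}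
    (hF : Continuous F) : Integrable fun p => F p * wS Hs M p := by
  have h1 := wF_int (aFib (v := v) (M := M) hK) (F := fun p => |F p|) hF.abs
  have hm : Measurable fun p => wS Hs M p :=
    (measurable_const.indicator (hS.cpt M).measurableSet).comp (ecA σ κ M).continuous.measurable
  refine h1.mono' (hF.measurable.mul hm).aestronglyMeasurable (Eventually.of_forall fun p => ?_)
  rw [norm_mul, Real.norm_eq_abs, Real.norm_of_nonneg (wS_nonneg p)]
  exact mul_le_mul_of_nonneg_left (wS_le hS p) (abs_nonneg _)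

theorem wS_lim (hK : CB K) (hc : Convex ℝ K) (h1 : v₁ ∈ K) (hS : SubA K v v₁ Hs) :
    Tendsto (fun M : ℕ => (∫ p : (Eu σ × ℝ) × Eu (JM κ M), wS Hs M p) / b0 κ M) atTop
      (𝓝 (volume.real K)) := by
  refine tendsto_of_tendsto_of_tendsto_of_le_of_le (sub_lim (v := v) hK hc h1)
    (one_lim (v := v) hK) (fun M => ?_) fun M => ?_
  · have i1 := wF_int (sFib (v := v) (M := M) hK hc h1) (F := fun _ => 1) continuous_const
    have i2 := wS_int (M := M) hK hS (F := fun _ => 1) continuous_const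
    simp only [one_mul] at i1 i2
    exact div_le_div_of_nonneg_right (integral_mono i1 i2 fun p => wS_ge hS p) (bI_pos _ _).le
  · have i1 := wF_int (aFib (v := v) (M := M) hK) (F := fun _ => 1) continuous_const
    have i2 := wS_int (M := M) hK hS (F := fun _ => 1) continuous_const
    simp only [one_mul] at i1 i2
    exact div_le_div_of_nonneg_right (integral_mono i2 i1 fun p => wS_le hS p) (bI_pos _ _).le

theorem avgS_lim (hK : CB K) (hc : Convex ℝ K) (h1 : v₁ ∈ K) (hS : SubA K v v₁ Hs)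
    {φ : Eu κ → ℝ} (hφ : Continuous φ) :
    Tendsto (fun M : ℕ => (∫ p : (Eu σ × ℝ) × Eu (JM κ M), φ (avg κ M p.2) * wS Hs M p) / b0 κ M)
      atTop (𝓝 (∫ s, K.indicator (fun s => φ (pv v s)) s)) := by
  have h2 := avg_lim (v := v) hK hφ
  have h3 := (one_lim (v := v) hK).sub (wS_lim hK hc h1 hS)
  rw [sub_self] at h3
  have hcube : IsCompact {x : Eu κ | ∀ i, 0 ≤ x i ∧ x i ≤ 1} := cube_compact
  obtain ⟨C, hC⟩ := hcube.exists_bound_of_continuousOn hφ.continuousOn
  have h4 := h3.const_mul C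
  rw [mul_zero] at h4
  have hdiff : Tendsto (fun M : ℕ => (∫ p : (Eu σ × ℝ) × Eu (JM κ M), φ (avg κ M p.2) *
      wF (aB K) (alo v M) (ahi v M) p) / b0 κ M - (∫ p : (Eu σ × ℝ) × Eu (JM κ M),
        φ (avg κ M p.2) * wS Hs M p) / b0 κ M) atTop (𝓝 0) := by
    refine squeeze_zero_norm' ?_ h4
    filter_upwards [eventually_gt_atTop 0] with M hM
    have hb := bI_pos (kM κ M) (M ^ 2)
    have hF := aFib (v := v) (M := M) hK
    have i1 := wF_int hF (F := fun p => φ (avg κ M p.2)) (hφ.comp (avg_cont.comp continuous_snd))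
    have i2 := wS_int (M := M) hK hS (F := fun p => φ (avg κ M p.2))
      (hφ.comp (avg_cont.comp continuous_snd))
    have i3 := wF_int hF (F := fun _ => 1) continuous_const
    have i4 := wS_int (M := M) hK hS (F := fun _ => 1) continuous_const
    simp only [one_mul] at i3 i4
    rw [← sub_div, ← sub_div, norm_div, Real.norm_of_nonneg hb.le, ← integral_sub i1 i2,
      ← mul_div_assoc, ← integral_sub i3 i4, ← integral_const_mul]
    refine div_le_div_of_nonneg_right ?_ hb.le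
    refine norm_integral_le_of_norm_le ((i3.sub i4).const_mul C) (Eventually.of_forall fun p => ?_)
    rw [← mul_sub, norm_mul, Real.norm_of_nonneg (sub_nonneg.2 (wS_le hS p))]
    by_cases hp : p ∈ SF (aB K) (alo v M) (ahi v M)
    · refine mul_le_mul_of_nonneg_right (hC _ fun i => ?_) (sub_nonneg.2 (wS_le hS p))
      have hM' : (0 : ℝ) < M := by exact_mod_cast hM
      refine ⟨?_, (avg_near hM hp i).2.trans (hK.cube _ hp.1.1 (v i)).2⟩
      refine mul_nonneg (by positivity) (Finset.sum_nonneg fun r _ => ?_)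
      exact (hF.lo0 _ hp.1 _).trans (hp.2 (Sum.inr (i, r))).1
    · have hw : wF (aB K) (alo v M) (ahi v M) p = 0 := indicator_of_notMem hp _
      have hw' : wS Hs M p = 0 := le_antisymm (hw ▸ wS_le hS p) (wS_nonneg p)
      rw [hw, hw', sub_zero, mul_zero, mul_zero]
  have h5 := h2.sub hdiff
  rw [sub_zero] at h5
  refine h5.congr fun M => ?_
  ring

/-- **amplification with subsets** -/
theorem kp_amp_sub {D : ℝ} (hD : 0 ≤ D) (hK : CB K) (hc : Convex ℝ K) (h1 : v₁ ∈ K)
    (hS : SubA K v v₁ Hs)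
    (H : ∀ M, 0 < M → (interior (Hs M)).Nonempty → KP (nm ((Hs M).indicator fun _ => (1 : ℝ))) D) :
    KP ((nm (K.indicator fun _ => (1 : ℝ))).map (pv v)) D := by
  have hwK := wt_ind hK.cpt hK.int
  have hpK := hwK.prob
  have hpv : Measurable (pv v : Eu σ → Eu κ) := pv_cont.measurable
  have hμ : IsProbabilityMeasure ((nm (K.indicator fun _ => (1 : ℝ))).map (pv v)) :=
    Measure.isProbabilityMeasure_map hpv.aemeasurable
  have hlimS := wS_lim hK hc h1 hS
  -- eventually the subsets have interior points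
  have hev : ∀ᶠ M : ℕ in atTop, (interior (Hs M)).Nonempty ∧ 0 < ∫ p, wS Hs M p := by
    filter_upwards [hlimS.eventually (lt_mem_nhds hK.pos)] with M hM
    have hb := bI_pos (kM κ M) (M ^ 2)
    have h2 : 0 < ∫ p, wS Hs M p := by
      rw [lt_div_iff₀ hb, zero_mul] at hM
      exact hM
    refine ⟨?_, h2⟩
    have := vol_haarA σ (JM κ M)
    have h3 : 0 < ∫ y, (Hs M).indicator (fun _ => (1 : ℝ)) y := by
      rw [← integral_pos_scale (volume : Measure ((Eu σ × ℝ) × Eu (JM κ M))) volume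
        (ecA σ κ M) 0]
      simp only [add_zero]
      exact h2
    rw [integral_indicator (hS.cpt M).measurableSet, setIntegral_const, smul_eq_mul, mul_one] at h3
    by_contra hni
    rw [not_nonempty_iff_eq_empty] at hni
    have h4 : volume (Hs M) = 0 := by
      refine measure_mono_null ?_ ((hS.cvx M).addHaar_frontier volume)
      rw [frontier, hni, sdiff_empty]
      exact subset_closure
    rw [Measure.real, h4, ENNReal.toReal_zero] at h3
    exact lt_irrefl _ h3
  have hwM : ∀ {M : ℕ}, (interior (Hs M)).Nonempty → Wt ((Hs M).indicator fun _ => (1 : ℝ)) :=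
    fun {M} h => wt_ind (hS.cpt M) h
  have hrep : ∀ {M : ℕ}, (interior (Hs M)).Nonempty → ∀ (φ : Eu (IX σ κ M) → ℝ),
      ∫ y, φ y ∂(nm ((Hs M).indicator fun _ => (1 : ℝ))) =
        (∫ p, φ (ecA σ κ M p) * wS Hs M p) / ∫ p, wS Hs M p := by
    intro M hM φ
    have := vol_haarA σ (JM κ M)
    rw [integral_nm (hwM hM).nonneg (hwM hM).meas, integral_quot
      (volume : Measure ((Eu σ × ℝ) × Eu (JM κ M))) volume (ecA σ κ M) 0]
    simp only [add_zero]
    rfl
  have hme : ∀ M : ℕ, Measurable fun y : Eu (IX σ κ M) => (Real.sqrt M)⁻¹ • y - 0 :=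
    fun M => by fun_prop
  have hνp : ∀ᶠ M : ℕ in atTop, IsProbabilityMeasure ((nm ((Hs M).indicator
      fun _ => (1 : ℝ))).map fun y => (Real.sqrt M)⁻¹ • y - 0) := by
    filter_upwards [hev] with M hM
    have := (hwM hM.1).prob
    exact Measure.isProbabilityMeasure_map (hme M).aemeasurable
  have hνi : ∀ᶠ M : ℕ in atTop, Integrable (fun y => ‖y‖ ^ 2)
      ((nm ((Hs M).indicator fun _ => (1 : ℝ))).map fun y => (Real.sqrt M)⁻¹ • y - 0) := by
    filter_upwards [hev] with M hM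
    rw [integrable_map_measure (by fun_prop) (hme M).aemeasurable]
    refine ((hwM hM.1).int_sq.const_mul (((Real.sqrt M)⁻¹) ^ 2)).congr
      (Eventually.of_forall fun y => ?_)
    simp only [Function.comp_apply, sub_zero, norm_smul, mul_pow, norm_inv]
    rw [Real.norm_of_nonneg (Real.sqrt_nonneg _)]
  have hmT : ∀ M : ℕ, Measurable fun y : Eu (IX σ κ M) => TA σ κ M y - (0 : Eu κ) :=
    fun M => by fun_prop
  have hTe : ∀ {M : ℕ}, 0 < M → ∀ p : (Eu σ × ℝ) × Eu (JM κ M),
      TA σ κ M ((Real.sqrt M)⁻¹ • ecA σ κ M p - 0) - 0 = avg κ M p.2 := by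
    intro M hM p
    have hM' : (0 : ℝ) < M := by exact_mod_cast hM
    rw [sub_zero, sub_zero, map_smul]
    ext i
    rw [PiLp.smul_apply, TA_apply, smul_eq_mul, ← mul_assoc, ← mul_inv, Real.mul_self_sqrt hM'.le]
    rfl
  refine KP.lift (l := (atTop : Filter ℕ)) (K := fun M => IX σ κ M)
    (ν := fun M => (nm ((Hs M).indicator fun _ => (1 : ℝ))).map
      fun y => (Real.sqrt M)⁻¹ • y - 0)
    (T := fun M => TA σ κ M) (b := fun _ => 0) (J := fun M => JA σ κ M) hD
    hνp hνi (fun _ => TA_norm) (fun _ => JA_norm)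
    ?_ ?_ ?_
  · refine ⟨?_, ?_, ?_, fun φ hφ => ?_⟩
    · filter_upwards [hνp] with M hM
      exact Measure.isProbabilityMeasure_map (hmT M).aemeasurable
    · filter_upwards [hνp, hνi] with M hM hMi
      rw [integrable_map_measure (by fun_prop) (hmT M).aemeasurable]
      refine hMi.mono' (by fun_prop) (Eventually.of_forall fun y => ?_)
      simp only [Function.comp_apply, sub_zero]
      rw [Real.norm_of_nonneg (by positivity)]
      exact pow_le_pow_left₀ (norm_nonneg _) (((TA σ κ M).le_opNorm y).trans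
        (mul_le_of_le_one_left (norm_nonneg _) TA_norm)) 2
    · rw [integrable_map_measure (by fun_prop) hpv.aemeasurable]
      have h1 : Continuous fun s : Eu σ => ‖pv v s‖ ^ 2 := (pv_cont.norm).pow 2
      refine Grow.integrable (φ := fun s : Eu σ => ‖pv v s‖ ^ 2) ⟨h1, Fintype.card κ, fun s => ?_⟩
        hwK.int_sq
      rw [abs_of_nonneg (by positivity)]
      change ‖pv v s‖ ^ 2 ≤ _
      rw [EuclideanSpace.norm_sq_eq]
      calc ∑ i, ‖pv v s i‖ ^ 2 ≤ ∑ _i : κ, ‖s‖ ^ 2 := by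
            refine Finset.sum_le_sum fun i _ => pow_le_pow_left₀ (norm_nonneg _) ?_ 2
            exact PiLp.norm_apply_le s (v i)
        _ = Fintype.card κ * ‖s‖ ^ 2 := by
            rw [Finset.sum_const, Finset.card_univ, nsmul_eq_mul]
        _ ≤ _ := mul_le_mul_of_nonneg_left (le_add_of_nonneg_left zero_le_one) (by positivity)
    · have h2 := (avgS_lim hK hc h1 hS hφ.1).div hlimS hK.pos.ne'
      rw [integral_map hpv.aemeasurable hφ.1.aestronglyMeasurable,
        integral_nm hwK.nonneg hwK.meas]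
      have e1 : (∫ s, φ (pv v s) * K.indicator (fun _ => (1 : ℝ)) s) =
          ∫ s, K.indicator (fun s => φ (pv v s)) s := by
        refine integral_congr_ae (Eventually.of_forall fun s => ?_)
        by_cases hs : s ∈ K
        · simp only [indicator_of_mem hs, mul_one]
        · simp only [indicator_of_notMem hs, mul_zero]
      have e2 : (∫ s, K.indicator (fun _ => (1 : ℝ)) s) = volume.real K := by
        rw [integral_indicator hK.cpt.measurableSet, setIntegral_const, smul_eq_mul, mul_one]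
      rw [e1, e2]
      refine h2.congr' ?_
      filter_upwards [eventually_gt_atTop 0, hev] with M hM hMe
      have hb := (bI_pos (kM κ M) (M ^ 2)).ne'
      have hcc : Continuous fun y : Eu (IX σ κ M) => φ (TA σ κ M y - (0 : Eu κ)) :=
        hφ.1.comp (by fun_prop)
      rw [integral_map (hmT M).aemeasurable hφ.1.aestronglyMeasurable,
        integral_map (hme M).aemeasurable hcc.aestronglyMeasurable, hrep hMe.1]
      simp only [hTe hM]
      rw [Pi.div_apply]
      exact div_div_div_cancel_right₀ hb _ _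
  · intro η hη
    have hr2 := (ratio2 (Fintype.card κ)).const_mul 3
    rw [mul_zero] at hr2
    have hone := one_lim (v := v) hK
    have hV := hK.pos
    have hsm : Tendsto (fun M : ℕ => (6 * (Fintype.card σ : ℝ) + 8) / M) atTop (𝓝 0) :=
      tendsto_const_div_atTop_nhds_zero_nat _
    filter_upwards [eventually_gt_atTop 0, hev,
      hr2.eventually (gt_mem_nhds (show (0 : ℝ) < η / 8 by positivity)),
      hsm.eventually (gt_mem_nhds (show (0 : ℝ) < η / 8 by positivity)),
      hlimS.eventually (lt_mem_nhds (half_lt_self hK.pos)),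
      hone.eventually (gt_mem_nhds (show volume.real K < 2 * volume.real K by linarith))]
      with M hM hMe h2 h3 h4 h5
    intro θ hθ
    have hM' : (0 : ℝ) < M := by exact_mod_cast hM
    have hb := bI_pos (kM κ M) (M ^ 2)
    have hpa := (hwM hMe.1).prob
    have hp : IsProbabilityMeasure ((nm ((Hs M).indicator
      fun _ => (1 : ℝ))).map fun y => (Real.sqrt M)⁻¹ • y - 0) :=
      Measure.isProbabilityMeasure_map (hme M).aemeasurable
    set c := 1 / 2 * ∑ r : Fin (M ^ 2), θ (Sum.inr (Sum.inr (Sum.inl r))) with hc'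
    have hcont : Continuous fun y : Eu (IX σ κ M) => ⟪y - JA σ κ M (TA σ κ M y), θ⟫_ℝ := by
      fun_prop
    have hsub : Continuous fun y : Eu (IX σ κ M) =>
        ⟪y - JA σ κ M (TA σ κ M y), θ⟫_ℝ - (Real.sqrt M)⁻¹ * c := by fun_prop
    rw [← ProbabilityTheory.variance_sub_const hcont.aestronglyMeasurable ((Real.sqrt M)⁻¹ * c)]
    refine (ProbabilityTheory.variance_le_expectation_sq hsub.aestronglyMeasurable).trans ?_
    have e0 : ∫ y, ((fun y : Eu (IX σ κ M) => ⟪y - JA σ κ M (TA σ κ M y), θ⟫_ℝ -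
        (Real.sqrt M)⁻¹ * c) ^ 2) y ∂((nm ((Hs M).indicator fun _ => (1 : ℝ))).map
        fun y => (Real.sqrt M)⁻¹ • y - 0) = (∫ p, ((M : ℝ)⁻¹ *
        (⟪ecA σ κ M p - JA σ κ M (TA σ κ M (ecA σ κ M p)), θ⟫_ℝ - c) ^ 2) *
          wS Hs M p) / ∫ p, wS Hs M p := by
      rw [integral_map (hme M).aemeasurable (hsub.pow 2).aestronglyMeasurable, hrep hMe.1]
      congr 1
      refine integral_congr_ae (Eventually.of_forall fun p => ?_)
      simp only [Pi.pow_apply]
      congr 1
      have e1 : ⟪((Real.sqrt M)⁻¹ • ecA σ κ M p - 0) -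
          JA σ κ M (TA σ κ M ((Real.sqrt M)⁻¹ • ecA σ κ M p - 0)), θ⟫_ℝ =
          (Real.sqrt M)⁻¹ * ⟪ecA σ κ M p - JA σ κ M (TA σ κ M (ecA σ κ M p)), θ⟫_ℝ := by
        rw [sub_zero, map_smul, map_smul, ← smul_sub, real_inner_smul_left]
      rw [e1, ← mul_sub, mul_pow, inv_pow, Real.sq_sqrt hM'.le]
    refine (le_of_eq e0).trans ?_
    rw [div_le_iff₀ hMe.2]
    have h6 : ∫ p, ((M : ℝ)⁻¹ *
        (⟪ecA σ κ M p - JA σ κ M (TA σ κ M (ecA σ κ M p)), θ⟫_ℝ - c) ^ 2) *
          wS Hs M p ≤ (M : ℝ)⁻¹ * ∫ p, (⟪ecA σ κ M p - JA σ κ M (TA σ κ M (ecA σ κ M p)), θ⟫_ℝ -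
            c) ^ 2 * wF (aB K) (alo v M) (ahi v M) p := by
      rw [← integral_const_mul]
      have hcF : Continuous fun p : (Eu σ × ℝ) × Eu (JM κ M) =>
        (⟪ecA σ κ M p - JA σ κ M (TA σ κ M (ecA σ κ M p)), θ⟫_ℝ - c) ^ 2 := by fun_prop
      refine integral_mono_of_nonneg (Eventually.of_forall fun p =>
        mul_nonneg (by positivity) (wS_nonneg p))
        ((wF_int (aFib (v := v) (M := M) hK) hcF).const_mul _) (Eventually.of_forall fun p => ?_)
      simp only
      rw [← mul_assoc]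
      exact mul_le_mul_of_nonneg_left (wS_le hS p) (by positivity)
    refine h6.trans ?_
    have h7 := lost_sq (v := v) hK hM hθ
    rw [← hc'] at h7
    have h8 := mul_le_mul_of_nonneg_left h7 (by positivity : 0 ≤ (M : ℝ)⁻¹)
    refine h8.trans ?_
    rw [lt_div_iff₀ hb] at h4
    rw [div_lt_iff₀ hb] at h5
    set Z := ∫ p, wF (aB K) (alo v M) (ahi v M) p with hZ
    set Z' := ∫ p, wS Hs M p with hZ'
    have hVb : 0 < volume.real K * b0 κ M := mul_pos hV hb
    have h9 : (M : ℝ)⁻¹ * (3 / 2 * (M : ℝ) ^ 2 * (volume.real K * bI (kM κ M + 2) (M ^ 2))) ≤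
        η / 8 * (volume.real K * b0 κ M) := by
      have e3 : (M : ℝ)⁻¹ * (3 / 2 * (M : ℝ) ^ 2 * (volume.real K * bI (kM κ M + 2) (M ^ 2))) =
          1 / 2 * (3 * ((M : ℝ) * (bI (Fintype.card κ * M + 2) (M ^ 2) /
          bI (Fintype.card κ * M) (M ^ 2)))) * (volume.real K * b0 κ M) := by
        have hb' := hb.ne'
        change (M : ℝ)⁻¹ * (3 / 2 * (M : ℝ) ^ 2 * (volume.real K * bI (kM κ M + 2) (M ^ 2))) =
          1 / 2 * (3 * ((M : ℝ) * (bI (kM κ M + 2) (M ^ 2) / bI (kM κ M) (M ^ 2)))) *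
            (volume.real K * bI (kM κ M) (M ^ 2))
        field_simp
      rw [e3]
      refine mul_le_mul_of_nonneg_right ?_ hVb.le
      linarith [h2.le]
    have h10 : (M : ℝ)⁻¹ * ((6 * Fintype.card σ + 8) * Z) ≤ η / 8 * (2 * (volume.real K * b0 κ M)) := by
      have e4 : (M : ℝ)⁻¹ * ((6 * Fintype.card σ + 8) * Z) = (6 * Fintype.card σ + 8) / M * Z := by
        ring
      rw [e4]
      have hZ0 : 0 ≤ Z := integral_nonneg fun p => wF_nonneg p
      refine mul_le_mul h3.le ?_ hZ0 (by positivity)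
      have : 2 * volume.real K * b0 κ M = 2 * (volume.real K * b0 κ M) := by ring
      rw [← this]
      exact h5.le
    rw [mul_add]
    have h11 : volume.real K / 2 * b0 κ M = 1 / 2 * (volume.real K * b0 κ M) := by ring
    rw [h11] at h4
    nlinarith
  · filter_upwards [eventually_gt_atTop 0, hev] with M hM hMe
    have hM' : (0 : ℝ) < M := by exact_mod_cast hM
    have hp := (hwM hMe.1).prob
    exact (H M hM hMe.1).affine (hwM hMe.1).int_sq (inv_pos.2 (Real.sqrt_pos.2 hM')) 0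

end amp5

end Pool.Agent.H776
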