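import Pool.Agent.H776.ProdInt

/-!
# Averages of independent half-normal variables
-/

set_option autoImplicit false

namespace Pool.Agent.H776

open MeasureTheory Set Filter Topology

/-- half-normal weight -/
noncomputable def w1 (r : ℝ) : ℝ := if 0 ≤ r then Real.exp (-(r ^ 2 / 2)) else 0

theorem w1_nonneg (r : ℝ) : 0 ≤ w1 r := by
  unfold w1
  split_ifs
  · exact (Real.exp_pos _).le
  · exact le_rfl

theorem w1_le (r : ℝ) : w1 r ≤ Real.exp (-(r ^ 2 / 2)) := by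
  unfold w1
  split_ifs
  · exact le_rfl
  · exact (Real.exp_pos _).le

theorem w1_meas : Measurable w1 :=
  Measurable.ite (measurableSet_le measurable_const measurable_id) (by fun_prop) measurable_const

theorem w1_int_mul {p : ℝ → ℝ} (hp : Measurable p)
    (h : Integrable fun r => p r * Real.exp (-(r ^ 2 / 2))) : Integrable fun r => p r * w1 r := by
  refine h.norm.mono' (hp.mul w1_meas).aestronglyMeasurable (Eventually.of_forall fun r => ?_)
  rw [norm_mul, norm_mul]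
  refine mul_le_mul_of_nonneg_left ?_ (norm_nonneg _)
  rw [Real.norm_of_nonneg (w1_nonneg r), Real.norm_of_nonneg (Real.exp_pos _).le]
  exact w1_le r

theorem ex_int : Integrable fun r : ℝ => Real.exp (-(r ^ 2 / 2)) := by
  have := integrable_exp_neg_mul_sq (b := 1 / 2) (by norm_num)
  refine this.congr (Eventually.of_forall fun r => ?_)
  simp only
  congr 1
  ring

theorem ex_int1 : Integrable fun r : ℝ => r * Real.exp (-(r ^ 2 / 2)) := by
  have := integrable_mul_exp_neg_mul_sq (b := 1 / 2) (by norm_num)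
  refine this.congr (Eventually.of_forall fun r => ?_)
  simp only
  congr 2
  ring

theorem ex_int2 : Integrable fun r : ℝ => r ^ 2 * Real.exp (-(r ^ 2 / 2)) := by
  have := integrable_rpow_mul_exp_neg_mul_sq (b := 1 / 2) (s := 2) (by norm_num) (by norm_num)
  refine this.congr (Eventually.of_forall fun r => ?_)
  simp only
  rw [Real.rpow_two]
  congr 2
  ring

theorem w1_int : Integrable w1 := by
  have := w1_int_mul (p := fun _ => 1) measurable_const (by simpa using ex_int)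
  simpa using this

theorem w1_int1 : Integrable fun r => r * w1 r := w1_int_mul measurable_id ex_int1

theorem w1_int2 : Integrable fun r => r ^ 2 * w1 r := w1_int_mul (by fun_prop) ex_int2

theorem w1_pos : 0 < ∫ r, w1 r := by
  rw [integral_pos_iff_support_of_nonneg w1_nonneg w1_int]
  refine lt_of_lt_of_le ?_ (measure_mono (μ := volume) (s := Ioi (0 : ℝ)) fun r hr => ?_)
  · simp
  · rw [Function.mem_support]
    unfold w1
    rw [if_pos (le_of_lt hr)]
    exact (Real.exp_pos _).ne'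

theorem w1_pos1 : 0 < ∫ r, r * w1 r := by
  have h0 : ∀ r, 0 ≤ r * w1 r := fun r => by
    unfold w1
    split_ifs with h
    · exact mul_nonneg h (Real.exp_pos _).le
    · simp
  rw [integral_pos_iff_support_of_nonneg h0 w1_int1]
  refine lt_of_lt_of_le ?_ (measure_mono (μ := volume) (s := Ioi (0 : ℝ)) fun r hr => ?_)
  · simp
  · rw [Function.mem_support]
    unfold w1
    rw [if_pos (le_of_lt hr)]
    exact mul_ne_zero (ne_of_gt hr) (Real.exp_pos _).ne'

/-- ratio of the moments -/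
noncomputable def r0 : ℝ := (∫ r, w1 r) / ∫ r, r * w1 r

theorem r0_pos : 0 < r0 := div_pos w1_pos w1_pos1

/-- centred variable -/
noncomputable def u1 (r : ℝ) : ℝ := r0 * r - 1

theorem u1_int : Integrable fun r => u1 r * w1 r := by
  refine ((w1_int1.const_mul r0).sub w1_int).congr (Eventually.of_forall fun r => ?_)
  simp only [Pi.sub_apply, u1]
  ring

theorem u1_int2 : Integrable fun r => u1 r * u1 r * w1 r := by
  refine (((w1_int2.const_mul (r0 ^ 2)).sub (w1_int1.const_mul (2 * r0))).add w1_int).congr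
    (Eventually.of_forall fun r => ?_)
  simp only [Pi.sub_apply, Pi.add_apply, u1]
  ring

theorem u1_zero : ∫ r, u1 r * w1 r = 0 := by
  have e : ∀ r, u1 r * w1 r = r0 * (r * w1 r) - w1 r := fun r => by
    unfold u1; ring
  simp only [e]
  rw [integral_sub (w1_int1.const_mul r0) w1_int, integral_const_mul, r0,
    div_mul_cancel₀ _ w1_pos1.ne', sub_self]

theorem ww_nonneg {n : ℕ} (z : Fin n → ℝ) : 0 ≤ ww w1 z :=
  Finset.prod_nonneg fun _ _ => w1_nonneg _

theorem ww_meas {n : ℕ} : Measurable fun z : Fin n → ℝ => ww w1 z := by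
  unfold ww
  exact Finset.measurable_prod _ fun i _ => w1_meas.comp (measurable_pi_apply i)

/-- the average -/
noncomputable def tt {n : ℕ} (z : Fin n → ℝ) : ℝ := r0 * ((n : ℝ)⁻¹ * ∑ i, z i)

theorem tt_cont {n : ℕ} : Continuous fun z : Fin n → ℝ => tt z := by
  unfold tt
  fun_prop

theorem tt_sub {n : ℕ} (hn : n ≠ 0) (z : Fin n → ℝ) :
    (tt z - 1) ^ 2 = (n : ℝ)⁻¹ ^ 2 * (∑ i, u1 (z i)) ^ 2 := by
  have hn' : (n : ℝ) ≠ 0 := by exact_mod_cast hn
  have e : ∑ i, u1 (z i) = r0 * (∑ i, z i) - n := by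
    unfold u1
    rw [Finset.sum_sub_distrib, ← Finset.mul_sum]
    simp
  rw [e, tt, ← mul_pow]
  congr 1
  field_simp

/-- second moment of `u1` -/
noncomputable def V1 : ℝ := ∫ r, u1 r * u1 r * w1 r

theorem tt_sq {n : ℕ} (hn : n ≠ 0) :
    Integrable (fun z : Fin n → ℝ => (tt z - 1) ^ 2 * ww w1 z) ∧
    ∫ z : Fin n → ℝ, (tt z - 1) ^ 2 * ww w1 z =
      (n : ℝ)⁻¹ * (V1 / (∫ r, w1 r)) * (∫ r, w1 r) ^ n := by
  obtain ⟨h1, h2⟩ := int_sum_sq (n := n) w1_int u1_int u1_int2 u1_zero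
  have e : ∀ z : Fin n → ℝ, (tt z - 1) ^ 2 * ww w1 z =
      (n : ℝ)⁻¹ ^ 2 * ((∑ i, u1 (z i)) ^ 2 * ww w1 z) := fun z => by
    rw [tt_sub hn, mul_assoc]
  simp only [e]
  refine ⟨h1.const_mul _, ?_⟩
  rw [integral_const_mul, h2]
  have hn' : (n : ℝ) ≠ 0 := by exact_mod_cast hn
  obtain ⟨k, rfl⟩ := Nat.exists_eq_succ_of_ne_zero hn
  have hI : (∫ r, w1 r) ≠ 0 := w1_pos.ne'
  simp only [Nat.succ_eq_add_one, Nat.add_sub_cancel, V1, pow_succ]
  field_simp

/-- quadratic modulus of continuity -/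
theorem exists_mod {Φ : ℝ → ℝ} (hc : ContinuousAt Φ 1) {B : ℝ} (hB : ∀ t, |Φ t| ≤ B * (1 + t ^ 2))
    {ε : ℝ} (hε : 0 < ε) : ∃ C : ℝ, 0 ≤ C ∧ ∀ t, |Φ t - Φ 1| ≤ ε + C * (t - 1) ^ 2 := by
  obtain ⟨δ, hδ, h⟩ := Metric.continuousAt_iff.1 hc ε hε
  have hB0 : 0 ≤ B := by
    have := (abs_nonneg _).trans (hB 0)
    simpa using this
  refine ⟨(3 * B + |Φ 1|) / δ ^ 2 + 2 * B, by positivity, fun t => ?_⟩
  by_cases ht : |t - 1| < δ
  · have h1 := h (x := t) (by rwa [Real.dist_eq])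
    rw [Real.dist_eq] at h1
    have h2 : 0 ≤ ((3 * B + |Φ 1|) / δ ^ 2 + 2 * B) * (t - 1) ^ 2 := by positivity
    linarith
  · rw [not_lt] at ht
    have h1 : δ ^ 2 ≤ (t - 1) ^ 2 := by
      rw [← sq_abs (t - 1)]
      exact pow_le_pow_left₀ hδ.le ht 2
    have h2 : |Φ t - Φ 1| ≤ |Φ t| + |Φ 1| := abs_sub _ _
    have h3 := hB t
    have h4 : B * (1 + t ^ 2) ≤ B * (3 + 2 * (t - 1) ^ 2) := by
      refine mul_le_mul_of_nonneg_left ?_ hB0
      nlinarith [sq_nonneg (t - 2)]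
    have h5 : (3 * B + |Φ 1|) ≤ (3 * B + |Φ 1|) / δ ^ 2 * (t - 1) ^ 2 := by
      rw [div_mul_eq_mul_div, le_div_iff₀ (by positivity)]
      exact mul_le_mul_of_nonneg_left h1 (by positivity)
    nlinarith

theorem grow_int {n : ℕ} (hn : n ≠ 0) {Φ : ℝ → ℝ} (hc : Continuous Φ) {B : ℝ}
    (hB : ∀ t, |Φ t| ≤ B * (1 + t ^ 2)) : Integrable fun z : Fin n → ℝ => Φ (tt z) * ww w1 z := by
  have hB0 : 0 ≤ B := by
    have := (abs_nonneg _).trans (hB 0)
    simpa using this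
  have h1 := ((integrable_ww (n := n) w1_int).const_mul (3 * B)).add
    ((tt_sq hn).1.const_mul (2 * B))
  refine h1.mono' ((hc.comp tt_cont).aestronglyMeasurable.mul ww_meas.aestronglyMeasurable)
    (Eventually.of_forall fun z => ?_)
  rw [norm_mul, Real.norm_eq_abs, Real.norm_of_nonneg (ww_nonneg z)]
  simp only [Pi.add_apply]
  rw [← mul_assoc, ← add_mul]
  refine mul_le_mul_of_nonneg_right ((hB _).trans ?_) (ww_nonneg z)
  nlinarith [sq_nonneg (tt z - 2), mul_nonneg hB0 (sq_nonneg (tt z - 2))]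

theorem avg_tendsto {Φ : ℝ → ℝ} (hc : Continuous Φ) {B : ℝ}
    (hB : ∀ t, |Φ t| ≤ B * (1 + t ^ 2)) :
    Tendsto (fun n : ℕ => (∫ z : Fin (n + 1) → ℝ, Φ (tt z) * ww w1 z) / (∫ r, w1 r) ^ (n + 1))
      atTop (𝓝 (Φ 1)) := by
  rw [Metric.tendsto_atTop]
  intro ε hε
  obtain ⟨C, hC0, hC⟩ := exists_mod hc.continuousAt hB (half_pos (half_pos hε))
  have hlim : Tendsto (fun n : ℕ => C * (((n + 1 : ℕ) : ℝ)⁻¹ * (V1 / (∫ r, w1 r)))) atTop (𝓝 0) := by
    have h1 : Tendsto (fun n : ℕ => ((n + 1 : ℕ) : ℝ)⁻¹) atTop (𝓝 0) :=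
      tendsto_inv_atTop_zero.comp (tendsto_natCast_atTop_atTop.comp (tendsto_add_atTop_nat 1))
    have := (h1.mul_const (V1 / (∫ r, w1 r))).const_mul C
    simpa using this
  obtain ⟨N, hN⟩ := (Metric.tendsto_atTop.1 hlim) (ε / 2) (half_pos hε)
  refine ⟨N, fun n hn => ?_⟩
  have h2 := hN n hn
  rw [Real.dist_eq, sub_zero] at h2
  have h3 := (le_abs_self _).trans_lt h2
  have hI := w1_pos
  set I := ∫ r, w1 r with hIdef
  have hIn : 0 < I ^ (n + 1) := pow_pos hI _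
  have e1 : ∫ z : Fin (n + 1) → ℝ, ww w1 z = I ^ (n + 1) := int_ww
  have hint := grow_int (Nat.succ_ne_zero n) hc hB
  have hwi := integrable_ww (n := n + 1) w1_int
  obtain ⟨hs1, hs2⟩ := tt_sq (Nat.succ_ne_zero n)
  have hs3 : ∫ z : Fin (n + 1) → ℝ, (tt z - 1) ^ 2 * ww w1 z =
      ((n + 1 : ℕ) : ℝ)⁻¹ * (V1 / I) * I ^ (n + 1) := hs2
  rw [Real.dist_eq]
  have e2 : (∫ z : Fin (n + 1) → ℝ, Φ (tt z) * ww w1 z) / I ^ (n + 1) - Φ 1 =
      (∫ z : Fin (n + 1) → ℝ, (Φ (tt z) - Φ 1) * ww w1 z) / I ^ (n + 1) := by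
    have : ∀ z : Fin (n + 1) → ℝ, (Φ (tt z) - Φ 1) * ww w1 z =
        Φ (tt z) * ww w1 z - Φ 1 * ww w1 z := fun z => sub_mul _ _ _
    simp only [this]
    rw [integral_sub hint (hwi.const_mul _), integral_const_mul, e1, sub_div,
      mul_div_cancel_right₀ _ hIn.ne']
  rw [e2, abs_div, abs_of_pos hIn, div_lt_iff₀ hIn]
  calc |∫ z : Fin (n + 1) → ℝ, (Φ (tt z) - Φ 1) * ww w1 z|
      ≤ ∫ z : Fin (n + 1) → ℝ, (ε / 2 / 2 * ww w1 z + C * ((tt z - 1) ^ 2 * ww w1 z)) := by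
        rw [← Real.norm_eq_abs]
        refine norm_integral_le_of_norm_le ((hwi.const_mul _).add (hs1.const_mul _))
          (Eventually.of_forall fun z => ?_)
        rw [norm_mul, Real.norm_of_nonneg (ww_nonneg z), Real.norm_eq_abs, ← mul_assoc, ← add_mul]
        exact mul_le_mul_of_nonneg_right (hC _) (ww_nonneg z)
    _ = (ε / 2 / 2 + C * (((n + 1 : ℕ) : ℝ)⁻¹ * (V1 / I))) * I ^ (n + 1) := by
        rw [integral_add (hwi.const_mul _) (hs1.const_mul _), integral_const_mul,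
          integral_const_mul, e1, hs3]
        ring
    _ < ε * I ^ (n + 1) := by
        refine mul_lt_mul_of_pos_right ?_ hIn
        linarith

/-- second moment of the norm -/
theorem sum_sq_int {n : ℕ} :
    Integrable (fun z : Fin n → ℝ => (∑ i, z i ^ 2) * ww w1 z) ∧
    ∫ z : Fin n → ℝ, (∑ i, z i ^ 2) * ww w1 z =
      n * ((∫ r, r ^ 2 * w1 r) * (∫ r, w1 r) ^ (n - 1)) := int_sq_sum w1_int w1_int2

end Pool.Agent.H776
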