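import Pool.Agent.H776.Ball

/-!
# Centred Gaussian measures on orthants from parts of ellipsoids, second part
-/

set_option autoImplicit false

namespace Pool.Agent.H776

open MeasureTheory Set Filter Topology
open scoped ENNReal InnerProductSpace Pointwise

section ball2

variable {κ F : Type} [Fintype κ] [Fintype F]

theorem PB_vol {n : ℕ} (hn : n ≠ 0) (r : ℝ) :
    volume.real (PB n r) = Real.sqrt r ^ n * volume.real (PB n 1) := by
  rcases lt_or_ge 0 r with hr | hr
  · exact PB_scale hr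
  · rw [Real.sqrt_eq_zero_of_nonpos hr, zero_pow hn, zero_mul]
    have h1 : PB n r ⊆ {0} := fun z hz => by
      have h2 := hz.2
      have h3 : ‖z‖ ^ 2 = 0 := le_antisymm (h2.trans hr) (sq_nonneg _)
      rw [mem_singleton_iff]
      exact norm_eq_zero.1 (pow_eq_zero_iff two_ne_zero |>.1 h3)
    have : Nonempty (Fin n) := ⟨⟨0, Nat.pos_of_ne_zero hn⟩⟩
    have h4 : volume (PB n r) = 0 := measure_mono_null h1 (by
      have : Nontrivial (Eu (Fin n)) := inferInstance
      exact measure_singleton _)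
    rw [measureReal_def, h4, ENNReal.toReal_zero]

theorem PB_pos {n : ℕ} : 0 < volume.real (PB n 1) := by
  have h1 := EO_interior (LinearMap.id : Eu (Fin n) →ₗ[ℝ] Eu (Fin n))
  have h2 := EO_compact (A := (LinearMap.id : Eu (Fin n) →ₗ[ℝ] Eu (Fin n))) Function.injective_id
  have e : EO (LinearMap.id : Eu (Fin n) →ₗ[ℝ] Eu (Fin n)) = PB n 1 := rfl
  rw [e] at h1 h2
  exact ENNReal.toReal_pos (lt_of_lt_of_le (isOpen_interior.measure_pos volume h1)
    (measure_mono interior_subset)).ne' h2.measure_lt_top.ne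

theorem PB_meas {n : ℕ} {r : ℝ} : MeasurableSet (PB n r) := by
  have m2 : MeasurableSet {p : Eu (Fin n) | ∀ i, 0 ≤ p i} := by
    rw [ofPred_forall]
    exact MeasurableSet.iInter fun i => measurableSet_le measurable_const (by fun_prop)
  have h2 : Measurable fun p : Eu (Fin n) => ‖p‖ ^ 2 := by fun_prop
  exact m2.inter (measurableSet_le h2 measurable_const)

open Classical in
/-- the marginal densities -/
noncomputable def gn (A : Eu κ →ₗ[ℝ] Eu F) (n : ℕ) (y : Eu κ) : ℝ :=
  if ∀ i, 0 ≤ y i then Real.sqrt (1 - ‖A y‖ ^ 2 / n) ^ n else 0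

theorem gn_nonneg {A : Eu κ →ₗ[ℝ] Eu F} {n : ℕ} (y : Eu κ) : 0 ≤ gn A n y := by
  unfold gn
  split_ifs
  · exact pow_nonneg (Real.sqrt_nonneg _) _
  · exact le_rfl

theorem gn_meas {A : Eu κ →ₗ[ℝ] Eu F} {n : ℕ} : Measurable (gn A n) := by
  unfold gn
  have hA : Continuous A := A.continuous_of_finiteDimensional
  exact Measurable.ite orth_meas (by fun_prop) measurable_const

theorem gn_le {A : Eu κ →ₗ[ℝ] Eu F} {n : ℕ} (hn : n ≠ 0) (y : Eu κ) :
    gn A n y ≤ Real.exp (-(‖A y‖ ^ 2 / 2)) := by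
  have hn' : (n : ℝ) ≠ 0 := by exact_mod_cast hn
  unfold gn
  split_ifs
  · have h1 : Real.sqrt (1 - ‖A y‖ ^ 2 / n) ≤ Real.exp (-(‖A y‖ ^ 2 / n) / 2) := by
      rw [Real.exp_half]
      refine Real.sqrt_le_sqrt ?_
      have := Real.add_one_le_exp (-(‖A y‖ ^ 2 / n))
      linarith
    calc Real.sqrt (1 - ‖A y‖ ^ 2 / n) ^ n ≤ Real.exp (-(‖A y‖ ^ 2 / n) / 2) ^ n :=
          pow_le_pow_left₀ (Real.sqrt_nonneg _) h1 n
      _ = _ := by
          rw [← Real.exp_nat_mul]
          congr 1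
          field_simp
  · exact (Real.exp_pos _).le

theorem gn_lim {A : Eu κ →ₗ[ℝ] Eu F} (y : Eu κ) :
    Tendsto (fun n => gn A n y) atTop (𝓝 (gt A 0 y 0)) := by
  unfold gn gt
  by_cases hy : ∀ i, 0 ≤ y i
  · simp only [if_pos hy, smul_zero, sub_zero]
    have h1 := Real.tendsto_one_add_div_pow_exp (-‖A y‖ ^ 2)
    have h2 := (Real.continuous_sqrt.tendsto _).comp h1
    have e1 : Real.sqrt (Real.exp (-‖A y‖ ^ 2)) = Real.exp (-(‖A y‖ ^ 2 / 2)) := by
      rw [← Real.exp_half]
      congr 1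
      ring
    rw [e1] at h2
    refine h2.congr' ?_
    obtain ⟨N, hN⟩ := exists_nat_gt (‖A y‖ ^ 2)
    filter_upwards [eventually_ge_atTop N] with n hn
    have hnr : ‖A y‖ ^ 2 < n := lt_of_lt_of_le hN (by exact_mod_cast hn)
    have hn0 : 0 < (n : ℝ) := lt_of_le_of_lt (sq_nonneg _) hnr
    have h3 : 0 ≤ 1 - ‖A y‖ ^ 2 / n := by
      rw [sub_nonneg, div_le_one hn0]
      exact hnr.le
    simp only [Function.comp_apply]
    rw [show 1 + -‖A y‖ ^ 2 / (n : ℝ) = 1 - ‖A y‖ ^ 2 / n by ring]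
    have h4 : (1 - ‖A y‖ ^ 2 / n) ^ n = (Real.sqrt (1 - ‖A y‖ ^ 2 / n) ^ n) ^ 2 := by
      rw [← pow_mul, mul_comm n 2, pow_mul, Real.sq_sqrt h3]
    rw [h4, Real.sqrt_sq (pow_nonneg (Real.sqrt_nonneg _) _)]
  · simp only [if_neg hy]
    exact tendsto_const_nhds

/-- the normalising constants -/
noncomputable def cB (n : ℕ) : ℝ := Real.sqrt n ^ n * volume.real (PB n 1)

theorem cB_pos {n : ℕ} (hn : n ≠ 0) : 0 < cB n := by
  have hn0 : 0 < (n : ℝ) := by positivity
  exact mul_pos (pow_pos (Real.sqrt_pos.2 hn0) _) PB_pos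

theorem QB_compact {A : Eu κ →ₗ[ℝ] Eu F} (hA : Function.Injective A) {n : ℕ} (hn : n ≠ 0) :
    IsCompact (QB A n) := by
  have h1 := EO_compact (AE_inj hA hn)
  have h2 := (emc κ (Fin n) (n : ℝ)⁻¹ (inv_ne hn)).toHomeomorph.isClosedEmbedding.isCompact_preimage h1
  have e : (emc κ (Fin n) (n : ℝ)⁻¹ (inv_ne hn)).toHomeomorph ⁻¹' EO (AE A n) = QB A n := by
    ext p
    have h3 := eo_comp (A := A) hn p
    unfold eo qb at h3
    change emc κ (Fin n) (n : ℝ)⁻¹ (inv_ne hn) p ∈ EO (AE A n) ↔ _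
    by_cases hp : p ∈ QB A n
    · rw [indicator_of_mem hp] at h3
      by_contra h4
      have h5 : emc κ (Fin n) (n : ℝ)⁻¹ (inv_ne hn) p ∉ EO (AE A n) := fun h => h4 ⟨fun _ => hp, fun _ => h⟩
      rw [indicator_of_notMem h5] at h3
      exact zero_ne_one h3
    · rw [indicator_of_notMem hp] at h3
      by_contra h4
      have h5 : emc κ (Fin n) (n : ℝ)⁻¹ (inv_ne hn) p ∈ EO (AE A n) := by
        by_contra h6
        exact h4 ⟨fun h => absurd h h6, fun h => absurd h hp⟩
      rw [indicator_of_mem h5] at h3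
      exact one_ne_zero h3
  rwa [e] at h2

theorem qb_slice {A : Eu κ →ₗ[ℝ] Eu F} {n : ℕ} (hn : n ≠ 0) (y : Eu κ) :
    ∫ z : Eu (Fin n), qb A n (y, z) = cB n * gn A n y := by
  have hn' : (n : ℝ) ≠ 0 := by exact_mod_cast hn
  have hn0 : 0 < (n : ℝ) := by positivity
  unfold gn
  by_cases hy : ∀ i, 0 ≤ y i
  · rw [if_pos hy]
    have e : (fun z : Eu (Fin n) => qb A n (y, z)) = (PB n (n - ‖A y‖ ^ 2)).indicator fun _ => 1 := by
      funext z
      unfold qb
      by_cases hz : (y, z) ∈ QB A n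
      · rw [indicator_of_mem hz, indicator_of_mem]
        exact ⟨hz.2.1, by have := hz.2.2; simp only at this; linarith⟩
      · rw [indicator_of_notMem hz, indicator_of_notMem]
        intro hz'
        exact hz ⟨hy, hz'.1, by have := hz'.2; simp only; linarith⟩
    rw [e, integral_indicator PB_meas, setIntegral_const, smul_eq_mul, mul_one, PB_vol hn, cB]
    have e2 : (n : ℝ) - ‖A y‖ ^ 2 = n * (1 - ‖A y‖ ^ 2 / n) := by
      field_simp
    rw [e2, Real.sqrt_mul hn0.le, mul_pow]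
    ring
  · rw [if_neg hy, mul_zero]
    have e : (fun z : Eu (Fin n) => qb A n (y, z)) = fun _ => 0 := by
      funext z
      unfold qb
      rw [indicator_of_notMem]
      intro hz
      exact hy hz.1
    rw [e, integral_zero]

theorem qb_int {A : Eu κ →ₗ[ℝ] Eu F} (hA : Function.Injective A) {n : ℕ} (hn : n ≠ 0)
    {ψ : Eu κ × Eu (Fin n) → ℝ} (hψ : Continuous ψ) : Integrable fun p => ψ p * qb A n p := by
  have := vol_haar κ (Fin n)
  have h1 : IntegrableOn ψ (QB A n) := hψ.continuousOn.integrableOn_compact (QB_compact hA hn)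
  have h2 := (integrable_indicator_iff QB_meas).2 h1
  refine h2.congr (Eventually.of_forall fun p => ?_)
  unfold qb
  by_cases hp : p ∈ QB A n
  · simp [indicator_of_mem hp]
  · simp [indicator_of_notMem hp]

theorem qb_fub {A : Eu κ →ₗ[ℝ] Eu F} (hA : Function.Injective A) {n : ℕ} (hn : n ≠ 0)
    {φ : Eu κ → ℝ} (hφ : Continuous φ) :
    ∫ p : Eu κ × Eu (Fin n), φ p.1 * qb A n p = cB n * ∫ y, φ y * gn A n y := by
  have h1 := qb_int hA hn (ψ := fun p => φ p.1) (hφ.comp continuous_fst)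
  have e := integral_prod (μ := (volume : Measure (Eu κ))) (ν := (volume : Measure (Eu (Fin n))))
    (fun p : Eu κ × Eu (Fin n) => φ p.1 * qb A n p) h1
  rw [← Measure.volume_eq_prod] at e
  rw [e, ← integral_const_mul]
  refine integral_congr_ae (Eventually.of_forall fun y => ?_)
  simp only
  rw [integral_const_mul, qb_slice hn]
  ring

/-- **centred Gaussian measures on orthants from parts of ellipsoids** -/
theorem kp_cg {D : ℝ} (hD : 0 ≤ D)
    (H : ∀ (κ' F' : Type) [Fintype κ'] [Fintype F'] (A : Eu κ' →ₗ[ℝ] Eu F'), Function.Injective A →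
      KP (nm (eo A)) D)
    {g : Eu κ → ℝ} (hg : CG g) (hw : Wt g) : KP (nm g) D := by
  obtain ⟨F, _, A, c, hc, hA, hge⟩ := hg
  have hge' : g = fun y => c * gt A 0 y 0 := by
    funext y
    rw [hge]
    unfold gt
    rw [smul_zero, sub_zero]
    split_ifs <;> simp
  have hnm : nm g = nm fun y => gt A 0 y 0 := by rw [hge', nm_const_mul hc.ne']
  have hw' : Wt fun y => gt A 0 y 0 := by
    refine wt_cg ⟨F, inferInstance, A, 1, one_pos, hA, fun y => ?_⟩ ?_
    · change gt A 0 y 0 = _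
      unfold gt
      rw [smul_zero, sub_zero]
      split_ifs <;> simp
    · have h1 := hw.pos
      rw [hge', integral_const_mul] at h1
      exact pos_of_mul_pos_right h1 hc.le
  rw [hnm]
  have hprob := hw'.prob
  obtain ⟨q, hq, hqA⟩ := exists_q hA
  have hdom : Integrable fun y : Eu κ => (1 + ‖y‖ ^ 2) * Real.exp (-(‖A y‖ ^ 2 / 2)) := by
    have h1 := (mom_shift (A := A) (b := (0 : Eu κ)) hq hqA 0).1
    simpa only [smul_zero, sub_zero] using h1
  obtain ⟨hWg, hW2⟩ := W2.of_dom (l := (atTop : Filter ℕ)) (g := fun n => gn A n)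
    (g' := fun y => gt A 0 y 0) (h := fun y => Real.exp (-(‖A y‖ ^ 2 / 2)))
    (Eventually.of_forall fun n y => gn_nonneg y) (Eventually.of_forall fun n => gn_meas) hw'
    (by
      filter_upwards [eventually_ne_atTop 0] with n hn y
      exact gn_le hn y) hdom (Eventually.of_forall fun y => gn_lim y)
  have hwe : ∀ {n : ℕ}, n ≠ 0 → Wt (eo (AE A n)) := fun {n} hn =>
    wt_ind (EO_compact (AE_inj hA hn)) (EO_interior _)
  have hrep : ∀ {n : ℕ} (hn : n ≠ 0) (φ : Eu (κ ⊕ Fin n) → ℝ), ∫ y, φ y ∂(nm (eo (AE A n))) =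
      (∫ p : Eu κ × Eu (Fin n), φ (emc κ (Fin n) (n : ℝ)⁻¹ (inv_ne hn) p) * qb A n p) /
        ∫ p : Eu κ × Eu (Fin n), qb A n p := by
    intro n hn φ
    have := vol_haar κ (Fin n)
    rw [integral_nm (hwe hn).nonneg (hwe hn).meas, integral_quot
      (volume : Measure (Eu κ × Eu (Fin n))) volume (emc κ (Fin n) (n : ℝ)⁻¹ (inv_ne hn)) 0]
    simp only [add_zero, eo_comp hn]
  have hqpos : ∀ {n : ℕ}, n ≠ 0 → 0 < ∫ p : Eu κ × Eu (Fin n), qb A n p := by
    intro n hn
    have := vol_haar κ (Fin n)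
    have h1 := (hwe hn).pos
    rw [← integral_pos_scale (volume : Measure (Eu κ × Eu (Fin n))) volume
      (emc κ (Fin n) (n : ℝ)⁻¹ (inv_ne hn)) 0] at h1
    simpa only [add_zero, eo_comp hn] using h1
  have hq1 : ∀ {n : ℕ}, n ≠ 0 → ∫ p : Eu κ × Eu (Fin n), qb A n p = cB n * ∫ y, gn A n y := by
    intro n hn
    have := qb_fub hA hn (φ := fun _ => 1) continuous_const
    simpa using this
  refine KP.lift (l := (atTop : Filter ℕ)) (K := fun n => κ ⊕ Fin n)
    (ν := fun n => nm (eo (AE A n)))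
    (T := fun n => (plL : Eu (κ ⊕ Fin n) →L[ℝ] Eu κ)) (b := fun _ => 0)
    (J := fun n => (inL : Eu κ →L[ℝ] Eu (κ ⊕ Fin n))) hD
    ?_ ?_ (fun _ => plL_norm) (fun _ => inL_norm) ?_ ?_ ?_
  · filter_upwards [eventually_ne_atTop 0] with n hn
    exact (hwe hn).prob
  · filter_upwards [eventually_ne_atTop 0] with n hn
    exact (hwe hn).int_sq
  · refine ⟨?_, ?_, hw'.int_sq, ?_⟩
    · filter_upwards [eventually_ne_atTop 0] with n hn
      have := (hwe hn).prob
      exact Measure.isProbabilityMeasure_map (by fun_prop)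
    · filter_upwards [eventually_ne_atTop 0] with n hn
      have hwa := hwe hn
      have hp := hwa.prob
      have hme : Measurable fun y : Eu (κ ⊕ Fin n) => plL y - (0 : Eu κ) := by fun_prop
      rw [integrable_map_measure (by fun_prop) hme.aemeasurable]
      refine hwa.int_sq.mono' (by fun_prop) (Eventually.of_forall fun y => ?_)
      simp only [Function.comp_apply, sub_zero]
      rw [Real.norm_of_nonneg (by positivity)]
      exact pow_le_pow_left₀ (norm_nonneg _)
        (((plL : Eu (κ ⊕ Fin n) →L[ℝ] Eu κ).le_opNorm y).trans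
          (mul_le_of_le_one_left (norm_nonneg _) plL_norm)) 2
    · intro φ hφ
      refine (hW2.lim φ hφ).congr' ?_
      filter_upwards [eventually_ne_atTop 0] with n hn
      have hme : Measurable fun y : Eu (κ ⊕ Fin n) => plL y - (0 : Eu κ) := by fun_prop
      rw [integral_map hme.aemeasurable hφ.1.aestronglyMeasurable, hrep hn,
        integral_nm gn_nonneg gn_meas]
      simp only [sub_zero, plL_apply, emc_apply, pl_mk]
      rw [qb_fub hA hn hφ.1, hq1 hn, mul_div_mul_left _ _ (cB_pos hn).ne']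
  · intro η hη
    have hsmall : ∀ᶠ n : ℕ in atTop, ((n : ℕ) : ℝ)⁻¹ ≤ η :=
      (tendsto_inv_atTop_nhds_zero_nat.eventually (gt_mem_nhds hη)).mono fun n hn => hn.le
    filter_upwards [eventually_ne_atTop 0, hsmall] with n hn hsm
    intro θ hθ
    have hn' : (n : ℝ) ≠ 0 := by exact_mod_cast hn
    have hn0 : 0 < (n : ℝ) := by positivity
    have hp := (hwe hn).prob
    have hcont : Continuous fun y : Eu (κ ⊕ Fin n) => ⟪y - inL (plL y), θ⟫_ℝ := by fun_prop
    refine (ProbabilityTheory.variance_le_expectation_sq hcont.aestronglyMeasurable).trans ?_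
    have e1 := hrep hn (fun y => ⟪y - inL (plL y), θ⟫_ℝ ^ 2)
    refine (le_of_eq e1).trans ?_
    rw [div_le_iff₀ (hqpos hn), ← integral_const_mul]
    have hq0 : Integrable fun p : Eu κ × Eu (Fin n) => qb A n p := by
      have := qb_int hA hn (ψ := fun _ => 1) continuous_const
      simpa using this
    refine integral_mono_of_nonneg (Eventually.of_forall fun p =>
      mul_nonneg (sq_nonneg _) (qb_nonneg p)) (hq0.const_mul _) (Eventually.of_forall fun p => ?_)
    simp only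
    by_cases hp' : p ∈ QB A n
    · refine mul_le_mul_of_nonneg_right ?_ (qb_nonneg p)
      rw [sub_inL_pl, emc_apply, pr_mk]
      have h2 := abs_real_inner_le_norm (mk 0 ((n : ℝ)⁻¹ • p.2) : Eu (κ ⊕ Fin n)) θ
      rw [hθ, mul_one] at h2
      calc _ = |⟪(mk 0 ((n : ℝ)⁻¹ • p.2) : Eu (κ ⊕ Fin n)), θ⟫_ℝ| ^ 2 := (sq_abs _).symm
        _ ≤ ‖(mk 0 ((n : ℝ)⁻¹ • p.2) : Eu (κ ⊕ Fin n))‖ ^ 2 := pow_le_pow_left₀ (abs_nonneg _) h2 2
        _ = (n : ℝ)⁻¹ ^ 2 * ‖p.2‖ ^ 2 := by
            rw [norm_mk_sq, norm_smul, norm_zero, norm_inv, Real.norm_of_nonneg hn0.le]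
            ring
        _ ≤ (n : ℝ)⁻¹ ^ 2 * n := by
            refine mul_le_mul_of_nonneg_left ?_ (by positivity)
            have := hp'.2.2
            linarith [sq_nonneg ‖A p.1‖]
        _ = (n : ℝ)⁻¹ := by field_simp
        _ ≤ η := hsm
    · have : qb A n p = 0 := indicator_of_notMem hp' _
      rw [this, mul_zero, mul_zero]
  · filter_upwards [eventually_ne_atTop 0] with n hn
    exact H _ _ _ (AE_inj hA hn)

end ball2

end Pool.Agent.H776
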