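import Pool.Agent.H776.Ball2
import Pool.Agent.H776.AllLC
import Pool.Graph.R_pool_sql_team_seeded_3997aac3.Q193.EM.Hlf

/-!
# The halfspace form of the inequality for convex bodies and the Poincare form
-/

set_option autoImplicit false

namespace Pool.Agent.H776

open MeasureTheory Set Filter Topology
open scoped ENNReal InnerProductSpace

section body

variable {κ : Type} [Fintype κ]

/-- convex body -/
structure Body (K : Set (Eu κ)) : Prop where
  cpt : IsCompact K
  cvx : Convex ℝ K
  int : (interior K).Nonempty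

/-- uniform measure -/
noncomputable def unf (K : Set (Eu κ)) : Measure (Eu κ) := (volume K)⁻¹ • volume.restrict K

/-- the halfspace form of the inequality -/
def HF (K : Set (Eu κ)) (C : ℝ) : Prop := ∀ t : ℝ≥0∞,
  (∀ (u : Eu κ) (b : ℝ), u ≠ 0 →
    t * min (unf K {x | ⟪u, x⟫_ℝ ≤ b}) (1 - unf K {x | ⟪u, x⟫_ℝ ≤ b}) ≤
      bdr (unf K) {x | ⟪u, x⟫_ℝ ≤ b}) →
  ∀ A : Set (Eu κ), MeasurableSet A →
    ENNReal.ofReal C * t * min (unf K A) (1 - unf K A) ≤ bdr (unf K) A

variable {K : Set (Eu κ)}

theorem Body.pos (h : Body K) : 0 < volume K :=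
  lt_of_lt_of_le (isOpen_interior.measure_pos volume h.int) (measure_mono interior_subset)

theorem Body.fin (h : Body K) : volume K ≠ ∞ := h.cpt.measure_lt_top.ne

theorem Body.wt (h : Body K) : Wt (K.indicator fun _ => (1 : ℝ)) := wt_ind h.cpt h.int

theorem nm_ind (h : Body K) : nm (K.indicator fun _ => (1 : ℝ)) = unf K := by
  have hm := h.cpt.measurableSet
  unfold nm unf
  rw [integral_indicator hm, setIntegral_const, smul_eq_mul, mul_one]
  have e : (fun x => ENNReal.ofReal (K.indicator (fun _ => (1 : ℝ)) x / volume.real K)) =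
      K.indicator fun _ => (volume K)⁻¹ := by
    funext x
    by_cases hx : x ∈ K
    · rw [indicator_of_mem hx, indicator_of_mem hx, one_div, measureReal_def,
        ENNReal.ofReal_inv_of_pos (ENNReal.toReal_pos h.pos.ne' h.fin),
        ENNReal.ofReal_toReal h.fin]
    · rw [indicator_of_notMem hx, indicator_of_notMem hx, zero_div, ENNReal.ofReal_zero]
  rw [e, withDensity_indicator hm, withDensity_const]

theorem Body.prob (h : Body K) : IsProbabilityMeasure (unf K) := by
  rw [← nm_ind h]
  exact h.wt.prob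

theorem Body.int_sq (h : Body K) : Integrable (fun x => ‖x‖ ^ 2) (unf K) := by
  rw [← nm_ind h]
  exact h.wt.int_sq

/-- the density -/
theorem Body.den (h : Body K) :
    Q289.LD.Den fun x => K.indicator (fun _ => (1 : ℝ)) x / volume.real K := by
  have hm := h.cpt.measurableSet
  have hr : 0 < volume.real K := ENNReal.toReal_pos h.pos.ne' h.fin
  refine ⟨fun x => div_nonneg (indicator_nonneg (fun _ _ => zero_le_one) x) hr.le,
    (measurable_const.indicator hm).div_const _, fun x y t ht ht1 => ?_, ?_⟩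
  · by_cases hx : x ∈ K
    · by_cases hy : y ∈ K
      · have hxy : (1 - t) • x + t • y ∈ K :=
          h.cvx hx hy (by linarith) ht.le (by ring)
        rw [indicator_of_mem hx, indicator_of_mem hy, indicator_of_mem hxy,
          ← Real.rpow_add (by positivity), sub_add_cancel, Real.rpow_one]
      · rw [indicator_of_notMem hy, zero_div, Real.zero_rpow ht.ne', mul_zero]
        exact div_nonneg (indicator_nonneg (fun _ _ => zero_le_one) _) hr.le
    · rw [indicator_of_notMem hx, zero_div, Real.zero_rpow (by linarith), zero_mul]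
      exact div_nonneg (indicator_nonneg (fun _ _ => zero_le_one) _) hr.le
  · rw [integral_div, integral_indicator hm, setIntegral_const, smul_eq_mul, mul_one,
      div_self hr.ne']

/-- **from the halfspace form to the Poincare form** -/
theorem exists_kp_of_hf : ∃ c₀ : ℝ, 0 < c₀ ∧ ∀ (κ : Type) [Fintype κ] (K : Set (Eu κ)), Body K →
    ∀ C : ℝ, 0 < C → HF K C → KP (nm (K.indicator fun _ => (1 : ℝ))) (4 / (C * c₀) ^ 2) := by
  obtain ⟨c₀, hc₀, H⟩ := Pool.Agent.Q193.EM.Hlf.hlf
  refine ⟨c₀, hc₀, fun κ _ K hK C hC h => ?_⟩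
  rw [nm_ind hK]
  have hp := hK.prob
  intro s hs hcov
  have hcv : Pool.Agent.Q86.EM.CV K s := by
    intro θ
    have e1 : Pool.Agent.W695.KH.VV K (fun x => ⟪θ, x⟫_ℝ) =
        ProbabilityTheory.variance (fun x => ⟪x, θ⟫_ℝ) (unf K) := by
      rw [← Pool.Agent.Q188.SB.var_un K hK.cpt hK.pos _ (by fun_prop)]
      have e2 : (fun x : Eu κ => ⟪x, θ⟫_ℝ) = fun x => ⟪θ, x⟫_ℝ :=
        funext fun x => real_inner_comm _ _
      rw [e2]
      rfl
    rw [e1, mul_comm]
    exact var_le_scale hcov θ
  have h1 := H κ K ⟨hK.cpt, hK.cvx, hK.int⟩ s hs hcv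
  have h2 : Iso (unf K) (C * c₀ / Real.sqrt s) := by
    intro S hS
    have h3 := h (ENNReal.ofReal (c₀ / Real.sqrt s)) (fun u b hu => h1 u b hu) S hS
    rw [prob_compl_eq_one_sub hS]
    have e : ENNReal.ofReal C * ENNReal.ofReal (c₀ / Real.sqrt s) =
        ENNReal.ofReal (C * c₀ / Real.sqrt s) := by
      rw [← ENNReal.ofReal_mul hC.le, mul_div_assoc]
    rwa [e] at h3
  have h4 := poi_of_iso (div_pos (mul_pos hC hc₀) (Real.sqrt_pos.2 hs)) h2
  have e : 4 / (C * c₀ / Real.sqrt s) ^ 2 = 4 / (C * c₀) ^ 2 * s := by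
    rw [div_pow, Real.sq_sqrt hs.le]
    field_simp
  rwa [e] at h4

/-- **from the Poincare form to the halfspace form** -/
theorem hf_of_kp (hK : Body K) {D : ℝ} (hD : 0 < D)
    (h : KP (nm (K.indicator fun _ => (1 : ℝ))) D) : HF K (1 / (40 * Real.sqrt D)) := by
  rw [nm_ind hK] at h
  have hp := hK.prob
  intro t H A hA
  have hac : unf K ≪ volume := by
    rw [← nm_ind hK]
    exact withDensity_absolutelyContinuous _ _
  have hsD : 0 < Real.sqrt D := Real.sqrt_pos.2 hD
  set X := min (unf K A) (1 - unf K A) with hX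
  set Bd := bdr (unf K) A with hBd
  have hX1 : X ≤ 1 := (min_le_left _ _).trans prob_le_one
  have key : ∀ τ : ℝ, 0 < τ → ENNReal.ofReal τ ≤ t →
      ENNReal.ofReal (1 / (40 * Real.sqrt D)) * ENNReal.ofReal τ * X ≤ Bd := by
    intro τ hτ hτt
    have h5 : CovLe (unf K) (8 / τ ^ 2) := fun θ hθ => by
      have h6 := (Q289.LD.half_gen hac hτ (fun u r hu =>
        (mul_le_mul' hτt le_rfl).trans (H u r hu)) hθ).2
      have e2 : (fun x : Eu κ => ⟪x, θ⟫_ℝ) = fun x => ⟪θ, x⟫_ℝ :=
        funext fun x => real_inner_comm _ _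
      rw [e2]
      exact h6
    have h6 := h (8 / τ ^ 2) (by positivity) h5
    have h7 := iso_of_poi hK.den (μ := unf K) (by
      rw [← nm_ind hK]
      unfold nm
      rw [integral_indicator hK.cpt.measurableSet, setIntegral_const, smul_eq_mul, mul_one])
      (by positivity) h6 A hA
    rw [prob_compl_eq_one_sub hA] at h7
    refine le_trans (mul_le_mul_left ?_ _) h7
    rw [← ENNReal.ofReal_mul (by positivity)]
    refine ENNReal.ofReal_le_ofReal ?_
    rw [Real.sqrt_mul hD.le, Real.sqrt_div (by norm_num), Real.sqrt_sq hτ.le]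
    have e2 : 14 * Real.sqrt 8 ≤ 40 := by
      have : Real.sqrt 8 ≤ 40 / 14 := by
        rw [Real.sqrt_le_left (by norm_num)]
        norm_num
      linarith
    have h8 : 0 < Real.sqrt 8 := Real.sqrt_pos.2 (by norm_num)
    rw [div_div, div_mul_eq_mul_div, one_mul, div_le_div_iff₀ (by positivity) (by positivity),
      one_mul]
    calc τ * (14 * (Real.sqrt D * (Real.sqrt 8 / τ))) = (14 * Real.sqrt 8) * Real.sqrt D := by
          field_simp
      _ ≤ 40 * Real.sqrt D := mul_le_mul_of_nonneg_right e2 hsD.le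
  by_cases htt : t = ⊤
  · subst htt
    by_cases hm : X = 0
    · rw [hm, mul_zero]
      exact bot_le
    have hmt : X ≠ ⊤ := ne_top_of_le_ne_top ENNReal.one_ne_top hX1
    have hm0 : 0 < X.toReal := ENNReal.toReal_pos hm hmt
    have h2 : Bd = ⊤ := by
      refine ENNReal.eq_top_of_forall_nnreal_le fun r => ?_
      have h3 := key (40 * Real.sqrt D * (r + 1) / X.toReal) (by positivity) le_top
      rw [← ENNReal.ofReal_toReal hmt, ← ENNReal.ofReal_mul (by positivity),
        ← ENNReal.ofReal_mul (by positivity), ENNReal.toReal_ofReal hm0.le] at h3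
      refine le_trans ?_ h3
      rw [← ENNReal.ofReal_coe_nnreal]
      refine ENNReal.ofReal_le_ofReal ?_
      have : 1 / (40 * Real.sqrt D) * (40 * Real.sqrt D * ((r : ℝ) + 1) / X.toReal) * X.toReal =
          r + 1 := by field_simp
      rw [this]
      linarith
    rw [h2]
    exact le_top
  · by_cases h0 : t = 0
    · rw [h0, mul_zero, zero_mul]
      exact bot_le
    · have h4 := key t.toReal (ENNReal.toReal_pos h0 htt) (ENNReal.ofReal_toReal htt).le
      rwa [ENNReal.ofReal_toReal htt] at h4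

end body

end Pool.Agent.H776
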