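import Pool.Agent.H776.Lim

/-!
# Integrals over boxes
-/

set_option autoImplicit false

namespace Pool.Agent.H776

open MeasureTheory Set Filter Topology
open scoped ENNReal InnerProductSpace

section box

variable {J : Type} [Fintype J]

theorem int_toLp (F : Eu J → ℝ) : ∫ z : Eu J, F z = ∫ z : J → ℝ, F (WithLp.toLp 2 z) :=
  ((PiLp.volume_preserving_toLp J).integral_comp
    (MeasurableEquiv.toLp 2 (J → ℝ)).measurableEmbedding F).symm

theorem integrable_toLp {F : Eu J → ℝ} (h : Integrable fun z : J → ℝ => F (WithLp.toLp 2 z)) :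
    Integrable F :=
  ((PiLp.volume_preserving_toLp J).integrable_comp_emb
    (MeasurableEquiv.toLp 2 (J → ℝ)).measurableEmbedding).1 h

/-- indicator function of an interval -/
noncomputable def iv (a b r : ℝ) : ℝ := (Icc a b).indicator (fun _ => 1) r

theorem iv_nonneg (a b r : ℝ) : 0 ≤ iv a b r := indicator_nonneg (fun _ _ => zero_le_one) _

theorem iv_le (a b r : ℝ) : iv a b r ≤ 1 := by
  unfold iv
  by_cases h : r ∈ Icc a b
  · rw [indicator_of_mem h]
  · rw [indicator_of_notMem h]
    exact zero_le_one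

theorem iv_cont_int {f : ℝ → ℝ} (hf : Continuous f) (a b : ℝ) :
    Integrable fun r => f r * iv a b r := by
  have h1 : IntegrableOn f (Icc a b) := hf.continuousOn.integrableOn_compact isCompact_Icc
  refine ((integrable_indicator_iff measurableSet_Icc).2 h1).congr
    (Eventually.of_forall fun r => ?_)
  unfold iv
  by_cases h : r ∈ Icc a b
  · simp [indicator_of_mem h]
  · simp [indicator_of_notMem h]

theorem iv_int {f : ℝ → ℝ} {a b : ℝ} (hab : a ≤ b) :
    ∫ r, f r * iv a b r = ∫ r in a..b, f r := by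
  rw [intervalIntegral.integral_of_le hab, ← integral_Icc_eq_integral_Ioc,
    ← integral_indicator measurableSet_Icc]
  refine integral_congr_ae (Eventually.of_forall fun r => ?_)
  unfold iv
  by_cases h : r ∈ Icc a b
  · simp [indicator_of_mem h]
  · simp [indicator_of_notMem h]

theorem iv_one {a b : ℝ} (hab : a ≤ b) : ∫ r, iv a b r = b - a := by
  have h := iv_int (f := fun _ => 1) hab
  simpa using h

theorem iv_mid {a b : ℝ} (hab : a ≤ b) : ∫ r, (r - (a + b) / 2) * iv a b r = 0 := by
  rw [iv_int hab]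
  simp
  ring

theorem iv_sq {a b : ℝ} (hab : a ≤ b) (hab1 : b - a ≤ 1) :
    ∫ r, (r - (a + b) / 2) * (r - (a + b) / 2) * iv a b r ≤ b - a := by
  rw [← iv_one hab]
  have i1 := iv_cont_int (f := fun r => (r - (a + b) / 2) * (r - (a + b) / 2)) (by fun_prop) a b
  have i2 := iv_cont_int (f := fun _ => 1) continuous_const a b
  simp only [one_mul] at i2
  refine integral_mono i1 i2 fun r => ?_
  simp only
  by_cases h : r ∈ Icc a b
  · refine mul_le_of_le_one_left (iv_nonneg _ _ _) ?_
    have h1 : |r - (a + b) / 2| ≤ 1 := by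
      rw [abs_le]
      constructor <;> linarith [h.1, h.2]
    nlinarith [abs_mul_abs_self (r - (a + b) / 2), abs_nonneg (r - (a + b) / 2)]
  · have : iv a b r = 0 := indicator_of_notMem h _
    rw [this, mul_zero]

/-- indicator function of a box -/
noncomputable def bx (lo hi : J → ℝ) (z : Eu J) : ℝ := ∏ j, iv (lo j) (hi j) (z j)

variable {lo hi : J → ℝ}

theorem bx_nonneg (z : Eu J) : 0 ≤ bx lo hi z := Finset.prod_nonneg fun _ _ => iv_nonneg _ _ _

theorem bx_le (z : Eu J) : bx lo hi z ≤ 1 :=
  Finset.prod_le_one (fun _ _ => iv_nonneg _ _ _) fun _ _ => iv_le _ _ _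

theorem bx_mem {z : Eu J} (h : ∀ j, lo j ≤ z j ∧ z j ≤ hi j) : bx lo hi z = 1 := by
  unfold bx iv
  refine Finset.prod_eq_one fun j _ => ?_
  rw [indicator_of_mem (show z j ∈ Icc (lo j) (hi j) from h j)]

theorem bx_notMem {z : Eu J} (h : ¬ ∀ j, lo j ≤ z j ∧ z j ≤ hi j) : bx lo hi z = 0 := by
  push Not at h
  obtain ⟨j, hj⟩ := h
  unfold bx iv
  refine Finset.prod_eq_zero (Finset.mem_univ j) ?_
  rw [indicator_of_notMem]
  intro h1
  exact absurd h1.2 (not_le.2 (hj h1.1))

theorem bx_int (h : ∀ j, lo j ≤ hi j) : ∫ z, bx lo hi z = ∏ j, (hi j - lo j) := by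
  rw [int_toLp]
  unfold bx
  rw [integral_fintype_prod_volume_eq_prod (fun j r => iv (lo j) (hi j) r)]
  exact Finset.prod_congr rfl fun j _ => iv_one (h j)

open Classical in
theorem bx_double (u v : J → ℝ → ℝ) (i k : J) (z : Eu J) :
    u i (z i) * v k (z k) * bx lo hi z =
      ∏ j, ((if j = i then u j (z j) else 1) * (if j = k then v j (z j) else 1) *
        iv (lo j) (hi j) (z j)) := by
  rw [Finset.prod_mul_distrib, Finset.prod_mul_distrib,
    Finset.prod_ite_eq' Finset.univ i fun j => u j (z j),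
    Finset.prod_ite_eq' Finset.univ k fun j => v j (z j)]
  simp [bx]

theorem bx_double_int {u v : J → ℝ → ℝ} (hu : ∀ j, Continuous (u j)) (hv : ∀ j, Continuous (v j))
    (i k : J) : Integrable fun z : Eu J => u i (z i) * v k (z k) * bx lo hi z := by
  classical
  refine integrable_toLp ?_
  simp only [bx_double]
  refine Integrable.fintype_prod (f := fun j r => (if j = i then u j r else 1) *
    (if j = k then v j r else 1) * iv (lo j) (hi j) r) fun j => ?_
  refine iv_cont_int (f := fun r => (if j = i then u j r else 1) * (if j = k then v j r else 1)) ?_ _ _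
  by_cases h : j = i
  · by_cases h' : j = k
    · simp only [if_pos h, if_pos h']
      exact (hu j).mul (hv j)
    · simp only [if_pos h, if_neg h', mul_one]
      exact hu j
  · by_cases h' : j = k
    · simp only [if_neg h, if_pos h', one_mul]
      exact hv j
    · simp only [if_neg h, if_neg h', one_mul]
      exact continuous_const

theorem bx_integrable : Integrable fun z : Eu J => bx lo hi z := by
  refine integrable_toLp ?_
  unfold bx
  refine Integrable.fintype_prod (f := fun j r => iv (lo j) (hi j) r) fun j => ?_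
  have := iv_cont_int (f := fun _ => 1) continuous_const (lo j) (hi j)
  simpa using this

theorem bx_cross (h : ∀ j, lo j ≤ hi j) {i k : J} (hik : i ≠ k) :
    ∫ z : Eu J, (z i - (lo i + hi i) / 2) * (z k - (lo k + hi k) / 2) * bx lo hi z = 0 := by
  classical
  rw [int_toLp]
  have e := fun z : J → ℝ => bx_double (lo := lo) (hi := hi) (fun j r => r - (lo j + hi j) / 2)
    (fun j r => r - (lo j + hi j) / 2) i k (WithLp.toLp 2 z)
  simp only at e
  simp only [e]
  rw [integral_fintype_prod_volume_eq_prod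
    (fun j r => (if j = i then r - (lo j + hi j) / 2 else 1) *
      (if j = k then r - (lo j + hi j) / 2 else 1) * iv (lo j) (hi j) r)]
  refine Finset.prod_eq_zero (Finset.mem_univ i) ?_
  simp only [if_true, if_neg hik, mul_one]
  exact iv_mid (h i)

theorem bx_diag (h : ∀ j, lo j ≤ hi j) (h1 : ∀ j, hi j - lo j ≤ 1) (i : J) :
    ∫ z : Eu J, (z i - (lo i + hi i) / 2) * (z i - (lo i + hi i) / 2) * bx lo hi z ≤
      ∏ j, (hi j - lo j) := by
  rw [← bx_int h]
  refine integral_mono (bx_double_int (u := fun j r => r - (lo j + hi j) / 2)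
    (v := fun j r => r - (lo j + hi j) / 2) (fun j => by fun_prop) (fun j => by fun_prop) i i)
    bx_integrable fun z => ?_
  simp only
  by_cases hz : ∀ j, lo j ≤ z j ∧ z j ≤ hi j
  · refine mul_le_of_le_one_left (bx_nonneg _) ?_
    have h2 : |z i - (lo i + hi i) / 2| ≤ 1 := by
      rw [abs_le]
      have := h1 i
      constructor <;> linarith [(hz i).1, (hz i).2]
    nlinarith [abs_mul_abs_self (z i - (lo i + hi i) / 2), abs_nonneg (z i - (lo i + hi i) / 2)]
  · rw [bx_notMem hz, mul_zero]

/-- second moments of centred linear functions on boxes -/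
theorem bx_sq (h : ∀ j, lo j ≤ hi j) (h1 : ∀ j, hi j - lo j ≤ 1) (θ : J → ℝ) :
    Integrable (fun z : Eu J => (∑ j, θ j * (z j - (lo j + hi j) / 2)) ^ 2 * bx lo hi z) ∧
    ∫ z : Eu J, (∑ j, θ j * (z j - (lo j + hi j) / 2)) ^ 2 * bx lo hi z ≤
      (∑ j, θ j ^ 2) * ∏ j, (hi j - lo j) := by
  have e : ∀ z : Eu J, (∑ j, θ j * (z j - (lo j + hi j) / 2)) ^ 2 * bx lo hi z =
      ∑ i, ∑ k, θ i * θ k *
        ((z i - (lo i + hi i) / 2) * (z k - (lo k + hi k) / 2) * bx lo hi z) := by
    intro z
    rw [sq, Finset.sum_mul_sum, Finset.sum_mul]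
    refine Finset.sum_congr rfl fun i _ => ?_
    rw [Finset.sum_mul]
    exact Finset.sum_congr rfl fun k _ => by ring
  have hi' : ∀ i k : J, Integrable fun z : Eu J => θ i * θ k *
      ((z i - (lo i + hi i) / 2) * (z k - (lo k + hi k) / 2) * bx lo hi z) := fun i k =>
    (bx_double_int (u := fun j r => r - (lo j + hi j) / 2)
      (v := fun j r => r - (lo j + hi j) / 2) (fun j => by fun_prop) (fun j => by fun_prop)
      i k).const_mul _
  simp only [e]
  refine ⟨integrable_finsetSum _ fun i _ => integrable_finsetSum _ fun k _ => hi' i k, ?_⟩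
  rw [integral_finsetSum _ fun i _ => integrable_finsetSum _ fun k _ => hi' i k, Finset.sum_mul]
  refine Finset.sum_le_sum fun i _ => ?_
  rw [integral_finsetSum _ fun k _ => hi' i k, Finset.sum_eq_single i]
  · rw [integral_const_mul, sq]
    exact mul_le_mul_of_nonneg_left (bx_diag h h1 i) (mul_self_nonneg _)
  · intro k _ hk
    rw [integral_const_mul, bx_cross h (Ne.symm hk), mul_zero]
  · intro h2
    exact absurd (Finset.mem_univ i) h2

end box

section beta

/-- beta integrals -/
noncomputable def bI (m L : ℕ) : ℝ := ∫ e in (0 : ℝ)..1, e ^ m * (1 - e) ^ L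

theorem bI_pos (m L : ℕ) : 0 < bI m L := by
  unfold bI
  refine intervalIntegral.intervalIntegral_pos_of_pos_on ?_ ?_ one_pos
  · exact Continuous.intervalIntegrable (by fun_prop) _ _
  · intro x hx
    have h1 : 0 < 1 - x := by linarith [hx.2]
    have h2 : 0 < x := hx.1
    positivity

theorem bI_succ (m L : ℕ) : ((m : ℝ) + L + 2) * bI (m + 1) L = (m + 1) * bI m L := by
  have hd : ∀ x : ℝ, HasDerivAt (fun x : ℝ => x ^ (m + 1) * (1 - x) ^ (L + 1))
      ((m + 1) * (x ^ m * (1 - x) ^ L) - (m + L + 2) * (x ^ (m + 1) * (1 - x) ^ L)) x := by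
    intro x
    have h1 : HasDerivAt (fun x : ℝ => x ^ (m + 1)) ((m + 1 : ℕ) * x ^ m) x := by
      simpa using hasDerivAt_pow (m + 1) x
    have h2 : HasDerivAt (fun x : ℝ => (1 - x) ^ (L + 1)) ((L + 1 : ℕ) * (1 - x) ^ L * (-1)) x := by
      have h3 : HasDerivAt (fun x : ℝ => 1 - x) (-1) x := by
        simpa using (hasDerivAt_id x).const_sub 1
      exact h3.fun_pow (L + 1)
    refine (h1.fun_mul h2).congr_deriv ?_
    push_cast
    ring
  have hi : ∀ a b : ℕ, IntervalIntegrable (fun x : ℝ => x ^ a * (1 - x) ^ b) volume 0 1 :=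
    fun a b => Continuous.intervalIntegrable (by fun_prop) _ _
  have h := intervalIntegral.integral_eq_sub_of_hasDerivAt (a := 0) (b := 1)
    (fun x _ => hd x) (((hi m L).const_mul _).sub ((hi (m + 1) L).const_mul _))
  rw [intervalIntegral.integral_sub ((hi m L).const_mul _) ((hi (m + 1) L).const_mul _),
    intervalIntegral.integral_const_mul, intervalIntegral.integral_const_mul] at h
  simp only [one_pow, sub_self, ne_eq, Nat.add_eq_zero_iff, one_ne_zero, and_false,
    not_false_eq_true, zero_pow, mul_zero, zero_mul, sub_zero] at h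
  unfold bI
  linarith

end beta

end Pool.Agent.H776
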