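import Pool.Agent.H776.Scale

/-!
# Transport of the inequality along linear isometries
-/

set_option autoImplicit false

namespace Pool.Agent.H776

open MeasureTheory Set Filter Topology
open scoped ENNReal InnerProductSpace

variable {κ κ' : Type} [Fintype κ] [Fintype κ']

theorem nm_iso {F : Eu κ → ℝ} (σ : Eu κ' ≃ₗᵢ[ℝ] Eu κ) :
    (nm fun y => F (σ y)).map σ = nm F := by
  have hmp : MeasurePreserving σ volume volume := σ.measurePreserving
  have e0 : ∫ y, F (σ y) = ∫ x, F x :=
    hmp.integral_comp σ.toHomeomorph.measurableEmbedding F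
  unfold nm
  ext S hS
  rw [Measure.map_apply σ.continuous.measurable hS, withDensity_apply _ hS,
    withDensity_apply _ (hS.preimage σ.continuous.measurable), e0]
  exact hmp.setLIntegral_comp_preimage_emb σ.toHomeomorph.measurableEmbedding
    (fun y => ENNReal.ofReal (F y / ∫ y, F y)) S

theorem KP.iso {ν : Measure (Eu κ')} [IsProbabilityMeasure ν]
    (hi : Integrable (fun y => ‖y‖ ^ 2) ν) (σ : Eu κ' ≃ₗᵢ[ℝ] Eu κ) {D : ℝ} (hD : 0 ≤ D)
    (h : KP ν D) : KP (ν.map σ) D := by
  have hσ : Measurable σ := σ.continuous.measurable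
  have hp : IsProbabilityMeasure (ν.map σ) := Measure.isProbabilityMeasure_map hσ.aemeasurable
  have e : (ν.map fun y => (σ.toContinuousLinearEquiv : Eu κ' →L[ℝ] Eu κ) y - 0) = ν.map σ := by
    congr 1
    funext y
    rw [sub_zero]
    rfl
  have hi' : Integrable (fun y => ‖y‖ ^ 2) (ν.map σ) := by
    rw [integrable_map_measure (by fun_prop) hσ.aemeasurable]
    refine hi.congr (Eventually.of_forall fun y => ?_)
    simp
  refine KP.lift (l := pure ()) (K := fun _ => κ') (ν := fun _ => ν)
    (T := fun _ => (σ.toContinuousLinearEquiv : Eu κ' →L[ℝ] Eu κ)) (b := fun _ => 0)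
    (J := fun _ => (σ.symm.toContinuousLinearEquiv : Eu κ →L[ℝ] Eu κ')) hD
    (Eventually.of_forall fun _ => inferInstance) (Eventually.of_forall fun _ => hi)
    (fun _ => ?_) (fun _ => ?_) ?_ ?_ (Eventually.of_forall fun _ => h)
  · exact ContinuousLinearMap.opNorm_le_bound _ zero_le_one fun y => by
      rw [one_mul]
      exact (σ.norm_map y).le
  · exact ContinuousLinearMap.opNorm_le_bound _ zero_le_one fun y => by
      rw [one_mul]
      exact (σ.symm.norm_map y).le
  · rw [e]
    exact ⟨Eventually.of_forall fun _ => hp, Eventually.of_forall fun _ => hi', hi',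
      fun φ _ => tendsto_const_nhds⟩
  · intro η hη
    refine Eventually.of_forall fun _ θ hθ => ?_
    have : (fun y : Eu κ' => ⟪y - (σ.symm.toContinuousLinearEquiv : Eu κ →L[ℝ] Eu κ')
        ((σ.toContinuousLinearEquiv : Eu κ' →L[ℝ] Eu κ) y), θ⟫_ℝ) = fun _ => 0 := by
      funext y
      have h1 : (σ.symm.toContinuousLinearEquiv : Eu κ →L[ℝ] Eu κ')
        ((σ.toContinuousLinearEquiv : Eu κ' →L[ℝ] Eu κ) y) = y := σ.symm_apply_apply y
      rw [h1, sub_self, inner_zero_left]
    rw [this, ProbabilityTheory.variance_eq_integral (by fun_prop)]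
    simpa using hη.le

/-- reindexing -/
noncomputable def rx (e : κ' ≃ κ) : Eu κ' ≃ₗᵢ[ℝ] Eu κ := LinearIsometryEquiv.piLpCongrLeft 2 ℝ ℝ e

theorem rx_apply (e : κ' ≃ κ) (y : Eu κ') (i : κ) : rx e y i = y (e.symm i) := by
  unfold rx
  rw [LinearIsometryEquiv.piLpCongrLeft_apply]
  simp [Equiv.piCongrLeft']

theorem wt_iso {F : Eu κ → ℝ} (h : Wt F) (σ : Eu κ' ≃ₗᵢ[ℝ] Eu κ) : Wt fun y => F (σ y) := by
  have hmp : MeasurePreserving σ volume volume := σ.measurePreserving
  have e0 : ∫ y, F (σ y) = ∫ x, F x :=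
    hmp.integral_comp σ.toHomeomorph.measurableEmbedding F
  refine ⟨fun y => h.nonneg _, h.meas.comp σ.continuous.measurable, by rw [e0]; exact h.pos, ?_⟩
  have h1 := (hmp.integrable_comp_emb σ.toHomeomorph.measurableEmbedding
    (g := fun x => (1 + ‖x‖ ^ 2) * F x)).2 h.mom
  refine h1.congr (Eventually.of_forall fun y => ?_)
  simp [Function.comp]

end Pool.Agent.H776
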