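import Pool.Agent.H776.Body
import Pool.Agent.H776.IsoT

/-!
# Thin caps of bodies with prescribed symmetries
-/

set_option autoImplicit false

namespace Pool.Agent.H776

open MeasureTheory Set Filter Topology
open scoped ENNReal InnerProductSpace

section cap

variable {κ : Type} [Fintype κ]

/-- height -/
def ht (p : Eu (κ ⊕ Unit)) : ℝ := p (Sum.inr ())

theorem ht_cont : Continuous (ht : Eu (κ ⊕ Unit) → ℝ) := by
  unfold ht
  fun_prop

theorem ht_add (p q : Eu (κ ⊕ Unit)) : ht (p + q) = ht p + ht q := rfl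

theorem ht_smul (c : ℝ) (p : Eu (κ ⊕ Unit)) : ht (c • p) = c * ht p := rfl

theorem pl_add (p q : Eu (κ ⊕ Unit)) : pl (p + q) = pl p + pl q := rfl

theorem pl_smul (c : ℝ) (p : Eu (κ ⊕ Unit)) : pl (c • p) = c • pl p := rfl

/-- the last basis vector -/
noncomputable def ee (κ : Type) [Fintype κ] : Eu (κ ⊕ Unit) := by
  classical exact EuclideanSpace.single (Sum.inr ()) 1

theorem ht_eq (p : Eu (κ ⊕ Unit)) : ht p = ⟪ee κ, p⟫_ℝ := by
  classical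
  unfold ee ht
  rw [EuclideanSpace.inner_single_left]
  simp

theorem norm_ee : ‖ee κ‖ = 1 := by
  classical
  unfold ee
  rw [PiLp.norm_single, norm_one]

theorem norm_inx (x : Eu κ) : ‖(mk x 0 : Eu (κ ⊕ Unit))‖ = ‖x‖ := by
  have h := norm_mk_sq x (0 : Eu Unit)
  rw [norm_zero] at h
  have h1 : ‖(mk x 0 : Eu (κ ⊕ Unit))‖ ^ 2 = ‖x‖ ^ 2 := by rw [h]; ring
  exact (pow_left_inj₀ (norm_nonneg _) (norm_nonneg _) two_ne_zero).1 h1

theorem norm_pl_le (p : Eu (κ ⊕ Unit)) : ‖pl p‖ ≤ ‖p‖ := by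
  refine (sq_le_sq₀ (norm_nonneg _) (norm_nonneg _)).1 ?_
  rw [norm_sq_split p]
  exact le_add_of_nonneg_right (sq_nonneg _)

theorem split (p : Eu (κ ⊕ Unit)) : p = mk (pl p) 0 + ht p • ee κ := by
  classical
  ext i
  rcases i with i | i
  · simp [ee]
  · simp [ee, ht]

/-- the set near the top -/
def CC (L : Set (Eu κ)) (R M : ℝ) : Set (Eu (κ ⊕ Unit)) :=
  {p | ht p ≤ R ∧ ∃ y ∈ L, ‖pl p - y‖ ≤ M * (R - ht p)}

/-- the body -/
def KG (Γ : Set (Eu (κ ⊕ Unit) ≃ₗᵢ[ℝ] Eu (κ ⊕ Unit))) (L : Set (Eu κ)) (R R' M : ℝ) :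
    Set (Eu (κ ⊕ Unit)) := {p | ‖p‖ ≤ R' ∧ ∀ σ ∈ Γ, σ p ∈ CC L R M}

variable {L : Set (Eu κ)} {R R' M : ℝ}

theorem CC_eq (hL : IsCompact L) (hne : L.Nonempty) : CC L R M =
    {p | ht p ≤ R ∧ Metric.infDist (pl p) L ≤ M * (R - ht p)} := by
  ext p
  refine and_congr Iff.rfl ⟨?_, fun h => ?_⟩
  · rintro ⟨y, hy, h⟩
    rw [← dist_eq_norm] at h
    exact (Metric.infDist_le_dist_of_mem hy).trans h
  · obtain ⟨y, hy, h1⟩ := hL.exists_infDist_eq_dist hne (pl p)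
    refine ⟨y, hy, ?_⟩
    rw [← dist_eq_norm, ← h1]
    exact h

theorem CC_closed (hL : IsCompact L) (hne : L.Nonempty) : IsClosed (CC L R M) := by
  rw [CC_eq hL hne]
  have h1 : Continuous fun p : Eu (κ ⊕ Unit) => Metric.infDist (pl p) L :=
    (Metric.continuous_infDist_pt L).comp cont_pl
  have h2 : Continuous fun p : Eu (κ ⊕ Unit) => M * (R - ht p) :=
    continuous_const.mul (continuous_const.sub ht_cont)
  exact (isClosed_le ht_cont continuous_const).inter (isClosed_le h1 h2)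

theorem CC_convex (hL : Convex ℝ L) : Convex ℝ (CC L R M) := by
  rintro p ⟨hp1, y, hy, hp2⟩ q ⟨hq1, z, hz, hq2⟩ a b ha hb hab
  refine ⟨?_, a • y + b • z, hL hy hz ha hb hab, ?_⟩
  · rw [ht_add, ht_smul, ht_smul]
    calc a * ht p + b * ht q ≤ a * R + b * R := add_le_add (mul_le_mul_of_nonneg_left hp1 ha)
          (mul_le_mul_of_nonneg_left hq1 hb)
      _ = R := by rw [← add_mul, hab, one_mul]
  · rw [ht_add, ht_smul, ht_smul, pl_add, pl_smul, pl_smul]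
    have e : a • pl p + b • pl q - (a • y + b • z) = a • (pl p - y) + b • (pl q - z) := by
      rw [smul_sub, smul_sub]
      abel
    rw [e]
    refine (norm_add_le _ _).trans ?_
    rw [norm_smul, norm_smul, Real.norm_of_nonneg ha, Real.norm_of_nonneg hb]
    calc a * ‖pl p - y‖ + b * ‖pl q - z‖ ≤ a * (M * (R - ht p)) + b * (M * (R - ht q)) :=
          add_le_add (mul_le_mul_of_nonneg_left hp2 ha) (mul_le_mul_of_nonneg_left hq2 hb)
      _ = M * ((a + b) * R - (a * ht p + b * ht q)) := by ring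
      _ = _ := by rw [hab, one_mul]

theorem KG_compact {Γ : Set (Eu (κ ⊕ Unit) ≃ₗᵢ[ℝ] Eu (κ ⊕ Unit))} (hL : IsCompact L)
    (hne : L.Nonempty) : IsCompact (KG Γ L R R' M) := by
  refine (isCompact_closedBall (0 : Eu (κ ⊕ Unit)) R').of_isClosed_subset ?_ fun p hp => by
    rw [Metric.mem_closedBall, dist_zero_right]
    exact hp.1
  have h1 : IsClosed {p : Eu (κ ⊕ Unit) | ∀ σ ∈ Γ, σ p ∈ CC L R M} := by
    have : {p : Eu (κ ⊕ Unit) | ∀ σ ∈ Γ, σ p ∈ CC L R M} = ⋂ σ ∈ Γ, σ ⁻¹' CC L R M := by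
      ext p
      simp
    rw [this]
    exact isClosed_biInter fun σ _ => (CC_closed hL hne).preimage σ.continuous
  exact (isClosed_le continuous_norm continuous_const).inter h1

theorem KG_convex {Γ : Set (Eu (κ ⊕ Unit) ≃ₗᵢ[ℝ] Eu (κ ⊕ Unit))} (hL : Convex ℝ L) :
    Convex ℝ (KG Γ L R R' M) := by
  intro p hp q hq a b ha hb hab
  refine ⟨?_, fun σ hσ => ?_⟩
  · refine (norm_add_le _ _).trans ?_
    rw [norm_smul, norm_smul, Real.norm_of_nonneg ha, Real.norm_of_nonneg hb]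
    calc a * ‖p‖ + b * ‖q‖ ≤ a * R' + b * R' := add_le_add (mul_le_mul_of_nonneg_left hp.1 ha)
          (mul_le_mul_of_nonneg_left hq.1 hb)
      _ = R' := by rw [← add_mul, hab, one_mul]
  · rw [map_add, map_smul, map_smul]
    exact CC_convex hL (hp.2 σ hσ) (hq.2 σ hσ) ha hb hab

theorem KG_inv {Γ : Set (Eu (κ ⊕ Unit) ≃ₗᵢ[ℝ] Eu (κ ⊕ Unit))}
    (hmul : ∀ σ ∈ Γ, ∀ τ ∈ Γ, σ.trans τ ∈ Γ) (hinv : ∀ σ ∈ Γ, σ.symm ∈ Γ)
    {τ : Eu (κ ⊕ Unit) ≃ₗᵢ[ℝ] Eu (κ ⊕ Unit)} (hτ : τ ∈ Γ) :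
    τ '' KG Γ L R R' M = KG Γ L R R' M := by
  have key : ∀ τ ∈ Γ, ∀ p ∈ KG Γ L R R' M, τ p ∈ KG Γ L R R' M := by
    intro τ hτ p hp
    refine ⟨by rw [τ.norm_map]; exact hp.1, fun σ hσ => ?_⟩
    exact hp.2 _ (hmul τ hτ σ hσ)
  refine Subset.antisymm ?_ fun p hp => ⟨τ.symm p, key _ (hinv τ hτ) p hp, τ.apply_symm_apply p⟩
  rintro _ ⟨p, hp, rfl⟩
  exact key τ hτ p hp

/-- parameters -/
structure CP (Γ : Set (Eu (κ ⊕ Unit) ≃ₗᵢ[ℝ] Eu (κ ⊕ Unit))) (L : Set (Eu κ)) (ρ δ R R' M : ℝ) :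
    Prop where
  rho : 0 ≤ ρ
  bdd : ∀ y ∈ L, ‖y‖ ≤ ρ
  del : 0 < δ
  ang : ∀ σ ∈ Γ, σ ≠ LinearIsometryEquiv.refl ℝ _ → ⟪ee κ, σ (ee κ)⟫_ℝ ≤ 1 - δ
  hR : ρ + 2 ≤ R * δ
  del1 : δ ≤ 1
  hR' : R + ρ + 1 ≤ R'
  hM : R' + ρ ≤ M

variable {Γ : Set (Eu (κ ⊕ Unit) ≃ₗᵢ[ℝ] Eu (κ ⊕ Unit))} {ρ δ : ℝ}

theorem CP.Rge (h : CP Γ L ρ δ R R' M) : ρ + 2 ≤ R := by
  have h1 := h.hR
  have h2 := h.del1
  have h3 := h.del
  have h4 := h.rho
  by_contra hc
  rw [not_le] at hc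
  have hR0 : 0 < R := by
    by_contra h0
    rw [not_lt] at h0
    nlinarith
  nlinarith

/-- near the top the body is given by `CC` -/
theorem KG_top (h : CP Γ L ρ δ R R' M) (hne : L.Nonempty)
    (hone : LinearIsometryEquiv.refl ℝ _ ∈ Γ) {a : ℝ} (ha0 : 0 ≤ a) (ha : M * a ≤ 1)
    {p : Eu (κ ⊕ Unit)} (hp : R - a ≤ ht p) : p ∈ KG Γ L R R' M ↔ p ∈ CC L R M := by
  refine ⟨fun h1 => h1.2 _ hone, fun h1 => ?_⟩
  obtain ⟨h2, y, hy, h3⟩ := h1
  have hR := h.Rge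
  have hrho := h.rho
  have hM0 : 0 ≤ M := by
    have := h.hM
    have := h.hR'
    linarith
  have h4 : ‖pl p‖ ≤ ρ + 1 := by
    have h5 : ‖pl p‖ ≤ ‖pl p - y‖ + ‖y‖ := by
      have := norm_add_le (pl p - y) y
      rwa [sub_add_cancel] at this
    have h6 : M * (R - ht p) ≤ M * a := mul_le_mul_of_nonneg_left (by linarith) hM0
    have := h.bdd y hy
    linarith
  have hM1 : 1 ≤ M := by
    have := h.hM
    have := h.hR'
    linarith
  have ha1 : a ≤ 1 := by nlinarith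
  have hpos : 0 ≤ ht p := by linarith
  have h7 : ‖p‖ ≤ R' := by
    have h8 : ‖p‖ ≤ ‖pl p‖ + |ht p| := by
      conv_lhs => rw [split p]
      refine (norm_add_le _ _).trans (add_le_add ?_ ?_)
      · exact (norm_inx _).le
      · rw [norm_smul, norm_ee, mul_one, Real.norm_eq_abs]
    rw [abs_of_nonneg hpos] at h8
    have := h.hR'
    linarith
  refine ⟨h7, fun σ hσ => ?_⟩
  by_cases hσ1 : σ = LinearIsometryEquiv.refl ℝ _
  · rw [hσ1]
    exact ⟨h2, y, hy, h3⟩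
  · have h8 : ht (σ p) ≤ R - 1 := by
      rw [ht_eq]
      conv_lhs => rw [split p]
      rw [map_add, map_smul, inner_add_right, real_inner_smul_right]
      have h9 : ⟪ee κ, σ (mk (pl p) 0)⟫_ℝ ≤ ‖pl p‖ := by
        refine (real_inner_le_norm _ _).trans ?_
        rw [norm_ee, one_mul, σ.norm_map]
        exact (norm_inx _).le
      have h10 : ht p * ⟪ee κ, σ (ee κ)⟫_ℝ ≤ R * (1 - δ) := by
        have h11 := h.ang σ hσ hσ1
        calc ht p * ⟪ee κ, σ (ee κ)⟫_ℝ ≤ ht p * (1 - δ) := mul_le_mul_of_nonneg_left h11 hpos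
          _ ≤ R * (1 - δ) := mul_le_mul_of_nonneg_right h2 (by linarith [h.del1])
      have h12 := h.hR
      have h13 : R * (1 - δ) = R - R * δ := by ring
      linarith
    refine ⟨by linarith, ?_⟩
    obtain ⟨y0, hy0⟩ := hne
    refine ⟨y0, hy0, ?_⟩
    have h12 : ‖pl (σ p) - y0‖ ≤ R' + ρ := by
      refine (norm_sub_le _ _).trans (add_le_add ?_ (h.bdd y0 hy0))
      refine le_trans ?_ h7
      rw [← σ.norm_map p]
      exact norm_pl_le _
    have h13 : M * 1 ≤ M * (R - ht (σ p)) := mul_le_mul_of_nonneg_left (by linarith) hM0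
    have := h.hM
    linarith

theorem KG_interior (h : CP Γ L ρ δ R R' M) (hne : L.Nonempty) :
    (0 : Eu (κ ⊕ Unit)) ∈ interior (KG Γ L R R' M) := by
  rw [mem_interior]
  have hR := h.Rge
  have hrho := h.rho
  have h1 := h.hM
  have h2 := h.hR'
  refine ⟨Metric.ball 0 1, fun p hp => ?_, Metric.isOpen_ball, Metric.mem_ball_self one_pos⟩
  rw [Metric.mem_ball, dist_zero_right] at hp
  refine ⟨by linarith, fun σ hσ => ?_⟩
  have h3 : ht (σ p) ≤ 1 := by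
    rw [ht_eq]
    refine (real_inner_le_norm _ _).trans ?_
    rw [norm_ee, one_mul, σ.norm_map]
    exact hp.le
  refine ⟨by linarith, ?_⟩
  obtain ⟨y0, hy0⟩ := hne
  refine ⟨y0, hy0, ?_⟩
  have h4 : ‖pl (σ p)‖ ≤ 1 := by
    refine le_trans ?_ hp.le
    rw [← σ.norm_map p]
    exact norm_pl_le _
  have h5 := norm_sub_le (pl (σ p)) y0
  have h6 := h.bdd y0 hy0
  have h7 : M * 1 ≤ M * (R - ht (σ p)) := mul_le_mul_of_nonneg_left (by linarith) (by linarith)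
  linarith

end cap

end Pool.Agent.H776
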