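import Pool.Agent.H776.Cap

/-!
# Thin caps converge to their base
-/

set_option autoImplicit false

namespace Pool.Agent.H776

open MeasureTheory Set Filter Topology
open scoped ENNReal InnerProductSpace

section cap2

variable {κ : Type} [Fintype κ] {L : Set (Eu κ)} {ρ δ R R' M : ℝ}
  {Γ : Set (Eu (κ ⊕ Unit) ≃ₗᵢ[ℝ] Eu (κ ⊕ Unit))}

/-- the cap -/
def Cap (Γ : Set (Eu (κ ⊕ Unit) ≃ₗᵢ[ℝ] Eu (κ ⊕ Unit))) (L : Set (Eu κ)) (R R' M h : ℝ) :
    Set (Eu (κ ⊕ Unit)) := KG Γ L R R' M ∩ {p | R - h ≤ ht p}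

theorem cap_body (hc : CP Γ L ρ δ R R' M) (hL : IsCompact L) (hcv : Convex ℝ L) (hne : L.Nonempty)
    (hone : LinearIsometryEquiv.refl ℝ _ ∈ Γ) {h : ℝ} (hh : 0 < h) (hh1 : M * h ≤ 1) :
    Body (Cap Γ L R R' M h) := by
  have hhalf : Convex ℝ {p : Eu (κ ⊕ Unit) | R - h ≤ ht p} := by
    intro p hp q hq a b ha hb hab
    simp only [mem_ofPred_eq] at hp hq ⊢
    rw [ht_add, ht_smul, ht_smul]
    calc R - h = a * (R - h) + b * (R - h) := by rw [← add_mul, hab, one_mul]
      _ ≤ _ := add_le_add (mul_le_mul_of_nonneg_left hp ha) (mul_le_mul_of_nonneg_left hq hb)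
  refine ⟨(KG_compact hL hne).inter_right (isClosed_le continuous_const ht_cont),
    (KG_convex hcv).inter hhalf, ?_⟩
  obtain ⟨y, hy⟩ := hne
  have h0 := KG_interior hc ⟨y, hy⟩
  -- the point `(y, R)`
  obtain ⟨q, hq⟩ : ∃ q : Eu (κ ⊕ Unit), q = mk y 0 + R • ee κ := ⟨_, rfl⟩
  have hqt : ht q = R := by
    rw [hq, ht_add, ht_smul]
    have h1 : ht (mk y 0 : Eu (κ ⊕ Unit)) = 0 := rfl
    have h2 : ht (ee κ) = 1 := by
      rw [ht_eq, real_inner_self_eq_norm_sq, norm_ee, one_pow]
    rw [h1, h2]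
    ring
  have hql : pl q = y := by
    have h2 : pl (ee κ) = 0 := by
      ext i
      simp [ee]
    rw [hq, pl_add, pl_smul, h2, smul_zero, add_zero]
    rfl
  have hqK : q ∈ KG Γ L R R' M := by
    rw [KG_top hc ⟨y, hy⟩ hone (a := 0) le_rfl (by simp) (by rw [hqt]; simp)]
    refine ⟨hqt.le, y, hy, ?_⟩
    rw [hql, hqt]
    simp
  have hR := hc.Rge
  have hrho := hc.rho
  have hRpos : 0 < R := by linarith
  obtain ⟨l, hl0, hl1, hl2⟩ : ∃ l : ℝ, 0 < l ∧ l < 1 ∧ l * R < h := by
    refine ⟨min (1 / 2) (h / (2 * R)), by positivity, ?_, ?_⟩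
    · exact lt_of_le_of_lt (min_le_left _ _) (by norm_num)
    · calc min (1 / 2) (h / (2 * R)) * R ≤ h / (2 * R) * R :=
            mul_le_mul_of_nonneg_right (min_le_right _ _) hRpos.le
        _ = h / 2 := by field_simp
        _ < h := by linarith
  refine ⟨l • (0 : Eu (κ ⊕ Unit)) + (1 - l) • q, ?_⟩
  unfold Cap
  rw [interior_inter]
  refine ⟨(KG_convex hcv).combo_interior_self_mem_interior h0 hqK hl0 (by linarith) (by ring), ?_⟩
  rw [mem_interior]
  refine ⟨{p | R - h < ht p}, fun p hp => ?_, isOpen_lt continuous_const ht_cont, ?_⟩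
  · simp only [mem_ofPred_eq] at hp ⊢
    exact hp.le
  simp only [mem_ofPred_eq, smul_zero, zero_add]
  rw [ht_smul, hqt]
  linarith

/-- the parametrised cap -/
def SQ (L : Set (Eu κ)) (M h : ℝ) : Set (Eu κ × Eu Unit) :=
  {p | (0 ≤ p.2 () ∧ p.2 () ≤ 1) ∧ Metric.infDist p.1 L ≤ M * (h * p.2 ())}

theorem SQ_meas (L : Set (Eu κ)) (M h : ℝ) : MeasurableSet (SQ L M h) := by
  have h1 : Continuous fun p : Eu κ × Eu Unit => p.2 () := by fun_prop
  have h2 : Continuous fun p : Eu κ × Eu Unit => Metric.infDist p.1 L :=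
    (Metric.continuous_infDist_pt L).comp continuous_fst
  have h3 : Continuous fun p : Eu κ × Eu Unit => M * (h * p.2 ()) := by fun_prop
  exact ((isClosed_le continuous_const h1).inter (isClosed_le h1 continuous_const)).measurableSet.inter
    (isClosed_le h2 h3).measurableSet

/-- indicator -/
noncomputable def sq (L : Set (Eu κ)) (M h : ℝ) : Eu κ × Eu Unit → ℝ :=
  (SQ L M h).indicator fun _ => 1

theorem cap_comp (hc : CP Γ L ρ δ R R' M) (hL : IsCompact L) (hne : L.Nonempty)
    (hone : LinearIsometryEquiv.refl ℝ _ ∈ Γ) {h : ℝ} (hh : 0 < h) (hh1 : M * h ≤ 1)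
    (p : Eu κ × Eu Unit) :
    (Cap Γ L R R' M h).indicator (fun _ => (1 : ℝ))
      (emc κ Unit (-h) (neg_ne_zero.2 hh.ne') p + R • ee κ) = sq L M h p := by
  have e1 : ht (emc κ Unit (-h) (neg_ne_zero.2 hh.ne') p + R • ee κ) = R - h * p.2 () := by
    have h2 : ht (ee κ) = 1 := by
      rw [ht_eq, real_inner_self_eq_norm_sq, norm_ee, one_pow]
    rw [ht_add, ht_smul, h2, emc_apply]
    change -h * p.2 () + R * 1 = _
    ring
  have e2 : pl (emc κ Unit (-h) (neg_ne_zero.2 hh.ne') p + R • ee κ) = p.1 := by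
    have h2 : pl (ee κ) = 0 := by
      ext i
      simp [ee]
    rw [pl_add, pl_smul, h2, smul_zero, add_zero]
    rfl
  have key : emc κ Unit (-h) (neg_ne_zero.2 hh.ne') p + R • ee κ ∈ Cap Γ L R R' M h ↔
      p ∈ SQ L M h := by
    unfold Cap SQ
    constructor
    · rintro ⟨h3, h4⟩
      simp only [mem_ofPred_eq] at h4
      rw [KG_top hc hne hone hh.le hh1 h4, CC_eq hL hne] at h3
      obtain ⟨h5, h6⟩ := h3
      rw [e1] at h4 h5 h6
      rw [e2] at h6
      refine ⟨⟨?_, ?_⟩, ?_⟩
      · nlinarith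
      · nlinarith
      · rwa [sub_sub_cancel] at h6
    · rintro ⟨⟨h3, h4⟩, h5⟩
      have h6 : R - h ≤ ht (emc κ Unit (-h) (neg_ne_zero.2 hh.ne') p + R • ee κ) := by
        rw [e1]
        nlinarith
      refine ⟨?_, h6⟩
      rw [KG_top hc hne hone hh.le hh1 h6, CC_eq hL hne]
      refine ⟨?_, ?_⟩
      · rw [e1]
        nlinarith
      · rw [e1, e2, sub_sub_cancel]
        exact h5
  unfold sq
  by_cases hp : p ∈ SQ L M h
  · rw [indicator_of_mem hp, indicator_of_mem (key.2 hp)]
  · rw [indicator_of_notMem hp, indicator_of_notMem fun h => hp (key.1 h)]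

/-- the interval -/
def I1 : Set (Eu Unit) := {z | 0 ≤ z () ∧ z () ≤ 1}

theorem I1_compact : IsCompact I1 := by
  have h1 : Continuous fun z : Eu Unit => z () := by fun_prop
  refine (isCompact_closedBall (0 : Eu Unit) 1).of_isClosed_subset
    ((isClosed_le continuous_const h1).inter (isClosed_le h1 continuous_const)) fun z hz => ?_
  rw [Metric.mem_closedBall, dist_zero_right, EuclideanSpace.norm_eq]
  simp only [Finset.univ_unique, Finset.sum_singleton, Real.norm_eq_abs, sq_abs]
  rw [Real.sqrt_sq hz.1]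
  exact hz.2

theorem I1_pos : 0 < volume.real I1 := by
  have h1 : Continuous fun z : Eu Unit => z () := by fun_prop
  have ho : IsOpen {z : Eu Unit | 0 < z () ∧ z () < 1} :=
    (isOpen_lt continuous_const h1).inter (isOpen_lt h1 continuous_const)
  have hn : {z : Eu Unit | 0 < z () ∧ z () < 1}.Nonempty :=
    ⟨WithLp.toLp 2 fun _ => 1 / 2, by norm_num, by norm_num⟩
  have hsub : {z : Eu Unit | 0 < z () ∧ z () < 1} ⊆ I1 := fun z hz => ⟨hz.1.le, hz.2.le⟩
  exact ENNReal.toReal_pos (lt_of_lt_of_le (ho.measure_pos volume hn) (measure_mono hsub)).ne'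
    I1_compact.measure_lt_top.ne

theorem sq_lim (hM : 0 ≤ M) (hL : Body L) (hb : ∀ y ∈ L, ‖y‖ ≤ ρ) {φ : Eu κ → ℝ}
    (hφ : Continuous φ) :
    Tendsto (fun h : ℝ => ∫ p, φ p.1 * sq L M h p) (𝓝[>] 0)
      (𝓝 ((∫ x, φ x * L.indicator (fun _ => (1 : ℝ)) x) * volume.real I1)) := by
  have hne : L.Nonempty := hL.int.mono interior_subset
  have hLc := hL.cpt.isClosed
  have e1 : (∫ x, φ x * L.indicator (fun _ => (1 : ℝ)) x) * volume.real I1 =
      ∫ p : Eu κ × Eu Unit, (φ p.1 * L.indicator (fun _ => (1 : ℝ)) p.1) *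
        I1.indicator (fun _ => (1 : ℝ)) p.2 := by
    have h1 := integral_prod_mul (μ := (volume : Measure (Eu κ)))
      (ν := (volume : Measure (Eu Unit))) (fun x => φ x * L.indicator (fun _ => (1 : ℝ)) x)
      (I1.indicator fun _ => (1 : ℝ))
    rw [← Measure.volume_eq_prod] at h1
    rw [h1, integral_indicator I1_compact.measurableSet, setIntegral_const, smul_eq_mul, mul_one]
  rw [e1]
  -- majorant
  obtain ⟨B, hB⟩ := (isCompact_closedBall (0 : Eu κ) (ρ + 1)).exists_bound_of_continuousOn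
    hφ.continuousOn
  have hi : Integrable fun p : Eu κ × Eu Unit =>
      ((Metric.closedBall (0 : Eu κ) (ρ + 1)).indicator (fun _ => B) p.1) *
        (I1.indicator (fun _ => (1 : ℝ)) p.2) := by
    have h2 : Integrable ((Metric.closedBall (0 : Eu κ) (ρ + 1)).indicator fun _ => B) :=
      (integrable_indicator_iff Metric.isClosed_closedBall.measurableSet).2
        (integrableOn_const (isCompact_closedBall _ _).measure_lt_top.ne)
    have h3 : Integrable (I1.indicator fun _ => (1 : ℝ)) :=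
      (integrable_indicator_iff I1_compact.measurableSet).2
        (integrableOn_const I1_compact.measure_lt_top.ne)
    exact h2.mul_prod h3
  refine tendsto_integral_filter_of_dominated_convergence (fun p : Eu κ × Eu Unit =>
      ((Metric.closedBall (0 : Eu κ) (ρ + 1)).indicator (fun _ => B) p.1) *
        (I1.indicator (fun _ => (1 : ℝ)) p.2)) ?_ ?_ hi ?_
  · exact Eventually.of_forall fun h => ((hφ.comp continuous_fst).measurable.mul
      (measurable_const.indicator (SQ_meas L M h))).aestronglyMeasurable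
  · have hev : ∀ᶠ h : ℝ in 𝓝[>] 0, 0 < h ∧ M * h ≤ 1 := by
      have h1 : Tendsto (fun h : ℝ => M * h) (𝓝[>] 0) (𝓝 (M * 0)) :=
        (Continuous.tendsto (by fun_prop) 0).mono_left nhdsWithin_le_nhds
      rw [mul_zero] at h1
      filter_upwards [self_mem_nhdsWithin, h1.eventually (gt_mem_nhds one_pos)] with h h2 h3
      exact ⟨h2, le_of_lt h3⟩
    filter_upwards [hev] with h ⟨hh, hh1⟩
    refine Eventually.of_forall fun p => ?_
    by_cases hp : p ∈ SQ L M h
    · have h2 : p.2 ∈ I1 := hp.1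
      have h3 : p.1 ∈ Metric.closedBall (0 : Eu κ) (ρ + 1) := by
        rw [Metric.mem_closedBall, dist_zero_right]
        obtain ⟨y, hy, h4⟩ := hL.cpt.exists_infDist_eq_dist hne p.1
        have h5 := hp.2
        rw [h4, dist_eq_norm] at h5
        have h6 : M * (h * p.2 ()) ≤ 1 := by
          have h7 : M * h * p.2 () ≤ M * h * 1 :=
            mul_le_mul_of_nonneg_left hp.1.2 (mul_nonneg hM hh.le)
          rw [← mul_assoc]
          linarith
        have h8 : ‖p.1‖ ≤ ‖p.1 - y‖ + ‖y‖ := by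
          have := norm_add_le (p.1 - y) y
          rwa [sub_add_cancel] at this
        have := hb y hy
        linarith
      rw [indicator_of_mem h2, indicator_of_mem h3]
      unfold sq
      rw [indicator_of_mem hp, mul_one, mul_one]
      exact hB _ h3
    · unfold sq
      rw [indicator_of_notMem hp, mul_zero, norm_zero]
      have hB0 : 0 ≤ B := (norm_nonneg _).trans (hB 0 (Metric.mem_closedBall_self (by
        obtain ⟨y, hy⟩ := hne
        have := (norm_nonneg y).trans (hb y hy)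
        linarith)))
      exact mul_nonneg (indicator_nonneg (fun _ _ => hB0) _)
        (indicator_nonneg (fun _ _ => zero_le_one) _)
  · refine Eventually.of_forall fun p => ?_
    rw [mul_assoc]
    refine Tendsto.const_mul _ ?_
    by_cases h2 : p.2 ∈ I1
    · by_cases h3 : p.1 ∈ L
      · rw [indicator_of_mem h2, indicator_of_mem h3, mul_one]
        refine tendsto_const_nhds.congr' ?_
        filter_upwards [self_mem_nhdsWithin] with h hh
        unfold sq
        rw [indicator_of_mem]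
        refine ⟨h2, ?_⟩
        rw [Metric.infDist_zero_of_mem h3]
        exact mul_nonneg hM (mul_nonneg (le_of_lt hh) h2.1)
      · rw [indicator_of_notMem h3, zero_mul]
        have h4 : 0 < Metric.infDist p.1 L := (hLc.notMem_iff_infDist_pos hne).1 h3
        have h5 : Tendsto (fun h : ℝ => M * (h * p.2 ())) (𝓝[>] 0) (𝓝 (M * (0 * p.2 ()))) :=
          (Continuous.tendsto (by fun_prop) 0).mono_left nhdsWithin_le_nhds
        rw [zero_mul, mul_zero] at h5
        refine tendsto_const_nhds.congr' ?_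
        filter_upwards [h5.eventually (gt_mem_nhds h4)] with h hh
        unfold sq
        rw [indicator_of_notMem]
        intro h6
        exact absurd h6.2 (not_le.2 hh)
    · rw [indicator_of_notMem h2, mul_zero]
      refine tendsto_const_nhds.congr' (Eventually.of_forall fun h => ?_)
      simp only [sq]
      rw [indicator_of_notMem]
      intro h6
      exact h2 h6.1

/-- **from thin caps to their base** -/
theorem kp_cap {D : ℝ} (hD : 0 ≤ D) (hc : CP Γ L ρ δ R R' M) (hL : Body L)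
    (hone : LinearIsometryEquiv.refl ℝ _ ∈ Γ)
    (H : ∀ h : ℝ, 0 < h → M * h ≤ 1 →
      KP (nm ((Cap Γ L R R' M h).indicator fun _ => (1 : ℝ))) D) :
    KP (nm (L.indicator fun _ => (1 : ℝ))) D := by
  have hne : L.Nonempty := hL.int.mono interior_subset
  have hw := hL.wt
  have hprob := hw.prob
  have hM : 0 ≤ M := by
    have := hc.hM
    have := hc.hR'
    have := hc.Rge
    have := hc.rho
    linarith
  have hbody : ∀ {h : ℝ}, 0 < h → M * h ≤ 1 → Body (Cap Γ L R R' M h) := fun {h} h1 h2 =>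
    cap_body hc hL.cpt hL.cvx hne hone h1 h2
  have hev : ∀ᶠ h : ℝ in 𝓝[>] 0, 0 < h ∧ M * h ≤ 1 := by
    have h1 : Tendsto (fun h : ℝ => M * h) (𝓝[>] 0) (𝓝 (M * 0)) :=
      (Continuous.tendsto (by fun_prop) 0).mono_left nhdsWithin_le_nhds
    rw [mul_zero] at h1
    filter_upwards [self_mem_nhdsWithin, h1.eventually (gt_mem_nhds one_pos)] with h h2 h3
    exact ⟨h2, le_of_lt h3⟩
  have hrep : ∀ {h : ℝ} (hh : 0 < h) (_ : M * h ≤ 1) (φ : Eu (κ ⊕ Unit) → ℝ),
      ∫ y, φ y ∂(nm ((Cap Γ L R R' M h).indicator fun _ => (1 : ℝ))) =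
      (∫ p : Eu κ × Eu Unit, φ (emc κ Unit (-h) (neg_ne_zero.2 hh.ne') p + R • ee κ) * sq L M h p) /
        ∫ p : Eu κ × Eu Unit, sq L M h p := by
    intro h hh hh1 φ
    have := vol_haar κ Unit
    rw [integral_nm (hbody hh hh1).wt.nonneg (hbody hh hh1).wt.meas, integral_quot
      (volume : Measure (Eu κ × Eu Unit)) volume (emc κ Unit (-h) (neg_ne_zero.2 hh.ne'))
      (R • ee κ)]
    simp only [cap_comp hc hL.cpt hne hone hh hh1]
  have hpos : ∀ {h : ℝ}, 0 < h → M * h ≤ 1 → 0 < ∫ p : Eu κ × Eu Unit, sq L M h p := by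
    intro h hh hh1
    have := vol_haar κ Unit
    have h1 := (hbody hh hh1).wt.pos
    rw [← integral_pos_scale (volume : Measure (Eu κ × Eu Unit)) volume
      (emc κ Unit (-h) (neg_ne_zero.2 hh.ne')) (R • ee κ)] at h1
    simpa only [cap_comp hc hL.cpt hne hone hh hh1] using h1
  have hsqi : ∀ {h : ℝ}, 0 < h → M * h ≤ 1 → Integrable fun p : Eu κ × Eu Unit => sq L M h p := by
    intro h hh hh1
    by_contra hni
    have := hpos hh hh1
    rw [integral_undef hni] at this
    exact lt_irrefl _ this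
  have hone' := sq_lim hM hL hc.bdd (φ := fun _ => 1) continuous_const
  simp only [one_mul] at hone'
  have hZ : (∫ x, L.indicator (fun _ => (1 : ℝ)) x) * volume.real I1 ≠ 0 :=
    (mul_pos hw.pos I1_pos).ne'
  refine KP.lift (l := 𝓝[>] (0 : ℝ)) (K := fun _ => κ ⊕ Unit)
    (ν := fun h => nm ((Cap Γ L R R' M h).indicator fun _ => (1 : ℝ)))
    (T := fun _ => (plL : Eu (κ ⊕ Unit) →L[ℝ] Eu κ)) (b := fun _ => 0)
    (J := fun _ => (inL : Eu κ →L[ℝ] Eu (κ ⊕ Unit))) hD
    (hev.mono fun h hh => (hbody hh.1 hh.2).wt.prob)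
    (hev.mono fun h hh => (hbody hh.1 hh.2).wt.int_sq)
    (fun _ => plL_norm) (fun _ => inL_norm) ?_ ?_ (hev.mono fun h hh => H h hh.1 hh.2)
  · refine ⟨?_, ?_, hw.int_sq, ?_⟩
    · filter_upwards [hev] with h hh
      have := (hbody hh.1 hh.2).wt.prob
      exact Measure.isProbabilityMeasure_map (by fun_prop)
    · filter_upwards [hev] with h hh
      have hwa := (hbody hh.1 hh.2).wt
      have hp := hwa.prob
      have hme : Measurable fun y : Eu (κ ⊕ Unit) => plL y - (0 : Eu κ) := by fun_prop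
      rw [integrable_map_measure (by fun_prop) hme.aemeasurable]
      refine hwa.int_sq.mono' (by fun_prop) (Eventually.of_forall fun y => ?_)
      simp only [Function.comp_apply, sub_zero]
      rw [Real.norm_of_nonneg (by positivity)]
      exact pow_le_pow_left₀ (norm_nonneg _) (norm_pl_le y) 2
    · intro φ hφ
      rw [integral_nm hw.nonneg hw.meas]
      have h1 := (sq_lim hM hL hc.bdd hφ.1).div hone' hZ
      rw [mul_div_mul_right _ _ I1_pos.ne'] at h1
      refine h1.congr' ?_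
      filter_upwards [hev] with h hh
      have hme : Measurable fun y : Eu (κ ⊕ Unit) => plL y - (0 : Eu κ) := by fun_prop
      rw [integral_map hme.aemeasurable hφ.1.aestronglyMeasurable, hrep hh.1 hh.2]
      have e2 : ∀ p : Eu κ × Eu Unit,
          plL (emc κ Unit (-h) (neg_ne_zero.2 hh.1.ne') p + R • ee κ) - (0 : Eu κ) = p.1 := by
        intro p
        have h2 : pl (ee κ) = 0 := by
          ext i
          simp [ee]
        rw [sub_zero, plL_apply, pl_add, pl_smul, h2, smul_zero, add_zero]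
        rfl
      simp only [e2]
      rfl
  · intro η hη
    have hsm : ∀ᶠ h : ℝ in 𝓝[>] 0, h ^ 2 ≤ η := by
      have h1 : Tendsto (fun h : ℝ => h ^ 2) (𝓝[>] 0) (𝓝 (0 ^ 2)) :=
        (Continuous.tendsto (by fun_prop) 0).mono_left nhdsWithin_le_nhds
      rw [zero_pow two_ne_zero] at h1
      exact (h1.eventually (gt_mem_nhds hη)).mono fun h hh => hh.le
    filter_upwards [hev, hsm] with h hh hsm
    intro θ hθ
    have hwa := (hbody hh.1 hh.2).wt
    have hp := hwa.prob
    have hcont : Continuous fun y : Eu (κ ⊕ Unit) => ⟪y - inL (plL y), θ⟫_ℝ := by fun_prop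
    rw [← ProbabilityTheory.variance_sub_const hcont.aestronglyMeasurable (R * ⟪ee κ, θ⟫_ℝ)]
    have hcont' : Continuous fun y : Eu (κ ⊕ Unit) =>
      ⟪y - inL (plL y), θ⟫_ℝ - R * ⟪ee κ, θ⟫_ℝ := by fun_prop
    refine (ProbabilityTheory.variance_le_expectation_sq hcont'.aestronglyMeasurable).trans ?_
    have e1 := hrep hh.1 hh.2 (fun y => (⟪y - inL (plL y), θ⟫_ℝ - R * ⟪ee κ, θ⟫_ℝ) ^ 2)
    refine (le_of_eq e1).trans ?_
    rw [div_le_iff₀ (hpos hh.1 hh.2), ← integral_const_mul]
    refine integral_mono_of_nonneg (Eventually.of_forall fun p => mul_nonneg (sq_nonneg _)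
      (indicator_nonneg (fun _ _ => zero_le_one) p)) ((hsqi hh.1 hh.2).const_mul _)
      (Eventually.of_forall fun p => ?_)
    simp only
    by_cases hp' : p ∈ SQ L M h
    · refine mul_le_mul_of_nonneg_right ?_ (indicator_nonneg (fun _ _ => zero_le_one) p)
      have e3 : (emc κ Unit (-h) (neg_ne_zero.2 hh.1.ne') p + R • ee κ) -
          inL (plL (emc κ Unit (-h) (neg_ne_zero.2 hh.1.ne') p + R • ee κ)) =
          (R - h * p.2 ()) • ee κ := by
        have h2 : pl (ee κ) = 0 := by
          ext i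
          simp [ee]
        ext i
        rcases i with i | i
        · rw [plL_apply, pl_add, pl_smul, h2, smul_zero, add_zero, inL_apply]
          simp [emc_apply, ee]
        · rw [plL_apply, pl_add, pl_smul, h2, smul_zero, add_zero, inL_apply]
          simp [emc_apply, ee]
          ring
      rw [e3, real_inner_smul_left, ← sub_mul]
      have h4 : |⟪ee κ, θ⟫_ℝ| ≤ 1 := by
        have := abs_real_inner_le_norm (ee κ) θ
        rwa [norm_ee, hθ, mul_one] at this
      have h5 : (R - h * p.2 () - R) * ⟪ee κ, θ⟫_ℝ = -(h * p.2 () * ⟪ee κ, θ⟫_ℝ) := by ring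
      rw [h5, neg_sq]
      have h6 : |h * p.2 () * ⟪ee κ, θ⟫_ℝ| ≤ h := by
        rw [abs_mul, abs_of_nonneg (mul_nonneg hh.1.le hp'.1.1)]
        calc h * p.2 () * |⟪ee κ, θ⟫_ℝ| ≤ h * 1 * 1 :=
              mul_le_mul (mul_le_mul_of_nonneg_left hp'.1.2 hh.1.le) h4 (abs_nonneg _)
                (by linarith [hh.1])
          _ = h := by ring
      calc (h * p.2 () * ⟪ee κ, θ⟫_ℝ) ^ 2 = |h * p.2 () * ⟪ee κ, θ⟫_ℝ| ^ 2 := (sq_abs _).symm
        _ ≤ h ^ 2 := pow_le_pow_left₀ (abs_nonneg _) h6 2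
        _ ≤ η := hsm
    · have : sq L M h p = 0 := indicator_of_notMem hp' _
      rw [this, mul_zero, mul_zero]

end cap2

end Pool.Agent.H776
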