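import Pool.Agent.H776.Slack2
import Pool.Agent.H776.Avg

/-!
# From centred Gaussian measures on orthants to all Gaussian measures on orthants
-/

set_option autoImplicit false

namespace Pool.Agent.H776

open MeasureTheory Set Filter Topology
open scoped ENNReal InnerProductSpace

/-- densities (up to constants) of centred Gaussian measures conditioned to the positive orthant -/
def CG {κ : Type} [Fintype κ] (g : Eu κ → ℝ) : Prop :=
  ∃ (F : Type) (_ : Fintype F) (A : Eu κ →ₗ[ℝ] Eu F) (c : ℝ), 0 < c ∧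
    Function.Injective A ∧ ∀ y, g y = if ∀ i, 0 ≤ y i then c * Real.exp (-(‖A y‖ ^ 2 / 2)) else 0

section cent

variable {κ F : Type} [Fintype κ] [Fintype F]

open Classical in
/-- the density with centre `t b` -/
noncomputable def gt (A : Eu κ →ₗ[ℝ] Eu F) (b : Eu κ) (y : Eu κ) (t : ℝ) : ℝ :=
  if ∀ i, 0 ≤ y i then Real.exp (-(‖A (y - t • b)‖ ^ 2 / 2)) else 0

variable {A : Eu κ →ₗ[ℝ] Eu F} {b : Eu κ} {q : ℝ}

theorem gt_nonneg (y : Eu κ) (t : ℝ) : 0 ≤ gt A b y t := by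
  unfold gt
  split_ifs
  · exact (Real.exp_pos _).le
  · exact le_rfl

theorem gt_le (y : Eu κ) (t : ℝ) : gt A b y t ≤ Real.exp (-(‖A (y - t • b)‖ ^ 2 / 2)) := by
  unfold gt
  split_ifs
  · exact le_rfl
  · exact (Real.exp_pos _).le

theorem orth_meas : MeasurableSet {y : Eu κ | ∀ i, 0 ≤ y i} := by
  rw [ofPred_forall]
  exact MeasurableSet.iInter fun i => measurableSet_le measurable_const (by fun_prop)

theorem gt_meas : Measurable fun p : Eu κ × ℝ => gt A b p.1 p.2 := by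
  unfold gt
  have hA : Continuous A := A.continuous_of_finiteDimensional
  exact Measurable.ite (orth_meas.preimage measurable_fst) (by fun_prop) measurable_const

theorem exp_le_exp_lin (hq : 0 < q) (hA : ∀ x, q * ‖x‖ ≤ ‖A x‖) (x : Eu κ) :
    Real.exp (-(‖A x‖ ^ 2 / 2)) ≤ Real.exp (1 / (2 * q ^ 2)) * Real.exp (-(1 * ‖x‖)) := by
  rw [← Real.exp_add]
  refine Real.exp_le_exp.2 ?_
  have h1 : (q * ‖x‖) ^ 2 ≤ ‖A x‖ ^ 2 := pow_le_pow_left₀ (by positivity) (hA x) 2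
  have h2 : ‖x‖ ≤ (q * ‖x‖) ^ 2 / 2 + 1 / (2 * q ^ 2) := by
    have h3 : 0 ≤ (q * ‖x‖ - q⁻¹) ^ 2 := sq_nonneg _
    have h4 : (q * ‖x‖ - q⁻¹) ^ 2 = (q * ‖x‖) ^ 2 - 2 * ‖x‖ + 1 / q ^ 2 := by
      field_simp
      ring
    have h5 : 1 / (2 * q ^ 2) = 1 / q ^ 2 / 2 := by field_simp
    rw [h4] at h3
    rw [h5]
    linarith
  linarith

/-- the majorant of the moments -/
noncomputable def Mq (κ : Type) [Fintype κ] (q : ℝ) : ℝ :=
  ∫ y : Eu κ, (1 + ‖y‖ ^ 2) * (Real.exp (1 / (2 * q ^ 2)) * Real.exp (-(1 * ‖y‖)))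

theorem mq_int : Integrable fun y : Eu κ =>
    (1 + ‖y‖ ^ 2) * (Real.exp (1 / (2 * q ^ 2)) * Real.exp (-(1 * ‖y‖))) := by
  have := (Q38.LD.Lim.integ (κ := κ) one_pos).const_mul (Real.exp (1 / (2 * q ^ 2)))
  refine this.congr (Eventually.of_forall fun x => ?_)
  simp only
  ring

theorem mom_shift (hq : 0 < q) (hA : ∀ x, q * ‖x‖ ≤ ‖A x‖) (t : ℝ) :
    Integrable (fun y => (1 + ‖y‖ ^ 2) * Real.exp (-(‖A (y - t • b)‖ ^ 2 / 2))) ∧
    ∫ y, (1 + ‖y‖ ^ 2) * Real.exp (-(‖A (y - t • b)‖ ^ 2 / 2)) ≤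
      2 * (1 + ‖b‖ ^ 2) * Mq κ q * (1 + t ^ 2) := by
  have hAc : Continuous A := A.continuous_of_finiteDimensional
  have hle : ∀ y : Eu κ, (1 + ‖y + t • b‖ ^ 2) * Real.exp (-(‖A y‖ ^ 2 / 2)) ≤
      2 * (1 + ‖b‖ ^ 2) * (1 + t ^ 2) * ((1 + ‖y‖ ^ 2) *
        (Real.exp (1 / (2 * q ^ 2)) * Real.exp (-(1 * ‖y‖)))) := by
    intro y
    have h1 : 1 + ‖y + t • b‖ ^ 2 ≤ 2 * (1 + ‖b‖ ^ 2) * (1 + t ^ 2) * (1 + ‖y‖ ^ 2) := by
      have h2 : ‖y + t • b‖ ≤ ‖y‖ + |t| * ‖b‖ := by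
        refine (norm_add_le _ _).trans ?_
        rw [norm_smul, Real.norm_eq_abs]
      have h3 := pow_le_pow_left₀ (norm_nonneg _) h2 2
      have h4 : (‖y‖ + |t| * ‖b‖) ^ 2 ≤ 2 * ‖y‖ ^ 2 + 2 * (t ^ 2 * ‖b‖ ^ 2) := by
        rw [← sq_abs t]
        nlinarith [sq_nonneg (‖y‖ - |t| * ‖b‖)]
      have k1 : 0 ≤ ‖y‖ ^ 2 := sq_nonneg _
      have k2 : 0 ≤ ‖b‖ ^ 2 := sq_nonneg _
      have k3 : 0 ≤ t ^ 2 := sq_nonneg _
      nlinarith [mul_nonneg k1 k2, mul_nonneg k1 k3, mul_nonneg k2 k3,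
        mul_nonneg (mul_nonneg k1 k2) k3]
    calc (1 + ‖y + t • b‖ ^ 2) * Real.exp (-(‖A y‖ ^ 2 / 2))
        ≤ (2 * (1 + ‖b‖ ^ 2) * (1 + t ^ 2) * (1 + ‖y‖ ^ 2)) *
          (Real.exp (1 / (2 * q ^ 2)) * Real.exp (-(1 * ‖y‖))) :=
          mul_le_mul h1 (exp_le_exp_lin hq hA y) (Real.exp_pos _).le (by positivity)
      _ = _ := by ring
  have hi : Integrable fun y : Eu κ => (1 + ‖y + t • b‖ ^ 2) * Real.exp (-(‖A y‖ ^ 2 / 2)) := by
    refine (mq_int (κ := κ) (q := q)).const_mul (2 * (1 + ‖b‖ ^ 2) * (1 + t ^ 2)) |>.mono'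
      (by fun_prop) (Eventually.of_forall fun y => ?_)
    rw [Real.norm_of_nonneg (by positivity)]
    exact hle y
  have e : ∀ y : Eu κ, (1 + ‖y‖ ^ 2) * Real.exp (-(‖A (y - t • b)‖ ^ 2 / 2)) =
      (fun y => (1 + ‖y + t • b‖ ^ 2) * Real.exp (-(‖A y‖ ^ 2 / 2))) (y - t • b) := by
    intro y
    simp only [sub_add_cancel]
  refine ⟨?_, ?_⟩
  · simp only [e]
    exact hi.comp_sub_right (t • b)
  · simp only [e]
    rw [integral_sub_right_eq_self (fun y => (1 + ‖y + t • b‖ ^ 2) * Real.exp (-(‖A y‖ ^ 2 / 2)))]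
    calc ∫ y : Eu κ, (1 + ‖y + t • b‖ ^ 2) * Real.exp (-(‖A y‖ ^ 2 / 2))
        ≤ ∫ y : Eu κ, 2 * (1 + ‖b‖ ^ 2) * (1 + t ^ 2) * ((1 + ‖y‖ ^ 2) *
          (Real.exp (1 / (2 * q ^ 2)) * Real.exp (-(1 * ‖y‖)))) :=
          integral_mono hi (mq_int.const_mul _) hle
      _ = _ := by
          rw [integral_const_mul, Mq]
          ring

theorem gt_mom_int (hq : 0 < q) (hA : ∀ x, q * ‖x‖ ≤ ‖A x‖) (t : ℝ) :
    Integrable (fun y => (1 + ‖y‖ ^ 2) * gt A b y t) := by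
  refine (mom_shift (b := b) hq hA t).1.mono' ?_ (Eventually.of_forall fun y => ?_)
  · exact ((by fun_prop : Measurable fun y : Eu κ => 1 + ‖y‖ ^ 2).mul
      (gt_meas.comp (measurable_id.prodMk measurable_const))).aestronglyMeasurable
  · rw [Real.norm_of_nonneg (mul_nonneg (by positivity) (gt_nonneg y t))]
    exact mul_le_mul_of_nonneg_left (gt_le y t) (by positivity)

theorem gt_mom_le (hq : 0 < q) (hA : ∀ x, q * ‖x‖ ≤ ‖A x‖) (t : ℝ) :
    ∫ y, (1 + ‖y‖ ^ 2) * gt A b y t ≤ 2 * (1 + ‖b‖ ^ 2) * Mq κ q * (1 + t ^ 2) := by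
  refine le_trans ?_ (mom_shift (b := b) hq hA t).2
  exact integral_mono (gt_mom_int hq hA t) (mom_shift (b := b) hq hA t).1
    fun y => mul_le_mul_of_nonneg_left (gt_le y t) (by positivity)

/-- the integrals -/
noncomputable def Ph (A : Eu κ →ₗ[ℝ] Eu F) (b : Eu κ) (φ : Eu κ → ℝ) (t : ℝ) : ℝ :=
  ∫ y, φ y * gt A b y t

theorem ph_le (hq : 0 < q) (hA : ∀ x, q * ‖x‖ ≤ ‖A x‖) {φ : Eu κ → ℝ} {B : ℝ}
    (hB : ∀ x, |φ x| ≤ B * (1 + ‖x‖ ^ 2)) (t : ℝ) :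
    |Ph A b φ t| ≤ B * (2 * (1 + ‖b‖ ^ 2) * Mq κ q) * (1 + t ^ 2) := by
  have hB0 : 0 ≤ B := by
    have := (abs_nonneg _).trans (hB 0)
    simpa using this
  unfold Ph
  calc |∫ y, φ y * gt A b y t| ≤ ∫ y, B * ((1 + ‖y‖ ^ 2) * gt A b y t) := by
        rw [← Real.norm_eq_abs]
        refine norm_integral_le_of_norm_le ((gt_mom_int hq hA t).const_mul _)
          (Eventually.of_forall fun y => ?_)
        rw [norm_mul, Real.norm_of_nonneg (gt_nonneg y t), Real.norm_eq_abs, ← mul_assoc]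
        exact mul_le_mul_of_nonneg_right (hB y) (gt_nonneg y t)
    _ = B * ∫ y, (1 + ‖y‖ ^ 2) * gt A b y t := integral_const_mul _ _
    _ ≤ B * (2 * (1 + ‖b‖ ^ 2) * Mq κ q * (1 + t ^ 2)) :=
        mul_le_mul_of_nonneg_left (gt_mom_le hq hA t) hB0
    _ = _ := by ring

theorem ph_cont (hq : 0 < q) (hA : ∀ x, q * ‖x‖ ≤ ‖A x‖) {φ : Eu κ → ℝ} (hφ : Grow φ) :
    Continuous (Ph A b φ) := by
  obtain ⟨hc, B, hB⟩ := hφ
  have hAc : Continuous A := A.continuous_of_finiteDimensional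
  have hB0 : 0 ≤ B := by
    have := (abs_nonneg _).trans (hB 0)
    simpa using this
  rw [continuous_iff_continuousAt]
  intro t0
  unfold Ph
  refine continuousAt_of_dominated (bound := fun y : Eu κ => B * Real.exp ((|t0| + 1) * ‖b‖) *
      ((1 + ‖y‖ ^ 2) * (Real.exp (1 / (2 * q ^ 2)) * Real.exp (-(1 * ‖y‖)))))
    (Eventually.of_forall fun t => ?_) ?_ (mq_int.const_mul _) (Eventually.of_forall fun y => ?_)
  · exact (hc.measurable.mul (gt_meas.comp (measurable_id.prodMk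
      measurable_const))).aestronglyMeasurable
  · filter_upwards [Metric.ball_mem_nhds t0 one_pos] with t ht
    refine Eventually.of_forall fun y => ?_
    rw [norm_mul, Real.norm_of_nonneg (gt_nonneg y t), Real.norm_eq_abs]
    rw [Metric.mem_ball, Real.dist_eq] at ht
    have h1 : |t| ≤ |t0| + 1 := by
      have := abs_sub_abs_le_abs_sub t t0
      linarith
    have h2 : gt A b y t ≤ Real.exp ((|t0| + 1) * ‖b‖) *
        (Real.exp (1 / (2 * q ^ 2)) * Real.exp (-(1 * ‖y‖))) := by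
      refine (gt_le y t).trans ((exp_le_exp_lin hq hA _).trans ?_)
      rw [← Real.exp_add, ← Real.exp_add, ← Real.exp_add]
      refine Real.exp_le_exp.2 ?_
      have h3 : ‖y‖ ≤ ‖y - t • b‖ + |t| * ‖b‖ := by
        have h4 := norm_add_le (y - t • b) (t • b)
        rw [sub_add_cancel, norm_smul, Real.norm_eq_abs] at h4
        exact h4
      have h5 : |t| * ‖b‖ ≤ (|t0| + 1) * ‖b‖ := mul_le_mul_of_nonneg_right h1 (norm_nonneg _)
      linarith
    calc |φ y| * gt A b y t ≤ (B * (1 + ‖y‖ ^ 2)) * (Real.exp ((|t0| + 1) * ‖b‖) *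
        (Real.exp (1 / (2 * q ^ 2)) * Real.exp (-(1 * ‖y‖)))) :=
          mul_le_mul (hB y) h2 (gt_nonneg y t) (by positivity)
      _ = _ := by ring
  · have h1 : Continuous fun t => gt A b y t := by
      unfold gt
      split_ifs
      · fun_prop
      · exact continuous_const
    exact (continuous_const.mul h1).continuousAt

theorem exp_int (hq : 0 < q) (hA : ∀ x, q * ‖x‖ ≤ ‖A x‖) :
    Integrable fun y : Eu κ => Real.exp (-(‖A y‖ ^ 2 / 2)) := by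
  have hAc : Continuous A := A.continuous_of_finiteDimensional
  have h1 := (mom_shift (b := (0 : Eu κ)) hq hA 0).1
  simp only [smul_zero, sub_zero] at h1
  refine h1.mono' (by fun_prop) (Eventually.of_forall fun y => ?_)
  rw [Real.norm_of_nonneg (Real.exp_pos _).le]
  nlinarith [mul_nonneg (sq_nonneg ‖y‖) (Real.exp_pos (-(‖A y‖ ^ 2 / 2))).le]

theorem ph_one_le (hq : 0 < q) (hA : ∀ x, q * ‖x‖ ≤ ‖A x‖) (t : ℝ) :
    Ph A b (fun _ => 1) t ≤ ∫ y : Eu κ, Real.exp (-(‖A y‖ ^ 2 / 2)) := by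
  unfold Ph
  simp only [one_mul]
  have hi := (exp_int hq hA).comp_sub_right (t • b)
  calc ∫ y, gt A b y t ≤ ∫ y : Eu κ, Real.exp (-(‖A (y - t • b)‖ ^ 2 / 2)) :=
        integral_mono_of_nonneg (Eventually.of_forall fun y => gt_nonneg y t) hi
          (Eventually.of_forall fun y => gt_le y t)
    _ = _ := integral_sub_right_eq_self (fun y : Eu κ => Real.exp (-(‖A y‖ ^ 2 / 2))) (t • b)

theorem ph_one_nonneg (t : ℝ) : 0 ≤ Ph A b (fun _ => 1) t :=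
  integral_nonneg fun y => by
    simp only [one_mul]
    exact gt_nonneg y t

end cent

end Pool.Agent.H776
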