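import Pool.Agent.H776.Cent

/-!
# From centred Gaussian measures on orthants to all Gaussian measures on orthants, second part
-/

set_option autoImplicit false

namespace Pool.Agent.H776

open MeasureTheory Set Filter Topology
open scoped ENNReal InnerProductSpace

section cent2

variable {κ F : Type} [Fintype κ] [Fintype F]

theorem vol_haar' (κ : Type) [Fintype κ] (n : ℕ) :
    (volume : Measure (Eu κ × (Fin n → ℝ))).IsAddHaarMeasure := by
  have h1 : (volume : Measure (Fin n → ℝ)).IsAddHaarMeasure := by infer_instance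
  have h3 : ((volume : Measure (Eu κ)).prod (volume : Measure (Fin n → ℝ))).IsAddHaarMeasure :=
    Measure.prod.instIsAddHaarMeasure _ _
  exact h3

/-- scaling of the second block -/
noncomputable def en (κ : Type) [Fintype κ] (n : ℕ) (η : ℝ) (hη : η ≠ 0) :
    (Eu κ × (Fin n → ℝ)) ≃ₗ[ℝ] Eu (κ ⊕ Fin n) where
  toFun p := mk p.1 (WithLp.toLp 2 fun j => η * p.2 j)
  invFun y := (pl y, fun j => η⁻¹ * pr y j)
  left_inv p := by
    refine Prod.ext rfl ?_
    funext j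
    simp only [pr_mk]
    field_simp
  right_inv y := by
    ext i
    rcases i with i | j
    · rfl
    · simp only [mk_inr, pr_apply]
      field_simp
  map_add' p q := by
    ext i
    rcases i with i | j
    · rfl
    · simp only [mk_inr, Prod.snd_add, Pi.add_apply, PiLp.add_apply]
      ring
  map_smul' r p := by
    ext i
    rcases i with i | j
    · rfl
    · simp only [mk_inr, Prod.smul_snd, Pi.smul_apply, PiLp.smul_apply, smul_eq_mul,
        RingHom.id_apply]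
      ring

/-- the same, continuous -/
noncomputable def enc (κ : Type) [Fintype κ] (n : ℕ) (η : ℝ) (hη : η ≠ 0) :
    (Eu κ × (Fin n → ℝ)) ≃L[ℝ] Eu (κ ⊕ Fin n) := (en κ n η hη).toContinuousLinearEquiv

theorem enc_apply (n : ℕ) (η : ℝ) (hη : η ≠ 0) (p : Eu κ × (Fin n → ℝ)) :
    enc κ n η hη p = mk p.1 (WithLp.toLp 2 fun j => η * p.2 j) := rfl

/-- the quadratic form -/
noncomputable def AC (A : Eu κ →ₗ[ℝ] Eu F) (b : Eu κ) (n : ℕ) :
    Eu (κ ⊕ Fin n) →ₗ[ℝ] Eu (F ⊕ Fin n) where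
  toFun Y := mk (A (pl Y - (r0 * ∑ i, pr Y i) • b)) ((n : ℝ) • pr Y)
  map_add' Y Z := by
    have e1 : pl (Y + Z) = pl Y + pl Z := rfl
    have e2 : ∀ i, pr (Y + Z) i = pr Y i + pr Z i := fun i => rfl
    have e3 : pl (Y + Z) - (r0 * ∑ i, pr (Y + Z) i) • b =
        (pl Y - (r0 * ∑ i, pr Y i) • b) + (pl Z - (r0 * ∑ i, pr Z i) • b) := by
      simp only [e1, e2, Finset.sum_add_distrib, mul_add, add_smul]
      abel
    ext i
    rcases i with i | j
    · rw [e3, map_add]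
      rfl
    · simp only [mk_inr, PiLp.smul_apply, PiLp.add_apply, smul_eq_mul, e2]
      ring
  map_smul' r Y := by
    have e1 : pl (r • Y) = r • pl Y := rfl
    have e2 : ∀ i, pr (r • Y) i = r * pr Y i := fun i => rfl
    have e3 : pl (r • Y) - (r0 * ∑ i, pr (r • Y) i) • b =
        r • (pl Y - (r0 * ∑ i, pr Y i) • b) := by
      simp only [e1, e2, ← Finset.mul_sum, smul_sub, smul_smul]
      congr 2
      ring
    ext i
    rcases i with i | j
    · rw [e3, map_smul]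
      rfl
    · simp only [mk_inr, PiLp.smul_apply, smul_eq_mul, e2, RingHom.id_apply]
      ring

theorem AC_inj {A : Eu κ →ₗ[ℝ] Eu F} (hA : Function.Injective A) (b : Eu κ) {n : ℕ} (hn : n ≠ 0) :
    Function.Injective (AC A b n) := by
  have hn' : (n : ℝ) ≠ 0 := by exact_mod_cast hn
  rw [← LinearMap.ker_eq_bot, LinearMap.ker_eq_bot']
  intro Y hY
  have h1 : pr (AC A b n Y) = 0 := by rw [hY]; rfl
  have h2 : (n : ℝ) • pr Y = 0 := h1
  have h3 : pr Y = 0 := (smul_eq_zero.1 h2).resolve_left hn'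
  have h4 : pl (AC A b n Y) = 0 := by rw [hY]; rfl
  have h5 : A (pl Y - (r0 * ∑ i, pr Y i) • b) = 0 := h4
  rw [h3] at h5
  simp only [PiLp.zero_apply, Finset.sum_const_zero, mul_zero, zero_smul, sub_zero] at h5
  have h6 : pl Y = 0 := hA (by rw [h5, map_zero])
  rw [← mk_pl_pr Y, h3, h6]
  ext i
  rcases i with i | i <;> rfl

open Classical in
/-- the centred density -/
noncomputable def gC (A : Eu κ →ₗ[ℝ] Eu F) (b : Eu κ) (n : ℕ) (Y : Eu (κ ⊕ Fin n)) : ℝ :=
  if ∀ i, 0 ≤ Y i then 1 * Real.exp (-(‖AC A b n Y‖ ^ 2 / 2)) else 0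

theorem gC_cg {A : Eu κ →ₗ[ℝ] Eu F} (hA : Function.Injective A) (b : Eu κ) {n : ℕ} (hn : n ≠ 0) :
    CG (gC A b n) := by
  refine ⟨F ⊕ Fin n, inferInstance, AC A b n, 1, one_pos, AC_inj hA b hn, fun y => ?_⟩
  unfold gC
  congr

theorem gC_nonneg {A : Eu κ →ₗ[ℝ] Eu F} {b : Eu κ} {n : ℕ} (y : Eu (κ ⊕ Fin n)) :
    0 ≤ gC A b n y := by
  unfold gC
  split_ifs
  · positivity
  · exact le_rfl

theorem gC_meas {A : Eu κ →ₗ[ℝ] Eu F} {b : Eu κ} {n : ℕ} : Measurable (gC A b n) := by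
  unfold gC
  have hA : Continuous (AC A b n) := (AC A b n).continuous_of_finiteDimensional
  exact Measurable.ite orth_meas (by fun_prop) measurable_const

theorem ww_eq {n : ℕ} (z : Fin n → ℝ) :
    ww w1 z = (open Classical in if ∀ i, 0 ≤ z i then Real.exp (-((∑ i, z i ^ 2) / 2)) else 0) := by
  classical
  unfold ww
  split_ifs with h
  · have : ∀ i ∈ (Finset.univ : Finset (Fin n)), w1 (z i) = Real.exp (-(z i ^ 2 / 2)) := fun i _ => by
      unfold w1
      rw [if_pos (h i)]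
    rw [Finset.prod_congr rfl this, ← Real.exp_sum, Finset.sum_neg_distrib, ← Finset.sum_div]
  · push Not at h
    obtain ⟨i, hi⟩ := h
    refine Finset.prod_eq_zero (Finset.mem_univ i) ?_
    unfold w1
    rw [if_neg (not_le.2 hi)]

theorem inv_ne {n : ℕ} (hn : n ≠ 0) : ((n : ℝ)⁻¹) ≠ 0 := inv_ne_zero (by exact_mod_cast hn)

theorem gC_comp {A : Eu κ →ₗ[ℝ] Eu F} {b : Eu κ} {n : ℕ} (hn : n ≠ 0) (p : Eu κ × (Fin n → ℝ)) :
    gC A b n (enc κ n (n : ℝ)⁻¹ (inv_ne hn) p) = gt A b p.1 (tt p.2) * ww w1 p.2 := by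
  classical
  have hn' : (n : ℝ) ≠ 0 := by exact_mod_cast hn
  have hn0 : 0 < (n : ℝ) := by positivity
  rw [ww_eq, enc_apply]
  unfold gC gt
  have e1 : (∀ i, 0 ≤ (mk p.1 (WithLp.toLp 2 fun j => (n : ℝ)⁻¹ * p.2 j) : Eu (κ ⊕ Fin n)) i) ↔
      ((∀ i, 0 ≤ p.1 i) ∧ ∀ j, 0 ≤ p.2 j) := by
    rw [Sum.forall]
    refine and_congr Iff.rfl (forall_congr' fun j => ?_)
    rw [mk_inr]
    exact mul_nonneg_iff_of_pos_left (inv_pos.2 hn0)
  have e2 : AC A b n (mk p.1 (WithLp.toLp 2 fun j => (n : ℝ)⁻¹ * p.2 j)) =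
      mk (A (p.1 - tt p.2 • b)) (WithLp.toLp 2 p.2) := by
    change mk (A (p.1 - (r0 * ∑ i, (n : ℝ)⁻¹ * p.2 i) • b)) ((n : ℝ) •
      (WithLp.toLp 2 fun j => (n : ℝ)⁻¹ * p.2 j)) = _
    rw [← Finset.mul_sum]
    congr 1
    ext j
    simp only [PiLp.smul_apply, smul_eq_mul]
    field_simp
  by_cases h1 : ∀ i, 0 ≤ p.1 i
  · by_cases h2 : ∀ j, 0 ≤ p.2 j
    · rw [if_pos (e1.2 ⟨h1, h2⟩), if_pos h1, if_pos h2, e2, norm_mk_sq, ← Real.exp_add, one_mul]
      congr 1
      rw [EuclideanSpace.norm_sq_eq (WithLp.toLp 2 p.2)]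
      simp only [Real.norm_eq_abs, sq_abs]
      ring
    · rw [if_neg fun h => h2 (e1.1 h).2, if_neg h2, mul_zero]
  · rw [if_neg fun h => h1 (e1.1 h).1, if_neg h1, zero_mul]

variable {A : Eu κ →ₗ[ℝ] Eu F} {b : Eu κ} {q : ℝ}

/-- Fubini -/
theorem fub (hq : 0 < q) (hA : ∀ x, q * ‖x‖ ≤ ‖A x‖) {n : ℕ} {φ : Eu κ → ℝ}
    (hφ : Grow φ) {ψ : (Fin n → ℝ) → ℝ} (hψ : Continuous ψ) {G : ℝ → ℝ}
    (hG : ∀ t, ∫ y, |φ y| * gt A b y t ≤ G t)
    (hi : Integrable fun z : Fin n → ℝ => G (tt z) * (|ψ z| * ww w1 z)) :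
    Integrable (fun p : Eu κ × (Fin n → ℝ) =>
      φ p.1 * ψ p.2 * (gt A b p.1 (tt p.2) * ww w1 p.2)) ∧
    ∫ p : Eu κ × (Fin n → ℝ), φ p.1 * ψ p.2 * (gt A b p.1 (tt p.2) * ww w1 p.2) =
      ∫ z : Fin n → ℝ, ψ z * (Ph A b φ (tt z) * ww w1 z) := by
  obtain ⟨hc, B, hB⟩ := hφ
  have hm : Measurable fun p : Eu κ × (Fin n → ℝ) =>
      φ p.1 * ψ p.2 * (gt A b p.1 (tt p.2) * ww w1 p.2) := by
    refine Measurable.mul (Measurable.mul (hc.measurable.comp measurable_fst)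
      (hψ.measurable.comp measurable_snd)) (Measurable.mul ?_ (ww_meas.comp measurable_snd))
    exact gt_meas.comp (measurable_fst.prodMk (tt_cont.measurable.comp measurable_snd))
  have hB0 : 0 ≤ B := by
    have := (abs_nonneg _).trans (hB 0)
    simpa using this
  have hφi : ∀ t, Integrable fun y => |φ y| * gt A b y t := fun t => by
    refine ((gt_mom_int (b := b) hq hA t).const_mul B).mono'
      (hc.abs.measurable.mul (gt_meas.comp (measurable_id.prodMk
        measurable_const))).aestronglyMeasurable (Eventually.of_forall fun y => ?_)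
    rw [Real.norm_of_nonneg (mul_nonneg (abs_nonneg _) (gt_nonneg y t)), ← mul_assoc]
    exact mul_le_mul_of_nonneg_right (hB y) (gt_nonneg y t)
  have hint : Integrable (fun p : Eu κ × (Fin n → ℝ) =>
      φ p.1 * ψ p.2 * (gt A b p.1 (tt p.2) * ww w1 p.2))
      ((volume : Measure (Eu κ)).prod (volume : Measure (Fin n → ℝ))) := by
    rw [integrable_prod_iff' hm.aestronglyMeasurable]
    have hpt : ∀ (y : Eu κ) (z : Fin n → ℝ), ‖φ y * ψ z * (gt A b y (tt z) * ww w1 z)‖ =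
        (|ψ z| * ww w1 z) * (|φ y| * gt A b y (tt z)) := by
      intro y z
      rw [norm_mul, norm_mul, norm_mul, Real.norm_of_nonneg (gt_nonneg y _),
        Real.norm_of_nonneg (ww_nonneg z), Real.norm_eq_abs, Real.norm_eq_abs]
      ring
    refine ⟨Eventually.of_forall fun z => ?_, ?_⟩
    · refine ((hφi (tt z)).const_mul (|ψ z| * ww w1 z)).mono' ?_
        (Eventually.of_forall fun y => (hpt y z).le)
      exact (hm.comp (measurable_id.prodMk measurable_const)).aestronglyMeasurable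
    · refine hi.mono' ?_ (Eventually.of_forall fun z => ?_)
      · exact (hm.norm.stronglyMeasurable.integral_prod_left').aestronglyMeasurable
      · rw [Real.norm_of_nonneg (integral_nonneg fun y => norm_nonneg _)]
        have h0 : 0 ≤ |ψ z| * ww w1 z := mul_nonneg (abs_nonneg _) (ww_nonneg z)
        calc ∫ y, ‖φ y * ψ z * (gt A b y (tt z) * ww w1 z)‖
            = ∫ y, (|ψ z| * ww w1 z) * (|φ y| * gt A b y (tt z)) :=
              integral_congr_ae (Eventually.of_forall fun y => hpt y z)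
          _ = (|ψ z| * ww w1 z) * ∫ y, |φ y| * gt A b y (tt z) := integral_const_mul _ _
          _ ≤ (|ψ z| * ww w1 z) * G (tt z) := mul_le_mul_of_nonneg_left (hG _) h0
          _ = _ := by ring
  refine ⟨hint, ?_⟩
  have e := integral_prod_symm _ hint
  rw [← Measure.volume_eq_prod] at e
  rw [e]
  refine integral_congr_ae (Eventually.of_forall fun z => ?_)
  simp only
  rw [Ph, ← integral_mul_const, ← integral_const_mul]
  refine integral_congr_ae (Eventually.of_forall fun y => ?_)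
  simp only
  ring

theorem fub1 (hq : 0 < q) (hA : ∀ x, q * ‖x‖ ≤ ‖A x‖) {n : ℕ} (hn : n ≠ 0) {φ : Eu κ → ℝ}
    (hφ : Grow φ) :
    ∫ p : Eu κ × (Fin n → ℝ), φ p.1 * (gt A b p.1 (tt p.2) * ww w1 p.2) =
      ∫ z : Fin n → ℝ, Ph A b φ (tt z) * ww w1 z := by
  obtain ⟨hc, B, hB⟩ := hφ
  have h1 := (fub (A := A) (b := b) hq hA (n := n) ⟨hc, B, hB⟩ (ψ := fun _ => 1) continuous_const
    (G := Ph A b fun y => |φ y|) (fun t => le_rfl) ?_).2
  · simpa only [mul_one, one_mul] using h1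
  · have h2 : ∀ x, |(fun y => |φ y|) x| ≤ B * (1 + ‖x‖ ^ 2) := fun x => by
      rw [abs_abs]; exact hB x
    have h3 := grow_int hn (ph_cont (A := A) (b := b) hq hA (φ := fun y => |φ y|) ⟨hc.abs, B, h2⟩)
      (ph_le hq hA h2)
    simpa using h3

theorem fub2 (hq : 0 < q) (hA : ∀ x, q * ‖x‖ ≤ ‖A x‖) {n : ℕ} :
    Integrable (fun p : Eu κ × (Fin n → ℝ) =>
      (∑ i, p.2 i ^ 2) * (gt A b p.1 (tt p.2) * ww w1 p.2)) ∧
    ∫ p : Eu κ × (Fin n → ℝ), (∑ i, p.2 i ^ 2) * (gt A b p.1 (tt p.2) * ww w1 p.2) ≤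
      (∫ y : Eu κ, Real.exp (-(‖A y‖ ^ 2 / 2))) *
        (n * ((∫ r, r ^ 2 * w1 r) * (∫ r, w1 r) ^ (n - 1))) := by
  obtain ⟨s1, s2⟩ := sum_sq_int (n := n)
  have hnn : ∀ z : Fin n → ℝ, 0 ≤ ∑ i, z i ^ 2 := fun z => Finset.sum_nonneg fun i _ => sq_nonneg _
  obtain ⟨h1, h2⟩ := fub (A := A) (b := b) hq hA (n := n) (φ := fun _ => 1)
    (grow_bdd continuous_const (B := 1) (by simp)) (ψ := fun z => ∑ i, z i ^ 2) (by fun_prop)
    (G := fun _ => ∫ y : Eu κ, Real.exp (-(‖A y‖ ^ 2 / 2))) (fun t => by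
      have h5 := ph_one_le (A := A) (b := b) hq hA t
      unfold Ph at h5
      simpa only [abs_one] using h5) (by
      refine (s1.const_mul (∫ y : Eu κ, Real.exp (-(‖A y‖ ^ 2 / 2)))).congr
        (Eventually.of_forall fun z => ?_)
      simp only
      rw [abs_of_nonneg (hnn z)])
  simp only [one_mul] at h1 h2
  refine ⟨h1, ?_⟩
  rw [h2, ← s2, ← integral_const_mul]
  refine integral_mono_of_nonneg (Eventually.of_forall fun z => mul_nonneg (hnn z)
    (mul_nonneg (ph_one_nonneg _) (ww_nonneg z))) (s1.const_mul _) (Eventually.of_forall fun z => ?_)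
  simp only
  calc (∑ i, z i ^ 2) * (Ph A b (fun _ => 1) (tt z) * ww w1 z)
      = Ph A b (fun _ => 1) (tt z) * ((∑ i, z i ^ 2) * ww w1 z) := by ring
    _ ≤ _ := mul_le_mul_of_nonneg_right (ph_one_le hq hA _) (mul_nonneg (hnn z) (ww_nonneg z))

theorem gC_rep {n : ℕ} (hn : n ≠ 0) (φ : Eu (κ ⊕ Fin n) → ℝ) :
    ∫ y, φ y ∂(nm (gC A b n)) =
      (∫ p : Eu κ × (Fin n → ℝ), φ (enc κ n (n : ℝ)⁻¹ (inv_ne hn) p) *
        (gt A b p.1 (tt p.2) * ww w1 p.2)) /
      ∫ p : Eu κ × (Fin n → ℝ), gt A b p.1 (tt p.2) * ww w1 p.2 := by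
  have := vol_haar' κ n
  rw [integral_nm gC_nonneg gC_meas, integral_quot (volume : Measure (Eu κ × (Fin n → ℝ))) volume
    (enc κ n (n : ℝ)⁻¹ (inv_ne hn)) 0]
  simp only [add_zero, gC_comp hn]

theorem exists_q (hA : Function.Injective A) : ∃ q : ℝ, 0 < q ∧ ∀ x, q * ‖x‖ ≤ ‖A x‖ := by
  obtain ⟨K, hK0, hK⟩ := A.exists_antilipschitzWith (LinearMap.ker_eq_bot.2 hA)
  refine ⟨(K : ℝ)⁻¹, by positivity, fun x => ?_⟩
  have h1 := hK.le_mul_dist x 0
  rw [map_zero, dist_zero_right, dist_zero_right] at h1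
  rw [inv_mul_le_iff₀ (by exact_mod_cast hK0)]
  exact h1

theorem wt_cg {g : Eu κ → ℝ} (hg : CG g) (hpos : 0 < ∫ x, g x) : Wt g := by
  obtain ⟨F, _, A, c, hc, hA, hge⟩ := hg
  have hAc : Continuous A := A.continuous_of_finiteDimensional
  obtain ⟨q, hq, hqA⟩ := exists_q hA
  have h0 : ∀ x, 0 ≤ g x := fun x => by
    rw [hge]
    split_ifs
    · positivity
    · exact le_rfl
  have hm : Measurable g := by
    have : g = fun y => open Classical in
        if ∀ i, 0 ≤ y i then c * Real.exp (-(‖A y‖ ^ 2 / 2)) else 0 := by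
      funext y
      rw [hge]
    rw [this]
    exact Measurable.ite orth_meas (by fun_prop) measurable_const
  refine ⟨h0, hm, hpos, ?_⟩
  have h1 := (mom_shift (A := A) (b := (0 : Eu κ)) hq hqA 0).1
  simp only [smul_zero, sub_zero] at h1
  refine (h1.const_mul c).mono' ((by fun_prop : Measurable fun y : Eu κ => 1 + ‖y‖ ^ 2).mul
    hm).aestronglyMeasurable (Eventually.of_forall fun y => ?_)
  rw [Real.norm_of_nonneg (mul_nonneg (by positivity) (h0 y)), hge]
  split_ifs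
  · exact le_of_eq (by ring)
  · rw [mul_zero]; positivity

/-- **from centred to arbitrary Gaussian measures on orthants** -/
theorem kp_ng {D : ℝ} (hD : 0 ≤ D)
    (H : ∀ (κ' : Type) [Fintype κ'] (g : Eu κ' → ℝ), CG g → Wt g → KP (nm g) D)
    {g : Eu κ → ℝ} (hg : NG g) (hw : Wt g) : KP (nm g) D := by
  obtain ⟨F, _, A, b, c, hc, hA, hge⟩ := hg
  obtain ⟨q, hq, hqA⟩ := exists_q hA
  have hge' : g = fun y => c * gt A b y 1 := by
    funext y
    rw [hge]
    unfold gt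
    rw [one_smul]
    split_ifs <;> simp
  have hnm : nm g = nm fun y => gt A b y 1 := by rw [hge', nm_const_mul hc.ne']
  have hPh : 0 < Ph A b (fun _ => 1) 1 := by
    have h1 := hw.pos
    rw [hge', integral_const_mul] at h1
    have h2 := pos_of_mul_pos_right h1 hc.le
    unfold Ph
    simpa using h2
  have hgm : Measurable fun y => gt A b y 1 := gt_meas.comp (measurable_id.prodMk measurable_const)
  have hprob := hw.prob
  have hI := w1_pos
  set I := ∫ r, w1 r with hIdef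
  have grow1 : Grow fun _ : Eu κ => (1 : ℝ) := grow_bdd continuous_const (B := 1) (by simp)
  -- limits of averages
  have hav : ∀ φ : Eu κ → ℝ, Grow φ → Tendsto (fun n : ℕ =>
      (∫ p : Eu κ × (Fin (n + 1) → ℝ), φ p.1 * (gt A b p.1 (tt p.2) * ww w1 p.2)) / I ^ (n + 1))
      atTop (𝓝 (Ph A b φ 1)) := by
    intro φ hφ
    obtain ⟨hc', B, hB⟩ := hφ
    have h1 := avg_tendsto (ph_cont (A := A) (b := b) hq hqA ⟨hc', B, hB⟩) (ph_le hq hqA hB)
    refine h1.congr fun n => ?_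
    rw [fub1 hq hqA (Nat.succ_ne_zero n) ⟨hc', B, hB⟩]
  have hZlim := hav _ grow1
  simp only [one_mul] at hZlim
  have hZev : ∀ᶠ n : ℕ in atTop, Ph A b (fun _ => 1) 1 / 2 <
      (∫ p : Eu κ × (Fin (n + 1) → ℝ), gt A b p.1 (tt p.2) * ww w1 p.2) / I ^ (n + 1) :=
    hZlim.eventually (lt_mem_nhds (by linarith))
  have hZpos : ∀ᶠ n : ℕ in atTop,
      0 < ∫ p : Eu κ × (Fin (n + 1) → ℝ), gt A b p.1 (tt p.2) * ww w1 p.2 := by
    filter_upwards [hZev] with n hn
    have h1 : 0 < (∫ p : Eu κ × (Fin (n + 1) → ℝ), gt A b p.1 (tt p.2) * ww w1 p.2) /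
      I ^ (n + 1) := by linarith
    exact (div_pos_iff_of_pos_right (pow_pos hI _)).1 h1
  have hWt : ∀ᶠ n : ℕ in atTop, Wt (gC A b (n + 1)) := by
    filter_upwards [hZpos] with n hn
    refine wt_cg (gC_cg hA b (Nat.succ_ne_zero n)) ?_
    have := vol_haar' κ (n + 1)
    rw [← integral_pos_scale (volume : Measure (Eu κ × (Fin (n + 1) → ℝ))) volume
      (enc κ (n + 1) ((n + 1 : ℕ) : ℝ)⁻¹ (inv_ne (Nat.succ_ne_zero n))) 0]
    simpa only [add_zero, gC_comp (Nat.succ_ne_zero n)] using hn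
  refine KP.lift (l := (atTop : Filter ℕ)) (K := fun n => κ ⊕ Fin (n + 1))
    (ν := fun n => nm (gC A b (n + 1)))
    (T := fun n => (plL : Eu (κ ⊕ Fin (n + 1)) →L[ℝ] Eu κ)) (b := fun _ => 0)
    (J := fun n => (inL : Eu κ →L[ℝ] Eu (κ ⊕ Fin (n + 1)))) hD
    (hWt.mono fun n h => h.prob) (hWt.mono fun n h => h.int_sq)
    (fun _ => plL_norm) (fun _ => inL_norm) ?_ ?_ ?_
  · refine ⟨?_, ?_, hw.int_sq, ?_⟩
    · filter_upwards [hWt] with n hwa
      have := hwa.prob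
      exact Measure.isProbabilityMeasure_map (by fun_prop)
    · filter_upwards [hWt] with n hwa
      have hp := hwa.prob
      have hme : Measurable fun y : Eu (κ ⊕ Fin (n + 1)) => plL y - (0 : Eu κ) := by fun_prop
      rw [integrable_map_measure (by fun_prop) hme.aemeasurable]
      refine hwa.int_sq.mono' (by fun_prop) (Eventually.of_forall fun y => ?_)
      simp only [Function.comp_apply, sub_zero]
      rw [Real.norm_of_nonneg (by positivity)]
      exact pow_le_pow_left₀ (norm_nonneg _)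
        (((plL : Eu (κ ⊕ Fin (n + 1)) →L[ℝ] Eu κ).le_opNorm y).trans
          (mul_le_of_le_one_left (norm_nonneg _) plL_norm)) 2
    · intro φ hφ
      rw [hnm, integral_nm (fun y => gt_nonneg y 1) hgm]
      have h1 := (hav φ hφ).div hZlim hPh.ne'
      have e1 : Ph A b φ 1 / Ph A b (fun _ => 1) 1 =
          (∫ x, φ x * gt A b x 1) / ∫ x, gt A b x 1 := by
        unfold Ph
        simp
      rw [e1] at h1
      refine h1.congr fun n => ?_
      have hme : Measurable fun y : Eu (κ ⊕ Fin (n + 1)) => plL y - (0 : Eu κ) := by fun_prop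
      rw [integral_map hme.aemeasurable hφ.1.aestronglyMeasurable,
        gC_rep (Nat.succ_ne_zero n)]
      simp only [sub_zero, plL_apply, enc_apply, pl_mk]
      exact div_div_div_cancel_right₀ (pow_ne_zero _ hI.ne') _ _
  · intro η hη
    set M0 := ∫ y : Eu κ, Real.exp (-(‖A y‖ ^ 2 / 2)) with hM0
    set V2 := ∫ r, r ^ 2 * w1 r with hV2
    set P1 := Ph A b (fun _ => 1) 1 with hP1
    have hsmall : ∀ᶠ n : ℕ in atTop, ((n + 1 : ℕ) : ℝ)⁻¹ * (M0 * (V2 / I) / (P1 / 2)) ≤ η := by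
      have h1 : Tendsto (fun n : ℕ => ((n + 1 : ℕ) : ℝ)⁻¹ * (M0 * (V2 / I) / (P1 / 2))) atTop
          (𝓝 (0 * (M0 * (V2 / I) / (P1 / 2)))) :=
        (tendsto_inv_atTop_zero.comp (tendsto_natCast_atTop_atTop.comp
          (tendsto_add_atTop_nat 1))).mul_const _
      rw [zero_mul] at h1
      exact (h1.eventually (gt_mem_nhds hη)).mono fun n hn => hn.le
    filter_upwards [hWt, hZev, hZpos, hsmall] with n hwa hZn hZ0 hsm
    intro θ hθ
    have hp := hwa.prob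
    have hn0 : (0 : ℝ) < ((n + 1 : ℕ) : ℝ) := by positivity
    have hcont : Continuous fun y : Eu (κ ⊕ Fin (n + 1)) => ⟪y - inL (plL y), θ⟫_ℝ := by fun_prop
    refine (ProbabilityTheory.variance_le_expectation_sq hcont.aestronglyMeasurable).trans ?_
    have e1 := gC_rep (A := A) (b := b) (Nat.succ_ne_zero n)
      (fun y => ⟪y - inL (plL y), θ⟫_ℝ ^ 2)
    refine (le_of_eq e1).trans ?_
    obtain ⟨f1, f2⟩ := fub2 (A := A) (b := b) hq hqA (n := n + 1)
    have hnum : ∫ p : Eu κ × (Fin (n + 1) → ℝ),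
        ⟪enc κ (n + 1) ((n + 1 : ℕ) : ℝ)⁻¹ (inv_ne (Nat.succ_ne_zero n)) p -
          inL (plL (enc κ (n + 1) ((n + 1 : ℕ) : ℝ)⁻¹ (inv_ne (Nat.succ_ne_zero n)) p)), θ⟫_ℝ ^ 2 *
          (gt A b p.1 (tt p.2) * ww w1 p.2) ≤
        ((n + 1 : ℕ) : ℝ)⁻¹ ^ 2 * (M0 * ((n + 1 : ℕ) * (V2 * I ^ n))) := by
      refine le_trans ?_ (mul_le_mul_of_nonneg_left f2 (by positivity))
      rw [← integral_const_mul]
      refine integral_mono_of_nonneg (Eventually.of_forall fun p =>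
        mul_nonneg (sq_nonneg _) (mul_nonneg (gt_nonneg _ _) (ww_nonneg _))) (f1.const_mul _)
        (Eventually.of_forall fun p => ?_)
      simp only
      rw [← mul_assoc ((((n + 1 : ℕ) : ℝ)⁻¹) ^ 2)]
      refine mul_le_mul_of_nonneg_right ?_ (mul_nonneg (gt_nonneg _ _) (ww_nonneg _))
      rw [sub_inL_pl, enc_apply, pr_mk]
      have h2 := abs_real_inner_le_norm (mk 0 (WithLp.toLp 2 fun j =>
        ((n + 1 : ℕ) : ℝ)⁻¹ * p.2 j) : Eu (κ ⊕ Fin (n + 1))) θ
      rw [hθ, mul_one] at h2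
      calc _ = |⟪(mk 0 (WithLp.toLp 2 fun j =>
              ((n + 1 : ℕ) : ℝ)⁻¹ * p.2 j) : Eu (κ ⊕ Fin (n + 1))), θ⟫_ℝ| ^ 2 := (sq_abs _).symm
        _ ≤ ‖(mk 0 (WithLp.toLp 2 fun j =>
              ((n + 1 : ℕ) : ℝ)⁻¹ * p.2 j) : Eu (κ ⊕ Fin (n + 1)))‖ ^ 2 :=
            pow_le_pow_left₀ (abs_nonneg _) h2 2
        _ = _ := by
            rw [norm_mk_sq, EuclideanSpace.norm_sq_eq (WithLp.toLp 2 fun j =>
              ((n + 1 : ℕ) : ℝ)⁻¹ * p.2 j)]
            simp only [norm_zero, Real.norm_eq_abs, sq_abs, mul_pow, ← Finset.mul_sum]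
            ring
    calc _ ≤ (((n + 1 : ℕ) : ℝ)⁻¹ ^ 2 * (M0 * ((n + 1 : ℕ) * (V2 * I ^ n)))) /
          ∫ p : Eu κ × (Fin (n + 1) → ℝ), gt A b p.1 (tt p.2) * ww w1 p.2 :=
          div_le_div_of_nonneg_right hnum hZ0.le
      _ ≤ (((n + 1 : ℕ) : ℝ)⁻¹ ^ 2 * (M0 * ((n + 1 : ℕ) * (V2 * I ^ n)))) /
          (P1 / 2 * I ^ (n + 1)) := by
          refine div_le_div_of_nonneg_left ?_ (by positivity) ?_
          · refine le_trans ?_ hnum
            exact integral_nonneg fun p => mul_nonneg (sq_nonneg _)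
              (mul_nonneg (gt_nonneg _ _) (ww_nonneg _))
          · rw [lt_div_iff₀ (pow_pos hI _)] at hZn
            exact hZn.le
      _ = ((n + 1 : ℕ) : ℝ)⁻¹ * (M0 * (V2 / I) / (P1 / 2)) := by
          rw [pow_succ I n]
          field_simp
      _ ≤ η := hsm
  · filter_upwards [hWt] with n hwa
    exact H _ _ (gC_cg hA b (Nat.succ_ne_zero n)) hwa

end cent2

end Pool.Agent.H776
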