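import Pool.Agent.H776.Coarea

/-!
# From the isoperimetric inequality to the Poincare inequality (Cheeger)
-/

set_option autoImplicit false

namespace Pool.Agent.H776

open MeasureTheory Set Filter Topology
open scoped ENNReal InnerProductSpace

section cheeger

variable {E : Type*} [NormedAddCommGroup E] [NormedSpace ℝ E] [MeasurableSpace E] [BorelSpace E]

/-- the isoperimetric inequality with constant `c` -/
def Iso (μ : Measure E) (c : ℝ) : Prop :=
  ∀ S : Set E, MeasurableSet S → ENNReal.ofReal c * min (μ S) (μ Sᶜ) ≤ bdr μ S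

/-- bounded `C¹` functions with bounded gradient -/
structure Tst (f : E → ℝ) (B L : ℝ) : Prop where
  diff : ContDiff ℝ 1 f
  bdd : ∀ x, |f x| ≤ B
  grad : ∀ x, ‖fderiv ℝ f x‖ ≤ L

/-- Poincare inequality with constant `D` for bounded `C¹` functions with bounded gradient -/
def Poi (μ : Measure E) (D : ℝ) : Prop :=
  ∀ (f : E → ℝ) (B L : ℝ), Tst f B L →
    (∫ x, f x ^ 2 ∂μ) - (∫ x, f x ∂μ) ^ 2 ≤ D * ∫ x, ‖fderiv ℝ f x‖ ^ 2 ∂μ

omit [MeasurableSpace E] [BorelSpace E] in
theorem Tst.neg {f : E → ℝ} {B L : ℝ} (h : Tst f B L) : Tst (fun x => -f x) B L := by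
  refine ⟨h.diff.neg, fun x => by rw [abs_neg]; exact h.bdd x, fun x => ?_⟩
  have : fderiv ℝ (fun x => -f x) x = -fderiv ℝ f x := fderiv_fun_neg
  rw [this, norm_neg]
  exact h.grad x

omit [MeasurableSpace E] [BorelSpace E] in
theorem Tst.lip {f : E → ℝ} {B L : ℝ} (h : Tst f B L) (x y : E) : |f y - f x| ≤ L * dist y x := by
  have := Convex.norm_image_sub_le_of_norm_fderiv_le (𝕜 := ℝ) (f := f) (s := univ) (x := x) (y := y)
    (C := L) (fun z _ => (h.diff.differentiable one_ne_zero) z) (fun z _ => h.grad z) convex_univ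
    (mem_univ _) (mem_univ _)
  rw [Real.norm_eq_abs] at this
  rw [dist_eq_norm]
  exact this

theorem half {μ : Measure E} [IsProbabilityMeasure μ] {c : ℝ} (hc : 0 < c) (hI : Iso μ c)
    {f : E → ℝ} {B L : ℝ} (h : Tst f B L) {m : ℝ} (hm : μ {x | m < f x} ≤ 1 / 2) :
    c * ∫ x, (max (f x - m) 0) ^ 2 ∂μ ≤ ∫ x, 2 * max (f x - m) 0 * ‖fderiv ℝ f x‖ ∂μ := by
  obtain ⟨g, hg⟩ : ∃ g : E → ℝ, g = fun x => (max (f x - m) 0) ^ 2 := ⟨_, rfl⟩
  obtain ⟨P, hP⟩ : ∃ P : E → ℝ, P = fun x => max (f x - m) 0 := ⟨_, rfl⟩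
  have hPx : ∀ x, P x = max (f x - m) 0 := fun x => by rw [hP]
  have hgx : ∀ x, g x = P x ^ 2 := fun x => by rw [hg, hP]
  have hP0 : ∀ x, 0 ≤ P x := fun x => by rw [hPx]; exact le_max_right _ _
  have hB0 : 0 ≤ B := by
    obtain ⟨x⟩ := (inferInstance : Nonempty E)
    exact (abs_nonneg _).trans (h.bdd x)
  have hL0 : 0 ≤ L := by
    obtain ⟨x⟩ := (inferInstance : Nonempty E)
    exact (norm_nonneg _).trans (h.grad x)
  have hPB : ∀ x, P x ≤ B + |m| := fun x => by
    rw [hPx]
    refine max_le ?_ (by positivity)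
    have h1 := (abs_le.1 (h.bdd x)).2
    have h2 := neg_abs_le m
    linarith
  have hPl : ∀ x y a, f y ≤ f x + a → 0 ≤ a → P y ≤ P x + a := by
    intro x y a h1 h2
    rw [hPx, hPx]
    refine max_le ?_ ?_
    · have := le_max_left (f x - m) 0
      linarith
    · have := le_max_right (f x - m) 0
      linarith
  have hfc : Continuous f := h.diff.continuous
  have hPc : Continuous P := by
    rw [hP]
    exact (hfc.sub continuous_const).max continuous_const
  have hgc : Continuous g := by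
    rw [show g = fun x => P x ^ 2 from funext hgx]
    exact hPc.pow 2
  have hgrc : Continuous fun x => ‖fderiv ℝ f x‖ := (h.diff.continuous_fderiv one_ne_zero).norm
  have h0 : ∀ x, 0 ≤ g x := fun x => by rw [hgx]; exact sq_nonneg _
  have hgB : ∀ x, g x ≤ (B + |m|) ^ 2 := fun x => by
    rw [hgx]
    exact pow_le_pow_left₀ (hP0 x) (hPB x) 2
  have hK : ∀ x y, g y ≤ g x + 2 * (B + |m|) * L * dist y x := by
    intro x y
    have h1 := h.lip x y
    have h2 := hPl x y (L * dist y x) (by have := (abs_le.1 h1).2; linarith) (by positivity)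
    rw [hgx, hgx]
    have h3 := hPB x
    have h4 := hPB y
    have h5 : P y ^ 2 - P x ^ 2 = (P y - P x) * (P y + P x) := by ring
    have h6 : (P y - P x) * (P y + P x) ≤ (L * dist y x) * (2 * (B + |m|)) := by
      have h7 : 0 ≤ P y + P x := add_nonneg (hP0 y) (hP0 x)
      calc (P y - P x) * (P y + P x) ≤ (L * dist y x) * (P y + P x) :=
            mul_le_mul_of_nonneg_right (by linarith) h7
        _ ≤ (L * dist y x) * (2 * (B + |m|)) :=
            mul_le_mul_of_nonneg_left (by linarith) (by positivity)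
    linarith
  have hG : ∀ x, ∀ η : ℝ, 0 < η → ∃ δ > 0, ∀ y, dist y x < δ →
      g y ≤ g x + (2 * P x * ‖fderiv ℝ f x‖ + η) * dist y x := by
    intro x η hη
    obtain ⟨η', hη'0, hη'⟩ : ∃ η' > 0, 2 * P x * η' ≤ η / 2 := by
      refine ⟨η / (4 * (P x + 1)), by have := hP0 x; positivity, ?_⟩
      have := hP0 x
      rw [mul_div_assoc', div_le_iff₀ (by positivity)]
      nlinarith
    have hd : HasFDerivAt f (fderiv ℝ f x) x := ((h.diff.differentiable one_ne_zero) x).hasFDerivAt
    have h1 := (hasFDerivAt_iff_isLittleO.1 hd).def hη'0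
    obtain ⟨δ1, hδ1, h2⟩ := Metric.eventually_nhds_iff.1 h1
    set N := ‖fderiv ℝ f x‖ with hN
    have hN0 : 0 ≤ N := norm_nonneg _
    refine ⟨min δ1 (η / (2 * ((N + η') ^ 2 + 1))), lt_min hδ1 (by positivity), fun y hy => ?_⟩
    have h3 := h2 (lt_of_lt_of_le hy (min_le_left _ _))
    have h4 : f y ≤ f x + (N + η') * dist y x := by
      have h5 : f y - f x - fderiv ℝ f x (y - x) ≤ η' * ‖y - x‖ :=
        (le_abs_self _).trans (by rw [← Real.norm_eq_abs]; exact h3)
      have h6 : fderiv ℝ f x (y - x) ≤ N * ‖y - x‖ :=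
        (le_abs_self _).trans (by rw [← Real.norm_eq_abs]; exact ContinuousLinearMap.le_opNorm _ _)
      rw [dist_eq_norm]
      nlinarith
    have h7 := hPl x y _ h4 (by positivity)
    have h8 : (N + η') ^ 2 * dist y x ≤ η / 2 := by
      have h9 := (lt_of_lt_of_le hy (min_le_right _ _)).le
      have h10 : 0 < (N + η') ^ 2 + 1 := by positivity
      calc (N + η') ^ 2 * dist y x ≤ ((N + η') ^ 2 + 1) * (η / (2 * ((N + η') ^ 2 + 1))) :=
            mul_le_mul (by linarith) h9 dist_nonneg h10.le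
        _ = η / 2 := by field_simp
    rw [hgx, hgx]
    set d := dist y x with hd'
    have hd0 : 0 ≤ d := dist_nonneg
    have h11 : P y ^ 2 ≤ (P x + (N + η') * d) ^ 2 := pow_le_pow_left₀ (hP0 y) h7 2
    have h12 : (P x + (N + η') * d) ^ 2 = P x ^ 2 + (2 * P x * N) * d + (2 * P x * η') * d +
      ((N + η') ^ 2 * d) * d := by ring
    have h13 : (2 * P x * η') * d ≤ η / 2 * d := mul_le_mul_of_nonneg_right hη' hd0
    have h14 : ((N + η') ^ 2 * d) * d ≤ η / 2 * d := mul_le_mul_of_nonneg_right h8 hd0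
    nlinarith
  have hco := coarea (μ := μ) h0 hgB hK hgc.measurable hG
  have hlow : ENNReal.ofReal c * ∫⁻ x, ENNReal.ofReal (g x) ∂μ ≤
      ∫⁻ t in Ioi (0 : ℝ), bdr μ {x | t < g x} := by
    rw [lintegral_eq_lintegral_meas_lt μ (Eventually.of_forall h0) hgc.aemeasurable,
      ← lintegral_const_mul' _ _ ENNReal.ofReal_ne_top]
    refine setLIntegral_mono' measurableSet_Ioi fun t ht => ?_
    have hS : MeasurableSet {x | t < g x} := measurableSet_lt measurable_const hgc.measurable
    have h1 := hI _ hS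
    have hle : μ {x | t < g x} ≤ 1 / 2 := by
      refine (measure_mono fun x hx => ?_).trans hm
      rw [mem_ofPred_eq] at hx ⊢
      rw [hgx, hPx] at hx
      by_contra hcon
      rw [max_eq_right (by linarith)] at hx
      rw [mem_Ioi] at ht
      norm_num at hx
      linarith
    have h2 : μ {x | t < g x} ≤ μ {x | t < g x}ᶜ := by
      rw [prob_compl_eq_one_sub hS]
      refine hle.trans ?_
      have h3 : (1 : ℝ≥0∞) / 2 = 1 - 1 / 2 := by
        rw [one_div, ENNReal.one_sub_inv_two]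
      calc (1 : ℝ≥0∞) / 2 = 1 - 1 / 2 := h3
        _ ≤ 1 - μ {x | t < g x} := tsub_le_tsub_left hle _
    rw [min_eq_left h2] at h1
    exact h1
  have hfin := hlow.trans hco
  have hgi : Integrable g μ := Integrable.of_bound hgc.aestronglyMeasurable ((B + |m|) ^ 2)
    (Eventually.of_forall fun x => by rw [Real.norm_eq_abs, abs_of_nonneg (h0 x)]; exact hgB x)
  have hG0 : ∀ x, 0 ≤ 2 * P x * ‖fderiv ℝ f x‖ := fun x => by have := hP0 x; positivity
  have hGi : Integrable (fun x => 2 * P x * ‖fderiv ℝ f x‖) μ := by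
    refine Integrable.of_bound (((continuous_const.mul hPc).mul hgrc).aestronglyMeasurable)
      (2 * (B + |m|) * L) (Eventually.of_forall fun x => ?_)
    rw [Real.norm_eq_abs, abs_of_nonneg (hG0 x)]
    exact mul_le_mul (by linarith [hPB x]) (h.grad x) (norm_nonneg _) (by positivity)
  rw [← ofReal_integral_eq_lintegral_ofReal hgi (Eventually.of_forall h0),
    ← ofReal_integral_eq_lintegral_ofReal hGi (Eventually.of_forall hG0),
    ← ENNReal.ofReal_mul hc.le] at hfin
  have h15 := (ENNReal.ofReal_le_ofReal_iff (integral_nonneg hG0)).1 hfin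
  rw [hg] at h15
  rw [hP] at h15
  exact h15

/-- a median of a bounded function -/
theorem exists_median {E : Type*} [MeasurableSpace E] [Nonempty E] (μ : Measure E) [IsProbabilityMeasure μ] {f : E → ℝ} {B : ℝ}
    (hf : Measurable f) (hB : ∀ x, |f x| ≤ B) :
    ∃ m : ℝ, μ {x | m < f x} ≤ 1 / 2 ∧ μ {x | f x < m} ≤ 1 / 2 := by
  set A : Set ℝ := {r | μ {x | r < f x} ≤ 1 / 2} with hA
  have hBA : B ∈ A := by
    rw [hA, mem_ofPred_eq]
    have : {x | B < f x} = ∅ := by
      ext x
      simp only [mem_ofPred_eq, mem_empty_iff_false, iff_false, not_lt]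
      exact (le_abs_self _).trans (hB x)
    rw [this, measure_empty]
    exact zero_le
  have hbd : BddBelow A := by
    refine ⟨-B - 1, fun r hr => ?_⟩
    by_contra hcon
    rw [not_le] at hcon
    have : {x | r < f x} = univ := by
      ext x
      simp only [mem_ofPred_eq, mem_univ, iff_true]
      have := (abs_le.1 (hB x)).1
      linarith
    rw [hA, mem_ofPred_eq, this, measure_univ] at hr
    norm_num at hr
  set m := sInf A with hm
  refine ⟨m, ?_, ?_⟩
  · -- right limit
    have hlt : ∀ k : ℕ, μ {x | m + 1 / ((k : ℝ) + 1) < f x} ≤ 1 / 2 := by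
      intro k
      have hk : (0 : ℝ) < 1 / ((k : ℝ) + 1) := by positivity
      obtain ⟨r, hr, hr2⟩ := exists_lt_of_csInf_lt ⟨B, hBA⟩ (show sInf A < m + 1 / ((k : ℝ) + 1) by
        linarith)
      exact (measure_mono fun x (hx : m + 1 / ((k : ℝ) + 1) < f x) => lt_trans hr2 hx).trans hr
    have hU : {x | m < f x} = ⋃ k : ℕ, {x | m + 1 / ((k : ℝ) + 1) < f x} := by
      ext x
      simp only [mem_ofPred_eq, mem_iUnion]
      constructor
      · intro hx
        obtain ⟨k, hk⟩ := exists_nat_one_div_lt (show 0 < f x - m by linarith)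
        exact ⟨k, by linarith⟩
      · rintro ⟨k, hk⟩
        have : (0 : ℝ) < 1 / ((k : ℝ) + 1) := by positivity
        linarith
    rw [hU]
    have hmono : Monotone fun k : ℕ => {x | m + 1 / ((k : ℝ) + 1) < f x} := by
      intro a b hab x hx
      simp only [mem_ofPred_eq] at hx ⊢
      have : (1 : ℝ) / ((b : ℝ) + 1) ≤ 1 / ((a : ℝ) + 1) := by
        have : (a : ℝ) ≤ b := by exact_mod_cast hab
        exact one_div_le_one_div_of_le (by positivity) (by linarith)
      linarith
    rw [hmono.measure_iUnion]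
    exact iSup_le hlt
  · have hlt : ∀ k : ℕ, μ {x | f x ≤ m - 1 / ((k : ℝ) + 1)} ≤ 1 / 2 := by
      intro k
      have hk : (0 : ℝ) < 1 / ((k : ℝ) + 1) := by positivity
      have hnot : m - 1 / ((k : ℝ) + 1) ∉ A := fun h => by
        have := csInf_le hbd h
        linarith
      rw [hA, mem_ofPred_eq, not_le] at hnot
      have hc : {x | f x ≤ m - 1 / ((k : ℝ) + 1)} = {x | m - 1 / ((k : ℝ) + 1) < f x}ᶜ := by
        ext x; simp
      rw [hc, prob_compl_eq_one_sub (measurableSet_lt measurable_const hf)]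
      calc 1 - μ {x | m - 1 / ((k : ℝ) + 1) < f x} ≤ 1 - 1 / 2 := tsub_le_tsub_left hnot.le _
        _ = 1 / 2 := by rw [one_div, ENNReal.one_sub_inv_two]
    have hU : {x | f x < m} = ⋃ k : ℕ, {x | f x ≤ m - 1 / ((k : ℝ) + 1)} := by
      ext x
      simp only [mem_ofPred_eq, mem_iUnion]
      constructor
      · intro hx
        obtain ⟨k, hk⟩ := exists_nat_one_div_lt (show 0 < m - f x by linarith)
        exact ⟨k, by linarith⟩
      · rintro ⟨k, hk⟩
        have : (0 : ℝ) < 1 / ((k : ℝ) + 1) := by positivity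
        linarith
    rw [hU]
    have hmono : Monotone fun k : ℕ => {x | f x ≤ m - 1 / ((k : ℝ) + 1)} := by
      intro a b hab x hx
      simp only [mem_ofPred_eq] at hx ⊢
      have : (1 : ℝ) / ((b : ℝ) + 1) ≤ 1 / ((a : ℝ) + 1) := by
        have : (a : ℝ) ≤ b := by exact_mod_cast hab
        exact one_div_le_one_div_of_le (by positivity) (by linarith)
      linarith
    rw [hmono.measure_iUnion]
    exact iSup_le hlt

/-- **Cheeger**: the isoperimetric inequality with constant `c` implies the Poincare inequality with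
constant `4 / c²` -/
theorem poi_of_iso {μ : Measure E} [IsProbabilityMeasure μ] {c : ℝ} (hc : 0 < c) (hI : Iso μ c) :
    Poi μ (4 / c ^ 2) := by
  intro f B L h
  have hfc : Continuous f := h.diff.continuous
  obtain ⟨m, hm1, hm2⟩ := exists_median μ hfc.measurable h.bdd
  have hB0 : 0 ≤ B := by
    obtain ⟨x⟩ := (inferInstance : Nonempty E)
    exact (abs_nonneg _).trans (h.bdd x)
  have hL0 : 0 ≤ L := by
    obtain ⟨x⟩ := (inferInstance : Nonempty E)
    exact (norm_nonneg _).trans (h.grad x)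
  have hgrc : Continuous fun x => ‖fderiv ℝ f x‖ := (h.diff.continuous_fderiv one_ne_zero).norm
  have h1 := half hc hI h hm1
  have h2 := half hc hI h.neg (m := -m) (by
    refine le_trans (measure_mono fun x hx => ?_) hm2
    simp only [mem_ofPred_eq] at hx ⊢
    linarith)
  have hfd : ∀ x, ‖fderiv ℝ (fun x => -f x) x‖ = ‖fderiv ℝ f x‖ := fun x => by
    rw [fderiv_fun_neg, norm_neg]
  simp only [hfd] at h2
  have hib : ∀ (g : E → ℝ) (K : ℝ), Continuous g → (∀ x, |g x| ≤ K) → Integrable g μ :=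
    fun g K hg hK => Integrable.of_bound hg.aestronglyMeasurable K
      (Eventually.of_forall fun x => by rw [Real.norm_eq_abs]; exact hK x)
  have hfm : ∀ x, |f x - m| ≤ B + |m| := fun x => (abs_sub _ _).trans (by linarith [h.bdd x])
  have hA : ∀ x, |max (f x - m) 0| ≤ B + |m| := fun x => by
    rw [abs_of_nonneg (le_max_right _ _)]
    exact max_le ((le_abs_self _).trans (hfm x)) (by positivity)
  have hA' : ∀ x, |max (-f x - -m) 0| ≤ B + |m| := fun x => by
    rw [abs_of_nonneg (le_max_right _ _)]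
    refine max_le ((le_abs_self _).trans ?_) (by positivity)
    rw [show -f x - -m = -(f x - m) by ring, abs_neg]
    exact hfm x
  have c1 : Continuous fun x => max (f x - m) 0 := (hfc.sub continuous_const).max continuous_const
  have c2 : Continuous fun x => max (-f x - -m) 0 :=
    (hfc.neg.sub continuous_const).max continuous_const
  have i1 : Integrable (fun x => max (f x - m) 0 ^ 2) μ :=
    hib _ ((B + |m|) ^ 2) (c1.pow 2) fun x => by
      rw [abs_pow]; exact pow_le_pow_left₀ (abs_nonneg _) (hA x) 2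
  have i2 : Integrable (fun x => max (-f x - -m) 0 ^ 2) μ :=
    hib _ ((B + |m|) ^ 2) (c2.pow 2) fun x => by
      rw [abs_pow]; exact pow_le_pow_left₀ (abs_nonneg _) (hA' x) 2
  have i3 : Integrable (fun x => 2 * max (f x - m) 0 * ‖fderiv ℝ f x‖) μ :=
    hib _ (2 * (B + |m|) * L) ((continuous_const.mul c1).mul hgrc) fun x => by
      rw [abs_mul, abs_mul, abs_norm, abs_two]
      exact mul_le_mul (mul_le_mul_of_nonneg_left (hA x) (by norm_num)) (h.grad x) (norm_nonneg _)
        (by positivity)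
  have i4 : Integrable (fun x => 2 * max (-f x - -m) 0 * ‖fderiv ℝ f x‖) μ :=
    hib _ (2 * (B + |m|) * L) ((continuous_const.mul c2).mul hgrc) fun x => by
      rw [abs_mul, abs_mul, abs_norm, abs_two]
      exact mul_le_mul (mul_le_mul_of_nonneg_left (hA' x) (by norm_num)) (h.grad x) (norm_nonneg _)
        (by positivity)
  have e1 : ∀ x, max (f x - m) 0 ^ 2 + max (-f x - -m) 0 ^ 2 = (f x - m) ^ 2 := by
    intro x
    rcases le_total (f x - m) 0 with h' | h'
    · rw [max_eq_right h', max_eq_left (by linarith)]; ring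
    · rw [max_eq_left h', max_eq_right (by linarith)]; ring
  have e2 : ∀ x, 2 * max (f x - m) 0 * ‖fderiv ℝ f x‖ + 2 * max (-f x - -m) 0 * ‖fderiv ℝ f x‖ =
      2 * (|f x - m| * ‖fderiv ℝ f x‖) := by
    intro x
    rcases le_total (f x - m) 0 with h' | h'
    · rw [max_eq_right h', max_eq_left (by linarith), abs_of_nonpos h']; ring
    · rw [max_eq_left h', max_eq_right (by linarith), abs_of_nonneg h']; ring
  have h3 : c * ∫ x, (f x - m) ^ 2 ∂μ ≤ 2 * ∫ x, |f x - m| * ‖fderiv ℝ f x‖ ∂μ := by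
    rw [← integral_const_mul 2, ← integral_congr_ae (Eventually.of_forall e2),
      ← integral_congr_ae (Eventually.of_forall e1), integral_add i1 i2, integral_add i3 i4]
    linarith
  -- Cauchy-Schwarz through the quadratic: 2 a b ≤ λ a² + b² / λ
  have i5 : Integrable (fun x => (f x - m) ^ 2) μ :=
    hib _ ((B + |m|) ^ 2) ((hfc.sub continuous_const).pow 2) fun x => by
      rw [abs_pow]; exact pow_le_pow_left₀ (abs_nonneg _) (hfm x) 2
  have i6 : Integrable (fun x => ‖fderiv ℝ f x‖ ^ 2) μ :=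
    hib _ (L ^ 2) (hgrc.pow 2) fun x => by
      rw [abs_pow, abs_norm]; exact pow_le_pow_left₀ (norm_nonneg _) (h.grad x) 2
  have h4 : 2 * ∫ x, |f x - m| * ‖fderiv ℝ f x‖ ∂μ ≤
      c / 2 * (∫ x, (f x - m) ^ 2 ∂μ) + 2 / c * ∫ x, ‖fderiv ℝ f x‖ ^ 2 ∂μ := by
    rw [← integral_const_mul 2, ← integral_const_mul (c / 2), ← integral_const_mul (2 / c),
      ← integral_add (i5.const_mul _) (i6.const_mul _)]
    refine integral_mono_of_nonneg (Eventually.of_forall fun x => by positivity)
      ((i5.const_mul _).add (i6.const_mul _)) (Eventually.of_forall fun x => ?_)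
    simp only
    have h5 : 0 ≤ (c * |f x - m| - 2 * ‖fderiv ℝ f x‖) ^ 2 / (2 * c) := by positivity
    have h6 : (c * |f x - m| - 2 * ‖fderiv ℝ f x‖) ^ 2 / (2 * c) =
        c / 2 * |f x - m| ^ 2 + 2 / c * ‖fderiv ℝ f x‖ ^ 2 - 2 * (|f x - m| * ‖fderiv ℝ f x‖) := by
      field_simp
      ring
    rw [sq_abs] at h6
    linarith
  have h5 : c / 2 * ∫ x, (f x - m) ^ 2 ∂μ ≤ 2 / c * ∫ x, ‖fderiv ℝ f x‖ ^ 2 ∂μ := by linarith
  have h6 : ∫ x, (f x - m) ^ 2 ∂μ ≤ 4 / c ^ 2 * ∫ x, ‖fderiv ℝ f x‖ ^ 2 ∂μ := by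
    have h7 := mul_le_mul_of_nonneg_left h5 (show 0 ≤ 2 / c by positivity)
    have e3 : 2 / c * (c / 2 * ∫ x, (f x - m) ^ 2 ∂μ) = ∫ x, (f x - m) ^ 2 ∂μ := by field_simp
    have e4 : 2 / c * (2 / c * ∫ x, ‖fderiv ℝ f x‖ ^ 2 ∂μ) =
        4 / c ^ 2 * ∫ x, ‖fderiv ℝ f x‖ ^ 2 ∂μ := by field_simp; ring
    linarith
  refine le_trans ?_ h6
  have i7 : Integrable f μ := hib _ B hfc h.bdd
  have i8 : Integrable (fun x => f x ^ 2) μ := hib _ (B ^ 2) (hfc.pow 2) fun x => by
    rw [abs_pow]; exact pow_le_pow_left₀ (abs_nonneg _) (h.bdd x) 2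
  have e5 : ∫ x, (f x - m) ^ 2 ∂μ = (∫ x, f x ^ 2 ∂μ) - 2 * m * (∫ x, f x ∂μ) + m ^ 2 := by
    have : ∀ x, (f x - m) ^ 2 = f x ^ 2 - 2 * m * f x + m ^ 2 := fun x => by ring
    simp only [this]
    have j1 : ∫ x, (f x ^ 2 - 2 * m * f x + m ^ 2) ∂μ =
        (∫ x, (f x ^ 2 - 2 * m * f x) ∂μ) + ∫ x, m ^ 2 ∂μ :=
      integral_add (i8.sub (i7.const_mul _)) (integrable_const _)
    have j2 : ∫ x, (f x ^ 2 - 2 * m * f x) ∂μ = (∫ x, f x ^ 2 ∂μ) - ∫ x, 2 * m * f x ∂μ :=
      integral_sub i8 (i7.const_mul _)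
    rw [j1, j2, integral_const_mul]
    simp
  rw [e5]
  nlinarith [sq_nonneg ((∫ x, f x ∂μ) - m)]

end cheeger

end Pool.Agent.H776
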