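import Mathlib

/-!
# From the isoperimetric inequality to the Poincare inequality (Cheeger)

For a probability measure on a Euclidean space whose Minkowski boundary measure satisfies
`c min(μ S, μ Sᶜ) ≤ μ⁺(S)` for all measurable sets, `Var f ≤ (4 / c²) ∫ ‖∇ f‖² dμ` for all bounded
`C¹` functions with bounded gradient. Coarea inequality and the argument of Cheeger.
-/

set_option autoImplicit false

namespace Pool.Agent.H776

open MeasureTheory Set Filter Topology
open scoped ENNReal InnerProductSpace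

section coarea

variable {E : Type*} [NormedAddCommGroup E] [MeasurableSpace E] [BorelSpace E]

/-- Minkowski (exterior) boundary measure `μ⁺(S)` -/
noncomputable def bdr (μ : Measure E) (S : Set E) : ℝ≥0∞ :=
  Filter.liminf (fun ε : ℝ => (μ (Metric.thickening ε S) - μ S) / ENNReal.ofReal ε) (𝓝[>] 0)

/-- supremum over the open ball of radius `ε` -/
noncomputable def supb (g : E → ℝ) (ε : ℝ) (x : E) : ℝ := ⨆ y : Metric.ball x ε, g y

omit [MeasurableSpace E] [BorelSpace E] in
theorem lt_supb {g : E → ℝ} {B : ℝ} (hB : ∀ x, g x ≤ B) {ε : ℝ} (hε : 0 < ε) (t : ℝ) :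
    {x | t < supb g ε x} = Metric.thickening ε {x | t < g x} := by
  ext x
  have hne : Nonempty (Metric.ball x ε) := ⟨⟨x, Metric.mem_ball_self hε⟩⟩
  have hbd : BddAbove (range fun y : Metric.ball x ε => g y) := ⟨B, by
    rintro _ ⟨y, rfl⟩; exact hB _⟩
  rw [Metric.mem_thickening_iff, mem_ofPred_eq]
  unfold supb
  rw [lt_ciSup_iff hbd]
  constructor
  · rintro ⟨⟨y, hy⟩, h⟩
    exact ⟨y, h, by rw [dist_comm]; exact hy⟩
  · rintro ⟨y, h, hy⟩
    exact ⟨⟨y, by rw [Metric.mem_ball, dist_comm]; exact hy⟩, h⟩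

omit [MeasurableSpace E] [BorelSpace E] in
theorem le_supb {g : E → ℝ} {B : ℝ} (hB : ∀ x, g x ≤ B) {ε : ℝ} (hε : 0 < ε) (x : E) :
    g x ≤ supb g ε x := by
  have hbd : BddAbove (range fun y : Metric.ball x ε => g y) := ⟨B, by
    rintro _ ⟨y, rfl⟩; exact hB _⟩
  exact le_ciSup hbd ⟨x, Metric.mem_ball_self hε⟩

omit [MeasurableSpace E] [BorelSpace E] in
theorem supb_le {g : E → ℝ} {ε : ℝ} (hε : 0 < ε) (x : E) {a : ℝ}
    (h : ∀ y, dist y x < ε → g y ≤ a) : supb g ε x ≤ a := by
  have hne : Nonempty (Metric.ball x ε) := ⟨⟨x, Metric.mem_ball_self hε⟩⟩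
  exact ciSup_le fun y => h y y.2

theorem meas_supb {g : E → ℝ} {B : ℝ} (hB : ∀ x, g x ≤ B) (ε : ℝ) (hε : 0 < ε) :
    Measurable (supb g ε) := by
  refine measurable_of_Ioi fun t => ?_
  have : supb g ε ⁻¹' Ioi t = {x | t < supb g ε x} := rfl
  rw [this, lt_supb hB hε]
  exact Metric.isOpen_thickening.measurableSet

/-- **coarea inequality** for bounded nonnegative differentiable functions with `g y ≤ g x + K |y-x|` -/
theorem coarea {μ : Measure E} [IsProbabilityMeasure μ] {g : E → ℝ} {B K : ℝ} (h0 : ∀ x, 0 ≤ g x)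
    (hB : ∀ x, g x ≤ B) (hK : ∀ x y, g y ≤ g x + K * dist y x) (hgm : Measurable g)
    {G : E → ℝ} (hG : ∀ x, ∀ η : ℝ, 0 < η → ∃ δ > 0, ∀ y, dist y x < δ →
      g y ≤ g x + (G x + η) * dist y x) :
    ∫⁻ t in Ioi (0 : ℝ), bdr μ {x | t < g x} ≤ ∫⁻ x, ENNReal.ofReal (G x) ∂μ := by
  have hB0 : 0 ≤ B := by
    obtain ⟨x⟩ := (inferInstance : Nonempty E)
    exact (h0 x).trans (hB x)
  set u : ℕ → ℝ := fun k => 1 / ((k : ℝ) + 1) with hu
  have hu0 : ∀ k, 0 < u k := fun k => by positivity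
  have hut : Tendsto u atTop (𝓝[>] 0) :=
    tendsto_nhdsWithin_iff.2 ⟨tendsto_one_div_add_atTop_nhds_zero_nat, Eventually.of_forall hu0⟩
  -- step 1: sequence
  have s1 : ∀ t : ℝ, bdr μ {x | t < g x} ≤
      liminf (fun k => (μ {x | t < supb g (u k) x} - μ {x | t < g x}) / ENNReal.ofReal (u k))
        atTop := by
    intro t
    unfold bdr
    calc liminf (fun ε : ℝ => (μ (Metric.thickening ε {x | t < g x}) - μ {x | t < g x}) /
            ENNReal.ofReal ε) (𝓝[>] 0)
        ≤ liminf (fun ε : ℝ => (μ (Metric.thickening ε {x | t < g x}) - μ {x | t < g x}) /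
            ENNReal.ofReal ε) (map u atTop) := liminf_le_liminf_of_le hut
      _ = _ := by
          rw [← Filter.liminf_comp]
          refine congrArg (fun F => liminf F atTop) (funext fun k => ?_)
          simp only [Function.comp]
          rw [lt_supb hB (hu0 k)]
  have m1 : ∀ h : E → ℝ, Measurable fun t : ℝ => μ {x | t < h x} := by
    intro h
    have : Antitone fun t : ℝ => μ {x | t < h x} := fun a b hab =>
      measure_mono fun x hx => lt_of_le_of_lt hab hx
    exact this.measurable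
  have s2 : ∫⁻ t in Ioi (0 : ℝ), bdr μ {x | t < g x} ≤
      liminf (fun k => ∫⁻ t in Ioi (0 : ℝ), (μ {x | t < supb g (u k) x} - μ {x | t < g x}) /
        ENNReal.ofReal (u k)) atTop := by
    refine (lintegral_mono fun t => s1 t).trans ?_
    exact lintegral_liminf_le fun k => ((m1 _).sub (m1 _)).div_const _
  have hfin : ∫⁻ t in Ioi (0 : ℝ), μ {x | t < g x} ≠ ⊤ := by
    rw [← lintegral_eq_lintegral_meas_lt μ (Eventually.of_forall h0) hgm.aemeasurable]
    refine ne_of_lt (lt_of_le_of_lt (lintegral_mono fun x => ENNReal.ofReal_le_ofReal (hB x)) ?_)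
    simp
  have s3 : ∀ k, ∫⁻ t in Ioi (0 : ℝ), (μ {x | t < supb g (u k) x} - μ {x | t < g x}) /
        ENNReal.ofReal (u k) = ∫⁻ x, ENNReal.ofReal ((supb g (u k) x - g x) / u k) ∂μ := by
    intro k
    have hs0 : ∀ x, 0 ≤ supb g (u k) x := fun x => (h0 x).trans (le_supb hB (hu0 k) x)
    have hms := meas_supb hB (u k) (hu0 k)
    simp only [div_eq_mul_inv]
    have a1 : ∫⁻ t in Ioi (0 : ℝ), (μ {x | t < supb g (u k) x} - μ {x | t < g x}) *
        (ENNReal.ofReal (u k))⁻¹ = (∫⁻ t in Ioi (0 : ℝ), (μ {x | t < supb g (u k) x} -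
          μ {x | t < g x})) * (ENNReal.ofReal (u k))⁻¹ :=
      lintegral_mul_const _ ((m1 _).sub (m1 _))
    have a2 : ∫⁻ t in Ioi (0 : ℝ), (μ {x | t < supb g (u k) x} - μ {x | t < g x}) =
        (∫⁻ t in Ioi (0 : ℝ), μ {x | t < supb g (u k) x}) - ∫⁻ t in Ioi (0 : ℝ), μ {x | t < g x} :=
      lintegral_sub (m1 _) hfin (Eventually.of_forall fun t => measure_mono fun x (hx : t < g x) =>
        lt_of_lt_of_le hx (le_supb hB (hu0 k) x))
    have a3 : ∫⁻ x, ENNReal.ofReal (g x) ∂μ ≠ ⊤ := by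
      rw [lintegral_eq_lintegral_meas_lt μ (Eventually.of_forall h0) hgm.aemeasurable]
      exact hfin
    have a4 : ∫⁻ x, (ENNReal.ofReal (supb g (u k) x) - ENNReal.ofReal (g x)) ∂μ =
        (∫⁻ x, ENNReal.ofReal (supb g (u k) x) ∂μ) - ∫⁻ x, ENNReal.ofReal (g x) ∂μ :=
      lintegral_sub hgm.ennreal_ofReal a3 (Eventually.of_forall fun x =>
        ENNReal.ofReal_le_ofReal (le_supb hB (hu0 k) x))
    have a5 : ∫⁻ x, (ENNReal.ofReal (supb g (u k) x) - ENNReal.ofReal (g x)) *
        (ENNReal.ofReal (u k))⁻¹ ∂μ = (∫⁻ x, (ENNReal.ofReal (supb g (u k) x) -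
          ENNReal.ofReal (g x)) ∂μ) * (ENNReal.ofReal (u k))⁻¹ :=
      lintegral_mul_const _ (hms.ennreal_ofReal.sub hgm.ennreal_ofReal)
    rw [a1, a2, ← lintegral_eq_lintegral_meas_lt μ (Eventually.of_forall h0) hgm.aemeasurable,
      ← lintegral_eq_lintegral_meas_lt μ (Eventually.of_forall hs0) hms.aemeasurable, ← a4, ← a5]
    refine lintegral_congr fun x => ?_
    rw [← ENNReal.ofReal_sub _ (h0 x), ENNReal.ofReal_mul (by
      have := le_supb hB (hu0 k) x; linarith), ENNReal.ofReal_inv_of_pos (hu0 k)]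
  rw [funext s3] at s2
  refine s2.trans (le_trans (liminf_le_limsup) ?_)
  -- reverse Fatou
  have hK0 : ∀ k x, (supb g (u k) x - g x) / u k ≤ |K| := by
    intro k x
    rw [div_le_iff₀ (hu0 k)]
    have : supb g (u k) x ≤ g x + |K| * u k := by
      refine supb_le (hu0 k) x fun y hy => (hK x y).trans ?_
      have h1 : K * dist y x ≤ |K| * u k :=
        (mul_le_mul_of_nonneg_right (le_abs_self K) dist_nonneg).trans
          (mul_le_mul_of_nonneg_left hy.le (abs_nonneg K))
      linarith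
    linarith
  have s4 := limsup_lintegral_le (μ := μ) (f := fun k x => ENNReal.ofReal ((supb g (u k) x - g x) / u k))
    (fun _ => ENNReal.ofReal |K|) (fun k =>
      (((meas_supb hB (u k) (hu0 k)).sub hgm).div_const _).ennreal_ofReal)
    (fun k => Eventually.of_forall fun x => ENNReal.ofReal_le_ofReal (hK0 k x)) (by simp)
  refine s4.trans (lintegral_mono fun x => ?_)
  -- pointwise
  refine ENNReal.le_of_forall_pos_le_add fun η hη _ => ?_
  obtain ⟨δ, hδ, hd⟩ := hG x η hη
  have hev : ∀ᶠ k in atTop, u k < δ := by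
    have := tendsto_one_div_add_atTop_nhds_zero_nat (𝕜 := ℝ)
    exact this.eventually (gt_mem_nhds hδ)
  refine limsup_le_of_le (by isBoundedDefault) ?_
  filter_upwards [hev] with k hk
  have h3 : (supb g (u k) x - g x) / u k ≤ max (G x) 0 + η := by
    rw [div_le_iff₀ (hu0 k)]
    have : supb g (u k) x ≤ g x + (max (G x) 0 + η) * u k := by
      refine supb_le (hu0 k) x fun y hy => (hd y (hy.trans hk)).trans ?_
      have h1 : (G x + η) * dist y x ≤ (max (G x) 0 + η) * u k := by
        have h2 : (G x + η) * dist y x ≤ (max (G x) 0 + η) * dist y x :=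
          mul_le_mul_of_nonneg_right (by have := le_max_left (G x) 0; linarith) dist_nonneg
        refine h2.trans (mul_le_mul_of_nonneg_left hy.le ?_)
        have : (0 : ℝ) < η := hη
        have := le_max_right (G x) 0
        linarith
      linarith
    linarith
  refine (ENNReal.ofReal_le_ofReal h3).trans ?_
  rw [ENNReal.ofReal_add (le_max_right _ _) (by exact hη.le), ENNReal.ofReal_coe_nnreal,
    ENNReal.ofReal_max, ENNReal.ofReal_zero, max_eq_left (zero_le)]

end coarea

end Pool.Agent.H776
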