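import Pool.Agent.H776.Sl

/-!
# Normalised densities, dominated limits, translations
-/

set_option autoImplicit false

namespace Pool.Agent.H776

open MeasureTheory Set Filter Topology
open scoped ENNReal InnerProductSpace
open Q289.LD (Den Ex)

variable {κ : Type} [Fintype κ]

/-- the probability measure with density proportional to `g` -/
noncomputable def nm (g : Eu κ → ℝ) : Measure (Eu κ) :=
  volume.withDensity fun x => ENNReal.ofReal (g x / ∫ y, g y)

/-- nonnegative, measurable, with positive integral and finite second moment -/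
structure Wt (g : Eu κ → ℝ) : Prop where
  nonneg : ∀ x, 0 ≤ g x
  meas : Measurable g
  pos : 0 < ∫ x, g x
  mom : Integrable fun x => (1 + ‖x‖ ^ 2) * g x

theorem Wt.integrable {g : Eu κ → ℝ} (h : Wt g) : Integrable g := by
  refine h.mom.mono' h.meas.aestronglyMeasurable (Eventually.of_forall fun x => ?_)
  rw [Real.norm_of_nonneg (h.nonneg x)]
  nlinarith [mul_nonneg (sq_nonneg ‖x‖) (h.nonneg x)]

theorem integral_nm {g : Eu κ → ℝ} (h0 : ∀ x, 0 ≤ g x) (hm : Measurable g) (φ : Eu κ → ℝ) :
    ∫ x, φ x ∂(nm g) = (∫ x, φ x * g x) / ∫ x, g x := by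
  have hZ : 0 ≤ ∫ x, g x := integral_nonneg h0
  unfold nm
  rw [integral_withDensity_eq_integral_toReal_smul (hm.div_const _).ennreal_ofReal
    (Eventually.of_forall fun x => ENNReal.ofReal_lt_top), ← integral_div]
  refine integral_congr_ae (Eventually.of_forall fun x => ?_)
  simp only [ENNReal.toReal_ofReal (div_nonneg (h0 x) hZ), smul_eq_mul]
  ring

theorem Wt.prob {g : Eu κ → ℝ} (h : Wt g) : IsProbabilityMeasure (nm g) := by
  refine ⟨?_⟩
  unfold nm
  rw [withDensity_apply _ MeasurableSet.univ, Measure.restrict_univ,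
    ← ofReal_integral_eq_lintegral_ofReal (h.integrable.div_const _)
      (Eventually.of_forall fun x => div_nonneg (h.nonneg x) h.pos.le), integral_div,
    div_self h.pos.ne', ENNReal.ofReal_one]

theorem Wt.int {g : Eu κ → ℝ} (h : Wt g) {φ : Eu κ → ℝ} (hφ : Grow φ) :
    Integrable (fun x => φ x * g x) := by
  obtain ⟨hc, B, hB⟩ := hφ
  refine (h.mom.const_mul B).mono' (hc.aestronglyMeasurable.mul h.meas.aestronglyMeasurable)
    (Eventually.of_forall fun x => ?_)
  rw [Real.norm_eq_abs, abs_mul, abs_of_nonneg (h.nonneg x), ← mul_assoc]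
  exact mul_le_mul_of_nonneg_right (hB x) (h.nonneg x)

theorem Wt.int_sq {g : Eu κ → ℝ} (h : Wt g) : Integrable (fun x => ‖x‖ ^ 2) (nm g) := by
  have hZ : 0 ≤ ∫ x, g x := h.pos.le
  unfold nm
  rw [integrable_withDensity_iff_integrable_smul' (h.meas.div_const _).ennreal_ofReal
    (Eventually.of_forall fun x => ENNReal.ofReal_lt_top)]
  refine (h.mom.div_const (∫ x, g x)).mono'
    (((h.meas.div_const _).ennreal_ofReal.ennreal_toReal.smul
      (by fun_prop : Measurable fun x : Eu κ => ‖x‖ ^ 2)).aestronglyMeasurable)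
    (Eventually.of_forall fun x => ?_)
  have h1 : 0 ≤ g x / ∫ y, g y := div_nonneg (h.nonneg x) hZ
  rw [ENNReal.toReal_ofReal h1, smul_eq_mul, Real.norm_of_nonneg (by positivity)]
  calc g x / (∫ y, g y) * ‖x‖ ^ 2 ≤ g x / (∫ y, g y) * (1 + ‖x‖ ^ 2) := by
        refine mul_le_mul_of_nonneg_left ?_ h1
        linarith
    _ = (1 + ‖x‖ ^ 2) * g x / ∫ y, g y := by ring

/-- dominated limits of densities -/
theorem W2.of_dom {ι : Type} {l : Filter ι} [l.IsCountablyGenerated] {g : ι → Eu κ → ℝ}
    {g' h : Eu κ → ℝ} (h0 : ∀ᶠ i in l, ∀ x, 0 ≤ g i x) (hm : ∀ᶠ i in l, Measurable (g i))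
    (hw : Wt g') (hd : ∀ᶠ i in l, ∀ x, g i x ≤ h x)
    (hi : Integrable fun x => (1 + ‖x‖ ^ 2) * h x)
    (hlim : ∀ᵐ x, Tendsto (fun i => g i x) l (𝓝 (g' x))) :
    (∀ᶠ i in l, Wt (g i)) ∧ W2 l (fun i => nm (g i)) (nm g') := by
  have key : ∀ φ : Eu κ → ℝ, Grow φ → Tendsto (fun i => ∫ x, φ x * g i x) l
      (𝓝 (∫ x, φ x * g' x)) := by
    intro φ hφ
    obtain ⟨hc, B, hB⟩ := hφ
    refine tendsto_integral_filter_of_dominated_convergence (fun x => |B| * ((1 + ‖x‖ ^ 2) * h x)) ?_
      ?_ (hi.const_mul _) ?_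
    · filter_upwards [hm] with i hi'
      exact hc.aestronglyMeasurable.mul hi'.aestronglyMeasurable
    · filter_upwards [h0, hd] with i hi1 hi2
      refine Eventually.of_forall fun x => ?_
      rw [Real.norm_eq_abs, abs_mul, abs_of_nonneg (hi1 x), ← mul_assoc]
      have h3 : |φ x| ≤ |B| * (1 + ‖x‖ ^ 2) :=
        (hB x).trans (mul_le_mul_of_nonneg_right (le_abs_self B) (by positivity))
      exact mul_le_mul h3 (hi2 x) (hi1 x) (by positivity)
    · filter_upwards [hlim] with x hx
      exact hx.const_mul _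
  have kone : Tendsto (fun i => ∫ x, g i x) l (𝓝 (∫ x, g' x)) := by
    have := key (fun _ => 1) (grow_bdd continuous_const (B := 1) (by simp))
    simpa using this
  have hW : ∀ᶠ i in l, Wt (g i) := by
    filter_upwards [h0, hm, hd, kone.eventually (lt_mem_nhds hw.pos)] with i h1 h2 h3 h4
    refine ⟨h1, h2, h4, ?_⟩
    refine hi.mono' ((by fun_prop : Measurable fun x : Eu κ => 1 + ‖x‖ ^ 2).mul
      h2).aestronglyMeasurable (Eventually.of_forall fun x => ?_)
    rw [Real.norm_of_nonneg (mul_nonneg (by positivity) (h1 x))]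
    exact mul_le_mul_of_nonneg_left (h3 x) (by positivity)
  refine ⟨hW, ⟨hW.mono fun i hi' => hi'.prob, hW.mono fun i hi' => hi'.int_sq, hw.int_sq, ?_⟩⟩
  intro φ hφ
  rw [integral_nm hw.nonneg hw.meas]
  have := (key φ hφ).div kone hw.pos.ne'
  refine this.congr' ?_
  filter_upwards [hW] with i hi'
  exact (integral_nm hi'.nonneg hi'.meas φ).symm

/-- translation -/
theorem nm_translate (g : Eu κ → ℝ) (c : Eu κ) :
    nm (fun y => g (y + c)) = (nm g).map fun x => x - c := by
  have e1 : ∫ y, g (y + c) = ∫ y, g y := integral_add_right_eq_self g c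
  unfold nm
  rw [e1]
  have hmp : MeasurePreserving (fun x : Eu κ => x - c) volume volume :=
    measurePreserving_sub_right volume c
  ext S hS
  rw [Measure.map_apply (by fun_prop) hS, withDensity_apply _ hS,
    withDensity_apply _ (hS.preimage (by fun_prop))]
  have hme : MeasurableEmbedding (fun x : Eu κ => x - c) :=
    (MeasurableEquiv.subRight c).measurableEmbedding
  rw [← hmp.setLIntegral_comp_preimage_emb hme
    (fun y => ENNReal.ofReal (g (y + c) / ∫ y, g y))]
  simp

theorem map_translate_integral {μ : Measure (Eu κ)} (c : Eu κ) (φ : Eu κ → ℝ) :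
    ∫ x, φ x ∂(μ.map fun x => x - c) = ∫ x, φ (x - c) ∂μ :=
  (MeasurableEquiv.subRight c).measurableEmbedding.integral_map φ

theorem covLe_translate {μ : Measure (Eu κ)} [IsProbabilityMeasure μ] {c : Eu κ} {s : ℝ}
    (hi : Integrable (fun x => ‖x‖ ^ 2) μ) :
    CovLe (μ.map fun x => x - c) s ↔ CovLe μ s := by
  unfold CovLe
  refine forall_congr' fun θ => forall_congr' fun hθ => ?_
  have h1 : ProbabilityTheory.variance (fun x => ⟪x, θ⟫_ℝ) (μ.map fun x => x - c) =
      ProbabilityTheory.variance (fun x => ⟪x, θ⟫_ℝ) μ := by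
    rw [ProbabilityTheory.variance_map (by fun_prop : Measurable fun x : Eu κ =>
      ⟪x, θ⟫_ℝ).aemeasurable (by fun_prop)]
    have : ((fun x : Eu κ => ⟪x, θ⟫_ℝ) ∘ fun x => x - c) = fun x => ⟪x, θ⟫_ℝ - ⟪c, θ⟫_ℝ := by
      funext x
      simp [inner_sub_left]
    rw [this]
    exact ProbabilityTheory.variance_sub_const
      ((grow_inner θ).integrable hi).aestronglyMeasurable _
  rw [h1]

theorem poi_translate {μ : Measure (Eu κ)} {c : Eu κ} {D : ℝ} (h : Poi μ D) :
    Poi (μ.map fun x => x - c) D := by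
  intro f B L hf
  have hd : ∀ x, fderiv ℝ (fun x => f (x - c)) x = fderiv ℝ f (x - c) := fun x => by
    rw [fderiv_comp_sub]
  have hf' : Tst (fun x => f (x - c)) B L := by
    refine ⟨hf.diff.comp (contDiff_id.sub contDiff_const), fun x => hf.bdd _, fun x => ?_⟩
    rw [hd]
    exact hf.grad _
  have h1 := h _ B L hf'
  simp only [hd] at h1
  rw [map_translate_integral, map_translate_integral, map_translate_integral]
  exact h1

theorem KP.translate {g : Eu κ → ℝ} (hg : Wt g) {c : Eu κ} {D : ℝ} (h : KP (nm g) D) :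
    KP (nm fun y => g (y + c)) D := by
  rw [nm_translate]
  have := hg.prob
  intro s hs hcov
  rw [covLe_translate hg.int_sq] at hcov
  exact poi_translate (h s hs hcov)

end Pool.Agent.H776
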