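import Pool.Graph.R_seed8.H888R2.KT.N9
import Pool.Graph.R_seed8.H888R2.KT.N10

/-!
# The Poincare inequality for even log-concave measures from even functions: the Gaussian channel

For an even log-concave density with bounded support: if the variance of even functions is at most
`D` times the energy and the variances of linear functionals are at most `s ‖θ‖²`, then the
variance of all functions is at most `2 (D + s)` times the energy.
-/

set_option autoImplicit false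

namespace Pool.Agent.H776.EV

open MeasureTheory Set Filter Topology
open scoped ENNReal InnerProductSpace
open Pool.Agent.H212R2.KLS (mu Bdd)
open Pool.Agent.H888R2.KT (LC zz pst gs gc hs St fub zz_pos gc_pos pst_smooth pst_deriv gs_deriv key
  l2step var_contr ball_poincare)
open Pool.Agent.H888R2.KT.N9x (W W_eq W_le int_cont mass_pos finm grad_cont dir_cont hs_cont)

variable {κ : Type} [Fintype κ] {ρ : EuclideanSpace ℝ κ → ℝ}

/-- one step of the Gaussian channel and back -/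
noncomputable def pp (h : ℝ) (ρ u : EuclideanSpace ℝ κ → ℝ) : EuclideanSpace ℝ κ → ℝ :=
  gs h (pst h ρ u)

/-- the energy -/
noncomputable def en (ρ u : EuclideanSpace ℝ κ → ℝ) : ℝ := ∫ x, ‖fderiv ℝ u x‖ ^ 2 ∂(mu ρ)

/-- the discrete energy -/
noncomputable def dd (h : ℝ) (ρ u : EuclideanSpace ℝ κ → ℝ) : ℝ :=
  ∫ x, u x ^ 2 ∂(mu ρ) - ∫ x, u x * pp h ρ u x ∂(mu ρ)

theorem en_nonneg (u : EuclideanSpace ℝ κ → ℝ) : 0 ≤ en ρ u :=
  integral_nonneg fun _ => sq_nonneg _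

theorem pair (hρ : LC ρ) {h : ℝ} (hh : 0 < h) {u w : EuclideanSpace ℝ κ → ℝ} (hu : Continuous u)
    (hw : Continuous w) :
    Integrable (fun y => pst h ρ u y * pst h ρ w y * zz h ρ y) ∧ Continuous (pp h ρ w) ∧
      ∫ x, u x * pp h ρ w x ∂(mu ρ) =
        (gc κ h)⁻¹ * ∫ y, pst h ρ u y * pst h ρ w y * zz h ρ y := by
  obtain ⟨hg, B, hB⟩ := pst_smooth hρ h hh w hw
  exact fub hρ h hh u (pst h ρ w) hu hg.continuous B fun y => (hB y).1

theorem pp_cont (hρ : LC ρ) {h : ℝ} (hh : 0 < h) {u : EuclideanSpace ℝ κ → ℝ} (hu : Continuous u) :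
    Continuous (pp h ρ u) := (pair hρ hh hu hu).2.1

theorem pp_symm (hρ : LC ρ) {h : ℝ} (hh : 0 < h) {u w : EuclideanSpace ℝ κ → ℝ}
    (hu : Continuous u) (hw : Continuous w) :
    ∫ x, u x * pp h ρ w x ∂(mu ρ) = ∫ x, w x * pp h ρ u x ∂(mu ρ) := by
  rw [(pair hρ hh hu hw).2.2, (pair hρ hh hw hu).2.2]
  congr 1
  refine integral_congr_ae (Eventually.of_forall fun y => ?_)
  simp only
  ring

/-- the discrete energy decreases -/
theorem dd_step (hρ : LC ρ) {h : ℝ} (hh : 0 < h) {u : EuclideanSpace ℝ κ → ℝ}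
    (hu : Continuous u) :
    ∫ x, (u x - pp h ρ u x) ^ 2 ∂(mu ρ) ≤ dd h ρ u - dd h ρ (pp h ρ u) := by
  obtain ⟨v, hv⟩ : ∃ v, v = pp h ρ u := ⟨_, rfl⟩
  have hvc : Continuous v := by rw [hv]; exact pp_cont hρ hh hu
  obtain ⟨i1, -, e1⟩ := pair hρ hh hu hu
  obtain ⟨i2, -, e2⟩ := pair hρ hh hu hvc
  obtain ⟨i3, -, e3⟩ := pair hρ hh hvc hvc
  have e4 := pp_symm hρ hh hu hvc
  rw [← hv] at e1 e4 ⊢
  have hg := (gc_pos (κ := κ) h hh).1
  -- positivity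
  have h1 : 0 ≤ ∫ y, (pst h ρ u y - pst h ρ v y) ^ 2 * zz h ρ y :=
    integral_nonneg fun y => mul_nonneg (sq_nonneg _) (zz_pos hρ h hh y).1.le
  have h2 : ∫ y, (pst h ρ u y - pst h ρ v y) ^ 2 * zz h ρ y =
      (∫ y, pst h ρ u y * pst h ρ u y * zz h ρ y) -
        2 * (∫ y, pst h ρ u y * pst h ρ v y * zz h ρ y) +
        ∫ y, pst h ρ v y * pst h ρ v y * zz h ρ y := by
    rw [← integral_const_mul, ← integral_sub i1 (i2.const_mul 2)]
    have h3 := integral_add (i1.sub (i2.const_mul 2)) i3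
    simp only [Pi.sub_apply] at h3
    rw [← h3]
    refine integral_congr_ae (Eventually.of_forall fun y => ?_)
    simp only
    ring
  rw [h2] at h1
  have h3 := mul_nonneg (inv_pos.2 hg).le h1
  have h4 : (gc κ h)⁻¹ * ((∫ y, pst h ρ u y * pst h ρ u y * zz h ρ y) -
        2 * (∫ y, pst h ρ u y * pst h ρ v y * zz h ρ y) +
        ∫ y, pst h ρ v y * pst h ρ v y * zz h ρ y) =
      ∫ x, u x * v x ∂(mu ρ) - 2 * ∫ x, v x * v x ∂(mu ρ) + ∫ x, v x * pp h ρ v x ∂(mu ρ) := by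
    rw [← e4, e1, e2, e3]
    ring
  rw [h4] at h3
  have i5 : Integrable (fun x => u x ^ 2) (mu ρ) := int_cont hρ (hu.pow 2)
  have i6 : Integrable (fun x => u x * v x) (mu ρ) := int_cont hρ (hu.mul hvc)
  have i7 : Integrable (fun x => v x * v x) (mu ρ) := int_cont hρ (hvc.mul hvc)
  have h5 : ∫ x, (u x - v x) ^ 2 ∂(mu ρ) =
      ∫ x, u x ^ 2 ∂(mu ρ) - 2 * ∫ x, u x * v x ∂(mu ρ) + ∫ x, v x * v x ∂(mu ρ) := by
    rw [← integral_const_mul, ← integral_sub i5 (i6.const_mul 2)]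
    have h6 := integral_add (i5.sub (i6.const_mul 2)) i7
    simp only [Pi.sub_apply] at h6
    rw [← h6]
    refine integral_congr_ae (Eventually.of_forall fun x => ?_)
    simp only
    ring
  rw [h5]
  unfold dd
  rw [← hv]
  have e6 : ∫ x, v x ^ 2 ∂(mu ρ) = ∫ x, v x * v x ∂(mu ρ) := by
    simp only [sq]
  rw [e6]
  linarith

/-- integral of posterior means -/
theorem fub1 (hρ : LC ρ) {h : ℝ} (hh : 0 < h) {f : EuclideanSpace ℝ κ → ℝ} (hf : Continuous f) :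
    Integrable (fun y => pst h ρ f y * zz h ρ y) ∧
      ∫ x, f x ∂(mu ρ) = (gc κ h)⁻¹ * ∫ y, pst h ρ f y * zz h ρ y :=
  Pool.Agent.H888R2.KT.N9ax.fub1 hρ h hh f hf

/-- Jensen -/
theorem pst_sq (hρ : LC ρ) {h : ℝ} (hh : 0 < h) {u : EuclideanSpace ℝ κ → ℝ} (hu : Continuous u)
    (y : EuclideanSpace ℝ κ) : pst h ρ u y ^ 2 ≤ pst h ρ (fun x => u x ^ 2) y := by
  obtain ⟨hz, hi⟩ := zz_pos hρ h hh y
  obtain ⟨c, hc⟩ : ∃ c, c = pst h ρ u y := ⟨_, rfl⟩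
  have h1 : 0 ≤ ∫ x, (u x - c) ^ 2 * Real.exp (-(‖x - y‖ ^ 2 / (2 * h))) ∂(mu ρ) :=
    integral_nonneg fun x => mul_nonneg (sq_nonneg _) (Real.exp_pos _).le
  have i1 := hi (fun x => u x ^ 2) (hu.pow 2)
  have i2 := hi u hu
  have i3 := hi (fun _ => (1 : ℝ)) continuous_const
  have h2 : ∫ x, (u x - c) ^ 2 * Real.exp (-(‖x - y‖ ^ 2 / (2 * h))) ∂(mu ρ) =
      (∫ x, u x ^ 2 * Real.exp (-(‖x - y‖ ^ 2 / (2 * h))) ∂(mu ρ)) -
        2 * c * (∫ x, u x * Real.exp (-(‖x - y‖ ^ 2 / (2 * h))) ∂(mu ρ)) + c ^ 2 * zz h ρ y := by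
    have e : zz h ρ y = ∫ x, 1 * Real.exp (-(‖x - y‖ ^ 2 / (2 * h))) ∂(mu ρ) := by
      unfold zz
      simp only [one_mul]
    rw [e, ← integral_const_mul, ← integral_const_mul, ← integral_sub i1 (i2.const_mul _)]
    have h3 := integral_add (i1.sub (i2.const_mul (2 * c))) (i3.const_mul (c ^ 2))
    simp only [Pi.sub_apply] at h3
    rw [← h3]
    refine integral_congr_ae (Eventually.of_forall fun x => ?_)
    simp only
    ring
  have h3 : (∫ x, u x * Real.exp (-(‖x - y‖ ^ 2 / (2 * h))) ∂(mu ρ)) = c * zz h ρ y := by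
    rw [hc]
    unfold pst
    rw [div_mul_cancel₀ _ hz.ne']
  rw [h2, h3] at h1
  rw [← hc]
  show c ^ 2 ≤ (∫ x, u x ^ 2 * Real.exp (-(‖x - y‖ ^ 2 / (2 * h))) ∂(mu ρ)) / zz h ρ y
  rw [le_div_iff₀ hz]
  nlinarith

theorem dd_nonneg (hρ : LC ρ) {h : ℝ} (hh : 0 < h) {u : EuclideanSpace ℝ κ → ℝ}
    (hu : Continuous u) : 0 ≤ dd h ρ u := by
  obtain ⟨i1, -, e1⟩ := pair hρ hh hu hu
  obtain ⟨i2, e2⟩ := fub1 (f := fun x => u x ^ 2) hρ hh (hu.pow 2)
  unfold dd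
  rw [e1, e2, ← mul_sub]
  refine mul_nonneg (inv_pos.2 (gc_pos (κ := κ) h hh).1).le ?_
  rw [sub_nonneg]
  refine integral_mono i1 i2 fun y => ?_
  show pst h ρ u y * pst h ρ u y * zz h ρ y ≤ pst h ρ (fun x => u x ^ 2) y * zz h ρ y
  refine mul_le_mul_of_nonneg_right ?_ (zz_pos hρ h hh y).1.le
  rw [← sq]
  exact pst_sq hρ hh hu y

theorem dd_le (hρ : LC ρ) {h : ℝ} (hh : 0 < h) {u : EuclideanSpace ℝ κ → ℝ}
    (hu : ContDiff ℝ 1 u) : dd h ρ u ≤ h * en ρ u := by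
  have huc := hu.continuous
  obtain ⟨i1, -, e1⟩ := pair hρ hh huc huc
  obtain ⟨i2, e2⟩ := fub1 (f := fun x => u x ^ 2) hρ hh (huc.pow 2)
  obtain ⟨i3, e3⟩ := fub1 hρ hh (grad_cont hu)
  unfold dd en
  rw [e1, e2, e3, ← mul_sub, mul_left_comm]
  refine mul_le_mul_of_nonneg_left ?_ (inv_pos.2 (gc_pos (κ := κ) h hh).1).le
  rw [← integral_sub i2 i1, ← integral_const_mul]
  refine integral_mono (i2.sub i1) (i3.const_mul h) fun y => ?_
  show pst h ρ (fun x => u x ^ 2) y * zz h ρ y - pst h ρ u y * pst h ρ u y * zz h ρ y ≤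
    h * (pst h ρ (fun x => ‖fderiv ℝ u x‖ ^ 2) y * zz h ρ y)
  have h4 := var_contr hρ h hh u hu y
  have h5 := (zz_pos hρ h hh y).1
  nlinarith [mul_le_mul_of_nonneg_right h4 h5.le]

/-- **the mean of the gradient** -/
theorem mean_grad (hρ : LC ρ) {h : ℝ} (hh : 0 < h) {u : EuclideanSpace ℝ κ → ℝ}
    (hu : Continuous u) (w : EuclideanSpace ℝ κ) :
    h * ∫ x, fderiv ℝ (pp h ρ u) x w ∂(mu ρ) =
      ∫ x, (u x - pp h ρ u x) * ⟪x, w⟫_ℝ ∂(mu ρ) := by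
  obtain ⟨hg, B, hB⟩ := pst_smooth hρ h hh u hu
  have hgc : Continuous (pst h ρ u) := hg.continuous
  have hwc : Continuous fun x : EuclideanSpace ℝ κ => ⟪x, w⟫_ℝ := by fun_prop
  obtain ⟨-, hd⟩ := gs_deriv h hh (pst h ρ u) (hg.of_le (by norm_num)) B (fun y => (hB y).1)
    fun y => (hB y).2.1
  have hd2 : ∀ y, fderiv ℝ (pst h ρ u) y w = h⁻¹ * (pst h ρ (fun x => u x * ⟪x, w⟫_ℝ) y -
      pst h ρ u y * pst h ρ (fun x => ⟪x, w⟫_ℝ) y) := fun y => (pst_deriv hρ h hh u hu y).2 w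
  have hfc : Continuous fun y => fderiv ℝ (pst h ρ u) y w :=
    (hg.continuous_fderiv (by norm_num)).clm_apply continuous_const
  have hfb : ∀ y, |fderiv ℝ (pst h ρ u) y w| ≤ B * ‖w‖ := by
    intro y
    rw [← Real.norm_eq_abs]
    exact ((fderiv ℝ (pst h ρ u) y).le_opNorm w).trans
      (mul_le_mul_of_nonneg_right (hB y).2.1 (norm_nonneg w))
  obtain ⟨i0, -, e0⟩ := fub hρ h hh (fun _ => 1) _ continuous_const hfc _ hfb
  have hp1 : ∀ y, pst h ρ (fun _ => 1) y = 1 := Pool.Agent.H888R2.KT.N9ax.pst_one hρ h hh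
  simp only [hp1, one_mul] at i0 e0
  obtain ⟨i1, e1⟩ := fub1 (f := fun x => u x * ⟪x, w⟫_ℝ) hρ hh (hu.mul hwc)
  obtain ⟨i2, -, e2⟩ := pair hρ hh hwc hu
  have h1 : ∫ x, fderiv ℝ (pp h ρ u) x w ∂(mu ρ) =
      ∫ x, gs h (fun y => fderiv ℝ (pst h ρ u) y w) x ∂(mu ρ) :=
    integral_congr_ae (Eventually.of_forall fun x => hd x w)
  rw [h1, e0]
  have h2 : ∫ y, fderiv ℝ (pst h ρ u) y w * zz h ρ y =
      h⁻¹ * ((∫ y, pst h ρ (fun x => u x * ⟪x, w⟫_ℝ) y * zz h ρ y) -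
        ∫ y, pst h ρ (fun x => ⟪x, w⟫_ℝ) y * pst h ρ u y * zz h ρ y) := by
    rw [← integral_sub i1 i2, ← integral_const_mul]
    refine integral_congr_ae (Eventually.of_forall fun y => ?_)
    simp only [hd2]
    ring
  rw [h2]
  have i5 : Integrable (fun x => u x * ⟪x, w⟫_ℝ) (mu ρ) := int_cont hρ (hu.mul hwc)
  have i6 : Integrable (fun x => ⟪x, w⟫_ℝ * pp h ρ u x) (mu ρ) :=
    int_cont hρ (hwc.mul (pp_cont hρ hh hu))
  have h3 : ∫ x, (u x - pp h ρ u x) * ⟪x, w⟫_ℝ ∂(mu ρ) =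
      ∫ x, u x * ⟪x, w⟫_ℝ ∂(mu ρ) - ∫ x, ⟪x, w⟫_ℝ * pp h ρ u x ∂(mu ρ) := by
    rw [← integral_sub i5 i6]
    refine integral_congr_ae (Eventually.of_forall fun x => ?_)
    simp only
    ring
  rw [h3, e1, e2]
  field_simp

/-- the reflection at the origin -/
noncomputable def ngE : EuclideanSpace ℝ κ ≃ₗᵢ[ℝ] EuclideanSpace ℝ κ := LinearIsometryEquiv.neg ℝ

theorem ngE_apply (x : EuclideanSpace ℝ κ) : ngE x = -x := rfl

theorem int_neg (hρ : LC ρ) (he : ∀ x, ρ (-x) = ρ x) (f : EuclideanSpace ℝ κ → ℝ) :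
    ∫ x, f (-x) ∂(mu ρ) = ∫ x, f x ∂(mu ρ) :=
  Pool.Agent.H888R2.KT.N10x.int_comp hρ.meas ngE he f

theorem pp_odd (hρ : LC ρ) (he : ∀ x, ρ (-x) = ρ x) {h : ℝ} {u : EuclideanSpace ℝ κ → ℝ}
    (hu : ∀ x, u (-x) = -u x) (x : EuclideanSpace ℝ κ) : pp h ρ u (-x) = -pp h ρ u x := by
  have h1 : ∀ y, pst h ρ u (-y) = -pst h ρ u y := by
    intro y
    unfold pst
    have e1 : zz h ρ (-y) = zz h ρ y := Pool.Agent.H888R2.KT.N10x.zz_eq hρ.meas h ngE he y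
    rw [e1, ← neg_div, ← integral_neg,
      ← int_neg hρ he (fun x => u x * Real.exp (-(‖x - -y‖ ^ 2 / (2 * h))))]
    congr 1
    refine integral_congr_ae (Eventually.of_forall fun x => ?_)
    simp only
    rw [hu, show -x - -y = -(x - y) by abel, norm_neg]
    ring
  unfold pp gs
  rw [← neg_div, ← integral_neg]
  have h2 := Pool.Agent.H888R2.KT.N10x.int_comp_vol (ngE (κ := κ))
    (fun y => pst h ρ u y * Real.exp (-(‖-x - y‖ ^ 2 / (2 * h))))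
  rw [← h2]
  congr 1
  refine integral_congr_ae (Eventually.of_forall fun y => ?_)
  simp only [ngE_apply]
  rw [h1, show -x - -y = -(x - y) by abel, norm_neg]
  ring

end Pool.Agent.H776.EV
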