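import Pool.Agent.H776.EV1

/-!
# The Poincare inequality for even log-concave measures from even functions: iteration
-/

set_option autoImplicit false

namespace Pool.Agent.H776.EV

open MeasureTheory Set Filter Topology
open scoped ENNReal InnerProductSpace
open Pool.Agent.H212R2.KLS (mu Bdd)
open Pool.Agent.H888R2.KT (LC zz pst gs gc hs St fub zz_pos gc_pos pst_smooth pst_deriv gs_deriv key
  l2step var_contr ball_poincare)
open Pool.Agent.H888R2.KT.N9x (W W_eq W_le int_cont mass_pos finm grad_cont dir_cont hs_cont)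

variable {κ : Type} [Fintype κ] {ρ : EuclideanSpace ℝ κ → ℝ}

/-- Poincare inequality for even functions -/
def EP (ρ : EuclideanSpace ℝ κ → ℝ) (D : ℝ) : Prop :=
  ∀ w : EuclideanSpace ℝ κ → ℝ, ContDiff ℝ 1 w → (∀ x, w (-x) = w x) → W ρ w ≤ D * en ρ w

/-- bounds of the second moments -/
def CP (ρ : EuclideanSpace ℝ κ → ℝ) (s : ℝ) : Prop :=
  ∀ θ : EuclideanSpace ℝ κ, ∫ x, ⟪x, θ⟫_ℝ ^ 2 ∂(mu ρ) ≤ s * ‖θ‖ ^ 2 * (mu ρ).real univ

theorem st0 (hρ : LC ρ) (L : ℝ) (e : Fin 0 → EuclideanSpace ℝ κ) : St e L ρ := by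
  intro x y
  have h1 := hρ.logc x y (1 / 2) (by norm_num) (by norm_num)
  have h2 : (1 - 1 / 2 : ℝ) • x + (1 / 2 : ℝ) • y = (1 / 2 : ℝ) • (x + y) := by
    rw [smul_add]; norm_num
  rw [h2] at h1
  have h3 : (1 - 1 / 2 : ℝ) = 1 / 2 := by norm_num
  rw [h3] at h1
  have h4 : 0 ≤ ρ x ^ (1 / 2 : ℝ) * ρ y ^ (1 / 2 : ℝ) :=
    mul_nonneg (Real.rpow_nonneg (hρ.nonneg x) _) (Real.rpow_nonneg (hρ.nonneg y) _)
  have h5 := pow_le_pow_left₀ h4 h1 2
  rw [mul_pow] at h5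
  have h6 : ∀ a : ℝ, 0 ≤ a → (a ^ (1 / 2 : ℝ)) ^ 2 = a := by
    intro a ha
    rw [← Real.sqrt_eq_rpow, Real.sq_sqrt ha]
  rw [h6 _ (hρ.nonneg x), h6 _ (hρ.nonneg y)] at h5
  simpa using h5

open Classical in
/-- the partial derivatives -/
noncomputable def pd (v : EuclideanSpace ℝ κ → ℝ) (i : κ) (x : EuclideanSpace ℝ κ) : ℝ :=
  fderiv ℝ v x (EuclideanSpace.single i 1)

theorem pd_diff {v : EuclideanSpace ℝ κ → ℝ} (hv : ContDiff ℝ 2 v) (i : κ) :
    ContDiff ℝ 1 (pd v i) :=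
  (hv.fderiv_right (m := 1) (by norm_num)).clm_apply contDiff_const

theorem en_eq (hρ : LC ρ) {v : EuclideanSpace ℝ κ → ℝ} (hv : ContDiff ℝ 2 v) :
    en ρ v = ∑ i, ∫ x, pd v i x ^ 2 ∂(mu ρ) := by
  classical
  unfold en
  have hi : ∀ i, Integrable (fun x => pd v i x ^ 2) (mu ρ) := fun i =>
    int_cont hρ ((pd_diff hv i).continuous.pow 2)
  rw [← integral_finsetSum _ fun i _ => hi i]
  refine integral_congr_ae (Eventually.of_forall fun x => ?_)
  simp only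
  rw [Pool.Agent.H888R2.KT.N8x.norm_sq_clm]
  refine Finset.sum_congr rfl fun i _ => ?_
  unfold pd
  have e : @EuclideanSpace.single κ ℝ _ (fun a b => Classical.propDecidable (a = b)) i (1:ℝ) =
      EuclideanSpace.single i (1:ℝ) :=
    congrArg (fun d => @EuclideanSpace.single κ ℝ _ d i (1 : ℝ)) (Subsingleton.elim _ _)
  rw [e]

theorem hs_sum (hρ : LC ρ) {v : EuclideanSpace ℝ κ → ℝ} (hv : ContDiff ℝ 2 v) :
    ∫ x, hs v x ∂(mu ρ) = ∑ i, en ρ (pd v i) := by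
  unfold en
  rw [← integral_finsetSum _ fun i _ => int_cont hρ (grad_cont (pd_diff hv i))]
  rfl

/-- partial derivatives of odd functions are even -/
theorem pd_even {v : EuclideanSpace ℝ κ → ℝ} (hv : ContDiff ℝ 1 v) (ho : ∀ x, v (-x) = -v x)
    (i : κ) (x : EuclideanSpace ℝ κ) : pd v i (-x) = pd v i x := by
  unfold pd
  have hd : Differentiable ℝ v := hv.differentiable (by norm_num)
  have h1 : HasFDerivAt (fun x => v (-x)) (-fderiv ℝ v (-x)) x := by
    have h2 := (hd (-x)).hasFDerivAt.comp x (hasFDerivAt_id x).neg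
    have e : (fderiv ℝ v (-x)).comp (-ContinuousLinearMap.id ℝ (EuclideanSpace ℝ κ)) =
        -fderiv ℝ v (-x) := by
      ext y
      simp
    rw [e] at h2
    exact h2
  have h3 : HasFDerivAt (fun x => v (-x)) (-fderiv ℝ v x) x := by
    have h4 : (fun x => v (-x)) = fun x => -v x := funext ho
    rw [h4]
    exact (hd x).hasFDerivAt.neg
  have h5 := h1.unique h3
  rw [neg_inj] at h5
  rw [h5]

/-- the Lyapunov function -/
noncomputable def psi (D s h : ℝ) (ρ u : EuclideanSpace ℝ κ → ℝ) : ℝ :=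
  D * en ρ u + s / h * dd h ρ u

/-- the means of the gradient -/
theorem mean_sq (hρ : LC ρ) {s : ℝ} (hs : 0 < s) (hc : CP ρ s) {h : ℝ} (hh : 0 < h)
    {u : EuclideanSpace ℝ κ → ℝ} (hu : Continuous u) :
    h ^ 2 * ∑ i, (∫ x, pd (pp h ρ u) i x ∂(mu ρ)) ^ 2 ≤
      s * (mu ρ).real univ * ∫ x, (u x - pp h ρ u x) ^ 2 ∂(mu ρ) := by
  classical
  obtain ⟨v, hv⟩ : ∃ v, v = pp h ρ u := ⟨_, rfl⟩
  have hvc : Continuous v := by rw [hv]; exact pp_cont hρ hh hu
  have hM := mass_pos hρ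
  set M := (mu ρ).real univ with hMdef
  obtain ⟨q, hq⟩ : ∃ q : EuclideanSpace ℝ κ, q = WithLp.toLp 2 fun i =>
    h * ∫ x, pd v i x ∂(mu ρ) := ⟨_, rfl⟩
  have hqi : ∀ i, q i = ∫ x, (u x - v x) * x i ∂(mu ρ) := by
    intro i
    rw [hq]
    show h * ∫ x, pd v i x ∂(mu ρ) = _
    have h1 := mean_grad hρ hh hu (EuclideanSpace.single i (1 : ℝ))
    rw [← hv] at h1
    unfold pd
    have e : @EuclideanSpace.single κ ℝ _ (fun a b => Classical.propDecidable (a = b)) i (1:ℝ) =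
        EuclideanSpace.single i (1:ℝ) :=
      congrArg (fun d => @EuclideanSpace.single κ ℝ _ d i (1 : ℝ)) (Subsingleton.elim _ _)
    rw [e, h1]
    refine integral_congr_ae (Eventually.of_forall fun x => ?_)
    simp only
    rw [EuclideanSpace.inner_single_right]
    simp
  have hqn : ‖q‖ ^ 2 = h ^ 2 * ∑ i, (∫ x, pd v i x ∂(mu ρ)) ^ 2 := by
    rw [EuclideanSpace.real_norm_sq_eq, Finset.mul_sum]
    refine Finset.sum_congr rfl fun i _ => ?_
    rw [hq]
    show (h * ∫ x, pd v i x ∂(mu ρ)) ^ 2 = _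
    ring
  have hqc : Continuous fun x : EuclideanSpace ℝ κ => ⟪x, q⟫_ℝ := by fun_prop
  have hS : ‖q‖ ^ 2 = ∫ x, (u x - v x) * ⟪x, q⟫_ℝ ∂(mu ρ) := by
    have e1 : ∀ x : EuclideanSpace ℝ κ, (u x - v x) * ⟪x, q⟫_ℝ =
        ∑ i, q i * ((u x - v x) * x i) := by
      intro x
      rw [PiLp.inner_apply, Finset.mul_sum]
      refine Finset.sum_congr rfl fun i _ => ?_
      simp
      ring
    simp only [e1]
    rw [integral_finsetSum _ fun i _ => (int_cont hρ (by fun_prop :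
      Continuous fun x : EuclideanSpace ℝ κ => (u x - v x) * x i)).const_mul (q i),
      EuclideanSpace.real_norm_sq_eq]
    refine Finset.sum_congr rfl fun i _ => ?_
    rw [integral_const_mul, ← hqi, sq]
  rw [← hv, ← hqn]
  have h1 : 0 ≤ ∫ x, (s * M * (u x - v x) - ⟪x, q⟫_ℝ) ^ 2 ∂(mu ρ) :=
    integral_nonneg fun x => sq_nonneg _
  have i1 : Integrable (fun x => (u x - v x) ^ 2) (mu ρ) := int_cont hρ ((hu.sub hvc).pow 2)
  have i2 : Integrable (fun x => (u x - v x) * ⟪x, q⟫_ℝ) (mu ρ) :=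
    int_cont hρ ((hu.sub hvc).mul hqc)
  have i3 : Integrable (fun x => ⟪x, q⟫_ℝ ^ 2) (mu ρ) := int_cont hρ (hqc.pow 2)
  have h2 : ∫ x, (s * M * (u x - v x) - ⟪x, q⟫_ℝ) ^ 2 ∂(mu ρ) =
      (s * M) ^ 2 * (∫ x, (u x - v x) ^ 2 ∂(mu ρ)) -
        2 * (s * M) * (∫ x, (u x - v x) * ⟪x, q⟫_ℝ ∂(mu ρ)) + ∫ x, ⟪x, q⟫_ℝ ^ 2 ∂(mu ρ) := by
    rw [← integral_const_mul, ← integral_const_mul,
      ← integral_sub (i1.const_mul _) (i2.const_mul _)]
    have h3 := integral_add ((i1.const_mul ((s * M) ^ 2)).sub (i2.const_mul (2 * (s * M)))) i3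
    simp only [Pi.sub_apply] at h3
    rw [← h3]
    refine integral_congr_ae (Eventually.of_forall fun x => ?_)
    simp only
    ring
  rw [h2, ← hS] at h1
  have h3 := hc q
  have h4 : 0 < s * M := by positivity
  by_contra hcon
  rw [not_le] at hcon
  have h5 := mul_lt_mul_of_pos_left hcon h4
  have h6 : s * ‖q‖ ^ 2 * M = s * M * ‖q‖ ^ 2 := by ring
  rw [h6] at h3
  nlinarith

/-- **one step** -/
theorem odd_step (hρ : LC ρ) {D s : ℝ} (hD : 0 ≤ D) (hsp : 0 < s) (hE : EP ρ D) (hc : CP ρ s)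
    (he : ∀ x, ρ (-x) = ρ x) {h : ℝ} (hh : 0 < h) {u : EuclideanSpace ℝ κ → ℝ}
    (hu : ContDiff ℝ 1 u) (ho : ∀ x, u (-x) = -u x) :
    ContDiff ℝ 2 (pp h ρ u) ∧
      h * en ρ (pp h ρ u) + psi D s h ρ (pp h ρ u) ≤ psi D s h ρ u := by
  obtain ⟨h1, h2⟩ := key hρ (fun j : Fin 0 => (j.elim0 : EuclideanSpace ℝ κ))
    ⟨fun j => j.elim0, fun j => j.elim0⟩ h hh (st0 hρ h _) h hh u hu
  have hpp : gs h (pst h ρ u) = pp h ρ u := rfl
  rw [hpp] at h1 h2
  refine ⟨h1, ?_⟩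
  have h3 := dd_step hρ hh hu.continuous
  have h4 := mean_sq hρ hsp hc hh hu.continuous
  have hvo := fun x => pp_odd hρ he (h := h) ho x
  obtain ⟨v, hv⟩ : ∃ v, v = pp h ρ u := ⟨_, rfl⟩
  rw [← hv] at h1 h2 h3 h4 hvo ⊢
  have h1' : ContDiff ℝ 1 v := h1.of_le (by norm_num)
  have hM := mass_pos hρ
  set M := (mu ρ).real univ with hMdef
  -- the key inequality
  have h5 : en ρ v + h * ∫ x, hs v x ∂(mu ρ) ≤ en ρ u := by
    refine le_trans (le_of_eq ?_) h2
    have i2 : Integrable (fun x => h * hs v x) (mu ρ) :=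
      int_cont hρ (continuous_const.mul (hs_cont h1))
    unfold en
    rw [← integral_const_mul, ← integral_add (int_cont hρ (grad_cont h1')) i2]
    refine integral_congr_ae (Eventually.of_forall fun x => ?_)
    simp
  -- even Poincare for the partial derivatives
  have h6 : en ρ v - (∑ i, (∫ x, pd v i x ∂(mu ρ)) ^ 2) / M ≤ D * ∫ x, hs v x ∂(mu ρ) := by
    rw [hs_sum hρ h1, en_eq hρ h1, Finset.sum_div, ← Finset.sum_sub_distrib, Finset.mul_sum]
    refine Finset.sum_le_sum fun i _ => ?_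
    exact hE _ (pd_diff h1 i) (pd_even h1' hvo i)
  obtain ⟨S, hS⟩ : ∃ S, S = ∑ i, (∫ x, pd v i x ∂(mu ρ)) ^ 2 := ⟨_, rfl⟩
  obtain ⟨A, hA⟩ : ∃ A, A = ∫ x, (u x - v x) ^ 2 ∂(mu ρ) := ⟨_, rfl⟩
  obtain ⟨H, hH⟩ : ∃ H, H = ∫ x, hs v x ∂(mu ρ) := ⟨_, rfl⟩
  rw [← hS] at h4 h6
  rw [← hA] at h3 h4
  rw [← hH] at h5 h6
  have h7 : h * (S / M) ≤ s / h * A := by
    rw [mul_div_assoc', div_mul_eq_mul_div, div_le_div_iff₀ hM hh]
    calc h * S * h = h ^ 2 * S := by ring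
      _ ≤ s * M * A := h4
      _ = s * A * M := by ring
  have h8 : h * (en ρ v - S / M) ≤ h * (D * H) := mul_le_mul_of_nonneg_left h6 hh.le
  have h9 : D * (en ρ v + h * H) ≤ D * en ρ u := mul_le_mul_of_nonneg_left h5 hD
  have h10 : s / h * A ≤ s / h * (dd h ρ u - dd h ρ v) :=
    mul_le_mul_of_nonneg_left h3 (by positivity)
  unfold psi
  nlinarith

/-- **odd functions** -/
theorem odd_poi (hρ : LC ρ) {D s : ℝ} (hD : 0 < D) (hs : 0 < s) (hE : EP ρ D) (hc : CP ρ s)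
    (he : ∀ x, ρ (-x) = ρ x) {u : EuclideanSpace ℝ κ → ℝ} (hu : ContDiff ℝ 1 u)
    (ho : ∀ x, u (-x) = -u x) : W ρ u ≤ 2 * (D + s) * en ρ u := by
  obtain ⟨R, hR0, hR⟩ : ∃ R : ℝ, 0 < R ∧ ∀ x, R < ‖x‖ → ρ x = 0 := by
    obtain ⟨R₀, hR₀⟩ := hρ.bdd
    exact ⟨max R₀ 1, lt_of_lt_of_le one_pos (le_max_right _ _), fun x hx =>
      hR₀ x (lt_of_le_of_lt (le_max_left _ _) hx)⟩
  -- fixed `h`
  have hfix : ∀ h : ℝ, 0 < h → W ρ u ≤ 2 * (h + D + s) * en ρ u := by
    intro h hh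
    obtain ⟨θ, hθ⟩ : ∃ θ, θ = (D + s) / (D + s + h) := ⟨_, rfl⟩
    have hθ0 : 0 < θ := by rw [hθ]; positivity
    have hθ1 : θ < 1 := by rw [hθ, div_lt_one (by positivity)]; linarith
    obtain ⟨c, hcdef⟩ : ∃ c, c = 2 * R ^ 2 / D := ⟨_, rfl⟩
    have hc0 : 0 < c := by rw [hcdef]; positivity
    have hpsi : ∀ u : EuclideanSpace ℝ κ → ℝ, ContDiff ℝ 1 u →
        D * en ρ u ≤ psi D s h ρ u ∧ psi D s h ρ u ≤ (D + s) * en ρ u := by
      intro u hu
      have h1 := dd_nonneg hρ hh hu.continuous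
      have h2 := dd_le hρ hh hu
      have h3 : 0 ≤ s / h * dd h ρ u := by positivity
      have h4 : s / h * dd h ρ u ≤ s / h * (h * en ρ u) :=
        mul_le_mul_of_nonneg_left h2 (by positivity)
      have h5 : s / h * (h * en ρ u) = s * en ρ u := by field_simp
      unfold psi
      constructor <;> linarith
    have hind : ∀ n : ℕ, ∀ u : EuclideanSpace ℝ κ → ℝ, (∀ x, u (-x) = -u x) → ContDiff ℝ 1 u →
        W ρ u ≤ 2 * h * en ρ u + (2 + c * θ ^ n) * psi D s h ρ u := by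
      intro n
      induction n with
      | zero =>
        intro u _ hu
        obtain ⟨b, hb⟩ := ball_poincare hρ R hR0 hR u hu
        have h1 := (W_le hρ hu.continuous b).trans hb
        obtain ⟨h2, -⟩ := hpsi u hu
        have h3 := en_nonneg (ρ := ρ) u
        have h4 : 2 * R ^ 2 * en ρ u ≤ c * psi D s h ρ u := by
          calc 2 * R ^ 2 * en ρ u = c * (D * en ρ u) := by rw [hcdef]; field_simp
            _ ≤ _ := mul_le_mul_of_nonneg_left h2 hc0.le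
        have h5 : 0 ≤ psi D s h ρ u := le_trans (by positivity) h2
        have h6 : 0 ≤ h * en ρ u := by positivity
        rw [pow_zero, mul_one]
        have h7 : W ρ u ≤ 2 * R ^ 2 * en ρ u := h1
        nlinarith
      | succ n ih =>
        intro u ho hu
        obtain ⟨h1, h2⟩ := odd_step hρ hD.le hs hE hc he hh hu ho
        have h1' : ContDiff ℝ 1 (pp h ρ u) := h1.of_le (by norm_num)
        have h3 := ih _ (fun x => pp_odd hρ he ho x) h1'
        obtain ⟨h4, h5⟩ := l2step hρ h hh u hu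
        have h6 : W ρ u ≤ W ρ (pp h ρ u) + 2 * h * en ρ u := by
          unfold W en
          have e : ∫ x, pp h ρ u x ∂(mu ρ) = ∫ x, u x ∂(mu ρ) := h4
          rw [e]
          have h7 : ∫ x, u x ^ 2 ∂(mu ρ) - ∫ x, pp h ρ u x ^ 2 ∂(mu ρ) ≤
            2 * h * ∫ x, ‖fderiv ℝ u x‖ ^ 2 ∂(mu ρ) := h5
          linarith
        obtain ⟨h7, h8⟩ := hpsi _ h1'
        have h9 := en_nonneg (ρ := ρ) (pp h ρ u)
        -- contraction
        have h10 : psi D s h ρ (pp h ρ u) ≤ θ * psi D s h ρ u := by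
          rw [hθ, div_mul_eq_mul_div, le_div_iff₀ (by positivity)]
          have h11 : h * psi D s h ρ (pp h ρ u) ≤ h * ((D + s) * en ρ (pp h ρ u)) :=
            mul_le_mul_of_nonneg_left h8 hh.le
          have h12 := mul_le_mul_of_nonneg_left h2 (show 0 ≤ D + s by positivity)
          nlinarith
        have hθn : 0 < c * θ ^ n := by positivity
        have h13 : c * θ ^ n * psi D s h ρ (pp h ρ u) ≤ c * θ ^ n * (θ * psi D s h ρ u) :=
          mul_le_mul_of_nonneg_left h10 hθn.le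
        rw [pow_succ]
        nlinarith
    have hlim : Tendsto (fun n : ℕ => 2 * h * en ρ u + (2 + c * θ ^ n) * psi D s h ρ u) atTop
        (𝓝 (2 * h * en ρ u + (2 + c * 0) * psi D s h ρ u)) := by
      have h1 : Tendsto (fun n : ℕ => θ ^ n) atTop (𝓝 0) :=
        tendsto_pow_atTop_nhds_zero_of_lt_one hθ0.le hθ1
      exact (((h1.const_mul _).const_add _).mul_const _).const_add _
    have h1 := ge_of_tendsto' hlim fun n => hind n u ho hu
    obtain ⟨-, h2⟩ := hpsi u hu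
    rw [mul_zero, add_zero] at h1
    nlinarith
  have hlim2 : Tendsto (fun h : ℝ => 2 * (h + D + s) * en ρ u) (𝓝[>] 0)
      (𝓝 (2 * (0 + D + s) * en ρ u)) := by
    refine Tendsto.mono_left ?_ nhdsWithin_le_nhds
    refine Continuous.tendsto ?_ 0
    fun_prop
  rw [zero_add] at hlim2
  refine ge_of_tendsto hlim2 ?_
  filter_upwards [self_mem_nhdsWithin] with h hh
  exact hfix h hh

/-- **all functions** -/
theorem all_poi (hρ : LC ρ) {D s : ℝ} (hD : 0 < D) (hs : 0 < s) (hE : EP ρ D) (hc : CP ρ s)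
    (he : ∀ x, ρ (-x) = ρ x) {f : EuclideanSpace ℝ κ → ℝ} (hf : ContDiff ℝ 1 f) :
    W ρ f ≤ 2 * (D + s) * en ρ f := by
  classical
  have hfn : ContDiff ℝ 1 fun x : EuclideanSpace ℝ κ => f (-x) := hf.comp contDiff_neg
  obtain ⟨a, ha⟩ : ∃ a : EuclideanSpace ℝ κ → ℝ, a = fun x => (1 / 2 : ℝ) * (f x + f (-x)) :=
    ⟨_, rfl⟩
  obtain ⟨b, hb⟩ : ∃ b : EuclideanSpace ℝ κ → ℝ, b = fun x => (1 / 2 : ℝ) * (f x - f (-x)) :=
    ⟨_, rfl⟩
  have ha1 : ContDiff ℝ 1 a := by rw [ha]; exact contDiff_const.mul (hf.add hfn)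
  have hb1 : ContDiff ℝ 1 b := by rw [hb]; exact contDiff_const.mul (hf.sub hfn)
  have hae : ∀ x, a (-x) = a x := fun x => by rw [ha]; simp only [neg_neg]; ring
  have hbo : ∀ x, b (-x) = -b x := fun x => by rw [hb]; simp only [neg_neg]; ring
  have hM := mass_pos hρ
  have h1 := hE a ha1 hae
  have h2 := odd_poi hρ hD hs hE hc he hb1 hbo
  -- the integrals
  have i1 : Integrable f (mu ρ) := int_cont hρ hf.continuous
  have i2 : Integrable (fun x => f (-x)) (mu ρ) := int_cont hρ hfn.continuous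
  have e1 : ∫ x, a x ∂(mu ρ) = ∫ x, f x ∂(mu ρ) := by
    rw [ha, integral_const_mul, integral_add i1 i2, int_neg hρ he f]
    ring
  have e2 : ∫ x, b x ∂(mu ρ) = 0 := by
    rw [hb, integral_const_mul, integral_sub i1 i2, int_neg hρ he f]
    ring
  have e3 : ∫ x, a x ^ 2 ∂(mu ρ) + ∫ x, b x ^ 2 ∂(mu ρ) = ∫ x, f x ^ 2 ∂(mu ρ) := by
    have k1 : Integrable (fun x => a x ^ 2) (mu ρ) := int_cont hρ (ha1.continuous.pow 2)
    have k2 : Integrable (fun x => b x ^ 2) (mu ρ) := int_cont hρ (hb1.continuous.pow 2)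
    rw [← integral_add k1 k2]
    have j1 : Integrable (fun x => f x ^ 2) (mu ρ) := int_cont hρ (hf.continuous.pow 2)
    have j2 : Integrable (fun x => f (-x) ^ 2) (mu ρ) := int_cont hρ (hfn.continuous.pow 2)
    have e4 : ∀ x, a x ^ 2 + b x ^ 2 = 1 / 2 * (f x ^ 2 + f (-x) ^ 2) := fun x => by
      rw [ha, hb]; ring
    simp only [e4]
    rw [integral_const_mul, integral_add j1 j2, int_neg hρ he fun x => f x ^ 2]
    ring
  have hfd : Differentiable ℝ f := hf.differentiable (by norm_num)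
  have hnd : ∀ x, HasFDerivAt (fun x : EuclideanSpace ℝ κ => f (-x)) (-fderiv ℝ f (-x)) x := by
    intro x
    have h2 := (hfd (-x)).hasFDerivAt.comp x (hasFDerivAt_id x).neg
    have e : (fderiv ℝ f (-x)).comp (-ContinuousLinearMap.id ℝ (EuclideanSpace ℝ κ)) =
        -fderiv ℝ f (-x) := by
      ext y
      simp
    rw [e] at h2
    exact h2
  have e5 : ∀ x, ‖fderiv ℝ a x‖ ^ 2 + ‖fderiv ℝ b x‖ ^ 2 =
      1 / 2 * (‖fderiv ℝ f x‖ ^ 2 + ‖fderiv ℝ f (-x)‖ ^ 2) := by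
    intro x
    have ea : fderiv ℝ a x = (1 / 2 : ℝ) • (fderiv ℝ f x + -fderiv ℝ f (-x)) := by
      rw [ha]
      exact (((hfd x).hasFDerivAt.add (hnd x)).const_mul (1 / 2 : ℝ)).fderiv
    have eb : fderiv ℝ b x = (1 / 2 : ℝ) • (fderiv ℝ f x - -fderiv ℝ f (-x)) := by
      rw [hb]
      exact (((hfd x).hasFDerivAt.sub (hnd x)).const_mul (1 / 2 : ℝ)).fderiv
    rw [ea, eb]
    simp only [Pool.Agent.H888R2.KT.N8x.norm_sq_clm]
    rw [← Finset.sum_add_distrib, ← Finset.sum_add_distrib, Finset.mul_sum]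
    refine Finset.sum_congr rfl fun i _ => ?_
    simp only [_root_.smul_apply, _root_.add_apply,
      _root_.sub_apply, _root_.neg_apply, smul_eq_mul]
    ring
  have e6 : en ρ a + en ρ b = en ρ f := by
    unfold en
    rw [← integral_add (int_cont hρ (grad_cont ha1)) (int_cont hρ (grad_cont hb1))]
    simp only [e5]
    have j1 : Integrable (fun x => ‖fderiv ℝ f x‖ ^ 2) (mu ρ) := int_cont hρ (grad_cont hf)
    have j2 : Integrable (fun x => ‖fderiv ℝ f (-x)‖ ^ 2) (mu ρ) :=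
      int_cont hρ ((grad_cont hf).comp continuous_neg)
    rw [integral_const_mul, integral_add j1 j2, int_neg hρ he fun x => ‖fderiv ℝ f x‖ ^ 2]
    ring
  have e7 : W ρ f = W ρ a + W ρ b := by
    unfold W
    rw [e1, e2, ← e3]
    ring
  rw [e7, ← e6]
  have h3 := en_nonneg (ρ := ρ) a
  have h4 : D * en ρ a ≤ 2 * (D + s) * en ρ a := mul_le_mul_of_nonneg_right (by linarith) h3
  linarith

end Pool.Agent.H776.EV
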