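import Pool.Agent.H776.Scale

/-!
# Positive definite matrices and quadratic forms `‖A x‖²`
-/

set_option autoImplicit false

namespace Pool.Agent.H776

open MeasureTheory Set
open scoped InnerProductSpace MatrixOrder Matrix

/-- the matrix of the quadratic form `‖A x‖²` -/
theorem exists_matrix {κ F : Type} [Fintype κ] [Fintype F] [DecidableEq κ]
    (A : Eu κ →ₗ[ℝ] Eu F)
    (hA : Function.Injective A) : ∃ Q : Matrix κ κ ℝ, Q.PosDef ∧
      (∀ i j, Q i j = ⟪A (EuclideanSpace.single i 1), A (EuclideanSpace.single j 1)⟫_ℝ) ∧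
      ∀ x : Eu κ, ‖A x‖ ^ 2 = ∑ i, ∑ j, Q i j * x i * x j := by
  have hx : ∀ x : Eu κ, ‖A x‖ ^ 2 = ∑ i, ∑ j,
      ⟪A (EuclideanSpace.single i 1), A (EuclideanSpace.single j 1)⟫_ℝ * x i * x j := by
    intro x
    have h1 : x = ∑ i, x i • EuclideanSpace.single i (1 : ℝ) := by
      have := (EuclideanSpace.basisFun κ ℝ).sum_repr x
      simpa using this.symm
    conv_lhs => rw [h1]
    rw [map_sum, ← real_inner_self_eq_norm_sq, sum_inner]
    refine Finset.sum_congr rfl fun i _ => ?_
    rw [inner_sum]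
    refine Finset.sum_congr rfl fun j _ => ?_
    rw [map_smul, map_smul, real_inner_smul_left, real_inner_smul_right]
    ring
  refine ⟨Matrix.of fun i j => ⟪A (EuclideanSpace.single i 1), A (EuclideanSpace.single j 1)⟫_ℝ,
    ?_, fun _ _ => rfl, hx⟩
  refine Matrix.PosDef.of_dotProduct_mulVec_pos ?_ fun x hx0 => ?_
  · ext i j
    simp only [Matrix.conjTranspose_apply, Matrix.of_apply, star_trivial]
    exact real_inner_comm _ _
  · have h1 : star x ⬝ᵥ (Matrix.of fun i j =>
        ⟪A (EuclideanSpace.single i 1), A (EuclideanSpace.single j 1)⟫_ℝ).mulVec x =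
        ‖A (WithLp.toLp 2 x)‖ ^ 2 := by
      rw [hx]
      simp only [dotProduct, Matrix.mulVec, star_trivial, Matrix.of_apply, Finset.mul_sum]
      refine Finset.sum_congr rfl fun i _ => Finset.sum_congr rfl fun j _ => ?_
      ring
    rw [h1]
    have h2 : A (WithLp.toLp 2 x) ≠ 0 := by
      intro h3
      have h4 : (WithLp.toLp 2 x : Eu κ) = 0 := hA (by rw [h3, map_zero])
      exact hx0 (by
        have := congrArg WithLp.ofLp h4
        simpa using this)
    have := norm_pos_iff.2 h2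
    positivity

/-- square root of a positive definite matrix -/
theorem exists_map {κ : Type} [Fintype κ] [DecidableEq κ] {Q : Matrix κ κ ℝ} (hQ : Q.PosDef) :
    ∃ A : Eu κ →ₗ[ℝ] Eu κ, Function.Injective A ∧
      ∀ x : Eu κ, ‖A x‖ ^ 2 = ∑ i, ∑ j, Q i j * x i * x j := by
  obtain ⟨B, hB⟩ := CStarAlgebra.nonneg_iff_eq_star_mul_self.mp hQ.posSemidef.nonneg
  have hx : ∀ x : Eu κ, ‖Matrix.toEuclideanLin B x‖ ^ 2 = ∑ i, ∑ j, Q i j * x i * x j := by
    intro x
    have h1 : ‖Matrix.toEuclideanLin B x‖ ^ 2 = ∑ k, (∑ j, B k j * x j) ^ 2 := by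
      rw [EuclideanSpace.norm_sq_eq]
      refine Finset.sum_congr rfl fun k _ => ?_
      rw [Real.norm_eq_abs, sq_abs]
      rfl
    rw [h1]
    have h2 : ∀ i j, Q i j = ∑ k, B k i * B k j := by
      intro i j
      rw [hB, Matrix.mul_apply]
      refine Finset.sum_congr rfl fun k _ => ?_
      rw [Matrix.star_apply, star_trivial]
    have h3 : ∀ k, (∑ j, B k j * x j) ^ 2 = ∑ i, ∑ j, B k i * B k j * x i * x j := by
      intro k
      rw [sq, Finset.sum_mul_sum]
      exact Finset.sum_congr rfl fun i _ => Finset.sum_congr rfl fun j _ => by ring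
    simp only [h2, h3, Finset.sum_mul]
    rw [Finset.sum_comm]
    refine Finset.sum_congr rfl fun i _ => ?_
    rw [Finset.sum_comm]
  refine ⟨Matrix.toEuclideanLin B, ?_, hx⟩
  rw [← LinearMap.ker_eq_bot, LinearMap.ker_eq_bot']
  intro x h0
  by_contra hne
  have h1 := hx x
  rw [h0, norm_zero] at h1
  have h2 : x.ofLp ≠ 0 := fun h => hne (by
    have := congrArg (WithLp.toLp 2) h
    simpa using this)
  have h3 := hQ.dotProduct_mulVec_pos h2
  have e : star x.ofLp ⬝ᵥ Q.mulVec x.ofLp = ∑ i, ∑ j, Q i j * x i * x j := by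
    simp only [dotProduct, Matrix.mulVec, star_trivial, Finset.mul_sum]
    refine Finset.sum_congr rfl fun i _ => Finset.sum_congr rfl fun j _ => ?_
    ring
  rw [e, ← h1] at h3
  norm_num at h3

end Pool.Agent.H776
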