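import Pool.Agent.H776.Cent2
import Pool.Agent.H776.Quad

/-!
# Gaussian measures on orthants: removing nodes which are almost linear functions of the others
-/

set_option autoImplicit false

namespace Pool.Agent.H776

open MeasureTheory Set Filter Topology
open scoped ENNReal InnerProductSpace Matrix

section net

/-- quadratic form of a matrix -/
noncomputable def qf {κ : Type} [Fintype κ] (Q : Matrix κ κ ℝ) (y : κ → ℝ) : ℝ :=
  ∑ i, ∑ j, Q i j * y i * y j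

open Classical in
/-- centred Gaussian density on the orthant, with the matrix `Q` -/
noncomputable def gq {κ : Type} [Fintype κ] (Q : Matrix κ κ ℝ) (y : Eu κ) : ℝ :=
  if ∀ i, 0 ≤ y i then Real.exp (-(qf Q y / 2)) else 0

variable {κ J G : Type} [Fintype κ] [Fintype J] [Fintype G]

/-- bilinear form -/
noncomputable def bf (S : Matrix κ κ ℝ) (y z : κ → ℝ) : ℝ := ∑ i, ∑ j, S i j * y i * z j

theorem qf_add {S : Matrix κ κ ℝ} (hS : ∀ i j, S i j = S j i) (y z : κ → ℝ) (a : ℝ) :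
    qf S (fun i => y i + a * z i) = qf S y + 2 * a * bf S y z + a ^ 2 * qf S z := by
  have h1 : bf S y z = bf S z y := by
    unfold bf
    rw [Finset.sum_comm]
    refine Finset.sum_congr rfl fun i _ => Finset.sum_congr rfl fun j _ => ?_
    rw [hS]
    ring
  have h2 : qf S (fun i => y i + a * z i) = qf S y + a * bf S y z + a * bf S z y + a ^ 2 * qf S z := by
    unfold qf bf
    simp only [Finset.mul_sum, ← Finset.sum_add_distrib]
    refine Finset.sum_congr rfl fun i _ => Finset.sum_congr rfl fun j _ => ?_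
    ring
  rw [h2, ← h1]
  ring

/-- the lift of `y` -/
noncomputable def lft (lam : Matrix J κ ℝ) (y : κ → ℝ) : κ ⊕ J → ℝ :=
  Sum.elim y fun j => ∑ i, lam j i * y i

/-- data of a network -/
structure Net (Q₀ : Matrix κ κ ℝ) (lam : Matrix J κ ℝ) (S : Matrix (κ ⊕ J) (κ ⊕ J) ℝ)
    (P : Matrix G (κ ⊕ J) ℝ) : Prop where
  pd : Q₀.PosDef
  lam0 : ∀ j i, 0 ≤ lam j i
  sym : ∀ u v, S u v = S v u
  frm : ∀ y, qf S (lft lam y) = qf Q₀ y
  van : ∀ y g, ∑ v, P g v * lft lam y v = 0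
  inj : ∀ w : J → ℝ, (∀ g, ∑ j, P g (Sum.inr j) * w j = 0) → w = 0

variable {Q₀ : Matrix κ κ ℝ} {lam : Matrix J κ ℝ} {S : Matrix (κ ⊕ J) (κ ⊕ J) ℝ}
  {P : Matrix G (κ ⊕ J) ℝ}

/-- the penalty on the hidden coordinates -/
noncomputable def pn (P : Matrix G (κ ⊕ J) ℝ) (w : J → ℝ) : ℝ :=
  ∑ g, (∑ j, P g (Sum.inr j) * w j) ^ 2

/-- the exponent -/
noncomputable def En (Q₀ : Matrix κ κ ℝ) (lam : Matrix J κ ℝ) (S : Matrix (κ ⊕ J) (κ ⊕ J) ℝ)
    (P : Matrix G (κ ⊕ J) ℝ) (a : ℝ) (p : Eu κ × Eu J) : ℝ :=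
  qf Q₀ p.1 + 2 * a * bf S (lft lam p.1) (Sum.elim 0 p.2) + a ^ 2 * qf S (Sum.elim 0 p.2) + pn P p.2

theorem bf_bound (S : Matrix κ κ ℝ) {y z : κ → ℝ} {r s : ℝ} (hy : ∀ i, |y i| ≤ r)
    (hz : ∀ i, |z i| ≤ s) (hr : 0 ≤ r) : |bf S y z| ≤ (∑ i, ∑ j, |S i j|) * (r * s) := by
  unfold bf
  refine (Finset.abs_sum_le_sum_abs _ _).trans ?_
  rw [Finset.sum_mul]
  refine Finset.sum_le_sum fun i _ => ?_
  refine (Finset.abs_sum_le_sum_abs _ _).trans ?_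
  rw [Finset.sum_mul]
  refine Finset.sum_le_sum fun j _ => ?_
  rw [abs_mul, abs_mul, mul_assoc]
  refine mul_le_mul_of_nonneg_left ?_ (abs_nonneg _)
  exact mul_le_mul (hy i) (hz j) (abs_nonneg _) hr

theorem abs_le_norm (y : Eu κ) (i : κ) : |y i| ≤ ‖y‖ := by
  have := PiLp.norm_apply_le y i
  rwa [Real.norm_eq_abs] at this

/-- bounds for the exponent -/
structure EB (Q₀ : Matrix κ κ ℝ) (lam : Matrix J κ ℝ) (S : Matrix (κ ⊕ J) (κ ⊕ J) ℝ)
    (P : Matrix G (κ ⊕ J) ℝ) (c a₀ : ℝ) : Prop where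
  cpos : 0 < c
  apos : 0 < a₀
  low : ∀ a, |a| ≤ a₀ → ∀ p : Eu κ × Eu J, c * (‖p.1‖ ^ 2 + ‖p.2‖ ^ 2) ≤ En Q₀ lam S P a p

theorem pn_low (h : Net Q₀ lam S P) : ∃ p₀ : ℝ, 0 < p₀ ∧ ∀ w : Eu J, p₀ * ‖w‖ ^ 2 ≤ pn P w := by
  let T : Eu J →ₗ[ℝ] Eu G :=
    { toFun := fun w => WithLp.toLp 2 fun g => ∑ j, P g (Sum.inr j) * w j
      map_add' := fun w w' => by
        ext g
        simp only [PiLp.add_apply, mul_add, Finset.sum_add_distrib]
      map_smul' := fun r w => by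
        ext g
        simp only [PiLp.smul_apply, smul_eq_mul, RingHom.id_apply, Finset.mul_sum]
        exact Finset.sum_congr rfl fun j _ => by ring }
  have hT : Function.Injective T := by
    rw [← LinearMap.ker_eq_bot, LinearMap.ker_eq_bot']
    intro w hw
    have h1 := h.inj w fun g => by
      have h2 := congrArg (fun z : Eu G => z g) hw
      exact h2
    ext j
    exact congrFun h1 j
  obtain ⟨q, hq, hqA⟩ := exists_q hT
  refine ⟨q ^ 2, by positivity, fun w => ?_⟩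
  have e : pn P w = ‖T w‖ ^ 2 := by
    rw [EuclideanSpace.norm_sq_eq]
    unfold pn
    refine Finset.sum_congr rfl fun g _ => ?_
    rw [Real.norm_eq_abs, sq_abs]
    rfl
  rw [e, ← mul_pow]
  exact pow_le_pow_left₀ (by positivity) (hqA w) 2

theorem qf_low {Q : Matrix κ κ ℝ} (hQ : Q.PosDef) :
    ∃ q₀ : ℝ, 0 < q₀ ∧ ∀ y : Eu κ, q₀ * ‖y‖ ^ 2 ≤ qf Q y := by
  classical
  obtain ⟨A, hA, hx⟩ := exists_map hQ
  obtain ⟨q, hq, hqA⟩ := exists_q hA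
  refine ⟨q ^ 2, by positivity, fun y => ?_⟩
  have e : qf Q y = ‖A y‖ ^ 2 := (hx y).symm
  rw [e, ← mul_pow]
  exact pow_le_pow_left₀ (by positivity) (hqA y) 2

theorem exists_eb (h : Net Q₀ lam S P) : ∃ c a₀ : ℝ, EB Q₀ lam S P c a₀ := by
  obtain ⟨q₀, hq₀, hq⟩ := qf_low h.pd
  obtain ⟨p₀, hp₀, hp⟩ := pn_low h
  -- bound for the lift
  obtain ⟨Kl, hKl0, hKl⟩ : ∃ Kl : ℝ, 0 ≤ Kl ∧ ∀ (y : Eu κ) (u : κ ⊕ J), |lft lam y u| ≤ Kl * ‖y‖ := by
    refine ⟨1 + ∑ j, ∑ i, |lam j i|, by positivity, fun y u => ?_⟩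
    rcases u with i | j
    · have h1 : |lft lam y (Sum.inl i)| ≤ ‖y‖ := abs_le_norm y i
      refine h1.trans ?_
      have h2 : 0 ≤ (∑ j, ∑ i, |lam j i|) * ‖y‖ := by positivity
      nlinarith
    · have h1 : |lft lam y (Sum.inr j)| ≤ (∑ i, |lam j i|) * ‖y‖ := by
        change |∑ i, lam j i * y i| ≤ _
        refine (Finset.abs_sum_le_sum_abs _ _).trans ?_
        rw [Finset.sum_mul]
        refine Finset.sum_le_sum fun i _ => ?_
        rw [abs_mul]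
        exact mul_le_mul_of_nonneg_left (abs_le_norm y i) (abs_nonneg _)
      refine h1.trans (mul_le_mul_of_nonneg_right ?_ (norm_nonneg _))
      have h2 : ∑ i, |lam j i| ≤ ∑ j, ∑ i, |lam j i| :=
        Finset.single_le_sum (f := fun j => ∑ i, |lam j i|) (fun j _ => by positivity)
          (Finset.mem_univ j)
      linarith
  set K := (∑ u, ∑ v, |S u v|) * (Kl + 1) with hK
  have hK0 : 0 ≤ K := by positivity
  have hel : ∀ (w : Eu J) (u : κ ⊕ J), |(Sum.elim (0 : κ → ℝ) w) u| ≤ ‖w‖ := by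
    intro w u
    rcases u with i | j
    · simp
    · exact abs_le_norm w j
  have hb1 : ∀ p : Eu κ × Eu J, |bf S (lft lam p.1) (Sum.elim 0 p.2)| ≤ K * (‖p.1‖ * ‖p.2‖) := by
    intro p
    refine (bf_bound S (hKl p.1) (hel p.2) (by positivity)).trans ?_
    have h2 : (∑ u, ∑ v, |S u v|) * (Kl * ‖p.1‖ * ‖p.2‖) =
        (∑ u, ∑ v, |S u v|) * Kl * (‖p.1‖ * ‖p.2‖) := by ring
    rw [h2]
    refine mul_le_mul_of_nonneg_right ?_ (by positivity)
    rw [hK]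
    refine mul_le_mul_of_nonneg_left (by linarith) (by positivity)
  have hb2 : ∀ p : Eu κ × Eu J, |qf S (Sum.elim 0 p.2)| ≤ K * ‖p.2‖ ^ 2 := by
    intro p
    have h1 := bf_bound S (hel p.2) (hel p.2) (norm_nonneg _)
    have h2 : bf S (Sum.elim 0 p.2) (Sum.elim 0 p.2) = qf S (Sum.elim 0 p.2) := rfl
    rw [h2] at h1
    refine h1.trans ?_
    rw [← sq]
    refine mul_le_mul_of_nonneg_right ?_ (by positivity)
    rw [hK]
    exact le_mul_of_one_le_right (by positivity) (by linarith)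
  -- small parameter
  obtain ⟨a₀, ha₀, ha1⟩ : ∃ a₀ : ℝ, 0 < a₀ ∧
      a₀ ^ 2 * (2 * K ^ 2 / q₀ + K) ≤ p₀ / 2 := by
    have h1 : Tendsto (fun a : ℝ => a ^ 2 * (2 * K ^ 2 / q₀ + K)) (𝓝[>] 0)
        (𝓝 (0 ^ 2 * (2 * K ^ 2 / q₀ + K))) :=
      (Continuous.tendsto (by fun_prop) 0).mono_left nhdsWithin_le_nhds
    rw [zero_pow two_ne_zero, zero_mul] at h1
    obtain ⟨a, h2, h3⟩ := ((h1.eventually (gt_mem_nhds (half_pos hp₀))).and
      self_mem_nhdsWithin).exists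
    exact ⟨a, h3, le_of_lt h2⟩
  refine ⟨min (q₀ / 2) (p₀ / 2), a₀, by positivity, ha₀, fun a ha p => ?_⟩
  have h1 := hb1 p
  have h2 := hb2 p
  have h3 := hq p.1
  have h4 := hp p.2
  have ha2 : a ^ 2 ≤ a₀ ^ 2 := by
    rw [← sq_abs a]
    exact pow_le_pow_left₀ (abs_nonneg _) ha 2
  have h5 : -(2 * a * bf S (lft lam p.1) (Sum.elim 0 p.2)) ≤
      q₀ / 2 * ‖p.1‖ ^ 2 + a ^ 2 * (2 * K ^ 2 / q₀) * ‖p.2‖ ^ 2 := by
    have h6 : -(2 * a * bf S (lft lam p.1) (Sum.elim 0 p.2)) ≤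
        2 * |a| * (K * (‖p.1‖ * ‖p.2‖)) := by
      refine (neg_le_abs _).trans ?_
      rw [abs_mul, abs_mul, abs_two]
      exact mul_le_mul_of_nonneg_left h1 (by positivity)
    refine h6.trans ?_
    have h7 : 0 ≤ (q₀ * ‖p.1‖ - 2 * |a| * K * ‖p.2‖) ^ 2 := sq_nonneg _
    have h8 : (q₀ * ‖p.1‖ - 2 * |a| * K * ‖p.2‖) ^ 2 = 2 * q₀ * (q₀ / 2 * ‖p.1‖ ^ 2 +
        a ^ 2 * (2 * K ^ 2 / q₀) * ‖p.2‖ ^ 2 - 2 * |a| * (K * (‖p.1‖ * ‖p.2‖))) := by
      have h9 : |a| ^ 2 = a ^ 2 := sq_abs a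
      field_simp
      rw [← h9]
      ring
    rw [h8] at h7
    have h9 := (mul_nonneg_iff_of_pos_left (by positivity : 0 < 2 * q₀)).1 h7
    linarith
  have h6 : -(a ^ 2 * qf S (Sum.elim 0 p.2)) ≤ a ^ 2 * K * ‖p.2‖ ^ 2 := by
    have h7 := (neg_le_abs (qf S (Sum.elim 0 p.2))).trans h2
    have h8 := mul_le_mul_of_nonneg_left h7 (sq_nonneg a)
    linarith
  have h7 : a ^ 2 * (2 * K ^ 2 / q₀ + K) * ‖p.2‖ ^ 2 ≤ p₀ / 2 * ‖p.2‖ ^ 2 := by
    refine mul_le_mul_of_nonneg_right ?_ (sq_nonneg _)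
    exact (mul_le_mul_of_nonneg_right ha2 (by positivity)).trans ha1
  have h8 : min (q₀ / 2) (p₀ / 2) * (‖p.1‖ ^ 2 + ‖p.2‖ ^ 2) ≤
      q₀ / 2 * ‖p.1‖ ^ 2 + p₀ / 2 * ‖p.2‖ ^ 2 := by
    rw [mul_add]
    exact add_le_add (mul_le_mul_of_nonneg_right (min_le_left _ _) (sq_nonneg _))
      (mul_le_mul_of_nonneg_right (min_le_right _ _) (sq_nonneg _))
  unfold En
  nlinarith

end net

end Pool.Agent.H776
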