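import Pool.Agent.H776.Ball2
import Pool.Agent.H776.Net

/-!
# Centred Gaussian measures on cubes as limits of images of uniform measures on intersections of
ellipsoids and cubes
-/

set_option autoImplicit false

namespace Pool.Agent.H776

open MeasureTheory Set Filter Topology
open scoped ENNReal InnerProductSpace Pointwise

section sball

variable {κ F : Type} [Fintype κ] [Fintype F]

/-- the cube -/
def cub (κ : Type) [Fintype κ] : Set (Eu κ) := {y | ∀ i, |y i| ≤ 1}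

theorem cub_closed : IsClosed (cub κ) := by
  unfold cub
  rw [ofPred_forall]
  exact isClosed_iInter fun i => isClosed_le (by fun_prop) continuous_const

theorem cub_meas : MeasurableSet (cub κ) := cub_closed.measurableSet

theorem cub_norm {y : Eu κ} (hy : y ∈ cub κ) : ‖y‖ ^ 2 ≤ Fintype.card κ := by
  rw [EuclideanSpace.norm_sq_eq]
  calc ∑ i, ‖y i‖ ^ 2 ≤ ∑ _i : κ, (1 : ℝ) := Finset.sum_le_sum fun i _ => by
        rw [Real.norm_eq_abs]
        exact pow_le_one₀ (abs_nonneg _) (hy i)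
    _ = _ := by simp

theorem cub_compact : IsCompact (cub κ) := by
  refine (isCompact_closedBall (0 : Eu κ) (Real.sqrt (Fintype.card κ))).of_isClosed_subset cub_closed
    fun y hy => ?_
  rw [Metric.mem_closedBall, dist_zero_right]
  exact Real.le_sqrt_of_sq_le (cub_norm hy)

theorem cub_convex : Convex ℝ (cub κ) := by
  intro x hx y hy a b ha hb hab i
  simp only [PiLp.add_apply, PiLp.smul_apply, smul_eq_mul]
  refine (abs_add_le _ _).trans ?_
  rw [abs_mul, abs_mul, abs_of_nonneg ha, abs_of_nonneg hb]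
  nlinarith [mul_le_mul_of_nonneg_left (hx i) ha, mul_le_mul_of_nonneg_left (hy i) hb]

/-- the part of the ellipsoid `‖A y‖² ≤ 1` in the cube -/
def EC (A : Eu κ →ₗ[ℝ] Eu F) : Set (Eu κ) := {y | (∀ i, |y i| ≤ 1) ∧ ‖A y‖ ^ 2 ≤ 1}

theorem EC_closed (A : Eu κ →ₗ[ℝ] Eu F) : IsClosed (EC A) := by
  have hA : Continuous A := A.continuous_of_finiteDimensional
  have h2 : Continuous fun y : Eu κ => ‖A y‖ ^ 2 := by fun_prop
  exact cub_closed.inter (isClosed_le h2 continuous_const)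

theorem EC_compact (A : Eu κ →ₗ[ℝ] Eu F) : IsCompact (EC A) :=
  cub_compact.of_isClosed_subset (EC_closed A) fun _ hy => hy.1

theorem EC_interior (A : Eu κ →ₗ[ℝ] Eu F) : (0 : Eu κ) ∈ interior (EC A) := by
  have hA : Continuous A := A.continuous_of_finiteDimensional
  rw [mem_interior]
  refine ⟨{y | (∀ i, |y i| < 1) ∧ ‖A y‖ ^ 2 < 1}, fun y hy => ⟨fun i => (hy.1 i).le, hy.2.le⟩,
    ?_, fun i => ?_, ?_⟩
  · have h1 : IsOpen {y : Eu κ | ∀ i, |y i| < 1} := by
      rw [ofPred_forall]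
      exact isOpen_iInter_of_finite fun i => isOpen_lt (by fun_prop) continuous_const
    have h2 : Continuous fun y : Eu κ => ‖A y‖ ^ 2 := by fun_prop
    exact h1.inter (isOpen_lt h2 continuous_const)
  · simp
  · simp

theorem EC_convex (A : Eu κ →ₗ[ℝ] Eu F) : Convex ℝ (EC A) := by
  intro x hx y hy a b ha hb hab
  refine ⟨cub_convex hx.1 hy.1 ha hb hab, ?_⟩
  have h1 : ‖A x‖ ≤ 1 := by
    have := hx.2
    nlinarith [norm_nonneg (A x)]
  have h2 : ‖A y‖ ≤ 1 := by
    have := hy.2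
    nlinarith [norm_nonneg (A y)]
  have h3 : ‖A (a • x + b • y)‖ ≤ 1 := by
    rw [map_add, map_smul, map_smul]
    refine (norm_add_le _ _).trans ?_
    rw [norm_smul, norm_smul, Real.norm_of_nonneg ha, Real.norm_of_nonneg hb]
    nlinarith
  exact pow_le_one₀ (norm_nonneg _) h3

/-- indicator function -/
noncomputable def ecb (A : Eu κ →ₗ[ℝ] Eu F) : Eu κ → ℝ := (EC A).indicator fun _ => 1

theorem wt_ecb (A : Eu κ →ₗ[ℝ] Eu F) : Wt (ecb A) := wt_ind (EC_compact A) ⟨0, EC_interior A⟩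

/-- the body in the variables `(y, z)` -/
def QC (A : Eu κ →ₗ[ℝ] Eu F) (n : ℕ) : Set (Eu κ × Eu (Fin n)) :=
  {p | (∀ i, |p.1 i| ≤ 1) ∧ ‖A p.1‖ ^ 2 + ‖p.2‖ ^ 2 ≤ n}

/-- indicator -/
noncomputable def qc (A : Eu κ →ₗ[ℝ] Eu F) (n : ℕ) : Eu κ × Eu (Fin n) → ℝ :=
  (QC A n).indicator fun _ => 1

theorem qc_nonneg {A : Eu κ →ₗ[ℝ] Eu F} {n : ℕ} (p : Eu κ × Eu (Fin n)) : 0 ≤ qc A n p :=
  indicator_nonneg (fun _ _ => zero_le_one) p

theorem QC_closed {A : Eu κ →ₗ[ℝ] Eu F} {n : ℕ} : IsClosed (QC A n) := by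
  have hA : Continuous A := A.continuous_of_finiteDimensional
  have h2 : Continuous fun p : Eu κ × Eu (Fin n) => ‖A p.1‖ ^ 2 + ‖p.2‖ ^ 2 := by fun_prop
  exact (cub_closed.preimage continuous_fst).inter (isClosed_le h2 continuous_const)

theorem QC_meas {A : Eu κ →ₗ[ℝ] Eu F} {n : ℕ} : MeasurableSet (QC A n) := QC_closed.measurableSet

theorem QC_compact {A : Eu κ →ₗ[ℝ] Eu F} {n : ℕ} : IsCompact (QC A n) := by
  refine (cub_compact.prod (isCompact_closedBall (0 : Eu (Fin n)) (Real.sqrt n))).of_isClosed_subset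
    QC_closed fun p hp => ⟨hp.1, ?_⟩
  rw [Metric.mem_closedBall, dist_zero_right]
  refine Real.le_sqrt_of_sq_le ?_
  have := hp.2
  linarith [sq_nonneg ‖A p.1‖]

theorem ec_comp {A : Eu κ →ₗ[ℝ] Eu F} {n : ℕ} (hn : n ≠ 0) (p : Eu κ × Eu (Fin n)) :
    ecb (AE A n) (emc κ (Fin n) (n : ℝ)⁻¹ (inv_ne hn) p) = qc A n p := by
  have hn' : (n : ℝ) ≠ 0 := by exact_mod_cast hn
  have hn0 : 0 < (n : ℝ) := by positivity
  have hn1 : 1 ≤ (n : ℝ) := by exact_mod_cast Nat.pos_of_ne_zero hn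
  have key : emc κ (Fin n) (n : ℝ)⁻¹ (inv_ne hn) p ∈ EC (AE A n) ↔ p ∈ QC A n := by
    rw [emc_apply]
    have e2 : ‖AE A n (mk p.1 ((n : ℝ)⁻¹ • p.2))‖ ^ 2 = (‖A p.1‖ ^ 2 + ‖p.2‖ ^ 2) / n := by
      change ‖mk ((Real.sqrt n)⁻¹ • A p.1) ((Real.sqrt n)⁻¹ • (n : ℝ) • (n : ℝ)⁻¹ • p.2)‖ ^ 2 = _
      rw [smul_inv_smul₀ hn', norm_mk_sq, norm_smul, norm_smul, mul_pow, mul_pow, norm_inv,
        Real.norm_of_nonneg (Real.sqrt_nonneg _), inv_pow, Real.sq_sqrt hn0.le]
      ring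
    unfold EC QC
    rw [mem_ofPred_eq, mem_ofPred_eq, e2, div_le_one hn0, Sum.forall]
    constructor
    · rintro ⟨h1, h2⟩
      exact ⟨h1.1, h2⟩
    · rintro ⟨h1, h2⟩
      refine ⟨⟨h1, fun j => ?_⟩, h2⟩
      rw [mk_inr, PiLp.smul_apply, smul_eq_mul, abs_mul, abs_of_pos (inv_pos.2 hn0),
        inv_mul_le_iff₀ hn0, mul_one]
      have h3 : |p.2 j| ≤ ‖p.2‖ := abs_le_norm p.2 j
      have h4 : ‖p.2‖ ^ 2 ≤ (n : ℝ) ^ 2 := by nlinarith [sq_nonneg ‖A p.1‖]
      exact h3.trans (le_of_sq_le_sq h4 hn0.le)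
  unfold ecb qc
  by_cases hp : p ∈ QC A n
  · rw [indicator_of_mem hp, indicator_of_mem (key.2 hp)]
  · rw [indicator_of_notMem hp, indicator_of_notMem fun h => hp (key.1 h)]

/-- the ball -/
def BB (n : ℕ) (r : ℝ) : Set (Eu (Fin n)) := {z | ‖z‖ ^ 2 ≤ r}

theorem BB_meas {n : ℕ} {r : ℝ} : MeasurableSet (BB n r) :=
  measurableSet_le (by fun_prop) measurable_const

theorem BB_scale {n : ℕ} {r : ℝ} (hr : 0 < r) :
    volume.real (BB n r) = Real.sqrt r ^ n * volume.real (BB n 1) := by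
  have hs : 0 < Real.sqrt r := Real.sqrt_pos.2 hr
  have e : BB n r = Real.sqrt r • BB n 1 := by
    ext z
    rw [mem_smul_set_iff_inv_smul_mem₀ hs.ne']
    unfold BB
    rw [mem_ofPred_eq, mem_ofPred_eq]
    rw [norm_smul, norm_inv, Real.norm_of_nonneg hs.le, mul_pow, inv_pow, Real.sq_sqrt hr.le,
        inv_mul_le_iff₀ hr, mul_one]
  rw [e, measureReal_def, Measure.addHaar_smul, ENNReal.toReal_mul, finrank_euclideanSpace,
    Fintype.card_fin, ENNReal.toReal_ofReal (abs_nonneg _), abs_of_nonneg (by positivity)]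
  rfl

theorem BB_vol {n : ℕ} (hn : n ≠ 0) (r : ℝ) :
    volume.real (BB n r) = Real.sqrt r ^ n * volume.real (BB n 1) := by
  rcases lt_or_ge 0 r with hr | hr
  · exact BB_scale hr
  · rw [Real.sqrt_eq_zero_of_nonpos hr, zero_pow hn, zero_mul]
    have h1 : BB n r ⊆ {0} := fun z hz => by
      have h2 : ‖z‖ ^ 2 ≤ r := hz
      have h3 : ‖z‖ ^ 2 = 0 := le_antisymm (h2.trans hr) (sq_nonneg _)
      rw [mem_singleton_iff]
      exact norm_eq_zero.1 (pow_eq_zero_iff two_ne_zero |>.1 h3)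
    have : Nonempty (Fin n) := ⟨⟨0, Nat.pos_of_ne_zero hn⟩⟩
    have h4 : volume (BB n r) = 0 := measure_mono_null h1 (by
      have : Nontrivial (Eu (Fin n)) := inferInstance
      exact measure_singleton _)
    rw [measureReal_def, h4, ENNReal.toReal_zero]

theorem BB_eq {n : ℕ} : BB n 1 = Metric.closedBall (0 : Eu (Fin n)) 1 := by
  ext z
  rw [Metric.mem_closedBall, dist_zero_right]
  change ‖z‖ ^ 2 ≤ 1 ↔ _
  rw [sq_le_one_iff₀ (norm_nonneg _)]

theorem BB_pos {n : ℕ} : 0 < volume.real (BB n 1) := by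
  rw [BB_eq]
  exact ENNReal.toReal_pos (Metric.measure_closedBall_pos volume _ one_pos).ne'
    (isCompact_closedBall (0 : Eu (Fin n)) 1).measure_lt_top.ne

open Classical in
/-- the marginal densities -/
noncomputable def gcn (A : Eu κ →ₗ[ℝ] Eu F) (n : ℕ) (y : Eu κ) : ℝ :=
  if ∀ i, |y i| ≤ 1 then Real.sqrt (1 - ‖A y‖ ^ 2 / n) ^ n else 0

open Classical in
/-- the Gaussian densities on the cube -/
noncomputable def gcl (A : Eu κ →ₗ[ℝ] Eu F) (y : Eu κ) : ℝ :=
  if ∀ i, |y i| ≤ 1 then Real.exp (-(‖A y‖ ^ 2 / 2)) else 0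

theorem gcn_nonneg {A : Eu κ →ₗ[ℝ] Eu F} {n : ℕ} (y : Eu κ) : 0 ≤ gcn A n y := by
  unfold gcn
  split_ifs
  · exact pow_nonneg (Real.sqrt_nonneg _) _
  · exact le_rfl

theorem gcn_meas {A : Eu κ →ₗ[ℝ] Eu F} {n : ℕ} : Measurable (gcn A n) := by
  unfold gcn
  have hA : Continuous A := A.continuous_of_finiteDimensional
  exact Measurable.ite cub_meas (by fun_prop) measurable_const

theorem gcl_nonneg {A : Eu κ →ₗ[ℝ] Eu F} (y : Eu κ) : 0 ≤ gcl A y := by
  unfold gcl
  split_ifs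
  · positivity
  · exact le_rfl

theorem gcl_meas {A : Eu κ →ₗ[ℝ] Eu F} : Measurable (gcl A) := by
  unfold gcl
  have hA : Continuous A := A.continuous_of_finiteDimensional
  exact Measurable.ite cub_meas (by fun_prop) measurable_const

theorem wt_cub : Wt ((cub κ).indicator fun _ => (1 : ℝ)) := by
  refine wt_ind cub_compact ⟨0, ?_⟩
  rw [mem_interior]
  refine ⟨{y | ∀ i, |y i| < 1}, fun y hy i => (hy i).le, ?_, fun i => by simp⟩
  rw [ofPred_forall]
  exact isOpen_iInter_of_finite fun i => isOpen_lt (by fun_prop) continuous_const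

theorem wt_gcl {A : Eu κ →ₗ[ℝ] Eu F} : Wt (gcl A) := by
  have hA : Continuous A := A.continuous_of_finiteDimensional
  have hw := wt_cub (κ := κ)
  have hle : ∀ y, gcl A y ≤ (cub κ).indicator (fun _ => (1 : ℝ)) y := by
    intro y
    unfold gcl
    by_cases hy : y ∈ cub κ
    · rw [indicator_of_mem hy, if_pos (show ∀ i, |y i| ≤ 1 from hy)]
      exact Real.exp_le_one_iff.2 (by have := sq_nonneg ‖A y‖; linarith)
    · rw [indicator_of_notMem hy, if_neg (show ¬ ∀ i, |y i| ≤ 1 from hy)]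
  have hint : Integrable (gcl A) := hw.integrable.mono' gcl_meas.aestronglyMeasurable
    (Eventually.of_forall fun y => by
      rw [Real.norm_of_nonneg (gcl_nonneg y)]
      exact hle y)
  refine ⟨gcl_nonneg, gcl_meas, ?_, ?_⟩
  · rw [integral_pos_iff_support_of_nonneg gcl_nonneg hint]
    have h1 : cub κ ⊆ Function.support (gcl A) := by
      intro y hy
      rw [Function.mem_support]
      unfold gcl
      rw [if_pos (show ∀ i, |y i| ≤ 1 from hy)]
      exact (Real.exp_pos _).ne'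
    refine lt_of_lt_of_le ?_ (measure_mono h1)
    have h2 := hw.pos
    rw [integral_indicator cub_meas, setIntegral_const, smul_eq_mul, mul_one] at h2
    exact (ENNReal.toReal_pos_iff.1 h2).1
  · refine hw.mom.mono' ((by fun_prop : Measurable fun x : Eu κ => 1 + ‖x‖ ^ 2).mul
      gcl_meas).aestronglyMeasurable (Eventually.of_forall fun x => ?_)
    rw [Real.norm_of_nonneg (mul_nonneg (by positivity) (gcl_nonneg x))]
    exact mul_le_mul_of_nonneg_left (hle x) (by positivity)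

theorem gcn_le {A : Eu κ →ₗ[ℝ] Eu F} {n : ℕ} (y : Eu κ) :
    gcn A n y ≤ (cub κ).indicator (fun _ => (1 : ℝ)) y := by
  unfold gcn
  by_cases hy : y ∈ cub κ
  · rw [indicator_of_mem hy, if_pos (show ∀ i, |y i| ≤ 1 from hy)]
    refine pow_le_one₀ (Real.sqrt_nonneg _) (Real.sqrt_le_one.2 ?_)
    have : 0 ≤ ‖A y‖ ^ 2 / n := by positivity
    linarith
  · rw [indicator_of_notMem hy, if_neg (show ¬ ∀ i, |y i| ≤ 1 from hy)]

theorem gcn_lim {A : Eu κ →ₗ[ℝ] Eu F} (y : Eu κ) :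
    Tendsto (fun n => gcn A n y) atTop (𝓝 (gcl A y)) := by
  unfold gcn gcl
  by_cases hy : ∀ i, |y i| ≤ 1
  · simp only [if_pos hy]
    have h1 := Real.tendsto_one_add_div_pow_exp (-‖A y‖ ^ 2)
    have h2 := (Real.continuous_sqrt.tendsto _).comp h1
    have e1 : Real.sqrt (Real.exp (-‖A y‖ ^ 2)) = Real.exp (-(‖A y‖ ^ 2 / 2)) := by
      rw [← Real.exp_half]
      congr 1
      ring
    rw [e1] at h2
    refine h2.congr' ?_
    obtain ⟨N, hN⟩ := exists_nat_gt (‖A y‖ ^ 2)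
    filter_upwards [eventually_ge_atTop N] with n hn
    have hnr : ‖A y‖ ^ 2 < n := lt_of_lt_of_le hN (by exact_mod_cast hn)
    have hn0 : 0 < (n : ℝ) := lt_of_le_of_lt (sq_nonneg _) hnr
    have h3 : 0 ≤ 1 - ‖A y‖ ^ 2 / n := by
      rw [sub_nonneg, div_le_one hn0]
      exact hnr.le
    simp only [Function.comp_apply]
    rw [show 1 + -‖A y‖ ^ 2 / (n : ℝ) = 1 - ‖A y‖ ^ 2 / n by ring]
    have h4 : (1 - ‖A y‖ ^ 2 / n) ^ n = (Real.sqrt (1 - ‖A y‖ ^ 2 / n) ^ n) ^ 2 := by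
      rw [← pow_mul, mul_comm n 2, pow_mul, Real.sq_sqrt h3]
    rw [h4, Real.sqrt_sq (pow_nonneg (Real.sqrt_nonneg _) _)]
  · simp only [if_neg hy]
    exact tendsto_const_nhds

/-- the normalising constants -/
noncomputable def cC (n : ℕ) : ℝ := Real.sqrt n ^ n * volume.real (BB n 1)

theorem cC_pos {n : ℕ} (hn : n ≠ 0) : 0 < cC n := by
  have hn0 : 0 < (n : ℝ) := by positivity
  exact mul_pos (pow_pos (Real.sqrt_pos.2 hn0) _) BB_pos

theorem qc_slice {A : Eu κ →ₗ[ℝ] Eu F} {n : ℕ} (hn : n ≠ 0) (y : Eu κ) :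
    ∫ z : Eu (Fin n), qc A n (y, z) = cC n * gcn A n y := by
  have hn' : (n : ℝ) ≠ 0 := by exact_mod_cast hn
  have hn0 : 0 < (n : ℝ) := by positivity
  unfold gcn
  by_cases hy : ∀ i, |y i| ≤ 1
  · rw [if_pos hy]
    have e : (fun z : Eu (Fin n) => qc A n (y, z)) = (BB n (n - ‖A y‖ ^ 2)).indicator fun _ => 1 := by
      funext z
      unfold qc
      by_cases hz : (y, z) ∈ QC A n
      · rw [indicator_of_mem hz, indicator_of_mem]
        have h1 := hz.2
        simp only at h1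
        change ‖z‖ ^ 2 ≤ n - ‖A y‖ ^ 2
        linarith
      · rw [indicator_of_notMem hz, indicator_of_notMem]
        intro hz'
        have h1 : ‖z‖ ^ 2 ≤ n - ‖A y‖ ^ 2 := hz'
        exact hz ⟨hy, by simp only; linarith⟩
    rw [e, integral_indicator BB_meas, setIntegral_const, smul_eq_mul, mul_one, BB_vol hn, cC]
    have e2 : (n : ℝ) - ‖A y‖ ^ 2 = n * (1 - ‖A y‖ ^ 2 / n) := by
      field_simp
    rw [e2, Real.sqrt_mul hn0.le, mul_pow]
    ring
  · rw [if_neg hy, mul_zero]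
    have e : (fun z : Eu (Fin n) => qc A n (y, z)) = fun _ => 0 := by
      funext z
      unfold qc
      rw [indicator_of_notMem]
      intro hz
      exact hy hz.1
    rw [e, integral_zero]

theorem qc_int {A : Eu κ →ₗ[ℝ] Eu F} {n : ℕ}
    {ψ : Eu κ × Eu (Fin n) → ℝ} (hψ : Continuous ψ) : Integrable fun p => ψ p * qc A n p := by
  have := vol_haar κ (Fin n)
  have h1 : IntegrableOn ψ (QC A n) := hψ.continuousOn.integrableOn_compact QC_compact
  have h2 := (integrable_indicator_iff QC_meas).2 h1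
  refine h2.congr (Eventually.of_forall fun p => ?_)
  unfold qc
  by_cases hp : p ∈ QC A n
  · simp [indicator_of_mem hp]
  · simp [indicator_of_notMem hp]

theorem qc_fub {A : Eu κ →ₗ[ℝ] Eu F} {n : ℕ} (hn : n ≠ 0)
    {φ : Eu κ → ℝ} (hφ : Continuous φ) :
    ∫ p : Eu κ × Eu (Fin n), φ p.1 * qc A n p = cC n * ∫ y, φ y * gcn A n y := by
  have h1 := qc_int (A := A) (n := n) (ψ := fun p => φ p.1) (hφ.comp continuous_fst)
  have e := integral_prod (μ := (volume : Measure (Eu κ))) (ν := (volume : Measure (Eu (Fin n))))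
    (fun p : Eu κ × Eu (Fin n) => φ p.1 * qc A n p) h1
  rw [← Measure.volume_eq_prod] at e
  rw [e, ← integral_const_mul]
  refine integral_congr_ae (Eventually.of_forall fun y => ?_)
  simp only
  rw [integral_const_mul, qc_slice hn]
  ring

/-- **centred Gaussian measures on cubes from intersections of ellipsoids and cubes** -/
theorem kp_gcl {D : ℝ} (hD : 0 ≤ D)
    (H : ∀ (κ' F' : Type) [Fintype κ'] [Fintype F'] (A : Eu κ' →ₗ[ℝ] Eu F'), Function.Injective A →
      KP (nm (ecb A)) D)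
    {A : Eu κ →ₗ[ℝ] Eu F} (hA : Function.Injective A) : KP (nm (gcl A)) D := by
  have hw' := wt_gcl (A := A)
  have hprob := hw'.prob
  obtain ⟨hWg, hW2⟩ := W2.of_dom (l := (atTop : Filter ℕ)) (g := fun n => gcn A n)
    (g' := gcl A) (h := (cub κ).indicator fun _ => (1 : ℝ))
    (Eventually.of_forall fun n y => gcn_nonneg y) (Eventually.of_forall fun n => gcn_meas) hw'
    (Eventually.of_forall fun n y => gcn_le y) wt_cub.mom (Eventually.of_forall fun y => gcn_lim y)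
  have hwe : ∀ {n : ℕ}, n ≠ 0 → Wt (ecb (AE A n)) := fun {n} hn =>
    wt_ecb _
  have hrep : ∀ {n : ℕ} (hn : n ≠ 0) (φ : Eu (κ ⊕ Fin n) → ℝ), ∫ y, φ y ∂(nm (ecb (AE A n))) =
      (∫ p : Eu κ × Eu (Fin n), φ (emc κ (Fin n) (n : ℝ)⁻¹ (inv_ne hn) p) * qc A n p) /
        ∫ p : Eu κ × Eu (Fin n), qc A n p := by
    intro n hn φ
    have := vol_haar κ (Fin n)
    rw [integral_nm (hwe hn).nonneg (hwe hn).meas, integral_quot
      (volume : Measure (Eu κ × Eu (Fin n))) volume (emc κ (Fin n) (n : ℝ)⁻¹ (inv_ne hn)) 0]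
    simp only [add_zero, ec_comp hn]
  have hqpos : ∀ {n : ℕ}, n ≠ 0 → 0 < ∫ p : Eu κ × Eu (Fin n), qc A n p := by
    intro n hn
    have := vol_haar κ (Fin n)
    have h1 := (hwe hn).pos
    rw [← integral_pos_scale (volume : Measure (Eu κ × Eu (Fin n))) volume
      (emc κ (Fin n) (n : ℝ)⁻¹ (inv_ne hn)) 0] at h1
    simpa only [add_zero, ec_comp hn] using h1
  have hq1 : ∀ {n : ℕ}, n ≠ 0 → ∫ p : Eu κ × Eu (Fin n), qc A n p = cC n * ∫ y, gcn A n y := by
    intro n hn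
    have := qc_fub (A := A) hn (φ := fun _ => 1) continuous_const
    simpa using this
  refine KP.lift (l := (atTop : Filter ℕ)) (K := fun n => κ ⊕ Fin n)
    (ν := fun n => nm (ecb (AE A n)))
    (T := fun n => (plL : Eu (κ ⊕ Fin n) →L[ℝ] Eu κ)) (b := fun _ => 0)
    (J := fun n => (inL : Eu κ →L[ℝ] Eu (κ ⊕ Fin n))) hD
    ?_ ?_ (fun _ => plL_norm) (fun _ => inL_norm) ?_ ?_ ?_
  · filter_upwards [eventually_ne_atTop 0] with n hn
    exact (hwe hn).prob
  · filter_upwards [eventually_ne_atTop 0] with n hn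
    exact (hwe hn).int_sq
  · refine ⟨?_, ?_, hw'.int_sq, ?_⟩
    · filter_upwards [eventually_ne_atTop 0] with n hn
      have := (hwe hn).prob
      exact Measure.isProbabilityMeasure_map (by fun_prop)
    · filter_upwards [eventually_ne_atTop 0] with n hn
      have hwa := hwe hn
      have hp := hwa.prob
      have hme : Measurable fun y : Eu (κ ⊕ Fin n) => plL y - (0 : Eu κ) := by fun_prop
      rw [integrable_map_measure (by fun_prop) hme.aemeasurable]
      refine hwa.int_sq.mono' (by fun_prop) (Eventually.of_forall fun y => ?_)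
      simp only [Function.comp_apply, sub_zero]
      rw [Real.norm_of_nonneg (by positivity)]
      exact pow_le_pow_left₀ (norm_nonneg _)
        (((plL : Eu (κ ⊕ Fin n) →L[ℝ] Eu κ).le_opNorm y).trans
          (mul_le_of_le_one_left (norm_nonneg _) plL_norm)) 2
    · intro φ hφ
      refine (hW2.lim φ hφ).congr' ?_
      filter_upwards [eventually_ne_atTop 0] with n hn
      have hme : Measurable fun y : Eu (κ ⊕ Fin n) => plL y - (0 : Eu κ) := by fun_prop
      rw [integral_map hme.aemeasurable hφ.1.aestronglyMeasurable, hrep hn,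
        integral_nm gcn_nonneg gcn_meas]
      simp only [sub_zero, plL_apply, emc_apply, pl_mk]
      rw [qc_fub hn hφ.1, hq1 hn, mul_div_mul_left _ _ (cC_pos hn).ne']
  · intro η hη
    have hsmall : ∀ᶠ n : ℕ in atTop, ((n : ℕ) : ℝ)⁻¹ ≤ η :=
      (tendsto_inv_atTop_nhds_zero_nat.eventually (gt_mem_nhds hη)).mono fun n hn => hn.le
    filter_upwards [eventually_ne_atTop 0, hsmall] with n hn hsm
    intro θ hθ
    have hn' : (n : ℝ) ≠ 0 := by exact_mod_cast hn
    have hn0 : 0 < (n : ℝ) := by positivity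
    have hp := (hwe hn).prob
    have hcont : Continuous fun y : Eu (κ ⊕ Fin n) => ⟪y - inL (plL y), θ⟫_ℝ := by fun_prop
    refine (ProbabilityTheory.variance_le_expectation_sq hcont.aestronglyMeasurable).trans ?_
    have e1 := hrep hn (fun y => ⟪y - inL (plL y), θ⟫_ℝ ^ 2)
    refine (le_of_eq e1).trans ?_
    rw [div_le_iff₀ (hqpos hn), ← integral_const_mul]
    have hq0 : Integrable fun p : Eu κ × Eu (Fin n) => qc A n p := by
      have := qc_int (A := A) (n := n) (ψ := fun _ => 1) continuous_const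
      simpa using this
    refine integral_mono_of_nonneg (Eventually.of_forall fun p =>
      mul_nonneg (sq_nonneg _) (qc_nonneg p)) (hq0.const_mul _) (Eventually.of_forall fun p => ?_)
    simp only
    by_cases hp' : p ∈ QC A n
    · refine mul_le_mul_of_nonneg_right ?_ (qc_nonneg p)
      rw [sub_inL_pl, emc_apply, pr_mk]
      have h2 := abs_real_inner_le_norm (mk 0 ((n : ℝ)⁻¹ • p.2) : Eu (κ ⊕ Fin n)) θ
      rw [hθ, mul_one] at h2
      calc _ = |⟪(mk 0 ((n : ℝ)⁻¹ • p.2) : Eu (κ ⊕ Fin n)), θ⟫_ℝ| ^ 2 := (sq_abs _).symm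
        _ ≤ ‖(mk 0 ((n : ℝ)⁻¹ • p.2) : Eu (κ ⊕ Fin n))‖ ^ 2 := pow_le_pow_left₀ (abs_nonneg _) h2 2
        _ = (n : ℝ)⁻¹ ^ 2 * ‖p.2‖ ^ 2 := by
            rw [norm_mk_sq, norm_smul, norm_zero, norm_inv, Real.norm_of_nonneg hn0.le]
            ring
        _ ≤ (n : ℝ)⁻¹ ^ 2 * n := by
            refine mul_le_mul_of_nonneg_left ?_ (by positivity)
            have := hp'.2
            linarith [sq_nonneg ‖A p.1‖]
        _ = (n : ℝ)⁻¹ := by field_simp
        _ ≤ η := hsm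
    · have : qc A n p = 0 := indicator_of_notMem hp' _
      rw [this, mul_zero, mul_zero]
  · filter_upwards [eventually_ne_atTop 0] with n hn
    exact H _ _ _ (AE_inj hA hn)

end sball

end Pool.Agent.H776
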