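import Pool.Agent.H776.EV2
import Pool.Agent.H776.Body
import Pool.Agent.H776.SBall

/-!
# The Poincare inequality for even log-concave measures from even functions: probability measures
-/

set_option autoImplicit false

namespace Pool.Agent.H776

open MeasureTheory Set Filter Topology
open scoped ENNReal InnerProductSpace
open Pool.Agent.H212R2.KLS (mu Bdd)
open Pool.Agent.H776.EV
open Pool.Agent.H888R2.KT (LC)
open Pool.Agent.H888R2.KT.N9x (W W_eq W_le int_cont mass_pos finm grad_cont ae_ne)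

variable {κ : Type} [Fintype κ] {ρ : Eu κ → ℝ}

/-- Poincare inequality for bounded even `C¹` functions with bounded gradient -/
def PoiE (μ : Measure (Eu κ)) (D : ℝ) : Prop :=
  ∀ (f : Eu κ → ℝ) (B L : ℝ), Tst f B L → (∀ x, f (-x) = f x) →
    (∫ x, f x ^ 2 ∂μ) - (∫ x, f x ∂μ) ^ 2 ≤ D * ∫ x, ‖fderiv ℝ f x‖ ^ 2 ∂μ

theorem nm_mu (hρ : LC ρ) (g : Eu κ → ℝ) :
    ∫ x, g x ∂(nm ρ) = (∫ x, g x ∂(mu ρ)) / (mu ρ).real univ := by
  rw [integral_nm hρ.nonneg hρ.meas, Pool.Agent.H888R2.KT.N5bx.conv hρ g]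
  have h1 : (mu ρ).real univ = ∫ x, ρ x := by
    have h2 := Pool.Agent.H888R2.KT.N5bx.conv hρ fun _ => (1 : ℝ)
    simp only [mul_one, integral_const, smul_eq_mul] at h2
    exact h2
  rw [h1]
  congr 1
  refine integral_congr_ae (Eventually.of_forall fun x => ?_)
  simp only
  ring

/-- cut-off functions -/
theorem exists_tst (R : ℝ) {w : Eu κ → ℝ} (hw : ContDiff ℝ 1 w) :
    ∃ (f : Eu κ → ℝ) (B L : ℝ), Tst f B L ∧ (∀ x, ‖x‖ ≤ R → f x = w x ∧ fderiv ℝ f x = fderiv ℝ w x) ∧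
      ((∀ x, w (-x) = w x) → ∀ x, f (-x) = f x) := by
  obtain ⟨r, hr⟩ : ∃ r, r = max R 0 + 1 := ⟨_, rfl⟩
  have hr0 : 0 < r := by rw [hr]; have := le_max_right R 0; linarith
  have hrR : R < r := by rw [hr]; have := le_max_left R 0; linarith
  obtain ⟨χ, hχ⟩ : ∃ χ : ContDiffBump (0 : Eu κ), χ.rIn = r :=
    ⟨⟨r, r + 1, hr0, by linarith⟩, rfl⟩
  have hc : ContDiff ℝ 1 fun x => w x * χ x := hw.mul χ.contDiff
  have hcs : HasCompactSupport fun x => w x * χ x := χ.hasCompactSupport.mul_left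
  obtain ⟨B, hB⟩ := hcs.exists_bound_of_continuous hc.continuous
  obtain ⟨L, hL⟩ := (hcs.fderiv ℝ).exists_bound_of_continuous
    (hc.continuous_fderiv (by norm_num))
  refine ⟨fun x => w x * χ x, B, L, ⟨hc, fun x => by rw [← Real.norm_eq_abs]; exact hB x, hL⟩,
    fun x hx => ?_, fun he x => ?_⟩
  · have hx' : x ∈ Metric.ball (0 : Eu κ) r := by
      rw [Metric.mem_ball, dist_zero_right]
      linarith
    have h1 : ∀ y ∈ Metric.ball (0 : Eu κ) r, w y * χ y = w y := by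
      intro y hy
      rw [χ.one_of_mem_closedBall (by rw [hχ]; exact Metric.ball_subset_closedBall hy), mul_one]
    refine ⟨h1 x hx', ?_⟩
    refine Filter.EventuallyEq.fderiv_eq ?_
    filter_upwards [Metric.isOpen_ball.mem_nhds hx'] with y hy
    exact h1 y hy
  · simp only
    rw [he, χ.neg]

theorem ae_norm (hρ : LC ρ) {R : ℝ} (hR : ∀ x, R < ‖x‖ → ρ x = 0) : ∀ᵐ x ∂(mu ρ), ‖x‖ ≤ R := by
  filter_upwards [ae_ne hρ] with x hx
  by_contra h
  exact hx (hR x (not_le.1 h))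

/-- the variance of `nm ρ` -/
theorem var_nm (hρ : LC ρ) (f : Eu κ → ℝ) :
    (∫ x, f x ^ 2 ∂(nm ρ)) - (∫ x, f x ∂(nm ρ)) ^ 2 = W ρ f / (mu ρ).real univ := by
  have hM := mass_pos hρ
  rw [nm_mu hρ, nm_mu hρ]
  unfold W
  field_simp

theorem ep_of_poiE (hρ : LC ρ) {D : ℝ} (h : PoiE (nm ρ) D) : EV.EP ρ D := by
  intro w hw he
  have hM := mass_pos hρ
  obtain ⟨R, hR⟩ := hρ.bdd
  obtain ⟨f, B, L, hf, h1, h2⟩ := exists_tst R hw
  have h3 := h f B L hf (h2 he)
  rw [var_nm hρ, nm_mu hρ, mul_div_assoc', div_le_div_iff_of_pos_right hM] at h3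
  have hae := ae_norm hρ hR
  have e1 : ∫ x, f x ^ 2 ∂(mu ρ) = ∫ x, w x ^ 2 ∂(mu ρ) := by
    refine integral_congr_ae ?_
    filter_upwards [hae] with x hx
    rw [(h1 x hx).1]
  have e2 : ∫ x, f x ∂(mu ρ) = ∫ x, w x ∂(mu ρ) := by
    refine integral_congr_ae ?_
    filter_upwards [hae] with x hx
    rw [(h1 x hx).1]
  have e3 : ∫ x, ‖fderiv ℝ f x‖ ^ 2 ∂(mu ρ) = ∫ x, ‖fderiv ℝ w x‖ ^ 2 ∂(mu ρ) := by
    refine integral_congr_ae ?_
    filter_upwards [hae] with x hx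
    rw [(h1 x hx).2]
  unfold W at h3 ⊢
  unfold EV.en
  rw [e1, e2, e3] at h3
  exact h3

theorem poi_of_w (hρ : LC ρ) {D : ℝ}
    (h : ∀ f : Eu κ → ℝ, ContDiff ℝ 1 f → W ρ f ≤ D * EV.en ρ f) : Poi (nm ρ) D := by
  intro f B L hf
  have hM := mass_pos hρ
  rw [var_nm hρ, nm_mu hρ, mul_div_assoc', div_le_div_iff_of_pos_right hM]
  exact h f hf.diff

/-- **the Poincare inequality from even functions** -/
theorem poi_of_poiE (hρ : LC ρ) (hw : Wt ρ) (he : ∀ x, ρ (-x) = ρ x) {D s : ℝ} (hD : 0 < D)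
    (hs : 0 < s) (h : PoiE (nm ρ) D) (hc : CovLe (nm ρ) s) : Poi (nm ρ) (2 * (D + s)) := by
  have hM := mass_pos hρ
  have hp := hw.prob
  refine poi_of_w hρ fun f hf => all_poi hρ hD hs (ep_of_poiE hρ h) ?_ he hf
  intro θ
  have h0 : ∫ x, ⟪x, θ⟫_ℝ ∂(nm ρ) = 0 := by
    rw [nm_mu hρ]
    have h1 := int_neg hρ he fun x => ⟪x, θ⟫_ℝ
    have h2 : ∫ x, ⟪-x, θ⟫_ℝ ∂(mu ρ) = -∫ x, ⟪x, θ⟫_ℝ ∂(mu ρ) := by
      rw [← integral_neg]
      exact integral_congr_ae (Eventually.of_forall fun x => inner_neg_left _ _)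
    rw [h2] at h1
    have h3 : ∫ x, ⟪x, θ⟫_ℝ ∂(mu ρ) = 0 := by linarith
    rw [h3, zero_div]
  have h1 := var_le_scale hc θ
  rw [Pool.Agent.H776.var_eq hw.int_sq, h0, nm_mu hρ] at h1
  rw [zero_pow two_ne_zero, sub_zero, div_le_iff₀ hM] at h1
  calc ∫ x, ⟪x, θ⟫_ℝ ^ 2 ∂(mu ρ) ≤ ‖θ‖ ^ 2 * s * (mu ρ).real univ := h1
    _ = s * ‖θ‖ ^ 2 * (mu ρ).real univ := by ring

/-- densities -/
theorem lc_of {f : Eu κ → ℝ} (hf : Wt f) (hl : ∀ x y : Eu κ, ∀ t : ℝ, 0 < t → t < 1 →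
    f x ^ (1 - t) * f y ^ t ≤ f ((1 - t) • x + t • y)) (hb : ∃ R : ℝ, ∀ x, R < ‖x‖ → f x = 0) :
    LC f := by
  have h1 : mu f univ = ENNReal.ofReal (∫ x, f x) := by
    unfold mu
    rw [withDensity_apply _ MeasurableSet.univ, Measure.restrict_univ,
      ← ofReal_integral_eq_lintegral_ofReal hf.integrable (Eventually.of_forall hf.nonneg)]
  refine ⟨hf.nonneg, hf.meas, hl, hb, ?_, ?_⟩
  · rw [h1]
    exact ENNReal.ofReal_ne_top
  · intro h2
    rw [h2] at h1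
    have h3 := ENNReal.ofReal_pos.2 hf.pos
    rw [← h1] at h3
    simp at h3

theorem lc_ind {K : Set (Eu κ)} (hK : Body K) : LC (K.indicator fun _ => (1 : ℝ)) := by
  refine lc_of hK.wt (fun x y t ht ht1 => ?_) ?_
  · by_cases hx : x ∈ K
    · by_cases hy : y ∈ K
      · have hxy : (1 - t) • x + t • y ∈ K := hK.cvx hx hy (by linarith) ht.le (by ring)
        rw [indicator_of_mem hx, indicator_of_mem hy, indicator_of_mem hxy, Real.one_rpow,
          Real.one_rpow, mul_one]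
      · rw [indicator_of_notMem hy, Real.zero_rpow ht.ne', mul_zero]
        exact indicator_nonneg (fun _ _ => zero_le_one) _
    · rw [indicator_of_notMem hx, Real.zero_rpow (by linarith), zero_mul]
      exact indicator_nonneg (fun _ _ => zero_le_one) _
  · obtain ⟨R, hR⟩ := hK.cpt.isBounded.subset_closedBall (0 : Eu κ)
    refine ⟨R, fun x hx => indicator_of_notMem (fun h => ?_) _⟩
    have := hR h
    rw [Metric.mem_closedBall, dist_zero_right] at this
    linarith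

theorem lc_gcl {F : Type} [Fintype F] (A : Eu κ →ₗ[ℝ] Eu F) : LC (gcl A) := by
  refine lc_of wt_gcl (fun x y t ht ht1 => ?_) ?_
  · unfold gcl
    by_cases hx : ∀ i, |x i| ≤ 1
    · by_cases hy : ∀ i, |y i| ≤ 1
      · have hxy : ∀ i, |((1 - t) • x + t • y : Eu κ) i| ≤ 1 := by
          intro i
          have e : ((1 - t) • x + t • y : Eu κ) i = (1 - t) * x i + t * y i := rfl
          rw [e]
          refine (abs_add_le _ _).trans ?_
          rw [abs_mul, abs_mul, abs_of_pos ht, abs_of_pos (by linarith : 0 < 1 - t)]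
          nlinarith [hx i, hy i]
        rw [if_pos hx, if_pos hy, if_pos hxy, ← Real.exp_mul, ← Real.exp_mul, ← Real.exp_add]
        refine Real.exp_le_exp.2 ?_
        rw [map_add, map_smul, map_smul]
        have h1 : ‖(1 - t) • A x + t • A y‖ ≤ (1 - t) * ‖A x‖ + t * ‖A y‖ := by
          refine (norm_add_le _ _).trans (le_of_eq ?_)
          rw [norm_smul, norm_smul, Real.norm_of_nonneg ht.le, Real.norm_of_nonneg (by linarith)]
        have h2 := pow_le_pow_left₀ (norm_nonneg _) h1 2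
        have h3 : ((1 - t) * ‖A x‖ + t * ‖A y‖) ^ 2 ≤ (1 - t) * ‖A x‖ ^ 2 + t * ‖A y‖ ^ 2 := by
          have h4 : 0 ≤ t * (1 - t) * (‖A x‖ - ‖A y‖) ^ 2 := by
            have : 0 ≤ 1 - t := by linarith
            positivity
          nlinarith
        nlinarith
      · rw [if_neg hy, Real.zero_rpow ht.ne', mul_zero]
        split_ifs
        · exact (Real.exp_pos _).le
        · exact le_rfl
    · rw [if_neg hx, Real.zero_rpow (by linarith), zero_mul]
      split_ifs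
      · exact (Real.exp_pos _).le
      · exact le_rfl
  · obtain ⟨R, hR⟩ := (cub_compact (κ := κ)).isBounded.subset_closedBall (0 : Eu κ)
    refine ⟨R, fun x hx => ?_⟩
    unfold gcl
    rw [if_neg]
    intro h
    have h1 : x ∈ cub κ := h
    have := hR h1
    rw [Metric.mem_closedBall, dist_zero_right] at this
    linarith

theorem gcl_even {F : Type} [Fintype F] (A : Eu κ →ₗ[ℝ] Eu F) (x : Eu κ) :
    gcl A (-x) = gcl A x := by
  unfold gcl
  have e : (∀ i, |(-x) i| ≤ 1) ↔ ∀ i, |x i| ≤ 1 := by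
    simp only [PiLp.neg_apply, abs_neg]
  rw [map_neg, norm_neg]
  by_cases h : ∀ i, |x i| ≤ 1
  · rw [if_pos h, if_pos (e.2 h)]
  · rw [if_neg h, if_neg fun h' => h (e.1 h')]

end Pool.Agent.H776
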