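import Pool.Agent.H776.SPer

/-!
# Sets of measure one half and central hyperplane sections
-/

set_option autoImplicit false

namespace Pool.Agent.H776

open MeasureTheory Set Filter Topology
open scoped ENNReal NNReal InnerProductSpace
open Pool.Agent.W695.KH (dv per sec_bound EV)

variable {κ : Type} [Fintype κ]

/-- the boundary measure of sets of measure one half -/
def HM (μ : Measure (Eu κ)) (h : ℝ) : Prop :=
  ∀ S : Set (Eu κ), MeasurableSet S → μ S = 1 / 2 → ENNReal.ofReal h ≤ bdr μ S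

/-- the hyperplane inequality -/
def HB (C : ℝ) (Ω : Set (Eu κ)) : Prop := ∀ E : Set (Eu κ), MeasurableSet E → E ⊆ Ω →
  volume E = volume Ω / 2 →
  ⨅ (a : Eu κ) (_ : a ≠ 0), Pool.Agent.W695.KH.sec Ω a ≤ ENNReal.ofReal C * per E Ω

theorem neg_inv {K : Set (Eu κ)} (hs : ∀ x ∈ K, -x ∈ K) (hm : MeasurableSet K) {A : Set (Eu κ)}
    (hA : MeasurableSet A) : unf K {x | -x ∈ A} = unf K A := by
  have hK : (fun x : Eu κ => -x) ⁻¹' K = K := by
    ext x
    exact ⟨fun h => by have := hs _ h; rwa [neg_neg] at this, fun h => hs x h⟩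
  have hmn : Measurable fun x : Eu κ => -x := measurable_neg
  have hA' : MeasurableSet {x : Eu κ | -x ∈ A} := hA.preimage hmn
  unfold unf
  rw [Measure.smul_apply, Measure.smul_apply, Measure.restrict_apply hA,
    Measure.restrict_apply hA']
  have e : {x : Eu κ | -x ∈ A} ∩ K = (fun x : Eu κ => -x) ⁻¹' (A ∩ K) := by
    rw [preimage_inter, hK]
    rfl
  have e2 : volume ((fun x : Eu κ => -x) ⁻¹' (A ∩ K)) = volume (A ∩ K) :=
    (Measure.measurePreserving_neg volume).measure_preimage (hA.inter hm).nullMeasurableSet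
  have e3 : volume ({x : Eu κ | -x ∈ A} ∩ K) = volume (A ∩ K) := by rw [e, e2]
  exact congrArg (fun t => (volume K)⁻¹ • t) e3

theorem mean_zero {K : Set (Eu κ)} (hs : ∀ x ∈ K, -x ∈ K) (hm : MeasurableSet K) (θ : Eu κ) :
    ∫ x, ⟪x, θ⟫_ℝ ∂(unf K) = 0 := by
  have h1 : (unf K).map (fun x : Eu κ => -x) = unf K := by
    ext A hA
    rw [Measure.map_apply measurable_neg hA]
    exact neg_inv hs hm hA
  have h2 : ∫ x, ⟪x, θ⟫_ℝ ∂(unf K) = ∫ x, ⟪-x, θ⟫_ℝ ∂(unf K) := by
    conv_lhs => rw [← h1]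
    exact integral_map measurable_neg.aemeasurable
      ((by fun_prop : Continuous fun x : Eu κ => ⟪x, θ⟫_ℝ).aestronglyMeasurable)
  have h3 : ∫ x, ⟪-x, θ⟫_ℝ ∂(unf K) = -∫ x, ⟪x, θ⟫_ℝ ∂(unf K) := by
    rw [← integral_neg]
    exact integral_congr_ae (Eventually.of_forall fun x => inner_neg_left _ _)
  linarith

theorem plane0 {a : Eu κ} (ha : a ≠ 0) : volume {x : Eu κ | ⟪a, x⟫_ℝ = 0} = 0 := by
  have h1 : {x : Eu κ | ⟪a, x⟫_ℝ = 0} = ((ℝ ∙ a)ᗮ : Submodule ℝ (Eu κ)) := by
    ext x
    exact (Submodule.mem_orthogonal_singleton_iff_inner_right).symm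
  rw [h1]
  refine Measure.addHaar_submodule _ _ fun h => ?_
  have h2 : a ∈ (ℝ ∙ a)ᗮ := by rw [h]; exact Submodule.mem_top
  rw [Submodule.mem_orthogonal_singleton_iff_inner_right, inner_self_eq_zero] at h2
  exact ha h2

theorem sec_unit {Ω : Set (Eu κ)} {a : Eu κ} (ha : a ≠ 0) :
    Pool.Agent.W695.KH.sec Ω (‖a‖⁻¹ • a) = Pool.Agent.W695.KH.sec Ω a := by
  have h1 : Submodule.span ℝ {‖a‖⁻¹ • a} = Submodule.span ℝ {a} :=
    Submodule.span_singleton_smul_eq (isUnit_iff_ne_zero.2 (inv_ne_zero (norm_ne_zero_iff.2 ha))) a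
  exact congrArg (fun W : Submodule ℝ (Eu κ) => volume {y : Wᗮ | (y : Eu κ) ∈ Ω}) h1

/-- **central sections are large** -/
theorem sec_ge {K : Set (Eu κ)} (hK : Body K) (hs : ∀ x ∈ K, -x ∈ K) {s : ℝ} (hs0 : 0 < s)
    (hcov : CovLe (unf K) s) {a : Eu κ} (ha : a ≠ 0) :
    volume (interior K) ≤ ENNReal.ofReal (4 * Real.sqrt (2 * s)) *
      Pool.Agent.W695.KH.sec (interior K) a := by
  obtain ⟨Cs, hCs, hsb⟩ := sec_bound
  rw [← sec_unit ha]
  set u := ‖a‖⁻¹ • a with hu
  have hu1 : ‖u‖ = 1 := by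
    rw [hu, norm_smul, norm_inv, norm_norm, inv_mul_cancel₀ (norm_ne_zero_iff.2 ha)]
  have hu0 : u ≠ 0 := by
    intro h
    rw [h, norm_zero] at hu1
    exact zero_ne_one hu1
  set δ := Real.sqrt (2 * s) with hδ
  have hδ0 : 0 < δ := Real.sqrt_pos.2 (by positivity)
  have hδ2 : δ ^ 2 = 2 * s := Real.sq_sqrt (by positivity)
  have hsi : ∀ x ∈ interior K, -x ∈ interior K := by
    intro x hx
    have hop : IsOpen ((fun y => -y) ⁻¹' interior K) := isOpen_interior.preimage continuous_neg
    have hsub : (fun y => -y) ⁻¹' interior K ⊆ K := by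
      intro y hy
      have := hs _ (interior_subset hy)
      rwa [neg_neg] at this
    exact interior_maximal hsub hop (by simpa using hx)
  have h0 : (0 : Eu κ) ∈ interior K := by
    obtain ⟨x, hx⟩ := hK.int
    have h := hK.cvx.interior hx (hsi x hx) (by norm_num : (0 : ℝ) ≤ 1 / 2)
      (by norm_num : (0 : ℝ) ≤ 1 / 2) (by norm_num)
    rwa [smul_neg, add_neg_cancel] at h
  have h3 := (hsb κ (interior K) isOpen_interior hK.cvx.interior
    (hK.cpt.isBounded.subset interior_subset) h0 hsi u hu1).2.2 δ hδ0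
  have hp := hK.prob
  have hac : unf K ≪ volume := by
    rw [← nm_ind hK]
    exact withDensity_absolutelyContinuous _ _
  -- Chebyshev
  have hint : Integrable (fun x => ⟪x, u⟫_ℝ ^ 2) (unf K) := (grow_inner_sq u).integrable hK.int_sq
  have h4 : ∫ x, ⟪x, u⟫_ℝ ^ 2 ∂(unf K) ≤ s := by
    have := hcov u hu1
    rw [var_eq hK.int_sq, mean_zero hs hK.cpt.measurableSet] at this
    simpa using this
  have h5 := mul_meas_ge_le_integral_of_nonneg (μ := unf K) (f := fun x => ⟪x, u⟫_ℝ ^ 2)
    (Eventually.of_forall fun x => sq_nonneg _) hint (δ ^ 2)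
  have h6 : (unf K).real {x | δ ^ 2 ≤ ⟪x, u⟫_ℝ ^ 2} ≤ 1 / 2 := by
    rw [hδ2] at h5 ⊢
    have : 2 * s * (unf K).real {x | 2 * s ≤ ⟪x, u⟫_ℝ ^ 2} ≤ s := h5.trans h4
    by_contra hcon
    rw [not_le] at hcon
    nlinarith
  set A := {x : Eu κ | 0 < ⟪u, x⟫_ℝ ∧ ⟪u, x⟫_ℝ ≤ δ} with hA
  have hAm : MeasurableSet A := by
    have hc : Continuous fun x : Eu κ => ⟪u, x⟫_ℝ := by fun_prop
    exact (measurableSet_lt measurable_const hc.measurable).inter
      (measurableSet_le hc.measurable measurable_const)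
  have h7 : (univ : Set (Eu κ)) ⊆ {x | δ ^ 2 ≤ ⟪x, u⟫_ℝ ^ 2} ∪
      ((A ∪ {x | -x ∈ A}) ∪ {x | ⟪u, x⟫_ℝ = 0}) := by
    intro x _
    rcases le_or_gt (δ ^ 2) (⟪x, u⟫_ℝ ^ 2) with h | h
    · exact Or.inl h
    · right
      have h8 : |⟪x, u⟫_ℝ| < δ := abs_lt_of_sq_lt_sq h hδ0.le
      rw [real_inner_comm, abs_lt] at h8
      rcases lt_trichotomy 0 ⟪u, x⟫_ℝ with h9 | h9 | h9
      · exact Or.inl (Or.inl ⟨h9, h8.2.le⟩)
      · exact Or.inr h9.symm
      · refine Or.inl (Or.inr ?_)
        show 0 < ⟪u, -x⟫_ℝ ∧ ⟪u, -x⟫_ℝ ≤ δ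
        rw [inner_neg_right]
        constructor <;> linarith [h8.1]
  have h8 : (1 : ℝ) ≤ 1 / 2 + 2 * (unf K).real A := by
    have h9 : (unf K).real univ ≤ (unf K).real {x | δ ^ 2 ≤ ⟪x, u⟫_ℝ ^ 2} +
        (((unf K).real A + (unf K).real {x | -x ∈ A}) + (unf K).real {x | ⟪u, x⟫_ℝ = 0}) := by
      refine (measureReal_mono h7).trans ((measureReal_union_le _ _).trans ?_)
      gcongr
      refine (measureReal_union_le _ _).trans ?_
      gcongr
      exact measureReal_union_le _ _
    have e1 : (unf K).real {x | -x ∈ A} = (unf K).real A := by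
      rw [measureReal_def, measureReal_def, neg_inv hs hK.cpt.measurableSet hAm]
    have e2 : (unf K).real {x | ⟪u, x⟫_ℝ = 0} = 0 := by
      rw [measureReal_def, hac (plane0 hu0)]
      rfl
    rw [e1, e2] at h9
    have e3 : (unf K).real univ = 1 := by simp
    rw [e3] at h9
    linarith
  -- the volume
  have hcl : closure (interior K) = K := by
    rw [hK.cvx.closure_interior_eq_closure_of_nonempty_interior hK.int, hK.cpt.isClosed.closure_eq]
  have hae : (K : Set (Eu κ)) =ᵐ[volume] interior K := by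
    have := Pool.Agent.W932.KH.closure_ae (isOpen_interior (s := K)) hK.cvx.interior
    rwa [hcl] at this
  have hv : volume K = volume (interior K) := measure_congr hae
  have h10 : volume (interior K) ≤ 4 * volume (interior K ∩ A) := by
    have e1 : unf K A = (volume K)⁻¹ * volume (A ∩ K) := by
      unfold unf
      rw [Measure.smul_apply, smul_eq_mul, Measure.restrict_apply hAm]
    have e2 : volume (A ∩ K) = volume (interior K ∩ A) := by
      rw [inter_comm (interior K)]
      exact measure_congr ((EventuallyEq.refl _ A).inter hae)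
    have h11 : ENNReal.ofReal (1 / 4) ≤ unf K A := by
      rw [← ENNReal.ofReal_toReal (measure_ne_top (unf K) A)]
      refine ENNReal.ofReal_le_ofReal ?_
      rw [← measureReal_def]
      linarith
    rw [e1, e2] at h11
    have h12 : volume K * ENNReal.ofReal (1 / 4) ≤ volume (interior K ∩ A) := by
      refine (mul_le_mul_right h11 (volume K)).trans (le_of_eq ?_)
      rw [← mul_assoc, ENNReal.mul_inv_cancel hK.pos.ne' hK.fin, one_mul]
    rw [hv] at h12
    calc volume (interior K) = 4 * (volume (interior K) * ENNReal.ofReal (1 / 4)) := by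
          rw [mul_comm, mul_assoc]
          have : ENNReal.ofReal (1 / 4) * 4 = 1 := by
            rw [show (4 : ℝ≥0∞) = ENNReal.ofReal 4 by norm_num, ← ENNReal.ofReal_mul (by norm_num)]
            norm_num
          rw [this, mul_one]
      _ ≤ 4 * volume (interior K ∩ A) := mul_le_mul_right h12 _
  refine h10.trans ?_
  rw [ENNReal.ofReal_mul (by norm_num), mul_assoc]
  have e4 : ENNReal.ofReal 4 = 4 := by norm_num
  rw [e4]
  exact mul_le_mul_right h3 _

/-- **the hyperplane inequality and sets of measure one half** -/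
theorem hm_of_hb {K : Set (Eu κ)} (hK : Body K) (hs : ∀ x ∈ K, -x ∈ K) {C : ℝ} (hC : 0 < C)
    (h : HB C (interior K)) {s : ℝ} (hs0 : 0 < s) (hcov : CovLe (unf K) s) :
    HM (unf K) (1 / (4 * Real.sqrt (2 * s) * C)) := by
  intro S hS hSh
  have hss : 0 < Real.sqrt (2 * s) := Real.sqrt_pos.2 (by positivity)
  have hcl : closure (interior K) = K := by
    rw [hK.cvx.closure_interior_eq_closure_of_nonempty_interior hK.int, hK.cpt.isClosed.closure_eq]
  have hae : (K : Set (Eu κ)) =ᵐ[volume] interior K := by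
    have := Pool.Agent.W932.KH.closure_ae (isOpen_interior (s := K)) hK.cvx.interior
    rwa [hcl] at this
  have hv : volume K = volume (interior K) := measure_congr hae
  set E := S ∩ interior K with hE
  have hEm : MeasurableSet E := hS.inter isOpen_interior.measurableSet
  have hEv : volume E = volume (S ∩ K) :=
    (measure_congr ((EventuallyEq.refl _ S).inter hae)).symm
  have hSv : volume (S ∩ K) = volume K / 2 := by
    have e1 : unf K S = (volume K)⁻¹ * volume (S ∩ K) := by
      unfold unf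
      rw [Measure.smul_apply, smul_eq_mul, Measure.restrict_apply hS]
    rw [e1] at hSh
    calc volume (S ∩ K) = volume K * ((volume K)⁻¹ * volume (S ∩ K)) := by
          rw [← mul_assoc, ENNReal.mul_inv_cancel hK.pos.ne' hK.fin, one_mul]
      _ = volume K / 2 := by rw [hSh, mul_one_div]
  have h1 := h E hEm inter_subset_right (by rw [hEv, hSv, hv])
  have h2 : volume (interior K) / ENNReal.ofReal (4 * Real.sqrt (2 * s)) ≤
      ⨅ (a : Eu κ) (_ : a ≠ 0), Pool.Agent.W695.KH.sec (interior K) a := by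
    refine le_iInf₂ fun a ha => ?_
    exact ENNReal.div_le_of_le_mul' (sec_ge hK hs hs0 hcov ha)
  have h3 := per_le (Ω := interior K) interior_subset hK.pos hK.fin hK.cpt.measurableSet hEm
  have h4 : bdr (unf K) E ≤ bdr (unf K) S := by
    have e1 : unf K E = unf K S := by
      unfold unf
      rw [Measure.smul_apply, Measure.smul_apply, Measure.restrict_apply hEm,
        Measure.restrict_apply hS]
      have : volume (E ∩ K) = volume (S ∩ K) := by
        rw [← hEv]
        congr 1
        exact inter_eq_left.2 (inter_subset_right.trans interior_subset)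
      rw [this]
    unfold bdr
    refine liminf_le_liminf (Eventually.of_forall fun ε => ?_)
    refine ENNReal.div_le_div_right ?_ _
    rw [e1]
    exact tsub_le_tsub_right (measure_mono (Metric.thickening_subset_of_subset ε inter_subset_left)) _
  have h5 : volume (interior K) / ENNReal.ofReal (4 * Real.sqrt (2 * s)) ≤
      ENNReal.ofReal C * (volume K * bdr (unf K) S) :=
    h2.trans (h1.trans (mul_le_mul_right (h3.trans (mul_le_mul_right h4 _)) _))
  rw [← hv] at h5
  have h6 : 1 / ENNReal.ofReal (4 * Real.sqrt (2 * s)) ≤ ENNReal.ofReal C * bdr (unf K) S := by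
    have h7 : volume K * (1 / ENNReal.ofReal (4 * Real.sqrt (2 * s))) ≤
        volume K * (ENNReal.ofReal C * bdr (unf K) S) := by
      rw [mul_one_div]
      refine h5.trans (le_of_eq ?_)
      ring
    exact (ENNReal.mul_le_mul_iff_right hK.pos.ne' hK.fin).1 h7
  rw [ENNReal.ofReal_div_of_pos (by positivity), ENNReal.ofReal_mul (by positivity),
    ENNReal.ofReal_one]
  rw [ENNReal.div_le_iff (by
      rw [Ne, mul_eq_zero, ENNReal.ofReal_eq_zero, ENNReal.ofReal_eq_zero, not_or, not_le, not_le]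
      exact ⟨by positivity, hC⟩) (ENNReal.mul_ne_top ENNReal.ofReal_ne_top ENNReal.ofReal_ne_top)]
  rw [ENNReal.div_le_iff (ENNReal.ofReal_pos.2 (by positivity)).ne' ENNReal.ofReal_ne_top] at h6
  refine h6.trans (le_of_eq ?_)
  ring

end Pool.Agent.H776
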