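import Pool.Agent.H776.EV4
import Pool.Agent.H776.SHm

/-!
# Symmetric sets and central sections of a symmetric convex domain
-/

set_option autoImplicit false

namespace Pool.Agent.H776

open MeasureTheory Set Filter Topology
open scoped ENNReal NNReal InnerProductSpace Pointwise
open Pool.Agent.W695.KH (dv per sec_bound EV VV Sm PerLe perLe_toReal)
open Pool.Agent.W932.KH (closure_ae EV_scale)
open Pool.Agent.W800.KH (u_mem sm_f VV_tendsto VV_ind perim_key)

variable {κ : Type} [Fintype κ]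

/-- **perimeters from the inequality for functions** -/
theorem per_ge {Ω : Set (Eu κ)} (hΩo : IsOpen Ω) (hΩc : Convex ℝ Ω)
    (hΩb : Bornology.IsBounded Ω) (h0 : (0 : Eu κ) ∈ Ω) {B : ℝ} (hB : 0 < B)
    (H : ∀ r : ℝ, 0 < r → r < 1 → ∀ (f : Eu κ → ℝ) (L M : ℝ), Sm f L M → (∀ x, |f x| ≤ 1 / 2) →
      VV (r • closure Ω) f ≤ B * EV (r • closure Ω) fun x => ‖fderiv ℝ f x‖)
    {E : Set (Eu κ)} (hE : MeasurableSet E) (hEΩ : E ⊆ Ω) {P : ℝ} (hP : PerLe Ω E P) :
    volume.real E * volume.real (Ω \ E) ≤ B * P * volume.real Ω := by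
  have hΩt : volume Ω ≠ ⊤ := hΩb.measure_lt_top.ne
  have hΩ0 : volume Ω ≠ 0 := (hΩo.measure_pos volume ⟨0, h0⟩).ne'
  obtain ⟨V, hV⟩ : ∃ V, V = volume.real Ω := ⟨_, rfl⟩
  obtain ⟨e, he⟩ : ∃ e, e = volume.real E := ⟨_, rfl⟩
  obtain ⟨g, hg⟩ : ∃ g, g = volume.real (Ω \ E) := ⟨_, rfl⟩
  have hV0 : 0 < V := by rw [hV]; exact ENNReal.toReal_pos hΩ0 hΩt
  have he0 : 0 ≤ e := by rw [he]; exact measureReal_nonneg
  have hg0 : 0 ≤ g := by rw [hg]; exact measureReal_nonneg
  have hEt : volume E ≠ ⊤ := (lt_of_le_of_lt (measure_mono hEΩ) hΩt.lt_top).ne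
  have heg : e + g = V := by
    rw [he, hg, hV, measureReal_sdiff hEΩ hE hΩt]
    ring
  rw [← hV, ← he, ← hg]
  -- fixed radius
  have hfix : ∀ r : ℝ, 0 < r → r < 1 →
      e * g ≤ B * P * V + (1 - r ^ Module.finrank ℝ (Eu κ)) * V * V := by
    intro r hr0 hr1
    obtain ⟨D, hD⟩ : ∃ D, D = r • closure Ω := ⟨_, rfl⟩
    have hDc : IsCompact D := by rw [hD]; exact hΩb.isCompact_closure.smul r
    have hDΩ : D ⊆ Ω := by
      rw [hD]
      rintro x ⟨y, hy, rfl⟩
      have h1 := hΩc.combo_interior_closure_mem_interior (x := 0) (y := y) (a := 1 - r) (b := r)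
        (by rwa [hΩo.interior_eq]) hy (by linarith) hr0.le (by ring)
      rw [smul_zero, zero_add] at h1
      exact interior_subset h1
    have hvD : volume.real D = r ^ Module.finrank ℝ (Eu κ) * V := by
      rw [hD, measureReal_def, Measure.addHaar_smul_of_nonneg _ hr0.le,
        measure_closure_of_null_frontier (hΩc.addHaar_frontier _), ENNReal.toReal_mul,
        ENNReal.toReal_ofReal (by positivity), hV, measureReal_def]
    have hrn1 : r ^ Module.finrank ℝ (Eu κ) ≤ 1 := pow_le_one₀ hr0.le hr1.le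
    obtain ⟨d, hd⟩ : ∃ d, d = volume.real D := ⟨_, rfl⟩
    have hd0 : 0 < d := by rw [hd, hvD]; positivity
    have hdV : d ≤ V := by
      rw [hd, hvD]
      nlinarith
    have hDt : volume D ≠ ⊤ := hDc.measure_lt_top.ne
    have hDm : MeasurableSet D := hDc.measurableSet
    obtain ⟨a, ha⟩ : ∃ a, a = volume.real (E ∩ D) := ⟨_, rfl⟩
    obtain ⟨τ, hτ⟩ : ∃ τ, τ = (1 - r ^ Module.finrank ℝ (Eu κ)) * V := ⟨_, rfl⟩
    have hτd : V - d = τ := by rw [hd, hvD, hτ]; ring
    have hae : e - τ ≤ a := by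
      have h1 : volume.real (E ∩ D) + volume.real (E \ D) = volume.real E :=
        measureReal_inter_add_sdiff hDm hEt
      have h2 : volume.real (E \ D) ≤ volume.real (Ω \ D) :=
        measureReal_mono (sdiff_subset_sdiff_left hEΩ) (ne_top_of_le_ne_top hΩt
          (measure_mono sdiff_subset))
      have h3 : volume.real (Ω \ D) = V - d := by
        rw [measureReal_sdiff hDΩ hDm hΩt, hV, hd]
      rw [ha]
      linarith
    have ha0 : 0 ≤ a := by rw [ha]; exact measureReal_nonneg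
    have had : a ≤ e := by
      rw [ha, he]
      exact measureReal_mono inter_subset_left hEt
    have hda : g - τ ≤ d - a := by linarith
    have hda0 : 0 ≤ d - a := by
      rw [sub_nonneg, ha, hd]
      exact measureReal_mono inter_subset_right hDt
    -- the mollifiers
    have hVVle : VV D (fun x => E.indicator (fun _ => (1 : ℝ)) x - 1 / 2) ≤ B * (P / d) := by
      obtain ⟨δ, hδ0, hδ⟩ := hDc.exists_cthickening_subset_open hΩo hDΩ
      let φ : ℕ → ContDiffBump (0 : Eu κ) := fun i =>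
        ⟨δ / (2 * ((i : ℝ) + 1)), δ / ((i : ℝ) + 1), by positivity, by
          rw [div_lt_div_iff₀ (by positivity) (by positivity)]
          nlinarith⟩
      have hφ1 : Tendsto (fun i => (φ i).rOut) atTop (𝓝 0) := by
        have h1 := (tendsto_one_div_add_atTop_nhds_zero_nat (𝕜 := ℝ)).const_mul δ
        rw [mul_zero] at h1
        refine h1.congr fun i => ?_
        show δ * (1 / ((i : ℝ) + 1)) = δ / ((i : ℝ) + 1)
        ring
      have hφ2 : ∀ i, (φ i).rOut ≤ 2 * (φ i).rIn := by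
        intro i
        show δ / ((i : ℝ) + 1) ≤ 2 * (δ / (2 * ((i : ℝ) + 1)))
        apply le_of_eq
        field_simp
      have hφ3 : ∀ i, (φ i).rOut ≤ δ := by
        intro i
        show δ / ((i : ℝ) + 1) ≤ δ
        refine div_le_self hδ0.le ?_
        have : (0 : ℝ) ≤ i := Nat.cast_nonneg i
        linarith
      refine le_of_tendsto' (VV_tendsto φ hφ1 hφ2 E hE hEt D hDc) fun i => ?_
      obtain ⟨L, M, hsm⟩ := sm_f (φ i) E hE (hΩb.subset hEΩ) hEt
      have hfin := H r hr0 hr1 _ L M hsm (fun x => by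
        obtain ⟨h1, h2⟩ := u_mem (φ i) E hE x
        rw [abs_le]
        constructor <;> linarith)
      rw [← hD] at hfin
      have hkey := perim_key Ω E D hE hEt P hP hDc δ hδ (φ i) (hφ3 i)
      have hfd : ∀ x, fderiv ℝ (fun x => Pool.Agent.W800.KH.cv (φ i) (E.indicator fun _ => (1 : ℝ)) x - 1 / 2) x =
          fderiv ℝ (Pool.Agent.W800.KH.cv (φ i) (E.indicator fun _ => (1 : ℝ))) x := fun x => fderiv_sub_const _
      refine hfin.trans (mul_le_mul_of_nonneg_left ?_ hB.le)
      unfold EV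
      simp_rw [hfd]
      rw [← measureReal_def, ← hd]
      exact div_le_div_of_nonneg_right hkey hd0.le
    have hd0' : 0 < (volume D).toReal := by rw [← measureReal_def, ← hd]; exact hd0
    rw [VV_ind E hE D hDc hd0', ← measureReal_def, ← measureReal_def, ← ha, ← hd] at hVVle
    have h1 : a * (d - a) ≤ B * P * d := by
      have h2 : 1 / 4 - (a / d - 1 / 2) ^ 2 = a * (d - a) / d ^ 2 := by
        field_simp
        ring
      rw [h2, mul_div_assoc', div_le_div_iff₀ (by positivity) hd0] at hVVle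
      have h3 : a * (d - a) * d ≤ (B * P * d) * d := by
        refine hVVle.trans (le_of_eq ?_)
        ring
      exact le_of_mul_le_mul_right h3 hd0
    have hP0 : 0 ≤ P := by
      have h := hP (fun _ => 0) contDiff_const HasCompactSupport.zero
        (by simp [tsupport]) (fun x => by simp)
      have h1 : ∀ x, dv (fun _ : Eu κ => (0 : Eu κ)) x = 0 := by
        intro x
        unfold dv
        simp
      simpa [h1] using h
    have h2 : B * P * d ≤ B * P * V := mul_le_mul_of_nonneg_left hdV (by positivity)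
    have hτ0 : 0 ≤ τ := by linarith
    rw [← hτ]
    -- e g ≤ a (d - a) + τ V
    have h3 : e * g ≤ a * (d - a) + τ * V := by
      rcases le_or_gt τ e with h4 | h4
      · rcases le_or_gt τ g with h5 | h5
        · have h6 : (e - τ) * (g - τ) ≤ a * (d - a) :=
            mul_le_mul hae hda (by linarith) ha0
          nlinarith
        · have h6 : 0 ≤ a * (d - a) := mul_nonneg ha0 hda0
          nlinarith
      · have h6 : 0 ≤ a * (d - a) := mul_nonneg ha0 hda0
        nlinarith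
    linarith
  have hlim : Tendsto (fun r : ℝ => B * P * V + (1 - r ^ Module.finrank ℝ (Eu κ)) * V * V)
      (𝓝[<] 1) (𝓝 (B * P * V + (1 - 1 ^ Module.finrank ℝ (Eu κ)) * V * V)) := by
    refine Tendsto.mono_left ?_ nhdsWithin_le_nhds
    refine Continuous.tendsto ?_ 1
    fun_prop
  rw [one_pow, sub_self, zero_mul, zero_mul, add_zero] at hlim
  refine ge_of_tendsto hlim ?_
  filter_upwards [Ioo_mem_nhdsLT zero_lt_one] with r hr
  exact hfix r hr.1 hr.2

/-- **perimeters from the isoperimetric inequality with the Minkowski boundary measure** -/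
theorem per_of_iso {Ω : Set (Eu κ)} (ho : IsOpen Ω) (hconv : Convex ℝ Ω)
    (hbd : Bornology.IsBounded Ω) (h0 : (0 : Eu κ) ∈ Ω) {c : ℝ} (hc : 0 < c)
    (hiso : Iso (unf (closure Ω)) c) {E : Set (Eu κ)} (hE : MeasurableSet E) (hEΩ : E ⊆ Ω) :
    ENNReal.ofReal (c / 4) * min (volume E) (volume (Ω \ E)) ≤ per E Ω := by
  have hK := body_closure ho hconv hbd h0
  have hp := hK.prob
  by_cases hper : per E Ω = ⊤
  · rw [hper]
    exact le_top
  have hPL := perLe_toReal E Ω hper
  have hΩt : volume Ω ≠ ⊤ := hbd.measure_lt_top.ne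
  have hV0 : 0 < volume.real Ω :=
    ENNReal.toReal_pos (ho.measure_pos volume ⟨0, h0⟩).ne' hΩt
  have hEt : volume E ≠ ⊤ := (lt_of_le_of_lt (measure_mono hEΩ) hΩt.lt_top).ne
  have hGt : volume (Ω \ E) ≠ ⊤ := ne_top_of_le_ne_top hΩt (measure_mono sdiff_subset)
  have key := per_ge ho hconv hbd h0 (B := 2 / c) (by positivity) (fun r hr0 hr1 f L M hf hf12 => by
    have hsm : ContDiff ℝ 1 fun x : Eu κ => f (r • x) := hf.diff.comp (contDiff_const_smul r)
    have hfd : ∀ x, ‖fderiv ℝ (fun x : Eu κ => f (r • x)) x‖ = r * ‖fderiv ℝ f (r • x)‖ := by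
      intro x
      have h1 : HasFDerivAt (fun x : Eu κ => f (r • x))
          ((fderiv ℝ f (r • x)).comp (r • ContinuousLinearMap.id ℝ (Eu κ))) x :=
        ((hf.diff.differentiable one_ne_zero) (r • x)).hasFDerivAt.comp x
          ((hasFDerivAt_id x).const_smul r)
      rw [h1.fderiv, ContinuousLinearMap.comp_smul, ContinuousLinearMap.comp_id, norm_smul,
        Real.norm_eq_abs, abs_of_pos hr0]
    have ht : Tst (fun x : Eu κ => f (r • x)) 1 L := by
      refine ⟨hsm, fun x => hf.bdd _, fun x => ?_⟩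
      rw [hfd]
      have h1 := hf.grad (r • x)
      have h2 := norm_nonneg (fderiv ℝ f (r • x))
      nlinarith
    have h1 := l1_of_iso hc hiso ht fun x => hf12 _
    rw [ev_unf, ev_unf, ev_unf, ev_closure ho hconv, ev_closure ho hconv, ev_closure ho hconv] at h1
    have e1 : VV (r • closure Ω) f = EV Ω (fun x => f (r • x) ^ 2) - EV Ω (fun x => f (r • x)) ^ 2 := by
      unfold VV
      rw [EV_scale ho hconv r hr0, EV_scale ho hconv r hr0]
    have e2 : EV (r • closure Ω) (fun x => ‖fderiv ℝ f x‖) = EV Ω fun x => ‖fderiv ℝ f (r • x)‖ :=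
      EV_scale ho hconv r hr0 _
    have e3 : EV Ω (fun x => ‖fderiv ℝ (fun x : Eu κ => f (r • x)) x‖) =
        r * EV Ω fun x => ‖fderiv ℝ f (r • x)‖ := by
      simp only [hfd]
      unfold EV
      rw [integral_const_mul, mul_div_assoc]
    rw [← e1, e3] at h1
    rw [e2]
    have hY : 0 ≤ EV Ω fun x => ‖fderiv ℝ f (r • x)‖ :=
      div_nonneg (integral_nonneg fun x => norm_nonneg _) ENNReal.toReal_nonneg
    refine h1.trans (mul_le_mul_of_nonneg_left ?_ (by positivity))
    nlinarith) hE hEΩ hPL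
  obtain ⟨P, hPdef⟩ : ∃ P, P = (per E Ω).toReal := ⟨_, rfl⟩
  obtain ⟨V, hV⟩ : ∃ V, V = volume.real Ω := ⟨_, rfl⟩
  obtain ⟨e, he⟩ : ∃ e, e = volume.real E := ⟨_, rfl⟩
  obtain ⟨g, hg⟩ : ∃ g, g = volume.real (Ω \ E) := ⟨_, rfl⟩
  rw [← hPdef, ← he, ← hg, ← hV] at key
  have he0 : 0 ≤ e := by rw [he]; exact measureReal_nonneg
  have hg0 : 0 ≤ g := by rw [hg]; exact measureReal_nonneg
  have heg : e + g = V := by
    rw [he, hg, hV, measureReal_sdiff hEΩ hE hΩt]
    ring
  rw [← hV] at hV0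
  have h1 : c / 4 * min e g ≤ P := by
    have h2 : min e g * V ≤ 2 * (e * g) := by
      rcases le_total e g with h | h
      · rw [min_eq_left h]
        nlinarith
      · rw [min_eq_right h]
        nlinarith
    have h3 : c / 4 * min e g * V ≤ P * V := by
      have h4 : c / 2 * (e * g) ≤ c / 2 * (2 / c * P * V) :=
        mul_le_mul_of_nonneg_left key (by positivity)
      have h5 : c / 2 * (2 / c * P * V) = P * V := by field_simp
      have h6 : c / 4 * (min e g * V) ≤ c / 4 * (2 * (e * g)) :=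
        mul_le_mul_of_nonneg_left h2 (by positivity)
      nlinarith
    exact le_of_mul_le_mul_right h3 hV0
  have e1 : volume E = ENNReal.ofReal e := by
    rw [he, measureReal_def, ENNReal.ofReal_toReal hEt]
  have e2 : volume (Ω \ E) = ENNReal.ofReal g := by
    rw [hg, measureReal_def, ENNReal.ofReal_toReal hGt]
  rw [e1, e2, ← ENNReal.ofReal_min, ← ENNReal.ofReal_mul (by positivity),
    ← ENNReal.ofReal_toReal hper, ← hPdef]
  exact ENNReal.ofReal_le_ofReal h1

/-- symmetric sets: from perimeters to the Minkowski boundary measure -/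
theorem isoE_of_per {Ω : Set (Eu κ)} (ho : IsOpen Ω) (hconv : Convex ℝ Ω)
    (hbd : Bornology.IsBounded Ω) (h0 : (0 : Eu κ) ∈ Ω) (hsym : ∀ x ∈ Ω, -x ∈ Ω) {t : ℝ}
    (h : ∀ A : Set (Eu κ), MeasurableSet A → A ⊆ Ω → (∀ x ∈ A, -x ∈ A) →
      ENNReal.ofReal t * min (volume A) (volume (Ω \ A)) ≤ per A Ω) :
    IsoE (unf (closure Ω)) t := by
  have hK := body_closure ho hconv hbd h0
  intro S hS hsS
  obtain ⟨K, hKdef⟩ : ∃ K, K = closure Ω := ⟨_, rfl⟩
  rw [← hKdef] at hK ⊢
  have hae : (K : Set (Eu κ)) =ᵐ[volume] Ω := by rw [hKdef]; exact closure_ae ho hconv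
  have hΩK : Ω ⊆ K := by rw [hKdef]; exact subset_closure
  set E := S ∩ Ω with hE
  have hEm : MeasurableSet E := hS.inter ho.measurableSet
  have h1 := h E hEm inter_subset_right fun x hx => ⟨hsS x hx.1, hsym x hx.2⟩
  have h3 := per_le (Ω := Ω) hΩK hK.pos hK.fin hK.cpt.measurableSet hEm
  have e1 : unf K S = (volume K)⁻¹ * volume E := by
    unfold unf
    rw [Measure.smul_apply, smul_eq_mul, Measure.restrict_apply hS]
    congr 1
    exact measure_congr ((EventuallyEq.refl _ S).inter hae)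
  have e2 : unf K Sᶜ = (volume K)⁻¹ * volume (Ω \ E) := by
    unfold unf
    rw [Measure.smul_apply, smul_eq_mul, Measure.restrict_apply hS.compl]
    congr 1
    have e3 : Ω \ E = Sᶜ ∩ Ω := by
      ext x
      simp only [mem_inter_iff, mem_compl_iff, Set.mem_sdiff, hE]
      tauto
    rw [e3]
    exact measure_congr ((EventuallyEq.refl _ (Sᶜ : Set (Eu κ))).inter hae)
  have h4 : bdr (unf K) E ≤ bdr (unf K) S := by
    have e3 : unf K E = unf K S := by
      rw [e1]
      unfold unf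
      rw [Measure.smul_apply, smul_eq_mul, Measure.restrict_apply hEm]
      congr 2
      exact inter_eq_left.2 (inter_subset_right.trans hΩK)
    unfold bdr
    refine liminf_le_liminf (Eventually.of_forall fun ε => ?_)
    refine ENNReal.div_le_div_right ?_ _
    rw [e3]
    exact tsub_le_tsub_right (measure_mono (Metric.thickening_subset_of_subset ε inter_subset_left)) _
  have h5 : ENNReal.ofReal t * min (volume E) (volume (Ω \ E)) ≤ volume K * bdr (unf K) S :=
    h1.trans (h3.trans (mul_le_mul_right h4 _))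
  have hK0 := hK.pos.ne'
  have hinv : (volume K)⁻¹ ≠ 0 := ENNReal.inv_ne_zero.2 hK.fin
  have e4 : min (unf K S) (unf K Sᶜ) = (volume K)⁻¹ * min (volume E) (volume (Ω \ E)) := by
    rw [e1, e2, mul_min]
  rw [e4]
  calc ENNReal.ofReal t * ((volume K)⁻¹ * min (volume E) (volume (Ω \ E)))
      = (volume K)⁻¹ * (ENNReal.ofReal t * min (volume E) (volume (Ω \ E))) := by ring
    _ ≤ (volume K)⁻¹ * (volume K * bdr (unf K) S) := mul_le_mul_right h5 _
    _ = bdr (unf K) S := by rw [← mul_assoc, ENNReal.inv_mul_cancel hK0 hK.fin, one_mul]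

/-- covariances from central sections -/
theorem exists_cov_of_sec : ∃ C : ℝ, 0 < C ∧ ∀ (κ : Type) [Fintype κ] (Ω : Set (Eu κ)), IsOpen Ω →
    Convex ℝ Ω → Bornology.IsBounded Ω → (0 : Eu κ) ∈ Ω → (∀ x ∈ Ω, -x ∈ Ω) → ∀ t : ℝ, 0 < t →
    (∀ a : Eu κ, a ≠ 0 → ENNReal.ofReal t * volume Ω ≤ Pool.Agent.W695.KH.sec Ω a) →
    CovLe (unf (closure Ω)) (C / t ^ 2) := by
  obtain ⟨C, hC, hs⟩ := sec_bound
  refine ⟨C, hC, fun κ _ Ω ho hconv hbd h0 hsym t ht h θ hθ => ?_⟩
  have hK := body_closure ho hconv hbd h0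
  have hp := hK.prob
  have hΩt : volume Ω ≠ ⊤ := hbd.measure_lt_top.ne
  have hV0 : 0 < (volume Ω).toReal :=
    ENNReal.toReal_pos (ho.measure_pos volume ⟨0, h0⟩).ne' hΩt
  have hθ0 : θ ≠ 0 := by
    intro h0'
    rw [h0', norm_zero] at hθ
    exact zero_ne_one hθ
  obtain ⟨h1, h2, -⟩ := hs κ Ω ho hconv hbd h0 hsym θ hθ
  have h3 := h θ hθ0
  have h4 : t * (volume Ω).toReal ≤ (Pool.Agent.W695.KH.sec Ω θ).toReal := by
    have h5 := ENNReal.toReal_mono h1 h3
    rwa [ENNReal.toReal_mul, ENNReal.toReal_ofReal ht.le] at h5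
  rw [var_eq hK.int_sq, ev_unf, ev_closure ho hconv]
  have e : (fun x : Eu κ => ⟪x, θ⟫_ℝ ^ 2) = fun x => ⟪θ, x⟫_ℝ ^ 2 := by
    funext x
    rw [real_inner_comm]
  rw [e]
  have h5 : (t * (volume Ω).toReal) ^ 2 ≤ (Pool.Agent.W695.KH.sec Ω θ).toReal ^ 2 :=
    pow_le_pow_left₀ (by positivity) h4 2
  have h6 : 0 ≤ EV Ω (fun x => ⟪θ, x⟫_ℝ ^ 2) :=
    div_nonneg (integral_nonneg fun x => sq_nonneg _) ENNReal.toReal_nonneg
  have h7 : (t * (volume Ω).toReal) ^ 2 * EV Ω (fun x => ⟪θ, x⟫_ℝ ^ 2) ≤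
      C * (volume Ω).toReal ^ 2 := (mul_le_mul_of_nonneg_right h5 h6).trans h2
  have h8 : EV Ω (fun x => ⟪θ, x⟫_ℝ ^ 2) ≤ C / t ^ 2 := by
    rw [le_div_iff₀ (by positivity)]
    have h9 : (EV Ω (fun x => ⟪θ, x⟫_ℝ ^ 2) * t ^ 2) * (volume Ω).toReal ^ 2 ≤
        C * (volume Ω).toReal ^ 2 := by
      refine le_trans (le_of_eq ?_) h7
      ring
    exact le_of_mul_le_mul_right h9 (by positivity)
  have := sq_nonneg (∫ x, ⟪x, θ⟫_ℝ ∂(unf (closure Ω)))
  linarith

/-- **the cheapest cut is a central hyperplane or a symmetric set** -/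
theorem exists_symm : ∃ c : ℝ, 0 < c ∧ ∀ (κ : Type) [Fintype κ] (Ω : Set (Eu κ)), IsOpen Ω →
    Convex ℝ Ω → Bornology.IsBounded Ω → (0 : Eu κ) ∈ Ω → (∀ x ∈ Ω, -x ∈ Ω) → ∀ t : ℝ, 0 < t →
    (∀ a : Eu κ, a ≠ 0 → ENNReal.ofReal t * volume Ω ≤ Pool.Agent.W695.KH.sec Ω a) →
    (∀ A : Set (Eu κ), MeasurableSet A → A ⊆ Ω → (∀ x ∈ A, -x ∈ A) →
      ENNReal.ofReal t * min (volume A) (volume (Ω \ A)) ≤ per A Ω) →
    ∀ E : Set (Eu κ), MeasurableSet E → E ⊆ Ω →
      ENNReal.ofReal (c * t) * min (volume E) (volume (Ω \ E)) ≤ per E Ω := by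
  obtain ⟨C, hC, H⟩ := exists_cov_of_sec
  refine ⟨1 / (56 * Real.sqrt (2 * (4 + C))), by positivity, ?_⟩
  intro κ _ Ω ho hconv hbd h0 hsym t ht hsec hA E hE hEΩ
  have hK := body_closure ho hconv hbd h0
  have hp := hK.prob
  have hcov := H κ Ω ho hconv hbd h0 hsym t ht hsec
  have hE1 := isoE_of_per ho hconv hbd h0 hsym hA
  have hE2 := poiE_of_isoE ht hE1
  rw [← nm_ind hK] at hE2 hcov
  have hsK : ∀ x : Eu κ, (closure Ω).indicator (fun _ => (1 : ℝ)) (-x) =
      (closure Ω).indicator (fun _ => (1 : ℝ)) x := by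
    have h1 : closure Ω ⊆ (fun y : Eu κ => -y) ⁻¹' closure Ω := by
      refine closure_minimal (fun y hy => subset_closure (hsym y hy)) ?_
      exact isClosed_closure.preimage continuous_neg
    intro x
    by_cases hx : x ∈ closure Ω
    · have hx' : -x ∈ closure Ω := h1 hx
      rw [indicator_of_mem hx, indicator_of_mem hx']
    · have hx' : -x ∉ closure Ω := fun h => hx (by
        have h2 : -(-x) ∈ closure Ω := h1 h
        rwa [neg_neg] at h2)
      rw [indicator_of_notMem hx, indicator_of_notMem hx']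
  have hP := poi_of_poiE (lc_ind hK) hK.wt hsK (show 0 < 4 / t ^ 2 by positivity)
    (show 0 < C / t ^ 2 by positivity) hE2 hcov
  rw [nm_ind hK] at hP
  have hiso := iso_of_poi hK.den (μ := unf (closure Ω)) (by
      rw [← nm_ind hK]
      unfold nm
      rw [integral_indicator hK.cpt.measurableSet, setIntegral_const, smul_eq_mul, mul_one])
      (by positivity) hP
  have h1 := per_of_iso ho hconv hbd h0 (by positivity) hiso hE hEΩ
  have e : 1 / 14 / Real.sqrt (2 * (4 / t ^ 2 + C / t ^ 2)) / 4 =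
      1 / (56 * Real.sqrt (2 * (4 + C))) * t := by
    have e1 : 2 * (4 / t ^ 2 + C / t ^ 2) = 2 * (4 + C) / t ^ 2 := by ring
    rw [e1, Real.sqrt_div (by positivity), Real.sqrt_sq ht.le]
    field_simp
    norm_num
  rwa [e] at h1

end Pool.Agent.H776
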