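import Pool.Agent.H776.SPoly

/-!
# Symmetric convex bodies from Gaussian measures on cubes
-/

set_option autoImplicit false

namespace Pool.Agent.H776

open MeasureTheory Set Filter Topology
open scoped ENNReal InnerProductSpace

section copies

variable {κ J : Type} [Fintype κ] [Fintype J] (B : Matrix J κ ℝ)

open Classical in
/-- the matrix with `M` copies of the coordinates -/
noncomputable def Bm (M : ℕ) : Matrix ((Fin M × κ) ⊕ J) κ ℝ :=
  Matrix.of (Sum.elim (fun c i => if c.2 = i then 1 else 0) fun j i => B j i)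

theorem Bm_inl (M : ℕ) (c : Fin M × κ) (x : Eu κ) : ∑ i, Bm B M (Sum.inl c) i * x i = x c.2 := by
  classical
  change ∑ i, (if c.2 = i then (1 : ℝ) else 0) * x i = x c.2
  simp

theorem PX_Bm (M : ℕ) : PX (Bm B M) = PX B := by
  ext x
  constructor
  · rintro ⟨h1, h2⟩
    exact ⟨h1, fun j => h2 (Sum.inr j)⟩
  · rintro ⟨h1, h2⟩
    refine ⟨h1, fun j => ?_⟩
    rcases j with c | j
    · rw [Bm_inl]
      exact h1 c.2
    · exact h2 j

/-- the average of the copies -/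
noncomputable def Tm (κ J : Type) [Fintype κ] [Fintype J] (M : ℕ) :
    Eu (κ ⊕ ((Fin M × κ) ⊕ J)) →L[ℝ] Eu κ :=
  LinearMap.toContinuousLinearMap
    { toFun := fun y => WithLp.toLp 2 fun i => (M : ℝ)⁻¹ * ∑ r : Fin M, y (Sum.inr (Sum.inl (r, i)))
      map_add' := fun x y => by
        ext i
        change (M : ℝ)⁻¹ * ∑ r : Fin M, (x (Sum.inr (Sum.inl (r, i))) +
          y (Sum.inr (Sum.inl (r, i)))) = (M : ℝ)⁻¹ * (∑ r : Fin M, x (Sum.inr (Sum.inl (r, i)))) +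
          (M : ℝ)⁻¹ * ∑ r : Fin M, y (Sum.inr (Sum.inl (r, i)))
        rw [Finset.sum_add_distrib, mul_add]
      map_smul' := fun a x => by
        ext i
        change (M : ℝ)⁻¹ * ∑ r : Fin M, (a * x (Sum.inr (Sum.inl (r, i)))) =
          a * ((M : ℝ)⁻¹ * ∑ r : Fin M, x (Sum.inr (Sum.inl (r, i))))
        rw [← Finset.mul_sum]
        ring }

theorem Tm_apply (M : ℕ) (y : Eu (κ ⊕ ((Fin M × κ) ⊕ J))) (i : κ) :
    Tm κ J M y i = (M : ℝ)⁻¹ * ∑ r : Fin M, y (Sum.inr (Sum.inl (r, i))) := rfl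

theorem Tm_norm {M : ℕ} (hM : 0 < M) : ‖Tm κ J M‖ ^ 2 ≤ 1 / (M : ℝ) := by
  have hM' : (0 : ℝ) < M := by exact_mod_cast hM
  have h1 : ‖Tm κ J M‖ ≤ Real.sqrt (1 / M) := by
    refine ContinuousLinearMap.opNorm_le_bound _ (Real.sqrt_nonneg _) fun y => ?_
    refine le_of_sq_le_sq ?_ (by positivity)
    rw [mul_pow, Real.sq_sqrt (by positivity), EuclideanSpace.norm_sq_eq]
    have h2 : ∀ i, ‖Tm κ J M y i‖ ^ 2 ≤ (M : ℝ)⁻¹ * ∑ r : Fin M, y (Sum.inr (Sum.inl (r, i))) ^ 2 := by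
      intro i
      rw [Tm_apply, Real.norm_eq_abs, sq_abs, mul_pow]
      have h3 := sq_sum_le_card_mul_sum_sq (s := (Finset.univ : Finset (Fin M)))
        (f := fun r => y (Sum.inr (Sum.inl (r, i))))
      rw [Finset.card_univ, Fintype.card_fin] at h3
      calc (M : ℝ)⁻¹ ^ 2 * (∑ r : Fin M, y (Sum.inr (Sum.inl (r, i)))) ^ 2 ≤
            (M : ℝ)⁻¹ ^ 2 * (M * ∑ r : Fin M, y (Sum.inr (Sum.inl (r, i))) ^ 2) :=
            mul_le_mul_of_nonneg_left h3 (by positivity)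
        _ = _ := by
            field_simp
    have h4 : ∑ i, ∑ r : Fin M, y (Sum.inr (Sum.inl (r, i))) ^ 2 ≤ ‖y‖ ^ 2 := by
      rw [EuclideanSpace.norm_sq_eq, Fintype.sum_sum_type, Fintype.sum_sum_type,
        Fintype.sum_prod_type_right]
      have h5 : 0 ≤ ∑ i : κ, ‖y (Sum.inl i)‖ ^ 2 := Finset.sum_nonneg fun i _ => sq_nonneg _
      have h6 : 0 ≤ ∑ j : J, ‖y (Sum.inr (Sum.inr j))‖ ^ 2 := Finset.sum_nonneg fun i _ => sq_nonneg _
      simp only [Real.norm_eq_abs, sq_abs] at h5 h6 ⊢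
      linarith
    calc ∑ i, ‖Tm κ J M y i‖ ^ 2 ≤ ∑ i, (M : ℝ)⁻¹ * ∑ r : Fin M, y (Sum.inr (Sum.inl (r, i))) ^ 2 :=
          Finset.sum_le_sum fun i _ => h2 i
      _ = (M : ℝ)⁻¹ * ∑ i, ∑ r : Fin M, y (Sum.inr (Sum.inl (r, i))) ^ 2 := by
          rw [Finset.mul_sum]
      _ ≤ (M : ℝ)⁻¹ * ‖y‖ ^ 2 := mul_le_mul_of_nonneg_left h4 (by positivity)
      _ = 1 / M * ‖y‖ ^ 2 := by rw [one_div]
  calc ‖Tm κ J M‖ ^ 2 ≤ Real.sqrt (1 / M) ^ 2 := pow_le_pow_left₀ (norm_nonneg _) h1 2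
    _ = _ := Real.sq_sqrt (by positivity)

theorem Bm_norm {M : ℕ} : ‖Bg (Bm B M)‖ ^ 2 ≤ M + (1 + ∑ j, ‖(WithLp.toLp 2 (B j) : Eu κ)‖ ^ 2) := by
  set c := 1 + ∑ j, ‖(WithLp.toLp 2 (B j) : Eu κ)‖ ^ 2 with hc
  have hc0 : 0 ≤ c := by positivity
  have h1 : ‖Bg (Bm B M)‖ ≤ Real.sqrt (M + c) := by
    refine ContinuousLinearMap.opNorm_le_bound _ (Real.sqrt_nonneg _) fun x => ?_
    refine le_of_sq_le_sq ?_ (by positivity)
    rw [mul_pow, Real.sq_sqrt (by positivity), EuclideanSpace.norm_sq_eq, Fintype.sum_sum_type,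
      Fintype.sum_sum_type, Fintype.sum_prod_type]
    have e1 : ∑ i, ‖Bg (Bm B M) x (Sum.inl i)‖ ^ 2 = ‖x‖ ^ 2 := by
      rw [EuclideanSpace.norm_sq_eq]
      rfl
    have e2 : ∑ r : Fin M, ∑ i, ‖Bg (Bm B M) x (Sum.inr (Sum.inl (r, i)))‖ ^ 2 = M * ‖x‖ ^ 2 := by
      have h2 : ∀ (r : Fin M) (i : κ), Bg (Bm B M) x (Sum.inr (Sum.inl (r, i))) = x i := by
        intro r i
        rw [Bg_inr, Bm_inl]
      simp only [h2]
      rw [← EuclideanSpace.norm_sq_eq, Finset.sum_const, Finset.card_univ, Fintype.card_fin,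
        nsmul_eq_mul]
    have e3 : ∑ j, ‖Bg (Bm B M) x (Sum.inr (Sum.inr j))‖ ^ 2 ≤
        (∑ j, ‖(WithLp.toLp 2 (B j) : Eu κ)‖ ^ 2) * ‖x‖ ^ 2 := by
      rw [Finset.sum_mul]
      refine Finset.sum_le_sum fun j _ => ?_
      have h2 : Bg (Bm B M) x (Sum.inr (Sum.inr j)) = ⟪x, (WithLp.toLp 2 (B j) : Eu κ)⟫_ℝ := by
        rw [Bg_inr, PiLp.inner_apply]
        rfl
      rw [h2, Real.norm_eq_abs]
      have h3 := abs_real_inner_le_norm x (WithLp.toLp 2 (B j) : Eu κ)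
      calc _ ≤ (‖x‖ * ‖(WithLp.toLp 2 (B j) : Eu κ)‖) ^ 2 := pow_le_pow_left₀ (abs_nonneg _) h3 2
        _ = _ := by ring
    rw [e1, e2]
    nlinarith
  calc ‖Bg (Bm B M)‖ ^ 2 ≤ Real.sqrt (M + c) ^ 2 := pow_le_pow_left₀ (norm_nonneg _) h1 2
    _ = _ := Real.sq_sqrt (by positivity)

/-- **symmetric polytopes from Gaussian measures on cubes** -/
theorem kp_px {D : ℝ} (hD : 0 ≤ D)
    (H : ∀ (κ' F' : Type) [Fintype κ'] [Fintype F'] (A : Eu κ' →ₗ[ℝ] Eu F'), Function.Injective A →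
      KP (nm (gcl A)) D) :
    KP (nm ((PX B).indicator fun _ => (1 : ℝ))) D := by
  have hw := PX_wt B
  have hpr := hw.prob
  refine KP.of_emb hD (τ := fun M => κ ⊕ ((Fin M × κ) ⊕ J)) (fun M => Bg (Bm B M))
    (fun M => Tm κ J M) (1 + ∑ j, ‖(WithLp.toLp 2 (B j) : Eu κ)‖ ^ 2) (fun M hM x => ?_)
    (fun M hM => Tm_norm hM) (fun M _ => Bm_norm B) fun M _ => ?_
  · have hM' : (M : ℝ) ≠ 0 := by exact_mod_cast hM.ne'
    ext i
    rw [Tm_apply]
    have h2 : ∀ r : Fin M, Bg (Bm B M) x (Sum.inr (Sum.inl (r, i))) = x i := by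
      intro r
      rw [Bg_inr, Bm_inl]
    simp only [h2, Finset.sum_const, Finset.card_univ, Fintype.card_fin, nsmul_eq_mul]
    field_simp
  · have h := kp_emb (Bm B M) hD H
    rwa [PX_Bm] at h

end copies

section bodies

variable {κ : Type} [Fintype κ]

/-- functionals bounded by one on `K` -/
def Pol (K : Set (Eu κ)) : Set (Eu κ) := {a | ∀ y ∈ K, |⟪a, y⟫_ℝ| ≤ 1}

theorem exists_sep {K : Set (Eu κ)} (hc : Convex ℝ K) (hcl : IsClosed K) (hs : ∀ x ∈ K, -x ∈ K)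
    (h0 : (0 : Eu κ) ∈ K) {x : Eu κ} (hx : x ∉ K) : ∃ a ∈ Pol K, 1 < ⟪a, x⟫_ℝ := by
  obtain ⟨f, u, h1, h2⟩ := geometric_hahn_banach_closed_point hc hcl hx
  obtain ⟨a, ha⟩ : ∃ a : Eu κ, ∀ y, f y = ⟪a, y⟫_ℝ :=
    ⟨(InnerProductSpace.toDual ℝ (Eu κ)).symm f, fun y => by
      rw [InnerProductSpace.toDual_symm_apply]⟩
  have hu : 0 < u := by
    have := h1 0 h0
    simpa using this
  refine ⟨u⁻¹ • a, fun y hy => ?_, ?_⟩
  · rw [real_inner_smul_left, abs_mul, abs_of_pos (inv_pos.2 hu), inv_mul_le_iff₀ hu, mul_one,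
      abs_le]
    have h3 := h1 y hy
    have h4 := h1 (-y) (hs y hy)
    rw [ha] at h3 h4
    rw [inner_neg_right] at h4
    constructor <;> linarith
  · rw [real_inner_smul_left, lt_inv_mul_iff₀ hu, mul_one, ← ha]
    exact h2

theorem exists_seq {K : Set (Eu κ)} (hc : Convex ℝ K) (hcl : IsClosed K) (hs : ∀ x ∈ K, -x ∈ K)
    (h0 : (0 : Eu κ) ∈ K) : ∃ a : ℕ → Eu κ, (∀ n, a n ∈ Pol K) ∧
      ∀ x, x ∉ K → ∃ n, 1 < ⟪a n, x⟫_ℝ := by
  have hne : Nonempty (Pol K) := ⟨⟨0, fun y _ => by simp⟩⟩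
  refine ⟨fun n => (TopologicalSpace.denseSeq (Pol K) n : Eu κ), fun n => Subtype.coe_prop _,
    fun x hx => ?_⟩
  obtain ⟨a, ha, h1⟩ := exists_sep hc hcl hs h0 hx
  have ho : IsOpen {b : Pol K | 1 < ⟪(b : Eu κ), x⟫_ℝ} :=
    isOpen_lt continuous_const (by fun_prop)
  obtain ⟨n, hn⟩ := (TopologicalSpace.denseRange_denseSeq (Pol K)).exists_mem_open ho
    ⟨⟨a, ha⟩, h1⟩
  exact ⟨n, hn⟩

/-- bodies in the cube -/
theorem kp_incube {K : Set (Eu κ)} (hK : Body K) (hs : ∀ x ∈ K, -x ∈ K) (hcu : K ⊆ cub κ)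
    {D : ℝ} (hD : 0 ≤ D)
    (H : ∀ (κ' F' : Type) [Fintype κ'] [Fintype F'] (A : Eu κ' →ₗ[ℝ] Eu F'), Function.Injective A →
      KP (nm (gcl A)) D) :
    KP (nm (K.indicator fun _ => (1 : ℝ))) D := by
  classical
  have h0 : (0 : Eu κ) ∈ K := by
    obtain ⟨x, hx⟩ := hK.int
    have h1 := interior_subset hx
    have h2 := hK.cvx h1 (hs x h1) (by norm_num : (0 : ℝ) ≤ 1 / 2) (by norm_num : (0 : ℝ) ≤ 1 / 2)
      (by norm_num)
    rwa [smul_neg, add_neg_cancel] at h2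
  obtain ⟨a, ha, hsep⟩ := exists_seq hK.cvx hK.cpt.isClosed hs h0
  set Bn : ∀ n : ℕ, Matrix (Fin n) κ ℝ := fun n => Matrix.of fun j i => a j i with hBn
  have hin : ∀ n (j : Fin n) (x : Eu κ), ∑ i, Bn n j i * x i = ⟪a j, x⟫_ℝ := by
    intro n j x
    rw [PiLp.inner_apply]
    refine Finset.sum_congr rfl fun i _ => ?_
    change a j i * x i = x i * a j i
    ring
  have hsub : ∀ n, K ⊆ PX (Bn n) := fun n x hx => ⟨hcu hx, fun j => by
    rw [hin]
    exact ha j x hx⟩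
  have hw := hK.wt
  have hpr := hw.prob
  have hW := W2.of_dom (l := (atTop : Filter ℕ))
    (g := fun n => (PX (Bn n)).indicator fun _ => (1 : ℝ))
    (g' := K.indicator fun _ => (1 : ℝ)) (h := (cub κ).indicator fun _ => (1 : ℝ))
    (Eventually.of_forall fun n x => indicator_nonneg (fun _ _ => zero_le_one) x)
    (Eventually.of_forall fun n => measurable_const.indicator (PX_closed _).measurableSet) hw
    (Eventually.of_forall fun n x => indicator_le_indicator_of_subset (fun y hy => hy.1)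
      (fun _ => zero_le_one) x) wt_cub.mom (Eventually.of_forall fun x => ?_)
  · exact KP.lim hW.2 hD (Eventually.of_forall fun n => kp_px (Bn n) hD H)
  · by_cases hx : x ∈ K
    · rw [indicator_of_mem hx]
      refine tendsto_const_nhds.congr fun n => ?_
      rw [indicator_of_mem (hsub n hx)]
    · rw [indicator_of_notMem hx]
      obtain ⟨N, hN⟩ := hsep x hx
      refine tendsto_const_nhds.congr' ?_
      filter_upwards [eventually_gt_atTop N] with n hn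
      rw [indicator_of_notMem]
      intro h
      have h1 := h.2 ⟨N, hn⟩
      rw [hin] at h1
      have h2 := (le_abs_self _).trans h1
      simp only at h2
      linarith

/-- **symmetric convex bodies from Gaussian measures on cubes** -/
theorem kp_symm {K : Set (Eu κ)} (hK : Body K) (hs : ∀ x ∈ K, -x ∈ K)
    {D : ℝ} (hD : 0 ≤ D)
    (H : ∀ (κ' F' : Type) [Fintype κ'] [Fintype F'] (A : Eu κ' →ₗ[ℝ] Eu F'), Function.Injective A →
      KP (nm (gcl A)) D) :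
    KP (nm (K.indicator fun _ => (1 : ℝ))) D := by
  obtain ⟨R, hR, hKR⟩ : ∃ R : ℝ, 0 < R ∧ ∀ x ∈ K, ‖x‖ ≤ R := by
    obtain ⟨R, hR⟩ := hK.cpt.isBounded.exists_norm_le
    exact ⟨max R 1, lt_max_of_lt_right one_pos, fun x hx => (hR x hx).trans (le_max_left _ _)⟩
  -- the dilated body
  set K' : Set (Eu κ) := (fun x => R • x) ⁻¹' K with hK'
  have hR' : R ≠ 0 := hR.ne'
  have hbody : Body K' := by
    refine ⟨?_, ?_, ?_⟩
    · exact (Homeomorph.smulOfNeZero R hR').isClosedEmbedding.isCompact_preimage hK.cpt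
    · exact hK.cvx.linear_preimage (R • LinearMap.id : Eu κ →ₗ[ℝ] Eu κ)
    · have e3 : (fun x : Eu κ => R • x) ⁻¹' interior K = interior K' :=
        (Homeomorph.smulOfNeZero R hR').preimage_interior _
      rw [← e3]
      obtain ⟨x, hx⟩ := hK.int
      exact ⟨R⁻¹ • x, by rwa [mem_preimage, smul_inv_smul₀ hR']⟩
  have hs' : ∀ x ∈ K', -x ∈ K' := fun x hx => by
    rw [hK', mem_preimage, smul_neg]
    exact hs _ hx
  have hcu : K' ⊆ cub κ := by
    intro x hx i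
    have h1 := hKR _ hx
    rw [norm_smul, Real.norm_of_nonneg hR.le] at h1
    have h2 : ‖x‖ ≤ 1 := by
      by_contra h3
      push Not at h3
      nlinarith
    exact (abs_le_norm x i).trans h2
  have h1 := kp_incube hbody hs' hcu hD H
  have e1 : K'.indicator (fun _ => (1 : ℝ)) = fun y => K.indicator (fun _ => (1 : ℝ)) (R • y) := by
    funext y
    by_cases hy : y ∈ K'
    · rw [indicator_of_mem hy, indicator_of_mem (show R • y ∈ K from hy)]
    · rw [indicator_of_notMem hy, indicator_of_notMem (show R • y ∉ K from hy)]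
  have hw := hK.wt
  have hpr := hw.prob
  rw [e1, nm_dilate hw.nonneg hw.meas hR] at h1
  have hme : Measurable fun x : Eu κ => R⁻¹ • x - 0 := by fun_prop
  have hpr' : IsProbabilityMeasure ((nm (K.indicator fun _ => (1 : ℝ))).map
      fun x => R⁻¹ • x - 0) := Measure.isProbabilityMeasure_map hme.aemeasurable
  have hsq : Integrable (fun x => ‖x‖ ^ 2) ((nm (K.indicator fun _ => (1 : ℝ))).map
      fun x => R⁻¹ • x - 0) := by
    rw [integrable_map_measure (by fun_prop) hme.aemeasurable]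
    refine (hw.int_sq.const_mul (R⁻¹ ^ 2)).congr (Eventually.of_forall fun x => ?_)
    simp only [Function.comp_apply, sub_zero]
    rw [norm_smul, mul_pow, Real.norm_eq_abs, sq_abs]
  have h2 := h1.affine hsq hR 0
  rw [Measure.map_map (by fun_prop) hme] at h2
  have e2 : ((fun x : Eu κ => R • x - 0) ∘ fun x => R⁻¹ • x - 0) = id := by
    funext x
    simp only [Function.comp_apply, sub_zero, id]
    exact smul_inv_smul₀ hR' x
  rw [e2, Measure.map_id] at h2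
  exact h2

/-- **symmetric convex bodies from intersections of ellipsoids and cubes** -/
theorem kp_of_ec {K : Set (Eu κ)} (hK : Body K) (hs : ∀ x ∈ K, -x ∈ K)
    {D : ℝ} (hD : 0 ≤ D)
    (H : ∀ (κ' F' : Type) [Fintype κ'] [Fintype F'] (A : Eu κ' →ₗ[ℝ] Eu F'), Function.Injective A →
      KP (nm (ecb A)) D) :
    KP (nm (K.indicator fun _ => (1 : ℝ))) D :=
  kp_symm hK hs hD fun _ _ _ _ _ hA => kp_gcl hD H hA

end bodies

end Pool.Agent.H776
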