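import Pool.Agent.H776.SNear
import Pool.Agent.H776.SPoly2
import Pool.Agent.H776.Quad
import Pool.Agent.H776.IsoT

/-!
# Assembly: the hyperplane inequality for ellipsoids in cubes
-/

set_option autoImplicit false

namespace Pool.Agent.H776

open MeasureTheory Set Filter Topology
open scoped ENNReal NNReal InnerProductSpace
open Pool.Agent.W695.KH (dv per PerLe)

section iso

variable {κ κ' : Type} [Fintype κ] [Fintype κ']

theorem HM.iso {μ : Measure (Eu κ')} {h : ℝ} (hH : HM μ h) (σ : Eu κ' ≃ₗᵢ[ℝ] Eu κ) :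
    HM (μ.map σ) h := by
  have hσ : Measurable σ := σ.continuous.measurable
  intro S hS hSh
  rw [Measure.map_apply hσ hS] at hSh
  refine (hH _ (hS.preimage hσ) hSh).trans ?_
  unfold bdr
  refine liminf_le_liminf (Eventually.of_forall fun ε => ?_)
  rw [Measure.map_apply hσ hS, Measure.map_apply hσ Metric.isOpen_thickening.measurableSet]
  refine ENNReal.div_le_div_right (tsub_le_tsub_right (measure_mono fun z hz => ?_) _) _
  obtain ⟨y, hy, hd⟩ := Metric.mem_thickening_iff.1 hz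
  exact Metric.mem_thickening_iff.2 ⟨σ y, hy, by rwa [σ.dist_map]⟩

theorem covLe_iso {μ : Measure (Eu κ')} [IsProbabilityMeasure μ] {s : ℝ}
    (σ : Eu κ' ≃ₗᵢ[ℝ] Eu κ) (h : CovLe (μ.map σ) s) : CovLe μ s := by
  have hσ : Measurable σ := σ.continuous.measurable
  intro θ hθ
  have h1 := h (σ θ) (by rw [σ.norm_map, hθ])
  rw [ProbabilityTheory.variance_map (by fun_prop) hσ.aemeasurable] at h1
  have e : ((fun x : Eu κ => ⟪x, σ θ⟫_ℝ) ∘ σ) = fun x => ⟪x, θ⟫_ℝ := by
    funext x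
    simp
  rwa [e] at h1

end iso

/-- transport of the hyperplane inequality to arbitrary index sets -/
theorem hm_ecb {C : ℝ} (hC : 0 < C)
    (H : ∀ (n : ℕ), 1 ≤ n → ∀ (F' : Type) [Fintype F'] (A : Eu (Fin n) →ₗ[ℝ] Eu F'),
      Function.Injective A → HB C (interior (EC A)))
    (κ' F' : Type) [Fintype κ'] [Fintype F'] (A : Eu κ' →ₗ[ℝ] Eu F') (hA : Function.Injective A)
    (hne : Nonempty κ') (t : ℝ) (ht : 0 < t) (hcov : CovLe (nm (ecb A)) t) :
    HM (nm (ecb A)) (1 / (4 * Real.sqrt 2 * C) / Real.sqrt t) := by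
  have e := Fintype.equivFin κ'
  set σ := rx e.symm with hσ
  set A' : Eu (Fin (Fintype.card κ')) →ₗ[ℝ] Eu F' := A ∘ₗ σ.toLinearEquiv.toLinearMap with hA'
  have hA'i : Function.Injective A' := hA.comp σ.injective
  have hbody : Body (EC A') := ⟨EC_compact A', EC_convex A', ⟨0, EC_interior A'⟩⟩
  have hsym : ∀ x ∈ EC A', -x ∈ EC A' := by
    rintro x ⟨h1, h2⟩
    refine ⟨fun i => ?_, ?_⟩
    · rw [PiLp.neg_apply, abs_neg]
      exact h1 i
    · rw [map_neg, norm_neg]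
      exact h2
  have e1 : (EC A').indicator (fun _ => (1 : ℝ)) = fun y => ecb A (σ y) := by
    funext y
    unfold ecb
    have hiff : y ∈ EC A' ↔ σ y ∈ EC A := by
      unfold EC
      rw [mem_ofPred_eq, mem_ofPred_eq]
      have : (∀ i, |σ y i| ≤ 1) ↔ ∀ i, |y i| ≤ 1 := by
        rw [hσ]
        simp only [rx_apply, Equiv.symm_symm]
        exact ⟨fun h i => by simpa using h (e.symm i), fun h i => h _⟩
      rw [this]
      rfl
    by_cases hy : y ∈ EC A'
    · rw [indicator_of_mem hy, indicator_of_mem (hiff.1 hy)]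
    · rw [indicator_of_notMem hy, indicator_of_notMem fun h => hy (hiff.2 h)]
  have hmap : (nm ((EC A').indicator fun _ => (1 : ℝ))).map σ = nm (ecb A) := by
    rw [e1]
    exact nm_iso σ
  have hpr := hbody.wt.prob
  have hcov' : CovLe (unf (EC A')) t := by
    rw [← nm_ind hbody]
    rw [← hmap] at hcov
    exact covLe_iso σ hcov
  have h1 := hm_of_hb hbody hsym hC (H _ Fintype.card_pos F' A' hA'i) ht hcov'
  rw [← nm_ind hbody] at h1
  have h2 := h1.iso σ
  rw [hmap] at h2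
  have e2 : 1 / (4 * Real.sqrt (2 * t) * C) = 1 / (4 * Real.sqrt 2 * C) / Real.sqrt t := by
    rw [Real.sqrt_mul (by norm_num), div_div]
    congr 1
    ring
  rwa [e2] at h2

/-- **the Poincare form for all symmetric bodies from the hyperplane inequality for ellipsoids in
cubes** -/
theorem kp_of_hb {C : ℝ} (hC : 0 < C)
    (H : ∀ (n : ℕ), 1 ≤ n → ∀ (F' : Type) [Fintype F'] (A : Eu (Fin n) →ₗ[ℝ] Eu F'),
      Function.Injective A → HB C (interior (EC A)))
    {κ : Type} [Fintype κ] {K : Set (Eu κ)} (hK : Body K) (hs : ∀ x ∈ K, -x ∈ K) :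
    KP (nm (K.indicator fun _ => (1 : ℝ))) (128 * C ^ 2) := by
  have hc : 0 < 1 / (4 * Real.sqrt 2 * C) := by positivity
  refine kp_symm hK hs (by positivity) fun κ' F' _ _ A hA => ?_
  have h1 := kp_gcl_of_hm hc (fun κ' F' _ _ A hA hne t ht hcov =>
    hm_ecb hC H κ' F' A hA hne t ht hcov) hA
  have e : 4 / (1 / (4 * Real.sqrt 2 * C)) ^ 2 = 128 * C ^ 2 := by
    have h2 : Real.sqrt 2 ^ 2 = 2 := Real.sq_sqrt (by norm_num)
    field_simp
    rw [h2]
    norm_num
  rwa [e] at h1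

/-- **the hyperplane inequality from the Poincare form** -/
theorem hb_of_kp : ∃ C₁ : ℝ, 0 < C₁ ∧ ∀ (κ : Type) [Fintype κ] [Nonempty κ] (Ω : Set (Eu κ)),
    IsOpen Ω → Convex ℝ Ω → Bornology.IsBounded Ω → (0 : Eu κ) ∈ Ω → (∀ x ∈ Ω, -x ∈ Ω) →
    ∀ D : ℝ, 0 < D → KP (nm ((closure Ω).indicator fun _ => (1 : ℝ))) D →
    HB (C₁ * Real.sqrt D) Ω := by
  obtain ⟨C₁, hC₁, h⟩ := hyp_of_kp
  refine ⟨C₁, hC₁, fun κ _ _ Ω ho hc hb h0 hs D hD hkp E hE hEΩ hvol => ?_⟩
  obtain ⟨a, ha, H⟩ := h κ Ω ho hc hb h0 hs D hD hkp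
  have hpos : 0 < C₁ * Real.sqrt D := mul_pos hC₁ (Real.sqrt_pos.2 hD)
  refine (iInf₂_le a ha).trans ?_
  by_cases hp : per E Ω = ⊤
  · rw [hp, ENNReal.mul_top (ENNReal.ofReal_pos.2 hpos).ne']
    exact le_top
  · refine (H E hE hEΩ hvol _ (Pool.Agent.W695.KH.perLe_toReal E Ω hp)).trans (le_of_eq ?_)
    rw [ENNReal.ofReal_mul hpos.le, ENNReal.ofReal_toReal hp]

end Pool.Agent.H776
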