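import Pool.Agent.H776.EV5
import Pool.Agent.H776.SFin

/-!
# Symmetric sets of measure one half
-/

set_option autoImplicit false

namespace Pool.Agent.H776

open MeasureTheory Set Filter Topology
open scoped ENNReal NNReal InnerProductSpace
open Pool.Agent.W695.KH (dv per sec_bound EV)

section trick

variable {κ : Type} [Fintype κ] (𝒢 : ∀ (ι : Type) [Fintype ι], Measure (Eu ι) → Prop)

/-- `G` is the measure of the image under a construction of sets -/
def RLs (μ : Measure (Eu κ)) (G : ℝ → ℝ) : Prop :=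
  ∃ (ι : Type) (_ : Fintype ι) (M : Measure (Eu ι)) (S : Set (Eu κ) → Set (Eu ι)),
    𝒢 ι M ∧ (∀ A, MeasurableSet A → MeasurableSet (S A)) ∧
    (∀ A, MeasurableSet A → M.real (S A) = G (μ.real A)) ∧
    (∀ A ε, Metric.thickening ε (S A) ⊆ S (Metric.thickening ε A)) ∧
    ∀ A, (∀ x ∈ A, -x ∈ A) → ∀ x ∈ S A, -x ∈ S A

variable {𝒢}

theorem rls_gw {μ : Measure (Eu κ)} (hprob : ∀ (ι : Type) [Fintype ι] (M : Measure (Eu ι)),
      𝒢 ι M → IsProbabilityMeasure M)
    (hprod : ∀ (ι ι' : Type) [Fintype ι] [Fintype ι'] (M : Measure (Eu ι)) (M' : Measure (Eu ι')),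
      𝒢 ι M → 𝒢 ι' M' → 𝒢 (ι ⊕ ι') (pm M M'))
    (hμ : 𝒢 κ μ) (w : List Bool) : RLs 𝒢 μ (gw w) := by
  have hp := hprob κ μ hμ
  induction w with
  | nil =>
    refine ⟨κ, inferInstance, μ, fun _ => ∅, hμ, fun A _ => MeasurableSet.empty, fun A _ => ?_,
      fun A ε => ?_, fun A _ x hx => hx⟩
    · rw [measureReal_empty]
      rfl
    · rw [Metric.thickening_empty]
  | cons b w ih =>
    obtain ⟨ι, hι, M, S, hM, h1, h2, h3, h4⟩ := ih
    have hpM := hprob ι M hM
    cases b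
    · refine ⟨κ ⊕ ι, inferInstance, pm μ M, fun A => {z | pl z ∈ A ∧ pr z ∈ S A},
        hprod κ ι μ M hμ hM, fun A hA => ?_, fun A hA => ?_, fun A ε z hz => ?_,
        fun A hA z hz => ⟨hA _ hz.1, h4 A hA _ hz.2⟩⟩
      · exact (hA.preimage cont_pl.measurable).inter ((h1 A hA).preimage cont_pr.measurable)
      · rw [pm_and hA (h1 A hA), h2 A hA]
        rfl
      · obtain ⟨y, hy, hd⟩ := Metric.mem_thickening_iff.1 hz
        exact ⟨Metric.mem_thickening_iff.2 ⟨pl y, hy.1, (dist_pl z y).trans_lt hd⟩,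
          h3 A ε (Metric.mem_thickening_iff.2 ⟨pr y, hy.2, (dist_pr z y).trans_lt hd⟩)⟩
    · refine ⟨κ ⊕ ι, inferInstance, pm μ M, fun A => {z | pl z ∈ A ∨ pr z ∈ S A},
        hprod κ ι μ M hμ hM, fun A hA => ?_, fun A hA => ?_, fun A ε z hz => ?_,
        fun A hA z hz => hz.imp (fun h => hA _ h) fun h => h4 A hA _ h⟩
      · exact (hA.preimage cont_pl.measurable).union ((h1 A hA).preimage cont_pr.measurable)
      · rw [pm_or hA (h1 A hA), h2 A hA]
        rfl
      · obtain ⟨y, hy, hd⟩ := Metric.mem_thickening_iff.1 hz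
        rcases hy with hy | hy
        · exact Or.inl (Metric.mem_thickening_iff.2 ⟨pl y, hy, (dist_pl z y).trans_lt hd⟩)
        · exact Or.inr (h3 A ε (Metric.mem_thickening_iff.2 ⟨pr y, hy, (dist_pr z y).trans_lt hd⟩))

/-- **from sets of measure almost one half to all sets**, for a class of measures closed under
products -/
theorem isoE_of_near (hprob : ∀ (ι : Type) [Fintype ι] (M : Measure (Eu ι)),
      𝒢 ι M → IsProbabilityMeasure M)
    (hprod : ∀ (ι ι' : Type) [Fintype ι] [Fintype ι'] (M : Measure (Eu ι)) (M' : Measure (Eu ι')),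
      𝒢 ι M → 𝒢 ι' M' → 𝒢 (ι ⊕ ι') (pm M M'))
    {h : ℝ} (near : ∀ η : ℝ, 0 < η → ∃ δ > 0, ∀ (ι : Type) [Fintype ι] (M : Measure (Eu ι)),
      𝒢 ι M → ∀ T : Set (Eu ι), MeasurableSet T → (∀ x ∈ T, -x ∈ T) → 1 / 2 - δ ≤ M.real T → M.real T < 1 / 2 →
      ENNReal.ofReal h ≤ ENNReal.ofReal η + bdr M T)
    {μ : Measure (Eu κ)} (hμ : 𝒢 κ μ) (hh : 0 < h) : IsoE μ h := by
  have hp := hprob κ μ hμ
  intro A hA hAs
  obtain ⟨p, hpdef⟩ : ∃ p, p = μ.real A := ⟨_, rfl⟩
  have hp0 : 0 ≤ p := by rw [hpdef]; exact measureReal_nonneg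
  have hp1 : p ≤ 1 := by rw [hpdef]; exact measureReal_le_one
  have e1 : μ A = ENNReal.ofReal p := by
    rw [hpdef, measureReal_def, ENNReal.ofReal_toReal (measure_ne_top μ A)]
  have e2 : μ Aᶜ = ENNReal.ofReal (1 - p) := by
    rw [prob_compl_eq_one_sub hA, e1, ENNReal.ofReal_sub _ hp0, ENNReal.ofReal_one]
  obtain ⟨m₀, hm₀⟩ : ∃ m₀, m₀ = min p (1 - p) := ⟨_, rfl⟩
  have e3 : min (μ A) (μ Aᶜ) = ENNReal.ofReal m₀ := by
    rw [e1, e2, hm₀, ENNReal.ofReal_min]
  rw [e3, ← ENNReal.ofReal_mul hh.le]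
  have hmp : m₀ ≤ p := by rw [hm₀]; exact min_le_left _ _
  have hmq : m₀ ≤ 1 - p := by rw [hm₀]; exact min_le_right _ _
  rcases le_or_gt m₀ 0 with hneg | hpos
  · rw [ENNReal.ofReal_of_nonpos (mul_nonpos_of_nonneg_of_nonpos hh.le hneg)]
    exact bot_le
  have hp0' : 0 < p := by linarith
  have hp1' : p < 1 := by linarith
  by_contra hcon
  rw [not_le] at hcon
  obtain ⟨b, hb0, hb1, hb2⟩ := ENNReal.lt_iff_exists_real_btwn.1 hcon
  have hb3 : b < h * m₀ := (ENNReal.ofReal_lt_ofReal_iff (by positivity)).1 hb2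
  -- choose `m < m₀` with `b < h m`
  obtain ⟨m, hm1, hm2⟩ : ∃ m, b / h < m ∧ m < m₀ :=
    exists_between ((div_lt_iff₀ hh).2 (by linarith))
  have hm : 0 < m := lt_of_le_of_lt (div_nonneg hb0 hh.le) hm1
  have hbm : b / m < h := by
    rw [div_lt_iff₀ hm]
    have := (div_lt_iff₀ hh).1 hm1
    linarith
  obtain ⟨η, hη0, hη⟩ : ∃ η, 0 < η ∧ η + b / m < h := ⟨(h - b / m) / 2, by linarith, by linarith⟩
  obtain ⟨δ, hδ, hnear⟩ := near η hη0
  have hM1 : max p (1 - p) < 1 := max_lt hp1' (by linarith)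
  have hM0 : 0 < max p (1 - p) := lt_max_of_lt_left hp0'
  obtain ⟨k, hk⟩ := exists_pow_lt_of_lt_one (show 0 < min (δ / 2) (1 / 2) by positivity) hM1
  have hk1 : max p (1 - p) ^ k < δ / 2 := lt_of_lt_of_le hk (min_le_left _ _)
  have hk2 : max p (1 - p) ^ k < 1 / 2 := lt_of_lt_of_le hk (min_le_right _ _)
  have hk0 : 0 < max p (1 - p) ^ k := pow_pos hM0 k
  obtain ⟨w, hw1, hw2⟩ := gw_dense hp0' hp1' k (1 / 2 - max p (1 - p) ^ k) (by linarith)
    (by linarith)
  obtain ⟨ι, hι, M, S, hM, h1, h2, h3, h4s⟩ := rls_gw hprob hprod hμ w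
  have hpM := hprob ι M hM
  have hT := hnear ι M hM (S A) (h1 A hA) (h4s A hAs) (by rw [h2 A hA, ← hpdef]; linarith)
    (by rw [h2 A hA, ← hpdef]; linarith)
  have hfr := frequently_lt_of_liminf_lt (by isBoundedDefault) hb1
  have hev : ∀ᶠ ε in 𝓝[>] (0 : ℝ), b * ε < m₀ - m := by
    have : Tendsto (fun ε : ℝ => b * ε) (𝓝[>] 0) (𝓝 (b * 0)) :=
      (tendsto_id.const_mul b).mono_left nhdsWithin_le_nhds
    rw [mul_zero] at this
    exact this.eventually (gt_mem_nhds (by linarith))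
  have hbd : bdr M (S A) ≤ ENNReal.ofReal (b / m) := by
    unfold bdr
    refine liminf_le_of_frequently_le (f := 𝓝[>] (0 : ℝ)) ?_
    refine ((hfr.and_eventually hev).and_eventually
      (self_mem_nhdsWithin : Ioi (0 : ℝ) ∈ 𝓝[>] 0)).mono ?_
    rintro ε ⟨⟨hε1, hε2⟩, hε⟩
    have hTm : MeasurableSet (Metric.thickening ε A) := Metric.isOpen_thickening.measurableSet
    obtain ⟨x, hx⟩ : ∃ x, x = μ.real (Metric.thickening ε A) := ⟨_, rfl⟩
    have hpx : p ≤ x := by
      rw [hpdef, hx]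
      exact measureReal_mono (Metric.self_subset_thickening hε A)
    have e4 : μ (Metric.thickening ε A) = ENNReal.ofReal x := by
      rw [hx, measureReal_def, ENNReal.ofReal_toReal (measure_ne_top μ _)]
    rw [ENNReal.div_lt_iff (Or.inl (ENNReal.ofReal_pos.2 hε).ne')
      (Or.inl ENNReal.ofReal_ne_top), e4, e1, ← ENNReal.ofReal_sub _ hp0,
      ← ENNReal.ofReal_mul hb0] at hε1
    have hxb : x - p < b * ε := by
      by_contra hcon2
      rw [not_lt] at hcon2
      exact absurd (ENNReal.ofReal_le_ofReal hcon2) (not_le.2 hε1)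
    have hlip := gw_lip w hm (by linarith : m ≤ p) hpx (by linarith : m ≤ 1 - x)
    have h4 : M (Metric.thickening ε (S A)) ≤ ENNReal.ofReal (gw w x) := by
      refine (measure_mono (h3 A ε)).trans (le_of_eq ?_)
      rw [hx, ← h2 _ hTm, measureReal_def, ENNReal.ofReal_toReal (measure_ne_top M _)]
    have h5 : M (S A) = ENNReal.ofReal (gw w p) := by
      rw [hpdef, ← h2 _ hA, measureReal_def, ENNReal.ofReal_toReal (measure_ne_top M _)]
    rw [h5]
    refine (ENNReal.div_le_div_right (tsub_le_tsub_right h4 _) _).trans ?_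
    rw [← ENNReal.ofReal_sub _ (gw_range w hp0 hp1).1,
      ENNReal.div_le_iff (ENNReal.ofReal_pos.2 hε).ne' ENNReal.ofReal_ne_top,
      ← ENNReal.ofReal_mul (by positivity)]
    refine ENNReal.ofReal_le_ofReal (hlip.trans ?_)
    rw [div_mul_eq_mul_div]
    exact div_le_div_of_nonneg_right hxb.le hm.le
  have h6 := hT.trans (add_le_add_right hbd _)
  rw [← ENNReal.ofReal_add hη0.le (by positivity)] at h6
  have h7 := (ENNReal.ofReal_le_ofReal_iff (by positivity)).1 h6
  linarith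

end trick

section hm

variable {κ : Type} [Fintype κ]

/-- the boundary measure of symmetric sets of measure one half -/
def HMs (μ : Measure (Eu κ)) (h : ℝ) : Prop :=
  ∀ S : Set (Eu κ), MeasurableSet S → (∀ x ∈ S, -x ∈ S) → μ S = 1 / 2 →
    ENNReal.ofReal h ≤ bdr μ S

/-- the hyperplane inequality for symmetric sets -/
def HBs (C : ℝ) (Ω : Set (Eu κ)) : Prop := ∀ E : Set (Eu κ), MeasurableSet E → E ⊆ Ω →
  (∀ x ∈ E, -x ∈ E) → volume E = volume Ω / 2 →
  ⨅ (a : Eu κ) (_ : a ≠ 0), Pool.Agent.W695.KH.sec Ω a ≤ ENNReal.ofReal C * per E Ω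

/-- **the hyperplane inequality and sets of measure one half** -/
theorem hms_of_hbs {K : Set (Eu κ)} (hK : Body K) (hs : ∀ x ∈ K, -x ∈ K) {C : ℝ} (hC : 0 < C)
    (h : HBs C (interior K)) {s : ℝ} (hs0 : 0 < s) (hcov : CovLe (unf K) s) :
    HMs (unf K) (1 / (4 * Real.sqrt (2 * s) * C)) := by
  intro S hS hSs hSh
  have hss : 0 < Real.sqrt (2 * s) := Real.sqrt_pos.2 (by positivity)
  have hcl : closure (interior K) = K := by
    rw [hK.cvx.closure_interior_eq_closure_of_nonempty_interior hK.int, hK.cpt.isClosed.closure_eq]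
  have hae : (K : Set (Eu κ)) =ᵐ[volume] interior K := by
    have := Pool.Agent.W932.KH.closure_ae (isOpen_interior (s := K)) hK.cvx.interior
    rwa [hcl] at this
  have hv : volume K = volume (interior K) := measure_congr hae
  set E := S ∩ interior K with hE
  have hEm : MeasurableSet E := hS.inter isOpen_interior.measurableSet
  have hEv : volume E = volume (S ∩ K) :=
    (measure_congr ((EventuallyEq.refl _ S).inter hae)).symm
  have hSv : volume (S ∩ K) = volume K / 2 := by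
    have e1 : unf K S = (volume K)⁻¹ * volume (S ∩ K) := by
      unfold unf
      rw [Measure.smul_apply, smul_eq_mul, Measure.restrict_apply hS]
    rw [e1] at hSh
    calc volume (S ∩ K) = volume K * ((volume K)⁻¹ * volume (S ∩ K)) := by
          rw [← mul_assoc, ENNReal.mul_inv_cancel hK.pos.ne' hK.fin, one_mul]
      _ = volume K / 2 := by rw [hSh, mul_one_div]
  have hsi : ∀ x ∈ interior K, -x ∈ interior K := by
    intro x hx
    have hop : IsOpen ((fun y => -y) ⁻¹' interior K) := isOpen_interior.preimage continuous_neg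
    have hsub : (fun y => -y) ⁻¹' interior K ⊆ K := by
      intro y hy
      have := hs _ (interior_subset hy)
      rwa [neg_neg] at this
    exact interior_maximal hsub hop (by simpa using hx)
  have h1 := h E hEm inter_subset_right (fun x hx => ⟨hSs x hx.1, hsi x hx.2⟩)
    (by rw [hEv, hSv, hv])
  have h2 : volume (interior K) / ENNReal.ofReal (4 * Real.sqrt (2 * s)) ≤
      ⨅ (a : Eu κ) (_ : a ≠ 0), Pool.Agent.W695.KH.sec (interior K) a := by
    refine le_iInf₂ fun a ha => ?_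
    exact ENNReal.div_le_of_le_mul' (sec_ge hK hs hs0 hcov ha)
  have h3 := per_le (Ω := interior K) interior_subset hK.pos hK.fin hK.cpt.measurableSet hEm
  have h4 : bdr (unf K) E ≤ bdr (unf K) S := by
    have e1 : unf K E = unf K S := by
      unfold unf
      rw [Measure.smul_apply, Measure.smul_apply, Measure.restrict_apply hEm,
        Measure.restrict_apply hS]
      have : volume (E ∩ K) = volume (S ∩ K) := by
        rw [← hEv]
        congr 1
        exact inter_eq_left.2 (inter_subset_right.trans interior_subset)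
      rw [this]
    unfold bdr
    refine liminf_le_liminf (Eventually.of_forall fun ε => ?_)
    refine ENNReal.div_le_div_right ?_ _
    rw [e1]
    exact tsub_le_tsub_right (measure_mono (Metric.thickening_subset_of_subset ε inter_subset_left)) _
  have h5 : volume (interior K) / ENNReal.ofReal (4 * Real.sqrt (2 * s)) ≤
      ENNReal.ofReal C * (volume K * bdr (unf K) S) :=
    h2.trans (h1.trans (mul_le_mul_right (h3.trans (mul_le_mul_right h4 _)) _))
  rw [← hv] at h5
  have h6 : 1 / ENNReal.ofReal (4 * Real.sqrt (2 * s)) ≤ ENNReal.ofReal C * bdr (unf K) S := by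
    have h7 : volume K * (1 / ENNReal.ofReal (4 * Real.sqrt (2 * s))) ≤
        volume K * (ENNReal.ofReal C * bdr (unf K) S) := by
      rw [mul_one_div]
      refine h5.trans (le_of_eq ?_)
      ring
    exact (ENNReal.mul_le_mul_iff_right hK.pos.ne' hK.fin).1 h7
  rw [ENNReal.ofReal_div_of_pos (by positivity), ENNReal.ofReal_mul (by positivity),
    ENNReal.ofReal_one]
  rw [ENNReal.div_le_iff (by
      rw [Ne, mul_eq_zero, ENNReal.ofReal_eq_zero, ENNReal.ofReal_eq_zero, not_or, not_le, not_le]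
      exact ⟨by positivity, hC⟩) (ENNReal.mul_ne_top ENNReal.ofReal_ne_top ENNReal.ofReal_ne_top)]
  rw [ENNReal.div_le_iff (ENNReal.ofReal_pos.2 (by positivity)).ne' ENNReal.ofReal_ne_top] at h6
  refine h6.trans (le_of_eq ?_)
  ring

end hm

section near

variable {κ κ' : Type} [Fintype κ] [Fintype κ']

theorem TR_symm {T : Set (Eu κ)} (hT : ∀ x ∈ T, -x ∈ T) (r : ℝ) :
    ∀ z ∈ (TR T r : Set (Eu (κ ⊕ κ'))), -z ∈ (TR T r : Set (Eu (κ ⊕ κ'))) := by
  rintro z (hz | hz)
  · exact Or.inl (hT _ hz)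
  · refine Or.inr ?_
    have e : pr (-z) = -pr z := rfl
    rw [e]
    rw [Metric.mem_ball, dist_zero_right] at hz ⊢
    rwa [norm_neg]

/-- **near one half** -/
theorem nears_gcl {c : ℝ} (hc : 0 < c)
    (HE : ∀ (κ' F' : Type) [Fintype κ'] [Fintype F'] (A : Eu κ' →ₗ[ℝ] Eu F'),
      Function.Injective A → Nonempty κ' → ∀ t : ℝ, 0 < t → CovLe (nm (ecb A)) t →
      HMs (nm (ecb A)) (c / Real.sqrt t)) {s : ℝ} (hs : 0 < s) :
    ∀ η : ℝ, 0 < η → ∃ δ > 0, ∀ (ι : Type) [Fintype ι] (M : Measure (Eu ι)),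
      GG s ι M → ∀ T : Set (Eu ι), MeasurableSet T → (∀ x ∈ T, -x ∈ T) → 1 / 2 - δ ≤ M.real T → M.real T < 1 / 2 →
      ENNReal.ofReal (c / Real.sqrt s) ≤ ENNReal.ofReal η + bdr M T := by
  intro η hη
  obtain ⟨B, Cν, hB, hCν, hcovν, hring, hpos⟩ := exists_corr hs
  have hpν := (wt_gcl (A := B)).prob
  obtain ⟨ρ, hρdef⟩ : ∃ ρ, ρ = η / (3 * Cν) := ⟨_, rfl⟩
  have hρ : 0 < ρ := by rw [hρdef]; positivity
  have hCρ : 3 * Cν * ρ = η := by rw [hρdef]; field_simp
  refine ⟨(nm (gcl B)).real (Metric.ball 0 ρ) / 4, div_pos (hpos ρ hρ) (by norm_num), ?_⟩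
  rintro ι _ M ⟨⟨F, _, A, hA, hM⟩, hcovM⟩ T hT hTs hT1 hT2
  have hpM : IsProbabilityMeasure M := by rw [hM]; exact (wt_gcl (A := A)).prob
  have hiM : Integrable (fun x => ‖x‖ ^ 2) M := by rw [hM]; exact (wt_gcl (A := A)).int_sq
  obtain ⟨A', hA'⟩ : ∃ A', A' = sumL A B := ⟨_, rfl⟩
  have hP : nm (gcl A') = pm M (nm (gcl B)) := by rw [hA', hM, pm_gcl]
  have hcovP : CovLe (nm (gcl A')) s := by
    rw [hP]
    exact covLe_pm hiM (wt_gcl (A := B)).int_sq hcovM hcovν
  have hinj : Function.Injective A' := by rw [hA']; exact sumL_inj hA hB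
  by_contra hcon
  rw [not_le] at hcon
  have h1 : bdr M T < ENNReal.ofReal (c / Real.sqrt s - η) := by
    rw [ENNReal.ofReal_sub _ hη.le, lt_tsub_iff_left]
    exact hcon
  obtain ⟨b, hb0, hb1, hb2⟩ := ENNReal.lt_iff_exists_real_btwn.1 h1
  have hb3 : b < c / Real.sqrt s - η := by
    by_contra hcon2
    rw [not_lt] at hcon2
    exact absurd (ENNReal.ofReal_le_ofReal hcon2) (not_le.2 hb2)
  -- the measures at `0` and `ρ`
  have hm0 : (nm (gcl A')).real (TR T 0) < 1 / 2 := by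
    rw [hP]
    have e : (pm M (nm (gcl B))).real (TR T 0) =
        M.real T + (1 - M.real T) * (nm (gcl B)).real (Metric.ball 0 0) :=
      pm_or hT Metric.isOpen_ball.measurableSet
    rw [e, Metric.ball_zero, measureReal_empty, mul_zero, add_zero]
    exact hT2
  have hm1 : 1 / 2 < (nm (gcl A')).real (TR T ρ) := by
    rw [hP]
    have e : (pm M (nm (gcl B))).real (TR T ρ) =
        M.real T + (1 - M.real T) * (nm (gcl B)).real (Metric.ball 0 ρ) :=
      pm_or hT Metric.isOpen_ball.measurableSet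
    rw [e]
    have h2 := hpos ρ hρ
    nlinarith
  -- for every `η'`
  have key : ∀ η' : ℝ, 0 < η' → c / Real.sqrt (s + η') ≤ η + b := by
    intro η' hη'
    have hK : Tendsto (fun n : ℕ => (∫ y, gcl A' y) / (∫ y, gcn A' n y) * (η + b)) atTop
        (𝓝 ((∫ y, gcl A' y) / (∫ y, gcl A' y) * (η + b))) :=
      (tendsto_const_nhds.div int_gcn_lim' (wt_gcl (A := A')).pos.ne').mul_const _
    rw [div_self (wt_gcl (A := A')).pos.ne', one_mul] at hK
    refine ge_of_tendsto hK ?_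
    filter_upwards [wt_gcn (A := A'), cov_ecb hs hcovP hη', eventually_ne_atTop 0,
      (real_lim (A := A') (TR_meas hT 0)).eventually (gt_mem_nhds hm0),
      (real_lim (A := A') (TR_meas hT ρ)).eventually (lt_mem_nhds hm1)] with n hw hcov hn hn0 hn1
    obtain ⟨k, hk⟩ : ∃ k, k = (∫ y, gcl A' y) / (∫ y, gcn A' n y) := ⟨_, rfl⟩
    have hk0 : 0 ≤ k := by
      rw [hk]
      exact div_nonneg (wt_gcl (A := A')).pos.le hw.pos.le
    rw [← hk]
    have hp := hw.prob
    have hdom : ∀ S, MeasurableSet S →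
        (nm (gcn A' n)).real S ≤ k * (pm M (nm (gcl B))).real S := by
      intro S hS
      rw [← hP, hk]
      exact nm_le wt_gcl hw (fun x => gcn_le_gcl hn x) hS
    -- the radius
    have hlip : ∀ r r' : ℝ, 0 ≤ r → r ≤ r' → r' ≤ ρ →
        |(nm (gcn A' n)).real (TR T r') - (nm (gcn A' n)).real (TR T r)| ≤
          k * (Cν * (2 * ρ)) * |r' - r| := by
      intro r r' h0 h2 h3
      have hsub : (TR T r : Set (Eu (ι ⊕ Fin 2))) ⊆ TR T r' := TR_mono h2
      rw [← measureReal_sdiff hsub (TR_meas hT r), abs_of_nonneg measureReal_nonneg,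
        abs_of_nonneg (by linarith)]
      refine (hdom _ ((TR_meas hT r').diff (TR_meas hT r))).trans ?_
      rw [mul_assoc]
      refine mul_le_mul_of_nonneg_left ?_ hk0
      rw [measureReal_sdiff hsub (TR_meas hT r)]
      have e1 : (pm M (nm (gcl B))).real (TR T r') =
          M.real T + (1 - M.real T) * (nm (gcl B)).real (Metric.ball 0 r') :=
        pm_or hT Metric.isOpen_ball.measurableSet
      have e2 : (pm M (nm (gcl B))).real (TR T r) =
          M.real T + (1 - M.real T) * (nm (gcl B)).real (Metric.ball 0 r) :=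
        pm_or hT Metric.isOpen_ball.measurableSet
      rw [e1, e2]
      have h4 := hring r r' h0 h2
      have h5 : (nm (gcl B)).real (Metric.ball 0 r) ≤ (nm (gcl B)).real (Metric.ball 0 r') :=
        measureReal_mono (Metric.ball_subset_ball h2)
      have h6 : 0 ≤ M.real T := measureReal_nonneg
      have h7 : Cν * (r' ^ 2 - r ^ 2) ≤ Cν * (2 * ρ) * (r' - r) := by
        have h8 : r' ^ 2 - r ^ 2 ≤ 2 * ρ * (r' - r) := by nlinarith
        have := mul_le_mul_of_nonneg_left h8 hCν.le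
        linarith
      nlinarith
    have hcont : ContinuousOn (fun r => (nm (gcn A' n)).real (TR T r)) (Icc 0 ρ) := by
      have : LipschitzOnWith (Real.toNNReal (k * (Cν * (2 * ρ))))
          (fun r => (nm (gcn A' n)).real (TR T r)) (Icc 0 ρ) := by
        refine LipschitzOnWith.of_dist_le_mul fun x hx y hy => ?_
        rw [Real.coe_toNNReal _ (by positivity), Real.dist_eq, Real.dist_eq]
        rcases le_total x y with h | h
        · rw [abs_sub_comm, abs_sub_comm x y]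
          exact hlip x y hx.1 h hy.2
        · exact hlip y x hy.1 h hx.2
      exact this.continuousOn
    obtain ⟨r, hr, hr2⟩ := intermediate_value_Icc hρ.le hcont ⟨hn0.le, hn1.le⟩
    have hr2' : (nm (gcn A' n)).real (TR T r) = 1 / 2 := hr2
    -- the body
    have hmap := map_ecb hn hw
    have hme : Measurable (pl : Eu ((ι ⊕ Fin 2) ⊕ Fin n) → Eu (ι ⊕ Fin 2)) := cont_pl.measurable
    have hne : Nonempty ((ι ⊕ Fin 2) ⊕ Fin n) := ⟨Sum.inl (Sum.inr 0)⟩
    have hhm := HE ((ι ⊕ Fin 2) ⊕ Fin n) ((F ⊕ Fin 2) ⊕ Fin n) (AE A' n) (AE_inj hinj hn) hne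
      (s + η') (by positivity) hcov (pl ⁻¹' (TR T r)) ((TR_meas hT r).preimage hme)
      (fun z hz => TR_symm hTs r _ hz) (by
        rw [← Measure.map_apply hme (TR_meas hT r), hmap]
        have : nm (gcn A' n) (TR T r) = ENNReal.ofReal ((nm (gcn A' n)).real (TR T r)) := by
          rw [measureReal_def, ENNReal.ofReal_toReal (measure_ne_top _ _)]
        rw [this, hr2', ENNReal.ofReal_div_of_pos two_pos]
        simp)
    have h3 := bdr_pl (μ := nm (ecb (AE A' n))) (TR_meas hT r)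
    rw [hmap] at h3
    have h4 := bdr_TR hk0 hdom hCν.le hring hT hb0 hb1 hr.1 hr.2 hρ
    rw [hCρ] at h4
    exact (ENNReal.ofReal_le_ofReal_iff (by positivity)).1 (hhm.trans (h3.trans h4))
  have h5 : Tendsto (fun η' : ℝ => c / Real.sqrt (s + η')) (𝓝[>] 0) (𝓝 (c / Real.sqrt (s + 0))) := by
    refine Tendsto.mono_left ?_ nhdsWithin_le_nhds
    refine tendsto_const_nhds.div ?_ (by rw [add_zero]; exact (Real.sqrt_pos.2 hs).ne')
    exact (Real.continuous_sqrt.tendsto _).comp (tendsto_const_nhds.add tendsto_id)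
  rw [add_zero] at h5
  have h6 : c / Real.sqrt s ≤ η + b := by
    refine le_of_tendsto h5 ?_
    filter_upwards [self_mem_nhdsWithin] with η' hη'
    exact key η' hη'
  linarith

/-- **the isoperimetric inequality for centred Gaussian measures on cubes** -/
theorem isoE_gcl {c : ℝ} (hc : 0 < c)
    (HE : ∀ (κ' F' : Type) [Fintype κ'] [Fintype F'] (A : Eu κ' →ₗ[ℝ] Eu F'),
      Function.Injective A → Nonempty κ' → ∀ t : ℝ, 0 < t → CovLe (nm (ecb A)) t →
      HMs (nm (ecb A)) (c / Real.sqrt t)) {F : Type} [Fintype F]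
    {A : Eu κ →ₗ[ℝ] Eu F} (hA : Function.Injective A) {s : ℝ} (hs : 0 < s)
    (hcov : CovLe (nm (gcl A)) s) : IsoE (nm (gcl A)) (c / Real.sqrt s) := by
  refine isoE_of_near (𝒢 := fun ι _ M => GG s ι M) ?_ ?_ (nears_gcl hc HE hs)
    ⟨⟨F, inferInstance, A, hA, rfl⟩, hcov⟩ (div_pos hc (Real.sqrt_pos.2 hs))
  · rintro ι _ M ⟨⟨F', _, A', _, hM⟩, _⟩
    rw [hM]
    exact (wt_gcl (A := A')).prob
  · rintro ι ι' _ _ M M' ⟨⟨F1, _, A1, h1, hM1⟩, h2⟩ ⟨⟨F2, _, A2, h3, hM2⟩, h4⟩
    have p1 : IsProbabilityMeasure M := by rw [hM1]; exact (wt_gcl (A := A1)).prob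
    have p2 : IsProbabilityMeasure M' := by rw [hM2]; exact (wt_gcl (A := A2)).prob
    have i1 : Integrable (fun x => ‖x‖ ^ 2) M := by rw [hM1]; exact (wt_gcl (A := A1)).int_sq
    have i2 : Integrable (fun x => ‖x‖ ^ 2) M' := by rw [hM2]; exact (wt_gcl (A := A2)).int_sq
    refine ⟨⟨F1 ⊕ F2, inferInstance, sumL A1 A2, sumL_inj h1 h3, ?_⟩, covLe_pm i1 i2 h2 h4⟩
    rw [pm_gcl, hM1, hM2]

/-- **the Poincare form for centred Gaussian measures on cubes** -/
theorem kp_gcl_of_hms {c : ℝ} (hc : 0 < c)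
    (HE : ∀ (κ' F' : Type) [Fintype κ'] [Fintype F'] (A : Eu κ' →ₗ[ℝ] Eu F'),
      Function.Injective A → Nonempty κ' → ∀ t : ℝ, 0 < t → CovLe (nm (ecb A)) t →
      HMs (nm (ecb A)) (c / Real.sqrt t)) {F : Type} [Fintype F]
    {A : Eu κ →ₗ[ℝ] Eu F} (hA : Function.Injective A) : KP (nm (gcl A)) (2 * (4 / c ^ 2 + 1)) := by
  have hp := (wt_gcl (A := A)).prob
  intro s hs hcov
  have h1 := poiE_of_isoE (div_pos hc (Real.sqrt_pos.2 hs)) (isoE_gcl hc HE hA hs hcov)
  have h2 := poi_of_poiE (lc_gcl A) wt_gcl (gcl_even A)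
    (show 0 < 4 / (c / Real.sqrt s) ^ 2 by have := Real.sqrt_pos.2 hs; positivity) hs h1 hcov
  have e : 2 * (4 / (c / Real.sqrt s) ^ 2 + s) = 2 * (4 / c ^ 2 + 1) * s := by
    rw [div_pow, Real.sq_sqrt hs.le]
    field_simp
  rwa [e] at h2

end near

section iso

variable {κ κ' : Type} [Fintype κ] [Fintype κ']

theorem HMs.iso {μ : Measure (Eu κ')} {h : ℝ} (hH : HMs μ h) (σ : Eu κ' ≃ₗᵢ[ℝ] Eu κ) :
    HMs (μ.map σ) h := by
  have hσ : Measurable σ := σ.continuous.measurable
  intro S hS hSs hSh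
  rw [Measure.map_apply hσ hS] at hSh
  refine (hH _ (hS.preimage hσ) (fun x hx => by
    rw [mem_preimage] at hx ⊢
    rw [map_neg]
    exact hSs _ hx) hSh).trans ?_
  unfold bdr
  refine liminf_le_liminf (Eventually.of_forall fun ε => ?_)
  rw [Measure.map_apply hσ hS, Measure.map_apply hσ Metric.isOpen_thickening.measurableSet]
  refine ENNReal.div_le_div_right (tsub_le_tsub_right (measure_mono fun z hz => ?_) _) _
  obtain ⟨y, hy, hd⟩ := Metric.mem_thickening_iff.1 hz
  exact Metric.mem_thickening_iff.2 ⟨σ y, hy, by rwa [σ.dist_map]⟩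

end iso

/-- transport of the hyperplane inequality to arbitrary index sets -/
theorem hms_ecb {C : ℝ} (hC : 0 < C)
    (H : ∀ (n : ℕ), 1 ≤ n → ∀ (F' : Type) [Fintype F'] (A : Eu (Fin n) →ₗ[ℝ] Eu F'),
      Function.Injective A → HBs C (interior (EC A)))
    (κ' F' : Type) [Fintype κ'] [Fintype F'] (A : Eu κ' →ₗ[ℝ] Eu F') (hA : Function.Injective A)
    (hne : Nonempty κ') (t : ℝ) (ht : 0 < t) (hcov : CovLe (nm (ecb A)) t) :
    HMs (nm (ecb A)) (1 / (4 * Real.sqrt 2 * C) / Real.sqrt t) := by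
  have e := Fintype.equivFin κ'
  set σ := rx e.symm with hσ
  set A' : Eu (Fin (Fintype.card κ')) →ₗ[ℝ] Eu F' := A ∘ₗ σ.toLinearEquiv.toLinearMap with hA'
  have hA'i : Function.Injective A' := hA.comp σ.injective
  have hbody : Body (EC A') := ⟨EC_compact A', EC_convex A', ⟨0, EC_interior A'⟩⟩
  have hsym : ∀ x ∈ EC A', -x ∈ EC A' := by
    rintro x ⟨h1, h2⟩
    refine ⟨fun i => ?_, ?_⟩
    · rw [PiLp.neg_apply, abs_neg]
      exact h1 i
    · rw [map_neg, norm_neg]
      exact h2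
  have e1 : (EC A').indicator (fun _ => (1 : ℝ)) = fun y => ecb A (σ y) := by
    funext y
    unfold ecb
    have hiff : y ∈ EC A' ↔ σ y ∈ EC A := by
      unfold EC
      rw [mem_ofPred_eq, mem_ofPred_eq]
      have : (∀ i, |σ y i| ≤ 1) ↔ ∀ i, |y i| ≤ 1 := by
        rw [hσ]
        simp only [rx_apply, Equiv.symm_symm]
        exact ⟨fun h i => by simpa using h (e.symm i), fun h i => h _⟩
      rw [this]
      rfl
    by_cases hy : y ∈ EC A'
    · rw [indicator_of_mem hy, indicator_of_mem (hiff.1 hy)]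
    · rw [indicator_of_notMem hy, indicator_of_notMem fun h => hy (hiff.2 h)]
  have hmap : (nm ((EC A').indicator fun _ => (1 : ℝ))).map σ = nm (ecb A) := by
    rw [e1]
    exact nm_iso σ
  have hpr := hbody.wt.prob
  have hcov' : CovLe (unf (EC A')) t := by
    rw [← nm_ind hbody]
    rw [← hmap] at hcov
    exact covLe_iso σ hcov
  have h1 := hms_of_hbs hbody hsym hC (H _ Fintype.card_pos F' A' hA'i) ht hcov'
  rw [← nm_ind hbody] at h1
  have h2 := h1.iso σ
  rw [hmap] at h2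
  have e2 : 1 / (4 * Real.sqrt (2 * t) * C) = 1 / (4 * Real.sqrt 2 * C) / Real.sqrt t := by
    rw [Real.sqrt_mul (by norm_num), div_div]
    congr 1
    ring
  rwa [e2] at h2

/-- **the Poincare form for all symmetric bodies from the hyperplane inequality for symmetric sets in
ellipsoids in cubes** -/
theorem kp_of_hbs {C : ℝ} (hC : 0 < C)
    (H : ∀ (n : ℕ), 1 ≤ n → ∀ (F' : Type) [Fintype F'] (A : Eu (Fin n) →ₗ[ℝ] Eu F'),
      Function.Injective A → HBs C (interior (EC A)))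
    {κ : Type} [Fintype κ] {K : Set (Eu κ)} (hK : Body K) (hs : ∀ x ∈ K, -x ∈ K) :
    KP (nm (K.indicator fun _ => (1 : ℝ))) (256 * C ^ 2 + 2) := by
  have hc : 0 < 1 / (4 * Real.sqrt 2 * C) := by positivity
  refine kp_symm hK hs (by positivity) fun κ' F' _ _ A hA => ?_
  have h1 := kp_gcl_of_hms hc (fun κ' F' _ _ A hA hne t ht hcov =>
    hms_ecb hC H κ' F' A hA hne t ht hcov) hA
  have e : 2 * (4 / (1 / (4 * Real.sqrt 2 * C)) ^ 2 + 1) = 256 * C ^ 2 + 2 := by
    have h2 : Real.sqrt 2 ^ 2 = 2 := Real.sq_sqrt (by norm_num)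
    field_simp
    rw [h2]
    ring
  rwa [e] at h1

end Pool.Agent.H776
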