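import Pool.Agent.H776.EV5

/-!
# Central hyperplanes are cuts
-/

set_option autoImplicit false

namespace Pool.Agent.H776

open MeasureTheory Set Filter Topology
open scoped ENNReal NNReal InnerProductSpace
open Pool.Agent.W695.KH (dv per sec_bound EV)
open Pool.Agent.W932.KH (closure_ae)

variable {κ : Type} [Fintype κ]

/-- **the perimeter of the part of `Ω` on one side of a central hyperplane** -/
theorem per_half {Ω : Set (Eu κ)} (ho : IsOpen Ω) (hconv : Convex ℝ Ω)
    (hbd : Bornology.IsBounded Ω) (h0 : (0 : Eu κ) ∈ Ω) (hsym : ∀ x ∈ Ω, -x ∈ Ω) {a : Eu κ}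
    (ha : a ≠ 0) : ∃ E : Set (Eu κ), MeasurableSet E ∧ E ⊆ Ω ∧ volume E = volume Ω / 2 ∧
      per E Ω ≤ Pool.Agent.W695.KH.sec Ω a := by
  have hK := body_closure ho hconv hbd h0
  obtain ⟨K, hKdef⟩ : ∃ K, K = closure Ω := ⟨_, rfl⟩
  rw [← hKdef] at hK
  have hae : (K : Set (Eu κ)) =ᵐ[volume] Ω := by rw [hKdef]; exact closure_ae ho hconv
  have hΩK : Ω ⊆ K := by rw [hKdef]; exact subset_closure
  have hΩt : volume Ω ≠ ⊤ := hbd.measure_lt_top.ne
  obtain ⟨Cs, hCs, hs⟩ := sec_bound
  rw [← sec_unit ha]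
  set u := ‖a‖⁻¹ • a with hu
  have hu1 : ‖u‖ = 1 := by
    rw [hu, norm_smul, norm_inv, norm_norm, inv_mul_cancel₀ (norm_ne_zero_iff.2 ha)]
  have hu0 : u ≠ 0 := by
    intro h
    rw [h, norm_zero] at hu1
    exact zero_ne_one hu1
  have h3 := (hs κ Ω ho hconv hbd h0 hsym u hu1).2.2
  have hc : Continuous fun x : Eu κ => ⟪u, x⟫_ℝ := by fun_prop
  obtain ⟨E, hE⟩ : ∃ E, E = {x : Eu κ | ⟪u, x⟫_ℝ ≤ 0} ∩ Ω := ⟨_, rfl⟩
  have hHm : MeasurableSet {x : Eu κ | ⟪u, x⟫_ℝ ≤ 0} := measurableSet_le hc.measurable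
    measurable_const
  have hEm : MeasurableSet E := by rw [hE]; exact hHm.inter ho.measurableSet
  refine ⟨E, hEm, by rw [hE]; exact inter_subset_right, ?_, ?_⟩
  · -- the volume
    have hΩn : (fun x : Eu κ => -x) ⁻¹' Ω = Ω := by
      ext x
      exact ⟨fun h => by have := hsym _ h; rwa [neg_neg] at this, fun h => hsym x h⟩
    have e1 : volume ((fun x : Eu κ => -x) ⁻¹' E) = volume E :=
      (Measure.measurePreserving_neg volume).measure_preimage hEm.nullMeasurableSet
    have e2 : (E ∪ (fun x : Eu κ => -x) ⁻¹' E : Set (Eu κ)) = Ω := by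
      ext x
      have hx : -x ∈ Ω ↔ x ∈ Ω := ⟨fun h => by have := hsym _ h; rwa [neg_neg] at this,
        fun h => hsym x h⟩
      rw [hE]
      simp only [mem_union, mem_inter_iff, mem_preimage, mem_ofPred_eq, inner_neg_right, hx]
      constructor
      · rintro (h | h) <;> exact h.2
      · intro h
        rcases le_total ⟪u, x⟫_ℝ 0 with h' | h'
        · exact Or.inl ⟨h', h⟩
        · exact Or.inr ⟨by linarith, h⟩
    have e3 : volume (E ∩ (fun x : Eu κ => -x) ⁻¹' E) = 0 := by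
      refine measure_mono_null ?_ (plane0 hu0)
      intro x hx
      rw [hE] at hx
      have h4 : ⟪u, x⟫_ℝ ≤ 0 := hx.1.1
      have h5 : ⟪u, -x⟫_ℝ ≤ 0 := hx.2.1
      rw [inner_neg_right] at h5
      show ⟪u, x⟫_ℝ = 0
      linarith
    have hEn : MeasurableSet ((fun x : Eu κ => -x) ⁻¹' E) := hEm.preimage measurable_neg
    have e4 := measure_union_add_inter (μ := volume) E hEn
    rw [e2, e3, e1, add_zero] at e4
    rw [e4, ← two_mul, mul_comm, mul_div_assoc, ENNReal.div_self two_ne_zero ENNReal.ofNat_ne_top,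
      mul_one]
  · -- the perimeter
    have hK0 := hK.pos.ne'
    refine (per_le (Ω := Ω) hΩK hK.pos hK.fin hK.cpt.measurableSet hEm).trans ?_
    have key : bdr (unf K) E ≤ (volume K)⁻¹ * Pool.Agent.W695.KH.sec Ω u := by
      unfold bdr
      refine liminf_le_of_frequently_le (f := 𝓝[>] (0 : ℝ)) (Eventually.frequently ?_)
      filter_upwards [self_mem_nhdsWithin] with ε hε
      have hε0 : 0 < ε := hε
      rw [ENNReal.div_le_iff (ENNReal.ofReal_pos.2 hε0).ne' ENNReal.ofReal_ne_top,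
        tsub_le_iff_right]
      obtain ⟨S, hS⟩ : ∃ S, S = {x : Eu κ | 0 < ⟪u, x⟫_ℝ ∧ ⟪u, x⟫_ℝ ≤ ε} := ⟨_, rfl⟩
      have hSm : MeasurableSet S := by
        rw [hS]
        exact (measurableSet_lt measurable_const hc.measurable).inter
          (measurableSet_le hc.measurable measurable_const)
      have hsub : Metric.thickening ε E ⊆ {x : Eu κ | ⟪u, x⟫_ℝ ≤ 0} ∪ S := by
        intro x hx
        obtain ⟨y, hy, hd⟩ := Metric.mem_thickening_iff.1 hx
        have h4 : ⟪u, y⟫_ℝ ≤ 0 := by rw [hE] at hy; exact hy.1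
        have h5 : ⟪u, x⟫_ℝ ≤ ε := by
          have h6 := real_inner_le_norm u (x - y)
          rw [hu1, one_mul, inner_sub_right] at h6
          rw [dist_eq_norm] at hd
          linarith
        rw [hS]
        rcases le_or_gt ⟪u, x⟫_ℝ 0 with h | h
        · exact Or.inl h
        · exact Or.inr ⟨h, h5⟩
      have hun : ∀ A : Set (Eu κ), MeasurableSet A → unf K A = (volume K)⁻¹ * volume (A ∩ Ω) := by
        intro A hA
        unfold unf
        rw [Measure.smul_apply, smul_eq_mul, Measure.restrict_apply hA]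
        congr 1
        exact measure_congr ((EventuallyEq.refl _ A).inter hae)
      refine (measure_mono hsub).trans ((measure_union_le _ _).trans ?_)
      rw [hun _ hHm, hun _ hSm, hun _ hEm]
      have e1 : E ∩ Ω = {x : Eu κ | ⟪u, x⟫_ℝ ≤ 0} ∩ Ω := by
        rw [hE, inter_assoc, inter_self]
      rw [e1, add_comm]
      refine add_le_add_left ?_ _
      have h4 := h3 ε hε0
      rw [← hS, inter_comm] at h4
      calc (volume K)⁻¹ * volume (S ∩ Ω) ≤ (volume K)⁻¹ * (ENNReal.ofReal ε *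
            Pool.Agent.W695.KH.sec Ω u) := mul_le_mul_right h4 _
        _ = (volume K)⁻¹ * Pool.Agent.W695.KH.sec Ω u * ENNReal.ofReal ε := by ring
    refine (mul_le_mul_right key _).trans (le_of_eq ?_)
    rw [← mul_assoc, ENNReal.mul_inv_cancel hK0 hK.fin, one_mul]

end Pool.Agent.H776
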