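import Pool.Agent.H776.EV6
import Pool.Agent.H776.EV7

/-!
# Intersections of few sublevel sets, I: the volume as a function of the levels
-/

set_option autoImplicit false

namespace Pool.Agent.H776.FE

open MeasureTheory Set Filter Topology
open scoped ENNReal InnerProductSpace Pointwise

variable {κ : Type} [Fintype κ] {k : ℕ}

/-- Brunn-Minkowski, multiplicative form -/
theorem bm {A B D : Set (Eu κ)} (hA : MeasurableSet A) (hB : MeasurableSet B)
    (hD : MeasurableSet D) {t : ℝ} (ht0 : 0 < t) (ht1 : t < 1)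
    (h : ∀ x ∈ A, ∀ y ∈ B, (1 - t) • x + t • y ∈ D) :
    volume A ^ (1 - t) * volume B ^ t ≤ volume D := by
  have H := Pool.Agent.H212R2.KLS.PL (volume : Measure (Eu κ)) t ht0 ht1
    (A.indicator 1) (B.indicator 1) (D.indicator 1) (measurable_one.indicator hA)
    (measurable_one.indicator hB) (measurable_one.indicator hD) (by
      intro x y
      by_cases hx : x ∈ A
      · by_cases hy : y ∈ B
        · rw [indicator_of_mem hx, indicator_of_mem hy, indicator_of_mem (h x hx y hy)]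
          simp
        · rw [indicator_of_notMem hy, ENNReal.zero_rpow_of_pos ht0, mul_zero]
          exact zero_le
      · rw [indicator_of_notMem hx, ENNReal.zero_rpow_of_pos (by linarith), zero_mul]
        exact zero_le)
  rwa [lintegral_indicator_one hA, lintegral_indicator_one hB, lintegral_indicator_one hD] at H

/-- the level sets -/
def lev (F : Fin k → Eu κ → ℝ) (s : Fin k → ℝ) : Set (Eu κ) := {x | ∀ j, F j x ≤ s j}

/-- convex functions with minimum zero at the origin and bounded joint sublevel set -/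
structure Fam (F : Fin k → Eu κ → ℝ) : Prop where
  cont : ∀ j, Continuous (F j)
  conv : ∀ j, ConvexOn ℝ univ (F j)
  zero : ∀ j, F j 0 = 0
  nonneg : ∀ j x, 0 ≤ F j x
  bdd : Bornology.IsBounded (lev F 1)

variable {F : Fin k → Eu κ → ℝ}

theorem lev_closed (h : Fam F) (s : Fin k → ℝ) : IsClosed (lev F s) := by
  have e : lev F s = ⋂ j, {x | F j x ≤ s j} := by
    ext x
    simp [lev]
  rw [e]
  exact isClosed_iInter fun j => isClosed_le (h.cont j) continuous_const

theorem lev_meas (h : Fam F) (s : Fin k → ℝ) : MeasurableSet (lev F s) :=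
  (lev_closed h s).measurableSet

theorem lev_convex (h : Fam F) (s : Fin k → ℝ) : Convex ℝ (lev F s) := by
  intro x hx y hy a b ha hb hab j
  have h1 := (h.conv j).2 (mem_univ x) (mem_univ y) ha hb hab
  simp only [smul_eq_mul] at h1
  have h2 := mul_le_mul_of_nonneg_left (hx j) ha
  have h3 := mul_le_mul_of_nonneg_left (hy j) hb
  have h4 : a * s j + b * s j = s j := by rw [← add_mul, hab, one_mul]
  linarith

theorem lev_mono {s t : Fin k → ℝ} (hst : s ≤ t) : lev F s ⊆ lev F t :=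
  fun _ hx j => (hx j).trans (hst j)

theorem lev_comb (h : Fam F) {s s' : Fin k → ℝ} {a b : ℝ} (ha : 0 ≤ a) (hb : 0 ≤ b)
    (hab : a + b = 1) {x y : Eu κ} (hx : x ∈ lev F s) (hy : y ∈ lev F s') :
    a • x + b • y ∈ lev F (a • s + b • s') := by
  intro j
  have h1 := (h.conv j).2 (mem_univ x) (mem_univ y) ha hb hab
  simp only [smul_eq_mul] at h1
  have h2 := mul_le_mul_of_nonneg_left (hx j) ha
  have h3 := mul_le_mul_of_nonneg_left (hy j) hb
  rw [Pi.add_apply, Pi.smul_apply, Pi.smul_apply, smul_eq_mul, smul_eq_mul]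
  linarith

/-- contraction -/
theorem F_smul_le (h : Fam F) (j : Fin k) {c : ℝ} (hc0 : 0 ≤ c) (hc1 : c ≤ 1) (x : Eu κ) :
    F j (c • x) ≤ c * F j x := by
  have h1 := (h.conv j).2 (mem_univ x) (mem_univ (0 : Eu κ)) hc0 (by linarith : 0 ≤ 1 - c) (by ring)
  simpa [h.zero j] using h1

theorem smul_lev_sub (h : Fam F) {s : Fin k → ℝ} {c : ℝ} (hc0 : 0 ≤ c) (hc1 : c ≤ 1)
    (hcs : ∀ j, c ≤ s j) {x : Eu κ} (hx : x ∈ lev F 1) : c • x ∈ lev F s := by
  intro j
  have h1 := F_smul_le h j hc0 hc1 x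
  have h2 : F j x ≤ 1 := hx j
  have h3 := mul_le_mul_of_nonneg_left h2 hc0
  have := hcs j
  linarith

theorem lev_sub_smul (h : Fam F) {s : Fin k → ℝ} {R : ℝ} (hR : 1 ≤ R)
    (hRs : ∀ j, s j ≤ R) {x : Eu κ} (hx : x ∈ lev F s) : R⁻¹ • x ∈ lev F 1 := by
  intro j
  have hR0 : 0 < R := by linarith
  have h1 := F_smul_le h j (inv_nonneg.2 hR0.le) (inv_le_one_of_one_le₀ hR) x
  have h2 : F j x ≤ R := (hx j).trans (hRs j)
  have h3 : R⁻¹ * F j x ≤ R⁻¹ * R := mul_le_mul_of_nonneg_left h2 (inv_nonneg.2 hR0.le)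
  rw [inv_mul_cancel₀ hR0.ne'] at h3
  exact h1.trans h3

theorem exists_ub (s : Fin k → ℝ) : ∃ R : ℝ, 1 ≤ R ∧ ∀ j, s j ≤ R := by
  refine ⟨1 + ∑ j, |s j|, ?_, fun j => ?_⟩
  · have : 0 ≤ ∑ j, |s j| := Finset.sum_nonneg fun j _ => abs_nonneg _
    linarith
  · have h1 : |s j| ≤ ∑ j, |s j| :=
      Finset.single_le_sum (f := fun j => |s j|) (fun j _ => abs_nonneg _) (Finset.mem_univ j)
    have h2 := le_abs_self (s j)
    linarith

theorem lev_bdd (h : Fam F) (s : Fin k → ℝ) : Bornology.IsBounded (lev F s) := by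
  obtain ⟨R, hR, hRs⟩ := exists_ub s
  have hR0 : (0 : ℝ) < R := by linarith
  have h1 : lev F s ⊆ R • lev F 1 := by
    intro x hx
    refine ⟨R⁻¹ • x, lev_sub_smul h hR hRs hx, ?_⟩
    show R • R⁻¹ • x = x
    rw [smul_smul, mul_inv_cancel₀ hR0.ne', one_smul]
  exact (h.bdd.smul₀ R).subset h1

theorem lev_compact (h : Fam F) (s : Fin k → ℝ) : IsCompact (lev F s) :=
  Metric.isCompact_of_isClosed_isBounded (lev_closed h s) (lev_bdd h s)

theorem lev_lt_top (h : Fam F) (s : Fin k → ℝ) : volume (lev F s) < ⊤ :=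
  (lev_compact h s).measure_lt_top

theorem zero_mem_interior (h : Fam F) {s : Fin k → ℝ} (hs : ∀ j, 0 < s j) :
    (0 : Eu κ) ∈ interior (lev F s) := by
  rw [mem_interior]
  refine ⟨⋂ j, {x | F j x < s j}, fun x hx j => ?_, ?_, ?_⟩
  · exact (mem_iInter.1 hx j).le
  · exact isOpen_iInter_of_finite fun j => isOpen_lt (h.cont j) continuous_const
  · refine mem_iInter.2 fun j => ?_
    show F j 0 < s j
    rw [h.zero j]
    exact hs j

theorem lev_body (h : Fam F) {s : Fin k → ℝ} (hs : ∀ j, 0 < s j) : Body (lev F s) :=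
  ⟨lev_compact h s, lev_convex h s, ⟨0, zero_mem_interior h hs⟩⟩

/-- the volume -/
noncomputable def V (F : Fin k → Eu κ → ℝ) (s : Fin k → ℝ) : ℝ := (volume (lev F s)).toReal

theorem V_pos (h : Fam F) {s : Fin k → ℝ} (hs : ∀ j, 0 < s j) : 0 < V F s :=
  ENNReal.toReal_pos (lev_body h hs).pos.ne' (lev_body h hs).fin

theorem V_mono (h : Fam F) {s t : Fin k → ℝ} (hst : s ≤ t) : V F s ≤ V F t :=
  ENNReal.toReal_mono (lev_lt_top h t).ne (measure_mono (lev_mono hst))

theorem V_ofReal (h : Fam F) (s : Fin k → ℝ) : ENNReal.ofReal (V F s) = volume (lev F s) :=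
  ENNReal.ofReal_toReal (lev_lt_top h s).ne

/-- the logarithm of the volume is concave -/
theorem log_concave (h : Fam F) :
    ConcaveOn ℝ {s : Fin k → ℝ | ∀ j, 0 < s j} fun s => Real.log (V F s) := by
  have hU : Convex ℝ {s : Fin k → ℝ | ∀ j, 0 < s j} := by
    intro s hs t ht a b ha hb hab j
    rw [Pi.add_apply, Pi.smul_apply, Pi.smul_apply, smul_eq_mul, smul_eq_mul]
    rcases eq_or_lt_of_le ha with h0 | h0
    · have : b = 1 := by linarith
      rw [← h0, this]
      simpa using ht j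
    · have h1 := mul_pos h0 (hs j)
      have h2 := mul_nonneg hb (ht j).le
      linarith
  refine ⟨hU, ?_⟩
  intro s hs t ht a b ha hb hab
  rcases eq_or_lt_of_le ha with h0 | ha0
  · have : b = 1 := by linarith
    rw [← h0, this]
    simp
  rcases eq_or_lt_of_le hb with h0 | hb0
  · have : a = 1 := by linarith
    rw [← h0, this]
    simp
  have hb1 : b < 1 := by linarith
  have ea : a = 1 - b := by linarith
  have hst := hU hs ht ha hb hab
  have h1 := bm (lev_meas h s) (lev_meas h t) (lev_meas h (a • s + b • t)) hb0 hb1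
    (fun x hx y hy => by
      rw [← ea]
      exact lev_comb h ha hb hab hx hy)
  rw [← ea] at h1
  have h2 := ENNReal.toReal_mono (lev_lt_top h (a • s + b • t)).ne h1
  rw [ENNReal.toReal_mul, ← ENNReal.toReal_rpow, ← ENNReal.toReal_rpow] at h2
  have hVs := V_pos h hs
  have hVt := V_pos h ht
  have h3 := Real.log_le_log (by
    exact mul_pos (Real.rpow_pos_of_pos hVs a) (Real.rpow_pos_of_pos hVt b)) h2
  have h4 : Real.log ((volume (lev F s)).toReal ^ a * (volume (lev F t)).toReal ^ b) =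
      a * Real.log (V F s) + b * Real.log (V F t) := by
    show Real.log (V F s ^ a * V F t ^ b) = _
    rw [Real.log_mul (Real.rpow_pos_of_pos hVs a).ne' (Real.rpow_pos_of_pos hVt b).ne',
      Real.log_rpow hVs, Real.log_rpow hVt]
  rw [h4] at h3
  exact h3

/-- supergradients of concave functions -/
theorem supergrad {G : (Fin k → ℝ) → ℝ} (hG : ConcaveOn ℝ {s : Fin k → ℝ | ∀ j, 0 < s j} G) :
    ∃ τ : Fin k → ℝ, ∀ s : Fin k → ℝ, (∀ j, 0 < s j) → G s ≤ G 1 + ∑ j, τ j * (s j - 1) := by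
  obtain ⟨U, hU⟩ : ∃ U : Set (Fin k → ℝ), U = {s | ∀ j, 0 < s j} := ⟨_, rfl⟩
  rw [← hU] at hG
  have hUo : IsOpen U := by
    have e : U = ⋂ j, {s : Fin k → ℝ | 0 < s j} := by
      rw [hU]
      ext s
      simp
    rw [e]
    exact isOpen_iInter_of_finite fun j => isOpen_lt continuous_const (continuous_apply j)
  have h1U : (1 : Fin k → ℝ) ∈ U := by
    rw [hU]
    intro j
    exact one_pos
  have hcont : ContinuousOn G U := hG.continuousOn hUo
  obtain ⟨H, hH⟩ : ∃ H : Set ((Fin k → ℝ) × ℝ), H = {p | p.1 ∈ U ∧ p.2 < G p.1} := ⟨_, rfl⟩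
  have hHc : Convex ℝ H := by
    have := hG.convex_strict_hypograph
    rw [hH]
    exact this
  have hHo : IsOpen H := by
    have e : H = (Prod.fst ⁻¹' U) ∩ {p : (Fin k → ℝ) × ℝ | p.2 < G p.1} := by
      rw [hH]
      rfl
    rw [e]
    have hUo' : IsOpen (Prod.fst ⁻¹' U : Set ((Fin k → ℝ) × ℝ)) := hUo.preimage continuous_fst
    have hc : ContinuousOn (fun p : (Fin k → ℝ) × ℝ => G p.1 - p.2) (Prod.fst ⁻¹' U) :=
      (hcont.comp continuous_fst.continuousOn fun p hp => hp).sub continuous_snd.continuousOn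
    have := hc.isOpen_inter_preimage hUo' isOpen_Ioi (t := Ioi (0 : ℝ))
    have e2 : (Prod.fst ⁻¹' U ∩ (fun p : (Fin k → ℝ) × ℝ => G p.1 - p.2) ⁻¹' Ioi (0 : ℝ)) =
        (Prod.fst ⁻¹' U) ∩ {p : (Fin k → ℝ) × ℝ | p.2 < G p.1} := by
      ext p
      simp [sub_pos]
    rwa [e2] at this
  have hnot : ((1 : Fin k → ℝ), G 1) ∉ H := by
    rw [hH]
    rintro ⟨-, h⟩
    exact lt_irrefl _ h
  obtain ⟨f, hf⟩ := geometric_hahn_banach_open_point hHc hHo hnot
  have hlin : ∀ (s : Fin k → ℝ) (r : ℝ), f (s, r) = ∑ j, s j * f (Pi.single j 1, 0) + r * f (0, 1) := by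
    intro s r
    have e1 : (s, r) = ∑ j, s j • ((Pi.single j 1 : Fin k → ℝ), (0 : ℝ)) + r • ((0 : Fin k → ℝ), (1 : ℝ)) := by
      refine Prod.ext ?_ ?_
      · rw [Prod.fst_add, Prod.fst_sum]
        simp only [Prod.smul_fst, smul_zero, add_zero]
        ext i
        simp [Finset.sum_apply, Pi.single_apply]
      · rw [Prod.snd_add, Prod.snd_sum]
        simp
    rw [e1, map_add, map_sum]
    simp only [map_smul, smul_eq_mul]
  have hcpos : 0 < f (0, 1) := by
    have h1 := hf ((1 : Fin k → ℝ), G 1 - 1) (by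
      rw [hH]
      exact ⟨h1U, by simp⟩)
    rw [hlin, hlin 1 (G 1)] at h1
    nlinarith
  refine ⟨fun j => -(f (Pi.single j 1, 0)) / f (0, 1), fun s hs => ?_⟩
  have hsU : s ∈ U := by
    rw [hU]
    exact hs
  have h2 : ∀ r : ℝ, r < G s → ∑ j, s j * f (Pi.single j 1, 0) + r * f (0, 1) <
      ∑ j, (1 : Fin k → ℝ) j * f (Pi.single j 1, 0) + G 1 * f (0, 1) := by
    intro r hr
    have := hf (s, r) (by
      rw [hH]
      exact ⟨hsU, hr⟩)
    rwa [hlin, hlin 1 (G 1)] at this
  have h3 : ∑ j, s j * f (Pi.single j 1, 0) + G s * f (0, 1) ≤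
      ∑ j, (1 : Fin k → ℝ) j * f (Pi.single j 1, 0) + G 1 * f (0, 1) := by
    by_contra hcon
    push Not at hcon
    obtain ⟨δ, hδ⟩ : ∃ δ, δ = ∑ j, s j * f (Pi.single j 1, 0) + G s * f (0, 1) -
      (∑ j, (1 : Fin k → ℝ) j * f (Pi.single j 1, 0) + G 1 * f (0, 1)) := ⟨_, rfl⟩
    have hδ0 : 0 < δ := by rw [hδ]; linarith
    have h4 := h2 (G s - δ / f (0, 1)) (by
      have : 0 < δ / f (0, 1) := div_pos hδ0 hcpos
      linarith)
    have h5 : (G s - δ / f (0, 1)) * f (0, 1) = G s * f (0, 1) - δ := by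
      field_simp
    rw [h5] at h4
    linarith
  have h6 : ∑ j, -(f (Pi.single j 1, 0)) / f (0, 1) * (s j - 1) =
      (∑ j, (1 : Fin k → ℝ) j * f (Pi.single j 1, 0) - ∑ j, s j * f (Pi.single j 1, 0)) / f (0, 1) := by
    rw [← Finset.sum_sub_distrib, Finset.sum_div]
    refine Finset.sum_congr rfl fun j _ => ?_
    rw [Pi.one_apply]
    ring
  rw [h6]
  have h7 : G s - G 1 ≤ (∑ j, (1 : Fin k → ℝ) j * f (Pi.single j 1, 0) -
      ∑ j, s j * f (Pi.single j 1, 0)) / f (0, 1) := by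
    rw [le_div_iff₀ hcpos]
    linarith
  linarith

/-- **the volume of the level sets is bounded by an exponential** -/
theorem exists_tau (h : Fam F) : ∃ τ : Fin k → ℝ, (∀ j, 0 ≤ τ j) ∧
    ∀ s : Fin k → ℝ, (∀ j, 0 ≤ s j) → V F s ≤ V F 1 * Real.exp (∑ j, τ j * (s j - 1)) := by
  obtain ⟨τ, hτ⟩ := supergrad (log_concave h)
  have h1 : 0 < V F 1 := V_pos h fun _ => one_pos
  have hpos : ∀ s : Fin k → ℝ, (∀ j, 0 < s j) → V F s ≤ V F 1 * Real.exp (∑ j, τ j * (s j - 1)) := by
    intro s hs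
    have h2 := hτ s hs
    have h3 := Real.exp_le_exp.2 h2
    rw [Real.exp_log (V_pos h hs), Real.exp_add, Real.exp_log h1] at h3
    exact h3
  have hnn : ∀ j, 0 ≤ τ j := by
    intro j
    have hs : ∀ i, 0 < (1 + Pi.single j 1 : Fin k → ℝ) i := by
      intro i
      rw [Pi.add_apply, Pi.one_apply]
      have : 0 ≤ (Pi.single j 1 : Fin k → ℝ) i := by
        by_cases hij : i = j
        · rw [hij, Pi.single_eq_same]; exact zero_le_one
        · rw [Pi.single_eq_of_ne hij]
      linarith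
    have h2 := hτ _ hs
    have h3 : V F 1 ≤ V F (1 + Pi.single j 1) := V_mono h (by
      intro i
      rw [Pi.add_apply]
      have : 0 ≤ (Pi.single j 1 : Fin k → ℝ) i := by
        by_cases hij : i = j
        · rw [hij, Pi.single_eq_same]; exact zero_le_one
        · rw [Pi.single_eq_of_ne hij]
      linarith)
    have h4 := Real.log_le_log h1 h3
    have h5 : ∑ i, τ i * ((1 + Pi.single j 1 : Fin k → ℝ) i - 1) = τ j := by
      rw [Finset.sum_eq_single j]
      · rw [Pi.add_apply, Pi.one_apply, Pi.single_eq_same]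
        ring
      · intro i _ hi
        rw [Pi.add_apply, Pi.one_apply, Pi.single_eq_of_ne hi]
        ring
      · intro h
        exact absurd (Finset.mem_univ j) h
    rw [h5] at h2
    linarith
  refine ⟨τ, hnn, fun s hs => ?_⟩
  -- limit
  have h2 : ∀ η : ℝ, 0 < η → V F s ≤ V F 1 * Real.exp (∑ j, τ j * (s j + η - 1)) := by
    intro η hη
    have h3 : V F s ≤ V F (fun j => s j + η) := V_mono h fun j => by linarith
    exact h3.trans (hpos (fun j => s j + η) fun j => by have := hs j; linarith)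
  have hlim : Tendsto (fun η : ℝ => V F 1 * Real.exp (∑ j, τ j * (s j + η - 1))) (𝓝[>] 0)
      (𝓝 (V F 1 * Real.exp (∑ j, τ j * (s j + 0 - 1)))) := by
    have hc : Continuous fun η : ℝ => V F 1 * Real.exp (∑ j, τ j * (s j + η - 1)) := by fun_prop
    exact (hc.tendsto 0).mono_left nhdsWithin_le_nhds
  have h3 := ge_of_tendsto hlim (eventually_nhdsWithin_of_forall fun η hη => h2 η hη)
  simpa using h3

end Pool.Agent.H776.FE
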