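import Pool.Agent.H776.FE1
import Pool.Graph.R_seed8.H888R2.KT.N1

/-!
# Intersections of few sublevel sets, II: exponential moments and the tilted weight
-/

set_option autoImplicit false

namespace Pool.Agent.H776.FE

open MeasureTheory Set Filter Topology
open scoped ENNReal InnerProductSpace

variable {κ : Type} [Fintype κ] {k : ℕ} {F : Fin k → Eu κ → ℝ}

/-- the exponential bound -/
structure Tau (F : Fin k → Eu κ → ℝ) (τ : Fin k → ℝ) : Prop where
  nonneg : ∀ j, 0 ≤ τ j
  le : ∀ s : Fin k → ℝ, (∀ j, 0 ≤ s j) → V F s ≤ V F 1 * Real.exp (∑ j, τ j * (s j - 1))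

theorem V1_pos (h : Fam F) : 0 < V F 1 := V_pos h fun _ => one_pos

theorem tail (h : Fam F) {τ : Fin k → ℝ} (hτ : Tau F τ) (j : Fin k) {t : ℝ} (ht : 0 < t) :
    (volume.restrict (lev F 1)) {x | t ≤ τ j * (1 - F j x)} ≤
      ENNReal.ofReal (V F 1 * Real.exp (-t)) := by
  rcases eq_or_lt_of_le (hτ.nonneg j) with h0 | h0
  · have e : {x : Eu κ | t ≤ τ j * (1 - F j x)} = ∅ := by
      ext x
      simp only [mem_ofPred_eq, mem_empty_iff_false, iff_false, not_le]
      rw [← h0, zero_mul]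
      exact ht
    rw [e, measure_empty]
    exact zero_le
  rw [Measure.restrict_apply' (lev_meas h 1)]
  set s : Fin k → ℝ := Function.update 1 j (1 - t / τ j) with hs
  have hsub : {x : Eu κ | t ≤ τ j * (1 - F j x)} ∩ lev F 1 ⊆ lev F s := by
    rintro x ⟨hx1, hx2⟩ i
    by_cases hij : i = j
    · rw [hij, hs, Function.update_self]
      have hx1' : t ≤ τ j * (1 - F j x) := hx1
      have h1 : t / τ j ≤ 1 - F j x := by
        rw [div_le_iff₀ h0]
        linarith
      linarith
    · rw [hs, Function.update_of_ne hij]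
      exact hx2 i
  refine (measure_mono hsub).trans ?_
  rcases lt_or_ge (1 - t / τ j) 0 with hneg | hpos
  · have e : lev F s = ∅ := by
      ext x
      simp only [mem_empty_iff_false, iff_false]
      intro hx
      have h1 := hx j
      rw [hs, Function.update_self] at h1
      have h2 := h.nonneg j x
      linarith
    rw [e, measure_empty]
    exact zero_le
  · have hs0 : ∀ i, 0 ≤ s i := by
      intro i
      by_cases hij : i = j
      · rw [hij, hs, Function.update_self]
        exact hpos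
      · rw [hs, Function.update_of_ne hij]
        exact zero_le_one
    have h1 := hτ.le s hs0
    have h2 : ∑ i, τ i * (s i - 1) = -t := by
      rw [Finset.sum_eq_single j]
      · rw [hs, Function.update_self]
        field_simp
        ring
      · intro i _ hij
        rw [hs, Function.update_of_ne hij, Pi.one_apply]
        ring
      · intro h
        exact absurd (Finset.mem_univ j) h
    rw [h2] at h1
    rw [← V_ofReal h s]
    exact ENNReal.ofReal_le_ofReal h1

theorem exp_half (h : Fam F) {τ : Fin k → ℝ} (hτ : Tau F τ) (j : Fin k) :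
    ∫ x in lev F 1, Real.exp (τ j * (1 - F j x) / 2) ≤ 2 * V F 1 := by
  have hc : Continuous fun x => τ j * (1 - F j x) := by
    have := h.cont j
    fun_prop
  have hK := lev_meas h 1
  have hnn : ∀ x ∈ lev F 1, 0 ≤ τ j * (1 - F j x) := fun x hx => by
    have h1 : F j x ≤ 1 := hx j
    exact mul_nonneg (hτ.nonneg j) (by linarith)
  have hlc := lintegral_comp_eq_lintegral_meas_le_mul (volume.restrict (lev F 1))
    (f := fun x => τ j * (1 - F j x)) (g := fun t => Real.exp (t / 2) / 2)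
    ((ae_restrict_iff' hK).2 (Eventually.of_forall hnn)) hc.aemeasurable
    (fun t _ => (by fun_prop : Continuous fun t : ℝ => Real.exp (t / 2) / 2).intervalIntegrable _ _)
    (Eventually.of_forall fun t => by positivity)
  have hint : ∀ a : ℝ, ∫ t in (0 : ℝ)..a, Real.exp (t / 2) / 2 = Real.exp (a / 2) - 1 := by
    intro a
    have h1 : ∀ t : ℝ, HasDerivAt (fun t : ℝ => Real.exp (t / 2)) (Real.exp (t / 2) / 2) t := by
      intro t
      have h2 := ((hasDerivAt_id t).div_const 2).exp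
      simpa [mul_comm, div_eq_mul_inv] using h2
    rw [intervalIntegral.integral_eq_sub_of_hasDerivAt (fun t _ => h1 t)
      ((by fun_prop : Continuous fun t : ℝ => Real.exp (t / 2) / 2).intervalIntegrable _ _)]
    simp
  simp only [hint] at hlc
  have hub : ∫⁻ t in Ioi (0 : ℝ), (volume.restrict (lev F 1)) {x | t ≤ τ j * (1 - F j x)} *
      ENNReal.ofReal (Real.exp (t / 2) / 2) ≤ ENNReal.ofReal (V F 1) := by
    have h1 : ∫⁻ t in Ioi (0 : ℝ), (volume.restrict (lev F 1)) {x | t ≤ τ j * (1 - F j x)} *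
        ENNReal.ofReal (Real.exp (t / 2) / 2) ≤
        ∫⁻ t in Ioi (0 : ℝ), ENNReal.ofReal (V F 1 / 2 * Real.exp (-(1 / 2) * t)) := by
      refine setLIntegral_mono (by fun_prop) fun t ht => ?_
      refine (mul_le_mul_left (tail h hτ j ht) _).trans ?_
      rw [← ENNReal.ofReal_mul (by have := V1_pos h; positivity)]
      refine ENNReal.ofReal_le_ofReal (le_of_eq ?_)
      have e : Real.exp (-(1 / 2) * t) = Real.exp (-t) * Real.exp (t / 2) := by
        rw [← Real.exp_add]
        congr 1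
        ring
      rw [e]
      ring
    refine h1.trans ?_
    rw [← ofReal_integral_eq_lintegral_ofReal
      ((integrableOn_exp_mul_Ioi (by norm_num : (-(1 / 2) : ℝ) < 0) 0).const_mul _)
      (Eventually.of_forall fun t => by have := V1_pos h; positivity)]
    rw [integral_const_mul, integral_exp_mul_Ioi (by norm_num : (-(1 / 2) : ℝ) < 0)]
    refine ENNReal.ofReal_le_ofReal (le_of_eq ?_)
    rw [mul_zero, Real.exp_zero]
    ring
  rw [← hlc] at hub
  have hci : IntegrableOn (fun x => Real.exp (τ j * (1 - F j x) / 2)) (lev F 1) :=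
    (by fun_prop : Continuous fun x => Real.exp (τ j * (1 - F j x) / 2)).continuousOn.integrableOn_compact
      (lev_compact h 1)
  have hci' : IntegrableOn (fun x => Real.exp (τ j * (1 - F j x) / 2) - 1) (lev F 1) :=
    hci.sub (integrableOn_const (lev_lt_top h 1).ne)
  have h3 : ∫ x in lev F 1, (Real.exp (τ j * (1 - F j x) / 2) - 1) ≤ V F 1 := by
    rw [← ofReal_integral_eq_lintegral_ofReal hci'
      ((ae_restrict_iff' hK).2 (Eventually.of_forall fun x hx => by
        have := hnn x hx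
        have h2 : 1 ≤ Real.exp (τ j * (1 - F j x) / 2) := Real.one_le_exp (by linarith)
        simpa using h2))] at hub
    exact (ENNReal.ofReal_le_ofReal_iff (V1_pos h).le).1 hub
  rw [integral_sub hci (integrableOn_const (lev_lt_top h 1).ne), setIntegral_const, smul_eq_mul,
    mul_one] at h3
  have h4 : volume.real (lev F 1) = V F 1 := rfl
  rw [h4] at h3
  linarith

/-- the rates -/
noncomputable def sig (τ : Fin k → ℝ) (j : Fin k) : ℝ := τ j + 1

/-- the exponent -/
noncomputable def ex (F : Fin k → Eu κ → ℝ) (τ : Fin k → ℝ) (x : Eu κ) : ℝ :=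
  ∑ j, sig τ j * (1 - F j x) / (2 * k)

theorem ex_cont (h : Fam F) (τ : Fin k → ℝ) : Continuous (ex F τ) := by
  unfold ex
  refine continuous_finsetSum _ fun j _ => ?_
  have := h.cont j
  fun_prop

theorem exp_ex (h : Fam F) {τ : Fin k → ℝ} (hτ : Tau F τ) (hk : 0 < k) :
    ∫ x in lev F 1, Real.exp (ex F τ x) ≤ 4 * V F 1 := by
  have hk0 : (0 : ℝ) < k := Nat.cast_pos.2 hk
  have hpt : ∀ x ∈ lev F 1, Real.exp (ex F τ x) ≤
      ∑ j : Fin k, (2 / k) * Real.exp (τ j * (1 - F j x) / 2) := by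
    intro x hx
    have h1 : ex F τ x ≤ 1 / 2 + ∑ j : Fin k, (1 / k : ℝ) * (τ j * (1 - F j x) / 2) := by
      unfold ex sig
      have h2 : ∀ j : Fin k, (τ j + 1) * (1 - F j x) / (2 * k) ≤
          (1 / k : ℝ) * (τ j * (1 - F j x) / 2) + 1 / (2 * k) := by
        intro j
        have h3 := h.nonneg j x
        have h4 : (τ j + 1) * (1 - F j x) / (2 * k) =
            (1 / k : ℝ) * (τ j * (1 - F j x) / 2) + (1 - F j x) / (2 * k) := by
          field_simp
        rw [h4]
        gcongr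
        linarith
      have h5 := Finset.sum_le_sum fun j (_ : j ∈ Finset.univ) => h2 j
      refine h5.trans (le_of_eq ?_)
      rw [Finset.sum_add_distrib, Finset.sum_const, Finset.card_univ, Fintype.card_fin,
        nsmul_eq_mul]
      field_simp
      ring
    have h6 : Real.exp (∑ j : Fin k, (1 / k : ℝ) • (τ j * (1 - F j x) / 2)) ≤
        ∑ j : Fin k, (1 / k : ℝ) • Real.exp (τ j * (1 - F j x) / 2) := by
      refine convexOn_exp.map_sum_le (fun j _ => by positivity) ?_ fun j _ => mem_univ _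
      rw [Finset.sum_const, Finset.card_univ, Fintype.card_fin, nsmul_eq_mul]
      field_simp
    simp only [smul_eq_mul] at h6
    have h7 : Real.exp (1 / 2 : ℝ) ≤ 2 := by
      have h8 : Real.exp 1 ≤ 4 := by
        have := Real.exp_one_lt_d9
        linarith
      have h9 : Real.exp (1 / 2 : ℝ) ^ 2 = Real.exp 1 := by
        rw [← Real.exp_nat_mul]
        norm_num
      nlinarith [Real.exp_pos (1 / 2 : ℝ)]
    calc Real.exp (ex F τ x) ≤
          Real.exp (1 / 2 + ∑ j : Fin k, (1 / k : ℝ) * (τ j * (1 - F j x) / 2)) :=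
          Real.exp_le_exp.2 h1
      _ = Real.exp (1 / 2) * Real.exp (∑ j : Fin k, (1 / k : ℝ) * (τ j * (1 - F j x) / 2)) :=
          Real.exp_add _ _
      _ ≤ 2 * ∑ j : Fin k, (1 / k : ℝ) * Real.exp (τ j * (1 - F j x) / 2) :=
          mul_le_mul h7 h6 (Real.exp_pos _).le (by norm_num)
      _ = _ := by
          rw [Finset.mul_sum]
          refine Finset.sum_congr rfl fun j _ => ?_
          ring
  have hci : ∀ j, IntegrableOn (fun x => (2 / k : ℝ) * Real.exp (τ j * (1 - F j x) / 2)) (lev F 1) := by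
    intro j
    have := h.cont j
    exact (by fun_prop : Continuous fun x => (2 / k : ℝ) *
      Real.exp (τ j * (1 - F j x) / 2)).continuousOn.integrableOn_compact (lev_compact h 1)
  have hcx : IntegrableOn (fun x => Real.exp (ex F τ x)) (lev F 1) :=
    ((ex_cont h τ).rexp).continuousOn.integrableOn_compact (lev_compact h 1)
  refine (setIntegral_mono_on hcx (integrable_finsetSum _ fun j _ => hci j) (lev_meas h 1) hpt).trans ?_
  rw [integral_finsetSum _ fun j _ => hci j]
  have h1 : ∀ j : Fin k, ∫ x in lev F 1, (2 / k : ℝ) * Real.exp (τ j * (1 - F j x) / 2) ≤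
      4 / k * V F 1 := by
    intro j
    rw [integral_const_mul]
    have := mul_le_mul_of_nonneg_left (exp_half h hτ j) (by positivity : (0 : ℝ) ≤ 2 / k)
    refine this.trans (le_of_eq ?_)
    ring
  refine (Finset.sum_le_sum fun j _ => h1 j).trans (le_of_eq ?_)
  rw [Finset.sum_const, Finset.card_univ, Fintype.card_fin, nsmul_eq_mul]
  field_simp

/-- the constraints: `F j` is even, uniformly convex and uniformly smooth with respect to the quadratic
form `‖P j x‖²` -/
structure Sys (F : Fin k → Eu κ → ℝ) {b : Fin k → Type} [∀ j, Fintype (b j)]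
    (P : ∀ j, Eu κ →L[ℝ] Eu (b j)) (K : ℝ) : Prop extends Fam F where
  one_le : 1 ≤ K
  even : ∀ j x, F j (-x) = F j x
  strong : ∀ j x y, F j ((1 / 2 : ℝ) • (x + y)) + ‖P j (x - y)‖ ^ 2 / 4 ≤ (F j x + F j y) / 2
  smooth : ∀ j x v, F j (x + v) + F j (x - v) ≤ 2 * F j x + 2 * K * ‖P j v‖ ^ 2
  diff : ∀ j, ContDiff ℝ 1 (F j)
  grad : ∀ j v x u, |fderiv ℝ (fun x => F j (x + v) - F j (x - v)) x u| ≤
    4 * K * ‖P j v‖ * ‖P j u‖
  inj : ∀ z, (∀ j, P j z = 0) → z = 0

section sys

variable {b : Fin k → Type} [∀ j, Fintype (b j)] {P : ∀ j, Eu κ →L[ℝ] Eu (b j)} {K : ℝ}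

/-- square roots of positive definite quadratic forms -/
theorem exists_sqrt {W : Type*} [NormedAddCommGroup W] [InnerProductSpace ℝ W]
    [FiniteDimensional ℝ W] (L : Eu κ →ₗ[ℝ] W) (hL : ∀ z, L z = 0 → z = 0) :
    ∃ B : Eu κ ≃L[ℝ] Eu κ, ∀ z, ‖B z‖ = ‖L z‖ := by
  have hker : LinearMap.ker L = ⊥ := by
    rw [LinearMap.ker_eq_bot']
    exact hL
  have hinj : Function.Injective L := LinearMap.ker_eq_bot.1 hker
  have hfr : Module.finrank ℝ (LinearMap.range L) = Fintype.card κ := by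
    rw [LinearMap.finrank_range_of_inj hinj, finrank_euclideanSpace]
  have e1 : LinearMap.range L ≃ₗᵢ[ℝ] Eu κ :=
    ((stdOrthonormalBasis ℝ (LinearMap.range L)).reindex
      (Fintype.equivOfCardEq (by rw [Fintype.card_fin, hfr]))).repr
  let e2 : Eu κ ≃ₗ[ℝ] LinearMap.range L := LinearEquiv.ofInjective L hinj
  refine ⟨(e2.trans e1.toLinearEquiv).toContinuousLinearEquiv, fun z => ?_⟩
  show ‖e1 (e2 z)‖ = ‖L z‖
  rw [e1.norm_map]
  rfl

theorem sig_ge {τ : Fin k → ℝ} (hτ : ∀ j, 0 ≤ τ j) (j : Fin k) : 1 ≤ sig τ j := by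
  have := hτ j
  unfold sig
  linarith

/-- the linear change of coordinates -/
theorem exists_S (hS : Sys F P K) (hk : 0 < k) {τ : Fin k → ℝ} (hτ : ∀ j, 0 ≤ τ j) :
    ∃ S : Eu κ ≃L[ℝ] Eu κ, ∀ z, ‖S.symm z‖ ^ 2 = ∑ j, sig τ j / k * ‖P j z‖ ^ 2 := by
  have hk0 : (0 : ℝ) < k := Nat.cast_pos.2 hk
  have hs : ∀ j, 0 < sig τ j / k := fun j => div_pos (by have := sig_ge hτ j; linarith) hk0
  let L : Eu κ →ₗ[ℝ] PiLp 2 (fun j => Eu (b j)) :=
    { toFun := fun z => WithLp.toLp 2 fun j => Real.sqrt (sig τ j / k) • P j z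
      map_add' := fun x y => by
        ext j
        simp
      map_smul' := fun c x => by
        ext j
        simp [smul_smul, mul_comm] }
  have hLn : ∀ z, ‖L z‖ ^ 2 = ∑ j, sig τ j / k * ‖P j z‖ ^ 2 := by
    intro z
    rw [PiLp.norm_sq_eq_of_L2]
    refine Finset.sum_congr rfl fun j _ => ?_
    show ‖Real.sqrt (sig τ j / k) • P j z‖ ^ 2 = _
    rw [norm_smul, mul_pow, Real.norm_eq_abs, sq_abs, Real.sq_sqrt (hs j).le]
  obtain ⟨B, hB⟩ := exists_sqrt L (fun z hz => by
    refine hS.inj z fun j => ?_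
    have h1 := hLn z
    rw [hz, norm_zero, zero_pow two_ne_zero] at h1
    have h2 := (Finset.sum_eq_zero_iff_of_nonneg fun j _ => by
      have := (hs j).le
      positivity).1 h1.symm j (Finset.mem_univ j)
    rcases mul_eq_zero.1 h2 with h3 | h3
    · exact absurd h3 (hs j).ne'
    · exact norm_eq_zero.1 (pow_eq_zero_iff two_ne_zero |>.1 h3))
  refine ⟨B.symm, fun z => ?_⟩
  rw [ContinuousLinearEquiv.symm_symm, hB, hLn]

/-- the weight -/
noncomputable def wt (F : Fin k → Eu κ → ℝ) (τ : Fin k → ℝ) : Eu κ → ℝ :=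
  (lev F 1).indicator fun x => Real.exp (ex F τ x)

theorem wt_nonneg (τ : Fin k → ℝ) (x : Eu κ) : 0 ≤ wt F τ x :=
  indicator_nonneg (fun _ _ => (Real.exp_pos _).le) x

theorem wt_meas (h : Fam F) (τ : Fin k → ℝ) : Measurable (wt F τ) :=
  ((ex_cont h τ).rexp.measurable).indicator (lev_meas h 1)

theorem ex_nonneg {τ : Fin k → ℝ} (hτ : ∀ j, 0 ≤ τ j) {x : Eu κ} (hx : x ∈ lev F 1) :
    0 ≤ ex F τ x := by
  refine Finset.sum_nonneg fun j _ => ?_
  have h1 : F j x ≤ 1 := hx j
  have h2 := sig_ge hτ j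
  have h3 : 0 ≤ sig τ j * (1 - F j x) := mul_nonneg (by linarith) (by linarith)
  positivity

theorem wt_ge {τ : Fin k → ℝ} (hτ : ∀ j, 0 ≤ τ j) {x : Eu κ} (hx : x ∈ lev F 1) :
    1 ≤ wt F τ x := by
  unfold wt
  rw [indicator_of_mem hx]
  exact Real.one_le_exp (ex_nonneg hτ hx)

theorem wt_bdd (h : Fam F) (τ : Fin k → ℝ) : ∃ B, ∀ x, wt F τ x ≤ B := by
  obtain ⟨B, hB⟩ := (lev_compact h 1).exists_bound_of_continuousOn (ex_cont h τ).rexp.continuousOn
  refine ⟨max B 0, fun x => ?_⟩
  unfold wt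
  by_cases hx : x ∈ lev F 1
  · rw [indicator_of_mem hx]
    exact (le_abs_self _).trans ((hB x hx).trans (le_max_left _ _))
  · rw [indicator_of_notMem hx]
    exact le_max_right _ _

theorem wt_supp (h : Fam F) (τ : Fin k → ℝ) : Pool.Agent.H212R2.KLS.Bdd (wt F τ) := by
  obtain ⟨R, hR⟩ := (lev_compact h 1).isBounded.exists_norm_le
  refine ⟨R, fun x hx => ?_⟩
  unfold wt
  refine indicator_of_notMem (fun hm => ?_) _
  have := hR x hm
  linarith

theorem wt_mid (hS : Sys F P K) (hk : 0 < k) {τ : Fin k → ℝ} (hτ : ∀ j, 0 ≤ τ j)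
    {S : Eu κ ≃L[ℝ] Eu κ} (hs : ∀ z, ‖S.symm z‖ ^ 2 = ∑ j, sig τ j / k * ‖P j z‖ ^ 2)
    (x y : Eu κ) : wt F τ x * wt F τ y ≤ (wt F τ ((1 / 2 : ℝ) • (x + y))) ^ 2 *
      Real.exp (-(‖S.symm (x - y)‖ ^ 2 / 4)) := by
  have hk0 : (0 : ℝ) < k := Nat.cast_pos.2 hk
  have hR : 0 ≤ (wt F τ ((1 / 2 : ℝ) • (x + y))) ^ 2 * Real.exp (-(‖S.symm (x - y)‖ ^ 2 / 4)) := by
    positivity
  by_cases hx : x ∈ lev F 1
  · by_cases hy : y ∈ lev F 1
    · have hm : (1 / 2 : ℝ) • (x + y) ∈ lev F 1 := by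
        rw [smul_add]
        exact lev_convex hS.toFam 1 hx hy (by norm_num) (by norm_num) (by norm_num)
      unfold wt
      rw [indicator_of_mem hx, indicator_of_mem hy, indicator_of_mem hm, ← Real.exp_add,
        ← Real.exp_nat_mul, ← Real.exp_add]
      refine Real.exp_le_exp.2 ?_
      rw [hs]
      unfold ex
      rw [Finset.mul_sum, Finset.sum_div, ← Finset.sum_add_distrib, ← sub_eq_add_neg,
        ← Finset.sum_sub_distrib]
      refine Finset.sum_le_sum fun j _ => ?_
      have h1 := hS.strong j x y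
      have h2 := sig_ge hτ j
      have h3 : 0 ≤ sig τ j / (2 * k) := by positivity
      have h4 := mul_le_mul_of_nonneg_left h1 h3
      have e1 : sig τ j * (1 - F j x) / (2 * k) + sig τ j * (1 - F j y) / (2 * k) =
        sig τ j / (2 * k) * (2 - (F j x + F j y)) := by ring
      have e2 : ((2 : ℕ) : ℝ) * (sig τ j * (1 - F j ((1 / 2 : ℝ) • (x + y))) / (2 * k)) -
        sig τ j / k * ‖P j (x - y)‖ ^ 2 / 4 =
        sig τ j / (2 * k) * (2 - 2 * (F j ((1 / 2 : ℝ) • (x + y)) + ‖P j (x - y)‖ ^ 2 / 4)) := by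
        push_cast
        field_simp
        ring
      rw [e1, e2]
      refine mul_le_mul_of_nonneg_left ?_ h3
      linarith
    · have : wt F τ y = 0 := indicator_of_notMem hy _
      rw [this, mul_zero]
      exact hR
  · have : wt F τ x = 0 := indicator_of_notMem hx _
    rw [this, zero_mul]
    exact hR

/-- **variances of functions with bounded gradients** -/
theorem var_bound (hS : Sys F P K) (hk : 0 < k) {τ : Fin k → ℝ} (hτ : Tau F τ)
    {S : Eu κ ≃L[ℝ] Eu κ} (hs : ∀ z, ‖S.symm z‖ ^ 2 = ∑ j, sig τ j / k * ‖P j z‖ ^ 2)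
    {f : Eu κ → ℝ} (hf : ContDiff ℝ 1 f) {B : ℝ}
    (hB : ∀ x, ‖(fderiv ℝ f x).comp (S : Eu κ →L[ℝ] Eu κ)‖ ≤ B) :
    ∃ c : ℝ, ∫ x in lev F 1, (f x - c) ^ 2 ≤ 4 * B ^ 2 * V F 1 := by
  have hF := hS.toFam
  obtain ⟨c, hc⟩ := Pool.Agent.H888R2.KT.bl_lin (wt F τ) (wt_nonneg τ) (wt_meas hF τ)
    (wt_bdd hF τ) (wt_supp hF τ) S (wt_mid hS hk hτ.nonneg hs) f hf
  refine ⟨c, ?_⟩
  have hK := lev_meas hF 1
  have hcf : Continuous f := hf.continuous
  have hce := (ex_cont hF τ).rexp
  have e1 : ∫ x, (f x - c) ^ 2 * wt F τ x = ∫ x in lev F 1, (f x - c) ^ 2 * Real.exp (ex F τ x) := by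
    rw [← integral_indicator hK]
    refine integral_congr_ae (Eventually.of_forall fun x => ?_)
    unfold wt
    by_cases hx : x ∈ lev F 1
    · simp only [indicator_of_mem hx]
    · simp only [indicator_of_notMem hx, mul_zero]
  have h1 : ∫ x in lev F 1, (f x - c) ^ 2 ≤ ∫ x in lev F 1, (f x - c) ^ 2 * Real.exp (ex F τ x) := by
    refine setIntegral_mono_on
      ((by fun_prop : Continuous fun x => (f x - c) ^ 2).continuousOn.integrableOn_compact
        (lev_compact hF 1))
      ((by fun_prop : Continuous fun x => (f x - c) ^ 2 * Real.exp (ex F τ x)).continuousOn.integrableOn_compact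
        (lev_compact hF 1)) hK fun x hx => ?_
    have := Real.one_le_exp (ex_nonneg hτ.nonneg hx)
    nlinarith [sq_nonneg (f x - c)]
  have e2 : ∫ x, wt F τ x = ∫ x in lev F 1, Real.exp (ex F τ x) := by
    unfold wt
    rw [integral_indicator hK]
  have hwi : Integrable (wt F τ) := by
    unfold wt
    rw [integrable_indicator_iff hK]
    exact hce.continuousOn.integrableOn_compact (lev_compact hF 1)
  have hB0 : 0 ≤ B := (norm_nonneg _).trans (hB 0)
  have h2 : ∫ x, ‖(fderiv ℝ f x).comp (S : Eu κ →L[ℝ] Eu κ)‖ ^ 2 * wt F τ x ≤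
      ∫ x, B ^ 2 * wt F τ x := by
    refine integral_mono_of_nonneg (Eventually.of_forall fun x => ?_) (hwi.const_mul _)
      (Eventually.of_forall fun x => ?_)
    · exact mul_nonneg (sq_nonneg _) (wt_nonneg τ x)
    · exact mul_le_mul_of_nonneg_right (pow_le_pow_left₀ (norm_nonneg _) (hB x) 2) (wt_nonneg τ x)
  rw [integral_const_mul, e2] at h2
  have h3 := mul_le_mul_of_nonneg_left (exp_ex hF hτ hk) (sq_nonneg B)
  rw [e1] at hc
  calc ∫ x in lev F 1, (f x - c) ^ 2 ≤ _ := h1
    _ ≤ _ := hc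
    _ ≤ _ := h2
    _ ≤ _ := h3
    _ = _ := by ring

end sys

end Pool.Agent.H776.FE
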