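import Pool.Agent.H776.FE2

/-!
# Intersections of few sublevel sets, III: translations and the lower bound of the variances
-/

set_option autoImplicit false

namespace Pool.Agent.H776.FE

open MeasureTheory Set Filter Topology
open scoped ENNReal InnerProductSpace

variable {κ : Type} [Fintype κ] {k : ℕ} {F : Fin k → Eu κ → ℝ}
variable {b : Fin k → Type} [∀ j, Fintype (b j)] {P : ∀ j, Eu κ →L[ℝ] Eu (b j)} {K : ℝ}

/-- the difference of two translates -/
def dif (F : Fin k → Eu κ → ℝ) (v : Eu κ) (j : Fin k) (x : Eu κ) : ℝ := F j (x + v) - F j (x - v)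

theorem dif_diff (hS : Sys F P K) (v : Eu κ) (j : Fin k) : ContDiff ℝ 1 (dif F v j) := by
  have h := hS.diff j
  exact (h.comp (contDiff_id.add contDiff_const)).sub (h.comp (contDiff_id.sub contDiff_const))

theorem dif_odd (hS : Sys F P K) (v : Eu κ) (j : Fin k) (x : Eu κ) :
    dif F v j (-x) = -dif F v j x := by
  unfold dif
  have e1 : -x + v = -(x - v) := by abel
  have e2 : -x - v = -(x + v) := by abel
  rw [e1, e2, hS.even, hS.even]
  ring

theorem neg_lev (hS : Sys F P K) {s : Fin k → ℝ} {x : Eu κ} (hx : x ∈ lev F s) : -x ∈ lev F s :=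
  fun j => by rw [hS.even]; exact hx j

/-- integrals of odd functions -/
theorem int_odd {A : Set (Eu κ)} (hA : ∀ x ∈ A, -x ∈ A) (hm : MeasurableSet A) {g : Eu κ → ℝ}
    (hg : ∀ x, g (-x) = -g x) : ∫ x in A, g x = 0 := by
  have h1 : ∫ x in A, g x = ∫ x, A.indicator g x := (integral_indicator hm).symm
  have h2 : ∫ x, A.indicator g x = ∫ x, A.indicator g (-x) := (integral_neg_eq_self _ _).symm
  have h3 : ∀ x, A.indicator g (-x) = -(A.indicator g x) := by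
    intro x
    by_cases hx : x ∈ A
    · rw [indicator_of_mem hx, indicator_of_mem (hA x hx), hg]
    · have hx' : -x ∉ A := fun h => hx (by have := hA _ h; rwa [neg_neg] at this)
      rw [indicator_of_notMem hx, indicator_of_notMem hx', neg_zero]
  simp only [h3] at h2
  rw [integral_neg] at h2
  rw [h1]
  linarith

theorem int_sq_le {A : Set (Eu κ)} (hA : IsCompact A) {g : Eu κ → ℝ} (hg : Continuous g)
    (h0 : ∫ x in A, g x = 0) (c : ℝ) : ∫ x in A, g x ^ 2 ≤ ∫ x in A, (g x - c) ^ 2 := by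
  have h1 : IntegrableOn (fun x => g x ^ 2) A := (by fun_prop : Continuous fun x =>
    g x ^ 2).continuousOn.integrableOn_compact hA
  have h2 : IntegrableOn g A := hg.continuousOn.integrableOn_compact hA
  have h3 : IntegrableOn (fun _ : Eu κ => c ^ 2) A := integrableOn_const hA.measure_lt_top.ne
  have e : ∀ x, (g x - c) ^ 2 = (g x ^ 2 - 2 * c * g x) + c ^ 2 := fun x => by ring
  simp only [e]
  have h4 : IntegrableOn (fun x => g x ^ 2 - 2 * c * g x) A := h1.sub (h2.const_mul _)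
  rw [integral_add h4 h3, integral_sub h1 (h2.const_mul (2 * c)),
    integral_const_mul, h0, setIntegral_const, smul_eq_mul]
  have : 0 ≤ volume.real A * c ^ 2 := by positivity
  linarith

theorem P_bound (hk : 0 < k) {τ : Fin k → ℝ} (hτ : ∀ j, 0 ≤ τ j) {S : Eu κ ≃L[ℝ] Eu κ}
    (hs : ∀ z, ‖S.symm z‖ ^ 2 = ∑ j, sig τ j / k * ‖P j z‖ ^ 2) (j : Fin k) (z : Eu κ) :
    ‖P j z‖ ^ 2 ≤ k / sig τ j * ‖S.symm z‖ ^ 2 := by
  have hk0 : (0 : ℝ) < k := Nat.cast_pos.2 hk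
  have h1 := sig_ge hτ j
  have h0 : 0 < sig τ j := by linarith
  have h2 : sig τ j / k * ‖P j z‖ ^ 2 ≤ ‖S.symm z‖ ^ 2 := by
    rw [hs]
    refine Finset.single_le_sum (f := fun j => sig τ j / k * ‖P j z‖ ^ 2) (fun i _ => ?_)
      (Finset.mem_univ j)
    have := sig_ge hτ i
    positivity
  have h3 := mul_le_mul_of_nonneg_left h2 (by positivity : (0 : ℝ) ≤ k / sig τ j)
  have e : (k : ℝ) / sig τ j * (sig τ j / k * ‖P j z‖ ^ 2) = ‖P j z‖ ^ 2 := by field_simp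
  rwa [e] at h3

/-- the second moments of the differences -/
theorem dif_sq (hS : Sys F P K) (hk : 0 < k) {τ : Fin k → ℝ} (hτ : Tau F τ)
    {S : Eu κ ≃L[ℝ] Eu κ} (hs : ∀ z, ‖S.symm z‖ ^ 2 = ∑ j, sig τ j / k * ‖P j z‖ ^ 2)
    {η : ℝ} (hη : 0 ≤ η) {v : Eu κ} (hv : ‖S.symm v‖ ≤ η) (j : Fin k) :
    ∫ x in lev F 1, dif F v j x ^ 2 ≤ 64 * K ^ 2 * k ^ 2 * η ^ 2 / sig τ j ^ 2 * V F 1 := by
  have hF := hS.toFam
  have hk0 : (0 : ℝ) < k := Nat.cast_pos.2 hk
  have hK1 := hS.one_le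
  have hK0 : 0 < K := by linarith
  have h1 := sig_ge hτ.nonneg j
  have h0 : 0 < sig τ j := by linarith
  have hgr : ∀ x, ‖(fderiv ℝ (dif F v j) x).comp (S : Eu κ →L[ℝ] Eu κ)‖ ≤
      4 * K * k * η / sig τ j := by
    intro x
    refine ContinuousLinearMap.opNorm_le_bound _ (by positivity) fun u => ?_
    rw [ContinuousLinearMap.comp_apply, Real.norm_eq_abs]
    have h2 := hS.grad j v x (S u)
    refine h2.trans ?_
    have h3 := P_bound hk hτ.nonneg hs j v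
    have h4 := P_bound hk hτ.nonneg hs j (S u)
    rw [ContinuousLinearEquiv.symm_apply_apply] at h4
    have h5 : (‖P j v‖ * ‖P j (S u)‖) ^ 2 ≤ (k / sig τ j * η * ‖u‖) ^ 2 := by
      rw [mul_pow]
      have h6 : ‖P j v‖ ^ 2 ≤ k / sig τ j * η ^ 2 := h3.trans (by gcongr)
      calc ‖P j v‖ ^ 2 * ‖P j (S u)‖ ^ 2 ≤ (k / sig τ j * η ^ 2) * (k / sig τ j * ‖u‖ ^ 2) :=
            mul_le_mul h6 h4 (sq_nonneg _) (by positivity)
        _ = _ := by ring
    have h7 : ‖P j v‖ * ‖P j (S u)‖ ≤ k / sig τ j * η * ‖u‖ :=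
      (abs_le_of_sq_le_sq' h5 (by positivity)).2
    calc 4 * K * ‖P j v‖ * ‖P j (S u)‖ = 4 * K * (‖P j v‖ * ‖P j (S u)‖) := by ring
      _ ≤ 4 * K * (k / sig τ j * η * ‖u‖) := by gcongr
      _ = _ := by ring
  obtain ⟨c, hc⟩ := var_bound hS hk hτ hs (dif_diff hS v j) hgr
  have h2 : ∫ x in lev F 1, dif F v j x = 0 :=
    int_odd (fun x hx => neg_lev hS hx) (lev_meas hF 1) (dif_odd hS v j)
  refine (int_sq_le (lev_compact hF 1) (dif_diff hS v j).continuous h2 c).trans (hc.trans (le_of_eq ?_))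
  ring

/-- the good set -/
def good (F : Fin k → Eu κ → ℝ) (τ : Fin k → ℝ) (v : Eu κ) : Set (Eu κ) :=
  {x | x ∈ lev F 1 ∧ ∀ j, |dif F v j x| ≤ 1 / (k * sig τ j)}

/-- the larger levels -/
noncomputable def up (τ : Fin k → ℝ) (j : Fin k) : ℝ := 1 + 1 / (k * sig τ j)

theorem good_meas (hS : Sys F P K) (τ : Fin k → ℝ) (v : Eu κ) : MeasurableSet (good F τ v) := by
  have e : good F τ v = lev F 1 ∩ ⋂ j, {x | |dif F v j x| ≤ 1 / (k * sig τ j)} := by
    ext x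
    simp [good]
  rw [e]
  refine (lev_meas hS.toFam 1).inter (MeasurableSet.iInter fun j => ?_)
  exact (isClosed_le (dif_diff hS v j).continuous.abs continuous_const).measurableSet

theorem good_neg (hS : Sys F P K) {τ : Fin k → ℝ} {v x : Eu κ} (hx : x ∈ good F τ v) :
    -x ∈ good F τ v :=
  ⟨neg_lev hS hx.1, fun j => by rw [dif_odd hS, abs_neg]; exact hx.2 j⟩

/-- the real volume of a set of finite volume -/
theorem good_vol (hS : Sys F P K) (hk : 0 < k) {τ : Fin k → ℝ} (hτ : Tau F τ)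
    {S : Eu κ ≃L[ℝ] Eu κ} (hs : ∀ z, ‖S.symm z‖ ^ 2 = ∑ j, sig τ j / k * ‖P j z‖ ^ 2)
    {η : ℝ} (hη : 0 ≤ η) (hη2 : 128 * K ^ 2 * k ^ 5 * η ^ 2 ≤ 1) {v : Eu κ}
    (hv : ‖S.symm v‖ ≤ η) : V F 1 / 2 ≤ volume.real (good F τ v) := by
  have hF := hS.toFam
  have hk0 : (0 : ℝ) < k := Nat.cast_pos.2 hk
  have hV := V1_pos hF
  set bad : Fin k → Set (Eu κ) := fun j =>
    {x | (1 / (k * sig τ j)) ^ 2 ≤ dif F v j x ^ 2} ∩ lev F 1 with hbad
  have hb : ∀ j, volume.real (bad j) ≤ V F 1 / (2 * k) := by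
    intro j
    have h1 := sig_ge hτ.nonneg j
    have h0 : 0 < sig τ j := by linarith
    have hc := (dif_diff hS v j).continuous
    have h2 := mul_meas_ge_le_integral_of_nonneg (μ := volume.restrict (lev F 1))
      (f := fun x => dif F v j x ^ 2) (Eventually.of_forall fun x => sq_nonneg _)
      ((by fun_prop : Continuous fun x => dif F v j x ^ 2).continuousOn.integrableOn_compact
        (lev_compact hF 1)) ((1 / (k * sig τ j)) ^ 2)
    have e : (volume.restrict (lev F 1)).real {x | (1 / (k * sig τ j)) ^ 2 ≤ dif F v j x ^ 2} =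
        volume.real (bad j) := by
      rw [measureReal_def, measureReal_def, Measure.restrict_apply' (lev_meas hF 1)]
    rw [e] at h2
    have h3 := h2.trans (dif_sq hS hk hτ hs hη hv j)
    have h4 : (1 / (k * sig τ j)) ^ 2 * volume.real (bad j) ≤
        (1 / (k * sig τ j)) ^ 2 * (64 * K ^ 2 * k ^ 4 * η ^ 2 * V F 1) := by
      refine h3.trans (le_of_eq ?_)
      field_simp
    have h5 : volume.real (bad j) ≤ 64 * K ^ 2 * k ^ 4 * η ^ 2 * V F 1 :=
      le_of_mul_le_mul_left h4 (by positivity)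
    refine h5.trans ?_
    rw [le_div_iff₀ (by positivity)]
    calc 64 * K ^ 2 * k ^ 4 * η ^ 2 * V F 1 * (2 * k) = (128 * K ^ 2 * k ^ 5 * η ^ 2) * V F 1 := by ring
      _ ≤ 1 * V F 1 := by gcongr
      _ = _ := one_mul _
  have hcov : lev F 1 ⊆ good F τ v ∪ ⋃ j, bad j := by
    intro x hx
    by_cases h : ∀ j, |dif F v j x| ≤ 1 / (k * sig τ j)
    · exact Or.inl ⟨hx, h⟩
    · right
      push Not at h
      obtain ⟨j, hj⟩ := h
      refine mem_iUnion.2 ⟨j, ?_, hx⟩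
      have h1 := sig_ge hτ.nonneg j
      have h2 : (0 : ℝ) ≤ 1 / (k * sig τ j) := by positivity
      have h3 := pow_le_pow_left₀ h2 hj.le 2
      rw [sq_abs] at h3
      exact h3
  have hgf : volume (good F τ v) ≠ ⊤ :=
    ((measure_mono fun x hx => hx.1).trans_lt (lev_lt_top hF 1)).ne
  have hbf : volume (⋃ j, bad j) ≠ ⊤ :=
    ((measure_mono (iUnion_subset fun j => inter_subset_right)).trans_lt (lev_lt_top hF 1)).ne
  have h1 : V F 1 ≤ volume.real (good F τ v) + ∑ j, volume.real (bad j) := by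
    calc V F 1 = volume.real (lev F 1) := rfl
      _ ≤ volume.real (good F τ v ∪ ⋃ j, bad j) :=
          measureReal_mono hcov ((measure_union_lt_top hgf.lt_top hbf.lt_top).ne)
      _ ≤ volume.real (good F τ v) + volume.real (⋃ j, bad j) := measureReal_union_le _ _
      _ ≤ _ := by
          gcongr
          exact measureReal_iUnion_fintype_le _
  have h2 : ∑ j, volume.real (bad j) ≤ ∑ _j : Fin k, V F 1 / (2 * k) :=
    Finset.sum_le_sum fun j _ => hb j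
  rw [Finset.sum_const, Finset.card_univ, Fintype.card_fin, nsmul_eq_mul] at h2
  have h3 : (k : ℝ) * (V F 1 / (2 * k)) = V F 1 / 2 := by field_simp
  rw [h3] at h2
  linarith

theorem up_pos {τ : Fin k → ℝ} (hτ : ∀ j, 0 ≤ τ j) (j : Fin k) : 1 ≤ up τ j := by
  have h1 := sig_ge hτ j
  have h2 : (0 : ℝ) ≤ 1 / (k * sig τ j) := by positivity
  unfold up
  linarith

/-- translates of good points -/
theorem good_add (hS : Sys F P K) (hk : 0 < k) {τ : Fin k → ℝ} (hτ : Tau F τ)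
    {S : Eu κ ≃L[ℝ] Eu κ} (hs : ∀ z, ‖S.symm z‖ ^ 2 = ∑ j, sig τ j / k * ‖P j z‖ ^ 2)
    {η : ℝ} (hη2 : 128 * K ^ 2 * k ^ 5 * η ^ 2 ≤ 1) {v : Eu κ}
    (hv : ‖S.symm v‖ ≤ η) {x : Eu κ} (hx : x ∈ good F τ v) : x + v ∈ lev F (up τ) := by
  intro j
  have hk0 : (0 : ℝ) < k := Nat.cast_pos.2 hk
  have hk1 : (1 : ℝ) ≤ k := by exact_mod_cast hk
  have hK1 := hS.one_le
  have h1 := sig_ge hτ.nonneg j
  have h0 : 0 < sig τ j := by linarith
  have h2 := hS.smooth j x v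
  have h3 : F j x ≤ 1 := hx.1 j
  have h4 := hx.2 j
  have h5 := P_bound hk hτ.nonneg hs j v
  have h6 : dif F v j x ≤ 1 / (k * sig τ j) := (le_abs_self _).trans h4
  unfold dif at h6
  have h7 : K * ‖P j v‖ ^ 2 ≤ 1 / (2 * (k * sig τ j)) := by
    have h8 : ‖P j v‖ ^ 2 ≤ k / sig τ j * η ^ 2 := h5.trans (by gcongr)
    have h9 : K * ‖P j v‖ ^ 2 ≤ K * (k / sig τ j * η ^ 2) := by gcongr
    refine h9.trans ?_
    rw [le_div_iff₀ (by positivity)]
    have e : K * (k / sig τ j * η ^ 2) * (2 * (k * sig τ j)) = 2 * K * k ^ 2 * η ^ 2 := by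
      field_simp
    rw [e]
    have h10 : 2 * K * (k : ℝ) ^ 2 * η ^ 2 ≤ 128 * K ^ 2 * k ^ 5 * η ^ 2 := by
      have h11 : (k : ℝ) ^ 2 ≤ k ^ 5 := pow_le_pow_right₀ hk1 (by norm_num)
      have h12 : 2 * K ≤ 128 * K ^ 2 := by nlinarith
      have h13 : 2 * K * (k : ℝ) ^ 2 ≤ 128 * K ^ 2 * k ^ 5 :=
        mul_le_mul h12 h11 (by positivity) (by positivity)
      exact mul_le_mul_of_nonneg_right h13 (sq_nonneg _)
    linarith
  unfold up
  have e2 : 1 / (2 * (k * sig τ j)) = 1 / (k * sig τ j) / 2 := by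
    field_simp
  rw [e2] at h7
  linarith

theorem V_up (hS : Sys F P K) (hk : 0 < k) {τ : Fin k → ℝ} (hτ : Tau F τ) :
    V F (up τ) ≤ Real.exp 1 * V F 1 := by
  have hk0 : (0 : ℝ) < k := Nat.cast_pos.2 hk
  have h1 := hτ.le (up τ) fun j => by have := up_pos hτ.nonneg j; linarith
  have h2 : ∑ j, τ j * (up τ j - 1) ≤ 1 := by
    have h3 : ∀ j, τ j * (up τ j - 1) ≤ 1 / k := by
      intro j
      have h4 := sig_ge hτ.nonneg j
      have h5 : τ j ≤ sig τ j := by unfold sig; linarith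
      have e : τ j * (up τ j - 1) = (τ j / sig τ j) * (1 / k) := by
        unfold up
        field_simp
        ring
      rw [e]
      have h6 : τ j / sig τ j ≤ 1 := by
        rw [div_le_one (by linarith)]
        exact h5
      calc τ j / sig τ j * (1 / k) ≤ 1 * (1 / k) := by gcongr
        _ = _ := one_mul _
    refine (Finset.sum_le_sum fun j _ => h3 j).trans (le_of_eq ?_)
    rw [Finset.sum_const, Finset.card_univ, Fintype.card_fin, nsmul_eq_mul]
    field_simp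
  have h3 := V1_pos hS.toFam
  calc V F (up τ) ≤ _ := h1
    _ ≤ V F 1 * Real.exp 1 := by gcongr
    _ = _ := mul_comm _ _

/-- the part of the enlarged body in a halfspace -/
def hsp (F : Fin k → Eu κ → ℝ) (τ : Fin k → ℝ) (a : Eu κ) (t : ℝ) : Set (Eu κ) :=
  lev F (up τ) ∩ {x | t ≤ ⟪x, a⟫_ℝ}

theorem hsp_meas (hF : Fam F) (τ : Fin k → ℝ) (a : Eu κ) (t : ℝ) : MeasurableSet (hsp F τ a t) :=
  (lev_meas hF _).inter (isClosed_le continuous_const (by fun_prop)).measurableSet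

theorem hsp_fin (hF : Fam F) (τ : Fin k → ℝ) (a : Eu κ) (t : ℝ) : volume (hsp F τ a t) ≠ ⊤ :=
  ((measure_mono inter_subset_left).trans_lt (lev_lt_top hF _)).ne

theorem real_neg {A : Set (Eu κ)} (hA : MeasurableSet A) :
    volume.real ((fun x : Eu κ => -x) ⁻¹' A) = volume.real A := by
  rw [measureReal_def, measureReal_def,
    (Measure.measurePreserving_neg (volume : Measure (Eu κ))).measure_preimage hA.nullMeasurableSet]

/-- half of the volume -/
theorem half_vol {A B : Set (Eu κ)} (hB : MeasurableSet B) (hBf : volume B ≠ ⊤)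
    (h : ∀ x ∈ A, x ∈ B ∨ -x ∈ B) : volume.real A / 2 ≤ volume.real B := by
  have h1 : A ⊆ B ∪ (fun x : Eu κ => -x) ⁻¹' B := fun x hx => h x hx
  have hN : volume ((fun x : Eu κ => -x) ⁻¹' B) ≠ ⊤ := by
    rw [(Measure.measurePreserving_neg (volume : Measure (Eu κ))).measure_preimage
      hB.nullMeasurableSet]
    exact hBf
  have h2 : volume.real A ≤ volume.real (B ∪ (fun x : Eu κ => -x) ⁻¹' B) :=
    measureReal_mono h1 (measure_union_lt_top hBf.lt_top hN.lt_top).ne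
  have h3 := measureReal_union_le (μ := (volume : Measure (Eu κ))) B ((fun x : Eu κ => -x) ⁻¹' B)
  rw [real_neg hB] at h3
  linarith

theorem hsp_logc (hF : Fam F) (τ : Fin k → ℝ) (a : Eu κ) (α : ℝ) :
    volume.real (hsp F τ a 0) ^ (9 / 10 : ℝ) * volume.real (hsp F τ a α) ^ (1 / 10 : ℝ) ≤
      volume.real (hsp F τ a (α / 10)) := by
  have h1 := bm (hsp_meas hF τ a 0) (hsp_meas hF τ a α) (hsp_meas hF τ a (α / 10))
    (t := 1 / 10) (by norm_num) (by norm_num) (fun x hx y hy => by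
      refine ⟨lev_convex hF _ hx.1 hy.1 (by norm_num) (by norm_num) (by norm_num), ?_⟩
      have hx2 : 0 ≤ ⟪x, a⟫_ℝ := hx.2
      have hy2 : α ≤ ⟪y, a⟫_ℝ := hy.2
      show α / 10 ≤ ⟪(1 - 1 / 10 : ℝ) • x + (1 / 10 : ℝ) • y, a⟫_ℝ
      rw [inner_add_left, inner_smul_left, inner_smul_left]
      simp only [conj_trivial]
      linarith)
  have h2 := ENNReal.toReal_mono (hsp_fin hF τ a (α / 10)) h1
  rw [ENNReal.toReal_mul, ← ENNReal.toReal_rpow, ← ENNReal.toReal_rpow] at h2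
  have e : (1 - 1 / 10 : ℝ) = 9 / 10 := by norm_num
  rw [e] at h2
  exact h2

theorem rpow_aux {A c : ℝ} (hA : 0 ≤ A) (hc : 0 ≤ c) :
    A ^ (9 / 10 : ℝ) * (A * c ^ 10) ^ (1 / 10 : ℝ) = A * c := by
  rw [Real.mul_rpow hA (by positivity), ← mul_assoc, ← Real.rpow_add_of_nonneg hA (by norm_num)
    (by norm_num)]
  have e1 : (9 / 10 + 1 / 10 : ℝ) = 1 := by norm_num
  have e2 : (c ^ 10) ^ (1 / 10 : ℝ) = c := by
    rw [← Real.rpow_natCast, ← Real.rpow_mul hc]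
    norm_num
  rw [e1, Real.rpow_one, e2]

/-- the lower bound of the variances, for a nonnegative scalar product -/
theorem var_lower_aux (hS : Sys F P K) (hk : 0 < k) {τ : Fin k → ℝ} (hτ : Tau F τ)
    {S : Eu κ ≃L[ℝ] Eu κ} (hs : ∀ z, ‖S.symm z‖ ^ 2 = ∑ j, sig τ j / k * ‖P j z‖ ^ 2)
    {η : ℝ} (hη : 0 ≤ η) (hη2 : 128 * K ^ 2 * k ^ 5 * η ^ 2 ≤ 1) {v : Eu κ}
    (hv : ‖S.symm v‖ ≤ η) {a : Eu κ} (ha : 0 < ⟪v, a⟫_ℝ) :
    ⟪v, a⟫_ℝ ^ 2 * V F 1 ≤ 200 * ∫ x in lev F 1, ⟪x, a⟫_ℝ ^ 2 := by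
  have hF := hS.toFam
  have hV := V1_pos hF
  obtain ⟨α, hα⟩ : ∃ α, α = ⟪v, a⟫_ℝ := ⟨_, rfl⟩
  rw [← hα] at ha ⊢
  have hgood := good_vol hS hk hτ hs hη hη2 hv
  -- the halfspace through the origin
  have h0 : V F (up τ) / 2 ≤ volume.real (hsp F τ a 0) :=
    half_vol (A := lev F (up τ)) (hsp_meas hF τ a 0) (hsp_fin hF τ a 0) fun x hx => by
      rcases le_total 0 ⟪x, a⟫_ℝ with h | h
      · exact Or.inl ⟨hx, h⟩
      · refine Or.inr ⟨neg_lev hS hx, ?_⟩
        show (0 : ℝ) ≤ ⟪-x, a⟫_ℝ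
        rw [inner_neg_left]
        linarith
  -- the translated halfspace
  have hG0m : MeasurableSet (good F τ v ∩ {x | 0 ≤ ⟪x, a⟫_ℝ}) :=
    (good_meas hS τ v).inter (isClosed_le continuous_const (by fun_prop)).measurableSet
  have hgf : volume (good F τ v) ≠ ⊤ :=
    ((measure_mono fun x hx => hx.1).trans_lt (lev_lt_top hF 1)).ne
  have hG0f : volume (good F τ v ∩ {x | 0 ≤ ⟪x, a⟫_ℝ}) ≠ ⊤ :=
    ne_top_of_le_ne_top hgf (measure_mono inter_subset_left)
  have h1 : volume.real (good F τ v) / 2 ≤ volume.real (good F τ v ∩ {x | 0 ≤ ⟪x, a⟫_ℝ}) :=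
    half_vol hG0m hG0f fun x hx => by
      rcases le_total 0 ⟪x, a⟫_ℝ with h | h
      · exact Or.inl ⟨hx, h⟩
      · refine Or.inr ⟨good_neg hS hx, ?_⟩
        show (0 : ℝ) ≤ ⟪-x, a⟫_ℝ
        rw [inner_neg_left]
        linarith
  have h2 : volume.real (good F τ v ∩ {x | 0 ≤ ⟪x, a⟫_ℝ}) ≤ volume.real (hsp F τ a α) := by
    have hsub : good F τ v ∩ {x | 0 ≤ ⟪x, a⟫_ℝ} ⊆ (fun x => x + v) ⁻¹' hsp F τ a α := by
      rintro x ⟨hx1, hx2⟩
      refine ⟨good_add hS hk hτ hs hη2 hv hx1, ?_⟩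
      have hx2' : 0 ≤ ⟪x, a⟫_ℝ := hx2
      show α ≤ ⟪x + v, a⟫_ℝ
      rw [inner_add_left]
      linarith
    have e : volume ((fun x => x + v) ⁻¹' hsp F τ a α) = volume (hsp F τ a α) :=
      measure_preimage_add_right _ _ _
    have h3 := measure_mono (μ := (volume : Measure (Eu κ))) hsub
    rw [e] at h3
    exact ENNReal.toReal_mono (hsp_fin hF τ a α) h3
  have h3 : V F 1 / 4 ≤ volume.real (hsp F τ a α) := by linarith
  -- log-concavity
  have hVu := V_up hS hk hτ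
  have hVu0 : 0 ≤ V F (up τ) := ENNReal.toReal_nonneg
  have he := Real.exp_one_lt_d9
  have hVu2 : V F (up τ) ≤ 2.72 * V F 1 := hVu.trans (by gcongr; linarith)
  have h4 : V F (up τ) / 2 * (0.84 : ℝ) ^ 10 ≤ V F 1 / 4 := by
    have : (0.84 : ℝ) ^ 10 ≤ 0.1755 := by norm_num
    nlinarith
  have h5 : V F (up τ) / 2 * 0.84 ≤ volume.real (hsp F τ a (α / 10)) := by
    have h6 := hsp_logc hF τ a α
    have h7 : (V F (up τ) / 2) ^ (9 / 10 : ℝ) * (V F (up τ) / 2 * 0.84 ^ 10) ^ (1 / 10 : ℝ) ≤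
        volume.real (hsp F τ a 0) ^ (9 / 10 : ℝ) * volume.real (hsp F τ a α) ^ (1 / 10 : ℝ) := by
      refine mul_le_mul (Real.rpow_le_rpow (by positivity) h0 (by norm_num))
        (Real.rpow_le_rpow (by positivity) (h4.trans h3) (by norm_num))
        (Real.rpow_nonneg (by positivity) _) (Real.rpow_nonneg measureReal_nonneg _)
    rw [rpow_aux (by positivity) (by norm_num)] at h7
    exact h7.trans h6
  -- the middle part
  obtain ⟨M, hM⟩ : ∃ M : Set (Eu κ), M = lev F 1 ∩ {x | |⟪x, a⟫_ℝ| < α / 10} := ⟨_, rfl⟩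
  have hcab : Continuous fun x : Eu κ => |⟪x, a⟫_ℝ| := by fun_prop
  have hMm : MeasurableSet M := by
    rw [hM]
    exact (lev_meas hF 1).inter (isOpen_lt hcab continuous_const).measurableSet
  have hMf : volume M ≠ ⊤ := by
    rw [hM]
    exact ((measure_mono inter_subset_left).trans_lt (lev_lt_top hF _)).ne
  have hHm := hsp_meas hF τ a (α / 10)
  have hHf := hsp_fin hF τ a (α / 10)
  obtain ⟨N, hN⟩ : ∃ N : Set (Eu κ), N = (fun x : Eu κ => -x) ⁻¹' hsp F τ a (α / 10) := ⟨_, rfl⟩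
  have hNm : MeasurableSet N := by
    rw [hN]
    exact hHm.preimage measurable_neg
  have hNv : volume.real N = volume.real (hsp F τ a (α / 10)) := by
    rw [hN]
    exact real_neg hHm
  have hNf : volume N ≠ ⊤ := by
    rw [hN, (Measure.measurePreserving_neg (volume : Measure (Eu κ))).measure_preimage
      hHm.nullMeasurableSet]
    exact hHf
  have hd1 : Disjoint (hsp F τ a (α / 10)) N := by
    rw [Set.disjoint_left, hN]
    rintro x ⟨-, hx⟩ ⟨-, hx'⟩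
    have h8 : α / 10 ≤ ⟪x, a⟫_ℝ := hx
    have h9 : α / 10 ≤ ⟪-x, a⟫_ℝ := hx'
    rw [inner_neg_left] at h9
    linarith
  have hd2 : Disjoint M (hsp F τ a (α / 10) ∪ N) := by
    rw [Set.disjoint_left, hM, hN]
    rintro x ⟨-, hx⟩ (⟨-, hx'⟩ | ⟨-, hx'⟩)
    · have h8 : |⟪x, a⟫_ℝ| < α / 10 := hx
      have h9 : α / 10 ≤ ⟪x, a⟫_ℝ := hx'
      have := le_abs_self ⟪x, a⟫_ℝ
      linarith
    · have h8 : |⟪x, a⟫_ℝ| < α / 10 := hx
      have h9 : α / 10 ≤ ⟪-x, a⟫_ℝ := hx'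
      rw [inner_neg_left] at h9
      have := neg_le_abs ⟪x, a⟫_ℝ
      linarith
  have hsub : M ∪ (hsp F τ a (α / 10) ∪ N) ⊆ lev F (up τ) := by
    rintro x (hx | hx | hx)
    · rw [hM] at hx
      exact lev_mono (fun j => up_pos hτ.nonneg j) hx.1
    · exact hx.1
    · rw [hN] at hx
      have := neg_lev hS hx.1
      rwa [neg_neg] at this
  have h6 : volume.real M + 2 * volume.real (hsp F τ a (α / 10)) ≤ V F (up τ) := by
    have h8 : volume.real (M ∪ (hsp F τ a (α / 10) ∪ N)) ≤ V F (up τ) :=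
      measureReal_mono hsub (lev_lt_top hF _).ne
    rw [measureReal_union hd2 (hHm.union hNm) hMf (measure_union_lt_top hHf.lt_top hNf.lt_top).ne,
      measureReal_union hd1 hNm hHf hNf, hNv] at h8
    linarith
  have h7 : volume.real M ≤ V F 1 / 2 := by nlinarith
  have hcov : lev F 1 ⊆ M ∪ ({x | (α / 10) ^ 2 ≤ ⟪x, a⟫_ℝ ^ 2} ∩ lev F 1) := by
    intro x hx
    rcases lt_or_ge |⟪x, a⟫_ℝ| (α / 10) with h | h
    · left
      rw [hM]
      exact ⟨hx, h⟩
    · right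
      refine ⟨?_, hx⟩
      have h8 := pow_le_pow_left₀ (by positivity) h 2
      rw [sq_abs] at h8
      exact h8
  have hRf : volume ({x : Eu κ | (α / 10) ^ 2 ≤ ⟪x, a⟫_ℝ ^ 2} ∩ lev F 1) ≠ ⊤ :=
    ((measure_mono inter_subset_right).trans_lt (lev_lt_top hF _)).ne
  have h8 : V F 1 ≤ volume.real M +
      volume.real ({x : Eu κ | (α / 10) ^ 2 ≤ ⟪x, a⟫_ℝ ^ 2} ∩ lev F 1) :=
    (measureReal_mono hcov (measure_union_lt_top hMf.lt_top hRf.lt_top).ne).trans
      (measureReal_union_le _ _)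
  have h9 := mul_meas_ge_le_integral_of_nonneg (μ := volume.restrict (lev F 1))
      (f := fun x : Eu κ => ⟪x, a⟫_ℝ ^ 2) (Eventually.of_forall fun x => sq_nonneg _)
      ((by fun_prop : Continuous fun x : Eu κ => ⟪x, a⟫_ℝ ^ 2).continuousOn.integrableOn_compact
        (lev_compact hF 1)) ((α / 10) ^ 2)
  have e : (volume.restrict (lev F 1)).real {x : Eu κ | (α / 10) ^ 2 ≤ ⟪x, a⟫_ℝ ^ 2} =
      volume.real ({x : Eu κ | (α / 10) ^ 2 ≤ ⟪x, a⟫_ℝ ^ 2} ∩ lev F 1) := by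
    rw [measureReal_def, measureReal_def, Measure.restrict_apply' (lev_meas hF 1)]
  rw [e] at h9
  have h10 : V F 1 / 2 ≤ volume.real ({x : Eu κ | (α / 10) ^ 2 ≤ ⟪x, a⟫_ℝ ^ 2} ∩ lev F 1) := by
    linarith
  have h11 := mul_le_mul_of_nonneg_left h10 (sq_nonneg (α / 10))
  have e2 : (α / 10) ^ 2 * (V F 1 / 2) = α ^ 2 * V F 1 / 200 := by ring
  rw [e2] at h11
  linarith

/-- **the lower bound of the variances** -/
theorem var_lower (hS : Sys F P K) (hk : 0 < k) {τ : Fin k → ℝ} (hτ : Tau F τ)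
    {S : Eu κ ≃L[ℝ] Eu κ} (hs : ∀ z, ‖S.symm z‖ ^ 2 = ∑ j, sig τ j / k * ‖P j z‖ ^ 2)
    {η : ℝ} (hη : 0 ≤ η) (hη2 : 128 * K ^ 2 * k ^ 5 * η ^ 2 ≤ 1) {v : Eu κ}
    (hv : ‖S.symm v‖ ≤ η) (a : Eu κ) :
    ⟪v, a⟫_ℝ ^ 2 * V F 1 ≤ 200 * ∫ x in lev F 1, ⟪x, a⟫_ℝ ^ 2 := by
  rcases lt_trichotomy ⟪v, a⟫_ℝ 0 with h | h | h
  · have h1 : ‖S.symm (-v)‖ ≤ η := by
      rw [map_neg, norm_neg]
      exact hv
    have h2 := var_lower_aux hS hk hτ hs hη hη2 h1 (a := a) (by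
      rw [inner_neg_left]
      linarith)
    rwa [inner_neg_left, neg_sq] at h2
  · rw [h]
    have : 0 ≤ ∫ x in lev F 1, ⟪x, a⟫_ℝ ^ 2 := integral_nonneg fun x => sq_nonneg _
    nlinarith
  · exact var_lower_aux hS hk hτ hs hη hη2 hv h

end Pool.Agent.H776.FE
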