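import Pool.Agent.H776.FE3
import Pool.Agent.H776.SFin
import Pool.Graph.R_pool_sql_team_seeded_3997aac3.Q86.EM.Chp

/-!
# Intersections of few sublevel sets, IV: the Poincare inequality
-/

set_option autoImplicit false

namespace Pool.Agent.H776.FE

open MeasureTheory Set Filter Topology
open scoped ENNReal InnerProductSpace
open Pool.Agent.W695.KH (EV VV)

variable {κ : Type} [Fintype κ] {k : ℕ} {F : Fin k → Eu κ → ℝ}
variable {b : Fin k → Type} [∀ j, Fintype (b j)] {P : ∀ j, Eu κ →L[ℝ] Eu (b j)} {K : ℝ}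

theorem int_unf (A : Set (Eu κ)) (g : Eu κ → ℝ) : ∫ x, g x ∂(unf A) = EV A g := by
  unfold unf EV
  rw [integral_smul_measure, ENNReal.toReal_inv, smul_eq_mul, div_eq_inv_mul]

theorem vv_le {A : Set (Eu κ)} (hA : Body A) {f : Eu κ → ℝ} (hf : Continuous f) {c B : ℝ}
    (h : ∫ x in A, (f x - c) ^ 2 ≤ B * (volume A).toReal) : VV A f ≤ B := by
  have hV : 0 < (volume A).toReal := ENNReal.toReal_pos hA.pos.ne' hA.fin
  have h1 : IntegrableOn (fun x => f x ^ 2) A := (by fun_prop : Continuous fun x =>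
    f x ^ 2).continuousOn.integrableOn_compact hA.cpt
  have h2 : IntegrableOn f A := hf.continuousOn.integrableOn_compact hA.cpt
  have h3 : IntegrableOn (fun _ : Eu κ => c ^ 2) A := integrableOn_const hA.fin
  have e : ∀ x, (f x - c) ^ 2 = (f x ^ 2 - 2 * c * f x) + c ^ 2 := fun x => by ring
  simp only [e] at h
  have h4 : IntegrableOn (fun x => f x ^ 2 - 2 * c * f x) A := h1.sub (h2.const_mul _)
  rw [integral_add h4 h3, integral_sub h1 (h2.const_mul (2 * c)),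
    integral_const_mul, setIntegral_const, smul_eq_mul, measureReal_def] at h
  unfold VV EV
  obtain ⟨W, hW⟩ : ∃ W, W = (volume A).toReal := ⟨_, rfl⟩
  obtain ⟨a, ha⟩ : ∃ a, a = ∫ x in A, f x ^ 2 := ⟨_, rfl⟩
  obtain ⟨m, hm⟩ : ∃ m, m = ∫ x in A, f x := ⟨_, rfl⟩
  rw [← hW, ← ha, ← hm] at h
  rw [← hW, ← ha, ← hm]
  rw [← hW] at hV
  have h5 : a / W - 2 * c * (m / W) + c ^ 2 ≤ B := by
    have h6 : (a - 2 * c * m + W * c ^ 2) / W ≤ B := by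
      rw [div_le_iff₀ hV]
      exact h
    have h7 : (a - 2 * c * m + W * c ^ 2) / W = a / W - 2 * c * (m / W) + c ^ 2 := by
      field_simp
    rwa [h7] at h6
  nlinarith [sq_nonneg (m / W - c)]

/-- the norm of the change of coordinates -/
theorem S_norm (hS : Sys F P K) (hk : 0 < k) {τ : Fin k → ℝ} (hτ : Tau F τ)
    {S : Eu κ ≃L[ℝ] Eu κ} (hs : ∀ z, ‖S.symm z‖ ^ 2 = ∑ j, sig τ j / k * ‖P j z‖ ^ 2)
    {s : ℝ} (hs0 : 0 < s)
    (hcov : ∀ θ : Eu κ, ∫ x in lev F 1, ⟪x, θ⟫_ℝ ^ 2 ≤ s * ‖θ‖ ^ 2 * V F 1) (u : Eu κ) :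
    ‖S u‖ ^ 2 ≤ 25600 * K ^ 2 * k ^ 5 * s * ‖u‖ ^ 2 := by
  have hk0 : (0 : ℝ) < k := Nat.cast_pos.2 hk
  have hK1 := hS.one_le
  have hK0 : 0 < K := by linarith
  have hV := V1_pos hS.toFam
  by_cases hu : u = 0
  · subst hu
    simp
  have hun : 0 < ‖u‖ := norm_pos_iff.2 hu
  have hSu : 0 < ‖S u‖ := norm_pos_iff.2 fun h => hu (by
    have := congrArg S.symm h
    rwa [ContinuousLinearEquiv.symm_apply_apply, map_zero] at this)
  obtain ⟨M, hM⟩ : ∃ M : ℝ, M = 128 * K ^ 2 * k ^ 5 := ⟨_, rfl⟩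
  have hM0 : 0 < M := by rw [hM]; positivity
  obtain ⟨η, hη⟩ : ∃ η : ℝ, η = 1 / Real.sqrt M := ⟨_, rfl⟩
  have hη0 : 0 < η := by rw [hη]; positivity
  have hη2 : M * η ^ 2 = 1 := by
    rw [hη, div_pow, Real.sq_sqrt hM0.le, one_pow]
    field_simp
  have h1 := var_lower hS hk hτ hs hη0.le (by rw [← hM]; exact hη2.le) (v := (η / ‖u‖) • S u) (by
    rw [map_smul, ContinuousLinearEquiv.symm_apply_apply, norm_smul, Real.norm_eq_abs,
      abs_of_pos (by positivity)]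
    refine le_of_eq ?_
    field_simp) (S u)
  rw [inner_smul_left, conj_trivial, real_inner_self_eq_norm_sq] at h1
  have h2 := h1.trans (mul_le_mul_of_nonneg_left (hcov (S u)) (by norm_num : (0 : ℝ) ≤ 200))
  have h3 : (‖S u‖ ^ 2 * V F 1) * ((η / ‖u‖) ^ 2 * ‖S u‖ ^ 2) ≤
      (‖S u‖ ^ 2 * V F 1) * (200 * s) := by
    refine le_trans (le_of_eq ?_) (h2.trans (le_of_eq ?_)) <;> ring
  have h4 := le_of_mul_le_mul_left h3 (by positivity)
  have h5 := mul_le_mul_of_nonneg_left h4 (by positivity : 0 ≤ M * ‖u‖ ^ 2)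
  have e1 : M * ‖u‖ ^ 2 * ((η / ‖u‖) ^ 2 * ‖S u‖ ^ 2) = ‖S u‖ ^ 2 := by
    have : M * ‖u‖ ^ 2 * ((η / ‖u‖) ^ 2 * ‖S u‖ ^ 2) = (M * η ^ 2) * ‖S u‖ ^ 2 := by
      field_simp
    rw [this, hη2, one_mul]
  rw [e1] at h5
  refine h5.trans (le_of_eq ?_)
  rw [hM]
  ring

/-- **the Poincare inequality** -/
theorem exists_pi : ∃ C : ℝ, 0 < C ∧ ∀ (κ : Type) [Fintype κ] (k : ℕ) (F : Fin k → Eu κ → ℝ)
    (b : Fin k → Type) [∀ j, Fintype (b j)] (P : ∀ j, Eu κ →L[ℝ] Eu (b j)) (K : ℝ),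
    Sys F P K → 0 < k → ∀ s : ℝ, 0 < s →
    (∀ θ : Eu κ, ‖θ‖ = 1 → ∫ x in lev F 1, ⟪x, θ⟫_ℝ ^ 2 ≤ s * V F 1) →
    Pool.Agent.Q86.EM.PI (lev F 1) (C * K ^ 2 * k ^ 5 * s) := by
  obtain ⟨C, hC, H⟩ := Pool.Agent.Q86.EM.body_em
  refine ⟨C * 102400, by positivity, ?_⟩
  intro κ _ k F b _ P K hS hk s hs0 hcov
  have hF := hS.toFam
  have hk0 : (0 : ℝ) < k := Nat.cast_pos.2 hk
  have hK1 := hS.one_le
  have hK0 : 0 < K := by linarith
  have hB : Body (lev F 1) := lev_body hF fun _ => one_pos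
  obtain ⟨τ, hτ0, hτ1⟩ := exists_tau hF
  have hτ : Tau F τ := ⟨hτ0, hτ1⟩
  obtain ⟨S, hs⟩ := exists_S hS hk hτ0
  have hcov' : ∀ θ : Eu κ, ∫ x in lev F 1, ⟪x, θ⟫_ℝ ^ 2 ≤ s * ‖θ‖ ^ 2 * V F 1 := by
    intro θ
    by_cases hθ : θ = 0
    · subst hθ
      simp
    have hn : 0 < ‖θ‖ := norm_pos_iff.2 hθ
    have h2 := hcov (‖θ‖⁻¹ • θ) (by
      rw [norm_smul, norm_inv, norm_norm, inv_mul_cancel₀ hn.ne'])
    have e : ∀ x : Eu κ, ⟪x, θ⟫_ℝ ^ 2 = ‖θ‖ ^ 2 * ⟪x, ‖θ‖⁻¹ • θ⟫_ℝ ^ 2 := by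
      intro x
      rw [inner_smul_right, mul_pow, inv_pow, ← mul_assoc, mul_inv_cancel₀ (by positivity), one_mul]
    simp only [e]
    rw [integral_const_mul]
    refine (mul_le_mul_of_nonneg_left h2 (by positivity : 0 ≤ ‖θ‖ ^ 2)).trans (le_of_eq ?_)
    ring
  have hSn := S_norm hS hk hτ hs hs0 hcov'
  obtain ⟨M, hM⟩ : ∃ M : ℝ, M = 25600 * K ^ 2 * k ^ 5 * s := ⟨_, rfl⟩
  have hM0 : 0 < M := by rw [hM]; positivity
  rw [← hM] at hSn
  have h1 := H κ (lev F 1) ⟨hB.cpt, hB.cvx, hB.int⟩ (4 * M) (fun f hf hf1 => by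
    obtain ⟨c, hc⟩ := var_bound hS hk hτ hs hf (B := Real.sqrt M) (fun x => by
      refine ContinuousLinearMap.opNorm_le_bound _ (Real.sqrt_nonneg _) fun u => ?_
      rw [ContinuousLinearMap.comp_apply]
      have h2 := (fderiv ℝ f x).le_opNorm (S u)
      have h3 : ‖S u‖ ≤ Real.sqrt M * ‖u‖ := by
        have h4 : ‖S u‖ ^ 2 ≤ (Real.sqrt M * ‖u‖) ^ 2 := by
          rw [mul_pow, Real.sq_sqrt hM0.le]
          exact hSn u
        exact (abs_le_of_sq_le_sq' h4 (by positivity)).2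
      calc ‖(fderiv ℝ f x) (S u)‖ ≤ ‖fderiv ℝ f x‖ * ‖S u‖ := h2
        _ ≤ 1 * (Real.sqrt M * ‖u‖) := mul_le_mul (hf1 x) h3 (norm_nonneg _) zero_le_one
        _ = _ := one_mul _)
    rw [Real.sq_sqrt hM0.le] at hc
    exact vv_le hB hf.continuous hc)
  have e : C * (4 * M) = C * 102400 * K ^ 2 * k ^ 5 * s := by
    rw [hM]
    ring
  rwa [e] at h1

/-- the first moments vanish -/
theorem mean_unf (hS : Sys F P K) (θ : Eu κ) : ∫ x, ⟪x, θ⟫_ℝ ∂(unf (lev F 1)) = 0 := by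
  rw [int_unf]
  unfold EV
  rw [int_odd (fun x hx => neg_lev hS hx) (lev_meas hS.toFam 1) fun x => inner_neg_left x θ,
    zero_div]

/-- **the Poincare inequality, covariance form** -/
theorem exists_kp : ∃ C : ℝ, 0 < C ∧ ∀ (κ : Type) [Fintype κ] (k : ℕ) (F : Fin k → Eu κ → ℝ)
    (b : Fin k → Type) [∀ j, Fintype (b j)] (P : ∀ j, Eu κ →L[ℝ] Eu (b j)) (K : ℝ),
    Sys F P K → 0 < k → KP (nm ((lev F 1).indicator fun _ => (1 : ℝ))) (C * K ^ 2 * k ^ 5) := by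
  obtain ⟨C, hC, H⟩ := exists_pi
  refine ⟨C, hC, ?_⟩
  intro κ _ k F b _ P K hS hk
  have hF := hS.toFam
  have hB : Body (lev F 1) := lev_body hF fun _ => one_pos
  have hV := V1_pos hF
  rw [nm_ind hB]
  have hp := hB.prob
  intro s hs hcov f B L hf
  have h1 := H κ k F b P K hS hk s hs (fun θ hθ => by
    have h2 := hcov θ hθ
    rw [var_eq hB.int_sq, mean_unf hS, int_unf] at h2
    have h3 : EV (lev F 1) (fun x => ⟪x, θ⟫_ℝ ^ 2) ≤ s := by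
      linarith
    unfold EV at h3
    exact (div_le_iff₀ hV).1 h3) f hf.diff
  rw [int_unf, int_unf, int_unf]
  exact h1

end Pool.Agent.H776.FE
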