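import Pool.Agent.H776.FE4

/-!
# Intersections of few sublevel sets, V: open sublevel sets, profiles, perimeters
-/

set_option autoImplicit false

namespace Pool.Agent.H776.FE

open MeasureTheory Set Filter Topology
open scoped ENNReal InnerProductSpace
open Pool.Agent.W695.KH (EV VV per)

/-- the cheapest cut, from the Poincare inequality -/
theorem exists_cut : ∃ c : ℝ, 0 < c ∧ ∀ (κ : Type) [Fintype κ] (Ω : Set (Eu κ)), IsOpen Ω →
    Convex ℝ Ω → Bornology.IsBounded Ω → (0 : Eu κ) ∈ Ω → (∀ x ∈ Ω, -x ∈ Ω) → ∀ D : ℝ, 0 < D →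
    KP (nm ((closure Ω).indicator fun _ => (1 : ℝ))) D → ∀ t : ℝ, 0 < t →
    (∀ a : Eu κ, a ≠ 0 → ENNReal.ofReal t * volume Ω ≤ Pool.Agent.W695.KH.sec Ω a) →
    ∀ E : Set (Eu κ), MeasurableSet E → E ⊆ Ω →
      ENNReal.ofReal (c / Real.sqrt D * t) * min (volume E) (volume (Ω \ E)) ≤ per E Ω := by
  obtain ⟨C, hC, H⟩ := exists_cov_of_sec
  refine ⟨1 / (56 * Real.sqrt C), by positivity, ?_⟩
  intro κ _ Ω ho hconv hbd h0 hsym D hD hkp t ht hsec E hE hEΩ
  have hK := body_closure ho hconv hbd h0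
  have hp := hK.prob
  have hcov := H κ Ω ho hconv hbd h0 hsym t ht hsec
  rw [nm_ind hK] at hkp
  have hP := hkp (C / t ^ 2) (by positivity) hcov
  have hiso := iso_of_poi hK.den (μ := unf (closure Ω)) (by
      rw [← nm_ind hK]
      unfold nm
      rw [integral_indicator hK.cpt.measurableSet, setIntegral_const, smul_eq_mul, mul_one])
      (by positivity) hP
  have h1 := per_of_iso ho hconv hbd h0 (by positivity) hiso hE hEΩ
  have e : 1 / 14 / Real.sqrt (D * (C / t ^ 2)) / 4 =
      1 / (56 * Real.sqrt C) / Real.sqrt D * t := by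
    rw [Real.sqrt_mul hD.le, Real.sqrt_div hC.le, Real.sqrt_sq ht.le]
    have h2 : 0 < Real.sqrt D := Real.sqrt_pos.2 hD
    have h3 : 0 < Real.sqrt C := Real.sqrt_pos.2 hC
    field_simp
    norm_num
  rwa [e] at h1

section open_levels

variable {κ : Type} [Fintype κ] {k : ℕ} {F : Fin k → Eu κ → ℝ}

/-- the open sublevel set -/
def olev (F : Fin k → Eu κ → ℝ) : Set (Eu κ) := {x | ∀ j, F j x < 1}

theorem olev_open (h : Fam F) : IsOpen (olev F) := by
  have e : olev F = ⋂ j, {x | F j x < 1} := by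
    ext x
    simp [olev]
  rw [e]
  exact isOpen_iInter_of_finite fun j => isOpen_lt (h.cont j) continuous_const

theorem olev_sub (F : Fin k → Eu κ → ℝ) : olev F ⊆ lev F 1 := fun _ hx j => (hx j).le

theorem olev_convex (h : Fam F) : Convex ℝ (olev F) := by
  have e : olev F = ⋂ j, {x | x ∈ univ ∧ F j x < 1} := by
    ext x
    simp [olev]
  rw [e]
  exact convex_iInter fun j => (h.conv j).convex_lt 1

theorem zero_mem_olev (h : Fam F) : (0 : Eu κ) ∈ olev F := fun j => by
  rw [h.zero j]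
  exact one_pos

theorem smul_mem_olev (h : Fam F) {c : ℝ} (hc0 : 0 ≤ c) (hc1 : c < 1) {x : Eu κ}
    (hx : x ∈ lev F 1) : c • x ∈ olev F := by
  intro j
  have h1 := F_smul_le h j hc0 hc1.le x
  have h2 : F j x ≤ 1 := hx j
  have h3 := mul_le_mul_of_nonneg_left h2 hc0
  linarith

theorem closure_olev (h : Fam F) : closure (olev F) = lev F 1 := by
  refine Subset.antisymm (closure_minimal (olev_sub F) (lev_closed h 1)) fun x hx => ?_
  have h1 : Tendsto (fun c : ℝ => c • x) (𝓝[<] 1) (𝓝 x) := by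
    have h2 : Tendsto (fun c : ℝ => c • x) (𝓝 1) (𝓝 ((1 : ℝ) • x)) :=
      (by fun_prop : Continuous fun c : ℝ => c • x).tendsto 1
    rw [one_smul] at h2
    exact h2.mono_left nhdsWithin_le_nhds
  refine mem_closure_of_tendsto h1 ?_
  filter_upwards [Ioo_mem_nhdsLT (zero_lt_one : (0 : ℝ) < 1)] with c hc
  exact smul_mem_olev h hc.1.le hc.2 hx

theorem V_eq (h : Fam F) : V F 1 = (volume (olev F)).toReal := by
  unfold V
  rw [← closure_olev h, measure_closure_of_null_frontier ((olev_convex h).addHaar_frontier _)]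

theorem int_olev (h : Fam F) (g : Eu κ → ℝ) : ∫ x in lev F 1, g x = ∫ x in olev F, g x := by
  have h1 := ev_closure (olev_open h) (olev_convex h) g
  rw [closure_olev h] at h1
  unfold EV at h1
  have hV : (volume (lev F 1)).toReal = (volume (olev F)).toReal := V_eq h
  have hV0 : 0 < (volume (lev F 1)).toReal := V1_pos h
  rw [← hV] at h1
  exact (div_left_inj' hV0.ne').1 h1

end open_levels

/-- profiles -/
structure Prof {W : Type} [NormedAddCommGroup W] [InnerProductSpace ℝ W] (ψ : W → ℝ) (K : ℝ) :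
    Prop where
  even : ∀ y, ψ (-y) = ψ y
  zero : ψ 0 = 0
  diff : ContDiff ℝ 1 ψ
  conv : ConvexOn ℝ univ fun y => ψ y - ‖y‖ ^ 2
  lip : ∀ y z, ‖fderiv ℝ ψ y - fderiv ℝ ψ z‖ ≤ 2 * K * ‖y - z‖

section prof

variable {W : Type} [NormedAddCommGroup W] [InnerProductSpace ℝ W] {ψ : W → ℝ} {K : ℝ}

theorem Prof.mid (h : Prof ψ K) (y z : W) :
    ψ ((1 / 2 : ℝ) • (y + z)) + ‖y - z‖ ^ 2 / 4 ≤ (ψ y + ψ z) / 2 := by
  have h1 := h.conv.2 (mem_univ y) (mem_univ z) (by norm_num : (0 : ℝ) ≤ 1 / 2)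
    (by norm_num : (0 : ℝ) ≤ 1 / 2) (by norm_num)
  rw [← smul_add] at h1
  simp only [smul_eq_mul] at h1
  have h2 : ‖(1 / 2 : ℝ) • (y + z)‖ ^ 2 = ‖y + z‖ ^ 2 / 4 := by
    rw [norm_smul, mul_pow]
    norm_num
    ring
  have h3 := parallelogram_law_with_norm ℝ y z
  rw [h2] at h1
  nlinarith

theorem Prof.convex (h : Prof ψ K) : ConvexOn ℝ univ ψ := by
  have h1 : ConvexOn ℝ univ fun y : W => ‖y‖ ^ 2 :=
    convexOn_univ_norm.pow (fun x _ => norm_nonneg x) 2
  have h2 := h.conv.add h1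
  have e : ((fun y : W => ψ y - ‖y‖ ^ 2) + fun y => ‖y‖ ^ 2) = ψ := by
    funext y
    simp
  rwa [e] at h2

theorem Prof.nonneg (h : Prof ψ K) (y : W) : 0 ≤ ψ y := by
  have h1 := h.mid y (-y)
  rw [add_neg_cancel, smul_zero, h.zero, h.even] at h1
  have := sq_nonneg ‖y - -y‖
  linarith

theorem Prof.smooth (h : Prof ψ K) (y w : W) :
    ψ (y + w) + ψ (y - w) ≤ 2 * ψ y + 2 * K * ‖w‖ ^ 2 := by
  have hd : Differentiable ℝ ψ := h.diff.differentiable one_ne_zero
  have hD : ∀ t : ℝ, HasDerivAt (fun t : ℝ => ψ (y + t • w) + ψ (y - t • w) -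
      2 * K * ‖w‖ ^ 2 * t ^ 2) ((fderiv ℝ ψ (y + t • w)) w - (fderiv ℝ ψ (y - t • w)) w -
      2 * K * ‖w‖ ^ 2 * (2 * t)) t := by
    intro t
    have h1 : HasDerivAt (fun t : ℝ => y + t • w) w t := by
      simpa using ((hasDerivAt_id t).smul_const w).const_add y
    have h2 : HasDerivAt (fun t : ℝ => y - t • w) (-w) t := by
      simpa using ((hasDerivAt_id t).smul_const w).const_sub y
    have h3 := (hd (y + t • w)).hasFDerivAt.comp_hasDerivAt t h1
    have h4 := (hd (y - t • w)).hasFDerivAt.comp_hasDerivAt t h2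
    have h5 : HasDerivAt (fun t : ℝ => 2 * K * ‖w‖ ^ 2 * t ^ 2) (2 * K * ‖w‖ ^ 2 * (2 * t)) t := by
      simpa using (hasDerivAt_pow 2 t).const_mul (2 * K * ‖w‖ ^ 2)
    have h6 := (h3.add h4).sub h5
    rw [map_neg] at h6
    exact h6
  have hanti : AntitoneOn (fun t : ℝ => ψ (y + t • w) + ψ (y - t • w) -
      2 * K * ‖w‖ ^ 2 * t ^ 2) (Icc 0 1) := by
    refine antitoneOn_of_deriv_nonpos (convex_Icc 0 1)
      (fun t _ => (hD t).continuousAt.continuousWithinAt)
      (fun t _ => (hD t).differentiableAt.differentiableWithinAt) fun t ht => ?_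
    rw [(hD t).deriv]
    rw [interior_Icc] at ht
    have h1 := h.lip (y + t • w) (y - t • w)
    have h2 := (fderiv ℝ ψ (y + t • w) - fderiv ℝ ψ (y - t • w)).le_opNorm w
    rw [ContinuousLinearMap.sub_apply, Real.norm_eq_abs] at h2
    have h3 : (y + t • w) - (y - t • w) = (2 * t) • w := by
      rw [mul_smul, two_smul]
      abel
    rw [h3, norm_smul, Real.norm_eq_abs, abs_of_pos (by linarith [ht.1])] at h1
    have h4 := (le_abs_self _).trans (h2.trans (mul_le_mul_of_nonneg_right h1 (norm_nonneg w)))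
    nlinarith
  have h1 := hanti (left_mem_Icc.2 zero_le_one) (right_mem_Icc.2 zero_le_one) zero_le_one
  simp only [one_smul, zero_smul, add_zero, sub_zero] at h1
  nlinarith

end prof

/-- **profiles give systems** -/
theorem sys_of_prof {κ : Type} [Fintype κ] {k : ℕ} {b : Fin k → Type} [∀ j, Fintype (b j)]
    {P : ∀ j, Eu κ →L[ℝ] Eu (b j)} {ψ : ∀ j, Eu (b j) → ℝ} {K : ℝ} (hK : 1 ≤ K)
    (h : ∀ j, Prof (ψ j) K) (hbd : Bornology.IsBounded {x : Eu κ | ∀ j, ψ j (P j x) < 1}) :
    Sys (fun j x => ψ j (P j x)) P K := by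
  have hconv : ∀ j, ConvexOn ℝ univ fun x : Eu κ => ψ j (P j x) := fun j => by
    have h1 := (h j).convex.comp_linearMap (P j : Eu κ →ₗ[ℝ] Eu (b j))
    exact h1
  have hz : ∀ j, ψ j (P j 0) = 0 := fun j => by rw [map_zero, (h j).zero]
  refine
    { cont := fun j => (h j).diff.continuous.comp (P j).continuous
      conv := hconv
      zero := hz
      nonneg := fun j x => (h j).nonneg _
      bdd := ?_
      one_le := hK
      even := fun j x => by rw [map_neg, (h j).even]
      strong := fun j x y => ?_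
      smooth := fun j x v => ?_
      diff := fun j => (h j).diff.comp (P j).contDiff
      grad := fun j v x u => ?_
      inj := fun z hz => ?_ }
  · refine (hbd.smul₀ (2 : ℝ)).subset fun x hx => ?_
    refine ⟨(1 / 2 : ℝ) • x, fun j => ?_, ?_⟩
    · have h1 := (hconv j).2 (mem_univ x) (mem_univ (0 : Eu κ)) (by norm_num : (0 : ℝ) ≤ 1 / 2)
        (by norm_num : (0 : ℝ) ≤ 1 / 2) (by norm_num)
      simp only [smul_zero, add_zero, smul_eq_mul, hz j, mul_zero] at h1
      have h2 : ψ j (P j x) ≤ 1 := hx j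
      linarith
    · show (2 : ℝ) • (1 / 2 : ℝ) • x = x
      rw [smul_smul]
      norm_num
  · have h1 := (h j).mid (P j x) (P j y)
    rw [← map_add, ← map_smul, ← map_sub] at h1
    exact h1
  · have h1 := (h j).smooth (P j x) (P j v)
    rw [← map_add, ← map_sub] at h1
    exact h1
  · have hd : Differentiable ℝ (ψ j) := (h j).diff.differentiable one_ne_zero
    have h1 : HasFDerivAt (fun x : Eu κ => ψ j (P j (x + v)))
        ((fderiv ℝ (ψ j) (P j (x + v))).comp (P j)) x := by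
      have h2 : HasFDerivAt (fun x : Eu κ => P j (x + v)) (P j) x :=
        (P j).hasFDerivAt.comp x ((hasFDerivAt_id x).add_const v)
      exact (hd _).hasFDerivAt.comp x h2
    have h2 : HasFDerivAt (fun x : Eu κ => ψ j (P j (x - v)))
        ((fderiv ℝ (ψ j) (P j (x - v))).comp (P j)) x := by
      have h2 : HasFDerivAt (fun x : Eu κ => P j (x - v)) (P j) x :=
        (P j).hasFDerivAt.comp x ((hasFDerivAt_id x).sub_const v)
      exact (hd _).hasFDerivAt.comp x h2
    have h3 := (h1.sub h2).fderiv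
    have h4 : fderiv ℝ (fun x : Eu κ => ψ j (P j (x + v)) - ψ j (P j (x - v))) x =
      (fderiv ℝ (ψ j) (P j (x + v))).comp (P j) - (fderiv ℝ (ψ j) (P j (x - v))).comp (P j) := h3
    rw [h4, ContinuousLinearMap.sub_apply, ContinuousLinearMap.comp_apply,
      ContinuousLinearMap.comp_apply, ← ContinuousLinearMap.sub_apply, ← Real.norm_eq_abs]
    refine (ContinuousLinearMap.le_opNorm _ _).trans ?_
    refine mul_le_mul_of_nonneg_right ?_ (norm_nonneg _)
    refine ((h j).lip _ _).trans (le_of_eq ?_)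
    have e : P j (x + v) - P j (x - v) = (2 : ℝ) • P j v := by
      rw [← map_sub, ← map_smul]
      congr 1
      rw [two_smul]
      abel
    rw [e, norm_smul]
    norm_num
    ring
  · obtain ⟨R, hR⟩ := hbd.exists_norm_le
    by_contra hz0
    have hn : 0 < ‖z‖ := norm_pos_iff.2 hz0
    have h1 := hR (((|R| + 1) / ‖z‖) • z) fun j => by
      rw [map_smul, hz j, smul_zero, (h j).zero]
      exact one_pos
    rw [norm_smul, Real.norm_eq_abs, abs_of_pos (by positivity), div_mul_cancel₀ _ hn.ne'] at h1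
    have := le_abs_self R
    linarith

/-- squared norms are profiles -/
theorem prof_sq {W : Type} [NormedAddCommGroup W] [InnerProductSpace ℝ W] :
    Prof (fun y : W => ‖y‖ ^ 2) 1 := by
  refine ⟨fun y => by rw [norm_neg], by simp, contDiff_norm_sq ℝ, ?_, fun y z => ?_⟩
  · simp only [sub_self]
    exact convexOn_const 0 convex_univ
  · refine ContinuousLinearMap.opNorm_le_bound _ (by positivity) fun u => ?_
    rw [ContinuousLinearMap.sub_apply]
    have h1 : ∀ y : W, (fderiv ℝ (fun y : W => ‖y‖ ^ 2) y) u = 2 * ⟪y, u⟫_ℝ := by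
      intro y
      rw [fderiv_norm_sq_apply]
      simp [two_mul]
    rw [h1, h1, ← mul_sub, ← inner_sub_left, norm_mul]
    have h2 := norm_inner_le_norm (𝕜 := ℝ) (y - z) u
    norm_num at h2 ⊢
    nlinarith

end Pool.Agent.H776.FE
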