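import Pool.Agent.H776.FE5
import Pool.Agent.H776.Quad

/-!
# Intersections of few sublevel sets, VI: the affine invariant form
-/

set_option autoImplicit false

namespace Pool.Agent.H776.FE

open MeasureTheory Set Filter Topology
open scoped ENNReal InnerProductSpace MatrixOrder Matrix
open Pool.Agent.W695.KH (EV VV per)

/-- square root of a positive semidefinite matrix -/
theorem exists_map_psd {κ : Type} [Fintype κ] [DecidableEq κ] {Q : Matrix κ κ ℝ}
    (hQ : Q.PosSemidef) : ∃ A : Eu κ →ₗ[ℝ] Eu κ,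
      ∀ x : Eu κ, ‖A x‖ ^ 2 = ∑ i, ∑ j, Q i j * x i * x j := by
  obtain ⟨B, hB⟩ := CStarAlgebra.nonneg_iff_eq_star_mul_self.mp hQ.nonneg
  refine ⟨Matrix.toEuclideanLin B, fun x => ?_⟩
  have h1 : ‖Matrix.toEuclideanLin B x‖ ^ 2 = ∑ k, (∑ j, B k j * x j) ^ 2 := by
    rw [EuclideanSpace.norm_sq_eq]
    refine Finset.sum_congr rfl fun k _ => ?_
    rw [Real.norm_eq_abs, sq_abs]
    rfl
  rw [h1]
  have h2 : ∀ i j, Q i j = ∑ k, B k i * B k j := by
    intro i j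
    rw [hB, Matrix.mul_apply]
    refine Finset.sum_congr rfl fun k _ => ?_
    rw [Matrix.star_apply, star_trivial]
  have h3 : ∀ k, (∑ j, B k j * x j) ^ 2 = ∑ i, ∑ j, B k i * B k j * x i * x j := by
    intro k
    rw [sq, Finset.sum_mul_sum]
    exact Finset.sum_congr rfl fun i _ => Finset.sum_congr rfl fun j _ => by ring
  simp only [h2, h3, Finset.sum_mul]
  rw [Finset.sum_comm]
  refine Finset.sum_congr rfl fun i _ => ?_
  rw [Finset.sum_comm]

variable {κ : Type} [Fintype κ]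

/-- linear changes of variables -/
theorem ev_comp (T : Eu κ ≃L[ℝ] Eu κ) (A : Set (Eu κ)) (g : Eu κ → ℝ) :
    EV (T ⁻¹' A) (fun y => g (T y)) = EV A g := by
  have hdet : LinearMap.det (T : Eu κ →ₗ[ℝ] Eu κ) ≠ 0 := LinearEquiv.isUnit_det' T.toLinearEquiv |>.ne_zero
  have h1 := Measure.map_linearMap_addHaar_eq_smul_addHaar (volume : Measure (Eu κ)) hdet
  have h2 := Measure.addHaar_preimage_linearMap (volume : Measure (Eu κ)) hdet A
  have hme : MeasurableEmbedding (T : Eu κ → Eu κ) := T.toHomeomorph.measurableEmbedding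
  have h3 := hme.setIntegral_map (μ := (volume : Measure (Eu κ))) g A
  have h1' : Measure.map (T : Eu κ → Eu κ) volume =
      ENNReal.ofReal |(LinearMap.det (T : Eu κ →ₗ[ℝ] Eu κ))⁻¹| • (volume : Measure (Eu κ)) := h1
  have h2' : volume ((T : Eu κ → Eu κ) ⁻¹' A) =
      ENNReal.ofReal |(LinearMap.det (T : Eu κ →ₗ[ℝ] Eu κ))⁻¹| * volume A := h2
  have hr : 0 < |(LinearMap.det (T : Eu κ →ₗ[ℝ] Eu κ))⁻¹| := abs_pos.2 (inv_ne_zero hdet)
  unfold EV
  rw [← h3, h2', h1', Measure.restrict_smul, integral_smul_measure, ENNReal.toReal_mul,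
    ENNReal.toReal_ofReal hr.le, smul_eq_mul, mul_div_mul_left _ _ hr.ne']

theorem vv_comp (T : Eu κ ≃L[ℝ] Eu κ) (A : Set (Eu κ)) (g : Eu κ → ℝ) :
    VV (T ⁻¹' A) (fun y => g (T y)) = VV A g := by
  unfold VV
  rw [← ev_comp T A g, ← ev_comp T A (fun x => g x ^ 2)]

/-- expansion of the second moments -/
theorem ev_inner_sq {A : Set (Eu κ)} (hA : IsCompact A) (u : Eu κ) :
    EV A (fun x => ⟪x, u⟫_ℝ ^ 2) = ∑ i, ∑ j, EV A (fun x => x i * x j) * u i * u j := by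
  have e : ∀ x : Eu κ, ⟪x, u⟫_ℝ ^ 2 = ∑ i, ∑ j, x i * x j * (u i * u j) := by
    intro x
    have h1 : ⟪x, u⟫_ℝ = ∑ i, x i * u i := by
      rw [PiLp.inner_apply]
      refine Finset.sum_congr rfl fun i _ => ?_
      simp [mul_comm]
    rw [h1, sq, Finset.sum_mul_sum]
    exact Finset.sum_congr rfl fun i _ => Finset.sum_congr rfl fun j _ => by ring
  have hint : ∀ i j, IntegrableOn (fun x : Eu κ => x i * x j * (u i * u j)) A := fun i j =>
    (by fun_prop : Continuous fun x : Eu κ =>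
      x i * x j * (u i * u j)).continuousOn.integrableOn_compact hA
  unfold EV
  simp only [e]
  rw [integral_finsetSum _ fun i _ => integrable_finsetSum _ fun j _ => hint i j, Finset.sum_div]
  refine Finset.sum_congr rfl fun i _ => ?_
  rw [integral_finsetSum _ fun j _ => hint i j, Finset.sum_div]
  refine Finset.sum_congr rfl fun j _ => ?_
  rw [integral_mul_const]
  ring

/-- second moments are positive -/
theorem ev_inner_pos {k : ℕ} {F : Fin k → Eu κ → ℝ} {b : Fin k → Type} [∀ j, Fintype (b j)]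
    {P : ∀ j, Eu κ →L[ℝ] Eu (b j)} {K : ℝ} (hS : Sys F P K) (hk : 0 < k) {u : Eu κ} (hu : u ≠ 0) :
    0 < EV (lev F 1) (fun x => ⟪x, u⟫_ℝ ^ 2) := by
  have hF := hS.toFam
  have hk0 : (0 : ℝ) < k := Nat.cast_pos.2 hk
  have hK1 := hS.one_le
  have hK0 : 0 < K := by linarith
  have hV := V1_pos hF
  obtain ⟨τ, hτ0, hτ1⟩ := exists_tau hF
  have hτ : Tau F τ := ⟨hτ0, hτ1⟩
  obtain ⟨S, hs⟩ := exists_S hS hk hτ0
  have hun : 0 < ‖u‖ := norm_pos_iff.2 hu
  have hSu : 0 < ‖S.symm u‖ := norm_pos_iff.2 fun h => hu (by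
    have := congrArg S h
    rwa [ContinuousLinearEquiv.apply_symm_apply, map_zero] at this)
  obtain ⟨M, hM⟩ : ∃ M : ℝ, M = 128 * K ^ 2 * k ^ 5 := ⟨_, rfl⟩
  have hM0 : 0 < M := by rw [hM]; positivity
  obtain ⟨η, hη⟩ : ∃ η : ℝ, η = 1 / Real.sqrt M := ⟨_, rfl⟩
  have hη0 : 0 < η := by rw [hη]; positivity
  have hη2 : M * η ^ 2 = 1 := by
    rw [hη, div_pow, Real.sq_sqrt hM0.le, one_pow]
    field_simp
  have h1 := var_lower hS hk hτ hs hη0.le (by rw [← hM]; exact hη2.le)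
    (v := (η / ‖S.symm u‖) • u) (by
      rw [map_smul, norm_smul, Real.norm_eq_abs, abs_of_pos (by positivity)]
      refine le_of_eq ?_
      field_simp) u
  rw [inner_smul_left, conj_trivial, real_inner_self_eq_norm_sq] at h1
  have h2 : 0 < (η / ‖S.symm u‖ * ‖u‖ ^ 2) ^ 2 * V F 1 := by positivity
  have h3 : 0 < ∫ x in lev F 1, ⟪x, u⟫_ℝ ^ 2 := by linarith
  exact div_pos h3 hV

/-- **the affine invariant form of the Poincare inequality** -/
theorem exists_aff : ∃ C : ℝ, 0 < C ∧ ∀ (κ : Type) [Fintype κ] (k : ℕ) (b : Fin k → Type)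
    [∀ j, Fintype (b j)] (P : ∀ j, Eu κ →L[ℝ] Eu (b j)) (ψ : ∀ j, Eu (b j) → ℝ) (K : ℝ), 1 ≤ K →
    (∀ j, Prof (ψ j) K) → Bornology.IsBounded {x : Eu κ | ∀ j, ψ j (P j x) < 1} → 0 < k →
    ∀ f : Eu κ → ℝ, ContDiff ℝ 1 f →
    VV {x : Eu κ | ∀ j, ψ j (P j x) < 1} f ≤ C * K ^ 2 * k ^ 5 *
      EV {x : Eu κ | ∀ j, ψ j (P j x) < 1} fun x =>
        EV {x : Eu κ | ∀ j, ψ j (P j x) < 1} fun y => (fderiv ℝ f x y) ^ 2 := by
  obtain ⟨C, hC, H⟩ := exists_pi
  refine ⟨C, hC, ?_⟩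
  intro κ _ k b _ P ψ K hK hψ hbd hk f hf
  classical
  obtain ⟨F, hFd⟩ : ∃ F : Fin k → Eu κ → ℝ, F = fun j x => ψ j (P j x) := ⟨_, rfl⟩
  have hS : Sys F P K := by
    rw [hFd]
    exact sys_of_prof hK hψ hbd
  have hF := hS.toFam
  have eΩ : {x : Eu κ | ∀ j, ψ j (P j x) < 1} = olev F := by rw [hFd]; rfl
  have hev : ∀ g : Eu κ → ℝ, EV (olev F) g = EV (lev F 1) g := fun g => by
    rw [← closure_olev hF]
    exact (ev_closure (olev_open hF) (olev_convex hF) g).symm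
  rw [eΩ]
  have hvv : VV (olev F) f = VV (lev F 1) f := by
    unfold VV
    rw [hev, hev]
  simp only [hvv, hev]
  -- the square root of the covariance matrix
  have hcpt := lev_compact hF 1
  obtain ⟨A, hA⟩ := exists_map_psd (κ := κ) (Q := Matrix.of fun i j =>
    EV (lev F 1) (fun x => x i * x j)) (by
      refine Matrix.PosSemidef.of_dotProduct_mulVec_nonneg ?_ fun x => ?_
      · ext i j
        simp only [Matrix.conjTranspose_apply, Matrix.of_apply, star_trivial]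
        refine congrArg _ ?_
        funext x
        ring
      · have h1 : star x ⬝ᵥ (Matrix.of fun i j =>
            EV (lev F 1) (fun x => x i * x j)).mulVec x =
            EV (lev F 1) (fun y => ⟪y, WithLp.toLp 2 x⟫_ℝ ^ 2) := by
          rw [ev_inner_sq hcpt]
          simp only [dotProduct, Matrix.mulVec, star_trivial, Matrix.of_apply, Finset.mul_sum]
          refine Finset.sum_congr rfl fun i _ => Finset.sum_congr rfl fun j _ => ?_
          ring
        rw [h1]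
        exact div_nonneg (integral_nonneg fun y => sq_nonneg _) ENNReal.toReal_nonneg)
  have hA' : ∀ u : Eu κ, ‖A u‖ ^ 2 = EV (lev F 1) (fun x => ⟪x, u⟫_ℝ ^ 2) := by
    intro u
    rw [hA, ev_inner_sq hcpt]
    rfl
  have hAinj : Function.Injective A := by
    rw [← LinearMap.ker_eq_bot, LinearMap.ker_eq_bot']
    intro u hu
    by_contra hne
    have h1 := ev_inner_pos hS hk hne
    rw [← hA', hu, norm_zero] at h1
    norm_num at h1
  -- the adjoint
  obtain ⟨T₀, hT₀⟩ : ∃ T₀ : Eu κ →ₗ[ℝ] Eu κ, ∀ x y, ⟪T₀ x, y⟫_ℝ = ⟪x, A y⟫_ℝ :=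
    ⟨LinearMap.adjoint A, fun x y => LinearMap.adjoint_inner_left A y x⟩
  have hAsur : Function.Surjective A := LinearMap.injective_iff_surjective.1 hAinj
  have hTinj : Function.Injective T₀ := by
    rw [← LinearMap.ker_eq_bot, LinearMap.ker_eq_bot']
    intro x hx
    obtain ⟨y, hy⟩ := hAsur x
    have h1 := hT₀ x y
    rw [hx, inner_zero_left, hy, real_inner_self_eq_norm_sq] at h1
    exact norm_eq_zero.1 (pow_eq_zero_iff two_ne_zero |>.1 h1.symm)
  let T : Eu κ ≃L[ℝ] Eu κ :=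
    (LinearEquiv.ofInjectiveEndo T₀ hTinj).toContinuousLinearEquiv
  have hT : ∀ x y, ⟪T x, y⟫_ℝ = ⟪x, A y⟫_ℝ := fun x y => hT₀ x y
  -- the transformed body
  obtain ⟨P', hP'⟩ : ∃ P' : ∀ j, Eu κ →L[ℝ] Eu (b j), ∀ j x, P' j x = P j (T x) :=
    ⟨fun j => (P j).comp (T : Eu κ →L[ℝ] Eu κ), fun _ _ => rfl⟩
  obtain ⟨F', hFd'⟩ : ∃ F' : Fin k → Eu κ → ℝ, F' = fun j x => ψ j (P' j x) := ⟨_, rfl⟩
  have hFF : ∀ j x, F' j x = F j (T x) := fun j x => by
    rw [hFd', hFd]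
    show ψ j (P' j x) = ψ j (P j (T x))
    rw [hP']
  have hbd' : Bornology.IsBounded {x : Eu κ | ∀ j, ψ j (P' j x) < 1} := by
    have h1 : {x : Eu κ | ∀ j, ψ j (P' j x) < 1} ⊆
        T.symm '' {x : Eu κ | ∀ j, ψ j (P j x) < 1} := by
      intro x hx
      refine ⟨T x, fun j => ?_, T.symm_apply_apply x⟩
      have h2 : ψ j (P' j x) < 1 := hx j
      rwa [hP'] at h2
    exact (T.symm.lipschitz.isBounded_image hbd).subset h1
  have hS' : Sys F' P' K := by
    rw [hFd']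
    exact sys_of_prof hK hψ hbd'
  have elev : lev F' 1 = T ⁻¹' lev F 1 := by
    ext x
    simp only [lev, mem_ofPred_eq, mem_preimage, hFF]
  have hVe : ∀ g : Eu κ → ℝ, EV (lev F' 1) (fun y => g (T y)) = EV (lev F 1) g := fun g => by
    rw [elev]
    exact ev_comp T _ g
  have h1 := H κ k F' b P' K hS' hk 1 one_pos (fun θ hθ => by
    obtain ⟨u, hu⟩ := hAsur θ
    have h2 : EV (lev F' 1) (fun y => ⟪y, θ⟫_ℝ ^ 2) = 1 := by
      have h3 : (fun y : Eu κ => ⟪y, θ⟫_ℝ ^ 2) = fun y => (fun x => ⟪x, u⟫_ℝ ^ 2) (T y) := by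
        funext y
        show ⟪y, θ⟫_ℝ ^ 2 = ⟪T y, u⟫_ℝ ^ 2
        rw [hT, hu]
      rw [h3, hVe (fun x => ⟪x, u⟫_ℝ ^ 2), ← hA', hu, hθ, one_pow]
    have hV' : 0 < V F' 1 := V1_pos hS'.toFam
    unfold EV at h2
    exact (div_le_iff₀ hV').1 h2.le) (fun y => f (T y)) (hf.comp T.contDiff)
  rw [elev] at h1
  have e1 := vv_comp T (lev F 1) f
  rw [e1, mul_one] at h1
  refine h1.trans (le_of_eq ?_)
  congr 1
  have e2 : (fun x : Eu κ => ‖fderiv ℝ (fun y => f (T y)) x‖ ^ 2) =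
      fun x => (fun z => EV (lev F 1) fun y => (fderiv ℝ f z y) ^ 2) (T x) := by
    funext x
    show ‖fderiv ℝ (fun y => f (T y)) x‖ ^ 2 = EV (lev F 1) fun y => (fderiv ℝ f (T x) y) ^ 2
    have hd : Differentiable ℝ f := hf.differentiable one_ne_zero
    have h2 : fderiv ℝ (fun y => f (T y)) x = (fderiv ℝ f (T x)).comp (T : Eu κ →L[ℝ] Eu κ) :=
      ((hd (T x)).hasFDerivAt.comp x T.hasFDerivAt).fderiv
    obtain ⟨w, hw⟩ : ∃ w : Eu κ, ∀ y, fderiv ℝ f (T x) y = ⟪y, w⟫_ℝ := by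
      refine ⟨(InnerProductSpace.toDual ℝ (Eu κ)).symm (fderiv ℝ f (T x)), fun y => ?_⟩
      rw [real_inner_comm, InnerProductSpace.toDual_symm_apply]
    simp only [hw]
    rw [← hA', h2]
    have h3 : (fderiv ℝ f (T x)).comp (T : Eu κ →L[ℝ] Eu κ) =
        InnerProductSpace.toDual ℝ (Eu κ) (A w) := by
      ext y
      rw [ContinuousLinearMap.comp_apply, InnerProductSpace.toDual_apply_apply]
      show fderiv ℝ f (T x) (T y) = _
      rw [hw, hT, real_inner_comm]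
    rw [h3, LinearIsometryEquiv.norm_map]
  rw [e2]
  exact ev_comp T (lev F 1) (fun z => EV (lev F 1) fun y => (fderiv ℝ f z y) ^ 2)

end Pool.Agent.H776.FE
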