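import Pool.Agent.H776.Lift

/-!
# Affine changes of variables up to a constant; blocks of coordinates
-/

set_option autoImplicit false

namespace Pool.Agent.H776

open MeasureTheory Set Filter Topology
open scoped ENNReal InnerProductSpace

section scale

variable {E F : Type*} [NormedAddCommGroup E] [NormedSpace ℝ E]
  [MeasurableSpace E] [BorelSpace E] [NormedAddCommGroup F] [NormedSpace ℝ F]
  [FiniteDimensional ℝ F] [MeasurableSpace F] [BorelSpace F]

theorem exists_scale (μ : Measure E) [μ.IsAddHaarMeasure] (ν : Measure F) [ν.IsAddHaarMeasure]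
    (e : E ≃L[ℝ] F) (b : F) : ∃ c : ℝ≥0∞, c ≠ 0 ∧ c ≠ ⊤ ∧ μ.map (fun x => e x + b) = c • ν := by
  have h1 : (μ.map e).IsAddHaarMeasure := e.isAddHaarMeasure_map μ
  have h2 := Measure.isAddLeftInvariant_eq_smul (μ.map e) ν
  refine ⟨Measure.addHaarScalarFactor (μ.map e) ν, ?_, ENNReal.coe_ne_top, ?_⟩
  · rw [ne_eq, ENNReal.coe_eq_zero]
    exact (Measure.addHaarScalarFactor_pos_of_isAddHaarMeasure (μ.map e) ν).ne'
  · have h3 : μ.map (fun x => e x + b) = (μ.map e).map fun y => y + b := by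
      rw [Measure.map_map (by fun_prop) e.continuous.measurable]
      rfl
    rw [h3, map_add_right_eq_self]
    exact h2

/-- change of variables in quotients of integrals -/
theorem integral_quot (μ : Measure E) [μ.IsAddHaarMeasure] (ν : Measure F) [ν.IsAddHaarMeasure]
    (e : E ≃L[ℝ] F) (b : F) (φ g : F → ℝ) :
    (∫ y, φ y * g y ∂ν) / (∫ y, g y ∂ν) =
      (∫ x, φ (e x + b) * g (e x + b) ∂μ) / ∫ x, g (e x + b) ∂μ := by
  obtain ⟨c, hc0, hct, hc⟩ := exists_scale μ ν e b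
  have hme : MeasurableEmbedding fun x : E => e x + b :=
    (e.toHomeomorph.trans (Homeomorph.addRight b)).measurableEmbedding
  have h1 : ∀ f : F → ℝ, ∫ x, f (e x + b) ∂μ = c.toReal * ∫ y, f y ∂ν := fun f => by
    rw [← hme.integral_map, hc, integral_smul_measure, smul_eq_mul]
  have hc' : c.toReal ≠ 0 := ENNReal.toReal_ne_zero.2 ⟨hc0, hct⟩
  rw [h1 fun y => φ y * g y, h1 g, mul_div_mul_left _ _ hc']

theorem integrable_scale (μ : Measure E) [μ.IsAddHaarMeasure] (ν : Measure F) [ν.IsAddHaarMeasure]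
    (e : E ≃L[ℝ] F) (b : F) (f : F → ℝ) :
    Integrable (fun x => f (e x + b)) μ ↔ Integrable f ν := by
  obtain ⟨c, hc0, hct, hc⟩ := exists_scale μ ν e b
  have hme : MeasurableEmbedding fun x : E => e x + b :=
    (e.toHomeomorph.trans (Homeomorph.addRight b)).measurableEmbedding
  have h1 := hme.integrable_map_iff (μ := μ) (g := f)
  rw [hc, integrable_smul_measure hc0 hct] at h1
  exact h1.symm

theorem integral_pos_scale (μ : Measure E) [μ.IsAddHaarMeasure] (ν : Measure F)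
    [ν.IsAddHaarMeasure] (e : E ≃L[ℝ] F) (b : F) (f : F → ℝ) :
    0 < ∫ x, f (e x + b) ∂μ ↔ 0 < ∫ y, f y ∂ν := by
  obtain ⟨c, hc0, hct, hc⟩ := exists_scale μ ν e b
  have hme : MeasurableEmbedding fun x : E => e x + b :=
    (e.toHomeomorph.trans (Homeomorph.addRight b)).measurableEmbedding
  have h1 : ∫ x, f (e x + b) ∂μ = c.toReal * ∫ y, f y ∂ν := by
    rw [← hme.integral_map, hc, integral_smul_measure, smul_eq_mul]
  have hc' : 0 < c.toReal := ENNReal.toReal_pos hc0 hct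
  rw [h1]
  exact ⟨fun h => pos_of_mul_pos_right h hc'.le, fun h => mul_pos hc' h⟩

end scale

section blocks

variable {κ κ' : Type} [Fintype κ] [Fintype κ']

/-- the vector with blocks `x`, `u` -/
def mk (x : Eu κ) (u : Eu κ') : Eu (κ ⊕ κ') := WithLp.toLp 2 (Sum.elim x.ofLp u.ofLp)

/-- first block -/
def pl (y : Eu (κ ⊕ κ')) : Eu κ := WithLp.toLp 2 fun i => y (Sum.inl i)

/-- second block -/
def pr (y : Eu (κ ⊕ κ')) : Eu κ' := WithLp.toLp 2 fun i => y (Sum.inr i)

@[simp] theorem mk_inl (x : Eu κ) (u : Eu κ') (i : κ) : mk x u (Sum.inl i) = x i := rfl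
@[simp] theorem mk_inr (x : Eu κ) (u : Eu κ') (i : κ') : mk x u (Sum.inr i) = u i := rfl
@[simp] theorem pl_apply (y : Eu (κ ⊕ κ')) (i : κ) : pl y i = y (Sum.inl i) := rfl
@[simp] theorem pr_apply (y : Eu (κ ⊕ κ')) (i : κ') : pr y i = y (Sum.inr i) := rfl
@[simp] theorem pl_mk (x : Eu κ) (u : Eu κ') : pl (mk x u) = x := rfl
@[simp] theorem pr_mk (x : Eu κ) (u : Eu κ') : pr (mk x u) = u := rfl
theorem mk_pl_pr (y : Eu (κ ⊕ κ')) : mk (pl y) (pr y) = y := by
  ext i
  rcases i with i | i <;> rfl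

theorem norm_mk_sq (x : Eu κ) (u : Eu κ') : ‖mk x u‖ ^ 2 = ‖x‖ ^ 2 + ‖u‖ ^ 2 := by
  rw [EuclideanSpace.norm_sq_eq, EuclideanSpace.norm_sq_eq, EuclideanSpace.norm_sq_eq,
    Fintype.sum_sum_type]
  rfl

theorem norm_sq_split (y : Eu (κ ⊕ κ')) : ‖y‖ ^ 2 = ‖pl y‖ ^ 2 + ‖pr y‖ ^ 2 := by
  rw [← norm_mk_sq, mk_pl_pr]

/-- the blocks as a linear equivalence -/
def mkE : (Eu κ × Eu κ') ≃ₗ[ℝ] Eu (κ ⊕ κ') where
  toFun p := mk p.1 p.2
  invFun y := (pl y, pr y)
  left_inv p := rfl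
  right_inv y := mk_pl_pr y
  map_add' p q := by
    ext i
    rcases i with i | i <;> rfl
  map_smul' c p := by
    ext i
    rcases i with i | i <;> rfl

/-- first block as a continuous linear map -/
noncomputable def plL : Eu (κ ⊕ κ') →L[ℝ] Eu κ :=
  LinearMap.mkContinuous
    { toFun := pl
      map_add' := fun y z => rfl
      map_smul' := fun c y => rfl } 1 (fun y => by
      rw [one_mul]
      refine (sq_le_sq₀ (norm_nonneg _) (norm_nonneg _)).1 ?_
      rw [norm_sq_split y]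
      exact le_add_of_nonneg_right (sq_nonneg _))

@[simp] theorem plL_apply (y : Eu (κ ⊕ κ')) : plL y = pl y := rfl

theorem plL_norm : ‖(plL : Eu (κ ⊕ κ') →L[ℝ] Eu κ)‖ ≤ 1 :=
  LinearMap.mkContinuous_norm_le _ zero_le_one _

/-- inclusion of the first block -/
noncomputable def inL : Eu κ →L[ℝ] Eu (κ ⊕ κ') :=
  LinearMap.mkContinuous
    { toFun := fun x => mk x 0
      map_add' := fun y z => by
        ext i
        rcases i with i | i <;> simp
      map_smul' := fun c y => by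
        ext i
        rcases i with i | i <;> simp } 1 (fun y => by
      rw [one_mul]
      refine (sq_le_sq₀ (norm_nonneg _) (norm_nonneg _)).1 ?_
      change ‖mk y 0‖ ^ 2 ≤ _
      rw [norm_mk_sq]
      simp)

@[simp] theorem inL_apply (x : Eu κ) : (inL x : Eu (κ ⊕ κ')) = mk x 0 := rfl

theorem inL_norm : ‖(inL : Eu κ →L[ℝ] Eu (κ ⊕ κ'))‖ ≤ 1 :=
  LinearMap.mkContinuous_norm_le _ zero_le_one _

theorem sub_inL_pl (y : Eu (κ ⊕ κ')) : y - inL (plL y) = mk 0 (pr y) := by
  ext i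
  rcases i with i | i <;> simp

theorem cont_pl : Continuous (pl : Eu (κ ⊕ κ') → Eu κ) :=
  (plL : Eu (κ ⊕ κ') →L[ℝ] Eu κ).continuous

end blocks

section nm

variable {κ : Type} [Fintype κ]

theorem nm_const_mul {c : ℝ} (hc : c ≠ 0) (g : Eu κ → ℝ) : nm (fun x => c * g x) = nm g := by
  unfold nm
  rw [integral_const_mul]
  congr 1
  funext x
  congr 1
  rw [mul_div_mul_left _ _ hc]

theorem Wt.const_mul {c : ℝ} (hc : 0 < c) {g : Eu κ → ℝ} (h : Wt g) : Wt fun x => c * g x := by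
  refine ⟨fun x => mul_nonneg hc.le (h.nonneg x), h.meas.const_mul c, ?_, ?_⟩
  · rw [integral_const_mul]
    exact mul_pos hc h.pos
  · refine (h.mom.const_mul c).congr (Eventually.of_forall fun x => ?_)
    simp only
    ring

end nm

end Pool.Agent.H776
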