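import Pool.Agent.H776.Box
import Pool.Agent.H776.Scale

/-!
# Sets whose fibres are boxes
-/

set_option autoImplicit false

namespace Pool.Agent.H776

open MeasureTheory Set Filter Topology
open scoped ENNReal InnerProductSpace

section fib

variable {X J : Type} [Fintype J] [NormedAddCommGroup X]

/-- data of a set with compact base `B` and with fibres which are boxes in the unit cube -/
structure FibD (B : Set X) (lo hi : J → X → ℝ) : Prop where
  cpt : IsCompact B
  clo : ∀ j, Continuous (lo j)
  chi : ∀ j, Continuous (hi j)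
  lo0 : ∀ x ∈ B, ∀ j, 0 ≤ lo j x
  lohi : ∀ x ∈ B, ∀ j, lo j x ≤ hi j x
  hi1 : ∀ x ∈ B, ∀ j, hi j x ≤ 1

/-- the set with base `B` and with boxes as fibres -/
def SF (B : Set X) (lo hi : J → X → ℝ) : Set (X × Eu J) :=
  {p | p.1 ∈ B ∧ ∀ j, lo j p.1 ≤ p.2 j ∧ p.2 j ≤ hi j p.1}

variable {B : Set X} {lo hi : J → X → ℝ}

theorem cube_compact : IsCompact {z : Eu J | ∀ j, 0 ≤ z j ∧ z j ≤ 1} := by
  refine Metric.isCompact_of_isClosed_isBounded ?_ ?_
  · rw [ofPred_forall]
    refine isClosed_iInter fun j => ?_
    change IsClosed ({z : Eu J | 0 ≤ z j} ∩ {z : Eu J | z j ≤ 1})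
    exact (isClosed_le continuous_const (by fun_prop)).inter
      (isClosed_le (by fun_prop) continuous_const)
  · refine (Metric.isBounded_closedBall (x := (0 : Eu J)) (r := Real.sqrt (Fintype.card J))).subset
      fun z hz => ?_
    rw [Metric.mem_closedBall, dist_zero_right, EuclideanSpace.norm_eq]
    refine Real.sqrt_le_sqrt ?_
    calc ∑ j, ‖z j‖ ^ 2 ≤ ∑ _j : J, (1 : ℝ) := by
          refine Finset.sum_le_sum fun j _ => ?_
          rw [Real.norm_eq_abs, sq_abs]
          nlinarith [(hz j).1, (hz j).2]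
      _ = _ := by simp

theorem SF_closed (h : FibD B lo hi) : IsClosed (SF B lo hi) := by
  have h1 : IsClosed {p : X × Eu J | p.1 ∈ B} := h.cpt.isClosed.preimage continuous_fst
  have h2 : IsClosed {p : X × Eu J | ∀ j, lo j p.1 ≤ p.2 j ∧ p.2 j ≤ hi j p.1} := by
    rw [ofPred_forall]
    refine isClosed_iInter fun j => ?_
    have h3 := h.clo j
    have h4 := h.chi j
    change IsClosed ({p : X × Eu J | lo j p.1 ≤ p.2 j} ∩ {p : X × Eu J | p.2 j ≤ hi j p.1})
    exact (isClosed_le (by fun_prop) (by fun_prop)).inter (isClosed_le (by fun_prop) (by fun_prop))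
  exact h1.inter h2

theorem SF_compact (h : FibD B lo hi) : IsCompact (SF B lo hi) := by
  refine (h.cpt.prod cube_compact).of_isClosed_subset (SF_closed h) fun p hp => ⟨hp.1, fun j => ?_⟩
  exact ⟨(h.lo0 _ hp.1 j).trans (hp.2 j).1, (hp.2 j).2.trans (h.hi1 _ hp.1 j)⟩

/-- the indicator function of the set -/
noncomputable def wF (B : Set X) (lo hi : J → X → ℝ) (p : X × Eu J) : ℝ :=
  (SF B lo hi).indicator (fun _ => 1) p

theorem wF_nonneg (p : X × Eu J) : 0 ≤ wF B lo hi p := indicator_nonneg (fun _ _ => zero_le_one) _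

theorem wF_eq (p : X × Eu J) : wF B lo hi p =
    B.indicator (fun _ => (1 : ℝ)) p.1 * bx (fun j => lo j p.1) (fun j => hi j p.1) p.2 := by
  unfold wF
  by_cases h1 : p.1 ∈ B
  · rw [indicator_of_mem h1, one_mul]
    by_cases h2 : ∀ j, lo j p.1 ≤ p.2 j ∧ p.2 j ≤ hi j p.1
    · rw [bx_mem h2, indicator_of_mem (show p ∈ SF B lo hi from ⟨h1, h2⟩)]
    · rw [bx_notMem h2, indicator_of_notMem fun h => h2 h.2]
  · rw [indicator_of_notMem h1, zero_mul, indicator_of_notMem fun h => h1 h.1]

variable [MeasureSpace X] [BorelSpace X] [SecondCountableTopology X]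
  [IsFiniteMeasureOnCompacts (volume : Measure X)] [SFinite (volume : Measure X)]

theorem wF_int (h : FibD B lo hi) {F : X × Eu J → ℝ} (hF : Continuous F) :
    Integrable fun p => F p * wF B lo hi p := by
  have : IsFiniteMeasureOnCompacts (volume : Measure (X × Eu J)) := by
    change IsFiniteMeasureOnCompacts ((volume : Measure X).prod (volume : Measure (Eu J)))
    infer_instance
  have h1 : IntegrableOn F (SF B lo hi) := hF.continuousOn.integrableOn_compact (SF_compact h)
  refine ((integrable_indicator_iff (SF_closed h).measurableSet).2 h1).congr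
    (Eventually.of_forall fun p => ?_)
  unfold wF
  by_cases hp : p ∈ SF B lo hi
  · simp [indicator_of_mem hp]
  · simp [indicator_of_notMem hp]

theorem fibM (h : FibD B lo hi) {F : X × Eu J → ℝ} (hF : Continuous F) :
    Integrable (fun x => B.indicator (fun x => ∫ z, F (x, z) *
      bx (fun j => lo j x) (fun j => hi j x) z) x) ∧
    ∫ p, F p * wF B lo hi p = ∫ x, B.indicator (fun x => ∫ z, F (x, z) *
      bx (fun j => lo j x) (fun j => hi j x) z) x := by
  have h1 := wF_int h hF
  have e : ∀ x, ∫ z, F (x, z) * wF B lo hi (x, z) = B.indicator (fun x => ∫ z, F (x, z) *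
      bx (fun j => lo j x) (fun j => hi j x) z) x := by
    intro x
    simp only [wF_eq]
    by_cases hx : x ∈ B
    · simp only [indicator_of_mem hx, one_mul]
    · simp only [indicator_of_notMem hx, zero_mul, mul_zero, integral_zero]
  have h2 := integral_prod (μ := (volume : Measure X)) (ν := (volume : Measure (Eu J))) _ h1
  have h3 := Integrable.integral_prod_left (μ := (volume : Measure X))
    (ν := (volume : Measure (Eu J))) h1
  simp only [e] at h2 h3
  exact ⟨h3, h2⟩

/-- integrals of functions of the base point -/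
theorem fibM1 (h : FibD B lo hi) {F : X → ℝ} (hF : Continuous F) :
    Integrable (fun x => B.indicator (fun x => F x * ∏ j, (hi j x - lo j x)) x) ∧
    ∫ p : X × Eu J, F p.1 * wF B lo hi p =
      ∫ x, B.indicator (fun x => F x * ∏ j, (hi j x - lo j x)) x := by
  have e : ∀ x, B.indicator (fun x => ∫ z, F x *
      bx (fun j => lo j x) (fun j => hi j x) z) x =
      B.indicator (fun x => F x * ∏ j, (hi j x - lo j x)) x := by
    intro x
    by_cases hx : x ∈ B
    · rw [indicator_of_mem hx, indicator_of_mem hx, integral_const_mul, bx_int (h.lohi x hx)]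
    · rw [indicator_of_notMem hx, indicator_of_notMem hx]
  have h1 := fibM h (F := fun p => F p.1) (hF.comp continuous_fst)
  simp only [e] at h1
  exact h1

/-- second moments of centred linear functions of the fibre coordinates -/
theorem fibM2 (h : FibD B lo hi) (θ : J → ℝ) :
    ∫ p : X × Eu J, (∑ j, θ j * (p.2 j - (lo j p.1 + hi j p.1) / 2)) ^ 2 * wF B lo hi p ≤
      (∑ j, θ j ^ 2) * ∫ p : X × Eu J, wF B lo hi p := by
  have hc : Continuous fun p : X × Eu J => (∑ j, θ j * (p.2 j - (lo j p.1 + hi j p.1) / 2)) ^ 2 := by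
    have h1 := h.clo
    have h2 := h.chi
    fun_prop
  have h1 := fibM1 h (F := fun _ => 1) continuous_const
  simp only [one_mul] at h1
  rw [(fibM h hc).2, h1.2, ← integral_const_mul]
  refine integral_mono_of_nonneg (Eventually.of_forall fun x => ?_) (h1.1.const_mul _)
    (Eventually.of_forall fun x => ?_)
  · refine indicator_nonneg (fun x _ => integral_nonneg fun z => ?_) x
    exact mul_nonneg (sq_nonneg _) (bx_nonneg _)
  · simp only
    by_cases hx : x ∈ B
    · rw [indicator_of_mem hx, indicator_of_mem hx]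
      refine (bx_sq (h.lohi x hx) (fun j => ?_) θ).2
      have := h.hi1 x hx j
      have := h.lo0 x hx j
      linarith
    · rw [indicator_of_notMem hx, indicator_of_notMem hx, mul_zero]

end fib

end Pool.Agent.H776
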