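import Pool.Agent.H776.GE1

/-!
# Densities depending on few quadratic forms, II: the tilted weight
-/

set_option autoImplicit false

namespace Pool.Agent.H776.GE

open MeasureTheory Set Filter Topology
open scoped ENNReal InnerProductSpace
open Pool.Agent.H776.FE

variable {κ : Type} [Fintype κ] {k : ℕ}
variable {F : Fin k → Eu κ → ℝ} {G : (Fin k → ℝ) → ℝ} {c M : ℝ} {μ : Fin k → ℝ}

/-- the terms of the supremum -/
noncomputable def tm (G : (Fin k → ℝ) → ℝ) (μ : Fin k → ℝ) (s r : Fin k → ℝ) : ℝ :=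
  G (s + r) * Real.exp (∑ j, μ j * r j)

/-- the tilted function of the levels -/
noncomputable def W (G : (Fin k → ℝ) → ℝ) (μ : Fin k → ℝ) (s : Fin k → ℝ) : ℝ :=
  ⨆ r : Fin k → ℚ≥0, tm G μ s fun j => ((r j : ℚ) : ℝ)

theorem tm_nonneg (hG : Gd G c M) (s r : Fin k → ℝ) : 0 ≤ tm G μ s r :=
  mul_nonneg (hG.nonneg _) (Real.exp_pos _).le

theorem tm_le (hG : Gd G c M) (hμ : ∀ j, 0 ≤ μ j) {s r : Fin k → ℝ} (hr : ∀ j, 0 ≤ r j) :
    tm G μ s r ≤ G s * Real.exp (∑ j, μ j * |M - s j|) := by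
  by_cases h : ∃ j, M < (s + r) j
  · unfold tm
    rw [hG.supp _ h, zero_mul]
    exact mul_nonneg (hG.nonneg _) (Real.exp_pos _).le
  · push Not at h
    unfold tm
    refine mul_le_mul (hG.anti _ _ fun j => ?_) (Real.exp_le_exp.2 ?_) (Real.exp_pos _).le
      (hG.nonneg _)
    · rw [Pi.add_apply]
      linarith [hr j]
    · refine Finset.sum_le_sum fun j _ => mul_le_mul_of_nonneg_left ?_ (hμ j)
      have h1 := h j
      rw [Pi.add_apply] at h1
      exact le_trans (by linarith) (le_abs_self _)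

theorem cast_nonneg (r : Fin k → ℚ≥0) (j : Fin k) : (0 : ℝ) ≤ ((r j : ℚ) : ℝ) := by
  exact_mod_cast (r j).2

theorem bddA (hG : Gd G c M) (hμ : ∀ j, 0 ≤ μ j) (s : Fin k → ℝ) :
    BddAbove (range fun r : Fin k → ℚ≥0 => tm G μ s fun j => ((r j : ℚ) : ℝ)) := by
  refine ⟨G s * Real.exp (∑ j, μ j * |M - s j|), ?_⟩
  rintro _ ⟨r, rfl⟩
  exact tm_le hG hμ (cast_nonneg r)

theorem W_nonneg (hG : Gd G c M) (s : Fin k → ℝ) : 0 ≤ W G μ s :=
  Real.iSup_nonneg fun _ => tm_nonneg hG _ _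

/-- real shifts -/
theorem tm_le_W (hG : Gd G c M) (hμ : ∀ j, 0 ≤ μ j) (s : Fin k → ℝ) {r : Fin k → ℝ}
    (hr : ∀ j, 0 ≤ r j) : tm G μ s r ≤ W G μ s := by
  -- rational approximations from below
  have hex : ∀ n : ℕ, ∃ q : Fin k → ℚ≥0, ∀ j, ((q j : ℚ) : ℝ) ≤ r j ∧
      r j - 1 / (n + 1) ≤ ((q j : ℚ) : ℝ) := by
    intro n
    have h1 : ∀ j, ∃ q : ℚ≥0, ((q : ℚ) : ℝ) ≤ r j ∧ r j - 1 / (n + 1) ≤ ((q : ℚ) : ℝ) := by
      intro j
      have hn : (0 : ℝ) < 1 / (n + 1) := by positivity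
      rcases eq_or_lt_of_le (hr j) with h0 | h0
      · refine ⟨0, ?_, ?_⟩
        · rw [← h0]
          simp
        · rw [← h0]
          simp only [NNRat.coe_zero, Rat.cast_zero]
          linarith
      · obtain ⟨q, hq1, hq2⟩ := exists_rat_btwn (show max 0 (r j - 1 / (n + 1)) < r j from
          max_lt h0 (by linarith))
        have hq0 : (0 : ℝ) ≤ q := (le_max_left _ _).trans hq1.le
        refine ⟨⟨q, by exact_mod_cast hq0⟩, hq2.le, (le_max_right _ _).trans hq1.le⟩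
    choose q hq using h1
    exact ⟨q, hq⟩
  choose q hq using hex
  have hlim : ∀ j, Tendsto (fun n => ((q n j : ℚ) : ℝ)) atTop (𝓝 (r j)) := by
    intro j
    have h1 : Tendsto (fun n : ℕ => r j - 1 / ((n : ℝ) + 1)) atTop (𝓝 (r j - 0)) :=
      tendsto_const_nhds.sub tendsto_one_div_add_atTop_nhds_zero_nat
    rw [sub_zero] at h1
    exact tendsto_of_tendsto_of_tendsto_of_le_of_le h1 tendsto_const_nhds
      (fun n => (hq n j).2) (fun n => (hq n j).1)
  have hE : Tendsto (fun n => G (s + r) * Real.exp (∑ j, μ j * ((q n j : ℚ) : ℝ))) atTop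
      (𝓝 (G (s + r) * Real.exp (∑ j, μ j * r j))) := by
    refine Tendsto.const_mul _ ?_
    refine (Real.continuous_exp.tendsto _).comp ?_
    exact tendsto_finsetSum _ fun j _ => (hlim j).const_mul _
  refine le_of_tendsto' hE fun n => ?_
  refine le_trans ?_ (le_ciSup (bddA hG hμ s) (q n))
  unfold tm
  refine mul_le_mul_of_nonneg_right (hG.anti _ _ fun j => ?_) (Real.exp_pos _).le
  rw [Pi.add_apply, Pi.add_apply]
  have := (hq n j).1
  linarith

theorem W_le {A : ℝ} (hA : 0 ≤ A) {s : Fin k → ℝ}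
    (h : ∀ r : Fin k → ℝ, (∀ j, 0 ≤ r j) → tm G μ s r ≤ A) : W G μ s ≤ A :=
  Real.iSup_le (fun r => h _ (cast_nonneg r)) hA

theorem W_ge (hG : Gd G c M) (hμ : ∀ j, 0 ≤ μ j) (s : Fin k → ℝ) : G s ≤ W G μ s := by
  have h := tm_le_W hG hμ s (r := 0) fun j => le_rfl
  unfold tm at h
  simpa using h

theorem W_anti (hG : Gd G c M) (hμ : ∀ j, 0 ≤ μ j) {s t : Fin k → ℝ} (hst : s ≤ t) :
    W G μ t ≤ W G μ s := by
  refine W_le (W_nonneg hG s) fun r hr => le_trans ?_ (tm_le_W hG hμ s hr)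
  unfold tm
  refine mul_le_mul_of_nonneg_right (hG.anti _ _ fun j => ?_) (Real.exp_pos _).le
  rw [Pi.add_apply, Pi.add_apply]
  have := hst j
  linarith

theorem W_shift (hG : Gd G c M) (hμ : ∀ j, 0 ≤ μ j) (s : Fin k → ℝ) {d : Fin k → ℝ}
    (hd : ∀ j, 0 ≤ d j) : W G μ s * Real.exp (∑ j, μ j * d j) ≤ W G μ (s - d) := by
  have h1 : W G μ s ≤ W G μ (s - d) * Real.exp (-∑ j, μ j * d j) := by
    refine W_le (mul_nonneg (W_nonneg hG _) (Real.exp_pos _).le) fun r hr => ?_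
    have h2 := tm_le_W hG hμ (s - d) (r := r + d) fun j => add_nonneg (hr j) (hd j)
    have e : tm G μ s r = tm G μ (s - d) (r + d) * Real.exp (-∑ j, μ j * d j) := by
      unfold tm
      have e1 : s - d + (r + d) = s + r := by abel
      rw [e1, mul_assoc, ← Real.exp_add]
      congr 2
      simp only [Pi.add_apply, mul_add, Finset.sum_add_distrib]
      ring
    rw [e]
    exact mul_le_mul_of_nonneg_right h2 (Real.exp_pos _).le
  calc W G μ s * Real.exp (∑ j, μ j * d j) ≤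
        W G μ (s - d) * Real.exp (-∑ j, μ j * d j) * Real.exp (∑ j, μ j * d j) :=
        mul_le_mul_of_nonneg_right h1 (Real.exp_pos _).le
    _ = W G μ (s - d) := by rw [mul_assoc, ← Real.exp_add, neg_add_cancel, Real.exp_zero, mul_one]

theorem sqrt_mid (hG : Gd G c M) (s t : Fin k → ℝ) :
    G s * G t ≤ G ((1 / 2 : ℝ) • s + (1 / 2 : ℝ) • t) ^ 2 := by
  have h1 := hG.logc s t (1 / 2) (1 / 2) (by norm_num) (by norm_num) (by norm_num)
  have h2 : 0 ≤ G s ^ (1 / 2 : ℝ) * G t ^ (1 / 2 : ℝ) :=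
    mul_nonneg (Real.rpow_nonneg (hG.nonneg _) _) (Real.rpow_nonneg (hG.nonneg _) _)
  have h3 := pow_le_pow_left₀ h2 h1 2
  rw [mul_pow, ← Real.rpow_natCast, ← Real.rpow_natCast, ← Real.rpow_mul (hG.nonneg _),
    ← Real.rpow_mul (hG.nonneg _)] at h3
  norm_num at h3
  norm_num
  exact h3

theorem W_mul (hG : Gd G c M) (hμ : ∀ j, 0 ≤ μ j) (s t : Fin k → ℝ) :
    W G μ s * W G μ t ≤ W G μ ((1 / 2 : ℝ) • s + (1 / 2 : ℝ) • t) ^ 2 := by
  obtain ⟨A, hA⟩ : ∃ A, A = W G μ ((1 / 2 : ℝ) • s + (1 / 2 : ℝ) • t) ^ 2 := ⟨_, rfl⟩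
  have hA0 : 0 ≤ A := by rw [hA]; positivity
  rw [← hA]
  have key : ∀ r r' : Fin k → ℝ, (∀ j, 0 ≤ r j) → (∀ j, 0 ≤ r' j) →
      tm G μ s r * tm G μ t r' ≤ A := by
    intro r r' hr hr'
    have h1 := tm_le_W hG hμ ((1 / 2 : ℝ) • s + (1 / 2 : ℝ) • t)
      (r := (1 / 2 : ℝ) • r + (1 / 2 : ℝ) • r') fun j => by
        simp only [Pi.add_apply, Pi.smul_apply, smul_eq_mul]
        have := hr j
        have := hr' j
        positivity
    have h2 := pow_le_pow_left₀ (tm_nonneg hG _ _) h1 2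
    rw [← hA] at h2
    refine le_trans ?_ h2
    unfold tm
    have e1 : (1 / 2 : ℝ) • s + (1 / 2 : ℝ) • t + ((1 / 2 : ℝ) • r + (1 / 2 : ℝ) • r') =
        (1 / 2 : ℝ) • (s + r) + (1 / 2 : ℝ) • (t + r') := by
      rw [smul_add, smul_add]
      abel
    have e2 : Real.exp (∑ j, μ j * ((1 / 2 : ℝ) • r + (1 / 2 : ℝ) • r') j) ^ 2 =
        Real.exp (∑ j, μ j * r j) * Real.exp (∑ j, μ j * r' j) := by
      rw [← Real.exp_add, ← Real.exp_nat_mul]
      congr 1
      rw [Finset.mul_sum, ← Finset.sum_add_distrib]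
      refine Finset.sum_congr rfl fun j _ => ?_
      simp only [Pi.add_apply, Pi.smul_apply, smul_eq_mul]
      push_cast
      ring
    rw [e1, mul_pow, e2]
    have h3 := sqrt_mid hG (s + r) (t + r')
    calc G (s + r) * Real.exp (∑ j, μ j * r j) * (G (t + r') * Real.exp (∑ j, μ j * r' j)) =
          (G (s + r) * G (t + r')) * (Real.exp (∑ j, μ j * r j) * Real.exp (∑ j, μ j * r' j)) := by
          ring
      _ ≤ _ := mul_le_mul_of_nonneg_right h3 (by positivity)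
  have h1 : ∀ r : Fin k → ℝ, (∀ j, 0 ≤ r j) → tm G μ s r * W G μ t ≤ A := by
    intro r hr
    unfold W
    rw [Real.mul_iSup_of_nonneg (tm_nonneg hG _ _)]
    exact Real.iSup_le (fun r' => key _ _ hr (cast_nonneg r')) hA0
  rw [mul_comm]
  have h2 : W G μ t * W G μ s = ⨆ r : Fin k → ℚ≥0, W G μ t * tm G μ s fun j => ((r j : ℚ) : ℝ) := by
    conv_lhs => rw [W.eq_1 G μ s]
    rw [Real.mul_iSup_of_nonneg (W_nonneg hG _)]
  rw [h2]
  exact Real.iSup_le (fun r => by rw [mul_comm]; exact h1 _ (cast_nonneg r)) hA0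

theorem W_supp (hG : Gd G c M) {s : Fin k → ℝ} (hs : ∃ j, M < s j) : W G μ s = 0 := by
  refine le_antisymm (W_le le_rfl fun r hr => ?_) (W_nonneg hG s)
  obtain ⟨j, hj⟩ := hs
  unfold tm
  rw [hG.supp _ ⟨j, by rw [Pi.add_apply]; linarith [hr j]⟩, zero_mul]

theorem W_meas (hG : Gd G c M) : Measurable (W G μ) := by
  unfold W tm
  refine Measurable.iSup fun r => ?_
  refine (hG.meas.comp ?_).mul_const _
  exact measurable_id.add_const _

theorem W_bdd (hG : Gd G c M) (hμ : ∀ j, 0 ≤ μ j) {s : Fin k → ℝ} (hs : ∀ j, 0 ≤ s j) :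
    W G μ s ≤ G 0 * Real.exp (∑ j, μ j * M) := by
  refine (W_anti hG hμ (s := 0) (t := s) hs).trans ?_
  refine W_le (mul_nonneg (hG.nonneg _) (Real.exp_pos _).le) fun r hr => ?_
  refine (tm_le hG hμ hr).trans (le_of_eq ?_)
  congr 2
  refine Finset.sum_congr rfl fun j _ => ?_
  rw [Pi.zero_apply, sub_zero, abs_of_pos hG.Mpos]

end Pool.Agent.H776.GE
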