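import Pool.Agent.H776.GE2

/-!
# Densities depending on few quadratic forms, III: the integral of the tilted weight, variances
-/

set_option autoImplicit false

namespace Pool.Agent.H776.GE

open MeasureTheory Set Filter Topology
open scoped ENNReal InnerProductSpace
open Pool.Agent.H776.FE

variable {κ : Type} [Fintype κ] {k : ℕ}
variable {F : Fin k → Eu κ → ℝ} {G : (Fin k → ℝ) → ℝ} {c M : ℝ}

/-- the exponential bound -/
structure Lam (F : Fin k → Eu κ → ℝ) (G : (Fin k → ℝ) → ℝ) (l : Fin k → ℝ) : Prop where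
  nonneg : ∀ j, 0 ≤ l j
  le : ∀ t : Fin k → ℝ, N F G t ≤ N F G 0 * Real.exp (-∑ j, l j * t j)

/-- the rates of the tilt -/
noncomputable def rt (l : Fin k → ℝ) (j : Fin k) : ℝ := l j / (2 * k)

theorem rt_nonneg {l : Fin k → ℝ} (hl : ∀ j, 0 ≤ l j) (j : Fin k) : 0 ≤ rt l j :=
  div_nonneg (hl j) (by positivity)

theorem N0_pos (hF : Fam F) (hG : Gd G c M) : 0 < N F G 0 := N_pos hF hG fun _ => hG.cpos

open Classical in
/-- the bound for the `j`-th direction -/
noncomputable def bd (F : Fin k → Eu κ → ℝ) (G : (Fin k → ℝ) → ℝ) (l : Fin k → ℝ) (j : Fin k)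
    (x : Eu κ) : ℝ≥0∞ :=
  if l j = 0 then ENNReal.ofReal (den F G 0 x) else
    ∑' m : ℕ, ENNReal.ofReal (Real.exp (((m : ℝ) + 1) / 2)) *
      ENNReal.ofReal (den F G (Pi.single j (m / l j)) x)

theorem bd_ge (hG : Gd G c M) {l : Fin k → ℝ} (hl : ∀ j, 0 ≤ l j) (j : Fin k) (x : Eu κ)
    {u : ℝ} (hu : 0 ≤ u) :
    ENNReal.ofReal (den F G (Pi.single j u) x * Real.exp (l j * u / 2)) ≤ bd F G l j x := by
  unfold bd
  by_cases h0 : l j = 0
  · rw [if_pos h0, h0, zero_mul, zero_div, Real.exp_zero, mul_one]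
    refine ENNReal.ofReal_le_ofReal (den_anti hG (fun i => ?_) x)
    by_cases hij : i = j
    · rw [hij, Pi.single_eq_same]
      exact hu
    · rw [Pi.single_eq_of_ne hij, Pi.zero_apply]
  · rw [if_neg h0]
    have hlj : 0 < l j := lt_of_le_of_ne (hl j) (Ne.symm h0)
    obtain ⟨m, hm⟩ : ∃ m, m = ⌊l j * u⌋₊ := ⟨_, rfl⟩
    have h1 : (m : ℝ) ≤ l j * u := by rw [hm]; exact Nat.floor_le (by positivity)
    have h2 : l j * u < m + 1 := by rw [hm]; exact Nat.lt_floor_add_one _
    refine le_trans ?_ (ENNReal.le_tsum m)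
    rw [← ENNReal.ofReal_mul (Real.exp_pos _).le, mul_comm]
    refine ENNReal.ofReal_le_ofReal ?_
    refine mul_le_mul (Real.exp_le_exp.2 (by linarith)) (den_anti hG (fun i => ?_) x)
      (den_nonneg hG _ _) (Real.exp_pos _).le
    by_cases hij : i = j
    · rw [hij, Pi.single_eq_same, Pi.single_eq_same, div_le_iff₀ hlj]
      linarith
    · rw [Pi.single_eq_of_ne hij, Pi.single_eq_of_ne hij]

theorem num_aux : ∑' m : ℕ, ENNReal.ofReal (Real.exp (1 / 2)) *
    ENNReal.ofReal (Real.exp (-(1 / 2))) ^ m ≤ ENNReal.ofReal (9 / 2) := by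
  rw [ENNReal.tsum_mul_left, ENNReal.tsum_geometric]
  have h1 : Real.exp (1 / 2 : ℝ) ≤ 1.65 := by
    have h2 := Real.exp_one_lt_d9
    have h3 : Real.exp (1 / 2 : ℝ) ^ 2 = Real.exp 1 := by
      rw [← Real.exp_nat_mul]
      norm_num
    nlinarith [Real.exp_pos (1 / 2 : ℝ)]
  have h2 : Real.exp (-(1 / 2) : ℝ) ≤ 0.62 := by
    have h3 : (1.64 : ℝ) ≤ Real.exp (1 / 2) := by
      have h4 := Real.exp_one_gt_d9
      have h5 : Real.exp (1 / 2 : ℝ) ^ 2 = Real.exp 1 := by
        rw [← Real.exp_nat_mul]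
        norm_num
      nlinarith [Real.exp_pos (1 / 2 : ℝ)]
    have h4 : Real.exp (-(1 / 2) : ℝ) * Real.exp (1 / 2) = 1 := by
      rw [← Real.exp_add]
      norm_num
    nlinarith [Real.exp_pos (-(1 / 2) : ℝ)]
  have h3 : ENNReal.ofReal (0.38) ≤ 1 - ENNReal.ofReal (Real.exp (-(1 / 2))) := by
    have e : (1 : ℝ≥0∞) = ENNReal.ofReal 1 := ENNReal.ofReal_one.symm
    rw [e, ← ENNReal.ofReal_sub _ (Real.exp_pos _).le]
    refine ENNReal.ofReal_le_ofReal ?_
    linarith
  calc ENNReal.ofReal (Real.exp (1 / 2)) * (1 - ENNReal.ofReal (Real.exp (-(1 / 2))))⁻¹ ≤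
        ENNReal.ofReal 1.65 * (ENNReal.ofReal 0.38)⁻¹ :=
        mul_le_mul' (ENNReal.ofReal_le_ofReal h1) (ENNReal.inv_le_inv.2 h3)
    _ = ENNReal.ofReal (1.65 * (0.38)⁻¹) := by
        rw [ENNReal.ofReal_mul (by norm_num), ENNReal.ofReal_inv_of_pos (by norm_num)]
    _ ≤ ENNReal.ofReal (9 / 2) := ENNReal.ofReal_le_ofReal (by norm_num)

theorem bd_meas (hF : Fam F) (hG : Gd G c M) (l : Fin k → ℝ) (j : Fin k) :
    Measurable (bd F G l j) := by
  unfold bd
  by_cases h0 : l j = 0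
  · simp only [if_pos h0]
    exact (den_meas hF hG 0).ennreal_ofReal
  · simp only [if_neg h0]
    refine Measurable.ennreal_tsum fun m => ?_
    exact (den_meas hF hG _).ennreal_ofReal.const_mul _

theorem bd_int (hF : Fam F) (hG : Gd G c M) {l : Fin k → ℝ} (hl : Lam F G l) (j : Fin k) :
    ∫⁻ x, bd F G l j x ≤ ENNReal.ofReal (9 / 2) * ENNReal.ofReal (N F G 0) := by
  unfold bd
  by_cases h0 : l j = 0
  · simp only [if_pos h0]
    rw [← N_ofReal hF hG]
    refine le_mul_of_one_le_left bot_le ?_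
    rw [ENNReal.one_le_ofReal]
    norm_num
  · simp only [if_neg h0]
    have hlj : 0 < l j := lt_of_le_of_ne (hl.nonneg j) (Ne.symm h0)
    rw [lintegral_tsum fun m => ((den_meas hF hG _).ennreal_ofReal.const_mul _).aemeasurable]
    have h1 : ∀ m : ℕ, ∫⁻ x, ENNReal.ofReal (Real.exp (((m : ℝ) + 1) / 2)) *
        ENNReal.ofReal (den F G (Pi.single j (m / l j)) x) ≤
        (ENNReal.ofReal (Real.exp (1 / 2)) * ENNReal.ofReal (Real.exp (-(1 / 2))) ^ m) *
          ENNReal.ofReal (N F G 0) := by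
      intro m
      rw [lintegral_const_mul _ (den_meas hF hG _).ennreal_ofReal, ← N_ofReal hF hG,
        ← ENNReal.ofReal_mul (Real.exp_pos _).le, ← ENNReal.ofReal_pow (Real.exp_pos _).le,
        ← ENNReal.ofReal_mul (Real.exp_pos _).le, ← ENNReal.ofReal_mul (by positivity)]
      refine ENNReal.ofReal_le_ofReal ?_
      have h2 := hl.le (Pi.single j (m / l j))
      have h3 : ∑ i, l i * (Pi.single j (m / l j) : Fin k → ℝ) i = m := by
        rw [Finset.sum_eq_single j]
        · rw [Pi.single_eq_same]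
          field_simp
        · intro i _ hi
          rw [Pi.single_eq_of_ne hi, mul_zero]
        · intro h
          exact absurd (Finset.mem_univ j) h
      rw [h3] at h2
      refine (mul_le_mul_of_nonneg_left h2 (Real.exp_pos _).le).trans (le_of_eq ?_)
      rw [← Real.exp_nat_mul, ← Real.exp_add]
      have e : Real.exp (((m : ℝ) + 1) / 2) * (N F G 0 * Real.exp (-(m : ℝ))) =
          (Real.exp (((m : ℝ) + 1) / 2) * Real.exp (-(m : ℝ))) * N F G 0 := by ring
      rw [e, ← Real.exp_add]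
      congr 2
      ring
    refine (ENNReal.tsum_le_tsum h1).trans ?_
    rw [ENNReal.tsum_mul_right]
    exact mul_le_mul_left num_aux _

/-- the pointwise bound of the tilted function -/
theorem W_le_bd (hG : Gd G c M) (hk : 0 < k) {l : Fin k → ℝ}
    (hl : ∀ j, 0 ≤ l j) (x : Eu κ) :
    ENNReal.ofReal (W G (rt l) fun j => F j x) ≤
      ∑ j, ENNReal.ofReal (1 / k) * bd F G l j x := by
  have hk0 : (0 : ℝ) < k := Nat.cast_pos.2 hk
  obtain ⟨B, hB⟩ : ∃ B, B = ∑ j, ENNReal.ofReal (1 / k) * bd F G l j x := ⟨_, rfl⟩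
  rw [← hB]
  have key : ∀ r : Fin k → ℝ, (∀ j, 0 ≤ r j) →
      ENNReal.ofReal (tm G (rt l) (fun j => F j x) r) ≤ B := by
    intro r hr
    have h1 : Real.exp (∑ j, rt l j * r j) ≤ ∑ j : Fin k, (1 / k : ℝ) * Real.exp (l j * r j / 2) := by
      have h2 : Real.exp (∑ j : Fin k, (1 / k : ℝ) • (l j * r j / 2)) ≤
          ∑ j : Fin k, (1 / k : ℝ) • Real.exp (l j * r j / 2) := by
        refine convexOn_exp.map_sum_le (fun j _ => by positivity) ?_ fun j _ => mem_univ _
        rw [Finset.sum_const, Finset.card_univ, Fintype.card_fin, nsmul_eq_mul]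
        field_simp
      simp only [smul_eq_mul] at h2
      refine le_trans (le_of_eq ?_) h2
      congr 1
      refine Finset.sum_congr rfl fun j _ => ?_
      unfold rt
      field_simp
    have h2 : tm G (rt l) (fun j => F j x) r ≤
        ∑ j : Fin k, (1 / k : ℝ) * (den F G (Pi.single j (r j)) x * Real.exp (l j * r j / 2)) := by
      unfold tm
      refine (mul_le_mul_of_nonneg_left h1 (hG.nonneg _)).trans ?_
      rw [Finset.mul_sum]
      refine Finset.sum_le_sum fun j _ => ?_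
      have h3 : G ((fun j => F j x) + r) ≤ den F G (Pi.single j (r j)) x := by
        refine hG.anti _ _ fun i => ?_
        rw [Pi.add_apply]
        by_cases hij : i = j
        · rw [hij, Pi.single_eq_same]
        · rw [Pi.single_eq_of_ne hij]
          linarith [hr i]
      calc G ((fun j => F j x) + r) * ((1 / k : ℝ) * Real.exp (l j * r j / 2)) ≤
            den F G (Pi.single j (r j)) x * ((1 / k : ℝ) * Real.exp (l j * r j / 2)) :=
            mul_le_mul_of_nonneg_right h3 (by positivity)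
        _ = _ := by ring
    refine (ENNReal.ofReal_le_ofReal h2).trans ?_
    rw [ENNReal.ofReal_sum_of_nonneg fun j _ =>
      mul_nonneg (by positivity) (mul_nonneg (den_nonneg hG _ _) (Real.exp_pos _).le), hB]
    refine Finset.sum_le_sum fun j _ => ?_
    rw [ENNReal.ofReal_mul (by positivity)]
    exact mul_le_mul_right (bd_ge hG hl j x (hr j)) _
  by_cases hBt : B = ⊤
  · rw [hBt]
    exact le_top
  · rw [ENNReal.ofReal_le_iff_le_toReal hBt]
    refine W_le ENNReal.toReal_nonneg fun r hr => ?_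
    exact (ENNReal.ofReal_le_iff_le_toReal hBt).1 (key r hr)

/-- **the integral of the tilted weight** -/
theorem W_lint (hF : Fam F) (hG : Gd G c M) (hk : 0 < k) {l : Fin k → ℝ} (hl : Lam F G l) :
    ∫⁻ x, ENNReal.ofReal (W G (rt l) fun j => F j x) ≤ ENNReal.ofReal (9 / 2 * N F G 0) := by
  have hk0 : (0 : ℝ) < k := Nat.cast_pos.2 hk
  refine (lintegral_mono fun x => W_le_bd hG hk hl.nonneg x).trans ?_
  rw [lintegral_finsetSum _ fun j _ => (bd_meas hF hG l j).const_mul _]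
  have h1 : ∀ j : Fin k, ∫⁻ x, ENNReal.ofReal (1 / k) * bd F G l j x ≤
      ENNReal.ofReal (1 / k * (9 / 2 * N F G 0)) := by
    intro j
    rw [lintegral_const_mul _ (bd_meas hF hG l j), ENNReal.ofReal_mul (by positivity),
      ENNReal.ofReal_mul (by norm_num : (0 : ℝ) ≤ 9 / 2)]
    exact mul_le_mul_right (bd_int hF hG hl j) _
  refine (Finset.sum_le_sum fun j _ => h1 j).trans (le_of_eq ?_)
  rw [Finset.sum_const, Finset.card_univ, Fintype.card_fin, nsmul_eq_mul,
    ← ENNReal.ofReal_natCast, ← ENNReal.ofReal_mul hk0.le]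
  congr 1
  field_simp

/-- the strong convexity rates -/
noncomputable def sg (l : Fin k → ℝ) (M : ℝ) (j : Fin k) : ℝ := l j + 1 / M

theorem sg_pos {l : Fin k → ℝ} (hl : ∀ j, 0 ≤ l j) {M : ℝ} (hM : 0 < M) (j : Fin k) :
    0 < sg l M j := by
  have := hl j
  unfold sg
  positivity

section sys

variable {b : Fin k → Type} [∀ j, Fintype (b j)] {P : ∀ j, Eu κ →L[ℝ] Eu (b j)} {K : ℝ}

/-- the linear change of coordinates -/
theorem exists_S' (hS : Sys F P K) (hk : 0 < k) {σ : Fin k → ℝ} (hσ : ∀ j, 0 < σ j) :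
    ∃ S : Eu κ ≃L[ℝ] Eu κ, ∀ z, ‖S.symm z‖ ^ 2 = ∑ j, σ j / k * ‖P j z‖ ^ 2 := by
  have hk0 : (0 : ℝ) < k := Nat.cast_pos.2 hk
  have hs : ∀ j, 0 < σ j / k := fun j => div_pos (hσ j) hk0
  let L : Eu κ →ₗ[ℝ] PiLp 2 (fun j => Eu (b j)) :=
    { toFun := fun z => WithLp.toLp 2 fun j => Real.sqrt (σ j / k) • P j z
      map_add' := fun x y => by
        ext j
        simp
      map_smul' := fun c x => by
        ext j
        simp [smul_smul, mul_comm] }
  have hLn : ∀ z, ‖L z‖ ^ 2 = ∑ j, σ j / k * ‖P j z‖ ^ 2 := by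
    intro z
    rw [PiLp.norm_sq_eq_of_L2]
    refine Finset.sum_congr rfl fun j _ => ?_
    show ‖Real.sqrt (σ j / k) • P j z‖ ^ 2 = _
    rw [norm_smul, mul_pow, Real.norm_eq_abs, sq_abs, Real.sq_sqrt (hs j).le]
  obtain ⟨B, hB⟩ := exists_sqrt L (fun z hz => by
    refine hS.inj z fun j => ?_
    have h1 := hLn z
    rw [hz, norm_zero, zero_pow two_ne_zero] at h1
    have h2 := (Finset.sum_eq_zero_iff_of_nonneg fun j _ => by
      have := (hs j).le
      positivity).1 h1.symm j (Finset.mem_univ j)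
    rcases mul_eq_zero.1 h2 with h3 | h3
    · exact absurd h3 (hs j).ne'
    · exact norm_eq_zero.1 (pow_eq_zero_iff two_ne_zero |>.1 h3))
  refine ⟨B.symm, fun z => ?_⟩
  rw [ContinuousLinearEquiv.symm_symm, hB, hLn]

/-- the exponent of the additional factor -/
noncomputable def xf (F : Fin k → Eu κ → ℝ) (M : ℝ) (x : Eu κ) : ℝ :=
  ∑ j, (1 / M) * (M - F j x) / (2 * k)

theorem xf_le (hF : Fam F) (hk : 0 < k) (hM : 0 < M) (x : Eu κ) : xf F M x ≤ 1 / 2 := by
  have hk0 : (0 : ℝ) < k := Nat.cast_pos.2 hk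
  unfold xf
  have h1 : ∀ j : Fin k, (1 / M) * (M - F j x) / (2 * k) ≤ 1 / (2 * k) := by
    intro j
    have := hF.nonneg j x
    refine div_le_div_of_nonneg_right ?_ (by positivity)
    have h2 : 1 / M * (M - F j x) = 1 - F j x / M := by field_simp
    rw [h2]
    have : 0 ≤ F j x / M := by positivity
    linarith
  refine (Finset.sum_le_sum fun j _ => h1 j).trans (le_of_eq ?_)
  rw [Finset.sum_const, Finset.card_univ, Fintype.card_fin, nsmul_eq_mul]
  field_simp

theorem xf_nonneg (hM : 0 < M) {x : Eu κ} (hx : x ∈ lev F fun _ => M) : 0 ≤ xf F M x := by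
  refine Finset.sum_nonneg fun j _ => ?_
  have h1 : F j x ≤ M := hx j
  have h2 : 0 ≤ M - F j x := by linarith
  positivity

/-- the weight -/
noncomputable def wt' (F : Fin k → Eu κ → ℝ) (G : (Fin k → ℝ) → ℝ) (l : Fin k → ℝ) (M : ℝ)
    (x : Eu κ) : ℝ := W G (rt l) (fun j => F j x) * Real.exp (xf F M x)

theorem wt'_nonneg (hG : Gd G c M) (l : Fin k → ℝ) (x : Eu κ) : 0 ≤ wt' F G l M x :=
  mul_nonneg (W_nonneg hG _) (Real.exp_pos _).le

theorem xf_cont (hF : Fam F) : Continuous (xf F M) := by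
  unfold xf
  refine continuous_finsetSum _ fun j _ => ?_
  have := hF.cont j
  fun_prop

theorem wt'_meas (hF : Fam F) (hG : Gd G c M) (l : Fin k → ℝ) : Measurable (wt' F G l M) :=
  ((W_meas hG).comp (measurable_pi_lambda _ fun j => (hF.cont j).measurable)).mul
    (xf_cont hF).rexp.measurable

theorem wt'_bdd (hF : Fam F) (hG : Gd G c M) (hk : 0 < k) {l : Fin k → ℝ} (hl : ∀ j, 0 ≤ l j) :
    ∃ B, ∀ x, wt' F G l M x ≤ B := by
  refine ⟨G 0 * Real.exp (∑ j, rt l j * M) * Real.exp (1 / 2), fun x => ?_⟩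
  exact mul_le_mul (W_bdd hG (rt_nonneg hl) fun j => hF.nonneg j x)
    (Real.exp_le_exp.2 (xf_le hF hk hG.Mpos x)) (Real.exp_pos _).le
    (mul_nonneg (hG.nonneg _) (Real.exp_pos _).le)

theorem wt'_zero (hG : Gd G c M) (l : Fin k → ℝ) {x : Eu κ} (hx : x ∉ lev F fun _ => M) :
    wt' F G l M x = 0 := by
  unfold wt'
  rw [W_supp hG, zero_mul]
  by_contra hcon
  push Not at hcon
  exact hx hcon

theorem wt'_supp (hF : Fam F) (hG : Gd G c M) (l : Fin k → ℝ) :
    Pool.Agent.H212R2.KLS.Bdd (wt' F G l M) := by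
  obtain ⟨R, hR⟩ := (lev_compact hF fun _ => M).isBounded.exists_norm_le
  refine ⟨R, fun x hx => wt'_zero hG l fun hm => ?_⟩
  have := hR x hm
  linarith

theorem wt'_ge (hG : Gd G c M) {l : Fin k → ℝ} (hl : ∀ j, 0 ≤ l j) (x : Eu κ) :
    den F G 0 x ≤ wt' F G l M x := by
  by_cases hx : x ∈ lev F fun _ => M
  · have h1 : den F G 0 x ≤ W G (rt l) fun j => F j x := by
      unfold den
      simp only [Pi.zero_apply, add_zero]
      exact W_ge hG (rt_nonneg hl) _
    unfold wt'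
    have h2 : 1 ≤ Real.exp (xf F M x) := Real.one_le_exp (xf_nonneg hG.Mpos hx)
    have h3 := W_nonneg (μ := rt l) hG (fun j => F j x)
    nlinarith
  · have h1 : den F G 0 x = 0 := den_supp hG (by simpa using hx)
    rw [h1]
    exact wt'_nonneg hG l x

theorem wt'_int (hF : Fam F) (hG : Gd G c M) (hk : 0 < k) {l : Fin k → ℝ} (hl : Lam F G l) :
    Integrable (wt' F G l M) ∧ ∫ x, wt' F G l M x ≤ 8 * N F G 0 := by
  have hm := wt'_meas hF hG l
  have hN := N0_pos hF hG
  have h1 : ∫⁻ x, ENNReal.ofReal (wt' F G l M x) ≤ ENNReal.ofReal (8 * N F G 0) := by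
    calc ∫⁻ x, ENNReal.ofReal (wt' F G l M x) ≤
          ∫⁻ x, ENNReal.ofReal (Real.exp (1 / 2)) * ENNReal.ofReal (W G (rt l) fun j => F j x) := by
          refine lintegral_mono fun x => ?_
          rw [← ENNReal.ofReal_mul (Real.exp_pos _).le]
          refine ENNReal.ofReal_le_ofReal ?_
          unfold wt'
          rw [mul_comm]
          exact mul_le_mul_of_nonneg_right (Real.exp_le_exp.2 (xf_le hF hk hG.Mpos x))
            (W_nonneg hG _)
      _ = ENNReal.ofReal (Real.exp (1 / 2)) *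
            ∫⁻ x, ENNReal.ofReal (W G (rt l) fun j => F j x) := by
          refine lintegral_const_mul _ (Measurable.ennreal_ofReal ?_)
          exact (W_meas hG).comp (measurable_pi_lambda _ fun j => (hF.cont j).measurable)
      _ ≤ ENNReal.ofReal (Real.exp (1 / 2)) * ENNReal.ofReal (9 / 2 * N F G 0) :=
          mul_le_mul_right (W_lint hF hG hk hl) _
      _ = ENNReal.ofReal (Real.exp (1 / 2) * (9 / 2 * N F G 0)) :=
          (ENNReal.ofReal_mul (Real.exp_pos _).le).symm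
      _ ≤ ENNReal.ofReal (8 * N F G 0) := by
          refine ENNReal.ofReal_le_ofReal ?_
          have h2 : Real.exp (1 / 2 : ℝ) ≤ 1.65 := by
            have h2 := Real.exp_one_lt_d9
            have h3 : Real.exp (1 / 2 : ℝ) ^ 2 = Real.exp 1 := by
              rw [← Real.exp_nat_mul]
              norm_num
            nlinarith [Real.exp_pos (1 / 2 : ℝ)]
          nlinarith
  have hi : Integrable (wt' F G l M) := by
    refine ⟨hm.aestronglyMeasurable, ?_⟩
    rw [hasFiniteIntegral_iff_ofReal (Eventually.of_forall (wt'_nonneg hG l))]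
    exact h1.trans_lt ENNReal.ofReal_lt_top
  refine ⟨hi, ?_⟩
  rw [← ofReal_integral_eq_lintegral_ofReal hi (Eventually.of_forall (wt'_nonneg hG l))] at h1
  exact (ENNReal.ofReal_le_ofReal_iff (by positivity)).1 h1

/-- strong log-concavity -/
theorem wt'_mid (hS : Sys F P K) (hG : Gd G c M) (hk : 0 < k) {l : Fin k → ℝ}
    (hl : ∀ j, 0 ≤ l j) {S : Eu κ ≃L[ℝ] Eu κ}
    (hs : ∀ z, ‖S.symm z‖ ^ 2 = ∑ j, sg l M j / k * ‖P j z‖ ^ 2) (x y : Eu κ) :
    wt' F G l M x * wt' F G l M y ≤ (wt' F G l M ((1 / 2 : ℝ) • (x + y))) ^ 2 *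
      Real.exp (-(‖S.symm (x - y)‖ ^ 2 / 4)) := by
  have hk0 : (0 : ℝ) < k := Nat.cast_pos.2 hk
  have hM := hG.Mpos
  obtain ⟨m, hm⟩ : ∃ m, m = (1 / 2 : ℝ) • (x + y) := ⟨_, rfl⟩
  obtain ⟨d, hd⟩ : ∃ d : Fin k → ℝ, d = fun j => ‖P j (x - y)‖ ^ 2 / 4 := ⟨_, rfl⟩
  have hd0 : ∀ j, 0 ≤ d j := fun j => by rw [hd]; positivity
  rw [← hm]
  have hstr : ∀ j, F j m ≤ (F j x + F j y) / 2 - d j := fun j => by
    have h := hS.strong j x y
    rw [← hm] at h
    rw [hd]
    show F j m ≤ (F j x + F j y) / 2 - ‖P j (x - y)‖ ^ 2 / 4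
    linarith
  -- the tilted part
  obtain ⟨E, hE⟩ : ∃ E, E = ∑ j, rt l j * d j := ⟨_, rfl⟩
  have h1 : W G (rt l) (fun j => F j x) * W G (rt l) (fun j => F j y) ≤
      W G (rt l) (fun j => F j m) ^ 2 * Real.exp (-(2 * E)) := by
    have h2 := W_mul (μ := rt l) hG (rt_nonneg hl) (fun j => F j x) (fun j => F j y)
    have h3 := W_shift (μ := rt l) hG (rt_nonneg hl)
      ((1 / 2 : ℝ) • (fun j => F j x) + (1 / 2 : ℝ) • fun j => F j y) hd0
    have h4 : W G (rt l) ((1 / 2 : ℝ) • (fun j => F j x) + (1 / 2 : ℝ) • (fun j => F j y) - d) ≤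
        W G (rt l) fun j => F j m := W_anti hG (rt_nonneg hl) fun j => by
      simp only [Pi.add_apply, Pi.smul_apply, Pi.sub_apply, smul_eq_mul]
      have := hstr j
      linarith
    have h5 := h3.trans h4
    rw [← hE] at h5
    have h6 := pow_le_pow_left₀ (mul_nonneg (W_nonneg hG _) (Real.exp_pos _).le) h5 2
    rw [mul_pow, ← Real.exp_nat_mul] at h6
    have h7 := mul_le_mul_of_nonneg_right h6 (Real.exp_pos (-(2 * E))).le
    rw [mul_assoc, ← Real.exp_add] at h7
    have e : ((2 : ℕ) : ℝ) * E + -(2 * E) = 0 := by push_cast; ring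
    rw [e, Real.exp_zero, mul_one] at h7
    exact h2.trans h7
  -- the additional factor
  have h2 : xf F M x + xf F M y ≤ 2 * xf F M m - ∑ j, (1 / M) * (2 * d j) / (2 * k) := by
    unfold xf
    rw [← Finset.sum_add_distrib, Finset.mul_sum, ← Finset.sum_sub_distrib]
    refine Finset.sum_le_sum fun j _ => ?_
    have h3 := hstr j
    have h4 : 0 ≤ 1 / M / (2 * k) := by positivity
    have h5 := mul_le_mul_of_nonneg_left h3 h4
    have e1 : 1 / M * (M - F j x) / (2 * k) + 1 / M * (M - F j y) / (2 * k) =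
      1 / M / (2 * k) * (2 * M) - 1 / M / (2 * k) * (F j x + F j y) := by ring
    have e2 : 2 * (1 / M * (M - F j m) / (2 * k)) - 1 / M * (2 * d j) / (2 * k) =
      1 / M / (2 * k) * (2 * M) - 2 * (1 / M / (2 * k) * F j m) - 2 * (1 / M / (2 * k) * d j) := by ring
    rw [e1, e2]
    have e3 : 1 / M / (2 * ↑k) * ((F j x + F j y) / 2 - d j) =
      1 / M / (2 * k) * (F j x + F j y) / 2 - 1 / M / (2 * k) * d j := by ring
    rw [e3] at h5
    linarith
  have h3 : Real.exp (xf F M x) * Real.exp (xf F M y) ≤ Real.exp (xf F M m) ^ 2 *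
      Real.exp (-∑ j, (1 / M) * (2 * d j) / (2 * k)) := by
    rw [← Real.exp_add, ← Real.exp_nat_mul, ← Real.exp_add]
    refine Real.exp_le_exp.2 ?_
    push_cast
    linarith
  have h4 := mul_le_mul h1 h3 (by positivity)
    (mul_nonneg (sq_nonneg _) (Real.exp_pos _).le)
  unfold wt'
  calc W G (rt l) (fun j => F j x) * Real.exp (xf F M x) *
        (W G (rt l) (fun j => F j y) * Real.exp (xf F M y)) =
        (W G (rt l) (fun j => F j x) * W G (rt l) (fun j => F j y)) *
        (Real.exp (xf F M x) * Real.exp (xf F M y)) := by ring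
    _ ≤ _ := h4
    _ = (W G (rt l) (fun j => F j m) * Real.exp (xf F M m)) ^ 2 *
        (Real.exp (-(2 * E)) * Real.exp (-∑ j, (1 / M) * (2 * d j) / (2 * k))) := by ring
    _ = _ := by
      congr 1
      rw [← Real.exp_add]
      congr 1
      rw [hs, hE, Finset.mul_sum, ← neg_add, ← Finset.sum_add_distrib, Finset.sum_div]
      congr 1
      refine Finset.sum_congr rfl fun j _ => ?_
      rw [hd]
      unfold rt sg
      field_simp

/-- **variances of functions with bounded gradients** -/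
theorem var_bound' (hS : Sys F P K) (hG : Gd G c M) (hk : 0 < k) {l : Fin k → ℝ}
    (hl : Lam F G l) {S : Eu κ ≃L[ℝ] Eu κ}
    (hs : ∀ z, ‖S.symm z‖ ^ 2 = ∑ j, sg l M j / k * ‖P j z‖ ^ 2)
    {f : Eu κ → ℝ} (hf : ContDiff ℝ 1 f) {B : ℝ}
    (hB : ∀ x, ‖(fderiv ℝ f x).comp (S : Eu κ →L[ℝ] Eu κ)‖ ≤ B) :
    ∃ a : ℝ, ∫ x, (f x - a) ^ 2 * den F G 0 x ≤ 8 * B ^ 2 * N F G 0 := by
  have hF := hS.toFam
  obtain ⟨a, ha⟩ := Pool.Agent.H888R2.KT.bl_lin (wt' F G l M) (wt'_nonneg hG l) (wt'_meas hF hG l)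
    (wt'_bdd hF hG hk hl.nonneg) (wt'_supp hF hG l) S (wt'_mid hS hG hk hl.nonneg hs) f hf
  refine ⟨a, ?_⟩
  obtain ⟨hwi, hwN⟩ := wt'_int hF hG hk hl
  have hcf : Continuous f := hf.continuous
  -- integrability against the weight
  have hint : ∀ g : Eu κ → ℝ, Continuous g → Integrable (fun x => g x * wt' F G l M x) := by
    intro g hg
    obtain ⟨B', hB'⟩ := (lev_compact hF fun _ => M).exists_bound_of_continuousOn hg.continuousOn
    refine (hwi.const_mul B').mono' (hg.aestronglyMeasurable.mul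
      (wt'_meas hF hG l).aestronglyMeasurable) (Eventually.of_forall fun x => ?_)
    rw [norm_mul, Real.norm_of_nonneg (wt'_nonneg hG l x)]
    by_cases hx : x ∈ lev F fun _ => M
    · exact mul_le_mul_of_nonneg_right (hB' x hx) (wt'_nonneg hG l x)
    · rw [wt'_zero hG l hx, mul_zero, mul_zero]
  have h1 : ∫ x, (f x - a) ^ 2 * den F G 0 x ≤ ∫ x, (f x - a) ^ 2 * wt' F G l M x := by
    refine integral_mono_of_nonneg (Eventually.of_forall fun x =>
      mul_nonneg (sq_nonneg _) (den_nonneg hG _ x)) (hint _ (by fun_prop))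
      (Eventually.of_forall fun x => ?_)
    exact mul_le_mul_of_nonneg_left (wt'_ge hG hl.nonneg x) (sq_nonneg _)
  have h2 : ∫ x, ‖(fderiv ℝ f x).comp (S : Eu κ →L[ℝ] Eu κ)‖ ^ 2 * wt' F G l M x ≤
      ∫ x, B ^ 2 * wt' F G l M x := by
    refine integral_mono_of_nonneg (Eventually.of_forall fun x => ?_) (hwi.const_mul _)
      (Eventually.of_forall fun x => ?_)
    · exact mul_nonneg (sq_nonneg _) (wt'_nonneg hG l x)
    · exact mul_le_mul_of_nonneg_right (pow_le_pow_left₀ (norm_nonneg _) (hB x) 2)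
        (wt'_nonneg hG l x)
  rw [integral_const_mul] at h2
  have h3 := mul_le_mul_of_nonneg_left hwN (sq_nonneg B)
  calc ∫ x, (f x - a) ^ 2 * den F G 0 x ≤ _ := h1
    _ ≤ _ := ha
    _ ≤ _ := h2
    _ ≤ _ := h3
    _ = _ := by ring

end sys

end Pool.Agent.H776.GE
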