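import Pool.Agent.H776.GE3

/-!
# Densities depending on few quadratic forms, IV: translations and the lower bound of the variances
-/

set_option autoImplicit false

namespace Pool.Agent.H776.GE

open MeasureTheory Set Filter Topology
open scoped ENNReal InnerProductSpace
open Pool.Agent.H776.FE

variable {κ : Type} [Fintype κ] {k : ℕ}
variable {F : Fin k → Eu κ → ℝ} {G : (Fin k → ℝ) → ℝ} {c M : ℝ}
variable {b : Fin k → Type} [∀ j, Fintype (b j)] {P : ∀ j, Eu κ →L[ℝ] Eu (b j)} {K : ℝ}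

/-- the measure with the shifted density -/
noncomputable def ms (F : Fin k → Eu κ → ℝ) (G : (Fin k → ℝ) → ℝ) (t : Fin k → ℝ) :
    Measure (Eu κ) := volume.withDensity fun x => ENNReal.ofReal (den F G t x)

theorem ms_apply (hF : Fam F) (hG : Gd G c M) (t : Fin k → ℝ) {A : Set (Eu κ)}
    (hA : MeasurableSet A) : (ms F G t).real A = ∫ x in A, den F G t x := by
  unfold ms
  rw [measureReal_def, withDensity_apply _ hA, ← ofReal_integral_eq_lintegral_ofReal
    (den_int hF hG t).integrableOn (Eventually.of_forall (den_nonneg hG t)),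
    ENNReal.toReal_ofReal (integral_nonneg fun x => den_nonneg hG t x)]

theorem ms_fin (hF : Fam F) (hG : Gd G c M) (t : Fin k → ℝ) : IsFiniteMeasure (ms F G t) := by
  refine ⟨?_⟩
  unfold ms
  rw [withDensity_apply _ MeasurableSet.univ, Measure.restrict_univ, ← N_ofReal hF hG]
  exact ENNReal.ofReal_lt_top

theorem ms_univ (hF : Fam F) (hG : Gd G c M) (t : Fin k → ℝ) : (ms F G t).real univ = N F G t := by
  rw [ms_apply hF hG t MeasurableSet.univ, setIntegral_univ]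
  rfl

/-- integration against the measure -/
theorem ms_integral (hF : Fam F) (hG : Gd G c M) (t : Fin k → ℝ) (g : Eu κ → ℝ) :
    ∫ x, g x ∂(ms F G t) = ∫ x, g x * den F G t x := by
  unfold ms
  rw [integral_withDensity_eq_integral_toReal_smul (den_meas hF hG t).ennreal_ofReal
    (Eventually.of_forall fun x => ENNReal.ofReal_lt_top)]
  refine integral_congr_ae (Eventually.of_forall fun x => ?_)
  simp only [ENNReal.toReal_ofReal (den_nonneg hG t x), smul_eq_mul]
  ring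

theorem int_cont (hF : Fam F) (hG : Gd G c M) (t : Fin k → ℝ) {g : Eu κ → ℝ}
    (hg : Continuous g) : Integrable (fun x => g x * den F G t x) := by
  obtain ⟨B', hB'⟩ := (lev_compact hF fun j => M - t j).exists_bound_of_continuousOn
    hg.continuousOn
  refine ((den_int hF hG t).const_mul B').mono' (hg.aestronglyMeasurable.mul
    (den_meas hF hG t).aestronglyMeasurable) (Eventually.of_forall fun x => ?_)
  rw [norm_mul, Real.norm_of_nonneg (den_nonneg hG t x)]
  by_cases hx : x ∈ lev F fun j => M - t j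
  · exact mul_le_mul_of_nonneg_right (hB' x hx) (den_nonneg hG t x)
  · rw [den_supp hG hx, mul_zero, mul_zero]

theorem ms_int (hF : Fam F) (hG : Gd G c M) (t : Fin k → ℝ) {g : Eu κ → ℝ}
    (hg : Continuous g) : Integrable g (ms F G t) := by
  unfold ms
  rw [integrable_withDensity_iff_integrable_smul' (den_meas hF hG t).ennreal_ofReal
    (Eventually.of_forall fun x => ENNReal.ofReal_lt_top)]
  refine (int_cont hF hG t hg).congr (Eventually.of_forall fun x => ?_)
  simp only [ENNReal.toReal_ofReal (den_nonneg hG t x), smul_eq_mul]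
  ring

theorem den_even (hS : Sys F P K) (t : Fin k → ℝ) (x : Eu κ) : den F G t (-x) = den F G t x := by
  unfold den
  simp only [hS.even]

/-- the reflection -/
theorem ms_neg (hS : Sys F P K) (hG : Gd G c M) (t : Fin k → ℝ) {A : Set (Eu κ)}
    (hA : MeasurableSet A) :
    (ms F G t).real ((fun x : Eu κ => -x) ⁻¹' A) = (ms F G t).real A := by
  have hF := hS.toFam
  have hN : MeasurableSet ((fun x : Eu κ => -x) ⁻¹' A) := hA.preimage measurable_neg
  rw [ms_apply hF hG t hA, ms_apply hF hG t hN, ← integral_indicator hA, ← integral_indicator hN,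
    ← integral_neg_eq_self (A.indicator fun x => den F G t x)]
  congr 1
  funext x
  by_cases hx : -x ∈ A
  · rw [indicator_of_mem (show x ∈ (fun x : Eu κ => -x) ⁻¹' A from hx), indicator_of_mem hx,
      den_even hS]
  · rw [indicator_of_notMem (show x ∉ (fun x : Eu κ => -x) ⁻¹' A from hx), indicator_of_notMem hx]

theorem ms_half (hS : Sys F P K) (hG : Gd G c M) (t : Fin k → ℝ) {A B : Set (Eu κ)}
    (hB : MeasurableSet B) (h : ∀ x ∈ A, x ∈ B ∨ -x ∈ B) :
    (ms F G t).real A / 2 ≤ (ms F G t).real B := by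
  have := ms_fin hS.toFam hG t
  have h1 : A ⊆ B ∪ (fun x : Eu κ => -x) ⁻¹' B := fun x hx => h x hx
  have h2 : (ms F G t).real A ≤ (ms F G t).real (B ∪ (fun x : Eu κ => -x) ⁻¹' B) :=
    measureReal_mono h1
  have h3 := measureReal_union_le (μ := ms F G t) B ((fun x : Eu κ => -x) ⁻¹' B)
  rw [ms_neg hS hG t hB] at h3
  linarith

/-- integrals of odd functions -/
theorem int_odd' (hS : Sys F P K) (t : Fin k → ℝ) {g : Eu κ → ℝ} (hg : ∀ x, g (-x) = -g x) :
    ∫ x, g x * den F G t x = 0 := by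
  have h1 : ∫ x, g x * den F G t x = ∫ x, g (-x) * den F G t (-x) :=
    (integral_neg_eq_self (fun x => g x * den F G t x) volume).symm
  have h2 : ∀ x, g (-x) * den F G t (-x) = -(g x * den F G t x) := fun x => by
    rw [hg, den_even hS]
    ring
  simp only [h2] at h1
  rw [integral_neg] at h1
  linarith

theorem int_sq_le' (hF : Fam F) (hG : Gd G c M) {g : Eu κ → ℝ} (hg : Continuous g)
    (h0 : ∫ x, g x * den F G 0 x = 0) (a : ℝ) :
    ∫ x, g x ^ 2 * den F G 0 x ≤ ∫ x, (g x - a) ^ 2 * den F G 0 x := by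
  have h1 := int_cont hF hG 0 (g := fun x => g x ^ 2) (by fun_prop)
  have h2 := int_cont hF hG 0 hg
  have h3 := (den_int hF hG 0).const_mul (a ^ 2)
  have e : ∀ x, (g x - a) ^ 2 * den F G 0 x =
      (g x ^ 2 * den F G 0 x - 2 * a * (g x * den F G 0 x)) + a ^ 2 * den F G 0 x := fun x => by ring
  simp only [e]
  have h4 : Integrable (fun x => g x ^ 2 * den F G 0 x - 2 * a * (g x * den F G 0 x)) :=
    h1.sub (h2.const_mul _)
  rw [integral_add h4 h3, integral_sub h1 (h2.const_mul (2 * a)),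
    integral_const_mul, h0, integral_const_mul]
  have : 0 ≤ a ^ 2 * ∫ x, den F G 0 x := mul_nonneg (sq_nonneg _) (N_nonneg hG 0)
  linarith

theorem P_bound' {l : Fin k → ℝ} (hl : ∀ j, 0 ≤ l j) (hM : 0 < M) {S : Eu κ ≃L[ℝ] Eu κ}
    (hk : 0 < k) (hs : ∀ z, ‖S.symm z‖ ^ 2 = ∑ j, sg l M j / k * ‖P j z‖ ^ 2) (j : Fin k)
    (z : Eu κ) : ‖P j z‖ ^ 2 ≤ k / sg l M j * ‖S.symm z‖ ^ 2 := by
  have hk0 : (0 : ℝ) < k := Nat.cast_pos.2 hk
  have h0 := sg_pos hl hM j
  have h2 : sg l M j / k * ‖P j z‖ ^ 2 ≤ ‖S.symm z‖ ^ 2 := by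
    rw [hs]
    refine Finset.single_le_sum (f := fun j => sg l M j / k * ‖P j z‖ ^ 2) (fun i _ => ?_)
      (Finset.mem_univ j)
    have := sg_pos hl hM i
    positivity
  have h3 := mul_le_mul_of_nonneg_left h2 (by positivity : (0 : ℝ) ≤ k / sg l M j)
  have e : (k : ℝ) / sg l M j * (sg l M j / k * ‖P j z‖ ^ 2) = ‖P j z‖ ^ 2 := by field_simp
  rwa [e] at h3

/-- the second moments of the differences -/
theorem dif_sq' (hS : Sys F P K) (hG : Gd G c M) (hk : 0 < k) {l : Fin k → ℝ} (hl : Lam F G l)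
    {S : Eu κ ≃L[ℝ] Eu κ} (hs : ∀ z, ‖S.symm z‖ ^ 2 = ∑ j, sg l M j / k * ‖P j z‖ ^ 2)
    {η : ℝ} (hη : 0 ≤ η) {v : Eu κ} (hv : ‖S.symm v‖ ≤ η) (j : Fin k) :
    ∫ x, dif F v j x ^ 2 * den F G 0 x ≤
      128 * K ^ 2 * k ^ 2 * η ^ 2 / sg l M j ^ 2 * N F G 0 := by
  have hF := hS.toFam
  have hk0 : (0 : ℝ) < k := Nat.cast_pos.2 hk
  have hK1 := hS.one_le
  have hK0 : 0 < K := by linarith
  have h0 := sg_pos hl.nonneg hG.Mpos j
  have hgr : ∀ x, ‖(fderiv ℝ (dif F v j) x).comp (S : Eu κ →L[ℝ] Eu κ)‖ ≤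
      4 * K * k * η / sg l M j := by
    intro x
    refine ContinuousLinearMap.opNorm_le_bound _ (by positivity) fun u => ?_
    rw [ContinuousLinearMap.comp_apply, Real.norm_eq_abs]
    have h2 := hS.grad j v x (S u)
    refine h2.trans ?_
    have h3 := P_bound' hl.nonneg hG.Mpos hk hs j v
    have h4 := P_bound' hl.nonneg hG.Mpos hk hs j (S u)
    rw [ContinuousLinearEquiv.symm_apply_apply] at h4
    have h5 : (‖P j v‖ * ‖P j (S u)‖) ^ 2 ≤ (k / sg l M j * η * ‖u‖) ^ 2 := by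
      rw [mul_pow]
      have h6 : ‖P j v‖ ^ 2 ≤ k / sg l M j * η ^ 2 := h3.trans (by gcongr)
      calc ‖P j v‖ ^ 2 * ‖P j (S u)‖ ^ 2 ≤ (k / sg l M j * η ^ 2) * (k / sg l M j * ‖u‖ ^ 2) :=
            mul_le_mul h6 h4 (sq_nonneg _) (by positivity)
        _ = _ := by ring
    have h7 : ‖P j v‖ * ‖P j (S u)‖ ≤ k / sg l M j * η * ‖u‖ :=
      (abs_le_of_sq_le_sq' h5 (by positivity)).2
    calc 4 * K * ‖P j v‖ * ‖P j (S u)‖ = 4 * K * (‖P j v‖ * ‖P j (S u)‖) := by ring
      _ ≤ 4 * K * (k / sg l M j * η * ‖u‖) := by gcongr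
      _ = _ := by ring
  obtain ⟨a, ha⟩ := var_bound' hS hG hk hl hs (dif_diff hS v j) hgr
  have h2 : ∫ x, dif F v j x * den F G 0 x = 0 := int_odd' hS 0 (dif_odd hS v j)
  refine (int_sq_le' hF hG (dif_diff hS v j).continuous h2 a).trans (ha.trans (le_of_eq ?_))
  ring

/-- the good set -/
def gd (F : Fin k → Eu κ → ℝ) (l : Fin k → ℝ) (M : ℝ) (v : Eu κ) : Set (Eu κ) :=
  {x | ∀ j, |dif F v j x| ≤ 1 / (k * sg l M j)}

/-- the shift -/
noncomputable def dn (k : ℕ) (l : Fin k → ℝ) (M : ℝ) (j : Fin k) : ℝ := -(1 / (k * sg l M j))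

theorem gd_meas (hS : Sys F P K) (l : Fin k → ℝ) (v : Eu κ) : MeasurableSet (gd F l M v) := by
  have e : gd F l M v = ⋂ j, {x | |dif F v j x| ≤ 1 / (k * sg l M j)} := by
    ext x
    simp [gd]
  rw [e]
  refine MeasurableSet.iInter fun j => ?_
  exact (isClosed_le (dif_diff hS v j).continuous.abs continuous_const).measurableSet

theorem gd_neg (hS : Sys F P K) {l : Fin k → ℝ} {v x : Eu κ} (hx : x ∈ gd F l M v) :
    -x ∈ gd F l M v := fun j => by rw [dif_odd hS, abs_neg]; exact hx j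

theorem gd_vol (hS : Sys F P K) (hG : Gd G c M) (hk : 0 < k) {l : Fin k → ℝ} (hl : Lam F G l)
    {S : Eu κ ≃L[ℝ] Eu κ} (hs : ∀ z, ‖S.symm z‖ ^ 2 = ∑ j, sg l M j / k * ‖P j z‖ ^ 2)
    {η : ℝ} (hη : 0 ≤ η) (hη2 : 256 * K ^ 2 * k ^ 5 * η ^ 2 ≤ 1) {v : Eu κ}
    (hv : ‖S.symm v‖ ≤ η) : N F G 0 / 2 ≤ (ms F G 0).real (gd F l M v) := by
  have hF := hS.toFam
  have hk0 : (0 : ℝ) < k := Nat.cast_pos.2 hk
  have hV := N0_pos hF hG
  have := ms_fin hF hG 0
  set bad : Fin k → Set (Eu κ) := fun j =>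
    {x | (1 / (k * sg l M j)) ^ 2 ≤ dif F v j x ^ 2} with hbad
  have hb : ∀ j, (ms F G 0).real (bad j) ≤ N F G 0 / (2 * k) := by
    intro j
    have h0 := sg_pos hl.nonneg hG.Mpos j
    have hc := (dif_diff hS v j).continuous
    have h2 := mul_meas_ge_le_integral_of_nonneg (μ := ms F G 0)
      (f := fun x => dif F v j x ^ 2) (Eventually.of_forall fun x => sq_nonneg _)
      (ms_int hF hG 0 (by fun_prop)) ((1 / (k * sg l M j)) ^ 2)
    rw [ms_integral hF hG 0 (fun x => dif F v j x ^ 2)] at h2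
    have h3 := h2.trans (dif_sq' hS hG hk hl hs hη hv j)
    have h4 : (1 / (k * sg l M j)) ^ 2 * (ms F G 0).real (bad j) ≤
        (1 / (k * sg l M j)) ^ 2 * (128 * K ^ 2 * k ^ 4 * η ^ 2 * N F G 0) := by
      refine h3.trans (le_of_eq ?_)
      field_simp
    have h5 : (ms F G 0).real (bad j) ≤ 128 * K ^ 2 * k ^ 4 * η ^ 2 * N F G 0 :=
      le_of_mul_le_mul_left h4 (by positivity)
    refine h5.trans ?_
    rw [le_div_iff₀ (by positivity)]
    calc 128 * K ^ 2 * k ^ 4 * η ^ 2 * N F G 0 * (2 * k) =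
          (256 * K ^ 2 * k ^ 5 * η ^ 2) * N F G 0 := by ring
      _ ≤ 1 * N F G 0 := by gcongr
      _ = _ := one_mul _
  have hcov : univ ⊆ gd F l M v ∪ ⋃ j, bad j := by
    intro x _
    by_cases h : ∀ j, |dif F v j x| ≤ 1 / (k * sg l M j)
    · exact Or.inl h
    · right
      push Not at h
      obtain ⟨j, hj⟩ := h
      refine mem_iUnion.2 ⟨j, ?_⟩
      have h0 := sg_pos hl.nonneg hG.Mpos j
      have h2 : (0 : ℝ) ≤ 1 / (k * sg l M j) := by positivity
      have h3 := pow_le_pow_left₀ h2 hj.le 2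
      rw [sq_abs] at h3
      exact h3
  have h1 : N F G 0 ≤ (ms F G 0).real (gd F l M v) + ∑ j, (ms F G 0).real (bad j) := by
    calc N F G 0 = (ms F G 0).real univ := (ms_univ hF hG 0).symm
      _ ≤ (ms F G 0).real (gd F l M v ∪ ⋃ j, bad j) := measureReal_mono hcov
      _ ≤ (ms F G 0).real (gd F l M v) + (ms F G 0).real (⋃ j, bad j) :=
          measureReal_union_le _ _
      _ ≤ _ := by
          gcongr
          exact measureReal_iUnion_fintype_le _
  have h2 : ∑ j, (ms F G 0).real (bad j) ≤ ∑ _j : Fin k, N F G 0 / (2 * k) :=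
    Finset.sum_le_sum fun j _ => hb j
  rw [Finset.sum_const, Finset.card_univ, Fintype.card_fin, nsmul_eq_mul] at h2
  have h3 : (k : ℝ) * (N F G 0 / (2 * k)) = N F G 0 / 2 := by field_simp
  rw [h3] at h2
  linarith

theorem dn_nonpos {l : Fin k → ℝ} (hl : ∀ j, 0 ≤ l j) (hM : 0 < M) (j : Fin k) :
    dn k l M j ≤ 0 := by
  have h1 := sg_pos hl hM j
  have h2 : (0 : ℝ) ≤ 1 / (k * sg l M j) := by positivity
  unfold dn
  linarith

/-- translates of good points -/
theorem gd_add (hS : Sys F P K) (hG : Gd G c M) (hk : 0 < k) {l : Fin k → ℝ}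
    (hl : ∀ j, 0 ≤ l j) {S : Eu κ ≃L[ℝ] Eu κ}
    (hs : ∀ z, ‖S.symm z‖ ^ 2 = ∑ j, sg l M j / k * ‖P j z‖ ^ 2)
    {η : ℝ} (hη2 : 256 * K ^ 2 * k ^ 5 * η ^ 2 ≤ 1) {v : Eu κ}
    (hv : ‖S.symm v‖ ≤ η) {x : Eu κ} (hx : x ∈ gd F l M v) :
    den F G 0 x ≤ den F G (dn k l M) (x + v) := by
  refine hG.anti _ _ fun j => ?_
  have hk0 : (0 : ℝ) < k := Nat.cast_pos.2 hk
  have hk1 : (1 : ℝ) ≤ k := by exact_mod_cast hk
  have hK1 := hS.one_le
  have h0 := sg_pos hl hG.Mpos j
  have h2 := hS.smooth j x v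
  have h4 := hx j
  have h5 := P_bound' hl hG.Mpos hk hs j v
  have h6 : dif F v j x ≤ 1 / (k * sg l M j) := (le_abs_self _).trans h4
  unfold dif at h6
  have h7 : K * ‖P j v‖ ^ 2 ≤ 1 / (2 * (k * sg l M j)) := by
    have h8 : ‖P j v‖ ^ 2 ≤ k / sg l M j * η ^ 2 := h5.trans (by gcongr)
    have h9 : K * ‖P j v‖ ^ 2 ≤ K * (k / sg l M j * η ^ 2) := by gcongr
    refine h9.trans ?_
    rw [le_div_iff₀ (by positivity)]
    have e : K * (k / sg l M j * η ^ 2) * (2 * (k * sg l M j)) = 2 * K * k ^ 2 * η ^ 2 := by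
      field_simp
    rw [e]
    have h10 : 2 * K * (k : ℝ) ^ 2 * η ^ 2 ≤ 256 * K ^ 2 * k ^ 5 * η ^ 2 := by
      have h11 : (k : ℝ) ^ 2 ≤ k ^ 5 := pow_le_pow_right₀ hk1 (by norm_num)
      have h12 : 2 * K ≤ 256 * K ^ 2 := by nlinarith
      have h13 : 2 * K * (k : ℝ) ^ 2 ≤ 256 * K ^ 2 * k ^ 5 :=
        mul_le_mul h12 h11 (by positivity) (by positivity)
      exact mul_le_mul_of_nonneg_right h13 (sq_nonneg _)
    linarith
  unfold dn
  have e2 : 1 / (2 * (k * sg l M j)) = 1 / (k * sg l M j) / 2 := by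
    field_simp
  rw [e2] at h7
  rw [Pi.zero_apply]
  linarith

theorem N_dn (hS : Sys F P K) (hG : Gd G c M) (hk : 0 < k) {l : Fin k → ℝ} (hl : Lam F G l) :
    N F G (dn k l M) ≤ Real.exp 1 * N F G 0 := by
  have hk0 : (0 : ℝ) < k := Nat.cast_pos.2 hk
  have h1 := hl.le (dn k l M)
  have h2 : -∑ j, l j * dn k l M j ≤ 1 := by
    have h3 : ∀ j, -(l j * dn k l M j) ≤ 1 / k := by
      intro j
      have h4 := sg_pos hl.nonneg hG.Mpos j
      have h5 : l j ≤ sg l M j := by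
        unfold sg
        have := hG.Mpos
        have : (0 : ℝ) ≤ 1 / M := by positivity
        linarith
      have e : -(l j * dn k l M j) = (l j / sg l M j) * (1 / k) := by
        unfold dn
        field_simp
      rw [e]
      have h6 : l j / sg l M j ≤ 1 := by
        rw [div_le_one h4]
        exact h5
      calc l j / sg l M j * (1 / k) ≤ 1 * (1 / k) := by gcongr
        _ = _ := one_mul _
    rw [← Finset.sum_neg_distrib]
    refine (Finset.sum_le_sum fun j _ => h3 j).trans (le_of_eq ?_)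
    rw [Finset.sum_const, Finset.card_univ, Fintype.card_fin, nsmul_eq_mul]
    field_simp
  have h3 := N0_pos hS.toFam hG
  calc N F G (dn k l M) ≤ _ := h1
    _ ≤ N F G 0 * Real.exp 1 := by gcongr
    _ = _ := mul_comm _ _

/-- halfspaces -/
def hs' (a : Eu κ) (t : ℝ) : Set (Eu κ) := {x | t ≤ ⟪x, a⟫_ℝ}

theorem hs_meas (a : Eu κ) (t : ℝ) : MeasurableSet (hs' a t) :=
  (isClosed_le continuous_const (by fun_prop)).measurableSet

theorem hs_logc (hF : Fam F) (hG : Gd G c M) (t : Fin k → ℝ) (a : Eu κ) (α : ℝ) :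
    (ms F G t).real (hs' a 0) ^ (9 / 10 : ℝ) * (ms F G t).real (hs' a α) ^ (1 / 10 : ℝ) ≤
      (ms F G t).real (hs' a (α / 10)) := by
  have hfin := ms_fin hF hG t
  have hind : ∀ r : ℝ, Measurable ((hs' a r).indicator fun x => ENNReal.ofReal (den F G t x)) :=
    fun r => (den_meas hF hG t).ennreal_ofReal.indicator (hs_meas a r)
  have H := Pool.Agent.H212R2.KLS.PL (volume : Measure (Eu κ)) (1 / 10) (by norm_num) (by norm_num)
    ((hs' a 0).indicator fun x => ENNReal.ofReal (den F G t x))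
    ((hs' a α).indicator fun x => ENNReal.ofReal (den F G t x))
    ((hs' a (α / 10)).indicator fun x => ENNReal.ofReal (den F G t x))
    (hind 0) (hind α) (hind (α / 10)) (by
      intro x y
      by_cases hx : x ∈ hs' a 0
      · by_cases hy : y ∈ hs' a α
        · have hxy : (1 - 1 / 10 : ℝ) • x + (1 / 10 : ℝ) • y ∈ hs' a (α / 10) := by
            have hx2 : 0 ≤ ⟪x, a⟫_ℝ := hx
            have hy2 : α ≤ ⟪y, a⟫_ℝ := hy
            show α / 10 ≤ ⟪(1 - 1 / 10 : ℝ) • x + (1 / 10 : ℝ) • y, a⟫_ℝ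
            rw [inner_add_left, inner_smul_left, inner_smul_left]
            simp only [conj_trivial]
            linarith
          rw [indicator_of_mem hx, indicator_of_mem hy, indicator_of_mem hxy,
            rpow_ofReal (den_nonneg hG t x) (den_nonneg hG t y) (by norm_num) (by norm_num)]
          refine ENNReal.ofReal_le_ofReal ?_
          have h1 := den_logc hF hG (s := t) (t := t) (a := 1 - 1 / 10) (b := 1 / 10)
            (by norm_num) (by norm_num) (by norm_num) x y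
          have e : (1 - 1 / 10 : ℝ) • t + (1 / 10 : ℝ) • t = t := by
            rw [← add_smul]
            norm_num
          rwa [e] at h1
        · rw [indicator_of_notMem hy, ENNReal.zero_rpow_of_pos (by norm_num), mul_zero]
          exact zero_le
      · rw [indicator_of_notMem hx, ENNReal.zero_rpow_of_pos (by norm_num), zero_mul]
        exact zero_le)
  have e1 : ∀ r : ℝ, ∫⁻ x, (hs' a r).indicator (fun x => ENNReal.ofReal (den F G t x)) x =
      ms F G t (hs' a r) := by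
    intro r
    rw [lintegral_indicator (hs_meas a r)]
    unfold ms
    rw [withDensity_apply _ (hs_meas a r)]
  rw [e1, e1, e1] at H
  have h2 := ENNReal.toReal_mono (measure_ne_top _ _) H
  rw [ENNReal.toReal_mul, ← ENNReal.toReal_rpow, ← ENNReal.toReal_rpow] at h2
  have e : (1 - 1 / 10 : ℝ) = 9 / 10 := by norm_num
  rw [e] at h2
  exact h2

/-- the lower bound of the variances, for a nonnegative scalar product -/
theorem var_lower_aux' (hS : Sys F P K) (hG : Gd G c M) (hk : 0 < k) {l : Fin k → ℝ}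
    (hl : Lam F G l) {S : Eu κ ≃L[ℝ] Eu κ}
    (hs : ∀ z, ‖S.symm z‖ ^ 2 = ∑ j, sg l M j / k * ‖P j z‖ ^ 2)
    {η : ℝ} (hη : 0 ≤ η) (hη2 : 256 * K ^ 2 * k ^ 5 * η ^ 2 ≤ 1) {v : Eu κ}
    (hv : ‖S.symm v‖ ≤ η) {a : Eu κ} (ha : 0 < ⟪v, a⟫_ℝ) :
    ⟪v, a⟫_ℝ ^ 2 * N F G 0 ≤ 200 * ∫ x, ⟪x, a⟫_ℝ ^ 2 * den F G 0 x := by
  have hF := hS.toFam
  have hV := N0_pos hF hG
  have hf0 := ms_fin hF hG 0
  have hfd := ms_fin hF hG (dn k l M)
  obtain ⟨α, hα⟩ : ∃ α, α = ⟪v, a⟫_ℝ := ⟨_, rfl⟩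
  rw [← hα] at ha ⊢
  have hgood := gd_vol hS hG hk hl hs hη hη2 hv
  obtain ⟨m, hm⟩ : ∃ m, m = ms F G 0 := ⟨_, rfl⟩
  obtain ⟨m', hm'⟩ : ∃ m', m' = ms F G (dn k l M) := ⟨_, rfl⟩
  rw [← hm] at hf0 hgood
  rw [← hm'] at hfd
  obtain ⟨N', hN'⟩ : ∃ N', N' = N F G (dn k l M) := ⟨_, rfl⟩
  have hm'u : m'.real univ = N' := by rw [hm', hN']; exact ms_univ hF hG _
  have hmu : m.real univ = N F G 0 := by rw [hm]; exact ms_univ hF hG _
  -- comparison of the two measures
  have hmm : ∀ A : Set (Eu κ), MeasurableSet A → m.real A ≤ m'.real A := by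
    intro A hA
    rw [hm, hm', ms_apply hF hG _ hA, ms_apply hF hG _ hA]
    exact setIntegral_mono (den_int hF hG _).integrableOn (den_int hF hG _).integrableOn
      fun x => den_anti hG (fun j => dn_nonpos hl.nonneg hG.Mpos j) x
  -- the halfspace through the origin
  have h0 : N' / 2 ≤ m'.real (hs' a 0) := by
    rw [← hm'u, hm']
    exact ms_half hS hG _ (hs_meas a 0) fun x _ => by
      rcases le_total 0 ⟪x, a⟫_ℝ with h | h
      · exact Or.inl h
      · right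
        show (0 : ℝ) ≤ ⟪-x, a⟫_ℝ
        rw [inner_neg_left]
        linarith
  -- the translated halfspace
  have hG0m : MeasurableSet (gd F l M v ∩ hs' a 0) := (gd_meas hS l v).inter (hs_meas a 0)
  have h1 : m.real (gd F l M v) / 2 ≤ m.real (gd F l M v ∩ hs' a 0) := by
    rw [hm]
    exact ms_half hS hG _ hG0m fun x hx => by
      rcases le_total 0 ⟪x, a⟫_ℝ with h | h
      · exact Or.inl ⟨hx, h⟩
      · refine Or.inr ⟨gd_neg hS hx, ?_⟩
        show (0 : ℝ) ≤ ⟪-x, a⟫_ℝ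
        rw [inner_neg_left]
        linarith
  have h2 : m.real (gd F l M v ∩ hs' a 0) ≤ m'.real (hs' a α) := by
    have etr := integral_add_right_eq_self (μ := (volume : Measure (Eu κ)))
      ((hs' a α).indicator fun x => den F G (dn k l M) x) v
    rw [hm, hm', ms_apply hF hG _ hG0m, ms_apply hF hG _ (hs_meas a α),
      ← integral_indicator hG0m, ← integral_indicator (hs_meas a α), ← etr]
    refine integral_mono ((den_int hF hG _).indicator hG0m)
      (((den_int hF hG _).indicator (hs_meas a α)).comp_add_right v) fun x => ?_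
    by_cases hx : x ∈ gd F l M v ∩ hs' a 0
    · have hx2 : x + v ∈ hs' a α := by
        have hx2' : 0 ≤ ⟪x, a⟫_ℝ := hx.2
        show α ≤ ⟪x + v, a⟫_ℝ
        rw [inner_add_left]
        linarith
      rw [indicator_of_mem hx, indicator_of_mem hx2]
      exact gd_add hS hG hk hl.nonneg hs hη2 hv hx.1
    · rw [indicator_of_notMem hx]
      exact indicator_nonneg (fun y _ => den_nonneg hG _ y) _
  have h3 : N F G 0 / 4 ≤ m'.real (hs' a α) := by linarith
  -- log-concavity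
  have hVu : N' ≤ Real.exp 1 * N F G 0 := by rw [hN']; exact N_dn hS hG hk hl
  have hVu0 : 0 ≤ N' := by rw [hN']; exact N_nonneg hG _
  have he := Real.exp_one_lt_d9
  have hVu2 : N' ≤ 2.72 * N F G 0 := hVu.trans (by gcongr; linarith)
  have h4 : N' / 2 * (0.84 : ℝ) ^ 10 ≤ N F G 0 / 4 := by
    have : (0.84 : ℝ) ^ 10 ≤ 0.1755 := by norm_num
    nlinarith
  have h5 : N' / 2 * 0.84 ≤ m'.real (hs' a (α / 10)) := by
    have h6 := hs_logc hF hG (dn k l M) a α
    rw [← hm'] at h6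
    have h7 : (N' / 2) ^ (9 / 10 : ℝ) * (N' / 2 * 0.84 ^ 10) ^ (1 / 10 : ℝ) ≤
        m'.real (hs' a 0) ^ (9 / 10 : ℝ) * m'.real (hs' a α) ^ (1 / 10 : ℝ) := by
      refine mul_le_mul (Real.rpow_le_rpow (by positivity) h0 (by norm_num))
        (Real.rpow_le_rpow (by positivity) (h4.trans h3) (by norm_num))
        (Real.rpow_nonneg (by positivity) _) (Real.rpow_nonneg measureReal_nonneg _)
    rw [rpow_aux (by positivity) (by norm_num)] at h7
    exact h7.trans h6
  -- the middle part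
  obtain ⟨Q, hQ⟩ : ∃ Q : Set (Eu κ), Q = {x | |⟪x, a⟫_ℝ| < α / 10} := ⟨_, rfl⟩
  have hcab : Continuous fun x : Eu κ => |⟪x, a⟫_ℝ| := by fun_prop
  have hQm : MeasurableSet Q := by
    rw [hQ]
    exact (isOpen_lt hcab continuous_const).measurableSet
  have hHm := hs_meas a (α / 10)
  obtain ⟨L, hL⟩ : ∃ L : Set (Eu κ), L = (fun x : Eu κ => -x) ⁻¹' hs' a (α / 10) := ⟨_, rfl⟩
  have hLm : MeasurableSet L := by
    rw [hL]
    exact hHm.preimage measurable_neg
  have hLv : m'.real L = m'.real (hs' a (α / 10)) := by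
    rw [hL, hm']
    exact ms_neg hS hG _ hHm
  have hd1 : Disjoint (hs' a (α / 10)) L := by
    rw [Set.disjoint_left, hL]
    intro x hx hx'
    have h8 : α / 10 ≤ ⟪x, a⟫_ℝ := hx
    have h9 : α / 10 ≤ ⟪-x, a⟫_ℝ := hx'
    rw [inner_neg_left] at h9
    linarith
  have hd2 : Disjoint Q (hs' a (α / 10) ∪ L) := by
    rw [Set.disjoint_left, hQ, hL]
    rintro x hx (hx' | hx')
    · have h8 : |⟪x, a⟫_ℝ| < α / 10 := hx
      have h9 : α / 10 ≤ ⟪x, a⟫_ℝ := hx'
      have := le_abs_self ⟪x, a⟫_ℝ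
      linarith
    · have h8 : |⟪x, a⟫_ℝ| < α / 10 := hx
      have h9 : α / 10 ≤ ⟪-x, a⟫_ℝ := hx'
      rw [inner_neg_left] at h9
      have := neg_le_abs ⟪x, a⟫_ℝ
      linarith
  have h6 : m'.real Q + 2 * m'.real (hs' a (α / 10)) ≤ N' := by
    have h8 : m'.real (Q ∪ (hs' a (α / 10) ∪ L)) ≤ N' := by
      rw [← hm'u]
      exact measureReal_mono (subset_univ _)
    rw [measureReal_union hd2 (hHm.union hLm), measureReal_union hd1 hLm, hLv] at h8
    linarith
  have h7 : m.real Q ≤ N F G 0 / 2 := by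
    have := hmm Q hQm
    nlinarith
  have hcov : univ ⊆ Q ∪ {x | (α / 10) ^ 2 ≤ ⟪x, a⟫_ℝ ^ 2} := by
    intro x _
    rcases lt_or_ge |⟪x, a⟫_ℝ| (α / 10) with h | h
    · left
      rw [hQ]
      exact h
    · right
      have h8 := pow_le_pow_left₀ (by positivity) h 2
      rw [sq_abs] at h8
      exact h8
  have h8 : N F G 0 ≤ m.real Q + m.real {x : Eu κ | (α / 10) ^ 2 ≤ ⟪x, a⟫_ℝ ^ 2} := by
    rw [← hmu]
    exact (measureReal_mono hcov).trans (measureReal_union_le _ _)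
  have h9 := mul_meas_ge_le_integral_of_nonneg (μ := ms F G 0)
      (f := fun x : Eu κ => ⟪x, a⟫_ℝ ^ 2) (Eventually.of_forall fun x => sq_nonneg _)
      (ms_int hF hG 0 (by fun_prop)) ((α / 10) ^ 2)
  rw [ms_integral hF hG 0 (fun x => ⟪x, a⟫_ℝ ^ 2), ← hm] at h9
  have h10 : N F G 0 / 2 ≤ m.real {x : Eu κ | (α / 10) ^ 2 ≤ ⟪x, a⟫_ℝ ^ 2} := by
    linarith
  have h11 := mul_le_mul_of_nonneg_left h10 (sq_nonneg (α / 10))
  have e2 : (α / 10) ^ 2 * (N F G 0 / 2) = α ^ 2 * N F G 0 / 200 := by ring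
  rw [e2] at h11
  linarith

/-- **the lower bound of the variances** -/
theorem var_lower' (hS : Sys F P K) (hG : Gd G c M) (hk : 0 < k) {l : Fin k → ℝ}
    (hl : Lam F G l) {S : Eu κ ≃L[ℝ] Eu κ}
    (hs : ∀ z, ‖S.symm z‖ ^ 2 = ∑ j, sg l M j / k * ‖P j z‖ ^ 2)
    {η : ℝ} (hη : 0 ≤ η) (hη2 : 256 * K ^ 2 * k ^ 5 * η ^ 2 ≤ 1) {v : Eu κ}
    (hv : ‖S.symm v‖ ≤ η) (a : Eu κ) :
    ⟪v, a⟫_ℝ ^ 2 * N F G 0 ≤ 200 * ∫ x, ⟪x, a⟫_ℝ ^ 2 * den F G 0 x := by
  rcases lt_trichotomy ⟪v, a⟫_ℝ 0 with h | h | h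
  · have h1 : ‖S.symm (-v)‖ ≤ η := by
      rw [map_neg, norm_neg]
      exact hv
    have h2 := var_lower_aux' hS hG hk hl hs hη hη2 h1 (a := a) (by
      rw [inner_neg_left]
      linarith)
    rwa [inner_neg_left, neg_sq] at h2
  · rw [h]
    have : 0 ≤ ∫ x, ⟪x, a⟫_ℝ ^ 2 * den F G 0 x :=
      integral_nonneg fun x => mul_nonneg (sq_nonneg _) (den_nonneg hG _ x)
    nlinarith
  · exact var_lower_aux' hS hG hk hl hs hη hη2 hv h

end Pool.Agent.H776.GE
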