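import Pool.Agent.H776.GE4
import Pool.Agent.H776.AllLC

/-!
# Densities depending on few quadratic forms, V: the Poincare inequality, the general case
-/

set_option autoImplicit false

namespace Pool.Agent.H776.GE

open MeasureTheory Set Filter Topology
open scoped ENNReal InnerProductSpace
open Pool.Agent.H776.FE
open Q289.LD (Den)

section bounded

variable {κ : Type} [Fintype κ] {k : ℕ}
variable {F : Fin k → Eu κ → ℝ} {G : (Fin k → ℝ) → ℝ} {c M : ℝ}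
variable {b : Fin k → Type} [∀ j, Fintype (b j)] {P : ∀ j, Eu κ →L[ℝ] Eu (b j)} {K : ℝ}

/-- the norm of the change of coordinates -/
theorem S_norm' (hS : Sys F P K) (hG : Gd G c M) (hk : 0 < k) {l : Fin k → ℝ} (hl : Lam F G l)
    {S : Eu κ ≃L[ℝ] Eu κ} (hs : ∀ z, ‖S.symm z‖ ^ 2 = ∑ j, sg l M j / k * ‖P j z‖ ^ 2)
    {s : ℝ} (hcov : ∀ θ : Eu κ, ∫ x, ⟪x, θ⟫_ℝ ^ 2 * den F G 0 x ≤ s * ‖θ‖ ^ 2 * N F G 0)
    (u : Eu κ) : ‖S u‖ ^ 2 ≤ 51200 * K ^ 2 * k ^ 5 * s * ‖u‖ ^ 2 := by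
  have hk0 : (0 : ℝ) < k := Nat.cast_pos.2 hk
  have hK1 := hS.one_le
  have hK0 : 0 < K := by linarith
  have hV := N0_pos hS.toFam hG
  by_cases hu : u = 0
  · subst hu
    simp
  have hun : 0 < ‖u‖ := norm_pos_iff.2 hu
  have hSu : 0 < ‖S u‖ := norm_pos_iff.2 fun h => hu (by
    have := congrArg S.symm h
    rwa [ContinuousLinearEquiv.symm_apply_apply, map_zero] at this)
  obtain ⟨A, hA⟩ : ∃ A : ℝ, A = 256 * K ^ 2 * k ^ 5 := ⟨_, rfl⟩
  have hA0 : 0 < A := by rw [hA]; positivity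
  obtain ⟨η, hη⟩ : ∃ η : ℝ, η = 1 / Real.sqrt A := ⟨_, rfl⟩
  have hη0 : 0 < η := by rw [hη]; positivity
  have hη2 : A * η ^ 2 = 1 := by
    rw [hη, div_pow, Real.sq_sqrt hA0.le, one_pow]
    field_simp
  have h1 := var_lower' hS hG hk hl hs hη0.le (by rw [← hA]; exact hη2.le)
    (v := (η / ‖u‖) • S u) (by
      rw [map_smul, ContinuousLinearEquiv.symm_apply_apply, norm_smul, Real.norm_eq_abs,
        abs_of_pos (by positivity)]
      refine le_of_eq ?_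
      field_simp) (S u)
  rw [inner_smul_left, conj_trivial, real_inner_self_eq_norm_sq] at h1
  have h2 := h1.trans (mul_le_mul_of_nonneg_left (hcov (S u)) (by norm_num : (0 : ℝ) ≤ 200))
  have h3 : (‖S u‖ ^ 2 * N F G 0) * ((η / ‖u‖) ^ 2 * ‖S u‖ ^ 2) ≤
      (‖S u‖ ^ 2 * N F G 0) * (200 * s) := by
    refine le_trans (le_of_eq ?_) (h2.trans (le_of_eq ?_)) <;> ring
  have h4 := le_of_mul_le_mul_left h3 (by positivity)
  have h5 := mul_le_mul_of_nonneg_left h4 (by positivity : 0 ≤ A * ‖u‖ ^ 2)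
  have e1 : A * ‖u‖ ^ 2 * ((η / ‖u‖) ^ 2 * ‖S u‖ ^ 2) = ‖S u‖ ^ 2 := by
    have : A * ‖u‖ ^ 2 * ((η / ‖u‖) ^ 2 * ‖S u‖ ^ 2) = (A * η ^ 2) * ‖S u‖ ^ 2 := by
      field_simp
    rw [this, hη2, one_mul]
  rw [e1] at h5
  refine h5.trans (le_of_eq ?_)
  rw [hA]
  ring

theorem wt_den (hF : Fam F) (hG : Gd G c M) : Wt (den F G 0) :=
  ⟨den_nonneg hG 0, den_meas hF hG 0, N0_pos hF hG, int_cont hF hG 0 (by fun_prop)⟩

theorem lc_den (hF : Fam F) (hG : Gd G c M) :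
    Pool.Agent.H888R2.KT.LC (fun x => den F G 0 x / N F G 0) ∧
      Pool.Agent.H212R2.KLS.mu (fun x => den F G 0 x / N F G 0) = nm (den F G 0) := by
  have hZ := N0_pos hF hG
  have hmu : Pool.Agent.H212R2.KLS.mu (fun x => den F G 0 x / N F G 0) = nm (den F G 0) := rfl
  have hp := (wt_den hF hG).prob
  refine ⟨⟨fun x => div_nonneg (den_nonneg hG 0 x) hZ.le, (den_meas hF hG 0).div_const _,
    fun x y t ht ht1 => ?_, ?_, ?_, ?_⟩, hmu⟩
  · have h1 := den_logc hF hG (s := 0) (t := 0) (a := 1 - t) (b := t) (by linarith) ht (by ring)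
      x y
    rw [smul_zero, smul_zero, add_zero] at h1
    rw [Real.div_rpow (den_nonneg hG 0 x) hZ.le, Real.div_rpow (den_nonneg hG 0 y) hZ.le,
      div_mul_div_comm, ← Real.rpow_add hZ, sub_add_cancel, Real.rpow_one]
    exact div_le_div_of_nonneg_right h1 hZ.le
  · obtain ⟨R, hR⟩ := (lev_compact hF fun j => M - (0 : Fin k → ℝ) j).isBounded.exists_norm_le
    refine ⟨R, fun x hx => ?_⟩
    show den F G 0 x / N F G 0 = 0
    rw [den_supp hG fun hm => ?_, zero_div]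
    have := hR x hm
    linarith
  · rw [hmu, measure_univ]
    exact ENNReal.one_ne_top
  · intro h0
    rw [hmu] at h0
    have h1 : nm (den F G 0) univ = 1 := measure_univ
    rw [h0] at h1
    simp at h1

end bounded

/-- **the Poincare inequality for densities of bounded support** -/
theorem kp_bdd : ∃ C : ℝ, 0 < C ∧ ∀ (κ : Type) [Fintype κ] (k : ℕ) (F : Fin k → Eu κ → ℝ)
    (G : (Fin k → ℝ) → ℝ) (c M : ℝ) (b : Fin k → Type) [∀ j, Fintype (b j)]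
    (P : ∀ j, Eu κ →L[ℝ] Eu (b j)) (K : ℝ), Sys F P K → Gd G c M → 0 < k →
    KP (nm (den F G 0)) (C * K ^ 2 * k ^ 5) := by
  obtain ⟨C, hC, H⟩ := Pool.Agent.Q86.EM.em
  refine ⟨C * 409600, by positivity, ?_⟩
  intro κ _ k F G c M b _ P K hS hG hk s hs0 hcov f B L hf
  have hF := hS.toFam
  have hk0 : (0 : ℝ) < k := Nat.cast_pos.2 hk
  have hK1 := hS.one_le
  have hK0 : 0 < K := by linarith
  have hZ := N0_pos hF hG
  have hwt := wt_den hF hG
  have hp := hwt.prob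
  obtain ⟨hlc, hmu⟩ := lc_den hF hG
  obtain ⟨l, hl0, hl1⟩ := exists_lam hF hG
  have hl : Lam F G l := ⟨hl0, hl1⟩
  obtain ⟨S, hs⟩ := exists_S' hS hk (sg_pos hl0 hG.Mpos)
  have hnm : ∀ φ : Eu κ → ℝ, ∫ x, φ x ∂(nm (den F G 0)) =
      (∫ x, φ x * den F G 0 x) / N F G 0 := fun φ =>
    integral_nm (den_nonneg hG 0) (den_meas hF hG 0) φ
  have hcov' : ∀ θ : Eu κ, ∫ x, ⟪x, θ⟫_ℝ ^ 2 * den F G 0 x ≤ s * ‖θ‖ ^ 2 * N F G 0 := by
    intro θ
    by_cases hθ : θ = 0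
    · subst hθ
      simp
    have hn : 0 < ‖θ‖ := norm_pos_iff.2 hθ
    have h2 := hcov (‖θ‖⁻¹ • θ) (by
      rw [norm_smul, norm_inv, norm_norm, inv_mul_cancel₀ hn.ne'])
    rw [var_eq hwt.int_sq] at h2
    have h3 : ∫ x, ⟪x, ‖θ‖⁻¹ • θ⟫_ℝ ∂(nm (den F G 0)) = 0 := by
      rw [hnm, int_odd' hS 0 fun x => inner_neg_left x _, zero_div]
    rw [h3, hnm (fun x => ⟪x, ‖θ‖⁻¹ • θ⟫_ℝ ^ 2)] at h2
    have h4 : (∫ x, ⟪x, ‖θ‖⁻¹ • θ⟫_ℝ ^ 2 * den F G 0 x) / N F G 0 ≤ s := by linarith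
    rw [div_le_iff₀ hZ] at h4
    have e : ∀ x : Eu κ, ⟪x, θ⟫_ℝ ^ 2 * den F G 0 x =
        ‖θ‖ ^ 2 * (⟪x, ‖θ‖⁻¹ • θ⟫_ℝ ^ 2 * den F G 0 x) := by
      intro x
      rw [inner_smul_right, mul_pow, inv_pow, ← mul_assoc, ← mul_assoc,
        mul_inv_cancel₀ (by positivity), one_mul]
    simp only [e]
    rw [integral_const_mul]
    refine (mul_le_mul_of_nonneg_left h4 (by positivity : 0 ≤ ‖θ‖ ^ 2)).trans (le_of_eq ?_)
    ring
  have hSn := S_norm' hS hG hk hl hs hcov'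
  obtain ⟨A, hA⟩ : ∃ A : ℝ, A = 51200 * K ^ 2 * k ^ 5 * s := ⟨_, rfl⟩
  have hA0 : 0 < A := by rw [hA]; positivity
  rw [← hA] at hSn
  have h1 := H κ _ hlc (by rw [hmu]; exact measure_univ) (8 * A) (fun g hg hg1 => by
    obtain ⟨a, ha⟩ := var_bound' hS hG hk hl hs hg (B := Real.sqrt A) (fun x => by
      refine ContinuousLinearMap.opNorm_le_bound _ (Real.sqrt_nonneg _) fun u => ?_
      rw [ContinuousLinearMap.comp_apply]
      have h2 := (fderiv ℝ g x).le_opNorm (S u)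
      have h3 : ‖S u‖ ≤ Real.sqrt A * ‖u‖ := by
        have h4 : ‖S u‖ ^ 2 ≤ (Real.sqrt A * ‖u‖) ^ 2 := by
          rw [mul_pow, Real.sq_sqrt hA0.le]
          exact hSn u
        exact (abs_le_of_sq_le_sq' h4 (by positivity)).2
      calc ‖(fderiv ℝ g x) (S u)‖ ≤ ‖fderiv ℝ g x‖ * ‖S u‖ := h2
        _ ≤ 1 * (Real.sqrt A * ‖u‖) := mul_le_mul (hg1 x) h3 (norm_nonneg _) zero_le_one
        _ = _ := one_mul _)
    rw [Real.sq_sqrt hA0.le] at ha
    rw [hmu, hnm (fun x => g x ^ 2), hnm g]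
    have hc := hg.continuous
    have i1 := int_cont hF hG 0 (g := fun x => g x ^ 2) (by fun_prop)
    have i2 := int_cont hF hG 0 hc
    have i3 := (den_int hF hG 0).const_mul (a ^ 2)
    have e : ∀ x, (g x - a) ^ 2 * den F G 0 x =
        (g x ^ 2 * den F G 0 x - 2 * a * (g x * den F G 0 x)) + a ^ 2 * den F G 0 x :=
      fun x => by ring
    simp only [e] at ha
    have i4 : Integrable (fun x => g x ^ 2 * den F G 0 x - 2 * a * (g x * den F G 0 x)) :=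
      i1.sub (i2.const_mul _)
    rw [integral_add i4 i3, integral_sub i1 (i2.const_mul (2 * a)), integral_const_mul,
      integral_const_mul] at ha
    have hN : ∫ x, den F G 0 x = N F G 0 := rfl
    rw [hN] at ha
    obtain ⟨p, hp⟩ : ∃ p, p = ∫ x, g x ^ 2 * den F G 0 x := ⟨_, rfl⟩
    obtain ⟨q, hq⟩ : ∃ q, q = ∫ x, g x * den F G 0 x := ⟨_, rfl⟩
    rw [← hp, ← hq] at ha
    rw [← hp, ← hq]
    have h5 : p / N F G 0 - 2 * a * (q / N F G 0) + a ^ 2 ≤ 8 * A := by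
      have h6 : (p - 2 * a * q + a ^ 2 * N F G 0) / N F G 0 ≤ 8 * A := by
        rw [div_le_iff₀ hZ]
        exact ha
      have h7 : (p - 2 * a * q + a ^ 2 * N F G 0) / N F G 0 =
          p / N F G 0 - 2 * a * (q / N F G 0) + a ^ 2 := by
        field_simp
      rwa [h7] at h6
    nlinarith [sq_nonneg (q / N F G 0 - a)]) f hf.diff
  rw [hmu] at h1
  have e : C * (8 * A) = C * 409600 * K ^ 2 * k ^ 5 * s := by
    rw [hA]
    ring
  rwa [e] at h1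

end Pool.Agent.H776.GE
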