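import Pool.Agent.H776.GE5

/-!
# Densities depending on few quadratic forms, VI: unbounded supports
-/

set_option autoImplicit false

namespace Pool.Agent.H776.GE

open MeasureTheory Set Filter Topology
open scoped ENNReal InnerProductSpace
open Pool.Agent.H776.FE
open Q289.LD (Den)

/-- log-concave nonincreasing functions on `[0, ∞)ᵏ` -/
structure Gen {k : ℕ} (g : (Fin k → ℝ) → ℝ) : Prop where
  meas : Measurable g
  nonneg : ∀ s, (∀ j, 0 ≤ s j) → 0 ≤ g s
  anti : ∀ s t, (∀ j, 0 ≤ s j) → (∀ j, s j ≤ t j) → g t ≤ g s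
  logc : ∀ s t, (∀ j, 0 ≤ s j) → (∀ j, 0 ≤ t j) → ∀ a b : ℝ, 0 < a → 0 < b → a + b = 1 →
    g s ^ a * g t ^ b ≤ g (a • s + b • t)

variable {κ : Type} [Fintype κ] {k : ℕ}

/-- an integrable density is not invariant under translations -/
theorem no_translation {ρ : Eu κ → ℝ} (hρ : Den ρ) {z : Eu κ}
    (hz : ∀ (m : ℝ) (x : Eu κ), ρ (x + m • z) = ρ x) : z = 0 := by
  by_contra hne
  have hzn : 0 < ‖z‖ := norm_pos_iff.2 hne
  have hint : Integrable ρ := by
    by_contra h
    have h1 := hρ.mass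
    rw [integral_undef h] at h1
    exact zero_ne_one h1
  obtain ⟨A, hA⟩ : ∃ A : ℕ → Set (Eu κ), A = fun n : ℕ => {x | |⟪x, z⟫_ℝ| ≤ (n : ℝ)} := ⟨_, rfl⟩
  have hAm : ∀ n, MeasurableSet (A n) := fun n => by
    rw [hA]
    exact (isClosed_le (by fun_prop : Continuous fun x : Eu κ => |⟪x, z⟫_ℝ|)
      continuous_const).measurableSet
  have hmono : Monotone A := fun n m hnm x hx => by
    rw [hA] at hx ⊢
    exact le_trans (show |⟪x, z⟫_ℝ| ≤ n from hx) (by exact_mod_cast hnm)
  have hun : ⋃ n, A n = univ := by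
    refine eq_univ_of_forall fun x => mem_iUnion.2 ⟨⌈|⟪x, z⟫_ℝ|⌉₊, ?_⟩
    rw [hA]
    exact Nat.le_ceil |⟪x, z⟫_ℝ|
  have h1 := tendsto_setIntegral_of_monotone hAm hmono (f := ρ) (μ := volume) hint.integrableOn
  rw [hun, setIntegral_univ, hρ.mass] at h1
  obtain ⟨n, hn⟩ := (h1.eventually (lt_mem_nhds (by norm_num : (1 / 2 : ℝ) < 1))).exists
  obtain ⟨m, hm⟩ : ∃ m : ℝ, m = (2 * n + 1) / ‖z‖ ^ 2 := ⟨_, rfl⟩
  have hmz : m * ‖z‖ ^ 2 = 2 * n + 1 := by
    rw [hm]
    field_simp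
  obtain ⟨B, hB⟩ : ∃ B : Set (Eu κ), B = (fun x => x + m • z) ⁻¹' A n := ⟨_, rfl⟩
  have hBm : MeasurableSet B := by
    rw [hB]
    exact (hAm n).preimage (measurable_add_const _)
  have hd : Disjoint (A n) B := by
    rw [Set.disjoint_left, hB, hA]
    intro x hx hx'
    have h2 : |⟪x, z⟫_ℝ| ≤ n := hx
    have h3 : |⟪x + m • z, z⟫_ℝ| ≤ n := hx'
    rw [inner_add_left, inner_smul_left, conj_trivial, real_inner_self_eq_norm_sq, hmz] at h3
    have h4 := neg_abs_le ⟪x, z⟫_ℝ
    have h5 := (le_abs_self _).trans h3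
    linarith
  have h2 : ∫ x in B, ρ x = ∫ x in A n, ρ x := by
    have etr := integral_add_right_eq_self (μ := (volume : Measure (Eu κ)))
      ((A n).indicator fun x => ρ x) (m • z)
    rw [← integral_indicator hBm, ← integral_indicator (hAm n), ← etr]
    refine integral_congr_ae (Eventually.of_forall fun x => ?_)
    by_cases hx : x ∈ B
    · have hx' : x + m • z ∈ A n := by rw [hB] at hx; exact hx
      simp only [indicator_of_mem hx, indicator_of_mem hx', hz]
    · have hx' : x + m • z ∉ A n := by rw [hB] at hx; exact hx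
      simp only [indicator_of_notMem hx, indicator_of_notMem hx']
  have h3 : ∫ x in A n ∪ B, ρ x ≤ ∫ x, ρ x :=
    setIntegral_le_integral hint (Eventually.of_forall hρ.nonneg)
  rw [setIntegral_union hd hBm hint.integrableOn hint.integrableOn, h2, hρ.mass] at h3
  linarith

theorem prof_ge {V : Type} [NormedAddCommGroup V] [InnerProductSpace ℝ V] {ψ : V → ℝ} {K : ℝ}
    (h : Prof ψ K) (y : V) : ‖y‖ ^ 2 ≤ ψ y := by
  have h1 := h.mid y (-y)
  rw [add_neg_cancel, smul_zero, h.zero, h.even, sub_neg_eq_add, ← two_smul ℝ y, norm_smul] at h1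
  norm_num at h1
  nlinarith

section general

variable {b : Fin k → Type} [∀ j, Fintype (b j)] {P : ∀ j, Eu κ →L[ℝ] Eu (b j)}
  {ψ : ∀ j, Eu (b j) → ℝ} {K : ℝ} {g : (Fin k → ℝ) → ℝ}

/-- boundedness of the level sets -/
theorem bdd_of_inj (hψ : ∀ j, Prof (ψ j) K) (hinj : ∀ z, (∀ j, P j z = 0) → z = 0) :
    Bornology.IsBounded {x : Eu κ | ∀ j, ψ j (P j x) < 1} := by
  let L : Eu κ →ₗ[ℝ] PiLp 2 (fun j => Eu (b j)) :=
    { toFun := fun z => WithLp.toLp 2 fun j => P j z
      map_add' := fun x y => by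
        ext j
        simp
      map_smul' := fun c x => by
        ext j
        simp }
  have hLn : ∀ z, ‖L z‖ ^ 2 = ∑ j, ‖P j z‖ ^ 2 := by
    intro z
    rw [PiLp.norm_sq_eq_of_L2]
    rfl
  obtain ⟨B, hB⟩ := exists_sqrt L (fun z hz => by
    refine hinj z fun j => ?_
    have h1 := hLn z
    rw [hz, norm_zero, zero_pow two_ne_zero] at h1
    have h2 := (Finset.sum_eq_zero_iff_of_nonneg fun j _ => sq_nonneg _).1 h1.symm j
      (Finset.mem_univ j)
    exact norm_eq_zero.1 (pow_eq_zero_iff two_ne_zero |>.1 h2))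
  have hsub : {x : Eu κ | ∀ j, ψ j (P j x) < 1} ⊆
      B.symm '' Metric.closedBall 0 (Real.sqrt k) := by
    intro x hx
    refine ⟨B x, ?_, B.symm_apply_apply x⟩
    rw [mem_closedBall_zero_iff]
    refine Real.le_sqrt_of_sq_le ?_
    rw [hB, hLn]
    have h1 : ∑ j, ‖P j x‖ ^ 2 ≤ ∑ _j : Fin k, (1 : ℝ) := Finset.sum_le_sum fun j _ => by
      have h2 := prof_ge (hψ j) (P j x)
      have h3 : ψ j (P j x) < 1 := hx j
      linarith
    simpa using h1
  exact (B.symm.lipschitz.isBounded_image Metric.isBounded_closedBall).subset hsub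

open Classical in
/-- the retraction onto the relevant nonnegative coordinates -/
noncomputable def Tm (P : ∀ j, Eu κ →L[ℝ] Eu (b j)) (s : Fin k → ℝ) (j : Fin k) : ℝ :=
  if P j = 0 then 0 else max (s j) 0

theorem Tm_nonneg (P : ∀ j, Eu κ →L[ℝ] Eu (b j)) (s : Fin k → ℝ) (j : Fin k) : 0 ≤ Tm P s j := by
  unfold Tm
  split_ifs
  · exact le_rfl
  · exact le_max_right _ _

theorem Tm_mono (P : ∀ j, Eu κ →L[ℝ] Eu (b j)) {s t : Fin k → ℝ} (hst : s ≤ t) (j : Fin k) :
    Tm P s j ≤ Tm P t j := by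
  unfold Tm
  split_ifs
  · exact le_rfl
  · exact max_le_max (hst j) le_rfl

theorem Tm_conv (P : ∀ j, Eu κ →L[ℝ] Eu (b j)) {s t : Fin k → ℝ} {x y : ℝ} (hx : 0 ≤ x)
    (hy : 0 ≤ y) (j : Fin k) :
    Tm P (x • s + y • t) j ≤ (x • Tm P s + y • Tm P t) j := by
  simp only [Pi.add_apply, Pi.smul_apply, smul_eq_mul]
  unfold Tm
  split_ifs
  · simp
  · refine max_le ?_ (by positivity)
    simp only [Pi.add_apply, Pi.smul_apply, smul_eq_mul]
    have h1 := mul_le_mul_of_nonneg_left (le_max_left (s j) 0) hx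
    have h2 := mul_le_mul_of_nonneg_left (le_max_left (t j) 0) hy
    linarith

theorem Tm_F (hψ : ∀ j, Prof (ψ j) K) (x : Eu κ) :
    Tm P (fun j => ψ j (P j x)) = fun j => ψ j (P j x) := by
  funext j
  unfold Tm
  split_ifs with h
  · rw [h, ContinuousLinearMap.zero_apply, (hψ j).zero]
  · exact max_eq_left ((hψ j).nonneg _)

theorem Tm_meas (P : ∀ j, Eu κ →L[ℝ] Eu (b j)) : Measurable (Tm P) := by
  refine measurable_pi_lambda _ fun j => ?_
  unfold Tm
  by_cases h : P j = 0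
  · simp only [if_pos h]
    exact measurable_const
  · simp only [if_neg h]
    exact (measurable_pi_apply j).max measurable_const

open Classical in
/-- the truncated function -/
noncomputable def gt' (P : ∀ j, Eu κ →L[ℝ] Eu (b j)) (g : (Fin k → ℝ) → ℝ) (R : ℝ)
    (s : Fin k → ℝ) : ℝ := if ∀ j, s j ≤ R then g (Tm P s) else 0

theorem gd_gt (P : ∀ j, Eu κ →L[ℝ] Eu (b j)) (hg : Gen g) {c R : ℝ} (hc : 0 < c) (hcR : c ≤ R)
    (hpos : 0 < g (Tm P fun _ => c)) : Gd (gt' P g R) c R := by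
  have hTn := fun (s : Fin k → ℝ) => hg.nonneg _ (Tm_nonneg P s)
  refine ⟨?_, fun s => ?_, fun s t hst => ?_, fun s t x y hx hy hxy => ?_, fun s hs => ?_,
    hc.trans_le hcR, hc, ?_⟩
  · unfold gt'
    refine Measurable.ite ?_ (hg.meas.comp (Tm_meas P)) measurable_const
    have e : {s : Fin k → ℝ | ∀ j, s j ≤ R} = ⋂ j, {s | s j ≤ R} := by
      ext s
      simp
    rw [e]
    exact MeasurableSet.iInter fun j => measurableSet_le (measurable_pi_apply j) measurable_const
  · unfold gt'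
    split_ifs
    · exact hTn s
    · exact le_rfl
  · unfold gt'
    by_cases ht : ∀ j, t j ≤ R
    · have hs : ∀ j, s j ≤ R := fun j => (hst j).trans (ht j)
      rw [if_pos ht, if_pos hs]
      exact hg.anti _ _ (Tm_nonneg P s) (Tm_mono P hst)
    · rw [if_neg ht]
      split_ifs
      · exact hTn s
      · exact le_rfl
  · unfold gt'
    by_cases hs : ∀ j, s j ≤ R
    · by_cases ht : ∀ j, t j ≤ R
      · have hst : ∀ j, (x • s + y • t) j ≤ R := fun j => by
          simp only [Pi.add_apply, Pi.smul_apply, smul_eq_mul]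
          have h1 := mul_le_mul_of_nonneg_left (hs j) hx.le
          have h2 := mul_le_mul_of_nonneg_left (ht j) hy.le
          have h3 : x * R + y * R = R := by rw [← add_mul, hxy, one_mul]
          linarith
        rw [if_pos hs, if_pos ht, if_pos hst]
        exact (hg.logc _ _ (Tm_nonneg P s) (Tm_nonneg P t) x y hx hy hxy).trans
          (hg.anti _ _ (Tm_nonneg P _) (Tm_conv P hx.le hy.le))
      · rw [if_neg ht, Real.zero_rpow hy.ne', mul_zero]
        split_ifs
        · exact hTn _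
        · exact le_rfl
    · rw [if_neg hs, Real.zero_rpow hx.ne', zero_mul]
      split_ifs
      · exact hTn _
      · exact le_rfl
  · unfold gt'
    rw [if_neg]
    push Not
    exact hs
  · unfold gt'
    rw [if_pos fun _ => hcR]
    exact hpos

/-- positivity near the origin -/
theorem exists_c (hψ : ∀ j, Prof (ψ j) K) (hg : Gen g)
    (hρ : Den fun x : Eu κ => g fun j => ψ j (P j x)) :
    ∃ c : ℝ, 0 < c ∧ 0 < g (Tm P fun _ => c) := by
  -- a good point
  have hex : ∃ x : Eu κ, 0 < g (fun j => ψ j (P j x)) ∧ ∀ j, P j ≠ 0 → P j x ≠ 0 := by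
    by_contra hcon
    push Not at hcon
    have h1 : (fun x : Eu κ => g fun j => ψ j (P j x)) =ᵐ[volume] 0 := by
      have h2 : ∀ j, P j ≠ 0 → ∀ᵐ x : Eu κ, P j x ≠ 0 := by
        intro j hj
        have h3 : volume ((LinearMap.ker (P j : Eu κ →ₗ[ℝ] Eu (b j)) : Submodule ℝ (Eu κ)) :
            Set (Eu κ)) = 0 := by
          refine Measure.addHaar_submodule volume _ fun htop => hj ?_
          ext1 x
          have h4 : x ∈ LinearMap.ker (P j : Eu κ →ₗ[ℝ] Eu (b j)) := by rw [htop]; trivial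
          simpa using h4
        rw [ae_iff]
        refine measure_mono_null (fun x hx => ?_) h3
        have h4 : ¬ P j x ≠ 0 := hx
        push Not at h4
        exact h4
      have h3 : ∀ᵐ x : Eu κ, ∀ j, P j ≠ 0 → P j x ≠ 0 := by
        rw [ae_all_iff]
        intro j
        by_cases hj : P j = 0
        · exact Eventually.of_forall fun x h => absurd hj h
        · filter_upwards [h2 j hj] with x hx _
          exact hx
      filter_upwards [h3] with x hx
      have h4 : ¬ 0 < g (fun j => ψ j (P j x)) := by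
        intro h5
        obtain ⟨j, hj, hj'⟩ := hcon x h5
        exact hx j hj hj'
      exact le_antisymm (not_lt.1 h4) (hρ.nonneg x)
    have h2 := hρ.mass
    rw [integral_congr_ae h1] at h2
    simp at h2
  obtain ⟨x, hx1, hx2⟩ := hex
  classical
  obtain ⟨R, hR, hRj⟩ := exists_ub fun j => if P j = 0 then (1 : ℝ) else (ψ j (P j x))⁻¹
  have hR0 : 0 < R := by linarith
  refine ⟨R⁻¹, inv_pos.2 hR0, hx1.trans_le (hg.anti _ _ (Tm_nonneg P _) fun j => ?_)⟩
  unfold Tm
  split_ifs with h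
  · rw [h, ContinuousLinearMap.zero_apply, (hψ j).zero]
  · rw [max_eq_left (inv_pos.2 hR0).le]
    have h1 := hRj j
    rw [if_neg h] at h1
    have h2 : 0 < ‖P j x‖ := norm_pos_iff.2 (hx2 j h)
    have h3 : 0 < ψ j (P j x) := (by positivity : (0 : ℝ) < ‖P j x‖ ^ 2).trans_le
      (prof_ge (hψ j) _)
    rw [inv_le_comm₀ hR0 h3]
    exact h1

end general

/-- **the Poincare inequality for log-concave nonincreasing functions of few quadratic forms** -/
theorem exists_kp_gen : ∃ C : ℝ, 0 < C ∧ ∀ (κ : Type) [Fintype κ] (k : ℕ) (b : Fin k → Type)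
    [∀ j, Fintype (b j)] (P : ∀ j, Eu κ →L[ℝ] Eu (b j)) (ψ : ∀ j, Eu (b j) → ℝ) (K : ℝ)
    (g : (Fin k → ℝ) → ℝ), 1 ≤ K → (∀ j, Prof (ψ j) K) → Gen g → 0 < k →
    Den (fun x : Eu κ => g fun j => ψ j (P j x)) →
    KP (nm fun x : Eu κ => g fun j => ψ j (P j x)) (C * K ^ 2 * k ^ 5) := by
  obtain ⟨C, hC, H⟩ := kp_bdd
  refine ⟨C, hC, ?_⟩
  intro κ _ k b _ P ψ K g hK hψ hg hk hρ
  obtain ⟨F, hFd⟩ : ∃ F : Fin k → Eu κ → ℝ, F = fun j x => ψ j (P j x) := ⟨_, rfl⟩
  obtain ⟨ρ, hρd⟩ : ∃ ρ : Eu κ → ℝ, ρ = fun x => g fun j => ψ j (P j x) := ⟨_, rfl⟩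
  rw [← hρd] at hρ ⊢
  have hinj : ∀ z, (∀ j, P j z = 0) → z = 0 := by
    intro z hz
    refine no_translation hρ fun m x => ?_
    rw [hρd]
    simp only [map_add, map_smul, hz, smul_zero, add_zero]
  have hbd := bdd_of_inj hψ hinj
  have hS : Sys F P K := by
    rw [hFd]
    exact sys_of_prof hK hψ hbd
  have hF := hS.toFam
  obtain ⟨c, hc, hgc⟩ := exists_c (P := P) hψ hg (by rw [hρd] at hρ; exact hρ)
  have hden : ∀ (R : ℝ) (x : Eu κ), (∀ j, F j x ≤ R) → den F (gt' P g R) 0 x = ρ x := by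
    intro R x hx
    unfold den gt'
    simp only [Pi.zero_apply, add_zero]
    rw [if_pos hx, hρd]
    show g (Tm P fun j => F j x) = g fun j => ψ j (P j x)
    rw [hFd, Tm_F hψ]
  have hden' : ∀ (R : ℝ) (x : Eu κ), ¬ (∀ j, F j x ≤ R) → den F (gt' P g R) 0 x = 0 := by
    intro R x hx
    unfold den gt'
    simp only [Pi.zero_apply, add_zero]
    rw [if_neg hx]
  have hGd : ∀ R : ℝ, c ≤ R → Gd (gt' P g R) c R := fun R hR => gd_gt P hg hc hR hgc
  have hmom := (Q289.LD.tLIM κ ρ hρ).2.1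
  have hwt : Wt ρ := ⟨hρ.nonneg, hρ.meas, by rw [hρ.mass]; exact one_pos, hmom⟩
  have hlim := W2.of_dom (l := (atTop : Filter ℕ)) (g := fun n : ℕ => den F (gt' P g (n : ℝ)) 0)
    (g' := ρ) (h := ρ) (by
      filter_upwards [eventually_ge_atTop ⌈c⌉₊] with n hn x
      exact den_nonneg (hGd n (Nat.ceil_le.1 hn)) 0 x) (by
      filter_upwards [eventually_ge_atTop ⌈c⌉₊] with n hn
      exact den_meas hF (hGd n (Nat.ceil_le.1 hn)) 0) hwt
    (Eventually.of_forall fun n x => by
      by_cases hx : ∀ j, F j x ≤ (n : ℝ)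
      · rw [hden _ x hx]
      · rw [hden' _ x hx]
        exact hρ.nonneg x) hmom (Eventually.of_forall fun x => by
      obtain ⟨R, -, hR⟩ := exists_ub fun j => F j x
      refine tendsto_const_nhds.congr' ?_
      filter_upwards [eventually_ge_atTop ⌈R⌉₊] with n hn
      exact (hden _ x fun j => (hR j).trans (Nat.ceil_le.1 hn)).symm)
  have hp := hwt.prob
  refine KP.lim hlim.2 (by positivity) ?_
  filter_upwards [eventually_ge_atTop ⌈c⌉₊] with n hn
  exact H κ k F (gt' P g n) c n b P K hS (hGd n (Nat.ceil_le.1 hn)) hk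

end Pool.Agent.H776.GE
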