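import Pool.Agent.H776.GE6

/-!
# Bodies defined by few quadratic forms: all forms of the inequality
-/

set_option autoImplicit false

namespace Pool.Agent.H776.GE

open MeasureTheory Set Filter Topology
open scoped ENNReal InnerProductSpace MatrixOrder Matrix
open Pool.Agent.H776.FE
open Pool.Agent.W695.KH (EV VV per)

variable {κ : Type} [Fintype κ]

/-- **the Poincare inequality for densities of bounded support, all `C¹` functions** -/
theorem pi_bdd : ∃ C : ℝ, 0 < C ∧ ∀ (κ : Type) [Fintype κ] (k : ℕ) (F : Fin k → Eu κ → ℝ)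
    (G : (Fin k → ℝ) → ℝ) (c M : ℝ) (b : Fin k → Type) [∀ j, Fintype (b j)]
    (P : ∀ j, Eu κ →L[ℝ] Eu (b j)) (K : ℝ), Sys F P K → Gd G c M → 0 < k →
    ∀ s : ℝ, 0 < s → CovLe (nm (den F G 0)) s → ∀ f : Eu κ → ℝ, ContDiff ℝ 1 f →
      (∫ x, f x ^ 2 ∂(nm (den F G 0))) - (∫ x, f x ∂(nm (den F G 0))) ^ 2 ≤
        C * K ^ 2 * k ^ 5 * s * ∫ x, ‖fderiv ℝ f x‖ ^ 2 ∂(nm (den F G 0)) := by
  obtain ⟨C, hC, H⟩ := Pool.Agent.Q86.EM.em
  refine ⟨C * 409600, by positivity, ?_⟩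
  intro κ _ k F G c M b _ P K hS hG hk s hs0 hcov f hf
  have hF := hS.toFam
  have hk0 : (0 : ℝ) < k := Nat.cast_pos.2 hk
  have hK1 := hS.one_le
  have hK0 : 0 < K := by linarith
  have hZ := N0_pos hF hG
  have hwt := wt_den hF hG
  have hp := hwt.prob
  obtain ⟨hlc, hmu⟩ := lc_den hF hG
  obtain ⟨l, hl0, hl1⟩ := exists_lam hF hG
  have hl : Lam F G l := ⟨hl0, hl1⟩
  obtain ⟨S, hs⟩ := exists_S' hS hk (sg_pos hl0 hG.Mpos)
  have hnm : ∀ φ : Eu κ → ℝ, ∫ x, φ x ∂(nm (den F G 0)) =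
      (∫ x, φ x * den F G 0 x) / N F G 0 := fun φ =>
    integral_nm (den_nonneg hG 0) (den_meas hF hG 0) φ
  have hcov' : ∀ θ : Eu κ, ∫ x, ⟪x, θ⟫_ℝ ^ 2 * den F G 0 x ≤ s * ‖θ‖ ^ 2 * N F G 0 := by
    intro θ
    by_cases hθ : θ = 0
    · subst hθ
      simp
    have hn : 0 < ‖θ‖ := norm_pos_iff.2 hθ
    have h2 := hcov (‖θ‖⁻¹ • θ) (by
      rw [norm_smul, norm_inv, norm_norm, inv_mul_cancel₀ hn.ne'])
    rw [var_eq hwt.int_sq] at h2
    have h3 : ∫ x, ⟪x, ‖θ‖⁻¹ • θ⟫_ℝ ∂(nm (den F G 0)) = 0 := by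
      rw [hnm, int_odd' hS 0 fun x => inner_neg_left x _, zero_div]
    rw [h3, hnm (fun x => ⟪x, ‖θ‖⁻¹ • θ⟫_ℝ ^ 2)] at h2
    have h4 : (∫ x, ⟪x, ‖θ‖⁻¹ • θ⟫_ℝ ^ 2 * den F G 0 x) / N F G 0 ≤ s := by linarith
    rw [div_le_iff₀ hZ] at h4
    have e : ∀ x : Eu κ, ⟪x, θ⟫_ℝ ^ 2 * den F G 0 x =
        ‖θ‖ ^ 2 * (⟪x, ‖θ‖⁻¹ • θ⟫_ℝ ^ 2 * den F G 0 x) := by
      intro x
      rw [inner_smul_right, mul_pow, inv_pow, ← mul_assoc, ← mul_assoc,
        mul_inv_cancel₀ (by positivity), one_mul]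
    simp only [e]
    rw [integral_const_mul]
    refine (mul_le_mul_of_nonneg_left h4 (by positivity : 0 ≤ ‖θ‖ ^ 2)).trans (le_of_eq ?_)
    ring
  have hSn := S_norm' hS hG hk hl hs hcov'
  obtain ⟨A, hA⟩ : ∃ A : ℝ, A = 51200 * K ^ 2 * k ^ 5 * s := ⟨_, rfl⟩
  have hA0 : 0 < A := by rw [hA]; positivity
  rw [← hA] at hSn
  have h1 := H κ _ hlc (by rw [hmu]; exact measure_univ) (8 * A) (fun g hg hg1 => by
    obtain ⟨a, ha⟩ := var_bound' hS hG hk hl hs hg (B := Real.sqrt A) (fun x => by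
      refine ContinuousLinearMap.opNorm_le_bound _ (Real.sqrt_nonneg _) fun u => ?_
      rw [ContinuousLinearMap.comp_apply]
      have h2 := (fderiv ℝ g x).le_opNorm (S u)
      have h3 : ‖S u‖ ≤ Real.sqrt A * ‖u‖ := by
        have h4 : ‖S u‖ ^ 2 ≤ (Real.sqrt A * ‖u‖) ^ 2 := by
          rw [mul_pow, Real.sq_sqrt hA0.le]
          exact hSn u
        exact (abs_le_of_sq_le_sq' h4 (by positivity)).2
      calc ‖(fderiv ℝ g x) (S u)‖ ≤ ‖fderiv ℝ g x‖ * ‖S u‖ := h2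
        _ ≤ 1 * (Real.sqrt A * ‖u‖) := mul_le_mul (hg1 x) h3 (norm_nonneg _) zero_le_one
        _ = _ := one_mul _)
    rw [Real.sq_sqrt hA0.le] at ha
    rw [hmu, hnm (fun x => g x ^ 2), hnm g]
    have hc := hg.continuous
    have i1 := int_cont hF hG 0 (g := fun x => g x ^ 2) (by fun_prop)
    have i2 := int_cont hF hG 0 hc
    have i3 := (den_int hF hG 0).const_mul (a ^ 2)
    have e : ∀ x, (g x - a) ^ 2 * den F G 0 x =
        (g x ^ 2 * den F G 0 x - 2 * a * (g x * den F G 0 x)) + a ^ 2 * den F G 0 x :=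
      fun x => by ring
    simp only [e] at ha
    have i4 : Integrable (fun x => g x ^ 2 * den F G 0 x - 2 * a * (g x * den F G 0 x)) :=
      i1.sub (i2.const_mul _)
    rw [integral_add i4 i3, integral_sub i1 (i2.const_mul (2 * a)), integral_const_mul,
      integral_const_mul] at ha
    have hN : ∫ x, den F G 0 x = N F G 0 := rfl
    rw [hN] at ha
    obtain ⟨p, hp⟩ : ∃ p, p = ∫ x, g x ^ 2 * den F G 0 x := ⟨_, rfl⟩
    obtain ⟨q, hq⟩ : ∃ q, q = ∫ x, g x * den F G 0 x := ⟨_, rfl⟩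
    rw [← hp, ← hq] at ha
    rw [← hp, ← hq]
    have h5 : p / N F G 0 - 2 * a * (q / N F G 0) + a ^ 2 ≤ 8 * A := by
      have h6 : (p - 2 * a * q + a ^ 2 * N F G 0) / N F G 0 ≤ 8 * A := by
        rw [div_le_iff₀ hZ]
        exact ha
      have h7 : (p - 2 * a * q + a ^ 2 * N F G 0) / N F G 0 =
          p / N F G 0 - 2 * a * (q / N F G 0) + a ^ 2 := by
        field_simp
      rwa [h7] at h6
    nlinarith [sq_nonneg (q / N F G 0 - a)]) f hf
  rw [hmu] at h1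
  have e : C * (8 * A) = C * 409600 * K ^ 2 * k ^ 5 * s := by
    rw [hA]
    ring
  rwa [e] at h1

/-- second moments are positive -/
theorem ev_pos_open {Ω : Set (Eu κ)} (ho : IsOpen Ω) (hne : Ω.Nonempty)
    (hb : Bornology.IsBounded Ω) {u : Eu κ} (hu : u ≠ 0) :
    0 < EV Ω (fun x => ⟪x, u⟫_ℝ ^ 2) := by
  have hV : 0 < (volume Ω).toReal :=
    ENNReal.toReal_pos (ho.measure_pos volume hne).ne' hb.measure_lt_top.ne
  refine div_pos ?_ hV
  have hc : Continuous fun x : Eu κ => ⟪x, u⟫_ℝ ^ 2 := by fun_prop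
  have hint : IntegrableOn (fun x : Eu κ => ⟪x, u⟫_ℝ ^ 2) Ω :=
    ((hc.continuousOn (s := closure Ω)).integrableOn_compact hb.isCompact_closure).mono_set
      subset_closure
  obtain ⟨A, hA⟩ : ∃ A : Set (Eu κ), A = Ω ∩ {x | ⟪x, u⟫_ℝ ≠ 0} := ⟨_, rfl⟩
  have hAo : IsOpen A := by
    rw [hA]
    exact ho.inter (isOpen_ne_fun (by fun_prop) continuous_const)
  have hAne : A.Nonempty := by
    obtain ⟨x, hx⟩ := hne
    by_cases h0 : ⟪x, u⟫_ℝ = 0
    · obtain ⟨ε, hε, hball⟩ := Metric.isOpen_iff.1 ho x hx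
      have hun : 0 < ‖u‖ := norm_pos_iff.2 hu
      refine ⟨x + (ε / 2 / ‖u‖) • u, ?_⟩
      rw [hA]
      refine ⟨hball ?_, ?_⟩
      · rw [Metric.mem_ball, dist_eq_norm, add_sub_cancel_left, norm_smul, Real.norm_eq_abs,
          abs_of_pos (by positivity), div_mul_cancel₀ _ hun.ne']
        linarith
      · show ⟪x + (ε / 2 / ‖u‖) • u, u⟫_ℝ ≠ 0
        rw [inner_add_left, h0, zero_add, inner_smul_left, conj_trivial,
          real_inner_self_eq_norm_sq]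
        positivity
    · exact ⟨x, by rw [hA]; exact ⟨hx, h0⟩⟩
  rw [setIntegral_pos_iff_support_of_nonneg_ae (Eventually.of_forall fun x => sq_nonneg _) hint]
  refine (hAo.measure_pos volume hAne).trans_le (measure_mono ?_)
  rw [hA]
  rintro x ⟨hx1, hx2⟩
  refine ⟨?_, hx1⟩
  rw [Function.mem_support]
  have h3 : ⟪x, u⟫_ℝ ≠ 0 := hx2
  exact pow_ne_zero 2 h3

theorem ev_inner_sq' {A : Set (Eu κ)} (hb : Bornology.IsBounded A) (u : Eu κ) :
    EV A (fun x => ⟪x, u⟫_ℝ ^ 2) = ∑ i, ∑ j, EV A (fun x => x i * x j) * u i * u j := by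
  have e : ∀ x : Eu κ, ⟪x, u⟫_ℝ ^ 2 = ∑ i, ∑ j, x i * x j * (u i * u j) := by
    intro x
    have h1 : ⟪x, u⟫_ℝ = ∑ i, x i * u i := by
      rw [PiLp.inner_apply]
      refine Finset.sum_congr rfl fun i _ => ?_
      simp [mul_comm]
    rw [h1, sq, Finset.sum_mul_sum]
    exact Finset.sum_congr rfl fun i _ => Finset.sum_congr rfl fun j _ => by ring
  have hint : ∀ i j, IntegrableOn (fun x : Eu κ => x i * x j * (u i * u j)) A := fun i j =>
    (((by fun_prop : Continuous fun x : Eu κ => x i * x j * (u i * u j)).continuousOn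
      (s := closure A)).integrableOn_compact hb.isCompact_closure).mono_set subset_closure
  unfold EV
  simp only [e]
  rw [integral_finsetSum _ fun i _ => integrable_finsetSum _ fun j _ => hint i j, Finset.sum_div]
  refine Finset.sum_congr rfl fun i _ => ?_
  rw [integral_finsetSum _ fun j _ => hint i j, Finset.sum_div]
  refine Finset.sum_congr rfl fun j _ => ?_
  rw [integral_mul_const]
  ring

/-- **from the isotropic linear images to the affine invariant form** -/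
theorem aff_of_pi {Ω : Set (Eu κ)} (ho : IsOpen Ω) (hne : Ω.Nonempty)
    (hb : Bornology.IsBounded Ω) {A₀ : ℝ}
    (H : ∀ T : Eu κ ≃L[ℝ] Eu κ, (∀ θ : Eu κ, ‖θ‖ = 1 →
      EV (T ⁻¹' Ω) (fun x => ⟪x, θ⟫_ℝ ^ 2) ≤ 1) → ∀ f : Eu κ → ℝ, ContDiff ℝ 1 f →
      VV (T ⁻¹' Ω) f ≤ A₀ * EV (T ⁻¹' Ω) fun x => ‖fderiv ℝ f x‖ ^ 2)
    {f : Eu κ → ℝ} (hf : ContDiff ℝ 1 f) :
    VV Ω f ≤ A₀ * EV Ω fun x => EV Ω fun y => (fderiv ℝ f x y) ^ 2 := by
  classical
  obtain ⟨A, hA⟩ := exists_map_psd (κ := κ) (Q := Matrix.of fun i j =>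
    EV Ω (fun x => x i * x j)) (by
      refine Matrix.PosSemidef.of_dotProduct_mulVec_nonneg ?_ fun x => ?_
      · ext i j
        simp only [Matrix.conjTranspose_apply, Matrix.of_apply, star_trivial]
        refine congrArg _ ?_
        funext x
        ring
      · have h1 : star x ⬝ᵥ (Matrix.of fun i j =>
            EV Ω (fun x => x i * x j)).mulVec x =
            EV Ω (fun y => ⟪y, WithLp.toLp 2 x⟫_ℝ ^ 2) := by
          rw [ev_inner_sq' hb]
          simp only [dotProduct, Matrix.mulVec, star_trivial, Matrix.of_apply, Finset.mul_sum]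
          refine Finset.sum_congr rfl fun i _ => Finset.sum_congr rfl fun j _ => ?_
          ring
        rw [h1]
        exact div_nonneg (integral_nonneg fun y => sq_nonneg _) ENNReal.toReal_nonneg)
  have hA' : ∀ u : Eu κ, ‖A u‖ ^ 2 = EV Ω (fun x => ⟪x, u⟫_ℝ ^ 2) := by
    intro u
    rw [hA, ev_inner_sq' hb]
    rfl
  have hAinj : Function.Injective A := by
    rw [← LinearMap.ker_eq_bot, LinearMap.ker_eq_bot']
    intro u hu
    by_contra hne'
    have h1 := ev_pos_open ho hne hb hne'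
    rw [← hA', hu, norm_zero] at h1
    norm_num at h1
  obtain ⟨T₀, hT₀⟩ : ∃ T₀ : Eu κ →ₗ[ℝ] Eu κ, ∀ x y, ⟪T₀ x, y⟫_ℝ = ⟪x, A y⟫_ℝ :=
    ⟨LinearMap.adjoint A, fun x y => LinearMap.adjoint_inner_left A y x⟩
  have hAsur : Function.Surjective A := LinearMap.injective_iff_surjective.1 hAinj
  have hTinj : Function.Injective T₀ := by
    rw [← LinearMap.ker_eq_bot, LinearMap.ker_eq_bot']
    intro x hx
    obtain ⟨y, hy⟩ := hAsur x
    have h1 := hT₀ x y
    rw [hx, inner_zero_left, hy, real_inner_self_eq_norm_sq] at h1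
    exact norm_eq_zero.1 (pow_eq_zero_iff two_ne_zero |>.1 h1.symm)
  let T : Eu κ ≃L[ℝ] Eu κ :=
    (LinearEquiv.ofInjectiveEndo T₀ hTinj).toContinuousLinearEquiv
  have hT : ∀ x y, ⟪T x, y⟫_ℝ = ⟪x, A y⟫_ℝ := fun x y => hT₀ x y
  have h1 := H T (fun θ hθ => by
    obtain ⟨u, hu⟩ := hAsur θ
    have h3 : (fun y : Eu κ => ⟪y, θ⟫_ℝ ^ 2) = fun y => (fun x => ⟪x, u⟫_ℝ ^ 2) (T y) := by
      funext y
      show ⟪y, θ⟫_ℝ ^ 2 = ⟪T y, u⟫_ℝ ^ 2
      rw [hT, hu]
    rw [h3, ev_comp T Ω (fun x => ⟪x, u⟫_ℝ ^ 2), ← hA', hu, hθ, one_pow])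
    (fun y => f (T y)) (hf.comp T.contDiff)
  rw [vv_comp T Ω f] at h1
  refine h1.trans (le_of_eq ?_)
  congr 1
  have e2 : (fun x : Eu κ => ‖fderiv ℝ (fun y => f (T y)) x‖ ^ 2) =
      fun x => (fun z => EV Ω fun y => (fderiv ℝ f z y) ^ 2) (T x) := by
    funext x
    show ‖fderiv ℝ (fun y => f (T y)) x‖ ^ 2 = EV Ω fun y => (fderiv ℝ f (T x) y) ^ 2
    have hd : Differentiable ℝ f := hf.differentiable one_ne_zero
    have h2 : fderiv ℝ (fun y => f (T y)) x = (fderiv ℝ f (T x)).comp (T : Eu κ →L[ℝ] Eu κ) :=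
      ((hd (T x)).hasFDerivAt.comp x T.hasFDerivAt).fderiv
    obtain ⟨w, hw⟩ : ∃ w : Eu κ, ∀ y, fderiv ℝ f (T x) y = ⟪y, w⟫_ℝ := by
      refine ⟨(InnerProductSpace.toDual ℝ (Eu κ)).symm (fderiv ℝ f (T x)), fun y => ?_⟩
      rw [real_inner_comm, InnerProductSpace.toDual_symm_apply]
    simp only [hw]
    rw [← hA', h2]
    have h3 : (fderiv ℝ f (T x)).comp (T : Eu κ →L[ℝ] Eu κ) =
        InnerProductSpace.toDual ℝ (Eu κ) (A w) := by
      ext y
      rw [ContinuousLinearMap.comp_apply, InnerProductSpace.toDual_apply_apply]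
      show fderiv ℝ f (T x) (T y) = _
      rw [hw, hT, real_inner_comm]
    rw [h3, LinearIsometryEquiv.norm_map]
  rw [e2]
  exact ev_comp T Ω (fun z => EV Ω fun y => (fderiv ℝ f z y) ^ 2)

/-- the body -/
def bodyD {k : ℕ} {b : Fin k → Type} [∀ j, Fintype (b j)] (P : ∀ j, Eu κ →L[ℝ] Eu (b j))
    (ψ : ∀ j, Eu (b j) → ℝ) (D : Set (Fin k → ℝ)) : Set (Eu κ) := {x | (fun j => ψ j (P j x)) ∈ D}

/-- open convex lower sets containing the origin -/
structure Lw {k : ℕ} (D : Set (Fin k → ℝ)) : Prop where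
  isOpen : IsOpen D
  convex : Convex ℝ D
  lower : ∀ s ∈ D, ∀ t : Fin k → ℝ, (∀ j, t j ≤ s j) → t ∈ D
  zero : (0 : Fin k → ℝ) ∈ D

section body

variable {k : ℕ} {b : Fin k → Type} [∀ j, Fintype (b j)] {P : ∀ j, Eu κ →L[ℝ] Eu (b j)}
  {ψ : ∀ j, Eu (b j) → ℝ} {K : ℝ} {D : Set (Fin k → ℝ)}

theorem bodyD_open (hψ : ∀ j, Prof (ψ j) K) (hD : Lw D) : IsOpen (bodyD P ψ D) :=
  hD.isOpen.preimage (continuous_pi fun j => (hψ j).diff.continuous.comp (P j).continuous)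

theorem bodyD_convex (hψ : ∀ j, Prof (ψ j) K) (hD : Lw D) : Convex ℝ (bodyD P ψ D) := by
  intro x hx y hy a b ha hb hab
  refine hD.lower _ (hD.convex hx hy ha hb hab) _ fun j => ?_
  have h1 := (hψ j).convex.comp_linearMap (P j : Eu κ →ₗ[ℝ] Eu _)
  exact h1.2 (mem_univ x) (mem_univ y) ha hb hab

theorem bodyD_symm (hψ : ∀ j, Prof (ψ j) K) {x : Eu κ} (hx : x ∈ bodyD P ψ D) :
    -x ∈ bodyD P ψ D := by
  have e : (fun j => ψ j (P j (-x))) = fun j => ψ j (P j x) := by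
    funext j
    rw [map_neg, (hψ j).even]
  show (fun j => ψ j (P j (-x))) ∈ D
  rw [e]
  exact hx

theorem bodyD_zero (hψ : ∀ j, Prof (ψ j) K) (hD : Lw D) : (0 : Eu κ) ∈ bodyD P ψ D := by
  show (fun j => ψ j (P j 0)) ∈ D
  have e : (fun j => ψ j (P j (0 : Eu κ))) = 0 := by
    funext j
    rw [map_zero, (hψ j).zero]
    rfl
  rw [e]
  exact hD.zero

/-- the diagonal near the origin -/
theorem exists_diag (hD : Lw D) : ∃ c : ℝ, 0 < c ∧ (fun _ : Fin k => c) ∈ D := by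
  have h1 : Tendsto (fun c : ℝ => (fun _ : Fin k => c)) (𝓝 0) (𝓝 (fun _ : Fin k => (0 : ℝ))) := by
    have h2 : Continuous fun c : ℝ => (fun _ : Fin k => c) := continuous_pi fun _ => continuous_id
    exact h2.tendsto 0
  have h2 : ∀ᶠ c : ℝ in 𝓝 0, (fun _ : Fin k => c) ∈ D := h1 (hD.isOpen.mem_nhds hD.zero)
  obtain ⟨ε, hε, hb⟩ := Metric.eventually_nhds_iff.1 h2
  refine ⟨ε / 2, by positivity, hb ?_⟩
  rw [Real.dist_eq, sub_zero, abs_of_pos (by positivity)]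
  linarith

end body

/-- **the Poincare inequality for the bodies** -/
theorem exists_pi_body : ∃ C : ℝ, 0 < C ∧ ∀ (κ : Type) [Fintype κ] (k : ℕ) (b : Fin k → Type)
    [∀ j, Fintype (b j)] (P : ∀ j, Eu κ →L[ℝ] Eu (b j)) (ψ : ∀ j, Eu (b j) → ℝ) (K : ℝ)
    (D : Set (Fin k → ℝ)), 1 ≤ K → (∀ j, Prof (ψ j) K) → Lw D →
    Bornology.IsBounded (bodyD P ψ D) → 0 < k → ∀ s : ℝ, 0 < s →
    (∀ θ : Eu κ, ‖θ‖ = 1 → EV (bodyD P ψ D) (fun x => ⟪x, θ⟫_ℝ ^ 2) ≤ s) →
    ∀ f : Eu κ → ℝ, ContDiff ℝ 1 f → VV (bodyD P ψ D) f ≤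
      C * K ^ 2 * k ^ 5 * s * EV (bodyD P ψ D) fun x => ‖fderiv ℝ f x‖ ^ 2 := by
  obtain ⟨C, hC, H⟩ := pi_bdd
  refine ⟨C, hC, ?_⟩
  intro κ _ k b _ P ψ K D hK hψ hD hbd hk s hs0 hcov f hf
  have hΩo := bodyD_open (P := P) hψ hD
  have hΩc := bodyD_convex (P := P) hψ hD
  have hΩ0 := bodyD_zero (P := P) hψ hD
  obtain ⟨Ω, hΩ⟩ : ∃ Ω, Ω = bodyD P ψ D := ⟨_, rfl⟩
  have hK0 : 0 < K := by linarith
  obtain ⟨F, hFd⟩ : ∃ F : Fin k → Eu κ → ℝ, F = fun j x => ψ j (P j x) := ⟨_, rfl⟩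
  -- the joint kernel is trivial
  have hinj : ∀ z, (∀ j, P j z = 0) → z = 0 := by
    intro z hz
    by_contra hz0
    obtain ⟨R, hR⟩ := hbd.exists_norm_le
    have hn : 0 < ‖z‖ := norm_pos_iff.2 hz0
    have h1 := hR (((|R| + 1) / ‖z‖) • z) (by
      have e : (fun j => ψ j (P j (((|R| + 1) / ‖z‖) • z))) = 0 := by
        funext j
        rw [map_smul, hz j, smul_zero, (hψ j).zero]
        rfl
      show (fun j => ψ j (P j (((|R| + 1) / ‖z‖) • z))) ∈ D
      rw [e]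
      exact hD.zero)
    rw [norm_smul, Real.norm_eq_abs, abs_of_pos (by positivity), div_mul_cancel₀ _ hn.ne'] at h1
    have := le_abs_self R
    linarith
  have hS : Sys F P K := by
    rw [hFd]
    exact sys_of_prof hK hψ (bdd_of_inj hψ hinj)
  have hF := hS.toFam
  obtain ⟨c, hc, hcD⟩ := exists_diag hD
  -- an upper bound for the levels
  obtain ⟨M, hM⟩ : ∃ M : ℝ, ∀ x ∈ closure Ω, ∀ j, F j x ≤ M := by
    have hcpt : IsCompact (closure Ω) := by rw [hΩ]; exact hbd.isCompact_closure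
    have h1 : ∀ j, ∃ B : ℝ, ∀ x ∈ closure Ω, F j x ≤ B := fun j => by
      obtain ⟨B, hB⟩ := hcpt.exists_bound_of_continuousOn (hF.cont j).continuousOn
      exact ⟨B, fun x hx => (le_abs_self _).trans (hB x hx)⟩
    choose B hB using h1
    obtain ⟨R, -, hR⟩ := exists_ub B
    exact ⟨R, fun x hx j => (hB j x hx).trans (hR j)⟩
  obtain ⟨M', hM'⟩ : ∃ M', M' = max M c := ⟨_, rfl⟩
  have hcM : c ≤ M' := by rw [hM']; exact le_max_right _ _
  have hMM : M ≤ M' := by rw [hM']; exact le_max_left _ _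
  obtain ⟨E, hE⟩ : ∃ E : Set (Fin k → ℝ), E = D ∩ {t | ∀ j, t j ≤ M'} := ⟨_, rfl⟩
  have hEm : MeasurableSet E := by
    rw [hE]
    refine hD.isOpen.measurableSet.inter ?_
    have e : {t : Fin k → ℝ | ∀ j, t j ≤ M'} = ⋂ j, {t | t j ≤ M'} := by
      ext t
      simp
    rw [e]
    exact MeasurableSet.iInter fun j => measurableSet_le (measurable_pi_apply j) measurable_const
  have hEl : ∀ s ∈ E, ∀ t : Fin k → ℝ, (∀ j, t j ≤ s j) → t ∈ E := by
    intro s hs t ht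
    rw [hE] at hs ⊢
    exact ⟨hD.lower s hs.1 t ht, fun j => (ht j).trans (hs.2 j)⟩
  have hEc : ∀ s ∈ E, ∀ t ∈ E, ∀ a b : ℝ, 0 < a → 0 < b → a + b = 1 → a • s + b • t ∈ E := by
    intro s hs t ht a b ha hb hab
    rw [hE] at hs ht ⊢
    refine ⟨hD.convex hs.1 ht.1 ha.le hb.le hab, fun j => ?_⟩
    simp only [Pi.add_apply, Pi.smul_apply, smul_eq_mul]
    have h1 := mul_le_mul_of_nonneg_left (hs.2 j) ha.le
    have h2 := mul_le_mul_of_nonneg_left (ht.2 j) hb.le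
    have h3 : a * M' + b * M' = M' := by rw [← add_mul, hab, one_mul]
    linarith
  obtain ⟨G, hGd⟩ : ∃ G : (Fin k → ℝ) → ℝ, G = E.indicator fun _ => (1 : ℝ) := ⟨_, rfl⟩
  have hGn : ∀ t, 0 ≤ G t := fun t => by
    rw [hGd]
    exact indicator_nonneg (fun _ _ => zero_le_one) t
  have hG : Gd G c M' := by
    refine ⟨?_, hGn, fun s t hst => ?_, fun s t x y hx hy hxy => ?_, fun t ht => ?_,
      hc.trans_le hcM, hc, ?_⟩
    · rw [hGd]
      exact measurable_const.indicator hEm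
    · by_cases ht : t ∈ E
      · rw [hGd, indicator_of_mem ht, indicator_of_mem (hEl t ht s hst)]
      · have h1 : G t = 0 := by rw [hGd, indicator_of_notMem ht]
        rw [h1]
        exact hGn s
    · by_cases hs : s ∈ E
      · by_cases ht : t ∈ E
        · rw [hGd, indicator_of_mem hs, indicator_of_mem ht,
            indicator_of_mem (hEc s hs t ht x y hx hy hxy)]
          simp
        · have h1 : G t = 0 := by rw [hGd, indicator_of_notMem ht]
          rw [h1, Real.zero_rpow hy.ne', mul_zero]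
          exact hGn _
      · have h1 : G s = 0 := by rw [hGd, indicator_of_notMem hs]
        rw [h1, Real.zero_rpow hx.ne', zero_mul]
        exact hGn _
    · rw [hGd, indicator_of_notMem]
      intro h1
      rw [hE] at h1
      obtain ⟨j, hj⟩ := ht
      have := h1.2 j
      linarith
    · rw [hGd, indicator_of_mem]
      · exact one_pos
      · rw [hE]
        exact ⟨hcD, fun j => hcM⟩
  -- the density is the indicator function of the body
  have hden : den F G 0 = Ω.indicator fun _ => (1 : ℝ) := by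
    funext x
    unfold den
    simp only [Pi.zero_apply, add_zero]
    by_cases hx : x ∈ Ω
    · have hx' : (fun j => F j x) ∈ E := by
        rw [hE]
        refine ⟨?_, fun j => (hM x (subset_closure hx) j).trans hMM⟩
        rw [hΩ] at hx
        rw [hFd]
        exact hx
      rw [hGd, indicator_of_mem hx', indicator_of_mem hx]
    · have hx' : (fun j => F j x) ∉ E := by
        intro h1
        rw [hE] at h1
        refine hx ?_
        rw [hΩ]
        rw [hFd] at h1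
        exact h1.1
      rw [hGd, indicator_of_notMem hx', indicator_of_notMem hx]
  rw [← hΩ] at hbd hΩo hΩc hΩ0 hcov ⊢
  have hV : 0 < (volume Ω).toReal :=
    ENNReal.toReal_pos (hΩo.measure_pos volume ⟨0, hΩ0⟩).ne' hbd.measure_lt_top.ne
  have hm := hΩo.measurableSet
  have hnm : ∀ g : Eu κ → ℝ, ∫ x, g x ∂(nm (Ω.indicator fun _ => (1 : ℝ))) = EV Ω g := by
    intro g
    rw [integral_nm (fun x => indicator_nonneg (fun _ _ => zero_le_one) x)
      (measurable_const.indicator hm)]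
    have e1 : ∫ x, (Ω.indicator (fun _ => (1 : ℝ)) x) = (volume Ω).toReal := by
      rw [integral_indicator hm, setIntegral_const, smul_eq_mul, mul_one]
      rfl
    have e2 : ∫ x, g x * Ω.indicator (fun _ => (1 : ℝ)) x = ∫ x in Ω, g x := by
      rw [← integral_indicator hm]
      refine integral_congr_ae (Eventually.of_forall fun x => ?_)
      by_cases hx : x ∈ Ω
      · simp only [indicator_of_mem hx, mul_one]
      · simp only [indicator_of_notMem hx, mul_zero]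
    rw [e1, e2]
    rfl
  -- covariances
  have hwt : Wt (Ω.indicator fun _ => (1 : ℝ)) := by
    rw [← hden]
    exact wt_den hF hG
  have hp := hwt.prob
  have hcl : CovLe (nm (Ω.indicator fun _ => (1 : ℝ))) s := by
    intro θ hθ
    rw [var_eq hwt.int_sq, hnm, hnm]
    have := hcov θ hθ
    have := sq_nonneg (EV Ω fun x => ⟪x, θ⟫_ℝ)
    linarith
  have hpoi := H κ k F G c M' b P K hS hG hk s hs0 (by rw [hden]; exact hcl) f hf
  rw [hden, hnm, hnm, hnm] at hpoi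
  exact hpoi

/-- the Poincare form -/
theorem exists_kp_body : ∃ C : ℝ, 0 < C ∧ ∀ (κ : Type) [Fintype κ] (k : ℕ) (b : Fin k → Type)
    [∀ j, Fintype (b j)] (P : ∀ j, Eu κ →L[ℝ] Eu (b j)) (ψ : ∀ j, Eu (b j) → ℝ) (K : ℝ)
    (D : Set (Fin k → ℝ)), 1 ≤ K → (∀ j, Prof (ψ j) K) → Lw D →
    Bornology.IsBounded (bodyD P ψ D) → 0 < k →
    KP (nm ((closure (bodyD P ψ D)).indicator fun _ => (1 : ℝ))) (C * K ^ 2 * k ^ 5) := by
  obtain ⟨C, hC, H⟩ := exists_pi_body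
  refine ⟨C, hC, ?_⟩
  intro κ _ k b _ P ψ K D hK hψ hD hbd hk
  have hΩo := bodyD_open (P := P) hψ hD
  have hΩc := bodyD_convex (P := P) hψ hD
  have hΩ0 := bodyD_zero (P := P) hψ hD
  have hB := body_closure hΩo hΩc hbd hΩ0
  rw [nm_ind hB]
  have hp := hB.prob
  intro s hs hcov f B L hf
  have hmean : ∀ θ : Eu κ, EV (bodyD P ψ D) (fun x => ⟪x, θ⟫_ℝ) = 0 := by
    intro θ
    unfold EV
    rw [int_odd (fun x hx => bodyD_symm hψ hx) hΩo.measurableSet fun x => inner_neg_left x θ,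
      zero_div]
  have h1 := H κ k b P ψ K D hK hψ hD hbd hk s hs (fun θ hθ => by
    have h2 := hcov θ hθ
    rw [var_eq hB.int_sq, int_unf, int_unf, ev_closure hΩo hΩc, ev_closure hΩo hΩc, hmean] at h2
    linarith) f hf.diff
  rw [int_unf, int_unf, int_unf, ev_closure hΩo hΩc, ev_closure hΩo hΩc, ev_closure hΩo hΩc]
  exact h1

/-- **the affine invariant form** -/
theorem exists_aff_body : ∃ C : ℝ, 0 < C ∧ ∀ (κ : Type) [Fintype κ] (k : ℕ) (b : Fin k → Type)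
    [∀ j, Fintype (b j)] (P : ∀ j, Eu κ →L[ℝ] Eu (b j)) (ψ : ∀ j, Eu (b j) → ℝ) (K : ℝ)
    (D : Set (Fin k → ℝ)), 1 ≤ K → (∀ j, Prof (ψ j) K) → Lw D →
    Bornology.IsBounded (bodyD P ψ D) → 0 < k → ∀ f : Eu κ → ℝ, ContDiff ℝ 1 f →
    VV (bodyD P ψ D) f ≤ C * K ^ 2 * k ^ 5 *
      EV (bodyD P ψ D) fun x => EV (bodyD P ψ D) fun y => (fderiv ℝ f x y) ^ 2 := by
  obtain ⟨C, hC, H⟩ := exists_pi_body
  refine ⟨C, hC, ?_⟩
  intro κ _ k b _ P ψ K D hK hψ hD hbd hk f hf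
  refine aff_of_pi (bodyD_open (P := P) hψ hD) ⟨0, bodyD_zero (P := P) hψ hD⟩ hbd
    (fun T hT g hg => ?_) hf
  have e : T ⁻¹' bodyD P ψ D = bodyD (fun j => (P j).comp (T : Eu κ →L[ℝ] Eu κ)) ψ D := rfl
  have hbd' : Bornology.IsBounded (T ⁻¹' bodyD P ψ D) := by
    have h1 : T ⁻¹' bodyD P ψ D ⊆ T.symm '' bodyD P ψ D := fun x hx =>
      ⟨T x, hx, T.symm_apply_apply x⟩
    exact (T.symm.lipschitz.isBounded_image hbd).subset h1
  rw [e] at hT hbd' ⊢
  have h1 := H κ k b (fun j => (P j).comp (T : Eu κ →L[ℝ] Eu κ)) ψ K D hK hψ hD hbd' hk 1 one_pos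
    hT g hg
  rwa [mul_one] at h1

end Pool.Agent.H776.GE
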