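import Pool.Agent.H776.Net3

/-!
# Square grids
-/

set_option autoImplicit false

namespace Pool.Agent.H776

open Set Filter Topology

/-- the square grid with `k × k` vertices -/
def grid (k : ℕ) : SimpleGraph (Fin k × Fin k) where
  Adj p q := (p.1 = q.1 ∧ ((p.2 : ℕ) + 1 = q.2 ∨ (q.2 : ℕ) + 1 = p.2)) ∨
    (p.2 = q.2 ∧ ((p.1 : ℕ) + 1 = q.1 ∨ (q.1 : ℕ) + 1 = p.1))
  symm := ⟨fun p q h => by
    rcases h with ⟨h1, h2⟩ | ⟨h1, h2⟩
    · exact Or.inl ⟨h1.symm, h2.symm⟩
    · exact Or.inr ⟨h1.symm, h2.symm⟩⟩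
  loopless := ⟨fun p h => by
    rcases h with ⟨h1, h2⟩ | ⟨h1, h2⟩ <;> omega⟩

section nodes

variable {N : ℕ}

/-- nodes: `(0, j, i)` are the nodes `H`, `(1, j, i)` the nodes `V`, `(2, j, i)` the nodes `C` -/
abbrev Nd (N : ℕ) : Type := Fin 3 × Fin N × Fin N

/-- linear forms of the nodes -/
noncomputable def gL (N : ℕ) : Matrix (Nd N) (Fin N) ℝ := Matrix.of fun u k =>
  if u.1 = 0 then dl u.2.1 k else if u.1 = 1 then dl u.2.2 k else dl u.2.1 k + dl u.2.2 k

/-- gates -/
noncomputable def gP (N : ℕ) : Matrix (Fin 4 × Fin N × Fin N) (Nd N) ℝ := Matrix.of fun g w =>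
  if g.1 = 0 then dl w (2, g.2) - dl w (0, g.2) - dl w (1, g.2)
  else if g.1 = 1 then
    (if h : (g.2.1 : ℕ) + 1 < N then dl w (2, g.2) - dl w (0, g.2) - dl w (1, ⟨g.2.1 + 1, h⟩, g.2.2)
      else 0)
  else if g.1 = 2 then
    (if h : (g.2.2 : ℕ) + 1 < N then dl w (2, g.2) - dl w (1, g.2) - dl w (0, g.2.1, ⟨g.2.2 + 1, h⟩)
      else 0)
  else (if g.2.1 = g.2.2 then dl w (0, g.2) - dl w (1, g.2) else 0)

/-- the graph of the gates -/
def gG (N : ℕ) : SimpleGraph (Nd N) where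
  Adj u v := u ≠ v ∧ ∃ g, gP N g u ≠ 0 ∧ gP N g v ≠ 0
  symm := ⟨fun u v h => ⟨h.1.symm, by obtain ⟨g, h1, h2⟩ := h.2; exact ⟨g, h2, h1⟩⟩⟩
  loopless := ⟨fun u h => h.1 rfl⟩

theorem gL_sum (u : Nd N) (y : Fin N → ℝ) : ∑ k, gL N u k * y k =
    if u.1 = 0 then y u.2.1 else if u.1 = 1 then y u.2.2 else y u.2.1 + y u.2.2 := by
  have hd : ∀ a : Fin N, ∑ k, dl a k * y k = y a := fun a => dl_sum' a y
  unfold gL
  simp only [Matrix.of_apply]
  split_ifs
  · exact hd _
  · exact hd _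
  · simp only [add_mul, Finset.sum_add_distrib]
    rw [hd, hd]

theorem sum3 (a b c : Nd N) (w : Nd N → ℝ) :
    ∑ v, (dl v a - dl v b - dl v c) * w v = w a - w b - w c := by
  simp only [sub_mul, Finset.sum_sub_distrib]
  rw [dl_sum, dl_sum, dl_sum]

theorem sum2 (a b : Nd N) (w : Nd N → ℝ) :
    ∑ v, (dl v a - dl v b) * w v = w a - w b := by
  simp only [sub_mul, Finset.sum_sub_distrib]
  rw [dl_sum, dl_sum]

theorem gate0 (a : Fin N × Fin N) (w : Nd N → ℝ) :
    ∑ v, gP N (0, a) v * w v = w (2, a) - w (0, a) - w (1, a) := by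
  simp only [gP, Matrix.of_apply, if_true]
  exact sum3 _ _ _ _

theorem gate1 (a : Fin N × Fin N) (h : (a.1 : ℕ) + 1 < N) (w : Nd N → ℝ) :
    ∑ v, gP N (1, a) v * w v = w (2, a) - w (0, a) - w (1, ⟨a.1 + 1, h⟩, a.2) := by
  have h10 : ¬ (1 : Fin 4) = 0 := by decide
  simp only [gP, Matrix.of_apply, h10, if_false, if_true, h, dif_pos]
  exact sum3 _ _ _ _

theorem gate2 (a : Fin N × Fin N) (h : (a.2 : ℕ) + 1 < N) (w : Nd N → ℝ) :
    ∑ v, gP N (2, a) v * w v = w (2, a) - w (1, a) - w (0, a.1, ⟨a.2 + 1, h⟩) := by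
  have h20 : ¬ (2 : Fin 4) = 0 := by decide
  have h21 : ¬ (2 : Fin 4) = 1 := by decide
  simp only [gP, Matrix.of_apply, h20, h21, if_false, if_true, h, dif_pos]
  exact sum3 _ _ _ _

theorem gate3 (a : Fin N) (w : Nd N → ℝ) :
    ∑ v, gP N (3, a, a) v * w v = w (0, a, a) - w (1, a, a) := by
  have h30 : ¬ (3 : Fin 4) = 0 := by decide
  have h31 : ¬ (3 : Fin 4) = 1 := by decide
  have h32 : ¬ (3 : Fin 4) = 2 := by decide
  simp only [gP, Matrix.of_apply, h30, h31, h32, if_false, if_true]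
  exact sum2 _ _ _

theorem gnet (Q₀ : Matrix (Fin N) (Fin N) ℝ) (hQ : Q₀.PosDef) :
    NetW (fun k : Fin N => ((0 : Fin 3), k, (⟨0, k.pos⟩ : Fin N))) Q₀ (gL N)
      (fun u v => ∑ a : Fin N × Fin N, Q₀ a.1 a.2 / 2 *
        (dl u (0, a) * dl v (1, a) + dl v (0, a) * dl u (1, a))) (gP N) := by
  have h10 : ¬ (1 : Fin 3) = 0 := by decide
  have h20 : ¬ (2 : Fin 3) = 0 := by decide
  have h21 : ¬ (2 : Fin 3) = 1 := by decide
  refine ⟨hQ, fun u i => ?_, fun k y => ?_, fun u v => ?_, fun y => ?_,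
    fun y g => ?_, fun w hw0 hw => ?_⟩
  · unfold gL
    simp only [Matrix.of_apply]
    split_ifs
    · exact dl_nonneg _ _
    · exact dl_nonneg _ _
    · exact add_nonneg (dl_nonneg _ _) (dl_nonneg _ _)
  · rw [gL_sum]
    simp
  · refine Finset.sum_congr rfl fun a _ => ?_
    ring
  · rw [qf_dl (A := Fin N × Fin N) (fun a => Q₀ a.1 a.2) (fun a => (0, a)) (fun a => (1, a)),
      Fintype.sum_prod_type]
    unfold qf
    refine Finset.sum_congr rfl fun a _ => Finset.sum_congr rfl fun b _ => ?_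
    rw [gL_sum, gL_sum]
    simp only [h10, if_false, if_true]
    ring
  · obtain ⟨t, a⟩ := g
    have hl : ∀ u : Nd N, ∑ i, gL N u i * y i =
      if u.1 = 0 then y u.2.1 else if u.1 = 1 then y u.2.2 else y u.2.1 + y u.2.2 :=
      fun u => gL_sum u y
    simp only [hl]
    by_cases ht0 : t = 0
    · subst ht0
      rw [gate0]
      simp only [h10, h20, h21, if_false, if_true]
      ring
    by_cases ht1 : t = 1
    · subst ht1
      by_cases h : (a.1 : ℕ) + 1 < N
      · rw [gate1 a h]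
        simp only [h10, h20, h21, if_false, if_true]
        ring
      · simp [gP, h]
    by_cases ht2 : t = 2
    · subst ht2
      by_cases h : (a.2 : ℕ) + 1 < N
      · rw [gate2 a h]
        simp only [h10, h20, h21, if_false, if_true]
        ring
      · simp [gP, h]
    · by_cases ha : a.1 = a.2
      · have ht3 : t = 3 := by omega
        obtain ⟨a1, a2⟩ := a
        simp only at ha
        subst ha
        subst ht3
        rw [gate3]
        simp only [h10, if_false, if_true]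
        ring
      · simp [gP, ht0, ht1, ht2, ha]
  · have k0 : ∀ a, w (2, a) = w (0, a) + w (1, a) := fun a => by
      have := hw (0, a)
      rw [gate0] at this
      linarith
    have k1 : ∀ (a : Fin N × Fin N) (h : (a.1 : ℕ) + 1 < N), w (1, ⟨a.1 + 1, h⟩, a.2) = w (1, a) :=
      fun a h => by
        have h1 := hw (1, a)
        rw [gate1 a h, k0] at h1
        linarith
    have k2 : ∀ (a : Fin N × Fin N) (h : (a.2 : ℕ) + 1 < N), w (0, a.1, ⟨a.2 + 1, h⟩) = w (0, a) :=
      fun a h => by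
        have h1 := hw (2, a)
        rw [gate2 a h, k0] at h1
        linarith
    have k3 : ∀ a : Fin N, w (0, a, a) = w (1, a, a) := fun a => by
      have h1 := hw (3, a, a)
      rw [gate3] at h1
      linarith
    have H0 : ∀ (j : Fin N) (i : ℕ) (hi : i < N), w (0, j, ⟨i, hi⟩) = 0 := by
      intro j i
      induction i with
      | zero => intro hi; exact hw0 j
      | succ i ih => intro hi; exact (k2 (j, ⟨i, by omega⟩) hi).trans (ih _)
    have V0 : ∀ (i : Fin N) (j : ℕ) (hj : j < N), w (1, ⟨j, hj⟩, i) = w (1, ⟨0, i.pos⟩, i) := by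
      intro i j
      induction j with
      | zero => intro hj; rfl
      | succ j ih => intro hj; exact (k1 (⟨j, by omega⟩, i) hj).trans (ih _)
    have V1 : ∀ i j : Fin N, w (1, j, i) = 0 := by
      intro i j
      have h1 := V0 i j j.2
      have h2 := V0 i i i.2
      have h3 := k3 i
      have h4 := H0 i i i.2
      have e1 : w (1, j, i) = w (1, i, i) := h1.trans h2.symm
      rw [e1, ← h3]
      exact h4
    funext u
    obtain ⟨t, j, i⟩ := u
    have hH : w (0, j, i) = 0 := H0 j i i.2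
    fin_cases t
    · exact hH
    · exact V1 i j
    · change w (2, j, i) = 0
      rw [k0, V1, hH, add_zero]

/-- all positive definite matrices from the matrices on the graph of the gates -/
theorem kp_stage {D : ℝ} (hD : 0 ≤ D)
    (H : ∀ Q : Matrix (Nd N) (Nd N) ℝ, Q.PosDef → Supp (gG N) Q → KP (nm (gq Q)) D)
    {Q₀ : Matrix (Fin N) (Fin N) ℝ} (hQ : Q₀.PosDef) : KP (nm (gq Q₀)) D := by
  refine kp_netW hD (gnet Q₀ hQ) fun Q hQ' h1 => H Q hQ' fun u v huv hadj => h1 u v ?_ fun g => ?_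
  · refine Finset.sum_eq_zero fun a _ => ?_
    have hP : gP N (0, a) (0, a) ≠ 0 ∧ gP N (0, a) (1, a) ≠ 0 := by
      have e1 : ((0 : Fin 3), a) ≠ (2, a) := by simp
      have e2 : ((0 : Fin 3), a) ≠ (1, a) := by simp
      have e3 : ((1 : Fin 3), a) ≠ (2, a) := by simp
      simp only [gP, Matrix.of_apply, if_true, dl_self, dl_ne e1, dl_ne e2, dl_ne e3,
        dl_ne (Ne.symm e2)]
      norm_num
    have key : ∀ x y : Nd N, x ≠ y → ¬ (gG N).Adj x y → dl x (0, a) * dl y (1, a) = 0 := by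
      intro x y hxy hn
      by_cases h3 : x = (0, a)
      · by_cases h4 : y = (1, a)
        · exact absurd (show (gG N).Adj x y from ⟨hxy, (0, a), by rw [h3]; exact hP.1,
            by rw [h4]; exact hP.2⟩) hn
        · rw [dl_ne h4, mul_zero]
      · rw [dl_ne h3, zero_mul]
    rw [key u v huv hadj, key v u huv.symm fun h => hadj h.symm, add_zero, mul_zero]
  · by_contra hcon
    push Not at hcon
    exact hadj ⟨huv, g, hcon.1, hcon.2⟩

end nodes

end Pool.Agent.H776
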