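import Pool.Agent.H776.Grid

/-!
# The graph of the gates is a minor of a square grid
-/

set_option autoImplicit false

namespace Pool.Agent.H776

open Set Filter Topology

variable {N : ℕ}

/-- cells of the grid: `(a, b)` is the block, `(r, c)` the position in the block -/
def cel (a : Fin N) (r : Fin 3) (b : Fin N) (c : Fin 3) : Fin (N * 3) × Fin (N * 3) :=
  (finProdFinEquiv (a, r), finProdFinEquiv (b, c))

/-- types of the cells of a block -/
def tp : Fin 3 → Fin 3 → Fin 3 := ![![1, 1, 1], ![0, 2, 1], ![0, 2, 2]]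

/-- the contraction -/
def gf (N : ℕ) (p : Fin (N * 3) × Fin (N * 3)) : Nd N :=
  (tp (finProdFinEquiv.symm p.1).2 (finProdFinEquiv.symm p.2).2,
    (finProdFinEquiv.symm p.1).1, (finProdFinEquiv.symm p.2).1)

theorem gf_cel (a : Fin N) (r : Fin 3) (b : Fin N) (c : Fin 3) :
    gf N (cel a r b c) = (tp r c, a, b) := by
  unfold gf cel
  simp only [Equiv.symm_apply_apply]

theorem exists_cel (p : Fin (N * 3) × Fin (N * 3)) : ∃ a r b c, p = cel a r b c := by
  refine ⟨(finProdFinEquiv.symm p.1).1, (finProdFinEquiv.symm p.1).2,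
    (finProdFinEquiv.symm p.2).1, (finProdFinEquiv.symm p.2).2, ?_⟩
  unfold cel
  simp only [Prod.mk.eta, Equiv.apply_symm_apply]

theorem adj_row (a : Fin N) (r : Fin 3) (b : Fin N) (c : Fin 3) (b' : Fin N) (c' : Fin 3)
    (h : (c : ℕ) + 3 * b + 1 = c' + 3 * b') : (grid (N * 3)).Adj (cel a r b c) (cel a r b' c') := by
  refine Or.inl ⟨rfl, Or.inl ?_⟩
  simp only [cel, finProdFinEquiv_apply_val]
  exact h

theorem adj_col (a : Fin N) (r : Fin 3) (b : Fin N) (c : Fin 3) (a' : Fin N) (r' : Fin 3)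
    (h : (r : ℕ) + 3 * a + 1 = r' + 3 * a') : (grid (N * 3)).Adj (cel a r b c) (cel a' r' b c) := by
  refine Or.inr ⟨rfl, Or.inl ?_⟩
  simp only [cel, finProdFinEquiv_apply_val]
  exact h

/-- an edge lifts -/
def Lft (u v : Nd N) : Prop := ∃ p q, gf N p = u ∧ gf N q = v ∧ (grid (N * 3)).Adj p q

theorem Lft.symm {u v : Nd N} (h : Lft u v) : Lft v u := by
  obtain ⟨p, q, h1, h2, h3⟩ := h
  exact ⟨q, p, h2, h1, h3.symm⟩

theorem lift_hc (a : Fin N × Fin N) : Lft (0, a) (2, a) :=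
  ⟨cel a.1 1 a.2 0, cel a.1 1 a.2 1, gf_cel _ _ _ _, gf_cel _ _ _ _,
    adj_row _ _ _ _ _ _ (by simp; omega)⟩

theorem lift_vc (a : Fin N × Fin N) : Lft (1, a) (2, a) :=
  ⟨cel a.1 0 a.2 1, cel a.1 1 a.2 1, gf_cel _ _ _ _, gf_cel _ _ _ _,
    adj_col _ _ _ _ _ _ (by simp; omega)⟩

theorem lift_vh (a : Fin N × Fin N) : Lft (1, a) (0, a) :=
  ⟨cel a.1 0 a.2 0, cel a.1 1 a.2 0, gf_cel _ _ _ _, gf_cel _ _ _ _,
    adj_col _ _ _ _ _ _ (by simp; omega)⟩

theorem lift_cv (a : Fin N × Fin N) (h : (a.1 : ℕ) + 1 < N) :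
    Lft (2, a) (1, ⟨a.1 + 1, h⟩, a.2) :=
  ⟨cel a.1 2 a.2 1, cel ⟨a.1 + 1, h⟩ 0 a.2 1, gf_cel _ _ _ _, gf_cel _ _ _ _,
    adj_col _ _ _ _ _ _ (by simp; omega)⟩

theorem lift_hv (a : Fin N × Fin N) (h : (a.1 : ℕ) + 1 < N) :
    Lft (0, a) (1, ⟨a.1 + 1, h⟩, a.2) :=
  ⟨cel a.1 2 a.2 0, cel ⟨a.1 + 1, h⟩ 0 a.2 0, gf_cel _ _ _ _, gf_cel _ _ _ _,
    adj_col _ _ _ _ _ _ (by simp; omega)⟩

theorem lift_ch (a : Fin N × Fin N) (h : (a.2 : ℕ) + 1 < N) :
    Lft (2, a) (0, a.1, ⟨a.2 + 1, h⟩) :=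
  ⟨cel a.1 2 a.2 2, cel a.1 2 ⟨a.2 + 1, h⟩ 0, gf_cel _ _ _ _, gf_cel _ _ _ _,
    adj_row _ _ _ _ _ _ (by simp; omega)⟩

theorem lift_vh' (a : Fin N × Fin N) (h : (a.2 : ℕ) + 1 < N) :
    Lft (1, a) (0, a.1, ⟨a.2 + 1, h⟩) :=
  ⟨cel a.1 1 a.2 2, cel a.1 1 ⟨a.2 + 1, h⟩ 0, gf_cel _ _ _ _, gf_cel _ _ _ _,
    adj_row _ _ _ _ _ _ (by simp; omega)⟩

theorem row_cases {w a b c : Nd N} (h : dl w a - dl w b - dl w c ≠ 0) : w = a ∨ w = b ∨ w = c := by
  by_contra hn
  push Not at hn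
  exact h (by rw [dl_ne hn.1, dl_ne hn.2.1, dl_ne hn.2.2]; ring)

theorem lift3 {a b c u v : Nd N} (hu : u = a ∨ u = b ∨ u = c) (hv : v = a ∨ v = b ∨ v = c)
    (huv : u ≠ v) (h1 : Lft a b) (h2 : Lft a c) (h3 : Lft b c) : Lft u v := by
  rcases hu with rfl | rfl | rfl <;> rcases hv with rfl | rfl | rfl
  · exact absurd rfl huv
  · exact h1
  · exact h2
  · exact h1.symm
  · exact absurd rfl huv
  · exact h3
  · exact h2.symm
  · exact h3.symm
  · exact absurd rfl huv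

theorem gf_edge (u v : Nd N) (h : (gG N).Adj u v) : Lft u v := by
  obtain ⟨huv, g, h1, h2⟩ := h
  obtain ⟨t, a⟩ := g
  unfold gP at h1 h2
  simp only [Matrix.of_apply] at h1 h2
  by_cases ht0 : t = 0
  · simp only [ht0, if_true] at h1 h2
    exact lift3 (row_cases h1) (row_cases h2) huv (lift_hc a).symm (lift_vc a).symm (lift_vh a).symm
  by_cases ht1 : t = 1
  · by_cases h : (a.1 : ℕ) + 1 < N
    · simp only [ht1, h, dif_pos, if_true, one_ne_zero, if_false] at h1 h2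
      exact lift3 (row_cases h1) (row_cases h2) huv (lift_hc a).symm (lift_cv a h) (lift_hv a h)
    · simp [ht1, h] at h1
  by_cases ht2 : t = 2
  · by_cases h : (a.2 : ℕ) + 1 < N
    · have h20 : ¬ (2 : Fin 4) = 0 := by decide
      have h21 : ¬ (2 : Fin 4) = 1 := by decide
      simp only [ht2, h, dif_pos, if_true, h20, h21, if_false] at h1 h2
      exact lift3 (row_cases h1) (row_cases h2) huv (lift_vc a).symm (lift_ch a h) (lift_vh' a h)
    · simp [ht2, h] at h1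
  · by_cases ha : a.1 = a.2
    · simp only [ht0, ht1, ht2, ha, if_true, if_false] at h1 h2
      have r2 : ∀ {w a b : Nd N}, dl w a - dl w b ≠ 0 → w = a ∨ w = b := by
        intro w a b h
        by_contra hn
        push Not at hn
        exact h (by rw [dl_ne hn.1, dl_ne hn.2]; ring)
      rcases r2 h1 with h3 | h3 <;> rcases r2 h2 with h4 | h4
      · exact absurd (h3.trans h4.symm) huv
      · rw [h3, h4]
        exact (lift_vh a).symm
      · rw [h3, h4]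
        exact lift_vh a
      · exact absurd (h3.trans h4.symm) huv
    · simp [ht0, ht1, ht2, ha] at h1

theorem gf_contr (N : ℕ) : Contr (grid (N * 3)) (gG N) (gf N) := by
  refine ⟨fun v => ?_, fun a b h => gf_edge a b h⟩
  obtain ⟨t, a, b⟩ := v
  have st : ∀ {x y : Fin (N * 3) × Fin (N * 3)} {v : Nd N}, (grid (N * 3)).Adj x y → gf N x = v →
      gf N y = v → Relation.ReflTransGen
        (fun x y => (grid (N * 3)).Adj x y ∧ gf N x = v ∧ gf N y = v) x y :=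
    fun h1 h2 h3 => Relation.ReflTransGen.single ⟨h1, h2, h3⟩
  have g : ∀ r c, gf N (cel a r b c) = (tp r c, a, b) := fun r c => gf_cel a r b c
  fin_cases t
  · refine ⟨cel a 1 b 0, g 1 0, fun u hu => ?_⟩
    obtain ⟨a', r, b', c, rfl⟩ := exists_cel u
    rw [gf_cel, Prod.mk.injEq, Prod.mk.injEq] at hu
    obtain ⟨h1, h2, h3⟩ := hu
    subst h2
    subst h3
    have s1 := st (adj_col a' 1 b' 0 a' 2 (by simp; omega)) (g 1 0) (g 2 0)
    fin_cases r <;> fin_cases c <;> first | exact absurd h1 (by decide) | exact Relation.ReflTransGen.refl | exact s1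
  · refine ⟨cel a 0 b 0, g 0 0, fun u hu => ?_⟩
    obtain ⟨a', r, b', c, rfl⟩ := exists_cel u
    rw [gf_cel, Prod.mk.injEq, Prod.mk.injEq] at hu
    obtain ⟨h1, h2, h3⟩ := hu
    subst h2
    subst h3
    have s1 := st (adj_row a' 0 b' 0 b' 1 (by simp; omega)) (g 0 0) (g 0 1)
    have s2 := s1.trans (st (adj_row a' 0 b' 1 b' 2 (by simp; omega)) (g 0 1) (g 0 2))
    have s3 := s2.trans (st (adj_col a' 0 b' 2 a' 1 (by simp; omega)) (g 0 2) (g 1 2))
    fin_cases r <;> fin_cases c <;> first | exact absurd h1 (by decide) | exact Relation.ReflTransGen.refl | exact s1 | exact s2 | exact s3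
  · refine ⟨cel a 1 b 1, g 1 1, fun u hu => ?_⟩
    obtain ⟨a', r, b', c, rfl⟩ := exists_cel u
    rw [gf_cel, Prod.mk.injEq, Prod.mk.injEq] at hu
    obtain ⟨h1, h2, h3⟩ := hu
    subst h2
    subst h3
    have s1 := st (adj_col a' 1 b' 1 a' 2 (by simp; omega)) (g 1 1) (g 2 1)
    have s2 := s1.trans (st (adj_row a' 2 b' 1 b' 2 (by simp; omega)) (g 2 1) (g 2 2))
    fin_cases r <;> fin_cases c <;> first | exact absurd h1 (by decide) | exact Relation.ReflTransGen.refl | exact s1 | exact s2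

/-- **all positive definite matrices from those which are supported on square grids** -/
theorem kp_grid {D : ℝ} (hD : 0 ≤ D)
    (H : ∀ Q : Matrix (Fin (N * 3) × Fin (N * 3)) (Fin (N * 3) × Fin (N * 3)) ℝ, Q.PosDef →
      Supp (grid (N * 3)) Q → KP (nm (gq Q)) D)
    {Q₀ : Matrix (Fin N) (Fin N) ℝ} (hQ : Q₀.PosDef) : KP (nm (gq Q₀)) D :=
  kp_stage hD (fun _ hQ' hs => kp_minor (gf_contr N).minor hD H hQ' hs) hQ

end Pool.Agent.H776
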