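import Pool.Agent.H776.Horn
import Pool.Agent.H776.Net2

/-!
# Networks of Horn clauses: definitions, bounds and pointwise limits
-/

set_option autoImplicit false

namespace Pool.Agent.H776

open MeasureTheory Set Filter Topology
open scoped ENNReal InnerProductSpace

/-- powers `(1 + x)^k` with `x → 0` and `k x² → 0` -/
theorem pw_tendsto {x : ℕ → ℝ} {k : ℕ → ℕ} (hx : Tendsto x atTop (𝓝 0))
    (hk : Tendsto (fun n => (k n : ℝ) * x n ^ 2) atTop (𝓝 0)) :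
    Tendsto (fun n => (1 + x n) ^ k n * Real.exp (-(k n * x n))) atTop (𝓝 1) := by
  have h1 : Tendsto (fun n => Real.exp (-(2 * (k n * x n ^ 2)))) atTop (𝓝 1) := by
    have h2 := (Real.continuous_exp.tendsto _).comp (hk.const_mul 2).neg
    simp only [mul_zero, neg_zero, Real.exp_zero] at h2
    exact h2
  refine tendsto_of_tendsto_of_tendsto_of_le_of_le' h1 tendsto_const_nhds ?_ ?_
  · filter_upwards [hx.eventually (Ioo_mem_nhds (show (-(1 / 2) : ℝ) < 0 by norm_num)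
      (show (0 : ℝ) < 1 / 2 by norm_num))] with n hn
    have hp : 0 < 1 + x n := by linarith [hn.1]
    have h3 : Real.exp (x n - 2 * x n ^ 2) ≤ 1 + x n := by
      have h4 := Real.one_sub_inv_le_log_of_pos hp
      rw [← Real.log_le_log_iff (Real.exp_pos _) hp, Real.log_exp]
      refine le_trans ?_ h4
      have h5 : 1 - (1 + x n)⁻¹ = x n - x n ^ 2 / (1 + x n) := by
        field_simp
        ring
      rw [h5]
      have h6 : x n ^ 2 / (1 + x n) ≤ 2 * x n ^ 2 := by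
        rw [div_le_iff₀ hp]
        nlinarith [sq_nonneg (x n), hn.1]
      linarith
    calc Real.exp (-(2 * (k n * x n ^ 2))) =
          Real.exp (x n - 2 * x n ^ 2) ^ k n * Real.exp (-(k n * x n)) := by
          rw [← Real.exp_nat_mul, ← Real.exp_add]
          congr 1
          ring
      _ ≤ _ := mul_le_mul_of_nonneg_right (pow_le_pow_left₀ (Real.exp_pos _).le h3 _)
          (Real.exp_pos _).le
  · filter_upwards [hx.eventually (Ioo_mem_nhds (show (-1 : ℝ) < 0 by norm_num)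
      (show (0 : ℝ) < 1 by norm_num))] with n hn
    have hp : 0 ≤ 1 + x n := by linarith [hn.1]
    calc (1 + x n) ^ k n * Real.exp (-(k n * x n)) ≤
          Real.exp (x n) ^ k n * Real.exp (-(k n * x n)) := by
          refine mul_le_mul_of_nonneg_right (pow_le_pow_left₀ hp ?_ _) (Real.exp_pos _).le
          linarith [Real.add_one_le_exp (x n)]
      _ = 1 := by
          rw [← Real.exp_nat_mul, ← Real.exp_add, add_neg_cancel, Real.exp_zero]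

/-- upper bound for powers -/
theorem pw_le {x : ℝ} (hx : 0 ≤ 1 + x) (k : ℕ) : (1 + x) ^ k ≤ Real.exp (k * x) := by
  rw [Real.exp_nat_mul]
  exact pow_le_pow_left₀ hx (by linarith [Real.add_one_le_exp x]) k

/-- a network of clauses -/
structure HN (κ H Γ : Type) [Fintype κ] where
  /-- first node of the first clause -/
  a : Γ → κ ⊕ H
  /-- second node of the first clause -/
  b : Γ → κ ⊕ H
  /-- first node of the second clause -/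
  c : Γ → κ ⊕ H
  /-- second node of the second clause -/
  d : Γ → κ ⊕ H
  /-- the root -/
  o : H
  /-- linear functions of the hidden nodes -/
  L : Matrix H κ ℝ
  /-- linear functions of the gates -/
  ell : Matrix Γ κ ℝ
  /-- multiplicities -/
  mlt : H → ℕ
  id1 : ∀ (y : κ → ℝ) (g : Γ), lft L y (a g) + lft L y (b g) = ∑ i, ell g i * y i
  id2 : ∀ (y : κ → ℝ) (g : Γ), lft L y (c g) + lft L y (d g) = ∑ i, ell g i * y i
  ell0 : ∀ g i, 0 ≤ ell g i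
  ell1 : ∀ g, ∃ i, 0 < ell g i
  vis : ∀ k, ∃ g, ∀ y : κ → ℝ, ∑ i, ell g i * y i = y k
  Lo : ∀ i, L o i = 0
  inj : ∀ (w : κ ⊕ H → ℝ) (z : Γ → ℝ), (∀ k, w (Sum.inl k) = 0) → w (Sum.inr o) = 0 →
    (∀ g, w (a g) + w (b g) = z g ∧ w (c g) + w (d g) = z g) → w = 0 ∧ z = 0
  ab : ∀ g, a g ≠ b g
  cd : ∀ g, c g ≠ d g

section hnet

variable {κ H Γ : Type} [Fintype κ] [Fintype H] [Fintype Γ] (N : HN κ H Γ)

/-- perturbations of the nodes -/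
def wx (w : Eu (H ⊕ Γ)) : κ ⊕ H → ℝ := Sum.elim (fun _ => 0) fun h => w (Sum.inl h)

/-- first slack -/
def HN.d1 (w : Eu (H ⊕ Γ)) (g : Γ) : ℝ := w (Sum.inr g) - (wx w (N.a g) + wx w (N.b g))

/-- second slack -/
def HN.d2 (w : Eu (H ⊕ Γ)) (g : Γ) : ℝ := w (Sum.inr g) - (wx w (N.c g) + wx w (N.d g))

/-- the linear function of a gate -/
def HN.el (y : Eu κ) (g : Γ) : ℝ := ∑ i, N.ell g i * y i

/-- multiplicities of all nodes -/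
def HN.mu : κ ⊕ H → ℕ := Sum.elim (fun _ => 1) N.mlt

/-- the relative positions of the nodes -/
noncomputable def HN.tv (n : ℕ) (p : Eu κ × Eu (H ⊕ Γ)) (v : κ ⊕ H) : ℝ :=
  2 * (lft N.L p.1 v / (16 * n ^ 2) + wx p.2 v / (8 * n ^ 3))

/-- the positions of the gates -/
noncomputable def HN.zv (n : ℕ) (p : Eu κ × Eu (H ⊕ Γ)) (g : Γ) : ℝ :=
  N.el p.1 g / (16 * n ^ 2) + p.2 (Sum.inr g) / (8 * n ^ 3)

theorem HN.tv_ab (n : ℕ) (p : Eu κ × Eu (H ⊕ Γ)) (g : Γ) :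
    N.tv n p (N.a g) + N.tv n p (N.b g) = 2 * N.zv n p g - 2 * (N.d1 p.2 g / (8 * n ^ 3)) := by
  unfold HN.tv HN.zv HN.d1 HN.el
  rw [← N.id1 p.1 g]
  ring

theorem HN.tv_cd (n : ℕ) (p : Eu κ × Eu (H ⊕ Γ)) (g : Γ) :
    N.tv n p (N.c g) + N.tv n p (N.d g) = 2 * N.zv n p g - 2 * (N.d2 p.2 g / (8 * n ^ 3)) := by
  unfold HN.tv HN.zv HN.d2 HN.el
  rw [← N.id2 p.1 g]
  ring

/-- the energy -/
noncomputable def HN.En (r : ℝ) (p : Eu κ × Eu (H ⊕ Γ)) : ℝ :=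
  1 / 2 * (∑ v, (N.mu v : ℝ) * (lft N.L p.1 v + 2 * r * wx p.2 v) ^ 2) +
    (1 / 2 * p.2 (Sum.inl N.o) ^ 2 + 2 * ∑ g, (N.d1 p.2 g + N.d2 p.2 g))

/-- feasible perturbations -/
def HN.Fe (w : Eu (H ⊕ Γ)) : Prop := ∀ g, 0 ≤ N.d1 w g ∧ 0 ≤ N.d2 w g

/-- the points of the base polytope -/
def HN.Bs (n : ℕ) (p : Eu κ × Eu (H ⊕ Γ)) : Prop :=
  (∀ v, -1 ≤ N.tv n p v ∧ N.tv n p v ≤ 1) ∧ (∀ g, 0 ≤ N.zv n p g ∧ N.zv n p g ≤ 1) ∧ N.Fe p.2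

/-- the weight -/
noncomputable def HN.G (n : ℕ) (p : Eu κ × Eu (H ⊕ Γ)) : ℝ :=
  (∏ v, (1 + -(N.tv n p v ^ 2)) ^ (32 * n ^ 4 * N.mu v)) *
    ((1 + -(N.tv n p (Sum.inr N.o) ^ 2)) ^ (8 * n ^ 6) *
      ∏ g, ((((1 + N.tv n p (N.a g)) ^ (8 * n ^ 3) * (1 + N.tv n p (N.b g)) ^ (8 * n ^ 3)) *
        ((1 + N.tv n p (N.c g)) ^ (8 * n ^ 3) * (1 + N.tv n p (N.d g)) ^ (8 * n ^ 3))) *
          (1 + -N.zv n p g) ^ (32 * n ^ 3)))

theorem HN.e_v (n : ℕ) (hn : 0 < n) (p : Eu κ × Eu (H ⊕ Γ)) (v : κ ⊕ H) :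
    ((32 * n ^ 4 * N.mu v : ℕ) : ℝ) * N.tv n p v ^ 2 =
      1 / 2 * ((N.mu v : ℝ) * (lft N.L p.1 v + 2 * (n : ℝ)⁻¹ * wx p.2 v) ^ 2) := by
  have hn' : (n : ℝ) ≠ 0 := by exact_mod_cast hn.ne'
  unfold HN.tv
  push_cast
  field_simp
  ring

theorem HN.e_o (n : ℕ) (hn : 0 < n) (p : Eu κ × Eu (H ⊕ Γ)) :
    ((8 * n ^ 6 : ℕ) : ℝ) * N.tv n p (Sum.inr N.o) ^ 2 = 1 / 2 * p.2 (Sum.inl N.o) ^ 2 := by
  have hn' : (n : ℝ) ≠ 0 := by exact_mod_cast hn.ne'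
  have h1 : lft N.L p.1 (Sum.inr N.o) = 0 := by
    change ∑ i, N.L N.o i * p.1 i = 0
    simp [N.Lo]
  have h2 : wx (κ := κ) p.2 (Sum.inr N.o) = p.2 (Sum.inl N.o) := rfl
  unfold HN.tv
  rw [h1, h2]
  push_cast
  field_simp
  ring

theorem HN.e_g (n : ℕ) (hn : 0 < n) (p : Eu κ × Eu (H ⊕ Γ)) (g : Γ) :
    -(((8 * n ^ 3 : ℕ) : ℝ) * N.tv n p (N.a g)) + -(((8 * n ^ 3 : ℕ) : ℝ) * N.tv n p (N.b g)) +
      (-(((8 * n ^ 3 : ℕ) : ℝ) * N.tv n p (N.c g)) + -(((8 * n ^ 3 : ℕ) : ℝ) * N.tv n p (N.d g))) +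
      -(((32 * n ^ 3 : ℕ) : ℝ) * -N.zv n p g) = 2 * (N.d1 p.2 g + N.d2 p.2 g) := by
  have hn' : (n : ℝ) ≠ 0 := by exact_mod_cast hn.ne'
  have h1 := N.tv_ab n p g
  have h2 := N.tv_cd n p g
  have e : -(((8 * n ^ 3 : ℕ) : ℝ) * N.tv n p (N.a g)) + -(((8 * n ^ 3 : ℕ) : ℝ) * N.tv n p (N.b g)) +
      (-(((8 * n ^ 3 : ℕ) : ℝ) * N.tv n p (N.c g)) + -(((8 * n ^ 3 : ℕ) : ℝ) * N.tv n p (N.d g))) +
      -(((32 * n ^ 3 : ℕ) : ℝ) * -N.zv n p g) =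
      -(8 * (n : ℝ) ^ 3) * (N.tv n p (N.a g) + N.tv n p (N.b g)) +
      -(8 * (n : ℝ) ^ 3) * (N.tv n p (N.c g) + N.tv n p (N.d g)) +
        32 * (n : ℝ) ^ 3 * N.zv n p g := by
    push_cast
    ring
  rw [e, h1, h2]
  field_simp
  ring

/-- the correction factor -/
theorem HN.G_mul (n : ℕ) (hn : 0 < n) (p : Eu κ × Eu (H ⊕ Γ)) :
    N.G n p * Real.exp (N.En (n : ℝ)⁻¹ p) =
      (∏ v, ((1 + -(N.tv n p v ^ 2)) ^ (32 * n ^ 4 * N.mu v) *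
        Real.exp (-(((32 * n ^ 4 * N.mu v : ℕ) : ℝ) * -(N.tv n p v ^ 2))))) *
      (((1 + -(N.tv n p (Sum.inr N.o) ^ 2)) ^ (8 * n ^ 6) *
        Real.exp (-(((8 * n ^ 6 : ℕ) : ℝ) * -(N.tv n p (Sum.inr N.o) ^ 2)))) *
      ∏ g, (((((1 + N.tv n p (N.a g)) ^ (8 * n ^ 3) *
          Real.exp (-(((8 * n ^ 3 : ℕ) : ℝ) * N.tv n p (N.a g)))) *
        ((1 + N.tv n p (N.b g)) ^ (8 * n ^ 3) *
          Real.exp (-(((8 * n ^ 3 : ℕ) : ℝ) * N.tv n p (N.b g))))) *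
        (((1 + N.tv n p (N.c g)) ^ (8 * n ^ 3) *
          Real.exp (-(((8 * n ^ 3 : ℕ) : ℝ) * N.tv n p (N.c g)))) *
        ((1 + N.tv n p (N.d g)) ^ (8 * n ^ 3) *
          Real.exp (-(((8 * n ^ 3 : ℕ) : ℝ) * N.tv n p (N.d g)))))) *
        ((1 + -N.zv n p g) ^ (32 * n ^ 3) *
          Real.exp (-(((32 * n ^ 3 : ℕ) : ℝ) * -N.zv n p g))))) := by
  have e1 : Real.exp (N.En (n : ℝ)⁻¹ p) =
      (∏ v, Real.exp (-(((32 * n ^ 4 * N.mu v : ℕ) : ℝ) * -(N.tv n p v ^ 2)))) *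
      (Real.exp (-(((8 * n ^ 6 : ℕ) : ℝ) * -(N.tv n p (Sum.inr N.o) ^ 2))) *
        ∏ g, Real.exp (-(((8 * n ^ 3 : ℕ) : ℝ) * N.tv n p (N.a g)) +
          -(((8 * n ^ 3 : ℕ) : ℝ) * N.tv n p (N.b g)) +
          (-(((8 * n ^ 3 : ℕ) : ℝ) * N.tv n p (N.c g)) +
            -(((8 * n ^ 3 : ℕ) : ℝ) * N.tv n p (N.d g))) +
          -(((32 * n ^ 3 : ℕ) : ℝ) * -N.zv n p g))) := by
    simp only [N.e_g n hn]
    have h1 : ∀ v, -(((32 * n ^ 4 * N.mu v : ℕ) : ℝ) * -(N.tv n p v ^ 2)) =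
        1 / 2 * ((N.mu v : ℝ) * (lft N.L p.1 v + 2 * (n : ℝ)⁻¹ * wx p.2 v) ^ 2) := by
      intro v
      rw [← N.e_v n hn p v]
      ring
    have h2 : -(((8 * n ^ 6 : ℕ) : ℝ) * -(N.tv n p (Sum.inr N.o) ^ 2)) =
        1 / 2 * p.2 (Sum.inl N.o) ^ 2 := by
      rw [← N.e_o n hn p]
      ring
    simp only [h1, h2]
    rw [← Real.exp_sum, ← Real.exp_sum, ← Real.exp_add, ← Real.exp_add]
    unfold HN.En
    rw [Finset.mul_sum, Finset.mul_sum]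
  rw [e1]
  unfold HN.G
  rw [mul_mul_mul_comm, ← Finset.prod_mul_distrib, mul_mul_mul_comm (_ ^ (8 * n ^ 6)),
    ← Finset.prod_mul_distrib]
  refine congrArg (fun r => _ * (_ * r)) (Finset.prod_congr rfl fun g _ => ?_)
  rw [Real.exp_add, Real.exp_add, Real.exp_add, Real.exp_add]
  ring

end hnet

end Pool.Agent.H776
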