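import Pool.Agent.H776.HNet

/-!
# Networks of Horn clauses: limits
-/

set_option autoImplicit false

namespace Pool.Agent.H776

open MeasureTheory Set Filter Topology
open scoped ENNReal InnerProductSpace

theorem pw01 {x : ℝ} (hx : 0 ≤ 1 + x) (k : ℕ) :
    0 ≤ (1 + x) ^ k * Real.exp (-(k * x)) ∧ (1 + x) ^ k * Real.exp (-(k * x)) ≤ 1 := by
  refine ⟨mul_nonneg (pow_nonneg hx _) (Real.exp_pos _).le, ?_⟩
  calc (1 + x) ^ k * Real.exp (-(k * x)) ≤ Real.exp (k * x) * Real.exp (-(k * x)) :=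
        mul_le_mul_of_nonneg_right (pw_le hx k) (Real.exp_pos _).le
    _ = 1 := by rw [← Real.exp_add, add_neg_cancel, Real.exp_zero]

theorem mul01 {x y : ℝ} (hx : 0 ≤ x ∧ x ≤ 1) (hy : 0 ≤ y ∧ y ≤ 1) : 0 ≤ x * y ∧ x * y ≤ 1 :=
  ⟨mul_nonneg hx.1 hy.1, mul_le_one₀ hx.2 hy.1 hy.2⟩

theorem prod01 {ι : Type} [Fintype ι] {f : ι → ℝ} (h : ∀ i, 0 ≤ f i ∧ f i ≤ 1) :
    0 ≤ ∏ i, f i ∧ ∏ i, f i ≤ 1 :=
  ⟨Finset.prod_nonneg fun i _ => (h i).1, Finset.prod_le_one (fun i _ => (h i).1) fun i _ => (h i).2⟩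

/-- functions of `1 / n` -/
theorem scal {f : ℝ → ℝ} (hf : Continuous f) : Tendsto (fun n : ℕ => f ((n : ℝ)⁻¹)) atTop
    (𝓝 (f 0)) :=
  (hf.tendsto 0).comp tendsto_inv_atTop_nhds_zero_nat

section hnet2

variable {κ H Γ : Type} [Fintype κ] [Fintype H] [Fintype Γ] (N : HN κ H Γ)

theorem HN.tv_eq (n : ℕ) (p : Eu κ × Eu (H ⊕ Γ)) (v : κ ⊕ H) : N.tv n p v =
    (n : ℝ)⁻¹ ^ 2 * (lft N.L p.1 v / 8 + (n : ℝ)⁻¹ * (wx p.2 v / 4)) := by
  unfold HN.tv
  rcases Nat.eq_zero_or_pos n with h | h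
  · subst h
    simp
  · have hn' : (n : ℝ) ≠ 0 := by exact_mod_cast h.ne'
    field_simp
    ring

theorem HN.zv_eq (n : ℕ) (p : Eu κ × Eu (H ⊕ Γ)) (g : Γ) : N.zv n p g =
    (n : ℝ)⁻¹ ^ 2 * (N.el p.1 g / 16 + (n : ℝ)⁻¹ * (p.2 (Sum.inr g) / 8)) := by
  unfold HN.zv
  rcases Nat.eq_zero_or_pos n with h | h
  · subst h
    simp
  · have hn' : (n : ℝ) ≠ 0 := by exact_mod_cast h.ne'
    field_simp

theorem HN.tv_o (n : ℕ) (p : Eu κ × Eu (H ⊕ Γ)) : N.tv n p (Sum.inr N.o) =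
    (n : ℝ)⁻¹ ^ 3 * (p.2 (Sum.inl N.o) / 4) := by
  rw [N.tv_eq]
  have h1 : lft N.L p.1 (Sum.inr N.o) = 0 := by
    change ∑ i, N.L N.o i * p.1 i = 0
    simp [N.Lo]
  have h2 : wx (κ := κ) p.2 (Sum.inr N.o) = p.2 (Sum.inl N.o) := rfl
  rw [h1, h2]
  ring

theorem HN.tv_lim (p : Eu κ × Eu (H ⊕ Γ)) (v : κ ⊕ H) :
    Tendsto (fun n : ℕ => N.tv n p v) atTop (𝓝 0) := by
  have h := scal (f := fun r : ℝ => r ^ 2 * (lft N.L p.1 v / 8 + r * (wx p.2 v / 4))) (by fun_prop)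
  simp only [← N.tv_eq] at h
  simpa using h

theorem HN.zv_lim (p : Eu κ × Eu (H ⊕ Γ)) (g : Γ) :
    Tendsto (fun n : ℕ => N.zv n p g) atTop (𝓝 0) := by
  have h := scal (f := fun r : ℝ => r ^ 2 * (N.el p.1 g / 16 + r * (p.2 (Sum.inr g) / 8)))
    (by fun_prop)
  simp only [← N.zv_eq] at h
  simpa using h

/-- bounds and limits for the factors -/
theorem HN.lim_t (p : Eu κ × Eu (H ⊕ Γ)) (v : κ ⊕ H) :
    Tendsto (fun n : ℕ => (1 + N.tv n p v) ^ (8 * n ^ 3) *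
      Real.exp (-(((8 * n ^ 3 : ℕ) : ℝ) * N.tv n p v))) atTop (𝓝 1) := by
  refine pw_tendsto (x := fun n => N.tv n p v) (k := fun n => 8 * n ^ 3) (N.tv_lim p v) ?_
  have h := scal (f := fun r : ℝ => 8 * r * (lft N.L p.1 v / 8 + r * (wx p.2 v / 4)) ^ 2)
    (by fun_prop)
  simp only [mul_zero, zero_mul] at h
  refine h.congr' ?_
  filter_upwards [eventually_gt_atTop 0] with n hn
  have hn' : (n : ℝ) ≠ 0 := by exact_mod_cast hn.ne'
  rw [N.tv_eq]
  push_cast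
  field_simp

theorem HN.lim_z (p : Eu κ × Eu (H ⊕ Γ)) (g : Γ) :
    Tendsto (fun n : ℕ => (1 + -N.zv n p g) ^ (32 * n ^ 3) *
      Real.exp (-(((32 * n ^ 3 : ℕ) : ℝ) * -N.zv n p g))) atTop (𝓝 1) := by
  have h0 := (N.zv_lim p g).neg
  rw [neg_zero] at h0
  refine pw_tendsto (x := fun n => -N.zv n p g) (k := fun n => 32 * n ^ 3) h0 ?_
  have h := scal (f := fun r : ℝ => 32 * r * (N.el p.1 g / 16 + r * (p.2 (Sum.inr g) / 8)) ^ 2)
    (by fun_prop)
  simp only [mul_zero, zero_mul] at h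
  refine h.congr' ?_
  filter_upwards [eventually_gt_atTop 0] with n hn
  have hn' : (n : ℝ) ≠ 0 := by exact_mod_cast hn.ne'
  rw [N.zv_eq]
  push_cast
  field_simp

theorem HN.lim_v (p : Eu κ × Eu (H ⊕ Γ)) (v : κ ⊕ H) :
    Tendsto (fun n : ℕ => (1 + -(N.tv n p v ^ 2)) ^ (32 * n ^ 4 * N.mu v) *
      Real.exp (-(((32 * n ^ 4 * N.mu v : ℕ) : ℝ) * -(N.tv n p v ^ 2)))) atTop (𝓝 1) := by
  have h0 := ((N.tv_lim p v).pow 2).neg
  rw [zero_pow two_ne_zero, neg_zero] at h0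
  refine pw_tendsto (x := fun n => -(N.tv n p v ^ 2)) (k := fun n => 32 * n ^ 4 * N.mu v) h0 ?_
  have h := scal (f := fun r : ℝ => 32 * (N.mu v : ℝ) * r ^ 4 *
    (lft N.L p.1 v / 8 + r * (wx p.2 v / 4)) ^ 4) (by fun_prop)
  simp only [mul_zero, zero_mul, ne_eq, OfNat.ofNat_ne_zero, not_false_eq_true, zero_pow] at h
  refine h.congr' ?_
  filter_upwards [eventually_gt_atTop 0] with n hn
  have hn' : (n : ℝ) ≠ 0 := by exact_mod_cast hn.ne'
  rw [N.tv_eq]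
  push_cast
  field_simp

theorem HN.lim_o (p : Eu κ × Eu (H ⊕ Γ)) :
    Tendsto (fun n : ℕ => (1 + -(N.tv n p (Sum.inr N.o) ^ 2)) ^ (8 * n ^ 6) *
      Real.exp (-(((8 * n ^ 6 : ℕ) : ℝ) * -(N.tv n p (Sum.inr N.o) ^ 2)))) atTop (𝓝 1) := by
  have h0 := ((N.tv_lim p (Sum.inr N.o)).pow 2).neg
  rw [zero_pow two_ne_zero, neg_zero] at h0
  refine pw_tendsto (x := fun n => -(N.tv n p (Sum.inr N.o) ^ 2)) (k := fun n => 8 * n ^ 6) h0 ?_
  have h := scal (f := fun r : ℝ => 8 * r ^ 6 * (p.2 (Sum.inl N.o) / 4) ^ 4) (by fun_prop)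
  simp only [mul_zero, zero_mul, ne_eq, OfNat.ofNat_ne_zero, not_false_eq_true, zero_pow] at h
  refine h.congr' ?_
  filter_upwards [eventually_gt_atTop 0] with n hn
  have hn' : (n : ℝ) ≠ 0 := by exact_mod_cast hn.ne'
  rw [N.tv_o]
  push_cast
  field_simp

theorem HN.En_cont (p : Eu κ × Eu (H ⊕ Γ)) : Continuous fun r : ℝ => N.En r p := by
  unfold HN.En
  fun_prop

/-- limits of the weights -/
theorem HN.G_lim (p : Eu κ × Eu (H ⊕ Γ)) :
    Tendsto (fun n : ℕ => N.G n p) atTop (𝓝 (Real.exp (-N.En 0 p))) := by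
  have h1 : Tendsto (fun n : ℕ => N.G n p * Real.exp (N.En (n : ℝ)⁻¹ p)) atTop (𝓝 1) := by
    have h2 := ((tendsto_finsetProd Finset.univ fun v _ => N.lim_v p v).mul
      ((N.lim_o p).mul (tendsto_finsetProd Finset.univ fun g _ =>
        (((N.lim_t p (N.a g)).mul (N.lim_t p (N.b g))).mul
          ((N.lim_t p (N.c g)).mul (N.lim_t p (N.d g)))).mul (N.lim_z p g))))
    simp only [mul_one, Finset.prod_const_one] at h2
    refine h2.congr' ?_
    filter_upwards [eventually_gt_atTop 0] with n hn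
    exact (N.G_mul n hn p).symm
  have h3 := scal (f := fun r => Real.exp (-N.En r p))
    (Real.continuous_exp.comp (N.En_cont p).neg)
  have h4 := h1.mul h3
  rw [one_mul] at h4
  refine h4.congr fun n => ?_
  rw [mul_assoc, ← Real.exp_add, add_neg_cancel, Real.exp_zero, mul_one]

theorem HN.G_bd {n : ℕ} (hn : 0 < n) {p : Eu κ × Eu (H ⊕ Γ)} (hp : N.Bs n p) :
    0 ≤ N.G n p ∧ N.G n p ≤ Real.exp (-N.En (n : ℝ)⁻¹ p) := by
  have ht : ∀ v, 0 ≤ 1 + N.tv n p v := fun v => by linarith [(hp.1 v).1]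
  have ht2 : ∀ v, 0 ≤ 1 + -(N.tv n p v ^ 2) := fun v => by
    nlinarith [(hp.1 v).1, (hp.1 v).2]
  have hz : ∀ g, 0 ≤ 1 + -N.zv n p g := fun g => by linarith [(hp.2.1 g).2]
  have h1 : 0 ≤ N.G n p * Real.exp (N.En (n : ℝ)⁻¹ p) ∧
      N.G n p * Real.exp (N.En (n : ℝ)⁻¹ p) ≤ 1 := by
    rw [N.G_mul n hn]
    exact mul01 (prod01 fun v => pw01 (ht2 v) _) (mul01 (pw01 (ht2 _) _) (prod01 fun g =>
      mul01 (mul01 (mul01 (pw01 (ht _) _) (pw01 (ht _) _)) (mul01 (pw01 (ht _) _) (pw01 (ht _) _)))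
        (pw01 (hz g) _)))
  have hE := Real.exp_pos (N.En (n : ℝ)⁻¹ p)
  refine ⟨nonneg_of_mul_nonneg_left h1.1 hE, ?_⟩
  rw [Real.exp_neg, ← one_div, le_div_iff₀ hE]
  exact h1.2

open Classical in
/-- the densities in the variables `(y, ω)` -/
noncomputable def HN.W (n : ℕ) (p : Eu κ × Eu (H ⊕ Γ)) : ℝ := if N.Bs n p then N.G n p else 0

open Classical in
/-- the limit density of the visible variables -/
noncomputable def HN.gm (y : Eu κ) : ℝ :=
  if ∀ i, 0 ≤ y i then Real.exp (-(1 / 2 * ∑ v, (N.mu v : ℝ) * lft N.L y v ^ 2)) else 0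

open Classical in
/-- the limit density of the hidden variables -/
noncomputable def HN.hm (w : Eu (H ⊕ Γ)) : ℝ :=
  if N.Fe w then Real.exp (-(1 / 2 * w (Sum.inl N.o) ^ 2 + 2 * ∑ g, (N.d1 w g + N.d2 w g))) else 0

theorem HN.Bs_ev {p : Eu κ × Eu (H ⊕ Γ)} (hy : ∀ i, 0 < p.1 i) (hF : N.Fe p.2) :
    ∀ᶠ n : ℕ in atTop, N.Bs n p := by
  have h1 : ∀ v, ∀ᶠ n : ℕ in atTop, -1 ≤ N.tv n p v ∧ N.tv n p v ≤ 1 := fun v => by
    filter_upwards [(N.tv_lim p v).eventually (Ioo_mem_nhds (show (-1 : ℝ) < 0 by norm_num)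
      (show (0 : ℝ) < 1 by norm_num))] with n hn
    exact ⟨hn.1.le, hn.2.le⟩
  have h2 : ∀ g, ∀ᶠ n : ℕ in atTop, 0 ≤ N.zv n p g ∧ N.zv n p g ≤ 1 := fun g => by
    have hel : 0 < N.el p.1 g := by
      obtain ⟨i, hi⟩ := N.ell1 g
      exact Finset.sum_pos' (fun j _ => mul_nonneg (N.ell0 g j) (hy j).le)
        ⟨i, Finset.mem_univ i, mul_pos hi (hy i)⟩
    have h3 := scal (f := fun r : ℝ => N.el p.1 g / 16 + r * (p.2 (Sum.inr g) / 8)) (by fun_prop)
    rw [zero_mul, add_zero] at h3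
    filter_upwards [(N.zv_lim p g).eventually (gt_mem_nhds (show (0 : ℝ) < 1 by norm_num)),
      h3.eventually (lt_mem_nhds (show 0 < N.el p.1 g / 16 by positivity))] with n hn hn2
    refine ⟨?_, hn.le⟩
    rw [N.zv_eq]
    exact mul_nonneg (by positivity) hn2.le
  filter_upwards [eventually_all.2 h1, eventually_all.2 h2] with n h3 h4
  exact ⟨h3, h4, hF⟩

theorem HN.Bs_not {p : Eu κ × Eu (H ⊕ Γ)} {k : κ} (hy : p.1 k < 0) :
    ∀ᶠ n : ℕ in atTop, ¬ N.Bs n p := by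
  obtain ⟨g, hg⟩ := N.vis k
  have hel : N.el p.1 g < 0 := by
    unfold HN.el
    rw [hg]
    exact hy
  have h3 := scal (f := fun r : ℝ => N.el p.1 g / 16 + r * (p.2 (Sum.inr g) / 8)) (by fun_prop)
  rw [zero_mul, add_zero] at h3
  filter_upwards [eventually_gt_atTop 0,
    h3.eventually (gt_mem_nhds (show N.el p.1 g / 16 < 0 by linarith))] with n hn hn2
  intro h
  have h4 := (h.2.1 g).1
  rw [N.zv_eq] at h4
  have hn' : (0 : ℝ) < n := by exact_mod_cast hn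
  have h5 : 0 < (n : ℝ)⁻¹ ^ 2 := by positivity
  exact absurd h4 (not_le.2 (mul_neg_of_pos_of_neg h5 hn2))

theorem HN.W_tendsto : ∀ᵐ p : Eu κ × Eu (H ⊕ Γ), Tendsto (fun n : ℕ => N.W n p) atTop
    (𝓝 (N.gm p.1 * N.hm p.2)) := by
  have h2 : ∀ᵐ p : Eu κ × Eu (H ⊕ Γ), ∀ i, p.1 i ≠ 0 :=
    Measure.quasiMeasurePreserving_fst.ae coord_ne
  filter_upwards [h2] with p hp
  by_cases hin : ∀ i, 0 ≤ p.1 i
  · have hlt : ∀ i, 0 < p.1 i := fun i => lt_of_le_of_ne (hin i) (Ne.symm (hp i))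
    by_cases hF : N.Fe p.2
    · have e1 : N.gm p.1 * N.hm p.2 = Real.exp (-N.En 0 p) := by
        unfold HN.gm HN.hm
        rw [if_pos hin, if_pos hF, ← Real.exp_add]
        congr 1
        unfold HN.En
        simp only [mul_zero, zero_mul, add_zero]
        ring
      rw [e1]
      refine (N.G_lim p).congr' ?_
      filter_upwards [N.Bs_ev hlt hF] with n hn
      unfold HN.W
      rw [if_pos hn]
    · have e1 : N.gm p.1 * N.hm p.2 = 0 := by
        unfold HN.hm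
        rw [if_neg hF, mul_zero]
      rw [e1]
      refine tendsto_const_nhds.congr fun n => ?_
      unfold HN.W
      rw [if_neg fun h => hF h.2.2]
  · have e1 : N.gm p.1 * N.hm p.2 = 0 := by
      unfold HN.gm
      rw [if_neg hin, zero_mul]
    rw [e1]
    push Not at hin
    obtain ⟨k, hk⟩ := hin
    refine tendsto_const_nhds.congr' ?_
    filter_upwards [N.Bs_not hk] with n hn
    unfold HN.W
    rw [if_neg hn]

omit [Fintype H] [Fintype Γ] in
theorem lft_cont' (v : κ ⊕ H) : Continuous fun y : Eu κ => lft N.L y v := by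
  rcases v with i | j
  · change Continuous fun y : Eu κ => y i
    fun_prop
  · change Continuous fun y : Eu κ => ∑ i, N.L j i * y i
    fun_prop

omit [Fintype κ] in
theorem wx_cont (v : κ ⊕ H) : Continuous fun w : Eu (H ⊕ Γ) => wx (κ := κ) w v := by
  rcases v with i | j
  · exact continuous_const
  · change Continuous fun w : Eu (H ⊕ Γ) => w (Sum.inl j)
    fun_prop

theorem HN.d1_cont (g : Γ) : Continuous fun w : Eu (H ⊕ Γ) => N.d1 w g := by
  unfold HN.d1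
  have h1 := wx_cont (Γ := Γ) (N.a g)
  have h2 := wx_cont (Γ := Γ) (N.b g)
  fun_prop

theorem HN.d2_cont (g : Γ) : Continuous fun w : Eu (H ⊕ Γ) => N.d2 w g := by
  unfold HN.d2
  have h1 := wx_cont (Γ := Γ) (N.c g)
  have h2 := wx_cont (Γ := Γ) (N.d g)
  fun_prop

theorem HN.tv_cont (n : ℕ) (v : κ ⊕ H) : Continuous fun p : Eu κ × Eu (H ⊕ Γ) => N.tv n p v := by
  unfold HN.tv
  have h1 := lft_cont' N v
  have h2 := wx_cont (Γ := Γ) v
  have h3 : Continuous fun p : Eu κ × Eu (H ⊕ Γ) => lft N.L p.1 v := h1.comp continuous_fst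
  have h4 : Continuous fun p : Eu κ × Eu (H ⊕ Γ) => wx (κ := κ) p.2 v := h2.comp continuous_snd
  fun_prop

theorem HN.zv_cont (n : ℕ) (g : Γ) : Continuous fun p : Eu κ × Eu (H ⊕ Γ) => N.zv n p g := by
  unfold HN.zv HN.el
  fun_prop

theorem HN.G_cont (n : ℕ) : Continuous fun p : Eu κ × Eu (H ⊕ Γ) => N.G n p := by
  unfold HN.G
  have h1 := fun v => N.tv_cont n v
  have h2 := fun g => N.zv_cont n g
  refine Continuous.mul ?_ (Continuous.mul ?_ ?_)
  · exact continuous_finsetProd _ fun v _ => (((h1 v).pow 2).neg.const_add 1).pow _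
  · exact ((((h1 _).pow 2).neg).const_add 1).pow _
  · refine continuous_finsetProd _ fun g _ => ?_
    exact (((((h1 _).const_add 1).pow _).mul (((h1 _).const_add 1).pow _)).mul
      ((((h1 _).const_add 1).pow _).mul (((h1 _).const_add 1).pow _))).mul
        (((h2 g).neg.const_add 1).pow _)

theorem HN.Fe_meas : MeasurableSet {w : Eu (H ⊕ Γ) | N.Fe w} := by
  unfold HN.Fe
  rw [ofPred_forall]
  refine MeasurableSet.iInter fun g => ?_
  exact (measurableSet_le measurable_const (N.d1_cont g).measurable).inter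
    (measurableSet_le measurable_const (N.d2_cont g).measurable)

theorem HN.Bs_meas (n : ℕ) : MeasurableSet {p : Eu κ × Eu (H ⊕ Γ) | N.Bs n p} := by
  have m1 : MeasurableSet {p : Eu κ × Eu (H ⊕ Γ) | ∀ v, -1 ≤ N.tv n p v ∧ N.tv n p v ≤ 1} := by
    rw [ofPred_forall]
    refine MeasurableSet.iInter fun v => ?_
    exact (measurableSet_le measurable_const (N.tv_cont n v).measurable).inter
      (measurableSet_le (N.tv_cont n v).measurable measurable_const)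
  have m2 : MeasurableSet {p : Eu κ × Eu (H ⊕ Γ) | ∀ g, 0 ≤ N.zv n p g ∧ N.zv n p g ≤ 1} := by
    rw [ofPred_forall]
    refine MeasurableSet.iInter fun v => ?_
    exact (measurableSet_le measurable_const (N.zv_cont n v).measurable).inter
      (measurableSet_le (N.zv_cont n v).measurable measurable_const)
  exact m1.inter (m2.inter (N.Fe_meas.preimage measurable_snd))

theorem HN.W_meas (n : ℕ) : Measurable (N.W n) := by
  unfold HN.W
  exact Measurable.ite (N.Bs_meas n) (N.G_cont n).measurable measurable_const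

/-- coercivity of the hidden energy -/
theorem HN.low_q : ∃ q : ℝ, 0 < q ∧ ∀ w : Eu (H ⊕ Γ),
    q * ‖w‖ ≤ |w (Sum.inl N.o)| + ∑ g, (|N.d1 w g| + |N.d2 w g|) := by
  let T : Eu (H ⊕ Γ) →ₗ[ℝ] Eu (Unit ⊕ (Γ ⊕ Γ)) :=
    { toFun := fun w => WithLp.toLp 2 (Sum.elim (fun _ => w (Sum.inl N.o))
        (Sum.elim (N.d1 w) (N.d2 w)))
      map_add' := fun w w' => by
        have hw : ∀ v : κ ⊕ H, wx (w + w') v = wx w v + wx w' v := by
          intro v
          rcases v with v | v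
          · simp [wx]
          · rfl
        ext i
        rcases i with i | i | i
        · rfl
        · change N.d1 (w + w') i = N.d1 w i + N.d1 w' i
          unfold HN.d1
          simp only [hw, PiLp.add_apply]
          ring
        · change N.d2 (w + w') i = N.d2 w i + N.d2 w' i
          unfold HN.d2
          simp only [hw, PiLp.add_apply]
          ring
      map_smul' := fun r w => by
        have hw : ∀ v : κ ⊕ H, wx (r • w) v = r * wx w v := by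
          intro v
          rcases v with v | v
          · simp [wx]
          · rfl
        ext i
        rcases i with i | i | i
        · rfl
        · change N.d1 (r • w) i = r * N.d1 w i
          unfold HN.d1
          simp only [hw, PiLp.smul_apply, smul_eq_mul]
          ring
        · change N.d2 (r • w) i = r * N.d2 w i
          unfold HN.d2
          simp only [hw, PiLp.smul_apply, smul_eq_mul]
          ring }
  have hT : Function.Injective T := by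
    rw [← LinearMap.ker_eq_bot, LinearMap.ker_eq_bot']
    intro w hw
    have h0 : ∀ i, T w i = 0 := fun i => by rw [hw]; rfl
    have h1 := N.inj (wx w) (fun g => w (Sum.inr g)) (fun k => rfl) (h0 (Sum.inl ())) fun g => by
      have h2 : N.d1 w g = 0 := h0 (Sum.inr (Sum.inl g))
      have h3 : N.d2 w g = 0 := h0 (Sum.inr (Sum.inr g))
      unfold HN.d1 at h2
      unfold HN.d2 at h3
      constructor <;> linarith
    ext i
    rcases i with i | i
    · exact congrFun h1.1 (Sum.inr i)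
    · exact congrFun h1.2 i
  obtain ⟨q, hq, hqT⟩ := exists_q hT
  refine ⟨q, hq, fun w => (hqT w).trans ((norm_le_sum _).trans (le_of_eq ?_))⟩
  rw [Fintype.sum_sum_type, Fintype.sum_sum_type, ← Finset.sum_add_distrib]
  simp only [Finset.univ_unique, Finset.sum_singleton]
  rfl

/-- the majorant -/
noncomputable def mj2 (q : ℝ) (κ J : Type) [Fintype κ] [Fintype J] (p : Eu κ × Eu J) : ℝ :=
  Real.exp (-(1 * ‖p.1‖)) * Real.exp (-(q * ‖p.2‖))

theorem mj2_int {J : Type} [Fintype J] {q : ℝ} (hq : 0 < q) :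
    Integrable (fun p : Eu κ × Eu J => (1 + ‖p.1‖ ^ 2) * (1 + ‖p.2‖ ^ 2) * mj2 q κ J p) := by
  have h1 := Q38.LD.Lim.integ (κ := κ) one_pos
  have h2 := Q38.LD.Lim.integ (κ := J) hq
  have h3 := h1.mul_prod h2
  refine h3.congr (Eventually.of_forall fun p => ?_)
  simp only [mj2]
  ring

theorem HN.hid_le {q : ℝ} (hq : ∀ w : Eu (H ⊕ Γ),
    q * ‖w‖ ≤ |w (Sum.inl N.o)| + ∑ g, (|N.d1 w g| + |N.d2 w g|)) {w : Eu (H ⊕ Γ)} (hF : N.Fe w) :
    q * ‖w‖ - 1 / 2 ≤ 1 / 2 * w (Sum.inl N.o) ^ 2 + 2 * ∑ g, (N.d1 w g + N.d2 w g) := by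
  have h1 := hq w
  have h2 : ∀ g, |N.d1 w g| + |N.d2 w g| = N.d1 w g + N.d2 w g := fun g => by
    rw [abs_of_nonneg (hF g).1, abs_of_nonneg (hF g).2]
  simp only [h2] at h1
  have h3 : 0 ≤ ∑ g, (N.d1 w g + N.d2 w g) :=
    Finset.sum_nonneg fun g _ => add_nonneg (hF g).1 (hF g).2
  have h4 : |w (Sum.inl N.o)| ≤ 1 / 2 * w (Sum.inl N.o) ^ 2 + 1 / 2 := by
    rw [← sq_abs]
    nlinarith [sq_nonneg (|w (Sum.inl N.o)| - 1)]
  linarith

theorem HN.En_ge {q : ℝ} (hq : ∀ w : Eu (H ⊕ Γ),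
    q * ‖w‖ ≤ |w (Sum.inl N.o)| + ∑ g, (|N.d1 w g| + |N.d2 w g|)) (r : ℝ)
    {p : Eu κ × Eu (H ⊕ Γ)} (hF : N.Fe p.2) :
    1 * ‖p.1‖ + q * ‖p.2‖ - 1 ≤ N.En r p := by
  have h1 := N.hid_le hq hF
  have h2 : ‖p.1‖ ^ 2 ≤ ∑ v, (N.mu v : ℝ) * (lft N.L p.1 v + 2 * r * wx p.2 v) ^ 2 := by
    rw [Fintype.sum_sum_type, EuclideanSpace.norm_sq_eq]
    refine le_add_of_le_of_nonneg (Finset.sum_le_sum fun i _ => ?_)
      (Finset.sum_nonneg fun h _ => by positivity)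
    have e : ((N.mu (Sum.inl i) : ℕ) : ℝ) * (lft N.L p.1 (Sum.inl i) +
        2 * r * wx p.2 (Sum.inl i)) ^ 2 = p.1 i ^ 2 := by
      simp [HN.mu, lft, wx]
    rw [e, Real.norm_eq_abs, sq_abs]
  have h3 : 1 * ‖p.1‖ ≤ 1 / 2 * ‖p.1‖ ^ 2 + 1 / 2 := by nlinarith [sq_nonneg (‖p.1‖ - 1)]
  unfold HN.En
  linarith

theorem HN.W_nonneg {n : ℕ} (hn : 0 < n) (p : Eu κ × Eu (H ⊕ Γ)) : 0 ≤ N.W n p := by
  unfold HN.W
  split_ifs with h
  · exact (N.G_bd hn h).1
  · exact le_rfl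

theorem HN.W_le {q : ℝ} (hq : ∀ w : Eu (H ⊕ Γ),
    q * ‖w‖ ≤ |w (Sum.inl N.o)| + ∑ g, (|N.d1 w g| + |N.d2 w g|)) {n : ℕ} (hn : 0 < n)
    (p : Eu κ × Eu (H ⊕ Γ)) : N.W n p ≤ Real.exp 1 * mj2 q κ (H ⊕ Γ) p := by
  unfold HN.W
  split_ifs with h
  · refine (N.G_bd hn h).2.trans ?_
    unfold mj2
    rw [← Real.exp_add, ← Real.exp_add]
    refine Real.exp_le_exp.2 ?_
    have := N.En_ge hq (n : ℝ)⁻¹ h.2.2
    linarith
  · unfold mj2
    positivity

/-- limits of the integrals -/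
theorem HN.W_lim {φ : Eu κ → ℝ} (hφ : Grow φ) :
    Tendsto (fun n : ℕ => ∫ p, φ p.1 * N.W n p) atTop
      (𝓝 ((∫ v, φ v * N.gm v) * ∫ w, N.hm w)) := by
  obtain ⟨q, hq0, hq⟩ := N.low_q
  obtain ⟨hc, B, hB⟩ := hφ
  have e1 : (∫ v, φ v * N.gm v) * ∫ w, N.hm w =
      ∫ p : Eu κ × Eu (H ⊕ Γ), φ p.1 * (N.gm p.1 * N.hm p.2) := by
    rw [← integral_prod_mul]
    refine integral_congr_ae (Eventually.of_forall fun p => ?_)
    simp only
    ring
  rw [e1]
  refine tendsto_integral_filter_of_dominated_convergence (fun p =>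
    |B| * Real.exp 1 *
      ((1 + ‖p.1‖ ^ 2) * (1 + ‖p.2‖ ^ 2) * mj2 q κ (H ⊕ Γ) p)) ?_ ?_
      ((mj2_int hq0).const_mul _) ?_
  · exact Eventually.of_forall fun n => ((hc.comp continuous_fst).aestronglyMeasurable).mul
      (N.W_meas n).aestronglyMeasurable
  · filter_upwards [eventually_gt_atTop 0] with n hn
    refine Eventually.of_forall fun p => ?_
    rw [Real.norm_eq_abs, abs_mul, abs_of_nonneg (N.W_nonneg hn p)]
    have h1 : |φ p.1| ≤ |B| * (1 + ‖p.1‖ ^ 2) :=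
      (hB _).trans (mul_le_mul_of_nonneg_right (le_abs_self B) (by positivity))
    have h2 := N.W_le hq hn p
    have hm : 0 ≤ mj2 q κ (H ⊕ Γ) p := mul_nonneg (Real.exp_pos _).le (Real.exp_pos _).le
    calc |φ p.1| * N.W n p
        ≤ (|B| * (1 + ‖p.1‖ ^ 2)) * (Real.exp 1 * mj2 q κ (H ⊕ Γ) p) :=
          mul_le_mul h1 h2 (N.W_nonneg hn p) (by positivity)
      _ = |B| * Real.exp 1 * ((1 + ‖p.1‖ ^ 2) * 1 * mj2 q κ (H ⊕ Γ) p) := by ring
      _ ≤ _ := by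
          refine mul_le_mul_of_nonneg_left ?_ (by positivity)
          refine mul_le_mul_of_nonneg_right ?_ hm
          refine mul_le_mul_of_nonneg_left ?_ (by positivity)
          nlinarith [sq_nonneg ‖p.2‖]
  · filter_upwards [N.W_tendsto] with p hp
    exact hp.const_mul _

end hnet2

end Pool.Agent.H776
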