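import Pool.Agent.H776.HNet2

/-!
# Networks of Horn clauses: the theorem
-/

set_option autoImplicit false

namespace Pool.Agent.H776

open MeasureTheory Set Filter Topology
open scoped ENNReal InnerProductSpace

section hnet3

variable {κ H Γ : Type} [Fintype κ] [Fintype H] [Fintype Γ] (N : HN κ H Γ)

/-- change of variables -/
noncomputable def eh {J : Type} [Fintype J] (lam : Matrix J κ ℝ) (P Q : ℝ) (hP : P ≠ 0)
    (hQ : Q ≠ 0) : (Eu κ × Eu J) ≃L[ℝ] Eu (κ ⊕ J) :=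
  LinearEquiv.toContinuousLinearEquiv
    { toFun := fun p => WithLp.toLp 2 (Sum.elim (fun i => P * p.1 i)
        fun j => P * (∑ i, lam j i * p.1 i) + Q * p.2 j)
      invFun := fun y => (WithLp.toLp 2 fun i => P⁻¹ * y (Sum.inl i),
        WithLp.toLp 2 fun j => Q⁻¹ * (y (Sum.inr j) - ∑ i, lam j i * y (Sum.inl i)))
      left_inv := fun p => by
        refine Prod.ext ?_ ?_
        · ext i
          change P⁻¹ * (P * p.1 i) = p.1 i
          field_simp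
        · ext j
          change Q⁻¹ * ((P * (∑ i, lam j i * p.1 i) + Q * p.2 j) -
            ∑ i, lam j i * (P * p.1 i)) = p.2 j
          have e : ∑ i, lam j i * (P * p.1 i) = P * ∑ i, lam j i * p.1 i := by
            rw [Finset.mul_sum]
            exact Finset.sum_congr rfl fun i _ => by ring
          rw [e]
          field_simp
          ring
      right_inv := fun y => by
        ext i
        rcases i with i | j
        · change P * (P⁻¹ * y (Sum.inl i)) = y (Sum.inl i)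
          field_simp
        · change P * (∑ i, lam j i * (P⁻¹ * y (Sum.inl i))) +
            Q * (Q⁻¹ * (y (Sum.inr j) - ∑ i, lam j i * y (Sum.inl i))) = y (Sum.inr j)
          have e : ∑ i, lam j i * (P⁻¹ * y (Sum.inl i)) = P⁻¹ * ∑ i, lam j i * y (Sum.inl i) := by
            rw [Finset.mul_sum]
            exact Finset.sum_congr rfl fun i _ => by ring
          rw [e]
          field_simp
          ring
      map_add' := fun p q => by
        ext i
        rcases i with i | j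
        · change P * (p.1 i + q.1 i) = P * p.1 i + P * q.1 i
          ring
        · change P * (∑ i, lam j i * (p.1 i + q.1 i)) + Q * (p.2 j + q.2 j) =
            (P * (∑ i, lam j i * p.1 i) + Q * p.2 j) + (P * (∑ i, lam j i * q.1 i) + Q * q.2 j)
          simp only [mul_add, Finset.sum_add_distrib]
          ring
      map_smul' := fun c p => by
        ext i
        rcases i with i | j
        · change P * (c * p.1 i) = c * (P * p.1 i)
          ring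
        · change P * (∑ i, lam j i * (c * p.1 i)) + Q * (c * p.2 j) =
            c * (P * (∑ i, lam j i * p.1 i) + Q * p.2 j)
          have e : ∑ i, lam j i * (c * p.1 i) = c * ∑ i, lam j i * p.1 i := by
            rw [Finset.mul_sum]
            exact Finset.sum_congr rfl fun i _ => by ring
          rw [e]
          ring }

theorem eh_inl {J : Type} [Fintype J] (lam : Matrix J κ ℝ) (P Q : ℝ) (hP : P ≠ 0)
    (hQ : Q ≠ 0) (p : Eu κ × Eu J) (i : κ) : eh lam P Q hP hQ p (Sum.inl i) = P * p.1 i := rfl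

theorem eh_inr {J : Type} [Fintype J] (lam : Matrix J κ ℝ) (P Q : ℝ) (hP : P ≠ 0)
    (hQ : Q ≠ 0) (p : Eu κ × Eu J) (j : J) :
    eh lam P Q hP hQ p (Sum.inr j) = P * (∑ i, lam j i * p.1 i) + Q * p.2 j := rfl

/-- inclusion of the nodes -/
def emb (Γ : Type) : κ ⊕ H → κ ⊕ (H ⊕ Γ) := Sum.map id Sum.inl

/-- the centre -/
noncomputable def off (κ H Γ : Type) [Fintype κ] [Fintype H] [Fintype Γ] : Eu (κ ⊕ (H ⊕ Γ)) :=
  WithLp.toLp 2 (Sum.elim (fun _ => 1 / 2) (Sum.elim (fun _ => 1 / 2) fun _ => 0))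

/-- the linear functions of the hidden coordinates -/
def HN.lam : Matrix (H ⊕ Γ) κ ℝ := Matrix.of (Sum.elim N.L N.ell)

theorem nP {n : ℕ} (hn : 0 < n) : ((16 : ℝ) * n ^ 2)⁻¹ ≠ 0 := by
  have hn' : (n : ℝ) ≠ 0 := by exact_mod_cast hn.ne'
  positivity

theorem nQ {n : ℕ} (hn : 0 < n) : ((8 : ℝ) * n ^ 3)⁻¹ ≠ 0 := by
  have hn' : (n : ℝ) ≠ 0 := by exact_mod_cast hn.ne'
  positivity

/-- the points of the large space -/
noncomputable def HN.pt {n : ℕ} (hn : 0 < n) (p : Eu κ × Eu (H ⊕ Γ)) : Eu (κ ⊕ (H ⊕ Γ)) :=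
  eh N.lam _ _ (nP hn) (nQ hn) p + off κ H Γ

theorem HN.pt_v {n : ℕ} (hn : 0 < n) (p : Eu κ × Eu (H ⊕ Γ)) (v : κ ⊕ H) :
    N.pt hn p (emb Γ v) = 1 / 2 * (1 + N.tv n p v) := by
  unfold HN.tv
  rcases v with i | h
  · change ((16 : ℝ) * n ^ 2)⁻¹ * p.1 i + 1 / 2 =
      1 / 2 * (1 + 2 * (p.1 i / (16 * n ^ 2) + 0 / (8 * n ^ 3)))
    ring
  · change ((16 : ℝ) * n ^ 2)⁻¹ * (∑ i, N.L h i * p.1 i) + ((8 : ℝ) * n ^ 3)⁻¹ * p.2 (Sum.inl h) +
      1 / 2 = 1 / 2 * (1 + 2 * ((∑ i, N.L h i * p.1 i) / (16 * n ^ 2) +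
        p.2 (Sum.inl h) / (8 * n ^ 3)))
    ring

theorem HN.pt_g {n : ℕ} (hn : 0 < n) (p : Eu κ × Eu (H ⊕ Γ)) (g : Γ) :
    N.pt hn p (Sum.inr (Sum.inr g)) = N.zv n p g := by
  unfold HN.zv HN.el
  change ((16 : ℝ) * n ^ 2)⁻¹ * (∑ i, N.ell g i * p.1 i) + ((8 : ℝ) * n ^ 3)⁻¹ *
    p.2 (Sum.inr g) + 0 = (∑ i, N.ell g i * p.1 i) / (16 * n ^ 2) + p.2 (Sum.inr g) / (8 * n ^ 3)
  ring

/-- the clauses of the network -/
def HN.bc : Set (Cl (κ ⊕ (H ⊕ Γ))) :=
  range (fun g => Cl.tri (emb Γ (N.a g)) (emb Γ (N.b g)) (Sum.inr (Sum.inr g))) ∪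
    range (fun g => Cl.tri (emb Γ (N.c g)) (emb Γ (N.d g)) (Sum.inr (Sum.inr g)))

theorem emb_inj (H Γ : Type) : Function.Injective (emb Γ : κ ⊕ H → κ ⊕ (H ⊕ Γ)) :=
  Function.Injective.sumMap Function.injective_id Sum.inl_injective

theorem emb_ne (v : κ ⊕ H) (g : Γ) : emb Γ v ≠ Sum.inr (Sum.inr g) := by
  rcases v with v | v
  · intro h
    cases h
  · intro h
    cases h

theorem HN.bc_ok : ∀ c ∈ N.bc, c.ok := by
  intro c hc
  rcases hc with ⟨g, rfl⟩ | ⟨g, rfl⟩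
  · exact ⟨(emb_inj H Γ).ne (N.ab g), emb_ne _ _, emb_ne _ _⟩
  · exact ⟨(emb_inj H Γ).ne (N.cd g), emb_ne _ _, emb_ne _ _⟩

theorem HN.bc_int : (interior (HP N.bc)).Nonempty := by
  have hU : IsOpen {x : Eu (κ ⊕ (H ⊕ Γ)) | ∀ i, 0 < x i ∧ x i < 1 / 2} := by
    rw [ofPred_forall]
    refine isOpen_iInter_of_finite fun j => ?_
    change IsOpen ({x : Eu (κ ⊕ (H ⊕ Γ)) | 0 < x j} ∩ {x : Eu (κ ⊕ (H ⊕ Γ)) | x j < 1 / 2})
    exact (isOpen_lt continuous_const (by fun_prop)).inter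
      (isOpen_lt (by fun_prop) continuous_const)
  have hs : {x : Eu (κ ⊕ (H ⊕ Γ)) | ∀ i, 0 < x i ∧ x i < 1 / 2} ⊆ HP N.bc := by
    intro x hx
    refine ⟨fun i => ⟨(hx i).1.le, by linarith [(hx i).2]⟩, fun c hc => ?_⟩
    have h3 : ∀ i j k, (Cl.tri i j k).sat x := fun i j k => by
      change x i + x j ≤ 1 + x k
      linarith [(hx i).2, (hx j).2, (hx k).1]
    rcases hc with ⟨g, rfl⟩ | ⟨g, rfl⟩
    · exact h3 _ _ _
    · exact h3 _ _ _
  refine ⟨WithLp.toLp 2 fun _ => 1 / 4, ?_⟩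
  rw [mem_interior]
  exact ⟨_, hs, hU, fun i => by norm_num⟩

theorem dn {x y : ℝ} (hy : 0 < y) : 0 ≤ x / y ↔ 0 ≤ x :=
  ⟨fun h => by
    have := mul_nonneg h hy.le
    rwa [div_mul_cancel₀ _ hy.ne'] at this, fun h => div_nonneg h hy.le⟩

theorem HN.mem_iff {n : ℕ} (hn : 0 < n) (p : Eu κ × Eu (H ⊕ Γ)) :
    N.pt hn p ∈ HP N.bc ↔ N.Bs n p := by
  have hn' : (0 : ℝ) < n := by exact_mod_cast hn
  have h8 : (0 : ℝ) < 8 * n ^ 3 := by positivity
  have k1 : ∀ g, (Cl.tri (emb Γ (N.a g)) (emb Γ (N.b g)) (Sum.inr (Sum.inr g))).sat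
      (N.pt hn p) ↔ 0 ≤ N.d1 p.2 g := by
    intro g
    change N.pt hn p (emb Γ (N.a g)) + N.pt hn p (emb Γ (N.b g)) ≤
      1 + N.pt hn p (Sum.inr (Sum.inr g)) ↔ _
    rw [N.pt_v, N.pt_v, N.pt_g, show 1 / 2 * (1 + N.tv n p (N.a g)) + 1 / 2 *
      (1 + N.tv n p (N.b g)) = 1 + 1 / 2 * (N.tv n p (N.a g) + N.tv n p (N.b g)) by ring, N.tv_ab,
      show 1 + 1 / 2 * (2 * N.zv n p g - 2 * (N.d1 p.2 g / (8 * n ^ 3))) =
        (1 + N.zv n p g) - N.d1 p.2 g / (8 * n ^ 3) by ring, sub_le_self_iff]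
    exact dn h8
  have k2 : ∀ g, (Cl.tri (emb Γ (N.c g)) (emb Γ (N.d g)) (Sum.inr (Sum.inr g))).sat
      (N.pt hn p) ↔ 0 ≤ N.d2 p.2 g := by
    intro g
    change N.pt hn p (emb Γ (N.c g)) + N.pt hn p (emb Γ (N.d g)) ≤
      1 + N.pt hn p (Sum.inr (Sum.inr g)) ↔ _
    rw [N.pt_v, N.pt_v, N.pt_g, show 1 / 2 * (1 + N.tv n p (N.c g)) + 1 / 2 *
      (1 + N.tv n p (N.d g)) = 1 + 1 / 2 * (N.tv n p (N.c g) + N.tv n p (N.d g)) by ring, N.tv_cd,
      show 1 + 1 / 2 * (2 * N.zv n p g - 2 * (N.d2 p.2 g / (8 * n ^ 3))) =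
        (1 + N.zv n p g) - N.d2 p.2 g / (8 * n ^ 3) by ring, sub_le_self_iff]
    exact dn h8
  constructor
  · intro h
    refine ⟨fun v => ?_, fun g => ?_, fun g => ⟨?_, ?_⟩⟩
    · have h1 := h.1 (emb Γ v)
      rw [N.pt_v] at h1
      constructor <;> linarith [h1.1, h1.2]
    · have h1 := h.1 (Sum.inr (Sum.inr g))
      rw [N.pt_g] at h1
      exact h1
    · exact (k1 g).1 (h.2 _ (Or.inl (mem_range_self g)))
    · exact (k2 g).1 (h.2 _ (Or.inr (mem_range_self g)))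
  · intro h
    refine ⟨fun i => ?_, fun c hc => ?_⟩
    · have hv : ∀ v, 0 ≤ N.pt hn p (emb Γ v) ∧ N.pt hn p (emb Γ v) ≤ 1 := fun v => by
        have h1 := h.1 v
        rw [N.pt_v]
        constructor <;> linarith [h1.1, h1.2]
      rcases i with i | i | g
      · exact hv (Sum.inl i)
      · exact hv (Sum.inr i)
      · rw [N.pt_g]
        exact h.2.1 g
    · rcases hc with ⟨g, rfl⟩ | ⟨g, rfl⟩
      · exact (k1 g).2 (h.2.2 g).1
      · exact (k2 g).2 (h.2.2 g).2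

/-- indices of the copies -/
abbrev HN.Ix (n : ℕ) : Type :=
  (Σ v : κ ⊕ H, Fin (32 * n ^ 4 * N.mu v) × Bool) ⊕ ((Fin (8 * n ^ 6) × Bool) ⊕
    ((Γ × (Fin (8 * n ^ 3) × (Bool × Bool))) ⊕ (Γ × Fin (32 * n ^ 3))))

/-- the literals -/
def HN.lit (n : ℕ) : N.Ix n → (κ ⊕ (H ⊕ Γ)) × Bool :=
  Sum.elim (fun q => (emb Γ q.1, q.2.2)) (Sum.elim (fun q => (emb Γ (Sum.inr N.o), q.2))
    (Sum.elim (fun q => (emb Γ (if q.2.2.1 then (if q.2.2.2 then N.a q.1 else N.b q.1)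
      else (if q.2.2.2 then N.c q.1 else N.d q.1)), true)) fun q => (Sum.inr (Sum.inr q.1), false)))

/-- the constants -/
noncomputable def HN.Cn (n : ℕ) : ℝ :=
  (∏ v, (1 / 4 : ℝ) ^ (32 * n ^ 4 * N.mu v)) * ((1 / 4 : ℝ) ^ (8 * n ^ 6) *
    ∏ _g : Γ, (1 / 16 : ℝ) ^ (8 * n ^ 3))

theorem HN.Cn_pos (n : ℕ) : 0 < N.Cn n := by
  unfold HN.Cn
  positivity

theorem HN.prod_lit {n : ℕ} (hn : 0 < n) (p : Eu κ × Eu (H ⊕ Γ)) :
    ∏ i, lv (N.lit n i) (N.pt hn p) = N.Cn n * N.G n p := by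
  have ht : ∀ v, lv (emb Γ v, true) (N.pt hn p) = 1 / 2 * (1 + N.tv n p v) := fun v => by
    simp only [lv, if_true]
    exact N.pt_v hn p v
  have hf : ∀ v, lv (emb Γ v, false) (N.pt hn p) = 1 / 2 * (1 - N.tv n p v) := fun v => by
    simp only [lv, Bool.false_eq_true, if_false]
    rw [N.pt_v hn p v]
    ring
  have hg : ∀ g, lv ((Sum.inr (Sum.inr g), false) : (κ ⊕ (H ⊕ Γ)) × Bool) (N.pt hn p) =
      1 + -N.zv n p g := fun g => by
    simp only [lv, Bool.false_eq_true, if_false]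
    rw [N.pt_g hn p g]
    ring
  have e1 : ∏ i, lv (N.lit n i) (N.pt hn p) =
      (∏ v, (1 / 4 * (1 + -(N.tv n p v ^ 2))) ^ (32 * n ^ 4 * N.mu v)) *
      ((1 / 4 * (1 + -(N.tv n p (Sum.inr N.o) ^ 2))) ^ (8 * n ^ 6) *
        ((∏ g, (1 / 16 * (((1 + N.tv n p (N.a g)) * (1 + N.tv n p (N.b g))) *
          ((1 + N.tv n p (N.c g)) * (1 + N.tv n p (N.d g))))) ^ (8 * n ^ 3)) *
          ∏ g, (1 + -N.zv n p g) ^ (32 * n ^ 3))) := by
    rw [Fintype.prod_sum_type, Fintype.prod_sum_type, Fintype.prod_sum_type]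
    refine congrArg₂ (· * ·) ?_ (congrArg₂ (· * ·) ?_ (congrArg₂ (· * ·) ?_ ?_))
    · rw [Fintype.prod_sigma]
      refine Finset.prod_congr rfl fun v _ => ?_
      rw [Fintype.prod_prod_type]
      simp only [HN.lit, Sum.elim_inl, Fintype.prod_bool, ht, hf, Finset.prod_const,
        Finset.card_univ, Fintype.card_fin]
      congr 1
      ring
    · rw [Fintype.prod_prod_type]
      simp only [HN.lit, Sum.elim_inl, Sum.elim_inr, Fintype.prod_bool, ht, hf, Finset.prod_const,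
        Finset.card_univ, Fintype.card_fin]
      congr 1
      ring
    · rw [Fintype.prod_prod_type]
      refine Finset.prod_congr rfl fun g _ => ?_
      rw [Fintype.prod_prod_type]
      simp only [Fintype.prod_prod_type, HN.lit, Sum.elim_inl, Sum.elim_inr, Fintype.prod_bool,
        ht, Finset.prod_const,
        Finset.card_univ, Fintype.card_fin, if_true, Bool.false_eq_true, if_false]
      congr 1
      ring
    · rw [Fintype.prod_prod_type]
      refine Finset.prod_congr rfl fun g _ => ?_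
      simp only [HN.lit, Sum.elim_inr, hg, Finset.prod_const, Finset.card_univ, Fintype.card_fin]
  rw [e1]
  unfold HN.Cn HN.G
  simp only [mul_pow, Finset.prod_mul_distrib]
  ring

theorem HN.wl_pt {n : ℕ} (hn : 0 < n) (p : Eu κ × Eu (H ⊕ Γ)) :
    wl (HP N.bc) (N.lit n) (N.pt hn p) = N.Cn n * N.W n p := by
  unfold wl HN.W
  by_cases h : N.Bs n p
  · rw [indicator_of_mem ((N.mem_iff hn p).2 h), if_pos h]
    exact N.prod_lit hn p
  · rw [indicator_of_notMem fun h1 => h ((N.mem_iff hn p).1 h1), if_neg h, mul_zero]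

end hnet3

end Pool.Agent.H776
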