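import Pool.Agent.H776.HNet3

/-!
# Networks of Horn clauses: Gaussian measures on orthants
-/

set_option autoImplicit false

namespace Pool.Agent.H776

open MeasureTheory Set Filter Topology
open scoped ENNReal InnerProductSpace

section hnet4

variable {κ H Γ : Type} [Fintype κ] [Fintype H] [Fintype Γ] (N : HN κ H Γ)

/-- the linear map with the limit energy -/
noncomputable def HN.Am : Eu κ →ₗ[ℝ] Eu (κ ⊕ H) where
  toFun y := WithLp.toLp 2 fun v => Real.sqrt (N.mu v) * lft N.L y v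
  map_add' y z := by
    ext v
    have h : lft N.L (y + z) v = lft N.L y v + lft N.L z v := by
      rcases v with i | h
      · rfl
      · change ∑ i, N.L h i * (y i + z i) = (∑ i, N.L h i * y i) + ∑ i, N.L h i * z i
        simp only [mul_add, Finset.sum_add_distrib]
    change Real.sqrt (N.mu v) * lft N.L (y + z) v = Real.sqrt (N.mu v) * lft N.L y v +
      Real.sqrt (N.mu v) * lft N.L z v
    rw [h]
    ring
  map_smul' r y := by
    ext v
    have h : lft N.L (r • y) v = r * lft N.L y v := by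
      rcases v with i | h
      · rfl
      · change ∑ i, N.L h i * (r * y i) = r * ∑ i, N.L h i * y i
        rw [Finset.mul_sum]
        exact Finset.sum_congr rfl fun i _ => by ring
    change Real.sqrt (N.mu v) * lft N.L (r • y) v = r * (Real.sqrt (N.mu v) * lft N.L y v)
    rw [h]
    ring

omit [Fintype Γ] in
theorem HN.Am_sq (y : Eu κ) : ‖N.Am y‖ ^ 2 = ∑ v, (N.mu v : ℝ) * lft N.L y v ^ 2 := by
  rw [EuclideanSpace.norm_sq_eq]
  refine Finset.sum_congr rfl fun v _ => ?_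
  change ‖Real.sqrt (N.mu v) * lft N.L y v‖ ^ 2 = _
  rw [Real.norm_eq_abs, sq_abs, mul_pow, Real.sq_sqrt (Nat.cast_nonneg _)]

omit [Fintype Γ] in
theorem HN.Am_inj : Function.Injective N.Am := by
  rw [← LinearMap.ker_eq_bot, LinearMap.ker_eq_bot']
  intro y hy
  ext i
  have h1 : N.Am y (Sum.inl i) = 0 := by rw [hy]; rfl
  have h2 : N.Am y (Sum.inl i) = Real.sqrt ((1 : ℕ) : ℝ) * y i := rfl
  rw [h2] at h1
  simpa using h1

omit [Fintype Γ] in
theorem HN.gm_gq : ∃ Q : Matrix κ κ ℝ, Q.PosDef ∧ N.gm = gq Q := by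
  classical
  obtain ⟨Q, hQ, -, hQA⟩ := exists_matrix N.Am N.Am_inj
  refine ⟨Q, hQ, ?_⟩
  funext y
  unfold HN.gm gq
  have e : qf Q y = ‖N.Am y‖ ^ 2 := (hQA y).symm
  rw [e, N.Am_sq]
  by_cases hy : ∀ i, 0 ≤ y i
  · rw [if_pos hy, if_pos hy]
    congr 1
    ring
  · rw [if_neg hy, if_neg hy]

theorem HN.gm_wt : Wt N.gm := by
  obtain ⟨Q, hQ, e⟩ := N.gm_gq
  rw [e]
  exact wt_gq hQ

theorem HN.hm_nonneg (w : Eu (H ⊕ Γ)) : 0 ≤ N.hm w := by
  unfold HN.hm
  split_ifs
  · exact (Real.exp_pos _).le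
  · exact le_rfl

theorem HN.hm_meas : Measurable N.hm := by
  unfold HN.hm
  have h1 := fun g => N.d1_cont g
  have h2 := fun g => N.d2_cont g
  refine Measurable.ite N.Fe_meas (Continuous.measurable ?_) measurable_const
  refine Real.continuous_exp.comp (Continuous.neg (Continuous.add (by fun_prop)
    (continuous_const.mul (continuous_finsetSum _ fun g _ => (h1 g).add (h2 g)))))

theorem HN.hm_pos : 0 < ∫ w, N.hm w := by
  obtain ⟨q, hq0, hq⟩ := N.low_q
  rw [integral_pos_iff_support_of_nonneg N.hm_nonneg]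
  · have ho : IsOpen {w : Eu (H ⊕ Γ) | ∀ g, 0 < N.d1 w g ∧ 0 < N.d2 w g} := by
      rw [ofPred_forall]
      refine isOpen_iInter_of_finite fun g => ?_
      change IsOpen ({w : Eu (H ⊕ Γ) | 0 < N.d1 w g} ∩ {w : Eu (H ⊕ Γ) | 0 < N.d2 w g})
      exact (isOpen_lt continuous_const (N.d1_cont g)).inter
        (isOpen_lt continuous_const (N.d2_cont g))
    have hn : {w : Eu (H ⊕ Γ) | ∀ g, 0 < N.d1 w g ∧ 0 < N.d2 w g}.Nonempty := by
      refine ⟨WithLp.toLp 2 (Sum.elim (fun _ => 0) fun _ => 1), fun g => ?_⟩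
      have hw : ∀ v : κ ⊕ H, wx (WithLp.toLp 2 (Sum.elim (fun _ => 0) fun _ => 1) : Eu (H ⊕ Γ)) v =
          0 := by
        intro v
        rcases v with v | v <;> rfl
      unfold HN.d1 HN.d2
      simp only [hw, Sum.elim_inr]
      norm_num
    refine lt_of_lt_of_le (ho.measure_pos volume hn) (measure_mono fun y hy => ?_)
    rw [Function.mem_support]
    unfold HN.hm
    rw [if_pos (show N.Fe y from fun g => ⟨(hy g).1.le, (hy g).2.le⟩)]
    exact (Real.exp_pos _).ne'
  · have h1 := (Q38.LD.Lim.integ (κ := H ⊕ Γ) hq0).const_mul (Real.exp (1 / 2))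
    refine h1.mono' N.hm_meas.aestronglyMeasurable (Eventually.of_forall fun w => ?_)
    rw [Real.norm_of_nonneg (N.hm_nonneg w)]
    have h2 : N.hm w ≤ Real.exp (1 / 2) * Real.exp (-(q * ‖w‖)) := by
      unfold HN.hm
      split_ifs with hF
      · rw [← Real.exp_add]
        refine Real.exp_le_exp.2 ?_
        have := N.hid_le hq hF
        linarith
      · positivity
    refine h2.trans ?_
    have h3 : 0 < Real.exp (1 / 2) * Real.exp (-(q * ‖w‖)) := by positivity
    nlinarith [mul_nonneg (sq_nonneg ‖w‖) h3.le]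

/-- the translation vector -/
noncomputable def bv (κ : Type) [Fintype κ] (n : ℕ) : Eu κ := WithLp.toLp 2 fun _ => 8 * (n : ℝ) ^ 2

/-- **Gaussian measures on orthants from Horn polytopes** -/
theorem HN.kp {D : ℝ} (hD : 0 ≤ D)
    (HH : ∀ (σ : Type) [Fintype σ] (K : Set (Eu σ)), IsHP K → CB K →
      KP (nm (K.indicator fun _ => (1 : ℝ))) D) : KP (nm N.gm) D := by
  have hw := N.gm_wt
  have hprob := hw.prob
  have hcb : CB (HP N.bc) := HP_cb N.bc_int
  have hwt : ∀ n, Wt (wl (HP N.bc) (N.lit n)) := fun n => wt_wl hcb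
  have hpr : ∀ n, IsProbabilityMeasure (nm (wl (HP N.bc) (N.lit n))) := fun n => (hwt n).prob
  have hpv : Measurable (pv Sum.inl : Eu (κ ⊕ (H ⊕ Γ)) → Eu κ) := pv_cont.measurable
  have hpr1 : ∀ n, IsProbabilityMeasure ((nm (wl (HP N.bc) (N.lit n))).map (pv Sum.inl)) :=
    fun n => Measure.isProbabilityMeasure_map hpv.aemeasurable
  have hme : ∀ n : ℕ, Measurable fun x : Eu κ => (16 * (n : ℝ) ^ 2) • x - bv κ n := fun n => by
    fun_prop
  have hpr2 : ∀ n, IsProbabilityMeasure (((nm (wl (HP N.bc) (N.lit n))).map (pv Sum.inl)).map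
      fun x : Eu κ => (16 * (n : ℝ) ^ 2) • x - bv κ n) :=
    fun n => Measure.isProbabilityMeasure_map (hme n).aemeasurable
  have hsq1 : ∀ n, Integrable (fun x => ‖x‖ ^ 2)
      ((nm (wl (HP N.bc) (N.lit n))).map (pv Sum.inl)) := by
    intro n
    rw [integrable_map_measure (by fun_prop) hpv.aemeasurable]
    refine (hwt n).int_sq.mono' ?_ (Eventually.of_forall fun s => ?_)
    · exact ((pv_cont.norm).pow 2).aestronglyMeasurable
    · simp only [Function.comp_apply]
      rw [Real.norm_of_nonneg (by positivity)]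
      change ‖pl s‖ ^ 2 ≤ _
      rw [norm_sq_split s]
      exact le_add_of_nonneg_right (sq_nonneg _)
  have hsq2 : ∀ n, Integrable (fun x => ‖x‖ ^ 2)
      (((nm (wl (HP N.bc) (N.lit n))).map (pv Sum.inl)).map
      fun x : Eu κ => (16 * (n : ℝ) ^ 2) • x - bv κ n) := by
    intro n
    rw [integrable_map_measure (by fun_prop) (hme n).aemeasurable]
    refine Grow.integrable (φ := (fun x : Eu κ => ‖x‖ ^ 2) ∘
      fun x : Eu κ => (16 * (n : ℝ) ^ 2) • x - bv κ n) ⟨by fun_prop,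
        2 * (16 * (n : ℝ) ^ 2) ^ 2 + 2 * ‖bv κ n‖ ^ 2, fun x => ?_⟩ (hsq1 n)
    simp only [Function.comp_apply]
    rw [abs_of_nonneg (by positivity)]
    have h1 : ‖(16 * (n : ℝ) ^ 2) • x - bv κ n‖ ≤ (16 * (n : ℝ) ^ 2) * ‖x‖ + ‖bv κ n‖ := by
      refine (norm_sub_le _ _).trans ?_
      rw [norm_smul, Real.norm_of_nonneg (by positivity)]
    have h2 := pow_le_pow_left₀ (norm_nonneg _) h1 2
    refine h2.trans ?_
    set A := (16 * (n : ℝ) ^ 2)
    set B := ‖bv κ n‖
    have k1 : 0 ≤ ‖x‖ ^ 2 := sq_nonneg _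
    nlinarith [sq_nonneg (A * ‖x‖ - B), mul_nonneg (sq_nonneg B) k1, sq_nonneg A]
  refine KP.lim (l := (atTop : Filter ℕ)) (m := fun n =>
    ((nm (wl (HP N.bc) (N.lit n))).map (pv Sum.inl)).map
      fun x : Eu κ => (16 * (n : ℝ) ^ 2) • x - bv κ n)
    ⟨Eventually.of_forall hpr2, Eventually.of_forall hsq2, hw.int_sq, fun φ hφ => ?_⟩ hD ?_
  · have hZ := N.hm_pos
    have h1 := (N.W_lim hφ).div (N.W_lim (φ := fun _ => 1)
      (grow_bdd continuous_const (B := 1) (by simp))) (by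
        simp only [one_mul]
        exact (mul_pos hw.pos hZ).ne')
    simp only [one_mul] at h1
    rw [mul_div_mul_right _ _ hZ.ne'] at h1
    rw [integral_nm hw.nonneg hw.meas]
    refine h1.congr' ?_
    filter_upwards [eventually_gt_atTop 0] with n hn
    have hc : Continuous fun x : Eu κ => φ ((16 * (n : ℝ) ^ 2) • x - bv κ n) :=
      hφ.1.comp (by fun_prop)
    have := vol_haar κ (H ⊕ Γ)
    rw [integral_map (hme n).aemeasurable hφ.1.aestronglyMeasurable,
      integral_map hpv.aemeasurable hc.aestronglyMeasurable,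
      integral_nm (hwt n).nonneg (hwt n).meas,
      integral_quot (volume : Measure (Eu κ × Eu (H ⊕ Γ))) volume
        (eh N.lam _ _ (nP hn) (nQ hn)) (off κ H Γ)]
    have e1 : ∀ p : Eu κ × Eu (H ⊕ Γ), (16 * (n : ℝ) ^ 2) •
        pv Sum.inl (eh N.lam _ _ (nP hn) (nQ hn) p + off κ H Γ) - bv κ n = p.1 := by
      intro p
      ext i
      change (16 * (n : ℝ) ^ 2) * (((16 : ℝ) * n ^ 2)⁻¹ * p.1 i + 1 / 2) - 8 * (n : ℝ) ^ 2 = p.1 i
      have hn' : (n : ℝ) ≠ 0 := by exact_mod_cast hn.ne'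
      field_simp
      ring
    have e2 : ∀ p : Eu κ × Eu (H ⊕ Γ), wl (HP N.bc) (N.lit n)
        (eh N.lam _ _ (nP hn) (nQ hn) p + off κ H Γ) = N.Cn n * N.W n p := fun p => N.wl_pt hn p
    simp only [e1, e2]
    have e3 : ∀ p : Eu κ × Eu (H ⊕ Γ), φ p.1 * (N.Cn n * N.W n p) =
        N.Cn n * (φ p.1 * N.W n p) := fun p => by ring
    simp only [e3]
    rw [integral_const_mul, integral_const_mul, mul_div_mul_left _ _ (N.Cn_pos n).ne']
    rfl
  · filter_upwards [eventually_gt_atTop 0] with n hn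
    have hn' : (0 : ℝ) < n := by exact_mod_cast hn
    exact (kp_wgt hD HH ⟨_, N.bc_ok, rfl⟩ hcb (N.lit n) Sum.inl).affine (hsq1 n) (by positivity) (bv κ n)

end hnet4

end Pool.Agent.H776
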