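import Pool.Agent.H776.HNet4

/-!
# Networks of Horn clauses: construction
-/

set_option autoImplicit false

namespace Pool.Agent.H776

open MeasureTheory Set Filter Topology
open scoped ENNReal InnerProductSpace

section con

variable {κ ι : Type} [Fintype κ] [Fintype ι]

/-- exponents -/
abbrev Gr (κ : Type) (b : ℕ) : Type := κ → Fin (2 * b + 1)

theorem exists_ne {b : ℕ} (n : Gr κ b) (h : n ≠ 0) : ∃ j, n j ≠ 0 := by
  by_contra h1
  push Not at h1
  exact h (funext h1)

/-- a nonzero coordinate -/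
noncomputable def jj {b : ℕ} (n : {n : Gr κ b // n ≠ 0}) : κ := (exists_ne n.1 n.2).choose

theorem jj_ne {b : ℕ} (n : {n : Gr κ b // n ≠ 0}) : n.1 (jj n) ≠ 0 := (exists_ne n.1 n.2).choose_spec

theorem jj_pos {b : ℕ} (n : {n : Gr κ b // n ≠ 0}) : 0 < (n.1 (jj n)).val := by
  have h := jj_ne n
  rw [Nat.pos_iff_ne_zero]
  intro h1
  exact h (Fin.ext h1)

open Classical in
/-- the predecessor -/
noncomputable def prv {b : ℕ} (n : {n : Gr κ b // n ≠ 0}) : Gr κ b :=
  Function.update n.1 (jj n) ⟨(n.1 (jj n)).val - 1, by have := (n.1 (jj n)).isLt; omega⟩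

open Classical in
theorem prv_val {b : ℕ} (n : {n : Gr κ b // n ≠ 0}) (k : κ) :
    (n.1 k).val = (prv n k).val + if k = jj n then 1 else 0 := by
  unfold prv
  by_cases hk : k = jj n
  · subst hk
    rw [Function.update_self, if_pos rfl]
    have := jj_pos n
    simp only
    omega
  · rw [Function.update_of_ne hk, if_neg hk]
    rfl

theorem prv_sum {b : ℕ} (n : {n : Gr κ b // n ≠ 0}) :
    ∑ k, (n.1 k).val = (∑ k, (prv n k).val) + 1 := by
  classical
  simp only [prv_val n, Finset.sum_add_distrib, Finset.sum_ite_eq', Finset.mem_univ, if_true]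

/-- the exponents `m + b` -/
def n1 (b : ℕ) (m : ι → κ → ℤ) (hm : ∀ i k, |m i k| < b) (i : ι) : Gr κ b := fun k =>
  ⟨(m i k + b).toNat, by
    have := abs_lt.1 (hm i k)
    omega⟩

omit [Fintype κ] [Fintype ι] in
theorem n1_val (b : ℕ) (m : ι → κ → ℤ) (hm : ∀ i k, |m i k| < b) (i : ι) (k : κ) :
    (((n1 b m hm i k).val : ℕ) : ℝ) = m i k + b := by
  have h := abs_lt.1 (hm i k)
  have h1 : (((m i k + b).toNat : ℕ) : ℤ) = m i k + b := Int.toNat_of_nonneg (by omega)
  change (((m i k + b).toNat : ℕ) : ℝ) = m i k + b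
  exact_mod_cast congrArg (fun z : ℤ => (z : ℝ)) h1

/-- the constant exponent `b` -/
def n2 (κ : Type) (b : ℕ) : Gr κ b := fun _ => ⟨b, by omega⟩

/-- the linear functions of the hidden nodes -/
def LH (b : ℕ) (m : ι → κ → ℤ) : Matrix (Gr κ b ⊕ ι) κ ℝ :=
  Matrix.of (Sum.elim (fun n k => ((n k).val : ℝ)) fun i k => (m i k : ℝ))

/-- the linear functions of the gates -/
def lH (b : ℕ) (m : ι → κ → ℤ) : Matrix ({n : Gr κ b // n ≠ 0} ⊕ ι) κ ℝ :=
  Matrix.of (Sum.elim (fun n k => ((n.1 k).val : ℝ)) fun i k => (m i k : ℝ) + b)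

theorem sum_ite_y {y : κ → ℝ} {j : κ} [DecidableEq κ] (f : κ → ℝ) :
    ∑ k, (f k + if k = j then 1 else 0) * y k = (∑ k, f k * y k) + y j := by
  simp only [add_mul, Finset.sum_add_distrib, ite_mul, one_mul, zero_mul, Finset.sum_ite_eq',
    Finset.mem_univ, if_true]

/-- the network with the outputs `m` -/
noncomputable def netH [Nonempty κ] (b : ℕ) (m : ι → κ → ℤ) (hm : ∀ i k, |m i k| < b) (hb : 0 < b) :
    HN κ (Gr κ b ⊕ ι) ({n : Gr κ b // n ≠ 0} ⊕ ι) where
  a := Sum.elim (fun n => Sum.inr (Sum.inl n.1)) fun i => Sum.inr (Sum.inr i)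
  b := Sum.elim (fun _ => Sum.inr (Sum.inl 0)) fun _ => Sum.inr (Sum.inl (n2 κ b))
  c := Sum.elim (fun n => Sum.inr (Sum.inl (prv n))) fun i => Sum.inr (Sum.inl (n1 b m hm i))
  d := Sum.elim (fun n => Sum.inl (jj n)) fun _ => Sum.inr (Sum.inl 0)
  o := Sum.inl 0
  L := LH b m
  ell := lH b m
  mlt := Sum.elim (fun _ => 0) fun _ => 1
  id1 := by
    intro y g
    rcases g with n | i
    · change (∑ k, ((n.1 k).val : ℝ) * y k) + (∑ k, (((0 : Gr κ b) k).val : ℝ) * y k) =
        ∑ k, ((n.1 k).val : ℝ) * y k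
      simp
    · change (∑ k, (m i k : ℝ) * y k) + (∑ k, ((n2 κ b k).val : ℝ) * y k) =
        ∑ k, ((m i k : ℝ) + b) * y k
      rw [← Finset.sum_add_distrib]
      refine Finset.sum_congr rfl fun k _ => ?_
      simp only [n2]
      ring
  id2 := by
    classical
    intro y g
    rcases g with n | i
    · change (∑ k, ((prv n k).val : ℝ) * y k) + y (jj n) = ∑ k, ((n.1 k).val : ℝ) * y k
      rw [← sum_ite_y]
      refine Finset.sum_congr rfl fun k _ => ?_
      rw [prv_val n k]
      push_cast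
      rfl
    · change (∑ k, ((n1 b m hm i k).val : ℝ) * y k) + (∑ k, (((0 : Gr κ b) k).val : ℝ) * y k) =
        ∑ k, ((m i k : ℝ) + b) * y k
      simp only [n1_val]
      simp
  ell0 := by
    intro g k
    rcases g with n | i
    · change 0 ≤ ((n.1 k).val : ℝ)
      positivity
    · change 0 ≤ (m i k : ℝ) + b
      rw [← n1_val b m hm i k]
      positivity
  ell1 := by
    intro g
    rcases g with n | i
    · refine ⟨jj n, ?_⟩
      change 0 < ((n.1 (jj n)).val : ℝ)
      exact_mod_cast jj_pos n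
    · obtain ⟨k⟩ := ‹Nonempty κ›
      refine ⟨k, ?_⟩
      change 0 < (m i k : ℝ) + b
      have h := abs_lt.1 (hm i k)
      have h2 : 0 < m i k + b := by omega
      exact_mod_cast h2
  vis := by
    classical
    intro k
    refine ⟨Sum.inl ⟨fun k' => if k' = k then ⟨1, by omega⟩ else 0, fun h => ?_⟩, fun y => ?_⟩
    · have h1 := congrFun h k
      rw [if_pos rfl] at h1
      have h2 := congrArg Fin.val h1
      simp at h2
    · change ∑ i, (((if i = k then (⟨1, by omega⟩ : Fin (2 * b + 1)) else 0 :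
        Fin (2 * b + 1)).val : ℕ) : ℝ) * y i = y k
      rw [Finset.sum_eq_single k]
      · simp
      · intro i _ hi
        simp [hi]
      · intro h
        exact absurd (Finset.mem_univ k) h
  Lo := by
    intro k
    change (((0 : Gr κ b) k).val : ℝ) = 0
    simp
  inj := by
    intro w z hw ho hg
    have h1 : ∀ s : ℕ, ∀ n : Gr κ b, ∑ k, (n k).val = s → w (Sum.inr (Sum.inl n)) = 0 := by
      intro s
      induction s using Nat.strong_induction_on with
      | _ s ih =>
        intro n hn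
        by_cases h0 : n = 0
        · rw [h0]
          exact ho
        · have h2 := hg (Sum.inl ⟨n, h0⟩)
          have h3 : w (Sum.inr (Sum.inl n)) + w (Sum.inr (Sum.inl 0)) = z (Sum.inl ⟨n, h0⟩) := h2.1
          have h4 : w (Sum.inr (Sum.inl (prv ⟨n, h0⟩))) + w (Sum.inl (jj ⟨n, h0⟩)) =
            z (Sum.inl ⟨n, h0⟩) := h2.2
          have h5 := prv_sum ⟨n, h0⟩
          have h6 := ih (∑ k, (prv ⟨n, h0⟩ k).val) (by simp only at h5; omega) _ rfl
          rw [hw, h6] at h4
          have ho' : w (Sum.inr (Sum.inl 0)) = 0 := ho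
          linarith
    have h2 : ∀ n : Gr κ b, w (Sum.inr (Sum.inl n)) = 0 := fun n => h1 _ n rfl
    have h3 : ∀ i : ι, w (Sum.inr (Sum.inr i)) = 0 := by
      intro i
      have h4 := hg (Sum.inr i)
      have h5 : w (Sum.inr (Sum.inr i)) + w (Sum.inr (Sum.inl (n2 κ b))) = z (Sum.inr i) := h4.1
      have h6 : w (Sum.inr (Sum.inl (n1 b m hm i))) + w (Sum.inr (Sum.inl 0)) = z (Sum.inr i) :=
        h4.2
      rw [h2] at h5
      rw [h2, h2] at h6
      linarith
    have h4 : w = 0 := by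
      funext v
      rcases v with k | n | i
      · exact hw k
      · exact h2 n
      · exact h3 i
    refine ⟨h4, ?_⟩
    funext g
    have h5 := (hg g).1
    rw [h4] at h5
    simpa using h5.symm
  ab := by
    intro g
    rcases g with n | i
    · intro h
      exact n.2 (Sum.inl_injective (Sum.inr_injective h))
    · intro h
      cases h
  cd := by
    intro g
    rcases g with n | i
    · intro h
      cases h
    · intro h
      have h1 : n1 b m hm i = 0 := Sum.inl_injective (Sum.inr_injective h)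
      obtain ⟨k⟩ := ‹Nonempty κ›
      have h2 := congrArg (fun f : Gr κ b => (f k).val) h1
      have h3 := abs_lt.1 (hm i k)
      simp only [n1, Pi.zero_apply, Fin.val_zero] at h2
      omega

open Classical in
/-- densities with integral quadratic forms -/
noncomputable def gz (m : ι → κ → ℤ) (y : Eu κ) : ℝ :=
  if ∀ i, 0 ≤ y i then
    Real.exp (-(1 / 2 * (∑ k, y k ^ 2 + ∑ i, (∑ k, (m i k : ℝ) * y k) ^ 2))) else 0

theorem kp_gz [Nonempty κ] {D : ℝ} (hD : 0 ≤ D)
    (HH : ∀ (σ : Type) [Fintype σ] (K : Set (Eu σ)), IsHP K → CB K →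
      KP (nm (K.indicator fun _ => (1 : ℝ))) D) (m : ι → κ → ℤ) :
    Wt (gz m) ∧ KP (nm (gz m)) D := by
  classical
  obtain ⟨b, hb, hm⟩ : ∃ b : ℕ, 0 < b ∧ ∀ i k, |m i k| < b := by
    refine ⟨∑ i, ∑ k, (m i k).natAbs + 1, by omega, fun i k => ?_⟩
    have h1 : (m i k).natAbs ≤ ∑ k, (m i k).natAbs :=
      Finset.single_le_sum (f := fun k => (m i k).natAbs) (fun _ _ => Nat.zero_le _)
        (Finset.mem_univ k)
    have h2 : ∑ k, (m i k).natAbs ≤ ∑ i, ∑ k, (m i k).natAbs :=
      Finset.single_le_sum (f := fun i => ∑ k, (m i k).natAbs) (fun _ _ => Nat.zero_le _)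
        (Finset.mem_univ i)
    have h3 : |m i k| = ((m i k).natAbs : ℤ) := Int.abs_eq_natAbs _
    rw [h3]
    omega
  have h := (netH b m hm hb).kp hD HH
  have hw := (netH b m hm hb).gm_wt
  have e : (netH b m hm hb).gm = gz m := by
    funext y
    unfold HN.gm gz
    have e1 : ∑ v, ((netH b m hm hb).mu v : ℝ) * lft (netH b m hm hb).L y v ^ 2 =
        ∑ k, y k ^ 2 + ∑ i, (∑ k, (m i k : ℝ) * y k) ^ 2 := by
      rw [Fintype.sum_sum_type, Fintype.sum_sum_type]
      refine congrArg₂ (· + ·) ?_ ?_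
      · refine Finset.sum_congr rfl fun k _ => ?_
        change ((1 : ℕ) : ℝ) * y k ^ 2 = y k ^ 2
        rw [Nat.cast_one, one_mul]
      · rw [Finset.sum_eq_zero, zero_add]
        · refine Finset.sum_congr rfl fun i _ => ?_
          change ((1 : ℕ) : ℝ) * (∑ k, (m i k : ℝ) * y k) ^ 2 = _
          rw [Nat.cast_one, one_mul]
        · intro n _
          change ((0 : ℕ) : ℝ) * _ = 0
          rw [Nat.cast_zero, zero_mul]
    rw [e1]
  rw [e] at h hw
  exact ⟨hw, h⟩

end con

end Pool.Agent.H776
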