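import Pool.Agent.H776.Grid2
import Pool.Agent.H776.AllLC

/-!
# From Gaussian measures on orthants with interactions on a graph to all log-concave measures
-/

set_option autoImplicit false

namespace Pool.Agent.H776

open MeasureTheory Set Filter Topology
open scoped ENNReal InnerProductSpace Matrix

theorem cg_gq {κ : Type} [Fintype κ] {g : Eu κ → ℝ} (h : CG g) :
    ∃ Q : Matrix κ κ ℝ, Q.PosDef ∧ nm g = nm (gq Q) := by
  classical
  obtain ⟨F, _, A, c, hc, hA, hge⟩ := h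
  obtain ⟨Q, hQ, -, hQA⟩ := exists_matrix A hA
  refine ⟨Q, hQ, ?_⟩
  rw [← nm_const_mul hc.ne' (gq Q)]
  congr 1
  funext y
  rw [hge]
  unfold gq
  have e : qf Q y = ‖A y‖ ^ 2 := (hQA y).symm
  rw [e]
  by_cases hy : ∀ i, 0 ≤ y i
  · rw [if_pos hy, if_pos hy]
  · rw [if_neg hy, if_neg hy, mul_zero]

/-- all log-concave measures from the Gaussian measures on orthants -/
theorem kp_univ {D : ℝ} (hD : 0 ≤ D)
    (H : ∀ (N : ℕ) (Q : Matrix (Fin N) (Fin N) ℝ), Q.PosDef → KP (nm (gq Q)) D)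
    {n : ℕ} {g : Eu (Fin n) → ℝ} (hg : Q289.LD.Den g) : KP (nm g) D := by
  have hCG : ∀ (κ' : Type) [Fintype κ'] (g : Eu κ' → ℝ), CG g → Wt g → KP (nm g) D := by
    intro κ' _ g hcg _
    obtain ⟨Q, hQ, e⟩ := cg_gq hcg
    rw [e]
    refine kp_reindex (Fintype.equivFin κ').symm hQ hD (H _ _ ?_)
    exact hQ.submatrix (Fintype.equivFin κ').symm.injective
  refine kp_all hD (fun J _ _ a b c0 C0 hc0 hlow => ?_) hg
  exact kp_mx hD (fun κ' _ g hng hwg => kp_ng hD hCG hng hwg) hc0 hlow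

/-- `H` is a minor of `G` -/
def HasMinor {V₁ V₂ : Type} (G : SimpleGraph V₂) (H : SimpleGraph V₁) : Prop :=
  ∃ f : V₂ → Option V₁, (∀ v, (G.induce {u | f u = some v}).Connected) ∧
    ∀ a b, H.Adj a b → ∃ u v, f u = some a ∧ f v = some b ∧ G.Adj u v

theorem HasMinor.minor {V₁ V₂ : Type} {G : SimpleGraph V₂} {H : SimpleGraph V₁}
    (h : HasMinor G H) : ∃ f, Minor G H f := by
  obtain ⟨f, h1, h2⟩ := h
  refine ⟨f, fun v => ?_, h2⟩
  obtain ⟨r, hr⟩ := (h1 v).nonempty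
  refine ⟨r, hr, fun u hu => ?_⟩
  have h3 := (h1 v).preconnected ⟨r, hr⟩ ⟨u, hu⟩
  rw [SimpleGraph.reachable_iff_reflTransGen] at h3
  have h4 : ∀ x y : {u | f u = some v}, Relation.ReflTransGen (G.induce {u | f u = some v}).Adj x y →
      Relation.ReflTransGen (fun x y => G.Adj x y ∧ f x = some v ∧ f y = some v) (x : V₂) y := by
    intro x y hxy
    induction hxy with
    | refl => exact Relation.ReflTransGen.refl
    | @tail b c _ h5 ih => exact ih.tail ⟨h5, b.2, c.2⟩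
  exact h4 _ _ h3

/-- all log-concave measures from the Gaussian measures on orthants with interactions on graphs which
have large grids as minors -/
theorem kp_rich {D : ℝ} (hD : 0 ≤ D) (𝒢 : (n : ℕ) → Set (SimpleGraph (Fin n)))
    (hrich : ∀ k, ∃ n, ∃ G ∈ 𝒢 n, HasMinor G (grid k))
    (H : ∀ (n : ℕ), ∀ G ∈ 𝒢 n, ∀ Q : Matrix (Fin n) (Fin n) ℝ, Q.PosDef → Supp G Q →
      KP (nm (gq Q)) D)
    {n : ℕ} {g : Eu (Fin n) → ℝ} (hg : Q289.LD.Den g) : KP (nm g) D := by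
  refine kp_univ hD (fun N Q hQ => ?_) hg
  obtain ⟨m, G, hG, hm⟩ := hrich (N * 3)
  obtain ⟨f, hf⟩ := hm.minor
  refine kp_grid hD (fun Q' hQ' hs' => ?_) hQ
  exact kp_minor hf hD (H m G hG) hQ' hs'

end Pool.Agent.H776
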