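import Pool.Agent.H776.HNet5
import Pool.Agent.H776.Univ

/-!
# All log-concave measures from Horn polytopes
-/

set_option autoImplicit false

namespace Pool.Agent.H776

open MeasureTheory Set Filter Topology
open scoped ENNReal InnerProductSpace

section rnd

variable {κ : Type} [Fintype κ]

/-- rounded coefficients -/
noncomputable def mr (a : κ → κ → ℝ) (n : ℕ) (i k : κ) : ℤ := round ((n : ℝ) * a i k)

omit [Fintype κ] in
theorem mr_near (a : κ → κ → ℝ) {n : ℕ} (hn : 0 < n) (i k : κ) :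
    |(n : ℝ)⁻¹ * (mr a n i k : ℝ) - a i k| ≤ (n : ℝ)⁻¹ := by
  have hn' : (0 : ℝ) < n := by exact_mod_cast hn
  have h1 := abs_sub_round ((n : ℝ) * a i k)
  have e : (n : ℝ)⁻¹ * (mr a n i k : ℝ) - a i k =
      (n : ℝ)⁻¹ * -((n : ℝ) * a i k - (round ((n : ℝ) * a i k) : ℝ)) := by
    unfold mr
    field_simp
    ring
  rw [e, abs_mul, abs_neg, abs_of_pos (inv_pos.2 hn')]
  refine mul_le_of_le_one_right (inv_pos.2 hn').le (h1.trans (by norm_num))

/-- the rounded quadratic form -/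
noncomputable def qr (a : κ → κ → ℝ) (n : ℕ) (y : κ → ℝ) : ℝ :=
  ∑ k, ((n : ℝ)⁻¹ * y k) ^ 2 + ∑ i, (∑ k, ((n : ℝ)⁻¹ * (mr a n i k : ℝ)) * y k) ^ 2

theorem qr_lim (a : κ → κ → ℝ) (y : κ → ℝ) :
    Tendsto (fun n : ℕ => qr a n y) atTop (𝓝 (∑ i, (∑ k, a i k * y k) ^ 2)) := by
  have h0 : Tendsto (fun n : ℕ => (n : ℝ)⁻¹) atTop (𝓝 0) := tendsto_inv_atTop_nhds_zero_nat
  have h1 : ∀ i k, Tendsto (fun n : ℕ => (n : ℝ)⁻¹ * (mr a n i k : ℝ)) atTop (𝓝 (a i k)) := by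
    intro i k
    rw [tendsto_iff_dist_tendsto_zero]
    refine squeeze_zero' (Eventually.of_forall fun n => dist_nonneg) ?_ h0
    filter_upwards [eventually_gt_atTop 0] with n hn
    rw [Real.dist_eq]
    exact mr_near a hn i k
  have h2 : Tendsto (fun n : ℕ => qr a n y) atTop (𝓝 (∑ k, ((0 : ℝ) * y k) ^ 2 +
      ∑ i, (∑ k, a i k * y k) ^ 2)) :=
    (tendsto_finsetSum _ fun k _ => (h0.mul_const (y k)).pow 2).add
      (tendsto_finsetSum _ fun i _ => (tendsto_finsetSum _ fun k _ =>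
        (h1 i k).mul_const (y k)).pow 2)
  simpa using h2

theorem qr_low (a : κ → κ → ℝ) {q : ℝ} (hq : 0 < q)
    (hA : ∀ y : Eu κ, (q * ‖y‖) ^ 2 ≤ ∑ i, (∑ k, a i k * y k) ^ 2) :
    ∀ᶠ n : ℕ in atTop, ∀ y : Eu κ, (q / 2 * ‖y‖) ^ 2 ≤ qr a n y := by
  have h0 : Tendsto (fun n : ℕ => (Fintype.card κ : ℝ) * ((Fintype.card κ : ℝ) * (n : ℝ)⁻¹) ^ 2)
      atTop (𝓝 ((Fintype.card κ : ℝ) * ((Fintype.card κ : ℝ) * 0) ^ 2)) :=
    ((tendsto_inv_atTop_nhds_zero_nat.const_mul _).pow 2).const_mul _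
  rw [mul_zero, zero_pow two_ne_zero, mul_zero] at h0
  filter_upwards [eventually_gt_atTop 0, h0.eventually (gt_mem_nhds
    (show (0 : ℝ) < q ^ 2 / 4 by positivity))] with n hn hs
  intro y
  have h1 := hA y
  have h2 : ∀ i, (∑ k, a i k * y k) ^ 2 ≤
      2 * (∑ k, ((n : ℝ)⁻¹ * (mr a n i k : ℝ)) * y k) ^ 2 +
        2 * (((Fintype.card κ : ℝ) * (n : ℝ)⁻¹) * ‖y‖) ^ 2 := by
    intro i
    have h3 : |∑ k, ((n : ℝ)⁻¹ * (mr a n i k : ℝ) - a i k) * y k| ≤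
        ((Fintype.card κ : ℝ) * (n : ℝ)⁻¹) * ‖y‖ := by
      refine (Finset.abs_sum_le_sum_abs _ _).trans ?_
      calc ∑ k, |((n : ℝ)⁻¹ * (mr a n i k : ℝ) - a i k) * y k| ≤
            ∑ _k : κ, (n : ℝ)⁻¹ * ‖y‖ := by
            refine Finset.sum_le_sum fun k _ => ?_
            rw [abs_mul]
            exact mul_le_mul (mr_near a hn i k) (abs_le_norm y k) (abs_nonneg _)
              (by positivity)
        _ = _ := by
            rw [Finset.sum_const, Finset.card_univ, nsmul_eq_mul]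
            ring
    have h4 : ∑ k, a i k * y k = (∑ k, ((n : ℝ)⁻¹ * (mr a n i k : ℝ)) * y k) -
        ∑ k, ((n : ℝ)⁻¹ * (mr a n i k : ℝ) - a i k) * y k := by
      rw [← Finset.sum_sub_distrib]
      exact Finset.sum_congr rfl fun k _ => by ring
    have h5 := pow_le_pow_left₀ (abs_nonneg _) h3 2
    rw [sq_abs] at h5
    rw [h4]
    nlinarith [sq_nonneg ((∑ k, ((n : ℝ)⁻¹ * (mr a n i k : ℝ)) * y k) +
      ∑ k, ((n : ℝ)⁻¹ * (mr a n i k : ℝ) - a i k) * y k)]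
  have h3 := Finset.sum_le_sum fun i (_ : i ∈ (Finset.univ : Finset κ)) => h2 i
  rw [Finset.sum_add_distrib, ← Finset.mul_sum, Finset.sum_const, Finset.card_univ,
    nsmul_eq_mul] at h3
  have h4 : 0 ≤ ∑ k, ((n : ℝ)⁻¹ * y k) ^ 2 := by positivity
  have h5 : (Fintype.card κ : ℝ) * (2 * (((Fintype.card κ : ℝ) * (n : ℝ)⁻¹) * ‖y‖) ^ 2) ≤
      2 * (q ^ 2 / 4) * ‖y‖ ^ 2 := by
    have e : (Fintype.card κ : ℝ) * (2 * (((Fintype.card κ : ℝ) * (n : ℝ)⁻¹) * ‖y‖) ^ 2) =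
        2 * ((Fintype.card κ : ℝ) * ((Fintype.card κ : ℝ) * (n : ℝ)⁻¹) ^ 2) * ‖y‖ ^ 2 := by ring
    rw [e]
    exact mul_le_mul_of_nonneg_right (mul_le_mul_of_nonneg_left hs.le (by norm_num))
      (sq_nonneg _)
  unfold qr
  nlinarith

theorem gz_dil (a : κ → κ → ℝ) {n : ℕ} (hn : 0 < n) (y : Eu κ) :
    gz (mr a n) ((n : ℝ)⁻¹ • y) = if ∀ i, 0 ≤ y i then Real.exp (-(1 / 2 * qr a n y)) else 0 := by
  have hn' : (0 : ℝ) < (n : ℝ)⁻¹ := inv_pos.2 (by exact_mod_cast hn)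
  have e1 : (∀ i, 0 ≤ ((n : ℝ)⁻¹ • y) i) ↔ ∀ i, 0 ≤ y i := by
    refine forall_congr' fun i => ?_
    rw [PiLp.smul_apply, smul_eq_mul]
    exact mul_nonneg_iff_of_pos_left hn'
  have e2 : ∑ k, ((n : ℝ)⁻¹ • y) k ^ 2 + ∑ i, (∑ k, (mr a n i k : ℝ) * ((n : ℝ)⁻¹ • y) k) ^ 2 =
      qr a n y := by
    unfold qr
    refine congrArg₂ (· + ·) ?_ ?_
    · exact Finset.sum_congr rfl fun k _ => by rw [PiLp.smul_apply, smul_eq_mul]
    · refine Finset.sum_congr rfl fun i _ => congrArg (fun r => r ^ 2) ?_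
      refine Finset.sum_congr rfl fun k _ => ?_
      rw [PiLp.smul_apply, smul_eq_mul]
      ring
  unfold gz
  rw [e2]
  by_cases h : ∀ i, 0 ≤ y i
  · rw [if_pos h, if_pos (e1.2 h)]
  · rw [if_neg h, if_neg fun h' => h (e1.1 h')]

open Matrix in
/-- all Gaussian measures on orthants from those with integral quadratic forms -/
theorem kp_round {D : ℝ} (hD : 0 ≤ D)
    (H : ∀ m : κ → κ → ℤ, Wt (gz m) ∧ KP (nm (gz m)) D) {Q : Matrix κ κ ℝ} (hQ : Q.PosDef) :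
    KP (nm (gq Q)) D := by
  classical
  obtain ⟨A, hA, hx⟩ := exists_map hQ
  obtain ⟨q, hq, hqA⟩ := exists_q hA
  set a : κ → κ → ℝ := fun i k => A (EuclideanSpace.single k 1) i with ha
  have hAy : ∀ (y : Eu κ) (i : κ), A y i = ∑ k, a i k * y k := by
    intro y i
    have h1 : y = ∑ k, y k • EuclideanSpace.single k (1 : ℝ) := by
      ext j
      simp [Finset.sum_apply, Pi.single_apply]
    conv_lhs => rw [h1, map_sum]
    simp only [map_smul, ha]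
    rw [WithLp.ofLp_sum, Finset.sum_apply]
    refine Finset.sum_congr rfl fun k _ => ?_
    rw [PiLp.smul_apply, smul_eq_mul, mul_comm]
  have hAs : ∀ y : Eu κ, ∑ i, (∑ k, a i k * y k) ^ 2 = qf Q y := by
    intro y
    have h1 : qf Q y = ‖A y‖ ^ 2 := (hx y).symm
    rw [h1, EuclideanSpace.norm_sq_eq]
    refine Finset.sum_congr rfl fun i _ => ?_
    rw [Real.norm_eq_abs, sq_abs, hAy]
  have hlow : ∀ y : Eu κ, (q * ‖y‖) ^ 2 ≤ ∑ i, (∑ k, a i k * y k) ^ 2 := by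
    intro y
    rw [hAs]
    have h1 : qf Q y = ‖A y‖ ^ 2 := (hx y).symm
    rw [h1]
    exact pow_le_pow_left₀ (by positivity) (hqA y) 2
  have hw := wt_gq hQ
  have hprob := hw.prob
  have hgm : ∀ m : κ → κ → ℤ, Measurable (gz m) := fun m => (H m).1.meas
  have hdom : ∀ {n : ℕ} (y : Eu κ), (q / 2 * ‖y‖) ^ 2 ≤ qr a n y →
      Real.exp (-(1 / 2 * qr a n y)) ≤
        Real.exp (1 / (2 * (q / 2) ^ 2)) * Real.exp (-(1 * ‖y‖)) := by
    intro n y hy
    rw [← Real.exp_add]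
    refine Real.exp_le_exp.2 ?_
    have h2 : ‖y‖ ≤ (q / 2 * ‖y‖) ^ 2 / 2 + 1 / (2 * (q / 2) ^ 2) := by
      have h3 : 0 ≤ (q / 2 * ‖y‖ - (q / 2)⁻¹) ^ 2 := sq_nonneg _
      have h4 : (q / 2 * ‖y‖ - (q / 2)⁻¹) ^ 2 = (q / 2 * ‖y‖) ^ 2 - 2 * ‖y‖ + 1 / (q / 2) ^ 2 := by
        field_simp
        ring
      have h5 : 1 / (2 * (q / 2) ^ 2) = 1 / (q / 2) ^ 2 / 2 := by
        field_simp
      rw [h4] at h3
      rw [h5]
      linarith
    linarith
  have hW := W2.of_dom (l := (atTop : Filter ℕ)) (g := fun n y => gz (mr a n) ((n : ℝ)⁻¹ • y))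
    (g' := gq Q) (h := fun y => Real.exp (1 / (2 * (q / 2) ^ 2)) * Real.exp (-(1 * ‖y‖)))
    (Eventually.of_forall fun n x => (H _).1.nonneg _)
    (Eventually.of_forall fun n => (hgm _).comp (by fun_prop)) hw ?_ mq_int ?_
  · refine KP.lim hW.2 hD ?_
    filter_upwards [eventually_gt_atTop 0] with n hn
    have hn' : (0 : ℝ) < (n : ℝ)⁻¹ := inv_pos.2 (by exact_mod_cast hn)
    have := (H (mr a n)).1.prob
    rw [nm_dilate (H _).1.nonneg (hgm _) hn']
    exact (H _).2.affine (H _).1.int_sq (inv_pos.2 hn') 0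
  · filter_upwards [eventually_gt_atTop 0, qr_low a hq hlow] with n hn h1
    intro y
    rw [gz_dil a hn]
    split_ifs
    · exact hdom y (h1 y)
    · positivity
  · refine Eventually.of_forall fun y => ?_
    have h1 : Tendsto (fun n : ℕ => if ∀ i, 0 ≤ y i then Real.exp (-(1 / 2 * qr a n y)) else 0)
        atTop (𝓝 (gq Q y)) := by
      unfold gq
      by_cases hy : ∀ i, 0 ≤ y i
      · simp only [if_pos hy]
        have h2 := (Real.continuous_exp.tendsto _).comp (((qr_lim a y).const_mul (1 / 2)).neg)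
        rw [hAs] at h2
        refine (h2.congr fun n => rfl).trans (le_of_eq ?_)
        congr 2
        ring
      · simp only [if_neg hy]
        exact tendsto_const_nhds
    refine h1.congr' ?_
    filter_upwards [eventually_gt_atTop 0] with n hn
    exact (gz_dil a hn y).symm

end rnd

/-- the inequality on one-point spaces -/
theorem kp_zero {μ : Measure (Eu (Fin 0))} [IsProbabilityMeasure μ] {D : ℝ} (hD : 0 ≤ D) :
    KP μ D := by
  intro s hs _ f B L hf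
  have h1 : ∀ x, f x = f 0 := fun x => by rw [Subsingleton.elim x 0]
  have e1 : ∫ x, f x ^ 2 ∂μ = f 0 ^ 2 := by
    simp only [h1, integral_const, probReal_univ, one_smul]
  have e2 : ∫ x, f x ∂μ = f 0 := by
    simp only [h1, integral_const, probReal_univ, one_smul]
  rw [e1, e2]
  have h2 : 0 ≤ ∫ x, ‖fderiv ℝ f x‖ ^ 2 ∂μ := integral_nonneg fun x => sq_nonneg _
  have h3 : 0 ≤ D * s * ∫ x, ‖fderiv ℝ f x‖ ^ 2 ∂μ := mul_nonneg (mul_nonneg hD hs.le) h2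
  linarith

/-- **all log-concave measures from Horn polytopes** -/
theorem kp_horn {D : ℝ} (hD : 0 ≤ D)
    (HH : ∀ (σ : Type) [Fintype σ] (K : Set (Eu σ)), IsHP K → CB K →
      KP (nm (K.indicator fun _ => (1 : ℝ))) D)
    {n : ℕ} {g : Eu (Fin n) → ℝ} (hg : Q289.LD.Den g) : KP (nm g) D := by
  refine kp_univ hD (fun N Q hQ => ?_) hg
  rcases N with _ | N
  · have := (wt_gq hQ).prob
    exact kp_zero hD
  · exact kp_round hD (fun m => kp_gz hD HH m) hQ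

end Pool.Agent.H776
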