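import Pool.Agent.H776.Amp4
import Pool.Agent.H776.Body

/-!
# Linear relaxations of Horn formulas with at most three literals per clause
-/

set_option autoImplicit false

namespace Pool.Agent.H776

open MeasureTheory Set Filter Topology
open scoped ENNReal InnerProductSpace

/-- Horn clauses with two or three literals -/
inductive Cl (σ : Type) : Type
  | imp (i j : σ) : Cl σ
  | exc (i j : σ) : Cl σ
  | tri (i j k : σ) : Cl σ

/-- the linear relaxation of a clause -/
def Cl.sat {σ : Type} (x : σ → ℝ) : Cl σ → Prop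
  | Cl.imp i j => x i ≤ x j
  | Cl.exc i j => x i + x j ≤ 1
  | Cl.tri i j k => x i + x j ≤ 1 + x k

/-- renaming of variables -/
def Cl.map {σ τ : Type} (f : σ → τ) : Cl σ → Cl τ
  | Cl.imp i j => Cl.imp (f i) (f j)
  | Cl.exc i j => Cl.exc (f i) (f j)
  | Cl.tri i j k => Cl.tri (f i) (f j) (f k)

/-- the variables of the clause are distinct -/
def Cl.ok {σ : Type} : Cl σ → Prop
  | Cl.imp i j => i ≠ j
  | Cl.exc i j => i ≠ j
  | Cl.tri i j k => i ≠ j ∧ i ≠ k ∧ j ≠ k

theorem Cl.ok_map {σ τ : Type} {f : σ → τ} (hf : Function.Injective f) {c : Cl σ} (h : c.ok) :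
    (c.map f).ok := by
  cases c with
  | imp i j => exact hf.ne h
  | exc i j => exact hf.ne h
  | tri i j k => exact ⟨hf.ne h.1, hf.ne h.2.1, hf.ne h.2.2⟩

theorem Cl.sat_map {σ τ : Type} (f : σ → τ) (x : τ → ℝ) (c : Cl σ) :
    (c.map f).sat x ↔ c.sat fun i => x (f i) := by
  cases c <;> rfl

section hp

variable {σ : Type} [Fintype σ]

/-- the polytope of a formula -/
def HP (C : Set (Cl σ)) : Set (Eu σ) := {x | (∀ i, 0 ≤ x i ∧ x i ≤ 1) ∧ ∀ c ∈ C, c.sat x}

theorem Cl.sat_closed (c : Cl σ) : IsClosed {x : Eu σ | c.sat x} := by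
  cases c with
  | imp i j => exact isClosed_le (by fun_prop) (by fun_prop)
  | exc i j => exact isClosed_le (by fun_prop) (by fun_prop)
  | tri i j k => exact isClosed_le (by fun_prop) (by fun_prop)

theorem HP_closed (C : Set (Cl σ)) : IsClosed (HP C) := by
  have h1 : IsClosed {x : Eu σ | ∀ i, 0 ≤ x i ∧ x i ≤ 1} := cube_compact.isClosed
  have h2 : IsClosed {x : Eu σ | ∀ c ∈ C, c.sat x} := by
    have e : {x : Eu σ | ∀ c ∈ C, c.sat x} = ⋂ c ∈ C, {x : Eu σ | c.sat x} := by
      ext x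
      simp
    rw [e]
    exact isClosed_biInter fun c _ => c.sat_closed
  exact h1.inter h2

theorem HP_compact (C : Set (Cl σ)) : IsCompact (HP C) :=
  (cube_compact (J := σ)).of_isClosed_subset (HP_closed C) fun _ hx => hx.1

theorem HP_convex (C : Set (Cl σ)) : Convex ℝ (HP C) := by
  intro x hx y hy a b ha hb hab
  refine ⟨fun i => ?_, fun c hc => ?_⟩
  · simp only [PiLp.add_apply, PiLp.smul_apply, smul_eq_mul]
    have h1 := hx.1 i
    have h2 := hy.1 i
    constructor
    · exact add_nonneg (mul_nonneg ha h1.1) (mul_nonneg hb h2.1)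
    · nlinarith [mul_le_mul_of_nonneg_left h1.2 ha, mul_le_mul_of_nonneg_left h2.2 hb]
  · have h1 := hx.2 c hc
    have h2 := hy.2 c hc
    cases c with
    | imp i j =>
      simp only [Cl.sat, PiLp.add_apply, PiLp.smul_apply, smul_eq_mul] at h1 h2 ⊢
      nlinarith [mul_le_mul_of_nonneg_left h1 ha, mul_le_mul_of_nonneg_left h2 hb]
    | exc i j =>
      simp only [Cl.sat, PiLp.add_apply, PiLp.smul_apply, smul_eq_mul] at h1 h2 ⊢
      nlinarith [mul_le_mul_of_nonneg_left h1 ha, mul_le_mul_of_nonneg_left h2 hb]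
    | tri i j k =>
      simp only [Cl.sat, PiLp.add_apply, PiLp.smul_apply, smul_eq_mul] at h1 h2 ⊢
      nlinarith [mul_le_mul_of_nonneg_left h1 ha, mul_le_mul_of_nonneg_left h2 hb]

theorem HP_cb {C : Set (Cl σ)} (h : (interior (HP C)).Nonempty) : CB (HP C) :=
  ⟨HP_compact C, h, fun _ hs => hs.1⟩

theorem HP_body {C : Set (Cl σ)} (h : (interior (HP C)).Nonempty) : Body (HP C) :=
  ⟨HP_compact C, HP_convex C, h⟩

/-- the class of these polytopes -/
def IsHP (K : Set (Eu σ)) : Prop := ∃ C : Set (Cl σ), (∀ c ∈ C, c.ok) ∧ K = HP C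

theorem Amp_hp {κ : Type} [Fintype κ] {K : Set (Eu σ)} {v : κ → σ} {M : ℕ} (h : IsHP K) :
    IsHP (Amp K v M) := by
  obtain ⟨C, hC, rfl⟩ := h
  refine ⟨(Cl.map Sum.inl '' C ∪
    range (fun r : Fin (M ^ 2) => Cl.imp (Sum.inr (Sum.inr (Sum.inl r))) (Sum.inr (Sum.inl ())))) ∪
    (range (fun c : κ × Fin M => Cl.imp (Sum.inr (Sum.inr (Sum.inr c))) (Sum.inl (v c.1))) ∪
    range (fun c : κ × Fin M => Cl.tri (Sum.inl (v c.1)) (Sum.inr (Sum.inl ()))
      (Sum.inr (Sum.inr (Sum.inr c))))), ?_, ?_⟩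
  · intro c hc
    rcases hc with (⟨c, hc, rfl⟩ | ⟨r, rfl⟩) | (⟨c, rfl⟩ | ⟨c, rfl⟩)
    · exact Cl.ok_map Sum.inl_injective (hC c hc)
    · simp [Cl.ok]
    · simp [Cl.ok]
    · simp [Cl.ok]
  ext y
  obtain ⟨p, rfl⟩ := (ecA σ κ M).surjective y
  have e : ecA σ κ M p ∈ Amp (HP C) v M ↔ p ∈ SF (aB (HP C)) (alo v M) (ahi v M) := by
    unfold Amp
    rw [mem_preimage, ContinuousLinearEquiv.symm_apply_apply]
  rw [e]
  constructor
  · intro hp
    have h1 := hp.1.1
    have h2 := hp.1.2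
    have h3 : ∀ r : Fin (M ^ 2), 0 ≤ p.2 (Sum.inl r) ∧ p.2 (Sum.inl r) ≤ p.1.2 := fun r =>
      hp.2 (Sum.inl r)
    have h4 : ∀ c : κ × Fin M, max 0 (p.1.1 (v c.1) + p.1.2 - 1) ≤ p.2 (Sum.inr c) ∧
        p.2 (Sum.inr c) ≤ p.1.1 (v c.1) := fun c => hp.2 (Sum.inr c)
    refine ⟨fun i => ?_, fun c hc => ?_⟩
    · rcases i with i | i | r | c
      · exact h1.1 i
      · exact h2
      · exact ⟨(h3 r).1, (h3 r).2.trans h2.2⟩
      · exact ⟨(le_max_left _ _).trans (h4 c).1, (h4 c).2.trans (h1.1 _).2⟩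
    · rcases hc with (hc | hc) | (hc | hc)
      · obtain ⟨c, hc, rfl⟩ := hc
        rw [Cl.sat_map]
        exact h1.2 c hc
      · obtain ⟨r, rfl⟩ := hc
        exact (h3 r).2
      · obtain ⟨c, rfl⟩ := hc
        exact (h4 c).2
      · obtain ⟨c, rfl⟩ := hc
        have h5 := (le_max_right _ _).trans (h4 c).1
        change p.1.1 (v c.1) + p.1.2 ≤ 1 + p.2 (Sum.inr c)
        linarith
  · intro hp
    refine ⟨⟨⟨fun i => hp.1 (Sum.inl i), fun c hc => ?_⟩, hp.1 (Sum.inr (Sum.inl ()))⟩, fun j => ?_⟩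
    · have h1 := hp.2 _ (Or.inl (Or.inl (mem_image_of_mem _ hc)))
      rw [Cl.sat_map] at h1
      exact h1
    · rcases j with r | c
      · exact ⟨(hp.1 (Sum.inr (Sum.inr (Sum.inl r)))).1,
          hp.2 _ (Or.inl (Or.inr (mem_range_self r)))⟩
      · refine ⟨max_le (hp.1 (Sum.inr (Sum.inr (Sum.inr c)))).1 ?_,
          hp.2 _ (Or.inr (Or.inl (mem_range_self c)))⟩
        have h1 := hp.2 _ (Or.inr (Or.inr (mem_range_self c)))
        change p.1.1 (v c.1) + p.1.2 ≤ 1 + p.2 (Sum.inr c) at h1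
        change p.1.1 (v c.1) + p.1.2 - 1 ≤ p.2 (Sum.inr c)
        linarith

end hp

section wgt

variable {σ κ I : Type} [Fintype σ] [Fintype κ] [Fintype I]

/-- values of literals -/
def lv (l : σ × Bool) (s : σ → ℝ) : ℝ := if l.2 then s l.1 else 1 - s l.1

/-- blocks as a continuous linear equivalence -/
noncomputable def mkEL (κ κ' : Type) [Fintype κ] [Fintype κ'] :
    (Eu κ × Eu κ') ≃L[ℝ] Eu (κ ⊕ κ') := mkE.toContinuousLinearEquiv

theorem mkEL_apply (p : Eu σ × Eu I) : mkEL σ I p = mk p.1 p.2 := rfl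

theorem mkEL_symm (y : Eu (σ ⊕ I)) : (mkEL σ I).symm y = (pl y, pr y) := rfl

/-- copies of literals -/
def CP (K : Set (Eu σ)) (l : I → σ × Bool) : Set (Eu (σ ⊕ I)) :=
  (mkEL σ I).symm ⁻¹' SF K (fun _ _ => 0) (fun i s => lv (l i) s)

variable {K : Set (Eu σ)} {l : I → σ × Bool}

theorem lv_cont (a : σ × Bool) : Continuous fun s : Eu σ => lv a s := by
  unfold lv
  cases a.2 <;> simp <;> fun_prop

theorem lv_mem (hK : CB K) (a : σ × Bool) {s : Eu σ} (hs : s ∈ K) : 0 ≤ lv a s ∧ lv a s ≤ 1 := by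
  have h := hK.cube s hs a.1
  unfold lv
  cases a.2
  · simp only [Bool.false_eq_true, if_false]
    constructor <;> linarith [h.1, h.2]
  · simp only [if_true]
    exact h

theorem lv_pos (hK : CB K) (a : σ × Bool) {s : Eu σ} (hs : s ∈ interior K) : 0 < lv a s := by
  have h := hK.strict hs a.1
  unfold lv
  cases a.2
  · simp only [Bool.false_eq_true, if_false]
    linarith [h.2]
  · simp only [if_true]
    exact h.1

omit [Fintype I] in
theorem cpFib (hK : CB K) : FibD K (fun (_ : I) _ => 0) (fun i s => lv (l i) s) :=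
  ⟨hK.cpt, fun _ => continuous_const, fun _ => lv_cont _, fun _ _ _ => le_rfl,
    fun _ hs _ => (lv_mem hK _ hs).1, fun _ hs _ => (lv_mem hK _ hs).2⟩

theorem CP_cb (hK : CB K) : CB (CP K l) := by
  have hF := cpFib (l := l) hK
  refine ⟨?_, ?_, fun y hy i => ?_⟩
  · exact (mkEL σ I).symm.toHomeomorph.isClosedEmbedding.isCompact_preimage (SF_compact hF)
  · obtain ⟨s, hs⟩ := hK.int
    set U : Set (Eu σ × Eu I) := {p | p.1 ∈ interior K ∧ ∀ j, 0 < p.2 j ∧ p.2 j < lv (l j) p.1} with hU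
    have hUo : IsOpen U := by
      have o1 : IsOpen {p : Eu σ × Eu I | p.1 ∈ interior K} :=
        isOpen_interior.preimage continuous_fst
      have o4 : IsOpen {p : Eu σ × Eu I | ∀ j, 0 < p.2 j ∧ p.2 j < lv (l j) p.1} := by
        rw [ofPred_forall]
        refine isOpen_iInter_of_finite fun j => ?_
        have h4 := lv_cont (l j)
        change IsOpen ({p : Eu σ × Eu I | 0 < p.2 j} ∩
          {p : Eu σ × Eu I | p.2 j < lv (l j) p.1})
        exact (isOpen_lt (by fun_prop) (by fun_prop)).inter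
          (isOpen_lt (by fun_prop) (h4.comp continuous_fst))
      exact o1.inter o4
    have hUs : U ⊆ SF K (fun _ _ => 0) (fun i s => lv (l i) s) := fun p hp =>
      ⟨interior_subset hp.1, fun j => ⟨(hp.2 j).1.le, (hp.2 j).2.le⟩⟩
    refine ⟨mkEL σ I (s, WithLp.toLp 2 fun j => lv (l j) s / 2), ?_⟩
    rw [mem_interior]
    refine ⟨(mkEL σ I).symm ⁻¹' U, fun y hy => hUs hy, hUo.preimage
      (mkEL σ I).symm.continuous, ?_⟩
    rw [mem_preimage, ContinuousLinearEquiv.symm_apply_apply]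
    refine ⟨hs, fun j => ?_⟩
    have := lv_pos hK (l j) hs
    constructor
    · change 0 < lv (l j) s / 2
      linarith
    · change lv (l j) s / 2 < lv (l j) s
      linarith
  · have h2 : (mkEL σ I).symm y ∈ SF K (fun _ _ => 0) (fun i s => lv (l i) s) := hy
    rw [mkEL_symm] at h2
    rcases i with i | j
    · exact hK.cube _ h2.1 i
    · exact ⟨(h2.2 j).1, (h2.2 j).2.trans (lv_mem hK _ h2.1).2⟩

theorem CP_ind (p : Eu σ × Eu I) : (CP K l).indicator (fun _ => (1 : ℝ)) (mkEL σ I p) =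
    wF K (fun _ _ => 0) (fun i s => lv (l i) s) p := by
  unfold wF CP
  have h : (mkEL σ I).symm (mkEL σ I p) = p := ContinuousLinearEquiv.symm_apply_apply _ _
  by_cases hp : p ∈ SF K (fun _ _ => 0) (fun i s => lv (l i) s)
  · rw [indicator_of_mem hp, indicator_of_mem]
    rw [mem_preimage, h]
    exact hp
  · rw [indicator_of_notMem hp, indicator_of_notMem]
    rw [mem_preimage, h]
    exact hp

theorem CP_hp (h : IsHP K) : IsHP (CP K l) := by
  obtain ⟨C, hC, rfl⟩ := h
  refine ⟨Cl.map Sum.inl '' C ∪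
    range (fun i : I => if (l i).2 then Cl.imp (Sum.inr i) (Sum.inl (l i).1)
      else Cl.exc (Sum.inr i) (Sum.inl (l i).1)), ?_, ?_⟩
  · intro c hc
    rcases hc with ⟨c, hc, rfl⟩ | ⟨i, rfl⟩
    · exact Cl.ok_map Sum.inl_injective (hC c hc)
    · by_cases hb : (l i).2 = true
      · simp [hb, Cl.ok]
      · simp [hb, Cl.ok]
  ext y
  have e : y ∈ CP (HP C) l ↔ (pl y ∈ HP C ∧ ∀ i, 0 ≤ y (Sum.inr i) ∧
    y (Sum.inr i) ≤ lv (l i) (pl y)) := Iff.rfl
  rw [e]
  constructor
  · intro hp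
    refine ⟨fun i => ?_, fun c hc => ?_⟩
    · rcases i with i | i
      · exact hp.1.1 i
      · refine ⟨(hp.2 i).1, (hp.2 i).2.trans ?_⟩
        have h1 := hp.1.1 (l i).1
        unfold lv
        cases (l i).2
        · simp only [Bool.false_eq_true, if_false]
          linarith [h1.1]
        · simp only [if_true]
          exact h1.2
    · rcases hc with hc | hc
      · obtain ⟨c, hc, rfl⟩ := hc
        rw [Cl.sat_map]
        exact hp.1.2 c hc
      · obtain ⟨i, rfl⟩ := hc
        have h1 := (hp.2 i).2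
        unfold lv at h1
        rcases hb : (l i).2 with _ | _
        · simp only [hb, Bool.false_eq_true, if_false] at h1 ⊢
          change y (Sum.inr i) + y (Sum.inl (l i).1) ≤ 1
          change y (Sum.inr i) ≤ 1 - y (Sum.inl (l i).1) at h1
          linarith
        · simp only [hb, if_true] at h1 ⊢
          exact h1
  · intro hp
    refine ⟨⟨fun i => hp.1 (Sum.inl i), fun c hc => ?_⟩, fun i => ⟨(hp.1 (Sum.inr i)).1, ?_⟩⟩
    · have h1 := hp.2 _ (Or.inl (mem_image_of_mem _ hc))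
      rw [Cl.sat_map] at h1
      exact h1
    · have h1 := hp.2 _ (Or.inr (mem_range_self i))
      unfold lv
      rcases hb : (l i).2 with _ | _
      · simp only [hb, Bool.false_eq_true, if_false] at h1 ⊢
        change y (Sum.inr i) + y (Sum.inl (l i).1) ≤ 1 at h1
        change y (Sum.inr i) ≤ 1 - y (Sum.inl (l i).1)
        linarith
      · simp only [hb, if_true] at h1 ⊢
        exact h1

/-- the weights -/
noncomputable def wl (K : Set (Eu σ)) (l : I → σ × Bool) (s : Eu σ) : ℝ :=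
  K.indicator (fun s => ∏ i, lv (l i) s) s

theorem wl_nonneg (hK : CB K) (s : Eu σ) : 0 ≤ wl K l s := by
  refine indicator_nonneg (fun s hs => ?_) s
  exact Finset.prod_nonneg fun i _ => (lv_mem hK _ hs).1

theorem prod_lv_cont : Continuous fun s : Eu σ => ∏ i, lv (l i) s :=
  continuous_finsetProd _ fun i _ => lv_cont (l i)

theorem wl_meas (hK : CB K) : Measurable (wl K l) :=
  prod_lv_cont.measurable.indicator hK.cpt.measurableSet

theorem wl_rep (hK : CB K) {φ : Eu σ → ℝ} (hφ : Continuous φ) :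
    ∫ p : Eu σ × Eu I, φ p.1 * wF K (fun _ _ => 0) (fun i s => lv (l i) s) p =
      ∫ s, φ s * wl K l s := by
  rw [(fibM1 (cpFib (l := l) hK) hφ).2]
  refine integral_congr_ae (Eventually.of_forall fun s => ?_)
  unfold wl
  by_cases hs : s ∈ K
  · simp only [indicator_of_mem hs, sub_zero]
  · simp only [indicator_of_notMem hs, mul_zero]

theorem wt_wl (hK : CB K) : Wt (wl K l) := by
  have hC := CP_cb (l := l) hK
  have hw := wt_ind hC.cpt hC.int
  refine ⟨wl_nonneg hK, wl_meas hK, ?_, ?_⟩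
  · have := vol_haar σ I
    have h1 := hw.pos
    rw [← integral_pos_scale (volume : Measure (Eu σ × Eu I)) volume (mkEL σ I) 0] at h1
    simp only [add_zero, CP_ind] at h1
    have h2 := wl_rep (l := l) hK (φ := fun _ => 1) continuous_const
    simp only [one_mul] at h2
    rwa [h2] at h1
  · have h1 : IntegrableOn (fun s : Eu σ => (1 + ‖s‖ ^ 2) * ∏ i, lv (l i) s) K := by
      have h2 : Continuous fun s : Eu σ => (1 + ‖s‖ ^ 2) * ∏ i, lv (l i) s :=
        (by fun_prop : Continuous fun s : Eu σ => 1 + ‖s‖ ^ 2).mul prod_lv_cont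
      exact h2.continuousOn.integrableOn_compact hK.cpt
    refine ((integrable_indicator_iff hK.cpt.measurableSet).2 h1).congr
      (Eventually.of_forall fun s => ?_)
    unfold wl
    by_cases hs : s ∈ K
    · simp only [indicator_of_mem hs]
    · simp only [indicator_of_notMem hs, mul_zero]

/-- the weights are densities of marginals -/
theorem CP_map (hK : CB K) :
    (nm ((CP K l).indicator fun _ => (1 : ℝ))).map pl = nm (wl K l) := by
  have hC := CP_cb (l := l) hK
  have hw := wt_ind hC.cpt hC.int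
  have hw' := wt_wl (l := l) hK
  have := hw.prob
  have := hw'.prob
  have hpl : Measurable (pl : Eu (σ ⊕ I) → Eu σ) := cont_pl.measurable
  have := Measure.isProbabilityMeasure_map (μ := nm ((CP K l).indicator fun _ => (1 : ℝ)))
    hpl.aemeasurable
  refine ext_of_forall_integral_eq_of_IsFiniteMeasure fun φ => ?_
  have := vol_haar σ I
  rw [integral_map hpl.aemeasurable φ.continuous.aestronglyMeasurable,
    integral_nm hw.nonneg hw.meas, integral_nm hw'.nonneg hw'.meas,
    integral_quot (volume : Measure (Eu σ × Eu I)) volume (mkEL σ I) 0]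
  simp only [add_zero, CP_ind]
  have h1 := wl_rep (l := l) hK (φ := fun s => φ s) φ.continuous
  have h2 := wl_rep (l := l) hK (φ := fun _ => 1) continuous_const
  simp only [one_mul] at h2
  rw [h2]
  exact congrArg (fun r => r / ∫ s, wl K l s) h1

/-- **weights** -/
theorem kp_wgt {D : ℝ} (hD : 0 ≤ D)
    (H : ∀ (σ : Type) [Fintype σ] (K : Set (Eu σ)), IsHP K → CB K →
      KP (nm (K.indicator fun _ => (1 : ℝ))) D)
    (hH : IsHP K) (hK : CB K) (l : I → σ × Bool) (v : κ → σ) :
    KP ((nm (wl K l)).map (pv v)) D := by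
  have hC := CP_cb (l := l) hK
  have hCH := CP_hp (l := l) hH
  have h1 := kp_amp hD hC (fun i => (Sum.inl (v i) : σ ⊕ I)) fun M hM =>
    H _ _ (Amp_hp hCH) (Amp_cb hC)
  rw [← CP_map hK, Measure.map_map pv_cont.measurable cont_pl.measurable]
  exact h1

end wgt

end Pool.Agent.H776
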