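import Pool.Agent.H776.Dom

/-!
# Images under linear contractions and approximate lifts
-/

set_option autoImplicit false

namespace Pool.Agent.H776

open MeasureTheory Set Filter Topology
open scoped ENNReal InnerProductSpace

variable {κ κ' : Type} [Fintype κ] [Fintype κ']

/-- images of Poincare inequalities under affine contractions -/
theorem Poi.image {ν : Measure (Eu κ')} {D : ℝ} (hP : Poi ν D) {T : Eu κ' →L[ℝ] Eu κ} (hT : ‖T‖ ≤ 1)
    (hD : 0 ≤ D) [IsProbabilityMeasure ν] (b : Eu κ) : Poi (ν.map fun y => T y - b) D := by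
  intro f B L hf
  have hme : Measurable fun y : Eu κ' => T y - b := by fun_prop
  have hfc := hf.diff.continuous
  have hgrc : Continuous fun x => ‖fderiv ℝ f x‖ := (hf.diff.continuous_fderiv one_ne_zero).norm
  have hL0 : 0 ≤ L := (norm_nonneg _).trans (hf.grad 0)
  have hd : ∀ y, ‖fderiv ℝ (fun y => f (T y - b)) y‖ ≤ ‖fderiv ℝ f (T y - b)‖ := by
    intro y
    have h1 : HasFDerivAt (fun y => T y - b) (T : Eu κ' →L[ℝ] Eu κ) y :=
      (T.hasFDerivAt).sub_const b
    have h2 : HasFDerivAt f (fderiv ℝ f (T y - b)) (T y - b) :=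
      ((hf.diff.differentiable one_ne_zero) _).hasFDerivAt
    have h3 : fderiv ℝ (fun y => f (T y - b)) y = (fderiv ℝ f (T y - b)).comp T :=
      (h2.comp y h1).fderiv
    rw [h3]
    refine (ContinuousLinearMap.opNorm_comp_le _ _).trans ?_
    exact mul_le_of_le_one_right (norm_nonneg _) hT
  have hf' : Tst (fun y => f (T y - b)) B L :=
    ⟨hf.diff.comp (T.contDiff.sub contDiff_const), fun y => hf.bdd _, fun y => (hd y).trans (hf.grad _)⟩
  have h1 := hP _ B L hf'
  have key : ∀ φ : Eu κ → ℝ, Continuous φ →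
      ∫ x, φ x ∂(ν.map fun y => T y - b) = ∫ y, φ (T y - b) ∂ν :=
    fun φ hφ => integral_map hme.aemeasurable hφ.aestronglyMeasurable
  rw [key (fun x => f x ^ 2) (hfc.pow 2), key f hfc, key (fun x => ‖fderiv ℝ f x‖ ^ 2) (hgrc.pow 2)]
  refine h1.trans (mul_le_mul_of_nonneg_left ?_ hD)
  refine integral_mono_of_nonneg (Eventually.of_forall fun y => by positivity) ?_
    (Eventually.of_forall fun y => ?_)
  · refine Integrable.of_bound ((hgrc.comp (by fun_prop : Continuous fun y : Eu κ' =>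
      T y - b)).pow 2).aestronglyMeasurable (L ^ 2) (Eventually.of_forall fun y => ?_)
    rw [Real.norm_of_nonneg (by positivity)]
    exact pow_le_pow_left₀ (norm_nonneg _) (hf.grad _) 2
  · exact pow_le_pow_left₀ (norm_nonneg _) (hd y) 2

theorem var_le_scale {μ : Measure (Eu κ)} [IsProbabilityMeasure μ] {s : ℝ}
    (h : CovLe μ s) (θ : Eu κ) :
    ProbabilityTheory.variance (fun x => ⟪x, θ⟫_ℝ) μ ≤ ‖θ‖ ^ 2 * s := by
  by_cases h0 : θ = 0
  · subst h0
    have : (fun x : Eu κ => ⟪x, (0 : Eu κ)⟫_ℝ) = fun _ => 0 := by funext x; simp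
    rw [this, ProbabilityTheory.variance_eq_integral (by fun_prop)]
    simp
  · have hn : ‖θ‖ ≠ 0 := norm_ne_zero_iff.2 h0
    have h1 : ‖(‖θ‖⁻¹ • θ)‖ = 1 := by
      rw [norm_smul, norm_inv, norm_norm, inv_mul_cancel₀ hn]
    have h2 := h _ h1
    have e : (fun x : Eu κ => ⟪x, θ⟫_ℝ) = fun x => ‖θ‖ * ⟪x, ‖θ‖⁻¹ • θ⟫_ℝ := by
      funext x
      rw [real_inner_smul_right, ← mul_assoc, mul_inv_cancel₀ hn, one_mul]
    rw [e, ProbabilityTheory.variance_const_mul]
    exact mul_le_mul_of_nonneg_left h2 (sq_nonneg _)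

theorem var_add_le {Ω : Type*} [MeasurableSpace Ω] {ν : Measure Ω} [IsProbabilityMeasure ν]
    {X Y : Ω → ℝ} (hX : MemLp X 2 ν) (hY : MemLp Y 2 ν) {a : ℝ} (ha : 0 < a) :
    ProbabilityTheory.variance (fun ω => X ω + Y ω) ν ≤
      (1 + a) * ProbabilityTheory.variance X ν +
        (1 + 1 / a) * ProbabilityTheory.variance Y ν := by
  have h1 : ProbabilityTheory.variance (fun ω => X ω + Y ω) ν =
      ProbabilityTheory.variance X ν + 2 * ProbabilityTheory.covariance X Y ν +
        ProbabilityTheory.variance Y ν := by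
    exact ProbabilityTheory.variance_fun_add hX hY
  have hs : 0 ≤ ProbabilityTheory.variance (fun ω => a * X ω - Y ω) ν :=
    ProbabilityTheory.variance_nonneg _ _
  have h2 : ProbabilityTheory.variance (fun ω => a * X ω - Y ω) ν =
      a ^ 2 * ProbabilityTheory.variance X ν - 2 * (a * ProbabilityTheory.covariance X Y ν) +
        ProbabilityTheory.variance Y ν := by
    have h3 := ProbabilityTheory.variance_fun_sub (hX.const_mul a) hY
    rw [h3, ProbabilityTheory.variance_const_mul, ProbabilityTheory.covariance_const_mul_left]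
  rw [h2] at hs
  rw [h1]
  have h4 : 2 * ProbabilityTheory.covariance X Y ν ≤ a * ProbabilityTheory.variance X ν +
      1 / a * ProbabilityTheory.variance Y ν := by
    have h5 : 0 ≤ (1 / a) * (a ^ 2 * ProbabilityTheory.variance X ν -
      2 * (a * ProbabilityTheory.covariance X Y ν) + ProbabilityTheory.variance Y ν) := by positivity
    have h6 : (1 / a) * (a ^ 2 * ProbabilityTheory.variance X ν -
      2 * (a * ProbabilityTheory.covariance X Y ν) + ProbabilityTheory.variance Y ν) =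
      a * ProbabilityTheory.variance X ν - 2 * ProbabilityTheory.covariance X Y ν +
        1 / a * ProbabilityTheory.variance Y ν := by
      field_simp
    linarith
  linarith

theorem memLp_inner {μ : Measure (Eu κ)} [IsProbabilityMeasure μ]
    (hi : Integrable (fun x => ‖x‖ ^ 2) μ) (θ : Eu κ) : MemLp (fun x : Eu κ => ⟪x, θ⟫_ℝ) 2 μ := by
  rw [memLp_two_iff_integrable_sq (grow_inner θ).1.aestronglyMeasurable]
  exact (grow_inner_sq θ).integrable hi

/-- **lifts**: if `T_i # ν_i - b_i → μ`, `‖T_i‖ ≤ 1`, and the covariances of `ν_i` in the directions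
which are lost are small, then the inequality passes from `ν_i` to `μ` -/
theorem KP.lift {ι : Type} {l : Filter ι} [l.NeBot] {K : ι → Type} [∀ i, Fintype (K i)]
    {ν : ∀ i, Measure (Eu (K i))} {T : ∀ i, Eu (K i) →L[ℝ] Eu κ} {b : ι → Eu κ}
    {J : ∀ i, Eu κ →L[ℝ] Eu (K i)} {μ : Measure (Eu κ)} [IsProbabilityMeasure μ] {D : ℝ} (hD : 0 ≤ D)
    (hν : ∀ᶠ i in l, IsProbabilityMeasure (ν i))
    (hi : ∀ᶠ i in l, Integrable (fun y => ‖y‖ ^ 2) (ν i))
    (hT : ∀ i, ‖T i‖ ≤ 1) (hJ : ∀ i, ‖J i‖ ≤ 1)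
    (hW : W2 l (fun i => (ν i).map fun y => T i y - b i) μ)
    (hr : ∀ η : ℝ, 0 < η → ∀ᶠ i in l, ∀ θ : Eu (K i), ‖θ‖ = 1 →
      ProbabilityTheory.variance (fun y => ⟪y - J i (T i y), θ⟫_ℝ) (ν i) ≤ η)
    (hP : ∀ᶠ i in l, KP (ν i) D) : KP μ D := by
  intro s hs hcov
  refine Poi.of_forall_gt fun η hη => ?_
  -- parameters
  obtain ⟨a, ha, ha1⟩ : ∃ a : ℝ, 0 < a ∧ D * ((1 + a) * (s + a) + a - s) ≤ η := by
    have h1 : Tendsto (fun a : ℝ => D * ((1 + a) * (s + a) + a - s)) (𝓝[>] 0) (𝓝 0) := by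
      have h2 : Tendsto (fun a : ℝ => D * ((1 + a) * (s + a) + a - s)) (𝓝 0)
          (𝓝 (D * ((1 + 0) * (s + 0) + 0 - s))) := by
        refine Continuous.tendsto ?_ 0
        fun_prop
      have e : D * ((1 + 0) * (s + 0) + 0 - s) = 0 := by ring
      rw [e] at h2
      exact h2.mono_left nhdsWithin_le_nhds
    have h3 := (h1.eventually (gt_mem_nhds hη)).and self_mem_nhdsWithin
    obtain ⟨a, h4, h5⟩ := h3.exists
    exact ⟨a, h5, h4.le⟩
  have hη' : 0 < a / (1 + 1 / a) := by positivity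
  refine Poi.mono (D := D * ((1 + a) * (s + a) + a)) ?_ (by nlinarith)
  refine Poi.lim (l := l) (m := fun i => (ν i).map fun y => T i y - b i) (fun φ hφ hB => ?_) ?_
  · obtain ⟨B, hB⟩ := hB
    exact hW.lim φ (grow_bdd hφ hB)
  · filter_upwards [hν, hi, hP, CovLe.ev hW hcov ha, hr _ hη', hW.int] with i h1 h2 h3 h4 h5 h6
    have hme : Measurable fun y : Eu (K i) => T i y - b i := by fun_prop
    have hpm : IsProbabilityMeasure ((ν i).map fun y => T i y - b i) :=
      Measure.isProbabilityMeasure_map hme.aemeasurable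
    refine (h3 ((1 + a) * (s + a) + a) (by positivity) fun θ hθ => ?_).image (hT i)
      (by positivity) (b i)
    -- decomposition
    have hTi : Integrable (fun y => ‖T i y‖ ^ 2) (ν i) := by
      refine h2.mono' (by fun_prop) (Eventually.of_forall fun y => ?_)
      rw [Real.norm_of_nonneg (by positivity)]
      refine pow_le_pow_left₀ (norm_nonneg _) ?_ 2
      refine ((T i).le_opNorm y).trans ?_
      exact mul_le_of_le_one_left (norm_nonneg _) (hT i)
    obtain ⟨θ', hθ'⟩ : ∃ θ', θ' = ContinuousLinearMap.adjoint (J i) θ := ⟨_, rfl⟩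
    have hθn : ‖θ'‖ ≤ 1 := by
      rw [hθ']
      refine (ContinuousLinearMap.le_opNorm _ _).trans ?_
      rw [hθ, mul_one, LinearIsometryEquiv.norm_map]
      exact hJ i
    have e1 : ∀ y, ⟪J i (T i y), θ⟫_ℝ = ⟪T i y, θ'⟫_ℝ := fun y => by
      rw [hθ', ContinuousLinearMap.adjoint_inner_right]
    have e2 : (fun y : Eu (K i) => ⟪y, θ⟫_ℝ) =
        fun y => ⟪T i y, θ'⟫_ℝ + ⟪y - J i (T i y), θ⟫_ℝ := by
      funext y
      rw [← e1, inner_sub_left]
      ring
    have m1 : MemLp (fun y : Eu (K i) => ⟪T i y, θ'⟫_ℝ) 2 (ν i) := by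
      rw [memLp_two_iff_integrable_sq (by fun_prop)]
      refine (hTi.const_mul (‖θ'‖ ^ 2)).mono' (by fun_prop) (Eventually.of_forall fun y => ?_)
      rw [Real.norm_of_nonneg (by positivity)]
      have := abs_real_inner_le_norm (T i y) θ'
      calc ⟪T i y, θ'⟫_ℝ ^ 2 = |⟪T i y, θ'⟫_ℝ| ^ 2 := (sq_abs _).symm
        _ ≤ (‖T i y‖ * ‖θ'‖) ^ 2 := pow_le_pow_left₀ (abs_nonneg _) this 2
        _ = ‖θ'‖ ^ 2 * ‖T i y‖ ^ 2 := by ring
    have m0 : MemLp (fun y : Eu (K i) => ⟪y, θ⟫_ℝ) 2 (ν i) := memLp_inner h2 θ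
    have m2 : MemLp (fun y : Eu (K i) => ⟪y - J i (T i y), θ⟫_ℝ) 2 (ν i) := by
      have := m0.sub m1
      refine this.congr_norm (by fun_prop) (Eventually.of_forall fun y => ?_)
      simp only [Pi.sub_apply]
      rw [← e1, inner_sub_left]
    rw [e2]
    refine (var_add_le m1 m2 ha).trans ?_
    have h7 : ProbabilityTheory.variance (fun y : Eu (K i) => ⟪T i y, θ'⟫_ℝ) (ν i) ≤ s + a := by
      have h8 := var_le_scale h4 θ'
      rw [ProbabilityTheory.variance_map (by fun_prop) hme.aemeasurable] at h8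
      have e3 : ((fun x : Eu κ => ⟪x, θ'⟫_ℝ) ∘ fun y => T i y - b i) =
          fun y => ⟪T i y, θ'⟫_ℝ - ⟪b i, θ'⟫_ℝ := by
        funext y
        simp [inner_sub_left]
      rw [e3, ProbabilityTheory.variance_sub_const (by fun_prop)] at h8
      refine h8.trans ?_
      have : ‖θ'‖ ^ 2 ≤ 1 := pow_le_one₀ (norm_nonneg _) hθn
      nlinarith
    have h9 := h5 θ hθ
    have h10 : (1 + 1 / a) * ProbabilityTheory.variance (fun y => ⟪y - J i (T i y), θ⟫_ℝ) (ν i) ≤
        a := by
      have := mul_le_mul_of_nonneg_left h9 (show 0 ≤ 1 + 1 / a by positivity)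
      rwa [mul_div_cancel₀ _ (by positivity : 1 + 1 / a ≠ 0)] at this
    have h11 : (1 + a) * ProbabilityTheory.variance (fun y : Eu (K i) => ⟪T i y, θ'⟫_ℝ) (ν i) ≤
        (1 + a) * (s + a) := mul_le_mul_of_nonneg_left h7 (by positivity)
    linarith

end Pool.Agent.H776
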