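import Pool.Agent.H776.Cheeger
import Pool.Graph.R_pool_sql_team_seeded_3997aac3.Q188.TS.Iso

/-!
# Limits of measures satisfying the inequality of Kannan, Lovasz and Simonovits
-/

set_option autoImplicit false

namespace Pool.Agent.H776

open MeasureTheory Set Filter Topology
open scoped ENNReal InnerProductSpace

/-- Euclidean space -/
abbrev Eu (κ : Type) [Fintype κ] : Type := EuclideanSpace ℝ κ

section lim

variable {κ : Type} [Fintype κ]

/-- the covariance matrix of `μ` has norm at most `s` -/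
def CovLe (μ : Measure (Eu κ)) (s : ℝ) : Prop :=
  ∀ θ : Eu κ, ‖θ‖ = 1 → ProbabilityTheory.variance (fun x => ⟪x, θ⟫_ℝ) μ ≤ s

/-- Poincare inequality with the constant `D` times the norm of the covariance matrix -/
def KP (μ : Measure (Eu κ)) (D : ℝ) : Prop := ∀ s : ℝ, 0 < s → CovLe μ s → Poi μ (D * s)

/-- continuous functions of at most quadratic growth -/
def Grow (φ : Eu κ → ℝ) : Prop := Continuous φ ∧ ∃ B : ℝ, ∀ x, |φ x| ≤ B * (1 + ‖x‖ ^ 2)

/-- convergence of the integrals of functions of quadratic growth -/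
structure W2 {ι : Type} (l : Filter ι) (m : ι → Measure (Eu κ)) (μ : Measure (Eu κ)) : Prop where
  prob : ∀ᶠ i in l, IsProbabilityMeasure (m i)
  int : ∀ᶠ i in l, Integrable (fun x => ‖x‖ ^ 2) (m i)
  int' : Integrable (fun x => ‖x‖ ^ 2) μ
  lim : ∀ φ : Eu κ → ℝ, Grow φ → Tendsto (fun i => ∫ x, φ x ∂(m i)) l (𝓝 (∫ x, φ x ∂μ))

theorem Grow.integrable {φ : Eu κ → ℝ} (h : Grow φ) {μ : Measure (Eu κ)} [IsFiniteMeasure μ]
    (hi : Integrable (fun x => ‖x‖ ^ 2) μ) : Integrable φ μ := by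
  obtain ⟨hc, B, hB⟩ := h
  refine (((integrable_const (1 : ℝ)).add hi).const_mul B).mono' hc.aestronglyMeasurable
    (Eventually.of_forall fun x => ?_)
  rw [Real.norm_eq_abs]
  exact hB x

theorem grow_bdd {φ : Eu κ → ℝ} (hc : Continuous φ) {B : ℝ} (hB : ∀ x, |φ x| ≤ B) : Grow φ := by
  refine ⟨hc, B, fun x => (hB x).trans ?_⟩
  have : 0 ≤ B := (abs_nonneg _).trans (hB x)
  nlinarith [sq_nonneg ‖x‖, mul_nonneg this (sq_nonneg ‖x‖)]

theorem grow_inner (θ : Eu κ) : Grow fun x => ⟪x, θ⟫_ℝ := by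
  refine ⟨by fun_prop, ‖θ‖, fun x => ?_⟩
  have h1 := abs_real_inner_le_norm x θ
  have h2 : ‖x‖ ≤ 1 + ‖x‖ ^ 2 := by nlinarith [sq_nonneg (‖x‖ - 1), norm_nonneg x]
  nlinarith [mul_le_mul_of_nonneg_right h2 (norm_nonneg θ)]

theorem grow_inner_sq (θ : Eu κ) : Grow fun x => ⟪x, θ⟫_ℝ ^ 2 := by
  refine ⟨by fun_prop, ‖θ‖ ^ 2, fun x => ?_⟩
  have h1 := abs_real_inner_le_norm x θ
  have h2 : |⟪x, θ⟫_ℝ ^ 2| ≤ (‖x‖ * ‖θ‖) ^ 2 := by
    rw [abs_pow]; exact pow_le_pow_left₀ (abs_nonneg _) h1 2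
  refine h2.trans ?_
  nlinarith [sq_nonneg ‖θ‖]

theorem grow_coord (i j : κ) : Grow fun x : Eu κ => x i * x j := by
  refine ⟨by fun_prop, 1, fun x => ?_⟩
  have h1 : ∀ i, |x i| ≤ ‖x‖ := fun i => by
    have := PiLp.norm_apply_le x i
    rwa [Real.norm_eq_abs] at this
  rw [abs_mul]
  have := mul_le_mul (h1 i) (h1 j) (abs_nonneg _) (norm_nonneg _)
  nlinarith

theorem grow_coord1 (i : κ) : Grow fun x : Eu κ => x i := by
  refine ⟨by fun_prop, 1, fun x => ?_⟩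
  have h1 : |x i| ≤ ‖x‖ := by
    have := PiLp.norm_apply_le x i
    rwa [Real.norm_eq_abs] at this
  nlinarith [sq_nonneg (‖x‖ - 1)]

theorem var_eq {μ : Measure (Eu κ)} [IsProbabilityMeasure μ]
    (hi : Integrable (fun x => ‖x‖ ^ 2) μ) (θ : Eu κ) :
    ProbabilityTheory.variance (fun x => ⟪x, θ⟫_ℝ) μ =
      (∫ x, ⟪x, θ⟫_ℝ ^ 2 ∂μ) - (∫ x, ⟪x, θ⟫_ℝ ∂μ) ^ 2 := by
  have hL : MemLp (fun x : Eu κ => ⟪x, θ⟫_ℝ) 2 μ := by
    rw [memLp_two_iff_integrable_sq (grow_inner θ).1.aestronglyMeasurable]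
    exact (grow_inner_sq θ).integrable hi
  rw [ProbabilityTheory.variance_eq_sub hL]
  rfl

/-- the covariances -/
noncomputable def cv (μ : Measure (Eu κ)) (i j : κ) : ℝ :=
  (∫ x, x i * x j ∂μ) - (∫ x, x i ∂μ) * ∫ x, x j ∂μ

theorem var_eq_sum {μ : Measure (Eu κ)} [IsProbabilityMeasure μ]
    (hi : Integrable (fun x => ‖x‖ ^ 2) μ) (θ : Eu κ) :
    ProbabilityTheory.variance (fun x => ⟪x, θ⟫_ℝ) μ = ∑ i, ∑ j, θ i * θ j * cv μ i j := by
  rw [var_eq hi]
  have e1 : ∀ x : Eu κ, ⟪x, θ⟫_ℝ = ∑ i, θ i * x i := fun x => by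
    rw [PiLp.inner_apply]
    simp
  have e2 : ∫ x, ⟪x, θ⟫_ℝ ∂μ = ∑ i, θ i * ∫ x, x i ∂μ := by
    simp only [e1]
    rw [integral_finsetSum _ fun i _ => ((grow_coord1 i).integrable hi).const_mul _]
    exact Finset.sum_congr rfl fun i _ => integral_const_mul _ _
  have e3 : ∫ x, ⟪x, θ⟫_ℝ ^ 2 ∂μ = ∑ i, ∑ j, θ i * θ j * ∫ x, x i * x j ∂μ := by
    have : ∀ x : Eu κ, ⟪x, θ⟫_ℝ ^ 2 = ∑ i, ∑ j, θ i * θ j * (x i * x j) := fun x => by
      rw [e1, sq, Finset.sum_mul_sum]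
      exact Finset.sum_congr rfl fun i _ => Finset.sum_congr rfl fun j _ => by ring
    simp only [this]
    rw [integral_finsetSum _ fun i _ => integrable_finsetSum _ fun j _ =>
      ((grow_coord i j).integrable hi).const_mul _]
    refine Finset.sum_congr rfl fun i _ => ?_
    rw [integral_finsetSum _ fun j _ => ((grow_coord i j).integrable hi).const_mul _]
    exact Finset.sum_congr rfl fun j _ => integral_const_mul _ _
  rw [e2, e3, sq, Finset.sum_mul_sum, ← Finset.sum_sub_distrib]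
  refine Finset.sum_congr rfl fun i _ => ?_
  rw [← Finset.sum_sub_distrib]
  refine Finset.sum_congr rfl fun j _ => ?_
  unfold cv
  ring

theorem CovLe.ev {ι : Type} {l : Filter ι} {m : ι → Measure (Eu κ)} {μ : Measure (Eu κ)}
    [IsProbabilityMeasure μ] (h : W2 l m μ) {s : ℝ} (hs : CovLe μ s) {η : ℝ} (hη : 0 < η) :
    ∀ᶠ i in l, CovLe (m i) (s + η) := by
  have h1 : ∀ i j, Tendsto (fun k => cv (m k) i j) l (𝓝 (cv μ i j)) := fun i j =>
    (h.lim _ (grow_coord i j)).sub ((h.lim _ (grow_coord1 i)).mul (h.lim _ (grow_coord1 j)))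
  have h2 : Tendsto (fun k => ∑ i, ∑ j, |cv (m k) i j - cv μ i j|) l (𝓝 0) := by
    have : Tendsto (fun k => ∑ i, ∑ j, |cv (m k) i j - cv μ i j|) l
        (𝓝 (∑ i : κ, ∑ j : κ, |cv μ i j - cv μ i j|)) :=
      tendsto_finsetSum _ fun i _ => tendsto_finsetSum _ fun j _ =>
        ((h1 i j).sub tendsto_const_nhds).abs
    simpa using this
  filter_upwards [h.prob, h.int, h2.eventually (gt_mem_nhds hη)] with k hk1 hk2 hk3
  intro θ hθ
  have hθ1 : ∀ i, |θ i| ≤ 1 := fun i => by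
    have := PiLp.norm_apply_le θ i
    rwa [Real.norm_eq_abs, hθ] at this
  have h3 := hs θ hθ
  rw [var_eq_sum h.int'] at h3
  rw [var_eq_sum hk2]
  have h4 : ∑ i, ∑ j, θ i * θ j * cv (m k) i j - ∑ i, ∑ j, θ i * θ j * cv μ i j ≤
      ∑ i, ∑ j, |cv (m k) i j - cv μ i j| := by
    rw [← Finset.sum_sub_distrib]
    refine Finset.sum_le_sum fun i _ => ?_
    rw [← Finset.sum_sub_distrib]
    refine Finset.sum_le_sum fun j _ => ?_
    rw [← mul_sub]
    refine (le_abs_self _).trans ?_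
    rw [abs_mul, abs_mul]
    calc |θ i| * |θ j| * |cv (m k) i j - cv μ i j| ≤ 1 * 1 * |cv (m k) i j - cv μ i j| := by
          gcongr
          · exact hθ1 i
          · exact hθ1 j
      _ = _ := by ring
  linarith

/-- limits of Poincare inequalities -/
theorem Poi.lim {ι : Type} {l : Filter ι} [l.NeBot] {m : ι → Measure (Eu κ)} {μ : Measure (Eu κ)}
    (hl : ∀ φ : Eu κ → ℝ, Continuous φ → (∃ B : ℝ, ∀ x, |φ x| ≤ B) →
      Tendsto (fun i => ∫ x, φ x ∂(m i)) l (𝓝 (∫ x, φ x ∂μ))) {D : ℝ}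
    (hP : ∀ᶠ i in l, Poi (m i) D) : Poi μ D := by
  intro f B L hf
  have hfc := hf.diff.continuous
  have hgrc : Continuous fun x => ‖fderiv ℝ f x‖ := (hf.diff.continuous_fderiv one_ne_zero).norm
  have t1 := hl f hfc ⟨B, hf.bdd⟩
  have t2 := hl (fun x => f x ^ 2) (hfc.pow 2) ⟨B ^ 2, fun x => by
    rw [abs_pow]; exact pow_le_pow_left₀ (abs_nonneg _) (hf.bdd x) 2⟩
  have t3 := hl (fun x => ‖fderiv ℝ f x‖ ^ 2) (hgrc.pow 2) ⟨L ^ 2, fun x => by
    rw [abs_pow, abs_norm]; exact pow_le_pow_left₀ (norm_nonneg _) (hf.grad x) 2⟩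
  refine le_of_tendsto_of_tendsto (t2.sub (t1.pow 2)) (t3.const_mul D) ?_
  filter_upwards [hP] with i hi
  exact hi f B L hf

theorem Poi.mono {μ : Measure (Eu κ)} {D D' : ℝ} (h : Poi μ D) (hD : D ≤ D') : Poi μ D' := by
  intro f B L hf
  refine (h f B L hf).trans (mul_le_mul_of_nonneg_right hD ?_)
  exact integral_nonneg fun x => by positivity

theorem Poi.of_forall_gt {μ : Measure (Eu κ)} {D : ℝ} (h : ∀ η : ℝ, 0 < η → Poi μ (D + η)) :
    Poi μ D := by
  intro f B L hf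
  have h1 : Tendsto (fun η : ℝ => (D + η) * ∫ x, ‖fderiv ℝ f x‖ ^ 2 ∂μ) (𝓝[>] 0)
      (𝓝 ((D + 0) * ∫ x, ‖fderiv ℝ f x‖ ^ 2 ∂μ)) :=
    ((tendsto_const_nhds.add tendsto_id).mul_const _).mono_left nhdsWithin_le_nhds
  rw [add_zero] at h1
  refine ge_of_tendsto h1 ?_
  filter_upwards [self_mem_nhdsWithin] with η hη
  exact h η hη f B L hf

/-- **the class of measures with `C_P ≤ D ‖Cov‖` is closed** -/
theorem KP.lim {ι : Type} {l : Filter ι} [l.NeBot] {m : ι → Measure (Eu κ)} {μ : Measure (Eu κ)}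
    [IsProbabilityMeasure μ] (h : W2 l m μ) {D : ℝ} (hD : 0 ≤ D) (hP : ∀ᶠ i in l, KP (m i) D) :
    KP μ D := by
  intro s hs hcov
  refine Poi.of_forall_gt fun η hη => ?_
  have hη' : 0 < η / (D + 1) := by positivity
  refine Poi.mono (D := D * (s + η / (D + 1))) ?_ ?_
  · refine Poi.lim (l := l) (m := m) (fun φ hφ hB => ?_) ?_
    · obtain ⟨B, hB⟩ := hB
      exact h.lim φ (grow_bdd hφ hB)
    · filter_upwards [hP, CovLe.ev h hcov hη'] with i hi1 hi2
      exact hi1 _ (by positivity) hi2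
  · rw [mul_add]
    have : D * (η / (D + 1)) ≤ η := by
      rw [mul_div_assoc', div_le_iff₀ (by positivity)]
      nlinarith
    linarith

/-- from `C_P ≤ D ‖Cov‖` to the isoperimetric inequality, for log-concave densities -/
theorem iso_of_poi {ρ : Eu κ → ℝ} (hρ : Q289.LD.Den ρ) {μ : Measure (Eu κ)}
    (hμ : μ = volume.withDensity fun x => ENNReal.ofReal (ρ x)) {D : ℝ} (hD : 0 < D)
    (hP : Poi μ D) : Iso μ (1 / 14 / Real.sqrt D) := by
  have hpr : IsProbabilityMeasure μ := by rw [hμ]; exact Q289.LD.prob_mu hρ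
  intro S hS
  have h1 : μ S * (1 - μ S) ≤ ENNReal.ofReal (7 * Real.sqrt D) * bdr μ S := by
    refine Q289.LD.tLED κ ρ hρ D hD (fun f hf hb hL => ?_) μ hμ S hS
    obtain ⟨L, hL⟩ := hL
    have h5 := hP f 1 L ⟨hf, hb, hL⟩
    have e1 : ∀ g : Eu κ → ℝ, ∫ x, g x ∂μ = ∫ x, g x * ρ x := fun g => by
      rw [hμ]; exact Q289.LD.integral_mu hρ g
    rw [e1, e1, e1] at h5
    exact h5
  have hsq : 0 < Real.sqrt D := Real.sqrt_pos.2 hD
  calc ENNReal.ofReal (1 / 14 / Real.sqrt D) * min (μ S) (μ Sᶜ)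
      ≤ ENNReal.ofReal (1 / 14 / Real.sqrt D) *
          (2 * (ENNReal.ofReal (7 * Real.sqrt D) * bdr μ S)) :=
        mul_le_mul_right ((Pool.Agent.Q188.TS.Iso.min_le_two hS).trans
          (mul_le_mul_right h1 _)) _
    _ = (ENNReal.ofReal (1 / 14 / Real.sqrt D) * (2 * ENNReal.ofReal (7 * Real.sqrt D))) *
          bdr μ S := by ring
    _ = bdr μ S := by
        have e2 : ENNReal.ofReal (1 / 14 / Real.sqrt D) * (2 * ENNReal.ofReal (7 * Real.sqrt D)) =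
            1 := by
          rw [show (2 : ℝ≥0∞) = ENNReal.ofReal 2 by norm_num, ← ENNReal.ofReal_mul (by norm_num),
            ← ENNReal.ofReal_mul (by positivity)]
          have : 1 / 14 / Real.sqrt D * (2 * (7 * Real.sqrt D)) = 1 := by field_simp; norm_num
          rw [this, ENNReal.ofReal_one]
        rw [e2, one_mul]

end lim

end Pool.Agent.H776
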