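import Pool.Agent.H776.Slack2

/-!
# Densities `exp (-G)`, `G` a maximum of affine functions
-/

set_option autoImplicit false

namespace Pool.Agent.H776

open MeasureTheory Set Filter Topology
open scoped ENNReal InnerProductSpace

variable {κ J : Type} [Fintype κ] [Fintype J] [Nonempty J]

/-- maximum of affine functions -/
noncomputable def mx (a : J → Eu κ) (b : J → ℝ) (x : Eu κ) : ℝ := ⨆ j, (⟪a j, x⟫_ℝ + b j)

omit [Fintype J] in
theorem mx_le_iff [Finite J] {a : J → Eu κ} {b : J → ℝ} {x : Eu κ} {t : ℝ} :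
    mx a b x ≤ t ↔ ∀ j, ⟪a j, x⟫_ℝ + b j ≤ t := by
  unfold mx
  exact ciSup_le_iff (Set.finite_range _).bddAbove

theorem mx_cont (a : J → Eu κ) (b : J → ℝ) : Continuous (mx a b) := by
  have h1 : mx a b = fun x => Finset.univ.sup' Finset.univ_nonempty fun j => (⟪a j, x⟫_ℝ + b j) := by
    funext x
    unfold mx
    rw [Finset.sup'_univ_eq_ciSup]
  rw [h1]
  exact Continuous.finset_sup'_apply _ fun j _ => by fun_prop

/-- linear map `(x, t) ↦ (x, η t)` -/
noncomputable def se (κ : Type) [Fintype κ] (η : ℝ) (hη : η ≠ 0) :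
    (Eu κ × ℝ) ≃ₗ[ℝ] Eu (κ ⊕ Unit) where
  toFun p := mk p.1 (WithLp.toLp 2 fun _ => η * p.2)
  invFun y := (pl y, pr y () / η)
  left_inv p := by
    refine Prod.ext rfl ?_
    simp only [pr_mk]
    field_simp
  right_inv y := by
    ext i
    rcases i with i | ⟨⟩
    · rfl
    · simp only [mk_inr, pr_apply]
      field_simp
  map_add' p q := by
    ext i
    rcases i with i | ⟨⟩
    · rfl
    · simp only [mk_inr, Prod.snd_add, PiLp.add_apply]
      ring
  map_smul' r p := by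
    ext i
    rcases i with i | ⟨⟩
    · rfl
    · simp only [mk_inr, Prod.smul_snd, PiLp.smul_apply, smul_eq_mul, RingHom.id_apply]
      ring

noncomputable def sec (κ : Type) [Fintype κ] (η : ℝ) (hη : η ≠ 0) :
    (Eu κ × ℝ) ≃L[ℝ] Eu (κ ⊕ Unit) := (se κ η hη).toContinuousLinearEquiv

theorem sec_apply (η : ℝ) (hη : η ≠ 0) (p : Eu κ × ℝ) :
    sec κ η hη p = mk p.1 (WithLp.toLp 2 fun _ => η * p.2) := rfl

omit [Nonempty J] in
theorem inner_mk (x x' : Eu κ) (u u' : Eu J) : ⟪mk x u, mk x' u'⟫_ℝ = ⟪x, x'⟫_ℝ + ⟪u, u'⟫_ℝ := by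
  rw [PiLp.inner_apply, PiLp.inner_apply, PiLp.inner_apply, Fintype.sum_sum_type]
  rfl

theorem inner_unit (u u' : Eu Unit) : ⟪u, u'⟫_ℝ = u () * u' () := by
  rw [PiLp.inner_apply]
  simp [mul_comm]

variable (a : J → Eu κ) (b : J → ℝ) (η : ℝ)

/-- normals in the lifted space -/
noncomputable def al (j : J) : Eu (κ ⊕ Unit) := mk (a j) (WithLp.toLp 2 fun _ => -η⁻¹)

/-- the functional in the lifted space -/
noncomputable def hl' (κ : Type) [Fintype κ] (η : ℝ) : Eu (κ ⊕ Unit) :=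
  mk 0 (WithLp.toLp 2 fun _ => η⁻¹)

theorem ep_sec (hη : η ≠ 0) (p : Eu κ × ℝ) :
    ep (al a η) (fun j => -b j) (hl' κ η) (sec κ η hη p + 0) =
      if mx a b p.1 ≤ p.2 then Real.exp (-p.2) else 0 := by
  rw [add_zero, sec_apply]
  unfold ep
  have e1 : ∀ j, ⟪al a η j, mk p.1 (WithLp.toLp 2 fun _ => η * p.2)⟫_ℝ = ⟪a j, p.1⟫_ℝ - p.2 := by
    intro j
    unfold al
    rw [inner_mk, inner_unit]
    simp only
    field_simp
    ring
  have e2 : ⟪hl' κ η, mk p.1 (WithLp.toLp 2 fun _ => η * p.2)⟫_ℝ = p.2 := by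
    unfold hl'
    rw [inner_mk, inner_unit, inner_zero_left]
    simp only
    field_simp
    ring
  simp only [e1, e2, mx_le_iff]
  have e3 : (∀ j, ⟪a j, p.1⟫_ℝ - p.2 ≤ -b j) ↔ ∀ j, ⟪a j, p.1⟫_ℝ + b j ≤ p.2 :=
    forall_congr' fun j => ⟨fun h => by linarith, fun h => by linarith⟩
  simp only [e3]

/-- the density in the variables `(x, t)` -/
noncomputable def xt (p : Eu κ × ℝ) : ℝ := if mx a b p.1 ≤ p.2 then Real.exp (-p.2) else 0

omit [Fintype J] [Nonempty J] in
theorem xt_nonneg (p : Eu κ × ℝ) : 0 ≤ xt a b p := by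
  unfold xt
  split_ifs
  · exact (Real.exp_pos _).le
  · exact le_rfl

theorem xt_meas : Measurable (xt a b) := by
  unfold xt
  have m1 : MeasurableSet {p : Eu κ × ℝ | mx a b p.1 ≤ p.2} :=
    measurableSet_le ((mx_cont a b).measurable.comp measurable_fst) measurable_snd
  exact Measurable.ite m1 (by fun_prop) measurable_const

variable {a b η} {c0 C0 : ℝ}

/-- integrability in the variables `(x, t)` -/
theorem xt_int (hc0 : 0 < c0) (hG : ∀ x, c0 * ‖x‖ - C0 ≤ mx a b x) :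
    Integrable (fun p : Eu κ × ℝ => (1 + ‖p.1‖ ^ 2) * (1 + p.2 ^ 2) * xt a b p) := by
  -- majorant `exp (-(c0/2) ‖x‖) * exp (-|t|/2)`
  have h1 := Q38.LD.Lim.integ (κ := κ) (half_pos hc0)
  have h2 : Integrable (fun t : ℝ => (1 + t ^ 2) * Real.exp (-(1 / 2 * |t|))) := by
    have h3 := Q38.LD.Lim.integ (κ := Unit) (c := 1 / 2) (by norm_num)
    have e : Eu Unit ≃L[ℝ] ℝ := (ContinuousLinearEquiv.ofFinrankEq (by simp))
    let e' : ℝ ≃L[ℝ] Eu Unit :=
      ({ toFun := fun t => WithLp.toLp 2 fun _ => t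
         invFun := fun y => y ()
         left_inv := fun t => rfl
         right_inv := fun y => by ext i; rfl
         map_add' := fun s t => by ext i; rfl
         map_smul' := fun r t => by ext i; rfl } : ℝ ≃ₗ[ℝ] Eu Unit).toContinuousLinearEquiv
    have h4 := (integrable_scale (volume : Measure ℝ) (volume : Measure (Eu Unit)) e' 0
      (fun x : Eu Unit => (1 + ‖x‖ ^ 2) * Real.exp (-(1 / 2 * ‖x‖)))).2 h3
    refine h4.congr (Eventually.of_forall fun t => ?_)
    have e1 : ‖e' t + 0‖ = |t| := by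
      rw [add_zero, EuclideanSpace.norm_eq]
      change Real.sqrt (∑ i : Unit, ‖t‖ ^ 2) = |t|
      simp [Real.sqrt_sq_eq_abs]
    simp only [e1, sq_abs]
  refine ((h1.mul_prod h2).const_mul (Real.exp (2 * |C0|))).mono' ?_ (Eventually.of_forall fun p => ?_)
  · exact ((by fun_prop : Measurable fun p : Eu κ × ℝ => (1 + ‖p.1‖ ^ 2) * (1 + p.2 ^ 2)).mul
      (xt_meas a b)).aestronglyMeasurable
  · rw [Real.norm_of_nonneg (mul_nonneg (by positivity) (xt_nonneg a b p))]
    have h5 : xt a b p ≤ Real.exp (2 * |C0|) * (Real.exp (-(c0 / 2 * ‖p.1‖)) *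
        Real.exp (-(1 / 2 * |p.2|))) := by
      unfold xt
      split_ifs with hp
      · rw [← Real.exp_add, ← Real.exp_add]
        refine Real.exp_le_exp.2 ?_
        have h6 := (hG p.1).trans hp
        have h7 := le_abs_self C0
        have h8 : 0 ≤ c0 * ‖p.1‖ := by positivity
        have h11 := abs_nonneg C0
        rcases abs_cases p.2 with ⟨h9, h10⟩ | ⟨h9, h10⟩ <;> rw [h9] <;> linarith
      · positivity
    calc (1 + ‖p.1‖ ^ 2) * (1 + p.2 ^ 2) * xt a b p
        ≤ (1 + ‖p.1‖ ^ 2) * (1 + p.2 ^ 2) * (Real.exp (2 * |C0|) * (Real.exp (-(c0 / 2 * ‖p.1‖)) *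
        Real.exp (-(1 / 2 * |p.2|)))) := mul_le_mul_of_nonneg_left h5 (by positivity)
      _ = _ := by ring

theorem xt_marg (hc0 : 0 < c0) (hG : ∀ x, c0 * ‖x‖ - C0 ≤ mx a b x) {φ : Eu κ → ℝ}
    (hφ : Grow φ) : ∫ p, φ p.1 * xt a b p = ∫ x, φ x * Real.exp (-mx a b x) := by
  obtain ⟨hc, B, hB⟩ := hφ
  have hi : Integrable (fun p : Eu κ × ℝ => φ p.1 * xt a b p)
      ((volume : Measure (Eu κ)).prod (volume : Measure ℝ)) := by
    refine ((xt_int hc0 hG).const_mul |B|).mono'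
      ((hc.measurable.comp measurable_fst).mul (xt_meas a b)).aestronglyMeasurable
      (Eventually.of_forall fun p => ?_)
    rw [Real.norm_eq_abs, abs_mul, abs_of_nonneg (xt_nonneg a b p), ← mul_assoc]
    refine mul_le_mul_of_nonneg_right ?_ (xt_nonneg a b p)
    have h1 : |φ p.1| ≤ |B| * (1 + ‖p.1‖ ^ 2) :=
      (hB _).trans (mul_le_mul_of_nonneg_right (le_abs_self B) (by positivity))
    refine h1.trans (mul_le_mul_of_nonneg_left ?_ (abs_nonneg _))
    nlinarith [sq_nonneg p.2, sq_nonneg ‖p.1‖, mul_nonneg (sq_nonneg p.2) (sq_nonneg ‖p.1‖)]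
  have h2 := integral_prod _ hi
  change ∫ p, φ p.1 * xt a b p ∂((volume : Measure (Eu κ)).prod (volume : Measure ℝ)) = _
  rw [h2]
  refine integral_congr_ae (Eventually.of_forall fun x => ?_)
  simp only
  rw [integral_const_mul]
  congr 1
  have h3 : (fun t : ℝ => xt a b (x, t)) = (Ici (mx a b x)).indicator fun t => Real.exp (-t) := by
    funext t
    unfold xt indicator
    rfl
  rw [h3, integral_indicator measurableSet_Ici, integral_Ici_eq_integral_Ioi, integral_exp_neg_Ioi]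

theorem ep_al (hη : 0 < η) (hc0 : 0 < c0) (hG : ∀ x, c0 * ‖x‖ - C0 ≤ mx a b x) :
    ∃ c C : ℝ, EP (al a η) (fun j => -b j) (hl' κ η) c C := by
  have hvol : (volume : Measure (Eu κ × ℝ)).IsAddHaarMeasure := by
    change ((volume : Measure (Eu κ)).prod (volume : Measure ℝ)).IsAddHaarMeasure
    infer_instance
  refine ⟨1 / (1 / c0 + η), 2 * (|C0| + 1), ?_, by positivity, ?_, ?_⟩
  · intro j h0
    have h1 : (al a η j) (Sum.inr ()) = 0 := by rw [h0]; rfl
    unfold al at h1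
    simp only [mk_inr, neg_eq_zero, inv_eq_zero] at h1
    exact hη.ne' h1
  · intro v r hr hv
    obtain ⟨p, rfl⟩ : ∃ p, v = sec κ η hη.ne' p := ⟨(sec κ η hη.ne').symm v, by simp⟩
    have e1 : ∀ j, ⟪al a η j, sec κ η hη.ne' p⟫_ℝ = ⟪a j, p.1⟫_ℝ - p.2 := by
      intro j
      rw [sec_apply]
      unfold al
      rw [inner_mk, inner_unit]
      simp only
      field_simp
      ring
    have e2 : ⟪hl' κ η, sec κ η hη.ne' p⟫_ℝ = p.2 := by
      rw [sec_apply]
      unfold hl'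
      rw [inner_mk, inner_unit, inner_zero_left]
      simp only
      field_simp
      ring
    have h1 : mx a b p.1 ≤ p.2 + r := mx_le_iff.2 fun j => by
      have := hv j
      rw [e1] at this
      linarith
    have h2 := (hG p.1).trans h1
    have h3 : ‖sec κ η hη.ne' p‖ ≤ ‖p.1‖ + η * |p.2| := by
      have h4 : ‖sec κ η hη.ne' p‖ ^ 2 = ‖p.1‖ ^ 2 + (η * |p.2|) ^ 2 := by
        rw [sec_apply, norm_mk_sq]
        congr 1
        rw [EuclideanSpace.norm_sq_eq]
        simp [mul_pow, sq_abs]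
      have h5 : 0 ≤ ‖p.1‖ + η * |p.2| := by positivity
      refine (sq_le_sq₀ (norm_nonneg _) h5).1 ?_
      rw [h4]
      have : 0 ≤ ‖p.1‖ * (η * |p.2|) := by positivity
      nlinarith
    rw [e2]
    have hC := le_abs_self C0
    have h6 : ‖p.1‖ ≤ 1 / c0 * (p.2 + 2 * (|C0| + r)) := by
      rw [div_mul_eq_mul_div, one_mul, le_div_iff₀ hc0]
      have := abs_nonneg C0
      linarith
    have h7 : |p.2| ≤ p.2 + 2 * (|C0| + r) := by
      have h8 : 0 ≤ c0 * ‖p.1‖ := by positivity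
      rcases abs_cases p.2 with ⟨h9, h10⟩ | ⟨h9, h10⟩ <;> rw [h9] <;> [skip; skip]
      · have := abs_nonneg C0
        linarith
      · linarith
    have h9 : ‖sec κ η hη.ne' p‖ ≤ (1 / c0 + η) * (p.2 + 2 * (|C0| + r)) := by
      have := mul_le_mul_of_nonneg_left h7 hη.le
      linarith
    rw [div_mul_eq_mul_div, one_mul, div_le_iff₀ (by positivity)]
    refine h9.trans ?_
    rw [mul_comm]
    refine mul_le_mul_of_nonneg_right ?_ (by positivity)
    have := abs_nonneg C0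
    nlinarith [mul_nonneg this hr]
  · rw [← integral_pos_scale (volume : Measure (Eu κ × ℝ)) volume (sec κ η hη.ne') 0]
    simp only [ep_sec]
    have h1 := xt_marg (a := a) (b := b) hc0 hG (φ := fun _ => 1)
      (grow_bdd continuous_const (B := 1) (by simp))
    simp only [one_mul] at h1
    change 0 < ∫ p, xt a b p
    rw [h1]
    have hpos : ∀ x : Eu κ, 0 < Real.exp (-mx a b x) := fun x => Real.exp_pos _
    have hi : Integrable fun x : Eu κ => Real.exp (-mx a b x) := by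
      have hcon : Continuous fun x : Eu κ => Real.exp (-mx a b x) :=
        Real.continuous_exp.comp (mx_cont a b).neg
      refine ((Q38.LD.Lim.integ (κ := κ) hc0).const_mul (Real.exp C0)).mono'
        hcon.aestronglyMeasurable (Eventually.of_forall fun x => ?_)
      rw [Real.norm_of_nonneg (hpos x).le]
      have h2 : Real.exp (-mx a b x) ≤ Real.exp C0 * Real.exp (-(c0 * ‖x‖)) := by
        rw [← Real.exp_add]
        refine Real.exp_le_exp.2 ?_
        have := hG x
        linarith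
      refine h2.trans ?_
      have h3 : 0 < Real.exp C0 * Real.exp (-(c0 * ‖x‖)) := by positivity
      nlinarith [mul_nonneg (sq_nonneg ‖x‖) h3.le]
    rw [integral_pos_iff_support_of_nonneg (fun x => (hpos x).le) hi]
    have : Function.support (fun x : Eu κ => Real.exp (-mx a b x)) = univ := by
      ext x
      simp [(hpos x).ne']
    rw [this]
    exact Measure.measure_univ_pos.2 (NeZero.ne _)

theorem wt_mx (hc0 : 0 < c0) (hG : ∀ x, c0 * ‖x‖ - C0 ≤ mx a b x) :
    Wt fun x => Real.exp (-mx a b x) := by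
  have hcon : Continuous fun x : Eu κ => Real.exp (-mx a b x) :=
    Real.continuous_exp.comp (mx_cont a b).neg
  have h2 : ∀ x, Real.exp (-mx a b x) ≤ Real.exp C0 * Real.exp (-(c0 * ‖x‖)) := fun x => by
    rw [← Real.exp_add]
    refine Real.exp_le_exp.2 ?_
    have := hG x
    linarith
  have hm : Integrable fun x : Eu κ => (1 + ‖x‖ ^ 2) * Real.exp (-mx a b x) := by
    refine ((Q38.LD.Lim.integ (κ := κ) hc0).const_mul (Real.exp C0)).mono'
      ((by fun_prop : Continuous fun x : Eu κ => 1 + ‖x‖ ^ 2).mul hcon).aestronglyMeasurable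
      (Eventually.of_forall fun x => ?_)
    rw [Real.norm_of_nonneg (by positivity)]
    calc (1 + ‖x‖ ^ 2) * Real.exp (-mx a b x)
        ≤ (1 + ‖x‖ ^ 2) * (Real.exp C0 * Real.exp (-(c0 * ‖x‖))) :=
          mul_le_mul_of_nonneg_left (h2 x) (by positivity)
      _ = _ := by ring
  have hi : Integrable fun x : Eu κ => Real.exp (-mx a b x) := by
    refine hm.mono' hcon.aestronglyMeasurable (Eventually.of_forall fun x => ?_)
    rw [Real.norm_of_nonneg (Real.exp_pos _).le]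
    nlinarith [mul_nonneg (sq_nonneg ‖x‖) (Real.exp_pos (-mx a b x)).le]
  refine ⟨fun x => (Real.exp_pos _).le, hcon.measurable, ?_, hm⟩
  rw [integral_pos_iff_support_of_nonneg (fun x => (Real.exp_pos _).le) hi]
  have : Function.support (fun x : Eu κ => Real.exp (-mx a b x)) = univ := by
    ext x
    simp [(Real.exp_pos _).ne']
  rw [this]
  exact Measure.measure_univ_pos.2 (NeZero.ne _)

theorem rep_sec (hη : 0 < η) (φ : Eu (κ ⊕ Unit) → ℝ) :
    ∫ y, φ y ∂(nm (ep (al a η) (fun j => -b j) (hl' κ η))) =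
      (∫ p, φ (sec κ η hη.ne' p) * xt a b p) / ∫ p, xt a b p := by
  have hvol : (volume : Measure (Eu κ × ℝ)).IsAddHaarMeasure := by
    change ((volume : Measure (Eu κ)).prod (volume : Measure ℝ)).IsAddHaarMeasure
    infer_instance
  rw [integral_nm ep_nonneg ep_meas,
    integral_quot (volume : Measure (Eu κ × ℝ)) volume (sec κ η hη.ne') 0]
  simp only [ep_sec]
  simp only [add_zero]
  rfl

/-- **from truncated Gaussian measures to maxima of affine functions** -/
theorem kp_mx {D : ℝ} (hD : 0 ≤ D)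
    (H : ∀ (κ' : Type) [Fintype κ'] (g : Eu κ' → ℝ), NG g → Wt g → KP (nm g) D)
    (hc0 : 0 < c0) (hG : ∀ x, c0 * ‖x‖ - C0 ≤ mx a b x) :
    KP (nm fun x => Real.exp (-mx a b x)) D := by
  have hw := wt_mx hc0 hG
  have hprob := hw.prob
  let ν : ℝ → Measure (Eu (κ ⊕ Unit)) := fun η =>
    nm (ep (al a η) (fun j => -b j) (hl' κ η))
  have hev0 : ∀ᶠ η : ℝ in 𝓝[>] 0, 0 < η := self_mem_nhdsWithin
  have hone := xt_marg (a := a) (b := b) hc0 hG (φ := fun _ => 1)
      (grow_bdd continuous_const (B := 1) (by simp))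
  simp only [one_mul] at hone
  have hWt : ∀ {η : ℝ}, 0 < η → Wt (ep (al a η) (fun j => -b j) (hl' κ η)) := fun {η} hη => by
    obtain ⟨c, C, hE⟩ := ep_al (a := a) (b := b) hη hc0 hG
    exact wt_ep hE
  have hmarg : ∀ {η : ℝ}, 0 < η → ∀ φ : Eu κ → ℝ, Grow φ →
      ∫ x, φ x ∂((ν η).map fun y => (plL : Eu (κ ⊕ Unit) →L[ℝ] Eu κ) y - 0) =
        ∫ x, φ x ∂(nm fun x => Real.exp (-mx a b x)) := by
    intro η hη φ hφ
    have hme : Measurable fun y : Eu (κ ⊕ Unit) => (plL : Eu (κ ⊕ Unit) →L[ℝ] Eu κ) y - 0 := by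
      fun_prop
    rw [integral_map hme.aemeasurable hφ.1.aestronglyMeasurable]
    have h1 := rep_sec (a := a) (b := b) hη fun y => φ ((plL : Eu (κ ⊕ Unit) →L[ℝ] Eu κ) y - 0)
    change ∫ y, φ ((plL : Eu (κ ⊕ Unit) →L[ℝ] Eu κ) y - 0)
      ∂(nm (ep (al a η) (fun j => -b j) (hl' κ η))) = _
    rw [h1, integral_nm hw.nonneg hw.meas, hone]
    congr 1
    rw [← xt_marg hc0 hG hφ]
    refine integral_congr_ae (Eventually.of_forall fun p => ?_)
    simp only
    congr 2
    rw [sub_zero]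
    rfl
  refine KP.lift (l := 𝓝[>] (0 : ℝ)) (K := fun _ => κ ⊕ Unit) (ν := ν)
    (T := fun _ => (plL : Eu (κ ⊕ Unit) →L[ℝ] Eu κ)) (b := fun _ => 0)
    (J := fun _ => (inL : Eu κ →L[ℝ] Eu (κ ⊕ Unit))) hD ?_ ?_
    (fun _ => plL_norm) (fun _ => inL_norm) ?_ ?_ ?_
  · filter_upwards [hev0] with η hη
    exact (hWt hη).prob
  · filter_upwards [hev0] with η hη
    exact (hWt hη).int_sq
  · refine ⟨?_, ?_, hw.int_sq, ?_⟩
    · filter_upwards [hev0] with η hη
      have := (hWt hη).prob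
      exact Measure.isProbabilityMeasure_map (by fun_prop)
    · filter_upwards [hev0] with η hη
      have hp := (hWt hη).prob
      have hme : Measurable fun y : Eu (κ ⊕ Unit) =>
        (plL : Eu (κ ⊕ Unit) →L[ℝ] Eu κ) y - 0 := by fun_prop
      rw [integrable_map_measure (by fun_prop) hme.aemeasurable]
      refine (hWt hη).int_sq.mono' (by fun_prop) (Eventually.of_forall fun y => ?_)
      simp only [Function.comp_apply]
      rw [Real.norm_of_nonneg (by positivity), sub_zero]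
      refine pow_le_pow_left₀ (norm_nonneg _) ?_ 2
      exact ((plL : Eu (κ ⊕ Unit) →L[ℝ] Eu κ).le_opNorm y).trans
          (mul_le_of_le_one_left (norm_nonneg _) plL_norm)
    · intro φ hφ
      refine tendsto_const_nhds.congr' ?_
      filter_upwards [hev0] with η hη
      exact (hmarg hη φ hφ).symm
  · intro ε hε
    obtain ⟨K, hK⟩ : ∃ K : ℝ, K = (∫ p : Eu κ × ℝ, (1 + ‖p.1‖ ^ 2) * (1 + p.2 ^ 2) * xt a b p) /
      ∫ p, xt a b p := ⟨_, rfl⟩
    have hxpos : 0 < ∫ p, xt a b p := by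
      rw [hone]
      exact hw.pos
    have hsmall : ∀ᶠ η : ℝ in 𝓝[>] 0, η ^ 2 * K ≤ ε := by
      have h1 : Tendsto (fun η : ℝ => η ^ 2 * K) (𝓝[>] 0) (𝓝 (0 ^ 2 * K)) := by
        refine Tendsto.mono_left ?_ nhdsWithin_le_nhds
        refine Continuous.tendsto ?_ 0
        fun_prop
      have e : (0 : ℝ) ^ 2 * K = 0 := by ring
      rw [e] at h1
      exact (h1.eventually (gt_mem_nhds hε)).mono fun a ha => ha.le
    filter_upwards [hev0, hsmall] with η hη hsm
    intro θ hθ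
    have hp := (hWt hη).prob
    have hcont : Continuous fun y : Eu (κ ⊕ Unit) =>
      ⟪y - (inL : Eu κ →L[ℝ] Eu (κ ⊕ Unit)) ((plL : Eu (κ ⊕ Unit) →L[ℝ] Eu κ) y), θ⟫_ℝ := by
      fun_prop
    refine (ProbabilityTheory.variance_le_expectation_sq hcont.aestronglyMeasurable).trans ?_
    have e1 := rep_sec (a := a) (b := b) hη fun y =>
      ⟪y - (inL : Eu κ →L[ℝ] Eu (κ ⊕ Unit)) ((plL : Eu (κ ⊕ Unit) →L[ℝ] Eu κ) y), θ⟫_ℝ ^ 2
    refine (le_of_eq e1).trans (le_trans ?_ hsm)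
    rw [hK, mul_div_assoc']
    refine div_le_div_of_nonneg_right ?_ hxpos.le
    rw [← integral_const_mul]
    refine integral_mono_of_nonneg (Eventually.of_forall fun p =>
      mul_nonneg (sq_nonneg _) (xt_nonneg a b p)) ((xt_int hc0 hG).const_mul _)
      (Eventually.of_forall fun p => ?_)
    simp only
    rw [← mul_assoc]
    refine mul_le_mul_of_nonneg_right ?_ (xt_nonneg a b p)
    rw [sub_inL_pl]
    have h2 := abs_real_inner_le_norm (mk 0 (pr (sec κ η hη.ne' p)) : Eu (κ ⊕ Unit)) θ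
    rw [hθ, mul_one] at h2
    calc ⟪(mk 0 (pr (sec κ η hη.ne' p)) : Eu (κ ⊕ Unit)), θ⟫_ℝ ^ 2
        = |⟪(mk 0 (pr (sec κ η hη.ne' p)) : Eu (κ ⊕ Unit)), θ⟫_ℝ| ^ 2 := (sq_abs _).symm
      _ ≤ ‖(mk 0 (pr (sec κ η hη.ne' p)) : Eu (κ ⊕ Unit))‖ ^ 2 :=
          pow_le_pow_left₀ (abs_nonneg _) h2 2
      _ = η ^ 2 * p.2 ^ 2 := by
          rw [norm_mk_sq, EuclideanSpace.norm_sq_eq, EuclideanSpace.norm_sq_eq]
          simp [sec_apply, mul_pow]
      _ ≤ η ^ 2 * ((1 + ‖p.1‖ ^ 2) * (1 + p.2 ^ 2)) := by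
          refine mul_le_mul_of_nonneg_left ?_ (sq_nonneg _)
          nlinarith [sq_nonneg p.2, sq_nonneg ‖p.1‖, mul_nonneg (sq_nonneg p.2) (sq_nonneg ‖p.1‖)]
  · filter_upwards [hev0] with η hη
    obtain ⟨c, C, hE⟩ := ep_al (a := a) (b := b) hη hc0 hG
    exact kp_ep hD H hE

end Pool.Agent.H776
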