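import Pool.Graph.R_pool_sql_team_seeded_3997aac3.Q86.EM.Asm1

/-!
# E. Milman's theorem with one level

The variance bound is only assumed for bounded Lipschitz functions. Adapted from the library proof
(`Q86.EM`, `Q237.EM.Lip`, `Q153.EM.Mid`, `Q247.EM.EML`).
-/

set_option autoImplicit false

namespace Pool.Agent.H776.NC

open MeasureTheory Set Filter Topology
open scoped ENNReal InnerProductSpace ContDiff
open Pool.Agent.H888R2.KT (LC pst gs zz gc)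
open Pool.Agent.H212R2.KLS (mu Bdd)
open Pool.Agent.Q86.EM

variable {κ : Type} [Fintype κ]

/-- functions of class `C¹` -/
theorem lip_smooth {ρ : Eu κ → ℝ} {D h : ℝ} (hh : 0 < h)
    (hlip : ∀ f : Eu κ → ℝ, ContDiff ℝ 1 f → (∀ x, ‖fderiv ℝ f x‖ ≤ 1) →
      (∀ x, 0 ≤ f x) → (∀ x, f x ≤ Real.sqrt h) →
      ∫ x, f x ^ 2 ∂(mu ρ) - (∫ x, f x ∂(mu ρ)) ^ 2 ≤ D)
    {φ : Eu κ → ℝ} (hφ : ContDiff ℝ 1 φ) (h0 : ∀ y, 0 ≤ φ y) (h1 : ∀ y, φ y ≤ 1) {B : ℝ} (hB1 : 1 ≤ B)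
    (hB : ∀ y, ‖fderiv ℝ φ y‖ ≤ B) :
    ∫ x, (gs h φ x) ^ 2 ∂(mu ρ) - (∫ x, gs h φ x ∂(mu ρ)) ^ 2 ≤ D / h := by
  have hb : ∀ y, |φ y| ≤ B := fun y => (abs_le.2 ⟨by linarith [h0 y], h1 y⟩ : |φ y| ≤ 1).trans hB1
  set v := gs h φ with hv
  have hv1 : ContDiff ℝ 1 v := (Pool.Agent.H888R2.KT.gs_deriv h hh φ hφ B hb hB).1
  have hvle : ∀ x, v x ≤ 1 := fun x =>
    Pool.Agent.H888R2.KB.N1x.gs_le h hh φ hφ.continuous h0 h1 x
  have hvnn : ∀ x, 0 ≤ v x := by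
    intro x
    obtain ⟨g1, g2, -⟩ := p_gsf κ h hh
    have := (g1 (fun _ => 0) φ continuous_const hφ.continuous 1 (fun y => by simp)
      (fun y => abs_le.2 ⟨by linarith [h0 y], h1 y⟩)).2.2.2.2.2 h0 x
    rwa [g2] at this
  have hg : ∀ x, h * ‖fderiv ℝ v x‖ ^ 2 ≤ 1 := by
    intro x
    have h2 := Pool.Agent.H888R2.KT.gs_bessel h hh φ hφ B hb hB x
    have h3 := Pool.Agent.H888R2.KB.N1x.gs_le h hh (fun y => φ y ^ 2) (hφ.continuous.pow 2)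
      (fun y => sq_nonneg _) (fun y => by nlinarith [h0 y, h1 y]) x
    nlinarith [sq_nonneg (gs h φ x)]
  have hs : 0 < Real.sqrt h := Real.sqrt_pos.2 hh
  have hsq : Real.sqrt h ^ 2 = h := Real.sq_sqrt hh.le
  have h4 := hlip (fun x => Real.sqrt h * v x) (contDiff_const.mul hv1) (fun x => by
    have h5 : fderiv ℝ (fun x => Real.sqrt h * v x) x = Real.sqrt h • fderiv ℝ v x := by
      have := (hv1.differentiable one_ne_zero x).hasFDerivAt.const_mul (Real.sqrt h)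
      exact this.fderiv
    rw [h5, norm_smul, Real.norm_eq_abs, abs_of_pos hs]
    have h6 := hg x
    have h7 : (Real.sqrt h * ‖fderiv ℝ v x‖) ^ 2 ≤ 1 ^ 2 := by rw [mul_pow, hsq, one_pow]; exact h6
    exact le_of_sq_le_sq h7 zero_le_one) (fun x => mul_nonneg hs.le (hvnn x))
    (fun x => mul_le_of_le_one_right hs.le (hvle x))
  have h8 : ∫ x, (Real.sqrt h * v x) ^ 2 ∂(mu ρ) = h * ∫ x, v x ^ 2 ∂(mu ρ) := by
    rw [← integral_const_mul]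
    refine integral_congr_ae (Filter.Eventually.of_forall fun x => ?_)
    show (Real.sqrt h * v x) ^ 2 = h * v x ^ 2
    rw [mul_pow, hsq]
  have h9 : (∫ x, Real.sqrt h * v x ∂(mu ρ)) ^ 2 = h * (∫ x, v x ∂(mu ρ)) ^ 2 := by
    rw [integral_const_mul, mul_pow, hsq]
  rw [h8, h9] at h4
  rw [le_div_iff₀ hh]
  linarith

/-- Gaussian averages -/
theorem lip {ρ : Eu κ → ℝ} (hm : mu ρ univ = 1) {D h : ℝ} (hh : 0 < h)
    (hlip : ∀ f : Eu κ → ℝ, ContDiff ℝ 1 f → (∀ x, ‖fderiv ℝ f x‖ ≤ 1) →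
      (∀ x, 0 ≤ f x) → (∀ x, f x ≤ Real.sqrt h) →
      ∫ x, f x ^ 2 ∂(mu ρ) - (∫ x, f x ∂(mu ρ)) ^ 2 ≤ D) (v : Eu κ → ℝ) (hv : Vc v) :
    ∫ x, (gs h v x) ^ 2 ∂(mu ρ) - (∫ x, gs h v x ∂(mu ρ)) ^ 2 ≤ D / h := by
  obtain ⟨g1, g2, -⟩ := p_gsf κ h hh
  have hMp : IsProbabilityMeasure (mu ρ) := ⟨hm⟩
  obtain ⟨w, hw, hlim⟩ := Pool.Agent.Q237.EM.approx v hv
  have bd : ∀ u : Eu κ → ℝ, Continuous u → (∀ y, 0 ≤ u y) → (∀ y, u y ≤ 1) →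
      Continuous (gs h u) ∧ ∀ x, |gs h u x| ≤ 1 := by
    intro u hu hu0 hu1
    have hB : ∀ y, |u y| ≤ 1 := fun y => abs_le.2 ⟨by linarith [hu0 y], hu1 y⟩
    exact ⟨(g1 u u hu hu 1 hB hB).1, (g1 u u hu hu 1 hB hB).2.1⟩
  have hwb : ∀ n, Continuous (gs h (w n)) ∧ ∀ x, |gs h (w n) x| ≤ 1 := fun n =>
    bd (w n) (hw n).1.continuous (hw n).2.1 (hw n).2.2.1
  -- pointwise convergence of the averages
  have hG : ∀ x, Tendsto (fun n => gs h (w n) x) atTop (𝓝 (gs h v x)) := by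
    intro x
    unfold gs
    refine Tendsto.div_const ?_ _
    have hgi := (Pool.Agent.H888R2.KT.gc_pos (κ := κ) h hh).2.2.1 x
    refine tendsto_integral_of_dominated_convergence (fun y => Real.exp (-(‖x - y‖ ^ 2 / (2 * h)))) ?_ hgi ?_ ?_
    · intro n
      exact ((hw n).1.continuous.mul (by fun_prop)).aestronglyMeasurable
    · intro n
      refine Eventually.of_forall fun y => ?_
      rw [Real.norm_eq_abs, abs_mul, abs_of_nonneg ((hw n).2.1 y), abs_of_pos (Real.exp_pos _)]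
      exact mul_le_of_le_one_left (Real.exp_pos _).le ((hw n).2.2.1 y)
    · exact Eventually.of_forall fun y => (hlim y).mul_const _
  have c1 : Tendsto (fun n => ∫ x, gs h (w n) x ∂(mu ρ)) atTop (𝓝 (∫ x, gs h v x ∂(mu ρ))) := by
    refine tendsto_integral_of_dominated_convergence (fun _ => 1) ?_ (integrable_const _) ?_ ?_
    · exact fun n => (hwb n).1.aestronglyMeasurable
    · exact fun n => Eventually.of_forall fun x => by rw [Real.norm_eq_abs]; exact (hwb n).2 x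
    · exact Eventually.of_forall hG
  have c2 : Tendsto (fun n => ∫ x, (gs h (w n) x) ^ 2 ∂(mu ρ)) atTop (𝓝 (∫ x, (gs h v x) ^ 2 ∂(mu ρ))) := by
    refine tendsto_integral_of_dominated_convergence (fun _ => 1) ?_ (integrable_const _) ?_ ?_
    · exact fun n => ((hwb n).1.pow 2).aestronglyMeasurable
    · refine fun n => Eventually.of_forall fun x => ?_
      rw [Real.norm_eq_abs, abs_of_nonneg (sq_nonneg _), ← sq_abs]
      have := (hwb n).2 x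
      have := abs_nonneg (gs h (w n) x)
      nlinarith
    · exact Eventually.of_forall fun x => (hG x).pow 2
  refine le_of_tendsto (c2.sub (c1.pow 2)) (Eventually.of_forall fun n => ?_)
  obtain ⟨e1, e2, e3, B, e4, e5⟩ := hw n
  exact lip_smooth hh hlip e1 e2 e3 e4 e5

/-- the functional at sets of mean one half -/
theorem mid {ρ : Eu κ → ℝ} (hρ : LC ρ) (hm : mu ρ univ = 1) {D h : ℝ} (hh : 0 < h)
    (hD : ∀ f : Eu κ → ℝ, ContDiff ℝ 1 f → (∀ x, ‖fderiv ℝ f x‖ ≤ 1) →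
      (∀ x, 0 ≤ f x) → (∀ x, f x ≤ Real.sqrt h) →
      ∫ x, f x ^ 2 ∂(mu ρ) - (∫ x, f x ∂(mu ρ)) ^ 2 ≤ D) (v : Eu κ → ℝ) (hv : Vc v)
    (hv2 : ∫ y, v y ∂(ny h ρ) = 1 / 2) : 7 / 960 - 2 * D / h ≤ JJ h ρ v := by
  obtain ⟨hP, hF⟩ := p_fub κ ρ hρ hm h hh
  have hPm : IsProbabilityMeasure (mu ρ) := ⟨hm⟩
  obtain ⟨g1, g2, -⟩ := p_gsf κ h hh
  have hvb : ∀ y, |v y| ≤ 1 := fun y => abs_le.2 ⟨by linarith [hv.nn y], hv.le y⟩
  have h0b : ∀ y : Eu κ, |(0 : ℝ)| ≤ 1 := fun y => by simp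
  have h1b : ∀ y : Eu κ, |(1 : ℝ)| ≤ 1 := fun y => by simp
  obtain ⟨hGc, hGb, -, -, -, -⟩ := g1 v v hv.cont hv.cont 1 hvb hvb
  have hG0 : ∀ x, 0 ≤ gs h v x := by
    intro x
    have := (g1 (fun _ => 0) v continuous_const hv.cont 1 h0b hvb).2.2.2.2.2 hv.nn x
    rwa [g2] at this
  have hG1 : ∀ x, gs h v x ≤ 1 := fun x => (abs_le.1 (hGb x)).2
  -- the integral of `G v`
  have e1 : ∫ x, gs h v x ∂(mu ρ) = 1 / 2 := by
    have h4 := (hF (fun _ => 1) v continuous_const hv.cont 1 hvb).2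
    simp only [one_mul] at h4
    rw [h4, ← hv2]
    refine integral_congr_ae (Eventually.of_forall fun y => ?_)
    show pst h ρ (fun _ => 1) y * v y = v y
    rw [Pool.Agent.H888R2.KT.N9ax.pst_one hρ h hh y, one_mul]
  -- the first term
  have e2 : 1 / 4 ≤ ∫ y, v y ^ 2 ∂(ny h ρ) := by
    have i1 : Integrable v (ny h ρ) :=
      Integrable.of_bound hv.cont.aestronglyMeasurable 1 (Eventually.of_forall fun y => hvb y)
    have i2 : Integrable (fun y => v y ^ 2) (ny h ρ) :=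
      Integrable.of_bound (by have := hv.cont; fun_prop) 1 (Eventually.of_forall fun y => by
        rw [Real.norm_eq_abs, abs_pow]
        exact pow_le_one₀ (abs_nonneg _) (hvb y))
    have h5 : ∫ y, (v y - 1 / 4) ∂(ny h ρ) ≤ ∫ y, v y ^ 2 ∂(ny h ρ) := by
      refine integral_mono (i1.sub (integrable_const _)) i2 fun y => ?_
      show v y - 1 / 4 ≤ v y ^ 2
      nlinarith [sq_nonneg (v y - 1 / 2)]
    rw [integral_sub i1 (integrable_const _), hv2, integral_const, probReal_univ, one_smul] at h5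
    linarith
  -- the second term
  have iG : Integrable (gs h v) (mu ρ) := Pool.Agent.H888R2.KT.N9ax.integrable hρ hGc
  have iG2 : Integrable (fun x => gs h v x ^ 2) (mu ρ) := Pool.Agent.H888R2.KT.N9ax.integrable hρ (by fun_prop)
  have hKc : Continuous Kp := by
    unfold Kp
    fun_prop
  have iK : Integrable (fun x => Kp (gs h v x)) (mu ρ) := Pool.Agent.H888R2.KT.N9ax.integrable hρ (hKc.comp hGc)
  have e3 := lip hm hh hD v hv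
  rw [e1] at e3
  have e4 : ∫ x, Kp (gs h v x) ∂(mu ρ) ≤
      ∫ x, (2 * gs h v x ^ 2 + ((Ps (1 / 2) - 2) * gs h v x +
        (Kp (1 / 2) - Ps (1 / 2) * (1 / 2) + 1 / 2))) ∂(mu ρ) := by
    refine integral_mono iK ((iG2.const_mul 2).add ((iG.const_mul _).add (integrable_const _)))
      fun x => ?_
    show Kp (gs h v x) ≤ 2 * gs h v x ^ 2 + ((Ps (1 / 2) - 2) * gs h v x +
        (Kp (1 / 2) - Ps (1 / 2) * (1 / 2) + 1 / 2))
    have := Kp_upper (hG0 x) (hG1 x) (by norm_num : (0 : ℝ) ≤ 1 / 2) (by norm_num)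
    nlinarith [this]
  have e7 : ∫ x, (2 * gs h v x ^ 2 + ((Ps (1 / 2) - 2) * gs h v x +
        (Kp (1 / 2) - Ps (1 / 2) * (1 / 2) + 1 / 2))) ∂(mu ρ) =
      2 * ∫ x, gs h v x ^ 2 ∂(mu ρ) + ((Ps (1 / 2) - 2) * (1 / 2) +
        (Kp (1 / 2) - Ps (1 / 2) * (1 / 2) + 1 / 2)) := by
    have i1 : Integrable (fun x => 2 * gs h v x ^ 2) (mu ρ) := iG2.const_mul 2
    have i2 : Integrable (fun x => (Ps (1 / 2) - 2) * gs h v x) (mu ρ) := iG.const_mul _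
    have i3 : Integrable (fun _ : Eu κ => Kp (1 / 2) - Ps (1 / 2) * (1 / 2) + 1 / 2) (mu ρ) :=
      integrable_const _
    have j1 := integral_add i1 (i2.add i3)
    have j2 := integral_add i2 i3
    simp only [Pi.add_apply] at j1 j2
    rw [j1, j2, integral_const_mul, integral_const_mul, integral_const, probReal_univ, one_smul, e1]
  rw [e7] at e4
  have e5 := Kp_at_half
  have e6 : 2 * D / h = 2 * (D / h) := by ring
  unfold JJ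
  rw [e6]
  nlinarith [e2, e3, e4, e5]

/-- the inequality for the tilted density -/
theorem tilted {C : ℝ}
    (h5 : ∀ (κ : Type) [Fintype κ] (ρ : Eu κ → ℝ), LC ρ →
      mu ρ univ = 1 → ∀ A : ℝ, 0 ≤ A →
      (∀ u : Eu κ → ℝ, ContDiff ℝ 1 u → (∀ x, 0 ≤ u x) → (∀ x, u x ≤ 1) →
        ∫ x, u x ∂(mu ρ) ≤ 1 / 2 →
        ∫ x, (Kp (u x) - 1 / 2 * u x ^ 2) ∂(mu ρ) ≤ A * ∫ x, ‖fderiv ℝ u x‖ ^ 2 ∂(mu ρ)) →
      ∀ f : Eu κ → ℝ, ContDiff ℝ 1 f →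
        ∫ x, f x ^ 2 ∂(mu ρ) - (∫ x, f x ∂(mu ρ)) ^ 2 ≤
          C * A * ∫ x, ‖fderiv ℝ f x‖ ^ 2 ∂(mu ρ))
    {ρ : Eu κ → ℝ} (hρ : LC ρ) (hm : mu ρ univ = 1) {D : ℝ} (hD : 0 < D)
    (hL : ∀ f : Eu κ → ℝ, ContDiff ℝ 1 f → (∀ x, ‖fderiv ℝ f x‖ ≤ 1) →
      (∀ x, 0 ≤ f x) → (∀ x, f x ≤ Real.sqrt (960 * D)) →
      ∫ x, f x ^ 2 ∂(mu ρ) - (∫ x, f x ∂(mu ρ)) ^ 2 ≤ D)
    {δ : ℝ} (hδ : 0 < δ) (f : Eu κ → ℝ) (hf : ContDiff ℝ 1 f) (c : ℝ) (hc0 : 0 < c) (hc2 : c ≤ 2)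
    (hc : c * ∫ x, Real.exp (-(δ / 2 * ‖x‖ ^ 2)) ∂(mu ρ) = 1) :
    c * (∫ x, f x ^ 2 * Real.exp (-(δ / 2 * ‖x‖ ^ 2)) ∂(mu ρ)) -
        (c * ∫ x, f x * Real.exp (-(δ / 2 * ‖x‖ ^ 2)) ∂(mu ρ)) ^ 2 ≤
      C * (3 / 2 * (960 * D)) *
        (c * ∫ x, ‖fderiv ℝ f x‖ ^ 2 * Real.exp (-(δ / 2 * ‖x‖ ^ 2)) ∂(mu ρ)) := by
  have hi : ∀ f : Eu κ → ℝ, Continuous f → Integrable f (mu ρ) := fun f hf =>
    Pool.Agent.H888R2.KT.N9ax.integrable hρ hf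
  obtain ⟨t1, t2, t3, t4⟩ := p_til κ ρ hρ δ c hδ hc0
  -- mass one
  have hmass : mu (tl δ c ρ) univ = 1 := by
    have e1 := t2 fun _ => (1 : ℝ)
    simp only [one_mul] at e1
    rw [hc, integral_const, smul_eq_mul, mul_one] at e1
    have : (mu (tl δ c ρ)).real univ = 1 := e1
    rw [measureReal_def] at this
    rw [← ENNReal.ofReal_toReal t1.fin, this, ENNReal.ofReal_one]
  -- Lipschitz functions
  have hL' : ∀ g : Eu κ → ℝ, ContDiff ℝ 1 g → (∀ x, ‖fderiv ℝ g x‖ ≤ 1) →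
      (∀ x, 0 ≤ g x) → (∀ x, g x ≤ Real.sqrt (960 * D)) →
      ∫ x, g x ^ 2 ∂(mu (tl δ c ρ)) - (∫ x, g x ∂(mu (tl δ c ρ))) ^ 2 ≤ 2 * D := by
    intro g hg hg1 hg2 hg3
    have hgc := hg.continuous
    set m := ∫ z, g z ∂(mu ρ) with hmm
    refine (Pool.Agent.Q247.EM.var_le t1 hmass g hgc m).trans ?_
    rw [t2 fun x => (g x - m) ^ 2]
    refine mul_le_mul hc2 ?_ (integral_nonneg fun x =>
      mul_nonneg (sq_nonneg _) (Real.exp_pos _).le) (by norm_num)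
    refine le_trans ?_ (hL g hg hg1 hg2 hg3)
    rw [Pool.Agent.Q247.EM.var_eq hρ hm g hgc]
    refine integral_mono (hi _ (by fun_prop)) (hi _ (by fun_prop)) fun x => ?_
    refine mul_le_of_le_one_right (sq_nonneg _) (Real.exp_le_one_iff.2 ?_)
    have : 0 ≤ δ / 2 * ‖x‖ ^ 2 := by positivity
    linarith
  have hh : 0 < 960 * D := by positivity
  -- mean one half
  have m1 : ∀ v : Eu κ → ℝ, Vc v → ∫ y, v y ∂(ny (960 * D) (tl δ c ρ)) = 1 / 2 →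
      0 ≤ JJ (960 * D) (tl δ c ρ) v := by
    intro v hv hv2
    have := mid t1 hmass hh hL' v hv hv2
    have e : 7 / 960 - 2 * (2 * D) / (960 * D) = 3 / 960 := by
      field_simp
      norm_num
    rw [e] at this
    linarith
  have hθ0 : 0 ≤ (1 + δ * (960 * D))⁻¹ := by positivity
  have hθ1 : (1 + δ * (960 * D))⁻¹ < 1 := by
    refine inv_lt_one_of_one_lt₀ ?_
    have : 0 < δ * (960 * D) := by positivity
    linarith
  have m2 := p_sta κ (tl δ c ρ) t1 hmass (960 * D) hh _ hθ0 hθ1 (t4 _ hh)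
    ⟨δ⁻¹, by positivity, t3 hmass⟩ m1
  have m3 := p_ene κ (tl δ c ρ) t1 hmass (960 * D) hh m2
  have m4 := h5 κ (tl δ c ρ) t1 hmass (3 / 2 * (960 * D)) (by positivity) m3 f hf
  rw [t2 fun x => f x ^ 2, t2 f, t2 fun x => ‖fderiv ℝ f x‖ ^ 2] at m4
  exact m4

/-- **E. Milman's theorem with one level** -/
theorem em1 : ∃ C : ℝ, 0 < C ∧ ∀ (κ : Type) [Fintype κ] (ρ : Eu κ → ℝ), LC ρ →
    mu ρ univ = 1 → ∀ D : ℝ, 0 < D →
    (∀ f : Eu κ → ℝ, ContDiff ℝ 1 f → (∀ x, ‖fderiv ℝ f x‖ ≤ 1) →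
      (∀ x, 0 ≤ f x) → (∀ x, f x ≤ Real.sqrt (960 * D)) →
      ∫ x, f x ^ 2 ∂(mu ρ) - (∫ x, f x ∂(mu ρ)) ^ 2 ≤ D) →
    ∀ f : Eu κ → ℝ, ContDiff ℝ 1 f →
      ∫ x, f x ^ 2 ∂(mu ρ) - (∫ x, f x ∂(mu ρ)) ^ 2 ≤ C * D * ∫ x, ‖fderiv ℝ f x‖ ^ 2 ∂(mu ρ) := by
  obtain ⟨C, hC, h5⟩ := p_lev
  refine ⟨C * 1440, by positivity, ?_⟩
  intro κ _ ρ hρ hm D hD hL f hf
  have hi : ∀ f : Eu κ → ℝ, Continuous f → Integrable f (mu ρ) := fun f hf =>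
    Pool.Agent.H888R2.KT.N9ax.integrable hρ hf
  have : IsProbabilityMeasure (mu ρ) := ⟨hm⟩
  have hfc := hf.continuous
  have hdc : Continuous fun x => fderiv ℝ f x := hf.continuous_fderiv (by norm_num)
  set Z : ℕ → ℝ := fun n => ∫ x, (1 : ℝ) * Real.exp (-((1 / ((n : ℝ) + 1)) / 2 * ‖x‖ ^ 2)) ∂(mu ρ)
    with hZ
  have hZt : Tendsto Z atTop (𝓝 1) := by
    have := Pool.Agent.Q247.EM.tend hρ (fun _ => (1 : ℝ)) continuous_const
    have e : ∫ x : Eu κ, (1 : ℝ) ∂(mu ρ) = 1 := by simp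
    rw [e] at this
    exact this
  have hZp : ∀ n, 0 < Z n := by
    intro n
    have : 0 < ∫ x, Real.exp (-((1 / ((n : ℝ) + 1)) / 2 * ‖x‖ ^ 2)) ∂(mu ρ) :=
      integral_exp_pos (hi _ (by fun_prop))
    have e : Z n = ∫ x, Real.exp (-((1 / ((n : ℝ) + 1)) / 2 * ‖x‖ ^ 2)) ∂(mu ρ) := by
      simp only [hZ, one_mul]
    rw [e]
    exact this
  have hct : Tendsto (fun n => (Z n)⁻¹) atTop (𝓝 1) := by
    have := hZt.inv₀ one_ne_zero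
    simpa using this
  have hev : ∀ᶠ n in atTop, (Z n)⁻¹ ≤ 2 :=
    (hct.eventually (gt_mem_nhds (by norm_num : (1 : ℝ) < 2))).mono fun n hn => hn.le
  have key : ∀ᶠ n : ℕ in atTop, (Z n)⁻¹ *
      (∫ x, f x ^ 2 * Real.exp (-((1 / ((n : ℝ) + 1)) / 2 * ‖x‖ ^ 2)) ∂(mu ρ)) -
      ((Z n)⁻¹ * ∫ x, f x * Real.exp (-((1 / ((n : ℝ) + 1)) / 2 * ‖x‖ ^ 2)) ∂(mu ρ)) ^ 2 ≤
    C * (3 / 2 * (960 * D)) *
      ((Z n)⁻¹ *
        ∫ x, ‖fderiv ℝ f x‖ ^ 2 * Real.exp (-((1 / ((n : ℝ) + 1)) / 2 * ‖x‖ ^ 2)) ∂(mu ρ)) := by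
    filter_upwards [hev] with n hn
    refine tilted h5 hρ hm hD hL (δ := 1 / ((n : ℝ) + 1)) (by positivity) f hf
      (Z n)⁻¹ (inv_pos.2 (hZp n)) hn ?_
    have e : ∫ x, Real.exp (-((1 / ((n : ℝ) + 1)) / 2 * ‖x‖ ^ 2)) ∂(mu ρ) = Z n := by
      simp only [hZ, one_mul]
    rw [e]
    exact inv_mul_cancel₀ (hZp n).ne'
  have l1 := ((hct.mul (Pool.Agent.Q247.EM.tend hρ (fun x => f x ^ 2) (by fun_prop))).sub
    ((hct.mul (Pool.Agent.Q247.EM.tend hρ f hfc)).pow 2))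
  have l2 := ((hct.mul (Pool.Agent.Q247.EM.tend hρ (fun x => ‖fderiv ℝ f x‖ ^ 2)
    (by fun_prop))).const_mul (C * (3 / 2 * (960 * D))))
  have l3 := le_of_tendsto_of_tendsto l1 l2 key
  calc ∫ x, f x ^ 2 ∂(mu ρ) - (∫ x, f x ∂(mu ρ)) ^ 2
      = 1 * ∫ x, f x ^ 2 ∂(mu ρ) - (1 * ∫ x, f x ∂(mu ρ)) ^ 2 := by ring
    _ ≤ _ := l3
    _ = C * 1440 * D * ∫ x, ‖fderiv ℝ f x‖ ^ 2 ∂(mu ρ) := by ring

end Pool.Agent.H776.NC
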