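import Pool.Agent.H776.GE6
import Pool.Agent.H776.NC1

/-!
# Log-concave densities of few quadratic polynomials and linear functionals, I
-/

set_option autoImplicit false

namespace Pool.Agent.H776.NC

open MeasureTheory Set Filter Topology
open scoped ENNReal InnerProductSpace
open Pool.Agent.H776.FE (lev exists_ub supergrad)
open Pool.Agent.H776.GE (rpow_ofReal)

variable {κ : Type} [Fintype κ] {k : ℕ}

/-- the functions of the levels -/
structure Fm (F : Fin k → Eu κ → ℝ) : Prop where
  cont : ∀ j, Continuous (F j)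
  conv : ∀ j, ConvexOn ℝ univ (F j)
  bdd : ∀ s : Fin k → ℝ, Bornology.IsBounded (lev F s)

theorem lev_closed {F : Fin k → Eu κ → ℝ} (h : Fm F) (s : Fin k → ℝ) : IsClosed (lev F s) := by
  have e : lev F s = ⋂ j, {x | F j x ≤ s j} := by
    ext x
    simp [lev]
  rw [e]
  exact isClosed_iInter fun j => isClosed_le (h.cont j) continuous_const

theorem lev_meas {F : Fin k → Eu κ → ℝ} (h : Fm F) (s : Fin k → ℝ) : MeasurableSet (lev F s) :=
  (lev_closed h s).measurableSet

theorem lev_compact {F : Fin k → Eu κ → ℝ} (h : Fm F) (s : Fin k → ℝ) : IsCompact (lev F s) :=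
  Metric.isCompact_of_isClosed_isBounded (lev_closed h s) (h.bdd s)

theorem lev_lt_top {F : Fin k → Eu κ → ℝ} (h : Fm F) (s : Fin k → ℝ) : volume (lev F s) < ⊤ :=
  (lev_compact h s).measure_lt_top

/-- the density with the levels shifted by `t` -/
def den (F : Fin k → Eu κ → ℝ) (G : (Fin k → ℝ) → Eu κ → ℝ) (t : Fin k → ℝ) (x : Eu κ) : ℝ :=
  G (fun j => F j x + t j) x

/-- its integral -/
noncomputable def N (F : Fin k → Eu κ → ℝ) (G : (Fin k → ℝ) → Eu κ → ℝ) (t : Fin k → ℝ) : ℝ :=
  ∫ x, den F G t x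

/-- densities as functions of the levels and of the point -/
structure Gx (F : Fin k → Eu κ → ℝ) (G : (Fin k → ℝ) → Eu κ → ℝ) (c M T B : ℝ) : Prop where
  meas : Measurable fun p : (Fin k → ℝ) × Eu κ => G p.1 p.2
  nonneg : ∀ s x, 0 ≤ G s x
  le : ∀ s x, G s x ≤ B
  anti : ∀ s t x, s ≤ t → G t x ≤ G s x
  logc : ∀ s t x y, ∀ a b : ℝ, 0 < a → 0 < b → a + b = 1 →
    G s x ^ a * G t y ^ b ≤ G (a • s + b • t) (a • x + b • y)
  supp : ∀ s x, (∃ j, M < s j) → G s x = 0
  low : ∀ x ∈ lev F (fun _ => M), ∀ j, -T ≤ F j x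
  MT : 0 < M + T
  cpos : 0 < c
  pos : 0 < N F G fun _ => c

variable {F : Fin k → Eu κ → ℝ} {G : (Fin k → ℝ) → Eu κ → ℝ} {c M T B : ℝ}

theorem den_nonneg (hG : Gx F G c M T B) (t : Fin k → ℝ) (x : Eu κ) : 0 ≤ den F G t x :=
  hG.nonneg _ _

theorem den_meas (hF : Fm F) (hG : Gx F G c M T B) (t : Fin k → ℝ) : Measurable (den F G t) :=
  hG.meas.comp ((measurable_pi_lambda _ fun j => (hF.cont j).measurable.add_const _).prodMk
    measurable_id)

theorem den_le (hG : Gx F G c M T B) (t : Fin k → ℝ) (x : Eu κ) : den F G t x ≤ B := hG.le _ _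

theorem den_supp (hG : Gx F G c M T B) {t : Fin k → ℝ} {x : Eu κ}
    (hx : x ∉ lev F fun j => M - t j) : den F G t x = 0 := by
  refine hG.supp _ _ ?_
  by_contra hcon
  push Not at hcon
  exact hx fun j => by have := hcon j; linarith

theorem den_anti (hG : Gx F G c M T B) {s t : Fin k → ℝ} (hst : s ≤ t) (x : Eu κ) :
    den F G t x ≤ den F G s x := hG.anti _ _ _ fun j => by have := hst j; linarith

theorem den_int (hF : Fm F) (hG : Gx F G c M T B) (t : Fin k → ℝ) : Integrable (den F G t) := by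
  have hm := lev_meas hF fun j => M - t j
  have h1 : Integrable ((lev F fun j => M - t j).indicator fun _ => B) :=
    (integrable_indicator_iff hm).2 (integrableOn_const (lev_lt_top hF _).ne)
  refine h1.mono' (den_meas hF hG t).aestronglyMeasurable (Eventually.of_forall fun x => ?_)
  rw [Real.norm_of_nonneg (den_nonneg hG t x)]
  by_cases hx : x ∈ lev F fun j => M - t j
  · rw [indicator_of_mem hx]
    exact den_le hG t x
  · rw [indicator_of_notMem hx, den_supp hG hx]

theorem N_nonneg (hG : Gx F G c M T B) (t : Fin k → ℝ) : 0 ≤ N F G t :=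
  integral_nonneg fun x => den_nonneg hG t x

theorem N_anti (hF : Fm F) (hG : Gx F G c M T B) {s t : Fin k → ℝ} (hst : s ≤ t) :
    N F G t ≤ N F G s :=
  integral_mono (den_int hF hG t) (den_int hF hG s) fun x => den_anti hG hst x

theorem N_ofReal (hF : Fm F) (hG : Gx F G c M T B) (t : Fin k → ℝ) :
    ENNReal.ofReal (N F G t) = ∫⁻ x, ENNReal.ofReal (den F G t x) :=
  ofReal_integral_eq_lintegral_ofReal (den_int hF hG t) (Eventually.of_forall (den_nonneg hG t))

theorem N_pos (hF : Fm F) (hG : Gx F G c M T B) {t : Fin k → ℝ} (ht : ∀ j, t j < c) :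
    0 < N F G t := hG.pos.trans_le (N_anti hF hG fun j => (ht j).le)

/-- log-concavity of the densities -/
theorem den_logc (hF : Fm F) (hG : Gx F G c M T B) {s t : Fin k → ℝ} {a b : ℝ} (ha : 0 < a)
    (hb : 0 < b) (hab : a + b = 1) (x y : Eu κ) :
    den F G s x ^ a * den F G t y ^ b ≤ den F G (a • s + b • t) (a • x + b • y) := by
  refine (hG.logc _ _ _ _ a b ha hb hab).trans (hG.anti _ _ _ fun j => ?_)
  have h1 := (hF.conv j).2 (mem_univ x) (mem_univ y) ha.le hb.le hab
  simp only [smul_eq_mul] at h1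
  simp only [Pi.add_apply, Pi.smul_apply, smul_eq_mul]
  linarith

/-- Prekopa's theorem -/
theorem N_logc (hF : Fm F) (hG : Gx F G c M T B) {s t : Fin k → ℝ} {a b : ℝ} (ha : 0 < a)
    (hb : 0 < b) (hab : a + b = 1) : N F G s ^ a * N F G t ^ b ≤ N F G (a • s + b • t) := by
  have ea : a = 1 - b := by linarith
  have H := Pool.Agent.H212R2.KLS.PL (volume : Measure (Eu κ)) b hb (by linarith)
    (fun x => ENNReal.ofReal (den F G s x)) (fun x => ENNReal.ofReal (den F G t x))
    (fun x => ENNReal.ofReal (den F G (a • s + b • t) x)) (den_meas hF hG s).ennreal_ofReal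
    (den_meas hF hG t).ennreal_ofReal (den_meas hF hG _).ennreal_ofReal (by
      intro x y
      rw [← ea, rpow_ofReal (den_nonneg hG s x) (den_nonneg hG t y) ha hb]
      exact ENNReal.ofReal_le_ofReal (den_logc hF hG ha hb hab x y))
  rw [← ea, ← N_ofReal hF hG, ← N_ofReal hF hG, ← N_ofReal hF hG,
    rpow_ofReal (N_nonneg hG s) (N_nonneg hG t) ha hb] at H
  exact (ENNReal.ofReal_le_ofReal_iff (N_nonneg hG _)).1 H

/-- **the integrals decay exponentially in the shifts** -/
theorem exists_lam (hF : Fm F) (hG : Gx F G c M T B) : ∃ l : Fin k → ℝ, (∀ j, 0 ≤ l j) ∧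
    ∀ t : Fin k → ℝ, N F G t ≤ N F G 0 * Real.exp (-∑ j, l j * t j) := by
  have hc := hG.cpos
  have hshift : ∀ (s : Fin k → ℝ) (j : Fin k), 0 < s j → (c • (1 - s)) j < c := by
    intro s j hs
    rw [Pi.smul_apply, Pi.sub_apply, Pi.one_apply, smul_eq_mul]
    nlinarith
  have hU : Convex ℝ {s : Fin k → ℝ | ∀ j, 0 < s j} := by
    intro s hs t ht a b ha hb hab j
    rw [Pi.add_apply, Pi.smul_apply, Pi.smul_apply, smul_eq_mul, smul_eq_mul]
    rcases eq_or_lt_of_le ha with h0 | h0
    · have : b = 1 := by linarith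
      rw [← h0, this]
      simpa using ht j
    · have h1 := mul_pos h0 (hs j)
      have h2 := mul_nonneg hb (ht j).le
      linarith
  have hconc : ConcaveOn ℝ {s : Fin k → ℝ | ∀ j, 0 < s j}
      fun s => Real.log (N F G (c • (1 - s))) := by
    refine ⟨hU, ?_⟩
    intro s hs t ht a b ha hb hab
    rcases eq_or_lt_of_le ha with h0 | ha0
    · have : b = 1 := by linarith
      rw [← h0, this]
      simp
    rcases eq_or_lt_of_le hb with h0 | hb0
    · have : a = 1 := by linarith
      rw [← h0, this]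
      simp
    have h1 := N_logc hF hG (s := c • (1 - s)) (t := c • (1 - t)) ha0 hb0 hab
    have e : a • c • (1 - s) + b • c • (1 - t) = c • (1 - (a • s + b • t)) := by
      funext j
      simp only [Pi.add_apply, Pi.smul_apply, Pi.sub_apply, Pi.one_apply, smul_eq_mul]
      have : b = 1 - a := by linarith
      rw [this]
      ring
    rw [e] at h1
    have hNs := N_pos hF hG fun j => hshift s j (hs j)
    have hNt := N_pos hF hG fun j => hshift t j (ht j)
    have h2 := Real.log_le_log (mul_pos (Real.rpow_pos_of_pos hNs a)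
      (Real.rpow_pos_of_pos hNt b)) h1
    rw [Real.log_mul (Real.rpow_pos_of_pos hNs a).ne' (Real.rpow_pos_of_pos hNt b).ne',
      Real.log_rpow hNs, Real.log_rpow hNt] at h2
    exact h2
  obtain ⟨τ, hτ⟩ := supergrad hconc
  have e1 : c • (1 - (1 : Fin k → ℝ)) = 0 := by simp
  rw [e1] at hτ
  have hN0 : 0 < N F G 0 := N_pos hF hG fun j => hc
  have hloc : ∀ t : Fin k → ℝ, (∀ j, t j < c) →
      N F G t ≤ N F G 0 * Real.exp (-∑ j, τ j / c * t j) := by
    intro t ht
    have h1 := hτ (fun j => 1 - t j / c) (fun j => by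
      have := ht j
      have h2 : t j / c < 1 := by rwa [div_lt_one hc]
      linarith)
    have e2 : c • (1 - fun j => 1 - t j / c) = t := by
      funext j
      simp only [Pi.smul_apply, Pi.sub_apply, Pi.one_apply, smul_eq_mul]
      field_simp
      ring
    rw [e2] at h1
    have e3 : ∑ j, τ j * (1 - t j / c - 1) = -∑ j, τ j / c * t j := by
      rw [← Finset.sum_neg_distrib]
      refine Finset.sum_congr rfl fun j _ => ?_
      ring
    rw [e3] at h1
    have h3 := Real.exp_le_exp.2 h1
    rw [Real.exp_log (N_pos hF hG ht), Real.exp_add, Real.exp_log hN0] at h3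
    exact h3
  refine ⟨fun j => τ j / c, fun j => ?_, fun t => ?_⟩
  · have h1 := hloc (Pi.single j (-1)) (fun i => by
      by_cases hij : i = j
      · rw [hij, Pi.single_eq_same]
        linarith
      · rw [Pi.single_eq_of_ne hij]
        exact hc)
    have h2 : N F G 0 ≤ N F G (Pi.single j (-1)) := N_anti hF hG fun i => by
      by_cases hij : i = j
      · rw [hij, Pi.single_eq_same, Pi.zero_apply]
        linarith
      · rw [Pi.single_eq_of_ne hij, Pi.zero_apply]
    have h3 : -∑ i, τ i / c * (Pi.single j (-1) : Fin k → ℝ) i = τ j / c := by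
      rw [Finset.sum_eq_single j]
      · rw [Pi.single_eq_same]
        ring
      · intro i _ hi
        rw [Pi.single_eq_of_ne hi, mul_zero]
      · intro h
        exact absurd (Finset.mem_univ j) h
    rw [h3] at h1
    by_contra hcon
    push Not at hcon
    have h4 : Real.exp (τ j / c) < 1 := by
      rw [← Real.exp_zero]
      exact Real.exp_lt_exp.2 hcon
    have h5 : N F G 0 * Real.exp (τ j / c) < N F G 0 * 1 := mul_lt_mul_of_pos_left h4 hN0
    linarith
  · rcases (N_nonneg (F := F) hG t).eq_or_lt with h0 | hNt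
    · rw [← h0]
      positivity
    -- a small multiple of `t`
    obtain ⟨R, hR, hRt⟩ := exists_ub t
    have hR0 : 0 < R := by linarith
    obtain ⟨θ, hθ⟩ : ∃ θ : ℝ, θ = min (1 / 2) (c / (2 * R)) := ⟨_, rfl⟩
    have hθ0 : 0 < θ := by rw [hθ]; positivity
    have hθ1 : θ < 1 := by
      have := min_le_left (1 / 2 : ℝ) (c / (2 * R))
      rw [hθ]
      linarith
    have hθR : θ * R ≤ c / 2 := by
      have h1 : θ ≤ c / (2 * R) := by rw [hθ]; exact min_le_right _ _
      have h2 := mul_le_mul_of_nonneg_right h1 hR0.le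
      have e : c / (2 * R) * R = c / 2 := by field_simp
      rwa [e] at h2
    have h1 := hloc (θ • t) (fun j => by
      rw [Pi.smul_apply, smul_eq_mul]
      have h2 : θ * t j ≤ θ * R := mul_le_mul_of_nonneg_left (hRt j) hθ0.le
      linarith)
    have h2 := N_logc hF hG (s := 0) (t := t) (a := 1 - θ) (b := θ) (by linarith) hθ0 (by ring)
    rw [smul_zero, zero_add] at h2
    have h3 := h2.trans h1
    have h4 : N F G 0 ^ (1 - θ) * N F G t ^ θ = N F G 0 * (N F G t / N F G 0) ^ θ := by
      rw [Real.div_rpow hNt.le hN0.le, Real.rpow_sub hN0, Real.rpow_one]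
      have : 0 < N F G 0 ^ θ := Real.rpow_pos_of_pos hN0 θ
      field_simp
    rw [h4] at h3
    have h5 := le_of_mul_le_mul_left h3 hN0
    have h6 : Real.exp (-∑ j, τ j / c * (θ • t) j) = Real.exp (-∑ j, τ j / c * t j) ^ θ := by
      rw [← Real.exp_mul]
      congr 1
      rw [neg_mul, Finset.sum_mul]
      congr 1
      refine Finset.sum_congr rfl fun j _ => ?_
      rw [Pi.smul_apply, smul_eq_mul]
      ring
    rw [h6] at h5
    have h7 := (Real.rpow_le_rpow_iff (div_nonneg hNt.le hN0.le) (Real.exp_pos _).le hθ0).1 h5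
    rw [div_le_iff₀ hN0] at h7
    linarith

end Pool.Agent.H776.NC
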