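import Pool.Agent.H776.NC2

/-!
# Log-concave densities of few quadratic polynomials and linear functionals, II: the tilted weight
-/

set_option autoImplicit false

namespace Pool.Agent.H776.NC

open MeasureTheory Set Filter Topology
open scoped ENNReal InnerProductSpace
open Pool.Agent.H776.FE (lev exists_ub supergrad)
open Pool.Agent.H776.GE (rpow_ofReal cast_nonneg)

variable {κ : Type} [Fintype κ] {k : ℕ}
variable {F : Fin k → Eu κ → ℝ} {G : (Fin k → ℝ) → Eu κ → ℝ} {c M T B : ℝ} {μ : Fin k → ℝ}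

/-- the terms of the supremum -/
noncomputable def tm (G : (Fin k → ℝ) → Eu κ → ℝ) (μ : Fin k → ℝ) (s : Fin k → ℝ) (x : Eu κ)
    (r : Fin k → ℝ) : ℝ := G (s + r) x * Real.exp (∑ j, μ j * r j)

/-- the tilted function of the levels -/
noncomputable def W (G : (Fin k → ℝ) → Eu κ → ℝ) (μ : Fin k → ℝ) (s : Fin k → ℝ) (x : Eu κ) : ℝ :=
  ⨆ r : Fin k → ℚ≥0, tm G μ s x fun j => ((r j : ℚ) : ℝ)

theorem tm_nonneg (hG : Gx F G c M T B) (s r : Fin k → ℝ) (x : Eu κ) : 0 ≤ tm G μ s x r :=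
  mul_nonneg (hG.nonneg _ _) (Real.exp_pos _).le

theorem tm_le (hG : Gx F G c M T B) (hμ : ∀ j, 0 ≤ μ j) {s r : Fin k → ℝ} (x : Eu κ)
    (hr : ∀ j, 0 ≤ r j) :
    tm G μ s x r ≤ G s x * Real.exp (∑ j, μ j * |M - s j|) := by
  by_cases h : ∃ j, M < (s + r) j
  · unfold tm
    rw [hG.supp _ _ h, zero_mul]
    exact mul_nonneg (hG.nonneg _ _) (Real.exp_pos _).le
  · push Not at h
    unfold tm
    refine mul_le_mul (hG.anti _ _ _ fun j => ?_) (Real.exp_le_exp.2 ?_) (Real.exp_pos _).le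
      (hG.nonneg _ _)
    · rw [Pi.add_apply]
      linarith [hr j]
    · refine Finset.sum_le_sum fun j _ => mul_le_mul_of_nonneg_left ?_ (hμ j)
      have h1 := h j
      rw [Pi.add_apply] at h1
      exact le_trans (by linarith) (le_abs_self _)

theorem bddA (hG : Gx F G c M T B) (hμ : ∀ j, 0 ≤ μ j) (s : Fin k → ℝ) (x : Eu κ) :
    BddAbove (range fun r : Fin k → ℚ≥0 => tm G μ s x fun j => ((r j : ℚ) : ℝ)) := by
  refine ⟨G s x * Real.exp (∑ j, μ j * |M - s j|), ?_⟩
  rintro _ ⟨r, rfl⟩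
  exact tm_le hG hμ x (cast_nonneg r)

theorem W_nonneg (hG : Gx F G c M T B) (s : Fin k → ℝ) (x : Eu κ) : 0 ≤ W G μ s x :=
  Real.iSup_nonneg fun _ => tm_nonneg hG _ _ _

/-- real shifts -/
theorem tm_le_W (hG : Gx F G c M T B) (hμ : ∀ j, 0 ≤ μ j) (s : Fin k → ℝ) (x : Eu κ)
    {r : Fin k → ℝ} (hr : ∀ j, 0 ≤ r j) : tm G μ s x r ≤ W G μ s x := by
  -- rational approximations from below
  have hex : ∀ n : ℕ, ∃ q : Fin k → ℚ≥0, ∀ j, ((q j : ℚ) : ℝ) ≤ r j ∧
      r j - 1 / (n + 1) ≤ ((q j : ℚ) : ℝ) := by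
    intro n
    have h1 : ∀ j, ∃ q : ℚ≥0, ((q : ℚ) : ℝ) ≤ r j ∧ r j - 1 / (n + 1) ≤ ((q : ℚ) : ℝ) := by
      intro j
      have hn : (0 : ℝ) < 1 / (n + 1) := by positivity
      rcases eq_or_lt_of_le (hr j) with h0 | h0
      · refine ⟨0, ?_, ?_⟩
        · rw [← h0]
          simp
        · rw [← h0]
          simp only [NNRat.coe_zero, Rat.cast_zero]
          linarith
      · obtain ⟨q, hq1, hq2⟩ := exists_rat_btwn (show max 0 (r j - 1 / (n + 1)) < r j from
          max_lt h0 (by linarith))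
        have hq0 : (0 : ℝ) ≤ q := (le_max_left _ _).trans hq1.le
        refine ⟨⟨q, by exact_mod_cast hq0⟩, hq2.le, (le_max_right _ _).trans hq1.le⟩
    choose q hq using h1
    exact ⟨q, hq⟩
  choose q hq using hex
  have hlim : ∀ j, Tendsto (fun n => ((q n j : ℚ) : ℝ)) atTop (𝓝 (r j)) := by
    intro j
    have h1 : Tendsto (fun n : ℕ => r j - 1 / ((n : ℝ) + 1)) atTop (𝓝 (r j - 0)) :=
      tendsto_const_nhds.sub tendsto_one_div_add_atTop_nhds_zero_nat
    rw [sub_zero] at h1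
    exact tendsto_of_tendsto_of_tendsto_of_le_of_le h1 tendsto_const_nhds
      (fun n => (hq n j).2) (fun n => (hq n j).1)
  have hE : Tendsto (fun n => G (s + r) x * Real.exp (∑ j, μ j * ((q n j : ℚ) : ℝ))) atTop
      (𝓝 (G (s + r) x * Real.exp (∑ j, μ j * r j))) := by
    refine Tendsto.const_mul _ ?_
    refine (Real.continuous_exp.tendsto _).comp ?_
    exact tendsto_finsetSum _ fun j _ => (hlim j).const_mul _
  refine le_of_tendsto' hE fun n => ?_
  refine le_trans ?_ (le_ciSup (bddA hG hμ s x) (q n))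
  unfold tm
  refine mul_le_mul_of_nonneg_right (hG.anti _ _ _ fun j => ?_) (Real.exp_pos _).le
  rw [Pi.add_apply, Pi.add_apply]
  have := (hq n j).1
  linarith

theorem W_le {A : ℝ} (hA : 0 ≤ A) {s : Fin k → ℝ} {x : Eu κ}
    (h : ∀ r : Fin k → ℝ, (∀ j, 0 ≤ r j) → tm G μ s x r ≤ A) : W G μ s x ≤ A :=
  Real.iSup_le (fun r => h _ (cast_nonneg r)) hA

theorem W_ge (hG : Gx F G c M T B) (hμ : ∀ j, 0 ≤ μ j) (s : Fin k → ℝ) (x : Eu κ) :
    G s x ≤ W G μ s x := by
  have h := tm_le_W hG hμ s x (r := 0) fun j => le_rfl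
  unfold tm at h
  simpa using h

theorem W_anti (hG : Gx F G c M T B) (hμ : ∀ j, 0 ≤ μ j) {s t : Fin k → ℝ} (hst : s ≤ t)
    (x : Eu κ) : W G μ t x ≤ W G μ s x := by
  refine W_le (W_nonneg hG s x) fun r hr => le_trans ?_ (tm_le_W hG hμ s x hr)
  unfold tm
  refine mul_le_mul_of_nonneg_right (hG.anti _ _ _ fun j => ?_) (Real.exp_pos _).le
  rw [Pi.add_apply, Pi.add_apply]
  have := hst j
  linarith

theorem W_shift (hG : Gx F G c M T B) (hμ : ∀ j, 0 ≤ μ j) (s : Fin k → ℝ) (x : Eu κ)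
    {d : Fin k → ℝ} (hd : ∀ j, 0 ≤ d j) :
    W G μ s x * Real.exp (∑ j, μ j * d j) ≤ W G μ (s - d) x := by
  have h1 : W G μ s x ≤ W G μ (s - d) x * Real.exp (-∑ j, μ j * d j) := by
    refine W_le (mul_nonneg (W_nonneg hG _ _) (Real.exp_pos _).le) fun r hr => ?_
    have h2 := tm_le_W hG hμ (s - d) x (r := r + d) fun j => add_nonneg (hr j) (hd j)
    have e : tm G μ s x r = tm G μ (s - d) x (r + d) * Real.exp (-∑ j, μ j * d j) := by
      unfold tm
      have e1 : s - d + (r + d) = s + r := by abel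
      rw [e1, mul_assoc, ← Real.exp_add]
      congr 2
      simp only [Pi.add_apply, mul_add, Finset.sum_add_distrib]
      ring
    rw [e]
    exact mul_le_mul_of_nonneg_right h2 (Real.exp_pos _).le
  calc W G μ s x * Real.exp (∑ j, μ j * d j) ≤
        W G μ (s - d) x * Real.exp (-∑ j, μ j * d j) * Real.exp (∑ j, μ j * d j) :=
        mul_le_mul_of_nonneg_right h1 (Real.exp_pos _).le
    _ = W G μ (s - d) x := by
        rw [mul_assoc, ← Real.exp_add, neg_add_cancel, Real.exp_zero, mul_one]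

theorem sqrt_mid (hG : Gx F G c M T B) (s t : Fin k → ℝ) (x y : Eu κ) :
    G s x * G t y ≤ G ((1 / 2 : ℝ) • s + (1 / 2 : ℝ) • t)
      ((1 / 2 : ℝ) • x + (1 / 2 : ℝ) • y) ^ 2 := by
  have h1 := hG.logc s t x y (1 / 2) (1 / 2) (by norm_num) (by norm_num) (by norm_num)
  have h2 : 0 ≤ G s x ^ (1 / 2 : ℝ) * G t y ^ (1 / 2 : ℝ) :=
    mul_nonneg (Real.rpow_nonneg (hG.nonneg _ _) _) (Real.rpow_nonneg (hG.nonneg _ _) _)
  have h3 := pow_le_pow_left₀ h2 h1 2
  rw [mul_pow, ← Real.rpow_natCast, ← Real.rpow_natCast, ← Real.rpow_mul (hG.nonneg _ _),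
    ← Real.rpow_mul (hG.nonneg _ _)] at h3
  norm_num at h3
  norm_num
  exact h3

theorem W_mul (hG : Gx F G c M T B) (hμ : ∀ j, 0 ≤ μ j) (s t : Fin k → ℝ) (x y : Eu κ) :
    W G μ s x * W G μ t y ≤ W G μ ((1 / 2 : ℝ) • s + (1 / 2 : ℝ) • t)
      ((1 / 2 : ℝ) • x + (1 / 2 : ℝ) • y) ^ 2 := by
  obtain ⟨z, hz⟩ : ∃ z, z = (1 / 2 : ℝ) • x + (1 / 2 : ℝ) • y := ⟨_, rfl⟩
  rw [← hz]
  obtain ⟨A, hA⟩ : ∃ A, A = W G μ ((1 / 2 : ℝ) • s + (1 / 2 : ℝ) • t) z ^ 2 := ⟨_, rfl⟩
  have hA0 : 0 ≤ A := by rw [hA]; positivity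
  rw [← hA]
  have key : ∀ r r' : Fin k → ℝ, (∀ j, 0 ≤ r j) → (∀ j, 0 ≤ r' j) →
      tm G μ s x r * tm G μ t y r' ≤ A := by
    intro r r' hr hr'
    have h1 := tm_le_W hG hμ ((1 / 2 : ℝ) • s + (1 / 2 : ℝ) • t) z
      (r := (1 / 2 : ℝ) • r + (1 / 2 : ℝ) • r') fun j => by
        simp only [Pi.add_apply, Pi.smul_apply, smul_eq_mul]
        have := hr j
        have := hr' j
        positivity
    have h2 := pow_le_pow_left₀ (tm_nonneg hG _ _ _) h1 2
    rw [← hA] at h2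
    refine le_trans ?_ h2
    unfold tm
    have e1 : (1 / 2 : ℝ) • s + (1 / 2 : ℝ) • t + ((1 / 2 : ℝ) • r + (1 / 2 : ℝ) • r') =
        (1 / 2 : ℝ) • (s + r) + (1 / 2 : ℝ) • (t + r') := by
      rw [smul_add, smul_add]
      abel
    have e2 : Real.exp (∑ j, μ j * ((1 / 2 : ℝ) • r + (1 / 2 : ℝ) • r') j) ^ 2 =
        Real.exp (∑ j, μ j * r j) * Real.exp (∑ j, μ j * r' j) := by
      rw [← Real.exp_add, ← Real.exp_nat_mul]
      congr 1
      rw [Finset.mul_sum, ← Finset.sum_add_distrib]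
      refine Finset.sum_congr rfl fun j _ => ?_
      simp only [Pi.add_apply, Pi.smul_apply, smul_eq_mul]
      push_cast
      ring
    rw [e1, mul_pow, e2]
    have h3 := sqrt_mid hG (s + r) (t + r') x y
    rw [← hz] at h3
    calc G (s + r) x * Real.exp (∑ j, μ j * r j) * (G (t + r') y * Real.exp (∑ j, μ j * r' j)) =
          (G (s + r) x * G (t + r') y) *
            (Real.exp (∑ j, μ j * r j) * Real.exp (∑ j, μ j * r' j)) := by
          ring
      _ ≤ _ := mul_le_mul_of_nonneg_right h3 (by positivity)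
  have h1 : ∀ r : Fin k → ℝ, (∀ j, 0 ≤ r j) → tm G μ s x r * W G μ t y ≤ A := by
    intro r hr
    unfold W
    rw [Real.mul_iSup_of_nonneg (tm_nonneg hG _ _ _)]
    exact Real.iSup_le (fun r' => key _ _ hr (cast_nonneg r')) hA0
  rw [mul_comm]
  have h2 : W G μ t y * W G μ s x =
      ⨆ r : Fin k → ℚ≥0, W G μ t y * tm G μ s x fun j => ((r j : ℚ) : ℝ) := by
    conv_lhs => rw [W.eq_1 G μ s x]
    rw [Real.mul_iSup_of_nonneg (W_nonneg hG _ _)]
  rw [h2]
  exact Real.iSup_le (fun r => by rw [mul_comm]; exact h1 _ (cast_nonneg r)) hA0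

theorem W_supp (hG : Gx F G c M T B) {s : Fin k → ℝ} (x : Eu κ) (hs : ∃ j, M < s j) :
    W G μ s x = 0 := by
  refine le_antisymm (W_le le_rfl fun r hr => ?_) (W_nonneg hG s x)
  obtain ⟨j, hj⟩ := hs
  unfold tm
  rw [hG.supp _ _ ⟨j, by rw [Pi.add_apply]; linarith [hr j]⟩, zero_mul]

theorem W_meas (hG : Gx F G c M T B) : Measurable fun p : (Fin k → ℝ) × Eu κ => W G μ p.1 p.2 := by
  unfold W tm
  refine Measurable.iSup fun r => ?_
  have h1 : Measurable fun p : (Fin k → ℝ) × Eu κ => ((p.1 + fun j => ((r j : ℚ) : ℝ)), p.2) :=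
    (measurable_fst.add_const _).prodMk measurable_snd
  exact (hG.meas.comp h1).mul_const _

theorem Wl_bdd (hG : Gx F G c M T B) (hμ : ∀ j, 0 ≤ μ j) (hB : 0 ≤ B) (x : Eu κ) :
    W G μ (fun j => F j x) x ≤ B * Real.exp (∑ j, μ j * (M + T)) := by
  by_cases hx : x ∈ lev F fun _ => M
  · refine W_le (mul_nonneg hB (Real.exp_pos _).le) fun r hr => ?_
    refine (tm_le hG hμ x hr).trans ?_
    refine mul_le_mul (hG.le _ _) (Real.exp_le_exp.2 ?_) (Real.exp_pos _).le hB
    refine Finset.sum_le_sum fun j _ => mul_le_mul_of_nonneg_left ?_ (hμ j)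
    have h1 := hG.low x hx j
    have h2 : F j x ≤ M := hx j
    rw [abs_of_nonneg (by linarith)]
    linarith
  · rw [W_supp hG]
    · positivity
    · by_contra hcon
      push Not at hcon
      exact hx hcon

/-- the exponential bound -/
structure Lam (F : Fin k → Eu κ → ℝ) (G : (Fin k → ℝ) → Eu κ → ℝ) (l : Fin k → ℝ) : Prop where
  nonneg : ∀ j, 0 ≤ l j
  le : ∀ t : Fin k → ℝ, N F G t ≤ N F G 0 * Real.exp (-∑ j, l j * t j)

/-- the rates of the tilt -/
noncomputable def rt (l : Fin k → ℝ) (j : Fin k) : ℝ := l j / (2 * k)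

theorem rt_nonneg {l : Fin k → ℝ} (hl : ∀ j, 0 ≤ l j) (j : Fin k) : 0 ≤ rt l j :=
  div_nonneg (hl j) (by positivity)

theorem N0_pos (hF : Fm F) (hG : Gx F G c M T B) : 0 < N F G 0 := N_pos hF hG fun _ => hG.cpos

theorem B_pos (hG : Gx F G c M T B) : 0 ≤ B := (hG.nonneg 0 0).trans (hG.le 0 0)

open Classical in
/-- the bound for the `j`-th direction -/
noncomputable def bd (F : Fin k → Eu κ → ℝ) (G : (Fin k → ℝ) → Eu κ → ℝ) (l : Fin k → ℝ)
    (j : Fin k) (x : Eu κ) : ℝ≥0∞ :=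
  if l j = 0 then ENNReal.ofReal (den F G 0 x) else
    ∑' m : ℕ, ENNReal.ofReal (Real.exp (((m : ℝ) + 1) / 2)) *
      ENNReal.ofReal (den F G (Pi.single j (m / l j)) x)

theorem bd_ge (hG : Gx F G c M T B) {l : Fin k → ℝ} (hl : ∀ j, 0 ≤ l j) (j : Fin k) (x : Eu κ)
    {u : ℝ} (hu : 0 ≤ u) :
    ENNReal.ofReal (den F G (Pi.single j u) x * Real.exp (l j * u / 2)) ≤ bd F G l j x := by
  unfold bd
  by_cases h0 : l j = 0
  · rw [if_pos h0, h0, zero_mul, zero_div, Real.exp_zero, mul_one]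
    refine ENNReal.ofReal_le_ofReal (den_anti hG (fun i => ?_) x)
    by_cases hij : i = j
    · rw [hij, Pi.single_eq_same]
      exact hu
    · rw [Pi.single_eq_of_ne hij, Pi.zero_apply]
  · rw [if_neg h0]
    have hlj : 0 < l j := lt_of_le_of_ne (hl j) (Ne.symm h0)
    obtain ⟨m, hm⟩ : ∃ m, m = ⌊l j * u⌋₊ := ⟨_, rfl⟩
    have h1 : (m : ℝ) ≤ l j * u := by rw [hm]; exact Nat.floor_le (by positivity)
    have h2 : l j * u < m + 1 := by rw [hm]; exact Nat.lt_floor_add_one _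
    refine le_trans ?_ (ENNReal.le_tsum m)
    rw [← ENNReal.ofReal_mul (Real.exp_pos _).le, mul_comm]
    refine ENNReal.ofReal_le_ofReal ?_
    refine mul_le_mul (Real.exp_le_exp.2 (by linarith)) (den_anti hG (fun i => ?_) x)
      (den_nonneg hG _ _) (Real.exp_pos _).le
    by_cases hij : i = j
    · rw [hij, Pi.single_eq_same, Pi.single_eq_same, div_le_iff₀ hlj]
      linarith
    · rw [Pi.single_eq_of_ne hij, Pi.single_eq_of_ne hij]

theorem bd_meas (hF : Fm F) (hG : Gx F G c M T B) (l : Fin k → ℝ) (j : Fin k) :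
    Measurable (bd F G l j) := by
  unfold bd
  by_cases h0 : l j = 0
  · simp only [if_pos h0]
    exact (den_meas hF hG 0).ennreal_ofReal
  · simp only [if_neg h0]
    refine Measurable.ennreal_tsum fun m => ?_
    exact (den_meas hF hG _).ennreal_ofReal.const_mul _

theorem bd_int (hF : Fm F) (hG : Gx F G c M T B) {l : Fin k → ℝ} (hl : Lam F G l) (j : Fin k) :
    ∫⁻ x, bd F G l j x ≤ ENNReal.ofReal (9 / 2) * ENNReal.ofReal (N F G 0) := by
  unfold bd
  by_cases h0 : l j = 0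
  · simp only [if_pos h0]
    rw [← N_ofReal hF hG]
    refine le_mul_of_one_le_left bot_le ?_
    rw [ENNReal.one_le_ofReal]
    norm_num
  · simp only [if_neg h0]
    have hlj : 0 < l j := lt_of_le_of_ne (hl.nonneg j) (Ne.symm h0)
    rw [lintegral_tsum fun m => ((den_meas hF hG _).ennreal_ofReal.const_mul _).aemeasurable]
    have h1 : ∀ m : ℕ, ∫⁻ x, ENNReal.ofReal (Real.exp (((m : ℝ) + 1) / 2)) *
        ENNReal.ofReal (den F G (Pi.single j (m / l j)) x) ≤
        (ENNReal.ofReal (Real.exp (1 / 2)) * ENNReal.ofReal (Real.exp (-(1 / 2))) ^ m) *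
          ENNReal.ofReal (N F G 0) := by
      intro m
      rw [lintegral_const_mul _ (den_meas hF hG _).ennreal_ofReal, ← N_ofReal hF hG,
        ← ENNReal.ofReal_mul (Real.exp_pos _).le, ← ENNReal.ofReal_pow (Real.exp_pos _).le,
        ← ENNReal.ofReal_mul (Real.exp_pos _).le, ← ENNReal.ofReal_mul (by positivity)]
      refine ENNReal.ofReal_le_ofReal ?_
      have h2 := hl.le (Pi.single j (m / l j))
      have h3 : ∑ i, l i * (Pi.single j (m / l j) : Fin k → ℝ) i = m := by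
        rw [Finset.sum_eq_single j]
        · rw [Pi.single_eq_same]
          field_simp
        · intro i _ hi
          rw [Pi.single_eq_of_ne hi, mul_zero]
        · intro h
          exact absurd (Finset.mem_univ j) h
      rw [h3] at h2
      refine (mul_le_mul_of_nonneg_left h2 (Real.exp_pos _).le).trans (le_of_eq ?_)
      rw [← Real.exp_nat_mul, ← Real.exp_add]
      have e : Real.exp (((m : ℝ) + 1) / 2) * (N F G 0 * Real.exp (-(m : ℝ))) =
          (Real.exp (((m : ℝ) + 1) / 2) * Real.exp (-(m : ℝ))) * N F G 0 := by ring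
      rw [e, ← Real.exp_add]
      congr 2
      ring
    refine (ENNReal.tsum_le_tsum h1).trans ?_
    rw [ENNReal.tsum_mul_right]
    exact mul_le_mul_left Pool.Agent.H776.GE.num_aux _

/-- the pointwise bound of the tilted function -/
theorem W_le_bd (hG : Gx F G c M T B) (hk : 0 < k) {l : Fin k → ℝ}
    (hl : ∀ j, 0 ≤ l j) (x : Eu κ) :
    ENNReal.ofReal (W G (rt l) (fun j => F j x) x) ≤
      ∑ j, ENNReal.ofReal (1 / k) * bd F G l j x := by
  have hk0 : (0 : ℝ) < k := Nat.cast_pos.2 hk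
  obtain ⟨A, hA⟩ : ∃ A, A = ∑ j, ENNReal.ofReal (1 / k) * bd F G l j x := ⟨_, rfl⟩
  rw [← hA]
  have key : ∀ r : Fin k → ℝ, (∀ j, 0 ≤ r j) →
      ENNReal.ofReal (tm G (rt l) (fun j => F j x) x r) ≤ A := by
    intro r hr
    have h1 : Real.exp (∑ j, rt l j * r j) ≤ ∑ j : Fin k, (1 / k : ℝ) * Real.exp (l j * r j / 2) := by
      have h2 : Real.exp (∑ j : Fin k, (1 / k : ℝ) • (l j * r j / 2)) ≤
          ∑ j : Fin k, (1 / k : ℝ) • Real.exp (l j * r j / 2) := by
        refine convexOn_exp.map_sum_le (fun j _ => by positivity) ?_ fun j _ => mem_univ _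
        rw [Finset.sum_const, Finset.card_univ, Fintype.card_fin, nsmul_eq_mul]
        field_simp
      simp only [smul_eq_mul] at h2
      refine le_trans (le_of_eq ?_) h2
      congr 1
      refine Finset.sum_congr rfl fun j _ => ?_
      unfold rt
      field_simp
    have h2 : tm G (rt l) (fun j => F j x) x r ≤
        ∑ j : Fin k, (1 / k : ℝ) * (den F G (Pi.single j (r j)) x * Real.exp (l j * r j / 2)) := by
      unfold tm
      refine (mul_le_mul_of_nonneg_left h1 (hG.nonneg _ _)).trans ?_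
      rw [Finset.mul_sum]
      refine Finset.sum_le_sum fun j _ => ?_
      have h3 : G ((fun j => F j x) + r) x ≤ den F G (Pi.single j (r j)) x := by
        refine hG.anti _ _ _ fun i => ?_
        rw [Pi.add_apply]
        by_cases hij : i = j
        · rw [hij, Pi.single_eq_same]
        · rw [Pi.single_eq_of_ne hij]
          linarith [hr i]
      calc G ((fun j => F j x) + r) x * ((1 / k : ℝ) * Real.exp (l j * r j / 2)) ≤
            den F G (Pi.single j (r j)) x * ((1 / k : ℝ) * Real.exp (l j * r j / 2)) :=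
            mul_le_mul_of_nonneg_right h3 (by positivity)
        _ = _ := by ring
    refine (ENNReal.ofReal_le_ofReal h2).trans ?_
    rw [ENNReal.ofReal_sum_of_nonneg fun j _ =>
      mul_nonneg (by positivity) (mul_nonneg (den_nonneg hG _ _) (Real.exp_pos _).le), hA]
    refine Finset.sum_le_sum fun j _ => ?_
    rw [ENNReal.ofReal_mul (by positivity)]
    exact mul_le_mul_right (bd_ge hG hl j x (hr j)) _
  by_cases hAt : A = ⊤
  · rw [hAt]
    exact le_top
  · rw [ENNReal.ofReal_le_iff_le_toReal hAt]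
    refine W_le ENNReal.toReal_nonneg fun r hr => ?_
    exact (ENNReal.ofReal_le_iff_le_toReal hAt).1 (key r hr)

/-- **the integral of the tilted weight** -/
theorem W_lint (hF : Fm F) (hG : Gx F G c M T B) (hk : 0 < k) {l : Fin k → ℝ} (hl : Lam F G l) :
    ∫⁻ x, ENNReal.ofReal (W G (rt l) (fun j => F j x) x) ≤ ENNReal.ofReal (9 / 2 * N F G 0) := by
  have hk0 : (0 : ℝ) < k := Nat.cast_pos.2 hk
  refine (lintegral_mono fun x => W_le_bd hG hk hl.nonneg x).trans ?_
  rw [lintegral_finsetSum _ fun j _ => (bd_meas hF hG l j).const_mul _]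
  have h1 : ∀ j : Fin k, ∫⁻ x, ENNReal.ofReal (1 / k) * bd F G l j x ≤
      ENNReal.ofReal (1 / k * (9 / 2 * N F G 0)) := by
    intro j
    rw [lintegral_const_mul _ (bd_meas hF hG l j), ENNReal.ofReal_mul (by positivity),
      ENNReal.ofReal_mul (by norm_num : (0 : ℝ) ≤ 9 / 2)]
    exact mul_le_mul_right (bd_int hF hG hl j) _
  refine (Finset.sum_le_sum fun j _ => h1 j).trans (le_of_eq ?_)
  rw [Finset.sum_const, Finset.card_univ, Fintype.card_fin, nsmul_eq_mul,
    ← ENNReal.ofReal_natCast, ← ENNReal.ofReal_mul hk0.le]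
  congr 1
  field_simp

end Pool.Agent.H776.NC
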