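import Pool.Agent.H776.NC3

/-!
# Log-concave densities of few quadratic polynomials and linear functionals, III: the weight
-/

set_option autoImplicit false

namespace Pool.Agent.H776.NC

open MeasureTheory Set Filter Topology
open scoped ENNReal InnerProductSpace
open Pool.Agent.H776.FE (lev exists_sqrt)

variable {κ : Type} [Fintype κ] {k : ℕ}
variable {F : Fin k → Eu κ → ℝ} {G : (Fin k → ℝ) → Eu κ → ℝ} {c M T B : ℝ}
variable {b : Fin k → Type} [∀ j, Fintype (b j)] {P : ∀ j, Eu κ →L[ℝ] Eu (b j)}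
variable {β : Fin k → Eu κ} {γ : Fin k → ℝ}

/-- the quadratic polynomials -/
structure Sy (F : Fin k → Eu κ → ℝ) (P : ∀ j, Eu κ →L[ℝ] Eu (b j)) (β : Fin k → Eu κ)
    (γ : Fin k → ℝ) : Prop extends Fm F where
  eq : ∀ j x, F j x = ‖P j x‖ ^ 2 + 2 * ⟪β j, x⟫_ℝ + γ j
  inj : ∀ z, (∀ j, P j z = 0) → z = 0

theorem Sy.strong (hS : Sy F P β γ) (j : Fin k) (x y : Eu κ) :
    F j ((1 / 2 : ℝ) • (x + y)) = (F j x + F j y) / 2 - ‖P j (x - y)‖ ^ 2 / 4 := by
  have h := parallelogram_law_with_norm ℝ (P j x) (P j y)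
  rw [hS.eq, hS.eq, hS.eq, map_smul, map_add, map_sub, norm_smul, mul_pow, inner_smul_right,
    inner_add_right, Real.norm_eq_abs, abs_of_pos (by norm_num : (0 : ℝ) < 1 / 2)]
  nlinarith [h]

/-- the strong convexity rates -/
noncomputable def sg (l : Fin k → ℝ) (M T : ℝ) (j : Fin k) : ℝ := l j + 1 / (M + T)

theorem sg_pos {l : Fin k → ℝ} (hl : ∀ j, 0 ≤ l j) {M T : ℝ} (hM : 0 < M + T) (j : Fin k) :
    0 < sg l M T j := by
  have := hl j
  unfold sg
  positivity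

/-- the linear change of coordinates -/
theorem exists_S (hS : Sy F P β γ) (hk : 0 < k) {σ : Fin k → ℝ} (hσ : ∀ j, 0 < σ j) {τ : ℝ}
    (hτ : 0 ≤ τ) (p : Eu κ →L[ℝ] Eu κ) :
    ∃ S : Eu κ ≃L[ℝ] Eu κ, ∀ z, ‖S.symm z‖ ^ 2 =
      ∑ j, σ j / k * ‖P j z‖ ^ 2 + 2 * τ * ‖p z‖ ^ 2 := by
  have hk0 : (0 : ℝ) < k := Nat.cast_pos.2 hk
  have hs : ∀ j, 0 < σ j / k := fun j => div_pos (hσ j) hk0
  let L : Eu κ →ₗ[ℝ] WithLp 2 (PiLp 2 (fun j => Eu (b j)) × Eu κ) :=
    { toFun := fun z => WithLp.toLp 2 (WithLp.toLp 2 fun j => Real.sqrt (σ j / k) • P j z,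
        Real.sqrt (2 * τ) • p z)
      map_add' := fun x y => by
        apply WithLp.ofLp_injective
        ext j
        · simp
        · simp
      map_smul' := fun c x => by
        apply WithLp.ofLp_injective
        ext j
        · simp [smul_smul, mul_comm]
        · simp [smul_smul, mul_comm] }
  have hLn : ∀ z, ‖L z‖ ^ 2 = ∑ j, σ j / k * ‖P j z‖ ^ 2 + 2 * τ * ‖p z‖ ^ 2 := by
    intro z
    rw [WithLp.prod_norm_sq_eq_of_L2]
    have e1 : ‖(L z).fst‖ ^ 2 = ∑ j, σ j / k * ‖P j z‖ ^ 2 := by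
      rw [PiLp.norm_sq_eq_of_L2]
      refine Finset.sum_congr rfl fun j _ => ?_
      show ‖Real.sqrt (σ j / k) • P j z‖ ^ 2 = _
      rw [norm_smul, mul_pow, Real.norm_eq_abs, sq_abs, Real.sq_sqrt (hs j).le]
    have e2 : ‖(L z).snd‖ ^ 2 = 2 * τ * ‖p z‖ ^ 2 := by
      show ‖Real.sqrt (2 * τ) • p z‖ ^ 2 = _
      rw [norm_smul, mul_pow, Real.norm_eq_abs, sq_abs, Real.sq_sqrt (by positivity)]
    rw [e1, e2]
  obtain ⟨A, hA⟩ := exists_sqrt L (fun z hz => by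
    refine hS.inj z fun j => ?_
    have h1 := hLn z
    rw [hz, norm_zero, zero_pow two_ne_zero] at h1
    have h0 : 0 ≤ ∑ j, σ j / k * ‖P j z‖ ^ 2 := Finset.sum_nonneg fun j _ => by
      have := (hs j).le
      positivity
    have h0' : 0 ≤ 2 * τ * ‖p z‖ ^ 2 := by positivity
    have h2 := (Finset.sum_eq_zero_iff_of_nonneg fun j _ => by
      have := (hs j).le
      positivity).1 (show ∑ j, σ j / k * ‖P j z‖ ^ 2 = 0 by linarith) j (Finset.mem_univ j)
    rcases mul_eq_zero.1 h2 with h3 | h3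
    · exact absurd h3 (hs j).ne'
    · exact norm_eq_zero.1 (pow_eq_zero_iff two_ne_zero |>.1 h3))
  refine ⟨A.symm, fun z => ?_⟩
  rw [ContinuousLinearEquiv.symm_symm, hA, hLn]

/-- the exponent of the additional factor -/
noncomputable def xf (F : Fin k → Eu κ → ℝ) (M T : ℝ) (x : Eu κ) : ℝ :=
  ∑ j, (1 / (M + T)) * (M - F j x) / (2 * k)

theorem xf_le (hG : Gx F G c M T B) (hk : 0 < k) {x : Eu κ} (hx : x ∈ lev F fun _ => M) :
    xf F M T x ≤ 1 / 2 := by
  have hk0 : (0 : ℝ) < k := Nat.cast_pos.2 hk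
  have hMT := hG.MT
  unfold xf
  have h1 : ∀ j : Fin k, (1 / (M + T)) * (M - F j x) / (2 * k) ≤ 1 / (2 * k) := by
    intro j
    have h3 := hG.low x hx j
    refine div_le_div_of_nonneg_right ?_ (by positivity)
    rw [one_div, inv_mul_le_iff₀ hMT]
    linarith
  refine (Finset.sum_le_sum fun j _ => h1 j).trans (le_of_eq ?_)
  rw [Finset.sum_const, Finset.card_univ, Fintype.card_fin, nsmul_eq_mul]
  field_simp

theorem xf_nonneg (hM : 0 < M + T) {x : Eu κ} (hx : x ∈ lev F fun _ => M) : 0 ≤ xf F M T x := by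
  refine Finset.sum_nonneg fun j _ => ?_
  have h1 : F j x ≤ M := hx j
  have h2 : 0 ≤ M - F j x := by linarith
  positivity

theorem xf_cont (hF : Fm F) : Continuous (xf F M T) := by
  unfold xf
  refine continuous_finsetSum _ fun j _ => ?_
  have := hF.cont j
  fun_prop

/-- the weight -/
noncomputable def wt (F : Fin k → Eu κ → ℝ) (G : (Fin k → ℝ) → Eu κ → ℝ) (l : Fin k → ℝ)
    (M T τ : ℝ) (p : Eu κ →L[ℝ] Eu κ) (x : Eu κ) : ℝ :=
  W G (rt l) (fun j => F j x) x * Real.exp (xf F M T x) * Real.exp (-(τ * ‖p x‖ ^ 2))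

variable {τ : ℝ} {p : Eu κ →L[ℝ] Eu κ}

theorem wt_nonneg (hG : Gx F G c M T B) (l : Fin k → ℝ) (x : Eu κ) : 0 ≤ wt F G l M T τ p x :=
  mul_nonneg (mul_nonneg (W_nonneg hG _ _) (Real.exp_pos _).le) (Real.exp_pos _).le

theorem wt_meas (hF : Fm F) (hG : Gx F G c M T B) (l : Fin k → ℝ) :
    Measurable (wt F G l M T τ p) := by
  have h1 : Measurable fun x => W G (rt l) (fun j => F j x) x :=
    (W_meas hG).comp ((measurable_pi_lambda _ fun j => (hF.cont j).measurable).prodMk measurable_id)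
  have h2 : Continuous fun x => Real.exp (-(τ * ‖p x‖ ^ 2)) := by fun_prop
  exact (h1.mul (xf_cont hF).rexp.measurable).mul h2.measurable

theorem wt_zero (hG : Gx F G c M T B) (l : Fin k → ℝ) {x : Eu κ} (hx : x ∉ lev F fun _ => M) :
    wt F G l M T τ p x = 0 := by
  unfold wt
  rw [W_supp hG, zero_mul, zero_mul]
  by_contra hcon
  push Not at hcon
  exact hx hcon

theorem wt_le_W (hG : Gx F G c M T B) (hk : 0 < k) (hτ : 0 ≤ τ) (l : Fin k → ℝ) (x : Eu κ) :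
    wt F G l M T τ p x ≤ Real.exp (1 / 2) * W G (rt l) (fun j => F j x) x := by
  by_cases hx : x ∈ lev F fun _ => M
  · unfold wt
    have h1 := W_nonneg (μ := rt l) hG (fun j => F j x) x
    have h2 : Real.exp (xf F M T x) ≤ Real.exp (1 / 2) := Real.exp_le_exp.2 (xf_le hG hk hx)
    have h3 : Real.exp (-(τ * ‖p x‖ ^ 2)) ≤ 1 := Real.exp_le_one_iff.2 (by
      have : 0 ≤ τ * ‖p x‖ ^ 2 := by positivity
      linarith)
    calc W G (rt l) (fun j => F j x) x * Real.exp (xf F M T x) * Real.exp (-(τ * ‖p x‖ ^ 2)) ≤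
          W G (rt l) (fun j => F j x) x * Real.exp (1 / 2) * 1 :=
          mul_le_mul (mul_le_mul_of_nonneg_left h2 h1) h3 (Real.exp_pos _).le
            (mul_nonneg h1 (Real.exp_pos _).le)
      _ = _ := by ring
  · rw [wt_zero hG l hx]
    exact mul_nonneg (Real.exp_pos _).le (W_nonneg hG _ _)

theorem wt_bdd (hG : Gx F G c M T B) (hk : 0 < k) {l : Fin k → ℝ} (hl : ∀ j, 0 ≤ l j)
    (hτ : 0 ≤ τ) : ∃ A, ∀ x, wt F G l M T τ p x ≤ A := by
  refine ⟨Real.exp (1 / 2) * (B * Real.exp (∑ j, rt l j * (M + T))), fun x => ?_⟩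
  exact (wt_le_W hG hk hτ l x).trans (mul_le_mul_of_nonneg_left
    (Wl_bdd hG (rt_nonneg hl) (B_pos hG) x) (Real.exp_pos _).le)

theorem wt_supp (hF : Fm F) (hG : Gx F G c M T B) (l : Fin k → ℝ) :
    Pool.Agent.H212R2.KLS.Bdd (wt F G l M T τ p) := by
  obtain ⟨R, hR⟩ := (lev_compact hF fun _ => M).isBounded.exists_norm_le
  refine ⟨R, fun x hx => wt_zero hG l fun hm => ?_⟩
  have := hR x hm
  linarith

theorem wt_ge (hG : Gx F G c M T B) {l : Fin k → ℝ} (hl : ∀ j, 0 ≤ l j) (x : Eu κ) :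
    den F G 0 x ≤ Real.exp (τ * ‖p x‖ ^ 2) * wt F G l M T τ p x := by
  by_cases hx : x ∈ lev F fun _ => M
  · have h1 : den F G 0 x ≤ W G (rt l) (fun j => F j x) x := by
      unfold den
      simp only [Pi.zero_apply, add_zero]
      exact W_ge hG (rt_nonneg hl) _ _
    unfold wt
    have h2 : 1 ≤ Real.exp (xf F M T x) := Real.one_le_exp (xf_nonneg hG.MT hx)
    have h3 := W_nonneg (μ := rt l) hG (fun j => F j x) x
    have e : Real.exp (τ * ‖p x‖ ^ 2) * (W G (rt l) (fun j => F j x) x * Real.exp (xf F M T x) *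
        Real.exp (-(τ * ‖p x‖ ^ 2))) = W G (rt l) (fun j => F j x) x * Real.exp (xf F M T x) *
        (Real.exp (τ * ‖p x‖ ^ 2) * Real.exp (-(τ * ‖p x‖ ^ 2))) := by ring
    rw [e, ← Real.exp_add, add_neg_cancel, Real.exp_zero, mul_one]
    nlinarith
  · have h1 : den F G 0 x = 0 := den_supp hG (by simpa using hx)
    rw [h1]
    exact mul_nonneg (Real.exp_pos _).le (wt_nonneg hG l x)

theorem wt_int (hF : Fm F) (hG : Gx F G c M T B) (hk : 0 < k) {l : Fin k → ℝ} (hl : Lam F G l)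
    (hτ : 0 ≤ τ) :
    Integrable (wt F G l M T τ p) ∧ ∫ x, wt F G l M T τ p x ≤ 8 * N F G 0 := by
  have hm := wt_meas (τ := τ) (p := p) hF hG l
  have hN := N0_pos hF hG
  have hWm : Measurable fun x => W G (rt l) (fun j => F j x) x :=
    (W_meas hG).comp ((measurable_pi_lambda _ fun j => (hF.cont j).measurable).prodMk measurable_id)
  have h1 : ∫⁻ x, ENNReal.ofReal (wt F G l M T τ p x) ≤ ENNReal.ofReal (8 * N F G 0) := by
    calc ∫⁻ x, ENNReal.ofReal (wt F G l M T τ p x) ≤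
          ∫⁻ x, ENNReal.ofReal (Real.exp (1 / 2)) *
            ENNReal.ofReal (W G (rt l) (fun j => F j x) x) := by
          refine lintegral_mono fun x => ?_
          rw [← ENNReal.ofReal_mul (Real.exp_pos _).le]
          exact ENNReal.ofReal_le_ofReal (wt_le_W hG hk hτ l x)
      _ = ENNReal.ofReal (Real.exp (1 / 2)) *
            ∫⁻ x, ENNReal.ofReal (W G (rt l) (fun j => F j x) x) := by
          exact lintegral_const_mul _ hWm.ennreal_ofReal
      _ ≤ ENNReal.ofReal (Real.exp (1 / 2)) * ENNReal.ofReal (9 / 2 * N F G 0) :=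
          mul_le_mul_right (W_lint hF hG hk hl) _
      _ = ENNReal.ofReal (Real.exp (1 / 2) * (9 / 2 * N F G 0)) :=
          (ENNReal.ofReal_mul (Real.exp_pos _).le).symm
      _ ≤ ENNReal.ofReal (8 * N F G 0) := by
          refine ENNReal.ofReal_le_ofReal ?_
          have h2 : Real.exp (1 / 2 : ℝ) ≤ 1.65 := by
            have h2 := Real.exp_one_lt_d9
            have h3 : Real.exp (1 / 2 : ℝ) ^ 2 = Real.exp 1 := by
              rw [← Real.exp_nat_mul]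
              norm_num
            nlinarith [Real.exp_pos (1 / 2 : ℝ)]
          nlinarith
  have hi : Integrable (wt F G l M T τ p) := by
    refine ⟨hm.aestronglyMeasurable, ?_⟩
    rw [hasFiniteIntegral_iff_ofReal (Eventually.of_forall (wt_nonneg hG l))]
    exact h1.trans_lt ENNReal.ofReal_lt_top
  refine ⟨hi, ?_⟩
  rw [← ofReal_integral_eq_lintegral_ofReal hi (Eventually.of_forall (wt_nonneg hG l))] at h1
  exact (ENNReal.ofReal_le_ofReal_iff (by positivity)).1 h1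

/-- strong log-concavity -/
theorem wt_mid (hS : Sy F P β γ) (hG : Gx F G c M T B) (hk : 0 < k) {l : Fin k → ℝ}
    (hl : ∀ j, 0 ≤ l j) {S : Eu κ ≃L[ℝ] Eu κ}
    (hs : ∀ z, ‖S.symm z‖ ^ 2 = ∑ j, sg l M T j / k * ‖P j z‖ ^ 2 + 2 * τ * ‖p z‖ ^ 2)
    (x y : Eu κ) :
    wt F G l M T τ p x * wt F G l M T τ p y ≤ (wt F G l M T τ p ((1 / 2 : ℝ) • (x + y))) ^ 2 *
      Real.exp (-(‖S.symm (x - y)‖ ^ 2 / 4)) := by
  have hk0 : (0 : ℝ) < k := Nat.cast_pos.2 hk
  have hM := hG.MT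
  obtain ⟨m, hm⟩ : ∃ m, m = (1 / 2 : ℝ) • (x + y) := ⟨_, rfl⟩
  obtain ⟨d, hd⟩ : ∃ d : Fin k → ℝ, d = fun j => ‖P j (x - y)‖ ^ 2 / 4 := ⟨_, rfl⟩
  have hd0 : ∀ j, 0 ≤ d j := fun j => by rw [hd]; positivity
  have hm' : (1 / 2 : ℝ) • x + (1 / 2 : ℝ) • y = m := by rw [hm, smul_add]
  rw [← hm]
  have hstr : ∀ j, F j m = (F j x + F j y) / 2 - d j := fun j => by
    have h := hS.strong j x y
    rw [← hm] at h
    rw [hd]
    exact h
  -- the tilted part
  obtain ⟨E, hE⟩ : ∃ E, E = ∑ j, rt l j * d j := ⟨_, rfl⟩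
  have h1 : W G (rt l) (fun j => F j x) x * W G (rt l) (fun j => F j y) y ≤
      W G (rt l) (fun j => F j m) m ^ 2 * Real.exp (-(2 * E)) := by
    have h2 := W_mul (μ := rt l) hG (rt_nonneg hl) (fun j => F j x) (fun j => F j y) x y
    rw [hm'] at h2
    have h3 := W_shift (μ := rt l) hG (rt_nonneg hl)
      ((1 / 2 : ℝ) • (fun j => F j x) + (1 / 2 : ℝ) • fun j => F j y) m hd0
    have h4 : W G (rt l) ((1 / 2 : ℝ) • (fun j => F j x) + (1 / 2 : ℝ) • (fun j => F j y) - d) m ≤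
        W G (rt l) (fun j => F j m) m := W_anti hG (rt_nonneg hl) (fun j => by
      simp only [Pi.add_apply, Pi.smul_apply, Pi.sub_apply, smul_eq_mul]
      have := hstr j
      linarith) m
    have h5 := h3.trans h4
    rw [← hE] at h5
    have h6 := pow_le_pow_left₀ (mul_nonneg (W_nonneg hG _ _) (Real.exp_pos _).le) h5 2
    rw [mul_pow, ← Real.exp_nat_mul] at h6
    have h7 := mul_le_mul_of_nonneg_right h6 (Real.exp_pos (-(2 * E))).le
    rw [mul_assoc, ← Real.exp_add] at h7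
    have e : ((2 : ℕ) : ℝ) * E + -(2 * E) = 0 := by push_cast; ring
    rw [e, Real.exp_zero, mul_one] at h7
    exact h2.trans h7
  -- the additional factor
  have h2 : xf F M T x + xf F M T y ≤ 2 * xf F M T m - ∑ j, (1 / (M + T)) * (2 * d j) / (2 * k) := by
    unfold xf
    rw [← Finset.sum_add_distrib, Finset.mul_sum, ← Finset.sum_sub_distrib]
    refine Finset.sum_le_sum fun j _ => ?_
    rw [hstr j]
    refine le_of_eq ?_
    ring
  -- the Gaussian factor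
  have h2' : -(τ * ‖p x‖ ^ 2) + -(τ * ‖p y‖ ^ 2) =
      2 * (-(τ * ‖p m‖ ^ 2)) - 2 * τ * ‖p (x - y)‖ ^ 2 / 4 := by
    have h := parallelogram_law_with_norm ℝ (p x) (p y)
    rw [hm, map_smul, map_add, map_sub, norm_smul, mul_pow, Real.norm_eq_abs,
      abs_of_pos (by norm_num : (0 : ℝ) < 1 / 2)]
    have e : ‖p x‖ ^ 2 + ‖p y‖ ^ 2 = ‖p x + p y‖ ^ 2 / 2 + ‖p x - p y‖ ^ 2 / 2 := by nlinarith [h]
    have e2 : -(τ * ‖p x‖ ^ 2) + -(τ * ‖p y‖ ^ 2) = -(τ * (‖p x‖ ^ 2 + ‖p y‖ ^ 2)) := by ring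
    rw [e2, e]
    ring
  have h3 : (Real.exp (xf F M T x) * Real.exp (-(τ * ‖p x‖ ^ 2))) *
      (Real.exp (xf F M T y) * Real.exp (-(τ * ‖p y‖ ^ 2))) ≤
      (Real.exp (xf F M T m) * Real.exp (-(τ * ‖p m‖ ^ 2))) ^ 2 *
      Real.exp (-∑ j, (1 / (M + T)) * (2 * d j) / (2 * k) - 2 * τ * ‖p (x - y)‖ ^ 2 / 4) := by
    rw [← Real.exp_add, ← Real.exp_add, ← Real.exp_add, ← Real.exp_add, ← Real.exp_nat_mul,
      ← Real.exp_add]
    refine Real.exp_le_exp.2 ?_
    push_cast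
    linarith
  have h4 := mul_le_mul h1 h3 (by positivity)
    (mul_nonneg (sq_nonneg _) (Real.exp_pos _).le)
  unfold wt
  calc W G (rt l) (fun j => F j x) x * Real.exp (xf F M T x) * Real.exp (-(τ * ‖p x‖ ^ 2)) *
        (W G (rt l) (fun j => F j y) y * Real.exp (xf F M T y) * Real.exp (-(τ * ‖p y‖ ^ 2))) =
        (W G (rt l) (fun j => F j x) x * W G (rt l) (fun j => F j y) y) *
        ((Real.exp (xf F M T x) * Real.exp (-(τ * ‖p x‖ ^ 2))) *
        (Real.exp (xf F M T y) * Real.exp (-(τ * ‖p y‖ ^ 2)))) := by ring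
    _ ≤ _ := h4
    _ = (W G (rt l) (fun j => F j m) m * Real.exp (xf F M T m) *
          Real.exp (-(τ * ‖p m‖ ^ 2))) ^ 2 *
        (Real.exp (-(2 * E)) *
          Real.exp (-∑ j, (1 / (M + T)) * (2 * d j) / (2 * k) - 2 * τ * ‖p (x - y)‖ ^ 2 / 4)) := by
        ring
    _ = _ := by
      congr 1
      rw [← Real.exp_add]
      congr 1
      rw [hs, hE, Finset.mul_sum]
      have e1 : ∑ j, sg l M T j / k * ‖P j (x - y)‖ ^ 2 =
          ∑ j, (4 * (2 * (rt l j * d j)) + 4 * ((1 / (M + T)) * (2 * d j) / (2 * k))) := by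
        refine Finset.sum_congr rfl fun j _ => ?_
        rw [hd]
        unfold rt sg
        field_simp
      have e2 : ∑ j, (4 * (2 * (rt l j * d j)) + 4 * ((1 / (M + T)) * (2 * d j) / (2 * k))) =
          4 * (∑ j, 2 * (rt l j * d j)) + 4 * ∑ j, (1 / (M + T)) * (2 * d j) / (2 * k) := by
        rw [Finset.sum_add_distrib, Finset.mul_sum, Finset.mul_sum]
      rw [e1, e2]
      generalize (∑ j, 2 * (rt l j * d j)) = A1
      generalize (∑ j, (1 / (M + T)) * (2 * d j) / (2 * k)) = A2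
      ring

/-- integrability against the weight -/
theorem wt_int_cont (hF : Fm F) (hG : Gx F G c M T B) (hk : 0 < k) {l : Fin k → ℝ}
    (hl : Lam F G l) (hτ : 0 ≤ τ) {g : Eu κ → ℝ} (hg : Continuous g) :
    Integrable (fun x => g x * wt F G l M T τ p x) := by
  have hwi := (wt_int (p := p) hF hG hk hl hτ).1
  obtain ⟨B', hB'⟩ := (lev_compact hF fun _ => M).exists_bound_of_continuousOn hg.continuousOn
  refine (hwi.const_mul B').mono' (hg.aestronglyMeasurable.mul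
    (wt_meas hF hG l).aestronglyMeasurable) (Eventually.of_forall fun x => ?_)
  rw [norm_mul, Real.norm_of_nonneg (wt_nonneg hG l x)]
  by_cases hx : x ∈ lev F fun _ => M
  · exact mul_le_mul_of_nonneg_right (hB' x hx) (wt_nonneg hG l x)
  · rw [wt_zero hG l hx, mul_zero, mul_zero]

/-- **variances of functions with bounded gradients** -/
theorem var_wt (hS : Sy F P β γ) (hG : Gx F G c M T B) (hk : 0 < k) {l : Fin k → ℝ}
    (hl : Lam F G l) (hτ : 0 ≤ τ) {S : Eu κ ≃L[ℝ] Eu κ}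
    (hs : ∀ z, ‖S.symm z‖ ^ 2 = ∑ j, sg l M T j / k * ‖P j z‖ ^ 2 + 2 * τ * ‖p z‖ ^ 2)
    {f : Eu κ → ℝ} (hf : ContDiff ℝ 1 f) {A : ℝ}
    (hA : ∀ x, ‖(fderiv ℝ f x).comp (S : Eu κ →L[ℝ] Eu κ)‖ ≤ A) :
    ∃ a : ℝ, ∫ x, (f x - a) ^ 2 * wt F G l M T τ p x ≤ 8 * A ^ 2 * N F G 0 := by
  have hF := hS.toFm
  obtain ⟨a, ha⟩ := Pool.Agent.H888R2.KT.bl_lin (wt F G l M T τ p) (wt_nonneg hG l)
    (wt_meas hF hG l) (wt_bdd hG hk hl.nonneg hτ) (wt_supp hF hG l) S
    (wt_mid hS hG hk hl.nonneg hs) f hf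
  refine ⟨a, ?_⟩
  obtain ⟨hwi, hwN⟩ := wt_int (p := p) hF hG hk hl hτ
  have h2 : ∫ x, ‖(fderiv ℝ f x).comp (S : Eu κ →L[ℝ] Eu κ)‖ ^ 2 * wt F G l M T τ p x ≤
      ∫ x, A ^ 2 * wt F G l M T τ p x := by
    refine integral_mono_of_nonneg (Eventually.of_forall fun x => ?_) (hwi.const_mul _)
      (Eventually.of_forall fun x => ?_)
    · exact mul_nonneg (sq_nonneg _) (wt_nonneg hG l x)
    · exact mul_le_mul_of_nonneg_right (pow_le_pow_left₀ (norm_nonneg _) (hA x) 2)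
        (wt_nonneg hG l x)
  rw [integral_const_mul] at h2
  have h3 := mul_le_mul_of_nonneg_left hwN (sq_nonneg A)
  calc ∫ x, (f x - a) ^ 2 * wt F G l M T τ p x ≤ _ := ha
    _ ≤ _ := h2
    _ ≤ _ := h3
    _ = _ := by ring

/-- **variances for the original density** -/
theorem var_den (hS : Sy F P β γ) (hG : Gx F G c M T B) (hk : 0 < k) {l : Fin k → ℝ}
    (hl : Lam F G l) {S : Eu κ ≃L[ℝ] Eu κ}
    (hs : ∀ z, ‖S.symm z‖ ^ 2 = ∑ j, sg l M T j / k * ‖P j z‖ ^ 2)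
    {f : Eu κ → ℝ} (hf : ContDiff ℝ 1 f) {A : ℝ}
    (hA : ∀ x, ‖(fderiv ℝ f x).comp (S : Eu κ →L[ℝ] Eu κ)‖ ≤ A) :
    ∃ a : ℝ, ∫ x, (f x - a) ^ 2 * den F G 0 x ≤ 8 * A ^ 2 * N F G 0 := by
  have hF := hS.toFm
  obtain ⟨a, ha⟩ := var_wt (τ := 0) (p := 0) hS hG hk hl le_rfl (S := S) (fun z => by
    rw [hs]
    ring) hf hA
  refine ⟨a, le_trans ?_ ha⟩
  have hcf : Continuous f := hf.continuous
  refine integral_mono_of_nonneg (Eventually.of_forall fun x =>
    mul_nonneg (sq_nonneg _) (den_nonneg hG _ x))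
    (wt_int_cont hF hG hk hl le_rfl (g := fun x => (f x - a) ^ 2) (by fun_prop))
    (Eventually.of_forall fun x => ?_)
  refine mul_le_mul_of_nonneg_left ?_ (sq_nonneg _)
  have h := wt_ge (τ := 0) (p := 0) hG hl.nonneg x
  rwa [zero_mul, Real.exp_zero, one_mul] at h

end Pool.Agent.H776.NC
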