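import Pool.Agent.H776.NC4
import Pool.Agent.H776.AllLC

/-!
# Log-concave densities of few quadratic polynomials and linear functionals, IV: isotropic position
-/

set_option autoImplicit false

namespace Pool.Agent.H776.NC

open MeasureTheory Set Filter Topology
open scoped ENNReal InnerProductSpace
open Pool.Agent.H776.FE (lev exists_sqrt)

variable {κ : Type} [Fintype κ] {k : ℕ}
variable {F : Fin k → Eu κ → ℝ} {G : (Fin k → ℝ) → Eu κ → ℝ} {c M T B : ℝ}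
variable {b : Fin k → Type} [∀ j, Fintype (b j)] {P : ∀ j, Eu κ →L[ℝ] Eu (b j)}
variable {β : Fin k → Eu κ} {γ : Fin k → ℝ}

/-- the measure with the shifted density -/
noncomputable def ms (F : Fin k → Eu κ → ℝ) (G : (Fin k → ℝ) → Eu κ → ℝ) (t : Fin k → ℝ) :
    Measure (Eu κ) := volume.withDensity fun x => ENNReal.ofReal (den F G t x)

theorem ms_apply (hF : Fm F) (hG : Gx F G c M T B) (t : Fin k → ℝ) {A : Set (Eu κ)}
    (hA : MeasurableSet A) : (ms F G t).real A = ∫ x in A, den F G t x := by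
  unfold ms
  rw [measureReal_def, withDensity_apply _ hA, ← ofReal_integral_eq_lintegral_ofReal
    (den_int hF hG t).integrableOn (Eventually.of_forall (den_nonneg hG t)),
    ENNReal.toReal_ofReal (integral_nonneg fun x => den_nonneg hG t x)]

theorem ms_fin (hF : Fm F) (hG : Gx F G c M T B) (t : Fin k → ℝ) : IsFiniteMeasure (ms F G t) := by
  refine ⟨?_⟩
  unfold ms
  rw [withDensity_apply _ MeasurableSet.univ, Measure.restrict_univ, ← N_ofReal hF hG]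
  exact ENNReal.ofReal_lt_top

theorem ms_univ (hF : Fm F) (hG : Gx F G c M T B) (t : Fin k → ℝ) :
    (ms F G t).real univ = N F G t := by
  rw [ms_apply hF hG t MeasurableSet.univ, setIntegral_univ]
  rfl

/-- integration against the measure -/
theorem ms_integral (hF : Fm F) (hG : Gx F G c M T B) (t : Fin k → ℝ) (g : Eu κ → ℝ) :
    ∫ x, g x ∂(ms F G t) = ∫ x, g x * den F G t x := by
  unfold ms
  rw [integral_withDensity_eq_integral_toReal_smul (den_meas hF hG t).ennreal_ofReal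
    (Eventually.of_forall fun x => ENNReal.ofReal_lt_top)]
  refine integral_congr_ae (Eventually.of_forall fun x => ?_)
  simp only [ENNReal.toReal_ofReal (den_nonneg hG t x), smul_eq_mul]
  ring

theorem int_cont (hF : Fm F) (hG : Gx F G c M T B) (t : Fin k → ℝ) {g : Eu κ → ℝ}
    (hg : Continuous g) : Integrable (fun x => g x * den F G t x) := by
  obtain ⟨B', hB'⟩ := (lev_compact hF fun j => M - t j).exists_bound_of_continuousOn
    hg.continuousOn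
  refine ((den_int hF hG t).const_mul B').mono' (hg.aestronglyMeasurable.mul
    (den_meas hF hG t).aestronglyMeasurable) (Eventually.of_forall fun x => ?_)
  rw [norm_mul, Real.norm_of_nonneg (den_nonneg hG t x)]
  by_cases hx : x ∈ lev F fun j => M - t j
  · exact mul_le_mul_of_nonneg_right (hB' x hx) (den_nonneg hG t x)
  · rw [den_supp hG hx, mul_zero, mul_zero]

theorem ms_int (hF : Fm F) (hG : Gx F G c M T B) (t : Fin k → ℝ) {g : Eu κ → ℝ}
    (hg : Continuous g) : Integrable g (ms F G t) := by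
  unfold ms
  rw [integrable_withDensity_iff_integrable_smul' (den_meas hF hG t).ennreal_ofReal
    (Eventually.of_forall fun x => ENNReal.ofReal_lt_top)]
  refine (int_cont hF hG t hg).congr (Eventually.of_forall fun x => ?_)
  simp only [ENNReal.toReal_ofReal (den_nonneg hG t x), smul_eq_mul]
  ring

theorem int_sq_le (hF : Fm F) (hG : Gx F G c M T B) {g : Eu κ → ℝ} (hg : Continuous g)
    (h0 : ∫ x, g x * den F G 0 x = 0) (a : ℝ) :
    ∫ x, g x ^ 2 * den F G 0 x ≤ ∫ x, (g x - a) ^ 2 * den F G 0 x := by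
  have h1 := int_cont hF hG 0 (g := fun x => g x ^ 2) (by fun_prop)
  have h2 := int_cont hF hG 0 hg
  have h3 := (den_int hF hG 0).const_mul (a ^ 2)
  have e : ∀ x, (g x - a) ^ 2 * den F G 0 x =
      (g x ^ 2 * den F G 0 x - 2 * a * (g x * den F G 0 x)) + a ^ 2 * den F G 0 x := fun x => by ring
  simp only [e]
  have h4 : Integrable (fun x => g x ^ 2 * den F G 0 x - 2 * a * (g x * den F G 0 x)) :=
    h1.sub (h2.const_mul _)
  rw [integral_add h4 h3, integral_sub h1 (h2.const_mul (2 * a)),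
    integral_const_mul, h0, integral_const_mul]
  have : 0 ≤ a ^ 2 * ∫ x, den F G 0 x := mul_nonneg (sq_nonneg _) (N_nonneg hG 0)
  linarith

/-- isotropic position -/
structure Iso (F : Fin k → Eu κ → ℝ) (G : (Fin k → ℝ) → Eu κ → ℝ) : Prop where
  mean : ∀ θ : Eu κ, ∫ x, ⟪x, θ⟫_ℝ * den F G 0 x = 0
  cov : ∀ θ : Eu κ, ∫ x, ⟪x, θ⟫_ℝ ^ 2 * den F G 0 x = ‖θ‖ ^ 2 * N F G 0

theorem P_bound {l : Fin k → ℝ} (hl : ∀ j, 0 ≤ l j) (hM : 0 < M + T) {S : Eu κ ≃L[ℝ] Eu κ}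
    (hk : 0 < k) (hs : ∀ z, ‖S.symm z‖ ^ 2 = ∑ j, sg l M T j / k * ‖P j z‖ ^ 2) (j : Fin k)
    (z : Eu κ) : ‖P j z‖ ^ 2 ≤ k / sg l M T j * ‖S.symm z‖ ^ 2 := by
  have hk0 : (0 : ℝ) < k := Nat.cast_pos.2 hk
  have h0 := sg_pos hl hM j
  have h2 : sg l M T j / k * ‖P j z‖ ^ 2 ≤ ‖S.symm z‖ ^ 2 := by
    rw [hs]
    refine Finset.single_le_sum (f := fun j => sg l M T j / k * ‖P j z‖ ^ 2) (fun i _ => ?_)
      (Finset.mem_univ j)
    have := sg_pos hl hM i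
    positivity
  have h3 := mul_le_mul_of_nonneg_left h2 (by positivity : (0 : ℝ) ≤ k / sg l M T j)
  have e : (k : ℝ) / sg l M T j * (sg l M T j / k * ‖P j z‖ ^ 2) = ‖P j z‖ ^ 2 := by field_simp
  rwa [e] at h3

/-- second moments of linear functionals -/
theorem lin_sq (hS : Sy F P β γ) (hG : Gx F G c M T B) (hk : 0 < k) {l : Fin k → ℝ}
    (hl : Lam F G l) (hI : Iso F G) {S : Eu κ ≃L[ℝ] Eu κ}
    (hs : ∀ z, ‖S.symm z‖ ^ 2 = ∑ j, sg l M T j / k * ‖P j z‖ ^ 2) (h : Eu κ) {A : ℝ}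
    (hA0 : 0 ≤ A) (hA : ∀ u, |⟪h, S u⟫_ℝ| ≤ A * ‖u‖) :
    ∫ x, ⟪h, x⟫_ℝ ^ 2 * den F G 0 x ≤ 8 * A ^ 2 * N F G 0 := by
  obtain ⟨a, ha⟩ := var_den hS hG hk hl hs (f := fun x => (innerSL ℝ h : Eu κ →L[ℝ] ℝ) x)
    (ContinuousLinearMap.contDiff _) (A := A) (fun x => by
      rw [ContinuousLinearMap.fderiv]
      refine ContinuousLinearMap.opNorm_le_bound _ hA0 fun u => ?_
      rw [ContinuousLinearMap.comp_apply, Real.norm_eq_abs]
      exact hA u)
  refine le_trans ?_ ha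
  exact int_sq_le hS.toFm hG (g := fun x => ⟪h, x⟫_ℝ) (by fun_prop) (by
    have := hI.mean h
    refine Eq.trans ?_ this
    refine integral_congr_ae (Eventually.of_forall fun x => ?_)
    simp only [real_inner_comm]) a

/-- **the rates are bounded in isotropic position** -/
theorem S_upper (hS : Sy F P β γ) (hG : Gx F G c M T B) (hk : 0 < k) {l : Fin k → ℝ}
    (hl : Lam F G l) (hI : Iso F G) {S : Eu κ ≃L[ℝ] Eu κ}
    (hs : ∀ z, ‖S.symm z‖ ^ 2 = ∑ j, sg l M T j / k * ‖P j z‖ ^ 2) (z : Eu κ) :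
    ‖S.symm z‖ ^ 2 ≤ 8 * ‖z‖ ^ 2 := by
  obtain ⟨h, hh⟩ : ∃ h, h = ContinuousLinearMap.adjoint (S.symm : Eu κ →L[ℝ] Eu κ) (S.symm z) :=
    ⟨_, rfl⟩
  have hin : ∀ x, ⟪h, x⟫_ℝ = ⟪S.symm z, S.symm x⟫_ℝ := by
    intro x
    rw [hh, ContinuousLinearMap.adjoint_inner_left]
    rfl
  have hN := N0_pos hS.toFm hG
  have h1 := lin_sq hS hG hk hl hI hs h (A := ‖S.symm z‖) (norm_nonneg _) (fun u => by
    rw [hin, ContinuousLinearEquiv.symm_apply_apply]
    exact abs_real_inner_le_norm _ _)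
  have h2 : ‖h‖ ^ 2 ≤ 8 * ‖S.symm z‖ ^ 2 := by
    have h3 := hI.cov h
    have h4 : ∫ x, ⟪h, x⟫_ℝ ^ 2 * den F G 0 x = ‖h‖ ^ 2 * N F G 0 := by
      rw [← h3]
      refine integral_congr_ae (Eventually.of_forall fun x => ?_)
      simp only [real_inner_comm]
    rw [h4] at h1
    exact le_of_mul_le_mul_right h1 hN
  have h3 : ‖S.symm z‖ ^ 2 ≤ ‖h‖ * ‖z‖ := by
    have h4 := hin z
    rw [real_inner_self_eq_norm_sq] at h4
    rw [← h4]
    exact real_inner_le_norm _ _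
  rcases eq_or_lt_of_le (sq_nonneg ‖S.symm z‖) with h0 | h0
  · rw [← h0]
    positivity
  · have h4 := pow_le_pow_left₀ (sq_nonneg ‖S.symm z‖) h3 2
    rw [mul_pow] at h4
    have h5 : ‖S.symm z‖ ^ 2 * ‖S.symm z‖ ^ 2 ≤ ‖S.symm z‖ ^ 2 * (8 * ‖z‖ ^ 2) := by
      have h6 := mul_le_mul_of_nonneg_right h2 (sq_nonneg ‖z‖)
      nlinarith
    exact le_of_mul_le_mul_left h5 h0

/-- the subspace of the linear parts -/
structure Ev (E : Submodule ℝ (Eu κ)) (β : Fin k → Eu κ) (G : (Fin k → ℝ) → Eu κ → ℝ) : Prop where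
  mem : ∀ j, β j ∈ E
  inv : ∀ v ∈ Eᗮ, ∀ s x, G s (x + v) = G s x

variable {E : Submodule ℝ (Eu κ)}

theorem F_add (hS : Sy F P β γ) (hE : Ev E β G) {v : Eu κ} (hv : v ∈ Eᗮ) (j : Fin k) (x : Eu κ) :
    F j (x + v) = F j x + 2 * ⟪P j v, P j x⟫_ℝ + ‖P j v‖ ^ 2 := by
  have h1 : ⟪β j, v⟫_ℝ = 0 := (Submodule.mem_orthogonal E v).1 hv _ (hE.mem j)
  rw [hS.eq, hS.eq, map_add, inner_add_right, h1, norm_add_sq_real, real_inner_comm (P j v)]
  ring

/-- the good set -/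
def gd (P : ∀ j, Eu κ →L[ℝ] Eu (b j)) (l : Fin k → ℝ) (M T : ℝ) (v : Eu κ) : Set (Eu κ) :=
  {x | ∀ j, |⟪P j v, P j x⟫_ℝ| ≤ 1 / 16 / (k * sg l M T j)}

/-- the shift -/
noncomputable def dn (k : ℕ) (l : Fin k → ℝ) (M T : ℝ) (j : Fin k) : ℝ :=
  -(1 / 4 / (k * sg l M T j))

theorem gd_meas (l : Fin k → ℝ) (v : Eu κ) : MeasurableSet (gd P l M T v) := by
  have e : gd P l M T v = ⋂ j, {x | |⟪P j v, P j x⟫_ℝ| ≤ 1 / 16 / (k * sg l M T j)} := by
    ext x
    simp [gd]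
  rw [e]
  refine MeasurableSet.iInter fun j => ?_
  exact (isClosed_le (by fun_prop) continuous_const).measurableSet

theorem gd_neg {l : Fin k → ℝ} {v x : Eu κ} (hx : x ∈ gd P l M T v) :
    x ∈ gd P l M T (-v) := fun j => by rw [map_neg, inner_neg_left, abs_neg]; exact hx j

theorem gd_vol (hS : Sy F P β γ) (hG : Gx F G c M T B) (hk : 0 < k) {l : Fin k → ℝ}
    (hl : Lam F G l) (hI : Iso F G) {S : Eu κ ≃L[ℝ] Eu κ}
    (hs : ∀ z, ‖S.symm z‖ ^ 2 = ∑ j, sg l M T j / k * ‖P j z‖ ^ 2)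
    {η : ℝ} (hη : 0 ≤ η) (hη2 : 20480 * k ^ 5 * η ^ 2 ≤ 1) {v : Eu κ}
    (hv : ‖S.symm v‖ ≤ η) : 9 / 10 * N F G 0 ≤ (ms F G 0).real (gd P l M T v) := by
  have hF := hS.toFm
  have hk0 : (0 : ℝ) < k := Nat.cast_pos.2 hk
  have hV := N0_pos hF hG
  have := ms_fin hF hG 0
  set bad : Fin k → Set (Eu κ) := fun j =>
    {x | (1 / 16 / (k * sg l M T j)) ^ 2 ≤ ⟪P j v, P j x⟫_ℝ ^ 2} with hbad
  have hb : ∀ j, (ms F G 0).real (bad j) ≤ N F G 0 / (10 * k) := by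
    intro j
    have h0 := sg_pos hl.nonneg hG.MT j
    have hc : Continuous fun x => ⟪P j v, P j x⟫_ℝ := by fun_prop
    have h2 := mul_meas_ge_le_integral_of_nonneg (μ := ms F G 0)
      (f := fun x => ⟪P j v, P j x⟫_ℝ ^ 2) (Eventually.of_forall fun x => sq_nonneg _)
      (ms_int hF hG 0 (by fun_prop)) ((1 / 16 / (k * sg l M T j)) ^ 2)
    rw [ms_integral hF hG 0 (fun x => ⟪P j v, P j x⟫_ℝ ^ 2)] at h2
    -- the second moment
    have hin : ∀ x, ⟪ContinuousLinearMap.adjoint (P j) (P j v), x⟫_ℝ = ⟪P j v, P j x⟫_ℝ :=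
      fun x => ContinuousLinearMap.adjoint_inner_left _ _ _
    have h3 := lin_sq hS hG hk hl hI hs (ContinuousLinearMap.adjoint (P j) (P j v))
      (A := k / sg l M T j * η) (by positivity) (fun u => by
        rw [hin]
        refine (abs_real_inner_le_norm _ _).trans ?_
        have h3 := P_bound hl.nonneg hG.MT hk hs j v
        have h4 := P_bound hl.nonneg hG.MT hk hs j (S u)
        rw [ContinuousLinearEquiv.symm_apply_apply] at h4
        have h5 : (‖P j v‖ * ‖P j (S u)‖) ^ 2 ≤ (k / sg l M T j * η * ‖u‖) ^ 2 := by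
          rw [mul_pow]
          have h6 : ‖P j v‖ ^ 2 ≤ k / sg l M T j * η ^ 2 := h3.trans (by gcongr)
          calc ‖P j v‖ ^ 2 * ‖P j (S u)‖ ^ 2 ≤
                (k / sg l M T j * η ^ 2) * (k / sg l M T j * ‖u‖ ^ 2) :=
                mul_le_mul h6 h4 (sq_nonneg _) (by positivity)
            _ = _ := by ring
        exact (abs_le_of_sq_le_sq' h5 (by positivity)).2)
    simp only [hin] at h3
    have h3' := h2.trans h3
    have h4 : (1 / 16 / (k * sg l M T j)) ^ 2 * (ms F G 0).real (bad j) ≤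
        (1 / 16 / (k * sg l M T j)) ^ 2 * (2048 * k ^ 4 * η ^ 2 * N F G 0) := by
      refine h3'.trans (le_of_eq ?_)
      field_simp
      ring
    have h5 : (ms F G 0).real (bad j) ≤ 2048 * k ^ 4 * η ^ 2 * N F G 0 :=
      le_of_mul_le_mul_left h4 (by positivity)
    refine h5.trans ?_
    rw [le_div_iff₀ (by positivity)]
    calc 2048 * (k : ℝ) ^ 4 * η ^ 2 * N F G 0 * (10 * k) =
          (20480 * k ^ 5 * η ^ 2) * N F G 0 := by ring
      _ ≤ 1 * N F G 0 := by gcongr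
      _ = _ := one_mul _
  have hcov : univ ⊆ gd P l M T v ∪ ⋃ j, bad j := by
    intro x _
    by_cases h : ∀ j, |⟪P j v, P j x⟫_ℝ| ≤ 1 / 16 / (k * sg l M T j)
    · exact Or.inl h
    · right
      push Not at h
      obtain ⟨j, hj⟩ := h
      refine mem_iUnion.2 ⟨j, ?_⟩
      have h0 := sg_pos hl.nonneg hG.MT j
      have h2 : (0 : ℝ) ≤ 1 / 16 / (k * sg l M T j) := by positivity
      have h3 := pow_le_pow_left₀ h2 hj.le 2
      rw [sq_abs] at h3
      exact h3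
  have h1 : N F G 0 ≤ (ms F G 0).real (gd P l M T v) + ∑ j, (ms F G 0).real (bad j) := by
    calc N F G 0 = (ms F G 0).real univ := (ms_univ hF hG 0).symm
      _ ≤ (ms F G 0).real (gd P l M T v ∪ ⋃ j, bad j) := measureReal_mono hcov
      _ ≤ (ms F G 0).real (gd P l M T v) + (ms F G 0).real (⋃ j, bad j) :=
          measureReal_union_le _ _
      _ ≤ _ := by
          gcongr
          exact measureReal_iUnion_fintype_le _
  have h2 : ∑ j, (ms F G 0).real (bad j) ≤ ∑ _j : Fin k, N F G 0 / (10 * k) :=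
    Finset.sum_le_sum fun j _ => hb j
  rw [Finset.sum_const, Finset.card_univ, Fintype.card_fin, nsmul_eq_mul] at h2
  have h3 : (k : ℝ) * (N F G 0 / (10 * k)) = N F G 0 / 10 := by field_simp
  rw [h3] at h2
  linarith

/-- translates of good points -/
theorem gd_add (hS : Sy F P β γ) (hG : Gx F G c M T B) (hk : 0 < k) {l : Fin k → ℝ}
    (hl : ∀ j, 0 ≤ l j) (hE : Ev E β G) {S : Eu κ ≃L[ℝ] Eu κ}
    (hs : ∀ z, ‖S.symm z‖ ^ 2 = ∑ j, sg l M T j / k * ‖P j z‖ ^ 2)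
    {η : ℝ} (hη2 : 20480 * k ^ 5 * η ^ 2 ≤ 1) {v : Eu κ} (hvE : v ∈ Eᗮ)
    (hv : ‖S.symm v‖ ≤ η) {x : Eu κ} (hx : x ∈ gd P l M T v) :
    den F G 0 x ≤ den F G (dn k l M T) (x + v) := by
  unfold den
  rw [hE.inv v hvE]
  refine hG.anti _ _ _ fun j => ?_
  have hk0 : (0 : ℝ) < k := Nat.cast_pos.2 hk
  have hk1 : (1 : ℝ) ≤ k := by exact_mod_cast hk
  have h0 := sg_pos hl hG.MT j
  have h4 := hx j
  have h5 := P_bound hl hG.MT hk hs j v
  have h6 : ⟪P j v, P j x⟫_ℝ ≤ 1 / 16 / (k * sg l M T j) := (le_abs_self _).trans h4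
  have h7 : ‖P j v‖ ^ 2 ≤ 1 / 8 / (k * sg l M T j) := by
    have h8 : ‖P j v‖ ^ 2 ≤ k / sg l M T j * η ^ 2 := h5.trans (by gcongr)
    refine h8.trans ?_
    rw [le_div_iff₀ (by positivity)]
    have e : k / sg l M T j * η ^ 2 * (k * sg l M T j) = k ^ 2 * η ^ 2 := by
      field_simp
    rw [e]
    have h11 : (k : ℝ) ^ 2 ≤ k ^ 5 := pow_le_pow_right₀ hk1 (by norm_num)
    have h12 : (k : ℝ) ^ 2 * η ^ 2 ≤ k ^ 5 * η ^ 2 := mul_le_mul_of_nonneg_right h11 (sq_nonneg _)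
    nlinarith
  show F j (x + v) + dn k l M T j ≤ F j x + (0 : Fin k → ℝ) j
  rw [F_add hS hE hvE, Pi.zero_apply]
  unfold dn
  have e1 : 1 / 4 / (k * sg l M T j) = 4 * (1 / 16 / (k * sg l M T j)) := by ring
  have e2 : 1 / 8 / (k * sg l M T j) = 2 * (1 / 16 / (k * sg l M T j)) := by ring
  rw [e2] at h7
  rw [e1]
  linarith

theorem exp_quarter : Real.exp (1 / 4) ≤ 1.29 := by
  have h1 := Real.exp_one_lt_d9
  have h3 : Real.exp (1 / 4 : ℝ) ^ 4 = Real.exp 1 := by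
    rw [← Real.exp_nat_mul]
    norm_num
  by_contra hcon
  push Not at hcon
  have h4 := pow_lt_pow_left₀ hcon (by norm_num) (four_ne_zero)
  rw [h3] at h4
  norm_num at h4
  linarith

theorem N_dn (hF : Fm F) (hG : Gx F G c M T B) (hk : 0 < k) {l : Fin k → ℝ} (hl : Lam F G l) :
    N F G (dn k l M T) ≤ 1.29 * N F G 0 := by
  have hk0 : (0 : ℝ) < k := Nat.cast_pos.2 hk
  have h1 := hl.le (dn k l M T)
  have h2 : -∑ j, l j * dn k l M T j ≤ 1 / 4 := by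
    have h3 : ∀ j, -(l j * dn k l M T j) ≤ 1 / 4 / k := by
      intro j
      have h4 := sg_pos hl.nonneg hG.MT j
      have h5 : l j ≤ sg l M T j := by
        unfold sg
        have := hG.MT
        have : (0 : ℝ) ≤ 1 / (M + T) := by positivity
        linarith
      have e : -(l j * dn k l M T j) = (l j / sg l M T j) * (1 / 4 / k) := by
        unfold dn
        field_simp
      rw [e]
      have h6 : l j / sg l M T j ≤ 1 := by
        rw [div_le_one h4]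
        exact h5
      calc l j / sg l M T j * (1 / 4 / k) ≤ 1 * (1 / 4 / k) := by gcongr
        _ = _ := one_mul _
    rw [← Finset.sum_neg_distrib]
    refine (Finset.sum_le_sum fun j _ => h3 j).trans (le_of_eq ?_)
    rw [Finset.sum_const, Finset.card_univ, Fintype.card_fin, nsmul_eq_mul]
    field_simp
  have h3 := N0_pos hF hG
  calc N F G (dn k l M T) ≤ _ := h1
    _ ≤ N F G 0 * Real.exp (1 / 4) := by gcongr
    _ ≤ N F G 0 * 1.29 := mul_le_mul_of_nonneg_left exp_quarter h3.le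
    _ = _ := mul_comm _ _

/-- **the directions orthogonal to the linear parts** -/
theorem perp_bound (hS : Sy F P β γ) (hG : Gx F G c M T B) (hk : 0 < k) {l : Fin k → ℝ}
    (hl : Lam F G l) (hI : Iso F G) (hE : Ev E β G) {S : Eu κ ≃L[ℝ] Eu κ}
    (hs : ∀ z, ‖S.symm z‖ ^ 2 = ∑ j, sg l M T j / k * ‖P j z‖ ^ 2)
    {η : ℝ} (hη : 0 ≤ η) (hη2 : 20480 * k ^ 5 * η ^ 2 ≤ 1) {v : Eu κ} (hvE : v ∈ Eᗮ)
    (hv : ‖S.symm v‖ ≤ η) : ‖v‖ ≤ 2 := by
  have hF := hS.toFm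
  have hV := N0_pos hF hG
  have hf0 := ms_fin hF hG 0
  have hfd := ms_fin hF hG (dn k l M T)
  by_contra hcon
  push Not at hcon
  have hn0 : 0 < ‖v‖ := by linarith
  have hgood := gd_vol hS hG hk hl hI hs hη hη2 hv
  obtain ⟨m, hm⟩ : ∃ m, m = ms F G 0 := ⟨_, rfl⟩
  obtain ⟨m', hm'⟩ : ∃ m', m' = ms F G (dn k l M T) := ⟨_, rfl⟩
  rw [← hm] at hf0 hgood
  rw [← hm'] at hfd
  -- the slab
  obtain ⟨Q, hQ⟩ : ∃ Q : Set (Eu κ), Q = {x | |⟪x, v⟫_ℝ| ≤ 2 * ‖v‖} := ⟨_, rfl⟩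
  have hQm : MeasurableSet Q := by
    rw [hQ]
    exact (isClosed_le (by fun_prop) continuous_const).measurableSet
  have hQc : m.real Qᶜ ≤ N F G 0 / 4 := by
    have h9 := mul_meas_ge_le_integral_of_nonneg (μ := ms F G 0)
      (f := fun x : Eu κ => ⟪x, v⟫_ℝ ^ 2) (Eventually.of_forall fun x => sq_nonneg _)
      (ms_int hF hG 0 (by fun_prop)) ((2 * ‖v‖) ^ 2)
    rw [ms_integral hF hG 0 (fun x => ⟪x, v⟫_ℝ ^ 2), hI.cov, ← hm] at h9
    have h10 : m.real Qᶜ ≤ m.real {x : Eu κ | (2 * ‖v‖) ^ 2 ≤ ⟪x, v⟫_ℝ ^ 2} := by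
      refine measureReal_mono fun x hx => ?_
      rw [hQ] at hx
      have h11 : 2 * ‖v‖ < |⟪x, v⟫_ℝ| := not_le.1 hx
      have h12 := pow_le_pow_left₀ (by positivity) h11.le 2
      rw [sq_abs] at h12
      exact h12
    have h11 : (2 * ‖v‖) ^ 2 * m.real {x : Eu κ | (2 * ‖v‖) ^ 2 ≤ ⟪x, v⟫_ℝ ^ 2} ≤
        (2 * ‖v‖) ^ 2 * (N F G 0 / 4) := h9.trans (le_of_eq (by ring))
    exact h10.trans (le_of_mul_le_mul_left h11 (by positivity))
  obtain ⟨A, hA⟩ : ∃ A : Set (Eu κ), A = gd P l M T v ∩ Q := ⟨_, rfl⟩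
  have hAm : MeasurableSet A := by
    rw [hA]
    exact (gd_meas l v).inter hQm
  have hAv : 0.65 * N F G 0 ≤ m.real A := by
    have h1 : m.real (gd P l M T v) ≤ m.real A + m.real Qᶜ := by
      refine (measureReal_mono (fun x hx => ?_)).trans (measureReal_union_le _ _)
      by_cases h : x ∈ Q
      · exact Or.inl (by rw [hA]; exact ⟨hx, h⟩)
      · exact Or.inr h
    linarith
  -- translates
  have htr : ∀ w : Eu κ, w ∈ Eᗮ → ‖S.symm w‖ ≤ η → (∀ x ∈ A, x ∈ gd P l M T w) →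
      m.real A ≤ m'.real {y | y - w ∈ A} := by
    intro w hwE hw hAw
    have hm2 : MeasurableSet {y : Eu κ | y - w ∈ A} := hAm.preimage (measurable_sub_const w)
    have etr := integral_add_right_eq_self (μ := (volume : Measure (Eu κ)))
      ({y : Eu κ | y - w ∈ A}.indicator fun x => den F G (dn k l M T) x) w
    rw [hm, hm', ms_apply hF hG _ hAm, ms_apply hF hG _ hm2,
      ← integral_indicator hAm, ← integral_indicator hm2, ← etr]
    refine integral_mono ((den_int hF hG _).indicator hAm)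
      (((den_int hF hG _).indicator hm2).comp_add_right w) fun x => ?_
    by_cases hx : x ∈ A
    · have hx2 : x + w ∈ {y : Eu κ | y - w ∈ A} := by
        show x + w - w ∈ A
        rwa [add_sub_cancel_right]
      rw [indicator_of_mem hx, indicator_of_mem hx2]
      exact gd_add hS hG hk hl.nonneg hE hs hη2 hwE hw (hAw x hx)
    · rw [indicator_of_notMem hx]
      exact indicator_nonneg (fun y _ => den_nonneg hG _ y) _
  have h1 := htr v hvE hv (fun x hx => by rw [hA] at hx; exact hx.1)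
  have h2 := htr (-v) (Eᗮ.neg_mem hvE) (by rw [map_neg, norm_neg]; exact hv)
    (fun x hx => by rw [hA] at hx; exact gd_neg hx.1)
  have hdis : Disjoint {y : Eu κ | y - v ∈ A} {y : Eu κ | y - -v ∈ A} := by
    rw [Set.disjoint_left]
    intro y hy hy'
    have h3 : y - v ∈ A := hy
    have h4 : y - -v ∈ A := hy'
    rw [hA, hQ] at h3 h4
    have h5 : |⟪y - v, v⟫_ℝ| ≤ 2 * ‖v‖ := h3.2
    have h6 : |⟪y - -v, v⟫_ℝ| ≤ 2 * ‖v‖ := h4.2
    rw [sub_neg_eq_add, inner_add_left, real_inner_self_eq_norm_sq] at h6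
    rw [inner_sub_left, real_inner_self_eq_norm_sq] at h5
    have h7 := (abs_le.1 h5).1
    have h8 := (abs_le.1 h6).2
    nlinarith
  have hm2 : MeasurableSet {y : Eu κ | y - -v ∈ A} := hAm.preimage (measurable_sub_const (-v))
  have h3 : m'.real {y : Eu κ | y - v ∈ A} + m'.real {y : Eu κ | y - -v ∈ A} ≤
      N F G (dn k l M T) := by
    rw [← measureReal_union hdis hm2, ← ms_univ hF hG, ← hm']
    exact measureReal_mono (subset_univ _)
  have h4 := N_dn hF hG hk hl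
  linarith

/-- the same with general vectors -/
theorem perp_bound' (hS : Sy F P β γ) (hG : Gx F G c M T B) (hk : 0 < k) {l : Fin k → ℝ}
    (hl : Lam F G l) (hI : Iso F G) (hE : Ev E β G) {S : Eu κ ≃L[ℝ] Eu κ}
    (hs : ∀ z, ‖S.symm z‖ ^ 2 = ∑ j, sg l M T j / k * ‖P j z‖ ^ 2)
    {v : Eu κ} (hvE : v ∈ Eᗮ) : ‖v‖ ^ 2 ≤ 81920 * k ^ 5 * ‖S.symm v‖ ^ 2 := by
  have hk0 : (0 : ℝ) < k := Nat.cast_pos.2 hk
  by_cases hv0 : v = 0
  · subst hv0
    simp
  have hvn : 0 < ‖v‖ := norm_pos_iff.2 hv0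
  have hSv : 0 < ‖S.symm v‖ := norm_pos_iff.2 fun h => hv0 (by
    have := congrArg S h
    rwa [ContinuousLinearEquiv.apply_symm_apply, map_zero] at this)
  obtain ⟨A, hA⟩ : ∃ A : ℝ, A = 20480 * k ^ 5 := ⟨_, rfl⟩
  have hA0 : 0 < A := by rw [hA]; positivity
  obtain ⟨η, hη⟩ : ∃ η : ℝ, η = 1 / Real.sqrt A := ⟨_, rfl⟩
  have hη0 : 0 < η := by rw [hη]; positivity
  have hη2 : A * η ^ 2 = 1 := by
    rw [hη, div_pow, Real.sq_sqrt hA0.le, one_pow]
    field_simp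
  have h1 := perp_bound hS hG hk hl hI hE hs hη0.le (by rw [← hA]; exact hη2.le)
    (v := (η / ‖S.symm v‖) • v) (Eᗮ.smul_mem _ hvE) (by
      rw [map_smul, norm_smul, Real.norm_eq_abs, abs_of_pos (by positivity)]
      refine le_of_eq ?_
      field_simp)
  rw [norm_smul, Real.norm_eq_abs, abs_of_pos (by positivity)] at h1
  have h2 := pow_le_pow_left₀ (by positivity) h1 2
  rw [mul_pow, div_pow] at h2
  have h3 : η ^ 2 * ‖v‖ ^ 2 ≤ 4 * ‖S.symm v‖ ^ 2 := by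
    have h4 := mul_le_mul_of_nonneg_right h2 (sq_nonneg ‖S.symm v‖)
    have e : η ^ 2 / ‖S.symm v‖ ^ 2 * ‖v‖ ^ 2 * ‖S.symm v‖ ^ 2 = η ^ 2 * ‖v‖ ^ 2 := by
      field_simp
    rw [e] at h4
    norm_num at h4
    exact h4
  have h4 := mul_le_mul_of_nonneg_left h3 hA0.le
  have e : A * (η ^ 2 * ‖v‖ ^ 2) = ‖v‖ ^ 2 := by rw [← mul_assoc, hη2, one_mul]
  rw [e] at h4
  refine h4.trans (le_of_eq ?_)
  rw [hA]
  ring

/-- **the norm of the change of coordinates** -/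
theorem S_norm (hS : Sy F P β γ) (hG : Gx F G c M T B) (hk : 0 < k) {l : Fin k → ℝ}
    (hl : Lam F G l) (hI : Iso F G) (hE : Ev E β G) {m : ℕ} (hm : 0 < m) {S : Eu κ ≃L[ℝ] Eu κ}
    (hs : ∀ z, ‖S.symm z‖ ^ 2 = ∑ j, sg l M T j / k * ‖P j z‖ ^ 2 +
      2 * (1 / (1920 * m)) * ‖E.starProjection z‖ ^ 2) (u : Eu κ) :
    ‖S u‖ ^ 2 ≤ 1400000000 * k ^ 5 * m * ‖u‖ ^ 2 := by
  have hk0 : (0 : ℝ) < k := Nat.cast_pos.2 hk
  have hk1 : (1 : ℝ) ≤ k := by exact_mod_cast hk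
  have hm0 : (0 : ℝ) < m := Nat.cast_pos.2 hm
  have hm1 : (1 : ℝ) ≤ m := by exact_mod_cast hm
  obtain ⟨S0, hs0⟩ := exists_S hS hk (sg_pos hl.nonneg hG.MT) le_rfl (0 : Eu κ →L[ℝ] Eu κ)
  have hs0' : ∀ z, ‖S0.symm z‖ ^ 2 = ∑ j, sg l M T j / k * ‖P j z‖ ^ 2 := fun z => by
    rw [hs0]
    ring
  obtain ⟨z, hz⟩ : ∃ z, z = S u := ⟨_, rfl⟩
  obtain ⟨z1, hz1⟩ : ∃ z1, z1 = E.starProjection z := ⟨_, rfl⟩
  obtain ⟨X, hX⟩ : ∃ X, X = ‖u‖ ^ 2 := ⟨_, rfl⟩
  have hu : ‖S.symm z‖ ^ 2 = X := by rw [hz, ContinuousLinearEquiv.symm_apply_apply, hX]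
  have h1 := hs z
  rw [hu, ← hs0' z, ← hz1] at h1
  have h2E : z - z1 ∈ Eᗮ := by rw [hz1]; exact E.sub_starProjection_mem_orthogonal z
  have h3 := perp_bound' hS hG hk hl hI hE hs0' h2E
  have h4 := S_upper hS hG hk hl hI hs0' z1
  have h5 : ‖z‖ ^ 2 = ‖z1‖ ^ 2 + ‖z - z1‖ ^ 2 := by
    have h6 := E.starProjection_inner_eq_zero z z1 (by rw [hz1]; exact E.starProjection_apply_mem z)
    rw [← hz1] at h6
    have e : z = z1 + (z - z1) := by abel
    conv_lhs => rw [e]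
    rw [norm_add_sq_real, real_inner_comm, h6]
    ring
  have hz1b : ‖z1‖ ^ 2 ≤ 960 * m * X := by
    have h7 : 2 * (1 / (1920 * m)) * ‖z1‖ ^ 2 ≤ X := by
      rw [h1]
      have := sq_nonneg ‖S0.symm z‖
      linarith
    have h8 := mul_le_mul_of_nonneg_left h7 (by positivity : (0 : ℝ) ≤ 960 * m)
    have e : 960 * (m : ℝ) * (2 * (1 / (1920 * m)) * ‖z1‖ ^ 2) = ‖z1‖ ^ 2 := by
      field_simp
      ring
    rwa [e] at h8
  have hz0b : ‖S0.symm z‖ ^ 2 ≤ X := by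
    rw [h1]
    have : 0 ≤ 2 * (1 / (1920 * (m : ℝ))) * ‖z1‖ ^ 2 := by positivity
    linarith
  have h6 : ‖S0.symm (z - z1)‖ ^ 2 ≤ 2 * ‖S0.symm z‖ ^ 2 + 2 * ‖S0.symm z1‖ ^ 2 := by
    rw [map_sub]
    have h7 := norm_sub_le (S0.symm z) (S0.symm z1)
    have h8 := pow_le_pow_left₀ (norm_nonneg _) h7 2
    nlinarith [sq_nonneg (‖S0.symm z‖ - ‖S0.symm z1‖)]
  have hX0 : 0 ≤ X := by rw [hX]; positivity
  have h7 : ‖S0.symm (z - z1)‖ ^ 2 ≤ 15362 * m * X := by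
    have h8 : ‖S0.symm (z - z1)‖ ^ 2 ≤ 2 * X + 2 * (8 * (960 * m * X)) := by linarith
    have h9 : X ≤ m * X := le_mul_of_one_le_left hX0 hm1
    nlinarith
  have h8 : 81920 * (k : ℝ) ^ 5 * ‖S0.symm (z - z1)‖ ^ 2 ≤ 81920 * k ^ 5 * (15362 * m * X) := by
    gcongr
  have h9 : (1 : ℝ) ≤ k ^ 5 := one_le_pow₀ hk1
  have h10 : 0 ≤ (m : ℝ) * X := by positivity
  have h11 : (m : ℝ) * X ≤ k ^ 5 * (m * X) := le_mul_of_one_le_left h10 h9
  rw [← hz, ← hX, h5]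
  nlinarith

end Pool.Agent.H776.NC
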