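import Pool.Agent.H776.NC5

/-!
# Log-concave densities of few quadratic polynomials and linear functionals, V: the Poincare
inequality in isotropic position
-/

set_option autoImplicit false

namespace Pool.Agent.H776.NC

open MeasureTheory Set Filter Topology
open scoped ENNReal InnerProductSpace
open Pool.Agent.H776.FE (lev exists_sqrt)

section bounded

variable {κ : Type} [Fintype κ] {k : ℕ}
variable {F : Fin k → Eu κ → ℝ} {G : (Fin k → ℝ) → Eu κ → ℝ} {c M T B : ℝ}
variable {b : Fin k → Type} [∀ j, Fintype (b j)] {P : ∀ j, Eu κ →L[ℝ] Eu (b j)}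
variable {β : Fin k → Eu κ} {γ : Fin k → ℝ} {E : Submodule ℝ (Eu κ)}

/-- the norm of the projection -/
theorem proj_norm (E : Submodule ℝ (Eu κ)) (x : Eu κ) : ‖E.starProjection x‖ ^ 2 =
    ∑ i, ⟪x, (stdOrthonormalBasis ℝ E i : Eu κ)⟫_ℝ ^ 2 := by
  have h1 := (stdOrthonormalBasis ℝ E).sum_sq_inner_right
    (⟨E.starProjection x, E.starProjection_apply_mem x⟩ : E)
  have h2 : ‖(⟨E.starProjection x, E.starProjection_apply_mem x⟩ : E)‖ = ‖E.starProjection x‖ := rfl
  rw [h2] at h1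
  rw [← h1]
  refine Finset.sum_congr rfl fun i _ => ?_
  have h3 : ⟪stdOrthonormalBasis ℝ E i,
      (⟨E.starProjection x, E.starProjection_apply_mem x⟩ : E)⟫_ℝ =
      ⟪(stdOrthonormalBasis ℝ E i : Eu κ), E.starProjection x⟫_ℝ := rfl
  rw [h3]
  have h4 := E.starProjection_inner_eq_zero x _ (stdOrthonormalBasis ℝ E i).2
  rw [inner_sub_left, sub_eq_zero] at h4
  rw [h4, real_inner_comm]

/-- the second moment of the projection -/
theorem proj_sq (hF : Fm F) (hG : Gx F G c M T B) (hI : Iso F G) {m : ℕ}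
    (hm : Module.finrank ℝ E ≤ m) :
    ∫ x, ‖E.starProjection x‖ ^ 2 * den F G 0 x ≤ m * N F G 0 := by
  have e : ∀ x, ‖E.starProjection x‖ ^ 2 * den F G 0 x =
      ∑ i, ⟪x, (stdOrthonormalBasis ℝ E i : Eu κ)⟫_ℝ ^ 2 * den F G 0 x := fun x => by
    rw [proj_norm, Finset.sum_mul]
  simp only [e]
  rw [integral_finsetSum _ fun i _ => int_cont hF hG 0
    (g := fun x => ⟪x, (stdOrthonormalBasis ℝ E i : Eu κ)⟫_ℝ ^ 2) (by fun_prop)]
  have h1 : ∀ i, ∫ x, ⟪x, (stdOrthonormalBasis ℝ E i : Eu κ)⟫_ℝ ^ 2 * den F G 0 x = N F G 0 := by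
    intro i
    rw [hI.cov]
    have h2 : ‖(stdOrthonormalBasis ℝ E i : Eu κ)‖ = 1 := (stdOrthonormalBasis ℝ E).norm_eq_one i
    rw [h2, one_pow, one_mul]
  simp only [h1]
  rw [Finset.sum_const, Finset.card_univ, Fintype.card_fin, nsmul_eq_mul]
  have : (Module.finrank ℝ E : ℝ) ≤ m := by exact_mod_cast hm
  exact mul_le_mul_of_nonneg_right this (N_nonneg hG 0)

theorem wt_den (hF : Fm F) (hG : Gx F G c M T B) : Wt (den F G 0) :=
  ⟨den_nonneg hG 0, den_meas hF hG 0, N0_pos hF hG, int_cont hF hG 0 (by fun_prop)⟩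

theorem lc_den (hF : Fm F) (hG : Gx F G c M T B) :
    Pool.Agent.H888R2.KT.LC (fun x => den F G 0 x / N F G 0) ∧
      Pool.Agent.H212R2.KLS.mu (fun x => den F G 0 x / N F G 0) = nm (den F G 0) := by
  have hZ := N0_pos hF hG
  have hmu : Pool.Agent.H212R2.KLS.mu (fun x => den F G 0 x / N F G 0) = nm (den F G 0) := rfl
  have hp := (wt_den hF hG).prob
  refine ⟨⟨fun x => div_nonneg (den_nonneg hG 0 x) hZ.le, (den_meas hF hG 0).div_const _,
    fun x y t ht ht1 => ?_, ?_, ?_, ?_⟩, hmu⟩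
  · have h1 := den_logc hF hG (s := 0) (t := 0) (a := 1 - t) (b := t) (by linarith) ht (by ring)
      x y
    rw [smul_zero, smul_zero, add_zero] at h1
    rw [Real.div_rpow (den_nonneg hG 0 x) hZ.le, Real.div_rpow (den_nonneg hG 0 y) hZ.le,
      div_mul_div_comm, ← Real.rpow_add hZ, sub_add_cancel, Real.rpow_one]
    exact div_le_div_of_nonneg_right h1 hZ.le
  · obtain ⟨R, hR⟩ := (lev_compact hF fun j => M - (0 : Fin k → ℝ) j).isBounded.exists_norm_le
    refine ⟨R, fun x hx => ?_⟩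
    show den F G 0 x / N F G 0 = 0
    rw [den_supp hG fun hm => ?_, zero_div]
    have := hR x hm
    linarith
  · rw [hmu, measure_univ]
    exact ENNReal.one_ne_top
  · intro h0
    rw [hmu] at h0
    have h1 : nm (den F G 0) univ = 1 := measure_univ
    rw [h0] at h1
    simp at h1

/-- variances of bounded functions with bounded gradients -/
theorem var_lip (hS : Sy F P β γ) (hG : Gx F G c M T B) (hk : 0 < k) (hI : Iso F G)
    (hE : Ev E β G) {m : ℕ} (hm : 0 < m) (hEm : Module.finrank ℝ E ≤ m) {D : ℝ}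
    (hD : D = 44 * (1400000000 * k ^ 5 * m)) {g : Eu κ → ℝ} (hg : ContDiff ℝ 1 g)
    (hg1 : ∀ x, ‖fderiv ℝ g x‖ ≤ 1) (hg2 : ∀ x, 0 ≤ g x) (hg3 : ∀ x, g x ≤ Real.sqrt (960 * D)) :
    ∃ a : ℝ, ∫ x, (g x - a) ^ 2 * den F G 0 x ≤ D * N F G 0 := by
  have hF := hS.toFm
  have hk0 : (0 : ℝ) < k := Nat.cast_pos.2 hk
  have hm0 : (0 : ℝ) < m := Nat.cast_pos.2 hm
  have hZ := N0_pos hF hG
  obtain ⟨l, hl0, hl1⟩ := exists_lam hF hG
  have hl : Lam F G l := ⟨hl0, hl1⟩
  obtain ⟨τ, hτ⟩ : ∃ τ : ℝ, τ = 1 / (1920 * m) := ⟨_, rfl⟩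
  have hτ0 : 0 < τ := by rw [hτ]; positivity
  obtain ⟨S, hs⟩ := exists_S hS hk (sg_pos hl0 hG.MT) hτ0.le E.starProjection
  obtain ⟨A, hA⟩ : ∃ A : ℝ, A = 1400000000 * k ^ 5 * m := ⟨_, rfl⟩
  have hA0 : 0 < A := by rw [hA]; positivity
  have hSn := S_norm hS hG hk hl hI hE hm (by rw [← hτ]; exact hs)
  rw [← hA] at hSn hD
  have hD0 : 0 < D := by rw [hD]; positivity
  obtain ⟨a, ha⟩ := var_wt (p := E.starProjection) hS hG hk hl hτ0.le hs hg (A := Real.sqrt A)
    (fun x => by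
      refine ContinuousLinearMap.opNorm_le_bound _ (Real.sqrt_nonneg _) fun u => ?_
      rw [ContinuousLinearMap.comp_apply]
      have h2 := (fderiv ℝ g x).le_opNorm (S u)
      have h3 : ‖S u‖ ≤ Real.sqrt A * ‖u‖ := by
        have h4 : ‖S u‖ ^ 2 ≤ (Real.sqrt A * ‖u‖) ^ 2 := by
          rw [mul_pow, Real.sq_sqrt hA0.le]
          exact hSn u
        exact (abs_le_of_sq_le_sq' h4 (by positivity)).2
      calc ‖(fderiv ℝ g x) (S u)‖ ≤ ‖fderiv ℝ g x‖ * ‖S u‖ := h2
        _ ≤ 1 * (Real.sqrt A * ‖u‖) := mul_le_mul (hg1 x) h3 (norm_nonneg _) zero_le_one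
        _ = _ := one_mul _)
  rw [Real.sq_sqrt hA0.le] at ha
  obtain ⟨Y, hY⟩ : ∃ Y, Y = Real.sqrt (960 * D) := ⟨_, rfl⟩
  have hY0 : 0 ≤ Y := by rw [hY]; positivity
  have hY2 : Y ^ 2 = 960 * D := by rw [hY, Real.sq_sqrt (by positivity)]
  obtain ⟨a', ha'⟩ : ∃ a', a' = max 0 (min a Y) := ⟨_, rfl⟩
  have ha0 : 0 ≤ a' := by rw [ha']; exact le_max_left _ _
  have haY : a' ≤ Y := by rw [ha']; exact max_le hY0 (min_le_right _ _)
  have hgY : ∀ x, g x ≤ Y := fun x => by rw [hY]; exact hg3 x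
  have hcl : ∀ x, (g x - a') ^ 2 ≤ (g x - a) ^ 2 := by
    intro x
    have h1 := hg2 x
    have h2 := hgY x
    rcases le_total a 0 with h | h
    · have e : a' = 0 := by rw [ha', min_eq_left (by linarith), max_eq_left h]
      rw [e, sub_zero]
      nlinarith
    · rcases le_total a Y with h' | h'
      · have e : a' = a := by rw [ha', min_eq_left h', max_eq_right h]
        rw [e]
      · have e : a' = Y := by rw [ha', min_eq_right h', max_eq_right hY0]
        rw [e]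
        nlinarith
  have hcY : ∀ x, (g x - a') ^ 2 ≤ 960 * D := by
    intro x
    rw [← hY2]
    have h1 := hg2 x
    have h2 := hgY x
    have h3 : |g x - a'| ≤ Y := abs_le.2 ⟨by linarith, by linarith⟩
    have h4 := pow_le_pow_left₀ (abs_nonneg _) h3 2
    rwa [sq_abs] at h4
  refine ⟨a', ?_⟩
  have hgc := hg.continuous
  have hpc : Continuous fun x => ‖E.starProjection x‖ ^ 2 := by fun_prop
  have i1 := wt_int_cont (τ := τ) (p := E.starProjection) hF hG hk hl hτ0.le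
    (g := fun x => (g x - a) ^ 2) (by fun_prop)
  have i2 := int_cont hF hG 0 hpc
  have hpt : ∀ x, (g x - a') ^ 2 * den F G 0 x ≤
      Real.exp 1 * ((g x - a) ^ 2 * wt F G l M T τ E.starProjection x) +
        D / (2 * m) * (‖E.starProjection x‖ ^ 2 * den F G 0 x) := by
    intro x
    have hd := den_nonneg (F := F) hG 0 x
    have hw := wt_nonneg (τ := τ) (p := E.starProjection) hG l x
    rcases le_total (‖E.starProjection x‖ ^ 2) (1920 * m) with h | h
    · have h1 := wt_ge (τ := τ) (p := E.starProjection) hG hl0 x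
      have h2 : Real.exp (τ * ‖E.starProjection x‖ ^ 2) ≤ Real.exp 1 := by
        refine Real.exp_le_exp.2 ?_
        rw [hτ, one_div, inv_mul_le_iff₀ (by positivity), mul_one]
        exact h
      have h3 : den F G 0 x ≤ Real.exp 1 * wt F G l M T τ E.starProjection x :=
        h1.trans (mul_le_mul_of_nonneg_right h2 hw)
      have h4 : (g x - a') ^ 2 * den F G 0 x ≤
          (g x - a) ^ 2 * (Real.exp 1 * wt F G l M T τ E.starProjection x) :=
        mul_le_mul (hcl x) h3 hd (sq_nonneg _)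
      have h5 : 0 ≤ D / (2 * m) * (‖E.starProjection x‖ ^ 2 * den F G 0 x) := by positivity
      have e : (g x - a) ^ 2 * (Real.exp 1 * wt F G l M T τ E.starProjection x) =
        Real.exp 1 * ((g x - a) ^ 2 * wt F G l M T τ E.starProjection x) := by ring
      linarith
    · have h1 : 960 * D ≤ D / (2 * m) * ‖E.starProjection x‖ ^ 2 := by
        have h2 := mul_le_mul_of_nonneg_left h (by positivity : 0 ≤ D / (2 * (m : ℝ)))
        have e : D / (2 * m) * (1920 * m) = 960 * D := by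
          field_simp
          ring
        rwa [e] at h2
      have h2 : (g x - a') ^ 2 * den F G 0 x ≤
          D / (2 * m) * ‖E.starProjection x‖ ^ 2 * den F G 0 x :=
        mul_le_mul_of_nonneg_right ((hcY x).trans h1) hd
      have h3 : 0 ≤ Real.exp 1 * ((g x - a) ^ 2 * wt F G l M T τ E.starProjection x) := by
        positivity
      have e : D / (2 * m) * (‖E.starProjection x‖ ^ 2 * den F G 0 x) =
        D / (2 * m) * ‖E.starProjection x‖ ^ 2 * den F G 0 x := by ring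
      linarith
  have h1 : ∫ x, (g x - a') ^ 2 * den F G 0 x ≤
      ∫ x, (Real.exp 1 * ((g x - a) ^ 2 * wt F G l M T τ E.starProjection x) +
        D / (2 * m) * (‖E.starProjection x‖ ^ 2 * den F G 0 x)) :=
    integral_mono (int_cont hF hG 0 (g := fun x => (g x - a') ^ 2) (by fun_prop))
      ((i1.const_mul _).add (i2.const_mul _)) hpt
  rw [integral_add (i1.const_mul _) (i2.const_mul _), integral_const_mul, integral_const_mul] at h1
  have h2 := proj_sq hF hG hI hEm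
  have h3 : D / (2 * m) * ∫ x, ‖E.starProjection x‖ ^ 2 * den F G 0 x ≤
      D / (2 * m) * (m * N F G 0) := mul_le_mul_of_nonneg_left h2 (by positivity)
  have e3 : D / (2 * m) * (m * N F G 0) = D / 2 * N F G 0 := by field_simp
  rw [e3] at h3
  have h4 : Real.exp 1 * ∫ x, (g x - a) ^ 2 * wt F G l M T τ E.starProjection x ≤
      2.72 * (8 * A * N F G 0) := by
    have h5 : 0 ≤ 8 * A * N F G 0 := by positivity
    have h6 : Real.exp 1 ≤ 2.72 := by have := Real.exp_one_lt_d9; linarith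
    exact (mul_le_mul_of_nonneg_left ha (Real.exp_pos _).le).trans
      (mul_le_mul_of_nonneg_right h6 h5)
  have h7 : 2.72 * (8 * A * N F G 0) ≤ D / 2 * N F G 0 := by
    rw [hD]
    have : 0 ≤ A * N F G 0 := by positivity
    nlinarith
  linarith

end bounded

/-- **the Poincare inequality in isotropic position** -/
theorem poi_iso : ∃ C : ℝ, 0 < C ∧ ∀ (κ : Type) [Fintype κ] (k : ℕ) (F : Fin k → Eu κ → ℝ)
    (G : (Fin k → ℝ) → Eu κ → ℝ) (c M T B : ℝ) (b : Fin k → Type) [∀ j, Fintype (b j)]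
    (P : ∀ j, Eu κ →L[ℝ] Eu (b j)) (β : Fin k → Eu κ) (γ : Fin k → ℝ) (E : Submodule ℝ (Eu κ))
    (m : ℕ), Sy F P β γ → Gx F G c M T B → 0 < k → Iso F G → Ev E β G → 0 < m →
    Module.finrank ℝ E ≤ m →
    ∀ f : Eu κ → ℝ, ContDiff ℝ 1 f →
      ∫ x, f x ^ 2 ∂(nm (den F G 0)) - (∫ x, f x ∂(nm (den F G 0))) ^ 2 ≤
        C * k ^ 5 * m * ∫ x, ‖fderiv ℝ f x‖ ^ 2 ∂(nm (den F G 0)) := by
  obtain ⟨C, hC, H⟩ := em1
  refine ⟨C * (44 * 1400000000), by positivity, ?_⟩
  intro κ _ k F G c M T B b _ P β γ E m hS hG hk hI hE hm hEm f hf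
  have hF := hS.toFm
  have hk0 : (0 : ℝ) < k := Nat.cast_pos.2 hk
  have hm0 : (0 : ℝ) < m := Nat.cast_pos.2 hm
  have hZ := N0_pos hF hG
  have hwt := wt_den hF hG
  have hp := hwt.prob
  obtain ⟨hlc, hmu⟩ := lc_den hF hG
  have hnm : ∀ φ : Eu κ → ℝ, ∫ x, φ x ∂(nm (den F G 0)) =
      (∫ x, φ x * den F G 0 x) / N F G 0 := fun φ =>
    integral_nm (den_nonneg hG 0) (den_meas hF hG 0) φ
  obtain ⟨D, hD⟩ : ∃ D : ℝ, D = 44 * (1400000000 * k ^ 5 * m) := ⟨_, rfl⟩
  have hD0 : 0 < D := by rw [hD]; positivity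
  have h1 := H κ _ hlc (by rw [hmu]; exact measure_univ) D hD0 (fun g hg hg1 hg2 hg3 => by
    obtain ⟨a, ha⟩ := var_lip hS hG hk hI hE hm hEm hD hg hg1 hg2 hg3
    rw [hmu, hnm (fun x => g x ^ 2), hnm g]
    have hc := hg.continuous
    have i1 := int_cont hF hG 0 (g := fun x => g x ^ 2) (by fun_prop)
    have i2 := int_cont hF hG 0 hc
    have i3 := (den_int hF hG 0).const_mul (a ^ 2)
    have e : ∀ x, (g x - a) ^ 2 * den F G 0 x =
        (g x ^ 2 * den F G 0 x - 2 * a * (g x * den F G 0 x)) + a ^ 2 * den F G 0 x :=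
      fun x => by ring
    simp only [e] at ha
    have i4 : Integrable (fun x => g x ^ 2 * den F G 0 x - 2 * a * (g x * den F G 0 x)) :=
      i1.sub (i2.const_mul _)
    rw [integral_add i4 i3, integral_sub i1 (i2.const_mul (2 * a)), integral_const_mul,
      integral_const_mul] at ha
    have hN : ∫ x, den F G 0 x = N F G 0 := rfl
    rw [hN] at ha
    obtain ⟨p, hp⟩ : ∃ p, p = ∫ x, g x ^ 2 * den F G 0 x := ⟨_, rfl⟩
    obtain ⟨q, hq⟩ : ∃ q, q = ∫ x, g x * den F G 0 x := ⟨_, rfl⟩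
    rw [← hp, ← hq] at ha
    rw [← hp, ← hq]
    have h5 : p / N F G 0 - 2 * a * (q / N F G 0) + a ^ 2 ≤ D := by
      have h6 : (p - 2 * a * q + a ^ 2 * N F G 0) / N F G 0 ≤ D := by
        rw [div_le_iff₀ hZ]
        exact ha
      have h7 : (p - 2 * a * q + a ^ 2 * N F G 0) / N F G 0 =
          p / N F G 0 - 2 * a * (q / N F G 0) + a ^ 2 := by
        field_simp
      rwa [h7] at h6
    nlinarith [sq_nonneg (q / N F G 0 - a)]) f hf
  rw [hmu] at h1
  have e : C * D = C * (44 * 1400000000) * k ^ 5 * m := by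
    rw [hD]
    ring
  rwa [e] at h1

end Pool.Agent.H776.NC
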