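import Pool.Agent.H776.NC7

/-!
# Log-concave densities of few quadratic polynomials and linear functionals, VII: unbounded supports
-/

set_option autoImplicit false

namespace Pool.Agent.H776.NC

open MeasureTheory Set Filter Topology
open scoped ENNReal InnerProductSpace
open Pool.Agent.H776.FE (lev exists_ub)
open Q289.LD (Den)

variable {n k d : ℕ}

/-- the quadratic polynomials -/
noncomputable def qf (P : Fin k → (Eu (Fin n) →L[ℝ] Eu (Fin n))) (β : Fin k → Eu (Fin n))
    (γ : Fin k → ℝ) (j : Fin k) (x : Eu (Fin n)) : ℝ := ‖P j x‖ ^ 2 + 2 * ⟪β j, x⟫_ℝ + γ j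

/-- log-concave functions, nonincreasing in the first variables -/
structure Gen (g : (Fin k → ℝ) → Eu (Fin d) → ℝ) : Prop where
  meas : Measurable fun p : (Fin k → ℝ) × Eu (Fin d) => g p.1 p.2
  nonneg : ∀ s z, 0 ≤ g s z
  anti : ∀ s t z, s ≤ t → g t z ≤ g s z
  logc : ∀ s t z w, ∀ a b : ℝ, 0 < a → 0 < b → a + b = 1 →
    g s z ^ a * g t w ^ b ≤ g (a • s + b • t) (a • z + b • w)

/-- one more function -/
noncomputable def F1 (F : Fin k → Eu (Fin n) → ℝ) : Fin (k + 1) → Eu (Fin n) → ℝ :=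
  Fin.snoc (α := fun _ => Eu (Fin n) → ℝ) F fun x => ‖x‖ ^ 2

theorem F1_last (F : Fin k → Eu (Fin n) → ℝ) (x : Eu (Fin n)) :
    F1 F (Fin.last k) x = ‖x‖ ^ 2 := by
  unfold F1
  rw [Fin.snoc_last]

theorem F1_cast (F : Fin k → Eu (Fin n) → ℝ) (j : Fin k) (x : Eu (Fin n)) :
    F1 F (Fin.castSucc j) x = F j x := by
  unfold F1
  rw [Fin.snoc_castSucc]

/-- one more map -/
noncomputable def P1 (P : Fin k → (Eu (Fin n) →L[ℝ] Eu (Fin n))) :
    Fin (k + 1) → (Eu (Fin n) →L[ℝ] Eu (Fin n)) :=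
  Fin.snoc (α := fun _ => Eu (Fin n) →L[ℝ] Eu (Fin n)) P (ContinuousLinearMap.id ℝ _)

theorem qf_conv (P : Fin k → (Eu (Fin n) →L[ℝ] Eu (Fin n))) (β : Fin k → Eu (Fin n))
    (γ : Fin k → ℝ) (j : Fin k) : ConvexOn ℝ univ (qf P β γ j) := by
  have h1 : ConvexOn ℝ univ fun x : Eu (Fin n) => ‖P j x‖ ^ 2 := by
    have h2 : ConvexOn ℝ univ fun y : Eu (Fin n) => ‖y‖ ^ 2 :=
      convexOn_univ_norm.pow (fun x _ => norm_nonneg x) 2
    exact h2.comp_linearMap (P j : Eu (Fin n) →ₗ[ℝ] Eu (Fin n))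
  refine ⟨convex_univ, fun x hx y hy a b ha hb hab => ?_⟩
  have h2 := h1.2 hx hy ha hb hab
  simp only [smul_eq_mul] at h2 ⊢
  unfold qf
  rw [inner_add_right, inner_smul_right, inner_smul_right]
  have e : γ j = a * γ j + b * γ j := by rw [← add_mul, hab, one_mul]
  linarith

theorem qf_cont (P : Fin k → (Eu (Fin n) →L[ℝ] Eu (Fin n))) (β : Fin k → Eu (Fin n))
    (γ : Fin k → ℝ) (j : Fin k) : Continuous (qf P β γ j) := by
  unfold qf
  fun_prop

theorem sy_one (P : Fin k → (Eu (Fin n) →L[ℝ] Eu (Fin n))) (β : Fin k → Eu (Fin n))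
    (γ : Fin k → ℝ) : Sy (F1 (qf P β γ)) (P1 P)
      (Fin.snoc (α := fun _ => Eu (Fin n)) β 0) (Fin.snoc (α := fun _ => ℝ) γ 0) := by
  have e1 : F1 (qf P β γ) (Fin.last k) = fun x => ‖x‖ ^ 2 := funext fun x => F1_last _ x
  have e2 : ∀ j : Fin k, F1 (qf P β γ) (Fin.castSucc j) = qf P β γ j := fun j =>
    funext fun x => F1_cast _ j x
  refine ⟨⟨fun j => ?_, fun j => ?_, fun s => ?_⟩, fun j x => ?_, fun z hz => ?_⟩
  · refine Fin.lastCases ?_ (fun j => ?_) j
    · rw [e1]
      fun_prop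
    · rw [e2]
      exact qf_cont P β γ j
  · refine Fin.lastCases ?_ (fun j => ?_) j
    · rw [e1]
      exact convexOn_univ_norm.pow (fun x _ => norm_nonneg x) 2
    · rw [e2]
      exact qf_conv P β γ j
  · refine isBounded_iff_forall_norm_le.2 ⟨Real.sqrt (s (Fin.last k)), fun x hx => ?_⟩
    have h1 : F1 (qf P β γ) (Fin.last k) x ≤ s (Fin.last k) := hx _
    rw [F1_last] at h1
    exact Real.le_sqrt_of_sq_le h1
  · refine Fin.lastCases ?_ (fun j => ?_) j
    · rw [F1_last, Fin.snoc_last, Fin.snoc_last]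
      unfold P1
      rw [Fin.snoc_last, inner_zero_left]
      simp
    · rw [F1_cast, Fin.snoc_castSucc, Fin.snoc_castSucc]
      unfold P1
      rw [Fin.snoc_castSucc]
      rfl
  · have h1 := hz (Fin.last k)
    unfold P1 at h1
    rw [Fin.snoc_last] at h1
    exact h1

open Classical in
/-- the truncated function -/
noncomputable def Gt (g : (Fin k → ℝ) → Eu (Fin d) → ℝ) (L : Eu (Fin n) →L[ℝ] Eu (Fin d))
    (R e : ℝ) (s : Fin (k + 1) → ℝ) (x : Eu (Fin n)) : ℝ :=
  if ∀ j, s j ≤ R then min (g (fun j => s (Fin.castSucc j) - e) (L x)) R else 0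

theorem gx_gt {P : Fin k → (Eu (Fin n) →L[ℝ] Eu (Fin n))} {β : Fin k → Eu (Fin n)}
    {γ : Fin k → ℝ} {g : (Fin k → ℝ) → Eu (Fin d) → ℝ} (hg : Gen g)
    {L : Eu (Fin n) →L[ℝ] Eu (Fin d)} {R e c : ℝ} (hR : 0 < R) (hc : 0 < c)
    (hpos : 0 < N (F1 (qf P β γ)) (Gt g L R e) fun _ => c) :
    ∃ T : ℝ, Gx (F1 (qf P β γ)) (Gt g L R e) c R T R := by
  have hF := (sy_one P β γ).toFm
  obtain ⟨C, hC⟩ := (lev_compact hF fun _ => R).exists_bound_of_continuousOn
    (f := fun x => ∑ j, |F1 (qf P β γ) j x|) (by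
      refine Continuous.continuousOn ?_
      exact continuous_finsetSum _ fun j _ => (hF.cont j).abs)
  have hn : ∀ s x, 0 ≤ Gt g L R e s x := fun s x => by
    unfold Gt
    split_ifs
    · exact le_min (hg.nonneg _ _) hR.le
    · exact le_rfl
  refine ⟨|C|, ⟨?_, hn, fun s x => ?_, fun s t x hst => ?_, fun s t x y a b ha hb hab => ?_,
    fun s x hs => ?_, fun x hx j => ?_, by positivity, hc, hpos⟩⟩
  · unfold Gt
    refine Measurable.ite ?_ ?_ measurable_const
    · have e1 : {p : (Fin (k + 1) → ℝ) × Eu (Fin n) | ∀ j, p.1 j ≤ R} = ⋂ j, {p | p.1 j ≤ R} := by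
        ext p
        simp
      rw [e1]
      exact MeasurableSet.iInter fun j => measurableSet_le
        ((measurable_pi_apply j).comp measurable_fst) measurable_const
    · refine Measurable.min ?_ measurable_const
      have h1 : Measurable fun p : (Fin (k + 1) → ℝ) × Eu (Fin n) =>
          ((fun j : Fin k => p.1 (Fin.castSucc j) - e), L p.2) :=
        (measurable_pi_lambda _ fun j => ((measurable_pi_apply _).comp measurable_fst).sub_const
          _).prodMk (L.continuous.measurable.comp measurable_snd)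
      exact hg.meas.comp h1
  · unfold Gt
    split_ifs
    · exact min_le_right _ _
    · exact hR.le
  · unfold Gt
    by_cases ht : ∀ j, t j ≤ R
    · have hs : ∀ j, s j ≤ R := fun j => (hst j).trans (ht j)
      rw [if_pos ht, if_pos hs]
      refine min_le_min (hg.anti _ _ _ fun j => ?_) le_rfl
      have := hst (Fin.castSucc j)
      linarith
    · rw [if_neg ht]
      exact hn s x
  · by_cases hs : ∀ j, s j ≤ R
    · by_cases ht : ∀ j, t j ≤ R
      · have hst : ∀ j, (a • s + b • t) j ≤ R := fun j => by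
          simp only [Pi.add_apply, Pi.smul_apply, smul_eq_mul]
          have h1 := mul_le_mul_of_nonneg_left (hs j) ha.le
          have h2 := mul_le_mul_of_nonneg_left (ht j) hb.le
          have h3 : a * R + b * R = R := by rw [← add_mul, hab, one_mul]
          linarith
        unfold Gt
        rw [if_pos hs, if_pos ht, if_pos hst]
        have h1 := hg.nonneg (fun j => s (Fin.castSucc j) - e) (L x)
        have h2 := hg.nonneg (fun j => t (Fin.castSucc j) - e) (L y)
        refine le_min ?_ ?_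
        · have h3 := hg.logc (fun j => s (Fin.castSucc j) - e) (fun j => t (Fin.castSucc j) - e)
            (L x) (L y) a b ha hb hab
          have e1 : a • (fun j : Fin k => s (Fin.castSucc j) - e) +
              b • (fun j : Fin k => t (Fin.castSucc j) - e) =
              fun j => (a • s + b • t) (Fin.castSucc j) - e := by
            funext j
            simp only [Pi.add_apply, Pi.smul_apply, smul_eq_mul]
            have e2 : e = a * e + b * e := by rw [← add_mul, hab, one_mul]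
            linarith
          have e2 : a • L x + b • L y = L (a • x + b • y) := by
            rw [map_add, map_smul, map_smul]
          rw [e1, e2] at h3
          refine le_trans ?_ h3
          exact mul_le_mul (Real.rpow_le_rpow (le_min h1 hR.le) (min_le_left _ _) ha.le)
            (Real.rpow_le_rpow (le_min h2 hR.le) (min_le_left _ _) hb.le)
            (Real.rpow_nonneg (le_min h2 hR.le) _) (Real.rpow_nonneg h1 _)
        · calc _ ≤ R ^ a * R ^ b :=
              mul_le_mul (Real.rpow_le_rpow (le_min h1 hR.le) (min_le_right _ _) ha.le)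
                (Real.rpow_le_rpow (le_min h2 hR.le) (min_le_right _ _) hb.le)
                (Real.rpow_nonneg (le_min h2 hR.le) _) (Real.rpow_nonneg hR.le _)
            _ = R := by rw [← Real.rpow_add hR, hab, Real.rpow_one]
      · have h1 : Gt g L R e t y = 0 := by
          unfold Gt
          rw [if_neg ht]
        rw [h1, Real.zero_rpow hb.ne', mul_zero]
        exact hn _ _
    · have h1 : Gt g L R e s x = 0 := by
        unfold Gt
        rw [if_neg hs]
      rw [h1, Real.zero_rpow ha.ne', zero_mul]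
      exact hn _ _
  · unfold Gt
    rw [if_neg]
    push Not
    exact hs
  · have h1 := hC x hx
    rw [Real.norm_of_nonneg (Finset.sum_nonneg fun j _ => abs_nonneg _)] at h1
    have h2 : |F1 (qf P β γ) j x| ≤ ∑ j, |F1 (qf P β γ) j x| :=
      Finset.single_le_sum (f := fun j => |F1 (qf P β γ) j x|) (fun i _ => abs_nonneg _)
        (Finset.mem_univ j)
    have h3 := neg_abs_le (F1 (qf P β γ) j x)
    have h4 := le_abs_self C
    linarith

/-- the truncated densities -/
theorem den_gt_of (F : Fin k → Eu (Fin n) → ℝ) (g : (Fin k → ℝ) → Eu (Fin d) → ℝ)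
    (L : Eu (Fin n) →L[ℝ] Eu (Fin d)) {R e c : ℝ} {x : Eu (Fin n)}
    (h : ∀ j, F1 F j x + c ≤ R) : den (F1 F) (Gt g L R e) (fun _ => c) x =
      min (g (fun j => F j x + c - e) (L x)) R := by
  unfold den Gt
  rw [if_pos h]
  simp only [F1_cast]

theorem den_gt_of_not (F : Fin k → Eu (Fin n) → ℝ) (g : (Fin k → ℝ) → Eu (Fin d) → ℝ)
    (L : Eu (Fin n) →L[ℝ] Eu (Fin d)) {R e c : ℝ} {x : Eu (Fin n)}
    (h : ¬ ∀ j, F1 F j x + c ≤ R) : den (F1 F) (Gt g L R e) (fun _ => c) x = 0 := by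
  unfold den Gt
  rw [if_neg h]

theorem den_gt_le {F : Fin k → Eu (Fin n) → ℝ} {g : (Fin k → ℝ) → Eu (Fin d) → ℝ} (hg : Gen g)
    {L : Eu (Fin n) →L[ℝ] Eu (Fin d)} {R e c : ℝ} (x : Eu (Fin n)) :
    den (F1 F) (Gt g L R e) (fun _ => c) x ≤ g (fun j => F j x + c - e) (L x) := by
  by_cases h : ∀ j, F1 F j x + c ≤ R
  · rw [den_gt_of F g L h]
    exact min_le_left _ _
  · rw [den_gt_of_not F g L h]
    exact hg.nonneg _ _

theorem den_gt_nonneg {F : Fin k → Eu (Fin n) → ℝ} {g : (Fin k → ℝ) → Eu (Fin d) → ℝ} (hg : Gen g)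
    {L : Eu (Fin n) →L[ℝ] Eu (Fin d)} {R e c : ℝ} (hR : 0 ≤ R) (x : Eu (Fin n)) :
    0 ≤ den (F1 F) (Gt g L R e) (fun _ => c) x := by
  by_cases h : ∀ j, F1 F j x + c ≤ R
  · rw [den_gt_of F g L h]
    exact le_min (hg.nonneg _ _) hR
  · rw [den_gt_of_not F g L h]

theorem den_gt_meas {F : Fin k → Eu (Fin n) → ℝ} (hF : ∀ j, Continuous (F j))
    {g : (Fin k → ℝ) → Eu (Fin d) → ℝ} (hg : Gen g)
    {L : Eu (Fin n) →L[ℝ] Eu (Fin d)} {R e c : ℝ} :
    Measurable (den (F1 F) (Gt g L R e) (fun _ => c)) := by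
  have hF1 : ∀ j, Continuous (F1 F j) := fun j => by
    refine Fin.lastCases ?_ (fun j => ?_) j
    · have e1 : F1 F (Fin.last k) = fun x => ‖x‖ ^ 2 := funext fun x => F1_last _ x
      rw [e1]
      fun_prop
    · have e2 : F1 F (Fin.castSucc j) = F j := funext fun x => F1_cast _ j x
      rw [e2]
      exact hF j
  unfold den Gt
  refine Measurable.ite ?_ ?_ measurable_const
  · have e1 : {x : Eu (Fin n) | ∀ j, F1 F j x + c ≤ R} = ⋂ j, {x | F1 F j x + c ≤ R} := by
      ext p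
      simp
    rw [e1]
    exact MeasurableSet.iInter fun j => measurableSet_le
      ((hF1 j).measurable.add_const _) measurable_const
  · refine Measurable.min ?_ measurable_const
    have h1 : Measurable fun x : Eu (Fin n) =>
        ((fun j : Fin k => F1 F (Fin.castSucc j) x + c - e), L x) :=
      (measurable_pi_lambda _ fun j => ((hF1 _).measurable.add_const _).sub_const
        _).prodMk L.continuous.measurable
    exact hg.meas.comp h1

/-- convergence of the truncated densities -/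
theorem den_gt_tendsto {F : Fin k → Eu (Fin n) → ℝ} {g : (Fin k → ℝ) → Eu (Fin d) → ℝ}
    {L : Eu (Fin n) →L[ℝ] Eu (Fin d)} {e c : ℝ} (x : Eu (Fin n)) :
    Tendsto (fun m : ℕ => den (F1 F) (Gt g L (m : ℝ) e) (fun _ => c) x) atTop
      (𝓝 (g (fun j => F j x + c - e) (L x))) := by
  obtain ⟨R, -, hR⟩ := exists_ub fun j => F1 F j x + c
  refine tendsto_const_nhds.congr' ?_
  filter_upwards [eventually_ge_atTop ⌈R⌉₊,
    eventually_ge_atTop ⌈g (fun j => F j x + c - e) (L x)⌉₊] with m hm hm2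
  rw [den_gt_of F g L fun j => (hR j).trans (Nat.ceil_le.1 hm), min_eq_left (Nat.ceil_le.1 hm2)]

theorem rate_le {k d : ℕ} (hk : 0 < k) {C : ℝ} (hC : 0 < C) :
    C * ((k + 1 : ℕ) : ℝ) ^ 5 * ((k + 1 + d : ℕ) : ℝ) ≤ C * 64 * k ^ 5 * ((k + d : ℕ) : ℝ) := by
  have hk1 : (1 : ℝ) ≤ k := by exact_mod_cast hk
  have hd : (0 : ℝ) ≤ d := Nat.cast_nonneg d
  push_cast
  have h1 : ((k : ℝ) + 1) ^ 5 ≤ (2 * k) ^ 5 := pow_le_pow_left₀ (by positivity) (by linarith) 5
  have h2 : (k : ℝ) + 1 + d ≤ 2 * (k + d) := by linarith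
  calc C * ((k : ℝ) + 1) ^ 5 * (k + 1 + d) ≤ C * (2 * k) ^ 5 * (2 * (k + d)) := by gcongr
    _ = _ := by ring

/-- **the inequality, with the condition of Slater** -/
theorem kp_slater : ∃ C : ℝ, 0 < C ∧ ∀ (n k d : ℕ) (P : Fin k → (Eu (Fin n) →L[ℝ] Eu (Fin n)))
    (β : Fin k → Eu (Fin n)) (γ : Fin k → ℝ) (L : Eu (Fin n) →L[ℝ] Eu (Fin d))
    (g : (Fin k → ℝ) → Eu (Fin d) → ℝ), Gen g → 0 < k →
    Den (fun x : Eu (Fin n) => g (fun j => qf P β γ j x) (L x)) →
    (∃ c : ℝ, 0 < c ∧ 0 < ∫ x : Eu (Fin n), g (fun j => qf P β γ j x + c) (L x)) →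
    KP (nm fun x : Eu (Fin n) => g (fun j => qf P β γ j x) (L x))
      (C * k ^ 5 * ((k + d : ℕ) : ℝ)) := by
  obtain ⟨C, hC, H⟩ := kp_bdd
  refine ⟨C * 64, by positivity, ?_⟩
  intro n k d P β γ L g hg hk hρ hsl
  obtain ⟨c, hc, hgc⟩ := hsl
  obtain ⟨F, hFd⟩ : ∃ F : Fin k → Eu (Fin n) → ℝ, F = qf P β γ := ⟨_, rfl⟩
  have hS := sy_one P β γ
  have hFc : ∀ j, Continuous (F j) := fun j => by rw [hFd]; exact qf_cont P β γ j
  rw [← hFd] at hρ hgc hS ⊢
  obtain ⟨ρ, hρd⟩ : ∃ ρ : Eu (Fin n) → ℝ, ρ = fun x => g (fun j => F j x) (L x) := ⟨_, rfl⟩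
  rw [← hρd] at hρ ⊢
  have hmom := (Q289.LD.tLIM (Fin n) ρ hρ).2.1
  have hwt : Wt ρ := ⟨hρ.nonneg, hρ.meas, by rw [hρ.mass]; exact one_pos, hmom⟩
  -- positivity
  have hNc : Tendsto (fun m : ℕ => N (F1 F) (Gt g L (m : ℝ) 0) fun _ => c) atTop
      (𝓝 (∫ x : Eu (Fin n), g (fun j => F j x + c) (L x))) := by
    refine tendsto_integral_of_dominated_convergence ρ (fun m =>
      (den_gt_meas hFc hg).aestronglyMeasurable) hwt.integrable (fun m =>
      Eventually.of_forall fun x => ?_) (Eventually.of_forall fun x => ?_)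
    · rw [Real.norm_of_nonneg (den_gt_nonneg hg (Nat.cast_nonneg m) x)]
      refine (den_gt_le hg x).trans ?_
      rw [hρd]
      refine hg.anti _ _ _ fun j => ?_
      show F j x ≤ F j x + c - 0
      linarith
    · have h1 := den_gt_tendsto (F := F) (g := g) (L := L) (e := 0) (c := c) x
      simp only [sub_zero] at h1
      exact h1
  have hev : ∀ᶠ m : ℕ in atTop, 0 < N (F1 F) (Gt g L (m : ℝ) 0) fun _ => c :=
    hNc.eventually (lt_mem_nhds hgc)
  have hlim := W2.of_dom (l := (atTop : Filter ℕ))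
    (g := fun m : ℕ => den (F1 F) (Gt g L (m : ℝ) 0) 0)
    (g' := ρ) (h := ρ) (Eventually.of_forall fun m x =>
      den_gt_nonneg (c := 0) hg (Nat.cast_nonneg m) x)
    (Eventually.of_forall fun m => den_gt_meas (c := 0) hFc hg) hwt
    (Eventually.of_forall fun m x => by
      refine (den_gt_le (c := 0) hg x).trans (le_of_eq ?_)
      simp only [add_zero, sub_zero, hρd]) hmom (Eventually.of_forall fun x => by
      have h1 := den_gt_tendsto (F := F) (g := g) (L := L) (e := 0) (c := 0) x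
      simp only [sub_zero, add_zero] at h1
      rw [hρd]
      exact h1)
  have hp := hwt.prob
  refine KP.lim hlim.2 (by positivity) ?_
  filter_upwards [hev, eventually_gt_atTop 0] with m hm hm0
  have hm1 : (0 : ℝ) < m := Nat.cast_pos.2 hm0
  rw [hFd] at hm
  obtain ⟨T, hT⟩ := gx_gt hg hm1 hc hm
  rw [← hFd] at hT
  have h1 := H n (k + 1) d _ _ c m T m _ _ _ _ L hS hT (Nat.succ_pos k)
    (fun v hv s x => by
      unfold Gt
      rw [map_add, hv, add_zero])
  intro s hs hcov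
  have h2 := h1 s hs hcov
  exact h2.mono (mul_le_mul_of_nonneg_right (rate_le hk hC) hs.le)

end Pool.Agent.H776.NC
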