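import Pool.Agent.H776.NC8

/-!
# Log-concave densities of few quadratic polynomials and linear functionals, VIII: closed bodies and
upper semicontinuous densities
-/

set_option autoImplicit false

namespace Pool.Agent.H776.NC

open MeasureTheory Set Filter Topology
open scoped ENNReal InnerProductSpace
open Pool.Agent.H776.FE (lev exists_ub)
open Q289.LD (Den)

variable {n k d : ℕ}

/-- **the inequality, for densities continuous from below** -/
theorem kp_reg : ∃ C : ℝ, 0 < C ∧ ∀ (n k d : ℕ) (P : Fin k → (Eu (Fin n) →L[ℝ] Eu (Fin n)))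
    (β : Fin k → Eu (Fin n)) (γ : Fin k → ℝ) (L : Eu (Fin n) →L[ℝ] Eu (Fin d))
    (g : (Fin k → ℝ) → Eu (Fin d) → ℝ), Gen g → 0 < k →
    Den (fun x : Eu (Fin n) => g (fun j => qf P β γ j x) (L x)) →
    (∀ᵐ x : Eu (Fin n), Tendsto (fun m : ℕ => g (fun j => qf P β γ j x - 1 / ((m : ℝ) + 1)) (L x))
      atTop (𝓝 (g (fun j => qf P β γ j x) (L x)))) →
    KP (nm fun x : Eu (Fin n) => g (fun j => qf P β γ j x) (L x))
      (C * k ^ 5 * ((k + d : ℕ) : ℝ)) := by
  obtain ⟨C, hC, H⟩ := kp_bdd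
  refine ⟨C * 64, by positivity, ?_⟩
  intro n k d P β γ L g hg hk hρ hreg
  obtain ⟨F, hFd⟩ : ∃ F : Fin k → Eu (Fin n) → ℝ, F = qf P β γ := ⟨_, rfl⟩
  have hS := sy_one P β γ
  have hFc : ∀ j, Continuous (F j) := fun j => by rw [hFd]; exact qf_cont P β γ j
  rw [← hFd] at hρ hreg hS ⊢
  have hF1 := hS.toFm
  obtain ⟨ρ, hρd⟩ : ∃ ρ : Eu (Fin n) → ℝ, ρ = fun x => g (fun j => F j x) (L x) := ⟨_, rfl⟩
  rw [← hρd] at hρ ⊢
  have hmom := (Q289.LD.tLIM (Fin n) ρ hρ).2.1
  have hwt : Wt ρ := ⟨hρ.nonneg, hρ.meas, by rw [hρ.mass]; exact one_pos, hmom⟩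
  -- positivity
  have hNc : Tendsto (fun m : ℕ => N (F1 F) (Gt g L (m : ℝ) 1) fun _ => 1) atTop
      (𝓝 (∫ x : Eu (Fin n), ρ x)) := by
    refine tendsto_integral_of_dominated_convergence ρ (fun m =>
      (den_gt_meas hFc hg).aestronglyMeasurable) hwt.integrable (fun m =>
      Eventually.of_forall fun x => ?_) (Eventually.of_forall fun x => ?_)
    · rw [Real.norm_of_nonneg (den_gt_nonneg hg (Nat.cast_nonneg m) x)]
      refine (den_gt_le hg x).trans (le_of_eq ?_)
      simp only [add_sub_cancel_right, hρd]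
    · have h1 := den_gt_tendsto (F := F) (g := g) (L := L) (e := 1) (c := 1) x
      simp only [add_sub_cancel_right] at h1
      rw [hρd]
      exact h1
  rw [hρ.mass] at hNc
  have hev : ∀ᶠ m : ℕ in atTop, 0 < N (F1 F) (Gt g L (m : ℝ) 1) fun _ => 1 :=
    hNc.eventually (lt_mem_nhds one_pos)
  -- the last limit
  have hlim := W2.of_dom (l := (atTop : Filter ℕ))
    (g := fun m : ℕ => den (F1 F) (Gt g L (m : ℝ) 0) 0)
    (g' := ρ) (h := ρ) (Eventually.of_forall fun m x =>
      den_gt_nonneg (c := 0) hg (Nat.cast_nonneg m) x)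
    (Eventually.of_forall fun m => den_gt_meas (c := 0) hFc hg) hwt
    (Eventually.of_forall fun m x => by
      refine (den_gt_le (c := 0) hg x).trans (le_of_eq ?_)
      simp only [add_zero, sub_zero, hρd]) hmom (Eventually.of_forall fun x => by
      have h1 := den_gt_tendsto (F := F) (g := g) (L := L) (e := 0) (c := 0) x
      simp only [sub_zero, add_zero] at h1
      rw [hρd]
      exact h1)
  have hp := hwt.prob
  refine KP.lim hlim.2 (by positivity) ?_
  filter_upwards [hev, eventually_gt_atTop 0] with N₀ hm hm0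
  have hR : (0 : ℝ) < N₀ := Nat.cast_pos.2 hm0
  obtain ⟨R, hRd⟩ : ∃ R : ℝ, R = N₀ := ⟨_, rfl⟩
  rw [← hRd] at hm hR ⊢
  -- positivity of the shifted integrals
  have hposd : ∀ e c' : ℝ, c' ≤ 1 → c' ≤ e →
      ∀ x, den (F1 F) (Gt g L R 1) (fun _ => 1) x ≤ den (F1 F) (Gt g L R e) (fun _ => c') x := by
    intro e c' hc1 hce x
    by_cases h : ∀ j, F1 F j x + 1 ≤ R
    · rw [den_gt_of F g L h, den_gt_of F g L fun j => by linarith [h j]]
      refine min_le_min (hg.anti _ _ _ fun j => ?_) le_rfl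
      show F j x + c' - e ≤ F j x + 1 - 1
      linarith
    · rw [den_gt_of_not F g L h]
      exact den_gt_nonneg hg hR.le x
  -- integrability
  have hm' := hm
  rw [hFd] at hm'
  obtain ⟨T₁, hT₁⟩ := gx_gt hg hR one_pos hm'
  rw [← hFd] at hT₁
  have hw1 := wt_den hF1 hT₁
  have hdle : ∀ e : ℝ, e ≤ 1 → ∀ x, den (F1 F) (Gt g L R e) 0 x ≤ den (F1 F) (Gt g L R 1) 0 x := by
    intro e he x
    by_cases h : ∀ j, F1 F j x + 0 ≤ R
    · have h1 := den_gt_of F g L (e := e) h
      have h2 := den_gt_of F g L (e := 1) h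
      have h3 : min (g (fun j => F j x + 0 - e) (L x)) R ≤ min (g (fun j => F j x + 0 - 1) (L x)) R :=
        min_le_min (hg.anti _ _ _ fun j => by
          show F j x + 0 - 1 ≤ F j x + 0 - e
          linarith) le_rfl
      rw [← h1, ← h2] at h3
      exact h3
    · have h1 := den_gt_of_not F g L (e := e) h
      have h2 := den_gt_nonneg (F := F) (L := L) (e := 1) (c := 0) hg hR.le x
      exact (le_of_eq h1).trans h2
  have hNle : ∀ e c' : ℝ, 0 ≤ c' → c' ≤ 1 → c' ≤ e → e ≤ 1 →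
      0 < N (F1 F) (Gt g L R e) fun _ => c' := by
    intro e c' hc0 hc1 hce he
    refine hm.trans_le ?_
    have i1 : Integrable (den (F1 F) (Gt g L R 1) fun _ => 1) := den_int hF1 hT₁ _
    refine integral_mono i1 ?_ (hposd e c' hc1 hce)
    refine hw1.integrable.mono' (den_gt_meas hFc hg).aestronglyMeasurable
      (Eventually.of_forall fun x => ?_)
    rw [Real.norm_of_nonneg (den_gt_nonneg hg hR.le x)]
    refine le_trans ?_ (hdle e he x)
    -- shifting
    by_cases h : ∀ j, F1 F j x + c' ≤ R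
    · have h0 : ∀ j, F1 F j x + 0 ≤ R := fun j => by linarith [h j]
      have h2 := den_gt_of F g L (e := e) h0
      rw [den_gt_of F g L h]
      have h3 : min (g (fun j => F j x + c' - e) (L x)) R ≤
          min (g (fun j => F j x + 0 - e) (L x)) R :=
        min_le_min (hg.anti _ _ _ fun j => by
          show F j x + 0 - e ≤ F j x + c' - e
          linarith) le_rfl
      rw [← h2] at h3
      exact h3
    · rw [den_gt_of_not F g L h]
      exact den_gt_nonneg (c := 0) hg hR.le x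
  have hN0 : 0 < N (F1 F) (Gt g L R 0) fun _ => 0 := hNle 0 0 le_rfl zero_le_one le_rfl zero_le_one
  have hmom0 : Integrable fun x : Eu (Fin n) => (1 + ‖x‖ ^ 2) * den (F1 F) (Gt g L R 0) 0 x := by
    refine hw1.mom.mono' ?_ (Eventually.of_forall fun x => ?_)
    · exact ((by fun_prop : Measurable fun x : Eu (Fin n) => 1 + ‖x‖ ^ 2).mul
        (den_gt_meas (c := 0) hFc hg)).aestronglyMeasurable
    · have h1 := den_gt_nonneg (F := F) (L := L) (e := 0) (c := 0) hg hR.le x
      have h2 : 0 ≤ (1 + ‖x‖ ^ 2) * den (F1 F) (Gt g L R 0) 0 x := mul_nonneg (by positivity) h1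
      rw [Real.norm_of_nonneg h2]
      exact mul_le_mul_of_nonneg_left (hdle 0 zero_le_one x) (by positivity)
  have hwt0 : Wt (den (F1 F) (Gt g L R 0) 0) :=
    ⟨fun x => den_gt_nonneg (c := 0) hg hR.le x, den_gt_meas (c := 0) hFc hg, hN0, hmom0⟩
  have hem : ∀ m : ℕ, 0 < 1 / ((m : ℝ) + 1) ∧ 1 / ((m : ℝ) + 1) ≤ 1 := fun m => by
    refine ⟨by positivity, ?_⟩
    rw [div_le_one (by positivity)]
    linarith [(Nat.cast_nonneg m : (0 : ℝ) ≤ m)]
  have hlim0 := W2.of_dom (l := (atTop : Filter ℕ))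
    (g := fun m : ℕ => den (F1 F) (Gt g L R (1 / ((m : ℝ) + 1))) 0)
    (g' := den (F1 F) (Gt g L R 0) 0) (h := den (F1 F) (Gt g L R 1) 0)
    (Eventually.of_forall fun m x => den_gt_nonneg (c := 0) hg hR.le x)
    (Eventually.of_forall fun m => den_gt_meas (c := 0) hFc hg) hwt0
    (Eventually.of_forall fun m x => hdle _ (hem m).2 x) hw1.mom (by
      filter_upwards [hreg] with x hx
      by_cases h : ∀ j, F1 F j x + 0 ≤ R
      · have h1 : ∀ e : ℝ, den (F1 F) (Gt g L R e) 0 x = min (g (fun j => F j x - e) (L x)) R := by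
          intro e
          have h2 := den_gt_of F g L (e := e) h
          simp only [add_zero] at h2
          exact h2
        simp only [h1, sub_zero]
        exact hx.min tendsto_const_nhds
      · have h1 : ∀ e : ℝ, den (F1 F) (Gt g L R e) 0 x = 0 := fun e => den_gt_of_not F g L h
        simp only [h1]
        exact tendsto_const_nhds)
  have hp0 := hwt0.prob
  refine KP.lim hlim0.2 (by positivity) (Eventually.of_forall fun m => ?_)
  have hpm := hNle (1 / ((m : ℝ) + 1)) (1 / ((m : ℝ) + 1)) (hem m).1.le (hem m).2 le_rfl (hem m).2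
  rw [hFd] at hpm
  obtain ⟨T, hT⟩ := gx_gt hg hR (hem m).1 hpm
  rw [← hFd] at hT
  have h1 := H n (k + 1) d _ _ _ R T R _ _ _ _ L hS hT (Nat.succ_pos k)
    (fun v hv s x => by
      unfold Gt
      rw [map_add, hv, add_zero])
  intro s hs hcov
  have h2 := h1 s hs hcov
  exact h2.mono (mul_le_mul_of_nonneg_right (rate_le hk hC) hs.le)

/-- upper semicontinuous functions are continuous from below -/
theorem reg_of_usc {g : (Fin k → ℝ) → Eu (Fin d) → ℝ} (hg : Gen g)
    (hu : UpperSemicontinuous fun p : (Fin k → ℝ) × Eu (Fin d) => g p.1 p.2) (s : Fin k → ℝ)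
    (z : Eu (Fin d)) :
    Tendsto (fun m : ℕ => g (fun j => s j - 1 / ((m : ℝ) + 1)) z) atTop (𝓝 (g s z)) := by
  have h0 : Tendsto (fun m : ℕ => ((fun j => s j - 1 / ((m : ℝ) + 1), z) :
      (Fin k → ℝ) × Eu (Fin d))) atTop (𝓝 (s, z)) := by
    refine Tendsto.prodMk_nhds ?_ tendsto_const_nhds
    refine tendsto_pi_nhds.2 fun j => ?_
    have h1 : Tendsto (fun m : ℕ => s j - 1 / ((m : ℝ) + 1)) atTop (𝓝 (s j - 0)) :=
      tendsto_const_nhds.sub tendsto_one_div_add_atTop_nhds_zero_nat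
    rwa [sub_zero] at h1
  refine tendsto_order.2 ⟨fun a ha => Eventually.of_forall fun m => ?_, fun a ha => ?_⟩
  · refine ha.trans_le (hg.anti _ _ _ fun j => ?_)
    have : (0 : ℝ) < 1 / ((m : ℝ) + 1) := by positivity
    linarith
  · exact h0.eventually (hu (s, z) a ha)

/-- **the main theorem**: upper semicontinuous densities, or the condition of Slater -/
theorem kp_main : ∃ C : ℝ, 0 < C ∧ ∀ (n k d : ℕ) (P : Fin k → (Eu (Fin n) →L[ℝ] Eu (Fin n)))
    (β : Fin k → Eu (Fin n)) (γ : Fin k → ℝ) (L : Eu (Fin n) →L[ℝ] Eu (Fin d))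
    (g : (Fin k → ℝ) → Eu (Fin d) → ℝ), Gen g → 0 < k →
    Den (fun x : Eu (Fin n) => g (fun j => qf P β γ j x) (L x)) →
    ((UpperSemicontinuous fun p : (Fin k → ℝ) × Eu (Fin d) => g p.1 p.2) ∨
      ∃ c : ℝ, 0 < c ∧ 0 < ∫ x : Eu (Fin n), g (fun j => qf P β γ j x + c) (L x)) →
    KP (nm fun x : Eu (Fin n) => g (fun j => qf P β γ j x) (L x))
      (C * k ^ 5 * ((k + d : ℕ) : ℝ)) := by
  obtain ⟨C₁, hC₁, H₁⟩ := kp_slater
  obtain ⟨C₂, hC₂, H₂⟩ := kp_reg
  refine ⟨C₁ + C₂, by positivity, ?_⟩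
  intro n k d P β γ L g hg hk hρ hr s hs hcov
  rcases hr with hu | hsl
  · have h1 := H₂ n k d P β γ L g hg hk hρ (Eventually.of_forall fun x => reg_of_usc hg hu _ _) s hs
      hcov
    refine h1.mono ?_
    gcongr
    linarith
  · have h1 := H₁ n k d P β γ L g hg hk hρ hsl s hs hcov
    refine h1.mono ?_
    gcongr
    linarith

end Pool.Agent.H776.NC
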