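import Pool.Agent.H776.NC9

/-!
# Log-concave densities of few convex functions and linear functionals, I: the weight

The quadratic polynomials are replaced by functions which are uniformly convex and uniformly smooth with
respect to quadratic forms.
-/

set_option autoImplicit false

namespace Pool.Agent.H776.ND

open MeasureTheory Set Filter Topology
open scoped ENNReal InnerProductSpace
open Pool.Agent.H776.FE (lev exists_sqrt)
open Pool.Agent.H776.NC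

variable {κ : Type} [Fintype κ] {k : ℕ}
variable {F : Fin k → Eu κ → ℝ} {G : (Fin k → ℝ) → Eu κ → ℝ} {c M T B : ℝ}
variable {b : Fin k → Type} [∀ j, Fintype (b j)] {P : ∀ j, Eu κ →L[ℝ] Eu (b j)} {K : ℝ}

/-- functions, uniformly convex and uniformly smooth with respect to the forms `‖P j x‖²` -/
structure Sz (F : Fin k → Eu κ → ℝ) (P : ∀ j, Eu κ →L[ℝ] Eu (b j)) (K : ℝ) : Prop
    extends Fm F where
  one_le : 1 ≤ K
  diff : ∀ j, ContDiff ℝ 1 (F j)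
  strong : ∀ j x y, F j ((1 / 2 : ℝ) • (x + y)) ≤ (F j x + F j y) / 2 - ‖P j (x - y)‖ ^ 2 / 4
  smooth : ∀ j x v, F j (x + v) + F j (x - v) ≤ 2 * F j x + 2 * K * ‖P j v‖ ^ 2
  lip : ∀ j x y u, |fderiv ℝ (F j) x u - fderiv ℝ (F j) y u| ≤
    2 * K * ‖P j (x - y)‖ * ‖P j u‖
  inj : ∀ z, (∀ j, P j z = 0) → z = 0

/-- the linear change of coordinates -/
theorem exists_S (hS : Sz F P K) (hk : 0 < k) {σ : Fin k → ℝ} (hσ : ∀ j, 0 < σ j) {τ : ℝ}
    (hτ : 0 ≤ τ) (p : Eu κ →L[ℝ] Eu κ) :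
    ∃ S : Eu κ ≃L[ℝ] Eu κ, ∀ z, ‖S.symm z‖ ^ 2 =
      ∑ j, σ j / k * ‖P j z‖ ^ 2 + 2 * τ * ‖p z‖ ^ 2 := by
  have hk0 : (0 : ℝ) < k := Nat.cast_pos.2 hk
  have hs : ∀ j, 0 < σ j / k := fun j => div_pos (hσ j) hk0
  let L : Eu κ →ₗ[ℝ] WithLp 2 (PiLp 2 (fun j => Eu (b j)) × Eu κ) :=
    { toFun := fun z => WithLp.toLp 2 (WithLp.toLp 2 fun j => Real.sqrt (σ j / k) • P j z,
        Real.sqrt (2 * τ) • p z)
      map_add' := fun x y => by
        apply WithLp.ofLp_injective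
        ext j
        · simp
        · simp
      map_smul' := fun c x => by
        apply WithLp.ofLp_injective
        ext j
        · simp [smul_smul, mul_comm]
        · simp [smul_smul, mul_comm] }
  have hLn : ∀ z, ‖L z‖ ^ 2 = ∑ j, σ j / k * ‖P j z‖ ^ 2 + 2 * τ * ‖p z‖ ^ 2 := by
    intro z
    rw [WithLp.prod_norm_sq_eq_of_L2]
    have e1 : ‖(L z).fst‖ ^ 2 = ∑ j, σ j / k * ‖P j z‖ ^ 2 := by
      rw [PiLp.norm_sq_eq_of_L2]
      refine Finset.sum_congr rfl fun j _ => ?_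
      show ‖Real.sqrt (σ j / k) • P j z‖ ^ 2 = _
      rw [norm_smul, mul_pow, Real.norm_eq_abs, sq_abs, Real.sq_sqrt (hs j).le]
    have e2 : ‖(L z).snd‖ ^ 2 = 2 * τ * ‖p z‖ ^ 2 := by
      show ‖Real.sqrt (2 * τ) • p z‖ ^ 2 = _
      rw [norm_smul, mul_pow, Real.norm_eq_abs, sq_abs, Real.sq_sqrt (by positivity)]
    rw [e1, e2]
  obtain ⟨A, hA⟩ := exists_sqrt L (fun z hz => by
    refine hS.inj z fun j => ?_
    have h1 := hLn z
    rw [hz, norm_zero, zero_pow two_ne_zero] at h1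
    have h0 : 0 ≤ ∑ j, σ j / k * ‖P j z‖ ^ 2 := Finset.sum_nonneg fun j _ => by
      have := (hs j).le
      positivity
    have h0' : 0 ≤ 2 * τ * ‖p z‖ ^ 2 := by positivity
    have h2 := (Finset.sum_eq_zero_iff_of_nonneg fun j _ => by
      have := (hs j).le
      positivity).1 (show ∑ j, σ j / k * ‖P j z‖ ^ 2 = 0 by linarith) j (Finset.mem_univ j)
    rcases mul_eq_zero.1 h2 with h3 | h3
    · exact absurd h3 (hs j).ne'
    · exact norm_eq_zero.1 (pow_eq_zero_iff two_ne_zero |>.1 h3))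
  refine ⟨A.symm, fun z => ?_⟩
  rw [ContinuousLinearEquiv.symm_symm, hA, hLn]

variable {τ : ℝ} {p : Eu κ →L[ℝ] Eu κ}

/-- strong log-concavity -/
theorem wt_mid (hS : Sz F P K) (hG : Gx F G c M T B) (hk : 0 < k) {l : Fin k → ℝ}
    (hl : ∀ j, 0 ≤ l j) {S : Eu κ ≃L[ℝ] Eu κ}
    (hs : ∀ z, ‖S.symm z‖ ^ 2 = ∑ j, sg l M T j / k * ‖P j z‖ ^ 2 + 2 * τ * ‖p z‖ ^ 2)
    (x y : Eu κ) :
    wt F G l M T τ p x * wt F G l M T τ p y ≤ (wt F G l M T τ p ((1 / 2 : ℝ) • (x + y))) ^ 2 *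
      Real.exp (-(‖S.symm (x - y)‖ ^ 2 / 4)) := by
  have hk0 : (0 : ℝ) < k := Nat.cast_pos.2 hk
  have hM := hG.MT
  obtain ⟨m, hm⟩ : ∃ m, m = (1 / 2 : ℝ) • (x + y) := ⟨_, rfl⟩
  obtain ⟨d, hd⟩ : ∃ d : Fin k → ℝ, d = fun j => ‖P j (x - y)‖ ^ 2 / 4 := ⟨_, rfl⟩
  have hd0 : ∀ j, 0 ≤ d j := fun j => by rw [hd]; positivity
  have hm' : (1 / 2 : ℝ) • x + (1 / 2 : ℝ) • y = m := by rw [hm, smul_add]
  rw [← hm]
  have hstr : ∀ j, F j m ≤ (F j x + F j y) / 2 - d j := fun j => by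
    have h := hS.strong j x y
    rw [← hm] at h
    rw [hd]
    exact h
  -- the tilted part
  obtain ⟨E, hE⟩ : ∃ E, E = ∑ j, rt l j * d j := ⟨_, rfl⟩
  have h1 : W G (rt l) (fun j => F j x) x * W G (rt l) (fun j => F j y) y ≤
      W G (rt l) (fun j => F j m) m ^ 2 * Real.exp (-(2 * E)) := by
    have h2 := W_mul (μ := rt l) hG (rt_nonneg hl) (fun j => F j x) (fun j => F j y) x y
    rw [hm'] at h2
    have h3 := W_shift (μ := rt l) hG (rt_nonneg hl)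
      ((1 / 2 : ℝ) • (fun j => F j x) + (1 / 2 : ℝ) • fun j => F j y) m hd0
    have h4 : W G (rt l) ((1 / 2 : ℝ) • (fun j => F j x) + (1 / 2 : ℝ) • (fun j => F j y) - d) m ≤
        W G (rt l) (fun j => F j m) m := W_anti hG (rt_nonneg hl) (fun j => by
      simp only [Pi.add_apply, Pi.smul_apply, Pi.sub_apply, smul_eq_mul]
      have := hstr j
      linarith) m
    have h5 := h3.trans h4
    rw [← hE] at h5
    have h6 := pow_le_pow_left₀ (mul_nonneg (W_nonneg hG _ _) (Real.exp_pos _).le) h5 2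
    rw [mul_pow, ← Real.exp_nat_mul] at h6
    have h7 := mul_le_mul_of_nonneg_right h6 (Real.exp_pos (-(2 * E))).le
    rw [mul_assoc, ← Real.exp_add] at h7
    have e : ((2 : ℕ) : ℝ) * E + -(2 * E) = 0 := by push_cast; ring
    rw [e, Real.exp_zero, mul_one] at h7
    exact h2.trans h7
  -- the additional factor
  have h2 : xf F M T x + xf F M T y ≤ 2 * xf F M T m - ∑ j, (1 / (M + T)) * (2 * d j) / (2 * k) := by
    unfold xf
    rw [← Finset.sum_add_distrib, Finset.mul_sum, ← Finset.sum_sub_distrib]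
    refine Finset.sum_le_sum fun j _ => ?_
    have h3 := hstr j
    have h4 : 0 ≤ 1 / (M + T) / (2 * k) := by positivity
    have h5 := mul_le_mul_of_nonneg_left h3 h4
    have e1 : 1 / (M + T) * (M - F j x) / (2 * k) + 1 / (M + T) * (M - F j y) / (2 * k) =
      1 / (M + T) / (2 * k) * (2 * M) - 1 / (M + T) / (2 * k) * (F j x + F j y) := by ring
    have e2 : 2 * (1 / (M + T) * (M - F j m) / (2 * k)) - 1 / (M + T) * (2 * d j) / (2 * k) =
      1 / (M + T) / (2 * k) * (2 * M) - 2 * (1 / (M + T) / (2 * k) * F j m) -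
        2 * (1 / (M + T) / (2 * k) * d j) := by ring
    rw [e1, e2]
    have e3 : 1 / (M + T) / (2 * ↑k) * ((F j x + F j y) / 2 - d j) =
      1 / (M + T) / (2 * k) * (F j x + F j y) / 2 - 1 / (M + T) / (2 * k) * d j := by ring
    rw [e3] at h5
    linarith
  -- the Gaussian factor
  have h2' : -(τ * ‖p x‖ ^ 2) + -(τ * ‖p y‖ ^ 2) =
      2 * (-(τ * ‖p m‖ ^ 2)) - 2 * τ * ‖p (x - y)‖ ^ 2 / 4 := by
    have h := parallelogram_law_with_norm ℝ (p x) (p y)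
    rw [hm, map_smul, map_add, map_sub, norm_smul, mul_pow, Real.norm_eq_abs,
      abs_of_pos (by norm_num : (0 : ℝ) < 1 / 2)]
    have e : ‖p x‖ ^ 2 + ‖p y‖ ^ 2 = ‖p x + p y‖ ^ 2 / 2 + ‖p x - p y‖ ^ 2 / 2 := by nlinarith [h]
    have e2 : -(τ * ‖p x‖ ^ 2) + -(τ * ‖p y‖ ^ 2) = -(τ * (‖p x‖ ^ 2 + ‖p y‖ ^ 2)) := by ring
    rw [e2, e]
    ring
  have h3 : (Real.exp (xf F M T x) * Real.exp (-(τ * ‖p x‖ ^ 2))) *
      (Real.exp (xf F M T y) * Real.exp (-(τ * ‖p y‖ ^ 2))) ≤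
      (Real.exp (xf F M T m) * Real.exp (-(τ * ‖p m‖ ^ 2))) ^ 2 *
      Real.exp (-∑ j, (1 / (M + T)) * (2 * d j) / (2 * k) - 2 * τ * ‖p (x - y)‖ ^ 2 / 4) := by
    rw [← Real.exp_add, ← Real.exp_add, ← Real.exp_add, ← Real.exp_add, ← Real.exp_nat_mul,
      ← Real.exp_add]
    refine Real.exp_le_exp.2 ?_
    push_cast
    linarith
  have h4 := mul_le_mul h1 h3 (by positivity)
    (mul_nonneg (sq_nonneg _) (Real.exp_pos _).le)
  unfold wt
  calc W G (rt l) (fun j => F j x) x * Real.exp (xf F M T x) * Real.exp (-(τ * ‖p x‖ ^ 2)) *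
        (W G (rt l) (fun j => F j y) y * Real.exp (xf F M T y) * Real.exp (-(τ * ‖p y‖ ^ 2))) =
        (W G (rt l) (fun j => F j x) x * W G (rt l) (fun j => F j y) y) *
        ((Real.exp (xf F M T x) * Real.exp (-(τ * ‖p x‖ ^ 2))) *
        (Real.exp (xf F M T y) * Real.exp (-(τ * ‖p y‖ ^ 2)))) := by ring
    _ ≤ _ := h4
    _ = (W G (rt l) (fun j => F j m) m * Real.exp (xf F M T m) *
          Real.exp (-(τ * ‖p m‖ ^ 2))) ^ 2 *
        (Real.exp (-(2 * E)) *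
          Real.exp (-∑ j, (1 / (M + T)) * (2 * d j) / (2 * k) - 2 * τ * ‖p (x - y)‖ ^ 2 / 4)) := by
        ring
    _ = _ := by
      congr 1
      rw [← Real.exp_add]
      congr 1
      rw [hs, hE, Finset.mul_sum]
      have e1 : ∑ j, sg l M T j / k * ‖P j (x - y)‖ ^ 2 =
          ∑ j, (4 * (2 * (rt l j * d j)) + 4 * ((1 / (M + T)) * (2 * d j) / (2 * k))) := by
        refine Finset.sum_congr rfl fun j _ => ?_
        rw [hd]
        unfold rt sg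
        field_simp
      have e2 : ∑ j, (4 * (2 * (rt l j * d j)) + 4 * ((1 / (M + T)) * (2 * d j) / (2 * k))) =
          4 * (∑ j, 2 * (rt l j * d j)) + 4 * ∑ j, (1 / (M + T)) * (2 * d j) / (2 * k) := by
        rw [Finset.sum_add_distrib, Finset.mul_sum, Finset.mul_sum]
      rw [e1, e2]
      generalize (∑ j, 2 * (rt l j * d j)) = A1
      generalize (∑ j, (1 / (M + T)) * (2 * d j) / (2 * k)) = A2
      ring

/-- **variances of functions with bounded gradients** -/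
theorem var_wt (hS : Sz F P K) (hG : Gx F G c M T B) (hk : 0 < k) {l : Fin k → ℝ}
    (hl : Lam F G l) (hτ : 0 ≤ τ) {S : Eu κ ≃L[ℝ] Eu κ}
    (hs : ∀ z, ‖S.symm z‖ ^ 2 = ∑ j, sg l M T j / k * ‖P j z‖ ^ 2 + 2 * τ * ‖p z‖ ^ 2)
    {f : Eu κ → ℝ} (hf : ContDiff ℝ 1 f) {A : ℝ}
    (hA : ∀ x, ‖(fderiv ℝ f x).comp (S : Eu κ →L[ℝ] Eu κ)‖ ≤ A) :
    ∃ a : ℝ, ∫ x, (f x - a) ^ 2 * wt F G l M T τ p x ≤ 8 * A ^ 2 * N F G 0 := by
  have hF := hS.toFm
  obtain ⟨a, ha⟩ := Pool.Agent.H888R2.KT.bl_lin (wt F G l M T τ p) (wt_nonneg hG l)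
    (wt_meas hF hG l) (wt_bdd hG hk hl.nonneg hτ) (wt_supp hF hG l) S
    (wt_mid hS hG hk hl.nonneg hs) f hf
  refine ⟨a, ?_⟩
  obtain ⟨hwi, hwN⟩ := wt_int (p := p) hF hG hk hl hτ
  have h2 : ∫ x, ‖(fderiv ℝ f x).comp (S : Eu κ →L[ℝ] Eu κ)‖ ^ 2 * wt F G l M T τ p x ≤
      ∫ x, A ^ 2 * wt F G l M T τ p x := by
    refine integral_mono_of_nonneg (Eventually.of_forall fun x => ?_) (hwi.const_mul _)
      (Eventually.of_forall fun x => ?_)
    · exact mul_nonneg (sq_nonneg _) (wt_nonneg hG l x)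
    · exact mul_le_mul_of_nonneg_right (pow_le_pow_left₀ (norm_nonneg _) (hA x) 2)
        (wt_nonneg hG l x)
  rw [integral_const_mul] at h2
  have h3 := mul_le_mul_of_nonneg_left hwN (sq_nonneg A)
  calc ∫ x, (f x - a) ^ 2 * wt F G l M T τ p x ≤ _ := ha
    _ ≤ _ := h2
    _ ≤ _ := h3
    _ = _ := by ring

/-- **variances for the original density** -/
theorem var_den (hS : Sz F P K) (hG : Gx F G c M T B) (hk : 0 < k) {l : Fin k → ℝ}
    (hl : Lam F G l) {S : Eu κ ≃L[ℝ] Eu κ}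
    (hs : ∀ z, ‖S.symm z‖ ^ 2 = ∑ j, sg l M T j / k * ‖P j z‖ ^ 2)
    {f : Eu κ → ℝ} (hf : ContDiff ℝ 1 f) {A : ℝ}
    (hA : ∀ x, ‖(fderiv ℝ f x).comp (S : Eu κ →L[ℝ] Eu κ)‖ ≤ A) :
    ∃ a : ℝ, ∫ x, (f x - a) ^ 2 * den F G 0 x ≤ 8 * A ^ 2 * N F G 0 := by
  have hF := hS.toFm
  obtain ⟨a, ha⟩ := var_wt (τ := 0) (p := 0) hS hG hk hl le_rfl (S := S) (fun z => by
    rw [hs]
    ring) hf hA
  refine ⟨a, le_trans ?_ ha⟩
  have hcf : Continuous f := hf.continuous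
  refine integral_mono_of_nonneg (Eventually.of_forall fun x =>
    mul_nonneg (sq_nonneg _) (den_nonneg hG _ x))
    (wt_int_cont hF hG hk hl le_rfl (g := fun x => (f x - a) ^ 2) (by fun_prop))
    (Eventually.of_forall fun x => ?_)
  refine mul_le_mul_of_nonneg_left ?_ (sq_nonneg _)
  have h := wt_ge (τ := 0) (p := 0) hG hl.nonneg x
  rwa [zero_mul, Real.exp_zero, one_mul] at h

end Pool.Agent.H776.ND
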