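import Pool.Agent.H776.ND1

/-!
# Log-concave densities of few convex functions and linear functionals, II: isotropic position
-/

set_option autoImplicit false

namespace Pool.Agent.H776.ND

open MeasureTheory Set Filter Topology
open scoped ENNReal InnerProductSpace
open Pool.Agent.H776.FE (lev exists_sqrt)
open Pool.Agent.H776.NC

variable {κ : Type} [Fintype κ] {k : ℕ}
variable {F : Fin k → Eu κ → ℝ} {G : (Fin k → ℝ) → Eu κ → ℝ} {c M T B : ℝ}
variable {b : Fin k → Type} [∀ j, Fintype (b j)] {P : ∀ j, Eu κ →L[ℝ] Eu (b j)} {K : ℝ}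

/-- second moments of linear functionals -/
theorem lin_sq (hS : Sz F P K) (hG : Gx F G c M T B) (hk : 0 < k) {l : Fin k → ℝ}
    (hl : Lam F G l) (hI : NC.Iso F G) {S : Eu κ ≃L[ℝ] Eu κ}
    (hs : ∀ z, ‖S.symm z‖ ^ 2 = ∑ j, sg l M T j / k * ‖P j z‖ ^ 2) (h : Eu κ) {A : ℝ}
    (hA0 : 0 ≤ A) (hA : ∀ u, |⟪h, S u⟫_ℝ| ≤ A * ‖u‖) :
    ∫ x, ⟪h, x⟫_ℝ ^ 2 * den F G 0 x ≤ 8 * A ^ 2 * N F G 0 := by
  obtain ⟨a, ha⟩ := var_den hS hG hk hl hs (f := fun x => (innerSL ℝ h : Eu κ →L[ℝ] ℝ) x)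
    (ContinuousLinearMap.contDiff _) (A := A) (fun x => by
      rw [ContinuousLinearMap.fderiv]
      refine ContinuousLinearMap.opNorm_le_bound _ hA0 fun u => ?_
      rw [ContinuousLinearMap.comp_apply, Real.norm_eq_abs]
      exact hA u)
  refine le_trans ?_ ha
  exact int_sq_le hS.toFm hG (g := fun x => ⟪h, x⟫_ℝ) (by fun_prop) (by
    have := hI.mean h
    refine Eq.trans ?_ this
    refine integral_congr_ae (Eventually.of_forall fun x => ?_)
    simp only [real_inner_comm]) a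

/-- **the rates are bounded in isotropic position** -/
theorem S_upper (hS : Sz F P K) (hG : Gx F G c M T B) (hk : 0 < k) {l : Fin k → ℝ}
    (hl : Lam F G l) (hI : NC.Iso F G) {S : Eu κ ≃L[ℝ] Eu κ}
    (hs : ∀ z, ‖S.symm z‖ ^ 2 = ∑ j, sg l M T j / k * ‖P j z‖ ^ 2) (z : Eu κ) :
    ‖S.symm z‖ ^ 2 ≤ 8 * ‖z‖ ^ 2 := by
  obtain ⟨h, hh⟩ : ∃ h, h = ContinuousLinearMap.adjoint (S.symm : Eu κ →L[ℝ] Eu κ) (S.symm z) :=
    ⟨_, rfl⟩
  have hin : ∀ x, ⟪h, x⟫_ℝ = ⟪S.symm z, S.symm x⟫_ℝ := by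
    intro x
    rw [hh, ContinuousLinearMap.adjoint_inner_left]
    rfl
  have hN := N0_pos hS.toFm hG
  have h1 := lin_sq hS hG hk hl hI hs h (A := ‖S.symm z‖) (norm_nonneg _) (fun u => by
    rw [hin, ContinuousLinearEquiv.symm_apply_apply]
    exact abs_real_inner_le_norm _ _)
  have h2 : ‖h‖ ^ 2 ≤ 8 * ‖S.symm z‖ ^ 2 := by
    have h3 := hI.cov h
    have h4 : ∫ x, ⟪h, x⟫_ℝ ^ 2 * den F G 0 x = ‖h‖ ^ 2 * N F G 0 := by
      rw [← h3]
      refine integral_congr_ae (Eventually.of_forall fun x => ?_)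
      simp only [real_inner_comm]
    rw [h4] at h1
    exact le_of_mul_le_mul_right h1 hN
  have h3 : ‖S.symm z‖ ^ 2 ≤ ‖h‖ * ‖z‖ := by
    have h4 := hin z
    rw [real_inner_self_eq_norm_sq] at h4
    rw [← h4]
    exact real_inner_le_norm _ _
  rcases eq_or_lt_of_le (sq_nonneg ‖S.symm z‖) with h0 | h0
  · rw [← h0]
    positivity
  · have h4 := pow_le_pow_left₀ (sq_nonneg ‖S.symm z‖) h3 2
    rw [mul_pow] at h4
    have h5 : ‖S.symm z‖ ^ 2 * ‖S.symm z‖ ^ 2 ≤ ‖S.symm z‖ ^ 2 * (8 * ‖z‖ ^ 2) := by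
      have h6 := mul_le_mul_of_nonneg_right h2 (sq_nonneg ‖z‖)
      nlinarith
    exact le_of_mul_le_mul_left h5 h0

/-- the subspace of the linear parts -/
structure Ew (E : Submodule ℝ (Eu κ)) (F : Fin k → Eu κ → ℝ) (G : (Fin k → ℝ) → Eu κ → ℝ) :
    Prop where
  grad : ∀ v ∈ Eᗮ, ∀ j, ∫ x, fderiv ℝ (F j) x v * den F G 0 x = 0
  inv : ∀ v ∈ Eᗮ, ∀ s x, G s (x + v) = G s x

variable {E : Submodule ℝ (Eu κ)}

/-- the differences -/
def df (F : Fin k → Eu κ → ℝ) (v : Eu κ) (j : Fin k) (x : Eu κ) : ℝ := F j (x + v) - F j (x - v)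

theorem df_diff (hS : Sz F P K) (v : Eu κ) (j : Fin k) : ContDiff ℝ 1 (df F v j) := by
  have h := hS.diff j
  exact (h.comp (contDiff_id.add contDiff_const)).sub (h.comp (contDiff_id.sub contDiff_const))

theorem df_grad (hS : Sz F P K) (v : Eu κ) (j : Fin k) (x u : Eu κ) :
    |fderiv ℝ (df F v j) x u| ≤ 4 * K * ‖P j v‖ * ‖P j u‖ := by
  have hd : Differentiable ℝ (F j) := (hS.diff j).differentiable one_ne_zero
  have h1 : HasFDerivAt (fun x : Eu κ => F j (x + v)) (fderiv ℝ (F j) (x + v)) x := by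
    have h2 : HasFDerivAt (fun x : Eu κ => x + v) (ContinuousLinearMap.id ℝ (Eu κ)) x :=
      (hasFDerivAt_id x).add_const v
    exact (hd _).hasFDerivAt.comp x h2
  have h2 : HasFDerivAt (fun x : Eu κ => F j (x - v)) (fderiv ℝ (F j) (x - v)) x := by
    have h2 : HasFDerivAt (fun x : Eu κ => x - v) (ContinuousLinearMap.id ℝ (Eu κ)) x :=
      (hasFDerivAt_id x).sub_const v
    exact (hd _).hasFDerivAt.comp x h2
  have h3 : fderiv ℝ (df F v j) x = fderiv ℝ (F j) (x + v) - fderiv ℝ (F j) (x - v) :=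
    (h1.sub h2).fderiv
  have h4 := hS.lip j (x + v) (x - v) u
  have e : P j (x + v - (x - v)) = (2 : ℝ) • P j v := by
    rw [← map_smul]
    congr 1
    rw [two_smul]
    abel
  rw [e, norm_smul, Real.norm_eq_abs, abs_of_pos (by norm_num : (0 : ℝ) < 2)] at h4
  rw [h3]
  show |fderiv ℝ (F j) (x + v) u - fderiv ℝ (F j) (x - v) u| ≤ _
  refine h4.trans (le_of_eq ?_)
  ring

/-- the gradient inequality -/
theorem grad_le (hS : Sz F P K) (j : Fin k) (x v : Eu κ) :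
    F j x + fderiv ℝ (F j) x v ≤ F j (x + v) := by
  have hd : Differentiable ℝ (F j) := (hS.diff j).differentiable one_ne_zero
  obtain ⟨g, hg⟩ : ∃ g : ℝ → ℝ, g = fun t => F j (x + t • v) := ⟨_, rfl⟩
  have hc : ConvexOn ℝ univ g := by
    refine ⟨convex_univ, fun s _ t _ a b ha hb hab => ?_⟩
    rw [hg]
    show F j (x + (a • s + b • t) • v) ≤ a • F j (x + s • v) + b • F j (x + t • v)
    have e : x + (a • s + b • t) • v = a • (x + s • v) + b • (x + t • v) := by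
      have h : x = a • x + b • x := by rw [← add_smul, hab, one_smul]
      conv_lhs => rw [h]
      rw [smul_add, smul_add, add_smul, smul_assoc, smul_assoc]
      abel
    rw [e]
    exact (hS.conv j).2 (mem_univ _) (mem_univ _) ha hb hab
  have h1 : HasDerivAt g (fderiv ℝ (F j) x v) 0 := by
    have h2 : HasDerivAt (fun t : ℝ => x + t • v) v 0 := by
      have h3 : HasDerivAt (fun t : ℝ => t • v) ((1 : ℝ) • v) 0 :=
        (hasDerivAt_id (0 : ℝ)).smul_const v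
      rw [one_smul] at h3
      exact h3.const_add x
    have h3 : HasFDerivAt (F j) (fderiv ℝ (F j) x) (x + (0 : ℝ) • v) := by
      rw [zero_smul, add_zero]
      exact (hd x).hasFDerivAt
    rw [hg]
    exact h3.comp_hasDerivAt (0 : ℝ) h2
  have h2 := hc.le_slope_of_hasDerivAt (mem_univ 0) (mem_univ 1) one_pos h1
  rw [slope_def_field, sub_zero, div_one, hg] at h2
  simp only [one_smul, zero_smul, add_zero] at h2
  linarith

/-- the differences and the gradients -/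
theorem df_near (hS : Sz F P K) (v : Eu κ) (j : Fin k) (x : Eu κ) :
    |df F v j x - 2 * fderiv ℝ (F j) x v| ≤ 2 * K * ‖P j v‖ ^ 2 := by
  have h1 := grad_le hS j x v
  have h2 := grad_le hS j x (-v)
  rw [map_neg, ← sub_eq_add_neg x v] at h2
  have h3 := hS.smooth j x v
  unfold df
  rw [abs_le]
  constructor <;> linarith

/-- the good set -/
def gs (F : Fin k → Eu κ → ℝ) (P : ∀ j, Eu κ →L[ℝ] Eu (b j)) (K : ℝ) (l : Fin k → ℝ) (M T : ℝ)
    (v : Eu κ) : Set (Eu κ) :=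
  {x | ∀ j, |df F v j x| ≤ 1 / 4 / (k * sg l M T j) + 2 * K * ‖P j v‖ ^ 2}

theorem gs_meas (hS : Sz F P K) (l : Fin k → ℝ) (v : Eu κ) : MeasurableSet (gs F P K l M T v) := by
  have e : gs F P K l M T v =
      ⋂ j, {x | |df F v j x| ≤ 1 / 4 / (k * sg l M T j) + 2 * K * ‖P j v‖ ^ 2} := by
    ext x
    simp [gs]
  rw [e]
  refine MeasurableSet.iInter fun j => ?_
  exact (isClosed_le (df_diff hS v j).continuous.abs continuous_const).measurableSet

theorem gs_neg {l : Fin k → ℝ} {v x : Eu κ} (hx : x ∈ gs F P K l M T v) :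
    x ∈ gs F P K l M T (-v) := fun j => by
  have h : df F (-v) j x = -df F v j x := by
    unfold df
    rw [sub_neg_eq_add, ← sub_eq_add_neg]
    ring
  rw [h, abs_neg, map_neg, norm_neg]
  exact hx j

theorem gs_vol (hS : Sz F P K) (hG : Gx F G c M T B) (hk : 0 < k) {l : Fin k → ℝ}
    (hl : Lam F G l) (hE : Ew E F G) {S : Eu κ ≃L[ℝ] Eu κ}
    (hs : ∀ z, ‖S.symm z‖ ^ 2 = ∑ j, sg l M T j / k * ‖P j z‖ ^ 2)
    {η : ℝ} (hη : 0 ≤ η) (hη2 : 20480 * K ^ 2 * k ^ 5 * η ^ 2 ≤ 1) {v : Eu κ} (hvE : v ∈ Eᗮ)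
    (hv : ‖S.symm v‖ ≤ η) : 9 / 10 * N F G 0 ≤ (ms F G 0).real (gs F P K l M T v) := by
  have hF := hS.toFm
  have hk0 : (0 : ℝ) < k := Nat.cast_pos.2 hk
  have hK1 := hS.one_le
  have hK0 : 0 < K := by linarith
  have hV := N0_pos hF hG
  have := ms_fin hF hG 0
  -- the means
  obtain ⟨m, hm⟩ : ∃ m : Fin k → ℝ, m = fun j => (∫ x, df F v j x * den F G 0 x) / N F G 0 :=
    ⟨_, rfl⟩
  have hmb : ∀ j, |m j| ≤ 2 * K * ‖P j v‖ ^ 2 := by
    intro j
    have hdc := (df_diff hS v j).continuous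
    have hgc : Continuous fun x => fderiv ℝ (F j) x v :=
      ((hS.diff j).continuous_fderiv one_ne_zero).clm_apply continuous_const
    have i1 := int_cont hF hG 0 hdc
    have i2 := int_cont hF hG 0 hgc
    have h1 : ∫ x, df F v j x * den F G 0 x =
        ∫ x, (df F v j x - 2 * fderiv ℝ (F j) x v) * den F G 0 x := by
      have e : ∀ x, (df F v j x - 2 * fderiv ℝ (F j) x v) * den F G 0 x =
          df F v j x * den F G 0 x - 2 * (fderiv ℝ (F j) x v * den F G 0 x) := fun x => by ring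
      simp only [e]
      rw [integral_sub i1 (i2.const_mul 2), integral_const_mul, hE.grad v hvE j]
      ring
    have h2 : |∫ x, df F v j x * den F G 0 x| ≤ 2 * K * ‖P j v‖ ^ 2 * N F G 0 := by
      rw [h1, ← Real.norm_eq_abs]
      refine (norm_integral_le_integral_norm _).trans ?_
      have h3 : ∫ x, 2 * K * ‖P j v‖ ^ 2 * den F G 0 x = 2 * K * ‖P j v‖ ^ 2 * N F G 0 :=
        integral_const_mul _ _
      rw [← h3]
      refine integral_mono_of_nonneg (Eventually.of_forall fun x => norm_nonneg _)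
        ((den_int hF hG 0).const_mul _) (Eventually.of_forall fun x => ?_)
      show ‖(df F v j x - 2 * fderiv ℝ (F j) x v) * den F G 0 x‖ ≤
        2 * K * ‖P j v‖ ^ 2 * den F G 0 x
      rw [norm_mul, Real.norm_of_nonneg (den_nonneg hG 0 x), Real.norm_eq_abs]
      exact mul_le_mul_of_nonneg_right (df_near hS v j x) (den_nonneg hG 0 x)
    rw [hm, abs_div, abs_of_pos hV, div_le_iff₀ hV]
    exact h2
  set bad : Fin k → Set (Eu κ) := fun j =>
    {x | (1 / 4 / (k * sg l M T j)) ^ 2 ≤ (df F v j x - m j) ^ 2} with hbad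
  have hb : ∀ j, (ms F G 0).real (bad j) ≤ N F G 0 / (10 * k) := by
    intro j
    have h0 := sg_pos hl.nonneg hG.MT j
    have hdc := (df_diff hS v j).continuous
    have h2 := mul_meas_ge_le_integral_of_nonneg (μ := ms F G 0)
      (f := fun x => (df F v j x - m j) ^ 2) (Eventually.of_forall fun x => sq_nonneg _)
      (ms_int hF hG 0 (by fun_prop)) ((1 / 4 / (k * sg l M T j)) ^ 2)
    rw [ms_integral hF hG 0 (fun x => (df F v j x - m j) ^ 2)] at h2
    -- the variance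
    obtain ⟨a, ha⟩ := var_den hS hG hk hl hs (df_diff hS v j) (A := 4 * K * (k / sg l M T j * η))
      (fun x => by
        refine ContinuousLinearMap.opNorm_le_bound _ (by positivity) fun u => ?_
        rw [ContinuousLinearMap.comp_apply, Real.norm_eq_abs]
        refine (df_grad hS v j x (S u)).trans ?_
        have h3 := P_bound hl.nonneg hG.MT hk hs j v
        have h4 := P_bound hl.nonneg hG.MT hk hs j (S u)
        rw [ContinuousLinearEquiv.symm_apply_apply] at h4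
        have h5 : (‖P j v‖ * ‖P j (S u)‖) ^ 2 ≤ (k / sg l M T j * η * ‖u‖) ^ 2 := by
          rw [mul_pow]
          have h6 : ‖P j v‖ ^ 2 ≤ k / sg l M T j * η ^ 2 := h3.trans (by gcongr)
          calc ‖P j v‖ ^ 2 * ‖P j (S u)‖ ^ 2 ≤
                (k / sg l M T j * η ^ 2) * (k / sg l M T j * ‖u‖ ^ 2) :=
                mul_le_mul h6 h4 (sq_nonneg _) (by positivity)
            _ = _ := by ring
        have h7 := (abs_le_of_sq_le_sq' h5 (by positivity)).2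
        calc 4 * K * ‖P j v‖ * ‖P j (S u)‖ = 4 * K * (‖P j v‖ * ‖P j (S u)‖) := by ring
          _ ≤ 4 * K * (k / sg l M T j * η * ‖u‖) := by gcongr
          _ = _ := by ring)
    have h3 : ∫ x, (df F v j x - m j) ^ 2 * den F G 0 x ≤
        ∫ x, (df F v j x - a) ^ 2 * den F G 0 x := by
      have h4 := int_sq_le hF hG (g := fun x => df F v j x - m j) (by fun_prop) (by
        have e : ∀ x, (df F v j x - m j) * den F G 0 x =
            df F v j x * den F G 0 x - m j * den F G 0 x := fun x => by ring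
        simp only [e]
        rw [integral_sub (int_cont hF hG 0 hdc) ((den_int hF hG 0).const_mul _),
          integral_const_mul]
        have h5 : ∫ x, den F G 0 x = N F G 0 := rfl
        rw [h5, hm]
        field_simp
        ring) (a - m j)
      refine h4.trans (le_of_eq ?_)
      refine integral_congr_ae (Eventually.of_forall fun x => ?_)
      show (df F v j x - m j - (a - m j)) ^ 2 * den F G 0 x = _
      ring
    have h3' := h2.trans (h3.trans ha)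
    have h4 : (1 / 4 / (k * sg l M T j)) ^ 2 * (ms F G 0).real (bad j) ≤
        (1 / 4 / (k * sg l M T j)) ^ 2 * (2048 * K ^ 2 * k ^ 4 * η ^ 2 * N F G 0) := by
      refine h3'.trans (le_of_eq ?_)
      field_simp
      ring
    have h5 : (ms F G 0).real (bad j) ≤ 2048 * K ^ 2 * k ^ 4 * η ^ 2 * N F G 0 :=
      le_of_mul_le_mul_left h4 (by positivity)
    refine h5.trans ?_
    rw [le_div_iff₀ (by positivity)]
    calc 2048 * K ^ 2 * (k : ℝ) ^ 4 * η ^ 2 * N F G 0 * (10 * k) =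
          (20480 * K ^ 2 * k ^ 5 * η ^ 2) * N F G 0 := by ring
      _ ≤ 1 * N F G 0 := by gcongr
      _ = _ := one_mul _
  have hcov : univ ⊆ gs F P K l M T v ∪ ⋃ j, bad j := by
    intro x _
    by_cases h : ∀ j, |df F v j x| ≤ 1 / 4 / (k * sg l M T j) + 2 * K * ‖P j v‖ ^ 2
    · exact Or.inl h
    · right
      push Not at h
      obtain ⟨j, hj⟩ := h
      refine mem_iUnion.2 ⟨j, ?_⟩
      have h0 := sg_pos hl.nonneg hG.MT j
      have h2 : (0 : ℝ) ≤ 1 / 4 / (k * sg l M T j) := by positivity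
      have h5 : 1 / 4 / (k * sg l M T j) ≤ |df F v j x - m j| := by
        have h6 := abs_sub_abs_le_abs_sub (df F v j x) (m j)
        have h7 := hmb j
        linarith
      have h3 := pow_le_pow_left₀ h2 h5 2
      rw [sq_abs] at h3
      exact h3
  have h1 : N F G 0 ≤ (ms F G 0).real (gs F P K l M T v) + ∑ j, (ms F G 0).real (bad j) := by
    calc N F G 0 = (ms F G 0).real univ := (ms_univ hF hG 0).symm
      _ ≤ (ms F G 0).real (gs F P K l M T v ∪ ⋃ j, bad j) := measureReal_mono hcov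
      _ ≤ (ms F G 0).real (gs F P K l M T v) + (ms F G 0).real (⋃ j, bad j) :=
          measureReal_union_le _ _
      _ ≤ _ := by
          gcongr
          exact measureReal_iUnion_fintype_le _
  have h2 : ∑ j, (ms F G 0).real (bad j) ≤ ∑ _j : Fin k, N F G 0 / (10 * k) :=
    Finset.sum_le_sum fun j _ => hb j
  rw [Finset.sum_const, Finset.card_univ, Fintype.card_fin, nsmul_eq_mul] at h2
  have h3 : (k : ℝ) * (N F G 0 / (10 * k)) = N F G 0 / 10 := by field_simp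
  rw [h3] at h2
  linarith

/-- translates of good points -/
theorem gs_add (hS : Sz F P K) (hG : Gx F G c M T B) (hk : 0 < k) {l : Fin k → ℝ}
    (hl : ∀ j, 0 ≤ l j) (hE : Ew E F G) {S : Eu κ ≃L[ℝ] Eu κ}
    (hs : ∀ z, ‖S.symm z‖ ^ 2 = ∑ j, sg l M T j / k * ‖P j z‖ ^ 2)
    {η : ℝ} (hη2 : 20480 * K ^ 2 * k ^ 5 * η ^ 2 ≤ 1) {v : Eu κ} (hvE : v ∈ Eᗮ)
    (hv : ‖S.symm v‖ ≤ η) {x : Eu κ} (hx : x ∈ gs F P K l M T v) :
    den F G 0 x ≤ den F G (NC.dn k l M T) (x + v) := by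
  unfold den
  rw [hE.inv v hvE]
  refine hG.anti _ _ _ fun j => ?_
  have hk0 : (0 : ℝ) < k := Nat.cast_pos.2 hk
  have hk1 : (1 : ℝ) ≤ k := by exact_mod_cast hk
  have hK1 := hS.one_le
  have hK0 : 0 < K := by linarith
  have h0 := sg_pos hl hG.MT j
  have h4 := hx j
  have h5 := P_bound hl hG.MT hk hs j v
  have h6 : df F v j x ≤ 1 / 4 / (k * sg l M T j) + 2 * K * ‖P j v‖ ^ 2 :=
    (le_abs_self _).trans h4
  have h7 : 2 * K * ‖P j v‖ ^ 2 ≤ 1 / 8 / (k * sg l M T j) := by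
    have h8 : ‖P j v‖ ^ 2 ≤ k / sg l M T j * η ^ 2 := h5.trans (by gcongr)
    have h9 : 2 * K * ‖P j v‖ ^ 2 ≤ 2 * K * (k / sg l M T j * η ^ 2) := by gcongr
    refine h9.trans ?_
    rw [le_div_iff₀ (by positivity)]
    have e : 2 * K * (k / sg l M T j * η ^ 2) * (k * sg l M T j) = 2 * K * k ^ 2 * η ^ 2 := by
      field_simp
    rw [e]
    have h11 : (k : ℝ) ^ 2 ≤ k ^ 5 := pow_le_pow_right₀ hk1 (by norm_num)
    have h12 : 16 * K ≤ 20480 * K ^ 2 := by nlinarith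
    have h13 : 16 * K * (k : ℝ) ^ 2 ≤ 20480 * K ^ 2 * k ^ 5 :=
      mul_le_mul h12 h11 (by positivity) (by positivity)
    have h14 := mul_le_mul_of_nonneg_right h13 (sq_nonneg η)
    nlinarith
  have h8 := hS.smooth j x v
  show F j (x + v) + NC.dn k l M T j ≤ F j x + (0 : Fin k → ℝ) j
  rw [Pi.zero_apply]
  unfold NC.dn
  unfold df at h6
  have e1 : 1 / 4 / (k * sg l M T j) = 2 * (1 / 8 / (k * sg l M T j)) := by ring
  rw [e1] at h6 ⊢
  linarith

/-- **the directions orthogonal to the linear parts** -/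
theorem perp_bound (hS : Sz F P K) (hG : Gx F G c M T B) (hk : 0 < k) {l : Fin k → ℝ}
    (hl : Lam F G l) (hI : NC.Iso F G) (hE : Ew E F G) {S : Eu κ ≃L[ℝ] Eu κ}
    (hs : ∀ z, ‖S.symm z‖ ^ 2 = ∑ j, sg l M T j / k * ‖P j z‖ ^ 2)
    {η : ℝ} (hη : 0 ≤ η) (hη2 : 20480 * K ^ 2 * k ^ 5 * η ^ 2 ≤ 1) {v : Eu κ} (hvE : v ∈ Eᗮ)
    (hv : ‖S.symm v‖ ≤ η) : ‖v‖ ≤ 2 := by
  have hF := hS.toFm
  have hV := N0_pos hF hG
  have hf0 := ms_fin hF hG 0
  have hfd := ms_fin hF hG (NC.dn k l M T)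
  by_contra hcon
  push Not at hcon
  have hn0 : 0 < ‖v‖ := by linarith
  have hgood := gs_vol hS hG hk hl hE hs hη hη2 hvE hv
  obtain ⟨m, hm⟩ : ∃ m, m = ms F G 0 := ⟨_, rfl⟩
  obtain ⟨m', hm'⟩ : ∃ m', m' = ms F G (NC.dn k l M T) := ⟨_, rfl⟩
  rw [← hm] at hf0 hgood
  rw [← hm'] at hfd
  -- the slab
  obtain ⟨Q, hQ⟩ : ∃ Q : Set (Eu κ), Q = {x | |⟪x, v⟫_ℝ| ≤ 2 * ‖v‖} := ⟨_, rfl⟩
  have hQm : MeasurableSet Q := by
    rw [hQ]
    exact (isClosed_le (by fun_prop) continuous_const).measurableSet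
  have hQc : m.real Qᶜ ≤ N F G 0 / 4 := by
    have h9 := mul_meas_ge_le_integral_of_nonneg (μ := ms F G 0)
      (f := fun x : Eu κ => ⟪x, v⟫_ℝ ^ 2) (Eventually.of_forall fun x => sq_nonneg _)
      (ms_int hF hG 0 (by fun_prop)) ((2 * ‖v‖) ^ 2)
    rw [ms_integral hF hG 0 (fun x => ⟪x, v⟫_ℝ ^ 2), hI.cov, ← hm] at h9
    have h10 : m.real Qᶜ ≤ m.real {x : Eu κ | (2 * ‖v‖) ^ 2 ≤ ⟪x, v⟫_ℝ ^ 2} := by
      refine measureReal_mono fun x hx => ?_
      rw [hQ] at hx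
      have h11 : 2 * ‖v‖ < |⟪x, v⟫_ℝ| := not_le.1 hx
      have h12 := pow_le_pow_left₀ (by positivity) h11.le 2
      rw [sq_abs] at h12
      exact h12
    have h11 : (2 * ‖v‖) ^ 2 * m.real {x : Eu κ | (2 * ‖v‖) ^ 2 ≤ ⟪x, v⟫_ℝ ^ 2} ≤
        (2 * ‖v‖) ^ 2 * (N F G 0 / 4) := h9.trans (le_of_eq (by ring))
    exact h10.trans (le_of_mul_le_mul_left h11 (by positivity))
  obtain ⟨A, hA⟩ : ∃ A : Set (Eu κ), A = gs F P K l M T v ∩ Q := ⟨_, rfl⟩
  have hAm : MeasurableSet A := by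
    rw [hA]
    exact (gs_meas hS l v).inter hQm
  have hAv : 0.65 * N F G 0 ≤ m.real A := by
    have h1 : m.real (gs F P K l M T v) ≤ m.real A + m.real Qᶜ := by
      refine (measureReal_mono (fun x hx => ?_)).trans (measureReal_union_le _ _)
      by_cases h : x ∈ Q
      · exact Or.inl (by rw [hA]; exact ⟨hx, h⟩)
      · exact Or.inr h
    linarith
  -- translates
  have htr : ∀ w : Eu κ, w ∈ Eᗮ → ‖S.symm w‖ ≤ η → (∀ x ∈ A, x ∈ gs F P K l M T w) →
      m.real A ≤ m'.real {y | y - w ∈ A} := by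
    intro w hwE hw hAw
    have hm2 : MeasurableSet {y : Eu κ | y - w ∈ A} := hAm.preimage (measurable_sub_const w)
    have etr := integral_add_right_eq_self (μ := (volume : Measure (Eu κ)))
      ({y : Eu κ | y - w ∈ A}.indicator fun x => den F G (NC.dn k l M T) x) w
    rw [hm, hm', ms_apply hF hG _ hAm, ms_apply hF hG _ hm2,
      ← integral_indicator hAm, ← integral_indicator hm2, ← etr]
    refine integral_mono ((den_int hF hG _).indicator hAm)
      (((den_int hF hG _).indicator hm2).comp_add_right w) fun x => ?_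
    by_cases hx : x ∈ A
    · have hx2 : x + w ∈ {y : Eu κ | y - w ∈ A} := by
        show x + w - w ∈ A
        rwa [add_sub_cancel_right]
      rw [indicator_of_mem hx, indicator_of_mem hx2]
      exact gs_add hS hG hk hl.nonneg hE hs hη2 hwE hw (hAw x hx)
    · rw [indicator_of_notMem hx]
      exact indicator_nonneg (fun y _ => den_nonneg hG _ y) _
  have h1 := htr v hvE hv (fun x hx => by rw [hA] at hx; exact hx.1)
  have h2 := htr (-v) (Eᗮ.neg_mem hvE) (by rw [map_neg, norm_neg]; exact hv)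
    (fun x hx => by rw [hA] at hx; exact gs_neg hx.1)
  have hdis : Disjoint {y : Eu κ | y - v ∈ A} {y : Eu κ | y - -v ∈ A} := by
    rw [Set.disjoint_left]
    intro y hy hy'
    have h3 : y - v ∈ A := hy
    have h4 : y - -v ∈ A := hy'
    rw [hA, hQ] at h3 h4
    have h5 : |⟪y - v, v⟫_ℝ| ≤ 2 * ‖v‖ := h3.2
    have h6 : |⟪y - -v, v⟫_ℝ| ≤ 2 * ‖v‖ := h4.2
    rw [sub_neg_eq_add, inner_add_left, real_inner_self_eq_norm_sq] at h6
    rw [inner_sub_left, real_inner_self_eq_norm_sq] at h5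
    have h7 := (abs_le.1 h5).1
    have h8 := (abs_le.1 h6).2
    nlinarith
  have hm2 : MeasurableSet {y : Eu κ | y - -v ∈ A} := hAm.preimage (measurable_sub_const (-v))
  have h3 : m'.real {y : Eu κ | y - v ∈ A} + m'.real {y : Eu κ | y - -v ∈ A} ≤
      N F G (NC.dn k l M T) := by
    rw [← measureReal_union hdis hm2, ← ms_univ hF hG, ← hm']
    exact measureReal_mono (subset_univ _)
  have h4 := N_dn hF hG hk hl
  linarith

/-- the same with general vectors -/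
theorem perp_bound' (hS : Sz F P K) (hG : Gx F G c M T B) (hk : 0 < k) {l : Fin k → ℝ}
    (hl : Lam F G l) (hI : NC.Iso F G) (hE : Ew E F G) {S : Eu κ ≃L[ℝ] Eu κ}
    (hs : ∀ z, ‖S.symm z‖ ^ 2 = ∑ j, sg l M T j / k * ‖P j z‖ ^ 2)
    {v : Eu κ} (hvE : v ∈ Eᗮ) : ‖v‖ ^ 2 ≤ 81920 * K ^ 2 * k ^ 5 * ‖S.symm v‖ ^ 2 := by
  have hk0 : (0 : ℝ) < k := Nat.cast_pos.2 hk
  have hK1 := hS.one_le
  have hK0 : 0 < K := by linarith
  by_cases hv0 : v = 0
  · subst hv0
    simp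
  have hvn : 0 < ‖v‖ := norm_pos_iff.2 hv0
  have hSv : 0 < ‖S.symm v‖ := norm_pos_iff.2 fun h => hv0 (by
    have := congrArg S h
    rwa [ContinuousLinearEquiv.apply_symm_apply, map_zero] at this)
  obtain ⟨A, hA⟩ : ∃ A : ℝ, A = 20480 * K ^ 2 * k ^ 5 := ⟨_, rfl⟩
  have hA0 : 0 < A := by rw [hA]; positivity
  obtain ⟨η, hη⟩ : ∃ η : ℝ, η = 1 / Real.sqrt A := ⟨_, rfl⟩
  have hη0 : 0 < η := by rw [hη]; positivity
  have hη2 : A * η ^ 2 = 1 := by
    rw [hη, div_pow, Real.sq_sqrt hA0.le, one_pow]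
    field_simp
  have h1 := perp_bound hS hG hk hl hI hE hs hη0.le (by rw [← hA]; exact hη2.le)
    (v := (η / ‖S.symm v‖) • v) (Eᗮ.smul_mem _ hvE) (by
      rw [map_smul, norm_smul, Real.norm_eq_abs, abs_of_pos (by positivity)]
      refine le_of_eq ?_
      field_simp)
  rw [norm_smul, Real.norm_eq_abs, abs_of_pos (by positivity)] at h1
  have h2 := pow_le_pow_left₀ (by positivity) h1 2
  rw [mul_pow, div_pow] at h2
  have h3 : η ^ 2 * ‖v‖ ^ 2 ≤ 4 * ‖S.symm v‖ ^ 2 := by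
    have h4 := mul_le_mul_of_nonneg_right h2 (sq_nonneg ‖S.symm v‖)
    have e : η ^ 2 / ‖S.symm v‖ ^ 2 * ‖v‖ ^ 2 * ‖S.symm v‖ ^ 2 = η ^ 2 * ‖v‖ ^ 2 := by
      field_simp
    rw [e] at h4
    norm_num at h4
    exact h4
  have h4 := mul_le_mul_of_nonneg_left h3 hA0.le
  have e : A * (η ^ 2 * ‖v‖ ^ 2) = ‖v‖ ^ 2 := by rw [← mul_assoc, hη2, one_mul]
  rw [e] at h4
  refine h4.trans (le_of_eq ?_)
  rw [hA]
  ring

/-- **the norm of the change of coordinates** -/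
theorem S_norm (hS : Sz F P K) (hG : Gx F G c M T B) (hk : 0 < k) {l : Fin k → ℝ}
    (hl : Lam F G l) (hI : NC.Iso F G) (hE : Ew E F G) {m : ℕ} (hm : 0 < m) {S : Eu κ ≃L[ℝ] Eu κ}
    (hs : ∀ z, ‖S.symm z‖ ^ 2 = ∑ j, sg l M T j / k * ‖P j z‖ ^ 2 +
      2 * (1 / (1920 * m)) * ‖E.starProjection z‖ ^ 2) (u : Eu κ) :
    ‖S u‖ ^ 2 ≤ 1400000000 * K ^ 2 * k ^ 5 * m * ‖u‖ ^ 2 := by
  have hk0 : (0 : ℝ) < k := Nat.cast_pos.2 hk
  have hk1 : (1 : ℝ) ≤ k := by exact_mod_cast hk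
  have hm0 : (0 : ℝ) < m := Nat.cast_pos.2 hm
  have hm1 : (1 : ℝ) ≤ m := by exact_mod_cast hm
  have hK1 := hS.one_le
  have hK0 : 0 < K := by linarith
  obtain ⟨S0, hs0⟩ := exists_S hS hk (sg_pos hl.nonneg hG.MT) le_rfl (0 : Eu κ →L[ℝ] Eu κ)
  have hs0' : ∀ z, ‖S0.symm z‖ ^ 2 = ∑ j, sg l M T j / k * ‖P j z‖ ^ 2 := fun z => by
    rw [hs0]
    ring
  obtain ⟨z, hz⟩ : ∃ z, z = S u := ⟨_, rfl⟩
  obtain ⟨z1, hz1⟩ : ∃ z1, z1 = E.starProjection z := ⟨_, rfl⟩
  obtain ⟨X, hX⟩ : ∃ X, X = ‖u‖ ^ 2 := ⟨_, rfl⟩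
  have hu : ‖S.symm z‖ ^ 2 = X := by rw [hz, ContinuousLinearEquiv.symm_apply_apply, hX]
  have h1 := hs z
  rw [hu, ← hs0' z, ← hz1] at h1
  have h2E : z - z1 ∈ Eᗮ := by rw [hz1]; exact E.sub_starProjection_mem_orthogonal z
  have h3 := perp_bound' hS hG hk hl hI hE hs0' h2E
  have h4 := S_upper hS hG hk hl hI hs0' z1
  have h5 : ‖z‖ ^ 2 = ‖z1‖ ^ 2 + ‖z - z1‖ ^ 2 := by
    have h6 := E.starProjection_inner_eq_zero z z1 (by rw [hz1]; exact E.starProjection_apply_mem z)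
    rw [← hz1] at h6
    have e : z = z1 + (z - z1) := by abel
    conv_lhs => rw [e]
    rw [norm_add_sq_real, real_inner_comm, h6]
    ring
  have hz1b : ‖z1‖ ^ 2 ≤ 960 * m * X := by
    have h7 : 2 * (1 / (1920 * m)) * ‖z1‖ ^ 2 ≤ X := by
      rw [h1]
      have := sq_nonneg ‖S0.symm z‖
      linarith
    have h8 := mul_le_mul_of_nonneg_left h7 (by positivity : (0 : ℝ) ≤ 960 * m)
    have e : 960 * (m : ℝ) * (2 * (1 / (1920 * m)) * ‖z1‖ ^ 2) = ‖z1‖ ^ 2 := by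
      field_simp
      ring
    rwa [e] at h8
  have hz0b : ‖S0.symm z‖ ^ 2 ≤ X := by
    rw [h1]
    have : 0 ≤ 2 * (1 / (1920 * (m : ℝ))) * ‖z1‖ ^ 2 := by positivity
    linarith
  have h6 : ‖S0.symm (z - z1)‖ ^ 2 ≤ 2 * ‖S0.symm z‖ ^ 2 + 2 * ‖S0.symm z1‖ ^ 2 := by
    rw [map_sub]
    have h7 := norm_sub_le (S0.symm z) (S0.symm z1)
    have h8 := pow_le_pow_left₀ (norm_nonneg _) h7 2
    nlinarith [sq_nonneg (‖S0.symm z‖ - ‖S0.symm z1‖)]
  have hX0 : 0 ≤ X := by rw [hX]; positivity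
  have h7 : ‖S0.symm (z - z1)‖ ^ 2 ≤ 15362 * m * X := by
    have h8 : ‖S0.symm (z - z1)‖ ^ 2 ≤ 2 * X + 2 * (8 * (960 * m * X)) := by linarith
    have h9 : X ≤ m * X := le_mul_of_one_le_left hX0 hm1
    nlinarith
  have h8 : 81920 * K ^ 2 * (k : ℝ) ^ 5 * ‖S0.symm (z - z1)‖ ^ 2 ≤
      81920 * K ^ 2 * k ^ 5 * (15362 * m * X) := by
    gcongr
  have h9 : (1 : ℝ) ≤ K ^ 2 * k ^ 5 := one_le_mul_of_one_le_of_one_le (one_le_pow₀ hK1)
    (one_le_pow₀ hk1)
  have h10 : 0 ≤ (m : ℝ) * X := by positivity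
  have h11 : (m : ℝ) * X ≤ K ^ 2 * k ^ 5 * (m * X) := le_mul_of_one_le_left h10 h9
  rw [← hz, ← hX, h5]
  nlinarith

end Pool.Agent.H776.ND
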