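import Pool.Agent.H776.ND3

/-!
# Log-concave densities of few convex functions and linear functionals, IV: general position
-/

set_option autoImplicit false

namespace Pool.Agent.H776.ND

open MeasureTheory Set Filter Topology
open scoped ENNReal InnerProductSpace
open Pool.Agent.H776.FE (lev exists_sqrt)
open Pool.Agent.H776.NC

section affine

variable {κ : Type} [Fintype κ] {k : ℕ}
variable {F : Fin k → Eu κ → ℝ} {G : (Fin k → ℝ) → Eu κ → ℝ} {c M T B : ℝ}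
variable {b : Fin k → Type} [∀ j, Fintype (b j)] {P : ∀ j, Eu κ →L[ℝ] Eu (b j)} {K : ℝ}

theorem sz_q (hS : Sz F P K) (Q : Eu κ ≃L[ℝ] Eu κ) (x0 : Eu κ) :
    Sz (Fq F Q x0) (Pq P Q) K := by
  have hd : ∀ j, Differentiable ℝ (F j) := fun j => (hS.diff j).differentiable one_ne_zero
  have hfd : ∀ j x, fderiv ℝ (Fq F Q x0 j) x =
      (fderiv ℝ (F j) (Q x + x0)).comp (Q : Eu κ →L[ℝ] Eu κ) := by
    intro j x
    have h2 : HasFDerivAt (fun y => Q y + x0) (Q : Eu κ →L[ℝ] Eu κ) x := Q.hasFDerivAt.add_const x0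
    exact ((hd j _).hasFDerivAt.comp x h2).fderiv
  refine
    { cont := fun j => (hS.cont j).comp (by fun_prop)
      conv := fun j => ⟨convex_univ, fun x _ y _ a b ha hb hab => ?_⟩
      bdd := fun s => ?_
      one_le := hS.one_le
      diff := fun j => (hS.diff j).comp (Q.contDiff.add contDiff_const)
      strong := fun j x y => ?_
      smooth := fun j x v => ?_
      lip := fun j x y u => ?_
      inj := fun z hz => ?_ }
  · show F j (Q (a • x + b • y) + x0) ≤ _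
    rw [aff_comb Q x0 x y hab]
    exact (hS.conv j).2 (mem_univ _) (mem_univ _) ha hb hab
  · obtain ⟨R, hR⟩ := (hS.bdd s).exists_norm_le
    refine isBounded_iff_forall_norm_le.2 ⟨‖(Q.symm : Eu κ →L[ℝ] Eu κ)‖ * (R + ‖x0‖),
      fun y hy => ?_⟩
    have h1 : Q y + x0 ∈ lev F s := hy
    have h2 := hR _ h1
    have h3 : y = (Q.symm : Eu κ →L[ℝ] Eu κ) ((Q y + x0) - x0) := by
      rw [add_sub_cancel_right]
      exact (Q.symm_apply_apply y).symm
    rw [h3]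
    refine ((Q.symm : Eu κ →L[ℝ] Eu κ).le_opNorm _).trans ?_
    have h4 := norm_sub_le (Q y + x0) x0
    exact mul_le_mul_of_nonneg_left (by linarith) (norm_nonneg _)
  · have h1 := hS.strong j (Q x + x0) (Q y + x0)
    have e1 : (1 / 2 : ℝ) • (Q x + x0 + (Q y + x0)) = Q ((1 / 2 : ℝ) • (x + y)) + x0 := by
      rw [smul_add (1 / 2 : ℝ) x y, aff_comb Q x0 x y (by norm_num),
        smul_add (1 / 2 : ℝ) (Q x + x0)]
    have e2 : Q x + x0 - (Q y + x0) = Q (x - y) := by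
      rw [map_sub]
      abel
    rw [e1, e2] at h1
    exact h1
  · have h1 := hS.smooth j (Q x + x0) (Q v)
    have e1 : Q x + x0 + Q v = Q (x + v) + x0 := by
      rw [map_add]
      abel
    have e2 : Q x + x0 - Q v = Q (x - v) + x0 := by
      rw [map_sub]
      abel
    rw [e1, e2] at h1
    exact h1
  · rw [hfd, hfd]
    have h1 := hS.lip j (Q x + x0) (Q y + x0) (Q u)
    have e2 : Q x + x0 - (Q y + x0) = Q (x - y) := by
      rw [map_sub]
      abel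
    rw [e2] at h1
    exact h1
  · have h1 := hS.inj (Q z) hz
    have h2 := congrArg Q.symm h1
    rwa [Q.symm_apply_apply, map_zero] at h2

end affine

/-- **the inequality of Kannan, Lovasz and Simonovits for densities of bounded support** -/
theorem kp_bdd : ∃ C : ℝ, 0 < C ∧ ∀ (n k d : ℕ) (F : Fin k → Eu (Fin n) → ℝ)
    (G : (Fin k → ℝ) → Eu (Fin n) → ℝ) (c M T B : ℝ) (b : Fin k → Type) [∀ j, Fintype (b j)]
    (P : ∀ j, Eu (Fin n) →L[ℝ] Eu (b j)) (K : ℝ)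
    (L : Eu (Fin n) →L[ℝ] Eu (Fin d)), Sz F P K → Gx F G c M T B → 0 < k →
    (∀ v, L v = 0 → ∀ s x, G s (x + v) = G s x) →
    KP (nm (den F G 0)) (C * K ^ 2 * k ^ 5 * ((k + d : ℕ) : ℝ)) := by
  obtain ⟨C, hC, H⟩ := poi_iso
  refine ⟨C, hC, ?_⟩
  intro n k d F G c M T B b _ P K L hS hG hk hL s hs0 hcov f Bf Lf hf
  have hF := hS.toFm
  have hZ := N0_pos hF hG
  have hwt := wt_den hF hG
  have hp := hwt.prob
  have hnm : ∀ φ : Eu (Fin n) → ℝ, ∫ x, φ x ∂(nm (den F G 0)) =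
      (∫ x, φ x * den F G 0 x) / N F G 0 := fun φ =>
    integral_nm (den_nonneg hG 0) (den_meas hF hG 0) φ
  have hadm : Pool.Agent.Y506.RG.Adm (den F G 0) := ⟨hwt.nonneg, hwt.mom, hwt.pos, hwt.meas⟩
  obtain ⟨A, hA⟩ := Pool.Agent.Y211.PV.iso n (den F G 0) hadm
  -- the integral formulas
  have hVW : ∀ v : Eu (Fin n) → ℝ, Pool.Agent.Y506.RG.VW (den F G 0) v =
      ∫ x, v x ^ 2 ∂(nm (den F G 0)) - (∫ x, v x ∂(nm (den F G 0))) ^ 2 := by
    intro v
    rw [hnm, hnm]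
    rfl
  simp only [hVW] at hA
  -- the centre
  obtain ⟨x0, hx0⟩ : ∃ x0 : Eu (Fin n), ∀ θ, ∫ x, ⟪x, θ⟫_ℝ ∂(nm (den F G 0)) = ⟪x0, θ⟫_ℝ := by
    refine ⟨WithLp.toLp 2 fun i => ∫ x, x i ∂(nm (den F G 0)), fun θ => ?_⟩
    have e1 : ∀ x : Eu (Fin n), ⟪x, θ⟫_ℝ = ∑ i, θ i * x i := fun x => by
      rw [PiLp.inner_apply]
      simp
    simp only [e1]
    rw [integral_finsetSum _ fun i _ => ((grow_coord1 i).integrable hwt.int_sq).const_mul _]
    exact Finset.sum_congr rfl fun i _ => integral_const_mul _ _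
  obtain ⟨Q, hQ⟩ : ∃ Q : Eu (Fin n) ≃L[ℝ] Eu (Fin n), Q = A.symm := ⟨_, rfl⟩
  have hAQ : ∀ y, A (Q y) = y := fun y => by rw [hQ]; exact A.apply_symm_apply y
  have hQA : ∀ y, Q (A y) = y := fun y => by rw [hQ]; exact A.symm_apply_apply y
  obtain ⟨a, ha, hcv⟩ := NC.cv Q x0
  have hS' := sz_q hS Q x0
  have hG' := gx_q hG Q x0
  have hN' : N (Fq F Q x0) (Gq G Q x0) 0 = a * N F G 0 := hcv fun x => den F G 0 x
  have hi : ∀ φ : Eu (Fin n) → ℝ, ∫ y, φ y * den (Fq F Q x0) (Gq G Q x0) 0 y =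
      a * ∫ x, φ (A (x - x0)) * den F G 0 x := by
    intro φ
    rw [← hcv fun x => φ (A (x - x0)) * den F G 0 x]
    refine integral_congr_ae (Eventually.of_forall fun y => ?_)
    show φ y * den (Fq F Q x0) (Gq G Q x0) 0 y =
      φ (A (Q y + x0 - x0)) * den F G 0 (Q y + x0)
    rw [add_sub_cancel_right, hAQ]
    rfl
  have hnm' : ∀ φ : Eu (Fin n) → ℝ, ∫ y, φ y ∂(nm (den (Fq F Q x0) (Gq G Q x0) 0)) =
      ∫ x, φ (A (x - x0)) ∂(nm (den F G 0)) := by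
    intro φ
    rw [integral_nm (den_nonneg hG' 0) (den_meas hS'.toFm hG' 0) φ, hnm, hi]
    show _ / N (Fq F Q x0) (Gq G Q x0) 0 = _
    rw [hN']
    field_simp
  have hadj : ∀ x θ : Eu (Fin n), ⟪A x, θ⟫_ℝ =
      ⟪x, ContinuousLinearMap.adjoint (A : Eu (Fin n) →L[ℝ] Eu (Fin n)) θ⟫_ℝ := fun x θ => by
    rw [ContinuousLinearMap.adjoint_inner_right]
    rfl
  have hmA : ∀ θ, ∫ x, ⟪A x, θ⟫_ℝ ∂(nm (den F G 0)) = ⟪A x0, θ⟫_ℝ := fun θ => by
    simp only [hadj]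
    exact hx0 _
  have hI : NC.Iso (Fq F Q x0) (Gq G Q x0) := by
    have i1 : ∀ θ, Integrable (fun x => ⟪A x, θ⟫_ℝ) (nm (den F G 0)) := fun θ => by
      simp only [hadj]
      exact (grow_inner _).integrable hwt.int_sq
    have i2 : ∀ θ, Integrable (fun x => ⟪A x, θ⟫_ℝ ^ 2) (nm (den F G 0)) := fun θ => by
      simp only [hadj]
      exact (grow_inner_sq _).integrable hwt.int_sq
    refine ⟨fun θ => ?_, fun θ => ?_⟩
    · have h1 := hnm' fun y => ⟪y, θ⟫_ℝ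
      rw [integral_nm (den_nonneg hG' 0) (den_meas hS'.toFm hG' 0)] at h1
      have h2 : ∫ x, ⟪A (x - x0), θ⟫_ℝ ∂(nm (den F G 0)) = 0 := by
        simp only [map_sub, inner_sub_left]
        rw [integral_sub (i1 θ) (integrable_const _), hmA, integral_const, probReal_univ,
          one_smul, sub_self]
      rw [h2] at h1
      have h3 : N (Fq F Q x0) (Gq G Q x0) 0 ≠ 0 := (N0_pos hS'.toFm hG').ne'
      rcases div_eq_zero_iff.1 h1 with h4 | h4
      · exact h4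
      · exact absurd h4 h3
    · have h1 := hnm' fun y => ⟪y, θ⟫_ℝ ^ 2
      rw [integral_nm (den_nonneg hG' 0) (den_meas hS'.toFm hG' 0)] at h1
      have h2 : ∫ x, ⟪A (x - x0), θ⟫_ℝ ^ 2 ∂(nm (den F G 0)) = ‖θ‖ ^ 2 := by
        rw [← hA θ]
        have e : ∀ x, ⟪A (x - x0), θ⟫_ℝ ^ 2 =
            (⟪A x, θ⟫_ℝ ^ 2 - 2 * ⟪A x0, θ⟫_ℝ * ⟪A x, θ⟫_ℝ) + ⟪A x0, θ⟫_ℝ ^ 2 := fun x => by
          rw [map_sub, inner_sub_left]
          ring
        simp only [e]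
        have i4 : Integrable (fun x => ⟪A x, θ⟫_ℝ ^ 2 - 2 * ⟪A x0, θ⟫_ℝ * ⟪A x, θ⟫_ℝ)
            (nm (den F G 0)) := (i2 θ).sub ((i1 θ).const_mul _)
        rw [integral_add i4 (integrable_const _),
          integral_sub (i2 θ) ((i1 θ).const_mul _), integral_const_mul, hmA, integral_const,
          probReal_univ, one_smul]
        ring
      rw [h2] at h1
      have h3 : 0 < N (Fq F Q x0) (Gq G Q x0) 0 := N0_pos hS'.toFm hG'
      have h4 : ∫ x, den (Fq F Q x0) (Gq G Q x0) 0 x = N (Fq F Q x0) (Gq G Q x0) 0 := rfl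
      rw [h4, div_eq_iff h3.ne'] at h1
      exact h1
  -- the subspace
  obtain ⟨L', hL'⟩ : ∃ L' : Eu (Fin n) →L[ℝ] Eu (Fin d),
    L' = L.comp (Q : Eu (Fin n) →L[ℝ] Eu (Fin n)) := ⟨_, rfl⟩
  have hgc : ∀ j v, Integrable (fun x => fderiv ℝ (Fq F Q x0 j) x v *
      den (Fq F Q x0) (Gq G Q x0) 0 x) := fun j v =>
    int_cont hS'.toFm hG' 0 (((hS'.diff j).continuous_fderiv one_ne_zero).clm_apply
      continuous_const)
  let ℓ : Fin k → (Eu (Fin n) →ₗ[ℝ] ℝ) := fun j =>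
    { toFun := fun v => ∫ x, fderiv ℝ (Fq F Q x0 j) x v * den (Fq F Q x0) (Gq G Q x0) 0 x
      map_add' := fun v w => by
        rw [← integral_add (hgc j v) (hgc j w)]
        refine integral_congr_ae (Eventually.of_forall fun x => ?_)
        show fderiv ℝ (Fq F Q x0 j) x (v + w) * den (Fq F Q x0) (Gq G Q x0) 0 x = _
        rw [map_add]
        ring
      map_smul' := fun a v => by
        simp only [map_smul, smul_eq_mul, RingHom.id_apply]
        rw [← integral_const_mul]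
        refine integral_congr_ae (Eventually.of_forall fun x => ?_)
        show a * fderiv ℝ (Fq F Q x0 j) x v * den (Fq F Q x0) (Gq G Q x0) 0 x = _
        ring }
  obtain ⟨Λ, hΛ⟩ : ∃ Λ : Eu (Fin n) →ₗ[ℝ] Eu (Fin d) × (Fin k → ℝ),
    Λ = (L' : Eu (Fin n) →ₗ[ℝ] Eu (Fin d)).prod (LinearMap.pi ℓ) := ⟨_, rfl⟩
  obtain ⟨V, hV⟩ : ∃ V : Submodule ℝ (Eu (Fin n)), V = LinearMap.ker Λ := ⟨_, rfl⟩
  obtain ⟨E, hEd⟩ : ∃ E : Submodule ℝ (Eu (Fin n)), E = Vᗮ := ⟨_, rfl⟩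
  have hmemV : ∀ v ∈ Eᗮ, L (Q v) = 0 ∧ ∀ j, ℓ j v = 0 := by
    intro v hv
    rw [hEd, Submodule.orthogonal_orthogonal, hV, LinearMap.mem_ker, hΛ] at hv
    have hv1 : L' v = 0 := congrArg Prod.fst hv
    have hv2 : LinearMap.pi ℓ v = 0 := congrArg Prod.snd hv
    refine ⟨?_, fun j => ?_⟩
    · rw [hL'] at hv1
      exact hv1
    · exact congrFun hv2 j
  have hE : Ew E (Fq F Q x0) (Gq G Q x0) := by
    refine ⟨fun v hv j => (hmemV v hv).2 j, fun v hv t x => ?_⟩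
    have h2 := (hmemV v hv).1
    show G t (Q (x + v) + x0) = G t (Q x + x0)
    have e : Q (x + v) + x0 = (Q x + x0) + Q v := by
      rw [map_add]
      abel
    rw [e, hL _ h2]
  have hfr : Module.finrank ℝ E ≤ k + d := by
    have h3 := Submodule.finrank_add_finrank_orthogonal V
    have h4 := LinearMap.finrank_range_add_finrank_ker Λ
    rw [← hV] at h4
    have h5 := Submodule.finrank_le (LinearMap.range Λ)
    rw [Module.finrank_prod, finrank_euclideanSpace, Fintype.card_fin, Module.finrank_fin_fun] at h5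
    rw [hEd]
    omega
  -- the norm of `Q`
  have hQn : ‖(Q : Eu (Fin n) →L[ℝ] Eu (Fin n))‖ ≤ Real.sqrt s := by
    rw [← LinearIsometryEquiv.norm_map (ContinuousLinearMap.adjoint :
      (Eu (Fin n) →L[ℝ] Eu (Fin n)) ≃ₗᵢ⋆[ℝ] (Eu (Fin n) →L[ℝ] Eu (Fin n)))]
    refine ContinuousLinearMap.opNorm_le_bound _ (Real.sqrt_nonneg _) fun θ => ?_
    obtain ⟨θ', hθ'⟩ : ∃ θ', θ' = ContinuousLinearMap.adjoint
      (Q : Eu (Fin n) →L[ℝ] Eu (Fin n)) θ := ⟨_, rfl⟩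
    have h1 := hA θ'
    have h2 : ∀ x, ⟪A x, θ'⟫_ℝ = ⟪x, θ⟫_ℝ := fun x => by
      rw [hθ', ContinuousLinearMap.adjoint_inner_right]
      show ⟪Q (A x), θ⟫_ℝ = _
      rw [hQA]
    simp only [h2] at h1
    have h3 : ∫ x, ⟪x, θ⟫_ℝ ^ 2 ∂(nm (den F G 0)) - (∫ x, ⟪x, θ⟫_ℝ ∂(nm (den F G 0))) ^ 2 ≤
        s * ‖θ‖ ^ 2 := by
      by_cases hθ : θ = 0
      · subst hθ
        simp
      have hn : 0 < ‖θ‖ := norm_pos_iff.2 hθ
      have h2 := hcov (‖θ‖⁻¹ • θ) (by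
        rw [norm_smul, norm_inv, norm_norm, inv_mul_cancel₀ hn.ne'])
      rw [var_eq hwt.int_sq] at h2
      simp only [inner_smul_right, mul_pow] at h2
      rw [integral_const_mul, integral_const_mul, mul_pow, ← mul_sub] at h2
      have h4 := mul_le_mul_of_nonneg_left h2 (sq_nonneg ‖θ‖)
      rw [← mul_assoc, ← mul_pow, mul_inv_cancel₀ hn.ne', one_pow, one_mul] at h4
      linarith
    rw [h1] at h3
    rw [← hθ']
    have h4 : ‖θ'‖ ^ 2 ≤ (Real.sqrt s * ‖θ‖) ^ 2 := by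
      rw [mul_pow, Real.sq_sqrt hs0.le]
      exact h3
    exact (abs_le_of_sq_le_sq' h4 (by positivity)).2
  -- the function
  have hfd : ContDiff ℝ 1 fun y => f (Q y + x0) :=
    hf.diff.comp (Q.contDiff.add contDiff_const)
  have h1 := H (Fin n) k _ _ c M T B b _ K E (k + d) hS' hG' hk hI hE (by omega) hfr _ hfd
  rw [hnm' (fun y => f (Q y + x0) ^ 2), hnm' (fun y => f (Q y + x0)),
    hnm' (fun y => ‖fderiv ℝ (fun y => f (Q y + x0)) y‖ ^ 2)] at h1
  have e1 : ∀ x, Q (A (x - x0)) + x0 = x := fun x => by rw [hQA, sub_add_cancel]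
  simp only [e1] at h1
  have hgr : ∀ x, ‖fderiv ℝ (fun y => f (Q y + x0)) (A (x - x0))‖ ^ 2 ≤
      s * ‖fderiv ℝ f x‖ ^ 2 := by
    intro x
    have h2 : HasFDerivAt (fun y => Q y + x0) (Q : Eu (Fin n) →L[ℝ] Eu (Fin n)) (A (x - x0)) :=
      Q.hasFDerivAt.add_const x0
    have h3 : HasFDerivAt f (fderiv ℝ f (Q (A (x - x0)) + x0)) (Q (A (x - x0)) + x0) :=
      ((hf.diff.differentiable one_ne_zero) _).hasFDerivAt
    have h4 := (h3.comp (A (x - x0)) h2).fderiv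
    rw [e1] at h4
    have h5 : fderiv ℝ (fun y => f (Q y + x0)) (A (x - x0)) =
        (fderiv ℝ f x).comp (Q : Eu (Fin n) →L[ℝ] Eu (Fin n)) := h4
    rw [h5]
    have h6 := (ContinuousLinearMap.opNorm_comp_le (fderiv ℝ f x)
      (Q : Eu (Fin n) →L[ℝ] Eu (Fin n))).trans
      (mul_le_mul_of_nonneg_left hQn (norm_nonneg (fderiv ℝ f x)))
    have h7 := pow_le_pow_left₀ (norm_nonneg _) h6 2
    rw [mul_pow, Real.sq_sqrt hs0.le] at h7
    linarith
  have hgi : Integrable (fun x => s * ‖fderiv ℝ f x‖ ^ 2) (nm (den F G 0)) := by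
    refine Integrable.const_mul ?_ _
    refine (grow_bdd (B := Lf ^ 2) ?_ fun x => ?_).integrable hwt.int_sq
    · exact ((hf.diff.continuous_fderiv one_ne_zero).norm).pow 2
    · rw [abs_of_nonneg (sq_nonneg _)]
      exact pow_le_pow_left₀ (norm_nonneg _) (hf.grad x) 2
  have h2 : ∫ x, ‖fderiv ℝ (fun y => f (Q y + x0)) (A (x - x0))‖ ^ 2 ∂(nm (den F G 0)) ≤
      s * ∫ x, ‖fderiv ℝ f x‖ ^ 2 ∂(nm (den F G 0)) := by
    rw [← integral_const_mul]
    exact integral_mono_of_nonneg (Eventually.of_forall fun x => sq_nonneg _) hgi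
      (Eventually.of_forall hgr)
  have h3 := mul_le_mul_of_nonneg_left h2 (by positivity : 0 ≤ C * K ^ 2 * (k : ℝ) ^ 5 * ((k + d : ℕ) : ℝ))
  refine (h1.trans h3).trans (le_of_eq ?_)
  ring

end Pool.Agent.H776.ND
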