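import Pool.Agent.H776.ND4

/-!
# Log-concave densities of few convex functions and linear functionals, V: unbounded supports
-/

set_option autoImplicit false

namespace Pool.Agent.H776.ND

open MeasureTheory Set Filter Topology
open scoped ENNReal InnerProductSpace
open Pool.Agent.H776.FE (lev exists_ub)
open Pool.Agent.H776.NC
open Q289.LD (Den)

section prof

variable {W : Type} [NormedAddCommGroup W] [InnerProductSpace ℝ W]

/-- uniformly convex and uniformly smooth functions -/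
structure Prf (ψ : W → ℝ) (K : ℝ) : Prop where
  diff : ContDiff ℝ 1 ψ
  conv : ConvexOn ℝ univ fun y => ψ y - ‖y‖ ^ 2
  lip : ∀ y z, ‖fderiv ℝ ψ y - fderiv ℝ ψ z‖ ≤ 2 * K * ‖y - z‖

variable {ψ : W → ℝ} {K : ℝ}

theorem Prf.mid (h : Prf ψ K) (y z : W) :
    ψ ((1 / 2 : ℝ) • (y + z)) + ‖y - z‖ ^ 2 / 4 ≤ (ψ y + ψ z) / 2 := by
  have h1 := h.conv.2 (mem_univ y) (mem_univ z) (by norm_num : (0 : ℝ) ≤ 1 / 2)
    (by norm_num : (0 : ℝ) ≤ 1 / 2) (by norm_num)
  rw [← smul_add] at h1
  simp only [smul_eq_mul] at h1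
  have h2 : ‖(1 / 2 : ℝ) • (y + z)‖ ^ 2 = ‖y + z‖ ^ 2 / 4 := by
    rw [norm_smul, mul_pow]
    norm_num
    ring
  have h3 := parallelogram_law_with_norm ℝ y z
  rw [h2] at h1
  nlinarith

theorem Prf.convex (h : Prf ψ K) : ConvexOn ℝ univ ψ := by
  have h1 : ConvexOn ℝ univ fun y : W => ‖y‖ ^ 2 :=
    convexOn_univ_norm.pow (fun x _ => norm_nonneg x) 2
  have h2 := h.conv.add h1
  have e : ((fun y : W => ψ y - ‖y‖ ^ 2) + fun y => ‖y‖ ^ 2) = ψ := by
    funext y
    simp
  rwa [e] at h2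

theorem Prf.smooth (h : Prf ψ K) (y w : W) :
    ψ (y + w) + ψ (y - w) ≤ 2 * ψ y + 2 * K * ‖w‖ ^ 2 := by
  have hd : Differentiable ℝ ψ := h.diff.differentiable one_ne_zero
  have hD : ∀ t : ℝ, HasDerivAt (fun t : ℝ => ψ (y + t • w) + ψ (y - t • w) -
      2 * K * ‖w‖ ^ 2 * t ^ 2) ((fderiv ℝ ψ (y + t • w)) w - (fderiv ℝ ψ (y - t • w)) w -
      2 * K * ‖w‖ ^ 2 * (2 * t)) t := by
    intro t
    have h1 : HasDerivAt (fun t : ℝ => y + t • w) w t := by
      simpa using ((hasDerivAt_id t).smul_const w).const_add y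
    have h2 : HasDerivAt (fun t : ℝ => y - t • w) (-w) t := by
      simpa using ((hasDerivAt_id t).smul_const w).const_sub y
    have h3 := (hd (y + t • w)).hasFDerivAt.comp_hasDerivAt t h1
    have h4 := (hd (y - t • w)).hasFDerivAt.comp_hasDerivAt t h2
    have h5 : HasDerivAt (fun t : ℝ => 2 * K * ‖w‖ ^ 2 * t ^ 2) (2 * K * ‖w‖ ^ 2 * (2 * t)) t := by
      simpa using (hasDerivAt_pow 2 t).const_mul (2 * K * ‖w‖ ^ 2)
    have h6 := (h3.add h4).sub h5
    rw [map_neg] at h6
    exact h6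
  have hanti : AntitoneOn (fun t : ℝ => ψ (y + t • w) + ψ (y - t • w) -
      2 * K * ‖w‖ ^ 2 * t ^ 2) (Icc 0 1) := by
    refine antitoneOn_of_deriv_nonpos (convex_Icc 0 1)
      (fun t _ => (hD t).continuousAt.continuousWithinAt)
      (fun t _ => (hD t).differentiableAt.differentiableWithinAt) fun t ht => ?_
    rw [(hD t).deriv]
    rw [interior_Icc] at ht
    have h1 := h.lip (y + t • w) (y - t • w)
    have h2 := (fderiv ℝ ψ (y + t • w) - fderiv ℝ ψ (y - t • w)).le_opNorm w
    rw [ContinuousLinearMap.sub_apply, Real.norm_eq_abs] at h2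
    have h3 : (y + t • w) - (y - t • w) = (2 * t) • w := by
      rw [mul_smul, two_smul]
      abel
    rw [h3, norm_smul, Real.norm_eq_abs, abs_of_pos (by linarith [ht.1])] at h1
    have h4 := (le_abs_self _).trans (h2.trans (mul_le_mul_of_nonneg_right h1 (norm_nonneg w)))
    nlinarith
  have h1 := hanti (left_mem_Icc.2 zero_le_one) (right_mem_Icc.2 zero_le_one) zero_le_one
  simp only [one_smul, zero_smul, add_zero, sub_zero] at h1
  nlinarith

theorem prf_sq : Prf (fun y : W => ‖y‖ ^ 2) 1 :=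
  ⟨FE.prof_sq.diff, FE.prof_sq.conv, FE.prof_sq.lip⟩

end prof

variable {n k d : ℕ}

/-- uniformly convex and uniformly smooth functions, with respect to the forms `‖P j x‖²` -/
structure Cf (F : Fin k → Eu (Fin n) → ℝ) (P : Fin k → (Eu (Fin n) →L[ℝ] Eu (Fin n))) (K : ℝ) :
    Prop where
  one_le : 1 ≤ K
  diff : ∀ j, ContDiff ℝ 1 (F j)
  conv : ∀ j, ConvexOn ℝ univ (F j)
  strong : ∀ j x y, F j ((1 / 2 : ℝ) • (x + y)) ≤ (F j x + F j y) / 2 - ‖P j (x - y)‖ ^ 2 / 4
  smooth : ∀ j x v, F j (x + v) + F j (x - v) ≤ 2 * F j x + 2 * K * ‖P j v‖ ^ 2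
  lip : ∀ j x y u, |fderiv ℝ (F j) x u - fderiv ℝ (F j) y u| ≤
    2 * K * ‖P j (x - y)‖ * ‖P j u‖

theorem cf_of_prf {m : Fin k → ℕ} {P : ∀ j, Eu (Fin n) →L[ℝ] Eu (Fin (m j))}
    {ψ : ∀ j, Eu (Fin (m j)) → ℝ} {β : Fin k → Eu (Fin n)} {K : ℝ} (hK : 1 ≤ K)
    (h : ∀ j, Prf (ψ j) K) {P' : Fin k → (Eu (Fin n) →L[ℝ] Eu (Fin n))}
    (hP : ∀ j x, ‖P' j x‖ = ‖P j x‖) : Cf (fun j x => ψ j (P j x) + ⟪β j, x⟫_ℝ) P' K := by
  have hfd : ∀ j x u, fderiv ℝ (fun x => ψ j (P j x) + ⟪β j, x⟫_ℝ) x u =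
      fderiv ℝ (ψ j) (P j x) (P j u) + ⟪β j, u⟫_ℝ := by
    intro j x u
    have h1 : HasFDerivAt (fun x : Eu (Fin n) => ψ j (P j x))
        ((fderiv ℝ (ψ j) (P j x)).comp (P j)) x :=
      (((h j).diff.differentiable one_ne_zero) _).hasFDerivAt.comp x (P j).hasFDerivAt
    have h2 : HasFDerivAt (fun x : Eu (Fin n) => ⟪β j, x⟫_ℝ) (innerSL ℝ (β j)) x :=
      (innerSL ℝ (β j)).hasFDerivAt
    have h3 := (h1.add h2).fderiv
    have h4 : fderiv ℝ (fun x => ψ j (P j x) + ⟪β j, x⟫_ℝ) x =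
        (fderiv ℝ (ψ j) (P j x)).comp (P j) + innerSL ℝ (β j) := h3
    rw [h4]
    rfl
  refine ⟨hK, fun j => ?_, fun j => ?_, fun j x y => ?_, fun j x v => ?_, fun j x y u => ?_⟩
  · exact ((h j).diff.comp (P j).contDiff).add (contDiff_const.inner ℝ contDiff_id)
  · have h1 := (h j).convex.comp_linearMap (P j : Eu (Fin n) →ₗ[ℝ] Eu (Fin (m j)))
    refine ⟨convex_univ, fun x hx y hy a b ha hb hab => ?_⟩
    have h2 := h1.2 hx hy ha hb hab
    simp only [smul_eq_mul, Function.comp_apply, ContinuousLinearMap.coe_coe] at h2 ⊢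
    rw [inner_add_right, inner_smul_right, inner_smul_right]
    linarith
  · have h1 := (h j).mid (P j x) (P j y)
    rw [← map_add, ← map_smul, ← map_sub] at h1
    simp only [hP]
    rw [inner_smul_right, inner_add_right]
    linarith
  · have h1 := (h j).smooth (P j x) (P j v)
    rw [← map_add, ← map_sub] at h1
    simp only [hP]
    rw [inner_add_right, inner_sub_right]
    linarith
  · rw [hfd, hfd, hP, hP]
    have h1 := (h j).lip (P j x) (P j y)
    have h2 := (fderiv ℝ (ψ j) (P j x) - fderiv ℝ (ψ j) (P j y)).le_opNorm (P j u)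
    rw [ContinuousLinearMap.sub_apply, Real.norm_eq_abs] at h2
    have h3 := h2.trans (mul_le_mul_of_nonneg_right h1 (norm_nonneg (P j u)))
    rw [← map_sub] at h3
    have e : fderiv ℝ (ψ j) (P j x) (P j u) + ⟪β j, u⟫_ℝ -
        (fderiv ℝ (ψ j) (P j y) (P j u) + ⟪β j, u⟫_ℝ) =
        fderiv ℝ (ψ j) (P j x) (P j u) - fderiv ℝ (ψ j) (P j y) (P j u) := by ring
    rw [e]
    exact h3

/-- maps into the same space -/
theorem exists_same {m : ℕ} (P : Eu (Fin n) →L[ℝ] Eu (Fin m)) :
    ∃ P' : Eu (Fin n) →L[ℝ] Eu (Fin n), ∀ x, ‖P' x‖ = ‖P x‖ := by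
  obtain ⟨A, hA⟩ := FE.exists_map_psd (κ := Fin n)
    (Q := Matrix.gram ℝ fun i : Fin n => P (EuclideanSpace.single i 1))
    (Matrix.posSemidef_gram ℝ _)
  refine ⟨A.toContinuousLinearMap, fun x => ?_⟩
  have h1 : ‖P x‖ ^ 2 = ∑ i, ∑ j, Matrix.gram ℝ (fun i : Fin n => P (EuclideanSpace.single i 1)) i j
      * x i * x j := by
    have hx : x = ∑ i, x i • EuclideanSpace.single i (1 : ℝ) := by
      ext l
      simp [Pi.single_apply]
    have h2 : P x = ∑ i, x i • P (EuclideanSpace.single i 1) := by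
      conv_lhs => rw [hx]
      rw [map_sum]
      simp only [map_smul]
    rw [← real_inner_self_eq_norm_sq, h2, sum_inner]
    refine Finset.sum_congr rfl fun i _ => ?_
    rw [inner_sum]
    refine Finset.sum_congr rfl fun j _ => ?_
    rw [inner_smul_left, inner_smul_right, Matrix.gram_apply]
    simp only [conj_trivial]
    ring
  have h3 := hA x
  rw [← h1] at h3
  have h4 := congrArg Real.sqrt h3
  rw [Real.sqrt_sq (norm_nonneg _), Real.sqrt_sq (norm_nonneg _)] at h4
  rw [LinearMap.coe_toContinuousLinearMap']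
  exact h4

theorem sz_one {F : Fin k → Eu (Fin n) → ℝ} {P : Fin k → (Eu (Fin n) →L[ℝ] Eu (Fin n))} {K : ℝ}
    (hF : Cf F P K) : Sz (F1 F) (P1 P) K := by
  have e1 : F1 F (Fin.last k) = fun x => ‖x‖ ^ 2 := funext fun x => F1_last _ x
  have e2 : ∀ j : Fin k, F1 F (Fin.castSucc j) = F j := fun j => funext fun x => F1_cast _ j x
  have p1 : P1 P (Fin.last k) = ContinuousLinearMap.id ℝ _ := by
    unfold P1
    rw [Fin.snoc_last]
  have p2 : ∀ j : Fin k, P1 P (Fin.castSucc j) = P j := fun j => by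
    unfold P1
    rw [Fin.snoc_castSucc]
  have hsq := prf_sq (W := Eu (Fin n))
  have hK := hF.one_le
  refine
    { cont := fun j => ?_
      conv := fun j => ?_
      bdd := fun s => ?_
      one_le := hK
      diff := fun j => ?_
      strong := fun j x y => ?_
      smooth := fun j x v => ?_
      lip := fun j x y u => ?_
      inj := fun z hz => ?_ }
  · refine Fin.lastCases ?_ (fun j => ?_) j
    · rw [e1]
      fun_prop
    · rw [e2]
      exact (hF.diff j).continuous
  · refine Fin.lastCases ?_ (fun j => ?_) j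
    · rw [e1]
      exact convexOn_univ_norm.pow (fun x _ => norm_nonneg x) 2
    · rw [e2]
      exact hF.conv j
  · refine isBounded_iff_forall_norm_le.2 ⟨Real.sqrt (s (Fin.last k)), fun x hx => ?_⟩
    have h1 : F1 F (Fin.last k) x ≤ s (Fin.last k) := hx _
    rw [F1_last] at h1
    exact Real.le_sqrt_of_sq_le h1
  · refine Fin.lastCases ?_ (fun j => ?_) j
    · rw [e1]
      exact hsq.diff
    · rw [e2]
      exact hF.diff j
  · revert j
    refine Fin.lastCases ?_ (fun j => ?_)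
    · rw [e1, p1]
      have h1 := hsq.mid x y
      simp only [ContinuousLinearMap.id_apply] at h1 ⊢
      linarith
    · rw [e2, p2]
      exact hF.strong j x y
  · revert j
    refine Fin.lastCases ?_ (fun j => ?_)
    · rw [e1, p1]
      have h1 := hsq.smooth x v
      simp only [ContinuousLinearMap.id_apply] at h1 ⊢
      nlinarith [sq_nonneg ‖v‖]
    · rw [e2, p2]
      exact hF.smooth j x v
  · revert j
    refine Fin.lastCases ?_ (fun j => ?_)
    · rw [e1, p1]
      have h1 := hsq.lip x y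
      have h2 := (fderiv ℝ (fun x : Eu (Fin n) => ‖x‖ ^ 2) x -
        fderiv ℝ (fun x : Eu (Fin n) => ‖x‖ ^ 2) y).le_opNorm u
      rw [ContinuousLinearMap.sub_apply, Real.norm_eq_abs] at h2
      have h3 := h2.trans (mul_le_mul_of_nonneg_right h1 (norm_nonneg u))
      simp only [ContinuousLinearMap.id_apply]
      refine h3.trans (mul_le_mul_of_nonneg_right (mul_le_mul_of_nonneg_right ?_ (norm_nonneg _))
        (norm_nonneg _))
      linarith
    · rw [e2, p2]
      exact hF.lip j x y u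
  · have h1 := hz (Fin.last k)
    rw [p1] at h1
    exact h1

theorem gx_gt' {F : Fin k → Eu (Fin n) → ℝ} (hF : Fm (F1 F)) {g : (Fin k → ℝ) → Eu (Fin d) → ℝ} (hg : Gen g)
    {L : Eu (Fin n) →L[ℝ] Eu (Fin d)} {R e c : ℝ} (hR : 0 < R) (hc : 0 < c)
    (hpos : 0 < N (F1 F) (Gt g L R e) fun _ => c) :
    ∃ T : ℝ, Gx (F1 F) (Gt g L R e) c R T R := by
  obtain ⟨C, hC⟩ := (lev_compact hF fun _ => R).exists_bound_of_continuousOn
    (f := fun x => ∑ j, |F1 F j x|) (by
      refine Continuous.continuousOn ?_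
      exact continuous_finsetSum _ fun j _ => (hF.cont j).abs)
  have hn : ∀ s x, 0 ≤ Gt g L R e s x := fun s x => by
    unfold Gt
    split_ifs
    · exact le_min (hg.nonneg _ _) hR.le
    · exact le_rfl
  refine ⟨|C|, ⟨?_, hn, fun s x => ?_, fun s t x hst => ?_, fun s t x y a b ha hb hab => ?_,
    fun s x hs => ?_, fun x hx j => ?_, by positivity, hc, hpos⟩⟩
  · unfold Gt
    refine Measurable.ite ?_ ?_ measurable_const
    · have e1 : {p : (Fin (k + 1) → ℝ) × Eu (Fin n) | ∀ j, p.1 j ≤ R} = ⋂ j, {p | p.1 j ≤ R} := by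
        ext p
        simp
      rw [e1]
      exact MeasurableSet.iInter fun j => measurableSet_le
        ((measurable_pi_apply j).comp measurable_fst) measurable_const
    · refine Measurable.min ?_ measurable_const
      have h1 : Measurable fun p : (Fin (k + 1) → ℝ) × Eu (Fin n) =>
          ((fun j : Fin k => p.1 (Fin.castSucc j) - e), L p.2) :=
        (measurable_pi_lambda _ fun j => ((measurable_pi_apply _).comp measurable_fst).sub_const
          _).prodMk (L.continuous.measurable.comp measurable_snd)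
      exact hg.meas.comp h1
  · unfold Gt
    split_ifs
    · exact min_le_right _ _
    · exact hR.le
  · unfold Gt
    by_cases ht : ∀ j, t j ≤ R
    · have hs : ∀ j, s j ≤ R := fun j => (hst j).trans (ht j)
      rw [if_pos ht, if_pos hs]
      refine min_le_min (hg.anti _ _ _ fun j => ?_) le_rfl
      have := hst (Fin.castSucc j)
      linarith
    · rw [if_neg ht]
      exact hn s x
  · by_cases hs : ∀ j, s j ≤ R
    · by_cases ht : ∀ j, t j ≤ R
      · have hst : ∀ j, (a • s + b • t) j ≤ R := fun j => by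
          simp only [Pi.add_apply, Pi.smul_apply, smul_eq_mul]
          have h1 := mul_le_mul_of_nonneg_left (hs j) ha.le
          have h2 := mul_le_mul_of_nonneg_left (ht j) hb.le
          have h3 : a * R + b * R = R := by rw [← add_mul, hab, one_mul]
          linarith
        unfold Gt
        rw [if_pos hs, if_pos ht, if_pos hst]
        have h1 := hg.nonneg (fun j => s (Fin.castSucc j) - e) (L x)
        have h2 := hg.nonneg (fun j => t (Fin.castSucc j) - e) (L y)
        refine le_min ?_ ?_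
        · have h3 := hg.logc (fun j => s (Fin.castSucc j) - e) (fun j => t (Fin.castSucc j) - e)
            (L x) (L y) a b ha hb hab
          have e1 : a • (fun j : Fin k => s (Fin.castSucc j) - e) +
              b • (fun j : Fin k => t (Fin.castSucc j) - e) =
              fun j => (a • s + b • t) (Fin.castSucc j) - e := by
            funext j
            simp only [Pi.add_apply, Pi.smul_apply, smul_eq_mul]
            have e2 : e = a * e + b * e := by rw [← add_mul, hab, one_mul]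
            linarith
          have e2 : a • L x + b • L y = L (a • x + b • y) := by
            rw [map_add, map_smul, map_smul]
          rw [e1, e2] at h3
          refine le_trans ?_ h3
          exact mul_le_mul (Real.rpow_le_rpow (le_min h1 hR.le) (min_le_left _ _) ha.le)
            (Real.rpow_le_rpow (le_min h2 hR.le) (min_le_left _ _) hb.le)
            (Real.rpow_nonneg (le_min h2 hR.le) _) (Real.rpow_nonneg h1 _)
        · calc _ ≤ R ^ a * R ^ b :=
              mul_le_mul (Real.rpow_le_rpow (le_min h1 hR.le) (min_le_right _ _) ha.le)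
                (Real.rpow_le_rpow (le_min h2 hR.le) (min_le_right _ _) hb.le)
                (Real.rpow_nonneg (le_min h2 hR.le) _) (Real.rpow_nonneg hR.le _)
            _ = R := by rw [← Real.rpow_add hR, hab, Real.rpow_one]
      · have h1 : Gt g L R e t y = 0 := by
          unfold Gt
          rw [if_neg ht]
        rw [h1, Real.zero_rpow hb.ne', mul_zero]
        exact hn _ _
    · have h1 : Gt g L R e s x = 0 := by
        unfold Gt
        rw [if_neg hs]
      rw [h1, Real.zero_rpow ha.ne', zero_mul]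
      exact hn _ _
  · unfold Gt
    rw [if_neg]
    push Not
    exact hs
  · have h1 := hC x hx
    rw [Real.norm_of_nonneg (Finset.sum_nonneg fun j _ => abs_nonneg _)] at h1
    have h2 : |F1 F j x| ≤ ∑ j, |F1 F j x| :=
      Finset.single_le_sum (f := fun j => |F1 F j x|) (fun i _ => abs_nonneg _)
        (Finset.mem_univ j)
    have h3 := neg_abs_le (F1 F j x)
    have h4 := le_abs_self C
    linarith

theorem rate_le' {k d : ℕ} (hk : 0 < k) {C K : ℝ} (hC : 0 < C) :
    C * K ^ 2 * ((k + 1 : ℕ) : ℝ) ^ 5 * ((k + 1 + d : ℕ) : ℝ) ≤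
      C * 64 * K ^ 2 * k ^ 5 * ((k + d : ℕ) : ℝ) := by
  have h1 := mul_le_mul_of_nonneg_left (rate_le (k := k) (d := d) hk hC) (sq_nonneg K)
  calc C * K ^ 2 * ((k + 1 : ℕ) : ℝ) ^ 5 * ((k + 1 + d : ℕ) : ℝ) =
      K ^ 2 * (C * ((k + 1 : ℕ) : ℝ) ^ 5 * ((k + 1 + d : ℕ) : ℝ)) := by ring
    _ ≤ K ^ 2 * (C * 64 * k ^ 5 * ((k + d : ℕ) : ℝ)) := h1
    _ = _ := by ring

/-- **the inequality, with the condition of Slater** -/
theorem kp_slater' : ∃ C : ℝ, 0 < C ∧ ∀ (n k d : ℕ) (F : Fin k → Eu (Fin n) → ℝ)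
    (P : Fin k → (Eu (Fin n) →L[ℝ] Eu (Fin n))) (K : ℝ) (L : Eu (Fin n) →L[ℝ] Eu (Fin d))
    (g : (Fin k → ℝ) → Eu (Fin d) → ℝ), Cf F P K → Gen g → 0 < k →
    Den (fun x : Eu (Fin n) => g (fun j => F j x) (L x)) →
    (∃ c : ℝ, 0 < c ∧ 0 < ∫ x : Eu (Fin n), g (fun j => F j x + c) (L x)) →
    KP (nm fun x : Eu (Fin n) => g (fun j => F j x) (L x))
      (C * K ^ 2 * k ^ 5 * ((k + d : ℕ) : ℝ)) := by
  obtain ⟨C, hC, H⟩ := ND.kp_bdd
  refine ⟨C * 64, by positivity, ?_⟩
  intro n k d F P K L g hCf hg hk hρ hsl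
  obtain ⟨c, hc, hgc⟩ := hsl
  have hS := sz_one hCf
  have hFc : ∀ j, Continuous (F j) := fun j => (hCf.diff j).continuous
  obtain ⟨ρ, hρd⟩ : ∃ ρ : Eu (Fin n) → ℝ, ρ = fun x => g (fun j => F j x) (L x) := ⟨_, rfl⟩
  rw [← hρd] at hρ ⊢
  have hmom := (Q289.LD.tLIM (Fin n) ρ hρ).2.1
  have hwt : Wt ρ := ⟨hρ.nonneg, hρ.meas, by rw [hρ.mass]; exact one_pos, hmom⟩
  -- positivity
  have hNc : Tendsto (fun m : ℕ => N (F1 F) (Gt g L (m : ℝ) 0) fun _ => c) atTop
      (𝓝 (∫ x : Eu (Fin n), g (fun j => F j x + c) (L x))) := by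
    refine tendsto_integral_of_dominated_convergence ρ (fun m =>
      (den_gt_meas hFc hg).aestronglyMeasurable) hwt.integrable (fun m =>
      Eventually.of_forall fun x => ?_) (Eventually.of_forall fun x => ?_)
    · rw [Real.norm_of_nonneg (den_gt_nonneg hg (Nat.cast_nonneg m) x)]
      refine (den_gt_le hg x).trans ?_
      rw [hρd]
      refine hg.anti _ _ _ fun j => ?_
      show F j x ≤ F j x + c - 0
      linarith
    · have h1 := den_gt_tendsto (F := F) (g := g) (L := L) (e := 0) (c := c) x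
      simp only [sub_zero] at h1
      exact h1
  have hev : ∀ᶠ m : ℕ in atTop, 0 < N (F1 F) (Gt g L (m : ℝ) 0) fun _ => c :=
    hNc.eventually (lt_mem_nhds hgc)
  have hlim := W2.of_dom (l := (atTop : Filter ℕ))
    (g := fun m : ℕ => den (F1 F) (Gt g L (m : ℝ) 0) 0)
    (g' := ρ) (h := ρ) (Eventually.of_forall fun m x =>
      den_gt_nonneg (c := 0) hg (Nat.cast_nonneg m) x)
    (Eventually.of_forall fun m => den_gt_meas (c := 0) hFc hg) hwt
    (Eventually.of_forall fun m x => by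
      refine (den_gt_le (c := 0) hg x).trans (le_of_eq ?_)
      simp only [add_zero, sub_zero, hρd]) hmom (Eventually.of_forall fun x => by
      have h1 := den_gt_tendsto (F := F) (g := g) (L := L) (e := 0) (c := 0) x
      simp only [sub_zero, add_zero] at h1
      rw [hρd]
      exact h1)
  have hp := hwt.prob
  refine KP.lim hlim.2 (by positivity) ?_
  filter_upwards [hev, eventually_gt_atTop 0] with m hm hm0
  have hm1 : (0 : ℝ) < m := Nat.cast_pos.2 hm0
  obtain ⟨T, hT⟩ := gx_gt' hS.toFm hg hm1 hc hm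
  have h1 := H n (k + 1) d _ _ c m T m _ _ _ L hS hT (Nat.succ_pos k)
    (fun v hv s x => by
      unfold Gt
      rw [map_add, hv, add_zero])
  intro s hs hcov
  have h2 := h1 s hs hcov
  exact h2.mono (mul_le_mul_of_nonneg_right (rate_le' hk hC) hs.le)

/-- **the inequality, for densities continuous from below** -/
theorem kp_reg' : ∃ C : ℝ, 0 < C ∧ ∀ (n k d : ℕ) (F : Fin k → Eu (Fin n) → ℝ)
    (P : Fin k → (Eu (Fin n) →L[ℝ] Eu (Fin n))) (K : ℝ) (L : Eu (Fin n) →L[ℝ] Eu (Fin d))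
    (g : (Fin k → ℝ) → Eu (Fin d) → ℝ), Cf F P K → Gen g → 0 < k →
    Den (fun x : Eu (Fin n) => g (fun j => F j x) (L x)) →
    (∀ᵐ x : Eu (Fin n), Tendsto (fun m : ℕ => g (fun j => F j x - 1 / ((m : ℝ) + 1)) (L x))
      atTop (𝓝 (g (fun j => F j x) (L x)))) →
    KP (nm fun x : Eu (Fin n) => g (fun j => F j x) (L x))
      (C * K ^ 2 * k ^ 5 * ((k + d : ℕ) : ℝ)) := by
  obtain ⟨C, hC, H⟩ := ND.kp_bdd
  refine ⟨C * 64, by positivity, ?_⟩
  intro n k d F P K L g hCf hg hk hρ hreg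
  have hS := sz_one hCf
  have hFc : ∀ j, Continuous (F j) := fun j => (hCf.diff j).continuous
  have hF1 := hS.toFm
  obtain ⟨ρ, hρd⟩ : ∃ ρ : Eu (Fin n) → ℝ, ρ = fun x => g (fun j => F j x) (L x) := ⟨_, rfl⟩
  rw [← hρd] at hρ ⊢
  have hmom := (Q289.LD.tLIM (Fin n) ρ hρ).2.1
  have hwt : Wt ρ := ⟨hρ.nonneg, hρ.meas, by rw [hρ.mass]; exact one_pos, hmom⟩
  -- positivity
  have hNc : Tendsto (fun m : ℕ => N (F1 F) (Gt g L (m : ℝ) 1) fun _ => 1) atTop
      (𝓝 (∫ x : Eu (Fin n), ρ x)) := by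
    refine tendsto_integral_of_dominated_convergence ρ (fun m =>
      (den_gt_meas hFc hg).aestronglyMeasurable) hwt.integrable (fun m =>
      Eventually.of_forall fun x => ?_) (Eventually.of_forall fun x => ?_)
    · rw [Real.norm_of_nonneg (den_gt_nonneg hg (Nat.cast_nonneg m) x)]
      refine (den_gt_le hg x).trans (le_of_eq ?_)
      simp only [add_sub_cancel_right, hρd]
    · have h1 := den_gt_tendsto (F := F) (g := g) (L := L) (e := 1) (c := 1) x
      simp only [add_sub_cancel_right] at h1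
      rw [hρd]
      exact h1
  rw [hρ.mass] at hNc
  have hev : ∀ᶠ m : ℕ in atTop, 0 < N (F1 F) (Gt g L (m : ℝ) 1) fun _ => 1 :=
    hNc.eventually (lt_mem_nhds one_pos)
  -- the last limit
  have hlim := W2.of_dom (l := (atTop : Filter ℕ))
    (g := fun m : ℕ => den (F1 F) (Gt g L (m : ℝ) 0) 0)
    (g' := ρ) (h := ρ) (Eventually.of_forall fun m x =>
      den_gt_nonneg (c := 0) hg (Nat.cast_nonneg m) x)
    (Eventually.of_forall fun m => den_gt_meas (c := 0) hFc hg) hwt
    (Eventually.of_forall fun m x => by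
      refine (den_gt_le (c := 0) hg x).trans (le_of_eq ?_)
      simp only [add_zero, sub_zero, hρd]) hmom (Eventually.of_forall fun x => by
      have h1 := den_gt_tendsto (F := F) (g := g) (L := L) (e := 0) (c := 0) x
      simp only [sub_zero, add_zero] at h1
      rw [hρd]
      exact h1)
  have hp := hwt.prob
  refine KP.lim hlim.2 (by positivity) ?_
  filter_upwards [hev, eventually_gt_atTop 0] with N₀ hm hm0
  have hR : (0 : ℝ) < N₀ := Nat.cast_pos.2 hm0
  obtain ⟨R, hRd⟩ : ∃ R : ℝ, R = N₀ := ⟨_, rfl⟩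
  rw [← hRd] at hm hR ⊢
  -- positivity of the shifted integrals
  have hposd : ∀ e c' : ℝ, c' ≤ 1 → c' ≤ e →
      ∀ x, den (F1 F) (Gt g L R 1) (fun _ => 1) x ≤ den (F1 F) (Gt g L R e) (fun _ => c') x := by
    intro e c' hc1 hce x
    by_cases h : ∀ j, F1 F j x + 1 ≤ R
    · rw [den_gt_of F g L h, den_gt_of F g L fun j => by linarith [h j]]
      refine min_le_min (hg.anti _ _ _ fun j => ?_) le_rfl
      show F j x + c' - e ≤ F j x + 1 - 1
      linarith
    · rw [den_gt_of_not F g L h]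
      exact den_gt_nonneg hg hR.le x
  -- integrability
  have hm' := hm
  obtain ⟨T₁, hT₁⟩ := gx_gt' hS.toFm hg hR one_pos hm'
  have hw1 := wt_den hF1 hT₁
  have hdle : ∀ e : ℝ, e ≤ 1 → ∀ x, den (F1 F) (Gt g L R e) 0 x ≤ den (F1 F) (Gt g L R 1) 0 x := by
    intro e he x
    by_cases h : ∀ j, F1 F j x + 0 ≤ R
    · have h1 := den_gt_of F g L (e := e) h
      have h2 := den_gt_of F g L (e := 1) h
      have h3 : min (g (fun j => F j x + 0 - e) (L x)) R ≤ min (g (fun j => F j x + 0 - 1) (L x)) R :=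
        min_le_min (hg.anti _ _ _ fun j => by
          show F j x + 0 - 1 ≤ F j x + 0 - e
          linarith) le_rfl
      rw [← h1, ← h2] at h3
      exact h3
    · have h1 := den_gt_of_not F g L (e := e) h
      have h2 := den_gt_nonneg (F := F) (L := L) (e := 1) (c := 0) hg hR.le x
      exact (le_of_eq h1).trans h2
  have hNle : ∀ e c' : ℝ, 0 ≤ c' → c' ≤ 1 → c' ≤ e → e ≤ 1 →
      0 < N (F1 F) (Gt g L R e) fun _ => c' := by
    intro e c' hc0 hc1 hce he
    refine hm.trans_le ?_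
    have i1 : Integrable (den (F1 F) (Gt g L R 1) fun _ => 1) := den_int hF1 hT₁ _
    refine integral_mono i1 ?_ (hposd e c' hc1 hce)
    refine hw1.integrable.mono' (den_gt_meas hFc hg).aestronglyMeasurable
      (Eventually.of_forall fun x => ?_)
    rw [Real.norm_of_nonneg (den_gt_nonneg hg hR.le x)]
    refine le_trans ?_ (hdle e he x)
    -- shifting
    by_cases h : ∀ j, F1 F j x + c' ≤ R
    · have h0 : ∀ j, F1 F j x + 0 ≤ R := fun j => by linarith [h j]
      have h2 := den_gt_of F g L (e := e) h0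
      rw [den_gt_of F g L h]
      have h3 : min (g (fun j => F j x + c' - e) (L x)) R ≤
          min (g (fun j => F j x + 0 - e) (L x)) R :=
        min_le_min (hg.anti _ _ _ fun j => by
          show F j x + 0 - e ≤ F j x + c' - e
          linarith) le_rfl
      rw [← h2] at h3
      exact h3
    · rw [den_gt_of_not F g L h]
      exact den_gt_nonneg (c := 0) hg hR.le x
  have hN0 : 0 < N (F1 F) (Gt g L R 0) fun _ => 0 := hNle 0 0 le_rfl zero_le_one le_rfl zero_le_one
  have hmom0 : Integrable fun x : Eu (Fin n) => (1 + ‖x‖ ^ 2) * den (F1 F) (Gt g L R 0) 0 x := by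
    refine hw1.mom.mono' ?_ (Eventually.of_forall fun x => ?_)
    · exact ((by fun_prop : Measurable fun x : Eu (Fin n) => 1 + ‖x‖ ^ 2).mul
        (den_gt_meas (c := 0) hFc hg)).aestronglyMeasurable
    · have h1 := den_gt_nonneg (F := F) (L := L) (e := 0) (c := 0) hg hR.le x
      have h2 : 0 ≤ (1 + ‖x‖ ^ 2) * den (F1 F) (Gt g L R 0) 0 x := mul_nonneg (by positivity) h1
      rw [Real.norm_of_nonneg h2]
      exact mul_le_mul_of_nonneg_left (hdle 0 zero_le_one x) (by positivity)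
  have hwt0 : Wt (den (F1 F) (Gt g L R 0) 0) :=
    ⟨fun x => den_gt_nonneg (c := 0) hg hR.le x, den_gt_meas (c := 0) hFc hg, hN0, hmom0⟩
  have hem : ∀ m : ℕ, 0 < 1 / ((m : ℝ) + 1) ∧ 1 / ((m : ℝ) + 1) ≤ 1 := fun m => by
    refine ⟨by positivity, ?_⟩
    rw [div_le_one (by positivity)]
    linarith [(Nat.cast_nonneg m : (0 : ℝ) ≤ m)]
  have hlim0 := W2.of_dom (l := (atTop : Filter ℕ))
    (g := fun m : ℕ => den (F1 F) (Gt g L R (1 / ((m : ℝ) + 1))) 0)
    (g' := den (F1 F) (Gt g L R 0) 0) (h := den (F1 F) (Gt g L R 1) 0)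
    (Eventually.of_forall fun m x => den_gt_nonneg (c := 0) hg hR.le x)
    (Eventually.of_forall fun m => den_gt_meas (c := 0) hFc hg) hwt0
    (Eventually.of_forall fun m x => hdle _ (hem m).2 x) hw1.mom (by
      filter_upwards [hreg] with x hx
      by_cases h : ∀ j, F1 F j x + 0 ≤ R
      · have h1 : ∀ e : ℝ, den (F1 F) (Gt g L R e) 0 x = min (g (fun j => F j x - e) (L x)) R := by
          intro e
          have h2 := den_gt_of F g L (e := e) h
          simp only [add_zero] at h2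
          exact h2
        simp only [h1, sub_zero]
        exact hx.min tendsto_const_nhds
      · have h1 : ∀ e : ℝ, den (F1 F) (Gt g L R e) 0 x = 0 := fun e => den_gt_of_not F g L h
        simp only [h1]
        exact tendsto_const_nhds)
  have hp0 := hwt0.prob
  refine KP.lim hlim0.2 (by positivity) (Eventually.of_forall fun m => ?_)
  have hpm := hNle (1 / ((m : ℝ) + 1)) (1 / ((m : ℝ) + 1)) (hem m).1.le (hem m).2 le_rfl (hem m).2
  obtain ⟨T, hT⟩ := gx_gt' hS.toFm hg hR (hem m).1 hpm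
  have h1 := H n (k + 1) d _ _ _ R T R _ _ _ L hS hT (Nat.succ_pos k)
    (fun v hv s x => by
      unfold Gt
      rw [map_add, hv, add_zero])
  intro s hs hcov
  have h2 := h1 s hs hcov
  exact h2.mono (mul_le_mul_of_nonneg_right (rate_le' hk hC) hs.le)

/-- **the main theorem**: upper semicontinuous densities, or the condition of Slater -/
theorem kp_main' : ∃ C : ℝ, 0 < C ∧ ∀ (n k d : ℕ) (F : Fin k → Eu (Fin n) → ℝ)
    (P : Fin k → (Eu (Fin n) →L[ℝ] Eu (Fin n))) (K : ℝ) (L : Eu (Fin n) →L[ℝ] Eu (Fin d))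
    (g : (Fin k → ℝ) → Eu (Fin d) → ℝ), Cf F P K → Gen g → 0 < k →
    Den (fun x : Eu (Fin n) => g (fun j => F j x) (L x)) →
    ((UpperSemicontinuous fun p : (Fin k → ℝ) × Eu (Fin d) => g p.1 p.2) ∨
      ∃ c : ℝ, 0 < c ∧ 0 < ∫ x : Eu (Fin n), g (fun j => F j x + c) (L x)) →
    KP (nm fun x : Eu (Fin n) => g (fun j => F j x) (L x))
      (C * K ^ 2 * k ^ 5 * ((k + d : ℕ) : ℝ)) := by
  obtain ⟨C₁, hC₁, H₁⟩ := kp_slater'
  obtain ⟨C₂, hC₂, H₂⟩ := kp_reg'
  refine ⟨C₁ + C₂, by positivity, ?_⟩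
  intro n k d F P K L g hCf hg hk hρ hr s hs hcov
  rcases hr with hu | hsl
  · have h1 := H₂ n k d F P K L g hCf hg hk hρ (Eventually.of_forall fun x => reg_of_usc hg hu _ _) s hs
      hcov
    refine h1.mono ?_
    gcongr
    linarith
  · have h1 := H₁ n k d F P K L g hCf hg hk hρ hsl s hs hcov
    refine h1.mono ?_
    gcongr
    linarith

end Pool.Agent.H776.ND
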