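import Pool.Agent.H776.ND5
import Pool.Agent.H776.GE7

/-!
# Open bodies defined by few convex functions and linear functionals
-/

set_option autoImplicit false

namespace Pool.Agent.H776.ND

open MeasureTheory Set Filter Topology
open scoped ENNReal InnerProductSpace
open Pool.Agent.H776.FE (lev exists_ub ev_comp vv_comp int_unf)
open Pool.Agent.W695.KH (EV VV per)
open Pool.Agent.H776.NC
open Q289.LD (Den)

variable {n k d : ℕ}

/-- linear changes of variables -/
theorem Cf.comp {F : Fin k → Eu (Fin n) → ℝ} {P : Fin k → (Eu (Fin n) →L[ℝ] Eu (Fin n))} {K : ℝ}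
    (h : Cf F P K) (T : Eu (Fin n) ≃L[ℝ] Eu (Fin n)) :
    Cf (fun j x => F j (T x)) (fun j => (P j).comp (T : Eu (Fin n) →L[ℝ] Eu (Fin n))) K := by
  have hfd : ∀ j x u, fderiv ℝ (fun x => F j (T x)) x u = fderiv ℝ (F j) (T x) (T u) := by
    intro j x u
    have h1 : HasFDerivAt (fun x => F j (T x))
        ((fderiv ℝ (F j) (T x)).comp (T : Eu (Fin n) →L[ℝ] Eu (Fin n))) x :=
      (((h.diff j).differentiable one_ne_zero) _).hasFDerivAt.comp x T.hasFDerivAt
    rw [h1.fderiv]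
    rfl
  refine ⟨h.one_le, fun j => (h.diff j).comp T.contDiff, fun j => ?_, fun j x y => ?_,
    fun j x v => ?_, fun j x y u => ?_⟩
  · refine ⟨convex_univ, fun x _ y _ a b ha hb hab => ?_⟩
    have h1 := (h.conv j).2 (mem_univ (T x)) (mem_univ (T y)) ha hb hab
    simp only
    rw [map_add, map_smul, map_smul]
    exact h1
  · have h1 := h.strong j (T x) (T y)
    rw [← map_add, ← map_sub, ← map_smul] at h1
    exact h1
  · have h1 := h.smooth j (T x) (T v)
    rw [← map_add, ← map_sub] at h1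
    exact h1
  · rw [hfd, hfd]
    have h1 := h.lip j (T x) (T y) (T u)
    rw [← map_sub] at h1
    exact h1

/-- open, convex, lower in the first variables -/
structure Lo (D : Set ((Fin k → ℝ) × Eu (Fin d))) : Prop where
  isOpen : IsOpen D
  convex : Convex ℝ D
  lower : ∀ (s t : Fin k → ℝ) (z : Eu (Fin d)), (s, z) ∈ D → (∀ j, t j ≤ s j) → (t, z) ∈ D

/-- the body -/
def Bo (F : Fin k → Eu (Fin n) → ℝ) (L : Eu (Fin n) →L[ℝ] Eu (Fin d))
    (D : Set ((Fin k → ℝ) × Eu (Fin d))) : Set (Eu (Fin n)) := {x | ((fun j => F j x), L x) ∈ D}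

theorem bo_open {F : Fin k → Eu (Fin n) → ℝ} (hF : ∀ j, Continuous (F j))
    {L : Eu (Fin n) →L[ℝ] Eu (Fin d)} {D : Set ((Fin k → ℝ) × Eu (Fin d))} (hD : Lo D) :
    IsOpen (Bo F L D) :=
  hD.isOpen.preimage ((continuous_pi fun j => hF j).prodMk L.continuous)

theorem bo_convex {F : Fin k → Eu (Fin n) → ℝ} (hF : ∀ j, ConvexOn ℝ univ (F j))
    {L : Eu (Fin n) →L[ℝ] Eu (Fin d)} {D : Set ((Fin k → ℝ) × Eu (Fin d))} (hD : Lo D) :
    Convex ℝ (Bo F L D) := by
  intro x hx y hy a b ha hb hab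
  show ((fun j => F j (a • x + b • y)), L (a • x + b • y)) ∈ D
  rw [map_add, map_smul, map_smul]
  refine hD.lower _ _ _ (hD.convex hx hy ha hb hab) fun j => ?_
  exact (hF j).2 (mem_univ x) (mem_univ y) ha hb hab

/-- cut-off functions -/
theorem exists_tst {Ω : Set (Eu (Fin n))} (hb : Bornology.IsBounded Ω) {f : Eu (Fin n) → ℝ}
    (hf : ContDiff ℝ 1 f) : ∃ (g : Eu (Fin n) → ℝ) (B L : ℝ), Tst g B L ∧
      ∀ x ∈ Ω, g x = f x ∧ fderiv ℝ g x = fderiv ℝ f x := by
  obtain ⟨R, hR⟩ := hb.exists_norm_le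
  let χ : ContDiffBump (0 : Eu (Fin n)) := ⟨|R| + 1, |R| + 2, by positivity, by linarith⟩
  have hχ : ContDiff ℝ 1 (χ : Eu (Fin n) → ℝ) := χ.contDiff
  have hg : ContDiff ℝ 1 fun x => χ x * f x := hχ.mul hf
  have hc : HasCompactSupport fun x => χ x * f x := χ.hasCompactSupport.mul_right
  obtain ⟨B, hB⟩ := hc.exists_bound_of_continuous hg.continuous
  obtain ⟨L, hL⟩ := (hc.fderiv (𝕜 := ℝ)).exists_bound_of_continuous
    (hg.continuous_fderiv one_ne_zero)
  refine ⟨fun x => χ x * f x, B, L, ⟨hg, fun x => by rw [← Real.norm_eq_abs]; exact hB x, hL⟩,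
    fun x hx => ?_⟩
  have h1 : ∀ᶠ y in 𝓝 x, χ y * f y = f y := by
    have h2 : x ∈ Metric.ball (0 : Eu (Fin n)) (|R| + 1) := by
      rw [mem_ball_zero_iff]
      have h3 := hR x hx
      have h4 := le_abs_self R
      linarith
    filter_upwards [Metric.isOpen_ball.mem_nhds h2] with y hy
    have h3 : χ y = 1 := χ.one_of_mem_closedBall (Metric.ball_subset_closedBall hy)
    rw [h3, one_mul]
  exact ⟨h1.self_of_nhds, Filter.EventuallyEq.fderiv_eq h1⟩

/-- **the Poincare inequality for the bodies** -/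
theorem pi_open : ∃ C : ℝ, 0 < C ∧ ∀ (n k d : ℕ) (F : Fin k → Eu (Fin n) → ℝ)
    (P : Fin k → (Eu (Fin n) →L[ℝ] Eu (Fin n))) (K : ℝ) (L : Eu (Fin n) →L[ℝ] Eu (Fin d))
    (D : Set ((Fin k → ℝ) × Eu (Fin d))), Cf F P K → Lo D → 0 < k →
    Bornology.IsBounded (Bo F L D) → (Bo F L D).Nonempty → ∀ s : ℝ, 0 < s →
    (∀ θ : Eu (Fin n), ‖θ‖ = 1 → EV (Bo F L D) (fun x => ⟪x, θ⟫_ℝ ^ 2) ≤ s) →
    ∀ f : Eu (Fin n) → ℝ, ContDiff ℝ 1 f → VV (Bo F L D) f ≤
      C * K ^ 2 * k ^ 5 * ((k + d : ℕ) : ℝ) * s * EV (Bo F L D) fun x => ‖fderiv ℝ f x‖ ^ 2 := by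
  classical
  obtain ⟨C, hC, H⟩ := kp_main'
  refine ⟨C, hC, ?_⟩
  intro n k d F P K L D hCf hD hk hbd hne s hs0 hcov f hf
  have hFc : ∀ j, Continuous (F j) := fun j => (hCf.diff j).continuous
  have hΩo := bo_open (L := L) hFc hD
  have hΩc := bo_convex (L := L) hCf.conv hD
  obtain ⟨Ω, hΩ⟩ : ∃ Ω, Ω = Bo F L D := ⟨_, rfl⟩
  have hmem : ∀ x, x ∈ Ω ↔ ((fun j => F j x), L x) ∈ D := fun x => by
    rw [hΩ]
    rfl
  rw [← hΩ] at hbd hΩo hΩc hne hcov ⊢
  have hm := hΩo.measurableSet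
  have hvt := hbd.measure_lt_top (μ := (volume : Measure (Eu (Fin n))))
  have hV : 0 < (volume Ω).toReal :=
    ENNReal.toReal_pos (hΩo.measure_pos volume hne).ne' hvt.ne
  obtain ⟨v, hv⟩ : ∃ v : ℝ, v = ((volume Ω).toReal)⁻¹ := ⟨_, rfl⟩
  have hvp : 0 < v := by rw [hv]; positivity
  obtain ⟨g, hg⟩ : ∃ g : (Fin k → ℝ) → Eu (Fin d) → ℝ,
    g = fun s z => D.indicator (fun _ => v) (s, z) := ⟨_, rfl⟩
  have hg1 : ∀ s z, (s, z) ∈ D → g s z = v := fun s z h => by
    rw [hg]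
    exact indicator_of_mem h _
  have hg0 : ∀ s z, (s, z) ∉ D → g s z = 0 := fun s z h => by
    rw [hg]
    exact indicator_of_notMem h _
  have hgn : ∀ s z, 0 ≤ g s z := fun s z => by
    by_cases h : (s, z) ∈ D
    · rw [hg1 s z h]
      exact hvp.le
    · rw [hg0 s z h]
  have hgen : Gen g := by
    refine ⟨?_, hgn, fun s t z hst => ?_, fun s t z w x y hx hy hxy => ?_⟩
    · rw [hg]
      exact measurable_const.indicator hD.isOpen.measurableSet
    · by_cases h : (t, z) ∈ D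
      · have h' : (s, z) ∈ D := hD.lower _ _ _ h hst
        rw [hg1 _ _ h, hg1 _ _ h']
      · rw [hg0 _ _ h]
        exact hgn _ _
    · by_cases h : (s, z) ∈ D
      · by_cases h' : (t, w) ∈ D
        · have h2 : (x • s + y • t, x • z + y • w) ∈ D := hD.convex h h' hx.le hy.le hxy
          rw [hg1 _ _ h, hg1 _ _ h', hg1 _ _ h2, ← Real.rpow_add hvp, hxy, Real.rpow_one]
        · rw [hg0 _ _ h', Real.zero_rpow hy.ne', mul_zero]
          exact hgn _ _
      · rw [hg0 _ _ h, Real.zero_rpow hx.ne', zero_mul]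
        exact hgn _ _
  have hρ : (fun x : Eu (Fin n) => g (fun j => F j x) (L x)) =
      Ω.indicator fun _ => v := by
    funext x
    by_cases hx : x ∈ Ω
    · rw [hg1 _ _ ((hmem x).1 hx), indicator_of_mem hx]
    · rw [hg0 _ _ fun h => hx ((hmem x).2 h), indicator_of_notMem hx]
  have hden : Den fun x : Eu (Fin n) => g (fun j => F j x) (L x) := by
    refine ⟨fun x => hgn _ _, ?_, fun x y t ht ht1 => ?_, ?_⟩
    · rw [hρ]
      exact measurable_const.indicator hm
    · refine (hgen.logc _ _ _ _ (1 - t) t (by linarith) ht (by ring)).trans ?_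
      rw [map_add, map_smul, map_smul]
      refine hgen.anti _ _ _ fun j => ?_
      have h1 := (hCf.conv j).2 (mem_univ x) (mem_univ y) (by linarith : 0 ≤ 1 - t) ht.le (by ring)
      simpa only [Pi.add_apply, Pi.smul_apply, smul_eq_mul] using h1
    · rw [hρ, integral_indicator hm, setIntegral_const, smul_eq_mul, measureReal_def, hv,
        mul_inv_cancel₀ hV.ne']
  -- the condition of Slater
  have hsl : ∃ c : ℝ, 0 < c ∧ 0 < ∫ x : Eu (Fin n), g (fun j => F j x + c) (L x) := by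
    obtain ⟨x₀, hx₀⟩ := hne
    have hcont : Continuous fun p : ℝ × Eu (Fin n) =>
        (((fun j => F j p.2 + p.1), L p.2) : (Fin k → ℝ) × Eu (Fin d)) :=
      (continuous_pi fun j => ((hFc j).comp continuous_snd).add continuous_fst).prodMk
        (L.continuous.comp continuous_snd)
    have hU := hD.isOpen.preimage hcont
    have h0 : ((0 : ℝ), x₀) ∈ (fun p : ℝ × Eu (Fin n) =>
        (((fun j => F j p.2 + p.1), L p.2) : (Fin k → ℝ) × Eu (Fin d))) ⁻¹' D := by
      show ((fun j => F j x₀ + 0), L x₀) ∈ D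
      simp only [add_zero]
      exact (hmem x₀).1 hx₀
    obtain ⟨ε, hε, hball⟩ := Metric.isOpen_iff.1 hU _ h0
    refine ⟨ε / 2, by positivity, ?_⟩
    have hsub : ∀ x, ((fun j => F j x + ε / 2), L x) ∈ D → x ∈ Ω := fun x hx => by
      rw [hmem]
      exact hD.lower _ _ _ hx fun j => by linarith
    have hgc : Measurable fun x : Eu (Fin n) => g (fun j => F j x + ε / 2) (L x) := by
      have h1 : Measurable fun x : Eu (Fin n) => ((fun j => F j x + ε / 2), L x) :=
        (measurable_pi_lambda _ fun j => (hFc j).measurable.add_const _).prodMk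
          L.continuous.measurable
      exact hgen.meas.comp h1
    have hint : Integrable fun x : Eu (Fin n) => g (fun j => F j x + ε / 2) (L x) := by
      have h1 : Integrable (Ω.indicator fun _ : Eu (Fin n) => v) :=
        (integrable_indicator_iff hm).2 (integrableOn_const hvt.ne)
      refine h1.mono' hgc.aestronglyMeasurable (Eventually.of_forall fun x => ?_)
      rw [Real.norm_of_nonneg (hgn _ _)]
      by_cases hx : ((fun j => F j x + ε / 2), L x) ∈ D
      · rw [hg1 _ _ hx, indicator_of_mem (hsub x hx)]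
      · rw [hg0 _ _ hx]
        exact indicator_nonneg (fun _ _ => hvp.le) x
    rw [integral_pos_iff_support_of_nonneg (fun x => hgn _ _) hint]
    refine (Metric.isOpen_ball.measure_pos volume ⟨x₀, Metric.mem_ball_self
      (by positivity : 0 < ε / 2)⟩).trans_le (measure_mono fun x hx => ?_)
    rw [Function.mem_support]
    have h1 : (ε / 2, x) ∈ Metric.ball ((0 : ℝ), x₀) ε := by
      rw [Metric.mem_ball, Prod.dist_eq, max_lt_iff]
      refine ⟨?_, ?_⟩
      · rw [Real.dist_eq, sub_zero, abs_of_pos (by positivity)]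
        linarith
      · have h2 : dist x x₀ < ε / 2 := hx
        show dist x x₀ < ε
        linarith
    have h2 : ((fun j => F j x + ε / 2), L x) ∈ D := hball h1
    rw [hg1 _ _ h2]
    exact hvp.ne'
  have hkp := H n k d F P K L g hCf hgen hk hden (Or.inr hsl)
  rw [hρ] at hkp
  -- integrals
  have hnm : ∀ g : Eu (Fin n) → ℝ, ∫ x, g x ∂(nm (Ω.indicator fun _ => v)) = EV Ω g := by
    intro g
    rw [integral_nm (fun x => indicator_nonneg (fun _ _ => hvp.le) x)
      (measurable_const.indicator hm)]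
    have e1 : ∫ x, (Ω.indicator (fun _ => v) x) = 1 := by
      rw [integral_indicator hm, setIntegral_const, smul_eq_mul, measureReal_def, hv,
        mul_inv_cancel₀ hV.ne']
    have e2 : ∫ x, g x * Ω.indicator (fun _ => v) x = v * ∫ x in Ω, g x := by
      rw [← integral_const_mul, ← integral_indicator hm]
      refine integral_congr_ae (Eventually.of_forall fun x => ?_)
      by_cases hx : x ∈ Ω
      · simp only [indicator_of_mem hx]
        ring
      · simp only [indicator_of_notMem hx, mul_zero]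
    rw [e1, e2, div_one, hv, inv_mul_eq_div]
    rfl
  have hwt : Wt (Ω.indicator fun _ : Eu (Fin n) => v) := by
    rw [← hρ]
    exact ⟨hden.nonneg, hden.meas, by rw [hden.mass]; exact one_pos,
      (Q289.LD.tLIM (Fin n) _ hden).2.1⟩
  have hp := hwt.prob
  have hcl : CovLe (nm (Ω.indicator fun _ => v)) s := by
    intro θ hθ
    rw [var_eq hwt.int_sq, hnm, hnm]
    have := hcov θ hθ
    have := sq_nonneg (EV Ω fun x => ⟪x, θ⟫_ℝ)
    linarith
  obtain ⟨h, B, L', hT, heq⟩ := exists_tst hbd hf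
  have hpoi := hkp s hs0 hcl h B L' hT
  rw [hnm, hnm, hnm] at hpoi
  have hev : ∀ φ φ' : Eu (Fin n) → ℝ, (∀ x ∈ Ω, φ x = φ' x) → EV Ω φ = EV Ω φ' := by
    intro φ φ' h
    unfold EV
    rw [setIntegral_congr_fun hm h]
  rw [hev (fun x => h x ^ 2) (fun x => f x ^ 2) fun x hx => by simp only [(heq x hx).1],
    hev h f fun x hx => (heq x hx).1, hev (fun x => ‖fderiv ℝ h x‖ ^ 2)
      (fun x => ‖fderiv ℝ f x‖ ^ 2) fun x hx => by simp only [(heq x hx).2]] at hpoi
  exact hpoi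

/-- the Poincare form -/
theorem kp_open : ∃ C : ℝ, 0 < C ∧ ∀ (n k d : ℕ) (F : Fin k → Eu (Fin n) → ℝ)
    (P : Fin k → (Eu (Fin n) →L[ℝ] Eu (Fin n))) (K : ℝ) (L : Eu (Fin n) →L[ℝ] Eu (Fin d))
    (D : Set ((Fin k → ℝ) × Eu (Fin d))), Cf F P K → Lo D → 0 < k →
    Bornology.IsBounded (Bo F L D) → (0 : Eu (Fin n)) ∈ Bo F L D →
    (∀ x ∈ Bo F L D, -x ∈ Bo F L D) →
    KP (nm ((closure (Bo F L D)).indicator fun _ => (1 : ℝ)))
      (C * K ^ 2 * k ^ 5 * ((k + d : ℕ) : ℝ)) := by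
  obtain ⟨C, hC, H⟩ := pi_open
  refine ⟨C, hC, ?_⟩
  intro n k d F P K L D hCf hD hk hbd h0 hsym
  have hΩo := bo_open (L := L) (fun j => (hCf.diff j).continuous) hD
  have hΩc := bo_convex (L := L) hCf.conv hD
  have hB := body_closure hΩo hΩc hbd h0
  rw [nm_ind hB]
  have hp := hB.prob
  intro s hs hcov f B L' hf
  have hmean : ∀ θ : Eu (Fin n), EV (Bo F L D) (fun x => ⟪x, θ⟫_ℝ) = 0 := by
    intro θ
    unfold EV
    rw [FE.int_odd (A := Bo F L D) (g := fun x => ⟪x, θ⟫_ℝ) (fun x hx => hsym x hx)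
      hΩo.measurableSet (fun x => inner_neg_left x θ), zero_div]
  have h1 := H n k d F P K L D hCf hD hk hbd ⟨0, h0⟩ s hs (fun θ hθ => by
    have h2 := hcov θ hθ
    rw [var_eq hB.int_sq, int_unf, int_unf, ev_closure hΩo hΩc, ev_closure hΩo hΩc, hmean] at h2
    linarith) f hf.diff
  rw [int_unf, int_unf, int_unf, ev_closure hΩo hΩc, ev_closure hΩo hΩc, ev_closure hΩo hΩc]
  exact h1

/-- **the affine invariant form** -/
theorem aff_open : ∃ C : ℝ, 0 < C ∧ ∀ (n k d : ℕ) (F : Fin k → Eu (Fin n) → ℝ)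
    (P : Fin k → (Eu (Fin n) →L[ℝ] Eu (Fin n))) (K : ℝ) (L : Eu (Fin n) →L[ℝ] Eu (Fin d))
    (D : Set ((Fin k → ℝ) × Eu (Fin d))), Cf F P K → Lo D → 0 < k →
    Bornology.IsBounded (Bo F L D) → (0 : Eu (Fin n)) ∈ Bo F L D →
    ∀ f : Eu (Fin n) → ℝ, ContDiff ℝ 1 f → VV (Bo F L D) f ≤
      C * K ^ 2 * k ^ 5 * ((k + d : ℕ) : ℝ) *
        EV (Bo F L D) fun x => EV (Bo F L D) fun y => (fderiv ℝ f x y) ^ 2 := by
  obtain ⟨C, hC, H⟩ := pi_open
  refine ⟨C, hC, ?_⟩
  intro n k d F P K L D hCf hD hk hbd h0 f hf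
  refine GE.aff_of_pi (bo_open (L := L) (fun j => (hCf.diff j).continuous) hD) ⟨0, h0⟩ hbd
    (fun T hT g hg => ?_) hf
  have e : T ⁻¹' Bo F L D = Bo (fun j x => F j (T x))
    (L.comp (T : Eu (Fin n) →L[ℝ] Eu (Fin n))) D := rfl
  have hbd' : Bornology.IsBounded (T ⁻¹' Bo F L D) := by
    have h1 : T ⁻¹' Bo F L D ⊆ T.symm '' Bo F L D := fun x hx =>
      ⟨T x, hx, T.symm_apply_apply x⟩
    exact (T.symm.lipschitz.isBounded_image hbd).subset h1
  have h0' : (0 : Eu (Fin n)) ∈ T ⁻¹' Bo F L D := by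
    show T 0 ∈ Bo F L D
    rw [map_zero]
    exact h0
  rw [e] at hT hbd' h0' ⊢
  have h1 := H n k d _ _ K (L.comp (T : Eu (Fin n) →L[ℝ] Eu (Fin n))) D (hCf.comp T) hD hk hbd'
    ⟨0, h0'⟩ 1 one_pos hT g hg
  rwa [mul_one] at h1

end Pool.Agent.H776.ND
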