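import Pool.Agent.H776.SWord
import Pool.Agent.H776.SBall

/-!
# Products of centred Gaussian measures on cubes
-/

set_option autoImplicit false

namespace Pool.Agent.H776

open MeasureTheory Set Filter Topology
open scoped ENNReal NNReal InnerProductSpace

section prod

variable {κ κ' : Type} [Fintype κ] [Fintype κ']

theorem integral_pm {μ : Measure (Eu κ)} {ν : Measure (Eu κ')} {φ : Eu (κ ⊕ κ') → ℝ}
    (hφ : Continuous φ) : ∫ z, φ z ∂(pm μ ν) = ∫ p, φ (mk p.1 p.2) ∂(μ.prod ν) :=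
  integral_map cont_mk.measurable.aemeasurable hφ.aestronglyMeasurable

theorem integral_prod_nm {f : Eu κ → ℝ} {g : Eu κ' → ℝ} (hf : Wt f) (hg : Wt g)
    {φ : Eu κ × Eu κ' → ℝ} (hφ : Continuous φ) {B : ℝ} (hB : ∀ p, |φ p| ≤ B) :
    ∫ p, φ p ∂((nm f).prod (nm g)) =
      (∫ p : Eu κ × Eu κ', φ p * (f p.1 * g p.2)) / ∫ p : Eu κ × Eu κ', f p.1 * g p.2 := by
  have hpf := hf.prob
  have hpg := hg.prob
  have hi : Integrable φ ((nm f).prod (nm g)) := Integrable.of_bound hφ.aestronglyMeasurable B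
    (Eventually.of_forall fun p => by rw [Real.norm_eq_abs]; exact hB p)
  have hfg : Integrable (fun p : Eu κ × Eu κ' => f p.1 * g p.2)
      ((volume : Measure (Eu κ)).prod (volume : Measure (Eu κ'))) :=
    hf.integrable.mul_prod hg.integrable
  have hi2 : Integrable (fun p : Eu κ × Eu κ' => φ p * (f p.1 * g p.2))
      ((volume : Measure (Eu κ)).prod (volume : Measure (Eu κ'))) := by
    refine (hfg.const_mul B).mono' (hφ.aestronglyMeasurable.mul hfg.aestronglyMeasurable)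
      (Eventually.of_forall fun p => ?_)
    rw [norm_mul, Real.norm_eq_abs, Real.norm_of_nonneg (mul_nonneg (hf.nonneg _) (hg.nonneg _))]
    exact mul_le_mul_of_nonneg_right (hB p) (mul_nonneg (hf.nonneg _) (hg.nonneg _))
  rw [integral_prod φ hi, integral_nm hf.nonneg hf.meas, Measure.volume_eq_prod,
    integral_prod _ hi2, integral_prod_mul (μ := (volume : Measure (Eu κ)))
      (ν := (volume : Measure (Eu κ'))) f g]
  have e1 : ∀ x : Eu κ, (∫ y, φ (x, y) ∂(nm g)) * f x =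
      (∫ y : Eu κ', φ (x, y) * (f x * g y)) / ∫ y, g y := by
    intro x
    rw [integral_nm hg.nonneg hg.meas, div_mul_eq_mul_div, ← integral_mul_const]
    congr 1
    refine integral_congr_ae (Eventually.of_forall fun y => ?_)
    simp only
    ring
  simp only [e1]
  rw [integral_div, div_div, mul_comm (∫ y, g y)]

theorem wt_pm {f : Eu κ → ℝ} {g : Eu κ' → ℝ} (hf : Wt f) (hg : Wt g) :
    Wt fun z : Eu (κ ⊕ κ') => f (pl z) * g (pr z) := by
  have := vol_haar κ κ'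
  have h1 : Measurable fun z : Eu (κ ⊕ κ') => f (pl z) * g (pr z) :=
    (hf.meas.comp cont_pl.measurable).mul (hg.meas.comp cont_pr.measurable)
  refine ⟨fun z => mul_nonneg (hf.nonneg _) (hg.nonneg _), h1, ?_, ?_⟩
  · rw [← integral_pos_scale (volume : Measure (Eu κ × Eu κ')) volume
      (mkE : (Eu κ × Eu κ') ≃ₗ[ℝ] Eu (κ ⊕ κ')).toContinuousLinearEquiv 0]
    have e : ∫ p : Eu κ × Eu κ', f p.1 * g p.2 = (∫ x, f x) * ∫ y, g y := by
      rw [Measure.volume_eq_prod]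
      exact integral_prod_mul f g
    have h2 : 0 < ∫ p : Eu κ × Eu κ', f p.1 * g p.2 := by
      rw [e]
      exact mul_pos hf.pos hg.pos
    refine lt_of_lt_of_eq h2 (integral_congr_ae (Eventually.of_forall fun p => ?_))
    simp only [add_zero]
    rfl
  · rw [← integrable_scale (volume : Measure (Eu κ × Eu κ')) volume
      (mkE : (Eu κ × Eu κ') ≃ₗ[ℝ] Eu (κ ⊕ κ')).toContinuousLinearEquiv 0]
    have h3 : Integrable (fun p : Eu κ × Eu κ' =>
        ((1 + ‖p.1‖ ^ 2) * f p.1) * ((1 + ‖p.2‖ ^ 2) * g p.2)) := by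
      rw [Measure.volume_eq_prod]
      exact hf.mom.mul_prod hg.mom
    refine h3.mono' ?_ (Eventually.of_forall fun p => ?_)
    · have hm : Measurable fun p : Eu κ × Eu κ' => mk p.1 p.2 := cont_mk.measurable
      have h4 : Measurable fun z : Eu (κ ⊕ κ') => (1 + ‖z‖ ^ 2) * (f (pl z) * g (pr z)) :=
        (by fun_prop : Measurable fun z : Eu (κ ⊕ κ') => 1 + ‖z‖ ^ 2).mul h1
      have h5 := (h4.comp hm).aestronglyMeasurable (μ := (volume : Measure (Eu κ × Eu κ')))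
      refine h5.congr (Eventually.of_forall fun p => ?_)
      simp only [Function.comp, add_zero]
      rfl
    · have e1 : (mkE : (Eu κ × Eu κ') ≃ₗ[ℝ] Eu (κ ⊕ κ')).toContinuousLinearEquiv p + 0 =
          mk p.1 p.2 := add_zero _
      rw [e1, pl_mk, pr_mk, norm_mk_sq, Real.norm_of_nonneg (mul_nonneg (by positivity)
        (mul_nonneg (hf.nonneg _) (hg.nonneg _)))]
      have h6 := mul_nonneg (hf.nonneg p.1) (hg.nonneg p.2)
      nlinarith [mul_nonneg (mul_nonneg (sq_nonneg ‖p.1‖) (sq_nonneg ‖p.2‖)) h6]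

theorem pm_nm {f : Eu κ → ℝ} {g : Eu κ' → ℝ} (hf : Wt f) (hg : Wt g) :
    nm (fun z : Eu (κ ⊕ κ') => f (pl z) * g (pr z)) = pm (nm f) (nm g) := by
  have := vol_haar κ κ'
  have hpf := hf.prob
  have hpg := hg.prob
  have hw := wt_pm hf hg
  have hp := hw.prob
  refine ext_of_forall_integral_eq_of_IsFiniteMeasure fun φ => ?_
  have hB : ∀ p : Eu κ × Eu κ', |φ (mk p.1 p.2)| ≤ ‖φ‖ := fun p => by
    rw [← Real.norm_eq_abs]
    exact φ.norm_coe_le_norm _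
  have e0 := integral_prod_nm hf hg (φ := fun p => φ (mk p.1 p.2)) (φ.continuous.comp cont_mk) hB
  rw [integral_pm φ.continuous, e0, integral_nm hw.nonneg hw.meas, integral_quot (volume : Measure (Eu κ × Eu κ')) volume
      (mkE : (Eu κ × Eu κ') ≃ₗ[ℝ] Eu (κ ⊕ κ')).toContinuousLinearEquiv 0]
  simp only [add_zero]
  rfl

theorem covLe_pm {μ : Measure (Eu κ)} {ν : Measure (Eu κ')} [IsProbabilityMeasure μ]
    [IsProbabilityMeasure ν] (hμ : Integrable (fun x => ‖x‖ ^ 2) μ)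
    (hν : Integrable (fun x => ‖x‖ ^ 2) ν) {s : ℝ} (h1 : CovLe μ s) (h2 : CovLe ν s) :
    CovLe (pm μ ν) s := by
  intro θ hθ
  obtain ⟨a, ha⟩ : ∃ a : Eu κ → ℝ, a = fun x => ⟪x, pl θ⟫_ℝ := ⟨_, rfl⟩
  obtain ⟨b, hb⟩ : ∃ b : Eu κ' → ℝ, b = fun x => ⟪x, pr θ⟫_ℝ := ⟨_, rfl⟩
  have hab : ∀ p : Eu κ × Eu κ', ⟪mk p.1 p.2, θ⟫_ℝ = a p.1 + b p.2 := by
    intro p
    rw [PiLp.inner_apply, Fintype.sum_sum_type, ha, hb]
    simp only [PiLp.inner_apply]
    rfl
  have ia : Integrable a μ := by rw [ha]; exact (grow_inner _).integrable hμ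
  have ib : Integrable b ν := by rw [hb]; exact (grow_inner _).integrable hν
  have ia2 : Integrable (fun x => a x ^ 2) μ := by rw [ha]; exact (grow_inner_sq _).integrable hμ
  have ib2 : Integrable (fun x => b x ^ 2) ν := by rw [hb]; exact (grow_inner_sq _).integrable hν
  have hint : Integrable (fun z => ‖z‖ ^ 2) (pm μ ν) := by
    rw [pm, integrable_map_measure (by fun_prop) cont_mk.measurable.aemeasurable]
    refine ((hμ.comp_fst ν).add (hν.comp_snd μ)).congr (Eventually.of_forall fun p => ?_)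
    show ‖p.1‖ ^ 2 + ‖p.2‖ ^ 2 = ‖mk p.1 p.2‖ ^ 2
    rw [norm_mk_sq]
  rw [var_eq hint, integral_pm (by fun_prop), integral_pm (by fun_prop)]
  simp only [hab]
  have e1 : ∫ p : Eu κ × Eu κ', (a p.1 + b p.2) ∂(μ.prod ν) = (∫ x, a x ∂μ) + ∫ y, b y ∂ν := by
    rw [integral_add (ia.comp_fst ν) (ib.comp_snd μ), integral_fun_fst, integral_fun_snd]
    simp
  have e2 : ∫ p : Eu κ × Eu κ', (a p.1 + b p.2) ^ 2 ∂(μ.prod ν) =
      (∫ x, a x ^ 2 ∂μ) + 2 * ((∫ x, a x ∂μ) * ∫ y, b y ∂ν) + ∫ y, b y ^ 2 ∂ν := by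
    have e3 : ∀ p : Eu κ × Eu κ', (a p.1 + b p.2) ^ 2 =
        a p.1 ^ 2 + 2 * (a p.1 * b p.2) + b p.2 ^ 2 := fun p => by ring
    simp only [e3]
    have j1 : Integrable (fun p : Eu κ × Eu κ' => a p.1 ^ 2) (μ.prod ν) := ia2.comp_fst ν
    have j2 : Integrable (fun p : Eu κ × Eu κ' => b p.2 ^ 2) (μ.prod ν) := ib2.comp_snd μ
    have j3 : Integrable (fun p : Eu κ × Eu κ' => 2 * (a p.1 * b p.2)) (μ.prod ν) :=
      (ia.mul_prod ib).const_mul 2
    have k1 : ∫ p : Eu κ × Eu κ', (a p.1 ^ 2 + 2 * (a p.1 * b p.2) + b p.2 ^ 2) ∂(μ.prod ν) =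
        (∫ p : Eu κ × Eu κ', (a p.1 ^ 2 + 2 * (a p.1 * b p.2)) ∂(μ.prod ν)) +
          ∫ p : Eu κ × Eu κ', b p.2 ^ 2 ∂(μ.prod ν) := integral_add (j1.add j3) j2
    have k2 : ∫ p : Eu κ × Eu κ', (a p.1 ^ 2 + 2 * (a p.1 * b p.2)) ∂(μ.prod ν) =
        (∫ p : Eu κ × Eu κ', a p.1 ^ 2 ∂(μ.prod ν)) +
          ∫ p : Eu κ × Eu κ', 2 * (a p.1 * b p.2) ∂(μ.prod ν) := integral_add j1 j3
    rw [k1, k2, integral_const_mul, integral_prod_mul a b,
      integral_fun_fst (μ := μ) (ν := ν) fun x => a x ^ 2,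
      integral_fun_snd (μ := μ) (ν := ν) fun x => b x ^ 2]
    simp
  rw [e1, e2]
  have h3 := var_le_scale h1 (pl θ)
  have h4 := var_le_scale h2 (pr θ)
  rw [var_eq hμ] at h3
  rw [var_eq hν] at h4
  have h5 : ‖pl θ‖ ^ 2 + ‖pr θ‖ ^ 2 = 1 := by
    rw [← norm_sq_split, hθ, one_pow]
  have h3' : (∫ x, a x ^ 2 ∂μ) - (∫ x, a x ∂μ) ^ 2 ≤ ‖pl θ‖ ^ 2 * s := by rw [ha]; exact h3
  have h4' : (∫ x, b x ^ 2 ∂ν) - (∫ x, b x ∂ν) ^ 2 ≤ ‖pr θ‖ ^ 2 * s := by rw [hb]; exact h4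
  have h6 : ‖pl θ‖ ^ 2 * s + ‖pr θ‖ ^ 2 * s = s := by rw [← add_mul, h5, one_mul]
  nlinarith

end prod

section gcl

variable {κ κ' F F' : Type} [Fintype κ] [Fintype κ'] [Fintype F] [Fintype F']

/-- direct sum of linear maps -/
def sumL (A : Eu κ →ₗ[ℝ] Eu F) (B : Eu κ' →ₗ[ℝ] Eu F') : Eu (κ ⊕ κ') →ₗ[ℝ] Eu (F ⊕ F') where
  toFun z := mk (A (pl z)) (B (pr z))
  map_add' y z := by
    have e1 : pl (y + z) = pl y + pl z := rfl
    have e2 : pr (y + z) = pr y + pr z := rfl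
    rw [e1, e2, map_add, map_add]
    ext i
    rcases i with i | i <;> rfl
  map_smul' c z := by
    have e1 : pl (c • z) = c • pl z := rfl
    have e2 : pr (c • z) = c • pr z := rfl
    rw [e1, e2, map_smul, map_smul]
    ext i
    rcases i with i | i <;> rfl

theorem sumL_inj {A : Eu κ →ₗ[ℝ] Eu F} {B : Eu κ' →ₗ[ℝ] Eu F'} (hA : Function.Injective A)
    (hB : Function.Injective B) : Function.Injective (sumL A B) := by
  intro y z h
  have h1 : A (pl y) = A (pl z) := congrArg pl h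
  have h2 : B (pr y) = B (pr z) := congrArg pr h
  rw [← mk_pl_pr y, ← mk_pl_pr z, hA h1, hB h2]

theorem gcl_sumL (A : Eu κ →ₗ[ℝ] Eu F) (B : Eu κ' →ₗ[ℝ] Eu F') (z : Eu (κ ⊕ κ')) :
    gcl (sumL A B) z = gcl A (pl z) * gcl B (pr z) := by
  have e : ‖sumL A B z‖ ^ 2 = ‖A (pl z)‖ ^ 2 + ‖B (pr z)‖ ^ 2 := norm_mk_sq _ _
  unfold gcl
  by_cases h1 : ∀ i, |pl z i| ≤ 1
  · by_cases h2 : ∀ i, |pr z i| ≤ 1
    · rw [if_pos h1, if_pos h2, if_pos (by
        rintro (i | i)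
        · exact h1 i
        · exact h2 i), e, ← Real.exp_add]
      congr 1
      ring
    · rw [if_pos h1, if_neg h2, if_neg (fun h => h2 fun i => h (Sum.inr i)), mul_zero]
  · rw [if_neg h1, if_neg (fun h => h1 fun i => h (Sum.inl i)), zero_mul]

theorem pm_gcl (A : Eu κ →ₗ[ℝ] Eu F) (B : Eu κ' →ₗ[ℝ] Eu F') :
    nm (gcl (sumL A B)) = pm (nm (gcl A)) (nm (gcl B)) := by
  rw [← pm_nm wt_gcl wt_gcl]
  congr 1
  funext z
  exact gcl_sumL A B z

end gcl

end Pool.Agent.H776
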