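import Pool.Agent.H776.Univ
import Pool.Agent.H776.SProd
import Pool.Agent.H776.Aff

/-!
# Gaussian measures conditioned on the positivity of some of the coordinates
-/

set_option autoImplicit false

namespace Pool.Agent.H776

open MeasureTheory Set Filter Topology
open scoped ENNReal InnerProductSpace Matrix

section pad

variable {κ κ' : Type} [Fintype κ] [Fintype κ']

theorem norm_plL_le : ‖(plL : Eu (κ ⊕ κ') →L[ℝ] Eu κ)‖ ≤ 1 := by
  refine ContinuousLinearMap.opNorm_le_bound _ zero_le_one fun z => ?_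
  rw [one_mul]
  show ‖pl z‖ ≤ ‖z‖
  have h1 := norm_sq_split z
  have h2 : ‖pl z‖ ^ 2 ≤ ‖z‖ ^ 2 := by
    rw [h1]
    nlinarith [sq_nonneg ‖pr z‖]
  exact (abs_le_of_sq_le_sq' h2 (norm_nonneg _)).2

/-- **the inequality for the factors of product measures with a small second factor** -/
theorem kp_factor {f : Eu κ → ℝ} (hf : Wt f) {h : Eu κ' → ℝ} (hh : Wt h) {D : ℝ} (hD : 0 ≤ D)
    (hsc : ∀ c : ℝ, 0 < c → Wt fun y => h (c • y))
    (H : ∀ c : ℝ, 0 < c → KP (nm fun z : Eu (κ ⊕ κ') => f (pl z) * h (c • pr z)) D) :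
    KP (nm f) D := by
  intro s hs hcov
  have hpf := hf.prob
  obtain ⟨σ, hσ⟩ : ∃ σ : ℝ, σ = ∫ x, ‖x‖ ^ 2 ∂(nm h) := ⟨_, rfl⟩
  have hσ0 : 0 ≤ σ := by
    rw [hσ]
    exact integral_nonneg fun x => sq_nonneg _
  obtain ⟨c, hc⟩ : ∃ c : ℝ, c = Real.sqrt (σ / s) + 1 := ⟨_, rfl⟩
  have hc0 : 0 < c := by
    rw [hc]
    positivity
  have hcs : c⁻¹ ^ 2 * σ ≤ s := by
    have h1 : σ / s ≤ c ^ 2 := by
      rw [hc]
      have h2 := Real.sq_sqrt (div_nonneg hσ0 hs.le)
      nlinarith [Real.sqrt_nonneg (σ / s)]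
    rw [div_le_iff₀ hs] at h1
    rw [inv_pow, inv_mul_le_iff₀ (by positivity)]
    exact h1
  have hh' := hsc c hc0
  have hp' := hh'.prob
  have hdil := nm_dilate (g := h) hh.nonneg hh.meas hc0
  have hcov' : CovLe (nm fun y => h (c • y)) s := by
    intro θ hθ
    rw [var_eq hh'.int_sq]
    have h1 : ∫ x, ⟪x, θ⟫_ℝ ^ 2 ∂(nm fun y => h (c • y)) ≤
        ∫ x, ‖x‖ ^ 2 ∂(nm fun y => h (c • y)) := by
      refine integral_mono ((grow_inner_sq θ).integrable hh'.int_sq) hh'.int_sq fun x => ?_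
      have h2 := abs_real_inner_le_norm x θ
      rw [hθ, mul_one] at h2
      have h3 := pow_le_pow_left₀ (abs_nonneg _) h2 2
      rwa [sq_abs] at h3
    have h2 : ∫ x, ‖x‖ ^ 2 ∂(nm fun y => h (c • y)) = c⁻¹ ^ 2 * σ := by
      rw [hdil, integral_map (by fun_prop) (by fun_prop), hσ, ← integral_const_mul]
      refine integral_congr_ae (Eventually.of_forall fun x => ?_)
      simp only [sub_zero]
      rw [norm_smul, mul_pow, Real.norm_eq_abs, sq_abs]
    have h3 := sq_nonneg (∫ x, ⟪x, θ⟫_ℝ ∂(nm fun y => h (c • y)))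
    linarith
  have h1 := H c hc0 s hs (by
    rw [pm_nm hf hh']
    exact covLe_pm hf.int_sq hh'.int_sq hcov hcov')
  rw [pm_nm hf hh'] at h1
  have h2 := h1.image (T := (plL : Eu (κ ⊕ κ') →L[ℝ] Eu κ)) norm_plL_le
    (mul_nonneg hD hs.le) 0
  have e : ((pm (nm f) (nm fun y => h (c • y))).map
      fun y => (plL : Eu (κ ⊕ κ') →L[ℝ] Eu κ) y - 0) = nm f := by
    rw [pm, Measure.map_map (by fun_prop) cont_mk.measurable]
    have e1 : (fun y => (plL : Eu (κ ⊕ κ') →L[ℝ] Eu κ) y - 0) ∘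
        (fun p : Eu κ × Eu κ' => mk p.1 p.2) = Prod.fst := by
      funext p
      show pl (mk p.1 p.2) - 0 = p.1
      rw [sub_zero, pl_mk]
    rw [e1]
    exact Measure.fst_prod
  rwa [e] at h2

open Classical in
/-- Gaussian densities on the set where the coordinates in `I` are nonnegative -/
noncomputable def pq (I : κ → Prop) (Q : Matrix κ κ ℝ) (y : Eu κ) : ℝ :=
  if ∀ i, I i → 0 ≤ y i then Real.exp (-(qf Q y / 2)) else 0

variable {I : κ → Prop} {Q : Matrix κ κ ℝ}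

theorem pq_nonneg (y : Eu κ) : 0 ≤ pq I Q y := by
  unfold pq
  split_ifs
  · exact (Real.exp_pos _).le
  · exact le_rfl

theorem part_meas : MeasurableSet {y : Eu κ | ∀ i, I i → 0 ≤ y i} := by
  have e : {y : Eu κ | ∀ i, I i → 0 ≤ y i} = ⋂ i, ⋂ (_ : I i), {y | 0 ≤ y i} := by
    ext y
    simp
  rw [e]
  exact MeasurableSet.iInter fun i => MeasurableSet.iInter fun _ =>
    measurableSet_le measurable_const (by fun_prop)

theorem pq_meas : Measurable (pq I Q) := by
  exact Measurable.ite part_meas (exp_half_meas (qf_cont Q)) measurable_const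

theorem pq_le (y : Eu κ) : pq I Q y ≤ Real.exp (-(qf Q y / 2)) := by
  unfold pq
  split_ifs
  · exact le_rfl
  · exact (Real.exp_pos _).le

theorem gq_le_pq (y : Eu κ) : gq Q y ≤ pq I Q y := by
  unfold gq
  split_ifs with h
  · unfold pq
    rw [if_pos fun i _ => h i]
  · exact pq_nonneg y

theorem wt_pq (hQ : Q.PosDef) : Wt (pq I Q) := by
  classical
  obtain ⟨A, hA, hx⟩ := exists_map hQ
  obtain ⟨q, hq, hqA⟩ := exists_q hA
  have e : ∀ y : Eu κ, qf Q y = ‖A y‖ ^ 2 := fun y => (hx y).symm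
  have hmom : Integrable fun y : Eu κ => (1 + ‖y‖ ^ 2) * pq I Q y := by
    have h1 := (mom_shift (A := A) (b := (0 : Eu κ)) hq hqA 0).1
    simp only [smul_zero, sub_zero] at h1
    refine h1.mono' (((by fun_prop : Measurable fun y : Eu κ => 1 + ‖y‖ ^ 2).mul
      pq_meas).aestronglyMeasurable) (Eventually.of_forall fun y => ?_)
    rw [Real.norm_of_nonneg (mul_nonneg (by positivity) (pq_nonneg y))]
    refine mul_le_mul_of_nonneg_left ?_ (by positivity)
    rw [← e]
    exact pq_le y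
  have hint : Integrable (pq I Q) := by
    refine (hmom.mono' pq_meas.aestronglyMeasurable (Eventually.of_forall fun y => ?_))
    rw [Real.norm_of_nonneg (pq_nonneg y)]
    have := pq_nonneg (I := I) (Q := Q) y
    nlinarith [sq_nonneg ‖y‖, mul_nonneg (sq_nonneg ‖y‖) this]
  refine ⟨pq_nonneg, pq_meas, ?_, hmom⟩
  exact (gq_pos hQ).trans_le (integral_mono (wt_gq hQ).integrable hint gq_le_pq)

theorem pq_rx (e : κ' ≃ κ) (y : Eu κ') :
    pq I Q (rx e y) = pq (fun i => I (e i)) (Q.submatrix e e) y := by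
  unfold pq
  have h1 : qf (Q.submatrix e e) y = qf Q (rx e y) := by
    rw [← qf_submatrix e Q]
    congr 1
    funext i
    rw [rx_apply, Equiv.symm_apply_apply]
  have h2 : (∀ i, I i → 0 ≤ rx e y i) ↔ ∀ i, I (e i) → 0 ≤ y i := by
    constructor
    · intro h i hi
      have h3 := h (e i) hi
      rwa [rx_apply, Equiv.symm_apply_apply] at h3
    · intro h i hi
      rw [rx_apply]
      exact h _ (by rwa [Equiv.apply_symm_apply])
  rw [h1]
  by_cases h : ∀ i, I (e i) → 0 ≤ y i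
  · rw [if_pos h, if_pos (h2.2 h)]
  · rw [if_neg h, if_neg fun h' => h (h2.1 h')]

theorem kp_reindex' (e : κ' ≃ κ) (hQ : Q.PosDef) {D : ℝ} (hD : 0 ≤ D)
    (h : KP (nm (pq (fun i => I (e i)) (Q.submatrix e e))) D) : KP (nm (pq I Q)) D := by
  have hw : Wt (pq (fun i => I (e i)) (Q.submatrix e e)) := wt_pq (hQ.submatrix e.injective)
  have hp := hw.prob
  have h6 := h.iso hw.int_sq (rx e) hD
  have h7 : (nm (pq (fun i => I (e i)) (Q.submatrix e e))).map (rx e) = nm (pq I Q) := by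
    rw [← nm_iso (F := pq I Q) (rx e)]
    congr 2
    funext y
    rw [pq_rx]
  rwa [h7] at h6

theorem qf_pos (hQ : Q.PosDef) {y : Eu κ} (hy : y ≠ 0) : 0 < qf Q y := by
  obtain ⟨q, hq, h⟩ := qf_low hQ
  have := norm_pos_iff.2 hy
  exact (mul_pos hq (by positivity)).trans_le (h y)

theorem qf_nonneg' (hQ : Q.PosDef) (y : Eu κ) : 0 ≤ qf Q y := by
  obtain ⟨q, hq, h⟩ := qf_low hQ
  exact (mul_nonneg hq.le (sq_nonneg _)).trans (h y)

end pad

section block

variable {κ κ' : Type} [Fintype κ] [Fintype κ'] [DecidableEq κ']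

/-- block diagonal matrices -/
def bl (κ' : Type) [DecidableEq κ'] (Q : Matrix κ κ ℝ) (c : ℝ) : Matrix (κ ⊕ κ') (κ ⊕ κ') ℝ :=
  Matrix.fromBlocks Q 0 0 (c ^ 2 • (1 : Matrix κ' κ' ℝ))

theorem qf_one (y : Eu κ') : qf (1 : Matrix κ' κ' ℝ) y = ‖y‖ ^ 2 := by
  unfold qf
  rw [EuclideanSpace.norm_sq_eq]
  refine Finset.sum_congr rfl fun i _ => ?_
  simp only [Matrix.one_apply, ite_mul, one_mul, zero_mul, Finset.sum_ite_eq, Finset.mem_univ,
    if_true]
  rw [Real.norm_eq_abs, sq_abs]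
  ring

theorem qf_bl (Q : Matrix κ κ ℝ) (c : ℝ) (z : Eu (κ ⊕ κ')) :
    qf (bl κ' Q c) z = qf Q (pl z) + c ^ 2 * ‖pr z‖ ^ 2 := by
  rw [← qf_one (pr z)]
  unfold qf bl
  rw [Fintype.sum_sum_type]
  simp only [Fintype.sum_sum_type, Matrix.fromBlocks_apply₁₁, Matrix.fromBlocks_apply₁₂,
    Matrix.fromBlocks_apply₂₁, Matrix.fromBlocks_apply₂₂, Matrix.zero_apply, zero_mul,
    Finset.sum_const_zero, add_zero, zero_add]
  congr 1
  rw [Finset.mul_sum]
  refine Finset.sum_congr rfl fun i _ => ?_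
  rw [Finset.mul_sum]
  refine Finset.sum_congr rfl fun j _ => ?_
  rw [Matrix.smul_apply, smul_eq_mul]
  simp only [pr_apply]
  ring

theorem bl_pd {Q : Matrix κ κ ℝ} (hQ : Q.PosDef) {c : ℝ} (hc : 0 < c) : (bl κ' Q c).PosDef := by
  refine Matrix.PosDef.of_dotProduct_mulVec_pos ?_ fun x hx0 => ?_
  · unfold bl
    have h1 : Qᴴ = Q := hQ.isHermitian
    rw [Matrix.IsHermitian, Matrix.fromBlocks_conjTranspose, h1]
    simp
  · have h1 : star x ⬝ᵥ (bl κ' Q c).mulVec x = qf (bl κ' Q c) x := by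
      unfold qf
      simp only [dotProduct, Matrix.mulVec, star_trivial, Finset.mul_sum]
      refine Finset.sum_congr rfl fun i _ => Finset.sum_congr rfl fun j _ => ?_
      ring
    rw [h1]
    obtain ⟨z, hz⟩ : ∃ z : Eu (κ ⊕ κ'), z = WithLp.toLp 2 x := ⟨_, rfl⟩
    have e : qf (bl κ' Q c) x = qf (bl κ' Q c) z := by
      rw [hz]
    rw [e, qf_bl]
    by_cases h : pl z = 0
    · have h2 : pr z ≠ 0 := by
        intro h3
        have h4 : z = 0 := by
          rw [← mk_pl_pr z, h, h3]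
          ext i
          rcases i with i | i <;> rfl
        rw [hz] at h4
        have h5 := congrArg WithLp.ofLp h4
        exact hx0 (by simpa using h5)
      have h3 := norm_pos_iff.2 h2
      have h4 := qf_nonneg' hQ (pl z)
      have : 0 < c ^ 2 * ‖pr z‖ ^ 2 := by positivity
      linarith
    · have h2 := qf_pos hQ h
      have : 0 ≤ c ^ 2 * ‖pr z‖ ^ 2 := by positivity
      linarith

omit [Fintype κ'] in
theorem one_pd : (1 : Matrix κ' κ' ℝ).PosDef := Matrix.PosDef.one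

theorem pq_one_smul (J : κ' → Prop) {c : ℝ} (hc : 0 < c) :
    (fun y : Eu κ' => pq J (1 : Matrix κ' κ' ℝ) (c • y)) = pq J (c ^ 2 • (1 : Matrix κ' κ' ℝ)) := by
  funext y
  unfold pq
  have h1 : (∀ i, J i → 0 ≤ (c • y) i) ↔ ∀ i, J i → 0 ≤ y i := by
    refine forall_congr' fun i => imp_congr_right fun _ => ?_
    rw [PiLp.smul_apply, smul_eq_mul]
    exact mul_nonneg_iff_of_pos_left hc
  have h2 : qf (c ^ 2 • (1 : Matrix κ' κ' ℝ)) y =
      qf (1 : Matrix κ' κ' ℝ) (WithLp.ofLp (c • y)) := by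
    unfold qf
    refine Finset.sum_congr rfl fun i _ => Finset.sum_congr rfl fun j _ => ?_
    rw [Matrix.smul_apply, smul_eq_mul]
    simp only [WithLp.ofLp_smul, Pi.smul_apply, smul_eq_mul]
    ring
  rw [h2]
  by_cases h : ∀ i, J i → 0 ≤ y i
  · rw [if_pos h, if_pos (h1.2 h)]
  · rw [if_neg h, if_neg fun h' => h (h1.1 h')]

/-- **padding** -/
theorem kp_pad {D : ℝ} (hD : 0 ≤ D) {d n m : ℕ} (hm : m ≤ d) (hn : m ≤ n)
    (H : ∀ Q : Matrix (Fin n) (Fin n) ℝ, Q.PosDef →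
      KP (nm (pq (fun i : Fin n => (i : ℕ) < d) Q)) D)
    {Q : Matrix (Fin m) (Fin m) ℝ} (hQ : Q.PosDef) : KP (nm (gq Q)) D := by
  obtain ⟨p, rfl⟩ := Nat.exists_eq_add_of_le hn
  obtain ⟨J, hJ⟩ : ∃ J : Fin p → Prop, J = fun i : Fin p => m + (i : ℕ) < d := ⟨_, rfl⟩
  refine kp_factor (κ' := Fin p) (h := pq J 1) (wt_gq hQ) (wt_pq one_pd) hD (fun c hc => ?_)
    fun c hc => ?_
  · rw [pq_one_smul J hc]
    exact wt_pq (one_pd.smul (by positivity))
  · have hbl := bl_pd (κ' := Fin p) hQ hc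
    have e : (fun z : Eu (Fin m ⊕ Fin p) => gq Q (pl z) * pq J 1 (c • pr z)) =
        pq (fun s => ((finSumFinEquiv s : Fin (m + p)) : ℕ) < d) (bl (Fin p) Q c) := by
      funext z
      have h1 : (∀ i, J i → 0 ≤ (c • pr z) i) ↔ ∀ i, J i → 0 ≤ pr z i := by
        refine forall_congr' fun i => imp_congr_right fun _ => ?_
        rw [PiLp.smul_apply, smul_eq_mul]
        exact mul_nonneg_iff_of_pos_left hc
      have h2 : (∀ s : Fin m ⊕ Fin p, ((finSumFinEquiv s : Fin (m + p)) : ℕ) < d → 0 ≤ z s) ↔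
          (∀ i, 0 ≤ pl z i) ∧ ∀ i, J i → 0 ≤ pr z i := by
        rw [Sum.forall]
        refine and_congr (forall_congr' fun i => ?_) (forall_congr' fun i => ?_)
        · have h3 : ((finSumFinEquiv (Sum.inl i : Fin m ⊕ Fin p) : Fin (m + p)) : ℕ) < d := by
            rw [finSumFinEquiv_apply_left, Fin.val_castAdd]
            exact i.2.trans_le hm
          constructor
          · intro h
            exact h h3
          · intro h _
            exact h
        · rw [finSumFinEquiv_apply_right, Fin.val_natAdd, hJ]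
          rfl
      have h3 : qf (1 : Matrix (Fin p) (Fin p) ℝ) (WithLp.ofLp (c • pr z)) =
          c ^ 2 * ‖pr z‖ ^ 2 := by
        have h4 := qf_one (c • pr z)
        rw [norm_smul, mul_pow, Real.norm_eq_abs, sq_abs] at h4
        exact h4
      unfold gq pq
      rw [qf_bl]
      by_cases ha : ∀ i, 0 ≤ pl z i
      · by_cases hb : ∀ i, J i → 0 ≤ pr z i
        · rw [if_pos ha, if_pos (h1.2 hb), if_pos (h2.2 ⟨ha, hb⟩), ← Real.exp_add]
          congr 1
          rw [h3]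
          ring
        · rw [if_neg fun h => hb (h1.1 h), if_neg fun h => hb (h2.1 h).2, mul_zero]
      · rw [if_neg ha, if_neg fun h => ha (h2.1 h).1, zero_mul]
    rw [e]
    refine kp_reindex' (finSumFinEquiv (m := m) (n := p)).symm hbl hD ?_
    simp only [Equiv.apply_symm_apply]
    exact H _ (hbl.submatrix (finSumFinEquiv (m := m) (n := p)).symm.injective)

end block

/-- **all log-concave measures from Gaussian measures conditioned on the positivity of `d(n)`
coordinates, `d(n) → ∞`** -/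
theorem kp_unbounded {D : ℝ} (hD : 0 ≤ D) {d : ℕ → ℕ} (hd : Tendsto d atTop atTop)
    (H : ∀ (n : ℕ) (Q : Matrix (Fin n) (Fin n) ℝ), Q.PosDef →
      KP (nm (pq (fun i : Fin n => (i : ℕ) < d n) Q)) D)
    {n : ℕ} {g : Eu (Fin n) → ℝ} (hg : Q289.LD.Den g) : KP (nm g) D := by
  refine kp_univ hD (fun N Q hQ => ?_) hg
  obtain ⟨k, hk1, hk2⟩ := ((hd.eventually (eventually_ge_atTop N)).and
    (eventually_ge_atTop N)).exists
  exact kp_pad hD hk1 hk2 (H k) hQ

end Pool.Agent.H776
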