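import Pool.Agent.H776.Ball2
import Pool.Agent.H776.ND7

/-!
# Centred Gaussian measures on orthants as limits of images of uniform measures on the parts of
ellipsoids where only some of the coordinates have to be nonnegative
-/

set_option autoImplicit false

namespace Pool.Agent.H776

open MeasureTheory Set Filter Topology
open scoped ENNReal InnerProductSpace Pointwise

section jball

variable {κ F : Type} [Fintype κ] [Fintype F]

/-- the part of the ellipsoid `‖A y‖² ≤ 1` where the coordinates in `I` are nonnegative -/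
def JO (I : κ → Prop) (A : Eu κ →ₗ[ℝ] Eu F) : Set (Eu κ) :=
  {y | (∀ i, I i → 0 ≤ y i) ∧ ‖A y‖ ^ 2 ≤ 1}

variable {I : κ → Prop}

theorem EO_subset_JO (A : Eu κ →ₗ[ℝ] Eu F) : EO A ⊆ JO I A := fun _ hy => ⟨fun i _ => hy.1 i, hy.2⟩

theorem JO_closed (A : Eu κ →ₗ[ℝ] Eu F) : IsClosed (JO I A) := by
  have hA : Continuous A := A.continuous_of_finiteDimensional
  have h1 : IsClosed {y : Eu κ | ∀ i, I i → 0 ≤ y i} := by
    have e : {y : Eu κ | ∀ i, I i → 0 ≤ y i} = ⋂ i, ⋂ (_ : I i), {y | 0 ≤ y i} := by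
      ext y
      simp
    rw [e]
    exact isClosed_iInter fun i => isClosed_iInter fun _ =>
      isClosed_le continuous_const (by fun_prop)
  have h2 : Continuous fun y : Eu κ => ‖A y‖ ^ 2 := by fun_prop
  exact h1.inter (isClosed_le h2 continuous_const)

theorem JO_compact {A : Eu κ →ₗ[ℝ] Eu F} (hA : Function.Injective A) : IsCompact (JO I A) := by
  obtain ⟨q, hq, hqA⟩ := exists_q hA
  refine (isCompact_closedBall (0 : Eu κ) q⁻¹).of_isClosed_subset (JO_closed A) fun y hy => ?_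
  rw [Metric.mem_closedBall, dist_zero_right]
  have h1 := hqA y
  have h2 : ‖A y‖ ≤ 1 := by
    have := hy.2
    nlinarith [norm_nonneg (A y)]
  rw [← one_div, le_div_iff₀ hq]
  linarith

theorem JO_interior (A : Eu κ →ₗ[ℝ] Eu F) : (interior (JO I A)).Nonempty :=
  (EO_interior A).mono (interior_mono (EO_subset_JO A))

theorem JO_convex (A : Eu κ →ₗ[ℝ] Eu F) : Convex ℝ (JO I A) := by
  intro x hx y hy a b ha hb hab
  refine ⟨fun i hi => ?_, ?_⟩
  · simp only [PiLp.add_apply, PiLp.smul_apply, smul_eq_mul]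
    exact add_nonneg (mul_nonneg ha (hx.1 i hi)) (mul_nonneg hb (hy.1 i hi))
  · have h1 : ‖A x‖ ≤ 1 := by
      have := hx.2
      nlinarith [norm_nonneg (A x)]
    have h2 : ‖A y‖ ≤ 1 := by
      have := hy.2
      nlinarith [norm_nonneg (A y)]
    have h3 : ‖A (a • x + b • y)‖ ≤ 1 := by
      rw [map_add, map_smul, map_smul]
      refine (norm_add_le _ _).trans ?_
      rw [norm_smul, norm_smul, Real.norm_of_nonneg ha, Real.norm_of_nonneg hb]
      nlinarith
    exact pow_le_one₀ (norm_nonneg _) h3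

/-- indicator function -/
noncomputable def jo (I : κ → Prop) (A : Eu κ →ₗ[ℝ] Eu F) : Eu κ → ℝ :=
  (JO I A).indicator fun _ => 1

/-- the constraints on the sum -/
def sI (κ : Type) {n : ℕ} (J : Fin n → Prop) : κ ⊕ Fin n → Prop := Sum.elim (fun _ => True) J

/-- the body in the variables `(y, z)` -/
def QJ (A : Eu κ →ₗ[ℝ] Eu F) {n : ℕ} (J : Fin n → Prop) : Set (Eu κ × Eu (Fin n)) :=
  {p | (∀ i, 0 ≤ p.1 i) ∧ (∀ j, J j → 0 ≤ p.2 j) ∧ ‖A p.1‖ ^ 2 + ‖p.2‖ ^ 2 ≤ n}

/-- indicator -/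
noncomputable def qj (A : Eu κ →ₗ[ℝ] Eu F) {n : ℕ} (J : Fin n → Prop) :
    Eu κ × Eu (Fin n) → ℝ := (QJ A J).indicator fun _ => 1

variable {n : ℕ} {J : Fin n → Prop}

theorem qj_nonneg {A : Eu κ →ₗ[ℝ] Eu F} (p : Eu κ × Eu (Fin n)) : 0 ≤ qj A J p :=
  indicator_nonneg (fun _ _ => zero_le_one) p

theorem QJ_meas {A : Eu κ →ₗ[ℝ] Eu F} : MeasurableSet (QJ A J) := by
  have hA : Continuous A := A.continuous_of_finiteDimensional
  have m1 : MeasurableSet {p : Eu κ × Eu (Fin n) | ∀ i, 0 ≤ p.1 i} := by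
    rw [ofPred_forall]
    exact MeasurableSet.iInter fun i => measurableSet_le measurable_const (by fun_prop)
  have m2 : MeasurableSet {p : Eu κ × Eu (Fin n) | ∀ i, J i → 0 ≤ p.2 i} :=
    part_meas.preimage measurable_snd
  have h2 : Measurable fun p : Eu κ × Eu (Fin n) => ‖A p.1‖ ^ 2 + ‖p.2‖ ^ 2 := by fun_prop
  exact m1.inter (m2.inter (measurableSet_le h2 measurable_const))

theorem jo_comp {A : Eu κ →ₗ[ℝ] Eu F} (hn : n ≠ 0) (p : Eu κ × Eu (Fin n)) :
    jo (sI κ J) (AE A n) (emc κ (Fin n) (n : ℝ)⁻¹ (inv_ne hn) p) = qj A J p := by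
  have hn' : (n : ℝ) ≠ 0 := by exact_mod_cast hn
  have hn0 : 0 < (n : ℝ) := by positivity
  have key : emc κ (Fin n) (n : ℝ)⁻¹ (inv_ne hn) p ∈ JO (sI κ J) (AE A n) ↔ p ∈ QJ A J := by
    rw [emc_apply]
    have e1 : (∀ i, sI κ J i → 0 ≤ (mk p.1 ((n : ℝ)⁻¹ • p.2) : Eu (κ ⊕ Fin n)) i) ↔
        ((∀ i, 0 ≤ p.1 i) ∧ ∀ j, J j → 0 ≤ p.2 j) := by
      rw [Sum.forall]
      refine and_congr ?_ (forall_congr' fun j => imp_congr Iff.rfl ?_)
      · exact ⟨fun h i => h i trivial, fun h i _ => h i⟩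
      · rw [mk_inr, PiLp.smul_apply, smul_eq_mul]
        exact mul_nonneg_iff_of_pos_left (inv_pos.2 hn0)
    have e2 : ‖AE A n (mk p.1 ((n : ℝ)⁻¹ • p.2))‖ ^ 2 = (‖A p.1‖ ^ 2 + ‖p.2‖ ^ 2) / n := by
      change ‖mk ((Real.sqrt n)⁻¹ • A p.1) ((Real.sqrt n)⁻¹ • (n : ℝ) • (n : ℝ)⁻¹ • p.2)‖ ^ 2 = _
      rw [smul_inv_smul₀ hn', norm_mk_sq, norm_smul, norm_smul, mul_pow, mul_pow, norm_inv,
        Real.norm_of_nonneg (Real.sqrt_nonneg _), inv_pow, Real.sq_sqrt hn0.le]
      ring
    unfold JO QJ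
    rw [mem_ofPred_eq, mem_ofPred_eq, e1, e2, div_le_one hn0, and_assoc]
  unfold jo qj
  by_cases hp : p ∈ QJ A J
  · rw [indicator_of_mem hp, indicator_of_mem (key.2 hp)]
  · rw [indicator_of_notMem hp, indicator_of_notMem fun h => hp (key.1 h)]

/-- part of the ball -/
def PJ (J : Fin n → Prop) (r : ℝ) : Set (Eu (Fin n)) := {z | (∀ j, J j → 0 ≤ z j) ∧ ‖z‖ ^ 2 ≤ r}

theorem PJ_scale {r : ℝ} (hr : 0 < r) :
    volume.real (PJ J r) = Real.sqrt r ^ n * volume.real (PJ J 1) := by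
  have hs : 0 < Real.sqrt r := Real.sqrt_pos.2 hr
  have e : PJ J r = Real.sqrt r • PJ J 1 := by
    ext z
    rw [mem_smul_set_iff_inv_smul_mem₀ hs.ne']
    unfold PJ
    rw [mem_ofPred_eq, mem_ofPred_eq]
    refine and_congr (forall_congr' fun j => imp_congr Iff.rfl ?_) ?_
    · rw [PiLp.smul_apply, smul_eq_mul]
      exact (mul_nonneg_iff_of_pos_left (inv_pos.2 hs)).symm
    · rw [norm_smul, norm_inv, Real.norm_of_nonneg hs.le, mul_pow, inv_pow, Real.sq_sqrt hr.le,
        inv_mul_le_iff₀ hr, mul_one]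
  rw [e, measureReal_def, Measure.addHaar_smul, ENNReal.toReal_mul, finrank_euclideanSpace,
    Fintype.card_fin, ENNReal.toReal_ofReal (abs_nonneg _), abs_of_nonneg (by positivity)]
  rfl

theorem PJ_vol (hn : n ≠ 0) (r : ℝ) :
    volume.real (PJ J r) = Real.sqrt r ^ n * volume.real (PJ J 1) := by
  rcases lt_or_ge 0 r with hr | hr
  · exact PJ_scale hr
  · rw [Real.sqrt_eq_zero_of_nonpos hr, zero_pow hn, zero_mul]
    have h1 : PJ J r ⊆ {0} := fun z hz => by
      have h2 := hz.2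
      have h3 : ‖z‖ ^ 2 = 0 := le_antisymm (h2.trans hr) (sq_nonneg _)
      rw [mem_singleton_iff]
      exact norm_eq_zero.1 (pow_eq_zero_iff two_ne_zero |>.1 h3)
    have : Nonempty (Fin n) := ⟨⟨0, Nat.pos_of_ne_zero hn⟩⟩
    have h4 : volume (PJ J r) = 0 := measure_mono_null h1 (by
      have : Nontrivial (Eu (Fin n)) := inferInstance
      exact measure_singleton _)
    rw [measureReal_def, h4, ENNReal.toReal_zero]

theorem PJ_pos : 0 < volume.real (PJ J 1) := by
  have h1 := JO_interior (I := J) (LinearMap.id : Eu (Fin n) →ₗ[ℝ] Eu (Fin n))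
  have h2 := JO_compact (I := J) (A := (LinearMap.id : Eu (Fin n) →ₗ[ℝ] Eu (Fin n)))
    Function.injective_id
  have e : JO J (LinearMap.id : Eu (Fin n) →ₗ[ℝ] Eu (Fin n)) = PJ J 1 := rfl
  rw [e] at h1 h2
  exact ENNReal.toReal_pos (lt_of_lt_of_le (isOpen_interior.measure_pos volume h1)
    (measure_mono interior_subset)).ne' h2.measure_lt_top.ne

theorem PJ_meas {r : ℝ} : MeasurableSet (PJ J r) := by
  have m2 : MeasurableSet {p : Eu (Fin n) | ∀ i, J i → 0 ≤ p i} := part_meas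
  have h2 : Measurable fun p : Eu (Fin n) => ‖p‖ ^ 2 := by fun_prop
  exact m2.inter (measurableSet_le h2 measurable_const)

/-- the normalising constants -/
noncomputable def cJ (J : Fin n → Prop) : ℝ := Real.sqrt n ^ n * volume.real (PJ J 1)

theorem cJ_pos (hn : n ≠ 0) : 0 < cJ J := by
  have hn0 : 0 < (n : ℝ) := by positivity
  exact mul_pos (pow_pos (Real.sqrt_pos.2 hn0) _) PJ_pos

theorem QJ_compact {A : Eu κ →ₗ[ℝ] Eu F} (hA : Function.Injective A) (hn : n ≠ 0) :
    IsCompact (QJ A J) := by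
  have h1 := JO_compact (I := sI κ J) (AE_inj hA hn)
  have h2 := (emc κ (Fin n) (n : ℝ)⁻¹ (inv_ne hn)).toHomeomorph.isClosedEmbedding.isCompact_preimage h1
  have e : (emc κ (Fin n) (n : ℝ)⁻¹ (inv_ne hn)).toHomeomorph ⁻¹' JO (sI κ J) (AE A n) =
      QJ A J := by
    ext p
    have h3 := jo_comp (A := A) (J := J) hn p
    unfold jo qj at h3
    change emc κ (Fin n) (n : ℝ)⁻¹ (inv_ne hn) p ∈ JO (sI κ J) (AE A n) ↔ _
    by_cases hp : p ∈ QJ A J
    · rw [indicator_of_mem hp] at h3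
      by_contra h4
      have h5 : emc κ (Fin n) (n : ℝ)⁻¹ (inv_ne hn) p ∉ JO (sI κ J) (AE A n) :=
        fun h => h4 ⟨fun _ => hp, fun _ => h⟩
      rw [indicator_of_notMem h5] at h3
      exact zero_ne_one h3
    · rw [indicator_of_notMem hp] at h3
      by_contra h4
      have h5 : emc κ (Fin n) (n : ℝ)⁻¹ (inv_ne hn) p ∈ JO (sI κ J) (AE A n) := by
        by_contra h6
        exact h4 ⟨fun h => absurd h h6, fun h => absurd h hp⟩
      rw [indicator_of_mem h5] at h3
      exact one_ne_zero h3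
  rwa [e] at h2

theorem qj_slice {A : Eu κ →ₗ[ℝ] Eu F} (hn : n ≠ 0) (y : Eu κ) :
    ∫ z : Eu (Fin n), qj A J (y, z) = cJ J * gn A n y := by
  have hn' : (n : ℝ) ≠ 0 := by exact_mod_cast hn
  have hn0 : 0 < (n : ℝ) := by positivity
  unfold gn
  by_cases hy : ∀ i, 0 ≤ y i
  · rw [if_pos hy]
    have e : (fun z : Eu (Fin n) => qj A J (y, z)) =
        (PJ J (n - ‖A y‖ ^ 2)).indicator fun _ => 1 := by
      funext z
      unfold qj
      by_cases hz : (y, z) ∈ QJ A J
      · rw [indicator_of_mem hz, indicator_of_mem]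
        exact ⟨hz.2.1, by have := hz.2.2; simp only at this; linarith⟩
      · rw [indicator_of_notMem hz, indicator_of_notMem]
        intro hz'
        exact hz ⟨hy, hz'.1, by have := hz'.2; simp only; linarith⟩
    rw [e, integral_indicator PJ_meas, setIntegral_const, smul_eq_mul, mul_one, PJ_vol hn, cJ]
    have e2 : (n : ℝ) - ‖A y‖ ^ 2 = n * (1 - ‖A y‖ ^ 2 / n) := by
      field_simp
    rw [e2, Real.sqrt_mul hn0.le, mul_pow]
    ring
  · rw [if_neg hy, mul_zero]
    have e : (fun z : Eu (Fin n) => qj A J (y, z)) = fun _ => 0 := by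
      funext z
      unfold qj
      rw [indicator_of_notMem]
      intro hz
      exact hy hz.1
    rw [e, integral_zero]

theorem qj_int {A : Eu κ →ₗ[ℝ] Eu F} (hA : Function.Injective A) (hn : n ≠ 0)
    {ψ : Eu κ × Eu (Fin n) → ℝ} (hψ : Continuous ψ) : Integrable fun p => ψ p * qj A J p := by
  have := vol_haar κ (Fin n)
  have h1 : IntegrableOn ψ (QJ A J) := hψ.continuousOn.integrableOn_compact (QJ_compact hA hn)
  have h2 := (integrable_indicator_iff QJ_meas).2 h1
  refine h2.congr (Eventually.of_forall fun p => ?_)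
  unfold qj
  by_cases hp : p ∈ QJ A J
  · simp [indicator_of_mem hp]
  · simp [indicator_of_notMem hp]

theorem qj_fub {A : Eu κ →ₗ[ℝ] Eu F} (hA : Function.Injective A) (hn : n ≠ 0)
    {φ : Eu κ → ℝ} (hφ : Continuous φ) :
    ∫ p : Eu κ × Eu (Fin n), φ p.1 * qj A J p = cJ J * ∫ y, φ y * gn A n y := by
  have h1 := qj_int (J := J) hA hn (ψ := fun p => φ p.1) (hφ.comp continuous_fst)
  have e := integral_prod (μ := (volume : Measure (Eu κ))) (ν := (volume : Measure (Eu (Fin n))))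
    (fun p : Eu κ × Eu (Fin n) => φ p.1 * qj A J p) h1
  rw [← Measure.volume_eq_prod] at e
  rw [e, ← integral_const_mul]
  refine integral_congr_ae (Eventually.of_forall fun y => ?_)
  simp only
  rw [integral_const_mul, qj_slice hn]
  ring

end jball

section lim

variable {κ : Type} [Fintype κ]

/-- **centred Gaussian measures on orthants from parts of ellipsoids with few conditions** -/
theorem kp_cgJ {D : ℝ} (hD : 0 ≤ D) {J : ∀ n : ℕ, Fin n → Prop}
    (H : ∀ (F' : Type) [Fintype F'] (A : Eu κ →ₗ[ℝ] Eu F'), Function.Injective A →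
      ∀ᶠ n : ℕ in atTop, KP (nm (jo (sI κ (J n)) (AE A n))) D)
    {g : Eu κ → ℝ} (hg : CG g) (hw : Wt g) : KP (nm g) D := by
  obtain ⟨F, _, A, c, hc, hA, hge⟩ := hg
  have hge' : g = fun y => c * gt A 0 y 0 := by
    funext y
    rw [hge]
    unfold gt
    rw [smul_zero, sub_zero]
    split_ifs <;> simp
  have hnm : nm g = nm fun y => gt A 0 y 0 := by rw [hge', nm_const_mul hc.ne']
  have hw' : Wt fun y => gt A 0 y 0 := by
    refine wt_cg ⟨F, inferInstance, A, 1, one_pos, hA, fun y => ?_⟩ ?_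
    · change gt A 0 y 0 = _
      unfold gt
      rw [smul_zero, sub_zero]
      split_ifs <;> simp
    · have h1 := hw.pos
      rw [hge', integral_const_mul] at h1
      exact pos_of_mul_pos_right h1 hc.le
  rw [hnm]
  have hprob := hw'.prob
  obtain ⟨q, hq, hqA⟩ := exists_q hA
  have hdom : Integrable fun y : Eu κ => (1 + ‖y‖ ^ 2) * Real.exp (-(‖A y‖ ^ 2 / 2)) := by
    have h1 := (mom_shift (A := A) (b := (0 : Eu κ)) hq hqA 0).1
    simpa only [smul_zero, sub_zero] using h1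
  obtain ⟨hWg, hW2⟩ := W2.of_dom (l := (atTop : Filter ℕ)) (g := fun n => gn A n)
    (g' := fun y => gt A 0 y 0) (h := fun y => Real.exp (-(‖A y‖ ^ 2 / 2)))
    (Eventually.of_forall fun n y => gn_nonneg y) (Eventually.of_forall fun n => gn_meas) hw'
    (by
      filter_upwards [eventually_ne_atTop 0] with n hn y
      exact gn_le hn y) hdom (Eventually.of_forall fun y => gn_lim y)
  have hwe : ∀ {n : ℕ}, n ≠ 0 → Wt (jo (sI κ (J n)) (AE A n)) := fun {n} hn =>
    wt_ind (JO_compact (AE_inj hA hn)) (JO_interior _)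
  have hrep : ∀ {n : ℕ} (hn : n ≠ 0) (φ : Eu (κ ⊕ Fin n) → ℝ),
      ∫ y, φ y ∂(nm (jo (sI κ (J n)) (AE A n))) =
      (∫ p : Eu κ × Eu (Fin n), φ (emc κ (Fin n) (n : ℝ)⁻¹ (inv_ne hn) p) * qj A (J n) p) /
        ∫ p : Eu κ × Eu (Fin n), qj A (J n) p := by
    intro n hn φ
    have := vol_haar κ (Fin n)
    rw [integral_nm (hwe hn).nonneg (hwe hn).meas, integral_quot
      (volume : Measure (Eu κ × Eu (Fin n))) volume (emc κ (Fin n) (n : ℝ)⁻¹ (inv_ne hn)) 0]
    simp only [add_zero, jo_comp hn]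
  have hqpos : ∀ {n : ℕ}, n ≠ 0 → 0 < ∫ p : Eu κ × Eu (Fin n), qj A (J n) p := by
    intro n hn
    have := vol_haar κ (Fin n)
    have h1 := (hwe hn).pos
    rw [← integral_pos_scale (volume : Measure (Eu κ × Eu (Fin n))) volume
      (emc κ (Fin n) (n : ℝ)⁻¹ (inv_ne hn)) 0] at h1
    simpa only [add_zero, jo_comp hn] using h1
  have hq1 : ∀ {n : ℕ}, n ≠ 0 →
      ∫ p : Eu κ × Eu (Fin n), qj A (J n) p = cJ (J n) * ∫ y, gn A n y := by
    intro n hn
    have := qj_fub (J := J n) hA hn (φ := fun _ => 1) continuous_const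
    simpa using this
  refine KP.lift (l := (atTop : Filter ℕ)) (K := fun n => κ ⊕ Fin n)
    (ν := fun n => nm (jo (sI κ (J n)) (AE A n)))
    (T := fun n => (plL : Eu (κ ⊕ Fin n) →L[ℝ] Eu κ)) (b := fun _ => 0)
    (J := fun n => (inL : Eu κ →L[ℝ] Eu (κ ⊕ Fin n))) hD
    ?_ ?_ (fun _ => plL_norm) (fun _ => inL_norm) ?_ ?_ ?_
  · filter_upwards [eventually_ne_atTop 0] with n hn
    exact (hwe hn).prob
  · filter_upwards [eventually_ne_atTop 0] with n hn
    exact (hwe hn).int_sq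
  · refine ⟨?_, ?_, hw'.int_sq, ?_⟩
    · filter_upwards [eventually_ne_atTop 0] with n hn
      have := (hwe hn).prob
      exact Measure.isProbabilityMeasure_map (by fun_prop)
    · filter_upwards [eventually_ne_atTop 0] with n hn
      have hwa := hwe hn
      have hp := hwa.prob
      have hme : Measurable fun y : Eu (κ ⊕ Fin n) => plL y - (0 : Eu κ) := by fun_prop
      rw [integrable_map_measure (by fun_prop) hme.aemeasurable]
      refine hwa.int_sq.mono' (by fun_prop) (Eventually.of_forall fun y => ?_)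
      simp only [Function.comp_apply, sub_zero]
      rw [Real.norm_of_nonneg (by positivity)]
      exact pow_le_pow_left₀ (norm_nonneg _)
        (((plL : Eu (κ ⊕ Fin n) →L[ℝ] Eu κ).le_opNorm y).trans
          (mul_le_of_le_one_left (norm_nonneg _) plL_norm)) 2
    · intro φ hφ
      refine (hW2.lim φ hφ).congr' ?_
      filter_upwards [eventually_ne_atTop 0] with n hn
      have hme : Measurable fun y : Eu (κ ⊕ Fin n) => plL y - (0 : Eu κ) := by fun_prop
      rw [integral_map hme.aemeasurable hφ.1.aestronglyMeasurable, hrep hn,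
        integral_nm gn_nonneg gn_meas]
      simp only [sub_zero, plL_apply, emc_apply, pl_mk]
      rw [qj_fub hA hn hφ.1, hq1 hn, mul_div_mul_left _ _ (cJ_pos hn).ne']
  · intro η hη
    have hsmall : ∀ᶠ n : ℕ in atTop, ((n : ℕ) : ℝ)⁻¹ ≤ η :=
      (tendsto_inv_atTop_nhds_zero_nat.eventually (gt_mem_nhds hη)).mono fun n hn => hn.le
    filter_upwards [eventually_ne_atTop 0, hsmall] with n hn hsm
    intro θ hθ
    have hn' : (n : ℝ) ≠ 0 := by exact_mod_cast hn
    have hn0 : 0 < (n : ℝ) := by positivity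
    have hp := (hwe hn).prob
    have hcont : Continuous fun y : Eu (κ ⊕ Fin n) => ⟪y - inL (plL y), θ⟫_ℝ := by fun_prop
    refine (ProbabilityTheory.variance_le_expectation_sq hcont.aestronglyMeasurable).trans ?_
    have e1 := hrep hn (fun y => ⟪y - inL (plL y), θ⟫_ℝ ^ 2)
    refine (le_of_eq e1).trans ?_
    rw [div_le_iff₀ (hqpos hn), ← integral_const_mul]
    have hq0 : Integrable fun p : Eu κ × Eu (Fin n) => qj A (J n) p := by
      have := qj_int (J := J n) hA hn (ψ := fun _ => 1) continuous_const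
      simpa using this
    refine integral_mono_of_nonneg (Eventually.of_forall fun p =>
      mul_nonneg (sq_nonneg _) (qj_nonneg p)) (hq0.const_mul _) (Eventually.of_forall fun p => ?_)
    simp only
    by_cases hp' : p ∈ QJ A (J n)
    · refine mul_le_mul_of_nonneg_right ?_ (qj_nonneg p)
      rw [sub_inL_pl, emc_apply, pr_mk]
      have h2 := abs_real_inner_le_norm (mk 0 ((n : ℝ)⁻¹ • p.2) : Eu (κ ⊕ Fin n)) θ
      rw [hθ, mul_one] at h2
      calc _ = |⟪(mk 0 ((n : ℝ)⁻¹ • p.2) : Eu (κ ⊕ Fin n)), θ⟫_ℝ| ^ 2 := (sq_abs _).symm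
        _ ≤ ‖(mk 0 ((n : ℝ)⁻¹ • p.2) : Eu (κ ⊕ Fin n))‖ ^ 2 := pow_le_pow_left₀ (abs_nonneg _) h2 2
        _ = (n : ℝ)⁻¹ ^ 2 * ‖p.2‖ ^ 2 := by
            rw [norm_mk_sq, norm_smul, norm_zero, norm_inv, Real.norm_of_nonneg hn0.le]
            ring
        _ ≤ (n : ℝ)⁻¹ ^ 2 * n := by
            refine mul_le_mul_of_nonneg_left ?_ (by positivity)
            have := hp'.2.2
            linarith [sq_nonneg ‖A p.1‖]
        _ = (n : ℝ)⁻¹ := by field_simp
        _ ≤ η := hsm
    · have : qj A (J n) p = 0 := indicator_of_notMem hp' _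
      rw [this, mul_zero, mul_zero]
  · exact H _ _ hA

end lim

/-- **all log-concave measures from the uniform measures on the parts of ellipsoids where `d(n)`
coordinates are nonnegative, `d(n) → ∞`** -/
theorem kp_parts {D : ℝ} (hD : 0 ≤ D) {d : ℕ → ℕ} (hd : Tendsto d atTop atTop)
    (H : ∀ (n : ℕ) (F' : Type) [Fintype F'] (A : Eu (Fin n) →ₗ[ℝ] Eu F'), Function.Injective A →
      KP (nm (jo (fun i : Fin n => (i : ℕ) < d n) A)) D)
    {n : ℕ} {g : Eu (Fin n) → ℝ} (hg : Q289.LD.Den g) : KP (nm g) D := by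
  refine kp_univ hD (fun m Q hQ => ?_) hg
  have hcg : CG (gq Q) := by
    obtain ⟨A, hA, hx⟩ := exists_map hQ
    refine ⟨Fin m, inferInstance, A, 1, one_pos, hA, fun y => ?_⟩
    unfold gq
    have e : qf Q y = ‖A y‖ ^ 2 := (hx y).symm
    rw [e]
    split_ifs <;> simp
  refine kp_cgJ (J := fun n => fun j : Fin n => m + (j : ℕ) < d (m + n)) hD (fun F' _ A hA => ?_)
    hcg (wt_gq hQ)
  have h1 : Tendsto (fun n : ℕ => d (m + n)) atTop atTop :=
    hd.comp (tendsto_atTop_mono (fun n => Nat.le_add_left n m) tendsto_id)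
  filter_upwards [h1.eventually (eventually_ge_atTop m), eventually_ne_atTop 0] with n hn hn0
  obtain ⟨σ, hσ⟩ : ∃ σ : Eu (Fin (m + n)) ≃ₗᵢ[ℝ] Eu (Fin m ⊕ Fin n),
    σ = rx (finSumFinEquiv (m := m) (n := n)).symm := ⟨_, rfl⟩
  obtain ⟨A', hA'⟩ : ∃ A' : Eu (Fin (m + n)) →ₗ[ℝ] Eu (F' ⊕ Fin n),
    A' = AE A n ∘ₗ σ.toLinearEquiv.toLinearMap := ⟨_, rfl⟩
  have hA'i : Function.Injective A' := by
    rw [hA']
    exact (AE_inj hA hn0).comp σ.injective
  have h2 := H (m + n) _ A' hA'i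
  have hw : Wt (jo (fun i : Fin (m + n) => (i : ℕ) < d (m + n)) A') :=
    wt_ind (JO_compact hA'i) (JO_interior _)
  have hpr := hw.prob
  have h3 := h2.iso hw.int_sq σ hD
  have e1 : jo (fun i : Fin (m + n) => (i : ℕ) < d (m + n)) A' =
      fun y => jo (sI (Fin m) fun j : Fin n => m + (j : ℕ) < d (m + n)) (AE A n) (σ y) := by
    funext y
    unfold jo
    have hiff : y ∈ JO (fun i : Fin (m + n) => (i : ℕ) < d (m + n)) A' ↔
        σ y ∈ JO (sI (Fin m) fun j : Fin n => m + (j : ℕ) < d (m + n)) (AE A n) := by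
      unfold JO
      rw [mem_ofPred_eq, mem_ofPred_eq]
      have : (∀ i, sI (Fin m) (fun j : Fin n => m + (j : ℕ) < d (m + n)) i → 0 ≤ σ y i) ↔
          ∀ i : Fin (m + n), (i : ℕ) < d (m + n) → 0 ≤ y i := by
        rw [hσ]
        simp only [rx_apply, Equiv.symm_symm]
        constructor
        · intro h i hi
          have h4 := h ((finSumFinEquiv (m := m) (n := n)).symm i) ?_
          · rwa [Equiv.apply_symm_apply] at h4
          · obtain ⟨s, hs⟩ : ∃ s, s = (finSumFinEquiv (m := m) (n := n)).symm i := ⟨_, rfl⟩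
            have hi' : i = finSumFinEquiv s := by rw [hs, Equiv.apply_symm_apply]
            rw [← hs]
            rcases s with s | s
            · exact trivial
            · rw [hi', finSumFinEquiv_apply_right, Fin.val_natAdd] at hi
              exact hi
        · intro h s hs
          refine h _ ?_
          rcases s with s | s
          · rw [finSumFinEquiv_apply_left, Fin.val_castAdd]
            exact s.2.trans_le hn
          · rw [finSumFinEquiv_apply_right, Fin.val_natAdd]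
            exact hs
      rw [this, hA']
      rfl
    by_cases hy : y ∈ JO (fun i : Fin (m + n) => (i : ℕ) < d (m + n)) A'
    · rw [indicator_of_mem hy, indicator_of_mem (hiff.1 hy)]
    · rw [indicator_of_notMem hy, indicator_of_notMem fun h => hy (hiff.2 h)]
  rw [e1, nm_iso] at h3
  exact h3

end Pool.Agent.H776
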