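import Pool.Agent.H776.SFin

/-!
# Centred Gaussian measures on cubes from the parts of ellipsoids in few slabs
-/

set_option autoImplicit false

namespace Pool.Agent.H776

open MeasureTheory Set Filter Topology
open scoped ENNReal NNReal InnerProductSpace

section near

variable {κ κ' : Type} [Fintype κ] [Fintype κ']

/-- **near one half** -/
theorem near_gcl' {c : ℝ} (hc : 0 < c)
    (HE : ∀ (κ' F' : Type) [Fintype κ'] [Fintype F'] (A : Eu κ' →ₗ[ℝ] Eu F'),
      Function.Injective A → ∀ᶠ n : ℕ in atTop, ∀ t : ℝ, 0 < t →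
      CovLe (nm (ecb (AE A n))) t → HM (nm (ecb (AE A n))) (c / Real.sqrt t)) {s : ℝ} (hs : 0 < s) :
    ∀ η : ℝ, 0 < η → ∃ δ > 0, ∀ (ι : Type) [Fintype ι] (M : Measure (Eu ι)),
      GG s ι M → ∀ T : Set (Eu ι), MeasurableSet T → 1 / 2 - δ ≤ M.real T → M.real T < 1 / 2 →
      ENNReal.ofReal (c / Real.sqrt s) ≤ ENNReal.ofReal η + bdr M T := by
  intro η hη
  obtain ⟨B, Cν, hB, hCν, hcovν, hring, hpos⟩ := exists_corr hs
  have hpν := (wt_gcl (A := B)).prob
  obtain ⟨ρ, hρdef⟩ : ∃ ρ, ρ = η / (3 * Cν) := ⟨_, rfl⟩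
  have hρ : 0 < ρ := by rw [hρdef]; positivity
  have hCρ : 3 * Cν * ρ = η := by rw [hρdef]; field_simp
  refine ⟨(nm (gcl B)).real (Metric.ball 0 ρ) / 4, div_pos (hpos ρ hρ) (by norm_num), ?_⟩
  rintro ι _ M ⟨⟨F, _, A, hA, hM⟩, hcovM⟩ T hT hT1 hT2
  have hpM : IsProbabilityMeasure M := by rw [hM]; exact (wt_gcl (A := A)).prob
  have hiM : Integrable (fun x => ‖x‖ ^ 2) M := by rw [hM]; exact (wt_gcl (A := A)).int_sq
  obtain ⟨A', hA'⟩ : ∃ A', A' = sumL A B := ⟨_, rfl⟩
  have hP : nm (gcl A') = pm M (nm (gcl B)) := by rw [hA', hM, pm_gcl]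
  have hcovP : CovLe (nm (gcl A')) s := by
    rw [hP]
    exact covLe_pm hiM (wt_gcl (A := B)).int_sq hcovM hcovν
  have hinj : Function.Injective A' := by rw [hA']; exact sumL_inj hA hB
  by_contra hcon
  rw [not_le] at hcon
  have h1 : bdr M T < ENNReal.ofReal (c / Real.sqrt s - η) := by
    rw [ENNReal.ofReal_sub _ hη.le, lt_tsub_iff_left]
    exact hcon
  obtain ⟨b, hb0, hb1, hb2⟩ := ENNReal.lt_iff_exists_real_btwn.1 h1
  have hb3 : b < c / Real.sqrt s - η := by
    by_contra hcon2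
    rw [not_lt] at hcon2
    exact absurd (ENNReal.ofReal_le_ofReal hcon2) (not_le.2 hb2)
  -- the measures at `0` and `ρ`
  have hm0 : (nm (gcl A')).real (TR T 0) < 1 / 2 := by
    rw [hP]
    have e : (pm M (nm (gcl B))).real (TR T 0) =
        M.real T + (1 - M.real T) * (nm (gcl B)).real (Metric.ball 0 0) :=
      pm_or hT Metric.isOpen_ball.measurableSet
    rw [e, Metric.ball_zero, measureReal_empty, mul_zero, add_zero]
    exact hT2
  have hm1 : 1 / 2 < (nm (gcl A')).real (TR T ρ) := by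
    rw [hP]
    have e : (pm M (nm (gcl B))).real (TR T ρ) =
        M.real T + (1 - M.real T) * (nm (gcl B)).real (Metric.ball 0 ρ) :=
      pm_or hT Metric.isOpen_ball.measurableSet
    rw [e]
    have h2 := hpos ρ hρ
    nlinarith
  -- for every `η'`
  have key : ∀ η' : ℝ, 0 < η' → c / Real.sqrt (s + η') ≤ η + b := by
    intro η' hη'
    have hK : Tendsto (fun n : ℕ => (∫ y, gcl A' y) / (∫ y, gcn A' n y) * (η + b)) atTop
        (𝓝 ((∫ y, gcl A' y) / (∫ y, gcl A' y) * (η + b))) :=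
      (tendsto_const_nhds.div int_gcn_lim' (wt_gcl (A := A')).pos.ne').mul_const _
    rw [div_self (wt_gcl (A := A')).pos.ne', one_mul] at hK
    refine ge_of_tendsto hK ?_
    filter_upwards [wt_gcn (A := A'), cov_ecb hs hcovP hη', eventually_ne_atTop 0,
      (real_lim (A := A') (TR_meas hT 0)).eventually (gt_mem_nhds hm0),
      (real_lim (A := A') (TR_meas hT ρ)).eventually (lt_mem_nhds hm1),
      HE (ι ⊕ Fin 2) (F ⊕ Fin 2) A' hinj] with n hw hcov hn hn0 hn1 hHE
    obtain ⟨k, hk⟩ : ∃ k, k = (∫ y, gcl A' y) / (∫ y, gcn A' n y) := ⟨_, rfl⟩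
    have hk0 : 0 ≤ k := by
      rw [hk]
      exact div_nonneg (wt_gcl (A := A')).pos.le hw.pos.le
    rw [← hk]
    have hp := hw.prob
    have hdom : ∀ S, MeasurableSet S →
        (nm (gcn A' n)).real S ≤ k * (pm M (nm (gcl B))).real S := by
      intro S hS
      rw [← hP, hk]
      exact nm_le wt_gcl hw (fun x => gcn_le_gcl hn x) hS
    -- the radius
    have hlip : ∀ r r' : ℝ, 0 ≤ r → r ≤ r' → r' ≤ ρ →
        |(nm (gcn A' n)).real (TR T r') - (nm (gcn A' n)).real (TR T r)| ≤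
          k * (Cν * (2 * ρ)) * |r' - r| := by
      intro r r' h0 h2 h3
      have hsub : (TR T r : Set (Eu (ι ⊕ Fin 2))) ⊆ TR T r' := TR_mono h2
      rw [← measureReal_sdiff hsub (TR_meas hT r), abs_of_nonneg measureReal_nonneg,
        abs_of_nonneg (by linarith)]
      refine (hdom _ ((TR_meas hT r').diff (TR_meas hT r))).trans ?_
      rw [mul_assoc]
      refine mul_le_mul_of_nonneg_left ?_ hk0
      rw [measureReal_sdiff hsub (TR_meas hT r)]
      have e1 : (pm M (nm (gcl B))).real (TR T r') =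
          M.real T + (1 - M.real T) * (nm (gcl B)).real (Metric.ball 0 r') :=
        pm_or hT Metric.isOpen_ball.measurableSet
      have e2 : (pm M (nm (gcl B))).real (TR T r) =
          M.real T + (1 - M.real T) * (nm (gcl B)).real (Metric.ball 0 r) :=
        pm_or hT Metric.isOpen_ball.measurableSet
      rw [e1, e2]
      have h4 := hring r r' h0 h2
      have h5 : (nm (gcl B)).real (Metric.ball 0 r) ≤ (nm (gcl B)).real (Metric.ball 0 r') :=
        measureReal_mono (Metric.ball_subset_ball h2)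
      have h6 : 0 ≤ M.real T := measureReal_nonneg
      have h7 : Cν * (r' ^ 2 - r ^ 2) ≤ Cν * (2 * ρ) * (r' - r) := by
        have h8 : r' ^ 2 - r ^ 2 ≤ 2 * ρ * (r' - r) := by nlinarith
        have := mul_le_mul_of_nonneg_left h8 hCν.le
        linarith
      nlinarith
    have hcont : ContinuousOn (fun r => (nm (gcn A' n)).real (TR T r)) (Icc 0 ρ) := by
      have : LipschitzOnWith (Real.toNNReal (k * (Cν * (2 * ρ))))
          (fun r => (nm (gcn A' n)).real (TR T r)) (Icc 0 ρ) := by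
        refine LipschitzOnWith.of_dist_le_mul fun x hx y hy => ?_
        rw [Real.coe_toNNReal _ (by positivity), Real.dist_eq, Real.dist_eq]
        rcases le_total x y with h | h
        · rw [abs_sub_comm, abs_sub_comm x y]
          exact hlip x y hx.1 h hy.2
        · exact hlip y x hy.1 h hx.2
      exact this.continuousOn
    obtain ⟨r, hr, hr2⟩ := intermediate_value_Icc hρ.le hcont ⟨hn0.le, hn1.le⟩
    have hr2' : (nm (gcn A' n)).real (TR T r) = 1 / 2 := hr2
    -- the body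
    have hmap := map_ecb hn hw
    have hme : Measurable (pl : Eu ((ι ⊕ Fin 2) ⊕ Fin n) → Eu (ι ⊕ Fin 2)) := cont_pl.measurable
    have hhm := hHE
      (s + η') (by positivity) hcov (pl ⁻¹' (TR T r)) ((TR_meas hT r).preimage hme) (by
        rw [← Measure.map_apply hme (TR_meas hT r), hmap]
        have : nm (gcn A' n) (TR T r) = ENNReal.ofReal ((nm (gcn A' n)).real (TR T r)) := by
          rw [measureReal_def, ENNReal.ofReal_toReal (measure_ne_top _ _)]
        rw [this, hr2', ENNReal.ofReal_div_of_pos two_pos]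
        simp)
    have h3 := bdr_pl (μ := nm (ecb (AE A' n))) (TR_meas hT r)
    rw [hmap] at h3
    have h4 := bdr_TR hk0 hdom hCν.le hring hT hb0 hb1 hr.1 hr.2 hρ
    rw [hCρ] at h4
    exact (ENNReal.ofReal_le_ofReal_iff (by positivity)).1 (hhm.trans (h3.trans h4))
  have h5 : Tendsto (fun η' : ℝ => c / Real.sqrt (s + η')) (𝓝[>] 0) (𝓝 (c / Real.sqrt (s + 0))) := by
    refine Tendsto.mono_left ?_ nhdsWithin_le_nhds
    refine tendsto_const_nhds.div ?_ (by rw [add_zero]; exact (Real.sqrt_pos.2 hs).ne')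
    exact (Real.continuous_sqrt.tendsto _).comp (tendsto_const_nhds.add tendsto_id)
  rw [add_zero] at h5
  have h6 : c / Real.sqrt s ≤ η + b := by
    refine le_of_tendsto h5 ?_
    filter_upwards [self_mem_nhdsWithin] with η' hη'
    exact key η' hη'
  linarith

/-- **the isoperimetric inequality for centred Gaussian measures on cubes** -/
theorem iso_gcl' {c : ℝ} (hc : 0 < c)
    (HE : ∀ (κ' F' : Type) [Fintype κ'] [Fintype F'] (A : Eu κ' →ₗ[ℝ] Eu F'),
      Function.Injective A → ∀ᶠ n : ℕ in atTop, ∀ t : ℝ, 0 < t →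
      CovLe (nm (ecb (AE A n))) t → HM (nm (ecb (AE A n))) (c / Real.sqrt t)) {F : Type} [Fintype F]
    {A : Eu κ →ₗ[ℝ] Eu F} (hA : Function.Injective A) {s : ℝ} (hs : 0 < s)
    (hcov : CovLe (nm (gcl A)) s) : Iso (nm (gcl A)) (c / Real.sqrt s) := by
  refine iso_of_near (𝒢 := fun ι _ M => GG s ι M) ?_ ?_ (near_gcl' hc HE hs)
    ⟨⟨F, inferInstance, A, hA, rfl⟩, hcov⟩ (div_pos hc (Real.sqrt_pos.2 hs))
  · rintro ι _ M ⟨⟨F', _, A', _, hM⟩, _⟩
    rw [hM]
    exact (wt_gcl (A := A')).prob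
  · rintro ι ι' _ _ M M' ⟨⟨F1, _, A1, h1, hM1⟩, h2⟩ ⟨⟨F2, _, A2, h3, hM2⟩, h4⟩
    have p1 : IsProbabilityMeasure M := by rw [hM1]; exact (wt_gcl (A := A1)).prob
    have p2 : IsProbabilityMeasure M' := by rw [hM2]; exact (wt_gcl (A := A2)).prob
    have i1 : Integrable (fun x => ‖x‖ ^ 2) M := by rw [hM1]; exact (wt_gcl (A := A1)).int_sq
    have i2 : Integrable (fun x => ‖x‖ ^ 2) M' := by rw [hM2]; exact (wt_gcl (A := A2)).int_sq
    refine ⟨⟨F1 ⊕ F2, inferInstance, sumL A1 A2, sumL_inj h1 h3, ?_⟩, covLe_pm i1 i2 h2 h4⟩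
    rw [pm_gcl, hM1, hM2]

/-- **the Poincare form for centred Gaussian measures on cubes** -/
theorem kp_gcl_of_hm' {c : ℝ} (hc : 0 < c)
    (HE : ∀ (κ' F' : Type) [Fintype κ'] [Fintype F'] (A : Eu κ' →ₗ[ℝ] Eu F'),
      Function.Injective A → ∀ᶠ n : ℕ in atTop, ∀ t : ℝ, 0 < t →
      CovLe (nm (ecb (AE A n))) t → HM (nm (ecb (AE A n))) (c / Real.sqrt t)) {F : Type} [Fintype F]
    {A : Eu κ →ₗ[ℝ] Eu F} (hA : Function.Injective A) : KP (nm (gcl A)) (4 / c ^ 2) := by
  have hp := (wt_gcl (A := A)).prob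
  intro s hs hcov
  have h1 := poi_of_iso (div_pos hc (Real.sqrt_pos.2 hs)) (iso_gcl' hc HE hA hs hcov)
  have e : 4 / (c / Real.sqrt s) ^ 2 = 4 / c ^ 2 * s := by
    rw [div_pow, Real.sq_sqrt hs.le]
    field_simp
  rwa [e] at h1

end near

section slab

/-- the part of the open ellipsoid `‖A y‖² < 1` in the slabs `|y_i| < 1`, `i ≤ d` -/
def SL {n : ℕ} {F : Type} [Fintype F] (d : ℕ) (A : Eu (Fin n) →ₗ[ℝ] Eu F) : Set (Eu (Fin n)) :=
  {y | (∀ i : Fin n, (i : ℕ) < d → |y i| < 1) ∧ ‖A y‖ ^ 2 < 1}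

theorem SL_open {n : ℕ} {F : Type} [Fintype F] {d : ℕ} {A : Eu (Fin n) →ₗ[ℝ] Eu F} :
    IsOpen (SL d A) := by
  have hA : Continuous A := A.continuous_of_finiteDimensional
  have e : SL d A = (⋂ i : Fin n, ⋂ (_ : (i : ℕ) < d), {y | |y i| < 1}) ∩
      {y | ‖A y‖ ^ 2 < 1} := by
    ext y
    simp [SL]
  rw [e]
  refine IsOpen.inter ?_ (isOpen_lt (by fun_prop) continuous_const)
  exact isOpen_iInter_of_finite fun i => isOpen_iInter_of_finite fun _ =>
    isOpen_lt (by fun_prop) continuous_const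

theorem strict {n : ℕ} {F : Type} [Fintype F] {d : ℕ} {A : Eu (Fin n) →ₗ[ℝ] Eu F} :
    interior (EC A) ⊆ SL d A := by
  intro y hy
  obtain ⟨t, ht1, ht⟩ : ∃ t : ℝ, 1 < t ∧ t • y ∈ EC A := by
    have h1 : Tendsto (fun t : ℝ => t • y) (𝓝[>] 1) (𝓝 ((1 : ℝ) • y)) := by
      refine Tendsto.mono_left ?_ nhdsWithin_le_nhds
      exact (by fun_prop : Continuous fun t : ℝ => t • y).tendsto 1
    rw [one_smul] at h1
    have h2 := h1.eventually (isOpen_interior.mem_nhds hy)
    obtain ⟨t, h3, h4⟩ := (h2.and self_mem_nhdsWithin).exists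
    exact ⟨t, h4, interior_subset h3⟩
  refine ⟨fun i _ => ?_, ?_⟩
  · have h1 := ht.1 i
    rw [PiLp.smul_apply, smul_eq_mul, abs_mul, abs_of_pos (by linarith)] at h1
    by_contra h2
    rw [not_lt] at h2
    nlinarith
  · have h1 := ht.2
    rw [map_smul, norm_smul, mul_pow, Real.norm_eq_abs, sq_abs] at h1
    by_contra h2
    rw [not_lt] at h2
    nlinarith

/-- the hyperplane inequality for sets of measure one half, from few slabs -/
theorem hm_slab {C : ℝ} (hC : 0 < C) {d : ℕ → ℕ} (hd : Tendsto d atTop atTop)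
    (H : ∀ (n : ℕ), 1 ≤ n → ∀ (F' : Type) [Fintype F'] (A : Eu (Fin n) →ₗ[ℝ] Eu F'),
      Function.Injective A → HB C (SL (d n) A))
    (κ' F' : Type) [Fintype κ'] [Fintype F'] (A : Eu κ' →ₗ[ℝ] Eu F') (hA : Function.Injective A) :
    ∀ᶠ n : ℕ in atTop, ∀ t : ℝ, 0 < t → CovLe (nm (ecb (AE A n))) t →
      HM (nm (ecb (AE A n))) (1 / (4 * Real.sqrt 2 * C) / Real.sqrt t) := by
  classical
  obtain ⟨m, hm⟩ : ∃ m : ℕ, m = Fintype.card κ' := ⟨_, rfl⟩
  have hd1 : Tendsto (fun n : ℕ => d (m + n)) atTop atTop :=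
    hd.comp (tendsto_atTop_mono (fun n => Nat.le_add_left n m) tendsto_id)
  filter_upwards [hd1.eventually (eventually_ge_atTop m), eventually_ne_atTop 0] with n hdn hn
  intro t ht hcov
  have hn' : (n : ℝ) ≠ 0 := by exact_mod_cast hn
  have hn0 : 0 < (n : ℝ) := by positivity
  obtain ⟨e, he⟩ : ∃ e : κ' ⊕ Fin n ≃ Fin (m + n),
    e = (Equiv.sumCongr (Fintype.equivFinOfCardEq hm.symm) (Equiv.refl _)).trans
      finSumFinEquiv := ⟨_, rfl⟩
  have heL : ∀ k : κ', ((e (Sum.inl k) : Fin (m + n)) : ℕ) < m := fun k => by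
    rw [he]
    simp
  set σ := rx e.symm with hσ
  set A' : Eu (Fin (m + n)) →ₗ[ℝ] Eu (F' ⊕ Fin n) := AE A n ∘ₗ σ.toLinearEquiv.toLinearMap with hA'
  have hA'i : Function.Injective A' := (AE_inj hA hn).comp σ.injective
  have hbody : Body (EC A') := ⟨EC_compact A', EC_convex A', ⟨0, EC_interior A'⟩⟩
  have hsym : ∀ x ∈ EC A', -x ∈ EC A' := by
    rintro x ⟨h1, h2⟩
    refine ⟨fun i => ?_, ?_⟩
    · rw [PiLp.neg_apply, abs_neg]
      exact h1 i
    · rw [map_neg, norm_neg]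
      exact h2
  have hσx : ∀ (y : Eu (Fin (m + n))) i, σ y i = y (e i) := fun y i => by
    rw [hσ]
    simp only [rx_apply, Equiv.symm_symm]
  have e1 : (EC A').indicator (fun _ => (1 : ℝ)) = fun y => ecb (AE A n) (σ y) := by
    funext y
    unfold ecb
    have hiff : y ∈ EC A' ↔ σ y ∈ EC (AE A n) := by
      unfold EC
      rw [mem_ofPred_eq, mem_ofPred_eq]
      have : (∀ i, |σ y i| ≤ 1) ↔ ∀ i, |y i| ≤ 1 := by
        simp only [hσx]
        exact ⟨fun h i => by simpa using h (e.symm i), fun h i => h _⟩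
      rw [this]
      rfl
    by_cases hy : y ∈ EC A'
    · rw [indicator_of_mem hy, indicator_of_mem (hiff.1 hy)]
    · rw [indicator_of_notMem hy, indicator_of_notMem fun h => hy (hiff.2 h)]
  have hmap : (nm ((EC A').indicator fun _ => (1 : ℝ))).map σ = nm (ecb (AE A n)) := by
    rw [e1]
    exact nm_iso σ
  have hpr := hbody.wt.prob
  have hcov' : CovLe (unf (EC A')) t := by
    rw [← nm_ind hbody]
    rw [← hmap] at hcov
    exact covLe_iso σ hcov
  -- the interior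
  have hint : interior (EC A') = SL (d (m + n)) A' := by
    refine Subset.antisymm strict (interior_maximal (fun y hy => ⟨fun i => ?_, hy.2.le⟩) SL_open)
    obtain ⟨s, hs⟩ : ∃ s, s = e.symm i := ⟨_, rfl⟩
    have hi : i = e s := by rw [hs, Equiv.apply_symm_apply]
    rcases s with s | s
    · refine (hy.1 i ?_).le
      rw [hi]
      exact (heL s).trans_le hdn
    · have h1 : ‖AE A n (σ y)‖ ^ 2 < 1 := hy.2
      have h2 : AE A n (σ y) =
          mk ((Real.sqrt n)⁻¹ • A (pl (σ y))) ((Real.sqrt n)⁻¹ • (n : ℝ) • pr (σ y)) := rfl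
      rw [h2, norm_mk_sq, norm_smul, norm_smul, norm_smul, mul_pow, mul_pow, mul_pow, norm_inv,
        Real.norm_of_nonneg (Real.sqrt_nonneg _), inv_pow, Real.sq_sqrt hn0.le,
        Real.norm_of_nonneg hn0.le] at h1
      have h3 : |y i| ^ 2 ≤ ‖pr (σ y)‖ ^ 2 := by
        have h4 := PiLp.norm_apply_le (pr (σ y)) s
        have h5 : (pr (σ y)) s = y i := by
          rw [pr_apply, hσx, ← hi]
        rw [h5, Real.norm_eq_abs] at h4
        exact pow_le_pow_left₀ (abs_nonneg _) h4 2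
      have h6 : 0 ≤ (n : ℝ)⁻¹ * ‖A (pl (σ y))‖ ^ 2 := by positivity
      have h7 : (n : ℝ)⁻¹ * ((n : ℝ) ^ 2 * ‖pr (σ y)‖ ^ 2) = n * ‖pr (σ y)‖ ^ 2 := by
        field_simp
      have h8 : (1 : ℝ) ≤ n := by exact_mod_cast Nat.one_le_iff_ne_zero.2 hn
      have h9 : ‖pr (σ y)‖ ^ 2 ≤ n * ‖pr (σ y)‖ ^ 2 := le_mul_of_one_le_left (sq_nonneg _) h8
      rw [h7] at h1
      have h10 : |y i| ^ 2 ≤ 1 := by linarith
      nlinarith [abs_nonneg (y i)]
  have hHB : HB C (interior (EC A')) := by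
    rw [hint]
    exact H (m + n) (by omega) _ A' hA'i
  have h1 := hm_of_hb hbody hsym hC hHB ht hcov'
  rw [← nm_ind hbody] at h1
  have h2 := h1.iso σ
  rw [hmap] at h2
  have e2 : 1 / (4 * Real.sqrt (2 * t) * C) = 1 / (4 * Real.sqrt 2 * C) / Real.sqrt t := by
    rw [Real.sqrt_mul (by norm_num), div_div]
    congr 1
    ring
  rwa [e2] at h2

/-- **the Poincare form for all symmetric bodies from the hyperplane inequality for the parts of
ellipsoids in `d(n)` slabs, `d(n) → ∞`** -/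
theorem kp_of_slabs {C : ℝ} (hC : 0 < C) {d : ℕ → ℕ} (hd : Tendsto d atTop atTop)
    (H : ∀ (n : ℕ), 1 ≤ n → ∀ (F' : Type) [Fintype F'] (A : Eu (Fin n) →ₗ[ℝ] Eu F'),
      Function.Injective A → HB C (SL (d n) A))
    {κ : Type} [Fintype κ] {K : Set (Eu κ)} (hK : Body K) (hs : ∀ x ∈ K, -x ∈ K) :
    KP (nm (K.indicator fun _ => (1 : ℝ))) (128 * C ^ 2) := by
  have hc : 0 < 1 / (4 * Real.sqrt 2 * C) := by positivity
  refine kp_symm hK hs (by positivity) fun κ' F' _ _ A hA => ?_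
  have h1 := kp_gcl_of_hm' hc (fun κ' F' _ _ A hA => hm_slab hC hd H κ' F' A hA) hA
  have e : 4 / (1 / (4 * Real.sqrt 2 * C)) ^ 2 = 128 * C ^ 2 := by
    have h2 : Real.sqrt 2 ^ 2 = 2 := Real.sq_sqrt (by norm_num)
    field_simp
    rw [h2]
    norm_num
  rwa [e] at h1

end slab

end Pool.Agent.H776
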