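import Pool.Agent.H776.Net2
import Pool.Agent.H776.IsoT

/-!
# Gaussian measures on orthants: networks with arbitrary sets of nodes, contractions of graphs
-/

set_option autoImplicit false

namespace Pool.Agent.H776

open MeasureTheory Set Filter Topology
open scoped ENNReal InnerProductSpace Matrix

section reindex

variable {κ κ' : Type} [Fintype κ] [Fintype κ']

theorem qf_submatrix (e : κ' ≃ κ) (Q : Matrix κ κ ℝ) (z : κ → ℝ) :
    qf (Q.submatrix e e) (fun i => z (e i)) = qf Q z := by
  unfold qf
  simp only [Matrix.submatrix_apply]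
  rw [← e.sum_comp (fun i => ∑ j, Q i j * z i * z j)]
  refine Finset.sum_congr rfl fun i _ => ?_
  rw [← e.sum_comp (fun j => Q (e i) j * z (e i) * z j)]

theorem gq_rx (e : κ' ≃ κ) (Q : Matrix κ κ ℝ) (y : Eu κ') :
    gq Q (rx e y) = gq (Q.submatrix e e) y := by
  unfold gq
  have h1 : qf (Q.submatrix e e) y = qf Q (rx e y) := by
    rw [← qf_submatrix e Q]
    congr 1
    funext i
    rw [rx_apply, Equiv.symm_apply_apply]
  have h2 : (∀ i, 0 ≤ rx e y i) ↔ ∀ i, 0 ≤ y i := by
    simp only [rx_apply]
    exact ⟨fun h i => by simpa using h (e i), fun h i => h _⟩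
  rw [h1]
  simp only [h2]

theorem kp_reindex (e : κ' ≃ κ) {Q : Matrix κ κ ℝ} (hQ : Q.PosDef) {D : ℝ} (hD : 0 ≤ D)
    (h : KP (nm (gq (Q.submatrix e e))) D) : KP (nm (gq Q)) D := by
  have hw : Wt (gq (Q.submatrix e e)) := wt_gq (hQ.submatrix e.injective)
  have hp := hw.prob
  have h6 := h.iso hw.int_sq (rx e) hD
  have h7 : (nm (gq (Q.submatrix e e))).map (rx e) = nm (gq Q) := by
    rw [← nm_iso (F := gq Q) (rx e)]
    congr 2
    funext y
    rw [gq_rx]
  rwa [h7] at h6

end reindex

section netw

variable {κ W G : Type} [Fintype κ] [Fintype W] [Fintype G]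

/-- data of a network with the nodes `W`, among them the visible nodes `r k` -/
structure NetW (r : κ → W) (Q₀ : Matrix κ κ ℝ) (L : Matrix W κ ℝ) (S : Matrix W W ℝ)
    (P : Matrix G W ℝ) : Prop where
  pd : Q₀.PosDef
  lam0 : ∀ u i, 0 ≤ L u i
  root : ∀ k (y : κ → ℝ), ∑ i, L (r k) i * y i = y k
  sym : ∀ u v, S u v = S v u
  frm : ∀ y : κ → ℝ, qf S (fun u => ∑ i, L u i * y i) = qf Q₀ y
  van : ∀ (y : κ → ℝ) g, ∑ v, P g v * ∑ i, L v i * y i = 0
  inj : ∀ w : W → ℝ, (∀ k, w (r k) = 0) → (∀ g, ∑ v, P g v * w v = 0) → w = 0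

theorem kp_netW {r : κ → W} {Q₀ : Matrix κ κ ℝ} {L : Matrix W κ ℝ} {S : Matrix W W ℝ}
    {P : Matrix G W ℝ} {D : ℝ} (hD : 0 ≤ D) (h : NetW r Q₀ L S P)
    (H : ∀ Q : Matrix W W ℝ, Q.PosDef →
      (∀ u v, S u v = 0 → (∀ g, P g u = 0 ∨ P g v = 0) → Q u v = 0) → KP (nm (gq Q)) D) :
    KP (nm (gq Q₀)) D := by
  classical
  have hr : Function.Injective r := by
    intro a b hab
    by_contra hne
    have h1 := h.root a (fun i => if i = a then 1 else 0)
    have h2 := h.root b (fun i => if i = a then 1 else 0)
    rw [hab] at h1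
    rw [h1, if_pos rfl, if_neg (Ne.symm hne)] at h2
    exact one_ne_zero h2
  let e : κ ⊕ ↥(range r)ᶜ ≃ W :=
    (Equiv.sumCongr (Equiv.ofInjective r hr) (Equiv.refl _)).trans (Equiv.Set.sumCompl (range r))
  have el : ∀ k, e (Sum.inl k) = r k := fun k => rfl
  have er : ∀ j : ↥(range r)ᶜ, e (Sum.inr j) = j := fun j => rfl
  let lam : Matrix ↥(range r)ᶜ κ ℝ := Matrix.of fun j i => L j i
  have hlft : ∀ (y : κ → ℝ) u, lft lam y u = ∑ i, L (e u) i * y i := by
    intro y u
    rcases u with k | j
    · rw [el, h.root]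
      rfl
    · rfl
  have hnet : Net Q₀ lam (S.submatrix e e) (P.submatrix id e) := by
    refine ⟨h.pd, fun j i => h.lam0 _ _, fun u v => h.sym _ _, fun y => ?_,
      fun y g => ?_, fun w hw => ?_⟩
    · rw [← h.frm y, ← qf_submatrix e S]
      congr 1
      funext u
      exact hlft y u
    · rw [← h.van y g, ← e.sum_comp]
      refine Finset.sum_congr rfl fun v _ => ?_
      rw [hlft]
      rfl
    · let w' : W → ℝ := fun u => Sum.elim (0 : κ → ℝ) w (e.symm u)
      have hw' : w' = 0 := by
        refine h.inj w' (fun k => ?_) fun g => ?_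
        · change Sum.elim (0 : κ → ℝ) w (e.symm (r k)) = 0
          rw [← el, Equiv.symm_apply_apply]
          rfl
        · rw [← e.sum_comp, Fintype.sum_sum_type]
          have h1 : ∀ k, w' (e (Sum.inl k)) = 0 := fun k => by
            change Sum.elim (0 : κ → ℝ) w (e.symm (e (Sum.inl k))) = 0
            rw [Equiv.symm_apply_apply]
            rfl
          have h2 : ∀ j, w' (e (Sum.inr j)) = w j := fun j => by
            change Sum.elim (0 : κ → ℝ) w (e.symm (e (Sum.inr j))) = w j
            rw [Equiv.symm_apply_apply]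
            rfl
          simp only [h1, h2, mul_zero, Finset.sum_const_zero, zero_add]
          exact hw g
      funext j
      have h2 : w' (e (Sum.inr j)) = w j := by
        change Sum.elim (0 : κ → ℝ) w (e.symm (e (Sum.inr j))) = w j
        rw [Equiv.symm_apply_apply]
        rfl
      rw [← h2, hw']
      rfl
  refine kp_net hD hnet fun Q hQ hs => ?_
  refine kp_reindex e.symm hQ hD (H _ (hQ.submatrix e.symm.injective) fun u v huv hg => ?_)
  rw [Matrix.submatrix_apply]
  refine hs _ _ ?_ fun g => ?_
  · rw [Matrix.submatrix_apply, Equiv.apply_symm_apply, Equiv.apply_symm_apply]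
    exact huv
  · rw [Matrix.submatrix_apply, Matrix.submatrix_apply, Equiv.apply_symm_apply,
      Equiv.apply_symm_apply]
    exact hg g

end netw

section delta

open Classical in
/-- Kronecker delta -/
noncomputable def dl {X : Type} (a b : X) : ℝ := if a = b then 1 else 0

theorem dl_sum {X : Type} [Fintype X] (a : X) (w : X → ℝ) : ∑ v, dl v a * w v = w a := by
  classical
  unfold dl
  simp only [ite_mul, one_mul, zero_mul]
  rw [Finset.sum_ite_eq' Finset.univ a]
  simp

theorem dl_ne {X : Type} {a b : X} (h : a ≠ b) : dl a b = 0 := by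
  unfold dl
  rw [if_neg h]

theorem dl_self {X : Type} (a : X) : dl a a = 1 := by
  unfold dl
  rw [if_pos rfl]

theorem dl_comm {X : Type} (a b : X) : dl a b = dl b a := by
  by_cases h : a = b
  · rw [h]
  · rw [dl_ne h, dl_ne (Ne.symm h)]

theorem dl_sum' {X : Type} [Fintype X] (a : X) (w : X → ℝ) : ∑ v, dl a v * w v = w a := by
  simp only [dl_comm a]
  exact dl_sum a w

theorem dl_nonneg {X : Type} (a b : X) : 0 ≤ dl a b := by
  unfold dl
  split_ifs
  · exact zero_le_one
  · exact le_rfl

theorem qf_dl {W A : Type} [Fintype W] [Fintype A] (q : A → ℝ) (s t : A → W) (z : W → ℝ) :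
    qf (fun u v => ∑ a, q a / 2 * (dl u (s a) * dl v (t a) + dl v (s a) * dl u (t a))) z =
      ∑ a, q a * (z (s a) * z (t a)) := by
  unfold qf
  have h1 : ∀ a, ∑ u, ∑ v, q a / 2 * (dl u (s a) * dl v (t a) + dl v (s a) * dl u (t a)) * z u * z v
      = q a * (z (s a) * z (t a)) := by
    intro a
    have h2 : ∀ b c : W, ∑ u, ∑ v, (dl u b * dl v c) * z u * z v = z b * z c := by
      intro b c
      have h3 : ∀ u, ∑ v, (dl u b * dl v c) * z u * z v = dl u b * z u * z c := by
        intro u
        rw [← dl_sum c z, Finset.mul_sum]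
        exact Finset.sum_congr rfl fun v _ => by ring
      simp only [h3]
      rw [← Finset.sum_mul, dl_sum]
    calc ∑ u, ∑ v, q a / 2 * (dl u (s a) * dl v (t a) + dl v (s a) * dl u (t a)) * z u * z v
        = q a / 2 * ((∑ u, ∑ v, (dl u (s a) * dl v (t a)) * z u * z v) +
            ∑ u, ∑ v, (dl u (t a) * dl v (s a)) * z u * z v) := by
          rw [mul_add, Finset.mul_sum, Finset.mul_sum, ← Finset.sum_add_distrib]
          refine Finset.sum_congr rfl fun u _ => ?_
          rw [Finset.mul_sum, Finset.mul_sum, ← Finset.sum_add_distrib]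
          refine Finset.sum_congr rfl fun v _ => ?_
          ring
      _ = _ := by
          rw [h2, h2]
          ring
  calc ∑ u, ∑ v, (∑ a, q a / 2 * (dl u (s a) * dl v (t a) + dl v (s a) * dl u (t a))) * z u * z v
      = ∑ a, ∑ u, ∑ v,
          q a / 2 * (dl u (s a) * dl v (t a) + dl v (s a) * dl u (t a)) * z u * z v := by
        rw [Finset.sum_comm (s := (Finset.univ : Finset A)) (t := (Finset.univ : Finset W))]
        refine Finset.sum_congr rfl fun u _ => ?_
        rw [Finset.sum_comm (s := (Finset.univ : Finset A)) (t := (Finset.univ : Finset W))]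
        refine Finset.sum_congr rfl fun v _ => ?_
        rw [Finset.sum_mul, Finset.sum_mul]
    _ = _ := Finset.sum_congr rfl fun a _ => h1 a

end delta

section graphs

/-- `G₁` is a minor of `G₂`: `f` is defined on some vertices of `G₂`, the preimages of the vertices
of `G₁` are not empty and connected, and edges lift -/
structure Minor {V₁ V₂ : Type} (G₂ : SimpleGraph V₂) (G₁ : SimpleGraph V₁) (f : V₂ → Option V₁) :
    Prop where
  conn : ∀ v, ∃ r, f r = some v ∧ ∀ u, f u = some v →
    Relation.ReflTransGen (fun x y => G₂.Adj x y ∧ f x = some v ∧ f y = some v) r u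
  edge : ∀ a b, G₁.Adj a b → ∃ u v, f u = some a ∧ f v = some b ∧ G₂.Adj u v

/-- the matrix is supported on the edges of the graph and the diagonal -/
def Supp {V : Type} (G : SimpleGraph V) (Q : Matrix V V ℝ) : Prop :=
  ∀ a b, a ≠ b → ¬ G.Adj a b → Q a b = 0

variable {V₁ V₂ : Type} [Fintype V₁] [Fintype V₂]

open Classical in
/-- ties -/
noncomputable def tie (G₂ : SimpleGraph V₂) (f : V₂ → Option V₁) :
    Matrix ((V₂ × V₂) ⊕ V₂) V₂ ℝ :=
  Matrix.of fun g v => Sum.elim
    (fun g : V₂ × V₂ => if G₂.Adj g.1 g.2 ∧ f g.1 = f g.2 then dl v g.1 - dl v g.2 else 0)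
    (fun u : V₂ => if f u = none then dl v u else 0) g

theorem kp_minor {G₂ : SimpleGraph V₂} {G₁ : SimpleGraph V₁} {f : V₂ → Option V₁}
    (hf : Minor G₂ G₁ f) {D : ℝ} (hD : 0 ≤ D)
    (H : ∀ Q : Matrix V₂ V₂ ℝ, Q.PosDef → Supp G₂ Q → KP (nm (gq Q)) D)
    {Q₁ : Matrix V₁ V₁ ℝ} (hQ : Q₁.PosDef) (hs : Supp G₁ Q₁) : KP (nm (gq Q₁)) D := by
  classical
  choose r hr hconn using hf.conn
  have hc : ∀ a b, ∃ p : V₂ × V₂, f p.1 = some a ∧ f p.2 = some b ∧
      (G₁.Adj a b → G₂.Adj p.1 p.2) ∧ (a = b → p.1 = p.2) := by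
    intro a b
    by_cases hab : G₁.Adj a b
    · obtain ⟨u, v, h1, h2, h3⟩ := hf.edge a b hab
      exact ⟨(u, v), h1, h2, fun _ => h3, fun h => absurd h hab.ne⟩
    · by_cases hab' : a = b
      · exact ⟨(r a, r b), hr a, hr b, fun h => absurd h hab, fun h => by rw [h]⟩
      · exact ⟨(r a, r b), hr a, hr b, fun h => absurd h hab, fun h => absurd h hab'⟩
  choose c hc1 hc2 hc3 hc4 using hc
  refine kp_netW (r := r) (L := Matrix.of fun u i => dl (f u) (some i))
    (S := fun u v => ∑ a : V₁ × V₁, Q₁ a.1 a.2 / 2 *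
      (dl u (c a.1 a.2).1 * dl v (c a.1 a.2).2 + dl v (c a.1 a.2).1 * dl u (c a.1 a.2).2))
    (P := tie G₂ f) hD ?_ fun Q hQ' h1 => H Q hQ' ?_
  · have hL : ∀ u (y : V₁ → ℝ), ∑ i, (Matrix.of fun u i => dl (f u) (some i)) u i * y i =
        (f u).elim 0 y := by
      intro u y
      simp only [Matrix.of_apply]
      rcases h : f u with _ | a
      · simp only [Option.elim_none]
        exact Finset.sum_eq_zero fun i _ => by rw [dl_ne (by simp), zero_mul]
      · simp only [Option.elim_some]
        rw [← dl_sum' a y]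
        refine Finset.sum_congr rfl fun i _ => ?_
        congr 1
        by_cases hai : a = i
        · rw [hai, dl_self, dl_self]
        · rw [dl_ne hai, dl_ne (by simpa using hai)]
    refine ⟨hQ, fun u i => dl_nonneg _ _, fun k y => ?_, fun u v => ?_,
      fun y => ?_, fun y g => ?_, fun w hw0 hw => ?_⟩
    · rw [hL, hr]
      rfl
    · refine Finset.sum_congr rfl fun a _ => ?_
      ring
    · rw [qf_dl (A := V₁ × V₁) (fun a => Q₁ a.1 a.2) (fun a => (c a.1 a.2).1)
        (fun a => (c a.1 a.2).2), Fintype.sum_prod_type]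
      unfold qf
      refine Finset.sum_congr rfl fun a _ => Finset.sum_congr rfl fun b _ => ?_
      rw [hL, hL, hc1, hc2]
      simp only [Option.elim_some]
      ring
    · simp only [hL]
      rcases g with g | g
      · simp only [tie, Matrix.of_apply, Sum.elim_inl]
        split_ifs with hg
        · simp only [sub_mul, Finset.sum_sub_distrib]
          rw [dl_sum g.1 (fun v => (f v).elim 0 y), dl_sum g.2 (fun v => (f v).elim 0 y), hg.2,
            sub_self]
        · simp
      · simp only [tie, Matrix.of_apply, Sum.elim_inr]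
        split_ifs with hg
        · rw [dl_sum g (fun v => (f v).elim 0 y), hg]
          rfl
        · simp
    · have key : ∀ x y, G₂.Adj x y → f x = f y → w x = w y := by
        intro x y hxy hfxy
        have h2 := hw (Sum.inl (x, y))
        simp only [tie, Matrix.of_apply, Sum.elim_inl, hxy, hfxy, and_self, if_true, sub_mul,
          Finset.sum_sub_distrib] at h2
        rw [dl_sum, dl_sum] at h2
        linarith
      funext u
      rcases hu : f u with _ | a
      · have h2 := hw (Sum.inr u)
        simp only [tie, Matrix.of_apply, Sum.elim_inr, hu, if_true] at h2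
        rwa [dl_sum] at h2
      · have h3 := hconn a u hu
        have h4 : ∀ x y, Relation.ReflTransGen
            (fun x y => G₂.Adj x y ∧ f x = some a ∧ f y = some a) x y → w x = w y := by
          intro x y h
          induction h with
          | refl => rfl
          | tail _ h5 ih => rw [ih]; exact key _ _ h5.1 (h5.2.1.trans h5.2.2.symm)
        rw [← h4 _ _ h3, hw0]
        rfl
  · intro u v huv hadj
    refine h1 u v ?_ fun g => ?_
    · refine Finset.sum_eq_zero fun a _ => ?_
      by_cases hab : G₁.Adj a.1 a.2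
      · have h2 := hc3 a.1 a.2 hab
        have e1 : dl u (c a.1 a.2).1 * dl v (c a.1 a.2).2 = 0 := by
          by_cases h3 : u = (c a.1 a.2).1
          · have h4 : v ≠ (c a.1 a.2).2 := fun h4 => hadj (by rw [h3, h4]; exact h2)
            rw [dl_ne h4, mul_zero]
          · rw [dl_ne h3, zero_mul]
        have e2 : dl v (c a.1 a.2).1 * dl u (c a.1 a.2).2 = 0 := by
          by_cases h3 : v = (c a.1 a.2).1
          · have h4 : u ≠ (c a.1 a.2).2 := fun h4 => hadj (by rw [h3, h4]; exact h2.symm)
            rw [dl_ne h4, mul_zero]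
          · rw [dl_ne h3, zero_mul]
        rw [e1, e2, add_zero, mul_zero]
      · by_cases hab' : a.1 = a.2
        · have h2 := hc4 a.1 a.2 hab'
          rw [← h2]
          have e1 : dl u (c a.1 a.2).1 * dl v (c a.1 a.2).1 = 0 := by
            by_cases h3 : u = (c a.1 a.2).1
            · rw [dl_ne (fun h4 => huv (by rw [h3, ← h4]) : v ≠ (c a.1 a.2).1), mul_zero]
            · rw [dl_ne h3, zero_mul]
          rw [mul_comm (dl v _), e1, add_zero, mul_zero]
        · rw [hs _ _ hab' hab, zero_div, zero_mul]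
    · rcases g with g | g
      · simp only [tie, Matrix.of_apply, Sum.elim_inl]
        by_cases hg : G₂.Adj g.1 g.2 ∧ f g.1 = f g.2
        · simp only [hg, and_self, if_true]
          by_contra hcon
          push Not at hcon
          have e1 : u = g.1 ∨ u = g.2 := by
            by_contra h3
            push Not at h3
            exact hcon.1 (by rw [dl_ne h3.1, dl_ne h3.2, sub_self])
          have e2 : v = g.1 ∨ v = g.2 := by
            by_contra h3
            push Not at h3
            exact hcon.2 (by rw [dl_ne h3.1, dl_ne h3.2, sub_self])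
          rcases e1 with e1 | e1 <;> rcases e2 with e2 | e2
          · exact huv (e1.trans e2.symm)
          · exact hadj (by rw [e1, e2]; exact hg.1)
          · exact hadj (by rw [e1, e2]; exact hg.1.symm)
          · exact huv (e1.trans e2.symm)
        · simp only [hg, if_false, true_or]
      · simp only [tie, Matrix.of_apply, Sum.elim_inr]
        split_ifs with hg
        · by_cases h3 : u = g
          · exact Or.inr (dl_ne fun h4 => huv (h3.trans h4.symm))
          · exact Or.inl (dl_ne h3)
        · exact Or.inl rfl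

/-- `G₁` is obtained from `G₂` by contractions of edges and deletions of edges: `f` maps the
vertices of `G₂` onto those of `G₁`, the preimages of the vertices are connected, and edges lift -/
structure Contr {V₁ V₂ : Type} (G₂ : SimpleGraph V₂) (G₁ : SimpleGraph V₁) (f : V₂ → V₁) :
    Prop where
  conn : ∀ v, ∃ r, f r = v ∧ ∀ u, f u = v →
    Relation.ReflTransGen (fun x y => G₂.Adj x y ∧ f x = v ∧ f y = v) r u
  edge : ∀ a b, G₁.Adj a b → ∃ u v, f u = a ∧ f v = b ∧ G₂.Adj u v

omit [Fintype V₁] [Fintype V₂] in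
theorem Contr.minor {G₂ : SimpleGraph V₂} {G₁ : SimpleGraph V₁} {f : V₂ → V₁}
    (hf : Contr G₂ G₁ f) : Minor G₂ G₁ fun u => some (f u) := by
  refine ⟨fun v => ?_, fun a b h => ?_⟩
  · simpa only [Option.some.injEq] using hf.conn v
  · simpa only [Option.some.injEq] using hf.edge a b h

end graphs

end Pool.Agent.H776
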