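import Pool.Agent.H776.Dom

/-!
# Exponential tilts of invariant log-concave functions
-/

set_option autoImplicit false

namespace Pool.Agent.H776

open MeasureTheory Set Filter Topology
open scoped ENNReal InnerProductSpace
open Q289.LD (Den Ex)

variable {κ : Type} [Fintype κ]

/-- log-concave functions -/
structure LCf (F : Eu κ → ℝ) : Prop where
  nonneg : ∀ x, 0 ≤ F x
  meas : Measurable F
  lc : ∀ x y : Eu κ, ∀ t : ℝ, 0 < t → t < 1 → F x ^ (1 - t) * F y ^ t ≤ F ((1 - t) • x + t • y)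

/-- points with trivial stabiliser are dense -/
theorem exists_generic (Γ : Subgroup (Eu κ ≃ₗᵢ[ℝ] Eu κ)) [Finite Γ] {U : Set (Eu κ)} (hU : IsOpen U)
    (hne : U.Nonempty) : ∃ a ∈ U, ∀ σ ∈ Γ, σ ≠ 1 → σ a ≠ a := by
  by_contra hcon
  push Not at hcon
  have h1 : U ⊆ ⋃ σ ∈ {σ : Γ | (σ : Eu κ ≃ₗᵢ[ℝ] Eu κ) ≠ 1},
      {x : Eu κ | (σ : Eu κ ≃ₗᵢ[ℝ] Eu κ) x = x} := by
    intro a ha
    obtain ⟨σ, hσ, h1, h2⟩ := hcon a ha
    simp only [mem_iUnion]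
    exact ⟨⟨σ, hσ⟩, h1, h2⟩
  have h2 : volume (⋃ σ ∈ {σ : Γ | (σ : Eu κ ≃ₗᵢ[ℝ] Eu κ) ≠ 1},
      {x : Eu κ | (σ : Eu κ ≃ₗᵢ[ℝ] Eu κ) x = x}) = 0 := by
    refine (measure_biUnion_null_iff (to_countable _)).2 fun σ hσ => ?_
    set W : Submodule ℝ (Eu κ) :=
      LinearMap.ker ((σ : Eu κ ≃ₗᵢ[ℝ] Eu κ).toLinearEquiv.toLinearMap - LinearMap.id) with hW
    have e : {x : Eu κ | (σ : Eu κ ≃ₗᵢ[ℝ] Eu κ) x = x} = (W : Set (Eu κ)) := by
      ext x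
      simp only [mem_ofPred_eq, SetLike.mem_coe, hW, LinearMap.mem_ker, LinearMap.sub_apply,
        sub_eq_zero]
      rfl
    rw [e]
    refine Measure.addHaar_submodule volume W fun htop => hσ ?_
    ext1 x
    have hx : x ∈ (W : Set (Eu κ)) := by rw [htop]; trivial
    rw [← e] at hx
    exact hx
  have h3 := measure_mono_null h1 h2
  exact absurd h3 (hU.measure_pos volume hne).ne'

section

variable (Γ : Subgroup (Eu κ ≃ₗᵢ[ℝ] Eu κ)) [Finite Γ] {ρ : Eu κ → ℝ} {M c l : ℝ}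

/-- the pieces -/
noncomputable def pc (ρ : Eu κ → ℝ) (l : ℝ) (a b : Eu κ) (x : Eu κ) : ℝ :=
  Real.exp (-⟪a, x⟫_ℝ) * sl ρ l (x - b)

/-- the invariant function -/
noncomputable def invF (ρ : Eu κ → ℝ) (l : ℝ) (a b : Eu κ) (x : Eu κ) : ℝ :=
  ⨅ σ : Γ, pc ρ l a b ((σ : Eu κ ≃ₗᵢ[ℝ] Eu κ) x)

theorem pc_pos (hρ : Den ρ) (hE : Ex ρ M c) (hl : 0 ≤ l) (a b x : Eu κ) : 0 < pc ρ l a b x :=
  mul_pos (Real.exp_pos _) (sl_pos hρ hE hl _)

theorem pc_cont (hρ : Den ρ) (hE : Ex ρ M c) (hl : 0 ≤ l) (a b : Eu κ) :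
    Continuous (pc ρ l a b) := by
  unfold pc
  exact (Real.continuous_exp.comp (by fun_prop)).mul ((sl_cont hρ hE hl).comp (by fun_prop))

theorem pc_lc (hρ : Den ρ) (hE : Ex ρ M c) (hl : 0 ≤ l) (a b x y : Eu κ) (t : ℝ) (ht : 0 < t)
    (ht1 : t < 1) : pc ρ l a b x ^ (1 - t) * pc ρ l a b y ^ t ≤
      pc ρ l a b ((1 - t) • x + t • y) := by
  unfold pc
  rw [Real.mul_rpow (Real.exp_pos _).le (sl_pos hρ hE hl _).le,
    Real.mul_rpow (Real.exp_pos _).le (sl_pos hρ hE hl _).le, ← Real.exp_mul, ← Real.exp_mul]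
  have h1 := sl_lc hρ hE hl (x - b) (y - b) t ht ht1
  have e1 : (1 - t) • (x - b) + t • (y - b) = (1 - t) • x + t • y - b := by module
  rw [e1] at h1
  have e2 : Real.exp (-⟪a, (1 - t) • x + t • y⟫_ℝ) =
      Real.exp (-⟪a, x⟫_ℝ * (1 - t)) * Real.exp (-⟪a, y⟫_ℝ * t) := by
    rw [← Real.exp_add, inner_add_right, real_inner_smul_right, real_inner_smul_right]
    congr 1
    ring
  rw [e2]
  calc Real.exp (-⟪a, x⟫_ℝ * (1 - t)) * sl ρ l (x - b) ^ (1 - t) *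
        (Real.exp (-⟪a, y⟫_ℝ * t) * sl ρ l (y - b) ^ t)
      = Real.exp (-⟪a, x⟫_ℝ * (1 - t)) * Real.exp (-⟪a, y⟫_ℝ * t) *
        (sl ρ l (x - b) ^ (1 - t) * sl ρ l (y - b) ^ t) := by ring
    _ ≤ _ := mul_le_mul_of_nonneg_left h1 (by positivity)

theorem invF_le (σ : Γ) (ρ : Eu κ → ℝ) (l : ℝ) (a b x : Eu κ) :
    invF Γ ρ l a b x ≤ pc ρ l a b ((σ : Eu κ ≃ₗᵢ[ℝ] Eu κ) x) :=
  ciInf_le (Set.finite_range _).bddBelow σ

theorem invF_lcf (hρ : Den ρ) (hE : Ex ρ M c) (hl : 0 ≤ l) (a b : Eu κ) :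
    LCf (invF Γ ρ l a b) := by
  have hn : ∀ x, 0 ≤ invF Γ ρ l a b x := fun x => le_ciInf fun σ => (pc_pos hρ hE hl _ _ _).le
  refine ⟨hn, ?_, ?_⟩
  · exact Measurable.iInf fun σ => ((pc_cont hρ hE hl a b).comp
      (σ : Eu κ ≃ₗᵢ[ℝ] Eu κ).continuous).measurable
  · intro x y t ht ht1
    refine le_ciInf fun σ => ?_
    have h1 := pc_lc hρ hE hl a b ((σ : Eu κ ≃ₗᵢ[ℝ] Eu κ) x) ((σ : Eu κ ≃ₗᵢ[ℝ] Eu κ) y) t ht ht1
    rw [← map_smul, ← map_smul, ← map_add] at h1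
    refine le_trans ?_ h1
    exact mul_le_mul (Real.rpow_le_rpow (hn x) (invF_le Γ σ ρ l a b x) (by linarith))
      (Real.rpow_le_rpow (hn y) (invF_le Γ σ ρ l a b y) ht.le) (Real.rpow_nonneg (hn y) _)
      (Real.rpow_nonneg (pc_pos hρ hE hl _ _ _).le _)

theorem invF_pos (hρ : Den ρ) (hE : Ex ρ M c) (hl : 0 ≤ l) (a b x : Eu κ) :
    0 < invF Γ ρ l a b x := by
  obtain ⟨σ, hσ⟩ := Finite.exists_min fun σ : Γ => pc ρ l a b ((σ : Eu κ ≃ₗᵢ[ℝ] Eu κ) x)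
  exact lt_of_lt_of_le (pc_pos hρ hE hl a b ((σ : Eu κ ≃ₗᵢ[ℝ] Eu κ) x)) (le_ciInf hσ)

omit [Finite Γ] in
theorem invF_inv (ρ : Eu κ → ℝ) (l : ℝ) (a b : Eu κ) (σ : Eu κ ≃ₗᵢ[ℝ] Eu κ) (hσ : σ ∈ Γ)
    (x : Eu κ) : invF Γ ρ l a b (σ x) = invF Γ ρ l a b x := by
  unfold invF
  exact Equiv.iInf_congr (Equiv.mulRight (⟨σ, hσ⟩ : Γ)) fun τ => rfl

/-- the deep chamber: the identity gives the minimum -/
theorem invF_eq (hρ : Den ρ) (hE : Ex ρ M c) (hl : 0 ≤ l) {a b x : Eu κ}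
    (h : ∀ σ ∈ Γ, l * ‖x - σ x‖ ≤ ⟪a, x - σ x⟫_ℝ) : invF Γ ρ l a b x = pc ρ l a b x := by
  refine le_antisymm (invF_le Γ 1 ρ l a b x) (le_ciInf fun σ => ?_)
  have h1 := h σ σ.2
  set z := (σ : Eu κ ≃ₗᵢ[ℝ] Eu κ) x with hz
  unfold pc
  have h2 := sl_lip hρ hE hl (x - b) (z - b)
  have e1 : x - b - (z - b) = x - z := by abel
  rw [e1] at h2
  calc Real.exp (-⟪a, x⟫_ℝ) * sl ρ l (x - b)
      ≤ Real.exp (-⟪a, x⟫_ℝ) * (Real.exp (l * ‖x - z‖) * sl ρ l (z - b)) :=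
        mul_le_mul_of_nonneg_left h2 (Real.exp_pos _).le
    _ = Real.exp (-⟪a, x⟫_ℝ + l * ‖x - z‖) * sl ρ l (z - b) := by rw [Real.exp_add]; ring
    _ ≤ Real.exp (-⟪a, z⟫_ℝ) * sl ρ l (z - b) := by
        refine mul_le_mul_of_nonneg_right (Real.exp_le_exp.2 ?_) (sl_pos hρ hE hl _).le
        rw [inner_sub_right] at h1
        linarith

/-- a vector with large differences, orthogonal to the fixed vectors -/
theorem exists_vec {l : ℝ} (hl : 0 < l) : ∃ (a : Eu κ) (d : ℝ), 0 < d ∧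
    (∀ σ ∈ Γ, σ ≠ 1 → d ≤ ‖a - σ a‖ ∧ 4 * l ≤ ‖a - σ a‖) ∧ ∀ x, ∃ σ ∈ Γ, 0 ≤ ⟪a, σ x⟫_ℝ := by
  classical
  have hft : Fintype Γ := Fintype.ofFinite Γ
  obtain ⟨a0, -, ha0⟩ := exists_generic Γ isOpen_univ univ_nonempty
  -- remove the average
  set N : ℝ := (Fintype.card Γ : ℝ) with hN
  have hN0 : 0 < N := by
    rw [hN]
    exact_mod_cast Fintype.card_pos
  obtain ⟨v, hv⟩ : ∃ v : Eu κ, v = N⁻¹ • ∑ τ : Γ, (τ : Eu κ ≃ₗᵢ[ℝ] Eu κ) a0 := ⟨_, rfl⟩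
  have hvf : ∀ σ ∈ Γ, σ v = v := by
    intro σ hσ
    rw [hv, map_smul, map_sum]
    congr 1
    exact Fintype.sum_equiv (Equiv.mulLeft (⟨σ, hσ⟩ : Γ)) _ _ fun τ => rfl
  set a := a0 - v with hadef
  have ha : ∀ σ ∈ Γ, σ ≠ 1 → σ a ≠ a := by
    intro σ hσ h1 h2
    refine ha0 σ hσ h1 ?_
    rw [hadef, map_sub, hvf σ hσ] at h2
    exact sub_left_injective h2
  have hsum : ∑ τ : Γ, (τ : Eu κ ≃ₗᵢ[ℝ] Eu κ) a = 0 := by
    have e1 : ∀ τ : Γ, (τ : Eu κ ≃ₗᵢ[ℝ] Eu κ) a = (τ : Eu κ ≃ₗᵢ[ℝ] Eu κ) a0 - v := fun τ => by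
      rw [hadef, map_sub, hvf τ τ.2]
    simp only [e1]
    rw [Finset.sum_sub_distrib, Finset.sum_const, Finset.card_univ, ← Nat.cast_smul_eq_nsmul ℝ,
      ← hN, hv, smul_smul, mul_inv_cancel₀ hN0.ne', one_smul, sub_self]
  have hbal : ∀ x, ∃ σ ∈ Γ, 0 ≤ ⟪a, σ x⟫_ℝ := by
    intro x
    by_contra hcon
    push Not at hcon
    have h1 : ∑ τ : Γ, ⟪a, ((τ⁻¹ : Γ) : Eu κ ≃ₗᵢ[ℝ] Eu κ) x⟫_ℝ = 0 := by
      have e1 : ∀ τ : Γ, ⟪a, ((τ⁻¹ : Γ) : Eu κ ≃ₗᵢ[ℝ] Eu κ) x⟫_ℝ =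
          ⟪(τ : Eu κ ≃ₗᵢ[ℝ] Eu κ) a, x⟫_ℝ := fun τ => by
        have h2 := LinearIsometryEquiv.inner_map_map (τ : Eu κ ≃ₗᵢ[ℝ] Eu κ) a
          (((τ⁻¹ : Γ) : Eu κ ≃ₗᵢ[ℝ] Eu κ) x)
        rw [← h2]
        congr 1
        have h3 : (τ : Eu κ ≃ₗᵢ[ℝ] Eu κ) * ((τ⁻¹ : Γ) : Eu κ ≃ₗᵢ[ℝ] Eu κ) = 1 := by
          rw [← Subgroup.coe_mul, mul_inv_cancel, Subgroup.coe_one]
        exact DFunLike.congr_fun h3 x
      simp only [e1]
      rw [← sum_inner, hsum, inner_zero_left]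
    have h2 : ∑ τ : Γ, ⟪a, ((τ⁻¹ : Γ) : Eu κ ≃ₗᵢ[ℝ] Eu κ) x⟫_ℝ < 0 :=
      Finset.sum_neg (fun τ _ => hcon _ (τ⁻¹).2) Finset.univ_nonempty
    linarith
  obtain ⟨d, hd, hd2⟩ : ∃ d > 0, ∀ σ ∈ Γ, σ ≠ 1 → d ≤ ‖a - σ a‖ := by
    have hfin : (range fun σ : {σ : Γ // (σ : Eu κ ≃ₗᵢ[ℝ] Eu κ) ≠ 1} =>
        ‖a - (σ : Eu κ ≃ₗᵢ[ℝ] Eu κ) a‖).Finite := Set.finite_range _
    obtain ⟨d, hd, h⟩ : ∃ d > 0, ∀ r ∈ range (fun σ : {σ : Γ // (σ : Eu κ ≃ₗᵢ[ℝ] Eu κ) ≠ 1} =>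
        ‖a - (σ : Eu κ ≃ₗᵢ[ℝ] Eu κ) a‖), d ≤ r := by
      rcases (range fun σ : {σ : Γ // (σ : Eu κ ≃ₗᵢ[ℝ] Eu κ) ≠ 1} =>
        ‖a - (σ : Eu κ ≃ₗᵢ[ℝ] Eu κ) a‖).eq_empty_or_nonempty with he | hne
      · exact ⟨1, one_pos, fun r hr => by rw [he] at hr; exact absurd hr (notMem_empty r)⟩
      · obtain ⟨r, hr, hmin⟩ := Set.exists_min_image _ id hfin hne
        obtain ⟨σ, rfl⟩ := hr
        refine ⟨_, ?_, fun r hr => hmin r hr⟩
        exact norm_pos_iff.2 (sub_ne_zero.2 (ha σ σ.1.2 σ.2).symm)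
    exact ⟨d, hd, fun σ hσ h1 => h _ ⟨⟨⟨σ, hσ⟩, h1⟩, rfl⟩⟩
  refine ⟨(4 * l / d) • a, 4 * l, by positivity, fun σ hσ h1 => ?_, fun x => ?_⟩
  · have e : (4 * l / d) • a - σ ((4 * l / d) • a) = (4 * l / d) • (a - σ a) := by
      rw [map_smul, ← smul_sub]
    have h2 : 4 * l ≤ ‖(4 * l / d) • a - σ ((4 * l / d) • a)‖ := by
      rw [e, norm_smul, Real.norm_of_nonneg (by positivity)]
      have := mul_le_mul_of_nonneg_left (hd2 σ hσ h1) (show 0 ≤ 4 * l / d by positivity)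
      rwa [div_mul_cancel₀ _ hd.ne'] at this
    exact ⟨h2, h2⟩
  · obtain ⟨σ, hσ, h1⟩ := hbal x
    refine ⟨σ, hσ, ?_⟩
    rw [real_inner_smul_left]
    positivity

/-- the invariant function is integrable -/
theorem invF_int (hρ : Den ρ) (hE : Ex ρ M c) (hl : c ≤ l) {a b : Eu κ}
    (hbal : ∀ x, ∃ σ ∈ Γ, 0 ≤ ⟪a, σ x⟫_ℝ) : Integrable (invF Γ ρ l a b) := by
  have hl0 : 0 ≤ l := hE.2.1.le.trans hl
  have hF := invF_lcf Γ hρ hE hl0 a b
  have hint : Integrable fun x : Eu κ => M * Real.exp (c * ‖b‖) * Real.exp (-(c * ‖x‖)) := by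
    refine Integrable.const_mul ?_ _
    refine (Q38.LD.Lim.integ (κ := κ) hE.2.1).mono' (by fun_prop)
      (Eventually.of_forall fun x => ?_)
    rw [Real.norm_of_nonneg (Real.exp_pos _).le]
    nlinarith [mul_nonneg (sq_nonneg ‖x‖) (Real.exp_pos (-(c * ‖x‖))).le]
  refine hint.mono' hF.meas.aestronglyMeasurable (Eventually.of_forall fun x => ?_)
  rw [Real.norm_of_nonneg (hF.nonneg x)]
  obtain ⟨σ, hσ, h1⟩ := hbal x
  refine (invF_le Γ ⟨σ, hσ⟩ ρ l a b x).trans ?_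
  unfold pc
  have h2 := sl_le hρ hE hl (σ x - b)
  have h3 : Real.exp (-⟪a, σ x⟫_ℝ) ≤ 1 := Real.exp_le_one_iff.2 (by linarith)
  calc Real.exp (-⟪a, σ x⟫_ℝ) * sl ρ l (σ x - b)
      ≤ 1 * (M * Real.exp (-(c * ‖σ x - b‖))) :=
        mul_le_mul h3 h2 (sl_pos hρ hE hl0 _).le zero_le_one
    _ = M * Real.exp (-(c * ‖σ x - b‖)) := one_mul _
    _ ≤ M * (Real.exp (c * ‖b‖) * Real.exp (-(c * ‖x‖))) := by
        rw [← Real.exp_add]
        refine mul_le_mul_of_nonneg_left (Real.exp_le_exp.2 ?_) hE.1.le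
        have h4 : ‖x‖ ≤ ‖σ x - b‖ + ‖b‖ := by
          have := norm_add_le (σ x - b) b
          rwa [sub_add_cancel, LinearIsometryEquiv.norm_map] at this
        have := mul_le_mul_of_nonneg_left h4 hE.2.1.le
        linarith
    _ = M * Real.exp (c * ‖b‖) * Real.exp (-(c * ‖x‖)) := by ring

omit [Finite Γ] in
theorem deep {l : ℝ} (hl : 0 < l) {a : Eu κ} {d : ℝ} (hd : 0 < d)
    (h : ∀ σ ∈ Γ, σ ≠ 1 → d ≤ ‖a - σ a‖ ∧ 4 * l ≤ ‖a - σ a‖) (y : Eu κ) :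
    ∀ᶠ R : ℝ in atTop, ∀ σ ∈ Γ, l * ‖(y + R • a) - σ (y + R • a)‖ ≤
      ⟪a, (y + R • a) - σ (y + R • a)⟫_ℝ := by
  filter_upwards [eventually_ge_atTop (max 0 (8 * ‖y‖ * (l + ‖a‖) / d ^ 2))] with R hR σ hσ
  have hR0 : 0 ≤ R := (le_max_left _ _).trans hR
  have hR1 : 8 * ‖y‖ * (l + ‖a‖) / d ^ 2 ≤ R := (le_max_right _ _).trans hR
  rw [div_le_iff₀ (by positivity)] at hR1
  by_cases h1 : σ = 1
  · subst h1
    simp
  obtain ⟨h2, h3⟩ := h σ hσ h1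
  set w := ‖a - σ a‖ with hw
  have hw0 : 0 < w := lt_of_lt_of_le hd h2
  have e1 : (y + R • a) - σ (y + R • a) = (y - σ y) + R • (a - σ a) := by
    rw [map_add, map_smul, smul_sub]; abel
  have hsy : ‖y - σ y‖ ≤ 2 * ‖y‖ := by
    refine (norm_sub_le _ _).trans ?_
    rw [LinearIsometryEquiv.norm_map]
    linarith
  have h4 : ‖(y + R • a) - σ (y + R • a)‖ ≤ 2 * ‖y‖ + R * w := by
    rw [e1]
    refine (norm_add_le _ _).trans ?_
    rw [norm_smul, Real.norm_of_nonneg hR0]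
    linarith
  have e2 : ⟪a, a - σ a⟫_ℝ = w ^ 2 / 2 := by
    have h5 : w ^ 2 = ‖a‖ ^ 2 - 2 * ⟪a, σ a⟫_ℝ + ‖σ a‖ ^ 2 := by
      rw [hw, norm_sub_sq_real]
    rw [LinearIsometryEquiv.norm_map] at h5
    rw [inner_sub_right, real_inner_self_eq_norm_sq]
    linarith
  have h6 : -(2 * ‖a‖ * ‖y‖) ≤ ⟪a, y - σ y⟫_ℝ := by
    have h7 := abs_real_inner_le_norm a (y - σ y)
    have h8 := (abs_le.1 h7).1
    have h9 := mul_le_mul_of_nonneg_left hsy (norm_nonneg a)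
    linarith
  have h10 : ⟪a, (y + R • a) - σ (y + R • a)⟫_ℝ = ⟪a, y - σ y⟫_ℝ + R * (w ^ 2 / 2) := by
    rw [e1, inner_add_right, real_inner_smul_right, e2]
  rw [h10]
  have h11 : l * ‖(y + R • a) - σ (y + R • a)‖ ≤ l * (2 * ‖y‖ + R * w) :=
    mul_le_mul_of_nonneg_left h4 hl.le
  have h12 : l * (R * w) ≤ R * (w ^ 2 / 4) := by
    have : l * w ≤ w ^ 2 / 4 := by nlinarith
    calc l * (R * w) = R * (l * w) := by ring
      _ ≤ R * (w ^ 2 / 4) := mul_le_mul_of_nonneg_left this hR0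
  have h13 : R * (w ^ 2 / 4) ≥ 2 * ‖y‖ * (l + ‖a‖) := by
    have : d ^ 2 ≤ w ^ 2 := pow_le_pow_left₀ hd.le h2 2
    have h14 := mul_le_mul_of_nonneg_left this hR0
    linarith
  nlinarith

/-- **KLS for the tilts of `Γ`-invariant log-concave functions implies KLS** -/
theorem tilt_kp {D : ℝ} (hD : 0 ≤ D)
    (H : ∀ (F : Eu κ → ℝ) (a : Eu κ), LCf F → (∀ x, 0 < F x) → (∀ σ ∈ Γ, ∀ x, F (σ x) = F x) →
      Integrable F → Wt (fun x => Real.exp ⟪a, x⟫_ℝ * F x) → KP (nm fun x => Real.exp ⟪a, x⟫_ℝ * F x) D)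
    (hρ : Den ρ) : KP (nm ρ) D := by
  obtain ⟨M, c, hE⟩ := Pool.Agent.Q124.LD.exp κ ρ hρ
  have hc := hE.2.1
  have hint : Integrable (fun x : Eu κ => (1 + ‖x‖ ^ 2) * (M * Real.exp (-(c * ‖x‖)))) := by
    have := (Q38.LD.Lim.integ (κ := κ) hc).const_mul M
    refine this.congr (Eventually.of_forall fun x => ?_)
    simp only
    ring
  have hwρ : Wt ρ := ⟨hρ.nonneg, hρ.meas, by rw [hρ.mass]; exact one_pos, (Q289.LD.tLIM κ ρ hρ).2.1⟩
  have hprob := hwρ.prob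
  -- the limit in `l`
  have step : ∀ l : ℝ, c ≤ l → KP (nm (sl ρ l)) D := by
    intro l hcl
    have hl : 0 < l := hc.trans_le hcl
    have hw : Wt (sl ρ l) := by
      have h1 : Integrable (fun x : Eu κ => (1 + ‖x‖ ^ 2) * sl ρ l x) := by
        refine hint.mono' ((by fun_prop : Measurable fun x : Eu κ => 1 + ‖x‖ ^ 2).mul
          (sl_cont hρ hE hl.le).measurable).aestronglyMeasurable (Eventually.of_forall fun x => ?_)
        rw [Real.norm_of_nonneg (mul_nonneg (by positivity) (sl_pos hρ hE hl.le x).le)]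
        exact mul_le_mul_of_nonneg_left (sl_le hρ hE hcl x) (by positivity)
      have h2 : Integrable (sl ρ l) := by
        refine h1.mono' (sl_cont hρ hE hl.le).aestronglyMeasurable (Eventually.of_forall fun x => ?_)
        rw [Real.norm_of_nonneg (sl_pos hρ hE hl.le x).le]
        nlinarith [mul_nonneg (sq_nonneg ‖x‖) (sl_pos hρ hE hl.le x).le]
      refine ⟨fun x => (sl_pos hρ hE hl.le x).le, (sl_cont hρ hE hl.le).measurable, ?_, h1⟩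
      have h3 : ∫ x, ρ x ≤ ∫ x, sl ρ l x := integral_mono_of_nonneg
        (Eventually.of_forall hρ.nonneg) h2 (Eventually.of_forall (le_sl hρ hE hl.le))
      rw [hρ.mass] at h3
      linarith
    obtain ⟨a, d, hd, ha, hbal⟩ := exists_vec Γ hl
    obtain ⟨G, hG⟩ : ∃ G : ℝ → Eu κ → ℝ, G = fun R x =>
      Real.exp ⟪a, x⟫_ℝ * invF Γ ρ l a (R • a) x := ⟨_, rfl⟩
    obtain ⟨g, hg⟩ : ∃ g : ℝ → Eu κ → ℝ, g = fun R y => G R (y + R • a) := ⟨_, rfl⟩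
    have hF : ∀ R : ℝ, LCf (invF Γ ρ l a (R • a)) := fun R => invF_lcf Γ hρ hE hl.le a (R • a)
    have hG0 : ∀ R x, 0 ≤ G R x := fun R x => by
      rw [hG]; exact mul_nonneg (Real.exp_pos _).le ((hF R).nonneg x)
    have hGm : ∀ R, Measurable (G R) := fun R => by
      rw [hG]
      exact (by fun_prop : Measurable fun x : Eu κ => Real.exp ⟪a, x⟫_ℝ).mul (hF R).meas
    have hGle : ∀ R x, G R x ≤ sl ρ l (x - R • a) := by
      intro R x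
      have h1 := invF_le Γ 1 ρ l a (R • a) x
      rw [hG]
      calc Real.exp ⟪a, x⟫_ℝ * invF Γ ρ l a (R • a) x
          ≤ Real.exp ⟪a, x⟫_ℝ * pc ρ l a (R • a) x := mul_le_mul_of_nonneg_left h1 (Real.exp_pos _).le
        _ = sl ρ l (x - R • a) := by
            unfold pc
            rw [← mul_assoc, ← Real.exp_add, add_neg_cancel, Real.exp_zero, one_mul]
    have hgle : ∀ R y, g R y ≤ sl ρ l y := by
      intro R y
      rw [hg]
      have := hGle R (y + R • a)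
      rwa [add_sub_cancel_right] at this
    have hgeq : ∀ y, ∀ᶠ R in atTop, g R y = sl ρ l y := by
      intro y
      filter_upwards [deep Γ hl hd ha y] with R hR
      rw [hg, hG]
      simp only
      rw [invF_eq Γ hρ hE hl.le hR]
      unfold pc
      rw [← mul_assoc, ← Real.exp_add, add_neg_cancel, Real.exp_zero, one_mul, add_sub_cancel_right]
    obtain ⟨hW, hW2⟩ := W2.of_dom (l := (atTop : Filter ℝ)) (g := g) (g' := sl ρ l)
      (h := sl ρ l) (Eventually.of_forall fun R x => by rw [hg]; exact hG0 R _)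
      (Eventually.of_forall fun R => by
        rw [hg]
        exact (hGm R).comp (measurable_id.add_const (R • a))) hw
      (Eventually.of_forall hgle) hw.mom
      (Eventually.of_forall fun y => tendsto_const_nhds.congr' ((hgeq y).mono fun R h => h.symm))
    have := hw.prob
    refine KP.lim hW2 hD ?_
    filter_upwards [hW] with R hR
    have hWG : Wt (G R) := by
      refine ⟨hG0 R, hGm R, ?_, ?_⟩
      · have h1 := hR.pos
        rw [hg] at h1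
        rwa [integral_add_right_eq_self (G R) (R • a)] at h1
      · have h1 : Integrable fun y : Eu κ => (1 + ‖y + R • a‖ ^ 2) * g R y := by
          have h2 := hR.mom
          refine (h2.const_mul (2 + 2 * ‖R • a‖ ^ 2)).mono'
            ((by fun_prop : Measurable fun y : Eu κ => 1 + ‖y + R • a‖ ^ 2).mul
              hR.meas).aestronglyMeasurable (Eventually.of_forall fun y => ?_)
          rw [Real.norm_of_nonneg (mul_nonneg (by positivity) (hR.nonneg y)), ← mul_assoc]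
          refine mul_le_mul_of_nonneg_right ?_ (hR.nonneg y)
          have h3 : ‖y + R • a‖ ^ 2 ≤ (‖y‖ + ‖R • a‖) ^ 2 :=
            pow_le_pow_left₀ (norm_nonneg _) (norm_add_le _ _) 2
          nlinarith [sq_nonneg (‖y‖ - ‖R • a‖), sq_nonneg ‖y‖, sq_nonneg ‖R • a‖,
            mul_nonneg (sq_nonneg ‖y‖) (sq_nonneg ‖R • a‖)]
        rw [hg] at h1
        have h4 := h1.comp_sub_right (R • a)
        refine h4.congr (Eventually.of_forall fun x => ?_)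
        simp only [sub_add_cancel]
    have hk : KP (nm (G R)) D := by
      rw [hG] at hWG ⊢
      exact H _ a (hF R) (fun x => invF_pos Γ hρ hE hl.le a _ x)
        (fun σ hσ x => invF_inv Γ ρ l a (R • a) σ hσ x) (invF_int Γ hρ hE hcl hbal) hWG
    have h2 := hk.translate hWG (c := R • a)
    rw [hg]
    exact h2
  obtain ⟨-, hW2⟩ := W2.of_dom (l := (atTop : Filter ℝ)) (g := sl ρ) (g' := ρ)
    (h := fun x => M * Real.exp (-(c * ‖x‖)))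
    (by
      filter_upwards [eventually_ge_atTop c] with l hl x
      exact (sl_pos hρ hE (hc.le.trans hl) x).le)
    (by
      filter_upwards [eventually_ge_atTop c] with l hl
      exact (sl_cont hρ hE (hc.le.trans hl)).measurable)
    hwρ
    (by
      filter_upwards [eventually_ge_atTop c] with l hl x
      exact sl_le hρ hE hl x)
    hint
    (by
      filter_upwards [Pool.Agent.Q124.LD.cae κ ρ hρ] with x hx
      exact sl_tendsto hρ hE hx)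
  exact KP.lim hW2 hD ((eventually_ge_atTop c).mono step)

end

end Pool.Agent.H776
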