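import Mathlib

/-!
# Integrals of sums of squares against product densities on `ℝⁿ`
-/

set_option autoImplicit false

namespace Pool.Agent.H776

open MeasureTheory Set Filter Topology

/-- product density -/
noncomputable def ww (w : ℝ → ℝ) {n : ℕ} (z : Fin n → ℝ) : ℝ := ∏ i, w (z i)

section

variable {w : ℝ → ℝ} {n : ℕ}

theorem prod_ww_single (f : ℝ → ℝ) (i : Fin n) (z : Fin n → ℝ) :
    f (z i) * ww w z = ∏ j, ((if j = i then f (z j) else 1) * w (z j)) := by
  rw [Finset.prod_mul_distrib, Finset.prod_ite_eq' Finset.univ i fun j => f (z j)]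
  simp [ww]

theorem prod_ww_double (f g : ℝ → ℝ) (i k : Fin n) (z : Fin n → ℝ) :
    f (z i) * g (z k) * ww w z =
      ∏ j, ((if j = i then f (z j) else 1) * (if j = k then g (z j) else 1) * w (z j)) := by
  rw [Finset.prod_mul_distrib, Finset.prod_mul_distrib,
    Finset.prod_ite_eq' Finset.univ i fun j => f (z j),
    Finset.prod_ite_eq' Finset.univ k fun j => g (z j)]
  simp [ww]

theorem int_ww : ∫ z : Fin n → ℝ, ww w z = (∫ r, w r) ^ n := by
  unfold ww
  rw [integral_fintype_prod_volume_eq_pow, Fintype.card_fin]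

theorem int_single (f : ℝ → ℝ) (i : Fin n) :
    ∫ z : Fin n → ℝ, f (z i) * ww w z = (∫ r, f r * w r) * (∫ r, w r) ^ (n - 1) := by
  simp only [prod_ww_single]
  rw [integral_fintype_prod_volume_eq_prod
    (fun j r => (if j = i then f r else 1) * w r), ← Finset.mul_prod_erase _ _ (Finset.mem_univ i)]
  congr 1
  · simp
  · rw [Finset.prod_congr rfl (g := fun _ => ∫ r, w r)]
    · rw [Finset.prod_const, Finset.card_erase_of_mem (Finset.mem_univ i), Finset.card_univ,
        Fintype.card_fin]
    · intro j hj
      have : j ≠ i := Finset.ne_of_mem_erase hj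
      simp [this]

theorem int_cross {u : ℝ → ℝ} (h : ∫ r, u r * w r = 0) {i k : Fin n} (hik : i ≠ k) :
    ∫ z : Fin n → ℝ, u (z i) * u (z k) * ww w z = 0 := by
  simp only [prod_ww_double]
  rw [integral_fintype_prod_volume_eq_prod
    (fun j r => (if j = i then u r else 1) * (if j = k then u r else 1) * w r)]
  refine Finset.prod_eq_zero (Finset.mem_univ i) ?_
  simpa [hik] using h

theorem integrable_single {f : ℝ → ℝ} (hw : Integrable w) (hf : Integrable fun r => f r * w r)
    (i : Fin n) : Integrable fun z : Fin n → ℝ => f (z i) * ww w z := by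
  simp only [prod_ww_single]
  refine Integrable.fintype_prod (f := fun j r => (if j = i then f r else 1) * w r) fun j => ?_
  by_cases h : j = i
  · simpa [h] using hf
  · simpa [h] using hw

theorem integrable_double {f g : ℝ → ℝ} (hw : Integrable w) (hf : Integrable fun r => f r * w r)
    (hg : Integrable fun r => g r * w r) (hfg : Integrable fun r => f r * g r * w r)
    (i k : Fin n) : Integrable fun z : Fin n → ℝ => f (z i) * g (z k) * ww w z := by
  simp only [prod_ww_double]
  refine Integrable.fintype_prod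
    (f := fun j r => (if j = i then f r else 1) * (if j = k then g r else 1) * w r) fun j => ?_
  by_cases h : j = i
  · by_cases h' : j = k
    · simp only [if_pos h, if_pos h']
      exact hfg
    · simp only [if_pos h, if_neg h', mul_one]
      exact hf
  · by_cases h' : j = k
    · simp only [if_neg h, if_pos h', one_mul]
      exact hg
    · simp only [if_neg h, if_neg h', one_mul]
      exact hw

theorem integrable_ww (hw : Integrable w) : Integrable fun z : Fin n → ℝ => ww w z := by
  unfold ww
  exact Integrable.fintype_prod fun _ => hw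

theorem int_sum_sq {u : ℝ → ℝ} (hw : Integrable w) (hu : Integrable fun r => u r * w r)
    (huu : Integrable fun r => u r * u r * w r) (h : ∫ r, u r * w r = 0) :
    Integrable (fun z : Fin n → ℝ => (∑ i, u (z i)) ^ 2 * ww w z) ∧
    ∫ z : Fin n → ℝ, (∑ i, u (z i)) ^ 2 * ww w z =
      n * ((∫ r, u r * u r * w r) * (∫ r, w r) ^ (n - 1)) := by
  have e : ∀ z : Fin n → ℝ, (∑ i, u (z i)) ^ 2 * ww w z =
      ∑ i, ∑ k, u (z i) * u (z k) * ww w z := by
    intro z
    rw [sq, Finset.sum_mul_sum, Finset.sum_mul]
    exact Finset.sum_congr rfl fun i _ => by rw [Finset.sum_mul]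
  have hi : ∀ i k : Fin n, Integrable fun z : Fin n → ℝ => u (z i) * u (z k) * ww w z :=
    fun i k => integrable_double hw hu hu huu i k
  simp only [e]
  refine ⟨integrable_finsetSum _ fun i _ => integrable_finsetSum _ fun k _ => hi i k, ?_⟩
  rw [integral_finsetSum _ fun i _ => integrable_finsetSum _ fun k _ => hi i k]
  have h1 : ∀ i : Fin n, ∫ z : Fin n → ℝ, ∑ k, u (z i) * u (z k) * ww w z =
      (∫ r, u r * u r * w r) * (∫ r, w r) ^ (n - 1) := by
    intro i
    rw [integral_finsetSum _ fun k _ => hi i k, Finset.sum_eq_single i]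
    · exact int_single (fun r => u r * u r) i
    · intro k _ hk
      exact int_cross h (Ne.symm hk)
    · intro h2
      exact absurd (Finset.mem_univ i) h2
  simp only [h1]
  rw [Finset.sum_const, nsmul_eq_mul, Finset.card_univ, Fintype.card_fin]

theorem int_sq_sum (hw : Integrable w) (h2 : Integrable fun r => r ^ 2 * w r) :
    Integrable (fun z : Fin n → ℝ => (∑ i, z i ^ 2) * ww w z) ∧
    ∫ z : Fin n → ℝ, (∑ i, z i ^ 2) * ww w z =
      n * ((∫ r, r ^ 2 * w r) * (∫ r, w r) ^ (n - 1)) := by
  have hi : ∀ i : Fin n, Integrable fun z : Fin n → ℝ => z i ^ 2 * ww w z :=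
    fun i => integrable_single (f := fun r => r ^ 2) hw h2 i
  simp only [Finset.sum_mul]
  refine ⟨integrable_finsetSum _ fun i _ => hi i, ?_⟩
  rw [integral_finsetSum _ fun i _ => hi i]
  have h1 : ∀ i : Fin n, ∫ z : Fin n → ℝ, z i ^ 2 * ww w z =
      (∫ r, r ^ 2 * w r) * (∫ r, w r) ^ (n - 1) := fun i => int_single (fun r => r ^ 2) i
  simp only [h1]
  rw [Finset.sum_const, nsmul_eq_mul, Finset.card_univ, Fintype.card_fin]

end

end Pool.Agent.H776
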