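import Pool.Agent.H776.SPoly

/-!
# A centred Gaussian measure on the square with small covariance
-/

set_option autoImplicit false

namespace Pool.Agent.H776

open MeasureTheory Set Filter Topology
open scoped ENNReal NNReal InnerProductSpace

section cor

variable {κ F : Type} [Fintype κ] [Fintype F]

theorem real_nm {g : Eu κ → ℝ} (h : Wt g) {S : Set (Eu κ)} (hS : MeasurableSet S) :
    (nm g).real S = (∫ x in S, g x) / ∫ x, g x := by
  have hp := h.prob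
  rw [← integral_indicator_one hS, integral_nm h.nonneg h.meas, ← integral_indicator hS]
  congr 1
  refine integral_congr_ae (Eventually.of_forall fun x => ?_)
  by_cases hx : x ∈ S
  · simp [indicator_of_mem hx]
  · simp [indicator_of_notMem hx]

theorem gu_int2 : Integrable fun u : Eu κ => ‖u‖ ^ 2 * gu u := by
  have h1 : Integrable fun u : Eu κ => gu ((Real.sqrt 2)⁻¹ • u) :=
    gu_int.comp_smul (inv_ne_zero (Real.sqrt_pos.2 two_pos).ne')
  refine (h1.const_mul 4).mono' ?_ (Eventually.of_forall fun u => ?_)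
  · unfold gu
    fun_prop
  · rw [Real.norm_of_nonneg (mul_nonneg (sq_nonneg _) (show 0 ≤ gu u from (Real.exp_pos _).le))]
    unfold gu
    rw [norm_smul, mul_pow, norm_inv, Real.norm_of_nonneg (Real.sqrt_nonneg _), inv_pow,
      Real.sq_sqrt (by norm_num)]
    have h2 : ‖u‖ ^ 2 / 4 ≤ Real.exp (‖u‖ ^ 2 / 4) := by
      have := Real.add_one_le_exp (‖u‖ ^ 2 / 4)
      linarith
    have e : Real.exp (-(2⁻¹ * ‖u‖ ^ 2 / 2)) = Real.exp (‖u‖ ^ 2 / 4) *
        Real.exp (-(‖u‖ ^ 2 / 2)) := by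
      rw [← Real.exp_add]
      congr 1
      ring
    rw [e]
    have h3 := mul_le_mul_of_nonneg_right h2 (Real.exp_pos (-(‖u‖ ^ 2 / 2))).le
    linarith

/-- multiples of the identity -/
noncomputable def sid (σ : ℝ) : Eu κ →ₗ[ℝ] Eu κ := σ⁻¹ • LinearMap.id

theorem sid_inj {σ : ℝ} (hσ : 0 < σ) : Function.Injective (sid σ : Eu κ →ₗ[ℝ] Eu κ) := by
  intro x y h
  exact smul_right_injective _ (inv_ne_zero hσ.ne') h

theorem gcl_sid_le {σ : ℝ} (x : Eu κ) : gcl (sid σ) x ≤ gu (σ⁻¹ • x) := by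
  unfold gcl gu
  split_ifs
  · exact le_rfl
  · positivity

theorem gcl_sid_ge {σ : ℝ} (hσ : 0 < σ) (hσ1 : σ ≤ 1) (x : Eu κ) :
    gcl (sid 1) (σ⁻¹ • x) ≤ gcl (sid σ) x := by
  have e : (sid 1 : Eu κ →ₗ[ℝ] Eu κ) (σ⁻¹ • x) = (sid σ : Eu κ →ₗ[ℝ] Eu κ) x := by
    show (1 : ℝ)⁻¹ • σ⁻¹ • x = σ⁻¹ • x
    rw [inv_one, one_smul]
  unfold gcl
  rw [e]
  by_cases h : ∀ i, |(σ⁻¹ • x) i| ≤ 1
  · have h' : ∀ i, |x i| ≤ 1 := by
      intro i
      have h1 := h i
      rw [PiLp.smul_apply, smul_eq_mul, abs_mul, abs_of_pos (inv_pos.2 hσ),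
        inv_mul_le_iff₀ hσ, mul_one] at h1
      exact h1.trans hσ1
    rw [if_pos h, if_pos h']
  · rw [if_neg h]
    split_ifs
    · positivity
    · exact le_rfl

theorem finrank_two : Module.finrank ℝ (Eu (Fin 2)) = 2 := by
  rw [finrank_euclideanSpace, Fintype.card_fin]

theorem ball_vol {r : ℝ} (hr : 0 ≤ r) : (volume : Measure (Eu (Fin 2))).real (Metric.ball 0 r) =
    r ^ 2 * (volume : Measure (Eu (Fin 2))).real (Metric.ball 0 1) := by
  rw [measureReal_def, Measure.addHaar_ball _ _ hr, finrank_two, ENNReal.toReal_mul,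
    ENNReal.toReal_ofReal (by positivity)]
  rfl

/-- **the corrector** -/
theorem exists_corr {s : ℝ} (hs : 0 < s) : ∃ (B : Eu (Fin 2) →ₗ[ℝ] Eu (Fin 2)) (Cν : ℝ),
    Function.Injective B ∧ 0 < Cν ∧ CovLe (nm (gcl B)) s ∧
    (∀ r r' : ℝ, 0 ≤ r → r ≤ r' → (nm (gcl B)).real (Metric.ball 0 r') -
      (nm (gcl B)).real (Metric.ball 0 r) ≤ Cν * (r' ^ 2 - r ^ 2)) ∧
    ∀ r : ℝ, 0 < r → 0 < (nm (gcl B)).real (Metric.ball 0 r) := by
  obtain ⟨I, hI⟩ : ∃ I, I = ∫ u : Eu (Fin 2), ‖u‖ ^ 2 * gu u := ⟨_, rfl⟩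
  obtain ⟨J, hJ⟩ : ∃ J, J = ∫ u : Eu (Fin 2), gcl (sid 1) u := ⟨_, rfl⟩
  have hI0 : 0 ≤ I := by
    rw [hI]
    exact integral_nonneg fun u => mul_nonneg (sq_nonneg _) (Real.exp_pos _).le
  have hJ0 : 0 < J := by rw [hJ]; exact wt_gcl.pos
  obtain ⟨σ, hσ0, hσ1, hσ2⟩ : ∃ σ : ℝ, 0 < σ ∧ σ ≤ 1 ∧ σ ^ 2 * I ≤ s * J := by
    refine ⟨min 1 (Real.sqrt (s * J / (I + 1))), lt_min one_pos (Real.sqrt_pos.2 (by positivity)),
      min_le_left _ _, ?_⟩
    have h1 : min 1 (Real.sqrt (s * J / (I + 1))) ^ 2 ≤ s * J / (I + 1) := by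
      refine (pow_le_pow_left₀ (le_min zero_le_one (Real.sqrt_nonneg _)) (min_le_right _ _) 2).trans ?_
      rw [Real.sq_sqrt (by positivity)]
    calc min 1 (Real.sqrt (s * J / (I + 1))) ^ 2 * I ≤ s * J / (I + 1) * (I + 1) :=
          mul_le_mul h1 (by linarith) hI0 (by positivity)
      _ = s * J := by field_simp
  have hw : Wt (gcl (sid σ : Eu (Fin 2) →ₗ[ℝ] Eu (Fin 2))) := wt_gcl
  have hp := hw.prob
  obtain ⟨Z, hZ⟩ : ∃ Z, Z = ∫ x : Eu (Fin 2), gcl (sid σ) x := ⟨_, rfl⟩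
  have hZ0 : 0 < Z := by rw [hZ]; exact hw.pos
  have hsc : ∀ f : Eu (Fin 2) → ℝ, ∫ x, f (σ⁻¹ • x) = σ ^ 2 * ∫ x, f x := by
    intro f
    rw [Measure.integral_comp_smul volume f σ⁻¹, finrank_two, smul_eq_mul]
    congr 1
    rw [inv_pow, inv_inv, abs_of_nonneg (sq_nonneg _)]
  have hZJ : σ ^ 2 * J ≤ Z := by
    rw [hJ, hZ, ← hsc]
    refine integral_mono ((wt_gcl (A := (sid 1 : Eu (Fin 2) →ₗ[ℝ] Eu (Fin 2)))).integrable.comp_smul
      (inv_ne_zero hσ0.ne')) hw.integrable fun x => gcl_sid_ge hσ0 hσ1 x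
  have hV0 : 0 < (volume : Measure (Eu (Fin 2))).real (Metric.ball 0 1) :=
    ENNReal.toReal_pos (Metric.measure_ball_pos volume _ one_pos).ne' measure_ball_lt_top.ne
  have hle1 : ∀ x : Eu (Fin 2), gcl (sid σ) x ≤ 1 := by
    intro x
    unfold gcl
    split_ifs
    · exact Real.exp_le_one_iff.2 (by have := sq_nonneg ‖(sid σ : Eu (Fin 2) →ₗ[ℝ] _) x‖; linarith)
    · exact zero_le_one
  refine ⟨sid σ, (volume : Measure (Eu (Fin 2))).real (Metric.ball 0 1) / Z, sid_inj hσ0,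
    by positivity, ?_, ?_, ?_⟩
  · intro θ hθ
    have hcont : Continuous fun x : Eu (Fin 2) => ⟪x, θ⟫_ℝ := by fun_prop
    refine (ProbabilityTheory.variance_le_expectation_sq hcont.aestronglyMeasurable).trans ?_
    have e1 := integral_nm hw.nonneg hw.meas (fun x : Eu (Fin 2) => ⟪x, θ⟫_ℝ ^ 2)
    refine (le_of_eq e1).trans ?_
    rw [← hZ, div_le_iff₀ hZ0]
    have h1 : ∫ x : Eu (Fin 2), ⟪x, θ⟫_ℝ ^ 2 * gcl (sid σ) x ≤ σ ^ 2 * (σ ^ 2 * I) := by
      have e2 : σ ^ 2 * (σ ^ 2 * I) =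
          ∫ x : Eu (Fin 2), σ ^ 2 * (‖σ⁻¹ • x‖ ^ 2 * gu (σ⁻¹ • x)) := by
        rw [integral_const_mul, hsc fun u => ‖u‖ ^ 2 * gu u, ← hI]
      rw [e2]
      refine integral_mono_of_nonneg (Eventually.of_forall fun x =>
        mul_nonneg (sq_nonneg _) (gcl_nonneg x)) ((gu_int2.comp_smul
          (inv_ne_zero hσ0.ne')).const_mul _) (Eventually.of_forall fun x => ?_)
      simp only
      have e3 : σ ^ 2 * (‖σ⁻¹ • x‖ ^ 2 * gu (σ⁻¹ • x)) = ‖x‖ ^ 2 * gu (σ⁻¹ • x) := by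
        rw [norm_smul, norm_inv, Real.norm_of_nonneg hσ0.le, mul_pow, inv_pow, ← mul_assoc,
          ← mul_assoc, mul_inv_cancel₀ (pow_ne_zero 2 hσ0.ne'), one_mul]
      rw [e3]
      have h2 := abs_real_inner_le_norm x θ
      rw [hθ, mul_one] at h2
      have h3 : ⟪x, θ⟫_ℝ ^ 2 ≤ ‖x‖ ^ 2 := by
        rw [← sq_abs]
        exact pow_le_pow_left₀ (abs_nonneg _) h2 2
      exact mul_le_mul h3 (gcl_sid_le x) (gcl_nonneg x) (sq_nonneg _)
    refine h1.trans ?_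
    calc σ ^ 2 * (σ ^ 2 * I) ≤ σ ^ 2 * (s * J) := mul_le_mul_of_nonneg_left hσ2 (sq_nonneg _)
      _ = s * (σ ^ 2 * J) := by ring
      _ ≤ s * Z := mul_le_mul_of_nonneg_left hZJ hs.le
  · intro r r' hr hrr
    have hsub : Metric.ball (0 : Eu (Fin 2)) r ⊆ Metric.ball 0 r' := Metric.ball_subset_ball hrr
    rw [real_nm hw Metric.isOpen_ball.measurableSet, real_nm hw Metric.isOpen_ball.measurableSet,
      ← hZ, ← sub_div, ← setIntegral_sdiff Metric.isOpen_ball.measurableSet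
        hw.integrable.integrableOn hsub, div_mul_eq_mul_div]
    refine div_le_div_of_nonneg_right ?_ hZ0.le
    have hfin : volume (Metric.ball (0 : Eu (Fin 2)) r' \ Metric.ball 0 r) ≠ ⊤ :=
      ne_top_of_le_ne_top measure_ball_lt_top.ne (measure_mono sdiff_subset)
    have h1 : ∫ x in Metric.ball (0 : Eu (Fin 2)) r' \ Metric.ball 0 r, gcl (sid σ) x ≤
        ∫ x in Metric.ball (0 : Eu (Fin 2)) r' \ Metric.ball 0 r, (1 : ℝ) :=
      setIntegral_mono hw.integrable.integrableOn (integrableOn_const hfin) hle1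
    refine h1.trans (le_of_eq ?_)
    rw [setIntegral_const, smul_eq_mul, mul_one, measureReal_sdiff hsub
      Metric.isOpen_ball.measurableSet measure_ball_lt_top.ne, ball_vol hr, ball_vol (hr.trans hrr)]
    ring
  · intro r hr
    rw [real_nm hw Metric.isOpen_ball.measurableSet, ← hZ]
    refine div_pos ?_ hZ0
    rw [setIntegral_pos_iff_support_of_nonneg_ae (Eventually.of_forall gcl_nonneg)
      hw.integrable.integrableOn]
    refine lt_of_lt_of_le (Metric.measure_ball_pos volume (0 : Eu (Fin 2)) (lt_min hr one_pos))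
      (measure_mono fun x hx => ?_)
    rw [Metric.mem_ball, dist_zero_right, lt_min_iff] at hx
    refine ⟨?_, by rw [Metric.mem_ball, dist_zero_right]; exact hx.1⟩
    rw [Function.mem_support]
    unfold gcl
    rw [if_pos fun i => (abs_le_norm x i).trans hx.2.le]
    exact (Real.exp_pos _).ne'

end cor

end Pool.Agent.H776
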