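import Pool.Agent.H776.Body
import Pool.Graph.R_seed8.W695.KH.Final

/-!
# From the Poincare form to central hyperplane sections
-/

set_option autoImplicit false

namespace Pool.Agent.H776

open MeasureTheory Set Filter Topology
open scoped ENNReal InnerProductSpace Pointwise
open Pool.Agent.W695.KH (EV VV Sm PerLe sec_bound perim)
open Pool.Agent.W932.KH (closure_ae EV_scale q_max q_pos)

section l1

variable {E : Type*} [NormedAddCommGroup E] [NormedSpace ℝ E] [MeasurableSpace E] [BorelSpace E]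

theorem half1 {μ : Measure E} [IsProbabilityMeasure μ] {c : ℝ} (hc : 0 < c) (hI : Iso μ c)
    {f : E → ℝ} {B L : ℝ} (h : Tst f B L) {m : ℝ} (hm : μ {x | m < f x} ≤ 1 / 2) :
    c * ∫ x, max (f x - m) 0 ∂μ ≤ ∫ x, ‖fderiv ℝ f x‖ ∂μ := by
  obtain ⟨P, hP⟩ : ∃ P : E → ℝ, P = fun x => max (f x - m) 0 := ⟨_, rfl⟩
  have hPx : ∀ x, P x = max (f x - m) 0 := fun x => by rw [hP]
  have hP0 : ∀ x, 0 ≤ P x := fun x => by rw [hPx]; exact le_max_right _ _
  have hB0 : 0 ≤ B := by
    obtain ⟨x⟩ := (inferInstance : Nonempty E)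
    exact (abs_nonneg _).trans (h.bdd x)
  have hL0 : 0 ≤ L := by
    obtain ⟨x⟩ := (inferInstance : Nonempty E)
    exact (norm_nonneg _).trans (h.grad x)
  have hPB : ∀ x, P x ≤ B + |m| := fun x => by
    rw [hPx]
    refine max_le ?_ (by positivity)
    have h1 := (abs_le.1 (h.bdd x)).2
    have h2 := neg_abs_le m
    linarith
  have hPl : ∀ x y a, f y ≤ f x + a → 0 ≤ a → P y ≤ P x + a := by
    intro x y a h1 h2
    rw [hPx, hPx]
    refine max_le ?_ ?_
    · have := le_max_left (f x - m) 0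
      linarith
    · have := le_max_right (f x - m) 0
      linarith
  have hfc : Continuous f := h.diff.continuous
  have hPc : Continuous P := by
    rw [hP]
    exact (hfc.sub continuous_const).max continuous_const
  have hgrc : Continuous fun x => ‖fderiv ℝ f x‖ := (h.diff.continuous_fderiv one_ne_zero).norm
  have hK : ∀ x y, P y ≤ P x + L * dist y x := by
    intro x y
    have h1 := h.lip x y
    exact hPl x y (L * dist y x) (by have := (abs_le.1 h1).2; linarith) (by positivity)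
  have hG : ∀ x, ∀ η : ℝ, 0 < η → ∃ δ > 0, ∀ y, dist y x < δ →
      P y ≤ P x + (‖fderiv ℝ f x‖ + η) * dist y x := by
    intro x η hη
    have hd : HasFDerivAt f (fderiv ℝ f x) x := ((h.diff.differentiable one_ne_zero) x).hasFDerivAt
    have h1 := (hasFDerivAt_iff_isLittleO.1 hd).def hη
    obtain ⟨δ1, hδ1, h2⟩ := Metric.eventually_nhds_iff.1 h1
    refine ⟨δ1, hδ1, fun y hy => ?_⟩
    have h3 := h2 hy
    refine hPl x y _ ?_ (by positivity)
    have h5 : f y - f x - fderiv ℝ f x (y - x) ≤ η * ‖y - x‖ :=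
      (le_abs_self _).trans (by rw [← Real.norm_eq_abs]; exact h3)
    have h6 : fderiv ℝ f x (y - x) ≤ ‖fderiv ℝ f x‖ * ‖y - x‖ :=
      (le_abs_self _).trans (by rw [← Real.norm_eq_abs]; exact ContinuousLinearMap.le_opNorm _ _)
    rw [dist_eq_norm]
    nlinarith
  have hco := coarea (μ := μ) hP0 hPB hK hPc.measurable hG
  have hlow : ENNReal.ofReal c * ∫⁻ x, ENNReal.ofReal (P x) ∂μ ≤
      ∫⁻ t in Ioi (0 : ℝ), bdr μ {x | t < P x} := by
    rw [lintegral_eq_lintegral_meas_lt μ (Eventually.of_forall hP0) hPc.aemeasurable,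
      ← lintegral_const_mul' _ _ ENNReal.ofReal_ne_top]
    refine setLIntegral_mono' measurableSet_Ioi fun t ht => ?_
    have hS : MeasurableSet {x | t < P x} := measurableSet_lt measurable_const hPc.measurable
    have h1 := hI _ hS
    have hle : μ {x | t < P x} ≤ 1 / 2 := by
      refine (measure_mono fun x hx => ?_).trans hm
      rw [mem_ofPred_eq] at hx ⊢
      rw [hPx] at hx
      by_contra hcon
      rw [max_eq_right (by linarith)] at hx
      rw [mem_Ioi] at ht
      linarith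
    have h2 : μ {x | t < P x} ≤ μ {x | t < P x}ᶜ := by
      rw [prob_compl_eq_one_sub hS]
      refine hle.trans ?_
      have h3 : (1 : ℝ≥0∞) / 2 = 1 - 1 / 2 := by
        rw [one_div, ENNReal.one_sub_inv_two]
      calc (1 : ℝ≥0∞) / 2 = 1 - 1 / 2 := h3
        _ ≤ 1 - μ {x | t < P x} := tsub_le_tsub_left hle _
    rw [min_eq_left h2] at h1
    exact h1
  have hfin := hlow.trans hco
  have hgi : Integrable P μ := Integrable.of_bound hPc.aestronglyMeasurable (B + |m|)
    (Eventually.of_forall fun x => by rw [Real.norm_eq_abs, abs_of_nonneg (hP0 x)]; exact hPB x)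
  have hGi : Integrable (fun x => ‖fderiv ℝ f x‖) μ := by
    refine Integrable.of_bound hgrc.aestronglyMeasurable L (Eventually.of_forall fun x => ?_)
    rw [Real.norm_eq_abs, abs_norm]
    exact h.grad x
  rw [← ofReal_integral_eq_lintegral_ofReal hgi (Eventually.of_forall hP0),
    ← ofReal_integral_eq_lintegral_ofReal hGi (Eventually.of_forall fun x => norm_nonneg _),
    ← ENNReal.ofReal_mul hc.le] at hfin
  have h15 := (ENNReal.ofReal_le_ofReal_iff (integral_nonneg fun x => norm_nonneg _)).1 hfin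
  rw [hP] at h15
  exact h15

/-- **the variance and the first moment of the gradient** -/
theorem l1_of_iso {μ : Measure E} [IsProbabilityMeasure μ] {c : ℝ} (hc : 0 < c) (hI : Iso μ c)
    {f : E → ℝ} {B L : ℝ} (h : Tst f B L) (hf : ∀ x, |f x| ≤ 1 / 2) :
    (∫ x, f x ^ 2 ∂μ) - (∫ x, f x ∂μ) ^ 2 ≤ 2 / c * ∫ x, ‖fderiv ℝ f x‖ ∂μ := by
  have hfc : Continuous f := h.diff.continuous
  obtain ⟨m, hm1, hm2⟩ := exists_median μ hfc.measurable hf
  have hma : |m| ≤ 1 / 2 := by
    rw [abs_le]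
    constructor
    · by_contra hcon
      rw [not_le] at hcon
      have : {x | m < f x} = univ := by
        ext x
        simp only [mem_ofPred_eq, mem_univ, iff_true]
        have := (abs_le.1 (hf x)).1
        linarith
      rw [this, measure_univ] at hm1
      norm_num at hm1
    · by_contra hcon
      rw [not_le] at hcon
      have : {x | f x < m} = univ := by
        ext x
        simp only [mem_ofPred_eq, mem_univ, iff_true]
        have := (abs_le.1 (hf x)).2
        linarith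
      rw [this, measure_univ] at hm2
      norm_num at hm2
  have h1 := half1 hc hI h hm1
  have h2 := half1 hc hI h.neg (m := -m) (by
    refine le_trans (measure_mono fun x hx => ?_) hm2
    simp only [mem_ofPred_eq] at hx ⊢
    linarith)
  have hfd : ∀ x, ‖fderiv ℝ (fun x => -f x) x‖ = ‖fderiv ℝ f x‖ := fun x => by
    rw [fderiv_fun_neg, norm_neg]
  simp only [hfd] at h2
  have hib : ∀ (g : E → ℝ) (K : ℝ), Continuous g → (∀ x, |g x| ≤ K) → Integrable g μ :=
    fun g K hg hK => Integrable.of_bound hg.aestronglyMeasurable K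
      (Eventually.of_forall fun x => by rw [Real.norm_eq_abs]; exact hK x)
  have hfm : ∀ x, |f x - m| ≤ 1 := fun x => (abs_sub _ _).trans (by linarith [hf x])
  have c1 : Continuous fun x => max (f x - m) 0 := (hfc.sub continuous_const).max continuous_const
  have c2 : Continuous fun x => max (-f x - -m) 0 :=
    (hfc.neg.sub continuous_const).max continuous_const
  have hA : ∀ x, |max (f x - m) 0| ≤ 1 := fun x => by
    rw [abs_of_nonneg (le_max_right _ _)]
    exact max_le ((le_abs_self _).trans (hfm x)) (by positivity)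
  have hA' : ∀ x, |max (-f x - -m) 0| ≤ 1 := fun x => by
    rw [abs_of_nonneg (le_max_right _ _)]
    refine max_le ((le_abs_self _).trans ?_) (by positivity)
    rw [show -f x - -m = -(f x - m) by ring, abs_neg]
    exact hfm x
  have i1 : Integrable (fun x => max (f x - m) 0) μ := hib _ 1 c1 hA
  have i2 : Integrable (fun x => max (-f x - -m) 0) μ := hib _ 1 c2 hA'
  have i5 : Integrable (fun x => (f x - m) ^ 2) μ :=
    hib _ 1 ((hfc.sub continuous_const).pow 2) fun x => by
      rw [abs_pow]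
      exact pow_le_one₀ (abs_nonneg _) (hfm x)
  have h3 : ∫ x, (f x - m) ^ 2 ∂μ ≤ ∫ x, (max (f x - m) 0 + max (-f x - -m) 0) ∂μ := by
    refine integral_mono i5 (i1.add i2) fun x => ?_
    show (f x - m) ^ 2 ≤ max (f x - m) 0 + max (-f x - -m) 0
    have e1 : max (f x - m) 0 + max (-f x - -m) 0 = |f x - m| := by
      rcases le_total (f x - m) 0 with h' | h'
      · rw [max_eq_right h', max_eq_left (by linarith), abs_of_nonpos h']; ring
      · rw [max_eq_left h', max_eq_right (by linarith), abs_of_nonneg h']; ring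
    rw [e1, ← sq_abs]
    nlinarith [abs_nonneg (f x - m), hfm x]
  rw [integral_add i1 i2] at h3
  have h4 : ∫ x, (f x - m) ^ 2 ∂μ ≤ 2 / c * ∫ x, ‖fderiv ℝ f x‖ ∂μ := by
    rw [div_mul_eq_mul_div, le_div_iff₀ hc]
    nlinarith
  refine le_trans ?_ h4
  have i7 : Integrable f μ := hib _ (1 / 2) hfc hf
  have i8 : Integrable (fun x => f x ^ 2) μ := hib _ ((1 / 2) ^ 2) (hfc.pow 2) fun x => by
    rw [abs_pow]; exact pow_le_pow_left₀ (abs_nonneg _) (hf x) 2
  have e5 : ∫ x, (f x - m) ^ 2 ∂μ = (∫ x, f x ^ 2 ∂μ) - 2 * m * (∫ x, f x ∂μ) + m ^ 2 := by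
    have : ∀ x, (f x - m) ^ 2 = f x ^ 2 - 2 * m * f x + m ^ 2 := fun x => by ring
    simp only [this]
    have j1 : ∫ x, (f x ^ 2 - 2 * m * f x + m ^ 2) ∂μ =
        (∫ x, (f x ^ 2 - 2 * m * f x) ∂μ) + ∫ x, m ^ 2 ∂μ :=
      integral_add (i8.sub (i7.const_mul _)) (integrable_const _)
    have j2 : ∫ x, (f x ^ 2 - 2 * m * f x) ∂μ = (∫ x, f x ^ 2 ∂μ) - ∫ x, 2 * m * f x ∂μ :=
      integral_sub i8 (i7.const_mul _)
    rw [j1, j2, integral_const_mul]
    simp
  rw [e5]
  nlinarith [sq_nonneg ((∫ x, f x ∂μ) - m)]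

end l1

section hyp

variable {κ : Type} [Fintype κ]

theorem ev_unf {K : Set (Eu κ)} (f : Eu κ → ℝ) : ∫ x, f x ∂(unf K) = EV K f := by
  unfold unf EV
  rw [integral_smul_measure, ENNReal.toReal_inv, smul_eq_mul, mul_comm]
  rfl

theorem body_closure {Ω : Set (Eu κ)} (ho : IsOpen Ω) (hc : Convex ℝ Ω)
    (hb : Bornology.IsBounded Ω) (h0 : (0 : Eu κ) ∈ Ω) : Body (closure Ω) :=
  ⟨hb.isCompact_closure, hc.closure,
    ⟨0, mem_interior.2 ⟨Ω, subset_closure, ho, h0⟩⟩⟩

theorem ev_closure {Ω : Set (Eu κ)} (ho : IsOpen Ω) (hc : Convex ℝ Ω)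
    (f : Eu κ → ℝ) : EV (closure Ω) f = EV Ω f := by
  unfold EV
  rw [setIntegral_congr_set (closure_ae ho hc), measure_congr (closure_ae ho hc)]

/-- **central sections from the Poincare form** -/
theorem hyp_of_kp : ∃ C₁ : ℝ, 0 < C₁ ∧ ∀ (κ : Type) [Fintype κ] [Nonempty κ] (Ω : Set (Eu κ)),
    IsOpen Ω → Convex ℝ Ω → Bornology.IsBounded Ω → (0 : Eu κ) ∈ Ω → (∀ x ∈ Ω, -x ∈ Ω) →
    ∀ D : ℝ, 0 < D → KP (nm ((closure Ω).indicator fun _ => (1 : ℝ))) D →
    ∃ a : Eu κ, a ≠ 0 ∧ ∀ E : Set (Eu κ), MeasurableSet E → E ⊆ Ω → volume E = volume Ω / 2 →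
      ∀ P : ℝ, PerLe Ω E P → Pool.Agent.W695.KH.sec Ω a ≤ ENNReal.ofReal (C₁ * Real.sqrt D * P) := by
  obtain ⟨Cs, hCs, hs⟩ := sec_bound
  refine ⟨Real.sqrt Cs * 210, by positivity, ?_⟩
  intro κ _ _ Ω ho hconv hbd h0 hsym D hD hkp
  have hK := body_closure ho hconv hbd h0
  rw [nm_ind hK] at hkp
  obtain ⟨a, ha, hmax⟩ := q_max (Ω := Ω) ho hbd
  set s := EV Ω (fun x => ⟪a, x⟫_ℝ ^ 2) with hsdef
  have hspos : 0 < s := q_pos ho hbd h0 a ha
  have hfin : volume Ω < ⊤ := hbd.measure_lt_top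
  have hvol : 0 < (volume Ω).toReal :=
    ENNReal.toReal_pos (ho.measure_pos volume ⟨0, h0⟩).ne' hfin.ne
  have hss : 0 < Real.sqrt s := Real.sqrt_pos.2 hspos
  have hsD : 0 < Real.sqrt D := Real.sqrt_pos.2 hD
  have hp := hK.prob
  have hcov : CovLe (unf (closure Ω)) s := by
    intro θ hθ
    rw [var_eq hK.int_sq, ev_unf, ev_closure ho hconv]
    have h1 := hmax θ
    rw [hθ, one_pow, mul_one] at h1
    have e : (fun x : Eu κ => ⟪x, θ⟫_ℝ ^ 2) = fun x => ⟪θ, x⟫_ℝ ^ 2 := by
      funext x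
      rw [real_inner_comm]
    rw [e]
    have := sq_nonneg (∫ x, ⟪x, θ⟫_ℝ ∂(unf (closure Ω)))
    linarith
  have hiso := iso_of_poi hK.den (μ := unf (closure Ω)) (by
      rw [← nm_ind hK]
      unfold nm
      rw [integral_indicator hK.cpt.measurableSet, setIntegral_const, smul_eq_mul, mul_one])
      (by positivity) (hkp s hspos hcov)
  have hsDs : 0 < Real.sqrt (D * s) := Real.sqrt_pos.2 (by positivity)
  refine ⟨a, ?_, ?_⟩
  · rintro rfl
    rw [norm_zero] at ha
    exact zero_ne_one ha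
  intro E hE hEΩ hEvol P hP
  have key : (volume Ω).toReal ≤ 3 * (70 * Real.sqrt (D * s)) * P := by
    refine perim κ Ω ho hconv hbd h0 E hE hEΩ hEvol P hP (70 * Real.sqrt (D * s))
      (by positivity) ?_
    intro r hr0 hr1 f L M hf hf12 hV
    -- the rescaled function
    have hsm : ContDiff ℝ 1 fun x : Eu κ => f (r • x) := hf.diff.comp (contDiff_const_smul r)
    have hfd : ∀ x, ‖fderiv ℝ (fun x : Eu κ => f (r • x)) x‖ = r * ‖fderiv ℝ f (r • x)‖ := by
      intro x
      have h1 : HasFDerivAt (fun x : Eu κ => f (r • x))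
          ((fderiv ℝ f (r • x)).comp (r • ContinuousLinearMap.id ℝ (Eu κ))) x :=
        ((hf.diff.differentiable one_ne_zero) (r • x)).hasFDerivAt.comp x
          ((hasFDerivAt_id x).const_smul r)
      rw [h1.fderiv, ContinuousLinearMap.comp_smul, ContinuousLinearMap.comp_id, norm_smul,
        Real.norm_eq_abs, abs_of_pos hr0]
    have ht : Tst (fun x : Eu κ => f (r • x)) 1 L := by
      refine ⟨hsm, fun x => hf.bdd _, fun x => ?_⟩
      rw [hfd]
      have h1 := hf.grad (r • x)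
      have h2 := norm_nonneg (fderiv ℝ f (r • x))
      nlinarith
    have h1 := l1_of_iso (by positivity) hiso ht fun x => hf12 _
    rw [ev_unf, ev_unf, ev_unf, ev_closure ho hconv, ev_closure ho hconv, ev_closure ho hconv] at h1
    have e1 : VV (r • closure Ω) f = EV Ω (fun x => f (r • x) ^ 2) - EV Ω (fun x => f (r • x)) ^ 2 := by
      unfold VV
      rw [EV_scale ho hconv r hr0, EV_scale ho hconv r hr0]
    have e2 : EV (r • closure Ω) (fun x => ‖fderiv ℝ f x‖) = EV Ω fun x => ‖fderiv ℝ f (r • x)‖ :=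
      EV_scale ho hconv r hr0 _
    have e3 : EV Ω (fun x => ‖fderiv ℝ (fun x : Eu κ => f (r • x)) x‖) =
        r * EV Ω fun x => ‖fderiv ℝ f (r • x)‖ := by
      simp only [hfd]
      unfold EV
      rw [integral_const_mul, mul_div_assoc]
    rw [← e1, e3] at h1
    rw [e2]
    set V := VV (r • closure Ω) f
    set Y := EV Ω fun x => ‖fderiv ℝ f (r • x)‖
    have hY : 0 ≤ Y := div_nonneg (integral_nonneg fun x => norm_nonneg _) ENNReal.toReal_nonneg
    have h2 : V ≤ 28 * Real.sqrt (D * s) * Y := by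
      have e4 : 2 / (1 / 14 / Real.sqrt (D * s)) = 28 * Real.sqrt (D * s) := by
        field_simp
        norm_num
      rw [e4] at h1
      refine h1.trans (mul_le_mul_of_nonneg_left ?_ (by positivity))
      nlinarith
    have hV' : 1 / 5 < V := hV
    have h3 : 70 * Real.sqrt (D * s) * Y = 5 / 2 * (28 * Real.sqrt (D * s) * Y) := by ring
    rw [h3]
    nlinarith
  have hsq : (volume Ω).toReal ^ 2 ≤ 210 ^ 2 * (D * s) * P ^ 2 := by
    refine (pow_le_pow_left₀ hvol.le key 2).trans (le_of_eq ?_)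
    have : Real.sqrt (D * s) ^ 2 = D * s := Real.sq_sqrt (by positivity)
    calc (3 * (70 * Real.sqrt (D * s)) * P) ^ 2 = 210 ^ 2 * Real.sqrt (D * s) ^ 2 * P ^ 2 := by ring
      _ = _ := by rw [this]
  have hPpos : 0 < P := by
    have h2 : 0 < 3 * (70 * Real.sqrt (D * s)) := by positivity
    by_contra hcon
    push Not at hcon
    have : 3 * (70 * Real.sqrt (D * s)) * P ≤ 0 := mul_nonpos_of_nonneg_of_nonpos h2.le hcon
    linarith
  obtain ⟨hsec1, hsec2, -⟩ := hs κ Ω ho hconv hbd h0 hsym a ha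
  have h3 : (Pool.Agent.W695.KH.sec Ω a).toReal ^ 2 ≤ (Real.sqrt Cs * 210 * Real.sqrt D * P) ^ 2 := by
    have h4 : (Pool.Agent.W695.KH.sec Ω a).toReal ^ 2 * s ≤ Cs * (210 ^ 2 * (D * s) * P ^ 2) :=
      hsec2.trans (mul_le_mul_of_nonneg_left hsq hCs.le)
    have h5 : (Real.sqrt Cs * 210 * Real.sqrt D * P) ^ 2 = Cs * 210 ^ 2 * D * P ^ 2 := by
      rw [mul_pow, mul_pow, mul_pow, Real.sq_sqrt hCs.le, Real.sq_sqrt hD.le]
    rw [h5]
    have h6 : (Pool.Agent.W695.KH.sec Ω a).toReal ^ 2 * s ≤ (Cs * 210 ^ 2 * D * P ^ 2) * s := by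
      refine h4.trans (le_of_eq ?_)
      ring
    exact le_of_mul_le_mul_right h6 hspos
  have h7 : (Pool.Agent.W695.KH.sec Ω a).toReal ≤ Real.sqrt Cs * 210 * Real.sqrt D * P :=
    le_of_sq_le_sq h3 (by positivity)
  rw [← ENNReal.ofReal_toReal hsec1]
  exact ENNReal.ofReal_le_ofReal h7

end hyp

end Pool.Agent.H776
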