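import Pool.Agent.H776.SCor
import Pool.Agent.H776.SProd
import Pool.Agent.H776.SHm

/-!
# Sets of measure almost one half, for centred Gaussian measures on cubes
-/

set_option autoImplicit false

namespace Pool.Agent.H776

open MeasureTheory Set Filter Topology
open scoped ENNReal NNReal InnerProductSpace

section lift

variable {κ : Type} [Fintype κ]

/-- covariances of approximate lifts -/
theorem cov_lift {ι : Type} {l : Filter ι} {K : ι → Type} [∀ i, Fintype (K i)]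
    {ν : ∀ i, Measure (Eu (K i))} {T : ∀ i, Eu (K i) →L[ℝ] Eu κ} {b : ι → Eu κ}
    {J : ∀ i, Eu κ →L[ℝ] Eu (K i)} {μ : Measure (Eu κ)} [IsProbabilityMeasure μ]
    (hν : ∀ᶠ i in l, IsProbabilityMeasure (ν i))
    (hi : ∀ᶠ i in l, Integrable (fun y => ‖y‖ ^ 2) (ν i))
    (hT : ∀ i, ‖T i‖ ≤ 1) (hJ : ∀ i, ‖J i‖ ≤ 1)
    (hW : W2 l (fun i => (ν i).map fun y => T i y - b i) μ)
    (hr : ∀ η : ℝ, 0 < η → ∀ᶠ i in l, ∀ θ : Eu (K i), ‖θ‖ = 1 →
      ProbabilityTheory.variance (fun y => ⟪y - J i (T i y), θ⟫_ℝ) (ν i) ≤ η)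
    {s : ℝ} (hs : 0 < s) (hcov : CovLe μ s) {η : ℝ} (hη : 0 < η) :
    ∀ᶠ i in l, CovLe (ν i) (s + η) := by
  obtain ⟨a, ha, ha1⟩ : ∃ a : ℝ, 0 < a ∧ (1 + a) * (s + a) + a - s ≤ η := by
    have h1 : Tendsto (fun a : ℝ => (1 + a) * (s + a) + a - s) (𝓝[>] 0) (𝓝 0) := by
      have h2 : Tendsto (fun a : ℝ => (1 + a) * (s + a) + a - s) (𝓝 0)
          (𝓝 ((1 + 0) * (s + 0) + 0 - s)) := by
        refine Continuous.tendsto ?_ 0
        fun_prop
      have e : (1 + 0) * (s + 0) + 0 - s = 0 := by ring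
      rw [e] at h2
      exact h2.mono_left nhdsWithin_le_nhds
    have h3 := (h1.eventually (gt_mem_nhds hη)).and self_mem_nhdsWithin
    obtain ⟨a, h4, h5⟩ := h3.exists
    exact ⟨a, h5, h4.le⟩
  have hη' : 0 < a / (1 + 1 / a) := by positivity
  filter_upwards [hν, hi, CovLe.ev hW hcov ha, hr _ hη', hW.int] with i h1 h2 h4 h5 h6
  have hme : Measurable fun y : Eu (K i) => T i y - b i := by fun_prop
  have hpm : IsProbabilityMeasure ((ν i).map fun y => T i y - b i) :=
    Measure.isProbabilityMeasure_map hme.aemeasurable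
  intro θ hθ
  -- decomposition
  have hTi : Integrable (fun y => ‖T i y‖ ^ 2) (ν i) := by
    refine h2.mono' (by fun_prop) (Eventually.of_forall fun y => ?_)
    rw [Real.norm_of_nonneg (by positivity)]
    refine pow_le_pow_left₀ (norm_nonneg _) ?_ 2
    refine ((T i).le_opNorm y).trans ?_
    exact mul_le_of_le_one_left (norm_nonneg _) (hT i)
  obtain ⟨θ', hθ'⟩ : ∃ θ', θ' = ContinuousLinearMap.adjoint (J i) θ := ⟨_, rfl⟩
  have hθn : ‖θ'‖ ≤ 1 := by
    rw [hθ']
    refine (ContinuousLinearMap.le_opNorm _ _).trans ?_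
    rw [hθ, mul_one, LinearIsometryEquiv.norm_map]
    exact hJ i
  have e1 : ∀ y, ⟪J i (T i y), θ⟫_ℝ = ⟪T i y, θ'⟫_ℝ := fun y => by
    rw [hθ', ContinuousLinearMap.adjoint_inner_right]
  have e2 : (fun y : Eu (K i) => ⟪y, θ⟫_ℝ) =
      fun y => ⟪T i y, θ'⟫_ℝ + ⟪y - J i (T i y), θ⟫_ℝ := by
    funext y
    rw [← e1, inner_sub_left]
    ring
  have m1 : MemLp (fun y : Eu (K i) => ⟪T i y, θ'⟫_ℝ) 2 (ν i) := by
    rw [memLp_two_iff_integrable_sq (by fun_prop)]
    refine (hTi.const_mul (‖θ'‖ ^ 2)).mono' (by fun_prop) (Eventually.of_forall fun y => ?_)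
    rw [Real.norm_of_nonneg (by positivity)]
    have := abs_real_inner_le_norm (T i y) θ'
    calc ⟪T i y, θ'⟫_ℝ ^ 2 = |⟪T i y, θ'⟫_ℝ| ^ 2 := (sq_abs _).symm
      _ ≤ (‖T i y‖ * ‖θ'‖) ^ 2 := pow_le_pow_left₀ (abs_nonneg _) this 2
      _ = ‖θ'‖ ^ 2 * ‖T i y‖ ^ 2 := by ring
  have m0 : MemLp (fun y : Eu (K i) => ⟪y, θ⟫_ℝ) 2 (ν i) := memLp_inner h2 θ
  have m2 : MemLp (fun y : Eu (K i) => ⟪y - J i (T i y), θ⟫_ℝ) 2 (ν i) := by
    have := m0.sub m1
    refine this.congr_norm (by fun_prop) (Eventually.of_forall fun y => ?_)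
    simp only [Pi.sub_apply]
    rw [← e1, inner_sub_left]
  rw [e2]
  refine (var_add_le m1 m2 ha).trans ?_
  have h7 : ProbabilityTheory.variance (fun y : Eu (K i) => ⟪T i y, θ'⟫_ℝ) (ν i) ≤ s + a := by
    have h8 := var_le_scale h4 θ'
    rw [ProbabilityTheory.variance_map (by fun_prop) hme.aemeasurable] at h8
    have e3 : ((fun x : Eu κ => ⟪x, θ'⟫_ℝ) ∘ fun y => T i y - b i) =
        fun y => ⟪T i y, θ'⟫_ℝ - ⟪b i, θ'⟫_ℝ := by
      funext y
      simp [inner_sub_left]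
    rw [e3, ProbabilityTheory.variance_sub_const (by fun_prop)] at h8
    refine h8.trans ?_
    have : ‖θ'‖ ^ 2 ≤ 1 := pow_le_one₀ (norm_nonneg _) hθn
    nlinarith
  have h9 := h5 θ hθ
  have h10 : (1 + 1 / a) * ProbabilityTheory.variance (fun y => ⟪y - J i (T i y), θ⟫_ℝ) (ν i) ≤
      a := by
    have := mul_le_mul_of_nonneg_left h9 (show 0 ≤ 1 + 1 / a by positivity)
    rwa [mul_div_cancel₀ _ (by positivity : 1 + 1 / a ≠ 0)] at this
  have h11 : (1 + a) * ProbabilityTheory.variance (fun y : Eu (K i) => ⟪T i y, θ'⟫_ℝ) (ν i) ≤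
      (1 + a) * (s + a) := mul_le_mul_of_nonneg_left h7 (by positivity)
  linarith

end lift

section approx

variable {κ F : Type} [Fintype κ] [Fintype F]

theorem rep_ecb {A : Eu κ →ₗ[ℝ] Eu F} {n : ℕ} (hn : n ≠ 0) (φ : Eu (κ ⊕ Fin n) → ℝ) :
    ∫ y, φ y ∂(nm (ecb (AE A n))) =
      (∫ p : Eu κ × Eu (Fin n), φ (emc κ (Fin n) (n : ℝ)⁻¹ (inv_ne hn) p) * qc A n p) /
        ∫ p : Eu κ × Eu (Fin n), qc A n p := by
  have := vol_haar κ (Fin n)
  rw [integral_nm (wt_ecb _).nonneg (wt_ecb _).meas, integral_quot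
    (volume : Measure (Eu κ × Eu (Fin n))) volume (emc κ (Fin n) (n : ℝ)⁻¹ (inv_ne hn)) 0]
  simp only [add_zero, ec_comp hn]

theorem qc_pos {A : Eu κ →ₗ[ℝ] Eu F} {n : ℕ} (hn : n ≠ 0) :
    0 < ∫ p : Eu κ × Eu (Fin n), qc A n p := by
  have := vol_haar κ (Fin n)
  have h1 := (wt_ecb (AE A n)).pos
  rw [← integral_pos_scale (volume : Measure (Eu κ × Eu (Fin n))) volume
    (emc κ (Fin n) (n : ℝ)⁻¹ (inv_ne hn)) 0] at h1
  simpa only [add_zero, ec_comp hn] using h1

theorem qc_one {A : Eu κ →ₗ[ℝ] Eu F} {n : ℕ} (hn : n ≠ 0) :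
    ∫ p : Eu κ × Eu (Fin n), qc A n p = cC n * ∫ y, gcn A n y := by
  have := qc_fub (A := A) hn (φ := fun _ => 1) continuous_const
  simpa using this

theorem map_ecb {A : Eu κ →ₗ[ℝ] Eu F} {n : ℕ} (hn : n ≠ 0) (hw : Wt (gcn A n)) :
    (nm (ecb (AE A n))).map pl = nm (gcn A n) := by
  have h1 := (wt_ecb (AE A n)).prob
  have h2 := hw.prob
  have hme : Measurable (pl : Eu (κ ⊕ Fin n) → Eu κ) := cont_pl.measurable
  have h3 : IsProbabilityMeasure ((nm (ecb (AE A n))).map (pl : Eu (κ ⊕ Fin n) → Eu κ)) :=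
    Measure.isProbabilityMeasure_map hme.aemeasurable
  refine ext_of_forall_integral_eq_of_IsFiniteMeasure fun φ => ?_
  rw [integral_map hme.aemeasurable φ.continuous.aestronglyMeasurable, rep_ecb hn,
    integral_nm gcn_nonneg gcn_meas]
  simp only [emc_apply, pl_mk]
  rw [qc_fub hn φ.continuous, qc_one hn, mul_div_mul_left _ _ (cC_pos hn).ne']

theorem cov_ecb {A : Eu κ →ₗ[ℝ] Eu F} {s : ℝ} (hs : 0 < s) (hcov : CovLe (nm (gcl A)) s) {η : ℝ}
    (hη : 0 < η) : ∀ᶠ n : ℕ in atTop, CovLe (nm (ecb (AE A n))) (s + η) := by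
  have hw' := wt_gcl (A := A)
  have hprob := hw'.prob
  obtain ⟨hWg, hW2⟩ := W2.of_dom (l := (atTop : Filter ℕ)) (g := fun n => gcn A n)
    (g' := gcl A) (h := (cub κ).indicator fun _ => (1 : ℝ))
    (Eventually.of_forall fun n y => gcn_nonneg y) (Eventually.of_forall fun n => gcn_meas) hw'
    (Eventually.of_forall fun n y => gcn_le y) wt_cub.mom (Eventually.of_forall fun y => gcn_lim y)
  have hwe : ∀ {n : ℕ}, Wt (ecb (AE A n)) := fun {n} => wt_ecb _
  refine cov_lift (l := (atTop : Filter ℕ)) (K := fun n => κ ⊕ Fin n)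
    (ν := fun n => nm (ecb (AE A n)))
    (T := fun n => (plL : Eu (κ ⊕ Fin n) →L[ℝ] Eu κ)) (b := fun _ => 0)
    (J := fun n => (inL : Eu κ →L[ℝ] Eu (κ ⊕ Fin n)))
    ?_ ?_ (fun _ => plL_norm) (fun _ => inL_norm) ?_ ?_ hs hcov hη
  · exact Eventually.of_forall fun n => hwe.prob
  · exact Eventually.of_forall fun n => hwe.int_sq
  · refine ⟨?_, ?_, hw'.int_sq, ?_⟩
    · refine Eventually.of_forall fun n => ?_
      have := (hwe (n := n)).prob
      exact Measure.isProbabilityMeasure_map (by fun_prop)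
    · refine Eventually.of_forall fun n => ?_
      have hwa := hwe (n := n)
      have hp := hwa.prob
      have hme : Measurable fun y : Eu (κ ⊕ Fin n) => plL y - (0 : Eu κ) := by fun_prop
      rw [integrable_map_measure (by fun_prop) hme.aemeasurable]
      refine hwa.int_sq.mono' (by fun_prop) (Eventually.of_forall fun y => ?_)
      simp only [Function.comp_apply, sub_zero]
      rw [Real.norm_of_nonneg (by positivity)]
      exact pow_le_pow_left₀ (norm_nonneg _)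
        (((plL : Eu (κ ⊕ Fin n) →L[ℝ] Eu κ).le_opNorm y).trans
          (mul_le_of_le_one_left (norm_nonneg _) plL_norm)) 2
    · intro φ hφ
      refine (hW2.lim φ hφ).congr' ?_
      filter_upwards [eventually_ne_atTop 0] with n hn
      have hme : Measurable fun y : Eu (κ ⊕ Fin n) => plL y - (0 : Eu κ) := by fun_prop
      rw [integral_map hme.aemeasurable hφ.1.aestronglyMeasurable, rep_ecb hn,
        integral_nm gcn_nonneg gcn_meas]
      simp only [sub_zero, plL_apply, emc_apply, pl_mk]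
      rw [qc_fub hn hφ.1, qc_one hn, mul_div_mul_left _ _ (cC_pos hn).ne']
  · intro η hη
    have hsmall : ∀ᶠ n : ℕ in atTop, ((n : ℕ) : ℝ)⁻¹ ≤ η :=
      (tendsto_inv_atTop_nhds_zero_nat.eventually (gt_mem_nhds hη)).mono fun n hn => hn.le
    filter_upwards [eventually_ne_atTop 0, hsmall] with n hn hsm
    intro θ hθ
    have hn' : (n : ℝ) ≠ 0 := by exact_mod_cast hn
    have hn0 : 0 < (n : ℝ) := by positivity
    have hp := (hwe (n := n)).prob
    have hcont : Continuous fun y : Eu (κ ⊕ Fin n) => ⟪y - inL (plL y), θ⟫_ℝ := by fun_prop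
    refine (ProbabilityTheory.variance_le_expectation_sq hcont.aestronglyMeasurable).trans ?_
    have e1 := rep_ecb (A := A) hn (fun y => ⟪y - inL (plL y), θ⟫_ℝ ^ 2)
    refine (le_of_eq e1).trans ?_
    rw [div_le_iff₀ (qc_pos hn), ← integral_const_mul]
    have hq0 : Integrable fun p : Eu κ × Eu (Fin n) => qc A n p := by
      have := qc_int (A := A) (n := n) (ψ := fun _ => 1) continuous_const
      simpa using this
    refine integral_mono_of_nonneg (Eventually.of_forall fun p =>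
      mul_nonneg (sq_nonneg _) (qc_nonneg p)) (hq0.const_mul _) (Eventually.of_forall fun p => ?_)
    simp only
    by_cases hp' : p ∈ QC A n
    · refine mul_le_mul_of_nonneg_right ?_ (qc_nonneg p)
      rw [sub_inL_pl, emc_apply, pr_mk]
      have h2 := abs_real_inner_le_norm (mk 0 ((n : ℝ)⁻¹ • p.2) : Eu (κ ⊕ Fin n)) θ
      rw [hθ, mul_one] at h2
      calc _ = |⟪(mk 0 ((n : ℝ)⁻¹ • p.2) : Eu (κ ⊕ Fin n)), θ⟫_ℝ| ^ 2 := (sq_abs _).symm
        _ ≤ ‖(mk 0 ((n : ℝ)⁻¹ • p.2) : Eu (κ ⊕ Fin n))‖ ^ 2 := pow_le_pow_left₀ (abs_nonneg _) h2 2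
        _ = (n : ℝ)⁻¹ ^ 2 * ‖p.2‖ ^ 2 := by
            rw [norm_mk_sq, norm_smul, norm_zero, norm_inv, Real.norm_of_nonneg hn0.le]
            ring
        _ ≤ (n : ℝ)⁻¹ ^ 2 * n := by
            refine mul_le_mul_of_nonneg_left ?_ (by positivity)
            have := hp'.2
            linarith [sq_nonneg ‖A p.1‖]
        _ = (n : ℝ)⁻¹ := by field_simp
        _ ≤ η := hsm
    · have : qc A n p = 0 := indicator_of_notMem hp' _
      rw [this, mul_zero, mul_zero]

theorem gcn_le_gcl {A : Eu κ →ₗ[ℝ] Eu F} {n : ℕ} (hn : n ≠ 0) (y : Eu κ) :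
    gcn A n y ≤ gcl A y := by
  have hn0 : 0 < (n : ℝ) := by positivity
  unfold gcn gcl
  split_ifs
  · have h1 : Real.sqrt (1 - ‖A y‖ ^ 2 / n) ≤ Real.exp (-(‖A y‖ ^ 2 / n) / 2) := by
      rw [Real.exp_half]
      refine Real.sqrt_le_sqrt ?_
      have := Real.add_one_le_exp (-(‖A y‖ ^ 2 / n))
      linarith
    refine (pow_le_pow_left₀ (Real.sqrt_nonneg _) h1 n).trans (le_of_eq ?_)
    rw [← Real.exp_nat_mul]
    congr 1
    field_simp
  · exact le_rfl

theorem int_gcn_lim {A : Eu κ →ₗ[ℝ] Eu F} {S : Set (Eu κ)} :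
    Tendsto (fun n : ℕ => ∫ y in S, gcn A n y) atTop (𝓝 (∫ y in S, gcl A y)) := by
  refine tendsto_integral_of_dominated_convergence ((cub κ).indicator fun _ => (1 : ℝ))
    (fun n => gcn_meas.aestronglyMeasurable) wt_cub.integrable.integrableOn
    (fun n => Eventually.of_forall fun y => ?_) (Eventually.of_forall fun y => gcn_lim y)
  rw [Real.norm_of_nonneg (gcn_nonneg y)]
  exact gcn_le y

theorem int_gcn_lim' {A : Eu κ →ₗ[ℝ] Eu F} :
    Tendsto (fun n : ℕ => ∫ y, gcn A n y) atTop (𝓝 (∫ y, gcl A y)) := by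
  have := int_gcn_lim (A := A) (S := univ)
  simpa only [Measure.restrict_univ] using this

theorem wt_gcn {A : Eu κ →ₗ[ℝ] Eu F} : ∀ᶠ n : ℕ in atTop, Wt (gcn A n) :=
  (W2.of_dom (l := (atTop : Filter ℕ)) (g := fun n => gcn A n)
    (g' := gcl A) (h := (cub κ).indicator fun _ => (1 : ℝ))
    (Eventually.of_forall fun n y => gcn_nonneg y) (Eventually.of_forall fun n => gcn_meas) wt_gcl
    (Eventually.of_forall fun n y => gcn_le y) wt_cub.mom
    (Eventually.of_forall fun y => gcn_lim y)).1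

theorem real_lim {A : Eu κ →ₗ[ℝ] Eu F} {S : Set (Eu κ)} (hS : MeasurableSet S) :
    Tendsto (fun n : ℕ => (nm (gcn A n)).real S) atTop (𝓝 ((nm (gcl A)).real S)) := by
  rw [real_nm wt_gcl hS]
  refine (int_gcn_lim.div int_gcn_lim' (wt_gcl (A := A)).pos.ne').congr' ?_
  filter_upwards [wt_gcn (A := A)] with n hn
  rw [real_nm hn hS]
  rfl

theorem nm_le {f g : Eu κ → ℝ} (hf : Wt f) (hg : Wt g) (h : ∀ x, g x ≤ f x) {S : Set (Eu κ)}
    (hS : MeasurableSet S) :
    (nm g).real S ≤ ((∫ x, f x) / ∫ x, g x) * (nm f).real S := by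
  rw [real_nm hg hS, real_nm hf hS]
  have h1 : ∫ x in S, g x ≤ ∫ x in S, f x :=
    setIntegral_mono hg.integrable.integrableOn hf.integrable.integrableOn h
  have h2 := hf.pos
  have h3 := hg.pos
  rw [div_mul_div_comm, mul_comm (∫ x, f x), mul_div_mul_right _ _ h2.ne']
  exact div_le_div_of_nonneg_right h1 h3.le

theorem bdr_pl {κ' : Type} [Fintype κ'] {μ : Measure (Eu (κ ⊕ κ'))} {S : Set (Eu κ)}
    (hS : MeasurableSet S) : bdr μ (pl ⁻¹' S) ≤ bdr (μ.map pl) S := by
  have hme : Measurable (pl : Eu (κ ⊕ κ') → Eu κ) := cont_pl.measurable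
  unfold bdr
  refine liminf_le_liminf (Eventually.of_forall fun ε => ?_)
  rw [Measure.map_apply hme hS, Measure.map_apply hme Metric.isOpen_thickening.measurableSet]
  refine ENNReal.div_le_div_right (tsub_le_tsub_right (measure_mono fun z hz => ?_) _) _
  obtain ⟨y, hy, hd⟩ := Metric.mem_thickening_iff.1 hz
  exact Metric.mem_thickening_iff.2 ⟨pl y, hy, (dist_pl z y).trans_lt hd⟩

end approx

section near

variable {κ κ' : Type} [Fintype κ] [Fintype κ']

/-- a set with a ball in an independent factor -/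
def TR (T : Set (Eu κ)) (r : ℝ) : Set (Eu (κ ⊕ κ')) := {z | pl z ∈ T ∨ pr z ∈ Metric.ball 0 r}

theorem TR_meas {T : Set (Eu κ)} (hT : MeasurableSet T) (r : ℝ) :
    MeasurableSet (TR T r : Set (Eu (κ ⊕ κ'))) :=
  (hT.preimage cont_pl.measurable).union
    (Metric.isOpen_ball.measurableSet.preimage cont_pr.measurable)

theorem TR_mono {T : Set (Eu κ)} {r r' : ℝ} (h : r ≤ r') :
    (TR T r : Set (Eu (κ ⊕ κ'))) ⊆ TR T r' := by
  rintro z (hz | hz)
  · exact Or.inl hz
  · exact Or.inr (Metric.ball_subset_ball h hz)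

theorem TR_thick {T : Set (Eu κ)} {r ε : ℝ} :
    Metric.thickening ε (TR T r : Set (Eu (κ ⊕ κ'))) ⊆ TR (Metric.thickening ε T) (r + ε) := by
  intro z hz
  obtain ⟨y, hy, hd⟩ := Metric.mem_thickening_iff.1 hz
  rcases hy with hy | hy
  · exact Or.inl (Metric.mem_thickening_iff.2 ⟨pl y, hy, (dist_pl z y).trans_lt hd⟩)
  · refine Or.inr ?_
    rw [Metric.mem_ball] at hy ⊢
    have h1 := dist_triangle (pr z) (pr y) 0
    have h2 := (dist_pr z y).trans_lt hd
    linarith

/-- boundary measures of such sets, for measures dominated by a product -/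
theorem bdr_TR {M : Measure (Eu κ)} {ν : Measure (Eu κ')} [IsProbabilityMeasure M]
    [IsProbabilityMeasure ν] {P : Measure (Eu (κ ⊕ κ'))} [IsProbabilityMeasure P] {k C b ρ r : ℝ}
    (hk : 0 ≤ k)
    (hP : ∀ S, MeasurableSet S → P.real S ≤ k * (pm M ν).real S)
    (hC : 0 ≤ C) (hν : ∀ r r' : ℝ, 0 ≤ r → r ≤ r' → ν.real (Metric.ball 0 r') -
      ν.real (Metric.ball 0 r) ≤ C * (r' ^ 2 - r ^ 2))
    {T : Set (Eu κ)} (hT : MeasurableSet T) (hb : 0 ≤ b) (hbT : bdr M T < ENNReal.ofReal b)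
    (hr : 0 ≤ r) (hrρ : r ≤ ρ) (hρ : 0 < ρ) :
    bdr P (TR T r) ≤ ENNReal.ofReal (k * (3 * C * ρ + b)) := by
  have hfr := frequently_lt_of_liminf_lt (by isBoundedDefault) hbT
  have hev : ∀ᶠ ε in 𝓝[>] (0 : ℝ), ε < ρ :=
    (tendsto_id.mono_left nhdsWithin_le_nhds : Tendsto (fun ε : ℝ => ε) (𝓝[>] 0) (𝓝 0)).eventually
      (gt_mem_nhds hρ)
  unfold bdr
  refine liminf_le_of_frequently_le (f := 𝓝[>] (0 : ℝ)) ?_
  refine ((hfr.and_eventually hev).and_eventually
    (self_mem_nhdsWithin : Ioi (0 : ℝ) ∈ 𝓝[>] 0)).mono ?_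
  rintro ε ⟨⟨hε1, hε2⟩, hε⟩
  have hε0 : 0 < ε := hε
  have hTm : MeasurableSet (Metric.thickening ε T) := Metric.isOpen_thickening.measurableSet
  obtain ⟨x, hx⟩ : ∃ x, x = M.real (Metric.thickening ε T) := ⟨_, rfl⟩
  obtain ⟨q, hq⟩ : ∃ q, q = M.real T := ⟨_, rfl⟩
  have hq0 : 0 ≤ q := by rw [hq]; exact measureReal_nonneg
  have hq1 : q ≤ 1 := by rw [hq]; exact measureReal_le_one
  have hqx : q ≤ x := by
    rw [hq, hx]
    exact measureReal_mono (Metric.self_subset_thickening hε0 T)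
  have e4 : M (Metric.thickening ε T) = ENNReal.ofReal x := by
    rw [hx, measureReal_def, ENNReal.ofReal_toReal (measure_ne_top M _)]
  have e5 : M T = ENNReal.ofReal q := by
    rw [hq, measureReal_def, ENNReal.ofReal_toReal (measure_ne_top M _)]
  rw [ENNReal.div_lt_iff (Or.inl (ENNReal.ofReal_pos.2 hε0).ne')
    (Or.inl ENNReal.ofReal_ne_top), e4, e5, ← ENNReal.ofReal_sub _ hq0,
    ← ENNReal.ofReal_mul hb] at hε1
  have hxb : x - q < b * ε := by
    by_contra hcon2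
    rw [not_lt] at hcon2
    exact absurd (ENNReal.ofReal_le_ofReal hcon2) (not_le.2 hε1)
  set U : Set (Eu (κ ⊕ κ')) := TR T r with hU
  set V : Set (Eu (κ ⊕ κ')) := TR (Metric.thickening ε T) (r + ε) with hV
  have hUm : MeasurableSet U := TR_meas hT r
  have hVm : MeasurableSet V := TR_meas hTm (r + ε)
  have hUt : U ⊆ Metric.thickening ε U := Metric.self_subset_thickening hε0 U
  have htV : Metric.thickening ε U ⊆ V := TR_thick
  have h1 : P.real (Metric.thickening ε U) - P.real U ≤ k * ((3 * C * ρ + b) * ε) := by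
    have h2 : P.real (Metric.thickening ε U) - P.real U ≤ P.real (V \ U) := by
      rw [measureReal_sdiff (hUt.trans htV) hUm]
      exact sub_le_sub_right (measureReal_mono htV) _
    refine h2.trans ((hP _ (hVm.diff hUm)).trans (mul_le_mul_of_nonneg_left ?_ hk))
    rw [measureReal_sdiff (hUt.trans htV) hUm]
    have e6 : (pm M ν).real V = x + (1 - x) * ν.real (Metric.ball 0 (r + ε)) := by
      rw [hx]
      exact pm_or hTm Metric.isOpen_ball.measurableSet
    have e7 : (pm M ν).real U = q + (1 - q) * ν.real (Metric.ball 0 r) := by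
      rw [hq]
      exact pm_or hT Metric.isOpen_ball.measurableSet
    rw [e6, e7]
    have h3 := hν r (r + ε) hr (by linarith)
    set β := ν.real (Metric.ball (0 : Eu κ') r)
    set β' := ν.real (Metric.ball (0 : Eu κ') (r + ε))
    have h4 : 0 ≤ β' := measureReal_nonneg
    have h5 : β ≤ β' := measureReal_mono (Metric.ball_subset_ball (by linarith))
    have e8 : x + (1 - x) * β' - (q + (1 - q) * β) = (x - q) * (1 - β') + (1 - q) * (β' - β) := by
      ring
    rw [e8]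
    have h6 : (x - q) * (1 - β') ≤ x - q := mul_le_of_le_one_right (by linarith) (by linarith)
    have h7 : (1 - q) * (β' - β) ≤ β' - β := mul_le_of_le_one_left (by linarith) (by linarith)
    have h8 : C * ((r + ε) ^ 2 - r ^ 2) ≤ 3 * C * ρ * ε := by
      have h9 : (r + ε) ^ 2 - r ^ 2 ≤ 3 * ρ * ε := by nlinarith
      have := mul_le_mul_of_nonneg_left h9 hC
      linarith
    linarith
  have e9 : P (Metric.thickening ε U) = ENNReal.ofReal (P.real (Metric.thickening ε U)) := by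
    rw [measureReal_def, ENNReal.ofReal_toReal (measure_ne_top P _)]
  have e10 : P U = ENNReal.ofReal (P.real U) := by
    rw [measureReal_def, ENNReal.ofReal_toReal (measure_ne_top P _)]
  rw [e9, e10, ← ENNReal.ofReal_sub _ measureReal_nonneg,
    ENNReal.div_le_iff (ENNReal.ofReal_pos.2 hε0).ne' ENNReal.ofReal_ne_top,
    ← ENNReal.ofReal_mul (by positivity)]
  refine ENNReal.ofReal_le_ofReal (h1.trans (le_of_eq ?_))
  ring

/-- the class of centred Gaussian measures on cubes with covariance at most `s` -/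
def GG (s : ℝ) (ι : Type) [Fintype ι] (M : Measure (Eu ι)) : Prop :=
  (∃ (F : Type) (_ : Fintype F) (A : Eu ι →ₗ[ℝ] Eu F), Function.Injective A ∧ M = nm (gcl A)) ∧
    CovLe M s

/-- **near one half** -/
theorem near_gcl {c : ℝ} (hc : 0 < c)
    (HE : ∀ (κ' F' : Type) [Fintype κ'] [Fintype F'] (A : Eu κ' →ₗ[ℝ] Eu F'),
      Function.Injective A → Nonempty κ' → ∀ t : ℝ, 0 < t → CovLe (nm (ecb A)) t →
      HM (nm (ecb A)) (c / Real.sqrt t)) {s : ℝ} (hs : 0 < s) :
    ∀ η : ℝ, 0 < η → ∃ δ > 0, ∀ (ι : Type) [Fintype ι] (M : Measure (Eu ι)),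
      GG s ι M → ∀ T : Set (Eu ι), MeasurableSet T → 1 / 2 - δ ≤ M.real T → M.real T < 1 / 2 →
      ENNReal.ofReal (c / Real.sqrt s) ≤ ENNReal.ofReal η + bdr M T := by
  intro η hη
  obtain ⟨B, Cν, hB, hCν, hcovν, hring, hpos⟩ := exists_corr hs
  have hpν := (wt_gcl (A := B)).prob
  obtain ⟨ρ, hρdef⟩ : ∃ ρ, ρ = η / (3 * Cν) := ⟨_, rfl⟩
  have hρ : 0 < ρ := by rw [hρdef]; positivity
  have hCρ : 3 * Cν * ρ = η := by rw [hρdef]; field_simp
  refine ⟨(nm (gcl B)).real (Metric.ball 0 ρ) / 4, div_pos (hpos ρ hρ) (by norm_num), ?_⟩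
  rintro ι _ M ⟨⟨F, _, A, hA, hM⟩, hcovM⟩ T hT hT1 hT2
  have hpM : IsProbabilityMeasure M := by rw [hM]; exact (wt_gcl (A := A)).prob
  have hiM : Integrable (fun x => ‖x‖ ^ 2) M := by rw [hM]; exact (wt_gcl (A := A)).int_sq
  obtain ⟨A', hA'⟩ : ∃ A', A' = sumL A B := ⟨_, rfl⟩
  have hP : nm (gcl A') = pm M (nm (gcl B)) := by rw [hA', hM, pm_gcl]
  have hcovP : CovLe (nm (gcl A')) s := by
    rw [hP]
    exact covLe_pm hiM (wt_gcl (A := B)).int_sq hcovM hcovν
  have hinj : Function.Injective A' := by rw [hA']; exact sumL_inj hA hB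
  by_contra hcon
  rw [not_le] at hcon
  have h1 : bdr M T < ENNReal.ofReal (c / Real.sqrt s - η) := by
    rw [ENNReal.ofReal_sub _ hη.le, lt_tsub_iff_left]
    exact hcon
  obtain ⟨b, hb0, hb1, hb2⟩ := ENNReal.lt_iff_exists_real_btwn.1 h1
  have hb3 : b < c / Real.sqrt s - η := by
    by_contra hcon2
    rw [not_lt] at hcon2
    exact absurd (ENNReal.ofReal_le_ofReal hcon2) (not_le.2 hb2)
  -- the measures at `0` and `ρ`
  have hm0 : (nm (gcl A')).real (TR T 0) < 1 / 2 := by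
    rw [hP]
    have e : (pm M (nm (gcl B))).real (TR T 0) =
        M.real T + (1 - M.real T) * (nm (gcl B)).real (Metric.ball 0 0) :=
      pm_or hT Metric.isOpen_ball.measurableSet
    rw [e, Metric.ball_zero, measureReal_empty, mul_zero, add_zero]
    exact hT2
  have hm1 : 1 / 2 < (nm (gcl A')).real (TR T ρ) := by
    rw [hP]
    have e : (pm M (nm (gcl B))).real (TR T ρ) =
        M.real T + (1 - M.real T) * (nm (gcl B)).real (Metric.ball 0 ρ) :=
      pm_or hT Metric.isOpen_ball.measurableSet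
    rw [e]
    have h2 := hpos ρ hρ
    nlinarith
  -- for every `η'`
  have key : ∀ η' : ℝ, 0 < η' → c / Real.sqrt (s + η') ≤ η + b := by
    intro η' hη'
    have hK : Tendsto (fun n : ℕ => (∫ y, gcl A' y) / (∫ y, gcn A' n y) * (η + b)) atTop
        (𝓝 ((∫ y, gcl A' y) / (∫ y, gcl A' y) * (η + b))) :=
      (tendsto_const_nhds.div int_gcn_lim' (wt_gcl (A := A')).pos.ne').mul_const _
    rw [div_self (wt_gcl (A := A')).pos.ne', one_mul] at hK
    refine ge_of_tendsto hK ?_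
    filter_upwards [wt_gcn (A := A'), cov_ecb hs hcovP hη', eventually_ne_atTop 0,
      (real_lim (A := A') (TR_meas hT 0)).eventually (gt_mem_nhds hm0),
      (real_lim (A := A') (TR_meas hT ρ)).eventually (lt_mem_nhds hm1)] with n hw hcov hn hn0 hn1
    obtain ⟨k, hk⟩ : ∃ k, k = (∫ y, gcl A' y) / (∫ y, gcn A' n y) := ⟨_, rfl⟩
    have hk0 : 0 ≤ k := by
      rw [hk]
      exact div_nonneg (wt_gcl (A := A')).pos.le hw.pos.le
    rw [← hk]
    have hp := hw.prob
    have hdom : ∀ S, MeasurableSet S →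
        (nm (gcn A' n)).real S ≤ k * (pm M (nm (gcl B))).real S := by
      intro S hS
      rw [← hP, hk]
      exact nm_le wt_gcl hw (fun x => gcn_le_gcl hn x) hS
    -- the radius
    have hlip : ∀ r r' : ℝ, 0 ≤ r → r ≤ r' → r' ≤ ρ →
        |(nm (gcn A' n)).real (TR T r') - (nm (gcn A' n)).real (TR T r)| ≤
          k * (Cν * (2 * ρ)) * |r' - r| := by
      intro r r' h0 h2 h3
      have hsub : (TR T r : Set (Eu (ι ⊕ Fin 2))) ⊆ TR T r' := TR_mono h2
      rw [← measureReal_sdiff hsub (TR_meas hT r), abs_of_nonneg measureReal_nonneg,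
        abs_of_nonneg (by linarith)]
      refine (hdom _ ((TR_meas hT r').diff (TR_meas hT r))).trans ?_
      rw [mul_assoc]
      refine mul_le_mul_of_nonneg_left ?_ hk0
      rw [measureReal_sdiff hsub (TR_meas hT r)]
      have e1 : (pm M (nm (gcl B))).real (TR T r') =
          M.real T + (1 - M.real T) * (nm (gcl B)).real (Metric.ball 0 r') :=
        pm_or hT Metric.isOpen_ball.measurableSet
      have e2 : (pm M (nm (gcl B))).real (TR T r) =
          M.real T + (1 - M.real T) * (nm (gcl B)).real (Metric.ball 0 r) :=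
        pm_or hT Metric.isOpen_ball.measurableSet
      rw [e1, e2]
      have h4 := hring r r' h0 h2
      have h5 : (nm (gcl B)).real (Metric.ball 0 r) ≤ (nm (gcl B)).real (Metric.ball 0 r') :=
        measureReal_mono (Metric.ball_subset_ball h2)
      have h6 : 0 ≤ M.real T := measureReal_nonneg
      have h7 : Cν * (r' ^ 2 - r ^ 2) ≤ Cν * (2 * ρ) * (r' - r) := by
        have h8 : r' ^ 2 - r ^ 2 ≤ 2 * ρ * (r' - r) := by nlinarith
        have := mul_le_mul_of_nonneg_left h8 hCν.le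
        linarith
      nlinarith
    have hcont : ContinuousOn (fun r => (nm (gcn A' n)).real (TR T r)) (Icc 0 ρ) := by
      have : LipschitzOnWith (Real.toNNReal (k * (Cν * (2 * ρ))))
          (fun r => (nm (gcn A' n)).real (TR T r)) (Icc 0 ρ) := by
        refine LipschitzOnWith.of_dist_le_mul fun x hx y hy => ?_
        rw [Real.coe_toNNReal _ (by positivity), Real.dist_eq, Real.dist_eq]
        rcases le_total x y with h | h
        · rw [abs_sub_comm, abs_sub_comm x y]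
          exact hlip x y hx.1 h hy.2
        · exact hlip y x hy.1 h hx.2
      exact this.continuousOn
    obtain ⟨r, hr, hr2⟩ := intermediate_value_Icc hρ.le hcont ⟨hn0.le, hn1.le⟩
    have hr2' : (nm (gcn A' n)).real (TR T r) = 1 / 2 := hr2
    -- the body
    have hmap := map_ecb hn hw
    have hme : Measurable (pl : Eu ((ι ⊕ Fin 2) ⊕ Fin n) → Eu (ι ⊕ Fin 2)) := cont_pl.measurable
    have hne : Nonempty ((ι ⊕ Fin 2) ⊕ Fin n) := ⟨Sum.inl (Sum.inr 0)⟩
    have hhm := HE ((ι ⊕ Fin 2) ⊕ Fin n) ((F ⊕ Fin 2) ⊕ Fin n) (AE A' n) (AE_inj hinj hn) hne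
      (s + η') (by positivity) hcov (pl ⁻¹' (TR T r)) ((TR_meas hT r).preimage hme) (by
        rw [← Measure.map_apply hme (TR_meas hT r), hmap]
        have : nm (gcn A' n) (TR T r) = ENNReal.ofReal ((nm (gcn A' n)).real (TR T r)) := by
          rw [measureReal_def, ENNReal.ofReal_toReal (measure_ne_top _ _)]
        rw [this, hr2', ENNReal.ofReal_div_of_pos two_pos]
        simp)
    have h3 := bdr_pl (μ := nm (ecb (AE A' n))) (TR_meas hT r)
    rw [hmap] at h3
    have h4 := bdr_TR hk0 hdom hCν.le hring hT hb0 hb1 hr.1 hr.2 hρ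
    rw [hCρ] at h4
    exact (ENNReal.ofReal_le_ofReal_iff (by positivity)).1 (hhm.trans (h3.trans h4))
  have h5 : Tendsto (fun η' : ℝ => c / Real.sqrt (s + η')) (𝓝[>] 0) (𝓝 (c / Real.sqrt (s + 0))) := by
    refine Tendsto.mono_left ?_ nhdsWithin_le_nhds
    refine tendsto_const_nhds.div ?_ (by rw [add_zero]; exact (Real.sqrt_pos.2 hs).ne')
    exact (Real.continuous_sqrt.tendsto _).comp (tendsto_const_nhds.add tendsto_id)
  rw [add_zero] at h5
  have h6 : c / Real.sqrt s ≤ η + b := by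
    refine le_of_tendsto h5 ?_
    filter_upwards [self_mem_nhdsWithin] with η' hη'
    exact key η' hη'
  linarith

/-- **the isoperimetric inequality for centred Gaussian measures on cubes** -/
theorem iso_gcl {c : ℝ} (hc : 0 < c)
    (HE : ∀ (κ' F' : Type) [Fintype κ'] [Fintype F'] (A : Eu κ' →ₗ[ℝ] Eu F'),
      Function.Injective A → Nonempty κ' → ∀ t : ℝ, 0 < t → CovLe (nm (ecb A)) t →
      HM (nm (ecb A)) (c / Real.sqrt t)) {F : Type} [Fintype F]
    {A : Eu κ →ₗ[ℝ] Eu F} (hA : Function.Injective A) {s : ℝ} (hs : 0 < s)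
    (hcov : CovLe (nm (gcl A)) s) : Iso (nm (gcl A)) (c / Real.sqrt s) := by
  refine iso_of_near (𝒢 := fun ι _ M => GG s ι M) ?_ ?_ (near_gcl hc HE hs)
    ⟨⟨F, inferInstance, A, hA, rfl⟩, hcov⟩ (div_pos hc (Real.sqrt_pos.2 hs))
  · rintro ι _ M ⟨⟨F', _, A', _, hM⟩, _⟩
    rw [hM]
    exact (wt_gcl (A := A')).prob
  · rintro ι ι' _ _ M M' ⟨⟨F1, _, A1, h1, hM1⟩, h2⟩ ⟨⟨F2, _, A2, h3, hM2⟩, h4⟩
    have p1 : IsProbabilityMeasure M := by rw [hM1]; exact (wt_gcl (A := A1)).prob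
    have p2 : IsProbabilityMeasure M' := by rw [hM2]; exact (wt_gcl (A := A2)).prob
    have i1 : Integrable (fun x => ‖x‖ ^ 2) M := by rw [hM1]; exact (wt_gcl (A := A1)).int_sq
    have i2 : Integrable (fun x => ‖x‖ ^ 2) M' := by rw [hM2]; exact (wt_gcl (A := A2)).int_sq
    refine ⟨⟨F1 ⊕ F2, inferInstance, sumL A1 A2, sumL_inj h1 h3, ?_⟩, covLe_pm i1 i2 h2 h4⟩
    rw [pm_gcl, hM1, hM2]

/-- **the Poincare form for centred Gaussian measures on cubes** -/
theorem kp_gcl_of_hm {c : ℝ} (hc : 0 < c)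
    (HE : ∀ (κ' F' : Type) [Fintype κ'] [Fintype F'] (A : Eu κ' →ₗ[ℝ] Eu F'),
      Function.Injective A → Nonempty κ' → ∀ t : ℝ, 0 < t → CovLe (nm (ecb A)) t →
      HM (nm (ecb A)) (c / Real.sqrt t)) {F : Type} [Fintype F]
    {A : Eu κ →ₗ[ℝ] Eu F} (hA : Function.Injective A) : KP (nm (gcl A)) (4 / c ^ 2) := by
  have hp := (wt_gcl (A := A)).prob
  intro s hs hcov
  have h1 := poi_of_iso (div_pos hc (Real.sqrt_pos.2 hs)) (iso_gcl hc HE hA hs hcov)
  have e : 4 / (c / Real.sqrt s) ^ 2 = 4 / c ^ 2 * s := by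
    rw [div_pow, Real.sq_sqrt hs.le]
    field_simp
  rwa [e] at h1

end near

end Pool.Agent.H776
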