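import Pool.Agent.H776.SHyp

/-!
# The perimeter is at most the Minkowski boundary measure
-/

set_option autoImplicit false

namespace Pool.Agent.H776

open MeasureTheory Set Filter Topology
open scoped ENNReal NNReal InnerProductSpace
open Pool.Agent.W695.KH (dv per sec_bound EV)

variable {κ : Type} [Fintype κ]

open Classical in
/-- integration by parts against Lipschitz functions -/
theorem ibp {X : Eu κ → Eu κ} (hX : ContDiff ℝ 1 X) (hc : HasCompactSupport X) {f : Eu κ → ℝ}
    {C : ℝ≥0} (hf : LipschitzWith C f) :
    ∫ x, f x * dv X x = - ∫ x, fderiv ℝ f x (X x) := by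
  obtain ⟨e, he⟩ : ∃ e : κ → Eu κ, e = fun i => EuclideanSpace.single i 1 := ⟨_, rfl⟩
  have hdv : ∀ x, dv X x = ∑ i, fderiv ℝ X x (e i) i := fun x => by rw [he]; rfl
  have hXi : ∀ i, ContDiff ℝ 1 fun x => X x i := fun i =>
    (EuclideanSpace.proj i : Eu κ →L[ℝ] ℝ).contDiff.comp hX
  have hci : ∀ i, HasCompactSupport fun x => X x i := fun i =>
    hc.comp_left (g := fun y : Eu κ => y i) rfl
  have hfd : ∀ i x v, fderiv ℝ (fun x => X x i) x v = fderiv ℝ X x v i := by
    intro i x v
    have h1 : HasFDerivAt (fun x => X x i)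
        ((EuclideanSpace.proj i : Eu κ →L[ℝ] ℝ).comp (fderiv ℝ X x)) x :=
      (EuclideanSpace.proj i : Eu κ →L[ℝ] ℝ).hasFDerivAt.comp x
        ((hX.differentiable one_ne_zero) x).hasFDerivAt
    rw [h1.fderiv]
    rfl
  have hXc := hX.continuous_fderiv one_ne_zero
  have h1 : ∀ i, ∫ x, lineDeriv ℝ f x (e i) * X x i = -∫ x, fderiv ℝ X x (e i) i * f x := by
    intro i
    obtain ⟨D, hD⟩ := (hXi i).lipschitzWith_of_hasCompactSupport (hci i) one_ne_zero
    rw [hf.integral_lineDeriv_mul_eq hD (hci i) (e i), ← integral_neg]
    refine integral_congr_ae (Eventually.of_forall fun x => ?_)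
    simp only [((hXi i).differentiable one_ne_zero x).lineDeriv_eq_fderiv, map_neg, hfd,
      PiLp.neg_apply]
    ring
  have h2 : ∀ i, Integrable fun x => lineDeriv ℝ f x (e i) * X x i := fun i =>
    (hf.locallyIntegrable_lineDeriv (e i)).integrable_smul_right_of_hasCompactSupport
      (hXi i).continuous (hci i)
  have h3 : ∀ i, Integrable fun x => fderiv ℝ X x (e i) i * f x := by
    intro i
    refine Continuous.integrable_of_hasCompactSupport ?_ ?_
    · exact ((EuclideanSpace.proj i : Eu κ →L[ℝ] ℝ).continuous.comp
        (hXc.clm_apply continuous_const)).mul hf.continuous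
    · refine HasCompactSupport.mul_right ?_
      exact (hc.fderiv ℝ).comp_left (g := fun L : Eu κ →L[ℝ] Eu κ => L (e i) i) rfl
  have h4 : ∀ᵐ x, fderiv ℝ f x (X x) = ∑ i, lineDeriv ℝ f x (e i) * X x i := by
    filter_upwards [hf.ae_differentiableAt] with x hx
    have e1 : X x = ∑ i, X x i • e i := by
      rw [he]
      ext j
      simp [Pi.single_apply]
    conv_lhs => rw [e1]
    rw [map_sum]
    refine Finset.sum_congr rfl fun i _ => ?_
    rw [map_smul, hx.lineDeriv_eq_fderiv, smul_eq_mul, mul_comm]
  rw [integral_congr_ae h4, integral_finsetSum _ fun i _ => h2 i]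
  simp only [h1]
  rw [Finset.sum_neg_distrib, neg_neg, ← integral_finsetSum _ fun i _ => h3 i]
  refine integral_congr_ae (Eventually.of_forall fun x => ?_)
  simp only [hdv]
  rw [Finset.mul_sum]
  exact Finset.sum_congr rfl fun i _ => mul_comm _ _

/-- the cut-off function of a set -/
noncomputable def ctf (E : Set (Eu κ)) (ε : ℝ) (x : Eu κ) : ℝ :=
  max 0 (1 - Metric.infDist x E / ε)

theorem ctf_lip (E : Set (Eu κ)) {ε : ℝ} (hε : 0 < ε) :
    LipschitzWith (Real.toNNReal (1 / ε)) (ctf E ε) := by
  refine LipschitzWith.of_dist_le_mul fun x y => ?_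
  rw [Real.dist_eq, Real.coe_toNNReal _ (by positivity)]
  unfold ctf
  refine (abs_max_sub_max_le_max _ _ _ _).trans ?_
  rw [sub_self, abs_zero, max_eq_right (abs_nonneg _)]
  have h1 := (Metric.lipschitz_infDist_pt E).dist_le_mul x y
  rw [Real.dist_eq, NNReal.coe_one, one_mul] at h1
  have e : 1 - Metric.infDist x E / ε - (1 - Metric.infDist y E / ε) =
      -((Metric.infDist x E - Metric.infDist y E) / ε) := by ring
  rw [e, abs_neg, abs_div, abs_of_pos hε, one_div, inv_mul_eq_div]
  exact div_le_div_of_nonneg_right h1 hε.le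

theorem ctf_nonneg (E : Set (Eu κ)) (ε : ℝ) (x : Eu κ) : 0 ≤ ctf E ε x := le_max_left _ _

theorem ctf_le (E : Set (Eu κ)) {ε : ℝ} (hε : 0 < ε) (x : Eu κ) : ctf E ε x ≤ 1 := by
  refine max_le zero_le_one ?_
  have : 0 ≤ Metric.infDist x E / ε := div_nonneg Metric.infDist_nonneg hε.le
  linarith

theorem ctf_mem {E : Set (Eu κ)} {ε : ℝ} {x : Eu κ} (hx : x ∈ E) : ctf E ε x = 1 := by
  unfold ctf
  rw [Metric.infDist_zero_of_mem hx, zero_div, sub_zero, max_eq_right zero_le_one]

theorem ctf_out {E : Set (Eu κ)} (hE : E.Nonempty) {ε : ℝ} (hε : 0 < ε) {x : Eu κ}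
    (hx : x ∉ Metric.thickening ε E) : ctf E ε x = 0 := by
  rw [Metric.mem_thickening_iff_infDist_lt hE, not_lt] at hx
  unfold ctf
  have : 1 ≤ Metric.infDist x E / ε := (one_le_div hε).2 hx
  exact max_eq_left (by linarith)

theorem ctf_grad (E : Set (Eu κ)) (hE : E.Nonempty) {ε : ℝ} (hε : 0 < ε) (x : Eu κ) :
    ‖fderiv ℝ (ctf E ε) x‖ ≤ (Metric.thickening ε E \ E).indicator (fun _ => 1 / ε) x := by
  by_cases h : x ∈ Metric.thickening ε E \ E
  · rw [indicator_of_mem h]
    have := norm_fderiv_le_of_lipschitz ℝ (ctf_lip E hε) (x₀ := x)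
    rwa [Real.coe_toNNReal _ (by positivity)] at this
  · rw [indicator_of_notMem h]
    have h0 : fderiv ℝ (ctf E ε) x = 0 := by
      by_cases hx : x ∈ E
      · refine IsLocalMax.fderiv_eq_zero (Eventually.of_forall fun y => ?_)
        rw [ctf_mem hx]
        exact ctf_le E hε y
      · have hx' : x ∉ Metric.thickening ε E := fun h' => h ⟨h', hx⟩
        refine IsLocalMin.fderiv_eq_zero (Eventually.of_forall fun y => ?_)
        rw [ctf_out hE hε hx']
        exact ctf_nonneg E ε y
    rw [h0, norm_zero]

/-- **the perimeter is at most the Minkowski boundary measure** -/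
theorem per_le {K Ω E : Set (Eu κ)} (hΩK : Ω ⊆ K) (hK0 : 0 < volume K) (hKt : volume K ≠ ⊤)
    (hKm : MeasurableSet K) (hE : MeasurableSet E) :
    per E Ω ≤ volume K * bdr (unf K) E := by
  classical
  have hKr : 0 < volume.real K := ENNReal.toReal_pos hK0.ne' hKt
  unfold per
  refine iSup₂_le fun X hX => ?_
  obtain ⟨hXd, hXc, hXs, hX1⟩ := hX
  have key : ∀ b : ℝ, 0 ≤ b → bdr (unf K) E < ENNReal.ofReal b →
      ∫ x in E, dv X x ≤ volume.real K * b := by
    intro b hb0 hb
    have hdc : Continuous (dv X) := by
      unfold dv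
      refine continuous_finsetSum _ fun i _ => ?_
      exact (EuclideanSpace.proj i : Eu κ →L[ℝ] ℝ).continuous.comp
        ((hXd.continuous_fderiv one_ne_zero).clm_apply continuous_const)
    have hdcs : HasCompactSupport (dv X) := by
      unfold dv
      exact (hXc.fderiv ℝ).comp_left
        (g := fun L : Eu κ →L[ℝ] Eu κ => ∑ i, L (EuclideanSpace.single i 1) i) (by simp)
    have hdi : Integrable (dv X) := hdc.integrable_of_hasCompactSupport hdcs
    obtain ⟨M, hM⟩ := hdcs.exists_bound_of_continuous hdc
    have hM0 : 0 ≤ M := by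
      obtain ⟨x⟩ := (inferInstance : Nonempty (Eu κ))
      exact (norm_nonneg _).trans (hM x)
    by_cases hne : E.Nonempty
    swap
    · rw [not_nonempty_iff_eq_empty.1 hne, Measure.restrict_empty, integral_zero_measure]
      positivity
    have hfr := frequently_lt_of_liminf_lt (by isBoundedDefault) hb
    have step : ∀ ε : ℝ, 0 < ε → (unf K (Metric.thickening ε E) - unf K E) / ENNReal.ofReal ε <
        ENNReal.ofReal b → ∫ x in E, dv X x ≤ volume.real K * b * (1 + M * ε) := by
      intro ε hε hlt
      set T := Metric.thickening ε E \ E with hT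
      have hTm : MeasurableSet T := Metric.isOpen_thickening.measurableSet.diff hE
      have hsub : E ⊆ Metric.thickening ε E := Metric.self_subset_thickening hε E
      have hfinE : unf K E ≠ ⊤ := by
        unfold unf
        rw [Measure.smul_apply, smul_eq_mul]
        exact ENNReal.mul_ne_top (ENNReal.inv_ne_top.2 hK0.ne')
          (by rw [Measure.restrict_apply hE]
              exact ne_top_of_le_ne_top hKt (measure_mono inter_subset_right))
      have h1 : unf K T < ENNReal.ofReal (b * ε) := by
        rw [hT, measure_sdiff hsub hE.nullMeasurableSet hfinE, ENNReal.ofReal_mul hb0]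
        rwa [ENNReal.div_lt_iff (Or.inl (ENNReal.ofReal_pos.2 hε).ne')
          (Or.inl ENNReal.ofReal_ne_top)] at hlt
      have h2 : volume (T ∩ K) ≤ ENNReal.ofReal (volume.real K * (b * ε)) := by
        have e1 : volume (T ∩ K) = volume K * unf K T := by
          unfold unf
          rw [Measure.smul_apply, smul_eq_mul, Measure.restrict_apply hTm, ← mul_assoc,
            ENNReal.mul_inv_cancel hK0.ne' hKt, one_mul]
        rw [e1, ENNReal.ofReal_mul hKr.le, measureReal_def, ENNReal.ofReal_toReal hKt]
        exact mul_le_mul_right h1.le _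
      have h3 : volume.real (T ∩ K) ≤ volume.real K * (b * ε) := by
        rw [measureReal_def]
        exact ENNReal.toReal_le_of_le_ofReal (by positivity) h2
      have hTK : volume (T ∩ K) ≠ ⊤ := ne_top_of_le_ne_top hKt (measure_mono inter_subset_right)
      have hX0 : ∀ x, x ∉ K → X x = 0 := fun x hx =>
        image_eq_zero_of_notMem_tsupport fun h => hx (hΩK (hXs h))
      have hdv0 : ∀ x, x ∉ K → dv X x = 0 := by
        intro x hx
        have h4 : x ∉ tsupport (fderiv ℝ X) := fun h =>
          hx (hΩK (hXs (tsupport_fderiv_subset ℝ h)))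
        have h5 : fderiv ℝ X x = 0 := image_eq_zero_of_notMem_tsupport h4
        unfold dv
        rw [h5]
        simp
      -- the bound for the gradient term
      have h4 : ‖∫ x, fderiv ℝ (ctf E ε) x (X x)‖ ≤ volume.real K * b := by
        have h5 : ∀ x, ‖fderiv ℝ (ctf E ε) x (X x)‖ ≤ (T ∩ K).indicator (fun _ => 1 / ε) x := by
          intro x
          by_cases hx : x ∈ K
          · have h6 := ctf_grad E hne hε x
            have h7 : (T ∩ K).indicator (fun _ => 1 / ε) x = T.indicator (fun _ => 1 / ε) x := by
              by_cases hxT : x ∈ T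
              · rw [indicator_of_mem hxT, indicator_of_mem (show x ∈ T ∩ K from ⟨hxT, hx⟩)]
              · rw [indicator_of_notMem hxT, indicator_of_notMem fun h => hxT h.1]
            rw [h7]
            refine (ContinuousLinearMap.le_opNorm _ _).trans (le_trans ?_ h6)
            exact mul_le_of_le_one_right (norm_nonneg _) (hX1 x)
          · rw [hX0 x hx, map_zero, norm_zero]
            exact indicator_nonneg (fun _ _ => by positivity) _
        have h8 : Integrable ((T ∩ K).indicator fun _ => 1 / ε) :=
          (integrable_indicator_iff (hTm.inter hKm)).2 (integrableOn_const hTK)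
        refine (norm_integral_le_of_norm_le h8 (Eventually.of_forall h5)).trans ?_
        rw [integral_indicator (hTm.inter hKm), setIntegral_const, smul_eq_mul, mul_one_div,
          div_le_iff₀ hε]
        linarith
      -- the bound for the difference
      have hli := ctf_lip E hε
      have h9 : Integrable fun x => ctf E ε x * dv X x :=
        (hli.continuous.mul hdc).integrable_of_hasCompactSupport hdcs.mul_left
      have h10 : ∫ x in E, dv X x ≤ (∫ x, ctf E ε x * dv X x) + volume.real K * b * (M * ε) := by
        rw [← integral_indicator hE]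
        have h11 : Integrable ((T ∩ K).indicator fun _ => M) :=
          (integrable_indicator_iff (hTm.inter hKm)).2 (integrableOn_const hTK)
        have h12 : ∫ x, E.indicator (dv X) x ≤
            ∫ x, (ctf E ε x * dv X x + (T ∩ K).indicator (fun _ => M) x) := by
          refine integral_mono (hdi.indicator hE) (h9.add h11) fun x => ?_
          show E.indicator (dv X) x ≤ ctf E ε x * dv X x + (T ∩ K).indicator (fun _ => M) x
          by_cases hxE : x ∈ E
          · rw [indicator_of_mem hxE, ctf_mem hxE, one_mul]
            exact le_add_of_nonneg_right (indicator_nonneg (fun _ _ => hM0) _)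
          · rw [indicator_of_notMem hxE]
            by_cases hxT : x ∈ T ∩ K
            · rw [indicator_of_mem hxT]
              have h13 := hM x
              rw [Real.norm_eq_abs] at h13
              have h14 := ctf_nonneg E ε x
              have h15 := ctf_le E hε x
              have h16 : -(ctf E ε x * dv X x) ≤ M := by
                refine (neg_le_abs _).trans ?_
                rw [abs_mul, abs_of_nonneg h14]
                calc ctf E ε x * |dv X x| ≤ 1 * M :=
                      mul_le_mul h15 h13 (abs_nonneg _) zero_le_one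
                  _ = M := one_mul M
              linarith
            · rw [indicator_of_notMem hxT, add_zero]
              by_cases hxK : x ∈ K
              · have : x ∉ Metric.thickening ε E := fun h => hxT ⟨⟨h, hxE⟩, hxK⟩
                rw [ctf_out hne hε this, zero_mul]
              · rw [hdv0 x hxK, mul_zero]
        rw [integral_add h9 h11, integral_indicator (hTm.inter hKm), setIntegral_const,
          smul_eq_mul] at h12
        have h17 := mul_le_mul_of_nonneg_right h3 hM0
        linarith
      have h18 := ibp hXd hXc hli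
      rw [Real.norm_eq_abs] at h4
      have h19 := neg_abs_le (∫ x, fderiv ℝ (ctf E ε) x (X x))
      have h20 : volume.real K * b * (1 + M * ε) = volume.real K * b + volume.real K * b * (M * ε) := by
        ring
      rw [h20]
      linarith
    -- pass to the limit
    refine le_of_forall_pos_le_add fun δ hδ => ?_
    have hev : ∀ᶠ ε in 𝓝[>] (0 : ℝ), volume.real K * b * (M * ε) < δ := by
      have : Tendsto (fun ε : ℝ => volume.real K * b * (M * ε)) (𝓝[>] 0)
          (𝓝 (volume.real K * b * (M * 0))) :=
        ((tendsto_id.const_mul M).const_mul _).mono_left nhdsWithin_le_nhds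
      rw [mul_zero, mul_zero] at this
      exact this.eventually (gt_mem_nhds hδ)
    obtain ⟨ε, ⟨h1, h2⟩, h3⟩ := ((hfr.and_eventually hev).and_eventually
      (self_mem_nhdsWithin : Ioi (0 : ℝ) ∈ 𝓝[>] 0)).exists
    have h4 := step ε h3 h1
    have h5 : volume.real K * b * (1 + M * ε) = volume.real K * b + volume.real K * b * (M * ε) := by
      ring
    rw [h5] at h4
    linarith
  by_contra hcon
  rw [not_le] at hcon
  have h1 : bdr (unf K) E < ENNReal.ofReal (∫ x in E, dv X x) / volume K := by
    rw [ENNReal.lt_div_iff_mul_lt (Or.inl hK0.ne') (Or.inl hKt), mul_comm]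
    exact hcon
  obtain ⟨b, hb0, hb1, hb2⟩ := ENNReal.lt_iff_exists_real_btwn.1 h1
  have h2 := key b hb0 hb1
  rw [ENNReal.lt_div_iff_mul_lt (Or.inl hK0.ne') (Or.inl hKt)] at hb2
  have h3 : ENNReal.ofReal (∫ x in E, dv X x) ≤ ENNReal.ofReal b * volume K := by
    rw [mul_comm, ← ENNReal.ofReal_toReal hKt, ← ENNReal.ofReal_mul ENNReal.toReal_nonneg]
    exact ENNReal.ofReal_le_ofReal h2
  exact absurd h3 (not_le.2 hb2)

end Pool.Agent.H776
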