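import Pool.Agent.H776.SBall
import Pool.Agent.H776.HNet3
import Pool.Agent.H776.Body

/-!
# Symmetric polytopes and symmetric convex bodies from Gaussian measures on cubes
-/

set_option autoImplicit false

namespace Pool.Agent.H776

open MeasureTheory Set Filter Topology
open scoped ENNReal InnerProductSpace

section emb

variable {κ : Type} [Fintype κ]

/-- **linear images in larger spaces which are nearly homothetic** -/
theorem KP.of_emb {μ : Measure (Eu κ)} [IsProbabilityMeasure μ] {D : ℝ} (hD : 0 ≤ D)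
    {τ : ℕ → Type} [∀ M, Fintype (τ M)] (L : ∀ M, Eu κ →L[ℝ] Eu (τ M))
    (T : ∀ M, Eu (τ M) →L[ℝ] Eu κ) (c : ℝ) (hTL : ∀ M, 0 < M → ∀ x, T M (L M x) = x)
    (hT : ∀ M : ℕ, 0 < M → ‖T M‖ ^ 2 ≤ 1 / (M : ℝ)) (hL : ∀ M : ℕ, 0 < M → ‖L M‖ ^ 2 ≤ M + c)
    (H : ∀ M, 0 < M → KP (μ.map (L M)) D) : KP μ D := by
  intro s hs hcov f B Lf hf
  set I := ∫ x, ‖fderiv ℝ f x‖ ^ 2 ∂μ with hI
  have hI0 : 0 ≤ I := integral_nonneg fun x => sq_nonneg _
  have hLf : 0 ≤ Lf := (norm_nonneg _).trans (hf.grad 0)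
  have key : ∀ M : ℕ, 0 < M → (∫ x, f x ^ 2 ∂μ) - (∫ x, f x ∂μ) ^ 2 ≤
      D * s * I * (((M : ℝ) + c) * (M : ℝ)⁻¹) := by
    intro M hM
    have hM' : (0 : ℝ) < M := by exact_mod_cast hM
    have hMc : 0 ≤ (M : ℝ) + c := (sq_nonneg _).trans (hL M hM)
    have hLm : Measurable (L M) := (L M).continuous.measurable
    have hpr : IsProbabilityMeasure (μ.map (L M)) := Measure.isProbabilityMeasure_map hLm.aemeasurable
    have hdf : Differentiable ℝ f := hf.diff.differentiable one_ne_zero
    have hfd : ∀ y, fderiv ℝ (fun y => f (T M y)) y = (fderiv ℝ f (T M y)).comp (T M) := by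
      intro y
      have h1 := (hdf (T M y)).hasFDerivAt.comp y (T M).hasFDerivAt
      exact h1.fderiv
    have hF : Tst (fun y => f (T M y)) B (Lf * ‖T M‖) := by
      refine ⟨hf.diff.comp (T M).contDiff, fun y => hf.bdd _, fun y => ?_⟩
      rw [hfd]
      exact (ContinuousLinearMap.opNorm_comp_le _ _).trans
        (mul_le_mul_of_nonneg_right (hf.grad _) (norm_nonneg _))
    have hc0 : 0 < s * ((M : ℝ) + |c|) := by positivity
    -- the covariances
    have hcov' : ∀ ε : ℝ, 0 < ε → CovLe (μ.map (L M)) (s * ((M : ℝ) + c) + ε) := by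
      intro ε hε θ hθ
      rw [ProbabilityTheory.variance_map (by fun_prop) hLm.aemeasurable]
      have e : ((fun x : Eu (τ M) => ⟪x, θ⟫_ℝ) ∘ L M) =
          fun x => ⟪x, ContinuousLinearMap.adjoint (L M) θ⟫_ℝ := by
        funext x
        rw [Function.comp_apply, ContinuousLinearMap.adjoint_inner_right]
      rw [e]
      refine (var_le_scale hcov _).trans ?_
      have h1 : ‖ContinuousLinearMap.adjoint (L M) θ‖ ≤ ‖L M‖ := by
        refine (ContinuousLinearMap.le_opNorm _ _).trans ?_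
        rw [hθ, mul_one, LinearIsometryEquiv.norm_map]
      have h2 := pow_le_pow_left₀ (norm_nonneg _) h1 2
      have h3 := hL M hM
      nlinarith
    have h4 : ∀ ε : ℝ, 0 < ε → (∫ x, f x ^ 2 ∂μ) - (∫ x, f x ∂μ) ^ 2 ≤
        D * (s * ((M : ℝ) + c) + ε) * (I * (M : ℝ)⁻¹) := by
      intro ε hε
      have h5 := H M hM (s * ((M : ℝ) + c) + ε) (by positivity) (hcov' ε hε) _ _ _ hF
      have hfc : Continuous fun y => f (T M y) := hf.diff.continuous.comp (T M).continuous
      have hf2 : AEStronglyMeasurable (fun x => f (T M x) ^ 2) (μ.map (L M)) :=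
        (hfc.pow 2).aestronglyMeasurable
      rw [integral_map hLm.aemeasurable hf2,
        integral_map hLm.aemeasurable hfc.aestronglyMeasurable, integral_map hLm.aemeasurable (by
          have h6 : Continuous fun y => ‖fderiv ℝ (fun y => f (T M y)) y‖ ^ 2 :=
            ((hF.diff.continuous_fderiv one_ne_zero).norm).pow 2
          exact h6.aestronglyMeasurable)] at h5
      simp only [hTL M hM] at h5
      refine h5.trans (mul_le_mul_of_nonneg_left ?_ (by positivity))
      rw [hI, ← integral_mul_const]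
      refine integral_mono_of_nonneg (Eventually.of_forall fun x => by positivity) ?_
        (Eventually.of_forall fun x => ?_)
      · refine Integrable.mul_const ?_ _
        have hc : Continuous fun x => ‖fderiv ℝ f x‖ ^ 2 :=
          ((hf.diff.continuous_fderiv one_ne_zero).norm).pow 2
        refine Integrable.of_bound hc.aestronglyMeasurable (Lf ^ 2) (Eventually.of_forall fun x => ?_)
        rw [Real.norm_of_nonneg (by positivity)]
        exact pow_le_pow_left₀ (norm_nonneg _) (hf.grad x) 2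
      · simp only
        rw [hfd, hTL M hM]
        have h6 := pow_le_pow_left₀ (norm_nonneg _)
          (ContinuousLinearMap.opNorm_comp_le (fderiv ℝ f x) (T M)) 2
        rw [mul_pow] at h6
        refine h6.trans (mul_le_mul_of_nonneg_left ?_ (sq_nonneg _))
        rw [← one_div]
        exact hT M hM
    refine le_of_forall_pos_le_add fun η hη => ?_
    set W := D * (I * (M : ℝ)⁻¹) with hW
    have hW0 : 0 ≤ W := by positivity
    have h5 := h4 (η / (W + 1)) (by positivity)
    have h6 : W * (η / (W + 1)) ≤ η := by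
      rw [mul_div_assoc', div_le_iff₀ (by positivity)]
      nlinarith
    calc _ ≤ _ := h5
      _ = D * s * I * (((M : ℝ) + c) * (M : ℝ)⁻¹) + W * (η / (W + 1)) := by
          rw [hW]
          ring
      _ ≤ _ := by linarith
  have hlim : Tendsto (fun M : ℕ => D * s * I * (((M : ℝ) + c) * (M : ℝ)⁻¹)) atTop
      (𝓝 (D * s * I * 1)) := by
    refine Tendsto.const_mul _ ?_
    have h1 : Tendsto (fun M : ℕ => 1 + c * (M : ℝ)⁻¹) atTop (𝓝 (1 + c * 0)) :=
      (tendsto_inv_atTop_nhds_zero_nat.const_mul c).const_add 1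
    rw [mul_zero, add_zero] at h1
    refine h1.congr' ?_
    filter_upwards [eventually_gt_atTop 0] with M hM
    have hM' : (M : ℝ) ≠ 0 := by exact_mod_cast hM.ne'
    field_simp
  rw [mul_one] at hlim
  exact ge_of_tendsto hlim (by
    filter_upwards [eventually_gt_atTop 0] with M hM
    exact key M hM)

end emb

section poly

variable {κ J : Type} [Fintype κ] [Fintype J] (B : Matrix J κ ℝ)

/-- the polytope -/
def PX : Set (Eu κ) := {x | (∀ i, |x i| ≤ 1) ∧ ∀ j, |∑ i, B j i * x i| ≤ 1}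

/-- the embedding -/
noncomputable def Bg : Eu κ →L[ℝ] Eu (κ ⊕ J) :=
  LinearMap.toContinuousLinearMap
    { toFun := fun x => WithLp.toLp 2 (Sum.elim x fun j => ∑ i, B j i * x i)
      map_add' := fun x y => by
        ext v
        rcases v with i | j
        · rfl
        · change ∑ i, B j i * (x i + y i) = (∑ i, B j i * x i) + ∑ i, B j i * y i
          simp only [mul_add, Finset.sum_add_distrib]
      map_smul' := fun r x => by
        ext v
        rcases v with i | j
        · rfl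
        · change ∑ i, B j i * (r * x i) = r * ∑ i, B j i * x i
          rw [Finset.mul_sum]
          exact Finset.sum_congr rfl fun i _ => by ring }

theorem Bg_inl (x : Eu κ) (i : κ) : Bg B x (Sum.inl i) = x i := rfl

theorem Bg_inr (x : Eu κ) (j : J) : Bg B x (Sum.inr j) = ∑ i, B j i * x i := rfl

theorem PX_closed : IsClosed (PX B) := by
  have h2 : IsClosed {x : Eu κ | ∀ j, |∑ i, B j i * x i| ≤ 1} := by
    rw [ofPred_forall]
    exact isClosed_iInter fun j => isClosed_le (by fun_prop) continuous_const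
  exact cub_closed.inter h2

theorem PX_compact : IsCompact (PX B) := cub_compact.of_isClosed_subset (PX_closed B) fun _ h => h.1

theorem PX_interior : (0 : Eu κ) ∈ interior (PX B) := by
  rw [mem_interior]
  refine ⟨{x | (∀ i, |x i| < 1) ∧ ∀ j, |∑ i, B j i * x i| < 1}, fun x hx =>
    ⟨fun i => (hx.1 i).le, fun j => (hx.2 j).le⟩, ?_, fun i => by simp, fun j => by simp⟩
  have h1 : IsOpen {y : Eu κ | ∀ i, |y i| < 1} := by
    rw [ofPred_forall]
    exact isOpen_iInter_of_finite fun i => isOpen_lt (by fun_prop) continuous_const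
  have h2 : IsOpen {y : Eu κ | ∀ j, |∑ i, B j i * y i| < 1} := by
    rw [ofPred_forall]
    exact isOpen_iInter_of_finite fun i => isOpen_lt (by fun_prop) continuous_const
  exact h1.inter h2

theorem PX_wt : Wt ((PX B).indicator fun _ => (1 : ℝ)) := wt_ind (PX_compact B) ⟨0, PX_interior B⟩

/-- the change of variables -/
noncomputable def en' {n : ℕ} (hn : n ≠ 0) : (Eu κ × Eu J) ≃L[ℝ] Eu (κ ⊕ J) :=
  eh B 1 (n : ℝ)⁻¹ one_ne_zero (inv_ne hn)

/-- the quadratic forms -/
noncomputable def An {n : ℕ} (hn : n ≠ 0) : Eu (κ ⊕ J) →ₗ[ℝ] Eu (κ ⊕ J) :=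
  mkE.toLinearMap ∘ₗ (LinearMap.prodMap ((n : ℝ)⁻¹ • LinearMap.id) LinearMap.id) ∘ₗ
    (en' B hn).symm.toLinearMap

theorem An_apply {n : ℕ} (hn : n ≠ 0) (p : Eu κ × Eu J) :
    An B hn (en' B hn p) = mk ((n : ℝ)⁻¹ • p.1) p.2 := by
  have h : (en' B hn).symm (en' B hn p) = p := ContinuousLinearEquiv.symm_apply_apply _ _
  change mk ((n : ℝ)⁻¹ • ((en' B hn).symm (en' B hn p)).1) ((en' B hn).symm (en' B hn p)).2 = _
  rw [h]

theorem An_inj {n : ℕ} (hn : n ≠ 0) : Function.Injective (An B hn) := by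
  have hn' : (n : ℝ)⁻¹ ≠ 0 := inv_ne hn
  rw [← LinearMap.ker_eq_bot, LinearMap.ker_eq_bot']
  intro y hy
  obtain ⟨p, rfl⟩ := (en' B hn).surjective y
  rw [An_apply] at hy
  have h1 : (n : ℝ)⁻¹ • p.1 = 0 := by
    have : pl (mk ((n : ℝ)⁻¹ • p.1) p.2) = 0 := by rw [hy]; rfl
    exact this
  have h2 : p.2 = 0 := by
    have : pr (mk ((n : ℝ)⁻¹ • p.1) p.2) = 0 := by rw [hy]; rfl
    exact this
  have h3 : p.1 = 0 := (smul_eq_zero.1 h1).resolve_left hn'
  rw [show p = 0 from Prod.ext h3 h2, map_zero]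

theorem en_inl {n : ℕ} (hn : n ≠ 0) (p : Eu κ × Eu J) (i : κ) : en' B hn p (Sum.inl i) = p.1 i := by
  change 1 * p.1 i = p.1 i
  rw [one_mul]

theorem en_inr {n : ℕ} (hn : n ≠ 0) (p : Eu κ × Eu J) (j : J) :
    en' B hn p (Sum.inr j) = (∑ i, B j i * p.1 i) + (n : ℝ)⁻¹ * p.2 j := by
  change 1 * (∑ i, B j i * p.1 i) + (n : ℝ)⁻¹ * p.2 j = _
  rw [one_mul]

/-- the approximating densities in the variables `(x, u)` -/
noncomputable def wn (n : ℕ) (p : Eu κ × Eu J) : ℝ := by
  classical
  exact if hn : n ≠ 0 then gcl (An B hn) (en' B hn p) else 0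

theorem wn_eq {n : ℕ} (hn : n ≠ 0) (p : Eu κ × Eu J) :
    wn B n p = gcl (An B hn) (en' B hn p) := by
  unfold wn
  rw [dif_pos hn]

theorem wn_nonneg (n : ℕ) (p : Eu κ × Eu J) : 0 ≤ wn B n p := by
  unfold wn
  split_ifs
  · exact gcl_nonneg _
  · exact le_rfl

theorem wn_val {n : ℕ} (hn : n ≠ 0) (p : Eu κ × Eu J) (h : en' B hn p ∈ cub (κ ⊕ J)) :
    wn B n p = Real.exp (-(((n : ℝ)⁻¹ ^ 2 * ‖p.1‖ ^ 2 + ‖p.2‖ ^ 2) / 2)) := by
  rw [wn_eq B hn]
  unfold gcl
  rw [if_pos (show ∀ i, |en' B hn p i| ≤ 1 from h), An_apply, norm_mk_sq, norm_smul, mul_pow,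
    norm_inv, Real.norm_of_nonneg (Nat.cast_nonneg n)]

theorem wn_zero {n : ℕ} (hn : n ≠ 0) (p : Eu κ × Eu J) (h : en' B hn p ∉ cub (κ ⊕ J)) :
    wn B n p = 0 := by
  rw [wn_eq B hn]
  unfold gcl
  rw [if_neg (show ¬ ∀ i, |en' B hn p i| ≤ 1 from h)]

theorem wn_meas (n : ℕ) : Measurable (wn B n) := by
  rcases Decidable.em (n ≠ 0) with hn | hn
  · have e : wn B n = fun p => gcl (An B hn) (en' B hn p) := funext fun p => wn_eq B hn p
    rw [e]
    exact gcl_meas.comp (en' B hn).continuous.measurable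
  · have e : wn B n = fun _ => 0 := by
      funext p
      unfold wn
      rw [dif_neg hn]
    rw [e]
    exact measurable_const

/-- the Gaussian weight -/
noncomputable def gu (u : Eu J) : ℝ := Real.exp (-(‖u‖ ^ 2 / 2))

theorem gu_int : Integrable (gu : Eu J → ℝ) := by
  have h1 := (mom_shift (A := (LinearMap.id : Eu J →ₗ[ℝ] Eu J)) (b := (0 : Eu J)) one_pos
    (fun x => by simp) 0).1
  simp only [smul_zero, sub_zero, LinearMap.id_apply] at h1
  refine h1.mono' (by unfold gu; fun_prop) (Eventually.of_forall fun u => ?_)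
  unfold gu
  rw [Real.norm_of_nonneg (Real.exp_pos _).le]
  exact le_mul_of_one_le_left (Real.exp_pos _).le (by have := sq_nonneg ‖u‖; linarith)

theorem gu_pos : 0 < ∫ u : Eu J, gu u := by
  rw [integral_pos_iff_support_of_nonneg (f := (gu : Eu J → ℝ)) (fun u => (Real.exp_pos _).le) gu_int]
  have e : Function.support (gu : Eu J → ℝ) = univ :=
    eq_univ_of_forall fun w => (Real.exp_pos _).ne'
  rw [e]
  exact isOpen_univ.measure_pos volume univ_nonempty

theorem wn_le {n : ℕ} (hn : n ≠ 0) (p : Eu κ × Eu J) :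
    wn B n p ≤ (cub κ).indicator (fun _ => (1 : ℝ)) p.1 * gu p.2 := by
  by_cases h : en' B hn p ∈ cub (κ ⊕ J)
  · have h1 : p.1 ∈ cub κ := fun i => by
      have := h (Sum.inl i)
      rwa [en_inl] at this
    rw [wn_val B hn p h, indicator_of_mem h1, one_mul]
    unfold gu
    refine Real.exp_le_exp.2 ?_
    have : 0 ≤ (n : ℝ)⁻¹ ^ 2 * ‖p.1‖ ^ 2 := by positivity
    linarith
  · rw [wn_zero B hn p h]
    exact mul_nonneg (indicator_nonneg (fun _ _ => zero_le_one) _) (Real.exp_pos _).le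

theorem plane_null {b : κ → ℝ} {c : ℝ} (hc : c ≠ 0) :
    volume {x : Eu κ | ∑ i, b i * x i = c} = 0 := by
  let S : AffineSubspace ℝ (Eu κ) :=
    { carrier := {x | ∑ i, b i * x i = c}
      smul_vsub_vadd_mem' := fun r p₁ p₂ p₃ h1 h2 h3 => by
        change ∑ i, b i * (r * (p₁ i - p₂ i) + p₃ i) = c
        have h1' : ∑ i, b i * p₁ i = c := h1
        have h2' : ∑ i, b i * p₂ i = c := h2
        have h3' : ∑ i, b i * p₃ i = c := h3
        have e : ∑ i, b i * (r * (p₁ i - p₂ i) + p₃ i) =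
            r * ((∑ i, b i * p₁ i) - ∑ i, b i * p₂ i) + ∑ i, b i * p₃ i := by
          rw [← Finset.sum_sub_distrib, Finset.mul_sum, ← Finset.sum_add_distrib]
          exact Finset.sum_congr rfl fun i _ => by ring
        rw [e, h1', h2', h3']
        ring }
  have hS : S ≠ ⊤ := by
    intro h
    have h0 : (0 : Eu κ) ∈ S := by rw [h]; exact AffineSubspace.mem_top ℝ _ _
    have h1 : ∑ i, b i * (0 : Eu κ) i = c := h0
    simp at h1
    exact hc h1.symm
  exact Measure.addHaar_affineSubspace volume S hS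

theorem wn_lim {φ : Eu (κ ⊕ J) → ℝ} (hφ : Continuous φ) : ∀ᵐ p : Eu κ × Eu J,
    Tendsto (fun n : ℕ => (if hn : n ≠ 0 then φ (en' B hn p) else 0) * wn B n p) atTop
      (𝓝 ((φ (Bg B p.1) * (PX B).indicator (fun _ => (1 : ℝ)) p.1) * gu p.2)) := by
  classical
  have h0 : ∀ᵐ x : Eu κ, ∀ j, |∑ i, B j i * x i| ≠ 1 := by
    rw [ae_all_iff]
    intro j
    rw [ae_iff]
    have h1 := plane_null (κ := κ) (b := B j) (c := 1) one_ne_zero
    have h2 := plane_null (κ := κ) (b := B j) (c := -1) (by norm_num)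
    refine measure_mono_null (fun x hx => ?_) (measure_union_null h1 h2)
    have h3 : |∑ i, B j i * x i| = 1 := by simpa using hx
    rcases (abs_eq zero_le_one).1 h3 with h | h
    · exact Or.inl h
    · exact Or.inr h
  have h1 : ∀ᵐ p : Eu κ × Eu J, ∀ j, |∑ i, B j i * p.1 i| ≠ 1 :=
    Measure.quasiMeasurePreserving_fst.ae h0
  filter_upwards [h1] with p hp
  have hr0 : Tendsto (fun n : ℕ => (n : ℝ)⁻¹) atTop (𝓝 0) := tendsto_inv_atTop_nhds_zero_nat
  have hco : ∀ j, Tendsto (fun n : ℕ => |(∑ i, B j i * p.1 i) + (n : ℝ)⁻¹ * p.2 j|) atTop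
      (𝓝 |∑ i, B j i * p.1 i|) := fun j => by
    have := ((hr0.mul_const (p.2 j)).const_add (∑ i, B j i * p.1 i)).abs
    simpa using this
  by_cases hx : p.1 ∈ PX B
  · rw [indicator_of_mem hx, mul_one]
    have hev : ∀ᶠ n : ℕ in atTop, ∀ j, |(∑ i, B j i * p.1 i) + (n : ℝ)⁻¹ * p.2 j| ≤ 1 := by
      rw [eventually_all]
      intro j
      have h2 := (hco j).eventually (gt_mem_nhds (lt_of_le_of_ne (hx.2 j) (hp j)))
      exact h2.mono fun n hn => hn.le
    have hlim1 : Tendsto (fun n : ℕ => Real.exp (-(((n : ℝ)⁻¹ ^ 2 * ‖p.1‖ ^ 2 + ‖p.2‖ ^ 2) / 2)))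
        atTop (𝓝 (gu p.2)) := by
      have h2 : Continuous fun r : ℝ => Real.exp (-((r ^ 2 * ‖p.1‖ ^ 2 + ‖p.2‖ ^ 2) / 2)) := by
        fun_prop
      have h3 := (h2.tendsto 0).comp hr0
      have e : Real.exp (-(((0 : ℝ) ^ 2 * ‖p.1‖ ^ 2 + ‖p.2‖ ^ 2) / 2)) = gu p.2 := by
        unfold gu
        congr 2
        ring
      rw [e] at h3
      exact h3
    have hlim2 : Tendsto (fun n : ℕ => φ (Bg B p.1 + (n : ℝ)⁻¹ • mk 0 p.2)) atTop
        (𝓝 (φ (Bg B p.1))) := by
      have h2 : Continuous fun r : ℝ => φ (Bg B p.1 + r • mk 0 p.2) := by fun_prop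
      have h3 := (h2.tendsto 0).comp hr0
      rw [zero_smul, add_zero] at h3
      exact h3
    refine (hlim2.mul hlim1).congr' ?_
    filter_upwards [eventually_ne_atTop 0, hev] with n hn h2
    rw [dif_pos hn]
    have h3 : en' B hn p = Bg B p.1 + (n : ℝ)⁻¹ • mk 0 p.2 := by
      ext v
      rcases v with i | j
      · rw [en_inl]
        change p.1 i = p.1 i + (n : ℝ)⁻¹ * 0
        ring
      · rw [en_inr]
        rfl
    have h4 : en' B hn p ∈ cub (κ ⊕ J) := by
      intro v
      rcases v with i | j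
      · rw [en_inl]
        exact hx.1 i
      · rw [en_inr]
        exact h2 j
    rw [wn_val B hn p h4, h3]
  · rw [indicator_of_notMem hx, mul_zero, zero_mul]
    have hev : ∀ᶠ n : ℕ in atTop, ∀ hn : n ≠ 0, en' B hn p ∉ cub (κ ⊕ J) := by
      by_cases h2 : ∀ i, |p.1 i| ≤ 1
      · have h3 : ∃ j, 1 < |∑ i, B j i * p.1 i| := by
          by_contra h4
          push Not at h4
          exact hx ⟨h2, h4⟩
        obtain ⟨j, hj⟩ := h3
        filter_upwards [(hco j).eventually (lt_mem_nhds hj)] with n h4 hn h5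
        have h6 := h5 (Sum.inr j)
        rw [en_inr] at h6
        linarith
      · refine Eventually.of_forall fun n hn h3 => h2 fun i => ?_
        have h4 := h3 (Sum.inl i)
        rwa [en_inl] at h4
    refine tendsto_const_nhds.congr' ?_
    filter_upwards [eventually_ne_atTop 0, hev] with n hn h2
    rw [wn_zero B hn p (h2 hn), mul_zero]

theorem wn_intlim {φ : Eu (κ ⊕ J) → ℝ} (hφ : Grow φ) :
    Tendsto (fun n : ℕ => ∫ p : Eu κ × Eu J, (if hn : n ≠ 0 then φ (en' B hn p) else 0) * wn B n p)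
      atTop (𝓝 ((∫ x, φ (Bg B x) * (PX B).indicator (fun _ => (1 : ℝ)) x) * ∫ u : Eu J, gu u)) := by
  classical
  obtain ⟨hc, Bφ, hB⟩ := hφ
  have e1 : (∫ x, φ (Bg B x) * (PX B).indicator (fun _ => (1 : ℝ)) x) * ∫ u : Eu J, gu u =
      ∫ p : Eu κ × Eu J, (φ (Bg B p.1) * (PX B).indicator (fun _ => (1 : ℝ)) p.1) * gu p.2 := by
    rw [← integral_prod_mul (fun x => φ (Bg B x) * (PX B).indicator (fun _ => (1 : ℝ)) x) gu]
    rfl
  rw [e1]
  have hint : Integrable (fun p : Eu κ × Eu J => |Bφ| * (1 + Fintype.card (κ ⊕ J)) *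
      ((cub κ).indicator (fun _ => (1 : ℝ)) p.1 * gu p.2)) :=
    ((wt_cub.integrable.mul_prod gu_int)).const_mul _
  refine tendsto_integral_of_dominated_convergence _ (fun n => ?_) hint (fun n => ?_) (wn_lim B hc)
  · rcases Decidable.em (n ≠ 0) with hn | hn
    · simp only [dif_pos hn]
      exact ((hc.comp (en' B hn).continuous).aestronglyMeasurable).mul
        (wn_meas B n).aestronglyMeasurable
    · simp only [dif_neg hn, zero_mul]
      exact aestronglyMeasurable_const
  · refine Eventually.of_forall fun p => ?_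
    rcases Decidable.em (n ≠ 0) with hn | hn
    · rw [dif_pos hn]
      by_cases h : en' B hn p ∈ cub (κ ⊕ J)
      · rw [Real.norm_eq_abs, abs_mul, abs_of_nonneg (wn_nonneg B n p)]
        refine mul_le_mul ?_ (wn_le B hn p) (wn_nonneg B n p) (by positivity)
        refine (hB _).trans ?_
        have h1 := cub_norm h
        calc Bφ * (1 + ‖en' B hn p‖ ^ 2) ≤ |Bφ| * (1 + ‖en' B hn p‖ ^ 2) :=
              mul_le_mul_of_nonneg_right (le_abs_self _) (by positivity)
          _ ≤ _ := mul_le_mul_of_nonneg_left (by linarith) (abs_nonneg _)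
      · rw [wn_zero B hn p h, mul_zero, norm_zero]
        exact mul_nonneg (by positivity)
          (mul_nonneg (indicator_nonneg (fun _ _ => zero_le_one) _) (Real.exp_pos _).le)
    · rw [dif_neg hn, zero_mul, norm_zero]
      exact mul_nonneg (by positivity)
        (mul_nonneg (indicator_nonneg (fun _ _ => zero_le_one) _) (Real.exp_pos _).le)

/-- **symmetric polytopes in larger spaces from Gaussian measures on cubes** -/
theorem kp_emb {D : ℝ} (hD : 0 ≤ D)
    (H : ∀ (κ' F' : Type) [Fintype κ'] [Fintype F'] (A : Eu κ' →ₗ[ℝ] Eu F'), Function.Injective A →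
      KP (nm (gcl A)) D) :
    KP ((nm ((PX B).indicator fun _ => (1 : ℝ))).map (Bg B)) D := by
  classical
  have hw := PX_wt B
  have hpr := hw.prob
  have hBm : Measurable (Bg B) := (Bg B).continuous.measurable
  have hpr' : IsProbabilityMeasure ((nm ((PX B).indicator fun _ => (1 : ℝ))).map (Bg B)) :=
    Measure.isProbabilityMeasure_map hBm.aemeasurable
  have hsq : Integrable (fun x => ‖x‖ ^ 2)
      ((nm ((PX B).indicator fun _ => (1 : ℝ))).map (Bg B)) := by
    rw [integrable_map_measure (by fun_prop) hBm.aemeasurable]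
    refine (hw.int_sq.const_mul (‖Bg B‖ ^ 2)).mono' (by fun_prop) (Eventually.of_forall fun x => ?_)
    simp only [Function.comp_apply]
    rw [Real.norm_of_nonneg (by positivity), ← mul_pow]
    exact pow_le_pow_left₀ (norm_nonneg _) ((Bg B).le_opNorm x) 2
  refine KP.lim (l := (atTop : Filter ℕ)) (m := fun n => if hn : n ≠ 0 then nm (gcl (An B hn)) else
    (nm ((PX B).indicator fun _ => (1 : ℝ))).map (Bg B)) ⟨?_, ?_, hsq, fun φ hφ => ?_⟩ hD ?_
  · filter_upwards [eventually_ne_atTop 0] with n hn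
    rw [dif_pos hn]
    exact wt_gcl.prob
  · filter_upwards [eventually_ne_atTop 0] with n hn
    rw [dif_pos hn]
    exact wt_gcl.int_sq
  · have h1 := (wn_intlim B hφ).div (wn_intlim B (φ := fun _ => 1)
      (grow_bdd continuous_const (B := 1) (by simp))) (by
        simp only [one_mul]
        exact (mul_pos hw.pos gu_pos).ne')
    simp only [one_mul] at h1
    rw [mul_div_mul_right _ _ gu_pos.ne'] at h1
    rw [integral_map hBm.aemeasurable hφ.1.aestronglyMeasurable, integral_nm hw.nonneg hw.meas]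
    refine h1.congr' ?_
    filter_upwards [eventually_ne_atTop 0] with n hn
    rw [Pi.div_apply]
    simp only [dif_pos hn, one_mul]
    have := vol_haar κ J
    rw [integral_nm wt_gcl.nonneg wt_gcl.meas, integral_quot
      (volume : Measure (Eu κ × Eu J)) volume (en' B hn) 0]
    simp only [add_zero, wn_eq B hn]
  · filter_upwards [eventually_ne_atTop 0] with n hn
    rw [dif_pos hn]
    exact H _ _ _ (An_inj B hn)

end poly

end Pool.Agent.H776
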