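import Pool.Agent.H776.Scale
import Pool.Agent.H776.Cheeger

/-!
# From sets of measure one half to all sets: products
-/

set_option autoImplicit false

namespace Pool.Agent.H776

open MeasureTheory Set Filter Topology
open scoped ENNReal NNReal InnerProductSpace

section words

/-- polynomials of iterated unions and intersections of independent copies -/
def gw : List Bool → ℝ → ℝ
  | [], _ => 0
  | true :: w, x => x + (1 - x) * gw w x
  | false :: w, x => x * gw w x

theorem gw_range (w : List Bool) {x : ℝ} (h0 : 0 ≤ x) (h1 : x ≤ 1) : 0 ≤ gw w x ∧ gw w x ≤ 1 := by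
  induction w with
  | nil => exact ⟨le_rfl, zero_le_one⟩
  | cons b w ih =>
    obtain ⟨i1, i2⟩ := ih
    cases b
    · show 0 ≤ x * gw w x ∧ x * gw w x ≤ 1
      exact ⟨mul_nonneg h0 i1, mul_le_one₀ h1 i1 i2⟩
    · show 0 ≤ x + (1 - x) * gw w x ∧ x + (1 - x) * gw w x ≤ 1
      exact ⟨by nlinarith, by nlinarith⟩

theorem gw_lip (w : List Bool) {m p x : ℝ} (hm : 0 < m) (hmp : m ≤ p) (hpx : p ≤ x)
    (hmx : m ≤ 1 - x) : gw w x - gw w p ≤ (x - p) / m := by
  have hx1 : x ≤ 1 := by linarith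
  have hp0 : 0 ≤ p := by linarith
  have hq : 0 ≤ (x - p) / m := div_nonneg (by linarith) hm.le
  have hq2 : x - p = m * ((x - p) / m) := by field_simp
  induction w with
  | nil => show (0 : ℝ) - 0 ≤ _; linarith
  | cons b w ih =>
    obtain ⟨i1, i2⟩ := gw_range w hp0 (hpx.trans hx1)
    obtain ⟨j1, j2⟩ := gw_range w (hp0.trans hpx) hx1
    set q := (x - p) / m
    cases b
    · show x * gw w x - p * gw w p ≤ q
      have e : x * gw w x - p * gw w p = (x - p) * gw w x + p * (gw w x - gw w p) := by ring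
      rw [e]
      have h1 : (x - p) * gw w x ≤ m * q := by
        rw [← hq2]
        exact mul_le_of_le_one_right (by linarith) j2
      have h2 : p * (gw w x - gw w p) ≤ p * q := mul_le_mul_of_nonneg_left ih hp0
      nlinarith
    · show x + (1 - x) * gw w x - (p + (1 - p) * gw w p) ≤ q
      have e : x + (1 - x) * gw w x - (p + (1 - p) * gw w p) =
          (x - p) * (1 - gw w p) + (1 - x) * (gw w x - gw w p) := by ring
      rw [e]
      have h1 : (x - p) * (1 - gw w p) ≤ m * q := by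
        rw [← hq2]
        exact mul_le_of_le_one_right (by linarith) (by linarith)
      have h2 : (1 - x) * (gw w x - gw w p) ≤ (1 - x) * q :=
        mul_le_mul_of_nonneg_left ih (by linarith)
      nlinarith

theorem gw_dense {p : ℝ} (h0 : 0 < p) (h1 : p < 1) (k : ℕ) : ∀ t : ℝ, 0 ≤ t → t ≤ 1 →
    ∃ w, gw w p ≤ t ∧ t ≤ gw w p + max p (1 - p) ^ k := by
  induction k with
  | zero =>
    intro t ht0 ht1
    exact ⟨[], ht0, by rw [pow_zero]; show t ≤ 0 + 1; linarith⟩
  | succ k ih =>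
    intro t ht0 ht1
    have hM1 : p ≤ max p (1 - p) := le_max_left _ _
    have hM2 : 1 - p ≤ max p (1 - p) := le_max_right _ _
    set M := max p (1 - p)
    have hM0 : 0 ≤ M ^ k := pow_nonneg (by linarith) k
    rcases le_total p t with h | h
    · obtain ⟨w, hw1, hw2⟩ := ih ((t - p) / (1 - p)) (div_nonneg (by linarith) (by linarith))
        ((div_le_one (by linarith)).2 (by linarith))
      have e : t = p + (1 - p) * ((t - p) / (1 - p)) := by
        have : 1 - p ≠ 0 := by linarith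
        field_simp
        ring
      refine ⟨true :: w, ?_, ?_⟩
      · show p + (1 - p) * gw w p ≤ t
        have := mul_le_mul_of_nonneg_left hw1 (by linarith : 0 ≤ 1 - p)
        linarith
      · show t ≤ p + (1 - p) * gw w p + M ^ (k + 1)
        have h2 := mul_le_mul_of_nonneg_left hw2 (by linarith : 0 ≤ 1 - p)
        have h3 : (1 - p) * M ^ k ≤ M * M ^ k := mul_le_mul_of_nonneg_right hM2 hM0
        rw [pow_succ']
        linarith
    · obtain ⟨w, hw1, hw2⟩ := ih (t / p) (div_nonneg ht0 h0.le) ((div_le_one h0).2 h)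
      have e : t = p * (t / p) := by field_simp
      refine ⟨false :: w, ?_, ?_⟩
      · show p * gw w p ≤ t
        have := mul_le_mul_of_nonneg_left hw1 h0.le
        linarith
      · show t ≤ p * gw w p + M ^ (k + 1)
        have h2 := mul_le_mul_of_nonneg_left hw2 h0.le
        have h3 : p * M ^ k ≤ M * M ^ k := mul_le_mul_of_nonneg_right hM1 hM0
        rw [pow_succ']
        linarith

end words

section pm

variable {κ κ' : Type} [Fintype κ] [Fintype κ']

theorem cont_mk : Continuous fun p : Eu κ × Eu κ' => mk p.1 p.2 :=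
  (mkE : (Eu κ × Eu κ') ≃ₗ[ℝ] Eu (κ ⊕ κ')).toLinearMap.continuous_of_finiteDimensional

theorem cont_pr : Continuous (pr : Eu (κ ⊕ κ') → Eu κ') := by
  unfold pr
  exact (PiLp.continuous_toLp 2 _).comp (continuous_pi fun i => by fun_prop)

/-- product measure -/
noncomputable def pm (μ : Measure (Eu κ)) (ν : Measure (Eu κ')) : Measure (Eu (κ ⊕ κ')) :=
  (μ.prod ν).map fun p => mk p.1 p.2

variable {μ : Measure (Eu κ)} {ν : Measure (Eu κ')} [IsProbabilityMeasure μ]
  [IsProbabilityMeasure ν]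

instance : IsProbabilityMeasure (pm μ ν) :=
  Measure.isProbabilityMeasure_map cont_mk.measurable.aemeasurable

omit [IsProbabilityMeasure μ] in
theorem pm_and {A : Set (Eu κ)} {B : Set (Eu κ')} (hA : MeasurableSet A) (hB : MeasurableSet B) :
    (pm μ ν).real {z | pl z ∈ A ∧ pr z ∈ B} = μ.real A * ν.real B := by
  have hm : MeasurableSet {z : Eu (κ ⊕ κ') | pl z ∈ A ∧ pr z ∈ B} :=
    (hA.preimage cont_pl.measurable).inter (hB.preimage cont_pr.measurable)
  rw [measureReal_def, pm, Measure.map_apply cont_mk.measurable hm]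
  have e : (fun p : Eu κ × Eu κ' => mk p.1 p.2) ⁻¹' {z | pl z ∈ A ∧ pr z ∈ B} = A ×ˢ B := by
    ext p
    rfl
  rw [e, Measure.prod_prod, ENNReal.toReal_mul]
  rfl

theorem pm_or {A : Set (Eu κ)} {B : Set (Eu κ')} (hA : MeasurableSet A) (hB : MeasurableSet B) :
    (pm μ ν).real {z | pl z ∈ A ∨ pr z ∈ B} = μ.real A + (1 - μ.real A) * ν.real B := by
  have hm : MeasurableSet {z : Eu (κ ⊕ κ') | pl z ∈ A ∨ pr z ∈ B} :=
    (hA.preimage cont_pl.measurable).union (hB.preimage cont_pr.measurable)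
  have e : {z : Eu (κ ⊕ κ') | pl z ∈ A ∨ pr z ∈ B} = {z | pl z ∈ Aᶜ ∧ pr z ∈ Bᶜ}ᶜ := by
    ext z
    simp only [mem_ofPred_eq, mem_compl_iff]
    tauto
  have hm2 : MeasurableSet {z : Eu (κ ⊕ κ') | pl z ∈ Aᶜ ∧ pr z ∈ Bᶜ} :=
    (hA.compl.preimage cont_pl.measurable).inter (hB.compl.preimage cont_pr.measurable)
  rw [e, probReal_compl_eq_one_sub hm2, pm_and hA.compl hB.compl, probReal_compl_eq_one_sub hA,
    probReal_compl_eq_one_sub hB]
  ring

end pm

section trick

variable {κ : Type} [Fintype κ] (𝒢 : ∀ (ι : Type) [Fintype ι], Measure (Eu ι) → Prop)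

/-- `G` is the measure of the image under a construction of sets -/
def RL (μ : Measure (Eu κ)) (G : ℝ → ℝ) : Prop :=
  ∃ (ι : Type) (_ : Fintype ι) (M : Measure (Eu ι)) (S : Set (Eu κ) → Set (Eu ι)),
    𝒢 ι M ∧ (∀ A, MeasurableSet A → MeasurableSet (S A)) ∧
    (∀ A, MeasurableSet A → M.real (S A) = G (μ.real A)) ∧
    ∀ A ε, Metric.thickening ε (S A) ⊆ S (Metric.thickening ε A)

variable {𝒢}

theorem dist_pl {κ κ' : Type} [Fintype κ] [Fintype κ'] (y z : Eu (κ ⊕ κ')) :
    dist (pl y) (pl z) ≤ dist y z := by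
  rw [dist_eq_norm, dist_eq_norm]
  have h := norm_sq_split (y - z)
  have e : pl (y - z) = pl y - pl z := rfl
  rw [e] at h
  exact (sq_le_sq₀ (norm_nonneg _) (norm_nonneg _)).1 (by rw [h]; nlinarith [sq_nonneg ‖pr (y - z)‖])

theorem dist_pr {κ κ' : Type} [Fintype κ] [Fintype κ'] (y z : Eu (κ ⊕ κ')) :
    dist (pr y) (pr z) ≤ dist y z := by
  rw [dist_eq_norm, dist_eq_norm]
  have h := norm_sq_split (y - z)
  have e : pr (y - z) = pr y - pr z := rfl
  rw [e] at h
  exact (sq_le_sq₀ (norm_nonneg _) (norm_nonneg _)).1 (by rw [h]; nlinarith [sq_nonneg ‖pl (y - z)‖])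

theorem rl_gw {μ : Measure (Eu κ)} (hprob : ∀ (ι : Type) [Fintype ι] (M : Measure (Eu ι)),
      𝒢 ι M → IsProbabilityMeasure M)
    (hprod : ∀ (ι ι' : Type) [Fintype ι] [Fintype ι'] (M : Measure (Eu ι)) (M' : Measure (Eu ι')),
      𝒢 ι M → 𝒢 ι' M' → 𝒢 (ι ⊕ ι') (pm M M'))
    (hμ : 𝒢 κ μ) (w : List Bool) : RL 𝒢 μ (gw w) := by
  have hp := hprob κ μ hμ
  induction w with
  | nil =>
    refine ⟨κ, inferInstance, μ, fun _ => ∅, hμ, fun A _ => MeasurableSet.empty, fun A _ => ?_,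
      fun A ε => ?_⟩
    · rw [measureReal_empty]
      rfl
    · rw [Metric.thickening_empty]
  | cons b w ih =>
    obtain ⟨ι, hι, M, S, hM, h1, h2, h3⟩ := ih
    have hpM := hprob ι M hM
    cases b
    · refine ⟨κ ⊕ ι, inferInstance, pm μ M, fun A => {z | pl z ∈ A ∧ pr z ∈ S A},
        hprod κ ι μ M hμ hM, fun A hA => ?_, fun A hA => ?_, fun A ε z hz => ?_⟩
      · exact (hA.preimage cont_pl.measurable).inter ((h1 A hA).preimage cont_pr.measurable)
      · rw [pm_and hA (h1 A hA), h2 A hA]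
        rfl
      · obtain ⟨y, hy, hd⟩ := Metric.mem_thickening_iff.1 hz
        exact ⟨Metric.mem_thickening_iff.2 ⟨pl y, hy.1, (dist_pl z y).trans_lt hd⟩,
          h3 A ε (Metric.mem_thickening_iff.2 ⟨pr y, hy.2, (dist_pr z y).trans_lt hd⟩)⟩
    · refine ⟨κ ⊕ ι, inferInstance, pm μ M, fun A => {z | pl z ∈ A ∨ pr z ∈ S A},
        hprod κ ι μ M hμ hM, fun A hA => ?_, fun A hA => ?_, fun A ε z hz => ?_⟩
      · exact (hA.preimage cont_pl.measurable).union ((h1 A hA).preimage cont_pr.measurable)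
      · rw [pm_or hA (h1 A hA), h2 A hA]
        rfl
      · obtain ⟨y, hy, hd⟩ := Metric.mem_thickening_iff.1 hz
        rcases hy with hy | hy
        · exact Or.inl (Metric.mem_thickening_iff.2 ⟨pl y, hy, (dist_pl z y).trans_lt hd⟩)
        · exact Or.inr (h3 A ε (Metric.mem_thickening_iff.2 ⟨pr y, hy, (dist_pr z y).trans_lt hd⟩))

/-- **from sets of measure almost one half to all sets**, for a class of measures closed under
products -/
theorem iso_of_near (hprob : ∀ (ι : Type) [Fintype ι] (M : Measure (Eu ι)),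
      𝒢 ι M → IsProbabilityMeasure M)
    (hprod : ∀ (ι ι' : Type) [Fintype ι] [Fintype ι'] (M : Measure (Eu ι)) (M' : Measure (Eu ι')),
      𝒢 ι M → 𝒢 ι' M' → 𝒢 (ι ⊕ ι') (pm M M'))
    {h : ℝ} (near : ∀ η : ℝ, 0 < η → ∃ δ > 0, ∀ (ι : Type) [Fintype ι] (M : Measure (Eu ι)),
      𝒢 ι M → ∀ T : Set (Eu ι), MeasurableSet T → 1 / 2 - δ ≤ M.real T → M.real T < 1 / 2 →
      ENNReal.ofReal h ≤ ENNReal.ofReal η + bdr M T)
    {μ : Measure (Eu κ)} (hμ : 𝒢 κ μ) (hh : 0 < h) : Iso μ h := by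
  have hp := hprob κ μ hμ
  intro A hA
  obtain ⟨p, hpdef⟩ : ∃ p, p = μ.real A := ⟨_, rfl⟩
  have hp0 : 0 ≤ p := by rw [hpdef]; exact measureReal_nonneg
  have hp1 : p ≤ 1 := by rw [hpdef]; exact measureReal_le_one
  have e1 : μ A = ENNReal.ofReal p := by
    rw [hpdef, measureReal_def, ENNReal.ofReal_toReal (measure_ne_top μ A)]
  have e2 : μ Aᶜ = ENNReal.ofReal (1 - p) := by
    rw [prob_compl_eq_one_sub hA, e1, ENNReal.ofReal_sub _ hp0, ENNReal.ofReal_one]
  obtain ⟨m₀, hm₀⟩ : ∃ m₀, m₀ = min p (1 - p) := ⟨_, rfl⟩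
  have e3 : min (μ A) (μ Aᶜ) = ENNReal.ofReal m₀ := by
    rw [e1, e2, hm₀, ENNReal.ofReal_min]
  rw [e3, ← ENNReal.ofReal_mul hh.le]
  have hmp : m₀ ≤ p := by rw [hm₀]; exact min_le_left _ _
  have hmq : m₀ ≤ 1 - p := by rw [hm₀]; exact min_le_right _ _
  rcases le_or_gt m₀ 0 with hneg | hpos
  · rw [ENNReal.ofReal_of_nonpos (mul_nonpos_of_nonneg_of_nonpos hh.le hneg)]
    exact bot_le
  have hp0' : 0 < p := by linarith
  have hp1' : p < 1 := by linarith
  by_contra hcon
  rw [not_le] at hcon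
  obtain ⟨b, hb0, hb1, hb2⟩ := ENNReal.lt_iff_exists_real_btwn.1 hcon
  have hb3 : b < h * m₀ := (ENNReal.ofReal_lt_ofReal_iff (by positivity)).1 hb2
  -- choose `m < m₀` with `b < h m`
  obtain ⟨m, hm1, hm2⟩ : ∃ m, b / h < m ∧ m < m₀ :=
    exists_between ((div_lt_iff₀ hh).2 (by linarith))
  have hm : 0 < m := lt_of_le_of_lt (div_nonneg hb0 hh.le) hm1
  have hbm : b / m < h := by
    rw [div_lt_iff₀ hm]
    have := (div_lt_iff₀ hh).1 hm1
    linarith
  obtain ⟨η, hη0, hη⟩ : ∃ η, 0 < η ∧ η + b / m < h := ⟨(h - b / m) / 2, by linarith, by linarith⟩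
  obtain ⟨δ, hδ, hnear⟩ := near η hη0
  have hM1 : max p (1 - p) < 1 := max_lt hp1' (by linarith)
  have hM0 : 0 < max p (1 - p) := lt_max_of_lt_left hp0'
  obtain ⟨k, hk⟩ := exists_pow_lt_of_lt_one (show 0 < min (δ / 2) (1 / 2) by positivity) hM1
  have hk1 : max p (1 - p) ^ k < δ / 2 := lt_of_lt_of_le hk (min_le_left _ _)
  have hk2 : max p (1 - p) ^ k < 1 / 2 := lt_of_lt_of_le hk (min_le_right _ _)
  have hk0 : 0 < max p (1 - p) ^ k := pow_pos hM0 k
  obtain ⟨w, hw1, hw2⟩ := gw_dense hp0' hp1' k (1 / 2 - max p (1 - p) ^ k) (by linarith)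
    (by linarith)
  obtain ⟨ι, hι, M, S, hM, h1, h2, h3⟩ := rl_gw hprob hprod hμ w
  have hpM := hprob ι M hM
  have hT := hnear ι M hM (S A) (h1 A hA) (by rw [h2 A hA, ← hpdef]; linarith)
    (by rw [h2 A hA, ← hpdef]; linarith)
  have hfr := frequently_lt_of_liminf_lt (by isBoundedDefault) hb1
  have hev : ∀ᶠ ε in 𝓝[>] (0 : ℝ), b * ε < m₀ - m := by
    have : Tendsto (fun ε : ℝ => b * ε) (𝓝[>] 0) (𝓝 (b * 0)) :=
      (tendsto_id.const_mul b).mono_left nhdsWithin_le_nhds
    rw [mul_zero] at this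
    exact this.eventually (gt_mem_nhds (by linarith))
  have hbd : bdr M (S A) ≤ ENNReal.ofReal (b / m) := by
    unfold bdr
    refine liminf_le_of_frequently_le (f := 𝓝[>] (0 : ℝ)) ?_
    refine ((hfr.and_eventually hev).and_eventually
      (self_mem_nhdsWithin : Ioi (0 : ℝ) ∈ 𝓝[>] 0)).mono ?_
    rintro ε ⟨⟨hε1, hε2⟩, hε⟩
    have hTm : MeasurableSet (Metric.thickening ε A) := Metric.isOpen_thickening.measurableSet
    obtain ⟨x, hx⟩ : ∃ x, x = μ.real (Metric.thickening ε A) := ⟨_, rfl⟩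
    have hpx : p ≤ x := by
      rw [hpdef, hx]
      exact measureReal_mono (Metric.self_subset_thickening hε A)
    have e4 : μ (Metric.thickening ε A) = ENNReal.ofReal x := by
      rw [hx, measureReal_def, ENNReal.ofReal_toReal (measure_ne_top μ _)]
    rw [ENNReal.div_lt_iff (Or.inl (ENNReal.ofReal_pos.2 hε).ne')
      (Or.inl ENNReal.ofReal_ne_top), e4, e1, ← ENNReal.ofReal_sub _ hp0,
      ← ENNReal.ofReal_mul hb0] at hε1
    have hxb : x - p < b * ε := by
      by_contra hcon2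
      rw [not_lt] at hcon2
      exact absurd (ENNReal.ofReal_le_ofReal hcon2) (not_le.2 hε1)
    have hlip := gw_lip w hm (by linarith : m ≤ p) hpx (by linarith : m ≤ 1 - x)
    have h4 : M (Metric.thickening ε (S A)) ≤ ENNReal.ofReal (gw w x) := by
      refine (measure_mono (h3 A ε)).trans (le_of_eq ?_)
      rw [hx, ← h2 _ hTm, measureReal_def, ENNReal.ofReal_toReal (measure_ne_top M _)]
    have h5 : M (S A) = ENNReal.ofReal (gw w p) := by
      rw [hpdef, ← h2 _ hA, measureReal_def, ENNReal.ofReal_toReal (measure_ne_top M _)]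
    rw [h5]
    refine (ENNReal.div_le_div_right (tsub_le_tsub_right h4 _) _).trans ?_
    rw [← ENNReal.ofReal_sub _ (gw_range w hp0 hp1).1,
      ENNReal.div_le_iff (ENNReal.ofReal_pos.2 hε).ne' ENNReal.ofReal_ne_top,
      ← ENNReal.ofReal_mul (by positivity)]
    refine ENNReal.ofReal_le_ofReal (hlip.trans ?_)
    rw [div_mul_eq_mul_div]
    exact div_le_div_of_nonneg_right hxb.le hm.le
  have h6 := hT.trans (add_le_add_right hbd _)
  rw [← ENNReal.ofReal_add hη0.le (by positivity)] at h6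
  have h7 := (ENNReal.ofReal_le_ofReal_iff (by positivity)).1 h6
  linarith

end trick

end Pool.Agent.H776
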