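import Pool.Agent.H776.Lim

/-!
# Sup-convolution of a log-concave density with `exp (-λ |x|)`
-/

set_option autoImplicit false

namespace Pool.Agent.H776

open MeasureTheory Set Filter Topology
open scoped ENNReal InnerProductSpace
open Q289.LD (Den Ex)

variable {κ : Type} [Fintype κ]

/-- sup-convolution with `exp (-l |x|)` -/
noncomputable def sl (ρ : Eu κ → ℝ) (l : ℝ) (x : Eu κ) : ℝ := ⨆ y, ρ y * Real.exp (-(l * ‖x - y‖))

section props

variable {ρ : Eu κ → ℝ} {M c l : ℝ}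

theorem sl_bdd (hρ : Den ρ) (hE : Ex ρ M c) (hl : 0 ≤ l) (x : Eu κ) :
    BddAbove (range fun y => ρ y * Real.exp (-(l * ‖x - y‖))) := by
  refine ⟨M, ?_⟩
  rintro _ ⟨y, rfl⟩
  have h1 : ρ y ≤ M := (hE.2.2 y).trans (by
    have : Real.exp (-(c * ‖y‖)) ≤ 1 := Real.exp_le_one_iff.2 (by
      have := mul_nonneg hE.2.1.le (norm_nonneg y); linarith)
    nlinarith [hE.1])
  have h2 : Real.exp (-(l * ‖x - y‖)) ≤ 1 := Real.exp_le_one_iff.2 (by
    have := mul_nonneg hl (norm_nonneg (x - y)); linarith)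
  calc ρ y * Real.exp (-(l * ‖x - y‖)) ≤ ρ y * 1 := mul_le_mul_of_nonneg_left h2 (hρ.nonneg y)
    _ ≤ M := by rw [mul_one]; exact h1

theorem le_sl' (hρ : Den ρ) (hE : Ex ρ M c) (hl : 0 ≤ l) (x y : Eu κ) :
    ρ y * Real.exp (-(l * ‖x - y‖)) ≤ sl ρ l x := le_ciSup (sl_bdd hρ hE hl x) y

theorem le_sl (hρ : Den ρ) (hE : Ex ρ M c) (hl : 0 ≤ l) (x : Eu κ) : ρ x ≤ sl ρ l x := by
  have := le_sl' hρ hE hl x x
  simpa using this

theorem sl_le (_hρ : Den ρ) (hE : Ex ρ M c) (hl : c ≤ l) (x : Eu κ) :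
    sl ρ l x ≤ M * Real.exp (-(c * ‖x‖)) := by
  refine ciSup_le fun y => ?_
  calc ρ y * Real.exp (-(l * ‖x - y‖))
      ≤ (M * Real.exp (-(c * ‖y‖))) * Real.exp (-(c * ‖x - y‖)) := by
        refine mul_le_mul (hE.2.2 y) (Real.exp_le_exp.2 ?_) (Real.exp_pos _).le
          (mul_nonneg hE.1.le (Real.exp_pos _).le)
        have := mul_le_mul_of_nonneg_right hl (norm_nonneg (x - y))
        linarith
    _ = M * Real.exp (-(c * ‖y‖) + -(c * ‖x - y‖)) := by rw [Real.exp_add]; ring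
    _ ≤ M * Real.exp (-(c * ‖x‖)) := by
        refine mul_le_mul_of_nonneg_left (Real.exp_le_exp.2 ?_) hE.1.le
        have h1 : ‖x‖ ≤ ‖x - y‖ + ‖y‖ := by
          have := norm_add_le (x - y) y
          rwa [sub_add_cancel] at this
        have := mul_le_mul_of_nonneg_left h1 hE.2.1.le
        linarith

theorem sl_pos (hρ : Den ρ) (hE : Ex ρ M c) (hl : 0 ≤ l) (x : Eu κ) : 0 < sl ρ l x := by
  obtain ⟨y, hy⟩ : ∃ y, 0 < ρ y := by
    by_contra hcon
    push Not at hcon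
    have : ∀ y, ρ y = 0 := fun y => le_antisymm (hcon y) (hρ.nonneg y)
    have h1 := hρ.mass
    simp [this] at h1
  exact lt_of_lt_of_le (mul_pos hy (Real.exp_pos _)) (le_sl' hρ hE hl x y)

/-- `log (sl ρ l)` is `l`-Lipschitz -/
theorem sl_lip (hρ : Den ρ) (hE : Ex ρ M c) (hl : 0 ≤ l) (x x' : Eu κ) :
    sl ρ l x ≤ Real.exp (l * ‖x - x'‖) * sl ρ l x' := by
  refine ciSup_le fun y => ?_
  have h1 := le_sl' hρ hE hl x' y
  have h2 : Real.exp (-(l * ‖x - y‖)) ≤ Real.exp (l * ‖x - x'‖) * Real.exp (-(l * ‖x' - y‖)) := by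
    rw [← Real.exp_add]
    refine Real.exp_le_exp.2 ?_
    have h3 : ‖x' - y‖ ≤ ‖x - x'‖ + ‖x - y‖ := by
      have h4 := norm_sub_le_norm_sub_add_norm_sub x' x y
      rwa [norm_sub_rev x' x] at h4
    have := mul_le_mul_of_nonneg_left h3 hl
    linarith
  calc ρ y * Real.exp (-(l * ‖x - y‖))
      ≤ ρ y * (Real.exp (l * ‖x - x'‖) * Real.exp (-(l * ‖x' - y‖))) :=
        mul_le_mul_of_nonneg_left h2 (hρ.nonneg y)
    _ = Real.exp (l * ‖x - x'‖) * (ρ y * Real.exp (-(l * ‖x' - y‖))) := by ring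
    _ ≤ _ := mul_le_mul_of_nonneg_left h1 (Real.exp_pos _).le

theorem sl_cont (hρ : Den ρ) (hE : Ex ρ M c) (hl : 0 ≤ l) : Continuous (sl ρ l) := by
  have hlog : LipschitzWith (Real.toNNReal l) fun x => Real.log (sl ρ l x) := by
    refine LipschitzWith.of_dist_le_mul fun x y => ?_
    rw [Real.coe_toNNReal l hl, Real.dist_eq, dist_eq_norm, abs_le]
    have key : ∀ x y : Eu κ, Real.log (sl ρ l x) ≤ l * ‖x - y‖ + Real.log (sl ρ l y) := by
      intro x y
      have h1 := Real.log_le_log (sl_pos hρ hE hl x) (sl_lip hρ hE hl x y)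
      rwa [Real.log_mul (Real.exp_pos _).ne' (sl_pos hρ hE hl y).ne', Real.log_exp] at h1
    constructor
    · have := key y x
      rw [norm_sub_rev] at this
      linarith
    · have := key x y
      linarith
  have : sl ρ l = fun x => Real.exp (Real.log (sl ρ l x)) := by
    funext x
    rw [Real.exp_log (sl_pos hρ hE hl x)]
  rw [this]
  exact Real.continuous_exp.comp hlog.continuous

theorem sl_lc (hρ : Den ρ) (hE : Ex ρ M c) (hl : 0 ≤ l) (x y : Eu κ) (t : ℝ) (ht : 0 < t)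
    (ht1 : t < 1) : sl ρ l x ^ (1 - t) * sl ρ l y ^ t ≤ sl ρ l ((1 - t) • x + t • y) := by
  have h1t : 0 < 1 - t := by linarith
  -- pointwise
  have key : ∀ u v : Eu κ, (ρ u * Real.exp (-(l * ‖x - u‖))) ^ (1 - t) *
      (ρ v * Real.exp (-(l * ‖y - v‖))) ^ t ≤ sl ρ l ((1 - t) • x + t • y) := by
    intro u v
    refine le_trans ?_ (le_sl' hρ hE hl _ ((1 - t) • u + t • v))
    rw [Real.mul_rpow (hρ.nonneg u) (Real.exp_pos _).le,
      Real.mul_rpow (hρ.nonneg v) (Real.exp_pos _).le, ← Real.exp_mul, ← Real.exp_mul]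
    have h2 : Real.exp (-(l * ‖x - u‖) * (1 - t)) * Real.exp (-(l * ‖y - v‖) * t) ≤
        Real.exp (-(l * ‖(1 - t) • x + t • y - ((1 - t) • u + t • v)‖)) := by
      rw [← Real.exp_add]
      refine Real.exp_le_exp.2 ?_
      have e1 : (1 - t) • x + t • y - ((1 - t) • u + t • v) = (1 - t) • (x - u) + t • (y - v) := by
        rw [smul_sub, smul_sub]; abel
      have h3 : ‖(1 - t) • (x - u) + t • (y - v)‖ ≤ (1 - t) * ‖x - u‖ + t * ‖y - v‖ := by
        refine (norm_add_le _ _).trans ?_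
        rw [norm_smul, norm_smul, Real.norm_of_nonneg h1t.le, Real.norm_of_nonneg ht.le]
      rw [e1]
      nlinarith [mul_le_mul_of_nonneg_left h3 hl]
    calc ρ u ^ (1 - t) * Real.exp (-(l * ‖x - u‖) * (1 - t)) *
          (ρ v ^ t * Real.exp (-(l * ‖y - v‖) * t))
        = (ρ u ^ (1 - t) * ρ v ^ t) *
          (Real.exp (-(l * ‖x - u‖) * (1 - t)) * Real.exp (-(l * ‖y - v‖) * t)) := by ring
      _ ≤ _ := mul_le_mul (hρ.lc u v t ht ht1) h2 (by positivity) (hρ.nonneg _)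
  -- suprema
  by_contra hcon
  rw [not_le] at hcon
  set S := sl ρ l ((1 - t) • x + t • y) with hS
  have hSx := sl_pos hρ hE hl x
  have hSy := sl_pos hρ hE hl y
  have hS0 : 0 < S := sl_pos hρ hE hl _
  -- choose u
  have h4 : ∃ u, S < (ρ u * Real.exp (-(l * ‖x - u‖))) ^ (1 - t) * sl ρ l y ^ t := by
    have hb : (S / sl ρ l y ^ t) ^ (1 - t)⁻¹ < sl ρ l x := by
      have h5 : S / sl ρ l y ^ t < sl ρ l x ^ (1 - t) := by
        rw [div_lt_iff₀ (Real.rpow_pos_of_pos hSy t)]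
        exact hcon
      have h6 := Real.rpow_lt_rpow (by positivity) h5 (inv_pos.2 h1t)
      rwa [← Real.rpow_mul hSx.le, mul_inv_cancel₀ h1t.ne', Real.rpow_one] at h6
    obtain ⟨u, hu⟩ := exists_lt_of_lt_ciSup hb
    refine ⟨u, ?_⟩
    have h7 := Real.rpow_lt_rpow (by positivity) hu h1t
    rw [← Real.rpow_mul (by positivity), inv_mul_cancel₀ h1t.ne', Real.rpow_one,
      div_lt_iff₀ (Real.rpow_pos_of_pos hSy t)] at h7
    exact h7
  obtain ⟨u, hu⟩ := h4
  set U := ρ u * Real.exp (-(l * ‖x - u‖)) with hU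
  have hU0 : 0 ≤ U := mul_nonneg (hρ.nonneg u) (Real.exp_pos _).le
  have hUp : 0 < U := by
    rcases hU0.lt_or_eq with h | h
    · exact h
    · rw [← h, Real.zero_rpow h1t.ne', zero_mul] at hu
      exact absurd hu (not_lt.2 hS0.le)
  have h5 : ∃ v, S < U ^ (1 - t) * (ρ v * Real.exp (-(l * ‖y - v‖))) ^ t := by
    have hb : (S / U ^ (1 - t)) ^ t⁻¹ < sl ρ l y := by
      have h5 : S / U ^ (1 - t) < sl ρ l y ^ t := by
        rw [div_lt_iff₀ (Real.rpow_pos_of_pos hUp _), mul_comm]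
        exact hu
      have h6 := Real.rpow_lt_rpow (by positivity) h5 (inv_pos.2 ht)
      rwa [← Real.rpow_mul hSy.le, mul_inv_cancel₀ ht.ne', Real.rpow_one] at h6
    obtain ⟨v, hv⟩ := exists_lt_of_lt_ciSup hb
    refine ⟨v, ?_⟩
    have h7 := Real.rpow_lt_rpow (by positivity) hv ht
    rw [← Real.rpow_mul (by positivity), inv_mul_cancel₀ ht.ne', Real.rpow_one,
      div_lt_iff₀ (Real.rpow_pos_of_pos hUp _), mul_comm] at h7
    exact h7
  obtain ⟨v, hv⟩ := h5
  exact absurd (key u v) (not_le.2 hv)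

/-- convergence at the points of continuity -/
theorem sl_tendsto (hρ : Den ρ) (hE : Ex ρ M c) {x : Eu κ} (hx : ContinuousAt ρ x) :
    Tendsto (fun l : ℝ => sl ρ l x) atTop (𝓝 (ρ x)) := by
  have hM := hE.1
  refine tendsto_order.2 ⟨fun a ha => ?_, fun a ha => ?_⟩
  · filter_upwards [eventually_ge_atTop (0 : ℝ)] with A hA
    exact lt_of_lt_of_le ha (le_sl hρ hE hA x)
  · have hε : 0 < (a - ρ x) / 2 := by linarith
    obtain ⟨δ, hδ, hδ2⟩ := Metric.continuousAt_iff.1 hx _ hε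
    have ha0 : 0 < a := lt_of_le_of_lt (hρ.nonneg x) ha
    have ht : Tendsto (fun A : ℝ => M * Real.exp (-(A * δ))) atTop (𝓝 (M * 0)) := by
      refine Tendsto.const_mul M (Real.tendsto_exp_neg_atTop_nhds_zero.comp ?_)
      exact Tendsto.atTop_mul_const hδ tendsto_id
    rw [mul_zero] at ht
    filter_upwards [eventually_ge_atTop (0 : ℝ), ht.eventually (gt_mem_nhds ha0)] with A hA hA2
    have h5 : sl ρ A x ≤ max (ρ x + (a - ρ x) / 2) (M * Real.exp (-(A * δ))) := by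
      refine ciSup_le fun y => ?_
      rcases lt_or_ge (dist y x) δ with hy | hy
      · refine le_max_of_le_left ?_
        have h6 := hδ2 hy
        rw [Real.dist_eq] at h6
        have h7 := (abs_lt.1 h6).2
        have h2 : Real.exp (-(A * ‖x - y‖)) ≤ 1 := Real.exp_le_one_iff.2 (by
          have := mul_nonneg hA (norm_nonneg (x - y)); linarith)
        calc ρ y * Real.exp (-(A * ‖x - y‖)) ≤ ρ y * 1 :=
              mul_le_mul_of_nonneg_left h2 (hρ.nonneg y)
          _ ≤ _ := by linarith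
      · refine le_max_of_le_right ?_
        have h1 : ρ y ≤ M := (hE.2.2 y).trans (by
          have : Real.exp (-(c * ‖y‖)) ≤ 1 := Real.exp_le_one_iff.2 (by
            have := mul_nonneg hE.2.1.le (norm_nonneg y); linarith)
          nlinarith)
        refine mul_le_mul h1 (Real.exp_le_exp.2 ?_) (Real.exp_pos _).le hM.le
        rw [dist_eq_norm, norm_sub_rev] at hy
        have := mul_le_mul_of_nonneg_left hy hA
        linarith
    exact lt_of_le_of_lt h5 (max_lt (by linarith) hA2)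

end props

end Pool.Agent.H776
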