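import Pool.Agent.H776.Scale

/-!
# Exponential densities on polyhedra as limits of images of Gaussian measures conditioned to orthants
-/

set_option autoImplicit false

namespace Pool.Agent.H776

open MeasureTheory Set Filter Topology
open scoped ENNReal InnerProductSpace

/-- densities (up to constants) of Gaussian measures conditioned to the positive orthant -/
def NG {κ : Type} [Fintype κ] (g : Eu κ → ℝ) : Prop :=
  ∃ (F : Type) (_ : Fintype F) (A : Eu κ →ₗ[ℝ] Eu F) (b : Eu κ) (c : ℝ), 0 < c ∧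
    Function.Injective A ∧ ∀ y, g y = if ∀ i, 0 ≤ y i then c * Real.exp (-(‖A (y - b)‖ ^ 2 / 2)) else 0

section ep

variable {κ J : Type} [Fintype κ] [Fintype J]

/-- polyhedron -/
def poly (α : J → Eu κ) (β : J → ℝ) : Set (Eu κ) := {v | ∀ j, ⟪α j, v⟫_ℝ ≤ β j}

open Classical in
/-- exponential density on a polyhedron -/
noncomputable def ep (α : J → Eu κ) (β : J → ℝ) (h : Eu κ) (v : Eu κ) : ℝ :=
  if ∀ j, ⟪α j, v⟫_ℝ ≤ β j then Real.exp (-⟪h, v⟫_ℝ) else 0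

/-- parameters -/
structure EP (α : J → Eu κ) (β : J → ℝ) (h : Eu κ) (c C : ℝ) : Prop where
  ne : ∀ j, α j ≠ 0
  cpos : 0 < c
  coer : ∀ (v : Eu κ) (r : ℝ), 0 ≤ r → (∀ j, ⟪α j, v⟫_ℝ ≤ β j + r) → c * ‖v‖ ≤ ⟪h, v⟫_ℝ + C * (1 + r)
  pos : 0 < ∫ v, ep α β h v

variable {α : J → Eu κ} {β : J → ℝ} {h : Eu κ} {c C : ℝ}

open Classical in
/-- the approximating densities in the variables `(v, w)` -/
noncomputable def qq (α : J → Eu κ) (β : J → ℝ) (h : Eu κ) (a : ℝ) (p : Eu κ × Eu J) : ℝ :=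
  if (∀ i, 0 ≤ p.1 i + a⁻¹) ∧ ∀ j, 0 ≤ β j - ⟪α j, p.1⟫_ℝ + a * p.2 j then
    Real.exp (-⟪h, p.1⟫_ℝ - a * ‖p.1‖ ^ 2 / 2 - ‖p.2‖ ^ 2 / 2) else 0

theorem qq_nonneg (a : ℝ) (p : Eu κ × Eu J) : 0 ≤ qq α β h a p := by
  unfold qq
  split_ifs
  · exact (Real.exp_pos _).le
  · exact le_rfl

theorem qq_meas (a : ℝ) : Measurable (qq α β h a) := by
  unfold qq
  have m1 : MeasurableSet {p : Eu κ × Eu J | ∀ i, 0 ≤ p.1 i + a⁻¹} := by
    rw [ofPred_forall]
    exact MeasurableSet.iInter fun i => measurableSet_le measurable_const (by fun_prop)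
  have m2 : MeasurableSet {p : Eu κ × Eu J | ∀ j, 0 ≤ β j - ⟪α j, p.1⟫_ℝ + a * p.2 j} := by
    rw [ofPred_forall]
    exact MeasurableSet.iInter fun j => measurableSet_le measurable_const (by fun_prop)
  exact Measurable.ite (m1.inter m2) (by fun_prop) measurable_const

/-- the majorant -/
noncomputable def mj (c : ℝ) (κ J : Type) [Fintype κ] [Fintype J] (p : Eu κ × Eu J) : ℝ :=
  Real.exp (-(c * ‖p.1‖)) * Real.exp (-(1 * ‖p.2‖))

theorem mj_int (hc : 0 < c) :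
    Integrable (fun p : Eu κ × Eu J => (1 + ‖p.1‖ ^ 2) * (1 + ‖p.2‖ ^ 2) * mj c κ J p) := by
  have h1 := Q38.LD.Lim.integ (κ := κ) hc
  have h2 := Q38.LD.Lim.integ (κ := J) (one_pos)
  have h3 := h1.mul_prod h2
  refine h3.congr (Eventually.of_forall fun p => ?_)
  simp only [mj]
  ring

theorem qq_le (hE : EP α β h c C) {a : ℝ} (ha : 0 < a) (ha1 : a ≤ 1) (p : Eu κ × Eu J) :
    qq α β h a p ≤ Real.exp (|C| + (|C| + 1) ^ 2 / 2) * mj c κ J p := by
  unfold qq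
  split_ifs with hp
  · have h1 := hE.coer p.1 ‖p.2‖ (norm_nonneg _) fun j => by
      have h2 := hp.2 j
      have h3 : p.2 j ≤ ‖p.2‖ := by
        have := PiLp.norm_apply_le p.2 j
        rw [Real.norm_eq_abs] at this
        exact (le_abs_self _).trans this
      have h4 : a * p.2 j ≤ ‖p.2‖ := by
        calc a * p.2 j ≤ a * ‖p.2‖ := mul_le_mul_of_nonneg_left h3 ha.le
          _ ≤ 1 * ‖p.2‖ := mul_le_mul_of_nonneg_right ha1 (norm_nonneg _)
          _ = _ := one_mul _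
      linarith
    unfold mj
    rw [← Real.exp_add, ← Real.exp_add]
    refine Real.exp_le_exp.2 ?_
    have h5 : C * (1 + ‖p.2‖) ≤ |C| * (1 + ‖p.2‖) :=
      mul_le_mul_of_nonneg_right (le_abs_self C) (by positivity)
    have h6 : 0 ≤ a * ‖p.1‖ ^ 2 / 2 := by positivity
    nlinarith [sq_nonneg (‖p.2‖ - (|C| + 1))]
  · exact mul_nonneg (Real.exp_pos _).le (mul_nonneg (Real.exp_pos _).le (Real.exp_pos _).le)

open Classical in
/-- the limit density -/
noncomputable def q0 (α : J → Eu κ) (β : J → ℝ) (h : Eu κ) (p : Eu κ × Eu J) : ℝ :=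
  ep α β h p.1 * Real.exp (-(‖p.2‖ ^ 2 / 2))

theorem ep_nonneg (v : Eu κ) : 0 ≤ ep α β h v := by
  unfold ep
  split_ifs
  · exact (Real.exp_pos _).le
  · exact le_rfl

theorem poly_meas : MeasurableSet {v : Eu κ | ∀ j, ⟪α j, v⟫_ℝ ≤ β j} := by
  rw [ofPred_forall]
  exact MeasurableSet.iInter fun j => measurableSet_le (by fun_prop) measurable_const

theorem ep_meas : Measurable (ep α β h) := by
  unfold ep
  exact Measurable.ite poly_meas (by fun_prop) measurable_const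

theorem qq_tendsto (hE : EP α β h c C) :
    ∀ᵐ p : Eu κ × Eu J, Tendsto (fun a : ℝ => qq α β h a p) (𝓝[>] 0) (𝓝 (q0 α β h p)) := by
  -- outside the hyperplanes
  have h1 : ∀ᵐ v : Eu κ, ∀ j, ⟪α j, v⟫_ℝ ≠ β j := by
    rw [ae_all_iff]
    intro j
    have h2 : volume {v : Eu κ | ⟪α j, v⟫_ℝ = β j} = 0 := by
      have hne := hE.ne j
      have e1 : {v : Eu κ | ⟪α j, v⟫_ℝ = β j} = (fun v => v + (β j / ‖α j‖ ^ 2) • α j) ''
          (LinearMap.ker (innerₗ (Eu κ) (α j)) : Set (Eu κ)) := by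
        ext v
        simp only [mem_ofPred_eq, mem_image, SetLike.mem_coe, LinearMap.mem_ker, innerₗ_apply_apply]
        have hn : ‖α j‖ ^ 2 ≠ 0 := pow_ne_zero 2 (norm_ne_zero_iff.2 hne)
        constructor
        · intro hv
          refine ⟨v - (β j / ‖α j‖ ^ 2) • α j, ?_, by abel⟩
          rw [inner_sub_right, real_inner_smul_right, real_inner_self_eq_norm_sq, hv,
            div_mul_cancel₀ _ hn, sub_self]
        · rintro ⟨w, hw, rfl⟩
          rw [inner_add_right, real_inner_smul_right, real_inner_self_eq_norm_sq, hw,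
            div_mul_cancel₀ _ hn, zero_add]
      rw [e1, image_add_right, measure_preimage_add_right]
      refine Measure.addHaar_submodule volume _ fun htop => hne ?_
      have : α j ∈ (LinearMap.ker (innerₗ (Eu κ) (α j))) := by rw [htop]; trivial
      rw [LinearMap.mem_ker, innerₗ_apply_apply] at this
      exact inner_self_eq_zero.1 this
    rw [ae_iff]
    simpa using h2
  have h2 : ∀ᵐ p : Eu κ × Eu J, ∀ j, ⟪α j, p.1⟫_ℝ ≠ β j :=
    Measure.quasiMeasurePreserving_fst.ae h1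
  filter_upwards [h2] with p hp
  by_cases hin : ∀ j, ⟪α j, p.1⟫_ℝ ≤ β j
  · have hlt : ∀ j, ⟪α j, p.1⟫_ℝ < β j := fun j => lt_of_le_of_ne (hin j) (hp j)
    have e1 : q0 α β h p = Real.exp (-⟪h, p.1⟫_ℝ - 0 * ‖p.1‖ ^ 2 / 2 - ‖p.2‖ ^ 2 / 2) := by
      unfold q0 ep
      rw [if_pos hin, ← Real.exp_add]
      congr 1
      ring
    rw [e1]
    have t1 : Tendsto (fun a : ℝ => Real.exp (-⟪h, p.1⟫_ℝ - a * ‖p.1‖ ^ 2 / 2 - ‖p.2‖ ^ 2 / 2))
        (𝓝[>] 0) (𝓝 (Real.exp (-⟪h, p.1⟫_ℝ - 0 * ‖p.1‖ ^ 2 / 2 - ‖p.2‖ ^ 2 / 2))) := by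
      refine Tendsto.mono_left ?_ nhdsWithin_le_nhds
      refine Continuous.tendsto ?_ 0
      fun_prop
    refine t1.congr' ?_
    have t2 : ∀ i, ∀ᶠ a : ℝ in 𝓝[>] 0, 0 ≤ p.1 i + a⁻¹ := fun i => by
      have := tendsto_inv_nhdsGT_zero (𝕜 := ℝ)
      filter_upwards [this.eventually (eventually_ge_atTop (-p.1 i))] with a ha
      linarith
    have t3 : ∀ j, ∀ᶠ a : ℝ in 𝓝[>] 0, 0 ≤ β j - ⟪α j, p.1⟫_ℝ + a * p.2 j := fun j => by
      have t4 : Tendsto (fun a : ℝ => β j - ⟪α j, p.1⟫_ℝ + a * p.2 j) (𝓝[>] 0)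
          (𝓝 (β j - ⟪α j, p.1⟫_ℝ + 0 * p.2 j)) := by
        refine Tendsto.mono_left ?_ nhdsWithin_le_nhds
        refine Continuous.tendsto ?_ 0
        fun_prop
      have h3 : 0 < β j - ⟪α j, p.1⟫_ℝ + 0 * p.2 j := by
        have := hlt j
        linarith
      exact (t4.eventually (lt_mem_nhds h3)).mono fun a ha => ha.le
    filter_upwards [eventually_all.2 t2, eventually_all.2 t3] with a ha1 ha2
    unfold qq
    rw [if_pos ⟨ha1, ha2⟩]
  · have e1 : q0 α β h p = 0 := by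
      unfold q0 ep
      rw [if_neg hin, zero_mul]
    rw [e1]
    push Not at hin
    obtain ⟨j, hj⟩ := hin
    refine tendsto_const_nhds.congr' ?_
    have t4 : Tendsto (fun a : ℝ => β j - ⟪α j, p.1⟫_ℝ + a * p.2 j) (𝓝[>] 0)
        (𝓝 (β j - ⟪α j, p.1⟫_ℝ + 0 * p.2 j)) := by
      refine Tendsto.mono_left ?_ nhdsWithin_le_nhds
      refine Continuous.tendsto ?_ 0
      fun_prop
    have h3 : β j - ⟪α j, p.1⟫_ℝ + 0 * p.2 j < 0 := by linarith
    filter_upwards [t4.eventually (gt_mem_nhds h3)] with a ha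
    unfold qq
    rw [if_neg]
    rintro ⟨-, h4⟩
    exact absurd (h4 j) (not_le.2 ha)

/-- limits of the integrals -/
theorem qq_lim (hE : EP α β h c C) {φ : Eu κ → ℝ} (hφ : Grow φ) :
    Tendsto (fun a : ℝ => ∫ p, φ p.1 * qq α β h a p) (𝓝[>] 0)
      (𝓝 ((∫ v, φ v * ep α β h v) * ∫ w : Eu J, Real.exp (-(‖w‖ ^ 2 / 2)))) := by
  obtain ⟨hc, B, hB⟩ := hφ
  have e1 : (∫ v, φ v * ep α β h v) * ∫ w : Eu J, Real.exp (-(‖w‖ ^ 2 / 2)) =
      ∫ p : Eu κ × Eu J, φ p.1 * q0 α β h p := by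
    rw [← integral_prod_mul]
    refine integral_congr_ae (Eventually.of_forall fun p => ?_)
    simp only [q0]
    ring
  rw [e1]
  have hK : 0 < Real.exp (|C| + (|C| + 1) ^ 2 / 2) := Real.exp_pos _
  refine tendsto_integral_filter_of_dominated_convergence (fun p =>
    |B| * Real.exp (|C| + (|C| + 1) ^ 2 / 2) *
      ((1 + ‖p.1‖ ^ 2) * (1 + ‖p.2‖ ^ 2) * mj c κ J p)) ?_ ?_ ((mj_int hE.cpos).const_mul _) ?_
  · exact Eventually.of_forall fun a => ((hc.comp continuous_fst).aestronglyMeasurable).mul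
      (qq_meas a).aestronglyMeasurable
  · have hev : ∀ᶠ a : ℝ in 𝓝[>] 0, 0 < a ∧ a ≤ 1 := by
      filter_upwards [self_mem_nhdsWithin, nhdsWithin_le_nhds (gt_mem_nhds (zero_lt_one' ℝ))]
        with a h1 h2
      exact ⟨h1, h2.le⟩
    filter_upwards [hev] with a ha
    refine Eventually.of_forall fun p => ?_
    rw [Real.norm_eq_abs, abs_mul, abs_of_nonneg (qq_nonneg a p)]
    have h1 : |φ p.1| ≤ |B| * (1 + ‖p.1‖ ^ 2) :=
      (hB _).trans (mul_le_mul_of_nonneg_right (le_abs_self B) (by positivity))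
    have h2 := qq_le hE ha.1 ha.2 p
    have hm : 0 ≤ mj c κ J p := mul_nonneg (Real.exp_pos _).le (Real.exp_pos _).le
    calc |φ p.1| * qq α β h a p
        ≤ (|B| * (1 + ‖p.1‖ ^ 2)) * (Real.exp (|C| + (|C| + 1) ^ 2 / 2) * mj c κ J p) :=
          mul_le_mul h1 h2 (qq_nonneg a p) (by positivity)
      _ = |B| * Real.exp (|C| + (|C| + 1) ^ 2 / 2) * ((1 + ‖p.1‖ ^ 2) * 1 * mj c κ J p) := by ring
      _ ≤ _ := by
          refine mul_le_mul_of_nonneg_left ?_ (by positivity)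
          refine mul_le_mul_of_nonneg_right ?_ hm
          refine mul_le_mul_of_nonneg_left ?_ (by positivity)
          nlinarith [sq_nonneg ‖p.2‖]
  · filter_upwards [qq_tendsto hE] with p hp
    exact hp.const_mul _

/-- the change of variables -/
noncomputable def ea (α : J → Eu κ) (a : ℝ) (ha : a ≠ 0) : (Eu κ × Eu J) ≃ₗ[ℝ] Eu (κ ⊕ J) where
  toFun p := mk p.1 (WithLp.toLp 2 fun j => -a * ⟪α j, p.1⟫_ℝ + a ^ 2 * p.2 j)
  invFun y := (pl y, WithLp.toLp 2 fun j => (pr y j + a * ⟪α j, pl y⟫_ℝ) / a ^ 2)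
  left_inv p := by
    refine Prod.ext rfl ?_
    ext j
    simp only [pr_mk, pl_mk]
    field_simp
    ring
  right_inv y := by
    ext i
    rcases i with i | j
    · rfl
    · simp only [mk_inr, pr_apply]
      field_simp
      ring
  map_add' p q := by
    ext i
    rcases i with i | j
    · rfl
    · simp only [mk_inr, Prod.fst_add, Prod.snd_add, PiLp.add_apply, inner_add_right]
      ring
  map_smul' r p := by
    ext i
    rcases i with i | j
    · rfl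
    · simp only [mk_inr, Prod.smul_fst, Prod.smul_snd, PiLp.smul_apply, real_inner_smul_right,
        smul_eq_mul, RingHom.id_apply]
      ring

/-- the offset -/
noncomputable def ba (β : J → ℝ) (κ : Type) [Fintype κ] (a : ℝ) : Eu (κ ⊕ J) :=
  mk (WithLp.toLp 2 fun _ => a⁻¹) (WithLp.toLp 2 fun j => a * β j)

/-- the quadratic form -/
noncomputable def Aa (α : J → Eu κ) (a : ℝ) (ha : a ≠ 0) : Eu (κ ⊕ J) →ₗ[ℝ] Eu (κ ⊕ J) :=
  mkE.toLinearMap ∘ₗ
    ((LinearMap.prodMap (Real.sqrt a • LinearMap.id) LinearMap.id) ∘ₗ (ea α a ha).symm.toLinearMap)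

theorem Aa_apply (a : ℝ) (ha : a ≠ 0) (p : Eu κ × Eu J) :
    Aa α a ha (ea α a ha p) = mk (Real.sqrt a • p.1) p.2 := by
  unfold Aa
  simp only [LinearMap.comp_apply, LinearEquiv.coe_coe, LinearEquiv.symm_apply_apply]
  rfl

open Classical in
/-- the Gaussian densities on the orthant -/
noncomputable def ga' (α : J → Eu κ) (β : J → ℝ) (h : Eu κ) (a : ℝ) (ha : a ≠ 0)
    (y : Eu (κ ⊕ J)) : ℝ :=
  if ∀ i, 0 ≤ y i then Real.exp (‖h‖ ^ 2 / (2 * a)) *
    Real.exp (-(‖Aa α a ha (y - (ea α a ha (-(a⁻¹ • h), 0) + ba β κ a))‖ ^ 2 / 2)) else 0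

theorem ga'_comp {a : ℝ} (ha : 0 < a) (p : Eu κ × Eu J) :
    ga' α β h a ha.ne' (ea α a ha.ne' p + ba β κ a) = qq α β h a p := by
  unfold ga' qq
  have e1 : (∀ i, 0 ≤ (ea α a ha.ne' p + ba β κ a) i) ↔
      ((∀ i, 0 ≤ p.1 i + a⁻¹) ∧ ∀ j, 0 ≤ β j - ⟪α j, p.1⟫_ℝ + a * p.2 j) := by
    rw [Sum.forall]
    refine and_congr Iff.rfl (forall_congr' fun j => ?_)
    have e2 : (ea α a ha.ne' p + ba β κ a) (Sum.inr j) =
        a * (β j - ⟪α j, p.1⟫_ℝ + a * p.2 j) := by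
      change (-a * ⟪α j, p.1⟫_ℝ + a ^ 2 * p.2 j) + a * β j = _
      ring
    rw [e2]
    exact mul_nonneg_iff_of_pos_left ha
  by_cases hc : (∀ i, 0 ≤ p.1 i + a⁻¹) ∧ ∀ j, 0 ≤ β j - ⟪α j, p.1⟫_ℝ + a * p.2 j
  · rw [if_pos hc, if_pos (e1.2 hc)]
    have e3 : ea α a ha.ne' p + ba β κ a - (ea α a ha.ne' (-(a⁻¹ • h), 0) + ba β κ a) =
        ea α a ha.ne' (p - (-(a⁻¹ • h), 0)) := by
      rw [map_sub]; abel
    rw [e3, Aa_apply, norm_mk_sq, ← Real.exp_add]
    congr 1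
    have e4 : (p - (-(a⁻¹ • h), 0)).1 = p.1 + a⁻¹ • h := by simp
    have e5 : (p - (-(a⁻¹ • h), 0)).2 = p.2 := by simp
    rw [e4, e5, norm_smul, mul_pow, Real.norm_of_nonneg (Real.sqrt_nonneg _), Real.sq_sqrt ha.le,
      norm_add_sq_real, norm_smul, real_inner_smul_right, Real.norm_of_nonneg (inv_pos.2 ha).le,
      real_inner_comm]
    field_simp
    ring
  · rw [if_neg hc, if_neg (fun h => hc (e1.1 h))]

theorem ga'_ng {a : ℝ} (ha : 0 < a) : NG (ga' α β h a ha.ne') := by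
  refine ⟨κ ⊕ J, inferInstance, Aa α a ha.ne', ea α a ha.ne' (-(a⁻¹ • h), 0) + ba β κ a,
    Real.exp (‖h‖ ^ 2 / (2 * a)), Real.exp_pos _, ?_, fun y => ?_⟩
  · unfold Aa
    intro x y hxy
    simp only [LinearMap.comp_apply, LinearEquiv.coe_coe] at hxy
    have h1 := mkE.injective hxy
    have h2 : ∀ p q : Eu κ × Eu J,
        (LinearMap.prodMap (Real.sqrt a • LinearMap.id) LinearMap.id :
          Eu κ × Eu J →ₗ[ℝ] Eu κ × Eu J) p =
        (LinearMap.prodMap (Real.sqrt a • LinearMap.id) LinearMap.id :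
          Eu κ × Eu J →ₗ[ℝ] Eu κ × Eu J) q → p = q := by
      intro p q hpq
      simp only [LinearMap.prodMap_apply, LinearMap.smul_apply, LinearMap.id_apply,
        Prod.mk.injEq] at hpq
      have h3 : Real.sqrt a ≠ 0 := (Real.sqrt_pos.2 ha).ne'
      exact Prod.ext (smul_right_injective _ h3 hpq.1) hpq.2
    exact (ea α a ha.ne').symm.injective (h2 _ _ h1)
  · unfold ga'
    congr

end ep

end Pool.Agent.H776
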