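import Pool.Agent.H776.Univ

/-!
# Powers of measures on Euclidean spaces
-/

set_option autoImplicit false

namespace Pool.Agent.H776.TP

open MeasureTheory Set Filter Topology
open scoped ENNReal InnerProductSpace
open Pool.Agent.H776
open Q289.LD (Den)

variable {ι κ σ : Type} [Fintype ι] [Fintype κ] [Fintype σ]

/-- the block `i` -/
noncomputable def bl (e : ι × κ ≃ σ) (i : ι) : Eu σ →L[ℝ] Eu κ :=
  LinearMap.toContinuousLinearMap
    { toFun := fun z => WithLp.toLp 2 fun a => z (e (i, a))
      map_add' := fun _ _ => rfl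
      map_smul' := fun _ _ => rfl }

omit [Fintype ι] in
theorem bl_apply (e : ι × κ ≃ σ) (i : ι) (z : Eu σ) (a : κ) : bl e i z a = z (e (i, a)) := rfl

/-- assemble -/
noncomputable def as (e : ι × κ ≃ σ) (x : ι → Eu κ) : Eu σ :=
  WithLp.toLp 2 fun l => x (e.symm l).1 (e.symm l).2

omit [Fintype ι] in
theorem as_apply (e : ι × κ ≃ σ) (x : ι → Eu κ) (l : σ) :
    as e x l = x (e.symm l).1 (e.symm l).2 := rfl

omit [Fintype ι] in
theorem bl_as (e : ι × κ ≃ σ) (x : ι → Eu κ) (i : ι) : bl e i (as e x) = x i := by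
  ext a
  rw [bl_apply, as_apply, Equiv.symm_apply_apply]

omit [Fintype ι] in
theorem as_bl (e : ι × κ ≃ σ) (z : Eu σ) : as e (fun i => bl e i z) = z := by
  ext l
  rw [as_apply, bl_apply, Prod.mk.eta, Equiv.apply_symm_apply]

theorem inner_bl (e : ι × κ ≃ σ) (z w : Eu σ) :
    ⟪z, w⟫_ℝ = ∑ i, ⟪bl e i z, bl e i w⟫_ℝ := by
  simp only [PiLp.inner_apply]
  rw [← Equiv.sum_comp e, Fintype.sum_prod_type]
  rfl

theorem norm_sq_bl (e : ι × κ ≃ σ) (z : Eu σ) : ‖z‖ ^ 2 = ∑ i, ‖bl e i z‖ ^ 2 := by
  rw [← real_inner_self_eq_norm_sq, inner_bl e]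
  exact Finset.sum_congr rfl fun i _ => real_inner_self_eq_norm_sq _

omit [Fintype ι] in
theorem cont_as (e : ι × κ ≃ σ) : Continuous (as e) := by
  unfold as
  exact (PiLp.continuous_toLp 2 _).comp (continuous_pi fun l => by fun_prop)

/-- the measurable equivalence -/
noncomputable def asE (e : ι × κ ≃ σ) : (ι → Eu κ) ≃ᵐ Eu σ where
  toFun := as e
  invFun z i := bl e i z
  left_inv x := funext fun i => bl_as e x i
  right_inv z := as_bl e z
  measurable_toFun := (cont_as e).measurable
  measurable_invFun := (continuous_pi fun i => (bl e i).continuous).measurable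

/-- the power of a measure -/
noncomputable def pn (e : ι × κ ≃ σ) (μ : Measure (Eu κ)) : Measure (Eu σ) :=
  (Measure.pi fun _ : ι => μ).map (as e)

instance (e : ι × κ ≃ σ) (μ : Measure (Eu κ)) [IsProbabilityMeasure μ] :
    IsProbabilityMeasure (pn e μ) :=
  Measure.isProbabilityMeasure_map (cont_as e).measurable.aemeasurable

theorem integral_pn (e : ι × κ ≃ σ) (μ : Measure (Eu κ)) (F : Eu σ → ℝ) :
    ∫ z, F z ∂(pn e μ) = ∫ x, F (as e x) ∂(Measure.pi fun _ : ι => μ) :=
  integral_map_equiv (asE e) F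

theorem integrable_pn (e : ι × κ ≃ σ) (μ : Measure (Eu κ)) {F : Eu σ → ℝ} :
    Integrable F (pn e μ) ↔ Integrable (fun x => F (as e x)) (Measure.pi fun _ : ι => μ) :=
  integrable_map_equiv (asE e) F

theorem integral_pn_prod (e : ι × κ ≃ σ) (μ : Measure (Eu κ)) [IsProbabilityMeasure μ]
    (h : ι → Eu κ → ℝ) :
    ∫ z, ∏ i, h i (bl e i z) ∂(pn e μ) = ∏ i, ∫ x, h i x ∂μ := by
  rw [integral_pn]
  simp only [bl_as]
  exact integral_fintype_prod_eq_prod h

theorem mp_as (e : ι × κ ≃ σ) :
    MeasurePreserving (as e) (volume : Measure (ι → Eu κ)) (volume : Measure (Eu σ)) := by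
  have h0 : Measurable fun x : ι → Eu κ => WithLp.ofLp (as e x) :=
    (PiLp.continuous_ofLp 2 _).measurable.comp (cont_as e).measurable
  have h1 : MeasurePreserving (fun x : ι → Eu κ => WithLp.ofLp (as e x)) volume
      (volume : Measure (σ → ℝ)) := by
    refine ⟨h0, ?_⟩
    refine (Measure.pi_eq fun s hs => ?_).symm
    rw [Measure.map_apply h0 (MeasurableSet.univ_pi hs)]
    have e1 : (fun x : ι → Eu κ => WithLp.ofLp (as e x)) ⁻¹' (Set.pi univ s) =
        Set.pi univ fun i => WithLp.ofLp ⁻¹' (Set.pi univ fun a => s (e (i, a))) := by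
      ext x
      simp only [mem_preimage, Set.mem_pi, mem_univ, true_implies, as]
      constructor
      · intro h i a
        have := h (e (i, a))
        rwa [Equiv.symm_apply_apply] at this
      · intro h l
        have := h (e.symm l).1 (e.symm l).2
        rwa [Prod.mk.eta, Equiv.apply_symm_apply] at this
    rw [e1, volume_pi, Measure.pi_pi]
    have e2 : ∀ i : ι, (volume : Measure (Eu κ))
        (WithLp.ofLp ⁻¹' (Set.pi univ fun a => s (e (i, a)))) = ∏ a, volume (s (e (i, a))) := by
      intro i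
      rw [(PiLp.volume_preserving_ofLp κ).measure_preimage
        (MeasurableSet.univ_pi fun a => hs _).nullMeasurableSet, volume_pi, Measure.pi_pi]
    simp only [e2]
    rw [← Fintype.prod_prod_type' (fun (i : ι) (a : κ) => (volume (s (e (i, a))) : ℝ≥0∞)),
      ← Equiv.prod_comp e]
  exact (PiLp.volume_preserving_toLp σ).comp h1

theorem lintegral_box {g : Eu κ → ℝ} (h0 : ∀ x, 0 ≤ g x)
    (hi : Integrable g) {s : ι → Set (Eu κ)} (hs : ∀ i, MeasurableSet (s i)) :
    ∫⁻ x in Set.pi univ s, ENNReal.ofReal (∏ i, g (x i)) =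
      ∏ i, ∫⁻ x in s i, ENNReal.ofReal (g x) := by
  have hi' : ∀ i, Integrable ((s i).indicator g) := fun i => hi.indicator (hs i)
  have h0' : ∀ i x, 0 ≤ (s i).indicator g x := fun i x => indicator_nonneg (fun x _ => h0 x) x
  have e1 : ∫⁻ x in Set.pi univ s, ENNReal.ofReal (∏ i, g (x i)) =
      ∫⁻ x : ι → Eu κ, ENNReal.ofReal (∏ i, (s i).indicator g (x i)) := by
    rw [← lintegral_indicator (MeasurableSet.univ_pi hs)]
    refine lintegral_congr fun x => ?_
    by_cases hx : x ∈ Set.pi univ s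
    · rw [indicator_of_mem hx]
      congr 1
      exact Finset.prod_congr rfl fun i _ => (indicator_of_mem (hx i (mem_univ i)) g).symm
    · rw [indicator_of_notMem hx]
      simp only [Set.mem_pi, mem_univ, true_implies, not_forall] at hx
      obtain ⟨i, hxi⟩ := hx
      rw [Finset.prod_eq_zero (Finset.mem_univ i) (indicator_of_notMem hxi g), ENNReal.ofReal_zero]
  have e2 : ∀ i, ∫⁻ x in s i, ENNReal.ofReal (g x) =
      ENNReal.ofReal (∫ x, (s i).indicator g x) := by
    intro i
    rw [ofReal_integral_eq_lintegral_ofReal (hi' i) (Eventually.of_forall (h0' i)),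
      ← lintegral_indicator (hs i)]
    refine lintegral_congr fun x => ?_
    by_cases hx : x ∈ s i
    · rw [indicator_of_mem hx, indicator_of_mem hx]
    · rw [indicator_of_notMem hx, indicator_of_notMem hx, ENNReal.ofReal_zero]
  have hip : Integrable (fun x : ι → Eu κ => ∏ i, (s i).indicator g (x i)) :=
    Integrable.fintype_prod hi'
  simp only [e2]
  rw [e1, ← ofReal_integral_eq_lintegral_ofReal hip
    (Eventually.of_forall fun x => Finset.prod_nonneg fun i _ => h0' i _),
    integral_fintype_prod_volume_eq_prod (fun (i : ι) => (s i).indicator g),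
    ENNReal.ofReal_prod_of_nonneg fun i _ => integral_nonneg (h0' i)]

/-- the density of the power -/
noncomputable def tw (e : ι × κ ≃ σ) (g : Eu κ → ℝ) (z : Eu σ) : ℝ := ∏ i, g (bl e i z)

theorem tw_meas (e : ι × κ ≃ σ) {g : Eu κ → ℝ} (hm : Measurable g) : Measurable (tw e g) :=
  Finset.measurable_prod _ fun i _ => hm.comp (bl e i).continuous.measurable

theorem pn_eq (e : ι × κ ≃ σ) {g : Eu κ → ℝ} (h0 : ∀ x, 0 ≤ g x) (hm : Measurable g)
    (hi : Integrable g)
    [IsProbabilityMeasure (volume.withDensity fun x => ENNReal.ofReal (g x))] :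
    pn e (volume.withDensity fun x => ENNReal.ofReal (g x)) =
      volume.withDensity fun z => ENNReal.ofReal (tw e g z) := by
  have hmt := tw_meas e hm
  have e1 : (Measure.pi fun _ : ι => volume.withDensity fun x => ENNReal.ofReal (g x)) =
      (volume : Measure (ι → Eu κ)).withDensity fun x => ENNReal.ofReal (∏ i, g (x i)) := by
    refine (Measure.pi_eq fun s hs => ?_)
    rw [withDensity_apply _ (MeasurableSet.univ_pi hs), lintegral_box h0 hi hs]
    exact Finset.prod_congr rfl fun i _ => (withDensity_apply _ (hs i)).symm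
  ext S hS
  rw [pn, Measure.map_apply (cont_as e).measurable hS, e1,
    withDensity_apply _ (hS.preimage (cont_as e).measurable), withDensity_apply _ hS,
    ← (mp_as e).setLIntegral_comp_preimage hS hmt.ennreal_ofReal]
  refine lintegral_congr fun x => ?_
  unfold tw
  simp only [bl_as]

theorem den_tw (e : ι × κ ≃ σ) {g : Eu κ → ℝ} (hg : Den g) : Den (tw e g) := by
  refine ⟨fun z => Finset.prod_nonneg fun i _ => hg.1 _, tw_meas e hg.2, fun z w t ht ht1 => ?_, ?_⟩
  · unfold tw
    rw [← Real.finsetProd_rpow _ _ (fun i _ => hg.1 _), ← Real.finsetProd_rpow _ _ (fun i _ => hg.1 _),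
      ← Finset.prod_mul_distrib]
    refine Finset.prod_le_prod (fun i _ => mul_nonneg (Real.rpow_nonneg (hg.1 _) _)
      (Real.rpow_nonneg (hg.1 _) _)) fun i _ => ?_
    rw [map_add, map_smul, map_smul]
    exact hg.3 _ _ t ht ht1
  · rw [← (mp_as e).integral_comp (asE e).measurableEmbedding]
    unfold tw
    simp only [bl_as]
    rw [integral_fintype_prod_volume_eq_prod (fun (_ : ι) => g)]
    simp only [hg.mass, Finset.prod_const_one]

/-- integrability of the norm on the power -/
theorem sq_pn (e : ι × κ ≃ σ) {μ : Measure (Eu κ)} [IsProbabilityMeasure μ]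
    (hμ : Integrable (fun x => ‖x‖ ^ 2) μ) : Integrable (fun z => ‖z‖ ^ 2) (pn e μ) := by
  rw [integrable_pn]
  have e1 : (fun x : ι → Eu κ => ‖as e x‖ ^ 2) = fun x => ∑ i, ‖x i‖ ^ 2 := by
    funext x
    rw [norm_sq_bl e]
    simp only [bl_as]
  rw [e1]
  refine integrable_finsetSum _ fun i _ => ?_
  exact (measurePreserving_eval (fun _ : ι => μ) i).integrable_comp_of_integrable hμ

/-- covariance of the power -/
theorem cov_pn (e : ι × κ ≃ σ) {μ : Measure (Eu κ)} [IsProbabilityMeasure μ]
    (hμ : Integrable (fun x => ‖x‖ ^ 2) μ) {s : ℝ} (h : CovLe μ s) : CovLe (pn e μ) s := by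
  classical
  intro θ hθ
  have h1 : ProbabilityTheory.variance (fun z : Eu σ => ⟪z, θ⟫_ℝ) (pn e μ) =
      ProbabilityTheory.variance (∑ i : ι, fun x : ι → Eu κ => ⟪x i, bl e i θ⟫_ℝ)
        (Measure.pi fun _ : ι => μ) := by
    rw [pn, ProbabilityTheory.variance_map (by fun_prop) (cont_as e).measurable.aemeasurable]
    congr 1
    funext x
    simp only [Function.comp, Finset.sum_apply]
    rw [inner_bl e]
    simp only [bl_as]
  have hlp : ∀ θ' : Eu κ, MemLp (fun x : Eu κ => ⟪x, θ'⟫_ℝ) 2 μ := fun θ' => by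
    rw [memLp_two_iff_integrable_sq (by fun_prop)]
    exact (grow_inner_sq θ').integrable hμ
  rw [h1, ProbabilityTheory.IndepFun.variance_sum]
  · have h2 : ∀ i : ι, ProbabilityTheory.variance (fun x : ι → Eu κ => ⟪x i, bl e i θ⟫_ℝ)
        (Measure.pi fun _ : ι => μ) ≤ s * ‖bl e i θ‖ ^ 2 := by
      intro i
      have h3 : ProbabilityTheory.variance (fun x : ι → Eu κ => ⟪x i, bl e i θ⟫_ℝ)
          (Measure.pi fun _ : ι => μ) =
          ProbabilityTheory.variance (fun x : Eu κ => ⟪x, bl e i θ⟫_ℝ) μ := by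
        have h4 : Measure.map (fun x : ι → Eu κ => x i) (Measure.pi fun _ : ι => μ) = μ :=
          (measurePreserving_eval (fun _ : ι => μ) i).map_eq
        have h10 := ProbabilityTheory.variance_map (μ := Measure.pi fun _ : ι => μ)
          (X := fun x : Eu κ => ⟪x, bl e i θ⟫_ℝ) (Y := fun x : ι → Eu κ => x i)
          (by fun_prop) (measurable_pi_apply i).aemeasurable
        rw [h4] at h10
        exact h10.symm
      rw [h3]
      rcases eq_or_ne (bl e i θ) 0 with h5 | h5
      · rw [h5]
        simp only [inner_zero_right, norm_zero]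
        have h9 : ProbabilityTheory.variance (fun _ : Eu κ => (0 : ℝ)) μ = 0 :=
          ProbabilityTheory.variance_zero μ
        rw [h9]
        simp
      · have hn : 0 < ‖bl e i θ‖ := norm_pos_iff.2 h5
        have h6 := h (‖bl e i θ‖⁻¹ • bl e i θ) (by
          rw [norm_smul, norm_inv, norm_norm, inv_mul_cancel₀ hn.ne'])
        have h7 : (fun x : Eu κ => ⟪x, bl e i θ⟫_ℝ) =
            fun x => ‖bl e i θ‖ * ⟪x, ‖bl e i θ‖⁻¹ • bl e i θ⟫_ℝ := by
          funext x
          rw [inner_smul_right, ← mul_assoc, mul_inv_cancel₀ hn.ne', one_mul]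
        rw [h7, ProbabilityTheory.variance_const_mul, mul_comm]
        exact mul_le_mul_of_nonneg_right h6 (sq_nonneg _)
    calc _ ≤ ∑ i, s * ‖bl e i θ‖ ^ 2 := Finset.sum_le_sum fun i _ => h2 i
      _ = s := by rw [← Finset.mul_sum, ← norm_sq_bl e, hθ, one_pow, mul_one]
  · intro i _
    exact (hlp (bl e i θ)).comp_measurePreserving (measurePreserving_eval (fun _ : ι => μ) i)
  · intro i _ j _ hij
    have h8 := ProbabilityTheory.iIndepFun_pi (μ := fun _ : ι => μ)
      (X := fun (i : ι) (x : Eu κ) => ⟪x, bl e i θ⟫_ℝ) fun i => by fun_prop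
    exact h8.indepFun hij

end Pool.Agent.H776.TP
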