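import Pool.Agent.H776.TP1

/-!
# Tensor powers of a test function
-/

set_option autoImplicit false

namespace Pool.Agent.H776.TP

open MeasureTheory Set Filter Topology
open scoped ENNReal InnerProductSpace
open Pool.Agent.H776
open Q289.LD (Den)

variable {r M : ℕ} {κ σ : Type} [Fintype κ] [Fintype σ]

/-- the product of the values of `f` at the copies `(a, t a)` -/
noncomputable def ft (e : (Fin r × Fin M) × κ ≃ σ) (f : Eu κ → ℝ) (t : Fin r → Fin M) (z : Eu σ) : ℝ :=
  ∏ a, f (bl e (a, t a) z)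

theorem prod_pick (t : Fin r → Fin M) (u : Fin r × Fin M → ℝ) :
    ∏ a, u (a, t a) = ∏ p : Fin r × Fin M, if t p.1 = p.2 then u p else 1 := by
  rw [Fintype.prod_prod_type]
  refine Finset.prod_congr rfl fun a _ => ?_
  simp only
  rw [Finset.prod_ite_eq Finset.univ (t a) fun m => u (a, m), if_pos (Finset.mem_univ _)]

/-- orthogonality -/
theorem int_ft_mul (e : (Fin r × Fin M) × κ ≃ σ) {μ : Measure (Eu κ)} [IsProbabilityMeasure μ]
    {f : Eu κ → ℝ} (h0 : ∫ x, f x ∂μ = 0) (t t' : Fin r → Fin M) :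
    ∫ z, ft e f t z * ft e f t' z ∂(pn e μ) = if t = t' then (∫ x, f x ^ 2 ∂μ) ^ r else 0 := by
  obtain ⟨h, hh⟩ : ∃ h : Fin r × Fin M → Eu κ → ℝ, h = fun p x =>
    (if t p.1 = p.2 then f x else 1) * (if t' p.1 = p.2 then f x else 1) := ⟨_, rfl⟩
  have hp : ∀ p x, h p x = (if t p.1 = p.2 then f x else 1) * (if t' p.1 = p.2 then f x else 1) :=
    fun p x => by rw [hh]
  have e1 : ∀ z, ft e f t z * ft e f t' z = ∏ p : Fin r × Fin M, h p (bl e p z) := by
    intro z
    simp only [hp]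
    unfold ft
    rw [prod_pick t fun p => f (bl e p z), prod_pick t' fun p => f (bl e p z),
      ← Finset.prod_mul_distrib]
  rw [integral_congr_ae (Eventually.of_forall e1), integral_pn_prod e μ h]
  simp only [hp]
  by_cases htt : t = t'
  · rw [if_pos htt, ← htt]
    have e2 : ∀ p : Fin r × Fin M, ∫ x, (if t p.1 = p.2 then f x else 1) *
        (if t p.1 = p.2 then f x else 1) ∂μ = if t p.1 = p.2 then ∫ x, f x ^ 2 ∂μ else 1 := by
      intro p
      by_cases hp : t p.1 = p.2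
      · simp only [if_pos hp, sq]
      · simp only [if_neg hp, mul_one, integral_const, probReal_univ, smul_eq_mul]
    simp only [e2]
    rw [← prod_pick t fun _ => ∫ x, f x ^ 2 ∂μ]
    simp
  · rw [if_neg htt]
    obtain ⟨a, ha⟩ := Function.ne_iff.1 htt
    refine Finset.prod_eq_zero (Finset.mem_univ (a, t a)) ?_
    simp only [if_true, if_neg (fun h => ha h.symm : ¬ t' a = t a), mul_one]
    exact h0

/-- the coefficient of the derivative in the block `p` -/
noncomputable def gt (e : (Fin r × Fin M) × κ ≃ σ) (f : Eu κ → ℝ) (t : Fin r → Fin M) (a : Fin r)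
    (z : Eu σ) : ℝ := ∏ b ∈ Finset.univ.erase a, f (bl e (b, t b) z)

theorem prod_pick' (t : Fin r → Fin M) (a : Fin r) (u : Fin r × Fin M → ℝ) :
    ∏ b ∈ Finset.univ.erase a, u (b, t b) =
      ∏ p : Fin r × Fin M, if p.1 ≠ a ∧ t p.1 = p.2 then u p else 1 := by
  have h1 := prod_pick t fun p => if p.1 ≠ a then u p else 1
  have h2 : ∏ b ∈ Finset.univ.erase a, u (b, t b) = ∏ b, if b ≠ a then u (b, t b) else 1 := by
    rw [Finset.prod_ite, Finset.prod_const_one, mul_one]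
    refine Finset.prod_congr ?_ fun _ _ => rfl
    ext b
    simp
  rw [h2]
  refine h1.trans (Finset.prod_congr rfl fun p _ => ?_)
  by_cases h3 : t p.1 = p.2
  · by_cases h4 : p.1 = a
    · simp [h4]
    · simp [h3, h4]
  · simp [h3]

/-- the energy of the derivatives -/
theorem int_gt_mul (e : (Fin r × Fin M) × κ ≃ σ) {μ : Measure (Eu κ)} [IsProbabilityMeasure μ]
    {f : Eu κ → ℝ} (h0 : ∫ x, f x ∂μ = 0) {w : Eu κ → ℝ} {t t' : Fin r → Fin M} {a : Fin r}
    {m : Fin M} (ht : t a = m) (ht' : t' a = m) :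
    ∫ z, gt e f t a z * gt e f t' a z * w (bl e (a, m) z) ∂(pn e μ) =
      if t = t' then (∫ x, f x ^ 2 ∂μ) ^ (r - 1) * ∫ x, w x ∂μ else 0 := by
  obtain ⟨h, hh⟩ : ∃ h : Fin r × Fin M → Eu κ → ℝ, h = fun p x =>
    (if p.1 ≠ a ∧ t p.1 = p.2 then f x else 1) *
        (if p.1 ≠ a ∧ t' p.1 = p.2 then f x else 1) * (if p = (a, m) then w x else 1) := ⟨_, rfl⟩
  have hp : ∀ p x, h p x = (if p.1 ≠ a ∧ t p.1 = p.2 then f x else 1) *
        (if p.1 ≠ a ∧ t' p.1 = p.2 then f x else 1) * (if p = (a, m) then w x else 1) :=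
    fun p x => by rw [hh]
  have e1 : ∀ z, gt e f t a z * gt e f t' a z * w (bl e (a, m) z) = ∏ p : Fin r × Fin M,
      h p (bl e p z) := by
    intro z
    simp only [hp]
    unfold gt
    rw [prod_pick' t a fun p => f (bl e p z), prod_pick' t' a fun p => f (bl e p z),
      ← Finset.prod_mul_distrib]
    have e2 : w (bl e (a, m) z) = ∏ p : Fin r × Fin M, if p = (a, m) then w (bl e p z) else 1 := by
      rw [Finset.prod_ite_eq' Finset.univ (a, m) fun p => w (bl e p z),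
        if_pos (Finset.mem_univ _)]
    rw [e2, ← Finset.prod_mul_distrib]
  rw [integral_congr_ae (Eventually.of_forall e1), integral_pn_prod e μ h]
  simp only [hp]
  by_cases htt : t = t'
  · rw [if_pos htt, ← htt]
    have e2 : ∀ p : Fin r × Fin M, ∫ x, (if p.1 ≠ a ∧ t p.1 = p.2 then f x else 1) *
        (if p.1 ≠ a ∧ t p.1 = p.2 then f x else 1) * (if p = (a, m) then w x else 1) ∂μ =
        (if p.1 ≠ a ∧ t p.1 = p.2 then ∫ x, f x ^ 2 ∂μ else 1) *
          if p = (a, m) then ∫ x, w x ∂μ else 1 := by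
      intro p
      by_cases hp : p.1 ≠ a ∧ t p.1 = p.2
      · have hp2 : ¬ p = (a, m) := fun h => hp.1 (by rw [h])
        simp only [if_pos hp, if_neg hp2, mul_one, sq]
      · by_cases hp2 : p = (a, m)
        · simp only [if_neg hp, if_pos hp2, one_mul]
        · simp only [if_neg hp, if_neg hp2, mul_one, integral_const, probReal_univ, smul_eq_mul]
    simp only [e2]
    rw [Finset.prod_mul_distrib, ← prod_pick' t a fun _ => ∫ x, f x ^ 2 ∂μ,
      Finset.prod_ite_eq' Finset.univ (a, m) fun p => ∫ x, w x ∂μ, if_pos (Finset.mem_univ _),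
      Finset.prod_const, Finset.card_erase_of_mem (Finset.mem_univ _), Finset.card_univ,
      Fintype.card_fin]
  · rw [if_neg htt]
    obtain ⟨b, hb⟩ := Function.ne_iff.1 htt
    have hba : b ≠ a := fun h => hb (by rw [h, ht, ht'])
    refine Finset.prod_eq_zero (Finset.mem_univ (b, t b)) ?_
    have h1 : ¬ ((b, t b) : Fin r × Fin M) = (a, m) := fun h => hba (congrArg Prod.fst h)
    have h2 : ¬ (b ≠ a ∧ t' b = t b) := fun h => hb h.2.symm
    simp only [if_neg h1, if_neg h2, mul_one]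
    simpa [hba] using h0

theorem ft_cont (e : (Fin r × Fin M) × κ ≃ σ) {f : Eu κ → ℝ} (hf : Continuous f)
    (t : Fin r → Fin M) : Continuous (ft e f t) :=
  continuous_finsetProd _ fun a _ => hf.comp (bl e (a, t a)).continuous

theorem gt_cont (e : (Fin r × Fin M) × κ ≃ σ) {f : Eu κ → ℝ} (hf : Continuous f)
    (t : Fin r → Fin M) (a : Fin r) : Continuous (gt e f t a) :=
  continuous_finsetProd _ fun b _ => hf.comp (bl e (b, t b)).continuous

theorem ft_bdd (e : (Fin r × Fin M) × κ ≃ σ) {f : Eu κ → ℝ} {B : ℝ} (hB : ∀ x, |f x| ≤ B)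
    (t : Fin r → Fin M) (z : Eu σ) : |ft e f t z| ≤ B ^ r := by
  unfold ft
  rw [Finset.abs_prod]
  refine (Finset.prod_le_prod (fun _ _ => abs_nonneg _) fun a _ => hB _).trans ?_
  simp

theorem gt_bdd (e : (Fin r × Fin M) × κ ≃ σ) {f : Eu κ → ℝ} {B : ℝ} (hB : ∀ x, |f x| ≤ B)
    (t : Fin r → Fin M) (a : Fin r) (z : Eu σ) : |gt e f t a z| ≤ B ^ (r - 1) := by
  unfold gt
  rw [Finset.abs_prod]
  refine (Finset.prod_le_prod (fun _ _ => abs_nonneg _) fun a _ => hB _).trans ?_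
  rw [Finset.prod_const, Finset.card_erase_of_mem (Finset.mem_univ _), Finset.card_univ,
    Fintype.card_fin]

/-- the combination with coefficients `c` -/
noncomputable def Fc (e : (Fin r × Fin M) × κ ≃ σ) (f : Eu κ → ℝ) (c : (Fin r → Fin M) → ℝ)
    (z : Eu σ) : ℝ := ∑ t, c t * ft e f t z

/-- the coefficient of the derivative in the block `p` -/
noncomputable def Ac (e : (Fin r × Fin M) × κ ≃ σ) (f : Eu κ → ℝ) (c : (Fin r → Fin M) → ℝ)
    (p : Fin r × Fin M) (z : Eu σ) : ℝ := ∑ t, if t p.1 = p.2 then c t * gt e f t p.1 z else 0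

theorem Fc_hasFDerivAt (e : (Fin r × Fin M) × κ ≃ σ) {f : Eu κ → ℝ} (hf : ContDiff ℝ 1 f)
    (c : (Fin r → Fin M) → ℝ) (z : Eu σ) :
    HasFDerivAt (Fc e f c) (∑ p, Ac e f c p z • (fderiv ℝ f (bl e p z)).comp (bl e p)) z := by
  classical
  have h1 : ∀ t : Fin r → Fin M, HasFDerivAt (ft e f t)
      (∑ a, gt e f t a z • (fderiv ℝ f (bl e (a, t a) z)).comp (bl e (a, t a))) z := by
    intro t
    unfold ft gt
    refine HasFDerivAt.finsetProd fun a _ => ?_
    exact ((hf.differentiable one_ne_zero) _).hasFDerivAt.comp z (bl e (a, t a)).hasFDerivAt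
  have h2 : HasFDerivAt (Fc e f c) (∑ t, c t •
      ∑ a, gt e f t a z • (fderiv ℝ f (bl e (a, t a) z)).comp (bl e (a, t a))) z := by
    unfold Fc
    refine HasFDerivAt.fun_sum fun t _ => ?_
    exact (h1 t).const_mul (c t)
  have h3 : (∑ t, c t • ∑ a, gt e f t a z • (fderiv ℝ f (bl e (a, t a) z)).comp (bl e (a, t a))) =
      ∑ p, Ac e f c p z • (fderiv ℝ f (bl e p z)).comp (bl e p) := by
    unfold Ac
    simp only [Finset.sum_smul, Finset.smul_sum, smul_smul]
    rw [Finset.sum_comm (s := (Finset.univ : Finset (Fin r × Fin M)))]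
    refine Finset.sum_congr rfl fun t _ => ?_
    rw [Fintype.sum_prod_type]
    refine Finset.sum_congr rfl fun a _ => ?_
    simp only [ite_smul, zero_smul]
    rw [Finset.sum_ite_eq Finset.univ (t a) fun m => (c t * gt e f t a z) •
      (fderiv ℝ f (bl e (a, m) z)).comp (bl e (a, m)), if_pos (Finset.mem_univ _)]
  rw [← h3]
  exact h2

theorem Fc_fderiv_sq (e : (Fin r × Fin M) × κ ≃ σ) {f : Eu κ → ℝ} (hf : ContDiff ℝ 1 f)
    (c : (Fin r → Fin M) → ℝ) (z : Eu σ) :
    ‖fderiv ℝ (Fc e f c) z‖ ^ 2 ≤ ∑ p, Ac e f c p z ^ 2 * ‖fderiv ℝ f (bl e p z)‖ ^ 2 := by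
  obtain ⟨S, hS⟩ : ∃ S : ℝ, S = ∑ p, Ac e f c p z ^ 2 * ‖fderiv ℝ f (bl e p z)‖ ^ 2 := ⟨_, rfl⟩
  have hS0 : 0 ≤ S := by
    rw [hS]
    positivity
  have h1 : ‖fderiv ℝ (Fc e f c) z‖ ≤ Real.sqrt S := by
    rw [(Fc_hasFDerivAt e hf c z).fderiv]
    refine ContinuousLinearMap.opNorm_le_bound _ (Real.sqrt_nonneg _) fun h => ?_
    rw [sum_apply]
    have h2 : ∀ p : Fin r × Fin M,
        ‖(Ac e f c p z • (fderiv ℝ f (bl e p z)).comp (bl e p)) h‖ ≤
          (|Ac e f c p z| * ‖fderiv ℝ f (bl e p z)‖) * ‖bl e p h‖ := by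
      intro p
      rw [smul_apply, norm_smul, Real.norm_eq_abs,
        ContinuousLinearMap.comp_apply, mul_assoc]
      exact mul_le_mul_of_nonneg_left (ContinuousLinearMap.le_opNorm _ _) (abs_nonneg _)
    refine (norm_sum_le _ _).trans ((Finset.sum_le_sum fun p _ => h2 p).trans ?_)
    have h3 := Finset.sum_mul_sq_le_sq_mul_sq Finset.univ
      (fun p : Fin r × Fin M => |Ac e f c p z| * ‖fderiv ℝ f (bl e p z)‖) fun p => ‖bl e p h‖
    have h4 : ∑ p : Fin r × Fin M, (|Ac e f c p z| * ‖fderiv ℝ f (bl e p z)‖) ^ 2 = S := by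
      rw [hS]
      exact Finset.sum_congr rfl fun p _ => by rw [mul_pow, sq_abs]
    rw [h4, ← norm_sq_bl e] at h3
    refine abs_le_of_sq_le_sq' ?_ (by positivity) |>.2
    rw [mul_pow, Real.sq_sqrt hS0]
    exact h3
  rw [← hS]
  calc ‖fderiv ℝ (Fc e f c) z‖ ^ 2 ≤ Real.sqrt S ^ 2 := by gcongr
    _ = S := Real.sq_sqrt hS0

end Pool.Agent.H776.TP
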