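import Pool.Agent.H776.TP2

/-!
# The Poincare inequality from its weak form for powers
-/

set_option autoImplicit false

namespace Pool.Agent.H776.TP

open MeasureTheory Set Filter Topology
open scoped ENNReal InnerProductSpace
open Pool.Agent.H776
open Q289.LD (Den)

variable {r M : ℕ} {κ σ : Type} [Fintype κ] [Fintype σ]

theorem int_bc {α : Type} [TopologicalSpace α] [MeasurableSpace α] [OpensMeasurableSpace α]
    [SecondCountableTopology α] {m : Measure α} [IsFiniteMeasure m] {φ : α → ℝ} (hc : Continuous φ)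
    {B : ℝ} (hB : ∀ x, |φ x| ≤ B) : Integrable φ m :=
  Integrable.of_bound hc.aestronglyMeasurable B (Eventually.of_forall fun x => by
    rw [Real.norm_eq_abs]; exact hB x)

section est

variable (e : (Fin r × Fin M) × κ ≃ σ) {μ : Measure (Eu κ)} [IsProbabilityMeasure μ]
  {f : Eu κ → ℝ} {B L : ℝ}

include e in
theorem int_Fc_sq (hf : Tst f B L) (h0 : ∫ x, f x ∂μ = 0) (c : (Fin r → Fin M) → ℝ) :
    ∫ z, Fc e f c z ^ 2 ∂(pn e μ) = (∫ x, f x ^ 2 ∂μ) ^ r * ∑ t, c t ^ 2 := by
  have hi : ∀ t t', Integrable (fun z => ft e f t z * ft e f t' z) (pn e μ) := fun t t' =>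
    int_bc ((ft_cont e hf.diff.continuous t).mul (ft_cont e hf.diff.continuous t'))
      (B := B ^ r * B ^ r) fun z => by
        rw [abs_mul]
        exact mul_le_mul (ft_bdd e hf.bdd t z) (ft_bdd e hf.bdd t' z) (abs_nonneg _)
          ((abs_nonneg _).trans (ft_bdd e hf.bdd t z))
  have e1 : ∀ z, Fc e f c z ^ 2 = ∑ t, ∑ t', c t * c t' * (ft e f t z * ft e f t' z) := by
    intro z
    unfold Fc
    rw [sq, Finset.sum_mul_sum]
    exact Finset.sum_congr rfl fun t _ => Finset.sum_congr rfl fun t' _ => by ring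
  simp only [e1]
  rw [integral_finsetSum _ fun t _ => integrable_finsetSum _ fun t' _ => (hi t t').const_mul _,
    Finset.mul_sum]
  refine Finset.sum_congr rfl fun t _ => ?_
  rw [integral_finsetSum _ fun t' _ => (hi t t').const_mul _]
  simp only [integral_const_mul, int_ft_mul e h0, mul_ite, mul_zero]
  rw [Finset.sum_ite_eq Finset.univ t, if_pos (Finset.mem_univ _)]
  ring

include e in
theorem int_Ac_sq (hf : Tst f B L) (h0 : ∫ x, f x ∂μ = 0) (c : (Fin r → Fin M) → ℝ) :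
    ∫ z, ∑ p, Ac e f c p z ^ 2 * ‖fderiv ℝ f (bl e p z)‖ ^ 2 ∂(pn e μ) =
      r * ((∫ x, f x ^ 2 ∂μ) ^ (r - 1) * ∫ x, ‖fderiv ℝ f x‖ ^ 2 ∂μ) * ∑ t, c t ^ 2 := by
  have hfc : Continuous fun x => ‖fderiv ℝ f x‖ ^ 2 :=
    ((hf.diff.continuous_fderiv one_ne_zero).norm).pow 2
  have hi : ∀ (t t' : Fin r → Fin M) (p : Fin r × Fin M), Integrable (fun z =>
      gt e f t p.1 z * gt e f t' p.1 z * ‖fderiv ℝ f (bl e p z)‖ ^ 2) (pn e μ) := by
    intro t t' p
    refine int_bc (((gt_cont e hf.diff.continuous t p.1).mul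
      (gt_cont e hf.diff.continuous t' p.1)).mul (hfc.comp (bl e p).continuous))
      (B := B ^ (r - 1) * B ^ (r - 1) * L ^ 2) fun z => ?_
    have h1 := gt_bdd e hf.bdd t p.1 z
    have h2 := gt_bdd e hf.bdd t' p.1 z
    rw [abs_mul, abs_mul, abs_of_nonneg (by positivity : 0 ≤ ‖fderiv ℝ f (bl e p z)‖ ^ 2)]
    have h3 : ‖fderiv ℝ f (bl e p z)‖ ^ 2 ≤ L ^ 2 := by
      gcongr
      exact hf.grad _
    have h4 : 0 ≤ B ^ (r - 1) := (abs_nonneg _).trans h1
    exact mul_le_mul (mul_le_mul h1 h2 (abs_nonneg _) h4) h3 (by positivity) (by positivity)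
  have e1 : ∀ z, ∑ p, Ac e f c p z ^ 2 * ‖fderiv ℝ f (bl e p z)‖ ^ 2 =
      ∑ p : Fin r × Fin M, ∑ t, ∑ t', (if t p.1 = p.2 then c t else 0) *
        (if t' p.1 = p.2 then c t' else 0) *
        (gt e f t p.1 z * gt e f t' p.1 z * ‖fderiv ℝ f (bl e p z)‖ ^ 2) := by
    intro z
    refine Finset.sum_congr rfl fun p _ => ?_
    unfold Ac
    rw [sq, Finset.sum_mul_sum, Finset.sum_mul]
    refine Finset.sum_congr rfl fun t _ => ?_
    rw [Finset.sum_mul]
    refine Finset.sum_congr rfl fun t' _ => ?_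
    by_cases h1 : t p.1 = p.2
    · by_cases h2 : t' p.1 = p.2
      · simp only [if_pos h1, if_pos h2]
        ring
      · simp only [if_neg h2]
        ring
    · simp only [if_neg h1]
      ring
  simp only [e1]
  rw [integral_finsetSum _ fun p _ => integrable_finsetSum _ fun t _ => integrable_finsetSum _
    fun t' _ => (hi t t' p).const_mul _]
  have e2 : ∀ p : Fin r × Fin M, ∫ z, ∑ t, ∑ t', (if t p.1 = p.2 then c t else 0) *
        (if t' p.1 = p.2 then c t' else 0) *
        (gt e f t p.1 z * gt e f t' p.1 z * ‖fderiv ℝ f (bl e p z)‖ ^ 2) ∂(pn e μ) =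
      ∑ t, if t p.1 = p.2 then c t ^ 2 * ((∫ x, f x ^ 2 ∂μ) ^ (r - 1) *
        ∫ x, ‖fderiv ℝ f x‖ ^ 2 ∂μ) else 0 := by
    intro p
    rw [integral_finsetSum _ fun t _ => integrable_finsetSum _ fun t' _ =>
      (hi t t' p).const_mul _]
    refine Finset.sum_congr rfl fun t _ => ?_
    rw [integral_finsetSum _ fun t' _ => (hi t t' p).const_mul _]
    by_cases h1 : t p.1 = p.2
    · simp only [if_pos h1]
      rw [Finset.sum_eq_single t]
      · rw [if_pos h1, integral_const_mul]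
        have := int_gt_mul e h0 (w := fun x => ‖fderiv ℝ f x‖ ^ 2) h1 h1
        rw [if_pos rfl] at this
        rw [this]
        ring
      · intro t' _ htt
        by_cases h2 : t' p.1 = p.2
        · rw [if_pos h2, integral_const_mul]
          have := int_gt_mul e h0 (w := fun x => ‖fderiv ℝ f x‖ ^ 2) h1 h2
          rw [if_neg (fun h => htt h.symm)] at this
          rw [this, mul_zero]
        · rw [if_neg h2]
          simp
      · intro h
        exact absurd (Finset.mem_univ _) h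
    · simp only [if_neg h1]
      simp
  simp only [e2]
  rw [Finset.sum_comm, Finset.mul_sum]
  refine Finset.sum_congr rfl fun t _ => ?_
  rw [Fintype.sum_prod_type]
  simp only
  have e3 : ∀ a : Fin r, (∑ m : Fin M, if t a = m then c t ^ 2 * ((∫ x, f x ^ 2 ∂μ) ^ (r - 1) *
        ∫ x, ‖fderiv ℝ f x‖ ^ 2 ∂μ) else 0) = c t ^ 2 * ((∫ x, f x ^ 2 ∂μ) ^ (r - 1) *
        ∫ x, ‖fderiv ℝ f x‖ ^ 2 ∂μ) := by
    intro a
    rw [Finset.sum_ite_eq Finset.univ (t a), if_pos (Finset.mem_univ _)]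
  simp only [e3]
  rw [Finset.sum_const, Finset.card_univ, Fintype.card_fin, nsmul_eq_mul]
  ring

include e in
theorem Fc_tst (hf : Tst f B L) (c : (Fin r → Fin M) → ℝ) : ∃ B' L', Tst (Fc e f c) B' L' := by
  obtain ⟨R, hR⟩ : ∃ R : ℝ, R = ∑ p : Fin r × Fin M,
      (∑ t, |c t| * B ^ (r - 1)) ^ 2 * L ^ 2 := ⟨_, rfl⟩
  refine ⟨∑ t, |c t| * B ^ r, Real.sqrt R, ?_, fun z => ?_, fun z => ?_⟩
  · unfold Fc ft
    refine ContDiff.sum fun t _ => contDiff_const.mul (contDiff_prod fun a _ => ?_)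
    exact hf.diff.comp (bl e (a, t a)).contDiff
  · unfold Fc
    refine (Finset.abs_sum_le_sum_abs _ _).trans (Finset.sum_le_sum fun t _ => ?_)
    rw [abs_mul]
    exact mul_le_mul_of_nonneg_left (ft_bdd e hf.bdd t z) (abs_nonneg _)
  · have hA : ∀ p, |Ac e f c p z| ≤ ∑ t, |c t| * B ^ (r - 1) := by
      intro p
      unfold Ac
      refine (Finset.abs_sum_le_sum_abs _ _).trans (Finset.sum_le_sum fun t _ => ?_)
      have h1 := gt_bdd e hf.bdd t p.1 z
      split_ifs
      · rw [abs_mul]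
        exact mul_le_mul_of_nonneg_left h1 (abs_nonneg _)
      · rw [abs_zero]
        exact mul_nonneg (abs_nonneg _) ((abs_nonneg _).trans h1)
    have h2 : ‖fderiv ℝ (Fc e f c) z‖ ^ 2 ≤ R := by
      refine (Fc_fderiv_sq e hf.diff c z).trans ?_
      rw [hR]
      refine Finset.sum_le_sum fun p _ => ?_
      have h3 : Ac e f c p z ^ 2 ≤ (∑ t, |c t| * B ^ (r - 1)) ^ 2 := by
        rw [← sq_abs]
        gcongr
        exact hA p
      have h4 : ‖fderiv ℝ f (bl e p z)‖ ^ 2 ≤ L ^ 2 := by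
        gcongr
        exact hf.grad _
      exact mul_le_mul h3 h4 (by positivity) (by positivity)
    rw [← Real.sqrt_sq (norm_nonneg (fderiv ℝ (Fc e f c) z))]
    exact Real.sqrt_le_sqrt h2

/-- monomials -/
noncomputable def mono (α : σ → ℕ) (z : Eu σ) : ℝ := ∏ l, z l ^ α l

/-- Poincare inequality for the functions orthogonal to the monomials of degree less than `r` and to the
functions `g j` -/
def PoiM (m : Measure (Eu σ)) (A : ℝ) (r : ℕ) {k : ℕ} (g : Fin k → Eu σ → ℝ) : Prop :=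
  ∀ (F : Eu σ → ℝ) (B L : ℝ), Tst F B L → (∀ α : σ → ℕ, ∑ l, α l < r → ∫ z, F z * mono α z ∂m = 0) →
    (∀ j, ∫ z, F z * g j z ∂m = 0) → ∫ z, F z ^ 2 ∂m ≤ A * ∫ z, ‖fderiv ℝ F z‖ ^ 2 ∂m

include e in
/-- orthogonality to the monomials -/
theorem ft_mono (h0 : ∫ x, f x ∂μ = 0) (t : Fin r → Fin M) {α : σ → ℕ} (hα : ∑ l, α l < r) :
    ∫ z, ft e f t z * mono α z ∂(pn e μ) = 0 := by
  classical
  obtain ⟨a, ha⟩ : ∃ a : Fin r, ∀ b, α (e ((a, t a), b)) = 0 := by
    by_contra h
    push Not at h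
    choose b hb using h
    have hinj : Function.Injective fun a : Fin r => e ((a, t a), b a) := by
      intro a a' haa
      have := e.injective haa
      exact congrArg (fun q => q.1.1) this
    have h1 : ∑ a : Fin r, α (e ((a, t a), b a)) ≤ ∑ l, α l := by
      rw [← Finset.sum_image (f := α) (s := Finset.univ) (g := fun a : Fin r => e ((a, t a), b a))
        (fun a _ a' _ h => hinj h)]
      exact Finset.sum_le_sum_of_subset (Finset.subset_univ _)
    have h2 : ∑ _a : Fin r, 1 ≤ ∑ a : Fin r, α (e ((a, t a), b a)) :=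
      Finset.sum_le_sum fun a _ => Nat.one_le_iff_ne_zero.2 (hb a)
    simp only [Finset.sum_const, Finset.card_univ, Fintype.card_fin, smul_eq_mul, mul_one] at h2
    omega
  obtain ⟨h, hh⟩ : ∃ h : Fin r × Fin M → Eu κ → ℝ, h = fun p x =>
    (if t p.1 = p.2 then f x else 1) * ∏ b, x b ^ α (e (p, b)) := ⟨_, rfl⟩
  have hp : ∀ p x, h p x = (if t p.1 = p.2 then f x else 1) * ∏ b, x b ^ α (e (p, b)) :=
    fun p x => by rw [hh]
  have e1 : ∀ z, ft e f t z * mono α z = ∏ p : Fin r × Fin M, h p (bl e p z) := by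
    intro z
    simp only [hp]
    unfold ft mono
    rw [prod_pick t fun p => f (bl e p z), Finset.prod_mul_distrib]
    congr 1
    rw [← Equiv.prod_comp e, Fintype.prod_prod_type]
    rfl
  rw [integral_congr_ae (Eventually.of_forall e1), integral_pn_prod e μ h]
  refine Finset.prod_eq_zero (Finset.mem_univ (a, t a)) ?_
  simp only [hp, ha, pow_zero, Finset.prod_const_one, mul_one, if_true]
  exact h0

include e in
/-- the main step -/
theorem var_le (hr : 0 < r) {k : ℕ} (hk : k < M ^ r) {A : ℝ} (hA : 0 ≤ A) {g : Fin k → Eu σ → ℝ}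
    (hg : ∀ j, MemLp (g j) 2 (pn e μ)) (hmono : ∀ α : σ → ℕ, Integrable (mono α) (pn e μ))
    (H : PoiM (pn e μ) A r g) (hf : Tst f B L)
    (h0 : ∫ x, f x ∂μ = 0) :
    ∫ x, f x ^ 2 ∂μ ≤ r * A * ∫ x, ‖fderiv ℝ f x‖ ^ 2 ∂μ := by
  have hgi : ∀ j, Integrable (g j) (pn e μ) := fun j => (hg j).integrable one_le_two
  have hfg : ∀ t j, Integrable (fun z => ft e f t z * g j z) (pn e μ) := fun t j =>
    (hgi j).bdd_mul (c := B ^ r) (ft_cont e hf.diff.continuous t).aestronglyMeasurable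
      (Eventually.of_forall fun z => by rw [Real.norm_eq_abs]; exact ft_bdd e hf.bdd t z)
  -- a combination orthogonal to all `g j`
  obtain ⟨c, hc0, hc⟩ : ∃ c : (Fin r → Fin M) → ℝ, c ≠ 0 ∧
      ∀ j, ∫ z, Fc e f c z * g j z ∂(pn e μ) = 0 := by
    let T : ((Fin r → Fin M) → ℝ) →ₗ[ℝ] (Fin k → ℝ) :=
      { toFun := fun c j => ∑ t, c t * ∫ z, ft e f t z * g j z ∂(pn e μ)
        map_add' := fun c c' => by
          funext j
          simp only [Pi.add_apply, add_mul, Finset.sum_add_distrib]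
        map_smul' := fun a c => by
          funext j
          simp only [Pi.smul_apply, smul_eq_mul, RingHom.id_apply, Finset.mul_sum, mul_assoc] }
    have hd : Module.finrank ℝ (Fin k → ℝ) < Module.finrank ℝ ((Fin r → Fin M) → ℝ) := by
      rw [Module.finrank_fin_fun, Module.finrank_fintype_fun_eq_card]
      simpa using hk
    obtain ⟨c, hc, hc0⟩ := (Submodule.ne_bot_iff _).1 (LinearMap.ker_ne_bot_of_finrank_lt (f := T) hd)
    refine ⟨c, hc0, fun j => ?_⟩
    have h1 : ∑ t, c t * ∫ z, ft e f t z * g j z ∂(pn e μ) = 0 := congrFun (LinearMap.mem_ker.1 hc) j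
    rw [← h1]
    have e1 : ∀ z, Fc e f c z * g j z = ∑ t, c t * (ft e f t z * g j z) := by
      intro z
      unfold Fc
      rw [Finset.sum_mul]
      exact Finset.sum_congr rfl fun t _ => by ring
    simp only [e1]
    rw [integral_finsetSum _ fun t _ => (hfg t j).const_mul _]
    simp only [integral_const_mul]
  obtain ⟨B', L', hF⟩ := Fc_tst e hf c
  have hm : ∀ α : σ → ℕ, ∑ l, α l < r → ∫ z, Fc e f c z * mono α z ∂(pn e μ) = 0 := by
    intro α hα
    have e1 : ∀ z, Fc e f c z * mono α z = ∑ t, c t * (ft e f t z * mono α z) := by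
      intro z
      unfold Fc
      rw [Finset.sum_mul]
      exact Finset.sum_congr rfl fun t _ => by ring
    have hfm : ∀ t, Integrable (fun z => ft e f t z * mono α z) (pn e μ) := fun t =>
      (hmono α).bdd_mul (c := B ^ r) (ft_cont e hf.diff.continuous t).aestronglyMeasurable
        (Eventually.of_forall fun z => by rw [Real.norm_eq_abs]; exact ft_bdd e hf.bdd t z)
    simp only [e1]
    rw [integral_finsetSum _ fun t _ => (hfm t).const_mul _]
    simp only [integral_const_mul, ft_mono e h0 _ hα, mul_zero, Finset.sum_const_zero]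
  have h1 := H _ B' L' hF hm hc
  rw [int_Fc_sq e hf h0] at h1
  have hS : 0 < ∑ t, c t ^ 2 := by
    obtain ⟨t, ht⟩ := Function.ne_iff.1 hc0
    exact Finset.sum_pos' (fun _ _ => sq_nonneg _) ⟨t, Finset.mem_univ _, by
      have : c t ≠ 0 := ht
      positivity⟩
  have hfc : Continuous fun x => ‖fderiv ℝ f x‖ ^ 2 :=
    ((hf.diff.continuous_fderiv one_ne_zero).norm).pow 2
  have h2 : ∫ z, ‖fderiv ℝ (Fc e f c) z‖ ^ 2 ∂(pn e μ) ≤
      r * ((∫ x, f x ^ 2 ∂μ) ^ (r - 1) * ∫ x, ‖fderiv ℝ f x‖ ^ 2 ∂μ) * ∑ t, c t ^ 2 := by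
    rw [← int_Ac_sq e hf h0]
    refine integral_mono ?_ ?_ (Fc_fderiv_sq e hf.diff c)
    · refine int_bc (((hF.diff.continuous_fderiv one_ne_zero).norm).pow 2) (B := L' ^ 2) fun z => ?_
      rw [abs_of_nonneg (by positivity)]
      have := hF.grad z
      gcongr
    · refine integrable_finsetSum _ fun p _ => ?_
      have hAc : Continuous (Ac e f c p) := by
        unfold Ac
        refine continuous_finsetSum _ fun t _ => ?_
        split_ifs
        · exact continuous_const.mul (gt_cont e hf.diff.continuous t p.1)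
        · exact continuous_const
      refine int_bc ((hAc.pow 2).mul (hfc.comp (bl e p).continuous))
        (B := (∑ t, |c t| * B ^ (r - 1)) ^ 2 * L ^ 2) fun z => ?_
      have hA' : |Ac e f c p z| ≤ ∑ t, |c t| * B ^ (r - 1) := by
        unfold Ac
        refine (Finset.abs_sum_le_sum_abs _ _).trans (Finset.sum_le_sum fun t _ => ?_)
        have h1 := gt_bdd e hf.bdd t p.1 z
        split_ifs
        · rw [abs_mul]
          exact mul_le_mul_of_nonneg_left h1 (abs_nonneg _)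
        · rw [abs_zero]
          exact mul_nonneg (abs_nonneg _) ((abs_nonneg _).trans h1)
      rw [abs_of_nonneg (by positivity)]
      have h3 : Ac e f c p z ^ 2 ≤ (∑ t, |c t| * B ^ (r - 1)) ^ 2 := by
        rw [← sq_abs]
        gcongr
      have h4 : ‖fderiv ℝ f (bl e p z)‖ ^ 2 ≤ L ^ 2 := by
        gcongr
        exact hf.grad _
      exact mul_le_mul h3 h4 (by positivity) (by positivity)
  have h3 := h1.trans (mul_le_mul_of_nonneg_left h2 hA)
  obtain ⟨v, hv⟩ : ∃ v : ℝ, v = ∫ x, f x ^ 2 ∂μ := ⟨_, rfl⟩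
  obtain ⟨E, hE⟩ : ∃ E : ℝ, E = ∫ x, ‖fderiv ℝ f x‖ ^ 2 ∂μ := ⟨_, rfl⟩
  rw [← hv, ← hE] at h3 ⊢
  have hv0 : 0 ≤ v := by
    rw [hv]
    exact integral_nonneg fun x => sq_nonneg _
  have hE0 : 0 ≤ E := by
    rw [hE]
    exact integral_nonneg fun x => by positivity
  rcases hv0.eq_or_lt with h4 | h4
  · rw [← h4]
    positivity
  · obtain ⟨r', rfl⟩ : ∃ r', r = r' + 1 := ⟨r - 1, by omega⟩
    rw [Nat.add_sub_cancel] at h3
    have h5 : v ^ r' * (∑ t, c t ^ 2) * v ≤ v ^ r' * (∑ t, c t ^ 2) * (((r' + 1 : ℕ) : ℝ) * A * E) := by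
      calc v ^ r' * (∑ t, c t ^ 2) * v = v ^ (r' + 1) * ∑ t, c t ^ 2 := by ring
        _ ≤ _ := h3
        _ = _ := by ring
    exact le_of_mul_le_mul_left h5 (by positivity)

end est

end Pool.Agent.H776.TP
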