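import Pool.Agent.H776.TP3

/-!
# Powers: moments, Gaussian measures on orthants
-/

set_option autoImplicit false

namespace Pool.Agent.H776.TP

open MeasureTheory Set Filter Topology
open scoped ENNReal InnerProductSpace Matrix
open Pool.Agent.H776
open Q289.LD (Den Ex)

variable {ι κ σ : Type} [Fintype ι] [Fintype κ] [Fintype σ]

theorem den_mom {ρ : Eu σ → ℝ} (hρ : Den ρ) (k : ℕ) : Integrable (fun x => ‖x‖ ^ k * ρ x) := by
  obtain ⟨M, c, hM, hc, hE⟩ := Pool.Agent.Q124.LD.exp σ ρ hρ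
  have h1 := (Q38.LD.Lim.integ (κ := σ) (half_pos hc)).const_mul (k.factorial / (c / 2) ^ k * M)
  refine h1.mono' ((by fun_prop : Measurable fun x : Eu σ => ‖x‖ ^ k).mul
    hρ.meas).aestronglyMeasurable (Eventually.of_forall fun x => ?_)
  rw [Real.norm_of_nonneg (mul_nonneg (by positivity) (hρ.nonneg x))]
  have h2 : ‖x‖ ^ k ≤ k.factorial / (c / 2) ^ k * Real.exp (c / 2 * ‖x‖) := by
    have h3 := Real.pow_div_factorial_le_exp (c / 2 * ‖x‖) (by positivity) k
    have hck : 0 < (c / 2) ^ k := by positivity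
    have hkf : (0 : ℝ) < k.factorial := by positivity
    rw [mul_pow, div_le_iff₀ hkf] at h3
    rw [div_mul_eq_mul_div, le_div_iff₀ hck]
    calc ‖x‖ ^ k * (c / 2) ^ k = (c / 2) ^ k * ‖x‖ ^ k := mul_comm _ _
      _ ≤ _ := h3
      _ = _ := mul_comm _ _
  have h4 : Real.exp (c / 2 * ‖x‖) * Real.exp (-(c * ‖x‖)) = Real.exp (-(c / 2 * ‖x‖)) := by
    rw [← Real.exp_add]
    congr 1
    ring
  calc ‖x‖ ^ k * ρ x ≤ (k.factorial / (c / 2) ^ k * Real.exp (c / 2 * ‖x‖)) *
        (M * Real.exp (-(c * ‖x‖))) :=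
        mul_le_mul h2 (hE x) (hρ.nonneg x) (by positivity)
    _ = k.factorial / (c / 2) ^ k * M * (Real.exp (c / 2 * ‖x‖) * Real.exp (-(c * ‖x‖))) := by ring
    _ = k.factorial / (c / 2) ^ k * M * (1 * Real.exp (-(c / 2 * ‖x‖))) := by rw [h4, one_mul]
    _ ≤ _ := by
      refine mul_le_mul_of_nonneg_left ?_ (by positivity)
      refine mul_le_mul_of_nonneg_right ?_ (Real.exp_pos _).le
      nlinarith [sq_nonneg ‖x‖]

theorem mono_meas (α : σ → ℕ) : Measurable (mono α) := by
  unfold mono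
  exact Finset.measurable_prod _ fun l _ => by fun_prop

theorem mono_le (α : σ → ℕ) (z : Eu σ) : |mono α z| ≤ ‖z‖ ^ (∑ l, α l) := by
  unfold mono
  rw [Finset.abs_prod, ← Finset.prod_pow_eq_pow_sum]
  refine Finset.prod_le_prod (fun _ _ => abs_nonneg _) fun l _ => ?_
  rw [abs_pow]
  have : |z l| ≤ ‖z‖ := by
    rw [← Real.norm_eq_abs]
    exact PiLp.norm_apply_le z l
  gcongr

theorem mono_int {ρ : Eu σ → ℝ} (hρ : Den ρ) (α : σ → ℕ) :
    Integrable (mono α) (volume.withDensity fun x => ENNReal.ofReal (ρ x)) := by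
  rw [integrable_withDensity_iff_integrable_smul' hρ.meas.ennreal_ofReal
    (Eventually.of_forall fun x => ENNReal.ofReal_lt_top)]
  refine (den_mom hρ (∑ l, α l)).mono' ?_ (Eventually.of_forall fun x => ?_)
  · exact (hρ.meas.ennreal_ofReal.ennreal_toReal.smul (mono_meas α)).aestronglyMeasurable
  · rw [ENNReal.toReal_ofReal (hρ.nonneg x), smul_eq_mul, norm_mul,
      Real.norm_of_nonneg (hρ.nonneg x), mul_comm, Real.norm_eq_abs]
    exact mul_le_mul_of_nonneg_right (mono_le α x) (hρ.nonneg x)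

/-- the power of a normalised density -/
theorem pn_nm (e : ι × κ ≃ σ) {h : Eu κ → ℝ} (hw : Wt h) : pn e (nm h) = nm (tw e h) := by
  have hp := hw.prob
  have hZ := hw.pos
  unfold nm at hp ⊢
  rw [pn_eq e (fun x => div_nonneg (hw.nonneg x) hZ.le) (hw.meas.div_const _)
    (hw.integrable.div_const _)]
  congr 1
  funext z
  congr 1
  have e1 : ∫ y, tw e h y = (∫ y, h y) ^ Fintype.card ι := by
    rw [← (mp_as e).integral_comp (asE e).measurableEmbedding]
    unfold tw
    simp only [bl_as]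
    rw [integral_fintype_prod_volume_eq_prod (fun (_ : ι) => h)]
    simp
  rw [e1]
  unfold tw
  rw [Finset.prod_div_distrib]
  simp

theorem nm_den {h : Eu κ → ℝ} (hw : Wt h)
    (hl : ∀ x y : Eu κ, ∀ t : ℝ, 0 < t → t < 1 → h x ^ (1 - t) * h y ^ t ≤ h ((1 - t) • x + t • y)) :
    Den fun x => h x / ∫ y, h y := by
  have hZ := hw.pos
  refine ⟨fun x => div_nonneg (hw.nonneg x) hZ.le, hw.meas.div_const _, fun x y t ht ht1 => ?_, ?_⟩
  · rw [Real.div_rpow (hw.nonneg x) hZ.le, Real.div_rpow (hw.nonneg y) hZ.le, div_mul_div_comm,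
      ← Real.rpow_add hZ, sub_add_cancel, Real.rpow_one]
    exact div_le_div_of_nonneg_right (hl x y t ht ht1) hZ.le
  · rw [integral_div, div_self hZ.ne']

section gauss

variable [DecidableEq ι]

/-- block diagonal matrix -/
def Qp (e : ι × κ ≃ σ) (Q : Matrix κ κ ℝ) : Matrix σ σ ℝ :=
  Matrix.of fun l l' => if (e.symm l).1 = (e.symm l').1 then Q (e.symm l).2 (e.symm l').2 else 0

theorem qf_Qp (e : ι × κ ≃ σ) (Q : Matrix κ κ ℝ) (z : Eu σ) :
    qf (Qp e Q) z = ∑ i, qf Q (bl e i z) := by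
  unfold qf Qp
  simp only [Matrix.of_apply]
  rw [← Equiv.sum_comp e, Fintype.sum_prod_type]
  refine Finset.sum_congr rfl fun i _ => ?_
  refine Finset.sum_congr rfl fun a _ => ?_
  rw [← Equiv.sum_comp e, Fintype.sum_prod_type]
  simp only [Equiv.symm_apply_apply]
  rw [Finset.sum_eq_single i]
  · simp only [if_true]
    rfl
  · intro j _ hj
    refine Finset.sum_eq_zero fun b _ => ?_
    rw [if_neg (fun h => hj h.symm), zero_mul, zero_mul]
  · intro h
    exact absurd (Finset.mem_univ _) h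

theorem Qp_pd (e : ι × κ ≃ σ) {Q : Matrix κ κ ℝ} (hQ : Q.PosDef) : (Qp e Q).PosDef := by
  have hq : ∀ {τ : Type} [Fintype τ] (S : Matrix τ τ ℝ) (x : τ → ℝ),
      star x ⬝ᵥ S.mulVec x = qf S x := by
    intro τ _ S x
    unfold qf
    simp only [dotProduct, Matrix.mulVec, star_trivial, Finset.mul_sum]
    refine Finset.sum_congr rfl fun i _ => Finset.sum_congr rfl fun j _ => ?_
    ring
  refine Matrix.PosDef.of_dotProduct_mulVec_pos ?_ fun x hx0 => ?_
  · ext l l'
    have hs : ∀ a b, Q a b = Q b a := fun a b => by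
      have := congrFun (congrFun hQ.isHermitian.eq b) a
      simpa using this
    simp only [Matrix.conjTranspose_apply, Qp, Matrix.of_apply, star_trivial]
    by_cases h : (e.symm l).1 = (e.symm l').1
    · rw [if_pos h, if_pos h.symm, hs]
    · rw [if_neg h, if_neg (fun h' => h h'.symm)]
  · rw [hq]
    have h1 := qf_Qp e Q (WithLp.toLp 2 x)
    have h2 : qf (Qp e Q) (WithLp.toLp 2 x : Eu σ) = qf (Qp e Q) x := rfl
    rw [← h2, h1]
    have h3 : ∀ y : κ → ℝ, 0 ≤ qf Q y := fun y => by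
      rw [← hq]
      exact hQ.posSemidef.dotProduct_mulVec_nonneg y
    obtain ⟨l, hl⟩ := Function.ne_iff.1 hx0
    refine Finset.sum_pos' (fun i _ => h3 _) ⟨(e.symm l).1, Finset.mem_univ _, ?_⟩
    rw [← hq]
    refine hQ.dotProduct_mulVec_pos fun h => hl ?_
    have := congrFun h (e.symm l).2
    have h5 : (bl e (e.symm l).1 (WithLp.toLp 2 x : Eu σ)) (e.symm l).2 = x l := by
      rw [bl_apply, Prod.mk.eta, Equiv.apply_symm_apply]
    rw [← h5]
    exact this

theorem tw_gq (e : ι × κ ≃ σ) (Q : Matrix κ κ ℝ) : tw e (gq Q) = gq (Qp e Q) := by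
  classical
  funext z
  unfold tw gq
  by_cases h : ∀ l, 0 ≤ z l
  · rw [if_pos h]
    have h1 : ∀ i a, 0 ≤ bl e i z a := fun i a => h _
    simp only [h1, implies_true, if_true]
    rw [← Real.exp_sum, qf_Qp, Finset.sum_neg_distrib, Finset.sum_div]
  · rw [if_neg h]
    push Not at h
    obtain ⟨l, hl⟩ := h
    refine Finset.prod_eq_zero (Finset.mem_univ (e.symm l).1) (if_neg fun h => ?_)
    have := h (e.symm l).2
    rw [bl_apply, Prod.mk.eta, Equiv.apply_symm_apply] at this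
    linarith

end gauss

end Pool.Agent.H776.TP
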