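import Pool.Agent.H776.TP4

/-!
# Powers: from the weak inequalities to the Poincare inequality
-/

set_option autoImplicit false

namespace Pool.Agent.H776.TP

open MeasureTheory Set Filter Topology
open scoped ENNReal InnerProductSpace Matrix
open Pool.Agent.H776
open Q289.LD (Den Ex)

/-- Euclidean space of dimension `n` -/
abbrev Euc (n : ℕ) : Type := EuclideanSpace ℝ (Fin n)

/-- the law of `N` independent copies -/
noncomputable def power {n : ℕ} (N : ℕ) (μ : Measure (Euc n)) : Measure (Euc (N * n)) :=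
  (Measure.pi fun _ : Fin N => μ).map fun x =>
    WithLp.toLp 2 fun l => x (finProdFinEquiv.symm l).1 (finProdFinEquiv.symm l).2

/-- the enumeration of the coordinates of `r M` copies -/
def en (r M n : ℕ) : (Fin r × Fin M) × Fin n ≃ Fin (r * M * n) :=
  (finProdFinEquiv.prodCongr (Equiv.refl _)).trans finProdFinEquiv

theorem power_eq {n : ℕ} (r M : ℕ) (μ : Measure (Euc n)) [IsProbabilityMeasure μ] :
    power (r * M) μ = pn (en r M n) μ := by
  have h1 : (Measure.pi fun _ : Fin r × Fin M => μ).map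
      (MeasurableEquiv.piCongrLeft (fun _ : Fin (r * M) => Euc n) finProdFinEquiv) =
      Measure.pi fun _ : Fin (r * M) => μ :=
    Measure.pi_map_piCongrLeft (μ := fun _ : Fin (r * M) => μ) (finProdFinEquiv : Fin r × Fin M ≃ _)
  unfold power
  rw [← h1, Measure.map_map (by
    exact (PiLp.continuous_toLp 2 _).measurable.comp (measurable_pi_lambda _ fun l => by fun_prop))
    (MeasurableEquiv.measurable _)]
  unfold pn
  congr 1
  funext x
  ext l
  simp only [Function.comp, as_apply]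
  have h2 : ∀ j : Fin (r * M), (MeasurableEquiv.piCongrLeft (fun _ : Fin (r * M) => Euc n)
      finProdFinEquiv) x j = x (finProdFinEquiv.symm j) := by
    intro j
    obtain ⟨i, rfl⟩ := finProdFinEquiv.surjective j
    rw [MeasurableEquiv.coe_piCongrLeft, Equiv.piCongrLeft_apply_apply, Equiv.symm_apply_apply]
  rw [h2]
  rfl

/-- Poincare inequality modulo the polynomials of degree at most `D` and `k` functions -/
def PM {n : ℕ} (D k : ℕ) (A : ℝ) (μ : Measure (Euc n)) : Prop :=
  ∃ g : Fin k → Euc n → ℝ, (∀ j, MemLp (g j) 2 μ) ∧ ∀ (f : Euc n → ℝ) (B L : ℝ), Tst f B L →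
    (∀ α : Fin n → ℕ, ∑ i, α i ≤ D → ∫ x, f x * ∏ i, x i ^ α i ∂μ = 0) →
    (∀ j, ∫ x, f x * g j x ∂μ = 0) → ∫ x, f x ^ 2 ∂μ ≤ A * ∫ x, ‖fderiv ℝ f x‖ ^ 2 ∂μ

theorem Tst.sub_const {E : Type*} [NormedAddCommGroup E] [NormedSpace ℝ E] {f : E → ℝ} {B L : ℝ}
    (h : Tst f B L) (m : ℝ) : Tst (fun x => f x - m) (B + |m|) L := by
  refine ⟨h.diff.sub contDiff_const, fun x => ?_, fun x => ?_⟩
  · exact (abs_sub _ _).trans (add_le_add_left (h.bdd x) _)
  · have : fderiv ℝ (fun x => f x - m) x = fderiv ℝ f x := fderiv_sub_const m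
    rw [this]
    exact h.grad x

/-- **the inequality for one measure** -/
theorem poi_of_pm {n : ℕ} {ρ : Euc n → ℝ} (hρ : Den ρ) {μ : Measure (Euc n)}
    [IsProbabilityMeasure μ] (hμ : μ = volume.withDensity fun x => ENNReal.ofReal (ρ x))
    {D M k : ℕ} (hk : k < M ^ (D + 1)) {A : ℝ} (hA : 0 ≤ A)
    (H : PM D k A (power ((D + 1) * M) μ)) : Poi μ ((D + 1) * A) := by
  intro f B L hf
  rw [power_eq] at H
  obtain ⟨g, hg, H⟩ := H
  obtain ⟨m, hm⟩ : ∃ m : ℝ, m = ∫ x, f x ∂μ := ⟨_, rfl⟩
  have hfi : Integrable f μ := int_bc hf.diff.continuous hf.bdd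
  have h0 : ∫ x, (f x - m) ∂μ = 0 := by
    rw [integral_sub hfi (integrable_const _), integral_const, probReal_univ, one_smul, hm, sub_self]
  have hden : Den (tw (en (D + 1) M n) ρ) := den_tw _ hρ
  have hpn : pn (en (D + 1) M n) μ =
      volume.withDensity fun z => ENNReal.ofReal (tw (en (D + 1) M n) ρ z) := by
    have hp : IsProbabilityMeasure (volume.withDensity fun x => ENNReal.ofReal (ρ x)) := by
      rw [← hμ]
      infer_instance
    have hint : Integrable ρ := by
      have := den_mom hρ 0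
      simpa using this
    rw [hμ]
    exact pn_eq _ hρ.nonneg hρ.meas hint
  have h1 := var_le (en (D + 1) M n) (μ := μ) (f := fun x => f x - m) (Nat.succ_pos D) hk hA hg
    (fun α => by
      rw [hpn]
      exact mono_int hden α)
    (fun F B' L' hF hm' hg' => H F B' L' hF (fun α hα => hm' α (Nat.lt_succ_of_le hα)) hg')
    (Tst.sub_const hf m) h0
  have h2 : ∀ x, fderiv ℝ (fun x => f x - m) x = fderiv ℝ f x := fun x => fderiv_sub_const m
  simp only [h2] at h1
  have h3 : ∫ x, (f x - m) ^ 2 ∂μ = (∫ x, f x ^ 2 ∂μ) - (∫ x, f x ∂μ) ^ 2 := by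
    have hf2 : Integrable (fun x => f x ^ 2) μ := int_bc (hf.diff.continuous.pow 2) (B := B ^ 2)
      fun x => by
        rw [abs_pow]
        have := hf.bdd x
        gcongr
    have e1 : ∀ x, (f x - m) ^ 2 = f x ^ 2 - 2 * m * f x + m ^ 2 := fun x => by ring
    simp only [e1]
    rw [integral_add (f := fun x => f x ^ 2 - 2 * m * f x) (g := fun _ => m ^ 2)
      (hf2.sub (hfi.const_mul _)) (integrable_const _),
      integral_sub (f := fun x => f x ^ 2) (g := fun x => 2 * m * f x) hf2 (hfi.const_mul _),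
      integral_const_mul, integral_const, probReal_univ, one_smul, ← hm]
    ring
  rw [h3] at h1
  push_cast at h1
  exact h1

/-- the number of copies -/
theorem count (D B n : ℕ) : ∃ M, 0 < M ∧ B * ((D + 1) * M * n) ^ D < M ^ (D + 1) := by
  refine ⟨B * ((D + 1) * n) ^ D + 1, Nat.succ_pos _, ?_⟩
  obtain ⟨M, hM⟩ : ∃ M, M = B * ((D + 1) * n) ^ D + 1 := ⟨_, rfl⟩
  rw [← hM]
  have hM0 : 0 < M := by omega
  calc B * ((D + 1) * M * n) ^ D = (B * ((D + 1) * n) ^ D) * M ^ D := by
        rw [show (D + 1) * M * n = (D + 1) * n * M by ring, mul_pow]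
        ring
    _ < M * M ^ D := Nat.mul_lt_mul_of_pos_right (by omega) (Nat.pow_pos hM0)
    _ = M ^ (D + 1) := by ring

end Pool.Agent.H776.TP
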