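import Pool.Agent.H776.TP1
import Pool.Agent.H776.EV6

/-!
# Powers of domains, resampling of one block, products of signs
-/

set_option autoImplicit false

namespace Pool.Agent.H776.TS

open MeasureTheory Set Filter Topology
open scoped ENNReal InnerProductSpace
open Pool.Agent.H776.TP

variable {ι κ σ : Type} [Fintype ι] [Fintype κ] [Fintype σ]

/-- the power of a set -/
def pw (e : ι × κ ≃ σ) (Ω : Set (Eu κ)) : Set (Eu σ) := {z | ∀ i, bl e i z ∈ Ω}

section geom

variable (e : ι × κ ≃ σ) {Ω : Set (Eu κ)}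

theorem pw_open (ho : IsOpen Ω) : IsOpen (pw e Ω) := by
  have h : pw e Ω = ⋂ i, (bl e i) ⁻¹' Ω := by
    ext z
    simp [pw]
  rw [h]
  exact isOpen_iInter_of_finite fun i => ho.preimage (bl e i).continuous

omit [Fintype ι] in
theorem pw_convex (hc : Convex ℝ Ω) : Convex ℝ (pw e Ω) := by
  intro z hz w hw a b ha hb hab i
  rw [map_add, map_smul, map_smul]
  exact hc (hz i) (hw i) ha hb hab

theorem pw_bdd (hb : Bornology.IsBounded Ω) : Bornology.IsBounded (pw e Ω) := by
  obtain ⟨R, hR⟩ := hb.exists_norm_le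
  refine isBounded_iff_forall_norm_le.2 ⟨Real.sqrt (Fintype.card ι * R ^ 2), fun z hz => ?_⟩
  refine Real.le_sqrt_of_sq_le ?_
  rw [norm_sq_bl e]
  calc ∑ i, ‖bl e i z‖ ^ 2 ≤ ∑ _i : ι, R ^ 2 :=
        Finset.sum_le_sum fun i _ => pow_le_pow_left₀ (norm_nonneg _) (hR _ (hz i)) 2
    _ = Fintype.card ι * R ^ 2 := by simp

omit [Fintype ι] in
theorem pw_neg (hs : ∀ x ∈ Ω, -x ∈ Ω) : ∀ z ∈ pw e Ω, -z ∈ pw e Ω := by
  intro z hz i
  rw [map_neg]
  exact hs _ (hz i)

omit [Fintype ι] in
theorem pw_zero (h0 : (0 : Eu κ) ∈ Ω) : (0 : Eu σ) ∈ pw e Ω := by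
  intro i
  rw [map_zero]
  exact h0

theorem pw_meas (hm : MeasurableSet Ω) : MeasurableSet (pw e Ω) := by
  have h : pw e Ω = ⋂ i, (bl e i) ⁻¹' Ω := by
    ext z
    simp [pw]
  rw [h]
  exact MeasurableSet.iInter fun i => (bl e i).continuous.measurable hm

omit [Fintype ι] in
theorem as_pre : (as e) ⁻¹' (pw e Ω) = Set.pi univ fun _ : ι => Ω := by
  ext x
  simp only [mem_preimage, pw, mem_ofPred_eq, bl_as, Set.mem_pi, mem_univ, true_implies]

theorem vol_pw (hm : MeasurableSet Ω) : volume (pw e Ω) = volume Ω ^ Fintype.card ι := by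
  rw [← (mp_as e).measure_preimage (pw_meas e hm).nullMeasurableSet, as_pre, volume_pi,
    Measure.pi_pi, Finset.prod_const, Finset.card_univ]

theorem unf_pw (hm : MeasurableSet Ω) [IsProbabilityMeasure (unf Ω)] :
    TP.pn e (unf Ω) = unf (pw e Ω) := by
  have h1 : (Measure.pi fun _ : ι => unf Ω) = (volume (pw e Ω))⁻¹ •
      (volume : Measure (ι → Eu κ)).restrict (Set.pi univ fun _ : ι => Ω) := by
    refine Measure.pi_eq fun s hs => ?_
    rw [Measure.smul_apply, Measure.restrict_apply (MeasurableSet.univ_pi hs), smul_eq_mul,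
      ← Set.pi_inter_distrib, volume_pi, Measure.pi_pi, vol_pw e hm, ENNReal.inv_pow,
      ← Finset.card_univ, ← Finset.prod_const, ← Finset.prod_mul_distrib]
    refine Finset.prod_congr rfl fun i _ => ?_
    unfold unf
    rw [Measure.smul_apply, smul_eq_mul, Measure.restrict_apply (hs i)]
  rw [TP.pn, h1, Measure.map_smul]
  unfold unf
  congr 1
  have h2 := (mp_as e).restrict_preimage (pw_meas e hm)
  rw [as_pre] at h2
  exact h2.map_eq

end geom

section resample

variable {α : Type} [MeasurableSpace α]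

open Classical in
theorem mp_resample (μ : Measure α) [IsProbabilityMeasure μ] (i : ι) :
    MeasurePreserving (fun p : (ι → α) × α => Function.update p.1 i p.2)
      ((Measure.pi fun _ : ι => μ).prod μ) (Measure.pi fun _ : ι => μ) := by
  have hm : Measurable fun p : (ι → α) × α => Function.update p.1 i p.2 := by
    refine measurable_pi_iff.2 fun j => ?_
    by_cases hj : j = i
    · subst hj
      simp only [Function.update_self]
      exact measurable_snd
    · simp only [Function.update_of_ne hj]
      exact (measurable_pi_apply j).comp measurable_fst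
  refine ⟨hm, (Measure.pi_eq fun s hs => ?_).symm⟩
  rw [Measure.map_apply hm (MeasurableSet.univ_pi hs)]
  have h1 : (fun p : (ι → α) × α => Function.update p.1 i p.2) ⁻¹' (Set.pi univ s) =
      (Set.pi univ fun j => if j = i then univ else s j) ×ˢ s i := by
    ext p
    simp only [mem_preimage, Set.mem_pi, mem_univ, true_implies, mem_prod]
    constructor
    · intro h
      refine ⟨fun j => ?_, by simpa using h i⟩
      by_cases hj : j = i
      · simp [hj]
      · have := h j
        rw [Function.update_of_ne hj] at this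
        simpa [hj] using this
    · rintro ⟨h1, h2⟩ j
      by_cases hj : j = i
      · subst hj
        simpa using h2
      · have := h1 j
        rw [if_neg hj] at this
        rwa [Function.update_of_ne hj]
  rw [h1, Measure.prod_prod, Measure.pi_pi]
  rw [← Finset.mul_prod_erase Finset.univ _ (Finset.mem_univ i),
    ← Finset.mul_prod_erase Finset.univ (fun j => μ (s j)) (Finset.mem_univ i)]
  simp only [if_true, measure_univ, one_mul]
  rw [mul_comm]
  congr 1
  refine Finset.prod_congr rfl fun j hj => ?_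
  rw [if_neg (Finset.ne_of_mem_erase hj)]

open Classical in
/-- replace the block `i` -/
noncomputable def up (e : ι × κ ≃ σ) (i : ι) (z : Eu σ) (y : Eu κ) : Eu σ :=
  as e (Function.update (fun j => bl e j z) i y)

omit [Fintype ι] in
theorem bl_up_self (e : ι × κ ≃ σ) (i : ι) (z : Eu σ) (y : Eu κ) : bl e i (up e i z y) = y := by
  classical
  unfold up
  rw [bl_as, Function.update_self]

omit [Fintype ι] in
theorem bl_up_ne (e : ι × κ ≃ σ) {i j : ι} (h : j ≠ i) (z : Eu σ) (y : Eu κ) :
    bl e j (up e i z y) = bl e j z := by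
  classical
  unfold up
  rw [bl_as, Function.update_of_ne h]

theorem integral_resample (e : ι × κ ≃ σ) (μ : Measure (Eu κ)) [IsProbabilityMeasure μ] (i : ι)
    {F : Eu σ → ℝ} (hF : Integrable F (TP.pn e μ)) :
    ∫ z, F z ∂(TP.pn e μ) = ∫ z, ∫ y, F (up e i z y) ∂μ ∂(TP.pn e μ) := by
  classical
  have hR := mp_resample μ i
  have hF' := (integrable_pn e μ).1 hF
  rw [integral_pn, integral_pn]
  have h1 : Integrable (fun x : ι → Eu κ => F (as e x))
      (((Measure.pi fun _ : ι => μ).prod μ).map
        fun p : (ι → Eu κ) × Eu κ => Function.update p.1 i p.2) := by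
    rw [hR.map_eq]
    exact hF'
  calc ∫ x, F (as e x) ∂(Measure.pi fun _ : ι => μ) =
        ∫ x, F (as e x) ∂(((Measure.pi fun _ : ι => μ).prod μ).map
          fun p : (ι → Eu κ) × Eu κ => Function.update p.1 i p.2) := by rw [hR.map_eq]
    _ = ∫ p, F (as e (Function.update p.1 i p.2)) ∂((Measure.pi fun _ : ι => μ).prod μ) :=
        integral_map hR.measurable.aemeasurable h1.aestronglyMeasurable
    _ = ∫ x, ∫ y, F (as e (Function.update x i y)) ∂μ ∂(Measure.pi fun _ : ι => μ) :=
        integral_prod _ (h1.comp_measurable hR.measurable)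
    _ = _ := by
        refine integral_congr_ae (Eventually.of_forall fun x => ?_)
        refine integral_congr_ae (Eventually.of_forall fun y => ?_)
        unfold up
        simp only [bl_as]

theorem abs_resample_le (e : ι × κ ≃ σ) (μ : Measure (Eu κ)) [IsProbabilityMeasure μ] (i : ι)
    {F : Eu σ → ℝ} (hF : Integrable F (TP.pn e μ)) {c : ℝ}
    (h : ∀ᵐ z ∂(TP.pn e μ), |∫ y, F (up e i z y) ∂μ| ≤ c) : |∫ z, F z ∂(TP.pn e μ)| ≤ c := by
  rw [integral_resample e μ i hF]
  have h1 := norm_integral_le_of_norm_le_const (μ := TP.pn e μ)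
    (f := fun z => ∫ y, F (up e i z y) ∂μ) (C := c) h
  rwa [probReal_univ, mul_one] at h1

end resample

end Pool.Agent.H776.TS
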