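import Pool.Agent.H776.TS1

/-!
# Products of signs: balance, orthogonality, Bessel
-/

set_option autoImplicit false

namespace Pool.Agent.H776.TS

open MeasureTheory Set Filter Topology
open scoped ENNReal InnerProductSpace
open Pool.Agent.H776.TP

variable {ι κ σ : Type} [Fintype ι] [Fintype κ] [Fintype σ]

open Classical in
/-- the sign of a set -/
noncomputable def sg (E : Set (Eu κ)) (x : Eu κ) : ℝ := if x ∈ E then 1 else -1

theorem sg_or (E : Set (Eu κ)) (x : Eu κ) : sg E x = 1 ∨ sg E x = -1 := by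
  unfold sg
  split_ifs
  · exact Or.inl rfl
  · exact Or.inr rfl

theorem sg_meas {E : Set (Eu κ)} (hE : MeasurableSet E) : Measurable (sg E) :=
  Measurable.ite hE measurable_const measurable_const

theorem sg_int {Ω E : Set (Eu κ)} [IsProbabilityMeasure (unf Ω)] (hE : MeasurableSet E)
    (hEΩ : E ⊆ Ω) (hv : volume E = volume Ω / 2) (h0 : volume Ω ≠ 0) (ht : volume Ω ≠ ⊤) :
    ∫ x, sg E x ∂(unf Ω) = 0 := by
  have h1 : ∀ x, sg E x = 2 * E.indicator (fun _ => (1 : ℝ)) x - 1 := by
    intro x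
    unfold sg
    by_cases hx : x ∈ E
    · rw [if_pos hx, indicator_of_mem hx]; norm_num
    · rw [if_neg hx, indicator_of_notMem hx]; norm_num
  simp only [h1]
  rw [integral_sub (((integrable_const _).indicator hE).const_mul _) (integrable_const _),
    integral_const_mul, integral_indicator hE, setIntegral_const, integral_const, probReal_univ]
  have h2 : (unf Ω).real E = 1 / 2 := by
    rw [measureReal_def]
    unfold unf
    rw [Measure.smul_apply, smul_eq_mul, Measure.restrict_apply hE, inter_eq_left.2 hEΩ, hv,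
      ENNReal.toReal_mul, ENNReal.toReal_inv, ENNReal.toReal_div]
    have := (ENNReal.toReal_pos h0 ht).ne'
    field_simp
    norm_num
  rw [h2]
  norm_num

/-- the product of the signs of the blocks in `T` -/
noncomputable def ss (e : ι × κ ≃ σ) (E : Set (Eu κ)) (T : Finset ι) (z : Eu σ) : ℝ :=
  ∏ i ∈ T, sg E (bl e i z)

omit [Fintype ι] in
theorem ss_or (e : ι × κ ≃ σ) (E : Set (Eu κ)) (T : Finset ι) (z : Eu σ) :
    ss e E T z = 1 ∨ ss e E T z = -1 := by
  classical
  unfold ss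
  induction T using Finset.induction_on with
  | empty => simp
  | insert i T hi ih =>
    rw [Finset.prod_insert hi]
    rcases sg_or E (bl e i z) with h | h <;> rcases ih with h' | h' <;> rw [h, h'] <;> norm_num

omit [Fintype ι] in
theorem ss_abs (e : ι × κ ≃ σ) (E : Set (Eu κ)) (T : Finset ι) (z : Eu σ) :
    |ss e E T z| = 1 := by
  rcases ss_or e E T z with h | h <;> rw [h] <;> norm_num

omit [Fintype ι] in
theorem ss_sq (e : ι × κ ≃ σ) (E : Set (Eu κ)) (T : Finset ι) (z : Eu σ) :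
    ss e E T z * ss e E T z = 1 := by
  rcases ss_or e E T z with h | h <;> rw [h] <;> norm_num

omit [Fintype ι] in
theorem ss_meas (e : ι × κ ≃ σ) {E : Set (Eu κ)} (hE : MeasurableSet E) (T : Finset ι) :
    Measurable (ss e E T) :=
  Finset.measurable_prod _ fun i _ => (sg_meas hE).comp (bl e i).continuous.measurable

open Classical in
omit [Fintype ι] in
theorem ss_up_mem (e : ι × κ ≃ σ) (E : Set (Eu κ)) {T : Finset ι} {i : ι} (hi : i ∈ T)
    (z : Eu σ) (y : Eu κ) : ss e E T (up e i z y) = ss e E (T.erase i) z * sg E y := by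
  unfold ss
  rw [← Finset.prod_erase_mul T _ hi, bl_up_self]
  congr 1
  refine Finset.prod_congr rfl fun j hj => ?_
  rw [bl_up_ne e (Finset.ne_of_mem_erase hj)]

omit [Fintype ι] in
theorem ss_up_notMem (e : ι × κ ≃ σ) (E : Set (Eu κ)) {T : Finset ι} {i : ι} (hi : i ∉ T)
    (z : Eu σ) (y : Eu κ) : ss e E T (up e i z y) = ss e E T z := by
  unfold ss
  refine Finset.prod_congr rfl fun j hj => ?_
  have hji : j ≠ i := by
    rintro rfl
    exact hi hj
  rw [bl_up_ne e hji]

/-- a function which does not depend on the block `i` -/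
def NoDep (e : ι × κ ≃ σ) (i : ι) (h : Eu σ → ℝ) : Prop := ∀ z y, h (up e i z y) = h z

/-- **products of signs are orthogonal to functions independent of one of their blocks** -/
theorem int_ss_mul (e : ι × κ ≃ σ) {μ : Measure (Eu κ)} [IsProbabilityMeasure μ]
    {E : Set (Eu κ)} (hE : MeasurableSet E) (h0 : ∫ x, sg E x ∂μ = 0) {T : Finset ι} {i : ι}
    (hi : i ∈ T) {h : Eu σ → ℝ} (hh : NoDep e i h) (hint : Integrable h (TP.pn e μ)) :
    ∫ z, ss e E T z * h z ∂(TP.pn e μ) = 0 := by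
  classical
  have h1 : Integrable (fun z => ss e E T z * h z) (TP.pn e μ) := by
    refine hint.bdd_mul (c := 1) (ss_meas e hE T).aestronglyMeasurable
      (Eventually.of_forall fun z => ?_)
    rw [Real.norm_eq_abs, ss_abs]
  rw [integral_resample e μ i h1]
  have h2 : ∀ z, ∫ y, ss e E T (up e i z y) * h (up e i z y) ∂μ = 0 := by
    intro z
    have h3 : (fun y => ss e E T (up e i z y) * h (up e i z y)) =
        fun y => (ss e E (T.erase i) z * h z) * sg E y := by
      funext y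
      rw [ss_up_mem e E hi, hh]
      ring
    rw [h3, integral_const_mul, h0, mul_zero]
  simp only [h2, integral_zero]

theorem ss_int (e : ι × κ ≃ σ) {μ : Measure (Eu κ)} [IsProbabilityMeasure μ]
    {E : Set (Eu κ)} (hE : MeasurableSet E) (T : Finset ι) : Integrable (ss e E T) (TP.pn e μ) := by
  refine Integrable.of_bound (ss_meas e hE T).aestronglyMeasurable 1
      (Eventually.of_forall fun z => ?_)
  rw [Real.norm_eq_abs, ss_abs]

open Classical in
theorem int_ss_ss (e : ι × κ ≃ σ) {μ : Measure (Eu κ)} [IsProbabilityMeasure μ]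
    {E : Set (Eu κ)} (hE : MeasurableSet E) (h0 : ∫ x, sg E x ∂μ = 0) {T T' : Finset ι} {r : ℕ}
    (hT : T.card = r) (hT' : T'.card = r) :
    ∫ z, ss e E T z * ss e E T' z ∂(TP.pn e μ) = if T = T' then 1 else 0 := by
  by_cases h : T = T'
  · subst h
    simp only [ss_sq, if_true, integral_const, probReal_univ, smul_eq_mul, mul_one]
  · rw [if_neg h]
    obtain ⟨i, hi, hi'⟩ : ∃ i ∈ T, i ∉ T' := by
      by_contra hcon
      push Not at hcon
      exact h (Finset.eq_of_subset_of_card_le hcon (by rw [hT, hT']))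
    exact int_ss_mul e hE h0 hi (fun z y => ss_up_notMem e E hi' z y) (ss_int e hE T')

/-- **Bessel's inequality** -/
theorem bessel (e : ι × κ ≃ σ) {μ : Measure (Eu κ)} [IsProbabilityMeasure μ]
    {E : Set (Eu κ)} (hE : MeasurableSet E) (h0 : ∫ x, sg E x ∂μ = 0) {r : ℕ}
    {𝒯 : Finset (Finset ι)} (h𝒯 : ∀ T ∈ 𝒯, T.card = r) {g : Eu σ → ℝ}
    (hg : MemLp g 2 (TP.pn e μ)) :
    ∑ T ∈ 𝒯, (∫ z, ss e E T z * g z ∂(TP.pn e μ)) ^ 2 ≤ ∫ z, g z ^ 2 ∂(TP.pn e μ) := by
  classical
  have hg1 : Integrable g (TP.pn e μ) := hg.integrable one_le_two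
  have hg2 : Integrable (fun z => g z ^ 2) (TP.pn e μ) := hg.integrable_sq
  have hsg : ∀ T, Integrable (fun z => ss e E T z * g z) (TP.pn e μ) := fun T => by
    refine hg1.bdd_mul (c := 1) (ss_meas e hE T).aestronglyMeasurable
      (Eventually.of_forall fun z => ?_)
    rw [Real.norm_eq_abs, ss_abs]
  have hss : ∀ T T', Integrable (fun z => ss e E T z * ss e E T' z) (TP.pn e μ) := fun T T' => by
    refine (ss_int e hE T').bdd_mul (c := 1) (ss_meas e hE T).aestronglyMeasurable
      (Eventually.of_forall fun z => ?_)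
    rw [Real.norm_eq_abs, ss_abs]
  obtain ⟨c, hc⟩ : ∃ c : Finset ι → ℝ, c = fun T => ∫ z, ss e E T z * g z ∂(TP.pn e μ) := ⟨_, rfl⟩
  have hcT : ∀ T, ∫ z, ss e E T z * g z ∂(TP.pn e μ) = c T := fun T => by rw [hc]
  simp only [hcT]
  have e1 : ∀ z, (g z - ∑ T ∈ 𝒯, c T * ss e E T z) ^ 2 =
      g z ^ 2 - 2 * ∑ T ∈ 𝒯, c T * (ss e E T z * g z) +
        ∑ T ∈ 𝒯, ∑ T' ∈ 𝒯, c T * c T' * (ss e E T z * ss e E T' z) := by
    intro z
    have e2 : (∑ T ∈ 𝒯, c T * ss e E T z) ^ 2 =
        ∑ T ∈ 𝒯, ∑ T' ∈ 𝒯, c T * c T' * (ss e E T z * ss e E T' z) := by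
      rw [sq, Finset.sum_mul_sum]
      refine Finset.sum_congr rfl fun T _ => Finset.sum_congr rfl fun T' _ => by ring
    have e3 : ∑ T ∈ 𝒯, c T * (ss e E T z * g z) = (∑ T ∈ 𝒯, c T * ss e E T z) * g z := by
      rw [Finset.sum_mul]
      exact Finset.sum_congr rfl fun T _ => by ring
    rw [← e2, e3]
    ring
  have e4 : ∫ z, (g z - ∑ T ∈ 𝒯, c T * ss e E T z) ^ 2 ∂(TP.pn e μ) =
      ∫ z, g z ^ 2 ∂(TP.pn e μ) - ∑ T ∈ 𝒯, c T ^ 2 := by
    simp only [e1]
    rw [integral_add, integral_sub hg2, integral_const_mul, integral_finsetSum,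
      integral_finsetSum]
    · have e5 : ∀ T ∈ 𝒯, ∫ z, ∑ T' ∈ 𝒯, c T * c T' * (ss e E T z * ss e E T' z) ∂(TP.pn e μ) =
          c T ^ 2 := by
        intro T hT
        rw [integral_finsetSum _ fun T' _ => (hss T T').const_mul _]
        simp only [integral_const_mul]
        rw [Finset.sum_congr rfl fun T' hT' => by
          rw [int_ss_ss e hE h0 (h𝒯 T hT) (h𝒯 T' hT')]]
        simp only [mul_ite, mul_one, mul_zero]
        rw [Finset.sum_ite_eq]
        rw [if_pos hT]
        ring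
      rw [Finset.sum_congr rfl e5]
      simp only [integral_const_mul, hcT]
      have e6 : ∑ T ∈ 𝒯, c T * c T = ∑ T ∈ 𝒯, c T ^ 2 :=
        Finset.sum_congr rfl fun T _ => (sq (c T)).symm
      rw [e6]
      ring
    · intro T _
      exact integrable_finsetSum _ fun T' _ => (hss T T').const_mul _
    · intro T _
      exact (hsg T).const_mul _
    · exact (integrable_finsetSum _ fun T _ => (hsg T).const_mul _).const_mul _
    · exact hg2.sub ((integrable_finsetSum _ fun T _ => (hsg T).const_mul _).const_mul _)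
    · exact integrable_finsetSum _ fun T _ => integrable_finsetSum _ fun T' _ =>
        (hss T T').const_mul _
  have e7 : 0 ≤ ∫ z, (g z - ∑ T ∈ 𝒯, c T * ss e E T z) ^ 2 ∂(TP.pn e μ) :=
    integral_nonneg fun z => sq_nonneg _
  linarith

/-- the set where the product of the signs is one -/
def xe (e : ι × κ ≃ σ) (Ω E : Set (Eu κ)) (T : Finset ι) : Set (Eu σ) :=
  {z | z ∈ pw e Ω ∧ ss e E T z = 1}

theorem xe_meas (e : ι × κ ≃ σ) {Ω E : Set (Eu κ)} (hΩ : MeasurableSet Ω) (hE : MeasurableSet E)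
    (T : Finset ι) : MeasurableSet (xe e Ω E T) :=
  (pw_meas e hΩ).inter (ss_meas e hE T (measurableSet_singleton 1))

omit [Fintype ι] in
theorem xe_sub (e : ι × κ ≃ σ) (Ω E : Set (Eu κ)) (T : Finset ι) : xe e Ω E T ⊆ pw e Ω :=
  fun _ h => h.1

omit [Fintype ι] in
theorem xe_symm (e : ι × κ ≃ σ) {Ω E : Set (Eu κ)} (hΩ : ∀ x ∈ Ω, -x ∈ Ω) (hE : ∀ x ∈ E, -x ∈ E)
    (T : Finset ι) : ∀ z ∈ xe e Ω E T, -z ∈ xe e Ω E T := by
  rintro z ⟨h1, h2⟩
  refine ⟨pw_neg e hΩ z h1, ?_⟩
  rw [← h2]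
  unfold ss
  refine Finset.prod_congr rfl fun i _ => ?_
  unfold sg
  have : -(bl e i z) ∈ E ↔ bl e i z ∈ E := ⟨fun h => by simpa using hE _ h, hE _⟩
  rw [map_neg]
  by_cases h : bl e i z ∈ E
  · rw [if_pos h, if_pos (this.2 h)]
  · rw [if_neg h, if_neg fun h' => h (this.1 h')]

/-- a set which does not depend on the block `i` -/
def NoDepS (e : ι × κ ≃ σ) (i : ι) (A : Set (Eu σ)) : Prop := ∀ z y, up e i z y ∈ A ↔ z ∈ A

/-- **the set `xe` takes exactly one half of every set independent of one of its blocks** -/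
theorem xe_half (e : ι × κ ≃ σ) {Ω E : Set (Eu κ)} [IsProbabilityMeasure (unf Ω)]
    (hΩ : MeasurableSet Ω) (hE : MeasurableSet E) (hEΩ : E ⊆ Ω) (hv : volume E = volume Ω / 2)
    (hΩ0 : volume Ω ≠ 0) (ht : volume Ω ≠ ⊤) {T : Finset ι} {i : ι} (hi : i ∈ T) {A : Set (Eu σ)}
    (hA : MeasurableSet A) (hh : NoDepS e i A) :
    volume (xe e Ω E T ∩ A) = volume (pw e Ω ∩ A) / 2 := by
  classical
  have hz := sg_int hE hEΩ hv hΩ0 ht
  have h1 := int_ss_mul e hE hz hi (h := A.indicator fun _ => (1 : ℝ)) (fun z y => by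
    by_cases hz : z ∈ A
    · rw [indicator_of_mem hz, indicator_of_mem ((hh z y).2 hz)]
    · rw [indicator_of_notMem hz, indicator_of_notMem fun h => hz ((hh z y).1 h)])
    ((integrable_const _).indicator hA)
  rw [unf_pw e hΩ] at h1
  have hp : IsProbabilityMeasure (unf (pw e Ω)) := by
    rw [← unf_pw e hΩ]
    infer_instance
  have hpt : volume (pw e Ω) ≠ ⊤ := by
    rw [vol_pw e hΩ]
    exact ENNReal.pow_ne_top ht
  have hp0 : volume (pw e Ω) ≠ 0 := by
    rw [vol_pw e hΩ]
    exact pow_ne_zero _ hΩ0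
  have hm := pw_meas e hΩ
  have hxm := xe_meas e hΩ hE T
  have h2 : ∀ᵐ z ∂(unf (pw e Ω)), ss e E T z * A.indicator (fun _ => (1 : ℝ)) z =
      2 * (xe e Ω E T ∩ A).indicator (fun _ => (1 : ℝ)) z - A.indicator (fun _ => (1 : ℝ)) z := by
    have h3 : ∀ᵐ z ∂(unf (pw e Ω)), z ∈ pw e Ω := by
      unfold unf
      exact Measure.ae_smul_measure (ae_restrict_mem hm) _
    filter_upwards [h3] with z hz
    by_cases hzA : z ∈ A
    · rcases ss_or e E T z with h | h
      · have hmem : z ∈ xe e Ω E T ∩ A := ⟨⟨hz, h⟩, hzA⟩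
        rw [indicator_of_mem hzA, indicator_of_mem hmem, h]
        norm_num
      · rw [indicator_of_mem hzA, indicator_of_notMem, h]
        · norm_num
        · rintro ⟨⟨-, h'⟩, -⟩
          rw [h] at h'
          norm_num at h'
    · rw [indicator_of_notMem hzA, indicator_of_notMem fun h => hzA h.2]
      norm_num
  rw [integral_congr_ae h2, integral_sub (((integrable_const _).indicator (hxm.inter hA)).const_mul _)
    ((integrable_const _).indicator hA), integral_const_mul, integral_indicator (hxm.inter hA),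
    integral_indicator hA, setIntegral_const, setIntegral_const, smul_eq_mul, smul_eq_mul,
    mul_one, mul_one, measureReal_def, measureReal_def] at h1
  unfold unf at h1
  rw [Measure.smul_apply, Measure.smul_apply, smul_eq_mul, smul_eq_mul,
    Measure.restrict_apply (hxm.inter hA), Measure.restrict_apply hA, ENNReal.toReal_mul,
    ENNReal.toReal_mul, inter_eq_left.2 (inter_subset_left.trans (xe_sub e Ω E T)),
    inter_comm A] at h1
  have h4 : 0 < ((volume (pw e Ω))⁻¹).toReal := by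
    rw [ENNReal.toReal_inv]
    exact inv_pos.2 (ENNReal.toReal_pos hp0 hpt)
  have h5 : 2 * (volume (xe e Ω E T ∩ A)).toReal = (volume (pw e Ω ∩ A)).toReal := by
    have h6 : ((volume (pw e Ω))⁻¹).toReal * (2 * (volume (xe e Ω E T ∩ A)).toReal -
        (volume (pw e Ω ∩ A)).toReal) = 0 := by linarith
    rcases mul_eq_zero.1 h6 with h7 | h7
    · exact absurd h7 h4.ne'
    · linarith
  have h8 : volume (xe e Ω E T ∩ A) ≠ ⊤ := ne_top_of_le_ne_top hpt
    (measure_mono (inter_subset_left.trans (xe_sub e Ω E T)))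
  have h9 : volume (pw e Ω ∩ A) ≠ ⊤ := ne_top_of_le_ne_top hpt (measure_mono inter_subset_left)
  rw [← ENNReal.ofReal_toReal h8, ← ENNReal.ofReal_toReal h9, ← h5, ENNReal.ofReal_mul two_pos.le,
    ENNReal.ofReal_ofNat, mul_comm, ENNReal.mul_div_cancel_right two_ne_zero ENNReal.ofNat_ne_top]

end Pool.Agent.H776.TS
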