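import Pool.Agent.H776.TS2
import Pool.Agent.H776.SPer

/-!
# The perimeter of the product of signs
-/

set_option autoImplicit false

namespace Pool.Agent.H776.TS

open MeasureTheory Set Filter Topology
open scoped ENNReal NNReal InnerProductSpace
open Pool.Agent.H776.TP
open Pool.Agent.W695.KH (dv per sec_bound EV PerLe perLe_toReal)

variable {ι κ σ : Type} [Fintype ι] [Fintype κ] [Fintype σ]

section dv

theorem dv_cont {X : Eu κ → Eu κ} (hX : ContDiff ℝ 1 X) : Continuous (dv X) := by
  classical
  have h := hX.continuous_fderiv one_ne_zero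
  unfold dv
  refine continuous_finsetSum _ fun i _ => ?_
  exact (EuclideanSpace.proj i : Eu κ →L[ℝ] ℝ).continuous.comp (h.clm_apply continuous_const)

theorem dv_zero {X : Eu κ → Eu κ} {x : Eu κ} (hx : x ∉ tsupport X) : dv X x = 0 := by
  unfold dv
  rw [fderiv_of_notMem_tsupport ℝ hx]
  simp

theorem dv_supp {X : Eu κ → Eu κ} (hc : HasCompactSupport X) : HasCompactSupport (dv X) :=
  HasCompactSupport.intro hc fun _ hx => dv_zero hx

theorem dv_int {X : Eu κ → Eu κ} (hX : ContDiff ℝ 1 X) (hc : HasCompactSupport X) :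
    Integrable (dv X) :=
  (dv_cont hX).integrable_of_hasCompactSupport (dv_supp hc)

theorem dv_neg {X : Eu κ → Eu κ} (x : Eu κ) : dv (fun y => -X y) x = -dv X x := by
  unfold dv
  have : fderiv ℝ (fun y => -X y) x = -fderiv ℝ X x := fderiv_fun_neg
  rw [this]
  simp

theorem dv_mean {Ω : Set (Eu κ)} {X : Eu κ → Eu κ} (hX : ContDiff ℝ 1 X) (hc : HasCompactSupport X)
    (hs : tsupport X ⊆ Ω) : ∫ x in Ω, dv X x = 0 := by
  rw [setIntegral_eq_integral_of_forall_compl_eq_zero fun x hx => dv_zero fun h => hx (hs h)]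
  have h1 := ibp hX hc (f := fun _ => (1 : ℝ)) (C := 0) (LipschitzWith.const 1)
  simp only [one_mul] at h1
  rw [h1]
  simp

/-- both signs -/
theorem abs_dv_le {Ω E : Set (Eu κ)} {P : ℝ} (h : PerLe Ω E P) {X : Eu κ → Eu κ}
    (hX : ContDiff ℝ 1 X) (hc : HasCompactSupport X) (hs : tsupport X ⊆ Ω) (h1 : ∀ x, ‖X x‖ ≤ 1) :
    |∫ x in E, dv X x| ≤ P := by
  have a := h X hX hc hs h1
  have b := h (fun x => -X x) hX.neg (hc.comp_left (g := fun y : Eu κ => -y) neg_zero) (by
    refine (tsupport_comp_subset (g := fun y : Eu κ => -y) neg_zero X).trans hs) (fun x => by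
      rw [norm_neg]; exact h1 x)
  simp only [dv_neg, integral_neg] at b
  exact abs_le.2 ⟨by linarith, a⟩

end dv

section blocks

variable (e : ι × κ ≃ σ)

open Classical in
/-- the embedding of a block -/
noncomputable def em (i : ι) : Eu κ →L[ℝ] Eu σ :=
  LinearMap.toContinuousLinearMap
    { toFun := fun y => as e (Function.update 0 i y)
      map_add' := fun x y => by
        ext l
        simp only [as_apply, PiLp.add_apply]
        by_cases h : (e.symm l).1 = i
        · subst h
          simp
        · simp [Function.update_of_ne h]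
      map_smul' := fun c y => by
        ext l
        simp only [as_apply, PiLp.smul_apply, RingHom.id_apply]
        by_cases h : (e.symm l).1 = i
        · subst h
          simp
        · simp [Function.update_of_ne h] }

open Classical in
omit [Fintype ι] in
theorem em_apply (i : ι) (y : Eu κ) (l : σ) :
    em e i y l = Function.update (0 : ι → Eu κ) i y (e.symm l).1 (e.symm l).2 := rfl

omit [Fintype ι] in
theorem up_eq (i : ι) (z : Eu σ) (y : Eu κ) : up e i z y = up e i z 0 + em e i y := by
  classical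
  ext l
  rw [PiLp.add_apply, em_apply]
  unfold up
  rw [as_apply, as_apply]
  by_cases h : (e.symm l).1 = i
  · rw [h]
    simp
  · simp [Function.update_of_ne h]

open Classical in
omit [Fintype ι] in
theorem em_single (i : ι) (k : κ) :
    em e i (EuclideanSpace.single k 1) = EuclideanSpace.single (e (i, k)) 1 := by
  ext l
  rw [em_apply]
  obtain ⟨⟨j, k'⟩, rfl⟩ := e.surjective l
  rw [Equiv.symm_apply_apply]
  by_cases h : j = i
  · subst h
    simp only [Function.update_self]
    by_cases hk : k' = k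
    · subst hk
      simp
    · rw [PiLp.single_apply, PiLp.single_apply, if_neg hk, if_neg]
      intro h'
      exact hk (by simpa using h')
  · simp only [Function.update_of_ne h, Pi.zero_apply, PiLp.zero_apply]
    rw [PiLp.single_apply, if_neg]
    intro h'
    exact h (by simpa using (Prod.ext_iff.1 (e.injective h')).1)

open Classical in
/-- the divergence in the variables of one block -/
noncomputable def dvb (i : ι) (X : Eu σ → Eu σ) (z : Eu σ) : ℝ :=
  ∑ k : κ, fderiv ℝ X z (EuclideanSpace.single (e (i, k)) 1) (e (i, k))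

theorem dv_eq_sum (X : Eu σ → Eu σ) (z : Eu σ) : dv X z = ∑ i, dvb e i X z := by
  classical
  unfold dv dvb
  rw [← Equiv.sum_comp e, Fintype.sum_prod_type]

omit [Fintype ι] in
theorem dvb_cont (i : ι) {X : Eu σ → Eu σ} (hX : ContDiff ℝ 1 X) : Continuous (dvb e i X) := by
  classical
  have h := hX.continuous_fderiv one_ne_zero
  unfold dvb
  refine continuous_finsetSum _ fun k _ => ?_
  exact (EuclideanSpace.proj (e (i, k)) : Eu σ →L[ℝ] ℝ).continuous.comp
    (h.clm_apply continuous_const)

omit [Fintype ι] in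
theorem dvb_supp (i : ι) {X : Eu σ → Eu σ} (hc : HasCompactSupport X) :
    HasCompactSupport (dvb e i X) := by
  refine HasCompactSupport.intro hc fun x hx => ?_
  unfold dvb
  rw [fderiv_of_notMem_tsupport ℝ hx]
  simp

/-- the field on one block -/
noncomputable def fb (i : ι) (z : Eu σ) (X : Eu σ → Eu σ) (y : Eu κ) : Eu κ :=
  bl e i (X (up e i z y))

omit [Fintype ι] in
theorem up_hasFDerivAt (i : ι) (z : Eu σ) (y : Eu κ) : HasFDerivAt (up e i z) (em e i) y := by
  have h : up e i z = fun y => up e i z 0 + em e i y := funext fun y => up_eq e i z y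
  rw [h]
  exact (em e i).hasFDerivAt.const_add _

omit [Fintype ι] in
theorem up_contDiff (i : ι) (z : Eu σ) : ContDiff ℝ 1 (up e i z) := by
  have h : up e i z = fun y => up e i z 0 + em e i y := funext fun y => up_eq e i z y
  rw [h]
  exact contDiff_const.add (em e i).contDiff

omit [Fintype ι] in
theorem fb_contDiff (i : ι) (z : Eu σ) {X : Eu σ → Eu σ} (hX : ContDiff ℝ 1 X) :
    ContDiff ℝ 1 (fb e i z X) :=
  (bl e i).contDiff.comp (hX.comp (up_contDiff e i z))

omit [Fintype ι] in
theorem fb_dv (i : ι) (z : Eu σ) {X : Eu σ → Eu σ} (hX : ContDiff ℝ 1 X) (y : Eu κ) :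
    dv (fb e i z X) y = dvb e i X (up e i z y) := by
  classical
  have h : HasFDerivAt (fb e i z X)
      ((bl e i).comp ((fderiv ℝ X (up e i z y)).comp (em e i))) y :=
    (bl e i).hasFDerivAt.comp y (((hX.differentiable one_ne_zero) _).hasFDerivAt.comp y
      (up_hasFDerivAt e i z y))
  unfold dv dvb
  rw [h.fderiv]
  refine Finset.sum_congr rfl fun k _ => ?_
  rw [ContinuousLinearMap.comp_apply, ContinuousLinearMap.comp_apply, em_single, bl_apply]

omit [Fintype ι] in
theorem fb_zero (i : ι) (z : Eu σ) {X : Eu σ → Eu σ} {y : Eu κ}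
    (hy : y ∉ bl e i '' tsupport X) : fb e i z X y = 0 := by
  unfold fb
  have h : up e i z y ∉ tsupport X := fun h => hy ⟨_, h, bl_up_self e i z y⟩
  rw [image_eq_zero_of_notMem_tsupport h, map_zero]

omit [Fintype ι] in
theorem fb_supp (i : ι) (z : Eu σ) {X : Eu σ → Eu σ} (hc : HasCompactSupport X) :
    HasCompactSupport (fb e i z X) :=
  HasCompactSupport.intro (IsCompact.image hc (bl e i).continuous) fun _ hy => fb_zero e i z hy

omit [Fintype ι] in
theorem fb_tsupp (i : ι) (z : Eu σ) {X : Eu σ → Eu σ} (hc : HasCompactSupport X)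
    {Ω : Set (Eu κ)} (hs : tsupport X ⊆ pw e Ω) : tsupport (fb e i z X) ⊆ Ω := by
  have h1 : tsupport (fb e i z X) ⊆ bl e i '' tsupport X := by
    refine closure_minimal (fun y hy => ?_) (IsCompact.image hc (bl e i).continuous).isClosed
    by_contra h
    exact hy (fb_zero e i z h)
  rintro y hy
  obtain ⟨w, hw, rfl⟩ := h1 hy
  exact hs hw i

theorem bl_norm_le (i : ι) (z : Eu σ) : ‖bl e i z‖ ≤ ‖z‖ := by
  refine (pow_le_pow_iff_left₀ (norm_nonneg _) (norm_nonneg _) two_ne_zero).1 ?_
  rw [norm_sq_bl e z]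
  exact Finset.single_le_sum (f := fun i => ‖bl e i z‖ ^ 2) (fun j _ => sq_nonneg _)
    (Finset.mem_univ i)

/-- **the inner integral** -/
theorem inner_le {Ω E : Set (Eu κ)} (ho : IsOpen Ω) (hE : MeasurableSet E) (hEΩ : E ⊆ Ω) {P : ℝ}
    (hP : PerLe Ω E P) (T : Finset ι) (i : ι) {X : Eu σ → Eu σ} (hX : ContDiff ℝ 1 X)
    (hc : HasCompactSupport X) (hs : tsupport X ⊆ pw e Ω) (h1 : ∀ x, ‖X x‖ ≤ 1) {z : Eu σ}
    (hz : z ∈ pw e Ω) :
    (i ∉ T → ∫ y in Ω, (xe e Ω E T).indicator (dvb e i X) (up e i z y) = 0) ∧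
      |∫ y in Ω, (xe e Ω E T).indicator (dvb e i X) (up e i z y)| ≤ P := by
  classical
  have hm := ho.measurableSet
  have hY1 := fb_contDiff e i z hX
  have hY2 := fb_supp e i z hc
  have hY3 := fb_tsupp e i z hc hs
  have hY4 : ∀ y, ‖fb e i z X y‖ ≤ 1 := fun y => (bl_norm_le e i _).trans (h1 _)
  have hmean := dv_mean hY1 hY2 hY3
  have habs := abs_dv_le hP hY1 hY2 hY3 hY4
  have hP0 : 0 ≤ P := (abs_nonneg _).trans habs
  have hup : ∀ y ∈ Ω, up e i z y ∈ pw e Ω := by
    intro y hy j
    by_cases hj : j = i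
    · subst hj
      rw [bl_up_self]
      exact hy
    · rw [bl_up_ne e hj]
      exact hz j
  have hin : ∀ y ∈ Ω, (xe e Ω E T).indicator (dvb e i X) (up e i z y) =
      if ss e E T (up e i z y) = 1 then dv (fb e i z X) y else 0 := by
    intro y hy
    rw [fb_dv e i z hX]
    by_cases h : ss e E T (up e i z y) = 1
    · rw [if_pos h]
      have hmem : up e i z y ∈ xe e Ω E T := ⟨hup y hy, h⟩
      exact indicator_of_mem hmem _
    · rw [if_neg h]
      have hmem : up e i z y ∉ xe e Ω E T := fun h' => h h'.2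
      exact indicator_of_notMem hmem _
  rw [setIntegral_congr_fun hm hin]
  by_cases hi : i ∈ T
  · refine ⟨fun h => absurd hi h, ?_⟩
    simp only [ss_up_mem e E hi]
    rcases ss_or e E (T.erase i) z with h | h
    · have h2 : ∀ y, (if ss e E (T.erase i) z * sg E y = 1 then dv (fb e i z X) y else 0) =
          E.indicator (dv (fb e i z X)) y := by
        intro y
        rw [h, one_mul]
        unfold sg
        by_cases hy : y ∈ E
        · rw [if_pos hy, if_pos rfl, indicator_of_mem hy]
        · rw [if_neg hy, if_neg (by norm_num), indicator_of_notMem hy]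
      simp only [h2]
      rw [setIntegral_indicator hE, inter_eq_right.2 hEΩ]
      exact habs
    · have h2 : ∀ y, (if ss e E (T.erase i) z * sg E y = 1 then dv (fb e i z X) y else 0) =
          dv (fb e i z X) y - E.indicator (dv (fb e i z X)) y := by
        intro y
        rw [h]
        unfold sg
        by_cases hy : y ∈ E
        · rw [if_pos hy, if_neg (by norm_num), indicator_of_mem hy, sub_self]
        · rw [if_neg hy, if_pos (by norm_num), indicator_of_notMem hy, sub_zero]
      simp only [h2]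
      have hint := dv_int hY1 hY2
      rw [integral_sub hint.integrableOn (hint.indicator hE).integrableOn, hmean,
        setIntegral_indicator hE, inter_eq_right.2 hEΩ, zero_sub, abs_neg]
      exact habs
  · have h2 : ∫ y in Ω, (if ss e E T (up e i z y) = 1 then dv (fb e i z X) y else 0) = 0 := by
      simp only [ss_up_notMem e E hi]
      by_cases h : ss e E T z = 1
      · simp only [h, if_true]
        exact hmean
      · simp only [h, if_false, integral_zero]
    rw [h2]
    exact ⟨fun _ => rfl, by simpa using hP0⟩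

/-- **the perimeter of the product of signs** -/
theorem per_xe {Ω E : Set (Eu κ)} (ho : IsOpen Ω) (hb : Bornology.IsBounded Ω)
    (hne : Ω.Nonempty) (hE : MeasurableSet E) (hEΩ : E ⊆ Ω) {T : Finset ι} (hT : T.Nonempty) :
    volume Ω * per (xe e Ω E T) (pw e Ω) ≤ T.card * volume (pw e Ω) * per E Ω := by
  classical
  have hm := ho.measurableSet
  have hΩ0 : volume Ω ≠ 0 := (ho.measure_pos volume hne).ne'
  have hΩt : volume Ω ≠ ⊤ := hb.measure_lt_top.ne
  have hp0 : volume (pw e Ω) ≠ 0 := by
    rw [vol_pw e hm]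
    exact pow_ne_zero _ hΩ0
  have hpt : volume (pw e Ω) ≠ ⊤ := by
    rw [vol_pw e hm]
    exact ENNReal.pow_ne_top hΩt
  have hcard : 0 < T.card := hT.card_pos
  by_cases hPt : per E Ω = ⊤
  · rw [hPt, ENNReal.mul_top]
    · exact le_top
    · exact mul_ne_zero (by exact_mod_cast hcard.ne') hp0
  have hPL := perLe_toReal E Ω hPt
  obtain ⟨P, hPdef⟩ : ∃ P, P = (per E Ω).toReal := ⟨_, rfl⟩
  rw [← hPdef] at hPL
  have hprob : IsProbabilityMeasure (unf Ω) := by
    refine ⟨?_⟩
    unfold unf
    rw [Measure.smul_apply, smul_eq_mul, Measure.restrict_apply_univ, ENNReal.inv_mul_cancel hΩ0 hΩt]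
  set V := (volume Ω).toReal with hV
  have hV0 : 0 < V := ENNReal.toReal_pos hΩ0 hΩt
  set Vp := (volume (pw e Ω)).toReal with hVp
  have hVp0 : 0 < Vp := ENNReal.toReal_pos hp0 hpt
  have hP0 : 0 ≤ P := by rw [hPdef]; exact ENNReal.toReal_nonneg
  have hxm := xe_meas e hm hE T
  have key : ∀ X : Eu σ → Eu σ, ContDiff ℝ 1 X ∧ HasCompactSupport X ∧ tsupport X ⊆ pw e Ω ∧
      (∀ x, ‖X x‖ ≤ 1) → ∫ x in xe e Ω E T, dv X x ≤ Vp * (T.card * (P / V)) := by
    rintro X ⟨hX, hc, hs, h1⟩
    have hbi : ∀ i, Integrable (dvb e i X) := fun i =>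
      (dvb_cont e i hX).integrable_of_hasCompactSupport (dvb_supp e i hc)
    have h2 : ∫ x in xe e Ω E T, dv X x = ∑ i, ∫ x in xe e Ω E T, dvb e i X x := by
      rw [← integral_finsetSum _ fun i _ => (hbi i).integrableOn]
      exact integral_congr_ae (Eventually.of_forall fun x => dv_eq_sum e X x)
    have h3 : ∀ i, ∫ x in xe e Ω E T, dvb e i X x =
        Vp * ∫ z, (xe e Ω E T).indicator (dvb e i X) z ∂(TP.pn e (unf Ω)) := by
      intro i
      rw [unf_pw e hm, ev_unf]
      unfold Pool.Agent.W695.KH.EV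
      rw [setIntegral_indicator hxm, inter_eq_right.2 (xe_sub e Ω E T), ← hVp]
      field_simp
    have hII : ∀ i, Integrable ((xe e Ω E T).indicator (dvb e i X)) (TP.pn e (unf Ω)) := by
      intro i
      obtain ⟨B, hB⟩ := (dvb_cont e i hX).bounded_above_of_compact_support (dvb_supp e i hc)
      exact (Integrable.of_bound (dvb_cont e i hX).aestronglyMeasurable B
        (Eventually.of_forall hB)).indicator hxm
    have hae : ∀ᵐ z ∂(TP.pn e (unf Ω)), z ∈ pw e Ω := by
      rw [unf_pw e hm]
      unfold unf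
      exact Measure.ae_smul_measure (ae_restrict_mem (pw_meas e hm)) _
    have h4 : ∀ i, |∫ z, (xe e Ω E T).indicator (dvb e i X) z ∂(TP.pn e (unf Ω))| ≤
        if i ∈ T then P / V else 0 := by
      intro i
      refine abs_resample_le e (unf Ω) i (hII i) ?_
      filter_upwards [hae] with z hz
      obtain ⟨h5, h6⟩ := inner_le e ho hE hEΩ hPL T i hX hc hs h1 hz
      rw [ev_unf]
      unfold Pool.Agent.W695.KH.EV
      rw [← hV]
      by_cases hi : i ∈ T
      · rw [if_pos hi, abs_div, abs_of_pos hV0]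
        exact div_le_div_of_nonneg_right h6 hV0.le
      · rw [if_neg hi, h5 hi]
        simp
    rw [h2]
    simp only [h3]
    rw [← Finset.mul_sum]
    refine mul_le_mul_of_nonneg_left ?_ hVp0.le
    calc ∑ i, ∫ z, (xe e Ω E T).indicator (dvb e i X) z ∂(TP.pn e (unf Ω)) ≤
          ∑ i, if i ∈ T then P / V else 0 :=
          Finset.sum_le_sum fun i _ => (le_abs_self _).trans (h4 i)
      _ = T.card * (P / V) := by
          rw [Finset.sum_ite_mem, Finset.univ_inter, Finset.sum_const, nsmul_eq_mul]
  have h7 : per (xe e Ω E T) (pw e Ω) ≤ ENNReal.ofReal (Vp * (T.card * (P / V))) := by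
    unfold Pool.Agent.W695.KH.per
    refine iSup₂_le fun X hX => ?_
    exact ENNReal.ofReal_le_ofReal (key X hX)
  calc volume Ω * per (xe e Ω E T) (pw e Ω)
      ≤ ENNReal.ofReal V * ENNReal.ofReal (Vp * (T.card * (P / V))) := by
        rw [hV, ENNReal.ofReal_toReal hΩt]
        exact mul_le_mul_right h7 _
    _ = ENNReal.ofReal (T.card * Vp * P) := by
        rw [← ENNReal.ofReal_mul hV0.le]
        congr 1
        field_simp
    _ = T.card * volume (pw e Ω) * per E Ω := by
        rw [ENNReal.ofReal_mul (by positivity), ENNReal.ofReal_mul (by positivity),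
          ENNReal.ofReal_natCast, hVp, hPdef, ENNReal.ofReal_toReal hpt, ENNReal.ofReal_toReal hPt]

end blocks

end Pool.Agent.H776.TS
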