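import Pool.Agent.H776.TS3

/-!
# Sections of powers, choice of a pseudorandom product of signs
-/

set_option autoImplicit false

namespace Pool.Agent.H776.TS

open MeasureTheory Set Filter Topology
open scoped ENNReal NNReal InnerProductSpace
open Pool.Agent.H776.TP
open Pool.Agent.W695.KH (dv per sec_bound EV PerLe perLe_toReal)

variable {ι κ σ : Type} [Fintype ι] [Fintype κ] [Fintype σ]

theorem int_closure {Ω : Set (Eu κ)} (ho : IsOpen Ω) (hc : Convex ℝ Ω) (h0 : (0 : Eu κ) ∈ Ω) :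
    interior (closure Ω) = Ω := by
  rw [hc.interior_closure_eq_interior_of_nonempty_interior (by rw [ho.interior_eq]; exact ⟨0, h0⟩),
    ho.interior_eq]

theorem unf_closure {Ω : Set (Eu κ)} (ho : IsOpen Ω) (hc : Convex ℝ Ω) :
    unf (closure Ω) = unf Ω := by
  have h := Pool.Agent.W932.KH.closure_ae ho hc
  unfold unf
  rw [Measure.restrict_congr_set h, measure_congr h]

theorem sec_pw (e : ι × κ ≃ σ) {Ω : Set (Eu κ)} (ho : IsOpen Ω) (hc : Convex ℝ Ω)
    (hb : Bornology.IsBounded Ω) (h0 : (0 : Eu κ) ∈ Ω) (hs : ∀ x ∈ Ω, -x ∈ Ω) {s : ℝ} (hs0 : 0 < s)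
    (hcov : CovLe (unf Ω) s) {a : Eu σ} (ha : a ≠ 0) :
    volume (pw e Ω) ≤ ENNReal.ofReal (4 * Real.sqrt (2 * s)) *
      Pool.Agent.W695.KH.sec (pw e Ω) a := by
  have hK := body_closure ho hc hb h0
  have hp : IsProbabilityMeasure (unf Ω) := by
    rw [← unf_closure ho hc]
    exact hK.prob
  have hpo := pw_open e ho
  have hpc := pw_convex e hc
  have hpb := pw_bdd e hb
  have hp0 := pw_zero e h0
  have hKp := body_closure hpo hpc hpb hp0
  have hsy : ∀ x ∈ closure (pw e Ω), -x ∈ closure (pw e Ω) := by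
    intro x hx
    have h1 : closure (pw e Ω) ⊆ (fun y : Eu σ => -y) ⁻¹' closure (pw e Ω) := by
      refine closure_minimal (fun y hy => subset_closure (pw_neg e hs y hy)) ?_
      exact isClosed_closure.preimage continuous_neg
    exact h1 hx
  have hsq : Integrable (fun x => ‖x‖ ^ 2) (unf Ω) := by
    have := hK.int_sq
    rwa [unf_closure ho hc] at this
  have hcov' : CovLe (unf (closure (pw e Ω))) s := by
    rw [unf_closure hpo hpc, ← unf_pw e ho.measurableSet]
    exact cov_pn e hsq hcov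
  have h := sec_ge hKp hsy hs0 hcov' ha
  rwa [int_closure hpo hpc hp0] at h

/-- **from the power to the body** -/
theorem body_of_pw : ∃ C₂ : ℝ, 0 < C₂ ∧ ∀ (ι κ σ : Type) [Fintype ι] [Fintype κ] [Fintype σ]
    [Nonempty κ] (e : ι × κ ≃ σ) (Ω : Set (Eu κ)), IsOpen Ω → Convex ℝ Ω →
    Bornology.IsBounded Ω → (0 : Eu κ) ∈ Ω → (∀ x ∈ Ω, -x ∈ Ω) → ∀ E : Set (Eu κ),
    MeasurableSet E → E ⊆ Ω → ∀ T : Finset ι, T.Nonempty → ∀ C : ℝ, 0 < C →
    ⨅ (a : Eu σ) (_ : a ≠ 0), Pool.Agent.W695.KH.sec (pw e Ω) a ≤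
      ENNReal.ofReal C * per (xe e Ω E T) (pw e Ω) →
    ⨅ (a : Eu κ) (_ : a ≠ 0), Pool.Agent.W695.KH.sec Ω a ≤
      ENNReal.ofReal (C₂ * T.card * C) * per E Ω := by
  obtain ⟨Cs, hCs, hsb⟩ := sec_bound
  refine ⟨Real.sqrt Cs * (4 * Real.sqrt 2), by positivity, ?_⟩
  intro ι κ σ _ _ _ _ e Ω ho hconv hbd h0 hsym E hE hEΩ T hT C hC h
  have h3 := per_xe e ho hbd ⟨0, h0⟩ hE hEΩ hT
  have hcard : (0 : ℝ) < T.card := by exact_mod_cast hT.card_pos
  have hrn : (T.card : ℝ≥0∞) = ENNReal.ofReal (T.card : ℝ) := (ENNReal.ofReal_natCast _).symm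
  rw [hrn] at h3
  generalize (T.card : ℝ) = r at hcard h3 ⊢
  have hK := body_closure ho hconv hbd h0
  have hKp := hK.prob
  obtain ⟨a, ha, hmax⟩ := Pool.Agent.W932.KH.q_max (Ω := Ω) ho hbd
  obtain ⟨s, hsdef⟩ : ∃ s, s = EV Ω (fun x => ⟪a, x⟫_ℝ ^ 2) := ⟨_, rfl⟩
  have hspos : 0 < s := by
    rw [hsdef]
    exact Pool.Agent.W932.KH.q_pos ho hbd h0 a ha
  rw [← hsdef] at hmax
  have hΩt : volume Ω ≠ ⊤ := hbd.measure_lt_top.ne
  have hΩ0 : volume Ω ≠ 0 := (ho.measure_pos volume ⟨0, h0⟩).ne'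
  have hV0 : 0 < (volume Ω).toReal := ENNReal.toReal_pos hΩ0 hΩt
  have hss : 0 < Real.sqrt s := Real.sqrt_pos.2 hspos
  have hcov : CovLe (unf Ω) s := by
    rw [← unf_closure ho hconv]
    intro θ hθ
    rw [var_eq hK.int_sq, ev_unf, ev_closure ho hconv]
    have h1 := hmax θ
    rw [hθ, one_pow, mul_one] at h1
    have e1 : (fun x : Eu κ => ⟪x, θ⟫_ℝ ^ 2) = fun x => ⟪θ, x⟫_ℝ ^ 2 := by
      funext x
      rw [real_inner_comm]
    rw [e1]
    have := sq_nonneg (∫ x, ⟪x, θ⟫_ℝ ∂(unf (closure Ω)))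
    linarith
  have ha0 : a ≠ 0 := by
    rintro rfl
    rw [norm_zero] at ha
    exact zero_ne_one ha
  have hpt : volume (pw e Ω) ≠ ⊤ := by
    rw [vol_pw e ho.measurableSet]
    exact ENNReal.pow_ne_top hΩt
  have hp0 : volume (pw e Ω) ≠ 0 := by
    rw [vol_pw e ho.measurableSet]
    exact pow_ne_zero _ hΩ0
  by_cases hPt : per E Ω = ⊤
  · rw [hPt, ENNReal.mul_top]
    · exact le_top
    · exact (ENNReal.ofReal_pos.2 (by positivity)).ne'
  -- the lower bound for the sections of the power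
  have h2 : volume (pw e Ω) ≤ ENNReal.ofReal (4 * Real.sqrt (2 * s)) *
      ⨅ (a : Eu σ) (_ : a ≠ 0), Pool.Agent.W695.KH.sec (pw e Ω) a := by
    rw [mul_comm, ← ENNReal.div_le_iff (ENNReal.ofReal_pos.2 (by positivity)).ne'
      ENNReal.ofReal_ne_top]
    refine le_iInf₂ fun a ha => ?_
    exact ENNReal.div_le_of_le_mul' (sec_pw e ho hconv hbd h0 hsym hspos hcov ha)
  obtain ⟨P, hP⟩ : ∃ P, P = (per E Ω).toReal := ⟨_, rfl⟩
  have hP0 : 0 ≤ P := by rw [hP]; exact ENNReal.toReal_nonneg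
  have hPe : per E Ω = ENNReal.ofReal P := by rw [hP, ENNReal.ofReal_toReal hPt]
  have h4 : volume Ω ≤ ENNReal.ofReal (4 * Real.sqrt (2 * s) * C * r * P) := by
    have h5 : volume (pw e Ω) * volume Ω ≤ volume (pw e Ω) *
        ENNReal.ofReal (4 * Real.sqrt (2 * s) * C * r * P) := by
      calc volume (pw e Ω) * volume Ω ≤ (ENNReal.ofReal (4 * Real.sqrt (2 * s)) *
            (ENNReal.ofReal C * per (xe e Ω E T) (pw e Ω))) * volume Ω :=
            mul_le_mul_left (h2.trans (mul_le_mul_right h _)) _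
        _ = ENNReal.ofReal (4 * Real.sqrt (2 * s)) * ENNReal.ofReal C *
            (volume Ω * per (xe e Ω E T) (pw e Ω)) := by ring
        _ ≤ ENNReal.ofReal (4 * Real.sqrt (2 * s)) * ENNReal.ofReal C *
            (ENNReal.ofReal r * volume (pw e Ω) * per E Ω) := mul_le_mul_right h3 _
        _ = _ := by
            rw [hPe, ENNReal.ofReal_mul (q := P) (by positivity),
              ENNReal.ofReal_mul (q := r) (by positivity),
              ENNReal.ofReal_mul (q := C) (by positivity)]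
            ring
    exact (ENNReal.mul_le_mul_iff_right hp0 hpt).1 h5
  have h5 : (volume Ω).toReal ≤ 4 * Real.sqrt (2 * s) * C * r * P :=
    ENNReal.toReal_le_of_le_ofReal (by positivity) h4
  obtain ⟨h6, h7, -⟩ := hsb κ Ω ho hconv hbd h0 hsym a ha
  rw [← hsdef] at h7
  have h8 : (Pool.Agent.W695.KH.sec Ω a).toReal * Real.sqrt s ≤
      Real.sqrt Cs * (volume Ω).toReal := by
    refine (pow_le_pow_iff_left₀ (by positivity) (by positivity) two_ne_zero).1 ?_
    rw [mul_pow, mul_pow, Real.sq_sqrt hspos.le, Real.sq_sqrt hCs.le]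
    exact h7
  have h9 : (Pool.Agent.W695.KH.sec Ω a).toReal ≤
      Real.sqrt Cs * (4 * Real.sqrt 2) * r * C * P := by
    have h10 : (Pool.Agent.W695.KH.sec Ω a).toReal * Real.sqrt s ≤
        (Real.sqrt Cs * (4 * Real.sqrt 2) * r * C * P) * Real.sqrt s := by
      refine h8.trans ((mul_le_mul_of_nonneg_left h5 (Real.sqrt_nonneg _)).trans (le_of_eq ?_))
      rw [Real.sqrt_mul (by norm_num)]
      ring
    exact le_of_mul_le_mul_right h10 hss
  refine (iInf₂_le a ha0).trans ?_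
  rw [← ENNReal.ofReal_toReal h6, hPe, ← ENNReal.ofReal_mul (by positivity)]
  exact ENNReal.ofReal_le_ofReal h9

/-- choice of one of many orthonormal functions -/
theorem pick {α : Type} {𝒯 : Finset α} {k : ℕ} {c : α → Fin k → ℝ} {w : Fin k → ℝ}
    (hc : ∀ j, ∑ T ∈ 𝒯, c T j ^ 2 ≤ w j) {ε : ℝ} (hk : (k : ℝ) < 𝒯.card * ε) (hε : 0 < ε) :
    ∃ T ∈ 𝒯, ∀ j, c T j ^ 2 ≤ ε * w j := by
  by_contra hcon
  push Not at hcon
  have hw : ∀ j, 0 ≤ w j := fun j => (Finset.sum_nonneg fun T _ => sq_nonneg (c T j)).trans (hc j)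
  have h1 : ∀ T ∈ 𝒯, ε ≤ ∑ j, c T j ^ 2 / w j := by
    intro T hT
    obtain ⟨j, hj⟩ := hcon T hT
    have hwj : 0 < w j := by
      rcases (hw j).lt_or_eq with h | h
      · exact h
      · have h2 : c T j ^ 2 ≤ w j :=
          (Finset.single_le_sum (f := fun T => c T j ^ 2) (fun T _ => sq_nonneg _) hT).trans (hc j)
        rw [← h] at h2 hj
        linarith
    have h2 : ε ≤ c T j ^ 2 / w j := by
      rw [le_div_iff₀ hwj]
      exact hj.le
    exact h2.trans (Finset.single_le_sum (f := fun j => c T j ^ 2 / w j)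
      (fun j _ => div_nonneg (sq_nonneg _) (hw j)) (Finset.mem_univ j))
  have h2 : (𝒯.card : ℝ) * ε ≤ k := by
    calc (𝒯.card : ℝ) * ε = ∑ T ∈ 𝒯, ε := by rw [Finset.sum_const, nsmul_eq_mul]
      _ ≤ ∑ T ∈ 𝒯, ∑ j, c T j ^ 2 / w j := Finset.sum_le_sum h1
      _ = ∑ j, (∑ T ∈ 𝒯, c T j ^ 2) / w j := by
          rw [Finset.sum_comm]
          exact Finset.sum_congr rfl fun j _ => (Finset.sum_div _ _ _).symm
      _ ≤ ∑ _j : Fin k, (1 : ℝ) := Finset.sum_le_sum fun j _ =>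
          div_le_one_of_le₀ (hc j) (hw j)
      _ = k := by simp
  linarith

/-- **a pseudorandom product of signs** -/
theorem exists_T (e : ι × κ ≃ σ) {Ω E : Set (Eu κ)} [IsProbabilityMeasure (unf Ω)]
    (hΩ : MeasurableSet Ω) (hE : MeasurableSet E) (hEΩ : E ⊆ Ω) (hv : volume E = volume Ω / 2)
    (hΩ0 : volume Ω ≠ 0) (ht : volume Ω ≠ ⊤) {r k : ℕ} {g : Fin k → Eu σ → ℝ}
    (hg : ∀ j, MemLp (g j) 2 (volume.restrict (pw e Ω))) {ε : ℝ} (hε : 0 < ε)
    (hk : (k : ℝ) < (Fintype.card ι).choose r * ε ^ 2) :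
    ∃ T : Finset ι, T.card = r ∧ ∀ j,
      |(∫ x in xe e Ω E T, g j x) - ∫ x in pw e Ω \ xe e Ω E T, g j x| ≤
        ε * Real.sqrt ((volume (pw e Ω)).toReal * ∫ x in pw e Ω, g j x ^ 2) := by
  classical
  have hz := sg_int hE hEΩ hv hΩ0 ht
  have hpt : volume (pw e Ω) ≠ ⊤ := by
    rw [vol_pw e hΩ]
    exact ENNReal.pow_ne_top ht
  have hp0 : volume (pw e Ω) ≠ 0 := by
    rw [vol_pw e hΩ]
    exact pow_ne_zero _ hΩ0
  have hVp0 : 0 < (volume (pw e Ω)).toReal := ENNReal.toReal_pos hp0 hpt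
  have hg' : ∀ j, MemLp (g j) 2 (TP.pn e (unf Ω)) := fun j => by
    rw [unf_pw e hΩ]
    unfold unf
    exact (hg j).smul_measure (ENNReal.inv_ne_top.2 hp0)
  obtain ⟨T, hT, h⟩ := pick (𝒯 := Finset.powersetCard r (Finset.univ : Finset ι))
    (c := fun T j => ∫ z, ss e E T z * g j z ∂(TP.pn e (unf Ω)))
    (w := fun j => ∫ z, g j z ^ 2 ∂(TP.pn e (unf Ω))) (fun j =>
      bessel e hE hz (fun T hT => (Finset.mem_powersetCard.1 hT).2) (hg' j)) (ε := ε ^ 2) (by
      rw [Finset.card_powersetCard, Finset.card_univ]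
      exact hk) (by positivity)
  refine ⟨T, (Finset.mem_powersetCard.1 hT).2, fun j => ?_⟩
  have h1 := h j
  simp only [unf_pw e hΩ, ev_unf] at h1
  unfold Pool.Agent.W695.KH.EV at h1
  have hm := pw_meas e hΩ
  have hxm := xe_meas e hΩ hE T
  have hgi : IntegrableOn (g j) (pw e Ω) := by
    have hfin : IsFiniteMeasure (volume.restrict (pw e Ω)) :=
      ⟨by rw [Measure.restrict_apply_univ]; exact hpt.lt_top⟩
    exact (hg j).integrable one_le_two
  have h2 : ∫ x in pw e Ω, ss e E T x * g j x =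
      (∫ x in xe e Ω E T, g j x) - ∫ x in pw e Ω \ xe e Ω E T, g j x := by
    have hsub := xe_sub e Ω E T
    have h3 : ∫ x in pw e Ω, ss e E T x * g j x =
        (∫ x in xe e Ω E T, ss e E T x * g j x) +
          ∫ x in pw e Ω \ xe e Ω E T, ss e E T x * g j x := by
      have h4 : pw e Ω = xe e Ω E T ∪ (pw e Ω \ xe e Ω E T) := (union_sdiff_cancel hsub).symm
      have hsi : IntegrableOn (fun x => ss e E T x * g j x) (pw e Ω) := by
        refine Integrable.bdd_mul (c := 1) hgi (ss_meas e hE T).aestronglyMeasurable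
          (Eventually.of_forall fun z => ?_)
        rw [Real.norm_eq_abs, ss_abs]
      have h44 := setIntegral_union (disjoint_sdiff_right (s := xe e Ω E T) (t := pw e Ω))
        (hm.diff hxm) (hsi.mono_set hsub) (hsi.mono_set sdiff_subset)
      rw [union_sdiff_cancel hsub] at h44
      exact h44
    rw [h3]
    have h5 : ∫ x in xe e Ω E T, ss e E T x * g j x = ∫ x in xe e Ω E T, g j x :=
      setIntegral_congr_fun hxm fun x hx => by
        show ss e E T x * g j x = g j x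
        rw [hx.2, one_mul]
    have h6 : ∫ x in pw e Ω \ xe e Ω E T, ss e E T x * g j x =
        ∫ x in pw e Ω \ xe e Ω E T, -g j x :=
      setIntegral_congr_fun (hm.diff hxm) fun x hx => by
        show ss e E T x * g j x = -g j x
        have h7 : ss e E T x = -1 := by
          rcases ss_or e E T x with h | h
          · exact absurd ⟨hx.1, h⟩ hx.2
          · exact h
        rw [h7, neg_one_mul]
    rw [h5, h6, integral_neg, sub_eq_add_neg]
  rw [← h2]
  have h8 : (∫ x in pw e Ω, ss e E T x * g j x) ^ 2 ≤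
      ε ^ 2 * ((volume (pw e Ω)).toReal * ∫ x in pw e Ω, g j x ^ 2) := by
    have h9 := mul_le_mul_of_nonneg_left h1 (sq_nonneg (volume (pw e Ω)).toReal)
    have e1 : (volume (pw e Ω)).toReal ^ 2 *
        ((∫ x in pw e Ω, ss e E T x * g j x) / (volume (pw e Ω)).toReal) ^ 2 =
        (∫ x in pw e Ω, ss e E T x * g j x) ^ 2 := by
      field_simp
    have e2 : (volume (pw e Ω)).toReal ^ 2 *
        (ε ^ 2 * ((∫ x in pw e Ω, g j x ^ 2) / (volume (pw e Ω)).toReal)) =
        ε ^ 2 * ((volume (pw e Ω)).toReal * ∫ x in pw e Ω, g j x ^ 2) := by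
      field_simp
    rwa [e1, e2] at h9
  have h10 : |∫ x in pw e Ω, ss e E T x * g j x| ≤
      Real.sqrt (ε ^ 2 * ((volume (pw e Ω)).toReal * ∫ x in pw e Ω, g j x ^ 2)) :=
    Real.abs_le_sqrt h8
  rwa [Real.sqrt_mul (sq_nonneg _), Real.sqrt_sq hε.le] at h10

/-- a set which depends on the coordinates in `S` only -/
def Dep (S : Finset σ) (A : Set (Eu σ)) : Prop := ∀ z w : Eu σ, (∀ l ∈ S, z l = w l) → (z ∈ A ↔ w ∈ A)

omit [Fintype ι] in
theorem up_apply_ne (e : ι × κ ≃ σ) {i : ι} {z : Eu σ} {y : Eu κ} {l : σ}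
    (h : (e.symm l).1 ≠ i) : up e i z y l = z l := by
  classical
  unfold up
  rw [as_apply, Function.update_of_ne h, bl_apply, Prod.mk.eta, Equiv.apply_symm_apply]

omit [Fintype ι] in
theorem exists_block (e : ι × κ ≃ σ) {T : Finset ι} {S : Finset σ} (h : S.card < T.card)
    {A : Set (Eu σ)} (hA : Dep S A) : ∃ i ∈ T, NoDepS e i A := by
  classical
  have h1 : (S.image fun l => (e.symm l).1).card < T.card := Finset.card_image_le.trans_lt h
  obtain ⟨i, hi, hi'⟩ := Finset.exists_mem_notMem_of_card_lt_card h1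
  refine ⟨i, hi, fun z y => hA _ _ fun l hl => up_apply_ne e ?_⟩
  rintro rfl
  exact hi' (Finset.mem_image_of_mem _ hl)

/-- counting -/
theorem count (D B n : ℕ) : ∃ N₀, ∀ N, N₀ ≤ N →
    B * (N * n) ^ (3 * D) < N.choose (3 * D + 1) := by
  obtain ⟨r, hr⟩ : ∃ r, r = 3 * D + 1 := ⟨_, rfl⟩
  rw [← hr]
  refine ⟨r.factorial * B * (r * n) ^ (3 * D) + r, fun N hN => ?_⟩
  obtain ⟨M, rfl⟩ : ∃ M, N = M + r := ⟨N - r, by omega⟩
  have h1 : r.factorial * B * (r * n) ^ (3 * D) < M + 1 := by omega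
  have h2 := Nat.pow_le_choose (α := ℚ) r (M + r)
  have h3 : M + r + 1 - r = M + 1 := by omega
  rw [h3] at h2
  rw [div_le_iff₀ (by exact_mod_cast r.factorial_pos)] at h2
  have h2' : (M + 1) ^ r ≤ (M + r).choose r * r.factorial := by exact_mod_cast h2
  rw [mul_comm ((M + r).choose r)] at h2'
  have h4 : M + r ≤ r * (M + 1) := by nlinarith
  have h5 : r.factorial * (B * ((M + r) * n) ^ (3 * D)) < r.factorial * (M + r).choose r := by
    calc r.factorial * (B * ((M + r) * n) ^ (3 * D))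
        ≤ r.factorial * (B * ((r * (M + 1)) * n) ^ (3 * D)) := by gcongr
      _ = (r.factorial * B * (r * n) ^ (3 * D)) * (M + 1) ^ (3 * D) := by
          rw [mul_right_comm r (M + 1) n, mul_pow (r * n) (M + 1)]
          ring
      _ < (M + 1) * (M + 1) ^ (3 * D) := Nat.mul_lt_mul_of_pos_right h1 (by positivity)
      _ = (M + 1) ^ r := by rw [hr]; ring
      _ ≤ r.factorial * (M + r).choose r := h2'
  exact Nat.lt_of_mul_lt_mul_left h5

end Pool.Agent.H776.TS
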