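import Pool.Agent.H776.ZP2
import Pool.Agent.H776.HNet3

/-!
# Networks of 0/1-polytopes: bounds and limits
-/

set_option autoImplicit false

namespace Pool.Agent.H776

open MeasureTheory Set Filter Topology
open scoped ENNReal InnerProductSpace

/-- the clause function: `x_b + x_c - x_a` -/
def lcz {S : Type} (a b c : S) (x : S → ℝ) : ℝ := x b + x c - x a

/-- a network of relations `a = b + c` -/
structure ZN (κ H Γ : Type) [Fintype κ] where
  /-- the sum -/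
  a : Γ → κ ⊕ H
  /-- first summand -/
  b : Γ → κ ⊕ H
  /-- second summand -/
  c : Γ → κ ⊕ H
  /-- the root -/
  o : H
  /-- linear functions of the hidden nodes -/
  L : Matrix H κ ℝ
  /-- multiplicities -/
  mlt : H → ℕ
  id : ∀ (y : κ → ℝ) (g : Γ), lft L y (b g) + lft L y (c g) - lft L y (a g) = 0
  Lo : ∀ i, L o i = 0
  inj : ∀ w : κ ⊕ H → ℝ, (∀ k, w (Sum.inl k) = 0) → w (Sum.inr o) = 0 →
    (∀ g, w (b g) + w (c g) - w (a g) = 0) → w = 0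

section znet

variable {κ H Γ : Type} [Fintype κ] [Fintype H] [Fintype Γ] (N : ZN κ H Γ)

/-- the vertices: `x_k ∨ x_o` for all visible `k`, `b ∧ c ≤ a ≤ b ∨ c` for all clauses -/
def ZN.V : Set (Eu (κ ⊕ H)) := {x | x ∈ Z01 (κ ⊕ H) ∧
  (∀ k, 1 ≤ x (Sum.inl k) + x (Sum.inr N.o)) ∧
  ∀ g, lcz (N.a g) (N.b g) (N.c g) x = 0 ∨ lcz (N.a g) (N.b g) (N.c g) x = 1}

/-- local structure of the polytope at the centre, and a vertex -/
structure ZN.Ok : Prop where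
  loc : ∃ ρ : ℝ, 0 < ρ ∧ ∀ x : Eu (κ ⊕ H), (∀ i, |x i - 1 / 2| ≤ ρ) →
    (∀ k, 1 ≤ x (Sum.inl k) + x (Sum.inr N.o)) → x ∈ convexHull ℝ N.V
  vert : ∃ v₁ ∈ N.V, ∀ k, v₁ (Sum.inl k) = 1

/-- perturbations of the nodes -/
def wz (w : Eu H) : κ ⊕ H → ℝ := Sum.elim (fun _ => 0) fun h => w h

/-- perturbations of the clauses -/
def ZN.dg (w : Eu H) (g : Γ) : ℝ := wz w (N.b g) + wz w (N.c g) - wz w (N.a g)

/-- multiplicities of all nodes -/
def ZN.mu : κ ⊕ H → ℕ := Sum.elim (fun _ => 1) N.mlt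

/-- the relative positions of the nodes -/
noncomputable def ZN.tv (n : ℕ) (p : Eu κ × Eu H) (v : κ ⊕ H) : ℝ :=
  2 * (lft N.L p.1 v / (16 * n ^ 2) + wz p.2 v / (8 * n ^ 3))

/-- the relative values of the clause functions -/
noncomputable def ZN.tg (n : ℕ) (p : Eu κ × Eu H) (g : Γ) : ℝ := N.dg p.2 g / (4 * n ^ 3)

theorem ZN.tg_eq (n : ℕ) (p : Eu κ × Eu H) (g : Γ) :
    N.tv n p (N.b g) + N.tv n p (N.c g) - N.tv n p (N.a g) = N.tg n p g := by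
  unfold ZN.tv ZN.tg ZN.dg
  have h := N.id p.1 g
  have h1 : lft N.L p.1 (N.a g) = lft N.L p.1 (N.b g) + lft N.L p.1 (N.c g) := by linarith
  rw [h1]
  ring

/-- the energy -/
noncomputable def ZN.En (r : ℝ) (p : Eu κ × Eu H) : ℝ :=
  1 / 2 * (∑ v, (N.mu v : ℝ) * (lft N.L p.1 v + 2 * r * wz p.2 v) ^ 2) +
    (1 / 2 * p.2 N.o ^ 2 + 1 / 2 * ∑ g, N.dg p.2 g ^ 2)

/-- the weight -/
noncomputable def ZN.G (n : ℕ) (p : Eu κ × Eu H) : ℝ :=
  (∏ v, (1 + -(N.tv n p v ^ 2)) ^ (32 * n ^ 4 * N.mu v)) *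
    ((1 + -(N.tv n p (Sum.inr N.o) ^ 2)) ^ (8 * n ^ 6) *
      ∏ g, (1 + -(N.tg n p g ^ 2)) ^ (8 * n ^ 6))

theorem ZN.e_v (n : ℕ) (hn : 0 < n) (p : Eu κ × Eu H) (v : κ ⊕ H) :
    ((32 * n ^ 4 * N.mu v : ℕ) : ℝ) * N.tv n p v ^ 2 =
      1 / 2 * ((N.mu v : ℝ) * (lft N.L p.1 v + 2 * (n : ℝ)⁻¹ * wz p.2 v) ^ 2) := by
  have hn' : (n : ℝ) ≠ 0 := by exact_mod_cast hn.ne'
  unfold ZN.tv
  push_cast
  field_simp
  ring

theorem ZN.L_o (y : Eu κ) : lft N.L y (Sum.inr N.o) = 0 := by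
  change ∑ i, N.L N.o i * y i = 0
  simp [N.Lo]

theorem ZN.e_o (n : ℕ) (hn : 0 < n) (p : Eu κ × Eu H) :
    ((8 * n ^ 6 : ℕ) : ℝ) * N.tv n p (Sum.inr N.o) ^ 2 = 1 / 2 * p.2 N.o ^ 2 := by
  have hn' : (n : ℝ) ≠ 0 := by exact_mod_cast hn.ne'
  have h2 : wz (κ := κ) p.2 (Sum.inr N.o) = p.2 N.o := rfl
  unfold ZN.tv
  rw [N.L_o, h2]
  push_cast
  field_simp
  ring

theorem ZN.e_g (n : ℕ) (hn : 0 < n) (p : Eu κ × Eu H) (g : Γ) :
    ((8 * n ^ 6 : ℕ) : ℝ) * N.tg n p g ^ 2 = 1 / 2 * N.dg p.2 g ^ 2 := by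
  have hn' : (n : ℝ) ≠ 0 := by exact_mod_cast hn.ne'
  unfold ZN.tg
  push_cast
  field_simp
  ring

/-- the correction factor -/
theorem ZN.G_mul (n : ℕ) (hn : 0 < n) (p : Eu κ × Eu H) :
    N.G n p * Real.exp (N.En (n : ℝ)⁻¹ p) =
      (∏ v, ((1 + -(N.tv n p v ^ 2)) ^ (32 * n ^ 4 * N.mu v) *
        Real.exp (-(((32 * n ^ 4 * N.mu v : ℕ) : ℝ) * -(N.tv n p v ^ 2))))) *
      (((1 + -(N.tv n p (Sum.inr N.o) ^ 2)) ^ (8 * n ^ 6) *
        Real.exp (-(((8 * n ^ 6 : ℕ) : ℝ) * -(N.tv n p (Sum.inr N.o) ^ 2)))) *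
      ∏ g, ((1 + -(N.tg n p g ^ 2)) ^ (8 * n ^ 6) *
          Real.exp (-(((8 * n ^ 6 : ℕ) : ℝ) * -(N.tg n p g ^ 2))))) := by
  have e1 : Real.exp (N.En (n : ℝ)⁻¹ p) =
      (∏ v, Real.exp (-(((32 * n ^ 4 * N.mu v : ℕ) : ℝ) * -(N.tv n p v ^ 2)))) *
      (Real.exp (-(((8 * n ^ 6 : ℕ) : ℝ) * -(N.tv n p (Sum.inr N.o) ^ 2))) *
        ∏ g, Real.exp (-(((8 * n ^ 6 : ℕ) : ℝ) * -(N.tg n p g ^ 2)))) := by
    have h1 : ∀ v, -(((32 * n ^ 4 * N.mu v : ℕ) : ℝ) * -(N.tv n p v ^ 2)) =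
        1 / 2 * ((N.mu v : ℝ) * (lft N.L p.1 v + 2 * (n : ℝ)⁻¹ * wz p.2 v) ^ 2) := by
      intro v
      rw [← N.e_v n hn p v]
      ring
    have h2 : -(((8 * n ^ 6 : ℕ) : ℝ) * -(N.tv n p (Sum.inr N.o) ^ 2)) =
        1 / 2 * p.2 N.o ^ 2 := by
      rw [← N.e_o n hn p]
      ring
    have h3 : ∀ g, -(((8 * n ^ 6 : ℕ) : ℝ) * -(N.tg n p g ^ 2)) = 1 / 2 * N.dg p.2 g ^ 2 := by
      intro g
      rw [← N.e_g n hn p g]
      ring
    simp only [h1, h2, h3]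
    rw [← Real.exp_sum, ← Real.exp_sum, ← Real.exp_add, ← Real.exp_add]
    unfold ZN.En
    rw [Finset.mul_sum, Finset.mul_sum]
  rw [e1]
  unfold ZN.G
  rw [mul_mul_mul_comm, ← Finset.prod_mul_distrib, mul_mul_mul_comm (_ ^ (8 * n ^ 6)),
    ← Finset.prod_mul_distrib]

theorem ZN.tv_eq (n : ℕ) (p : Eu κ × Eu H) (v : κ ⊕ H) : N.tv n p v =
    (n : ℝ)⁻¹ ^ 2 * (lft N.L p.1 v / 8 + (n : ℝ)⁻¹ * (wz p.2 v / 4)) := by
  unfold ZN.tv
  rcases Nat.eq_zero_or_pos n with h | h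
  · subst h
    simp
  · have hn' : (n : ℝ) ≠ 0 := by exact_mod_cast h.ne'
    field_simp
    ring

theorem ZN.tg_eq' (n : ℕ) (p : Eu κ × Eu H) (g : Γ) :
    N.tg n p g = (n : ℝ)⁻¹ ^ 3 * (N.dg p.2 g / 4) := by
  unfold ZN.tg
  rcases Nat.eq_zero_or_pos n with h | h
  · subst h
    simp
  · have hn' : (n : ℝ) ≠ 0 := by exact_mod_cast h.ne'
    field_simp

theorem ZN.tv_o (n : ℕ) (p : Eu κ × Eu H) : N.tv n p (Sum.inr N.o) =
    (n : ℝ)⁻¹ ^ 3 * (p.2 N.o / 4) := by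
  rw [N.tv_eq, N.L_o]
  have h2 : wz (κ := κ) p.2 (Sum.inr N.o) = p.2 N.o := rfl
  rw [h2]
  ring

theorem ZN.tv_lim (p : Eu κ × Eu H) (v : κ ⊕ H) :
    Tendsto (fun n : ℕ => N.tv n p v) atTop (𝓝 0) := by
  have h := scal (f := fun r : ℝ => r ^ 2 * (lft N.L p.1 v / 8 + r * (wz p.2 v / 4))) (by fun_prop)
  simp only [← N.tv_eq] at h
  simpa using h

theorem ZN.lim_v (p : Eu κ × Eu H) (v : κ ⊕ H) :
    Tendsto (fun n : ℕ => (1 + -(N.tv n p v ^ 2)) ^ (32 * n ^ 4 * N.mu v) *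
      Real.exp (-(((32 * n ^ 4 * N.mu v : ℕ) : ℝ) * -(N.tv n p v ^ 2)))) atTop (𝓝 1) := by
  have h0 := ((N.tv_lim p v).pow 2).neg
  rw [zero_pow two_ne_zero, neg_zero] at h0
  refine pw_tendsto (x := fun n => -(N.tv n p v ^ 2)) (k := fun n => 32 * n ^ 4 * N.mu v) h0 ?_
  have h := scal (f := fun r : ℝ => 32 * (N.mu v : ℝ) * r ^ 4 *
    (lft N.L p.1 v / 8 + r * (wz p.2 v / 4)) ^ 4) (by fun_prop)
  simp only [mul_zero, zero_mul, ne_eq, OfNat.ofNat_ne_zero, not_false_eq_true, zero_pow] at h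
  refine h.congr' ?_
  filter_upwards [eventually_gt_atTop 0] with n hn
  have hn' : (n : ℝ) ≠ 0 := by exact_mod_cast hn.ne'
  rw [N.tv_eq]
  push_cast
  field_simp

/-- factors at the small scale -/
theorem lim_small (a : ℝ) :
    Tendsto (fun n : ℕ => (1 + -(((n : ℝ)⁻¹ ^ 3 * (a / 4)) ^ 2)) ^ (8 * n ^ 6) *
      Real.exp (-(((8 * n ^ 6 : ℕ) : ℝ) * -(((n : ℝ)⁻¹ ^ 3 * (a / 4)) ^ 2)))) atTop (𝓝 1) := by
  have h0 := scal (f := fun r : ℝ => -((r ^ 3 * (a / 4)) ^ 2)) (by fun_prop)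
  simp only [ne_eq, OfNat.ofNat_ne_zero, not_false_eq_true, zero_pow, zero_mul, neg_zero] at h0
  refine pw_tendsto (x := fun n : ℕ => -(((n : ℝ)⁻¹ ^ 3 * (a / 4)) ^ 2))
    (k := fun n => 8 * n ^ 6) h0 ?_
  have h := scal (f := fun r : ℝ => 8 * r ^ 6 * (a / 4) ^ 4) (by fun_prop)
  simp only [mul_zero, zero_mul, ne_eq, OfNat.ofNat_ne_zero, not_false_eq_true, zero_pow] at h
  refine h.congr' ?_
  filter_upwards [eventually_gt_atTop 0] with n hn
  have hn' : (n : ℝ) ≠ 0 := by exact_mod_cast hn.ne'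
  push_cast
  field_simp

theorem ZN.En_cont (p : Eu κ × Eu H) : Continuous fun r : ℝ => N.En r p := by
  unfold ZN.En
  fun_prop

/-- limits of the weights -/
theorem ZN.G_lim (p : Eu κ × Eu H) :
    Tendsto (fun n : ℕ => N.G n p) atTop (𝓝 (Real.exp (-N.En 0 p))) := by
  have h1 : Tendsto (fun n : ℕ => N.G n p * Real.exp (N.En (n : ℝ)⁻¹ p)) atTop (𝓝 1) := by
    have h2 := ((tendsto_finsetProd Finset.univ fun v _ => N.lim_v p v).mul
      ((lim_small (p.2 N.o)).mul (tendsto_finsetProd Finset.univ fun g _ =>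
        lim_small (N.dg p.2 g))))
    simp only [mul_one, Finset.prod_const_one] at h2
    refine h2.congr' ?_
    filter_upwards [eventually_gt_atTop 0] with n hn
    rw [N.G_mul n hn p]
    simp only [N.tv_o, N.tg_eq']
  have h3 := scal (f := fun r => Real.exp (-N.En r p))
    (Real.continuous_exp.comp (N.En_cont p).neg)
  have h4 := h1.mul h3
  rw [one_mul] at h4
  refine h4.congr fun n => ?_
  rw [mul_assoc, ← Real.exp_add, add_neg_cancel, Real.exp_zero, mul_one]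

theorem ZN.G_bd {n : ℕ} (hn : 0 < n) {p : Eu κ × Eu H} (h1 : ∀ v, |N.tv n p v| ≤ 1)
    (h2 : ∀ g, |N.tg n p g| ≤ 1) :
    0 ≤ N.G n p ∧ N.G n p ≤ Real.exp (-N.En (n : ℝ)⁻¹ p) := by
  have hsq : ∀ x : ℝ, |x| ≤ 1 → 0 ≤ 1 + -(x ^ 2) := fun x hx => by
    have := abs_le.1 hx
    nlinarith
  have h3 : 0 ≤ N.G n p * Real.exp (N.En (n : ℝ)⁻¹ p) ∧
      N.G n p * Real.exp (N.En (n : ℝ)⁻¹ p) ≤ 1 := by
    rw [N.G_mul n hn]
    exact mul01 (prod01 fun v => pw01 (hsq _ (h1 v)) _) (mul01 (pw01 (hsq _ (h1 _)) _)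
      (prod01 fun g => pw01 (hsq _ (h2 g)) _))
  have hE := Real.exp_pos (N.En (n : ℝ)⁻¹ p)
  refine ⟨nonneg_of_mul_nonneg_left h3.1 hE, ?_⟩
  rw [Real.exp_neg, ← one_div, le_div_iff₀ hE]
  exact h3.2

/-- the centre -/
noncomputable def hlf (S : Type) [Fintype S] : Eu S := WithLp.toLp 2 fun _ => 1 / 2

/-- the points of the large space -/
noncomputable def ZN.pt {n : ℕ} (hn : 0 < n) (p : Eu κ × Eu H) : Eu (κ ⊕ H) :=
  eh N.L _ _ (nP hn) (nQ hn) p + hlf (κ ⊕ H)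

theorem ZN.pt_v {n : ℕ} (hn : 0 < n) (p : Eu κ × Eu H) (v : κ ⊕ H) :
    N.pt hn p v = 1 / 2 * (1 + N.tv n p v) := by
  unfold ZN.tv
  rcases v with i | h
  · change ((16 : ℝ) * n ^ 2)⁻¹ * p.1 i + 1 / 2 =
      1 / 2 * (1 + 2 * (p.1 i / (16 * n ^ 2) + 0 / (8 * n ^ 3)))
    ring
  · change ((16 : ℝ) * n ^ 2)⁻¹ * (∑ i, N.L h i * p.1 i) + ((8 : ℝ) * n ^ 3)⁻¹ * p.2 h +
      1 / 2 = 1 / 2 * (1 + 2 * ((∑ i, N.L h i * p.1 i) / (16 * n ^ 2) +
        p.2 h / (8 * n ^ 3)))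
    ring

theorem ZN.pt_g {n : ℕ} (hn : 0 < n) (p : Eu κ × Eu H) (g : Γ) :
    lcz (N.a g) (N.b g) (N.c g) (N.pt hn p) = 1 / 2 * (1 + N.tg n p g) := by
  unfold lcz
  rw [N.pt_v, N.pt_v, N.pt_v, ← N.tg_eq]
  ring

/-- the base polytope in the variables `(y, ω)` -/
def ZN.Bs (n : ℕ) (p : Eu κ × Eu H) : Prop := ∃ hn : 0 < n, N.pt hn p ∈ convexHull ℝ N.V

open Classical in
/-- the densities in the variables `(y, ω)` -/
noncomputable def ZN.W (n : ℕ) (p : Eu κ × Eu H) : ℝ := if N.Bs n p then N.G n p else 0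

open Classical in
/-- the limit density of the visible variables -/
noncomputable def ZN.gm (y : Eu κ) : ℝ :=
  if ∀ i, 0 ≤ y i then Real.exp (-(1 / 2 * ∑ v, (N.mu v : ℝ) * lft N.L y v ^ 2)) else 0

/-- the limit density of the hidden variables -/
noncomputable def ZN.hm (w : Eu H) : ℝ :=
  Real.exp (-(1 / 2 * w N.o ^ 2 + 1 / 2 * ∑ g, N.dg w g ^ 2))

omit [Fintype κ] in
theorem lcz_aff {a b c : κ ⊕ H} [Fintype κ] : IsAff fun x : Eu (κ ⊕ H) => lcz a b c x := by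
  intro u u' r s _
  simp only [lcz, PiLp.add_apply, PiLp.smul_apply, smul_eq_mul]
  ring

theorem ZN.V_Z01 : N.V ⊆ Z01 (κ ⊕ H) := fun _ h => h.1

theorem ZN.hull_g (g : Γ) {x : Eu (κ ⊕ H)} (hx : x ∈ convexHull ℝ N.V) :
    0 ≤ lcz (N.a g) (N.b g) (N.c g) x ∧ lcz (N.a g) (N.b g) (N.c g) x ≤ 1 := by
  have h := hull_hull (convex_Icc (0 : ℝ) 1) (V := N.V)
    (A := fun x : Eu (κ ⊕ H) => lcz (N.a g) (N.b g) (N.c g) x) lcz_aff (fun v hv => by
      rcases hv.2.2 g with h | h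
      · simp only
        rw [h]
        norm_num
      · simp only
        rw [h]
        norm_num) hx
  exact h

theorem ZN.hull_k (k : κ) {x : Eu (κ ⊕ H)} (hx : x ∈ convexHull ℝ N.V) :
    1 ≤ x (Sum.inl k) + x (Sum.inr N.o) := by
  have h := hull_hull (convex_Ici (1 : ℝ)) (V := N.V)
    (A := fun x : Eu (κ ⊕ H) => x (Sum.inl k) + x (Sum.inr N.o)) (by
      intro u u' r s _
      simp only [PiLp.add_apply, PiLp.smul_apply, smul_eq_mul]
      ring) (fun v hv => hv.2.1 k) hx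
  exact h

theorem ZN.Bs_bd {n : ℕ} {p : Eu κ × Eu H} (h : N.Bs n p) :
    0 < n ∧ (∀ v, |N.tv n p v| ≤ 1) ∧ ∀ g, |N.tg n p g| ≤ 1 := by
  obtain ⟨hn, h⟩ := h
  refine ⟨hn, fun v => ?_, fun g => ?_⟩
  · have h1 := hull_cube N.V_Z01 h v
    rw [N.pt_v] at h1
    rw [abs_le]
    constructor <;> linarith [h1.1, h1.2]
  · have h1 := N.hull_g g h
    rw [N.pt_g] at h1
    rw [abs_le]
    constructor <;> linarith [h1.1, h1.2]

theorem ZN.Bs_ev (hN : N.Ok) {p : Eu κ × Eu H} (hy : ∀ i, 0 < p.1 i) :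
    ∀ᶠ n : ℕ in atTop, N.Bs n p := by
  obtain ⟨ρ, hρ, hloc⟩ := hN.loc
  have h1 : ∀ v, ∀ᶠ n : ℕ in atTop, |N.tv n p v| < ρ := fun v => by
    have h := (N.tv_lim p v).abs
    rw [abs_zero] at h
    exact h.eventually (gt_mem_nhds hρ)
  have h2 : ∀ k, ∀ᶠ n : ℕ in atTop, 0 < p.1 k / 8 + (n : ℝ)⁻¹ * (p.2 N.o / 4) := fun k => by
    have h := scal (f := fun r : ℝ => p.1 k / 8 + r * (p.2 N.o / 4)) (by fun_prop)
    rw [zero_mul, add_zero] at h
    exact h.eventually (lt_mem_nhds (by have := hy k; positivity))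
  filter_upwards [eventually_gt_atTop 0, eventually_all.2 h1, eventually_all.2 h2] with n hn h3 h4
  refine ⟨hn, hloc _ (fun i => ?_) fun k => ?_⟩
  · rw [N.pt_v, show 1 / 2 * (1 + N.tv n p i) - 1 / 2 = 1 / 2 * N.tv n p i by ring, abs_mul,
      abs_of_pos (by norm_num : (0 : ℝ) < 1 / 2)]
    have := h3 i
    have := abs_nonneg (N.tv n p i)
    linarith
  · have h6 : lft N.L p.1 (Sum.inl k) = p.1 k := rfl
    have h7 : wz p.2 (Sum.inl k) = 0 := rfl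
    rw [N.pt_v, N.pt_v, N.tv_o, N.tv_eq, h6, h7]
    have h5 : 0 ≤ (n : ℝ)⁻¹ ^ 2 * (p.1 k / 8 + (n : ℝ)⁻¹ * (p.2 N.o / 4)) :=
      mul_nonneg (by positivity) (h4 k).le
    nlinarith

theorem ZN.Bs_not {p : Eu κ × Eu H} {k : κ} (hy : p.1 k < 0) :
    ∀ᶠ n : ℕ in atTop, ¬ N.Bs n p := by
  have h := scal (f := fun r : ℝ => p.1 k / 8 + r * (p.2 N.o / 4)) (by fun_prop)
  rw [zero_mul, add_zero] at h
  filter_upwards [h.eventually (gt_mem_nhds (show p.1 k / 8 < 0 by linarith))] with n hn2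
  rintro ⟨hn, hm⟩
  have h4 := N.hull_k k hm
  have h6 : lft N.L p.1 (Sum.inl k) = p.1 k := rfl
  have h7 : wz p.2 (Sum.inl k) = 0 := rfl
  rw [N.pt_v, N.pt_v, N.tv_o, N.tv_eq, h6, h7] at h4
  have hn' : (0 : ℝ) < n := by exact_mod_cast hn
  have h5 : 0 < (n : ℝ)⁻¹ ^ 2 := by positivity
  have h8 := mul_neg_of_pos_of_neg h5 hn2
  nlinarith

theorem ZN.W_tendsto (hN : N.Ok) : ∀ᵐ p : Eu κ × Eu H, Tendsto (fun n : ℕ => N.W n p) atTop
    (𝓝 (N.gm p.1 * N.hm p.2)) := by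
  have h2 : ∀ᵐ p : Eu κ × Eu H, ∀ i, p.1 i ≠ 0 :=
    Measure.quasiMeasurePreserving_fst.ae coord_ne
  filter_upwards [h2] with p hp
  by_cases hin : ∀ i, 0 ≤ p.1 i
  · have hlt : ∀ i, 0 < p.1 i := fun i => lt_of_le_of_ne (hin i) (Ne.symm (hp i))
    have e1 : N.gm p.1 * N.hm p.2 = Real.exp (-N.En 0 p) := by
      unfold ZN.gm ZN.hm
      rw [if_pos hin, ← Real.exp_add]
      congr 1
      unfold ZN.En
      simp only [mul_zero, zero_mul, add_zero]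
      ring
    rw [e1]
    refine (N.G_lim p).congr' ?_
    filter_upwards [N.Bs_ev hN hlt] with n hn
    unfold ZN.W
    rw [if_pos hn]
  · have e1 : N.gm p.1 * N.hm p.2 = 0 := by
      unfold ZN.gm
      rw [if_neg hin, zero_mul]
    rw [e1]
    push Not at hin
    obtain ⟨k, hk⟩ := hin
    refine tendsto_const_nhds.congr' ?_
    filter_upwards [N.Bs_not hk] with n hn
    unfold ZN.W
    rw [if_neg hn]

omit [Fintype H] [Fintype κ] in
theorem wz_cont [Fintype H] (v : κ ⊕ H) : Continuous fun w : Eu H => wz (κ := κ) w v := by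
  rcases v with i | j
  · exact continuous_const
  · change Continuous fun w : Eu H => w j
    fun_prop

theorem ZN.dg_cont (g : Γ) : Continuous fun w : Eu H => N.dg w g := by
  unfold ZN.dg
  have h1 := wz_cont (N.a g)
  have h2 := wz_cont (N.b g)
  have h3 := wz_cont (N.c g)
  fun_prop

theorem lftz_cont (v : κ ⊕ H) : Continuous fun y : Eu κ => lft N.L y v := by
  rcases v with i | j
  · change Continuous fun y : Eu κ => y i
    fun_prop
  · change Continuous fun y : Eu κ => ∑ i, N.L j i * y i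
    fun_prop

theorem ZN.tv_cont (n : ℕ) (v : κ ⊕ H) : Continuous fun p : Eu κ × Eu H => N.tv n p v := by
  unfold ZN.tv
  have h3 : Continuous fun p : Eu κ × Eu H => lft N.L p.1 v := (lftz_cont N v).comp continuous_fst
  have h4 : Continuous fun p : Eu κ × Eu H => wz (κ := κ) p.2 v := (wz_cont v).comp continuous_snd
  fun_prop

theorem ZN.tg_cont (n : ℕ) (g : Γ) : Continuous fun p : Eu κ × Eu H => N.tg n p g := by
  unfold ZN.tg
  exact ((N.dg_cont g).comp continuous_snd).div_const _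

theorem ZN.G_cont (n : ℕ) : Continuous fun p : Eu κ × Eu H => N.G n p := by
  unfold ZN.G
  refine Continuous.mul ?_ (Continuous.mul ?_ ?_)
  · exact continuous_finsetProd _ fun v _ => (((N.tv_cont n v).pow 2).neg.const_add 1).pow _
  · exact ((((N.tv_cont n _).pow 2).neg).const_add 1).pow _
  · exact continuous_finsetProd _ fun g _ => ((((N.tg_cont n g).pow 2).neg).const_add 1).pow _

theorem ZN.Bs_meas (n : ℕ) : MeasurableSet {p : Eu κ × Eu H | N.Bs n p} := by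
  unfold ZN.Bs
  by_cases hn : 0 < n
  · have hc : Continuous fun p : Eu κ × Eu H => N.pt hn p := by
      unfold ZN.pt
      fun_prop
    have e : {p : Eu κ × Eu H | ∃ hn : 0 < n, N.pt hn p ∈ convexHull ℝ N.V} =
        (fun p => N.pt hn p) ⁻¹' convexHull ℝ N.V := by
      ext p
      exact ⟨fun ⟨_, h⟩ => h, fun h => ⟨hn, h⟩⟩
    rw [e]
    exact (hull_compact N.V_Z01).measurableSet.preimage hc.measurable
  · have e : {p : Eu κ × Eu H | ∃ hn : 0 < n, N.pt hn p ∈ convexHull ℝ N.V} = ∅ := by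
      ext p
      simp [hn]
    rw [e]
    exact MeasurableSet.empty

theorem ZN.W_meas (n : ℕ) : Measurable (N.W n) := by
  unfold ZN.W
  exact Measurable.ite (N.Bs_meas n) (N.G_cont n).measurable measurable_const

/-- coercivity of the hidden energy -/
theorem ZN.low_q : ∃ q : ℝ, 0 < q ∧ ∀ w : Eu H,
    q * ‖w‖ ≤ |w N.o| + ∑ g, |N.dg w g| := by
  let T : Eu H →ₗ[ℝ] Eu (Unit ⊕ Γ) :=
    { toFun := fun w => WithLp.toLp 2 (Sum.elim (fun _ => w N.o) (N.dg w))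
      map_add' := fun w w' => by
        have hw : ∀ v : κ ⊕ H, wz (w + w') v = wz w v + wz w' v := by
          intro v
          rcases v with v | v
          · simp [wz]
          · rfl
        ext i
        rcases i with i | i
        · rfl
        · change N.dg (w + w') i = N.dg w i + N.dg w' i
          unfold ZN.dg
          simp only [hw]
          ring
      map_smul' := fun r w => by
        have hw : ∀ v : κ ⊕ H, wz (r • w) v = r * wz w v := by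
          intro v
          rcases v with v | v
          · simp [wz]
          · rfl
        ext i
        rcases i with i | i
        · rfl
        · change N.dg (r • w) i = r * N.dg w i
          unfold ZN.dg
          simp only [hw]
          ring }
  have hT : Function.Injective T := by
    rw [← LinearMap.ker_eq_bot, LinearMap.ker_eq_bot']
    intro w hw
    have h0 : ∀ i, T w i = 0 := fun i => by rw [hw]; rfl
    have h1 := N.inj (wz w) (fun k => rfl) (h0 (Sum.inl ())) fun g => h0 (Sum.inr g)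
    ext i
    exact congrFun h1 (Sum.inr i)
  obtain ⟨q, hq, hqT⟩ := exists_q hT
  refine ⟨q, hq, fun w => (hqT w).trans ((norm_le_sum _).trans (le_of_eq ?_))⟩
  rw [Fintype.sum_sum_type]
  simp only [Finset.univ_unique, Finset.sum_singleton]
  rfl

theorem ZN.hid_le {q : ℝ} (hq : ∀ w : Eu H, q * ‖w‖ ≤ |w N.o| + ∑ g, |N.dg w g|) (w : Eu H) :
    q * ‖w‖ - (1 / 2 + 1 / 2 * Fintype.card Γ) ≤
      1 / 2 * w N.o ^ 2 + 1 / 2 * ∑ g, N.dg w g ^ 2 := by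
  have h1 := hq w
  have h4 : ∀ x : ℝ, |x| ≤ 1 / 2 * x ^ 2 + 1 / 2 := fun x => by
    rw [← sq_abs]
    nlinarith [sq_nonneg (|x| - 1)]
  have h5 : ∑ g, |N.dg w g| ≤ 1 / 2 * ∑ g, N.dg w g ^ 2 + 1 / 2 * Fintype.card Γ := by
    calc ∑ g, |N.dg w g| ≤ ∑ g, (1 / 2 * N.dg w g ^ 2 + 1 / 2) :=
          Finset.sum_le_sum fun g _ => h4 _
      _ = _ := by
          rw [Finset.sum_add_distrib, ← Finset.mul_sum, Finset.sum_const, Finset.card_univ,
            nsmul_eq_mul]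
          ring
  have h6 := h4 (w N.o)
  linarith

theorem ZN.En_ge {q : ℝ} (hq : ∀ w : Eu H, q * ‖w‖ ≤ |w N.o| + ∑ g, |N.dg w g|) (r : ℝ)
    (p : Eu κ × Eu H) :
    1 * ‖p.1‖ + q * ‖p.2‖ - (1 + 1 / 2 * Fintype.card Γ) ≤ N.En r p := by
  have h1 := N.hid_le hq p.2
  have h2 : ‖p.1‖ ^ 2 ≤ ∑ v, (N.mu v : ℝ) * (lft N.L p.1 v + 2 * r * wz p.2 v) ^ 2 := by
    rw [Fintype.sum_sum_type, EuclideanSpace.norm_sq_eq]
    refine le_add_of_le_of_nonneg (Finset.sum_le_sum fun i _ => ?_)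
      (Finset.sum_nonneg fun h _ => by positivity)
    have e : ((N.mu (Sum.inl i) : ℕ) : ℝ) * (lft N.L p.1 (Sum.inl i) +
        2 * r * wz p.2 (Sum.inl i)) ^ 2 = p.1 i ^ 2 := by
      simp [ZN.mu, lft, wz]
    rw [e, Real.norm_eq_abs, sq_abs]
  have h3 : 1 * ‖p.1‖ ≤ 1 / 2 * ‖p.1‖ ^ 2 + 1 / 2 := by nlinarith [sq_nonneg (‖p.1‖ - 1)]
  unfold ZN.En
  linarith

theorem ZN.W_nonneg (n : ℕ) (p : Eu κ × Eu H) : 0 ≤ N.W n p := by
  unfold ZN.W
  split_ifs with h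
  · have h1 := N.Bs_bd h
    exact (N.G_bd h1.1 h1.2.1 h1.2.2).1
  · exact le_rfl

theorem ZN.W_le {q : ℝ} (hq : ∀ w : Eu H, q * ‖w‖ ≤ |w N.o| + ∑ g, |N.dg w g|) (n : ℕ)
    (p : Eu κ × Eu H) :
    N.W n p ≤ Real.exp (1 + 1 / 2 * Fintype.card Γ) * mj2 q κ H p := by
  unfold ZN.W
  split_ifs with h
  · have h1 := N.Bs_bd h
    refine (N.G_bd h1.1 h1.2.1 h1.2.2).2.trans ?_
    unfold mj2
    rw [← Real.exp_add, ← Real.exp_add]
    refine Real.exp_le_exp.2 ?_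
    have := N.En_ge hq (n : ℝ)⁻¹ p
    linarith
  · unfold mj2
    positivity

/-- limits of the integrals -/
theorem ZN.W_lim (hN : N.Ok) {φ : Eu κ → ℝ} (hφ : Grow φ) :
    Tendsto (fun n : ℕ => ∫ p, φ p.1 * N.W n p) atTop
      (𝓝 ((∫ v, φ v * N.gm v) * ∫ w, N.hm w)) := by
  obtain ⟨q, hq0, hq⟩ := N.low_q
  obtain ⟨hc, B, hB⟩ := hφ
  have e1 : (∫ v, φ v * N.gm v) * ∫ w, N.hm w =
      ∫ p : Eu κ × Eu H, φ p.1 * (N.gm p.1 * N.hm p.2) := by
    rw [← integral_prod_mul]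
    refine integral_congr_ae (Eventually.of_forall fun p => ?_)
    simp only
    ring
  rw [e1]
  refine tendsto_integral_filter_of_dominated_convergence (fun p =>
    |B| * Real.exp (1 + 1 / 2 * Fintype.card Γ) *
      ((1 + ‖p.1‖ ^ 2) * (1 + ‖p.2‖ ^ 2) * mj2 q κ H p)) ?_ ?_
      ((mj2_int hq0).const_mul _) ?_
  · exact Eventually.of_forall fun n => ((hc.comp continuous_fst).aestronglyMeasurable).mul
      (N.W_meas n).aestronglyMeasurable
  · refine Eventually.of_forall fun n => Eventually.of_forall fun p => ?_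
    rw [Real.norm_eq_abs, abs_mul, abs_of_nonneg (N.W_nonneg n p)]
    have h1 : |φ p.1| ≤ |B| * (1 + ‖p.1‖ ^ 2) :=
      (hB _).trans (mul_le_mul_of_nonneg_right (le_abs_self B) (by positivity))
    have h2 := N.W_le hq n p
    have hm : 0 ≤ mj2 q κ H p := mul_nonneg (Real.exp_pos _).le (Real.exp_pos _).le
    calc |φ p.1| * N.W n p
        ≤ (|B| * (1 + ‖p.1‖ ^ 2)) * (Real.exp (1 + 1 / 2 * Fintype.card Γ) * mj2 q κ H p) :=
          mul_le_mul h1 h2 (N.W_nonneg n p) (by positivity)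
      _ = |B| * Real.exp (1 + 1 / 2 * Fintype.card Γ) *
          ((1 + ‖p.1‖ ^ 2) * 1 * mj2 q κ H p) := by ring
      _ ≤ _ := by
          refine mul_le_mul_of_nonneg_left ?_ (by positivity)
          refine mul_le_mul_of_nonneg_right ?_ hm
          refine mul_le_mul_of_nonneg_left ?_ (by positivity)
          nlinarith [sq_nonneg ‖p.2‖]
  · filter_upwards [N.W_tendsto hN] with p hp
    exact hp.const_mul _

end znet

end Pool.Agent.H776
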