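import Pool.Agent.H776.ZNet
import Pool.Agent.H776.HNet4

/-!
# Networks of 0/1-polytopes: Gaussian measures on orthants
-/

set_option autoImplicit false

namespace Pool.Agent.H776

open MeasureTheory Set Filter Topology
open scoped ENNReal InnerProductSpace

section gf

variable {σ I : Type} [Fintype σ] [Fintype I] {V : Set (Eu σ)} {x₀ : Eu σ}

/-- affine functions with values 0, 1 at the vertices -/
structure Gf (V : Set (Eu σ)) (x₀ : Eu σ) (f : Eu σ → ℝ) : Prop where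
  aff : IsAff f
  cont : Continuous f
  ver : ∀ v ∈ V, f v = 0 ∨ f v = 1
  at0 : 0 < f x₀ ∧ f x₀ < 1

/-- a function or its complement -/
def tf (f : Eu σ → ℝ) (b : Bool) (x : Eu σ) : ℝ := if b then f x else 1 - f x

theorem Gf.tf {f : Eu σ → ℝ} (h : Gf V x₀ f) (b : Bool) : Gf V x₀ (tf f b) := by
  cases b
  · refine ⟨fun u u' r s hrs => ?_, ?_, fun v hv => ?_, ?_⟩
    · simp only [Pool.Agent.H776.tf, Bool.false_eq_true, if_false]
      rw [h.aff u u' r s hrs]
      simp only [smul_eq_mul]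
      linear_combination (-1 : ℝ) * hrs
    · have h1 := h.cont
      have e : Pool.Agent.H776.tf f false = fun x => 1 - f x := by
        funext x
        simp [Pool.Agent.H776.tf]
      rw [e]
      fun_prop
    · simp only [Pool.Agent.H776.tf, Bool.false_eq_true, if_false]
      rcases h.ver v hv with h1 | h1 <;> rw [h1] <;> norm_num
    · simp only [Pool.Agent.H776.tf, Bool.false_eq_true, if_false]
      have := h.at0
      constructor <;> linarith [this.1, this.2]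
  · have e : Pool.Agent.H776.tf f true = f := by
      funext x
      simp [Pool.Agent.H776.tf]
    rw [e]
    exact h

omit [Fintype I] in
theorem ld_of {l : I → Eu σ → ℝ} (hV : V ⊆ Z01 σ) (hx : x₀ ∈ interior (convexHull ℝ V))
    (h : ∀ i, Gf V x₀ (l i)) : LD (convexHull ℝ V) l := by
  refine ⟨IsZP.cb ⟨V, hV, rfl⟩ ⟨x₀, hx⟩, fun i => (h i).cont, fun i s hs => ?_,
    ⟨x₀, hx, fun i => (h i).at0.1⟩⟩
  exact hull_hull (convex_Icc (0 : ℝ) 1) (h i).aff (fun v hv => by
    rcases (h i).ver v hv with h1 | h1 <;> rw [h1] <;> norm_num) hs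

end gf

section znet2

variable {κ H Γ : Type} [Fintype κ] [Fintype H] [Fintype Γ] (N : ZN κ H Γ)

theorem ZN.centre (hN : N.Ok) : ∃ x₀ ∈ interior (convexHull ℝ N.V),
    (∀ v, Gf N.V x₀ fun x => x v) ∧ ∀ g, Gf N.V x₀ fun x => lcz (N.a g) (N.b g) (N.c g) x := by
  obtain ⟨ρ₀, hρ₀, hloc⟩ := hN.loc
  set ρ := min ρ₀ (1 / 4) with hρd
  have hρ : 0 < ρ := lt_min hρ₀ (by norm_num)
  have hρ1 : ρ ≤ ρ₀ := min_le_left _ _
  have hρ2 : ρ ≤ 1 / 4 := min_le_right _ _
  set x₀ : Eu (κ ⊕ H) := WithLp.toLp 2 (Sum.elim (fun _ => 1 / 2 + ρ / 2) fun _ => 1 / 2) with hx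
  have hb : ∀ v, 1 / 2 ≤ x₀ v ∧ x₀ v ≤ 1 / 2 + ρ / 2 := by
    intro v
    rcases v with v | v
    · change 1 / 2 ≤ 1 / 2 + ρ / 2 ∧ 1 / 2 + ρ / 2 ≤ 1 / 2 + ρ / 2
      constructor <;> linarith
    · change (1 : ℝ) / 2 ≤ 1 / 2 ∧ (1 : ℝ) / 2 ≤ 1 / 2 + ρ / 2
      constructor <;> linarith
  refine ⟨x₀, ?_, fun v => ⟨fun u u' r s _ => rfl, by fun_prop, fun w hw => hw.1 v, ?_⟩,
    fun g => ⟨lcz_aff, ?_, fun w hw => hw.2.2 g, ?_⟩⟩
  · rw [mem_interior]
    refine ⟨{x : Eu (κ ⊕ H) | (∀ i, |x i - 1 / 2| < ρ) ∧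
      ∀ k, 1 < x (Sum.inl k) + x (Sum.inr N.o)}, fun x hx => ?_, ?_, fun i => ?_, fun k => ?_⟩
    · exact hloc x (fun i => ((hx.1 i).le).trans hρ1) fun k => (hx.2 k).le
    · have o1 : IsOpen {x : Eu (κ ⊕ H) | ∀ i, |x i - 1 / 2| < ρ} := by
        rw [ofPred_forall]
        refine isOpen_iInter_of_finite fun j => ?_
        exact isOpen_lt (by fun_prop) continuous_const
      have o2 : IsOpen {x : Eu (κ ⊕ H) | ∀ k, 1 < x (Sum.inl k) + x (Sum.inr N.o)} := by
        rw [ofPred_forall]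
        refine isOpen_iInter_of_finite fun j => ?_
        exact isOpen_lt continuous_const (by fun_prop)
      exact o1.inter o2
    · rw [abs_lt]
      have := hb i
      constructor <;> linarith [this.1, this.2]
    · change 1 < (1 / 2 + ρ / 2) + 1 / 2
      linarith
  · have := hb v
    constructor <;> linarith [this.1, this.2]
  · unfold lcz
    fun_prop
  · unfold lcz
    have h1 := hb (N.a g)
    have h2 := hb (N.b g)
    have h3 := hb (N.c g)
    constructor <;> linarith [h1.1, h1.2, h2.1, h2.2, h3.1, h3.2]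

/-- indices of the copies -/
abbrev ZN.Ix (n : ℕ) : Type :=
  (Σ v : κ ⊕ H, Fin (32 * n ^ 4 * N.mu v) × Bool) ⊕ ((Fin (8 * n ^ 6) × Bool) ⊕
    (Γ × (Fin (8 * n ^ 6) × Bool)))

/-- the functions -/
noncomputable def ZN.lf (n : ℕ) : N.Ix n → Eu (κ ⊕ H) → ℝ :=
  Sum.elim (fun q => tf (fun x => x q.1) q.2.2) (Sum.elim
    (fun q => tf (fun x => x (Sum.inr N.o)) q.2)
    fun q => tf (fun x => lcz (N.a q.1) (N.b q.1) (N.c q.1) x) q.2.2)

theorem ZN.lf_gf {x₀ : Eu (κ ⊕ H)} (h1 : ∀ v, Gf N.V x₀ fun x => x v)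
    (h2 : ∀ g, Gf N.V x₀ fun x => lcz (N.a g) (N.b g) (N.c g) x) (n : ℕ) (i : N.Ix n) :
    Gf N.V x₀ (N.lf n i) := by
  rcases i with i | i | i
  · exact (h1 _).tf _
  · exact (h1 _).tf _
  · exact (h2 _).tf _

/-- the constants -/
noncomputable def ZN.Cn (n : ℕ) : ℝ :=
  (∏ v, (1 / 4 : ℝ) ^ (32 * n ^ 4 * N.mu v)) * ((1 / 4 : ℝ) ^ (8 * n ^ 6) *
    ∏ _g : Γ, (1 / 4 : ℝ) ^ (8 * n ^ 6))

theorem ZN.Cn_pos (n : ℕ) : 0 < N.Cn n := by
  unfold ZN.Cn
  positivity

theorem ZN.prod_lf {n : ℕ} (hn : 0 < n) (p : Eu κ × Eu H) :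
    ∏ i, N.lf n i (N.pt hn p) = N.Cn n * N.G n p := by
  have e1 : ∏ i, N.lf n i (N.pt hn p) =
      (∏ v, (1 / 4 * (1 + -(N.tv n p v ^ 2))) ^ (32 * n ^ 4 * N.mu v)) *
      ((1 / 4 * (1 + -(N.tv n p (Sum.inr N.o) ^ 2))) ^ (8 * n ^ 6) *
        ∏ g, (1 / 4 * (1 + -(N.tg n p g ^ 2))) ^ (8 * n ^ 6)) := by
    rw [Fintype.prod_sum_type, Fintype.prod_sum_type]
    refine congrArg₂ (· * ·) ?_ (congrArg₂ (· * ·) ?_ ?_)
    · rw [Fintype.prod_sigma]
      refine Finset.prod_congr rfl fun v _ => ?_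
      rw [Fintype.prod_prod_type]
      simp only [ZN.lf, Sum.elim_inl, Fintype.prod_bool, tf, Bool.false_eq_true, if_false, if_true,
        N.pt_v, Finset.prod_const, Finset.card_univ, Fintype.card_fin]
      congr 1
      ring
    · rw [Fintype.prod_prod_type]
      simp only [ZN.lf, Sum.elim_inl, Sum.elim_inr, Fintype.prod_bool, tf, Bool.false_eq_true,
        if_false, if_true, N.pt_v, Finset.prod_const, Finset.card_univ, Fintype.card_fin]
      congr 1
      ring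
    · rw [Fintype.prod_prod_type]
      refine Finset.prod_congr rfl fun g _ => ?_
      rw [Fintype.prod_prod_type]
      simp only [ZN.lf, Sum.elim_inr, Fintype.prod_bool, tf, Bool.false_eq_true,
        if_false, if_true, N.pt_g, Finset.prod_const, Finset.card_univ, Fintype.card_fin]
      congr 1
      ring
  rw [e1]
  unfold ZN.Cn ZN.G
  simp only [mul_pow, Finset.prod_mul_distrib]
  ring

theorem ZN.wq_pt {n : ℕ} (hn : 0 < n) (p : Eu κ × Eu H) :
    wq (convexHull ℝ N.V) (N.lf n) (N.pt hn p) = N.Cn n * N.W n p := by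
  unfold wq ZN.W
  by_cases h : N.pt hn p ∈ convexHull ℝ N.V
  · rw [indicator_of_mem h, if_pos (show N.Bs n p from ⟨hn, h⟩)]
    exact N.prod_lf hn p
  · rw [indicator_of_notMem h, if_neg (show ¬ N.Bs n p from fun ⟨_, h'⟩ => h h'), mul_zero]

/-- the linear map with the limit energy -/
noncomputable def ZN.Am : Eu κ →ₗ[ℝ] Eu (κ ⊕ H) where
  toFun y := WithLp.toLp 2 fun v => Real.sqrt (N.mu v) * lft N.L y v
  map_add' y z := by
    ext v
    have h : lft N.L (y + z) v = lft N.L y v + lft N.L z v := by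
      rcases v with i | h
      · rfl
      · change ∑ i, N.L h i * (y i + z i) = (∑ i, N.L h i * y i) + ∑ i, N.L h i * z i
        simp only [mul_add, Finset.sum_add_distrib]
    change Real.sqrt (N.mu v) * lft N.L (y + z) v = Real.sqrt (N.mu v) * lft N.L y v +
      Real.sqrt (N.mu v) * lft N.L z v
    rw [h]
    ring
  map_smul' r y := by
    ext v
    have h : lft N.L (r • y) v = r * lft N.L y v := by
      rcases v with i | h
      · rfl
      · change ∑ i, N.L h i * (r * y i) = r * ∑ i, N.L h i * y i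
        rw [Finset.mul_sum]
        exact Finset.sum_congr rfl fun i _ => by ring
    change Real.sqrt (N.mu v) * lft N.L (r • y) v = r * (Real.sqrt (N.mu v) * lft N.L y v)
    rw [h]
    ring

omit [Fintype Γ] in
theorem ZN.Am_sq (y : Eu κ) : ‖N.Am y‖ ^ 2 = ∑ v, (N.mu v : ℝ) * lft N.L y v ^ 2 := by
  rw [EuclideanSpace.norm_sq_eq]
  refine Finset.sum_congr rfl fun v _ => ?_
  change ‖Real.sqrt (N.mu v) * lft N.L y v‖ ^ 2 = _
  rw [Real.norm_eq_abs, sq_abs, mul_pow, Real.sq_sqrt (Nat.cast_nonneg _)]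

omit [Fintype Γ] in
theorem ZN.Am_inj : Function.Injective N.Am := by
  rw [← LinearMap.ker_eq_bot, LinearMap.ker_eq_bot']
  intro y hy
  ext i
  have h1 : N.Am y (Sum.inl i) = 0 := by rw [hy]; rfl
  have h2 : N.Am y (Sum.inl i) = Real.sqrt ((1 : ℕ) : ℝ) * y i := rfl
  rw [h2] at h1
  simpa using h1

omit [Fintype Γ] in
theorem ZN.gm_gq : ∃ Q : Matrix κ κ ℝ, Q.PosDef ∧ N.gm = gq Q := by
  classical
  obtain ⟨Q, hQ, -, hQA⟩ := exists_matrix N.Am N.Am_inj
  refine ⟨Q, hQ, ?_⟩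
  funext y
  unfold ZN.gm gq
  have e : qf Q y = ‖N.Am y‖ ^ 2 := (hQA y).symm
  rw [e, N.Am_sq]
  by_cases hy : ∀ i, 0 ≤ y i
  · rw [if_pos hy, if_pos hy]
    congr 1
    ring
  · rw [if_neg hy, if_neg hy]

theorem ZN.gm_wt : Wt N.gm := by
  obtain ⟨Q, hQ, e⟩ := N.gm_gq
  rw [e]
  exact wt_gq hQ

theorem ZN.hm_meas : Measurable N.hm := by
  unfold ZN.hm
  have h1 := fun g => N.dg_cont g
  exact (Real.continuous_exp.comp (Continuous.neg (Continuous.add (by fun_prop)
    (continuous_const.mul (continuous_finsetSum _ fun g _ => (h1 g).pow 2))))).measurable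

theorem ZN.hm_pos : 0 < ∫ w, N.hm w := by
  obtain ⟨q, hq0, hq⟩ := N.low_q
  have hp : ∀ w, 0 < N.hm w := fun w => Real.exp_pos _
  rw [integral_pos_iff_support_of_nonneg fun w => (hp w).le]
  · have e : Function.support N.hm = univ := eq_univ_of_forall fun w => (hp w).ne'
    rw [e]
    exact isOpen_univ.measure_pos volume univ_nonempty
  · have h1 := (Q38.LD.Lim.integ (κ := H) hq0).const_mul
      (Real.exp (1 / 2 + 1 / 2 * Fintype.card Γ))
    refine h1.mono' N.hm_meas.aestronglyMeasurable (Eventually.of_forall fun w => ?_)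
    rw [Real.norm_of_nonneg (hp w).le]
    have h2 : N.hm w ≤ Real.exp (1 / 2 + 1 / 2 * Fintype.card Γ) * Real.exp (-(q * ‖w‖)) := by
      unfold ZN.hm
      rw [← Real.exp_add]
      refine Real.exp_le_exp.2 ?_
      have := N.hid_le hq w
      linarith
    refine h2.trans ?_
    have h3 : 0 < Real.exp (1 / 2 + 1 / 2 * Fintype.card Γ) * Real.exp (-(q * ‖w‖)) := by
      positivity
    nlinarith [mul_nonneg (sq_nonneg ‖w‖) h3.le]

/-- **Gaussian measures on orthants from 0/1-polytopes** -/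
theorem ZN.kp (hN : N.Ok) {D : ℝ} (hD : 0 ≤ D)
    (HH : ∀ (σ : Type) [Fintype σ] (K : Set (Eu σ)), IsZP K → (interior K).Nonempty →
      KP (nm (K.indicator fun _ => (1 : ℝ))) D) : KP (nm N.gm) D := by
  have hw := N.gm_wt
  have hprob := hw.prob
  obtain ⟨x₀, hx₀, hg1, hg2⟩ := N.centre hN
  have hgf := N.lf_gf hg1 hg2
  have hld : ∀ n, LD (convexHull ℝ N.V) (N.lf n) := fun n => ld_of N.V_Z01 hx₀ (hgf n)
  have hwt : ∀ n, Wt (wq (convexHull ℝ N.V) (N.lf n)) := fun n => wt_wq (hld n)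
  have hpr : ∀ n, IsProbabilityMeasure (nm (wq (convexHull ℝ N.V) (N.lf n))) :=
    fun n => (hwt n).prob
  have hpv : Measurable (pv Sum.inl : Eu (κ ⊕ H) → Eu κ) := pv_cont.measurable
  have hpr1 : ∀ n, IsProbabilityMeasure ((nm (wq (convexHull ℝ N.V) (N.lf n))).map (pv Sum.inl)) :=
    fun n => Measure.isProbabilityMeasure_map hpv.aemeasurable
  have hme : ∀ n : ℕ, Measurable fun x : Eu κ => (16 * (n : ℝ) ^ 2) • x - bv κ n := fun n => by
    fun_prop
  have hpr2 : ∀ n, IsProbabilityMeasure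
      (((nm (wq (convexHull ℝ N.V) (N.lf n))).map (pv Sum.inl)).map
      fun x : Eu κ => (16 * (n : ℝ) ^ 2) • x - bv κ n) :=
    fun n => Measure.isProbabilityMeasure_map (hme n).aemeasurable
  have hsq1 : ∀ n, Integrable (fun x => ‖x‖ ^ 2)
      ((nm (wq (convexHull ℝ N.V) (N.lf n))).map (pv Sum.inl)) := by
    intro n
    rw [integrable_map_measure (by fun_prop) hpv.aemeasurable]
    refine (hwt n).int_sq.mono' ?_ (Eventually.of_forall fun s => ?_)
    · exact ((pv_cont.norm).pow 2).aestronglyMeasurable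
    · simp only [Function.comp_apply]
      rw [Real.norm_of_nonneg (by positivity)]
      change ‖pl s‖ ^ 2 ≤ _
      rw [norm_sq_split s]
      exact le_add_of_nonneg_right (sq_nonneg _)
  have hsq2 : ∀ n, Integrable (fun x => ‖x‖ ^ 2)
      (((nm (wq (convexHull ℝ N.V) (N.lf n))).map (pv Sum.inl)).map
      fun x : Eu κ => (16 * (n : ℝ) ^ 2) • x - bv κ n) := by
    intro n
    rw [integrable_map_measure (by fun_prop) (hme n).aemeasurable]
    refine Grow.integrable (φ := (fun x : Eu κ => ‖x‖ ^ 2) ∘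
      fun x : Eu κ => (16 * (n : ℝ) ^ 2) • x - bv κ n) ⟨by fun_prop,
        2 * (16 * (n : ℝ) ^ 2) ^ 2 + 2 * ‖bv κ n‖ ^ 2, fun x => ?_⟩ (hsq1 n)
    simp only [Function.comp_apply]
    rw [abs_of_nonneg (by positivity)]
    have h1 : ‖(16 * (n : ℝ) ^ 2) • x - bv κ n‖ ≤ (16 * (n : ℝ) ^ 2) * ‖x‖ + ‖bv κ n‖ := by
      refine (norm_sub_le _ _).trans ?_
      rw [norm_smul, Real.norm_of_nonneg (by positivity)]
    have h2 := pow_le_pow_left₀ (norm_nonneg _) h1 2
    refine h2.trans ?_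
    set A := (16 * (n : ℝ) ^ 2)
    set B := ‖bv κ n‖
    have k1 : 0 ≤ ‖x‖ ^ 2 := sq_nonneg _
    nlinarith [sq_nonneg (A * ‖x‖ - B), mul_nonneg (sq_nonneg B) k1, sq_nonneg A]
  refine KP.lim (l := (atTop : Filter ℕ)) (m := fun n =>
    ((nm (wq (convexHull ℝ N.V) (N.lf n))).map (pv Sum.inl)).map
      fun x : Eu κ => (16 * (n : ℝ) ^ 2) • x - bv κ n)
    ⟨Eventually.of_forall hpr2, Eventually.of_forall hsq2, hw.int_sq, fun φ hφ => ?_⟩ hD ?_
  · have hZ := N.hm_pos
    have h1 := (N.W_lim hN hφ).div (N.W_lim hN (φ := fun _ => 1)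
      (grow_bdd continuous_const (B := 1) (by simp))) (by
        simp only [one_mul]
        exact (mul_pos hw.pos hZ).ne')
    simp only [one_mul] at h1
    rw [mul_div_mul_right _ _ hZ.ne'] at h1
    rw [integral_nm hw.nonneg hw.meas]
    refine h1.congr' ?_
    filter_upwards [eventually_gt_atTop 0] with n hn
    have hc : Continuous fun x : Eu κ => φ ((16 * (n : ℝ) ^ 2) • x - bv κ n) :=
      hφ.1.comp (by fun_prop)
    have := vol_haar κ H
    rw [integral_map (hme n).aemeasurable hφ.1.aestronglyMeasurable,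
      integral_map hpv.aemeasurable hc.aestronglyMeasurable,
      integral_nm (hwt n).nonneg (hwt n).meas,
      integral_quot (volume : Measure (Eu κ × Eu H)) volume
        (eh N.L _ _ (nP hn) (nQ hn)) (hlf (κ ⊕ H))]
    have e1 : ∀ p : Eu κ × Eu H, (16 * (n : ℝ) ^ 2) •
        pv Sum.inl (eh N.L _ _ (nP hn) (nQ hn) p + hlf (κ ⊕ H)) - bv κ n = p.1 := by
      intro p
      ext i
      change (16 * (n : ℝ) ^ 2) * (((16 : ℝ) * n ^ 2)⁻¹ * p.1 i + 1 / 2) - 8 * (n : ℝ) ^ 2 = p.1 i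
      have hn' : (n : ℝ) ≠ 0 := by exact_mod_cast hn.ne'
      field_simp
      ring
    have e2 : ∀ p : Eu κ × Eu H, wq (convexHull ℝ N.V) (N.lf n)
        (eh N.L _ _ (nP hn) (nQ hn) p + hlf (κ ⊕ H)) = N.Cn n * N.W n p := fun p => N.wq_pt hn p
    simp only [e1, e2]
    have e3 : ∀ p : Eu κ × Eu H, φ p.1 * (N.Cn n * N.W n p) =
        N.Cn n * (φ p.1 * N.W n p) := fun p => by ring
    simp only [e3]
    rw [integral_const_mul, integral_const_mul, mul_div_mul_left _ _ (N.Cn_pos n).ne']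
    rfl
  · filter_upwards [eventually_gt_atTop 0] with n hn
    have hn' : (0 : ℝ) < n := by exact_mod_cast hn
    obtain ⟨v₁, hv₁, hv₂⟩ := hN.vert
    exact (kp_wgtZ hD HH N.V_Z01 (hld n) (fun i => (hgf n i).aff) (fun i => (hgf n i).ver) Sum.inl
      hv₁ hv₂).affine (hsq1 n) (by positivity) (bv κ n)

end znet2

end Pool.Agent.H776
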