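import Pool.Agent.H776.ZNet2
import Pool.Agent.H776.HNet6

/-!
# Networks of 0/1-polytopes: construction
-/

set_option autoImplicit false

namespace Pool.Agent.H776

open MeasureTheory Set Filter Topology
open scoped ENNReal InnerProductSpace

/-- points with small coordinates in convex sets -/
theorem cross {J : Type} [Fintype J] [DecidableEq J] {C : Set (J → ℝ)} (hC : Convex ℝ C)
    (h0 : (0 : J → ℝ) ∈ C) {c : J → ℝ} (h1 : ∀ j, 0 < c j → (Pi.single j (1 / 2) : J → ℝ) ∈ C)
    (h2 : ∀ j, c j < 0 → (Pi.single j (-(1 / 2)) : J → ℝ) ∈ C) (hs : ∑ j, |c j| ≤ 1 / 2) :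
    c ∈ C := by
  let z : Option J → (J → ℝ) := fun o => o.elim 0 fun j =>
    if 0 < c j then Pi.single j (1 / 2) else if c j < 0 then Pi.single j (-(1 / 2)) else 0
  let w : Option J → ℝ := fun o => o.elim (1 - 2 * ∑ j, |c j|) fun j => 2 * |c j|
  have h3 : ∑ o, w o • z o ∈ C := by
    refine hC.sum_mem (fun o _ => ?_) ?_ fun o _ => ?_
    · rcases o with _ | j
      · change 0 ≤ 1 - 2 * ∑ j, |c j|
        linarith
      · change 0 ≤ 2 * |c j|
        positivity
    · rw [Fintype.sum_option]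
      change (1 - 2 * ∑ j, |c j|) + ∑ j, 2 * |c j| = 1
      rw [← Finset.mul_sum]
      ring
    · rcases o with _ | j
      · exact h0
      · change (if 0 < c j then Pi.single j (1 / 2) else
          if c j < 0 then Pi.single j (-(1 / 2)) else (0 : J → ℝ)) ∈ C
        split_ifs with h3 h4
        · exact h1 j h3
        · exact h2 j h4
        · exact h0
  have e : ∑ o, w o • z o = c := by
    rw [Fintype.sum_option]
    change (1 - 2 * ∑ j, |c j|) • (0 : J → ℝ) + ∑ j, (2 * |c j|) •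
      (if 0 < c j then Pi.single j (1 / 2) else
          if c j < 0 then Pi.single j (-(1 / 2)) else (0 : J → ℝ)) = c
    rw [smul_zero, zero_add]
    funext i
    rw [Finset.sum_apply, Finset.sum_eq_single i]
    · rw [Pi.smul_apply, smul_eq_mul]
      rcases lt_trichotomy (c i) 0 with h | h | h
      · rw [if_neg (not_lt.2 h.le), if_pos h, Pi.single_eq_same, abs_of_neg h]
        ring
      · rw [h]
        simp
      · rw [if_pos h, Pi.single_eq_same, abs_of_pos h]
        ring
    · intro j _ hj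
      rw [Pi.smul_apply, smul_eq_mul]
      have h4 : (if 0 < c j then Pi.single j (1 / 2) else
          if c j < 0 then Pi.single j (-(1 / 2)) else (0 : J → ℝ)) i = 0 := by
        split_ifs
        · exact Pi.single_eq_of_ne hj.symm _
        · exact Pi.single_eq_of_ne hj.symm _
        · rfl
      rw [h4, mul_zero]
    · intro h
      exact absurd (Finset.mem_univ i) h
  rw [e] at h3
  exact h3

section okz

variable {κ H Γ : Type} [Fintype κ] [Fintype H] (N : ZN κ H Γ)

/-- balanced vertices -/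
def ZN.Bal (v : Eu (κ ⊕ H)) : Prop := v ∈ N.V ∧ ∀ k, v (Sum.inl k) + v (Sum.inr N.o) = 1

theorem ZN.compl_mem {v : Eu (κ ⊕ H)} (hv : N.Bal v) :
    (WithLp.toLp 2 fun i => 1 - v i : Eu (κ ⊕ H)) ∈ N.V := by
  refine ⟨fun i => ?_, fun k => ?_, fun g => ?_⟩
  · change 1 - v i = 0 ∨ 1 - v i = 1
    rcases hv.1.1 i with h | h <;> rw [h] <;> norm_num
  · change 1 ≤ (1 - v (Sum.inl k)) + (1 - v (Sum.inr N.o))
    linarith [hv.2 k]
  · have e : lcz (N.a g) (N.b g) (N.c g) (fun i => 1 - v i) =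
        1 - lcz (N.a g) (N.b g) (N.c g) v := by
      unfold lcz
      ring
    change lcz (N.a g) (N.b g) (N.c g) (fun i => 1 - v i) = 0 ∨
      lcz (N.a g) (N.b g) (N.c g) (fun i => 1 - v i) = 1
    rw [e]
    rcases hv.1.2.2 g with h | h <;> rw [h] <;> norm_num

theorem ZN.half {v v' d : Eu (κ ⊕ H)} (hv : N.Bal v) (hv' : v' ∈ N.V) (hd : v' = v + d) :
    hlf (κ ⊕ H) + (1 / 2 : ℝ) • d ∈ convexHull ℝ N.V := by
  have h1 := (convex_convexHull ℝ N.V) (subset_convexHull ℝ _ hv')
    (subset_convexHull ℝ _ (N.compl_mem hv)) (show (0 : ℝ) ≤ 1 / 2 by norm_num)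
    (show (0 : ℝ) ≤ 1 / 2 by norm_num) (by norm_num)
  have e : (1 / 2 : ℝ) • v' + (1 / 2 : ℝ) • (WithLp.toLp 2 fun i => 1 - v i : Eu (κ ⊕ H)) =
      hlf (κ ⊕ H) + (1 / 2 : ℝ) • d := by
    rw [hd]
    ext i
    change 1 / 2 * (v i + d i) + 1 / 2 * (1 - v i) = 1 / 2 + 1 / 2 * d i
    ring
  rw [e] at h1
  exact h1

open Classical in
/-- directions -/
noncomputable def ZN.Tc (c : κ ⊕ H → ℝ) : Eu (κ ⊕ H) :=
  WithLp.toLp 2 (Sum.elim (fun k => c (Sum.inl k) + c (Sum.inr N.o))
    fun h => if h = N.o then -c (Sum.inr N.o) else c (Sum.inr h))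

theorem ZN.Tc_lin (c c' : κ ⊕ H → ℝ) (a b : ℝ) :
    N.Tc (a • c + b • c') = a • N.Tc c + b • N.Tc c' := by
  classical
  ext i
  rcases i with k | h
  · change (a * c _ + b * c' _) + (a * c _ + b * c' _) = a * (c _ + c _) + b * (c' _ + c' _)
    ring
  · change (if h = N.o then -(a * c _ + b * c' _) else a * c _ + b * c' _) =
      a * (if h = N.o then -c _ else c _) + b * (if h = N.o then -c' _ else c' _)
    split_ifs <;> ring

open Classical in
theorem ZN.ok_of' (h1 : ∀ k, ∃ v v', N.Bal v ∧ v' ∈ N.V ∧ v' = v + N.Tc (Pi.single (Sum.inl k) 1))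
    (h2 : ∀ h, ∃ v v', N.Bal v ∧ N.Bal v' ∧ v' = v + N.Tc (Pi.single (Sum.inr h) 1))
    (h3 : ∃ v₁ ∈ N.V, ∀ k, v₁ (Sum.inl k) = 1) : N.Ok := by
  refine ⟨⟨1 / (4 * (Fintype.card (κ ⊕ H) + 1)), by positivity, fun x hx hk => ?_⟩, h3⟩
  set ρ : ℝ := 1 / (4 * (Fintype.card (κ ⊕ H) + 1)) with hρ
  have hA : IsAff fun c : κ ⊕ H → ℝ => hlf (κ ⊕ H) + N.Tc c := by
    intro u u' a b hab
    simp only
    rw [N.Tc_lin]
    ext i
    change 1 / 2 + (a * N.Tc u i + b * N.Tc u' i) = a * (1 / 2 + N.Tc u i) +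
      b * (1 / 2 + N.Tc u' i)
    linear_combination (-(1 / 2) : ℝ) * hab
  have hC := hA.preimage (convex_convexHull ℝ N.V)
  have hs : ∀ (r : ℝ) (c : κ ⊕ H → ℝ), N.Tc (r • c) = r • N.Tc c := by
    intro r c
    have := N.Tc_lin c 0 r 0
    simpa using this
  have hs1 : ∀ j : κ ⊕ H, (Pi.single j (1 / 2) : κ ⊕ H → ℝ) = (1 / 2 : ℝ) • Pi.single j 1 := by
    intro j
    rw [← Pi.single_smul, smul_eq_mul, mul_one]
  have hs2 : ∀ j : κ ⊕ H, (Pi.single j (-(1 / 2)) : κ ⊕ H → ℝ) =
      (1 / 2 : ℝ) • (-(1 : ℝ)) • Pi.single j 1 := by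
    intro j
    rw [← Pi.single_smul, ← Pi.single_smul, smul_eq_mul, smul_eq_mul]
    congr 1
    ring
  have h0 : (0 : κ ⊕ H → ℝ) ∈ (fun c : κ ⊕ H → ℝ => hlf (κ ⊕ H) + N.Tc c) ⁻¹'
      convexHull ℝ N.V := by
    obtain ⟨v, v', hv, hv', -⟩ := h2 N.o
    have h4 := N.half (d := 0) hv hv.1 (by simp)
    have e : N.Tc 0 = 0 := by
      have := hs 0 0
      simpa using this
    rw [mem_preimage, e]
    simpa using h4
  set c : κ ⊕ H → ℝ := Sum.elim (fun k => x (Sum.inl k) + x (Sum.inr N.o) - 1)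
    fun h => if h = N.o then -(x (Sum.inr h) - 1 / 2) else x (Sum.inr h) - 1 / 2 with hc
  have hxc : hlf (κ ⊕ H) + N.Tc c = x := by
    ext i
    rcases i with k | h
    · change 1 / 2 + ((x (Sum.inl k) + x (Sum.inr N.o) - 1) +
        (if N.o = N.o then -(x (Sum.inr N.o) - 1 / 2) else x (Sum.inr N.o) - 1 / 2)) = x (Sum.inl k)
      rw [if_pos rfl]
      ring
    · change 1 / 2 + (if h = N.o then -(if N.o = N.o then -(x (Sum.inr N.o) - 1 / 2) else
        x (Sum.inr N.o) - 1 / 2) else (if h = N.o then -(x (Sum.inr h) - 1 / 2) else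
          x (Sum.inr h) - 1 / 2)) = x (Sum.inr h)
      by_cases hh : h = N.o
      · rw [if_pos hh, if_pos rfl, hh]
        ring
      · rw [if_neg hh, if_neg hh]
        ring
  have hmem : c ∈ (fun c : κ ⊕ H → ℝ => hlf (κ ⊕ H) + N.Tc c) ⁻¹' convexHull ℝ N.V := by
    refine cross hC h0 (fun j hj => ?_) (fun j hj => ?_) ?_
    · rw [mem_preimage, hs1, hs]
      rcases j with k | h
      · obtain ⟨v, v', hv, hv', e⟩ := h1 k
        exact N.half hv hv' e
      · obtain ⟨v, v', hv, hv', e⟩ := h2 h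
        exact N.half hv hv'.1 e
    · rw [mem_preimage, hs2, hs, hs]
      rcases j with k | h
      · exfalso
        have h5 : x (Sum.inl k) + x (Sum.inr N.o) - 1 < 0 := hj
        linarith [hk k]
      · obtain ⟨v, v', hv, hv', e⟩ := h2 h
        refine N.half hv' hv.1 ?_
        rw [e, neg_one_smul]
        abel
    · have h5 : ∀ j, |c j| ≤ 2 * ρ := by
        intro j
        have hρ0 : 0 ≤ ρ := (abs_nonneg _).trans (hx (Sum.inr N.o))
        rcases j with k | h
        · change |x (Sum.inl k) + x (Sum.inr N.o) - 1| ≤ 2 * ρ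
          have h6 := abs_le.1 (hx (Sum.inl k))
          have h7 := abs_le.1 (hx (Sum.inr N.o))
          rw [abs_le]
          constructor <;> linarith [h6.1, h6.2, h7.1, h7.2]
        · change |if h = N.o then -(x (Sum.inr h) - 1 / 2) else x (Sum.inr h) - 1 / 2| ≤ 2 * ρ
          have h6 := hx (Sum.inr h)
          split_ifs
          · rw [abs_neg]
            linarith
          · linarith
      calc ∑ j, |c j| ≤ ∑ _j : κ ⊕ H, 2 * ρ := Finset.sum_le_sum fun j _ => h5 j
        _ = (Fintype.card (κ ⊕ H) : ℝ) * (2 * ρ) := by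
            rw [Finset.sum_const, Finset.card_univ, nsmul_eq_mul]
        _ ≤ 1 / 2 := by
            rw [hρ]
            have h6 : (0 : ℝ) < (Fintype.card (κ ⊕ H) : ℝ) + 1 := by positivity
            have e : (Fintype.card (κ ⊕ H) : ℝ) * (2 * (1 / (4 * ((Fintype.card (κ ⊕ H) : ℝ) + 1)))) =
                1 / 2 * ((Fintype.card (κ ⊕ H) : ℝ) / ((Fintype.card (κ ⊕ H) : ℝ) + 1)) := by
              field_simp
              ring
            rw [e]
            have h7 : (Fintype.card (κ ⊕ H) : ℝ) / ((Fintype.card (κ ⊕ H) : ℝ) + 1) ≤ 1 := by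
              rw [div_le_one h6]
              linarith
            linarith
  rw [mem_preimage, hxc] at hmem
  exact hmem

theorem ZN.ok_of (h1 : ∀ k, ∃ v v', N.Bal v ∧ v' ∈ N.V ∧ v' (Sum.inl k) = v (Sum.inl k) + 1 ∧
      ∀ i, i ≠ Sum.inl k → v' i = v i)
    (h2 : ∀ h, h ≠ N.o → ∃ v v', N.Bal v ∧ N.Bal v' ∧ v' (Sum.inr h) = v (Sum.inr h) + 1 ∧
      ∀ i, i ≠ Sum.inr h → v' i = v i)
    (h2' : ∃ v v', N.Bal v ∧ N.Bal v' ∧ (∀ k, v' (Sum.inl k) = v (Sum.inl k) + 1) ∧
      v' (Sum.inr N.o) = v (Sum.inr N.o) - 1 ∧ ∀ h, h ≠ N.o → v' (Sum.inr h) = v (Sum.inr h))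
    (h3 : ∃ v₁ ∈ N.V, ∀ k, v₁ (Sum.inl k) = 1) : N.Ok := by
  classical
  refine N.ok_of' (fun k => ?_) (fun h => ?_) h3
  · obtain ⟨v, v', hv, hv', e1, e2⟩ := h1 k
    refine ⟨v, v', hv, hv', ?_⟩
    ext i
    rcases i with i | h
    · rw [PiLp.add_apply]
      unfold ZN.Tc
      simp only [Sum.elim_inl]
      rw [Pi.single_eq_of_ne (show (Sum.inr N.o : κ ⊕ H) ≠ Sum.inl k by simp), add_zero]
      by_cases hi : i = k
      · subst hi
        rw [e1, Pi.single_eq_same]
      · have hi' : (Sum.inl i : κ ⊕ H) ≠ Sum.inl k := by simpa using hi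
        rw [Pi.single_eq_of_ne hi', e2 _ hi', add_zero]
    · rw [PiLp.add_apply]
      unfold ZN.Tc
      simp only [Sum.elim_inr]
      rw [Pi.single_eq_of_ne (show (Sum.inr N.o : κ ⊕ H) ≠ Sum.inl k by simp),
        Pi.single_eq_of_ne (show (Sum.inr h : κ ⊕ H) ≠ Sum.inl k by simp), neg_zero, ite_self,
        add_zero]
      exact e2 _ (by simp)
  · by_cases ho : h = N.o
    · subst ho
      obtain ⟨v, v', hv, hv', e1, e2, e3⟩ := h2'
      refine ⟨v, v', hv, hv', ?_⟩
      ext i
      rcases i with i | h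
      · rw [PiLp.add_apply]
        unfold ZN.Tc
        simp only [Sum.elim_inl]
        rw [Pi.single_eq_of_ne (show (Sum.inl i : κ ⊕ H) ≠ Sum.inr N.o by simp), zero_add,
          Pi.single_eq_same]
        exact e1 i
      · rw [PiLp.add_apply]
        unfold ZN.Tc
        simp only [Sum.elim_inr]
        by_cases hh : h = N.o
        · rw [if_pos hh, hh, Pi.single_eq_same, e2]
          ring
        · rw [if_neg hh, Pi.single_eq_of_ne (show (Sum.inr h : κ ⊕ H) ≠ Sum.inr N.o by simpa using hh),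
            add_zero]
          exact e3 h hh
    · obtain ⟨v, v', hv, hv', e1, e2⟩ := h2 h ho
      refine ⟨v, v', hv, hv', ?_⟩
      have ho' : (Sum.inr N.o : κ ⊕ H) ≠ Sum.inr h := by simpa using Ne.symm ho
      ext i
      rcases i with i | j
      · rw [PiLp.add_apply]
        unfold ZN.Tc
        simp only [Sum.elim_inl]
        rw [Pi.single_eq_of_ne (show (Sum.inl i : κ ⊕ H) ≠ Sum.inr h by simp), zero_add,
          Pi.single_eq_of_ne ho', add_zero]
        exact e2 _ (by simp)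
      · rw [PiLp.add_apply]
        unfold ZN.Tc
        simp only [Sum.elim_inr]
        by_cases hj : j = h
        · subst hj
          rw [if_neg ho, Pi.single_eq_same]
          exact e1
        · have hj' : (Sum.inr j : κ ⊕ H) ≠ Sum.inr h := by simpa using hj
          rw [Pi.single_eq_of_ne ho', Pi.single_eq_of_ne hj', neg_zero, ite_self, add_zero]
          exact e2 _ hj'

end okz

section conz

variable {κ ι : Type} [Fintype κ] [Fintype ι]

/-- the network with the outputs `m` -/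
noncomputable def netZ (b : ℕ) (m : ι → κ → ℤ) (hm : ∀ i k, |m i k| < b) :
    ZN κ (Gr κ b ⊕ ι) ({n : Gr κ b // n ≠ 0} ⊕ ι) where
  a := Sum.elim (fun n => Sum.inr (Sum.inl n.1)) fun i => Sum.inr (Sum.inl (n1 b m hm i))
  b := Sum.elim (fun n => Sum.inr (Sum.inl (prv n))) fun i => Sum.inr (Sum.inr i)
  c := Sum.elim (fun n => Sum.inl (jj n)) fun _ => Sum.inr (Sum.inl (n2 κ b))
  o := Sum.inl 0
  L := LH b m
  mlt := Sum.elim (fun _ => 0) fun _ => 1
  id := by
    classical
    intro y g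
    rcases g with n | i
    · change (∑ k, ((prv n k).val : ℝ) * y k) + y (jj n) - ∑ k, ((n.1 k).val : ℝ) * y k = 0
      rw [← sum_ite_y, sub_eq_zero]
      refine Finset.sum_congr rfl fun k _ => ?_
      rw [prv_val n k]
      push_cast
      rfl
    · change (∑ k, (m i k : ℝ) * y k) + (∑ k, ((n2 κ b k).val : ℝ) * y k) -
        (∑ k, ((n1 b m hm i k).val : ℝ) * y k) = 0
      rw [← Finset.sum_add_distrib, sub_eq_zero]
      refine Finset.sum_congr rfl fun k _ => ?_
      rw [n1_val]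
      simp only [n2]
      ring
  Lo := by
    intro k
    change (((0 : Gr κ b) k).val : ℝ) = 0
    simp
  inj := by
    intro w hw ho hg
    have h1 : ∀ s : ℕ, ∀ n : Gr κ b, ∑ k, (n k).val = s → w (Sum.inr (Sum.inl n)) = 0 := by
      intro s
      induction s using Nat.strong_induction_on with
      | _ s ih =>
        intro n hn
        by_cases h0 : n = 0
        · rw [h0]
          exact ho
        · have h2 : w (Sum.inr (Sum.inl (prv ⟨n, h0⟩))) + w (Sum.inl (jj ⟨n, h0⟩)) -
            w (Sum.inr (Sum.inl n)) = 0 := hg (Sum.inl ⟨n, h0⟩)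
          have h5 := prv_sum ⟨n, h0⟩
          have h6 := ih (∑ k, (prv ⟨n, h0⟩ k).val) (by simp only at h5; omega) _ rfl
          rw [hw, h6] at h2
          linarith
    have h2 : ∀ n : Gr κ b, w (Sum.inr (Sum.inl n)) = 0 := fun n => h1 _ n rfl
    have h3 : ∀ i : ι, w (Sum.inr (Sum.inr i)) = 0 := by
      intro i
      have h5 : w (Sum.inr (Sum.inr i)) + w (Sum.inr (Sum.inl (n2 κ b))) -
        w (Sum.inr (Sum.inl (n1 b m hm i))) = 0 := hg (Sum.inr i)
      rw [h2, h2] at h5
      linarith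
    funext v
    rcases v with k | n | i
    · exact hw k
    · exact h2 n
    · exact h3 i

variable [DecidableEq κ]

/-- vertices -/
noncomputable def vx {b : ℕ} (y : κ → ℝ) (X : Gr κ b → ℝ) (Z : ι → ℝ) :
    Eu (κ ⊕ (Gr κ b ⊕ ι)) := WithLp.toLp 2 (Sum.elim y (Sum.elim X Z))

theorem vx_mem {b : ℕ} {m : ι → κ → ℤ} {hm : ∀ i k, |m i k| < b} {y : κ → ℝ}
    {X : Gr κ b → ℝ} {Z : ι → ℝ} (hy : ∀ k, y k = 0 ∨ y k = 1) (hX : ∀ n, X n = 0 ∨ X n = 1)
    (hZ : ∀ i, Z i = 0 ∨ Z i = 1) (h1 : ∀ k, 1 ≤ y k + X 0)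
    (h2 : ∀ n : {n : Gr κ b // n ≠ 0}, X (prv n) + y (jj n) - X n.1 = 0 ∨
      X (prv n) + y (jj n) - X n.1 = 1)
    (h3 : ∀ i, Z i + X (n2 κ b) - X (n1 b m hm i) = 0 ∨ Z i + X (n2 κ b) - X (n1 b m hm i) = 1) :
    vx y X Z ∈ (netZ b m hm).V := by
  refine ⟨fun i => ?_, h1, fun g => ?_⟩
  · rcases i with k | n | i
    · exact hy k
    · exact hX n
    · exact hZ i
  · rcases g with n | i
    · exact h2 n
    · exact h3 i

omit [DecidableEq κ] in
theorem n2_ne [Nonempty κ] {b : ℕ} (hb : 0 < b) : n2 κ b ≠ 0 := by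
  obtain ⟨k⟩ := ‹Nonempty κ›
  intro h
  have h1 := congrArg Fin.val (congrFun h k)
  simp [n2] at h1
  omega

omit [Fintype κ] [Fintype ι] [DecidableEq κ] in
theorem n1_ne [Nonempty κ] {b : ℕ} {m : ι → κ → ℤ} {hm : ∀ i k, |m i k| < b} (i : ι) :
    n1 b m hm i ≠ 0 := by
  obtain ⟨k⟩ := ‹Nonempty κ›
  intro h
  have h2 := congrArg (fun f : Gr κ b => (f k).val) h
  have h3 := abs_lt.1 (hm i k)
  simp only [n1, Pi.zero_apply, Fin.val_zero] at h2
  omega

theorem netZ_ok [Nonempty κ] {b : ℕ} {m : ι → κ → ℤ} {hm : ∀ i k, |m i k| < b} (hb : 0 < b) :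
    (netZ b m hm).Ok := by
  have hn2 := n2_ne (κ := κ) hb
  have hn1 := fun i => n1_ne (hm := hm) i
  have hz : ∑ k, ((0 : Gr κ b) k).val = 0 := by simp
  -- the vertex with `y = 1`, `o = 0`
  obtain ⟨X₀, hX01, hX0n, hX00⟩ : ∃ X₀ : Gr κ b → ℝ, (∀ n, X₀ n = 0 ∨ X₀ n = 1) ∧
      (∀ n, n ≠ 0 → X₀ n = 1) ∧ X₀ 0 = 0 := by
    classical
    refine ⟨fun n => if n = 0 then 0 else 1, fun n => ?_, fun n hn => if_neg hn, if_pos rfl⟩
    simp only
    split_ifs <;> simp
  have hA : ∀ Z : ι → ℝ, (∀ i, Z i = 0 ∨ Z i = 1) → vx (fun _ => 1) X₀ Z ∈ (netZ b m hm).V := by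
    intro Z hZ
    refine vx_mem (fun _ => Or.inr rfl) hX01 hZ (fun k => by rw [hX00]; norm_num) (fun n => ?_)
      fun i => ?_
    · rw [hX0n _ n.2, add_sub_cancel_right]
      exact hX01 _
    · rw [hX0n _ hn2, hX0n _ (hn1 i), add_sub_cancel_right]
      exact hZ i
  have hAb : ∀ Z : ι → ℝ, (∀ i, Z i = 0 ∨ Z i = 1) →
      (netZ b m hm).Bal (vx (fun _ => 1) X₀ Z) := fun Z hZ =>
    ⟨hA Z hZ, fun k => by
      change (1 : ℝ) + X₀ 0 = 1
      rw [hX00, add_zero]⟩
  -- the vertices with `o = 1`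
  have hB : ∀ y : κ → ℝ, (∀ i, y i = 0 ∨ y i = 1) →
      vx y (fun _ => 1) (fun _ => 0) ∈ (netZ b m hm).V := by
    intro y hy
    refine vx_mem hy (fun _ => Or.inr rfl) (fun _ => Or.inl rfl) (fun k => ?_) (fun n => ?_)
      fun i => ?_
    · rcases hy k with h | h <;> rw [h] <;> norm_num
    · rw [add_sub_cancel_left]
      exact hy _
    · norm_num
  have hBb : (netZ b m hm).Bal (vx (fun _ => 0) (fun _ => 1) fun _ => 0) :=
    ⟨hB _ fun _ => Or.inl rfl, fun k => by
      change (0 : ℝ) + 1 = 1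
      norm_num⟩
  refine (netZ b m hm).ok_of (fun k => ?_) (fun h ho => ?_) ?_ ⟨_, hA (fun _ => 0)
    fun _ => Or.inl rfl, fun k => rfl⟩
  · refine ⟨_, vx (Pi.single k 1) (fun _ => 1) fun _ => 0, hBb, hB _ fun i => ?_, ?_, fun i hi => ?_⟩
    · by_cases hi : i = k
      · rw [hi, Pi.single_eq_same]
        exact Or.inr rfl
      · rw [Pi.single_eq_of_ne hi]
        exact Or.inl rfl
    · change (Pi.single k 1 : κ → ℝ) k = 0 + 1
      rw [Pi.single_eq_same, zero_add]
    · rcases i with i | n | i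
      · change (Pi.single k 1 : κ → ℝ) i = 0
        exact Pi.single_eq_of_ne (fun h => hi (congrArg Sum.inl h)) _
      · rfl
      · rfl
  · rcases h with n | i
    · -- the other exponents
      have hn : n ≠ 0 := fun h => ho (congrArg Sum.inl h)
      set s := ∑ k, (n k).val with hs
      have hs0 : 0 < s := by
        have := prv_sum ⟨n, hn⟩
        simp only at this
        omega
      obtain ⟨X, hXt, hXf⟩ : ∃ X : Gr κ b → ℝ, (∀ m, (∑ k, (m k).val < s ∨ m = n) → X m = 0) ∧
          ∀ m, ¬ (∑ k, (m k).val < s ∨ m = n) → X m = 1 := by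
        classical
        exact ⟨fun m => if (∑ k, (m k).val < s ∨ m = n) then 0 else 1, fun m h => if_pos h,
          fun m h => if_neg h⟩
      obtain ⟨X', hXt', hXf'⟩ : ∃ X : Gr κ b → ℝ, (∀ m, (∑ k, (m k).val < s) → X m = 0) ∧
          ∀ m, ¬ (∑ k, (m k).val < s) → X m = 1 := by
        classical
        exact ⟨fun m => if (∑ k, (m k).val < s) then 0 else 1, fun m h => if_pos h,
          fun m h => if_neg h⟩
      have hXX : ∀ m, m ≠ n → X' m = X m := by
        intro m hm
        by_cases h : ∑ k, (m k).val < s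
        · rw [hXt' m h, hXt m (Or.inl h)]
        · rw [hXf' m h, hXf m (by simp [h, hm])]
      have hXn : X n = 0 := hXt n (Or.inr rfl)
      have hXn' : X' n = 1 := hXf' n (by simp [hs])
      have b1 : ∀ m, X m = 0 ∨ X m = 1 := fun m => by
        by_cases h : (∑ k, (m k).val < s ∨ m = n)
        · exact Or.inl (hXt m h)
        · exact Or.inr (hXf m h)
      have b2 : ∀ m, X' m = 0 ∨ X' m = 1 := fun m => by
        by_cases h : (∑ k, (m k).val < s)
        · exact Or.inl (hXt' m h)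
        · exact Or.inr (hXf' m h)
      have z1 : X 0 = 0 := hXt 0 (Or.inl (by rw [hz]; exact hs0))
      have z2 : X' 0 = 0 := hXt' 0 (by rw [hz]; exact hs0)
      have c1 : ∀ m : {m : Gr κ b // m ≠ 0}, X (prv m) ≤ X m.1 := by
        intro m
        have h5 := prv_sum m
        by_cases h6 : ∑ k, (m.1 k).val < s ∨ m.1 = n
        · have h7 : ∑ k, (prv m k).val < s := by
            rcases h6 with h6 | h6
            · omega
            · rw [h6] at h5
              omega
          rw [hXt _ h6, hXt _ (Or.inl h7)]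
        · rw [hXf _ h6]
          rcases b1 (prv m) with h | h <;> rw [h]
          exact zero_le_one
      have c2 : ∀ m : {m : Gr κ b // m ≠ 0}, X' (prv m) ≤ X' m.1 := by
        intro m
        have h5 := prv_sum m
        by_cases h6 : ∑ k, (m.1 k).val < s
        · have h7 : ∑ k, (prv m k).val < s := by omega
          rw [hXt' _ h6, hXt' _ h7]
        · rw [hXf' _ h6]
          rcases b2 (prv m) with h | h <;> rw [h]
          exact zero_le_one
      have hcl : ∀ a c : ℝ, (a = 0 ∨ a = 1) → (c = 0 ∨ c = 1) → a ≤ c →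
          a + 1 - c = 0 ∨ a + 1 - c = 1 := by
        intro a c ha hc hac
        rcases ha with ha | ha
        · rcases hc with hc | hc
          · right
            rw [ha, hc]
            norm_num
          · left
            rw [ha, hc]
            norm_num
        · rcases hc with hc | hc
          · exfalso
            rw [ha, hc] at hac
            norm_num at hac
          · right
            rw [ha, hc]
            norm_num
      obtain ⟨Z, hZt, hZf⟩ : ∃ Z : ι → ℝ, (n = n2 κ b → ∀ i, Z i = X (n1 b m hm i)) ∧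
          (n ≠ n2 κ b → ∀ i, Z i = 1 - X (n2 κ b)) := by
        classical
        exact ⟨fun i => if n = n2 κ b then X (n1 b m hm i) else 1 - X (n2 κ b),
          fun h i => if_pos h, fun h i => if_neg h⟩
      have b3 : ∀ i, Z i = 0 ∨ Z i = 1 := fun i => by
        by_cases h : n = n2 κ b
        · rw [hZt h]
          exact b1 _
        · rw [hZf h]
          rcases b1 (n2 κ b) with h | h <;> rw [h] <;> norm_num
      have d1 : ∀ i, Z i + X (n2 κ b) - X (n1 b m hm i) = 0 ∨
          Z i + X (n2 κ b) - X (n1 b m hm i) = 1 := by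
        intro i
        by_cases h : n = n2 κ b
        · rw [hZt h, add_sub_cancel_left]
          exact b1 _
        · rw [hZf h, sub_add_cancel]
          rcases b1 (n1 b m hm i) with h | h <;> rw [h] <;> norm_num
      have d2 : ∀ i, Z i + X' (n2 κ b) - X' (n1 b m hm i) = 0 ∨
          Z i + X' (n2 κ b) - X' (n1 b m hm i) = 1 := by
        intro i
        by_cases h : n = n2 κ b
        · by_cases h' : n1 b m hm i = n2 κ b
          · rw [h', add_sub_cancel_right]
            exact b3 i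
          · rw [hZt h, ← hXX _ (by rw [h]; exact h'), add_sub_cancel_left]
            exact b2 _
        · rw [hZf h, hXX _ (fun h' => h h'.symm), sub_add_cancel]
          rcases b2 (n1 b m hm i) with h | h <;> rw [h] <;> norm_num
      refine ⟨vx (fun _ => 1) X Z, vx (fun _ => 1) X' Z, ⟨vx_mem (fun _ => Or.inr rfl) b1 b3
        (fun k => by rw [z1]; norm_num) (fun m => hcl _ _ (b1 _) (b1 _) (c1 m)) d1, fun k => ?_⟩,
        ⟨vx_mem (fun _ => Or.inr rfl) b2 b3
        (fun k => by rw [z2]; norm_num) (fun m => hcl _ _ (b2 _) (b2 _) (c2 m)) d2, fun k => ?_⟩,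
        ?_, fun i hi => ?_⟩
      · change 1 + X 0 = 1
        rw [z1, add_zero]
      · change 1 + X' 0 = 1
        rw [z2, add_zero]
      · change X' n = X n + 1
        rw [hXn, hXn', zero_add]
      · rcases i with i | m' | i
        · rfl
        · change X' m' = X m'
          exact hXX _ fun h => hi (by rw [h])
        · rfl
    · -- the outputs
      classical
      have hsg : ∀ j, (Pi.single i 1 : ι → ℝ) j = 0 ∨ (Pi.single i 1 : ι → ℝ) j = 1 := by
        intro j
        by_cases hj : j = i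
        · rw [hj, Pi.single_eq_same]
          exact Or.inr rfl
        · rw [Pi.single_eq_of_ne hj]
          exact Or.inl rfl
      refine ⟨_, _, hAb (fun _ => 0) (fun _ => Or.inl rfl), hAb (Pi.single i 1) hsg, ?_,
        fun j hj => ?_⟩
      · change (Pi.single i 1 : ι → ℝ) i = 0 + 1
        rw [Pi.single_eq_same, zero_add]
      · rcases j with j | n | j
        · rfl
        · rfl
        · change (Pi.single i 1 : ι → ℝ) j = 0
          exact Pi.single_eq_of_ne (fun h => hj (by rw [h])) _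
  · -- the root
    refine ⟨_, _, hBb, hAb (fun _ => 0) fun _ => Or.inl rfl, fun k => ?_, ?_, fun h hh => ?_⟩
    · change (1 : ℝ) = 0 + 1
      norm_num
    · change X₀ 0 = 1 - 1
      rw [hX00]
      norm_num
    · rcases h with n | i
      · change X₀ n = 1
        exact hX0n n fun h => hh (congrArg Sum.inl h)
      · rfl

omit [DecidableEq κ] in
theorem kp_gzZ [Nonempty κ] {D : ℝ} (hD : 0 ≤ D)
    (HH : ∀ (σ : Type) [Fintype σ] (K : Set (Eu σ)), IsZP K → (interior K).Nonempty →
      KP (nm (K.indicator fun _ => (1 : ℝ))) D) (m : ι → κ → ℤ) :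
    Wt (gz m) ∧ KP (nm (gz m)) D := by
  classical
  obtain ⟨b, hb, hm⟩ : ∃ b : ℕ, 0 < b ∧ ∀ i k, |m i k| < b := by
    refine ⟨∑ i, ∑ k, (m i k).natAbs + 1, by omega, fun i k => ?_⟩
    have h1 : (m i k).natAbs ≤ ∑ k, (m i k).natAbs :=
      Finset.single_le_sum (f := fun k => (m i k).natAbs) (fun _ _ => Nat.zero_le _)
        (Finset.mem_univ k)
    have h2 : ∑ k, (m i k).natAbs ≤ ∑ i, ∑ k, (m i k).natAbs :=
      Finset.single_le_sum (f := fun i => ∑ k, (m i k).natAbs) (fun _ _ => Nat.zero_le _)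
        (Finset.mem_univ i)
    have h3 : |m i k| = ((m i k).natAbs : ℤ) := Int.abs_eq_natAbs _
    rw [h3]
    omega
  have h := (netZ b m hm).kp (netZ_ok hb) hD HH
  have hw := (netZ b m hm).gm_wt
  have e : (netZ b m hm).gm = gz m := by
    funext y
    unfold ZN.gm gz
    have e1 : ∑ v, ((netZ b m hm).mu v : ℝ) * lft (netZ b m hm).L y v ^ 2 =
        ∑ k, y k ^ 2 + ∑ i, (∑ k, (m i k : ℝ) * y k) ^ 2 := by
      rw [Fintype.sum_sum_type, Fintype.sum_sum_type]
      refine congrArg₂ (· + ·) ?_ ?_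
      · refine Finset.sum_congr rfl fun k _ => ?_
        change ((1 : ℕ) : ℝ) * y k ^ 2 = y k ^ 2
        rw [Nat.cast_one, one_mul]
      · rw [Finset.sum_eq_zero, zero_add]
        · refine Finset.sum_congr rfl fun i _ => ?_
          change ((1 : ℕ) : ℝ) * (∑ k, (m i k : ℝ) * y k) ^ 2 = _
          rw [Nat.cast_one, one_mul]
        · intro n _
          change ((0 : ℕ) : ℝ) * _ = 0
          rw [Nat.cast_zero, zero_mul]
    rw [e1]
  rw [e] at h hw
  exact ⟨hw, h⟩

end conz

/-- **all log-concave measures from 0/1-polytopes** -/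
theorem kp_zp {D : ℝ} (hD : 0 ≤ D)
    (HH : ∀ (σ : Type) [Fintype σ] (K : Set (Eu σ)), IsZP K → (interior K).Nonempty →
      KP (nm (K.indicator fun _ => (1 : ℝ))) D)
    {n : ℕ} {g : Eu (Fin n) → ℝ} (hg : Q289.LD.Den g) : KP (nm g) D := by
  refine kp_univ hD (fun N Q hQ => ?_) hg
  rcases N with _ | N
  · have := (wt_gq hQ).prob
    exact kp_zero hD
  · exact kp_round hD (fun m => kp_gzZ hD HH m) hQ

end Pool.Agent.H776
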