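import Pool.Agent.H776.Amp5
import Pool.Agent.H776.Horn

/-!
# Convex hulls of sets of 0/1 vectors
-/

set_option autoImplicit false

namespace Pool.Agent.H776

open MeasureTheory Set Filter Topology
open scoped ENNReal InnerProductSpace

section zp

variable {σ : Type} [Fintype σ]

/-- 0/1 vectors -/
def Z01 (σ : Type) [Fintype σ] : Set (Eu σ) := {x | ∀ i, x i = 0 ∨ x i = 1}

theorem Z01_finite : (Z01 σ).Finite := by
  have h : Z01 σ ⊆ range fun b : σ → Bool =>
      (WithLp.toLp 2 fun i => if b i then (1 : ℝ) else 0 : Eu σ) := by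
    intro x hx
    classical
    refine ⟨fun i => decide (x i = 1), ?_⟩
    ext i
    rcases hx i with h | h <;> simp [h]
  exact (finite_range _).subset h

/-- convex hull of a set of 0/1 vectors -/
def IsZP (K : Set (Eu σ)) : Prop := ∃ V ⊆ Z01 σ, K = convexHull ℝ V

theorem cube_convex : Convex ℝ {x : Eu σ | ∀ i, 0 ≤ x i ∧ x i ≤ 1} := by
  intro x hx y hy a b ha hb hab i
  simp only [PiLp.add_apply, PiLp.smul_apply, smul_eq_mul]
  have h1 := hx i
  have h2 := hy i
  constructor
  · exact add_nonneg (mul_nonneg ha h1.1) (mul_nonneg hb h2.1)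
  · nlinarith [mul_le_mul_of_nonneg_left h1.2 ha, mul_le_mul_of_nonneg_left h2.2 hb]

theorem Z01_cube : Z01 σ ⊆ {x : Eu σ | ∀ i, 0 ≤ x i ∧ x i ≤ 1} := by
  intro x hx i
  rcases hx i with h | h <;> rw [h] <;> norm_num

theorem hull_cube {V : Set (Eu σ)} (hV : V ⊆ Z01 σ) :
    convexHull ℝ V ⊆ {x : Eu σ | ∀ i, 0 ≤ x i ∧ x i ≤ 1} :=
  convexHull_min (hV.trans Z01_cube) cube_convex

theorem hull_compact {V : Set (Eu σ)} (hV : V ⊆ Z01 σ) : IsCompact (convexHull ℝ V) :=
  (Z01_finite.subset hV).isCompact_convexHull ℝ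

theorem IsZP.cb {K : Set (Eu σ)} (h : IsZP K) (hi : (interior K).Nonempty) : CB K := by
  obtain ⟨V, hV, rfl⟩ := h
  exact ⟨hull_compact hV, hi, fun s hs => hull_cube hV hs⟩

theorem IsZP.convex {K : Set (Eu σ)} (h : IsZP K) : Convex ℝ K := by
  obtain ⟨V, hV, rfl⟩ := h
  exact convex_convexHull ℝ V

theorem IsZP.body {K : Set (Eu σ)} (h : IsZP K) (hi : (interior K).Nonempty) : Body K :=
  ⟨(h.cb hi).cpt, h.convex, hi⟩

/-- affine maps given by functions -/
def IsAff {E F : Type} [AddCommGroup E] [Module ℝ E] [AddCommGroup F] [Module ℝ F] (A : E → F) :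
    Prop := ∀ (u u' : E) (a b : ℝ), a + b = 1 → A (a • u + b • u') = a • A u + b • A u'

theorem IsAff.preimage {E F : Type} [AddCommGroup E] [Module ℝ E] [AddCommGroup F] [Module ℝ F]
    {A : E → F} (hA : IsAff A) {H : Set F} (hH : Convex ℝ H) : Convex ℝ (A ⁻¹' H) := by
  intro x hx y hy a b ha hb hab
  rw [mem_preimage, hA x y a b hab]
  exact hH hx hy ha hb hab

/-- affine maps of the cube into convex sets -/
theorem cube_hull {J : Type} [Fintype J] {F : Type} [AddCommGroup F] [Module ℝ F] {H : Set F}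
    (hH : Convex ℝ H) {A : (J → ℝ) → F} (hA : IsAff A)
    (h01 : ∀ u : J → ℝ, (∀ j, u j = 0 ∨ u j = 1) → A u ∈ H) {u : J → ℝ}
    (hu : ∀ j, 0 ≤ u j ∧ u j ≤ 1) : A u ∈ H := by
  have h1 : u ∈ convexHull ℝ (univ.pi fun _ : J => ({0, 1} : Set ℝ)) := by
    refine mem_convexHull_pi fun j _ => ?_
    rw [convexHull_pair, segment_eq_Icc zero_le_one]
    exact hu j
  have h2 : convexHull ℝ (univ.pi fun _ : J => ({0, 1} : Set ℝ)) ⊆ A ⁻¹' H := by
    refine convexHull_min (fun u hu => ?_) (hA.preimage hH)
    exact h01 u fun j => by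
      have := hu j (mem_univ j)
      simpa using this
  exact h2 h1

/-- affine maps of hulls into convex sets -/
theorem hull_hull {F : Type} [AddCommGroup F] [Module ℝ F] {H : Set F}
    (hH : Convex ℝ H) {V : Set (Eu σ)} {A : Eu σ → F} (hA : IsAff A) (h01 : ∀ v ∈ V, A v ∈ H)
    {s : Eu σ} (hs : s ∈ convexHull ℝ V) : A s ∈ H :=
  (convexHull_min (fun v hv => h01 v hv) (hA.preimage hH) : convexHull ℝ V ⊆ A ⁻¹' H) hs

end zp

section ampz

variable {σ κ : Type} [Fintype σ] [Fintype κ]

/-- the hull of the 0/1 vectors in the large body -/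
def AH (K : Set (Eu σ)) (v : κ → σ) (M : ℕ) : Set (Eu (IX σ κ M)) :=
  convexHull ℝ (Z01 (IX σ κ M) ∩ Amp K v M)

theorem Amp_mem {K : Set (Eu σ)} {v : κ → σ} {M : ℕ} (p : (Eu σ × ℝ) × Eu (JM κ M)) :
    ecA σ κ M p ∈ Amp K v M ↔ p ∈ SF (aB K) (alo v M) (ahi v M) := by
  unfold Amp
  rw [mem_preimage, ContinuousLinearEquiv.symm_apply_apply]

theorem Amp_convex {K : Set (Eu σ)} (hK : Convex ℝ K) (v : κ → σ) (M : ℕ) :
    Convex ℝ (Amp K v M) := by
  have h1 : Convex ℝ (SF (aB K) (alo v M) (ahi v M)) := by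
    intro p hp q hq a b ha hb hab
    refine ⟨⟨hK hp.1.1 hq.1.1 ha hb hab, ?_⟩, fun j => ?_⟩
    · have h2 := hp.1.2
      have h3 := hq.1.2
      exact convex_Icc (0 : ℝ) 1 h2 h3 ha hb hab
    · rcases j with j | c
      · have h2 : 0 ≤ p.2 (Sum.inl j) ∧ p.2 (Sum.inl j) ≤ p.1.2 := hp.2 (Sum.inl j)
        have h3 : 0 ≤ q.2 (Sum.inl j) ∧ q.2 (Sum.inl j) ≤ q.1.2 := hq.2 (Sum.inl j)
        change 0 ≤ a * p.2 (Sum.inl j) + b * q.2 (Sum.inl j) ∧
          a * p.2 (Sum.inl j) + b * q.2 (Sum.inl j) ≤ a * p.1.2 + b * q.1.2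
        constructor
        · exact add_nonneg (mul_nonneg ha h2.1) (mul_nonneg hb h3.1)
        · exact add_le_add (mul_le_mul_of_nonneg_left h2.2 ha) (mul_le_mul_of_nonneg_left h3.2 hb)
      · have h2 : max 0 (p.1.1 (v c.1) + p.1.2 - 1) ≤ p.2 (Sum.inr c) ∧
          p.2 (Sum.inr c) ≤ p.1.1 (v c.1) := hp.2 (Sum.inr c)
        have h3 : max 0 (q.1.1 (v c.1) + q.1.2 - 1) ≤ q.2 (Sum.inr c) ∧
          q.2 (Sum.inr c) ≤ q.1.1 (v c.1) := hq.2 (Sum.inr c)
        change max 0 ((a * p.1.1 (v c.1) + b * q.1.1 (v c.1)) + (a * p.1.2 + b * q.1.2) - 1) ≤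
          a * p.2 (Sum.inr c) + b * q.2 (Sum.inr c) ∧
          a * p.2 (Sum.inr c) + b * q.2 (Sum.inr c) ≤ a * p.1.1 (v c.1) + b * q.1.1 (v c.1)
        have h4 := (max_le_iff.1 h2.1)
        have h5 := (max_le_iff.1 h3.1)
        constructor
        · refine max_le (add_nonneg (mul_nonneg ha h4.1) (mul_nonneg hb h5.1)) ?_
          have h6 := mul_le_mul_of_nonneg_left h4.2 ha
          have h7 := mul_le_mul_of_nonneg_left h5.2 hb
          nlinarith
        · exact add_le_add (mul_le_mul_of_nonneg_left h2.2 ha) (mul_le_mul_of_nonneg_left h3.2 hb)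
  have e : Amp K v M = (ecA σ κ M).symm ⁻¹' SF (aB K) (alo v M) (ahi v M) := rfl
  rw [e]
  exact h1.linear_preimage (ecA σ κ M).symm.toLinearMap

theorem AH_sub {V : Set (Eu σ)} (hV : V ⊆ Z01 σ) {v : κ → σ} {v₁ : Eu σ} (h1 : v₁ ∈ V)
    (hv : ∀ i, v₁ (v i) = 1) : SubA (convexHull ℝ V) v v₁ fun M => AH (convexHull ℝ V) v M := by
  have hc := convex_convexHull ℝ V
  refine ⟨fun M => ?_, fun M p hp => ?_, fun M => ?_, fun M => convex_convexHull ℝ _⟩
  · exact convexHull_min inter_subset_right (Amp_convex hc v M)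
  · obtain ⟨⟨q, hq, hqe⟩, hfib⟩ := hp
    obtain ⟨k, f⟩ := q
    have hs : p.1.1 = (1 - f) • v₁ + f • k := (congrArg Prod.fst hqe).symm
    have hf : p.1.2 = f := (congrArg Prod.snd hqe).symm
    have hk : k ∈ convexHull ℝ V := hq.1
    have hf01 : 0 ≤ f ∧ f ≤ 1 := hq.2
    set H := AH (convexHull ℝ V) v M with hH
    have hHc : Convex ℝ H := convex_convexHull ℝ _
    have hmemH : ∀ p : (Eu σ × ℝ) × Eu (JM κ M), ecA σ κ M p ∈ Z01 (IX σ κ M) →
        p ∈ SF (aB (convexHull ℝ V)) (alo v M) (ahi v M) → ecA σ κ M p ∈ H := fun p h2 h3 =>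
      subset_convexHull ℝ _ ⟨h2, (Amp_mem p).2 h3⟩
    -- first point
    have hA : ∀ ρ : κ × Fin M → ℝ, (∀ c, 0 ≤ ρ c ∧ ρ c ≤ 1) →
        ecA σ κ M ((v₁, 0), WithLp.toLp 2 (Sum.elim (fun _ => 0) ρ)) ∈ H := by
      intro ρ hρ
      refine cube_hull (J := κ × Fin M) hHc (A := fun ρ =>
        ecA σ κ M ((v₁, 0), WithLp.toLp 2 (Sum.elim (fun _ => 0) ρ))) ?_ ?_ hρ
      · intro u u' a b hab
        ext i
        rcases i with i | i | r | c
        · change v₁ i = a * v₁ i + b * v₁ i
          rw [← add_mul, hab, one_mul]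
        · change (0 : ℝ) = a * 0 + b * 0
          ring
        · change (0 : ℝ) = a * 0 + b * 0
          ring
        · rfl
      · intro u hu
        refine hmemH _ (fun i => ?_) ⟨⟨subset_convexHull ℝ _ h1, by norm_num⟩, fun j => ?_⟩
        · rcases i with i | i | r | c
          · exact hV h1 i
          · exact Or.inl rfl
          · exact Or.inl rfl
          · exact hu c
        · rcases j with r | c
          · exact ⟨le_rfl, le_rfl⟩
          · change max 0 (v₁ (v c.1) + 0 - 1) ≤ u c ∧ u c ≤ v₁ (v c.1)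
            rw [hv]
            have h3 : 0 ≤ u c ∧ u c ≤ 1 := by
              rcases hu c with h | h <;> rw [h] <;> norm_num
            constructor
            · norm_num
              exact h3.1
            · exact h3.2
    -- second point
    have hB : ∀ (η : Fin (M ^ 2) → ℝ), (∀ r, 0 ≤ η r ∧ η r ≤ 1) →
        ecA σ κ M ((k, 1), WithLp.toLp 2 (Sum.elim η fun c => k (v c.1))) ∈ H := by
      intro η hη
      refine hull_hull hHc (V := V) (A := fun k : Eu σ =>
        ecA σ κ M ((k, 1), WithLp.toLp 2 (Sum.elim η fun c => k (v c.1)))) ?_ ?_ hk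
      · intro u u' a b hab
        ext i
        rcases i with i | i | r | c
        · rfl
        · change (1 : ℝ) = a * 1 + b * 1
          rw [mul_one, mul_one, hab]
        · change η r = a * η r + b * η r
          rw [← add_mul, hab, one_mul]
        · rfl
      · intro w hw
        refine cube_hull (J := Fin (M ^ 2)) hHc (A := fun η =>
          ecA σ κ M ((w, 1), WithLp.toLp 2 (Sum.elim η fun c => w (v c.1)))) ?_ ?_ hη
        · intro u u' a b hab
          ext i
          rcases i with i | i | r | c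
          · change w i = a * w i + b * w i
            rw [← add_mul, hab, one_mul]
          · change (1 : ℝ) = a * 1 + b * 1
            rw [mul_one, mul_one, hab]
          · rfl
          · change w (v c.1) = a * w (v c.1) + b * w (v c.1)
            rw [← add_mul, hab, one_mul]
        · intro u hu
          refine hmemH _ (fun i => ?_) ⟨⟨subset_convexHull ℝ _ hw, by norm_num⟩, fun j => ?_⟩
          · rcases i with i | i | r | c
            · exact hV hw i
            · exact Or.inr rfl
            · exact hu r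
            · exact hV hw (v c.1)
          · rcases j with r | c
            · change 0 ≤ u r ∧ u r ≤ 1
              rcases hu r with h | h <;> rw [h] <;> norm_num
            · change max 0 (w (v c.1) + 1 - 1) ≤ w (v c.1) ∧ w (v c.1) ≤ w (v c.1)
              refine ⟨?_, le_rfl⟩
              rw [add_sub_cancel_right]
              refine max_le ?_ le_rfl
              rcases hV hw (v c.1) with h | h <;> rw [h] <;> norm_num
    have hwc : ∀ c : κ × Fin M, max 0 (p.1.1 (v c.1) + p.1.2 - 1) ≤ p.2 (Sum.inr c) ∧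
        p.2 (Sum.inr c) ≤ p.1.1 (v c.1) := fun c => hfib (Sum.inr c)
    have hη : ∀ r : Fin (M ^ 2), 0 ≤ p.2 (Sum.inl r) ∧ p.2 (Sum.inl r) ≤ p.1.2 := fun r =>
      hfib (Sum.inl r)
    have hsv : ∀ i : κ, p.1.1 (v i) = (1 - f) + f * k (v i) := by
      intro i
      rw [hs]
      simp only [PiLp.add_apply, PiLp.smul_apply, smul_eq_mul, hv, mul_one]
    rcases eq_or_lt_of_le hf01.1 with hf0 | hf0
    · -- `f = 0`
      have h2 := hA (fun c => p.2 (Sum.inr c)) fun c => by
        have h3 := hwc c
        rw [hsv, ← hf0] at h3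
        constructor
        · exact (le_max_left _ _).trans h3.1
        · linarith [h3.2]
      have e : p = (((v₁, (0 : ℝ)), WithLp.toLp 2 (Sum.elim (fun _ => 0)
          fun c => p.2 (Sum.inr c))) : (Eu σ × ℝ) × Eu (JM κ M)) := by
        refine Prod.ext (Prod.ext ?_ ?_) ?_
        · rw [hs, ← hf0]
          simp
        · rw [hf, ← hf0]
        · ext j
          rcases j with r | c
          · have h3 := hη r
            rw [hf, ← hf0] at h3
            exact le_antisymm h3.2 h3.1
          · rfl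
      rw [e]
      exact h2
    · rcases eq_or_lt_of_le hf01.2 with hf1 | hf1
      · -- `f = 1`
        have h2 := hB (fun r => p.2 (Sum.inl r)) fun r => by
          have h3 := hη r
          rw [hf, hf1] at h3
          exact h3
        have e : p = (((k, (1 : ℝ)), WithLp.toLp 2 (Sum.elim (fun r => p.2 (Sum.inl r))
            fun c => k (v c.1))) : (Eu σ × ℝ) × Eu (JM κ M)) := by
          refine Prod.ext (Prod.ext ?_ ?_) ?_
          · rw [hs, hf1]
            simp
          · rw [hf, hf1]
          · ext j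
            rcases j with r | c
            · rfl
            · have h3 := hwc c
              rw [hsv, hf, hf1] at h3
              have h4 := (le_max_right _ _).trans h3.1
              change p.2 (Sum.inr c) = k (v c.1)
              linarith [h3.2]
        rw [e]
        exact h2
      · -- `0 < f < 1`
        have hg0 : 0 < 1 - f := by linarith
        have h2 := hA (fun c => (p.2 (Sum.inr c) - f * k (v c.1)) / (1 - f)) fun c => by
          have h3 := hwc c
          rw [hsv, hf] at h3
          have h4 := (le_max_right _ _).trans h3.1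
          constructor
          · refine div_nonneg ?_ hg0.le
            linarith
          · rw [div_le_one hg0]
            linarith [h3.2]
        have h3 := hB (fun r => p.2 (Sum.inl r) / f) fun r => by
          have h3 := hη r
          rw [hf] at h3
          exact ⟨div_nonneg h3.1 hf0.le, (div_le_one hf0).2 h3.2⟩
        have h4 := hHc h2 h3 hg0.le hf0.le (by ring)
        rw [← map_smul, ← map_smul, ← map_add] at h4
        have e : (1 - f) • (((v₁, (0 : ℝ)), WithLp.toLp 2 (Sum.elim (fun _ => 0)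
            fun c => (p.2 (Sum.inr c) - f * k (v c.1)) / (1 - f))) : (Eu σ × ℝ) × Eu (JM κ M)) +
            f • (((k, (1 : ℝ)), WithLp.toLp 2 (Sum.elim (fun r => p.2 (Sum.inl r) / f)
              fun c => k (v c.1))) : (Eu σ × ℝ) × Eu (JM κ M)) = p := by
          refine Prod.ext (Prod.ext ?_ ?_) ?_
          · exact hs.symm
          · rw [hf]
            change (1 - f) * 0 + f * 1 = f
            ring
          · ext j
            rcases j with r | c
            · change (1 - f) * 0 + f * (p.2 (Sum.inl r) / f) = p.2 (Sum.inl r)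
              rw [mul_div_cancel₀ _ hf0.ne']
              ring
            · change (1 - f) * ((p.2 (Sum.inr c) - f * k (v c.1)) / (1 - f)) + f * k (v c.1) =
                p.2 (Sum.inr c)
              rw [mul_div_cancel₀ _ hg0.ne']
              ring
        rw [e] at h4
        exact h4
  · exact hull_compact inter_subset_left

end ampz

end Pool.Agent.H776
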