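import Pool.Agent.H776.ZP

/-!
# 0/1-polytopes: copies of affine functions with values 0, 1 at the vertices
-/

set_option autoImplicit false

namespace Pool.Agent.H776

open MeasureTheory Set Filter Topology
open scoped ENNReal InnerProductSpace

section cq

variable {σ κ I : Type} [Fintype σ] [Fintype κ] [Fintype I]

/-- data for copies of functions -/
structure LD (K : Set (Eu σ)) (l : I → Eu σ → ℝ) : Prop where
  cb : CB K
  cont : ∀ i, Continuous (l i)
  mem : ∀ i, ∀ s ∈ K, 0 ≤ l i s ∧ l i s ≤ 1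
  pos : ∃ x ∈ interior K, ∀ i, 0 < l i x

/-- copies of functions -/
def CQ (K : Set (Eu σ)) (l : I → Eu σ → ℝ) : Set (Eu (σ ⊕ I)) :=
  (mkEL σ I).symm ⁻¹' SF K (fun _ _ => 0) l

variable {K : Set (Eu σ)} {l : I → Eu σ → ℝ}

omit [Fintype I] in
theorem cqFib (h : LD K l) : FibD K (fun (_ : I) _ => 0) l :=
  ⟨h.cb.cpt, fun _ => continuous_const, h.cont, fun _ _ _ => le_rfl,
    fun s hs j => (h.mem j s hs).1, fun s hs j => (h.mem j s hs).2⟩

theorem CQ_cb (h : LD K l) : CB (CQ K l) := by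
  have hF := cqFib h
  refine ⟨?_, ?_, fun y hy i => ?_⟩
  · exact (mkEL σ I).symm.toHomeomorph.isClosedEmbedding.isCompact_preimage (SF_compact hF)
  · obtain ⟨s, hs, hsl⟩ := h.pos
    set U : Set (Eu σ × Eu I) := {p | p.1 ∈ interior K ∧ ∀ j, 0 < p.2 j ∧ p.2 j < l j p.1} with hU
    have hUo : IsOpen U := by
      have o1 : IsOpen {p : Eu σ × Eu I | p.1 ∈ interior K} :=
        isOpen_interior.preimage continuous_fst
      have o4 : IsOpen {p : Eu σ × Eu I | ∀ j, 0 < p.2 j ∧ p.2 j < l j p.1} := by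
        rw [ofPred_forall]
        refine isOpen_iInter_of_finite fun j => ?_
        have h4 := h.cont j
        change IsOpen ({p : Eu σ × Eu I | 0 < p.2 j} ∩
          {p : Eu σ × Eu I | p.2 j < l j p.1})
        exact (isOpen_lt (by fun_prop) (by fun_prop)).inter
          (isOpen_lt (by fun_prop) (h4.comp continuous_fst))
      exact o1.inter o4
    have hUs : U ⊆ SF K (fun _ _ => 0) l := fun p hp =>
      ⟨interior_subset hp.1, fun j => ⟨(hp.2 j).1.le, (hp.2 j).2.le⟩⟩
    refine ⟨mkEL σ I (s, WithLp.toLp 2 fun j => l j s / 2), ?_⟩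
    rw [mem_interior]
    refine ⟨(mkEL σ I).symm ⁻¹' U, fun y hy => hUs hy, hUo.preimage
      (mkEL σ I).symm.continuous, ?_⟩
    rw [mem_preimage, ContinuousLinearEquiv.symm_apply_apply]
    refine ⟨hs, fun j => ?_⟩
    have := hsl j
    constructor
    · change 0 < l j s / 2
      linarith
    · change l j s / 2 < l j s
      linarith
  · have h2 : (mkEL σ I).symm y ∈ SF K (fun _ _ => 0) l := hy
    rw [mkEL_symm] at h2
    rcases i with i | j
    · exact h.cb.cube _ h2.1 i
    · exact ⟨(h2.2 j).1, (h2.2 j).2.trans (h.mem j _ h2.1).2⟩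

theorem CQ_ind (p : Eu σ × Eu I) : (CQ K l).indicator (fun _ => (1 : ℝ)) (mkEL σ I p) =
    wF K (fun _ _ => 0) l p := by
  unfold wF CQ
  have h : (mkEL σ I).symm (mkEL σ I p) = p := ContinuousLinearEquiv.symm_apply_apply _ _
  by_cases hp : p ∈ SF K (fun _ _ => 0) l
  · rw [indicator_of_mem hp, indicator_of_mem]
    rw [mem_preimage, h]
    exact hp
  · rw [indicator_of_notMem hp, indicator_of_notMem]
    rw [mem_preimage, h]
    exact hp

/-- the weights -/
noncomputable def wq (K : Set (Eu σ)) (l : I → Eu σ → ℝ) (s : Eu σ) : ℝ :=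
  K.indicator (fun s => ∏ i, l i s) s

theorem wq_nonneg (h : LD K l) (s : Eu σ) : 0 ≤ wq K l s := by
  refine indicator_nonneg (fun s hs => ?_) s
  exact Finset.prod_nonneg fun i _ => (h.mem i _ hs).1

theorem wq_meas (h : LD K l) : Measurable (wq K l) :=
  (continuous_finsetProd _ fun i _ => h.cont i).measurable.indicator h.cb.cpt.measurableSet

theorem wq_rep (h : LD K l) {φ : Eu σ → ℝ} (hφ : Continuous φ) :
    ∫ p : Eu σ × Eu I, φ p.1 * wF K (fun _ _ => 0) l p = ∫ s, φ s * wq K l s := by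
  rw [(fibM1 (cqFib h) hφ).2]
  refine integral_congr_ae (Eventually.of_forall fun s => ?_)
  unfold wq
  by_cases hs : s ∈ K
  · simp only [indicator_of_mem hs, sub_zero]
  · simp only [indicator_of_notMem hs, mul_zero]

theorem wt_wq (h : LD K l) : Wt (wq K l) := by
  have hC := CQ_cb h
  have hw := wt_ind hC.cpt hC.int
  refine ⟨wq_nonneg h, wq_meas h, ?_, ?_⟩
  · have := vol_haar σ I
    have h1 := hw.pos
    rw [← integral_pos_scale (volume : Measure (Eu σ × Eu I)) volume (mkEL σ I) 0] at h1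
    simp only [add_zero, CQ_ind] at h1
    have h2 := wq_rep h (φ := fun _ => 1) continuous_const
    simp only [one_mul] at h2
    rwa [h2] at h1
  · have h1 : IntegrableOn (fun s : Eu σ => (1 + ‖s‖ ^ 2) * ∏ i, l i s) K := by
      have h2 : Continuous fun s : Eu σ => (1 + ‖s‖ ^ 2) * ∏ i, l i s :=
        (by fun_prop : Continuous fun s : Eu σ => 1 + ‖s‖ ^ 2).mul
          (continuous_finsetProd _ fun i _ => h.cont i)
      exact h2.continuousOn.integrableOn_compact h.cb.cpt
    refine ((integrable_indicator_iff h.cb.cpt.measurableSet).2 h1).congr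
      (Eventually.of_forall fun s => ?_)
    unfold wq
    by_cases hs : s ∈ K
    · simp only [indicator_of_mem hs]
    · simp only [indicator_of_notMem hs, mul_zero]

/-- the weights are densities of marginals -/
theorem CQ_map (h : LD K l) :
    (nm ((CQ K l).indicator fun _ => (1 : ℝ))).map pl = nm (wq K l) := by
  have hC := CQ_cb h
  have hw := wt_ind hC.cpt hC.int
  have hw' := wt_wq h
  have := hw.prob
  have := hw'.prob
  have hpl : Measurable (pl : Eu (σ ⊕ I) → Eu σ) := cont_pl.measurable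
  have := Measure.isProbabilityMeasure_map (μ := nm ((CQ K l).indicator fun _ => (1 : ℝ)))
    hpl.aemeasurable
  refine ext_of_forall_integral_eq_of_IsFiniteMeasure fun φ => ?_
  have := vol_haar σ I
  rw [integral_map hpl.aemeasurable φ.continuous.aestronglyMeasurable,
    integral_nm hw.nonneg hw.meas, integral_nm hw'.nonneg hw'.meas,
    integral_quot (volume : Measure (Eu σ × Eu I)) volume (mkEL σ I) 0]
  simp only [add_zero, CQ_ind]
  have h1 := wq_rep h (φ := fun s => φ s) φ.continuous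
  have h2 := wq_rep h (φ := fun _ => 1) continuous_const
  simp only [one_mul] at h2
  rw [h2]
  exact congrArg (fun r => r / ∫ s, wq K l s) h1

/-- the vertices of the polytope with copies -/
def VQ (V : Set (Eu σ)) (l : I → Eu σ → ℝ) : Set (Eu (σ ⊕ I)) :=
  {y | pl y ∈ V ∧ ∀ i, (y (Sum.inr i) = 0 ∨ y (Sum.inr i) = 1) ∧ y (Sum.inr i) ≤ l i (pl y)}

theorem CQ_hull {V : Set (Eu σ)} (hV : V ⊆ Z01 σ) (hl : ∀ i, IsAff (l i))
    (hv : ∀ i, ∀ v ∈ V, l i v = 0 ∨ l i v = 1) :
    VQ V l ⊆ Z01 (σ ⊕ I) ∧ CQ (convexHull ℝ V) l = convexHull ℝ (VQ V l) := by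
  refine ⟨fun y hy i => ?_, ?_⟩
  · rcases i with i | i
    · exact hV hy.1 i
    · exact (hy.2 i).1
  refine Subset.antisymm (fun y hy => ?_) (convexHull_min (fun y hy => ?_) ?_)
  · have h1 : pl y ∈ convexHull ℝ V := hy.1
    have h2 : ∀ i, 0 ≤ y (Sum.inr i) ∧ y (Sum.inr i) ≤ l i (pl y) := hy.2
    have hc := convex_convexHull ℝ (VQ V l)
    -- boxes over the vertices and over all points
    have hθ : ∀ θ : I → ℝ, (∀ i, 0 ≤ θ i ∧ θ i ≤ 1) → ∀ s ∈ convexHull ℝ V,
        (mk s (WithLp.toLp 2 fun i => θ i * l i s) : Eu (σ ⊕ I)) ∈ convexHull ℝ (VQ V l) := by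
      intro θ hθ s hs
      refine hull_hull hc (A := fun s => (mk s (WithLp.toLp 2 fun i => θ i * l i s) :
        Eu (σ ⊕ I))) ?_ ?_ hs
      · intro u u' a b hab
        ext i
        rcases i with i | i
        · rfl
        · change θ i * l i (a • u + b • u') = a * (θ i * l i u) + b * (θ i * l i u')
          rw [hl i u u' a b hab]
          simp only [smul_eq_mul]
          ring
      · intro w hw
        refine cube_hull hc (A := fun θ : I → ℝ => (mk w (WithLp.toLp 2 fun i => θ i * l i w) :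
          Eu (σ ⊕ I))) ?_ ?_ hθ
        · intro u u' a b hab
          ext i
          rcases i with i | i
          · change w i = a * w i + b * w i
            rw [← add_mul, hab, one_mul]
          · change (a * u i + b * u' i) * l i w = a * (u i * l i w) + b * (u' i * l i w)
            ring
        · intro u hu
          refine subset_convexHull ℝ _ ⟨hw, fun i => ⟨?_, ?_⟩⟩
          · change u i * l i w = 0 ∨ u i * l i w = 1
            rcases hu i with h | h <;> rcases hv i w hw with h' | h' <;> simp [h, h']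
          · change u i * l i w ≤ l i w
            rcases hu i with h | h <;> rcases hv i w hw with h' | h' <;> simp [h, h']
    have h3 := hθ (fun i => if l i (pl y) = 0 then 0 else y (Sum.inr i) / l i (pl y))
      (fun i => by
        by_cases h0 : l i (pl y) = 0
        · rw [if_pos h0]
          norm_num
        · rw [if_neg h0]
          have h4 : 0 < l i (pl y) := lt_of_le_of_ne ((h2 i).1.trans (h2 i).2) (Ne.symm h0)
          exact ⟨div_nonneg (h2 i).1 h4.le, (div_le_one h4).2 (h2 i).2⟩) _ h1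
    have e : (mk (pl y) (WithLp.toLp 2 fun i =>
        (if l i (pl y) = 0 then 0 else y (Sum.inr i) / l i (pl y)) * l i (pl y)) :
        Eu (σ ⊕ I)) = y := by
      ext i
      rcases i with i | i
      · rfl
      · change (if l i (pl y) = 0 then 0 else y (Sum.inr i) / l i (pl y)) * l i (pl y) =
          y (Sum.inr i)
        by_cases h0 : l i (pl y) = 0
        · rw [if_pos h0, zero_mul]
          have h4 := h2 i
          rw [h0] at h4
          exact le_antisymm h4.1 h4.2
        · rw [if_neg h0, div_mul_cancel₀ _ h0]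
    rw [e] at h3
    exact h3
  · refine ⟨subset_convexHull ℝ _ hy.1, fun i => ⟨?_, (hy.2 i).2⟩⟩
    change 0 ≤ y (Sum.inr i)
    rcases (hy.2 i).1 with h | h <;> rw [h] <;> norm_num
  · intro x hx y hy a b ha hb hab
    have hx' : pl x ∈ convexHull ℝ V ∧ ∀ i, 0 ≤ x (Sum.inr i) ∧ x (Sum.inr i) ≤ l i (pl x) := hx
    have hy' : pl y ∈ convexHull ℝ V ∧ ∀ i, 0 ≤ y (Sum.inr i) ∧ y (Sum.inr i) ≤ l i (pl y) := hy
    refine ⟨convex_convexHull ℝ V hx'.1 hy'.1 ha hb hab, fun i => ⟨?_, ?_⟩⟩
    · exact add_nonneg (mul_nonneg ha (hx'.2 i).1) (mul_nonneg hb (hy'.2 i).1)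
    · change a * x (Sum.inr i) + b * y (Sum.inr i) ≤ l i (a • pl x + b • pl y)
      rw [hl i _ _ a b hab]
      exact add_le_add (mul_le_mul_of_nonneg_left (hx'.2 i).2 ha)
        (mul_le_mul_of_nonneg_left (hy'.2 i).2 hb)

/-- **weights on 0/1-polytopes** -/
theorem kp_wgtZ {D : ℝ} (hD : 0 ≤ D)
    (H : ∀ (σ : Type) [Fintype σ] (K : Set (Eu σ)), IsZP K → (interior K).Nonempty →
      KP (nm (K.indicator fun _ => (1 : ℝ))) D)
    {V : Set (Eu σ)} (hV : V ⊆ Z01 σ) {l : I → Eu σ → ℝ} (hL : LD (convexHull ℝ V) l)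
    (hl : ∀ i, IsAff (l i)) (hv : ∀ i, ∀ w ∈ V, l i w = 0 ∨ l i w = 1) (v : κ → σ)
    {v₁ : Eu σ} (h1 : v₁ ∈ V) (hv1 : ∀ i, v₁ (v i) = 1) :
    KP ((nm (wq (convexHull ℝ V) l)).map (pv v)) D := by
  have hQ := CQ_hull hV hl hv
  have hC := CQ_cb hL
  rw [← CQ_map hL, Measure.map_map pv_cont.measurable cont_pl.measurable]
  rw [hQ.2] at hC ⊢
  have hm : (mk v₁ 0 : Eu (σ ⊕ I)) ∈ VQ V l := by
    refine ⟨h1, fun i => ⟨Or.inl rfl, ?_⟩⟩
    change (0 : ℝ) ≤ l i v₁
    rcases hv i v₁ h1 with h | h <;> rw [h]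
    exact zero_le_one
  exact kp_amp_sub hD hC (convex_convexHull ℝ _) (subset_convexHull ℝ _ hm)
    (AH_sub hQ.1 (v := fun i => (Sum.inl (v i) : σ ⊕ I)) hm hv1)
    fun M _ hi => H _ _ ⟨_, inter_subset_left, rfl⟩ hi

end cq

end Pool.Agent.H776
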